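import Pool.Agent.N2.GS_Gpt
import Pool.Agent.MU3.Q_ALL
import Pool.Agent.MUX.N_RET
import Pool.Agent.MUX.N_NFE
import Pool.Agent.MUX.N_DSC
import Pool.Agent.MUX.N_DSI
import Pool.Agent.MUX.N_ZL
import Pool.Agent.MUX.N_FK
import Pool.Agent.MUX.N_FGG
import Pool.Agent.MUX.N_DV
import Pool.Agent.MUX.N_LOC
import Pool.Agent.MUX.YAll
import Pool.Agent.MUX.XTMain

/-!
# N2, block GS without hypotheses (helper6): `2` ramified
-/

set_option autoImplicit false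

namespace Pool.Agent.N2

open _root_.MU3 Pool.Agent.MUX Pool.Agent.MUXN Pool.Agent.MUXF Pool.Agent.MUXY Pool.Agent.MUXU
  Pool.Agent.MuSym OnePoint

/-- Theorem G+ at `p = 2` ramified, for the translates by `1/8`, `1/32` -/
theorem gq_GPT : SQ_GPT :=
  gPT_Q tg_RET tg_NFE (tg_DSC tg_DSI) tg_ZL (tg_FK u_AUF) tg_FGG tg_LOC Pool.Agent.MU3Q.wq
    tg_DV u_SCX Pool.Agent.MUXT.main_FTI xf_CHI y_CON y_ALP y_FEC y_COP xf_ALG
    xf_IDL xf_NIM xf_QB xf_BDD xf_TSM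

end Pool.Agent.N2
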