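import Pool.Agent.N2.StR
import Pool.Agent.MUX.XLib

/-!
# MUX-2N, block R2N, module ALC: the multiplier `α = 1 + 3 β`, 2 ramified
-/

set_option autoImplicit false

open WeierstrassCurve Polynomial

namespace Pool.Agent.N2R

open _root_.MU3 Pool.Agent.MU3A Pool.Agent.MU3B Pool.Agent.RI Pool.Agent.MUX Pool.Agent.MUXU
open Pool.Agent.MUXV (InK tX)
open Pool.Agent.MUX2 (GRG)
open Pool.Agent.NS (xu)
open Pool.Agent.N2 (WT yt et GoodT CaseT)

noncomputable section

namespace ALC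

variable {A B : ℤ} {V : ValuationSubring ℂ}

lemma v_int (V : ValuationSubring ℂ) (n : ℤ) : V.valuation (n : ℂ) ≤ 1 :=
  (V.valuation_le_one_iff _).2 (intCast_mem V n)

lemma wC_mem (h : CQ A B) (V : ValuationSubring ℂ) : wC A B ∈ V := by
  rcases V.mem_or_inv_mem (wC A B) with h1 | h1
  · exact h1
  · have h0 : wC A B ≠ 0 := wC_ne_zero h
    have h2 : wC A B = (A : ℂ) * (wC A B)⁻¹ + (B : ℂ) := by
      have h3 := wC_sq h
      field_simp
      linear_combination h3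
    rw [h2]
    exact add_mem (mul_mem (intCast_mem V A) h1) (intCast_mem V B)

lemma v_emb (h : CQ A B) (V : ValuationSubring ℂ) (x : OO A B) : V.valuation (emb x) ≤ 1 := by
  refine (V.valuation_le_one_iff _).2 ?_
  unfold emb
  exact add_mem (intCast_mem V _) (mul_mem (intCast_mem V _) (wC_mem h V))

lemma v_odd (h2 : V.valuation (2 : ℂ) < 1) {n : ℤ} (hn : ¬ (2 : ℤ) ∣ n) :
    V.valuation (n : ℂ) = 1 := by
  refine le_antisymm (v_int V n) (not_lt.1 fun hlt => ?_)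
  obtain ⟨k, hk⟩ : ∃ k : ℤ, n = 2 * k + 1 := ⟨n / 2, by omega⟩
  have h3 : (n : ℂ) - 2 * (k : ℂ) = 1 := by
    rw [hk]; push_cast; ring
  have h4 : V.valuation (2 * (k : ℂ)) < 1 := by
    rw [map_mul]
    exact lt_of_le_of_lt (mul_le_of_le_one_right' (v_int V k)) h2
  have h6 := Valuation.map_sub_lt V.valuation hlt h4
  rw [h3, map_one] at h6
  exact lt_irrefl _ h6

lemma emb_mul_star (h : CQ A B) (x : OO A B) : emb x * emb (star x) = ((nm x : ℤ) : ℂ) := by
  rw [← emb_mul h, mul_star, emb_intCast h]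

lemma v_unit (h : CQ A B) (h2 : V.valuation (2 : ℂ) < 1) {x : OO A B} (hx : ¬ (2 : ℤ) ∣ nm x) :
    V.valuation (emb x) = 1 := by
  have h1 := congrArg V.valuation (emb_mul_star h x)
  rw [map_mul, v_odd h2 hx] at h1
  refine le_antisymm (v_emb h V x) (not_lt.1 fun hlt => ?_)
  have h3 : V.valuation (emb x) * V.valuation (emb (star x)) < 1 :=
    lt_of_le_of_lt (mul_le_of_le_one_right' (v_emb h V (star x))) hlt
  rw [h1] at h3
  exact lt_irrefl _ h3

/-- assembling the structure -/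
lemma mk (h : CQ A B) (h2 : V.valuation (2 : ℂ) < 1) (β α' : OO A B) (n : ℤ) (hn : 1 < n)
    (hodd : ¬ (2 : ℤ) ∣ n) (hnm : (n : ℂ) = emb α' * alB β)
    (hβ : V.valuation (emb β) ^ 2 = V.valuation (2 : ℂ)) :
    ∃ (β : OO A B) (N : ℕ), CtxB A B V β N ∧ V.valuation (emb β) ^ 2 = V.valuation (2 : ℂ) := by
  obtain ⟨N, hN⟩ : ∃ N : ℕ, (N : ℤ) = n := ⟨n.toNat, by omega⟩
  have hNC : (N : ℂ) = (n : ℂ) := by
    rw [← hN]
    push_cast
    rfl
  have h3 : V.valuation (3 : ℂ) = 1 := by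
    have := v_odd (V := V) h2 (n := 3) (by norm_num)
    simpa using this
  have h20 : V.valuation (2 : ℂ) ≠ 0 := by
    rw [Ne, map_eq_zero]
    norm_num
  refine ⟨β, N, ⟨h, h2, h3, ?_, ⟨α', ?_⟩, ?_, by omega, ?_⟩, hβ⟩
  · rw [← not_le]
    intro hle
    have h1 : V.valuation (2 : ℂ) ≤ V.valuation (2 : ℂ) * V.valuation (2 : ℂ) := by
      calc V.valuation (2 : ℂ) = V.valuation (emb β) * V.valuation (emb β) := by
            rw [← sq, hβ]
        _ ≤ V.valuation (2 : ℂ) * V.valuation (2 : ℂ) := mul_le_mul' hle hle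
    have h4 : V.valuation (2 : ℂ) * V.valuation (2 : ℂ) < V.valuation (2 : ℂ) * 1 :=
      (mul_lt_mul_iff_right₀ (zero_lt_iff.2 h20)).2 h2
    rw [mul_one] at h4
    exact absurd h1 (not_le.2 h4)
  · rw [hNC]; exact hnm
  · rw [← Int.odd_coe_nat, hN]
    exact Int.not_even_iff_odd.1 fun he => hodd he.two_dvd
  · rw [hNC]
    exact v_odd h2 hodd

end ALC

open ALC in
theorem tr_ALC : Sr_ALC := by
  intro A B V P hQ hD hV hP
  have hv2 : V.valuation (2 : ℂ) < 1 := by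
    have h1 := (hV _).2 hP
    rw [MUX.emb_natCast hQ] at h1
    have h2 := (ValuationSubring.mem_nonunits_iff V).1 h1
    simpa using h2
  have hw := MUX.wC_sq hQ
  have hneg := hQ.neg
  rcases hQ.hB with hB | hB
  swap
  · subst hB
    omega
  subst hB
  obtain ⟨hsq, h4⟩ := hQ.fund0 rfl
  have hw' : wC A 0 * wC A 0 = (A : ℂ) := by
    rw [hw]
    push_cast
    ring
  by_cases hA : (2 : ℤ) ∣ A
  · obtain ⟨a, ha⟩ := hA
    have h2a : ¬ (2 : ℤ) ∣ a := by
      rintro ⟨c, hc⟩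
      have h2 := hsq 2 ⟨c, by rw [ha, hc]; ring⟩
      exact absurd (Int.isUnit_iff.1 h2) (by norm_num)
    refine ALC.mk hQ hv2 ⟨0, 1⟩ ⟨1, -3⟩ (1 - 9 * A) (by omega) (by omega) ?_ ?_
    · unfold alB emb
      push_cast
      linear_combination (9 : ℂ) * hw'
    · rw [MUX.emb_w, sq, ← map_mul, hw', ha]
      push_cast
      rw [map_mul, v_odd hv2 h2a, mul_one]
  · obtain ⟨k, hk⟩ : ∃ k : ℤ, A + 1 = 4 * k := ⟨(A + 1) / 4, by omega⟩
    refine ALC.mk hQ hv2 ⟨1, 1⟩ ⟨4, -3⟩ (16 - 9 * A) (by omega) (by omega) ?_ ?_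
    · unfold alB emb
      push_cast
      linear_combination (9 : ℂ) * hw'
    · have hu : V.valuation (emb (⟨2 * k, 1⟩ : OO A 0)) = 1 := by
        refine v_unit hQ hv2 ?_
        have h8 : nm (⟨2 * k, 1⟩ : OO A 0) = 4 * k ^ 2 - A := by
          unfold nm
          simp only
          ring
        rw [h8]
        omega
      have h5 : ((A : ℤ) : ℂ) + 1 = 4 * (k : ℂ) := by exact_mod_cast hk
      have h6 : emb (⟨1, 1⟩ : OO A 0) * emb (⟨1, 1⟩ : OO A 0) =
          2 * emb (⟨2 * k, 1⟩ : OO A 0) := by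
        unfold emb
        push_cast
        linear_combination hw' + h5
      rw [sq, ← map_mul, h6, map_mul, hu, mul_one]

end

end Pool.Agent.N2R
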