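import Pool.Agent.N2.StR
import Pool.Agent.MU3.BAll

/-!
# MUX-2N, block R, module CHT: addition formulas in Deuring form (helper91)

Model: `Pool/Agent/NS/RN_CHT.lean` (helper80). `℘ = u² X + e`, `℘' = u³ T`, `2 Y = T - a X - c`;
the slope of the chord (tangent) in Deuring form is `m = M / u - a / 2`, `M` the slope of `b_ADD`
(`b_DUP`).
-/

set_option autoImplicit false

open WeierstrassCurve Polynomial

namespace Pool.Agent.N2R

open _root_.MU3 Pool.Agent.MU3A Pool.Agent.MU3B Pool.Agent.RI Pool.Agent.MUX Pool.Agent.MUXU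
open Pool.Agent.MUXV (InK tX)
open Pool.Agent.MUX2 (GRG)
open Pool.Agent.NS (xu)
open Pool.Agent.N2 (WT yt et GoodT CaseT)

noncomputable section

namespace CHT

/-- the algebra: from the Weierstrass form (slope `M`) to the Deuring form (`m = M / u - a / 2`) -/
lemma alg_x {u e a P Q S M m : ℂ} (hu : u ≠ 0) (he : 12 * e = u ^ 2 * a ^ 2)
    (hS : S + P + Q = M ^ 2) (hm : m = M / u - a / 2) :
    (S - e) / u ^ 2 = m ^ 2 + a * m - (P - e) / u ^ 2 - (Q - e) / u ^ 2 := by
  have hS' : S = M ^ 2 - P - Q := by linear_combination hS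
  have he' : e = u ^ 2 * a ^ 2 / 12 := by linear_combination he / 12
  rw [hm, hS', he']
  field_simp
  ring

lemma alg_y {u e a c P S P' S' M m : ℂ} (hu : u ≠ 0) (hS : S' + P' = -2 * M * (S - P))
    (hm : m = M / u - a / 2) :
    (S' / u ^ 3 - a * ((S - e) / u ^ 2) - c) / 2 =
      -((P' / u ^ 3 - a * ((P - e) / u ^ 2) - c) / 2 +
        m * ((S - e) / u ^ 2 - (P - e) / u ^ 2)) - a * ((S - e) / u ^ 2) - c := by
  have hS' : S' = -2 * M * (S - P) - P' := by linear_combination hS
  rw [hm, hS']
  field_simp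
  ring

end CHT

open CHT in
theorem tr_CHT (hDEF : Sr_DEF) : Sr_CHT := by
  intro L u e a c hL
  obtain ⟨he, -, -, hg2, -, -, -⟩ := hDEF L u e a c hL
  have hu : u ≠ 0 := hL.u0
  refine ⟨fun z w hz hw hzw hzmw => ?_, fun z h2z => ?_⟩
  · obtain ⟨h1, h2⟩ := b_ADD L w z hw hz hzw hzmw
    have hne : L.weierstrassP z - L.weierstrassP w ≠ 0 := by
      intro h0
      rcases b_NEQ L w z hw hz (sub_eq_zero.1 h0) with h | h
      · exact hzmw h
      · exact hzw h
    have hXX : xu L u e z - xu L u e w = (L.weierstrassP z - L.weierstrassP w) / u ^ 2 := by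
      unfold xu
      ring
    have hm : (yt L u e a c z - yt L u e a c w) / (xu L u e z - xu L u e w) =
        (L.derivWeierstrassP z - L.derivWeierstrassP w) /
          (2 * (L.weierstrassP z - L.weierstrassP w)) / u - a / 2 := by
      have hYY : yt L u e a c z - yt L u e a c w =
          ((L.derivWeierstrassP z - L.derivWeierstrassP w) / u ^ 3 -
            a * (xu L u e z - xu L u e w)) / 2 := by
        unfold yt et
        ring
      rw [hYY, hXX]
      field_simp
    refine ⟨?_, ?_, ?_⟩
    · rw [hXX]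
      exact div_ne_zero hne (pow_ne_zero 2 hu)
    · exact alg_x hu he h1 hm
    · exact alg_y (e := e) hu h2 hm
  · obtain ⟨h1, h2⟩ := b_DUP L z h2z
    have hz : z ∉ L.lattice := by
      intro h
      apply h2z
      rw [two_mul]
      exact add_mem h h
    have hne : L.derivWeierstrassP z ≠ 0 := fun h0 => h2z ((b_ZER L z hz).1 h0)
    have hTT : 2 * yt L u e a c z + a * xu L u e z + c = L.derivWeierstrassP z / u ^ 3 := by
      unfold yt et
      ring
    have hy : 2 * yt L u e a c z + a * xu L u e z + c ≠ 0 := by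
      rw [hTT]
      exact div_ne_zero hne (pow_ne_zero 3 hu)
    have hT : u ^ 4 * (6 * xu L u e z ^ 2 + a ^ 2 * xu L u e z + a * c) =
        6 * L.weierstrassP z ^ 2 - L.g₂ / 2 := by
      have hx : L.weierstrassP z = u ^ 2 * xu L u e z + e := by
        unfold xu
        field_simp
        ring
      have he' : e = u ^ 2 * a ^ 2 / 12 := by linear_combination he / 12
      rw [hg2, hx, he']
      ring
    have hm : (3 * xu L u e z ^ 2 - a * yt L u e a c z) /
        (2 * yt L u e a c z + a * xu L u e z + c) =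
        (6 * L.weierstrassP z ^ 2 - L.g₂ / 2) / (2 * L.derivWeierstrassP z) / u - a / 2 := by
      rw [← hT]
      have h3 : 3 * xu L u e z ^ 2 - a * yt L u e a c z =
          ((6 * xu L u e z ^ 2 + a ^ 2 * xu L u e z + a * c) -
            a * (L.derivWeierstrassP z / u ^ 3)) / 2 := by
        rw [← hTT]
        ring
      rw [h3, hTT]
      field_simp
    refine ⟨hy, ?_, ?_⟩
    · have h1' : L.weierstrassP (2 * z) + L.weierstrassP z + L.weierstrassP z =
          ((6 * L.weierstrassP z ^ 2 - L.g₂ / 2) / (2 * L.derivWeierstrassP z)) ^ 2 := by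
        rw [← h1]
        ring
      have h4 := alg_x hu he h1' hm
      unfold xu at h4 ⊢
      rw [h4]
      ring
    · exact alg_y (e := e) hu h2 hm

end

end Pool.Agent.N2R
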