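import Pool.Agent.N2.StR
import Pool.Agent.MUX.VG

/-!
# MUX-2N, block R, module CLO (helper85): torsion points of close curves are close

Adapted from `Pool/Agent/NS/RN_CLO.lean` (helper58).
-/

set_option autoImplicit false

open WeierstrassCurve Polynomial

namespace Pool.Agent.N2R

open _root_.MU3 Pool.Agent.MU3A Pool.Agent.MU3B Pool.Agent.RI Pool.Agent.MUX Pool.Agent.MUXU
open Pool.Agent.MUXV Pool.Agent.MU3.Val
open Pool.Agent.MUX2
open Pool.Agent.NS (xu)
open Pool.Agent.N2 (WT yt et GoodT CaseT)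

noncomputable section

namespace CLO

section cg

variable {Γ₀ : Type} [LinearOrderedCommGroupWithZero Γ₀] {v : Valuation ℂ Γ₀} {d : Γ₀}

/-- congruence modulo `d` -/
def Cg (v : Valuation ℂ Γ₀) (d : Γ₀) (a b : ℂ) : Prop := v (a - b) ≤ d

theorem Cg.add {a b a' b' : ℂ} (h : Cg v d a b) (h' : Cg v d a' b') :
    Cg v d (a + a') (b + b') := by
  unfold Cg at *
  rw [show a + a' - (b + b') = (a - b) + (a' - b') by ring]
  exact v_add_le h h'

theorem Cg.sub {a b a' b' : ℂ} (h : Cg v d a b) (h' : Cg v d a' b') :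
    Cg v d (a - a') (b - b') := by
  unfold Cg at *
  rw [show a - a' - (b - b') = (a - b) - (a' - b') by ring]
  exact v_sub_le h h'

theorem Cg.neg {a b : ℂ} (h : Cg v d a b) : Cg v d (-a) (-b) := by
  unfold Cg at *
  rw [show -a - -b = -(a - b) by ring, Valuation.map_neg]
  exact h

theorem Cg.mul {a b a' b' : ℂ} (h : Cg v d a b) (h' : Cg v d a' b') (ha' : v a' ≤ 1)
    (hb : v b ≤ 1) : Cg v d (a * a') (b * b') := by
  unfold Cg at *
  rw [show a * a' - b * b' = a' * (a - b) + b * (a' - b') by ring]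
  exact v_add_le (v_mul_le_right ha' h) (v_mul_le_right hb h')

theorem Cg.refl (a : ℂ) : Cg v d a a := by
  unfold Cg
  rw [sub_self, map_zero]
  exact zero_le

theorem Cg.div {a b a' b' : ℂ} (h : Cg v d a b) (h' : Cg v d a' b') (ha' : v a' = 1)
    (hb' : v b' = 1) (hb : v b ≤ 1) : Cg v d (a / a') (b / b') := by
  unfold Cg at *
  have h1 : a' ≠ 0 := by
    rintro rfl
    rw [map_zero] at ha'
    exact zero_ne_one ha'
  have h2 : b' ≠ 0 := by
    rintro rfl
    rw [map_zero] at hb'
    exact zero_ne_one hb'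
  rw [show a / a' - b / b' = (b' * (a - b) - b * (a' - b')) / (a' * b') by field_simp; ring,
    map_div₀, map_mul, ha', hb', one_mul, div_one]
  exact v_sub_le (v_mul_le_right hb'.le h) (v_mul_le_right hb h')

theorem v_div_le {a b : ℂ} (ha : v a ≤ 1) (hb : v b = 1) : v (a / b) ≤ 1 := by
  rw [map_div₀, hb, div_one]
  exact ha

end cg

variable {V : ValuationSubring ℂ} {L : PeriodPair} {X Y : ℂ → ℂ} {a : ℂ}
  {ξ : ℂ →+ (WT a 1).Point}

theorem dx_unit (G : GRG V (WT a 1) L X Y ξ) {z : ℂ} (hz : ¬ InK V L X z)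
    (h2 : ¬ InK V L X (2 * z)) : V.valuation (2 * Y z + a * X z + 1) = 1 := by
  have h3 := gv_DX G hz h2
  simpa [WT] using h3

theorem X_neg (G : GRG V (WT a 1) L X Y ξ) {z : ℂ} (hz : z ∉ L.lattice) :
    X (-z) = X z ∧ Y (-z) = -Y z - a * X z - 1 := by
  obtain ⟨h3, e3⟩ := G.some z hz
  have hz' : -z ∉ L.lattice := fun h => hz (by simpa using neg_mem h)
  obtain ⟨h4, e4⟩ := G.some (-z) hz'
  rw [map_neg, e3, Affine.Point.neg_some] at e4
  obtain ⟨e5, e6⟩ : X z = X (-z) ∧ (WT a 1).negY (X z) (Y z) = Y (-z) := by simpa using e4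
  refine ⟨e5.symm, ?_⟩
  rw [← e6, Affine.negY]
  simp only [WT]

theorem X_add_mem (G : GRG V (WT a 1) L X Y ξ) {z w : ℂ} (hz : z ∉ L.lattice)
    (hw : w ∈ L.lattice) : X (z + w) = X z ∧ Y (z + w) = Y z := by
  have h3 := G.zero w hw
  obtain ⟨h4, e4⟩ := G.some z hz
  have hzw : z + w ∉ L.lattice := fun h5 => hz (by
    have := sub_mem h5 hw; rwa [add_sub_cancel_right] at this)
  obtain ⟨h5, e5⟩ := G.some (z + w) hzw
  rw [map_add, h3, add_zero, e4] at e5
  obtain ⟨e6, e7⟩ : X z = X (z + w) ∧ Y z = Y (z + w) := by simpa using e5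
  exact ⟨e6.symm, e7.symm⟩

theorem curve_eq (G : GRG V (WT a 1) L X Y ξ) {z : ℂ} (hz : z ∉ L.lattice) :
    Y z ^ 2 + a * X z * Y z + Y z = X z ^ 3 := by
  obtain ⟨h3, -⟩ := G.some z hz
  have h4 := (Affine.equation_iff _ _).1 h3.1
  simp only [WT] at h4
  linear_combination h4

end CLO

open CLO in
theorem tr_CLO (h1 : Sr_GRT) (h2 : Sr_CHT) : Sr_CLO := by
  intro V L L' u e a u' e' a' v3 hL hL' va hδ n hodd hn1 vn q q' hq hnq hnq' hx hy
  have va' : V.valuation a' < 1 := by
    rw [show a' = a + (a' - a) by ring]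
    exact lt_of_le_of_lt (V.valuation.map_add _ _) (max_lt va hδ)
  obtain ⟨ξ, G, hsurj⟩ := h1 V L u e a 1 v3 va (map_one _) hL
  obtain ⟨ξ', G', -⟩ := h1 V L' u' e' a' 1 v3 va' (map_one _) hL'
  obtain ⟨cadd, cdup⟩ := h2 L u e a 1 hL
  obtain ⟨cadd', cdup'⟩ := h2 L' u' e' a' 1 hL'
  set X : ℂ → ℂ := xu L u e with hX
  set Y : ℂ → ℂ := yt L u e a 1 with hY
  set X' : ℂ → ℂ := xu L' u' e' with hX'
  set Y' : ℂ → ℂ := yt L' u' e' a' 1 with hY'
  set d := V.valuation (a' - a) with hd
  have hd1 : d ≤ 1 := hδ.le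
  have hn3 : 2 < n := by
    obtain ⟨m, hm⟩ := hodd
    omega
  -- the multiples of `q`, `q'`
  have hk : ∀ k : ℕ, 0 < k → k < n → ¬ InK V L X (k * q) := by
    intro k hk0 hkn h
    refine (hq k hk0 hkn).1 (gmem_of_nat_mul G h vn ?_)
    rw [show (n : ℂ) * (k * q) = (k : ℕ) • (n * q) by rw [nsmul_eq_mul]; ring]
    exact nsmul_mem hnq k
  have hk' : ∀ k : ℕ, 0 < k → k < n → ¬ InK V L' X' (k * q') := by
    intro k hk0 hkn h
    refine (hq k hk0 hkn).2 (gmem_of_nat_mul G' h vn ?_)
    rw [show (n : ℂ) * (k * q') = (k : ℕ) • (n * q') by rw [nsmul_eq_mul]; ring]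
    exact nsmul_mem hnq' k
  have kq : ¬ InK V L X q := by simpa using hk 1 one_pos (by omega)
  have kq' : ¬ InK V L' X' q' := by simpa using hk' 1 one_pos (by omega)
  have k2q : ¬ InK V L X (2 * q) := by simpa using hk 2 (by omega) hn3
  have k2q' : ¬ InK V L' X' (2 * q') := by simpa using hk' 2 (by omega) hn3
  have vD : V.valuation (2 * Y q + a * X q + 1) = 1 := dx_unit G kq k2q
  have vD' : V.valuation (2 * Y' q' + a' * X' q' + 1) = 1 := dx_unit G' kq' k2q'
  have vX : V.valuation (X q) ≤ 1 := (int_X kq).2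
  have vX' : V.valuation (X' q') ≤ 1 := (int_X kq').2
  have vY' : V.valuation (Y' q') ≤ 1 := gInt_Y G' kq'
  -- the nearby point on the first curve
  have heq' : Y' q' ^ 2 + a' * X' q' * Y' q' + Y' q' = X' q' ^ 3 := curve_eq G' (int_X kq').1
  obtain ⟨y, hy1, hy2⟩ : ∃ y : ℂ, y ^ 2 + a * X' q' * y + y = X' q' ^ 3 ∧
      V.valuation (y - Y' q') ≤ d := by
    obtain ⟨r, hr0⟩ := IsAlgClosed.exists_pow_nat_eq ((a * X' q' + 1) ^ 2 + 4 * X' q' ^ 3)
      (n := 2) (by norm_num)
    have hprod : V.valuation (Y' q' - (-(a * X' q' + 1) + r) / 2) *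
        V.valuation (Y' q' - (-(a * X' q' + 1) - r) / 2) ≤ d := by
      rw [← map_mul, show (Y' q' - (-(a * X' q' + 1) + r) / 2) *
        (Y' q' - (-(a * X' q' + 1) - r) / 2) =
        -((X' q' * Y' q') * (a' - a)) by linear_combination heq' - hr0 / 4,
        Valuation.map_neg, map_mul, ← hd]
      exact mul_le_of_le_one_left' (by rw [map_mul]; exact mul_le_one' vX' vY')
    have hsum : V.valuation (2 * Y' q' + a * X' q' + 1) = 1 := by
      rw [show 2 * Y' q' + a * X' q' + 1 =
        (2 * Y' q' + a' * X' q' + 1) + -(X' q' * (a' - a)) by ring,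
        Valuation.map_add_eq_of_lt_left, vD']
      rw [Valuation.map_neg, vD', map_mul, ← hd]
      exact lt_of_le_of_lt (mul_le_of_le_one_left' vX') hδ
    rcases le_or_gt 1 (V.valuation (Y' q' - (-(a * X' q' + 1) - r) / 2)) with h | h
    · refine ⟨(-(a * X' q' + 1) + r) / 2, by linear_combination hr0 / 4, ?_⟩
      rw [Valuation.map_sub_swap]
      exact le_trans (le_mul_of_one_le_right' h) hprod
    · refine ⟨(-(a * X' q' + 1) - r) / 2, by linear_combination hr0 / 4, ?_⟩
      have h3 : V.valuation (Y' q' - (-(a * X' q' + 1) + r) / 2) = 1 := by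
        rw [show Y' q' - (-(a * X' q' + 1) + r) / 2 = (2 * Y' q' + a * X' q' + 1) +
          -(Y' q' - (-(a * X' q' + 1) - r) / 2) by ring,
          Valuation.map_add_eq_of_lt_left, hsum]
        rw [Valuation.map_neg, hsum]
        exact h
      rw [h3, one_mul] at hprod
      rw [Valuation.map_sub_swap]
      exact hprod
  have hΔ : (WT a 1).Δ ≠ 0 := by
    intro h
    have := G.disc
    rw [h, map_zero] at this
    exact zero_ne_one this
  have hns : (WT a 1).Nonsingular (X' q') y := by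
    refine (Affine.equation_iff_nonsingular_of_Δ_ne_zero hΔ).1 ?_
    rw [Affine.equation_iff]
    simp only [WT]
    linear_combination hy1
  obtain ⟨z, hz⟩ := hsurj (Affine.Point.some (X' q') y hns)
  have hzL : z ∉ L.lattice := by
    intro h
    rw [G.zero z h] at hz
    exact absurd hz.symm (by simp)
  obtain ⟨hXz, hYz⟩ : X z = X' q' ∧ Y z = y := by
    obtain ⟨h3, e3⟩ := G.some z hzL
    rw [hz] at e3
    obtain ⟨e4, e5⟩ : X' q' = X z ∧ y = Y z := by simpa using e3
    exact ⟨e4.symm, e5.symm⟩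
  have kz : ¬ InK V L X z := by
    unfold InK
    push Not
    refine ⟨hzL, ?_⟩
    rw [← ValuationSubring.valuation_le_one_iff, hXz]
    exact vX'
  have vYz : V.valuation (Y z) ≤ 1 := gInt_Y G kz
  -- `z - q` is in the kernel of reduction
  have hx2 : V.valuation (X z - X q) < 1 := by rw [hXz]; exact hx
  have hy3 : V.valuation (Y z - Y q) < 1 := by
    rw [hYz, show y - Y q = (y - Y' q') + (Y' q' - Y q) by ring]
    exact lt_of_le_of_lt (V.valuation.map_add _ _) (max_lt (lt_of_le_of_lt hy2 hδ) hy)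
  have ks : InK V L X (z - q) := by
    by_contra hc
    by_cases hp : InK V L X (z + q)
    · have hnq2 : ¬ InK V L X (-q) := fun h => kq (by simpa using gInK_neg G h)
      have h3 := (gnear_lt G hnq2 hp).2
      rw [show -q + (z + q) = z by ring, (X_neg G (int_X kq).1).2] at h3
      have h4 : V.valuation (2 * Y q + a * X q + 1) < 1 := by
        rw [show 2 * Y q + a * X q + 1 = (Y z - (-Y q - a * X q - 1)) - (Y z - Y q) by ring]
        exact lt_of_le_of_lt (V.valuation.map_sub _ _) (max_lt h3 hy3)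
      rw [vD] at h4
      exact lt_irrefl _ h4
    · have h3 := gv_X_sub G kz kq hp hc
      rw [h3] at hx2
      exact lt_irrefl _ hx2
  set s := z - q with hs
  have hzs : z = q + s := by rw [hs]; ring
  have hkz : ∀ k : ℕ, 0 < k → k < n → ¬ InK V L X (k * z) := by
    intro k hk0 hkn h
    refine hk k hk0 hkn ?_
    rw [← gInK_congr G (z := k * z) (w := k * q)]
    · exact h
    · rw [← mul_sub, ← hs]
      exact gInK_nat G ks k
  have k2z : ¬ InK V L X (2 * z) := by simpa using hkz 2 (by omega) hn3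
  have vDz : V.valuation (2 * Y z + a * X z + 1) = 1 := dx_unit G kz k2z
  -- the chain
  have key : ∀ k : ℕ, 0 < k → k < n →
      Cg V.valuation d (X (k * z)) (X' (k * q')) ∧ Cg V.valuation d (Y (k * z)) (Y' (k * q')) := by
    have c1 : Cg V.valuation d (X z) (X' q') := by rw [hXz]; exact Cg.refl _
    have c1y : Cg V.valuation d (Y z) (Y' q') := by rw [hYz]; exact hy2
    have ca : Cg V.valuation d a a' := by
      unfold Cg
      rw [Valuation.map_sub_swap]
    intro k
    induction k with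
    | zero => intro h; exact absurd h (lt_irrefl 0)
    | succ k ih =>
      intro _ hkn
      rcases Nat.eq_zero_or_pos k with rfl | hk0
      · simp only [zero_add, Nat.cast_one, one_mul]
        exact ⟨c1, c1y⟩
      obtain ⟨ih1, ih2⟩ := ih hk0 (by omega)
      rcases Nat.eq_or_lt_of_le (Nat.succ_le_of_lt hk0) with hk1 | hk1
      · -- duplication
        have hk1' : k = 1 := hk1.symm
        subst hk1'
        have e2 : (((1 + 1 : ℕ) : ℕ) : ℂ) = 2 := by norm_num
        rw [e2]
        obtain ⟨-, f1, f2⟩ := cdup z (int_X k2z).1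
        obtain ⟨-, f1', f2'⟩ := cdup' q' (int_X k2q').1
        have vn1 : V.valuation (3 * X z ^ 2 - a * Y z) ≤ 1 := by
          refine v_sub_le ?_ ?_
          · exact v_mul_le_right (v_three _) (by
              rw [map_pow]; exact pow_le_one' (int_X kz).2 2)
          · exact v_mul_le_right va.le vYz
        have vn1' : V.valuation (3 * X' q' ^ 2 - a' * Y' q') ≤ 1 := by
          refine v_sub_le ?_ ?_
          · exact v_mul_le_right (v_three _) (by
              rw [map_pow]; exact pow_le_one' vX' 2)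
          · exact v_mul_le_right va'.le vY'
        have cn : Cg V.valuation d (3 * X z ^ 2 - a * Y z) (3 * X' q' ^ 2 - a' * Y' q') := by
          refine Cg.sub ?_ (Cg.mul ca c1y vYz va'.le)
          rw [pow_two, pow_two]
          refine Cg.mul (Cg.refl _) (Cg.mul c1 c1 (int_X kz).2 vX') ?_ (v_three _)
          rw [map_mul]
          exact mul_le_one' (int_X kz).2 (int_X kz).2
        have cd : Cg V.valuation d (2 * Y z + a * X z + 1) (2 * Y' q' + a' * X' q' + 1) :=
          Cg.add (Cg.add (Cg.mul (Cg.refl _) c1y vYz (v_two _))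
            (Cg.mul ca c1 (int_X kz).2 va'.le)) (Cg.refl _)
        have cm := Cg.div cn cd vDz vD' vn1'
        have vm := v_div_le vn1 vDz
        have vm' := v_div_le vn1' vD'
        set m := (3 * X z ^ 2 - a * Y z) / (2 * Y z + a * X z + 1) with hm
        set m' := (3 * X' q' ^ 2 - a' * Y' q') / (2 * Y' q' + a' * X' q' + 1) with hm'
        have cX : Cg V.valuation d (X (2 * z)) (X' (2 * q')) := by
          rw [f1, f1', pow_two, pow_two]
          exact Cg.sub (Cg.add (Cg.mul cm cm vm vm') (Cg.mul ca cm vm va'.le))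
            (Cg.mul (Cg.refl _) c1 (int_X kz).2 (v_two _))
        refine ⟨cX, ?_⟩
        rw [f2, f2']
        refine Cg.sub (Cg.sub (Cg.neg (Cg.add c1y (Cg.mul cm (Cg.sub cX c1) ?_ vm')))
          (Cg.mul ca cX (int_X k2z).2 va'.le)) (Cg.refl _)
        exact v_sub_le (int_X k2z).2 (int_X kz).2
      · -- addition
        have hk2 : 2 ≤ k := hk1
        have nz : z ∉ L.lattice := hzL
        have kkz := hkz k hk0 (by omega)
        have kkq := hk' k hk0 (by omega)
        have e1 : ((k + 1 : ℕ) : ℂ) * z = k * z + z := by push_cast; ring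
        have e1' : ((k + 1 : ℕ) : ℂ) * q' = k * q' + q' := by push_cast; ring
        have e2 : k * z - z = ((k - 1 : ℕ) : ℂ) * z := by
          rw [Nat.cast_sub (by omega)]; push_cast; ring
        have e2' : k * q' - q' = ((k - 1 : ℕ) : ℂ) * q' := by
          rw [Nat.cast_sub (by omega)]; push_cast; ring
        have kp := hkz (k + 1) (by omega) hkn
        have km := hkz (k - 1) (by omega) (by omega)
        have kp' := hk' (k + 1) (by omega) hkn
        have km' := hk' (k - 1) (by omega) (by omega)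
        rw [e1] at kp ⊢
        rw [e1'] at kp' ⊢
        rw [← e2] at km
        rw [← e2'] at km'
        obtain ⟨-, f1, f2⟩ := cadd (k * z) z (int_X kkz).1 nz (int_X kp).1 (int_X km).1
        obtain ⟨-, f1', f2'⟩ := cadd' (k * q') q' (int_X kkq).1 (int_X kq').1 (int_X kp').1
          (int_X km').1
        have vd := gv_X_sub G kkz kz kp km
        have vd' := gv_X_sub G' kkq kq' kp' km'
        have cd : Cg V.valuation d (X (k * z) - X z) (X' (k * q') - X' q') := Cg.sub ih1 c1
        have cn : Cg V.valuation d (Y (k * z) - Y z) (Y' (k * q') - Y' q') := Cg.sub ih2 c1y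
        have vn1 : V.valuation (Y (k * z) - Y z) ≤ 1 := v_sub_le (gInt_Y G kkz) vYz
        have vn1' : V.valuation (Y' (k * q') - Y' q') ≤ 1 := v_sub_le (gInt_Y G' kkq) vY'
        have cm := Cg.div cn cd vd vd' vn1'
        have vm := v_div_le vn1 vd
        have vm' := v_div_le vn1' vd'
        set m := (Y (k * z) - Y z) / (X (k * z) - X z) with hm
        set m' := (Y' (k * q') - Y' q') / (X' (k * q') - X' q') with hm'
        have cX : Cg V.valuation d (X (k * z + z)) (X' (k * q' + q')) := by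
          rw [f1, f1', pow_two, pow_two]
          exact Cg.sub (Cg.sub (Cg.add (Cg.mul cm cm vm vm') (Cg.mul ca cm vm va'.le)) ih1) c1
        refine ⟨cX, ?_⟩
        rw [f2, f2']
        exact Cg.sub (Cg.sub (Cg.neg (Cg.add ih2 (Cg.mul cm (Cg.sub cX ih1)
          (v_sub_le (int_X kp).2 (int_X kkz).2) vm'))) (Cg.mul ca cX (int_X kp).2 va'.le))
          (Cg.refl _)
  -- the end
  obtain ⟨kX, -⟩ := key (n - 1) (by omega) (by omega)
  have e3 : ((n - 1 : ℕ) : ℂ) * q' = -q' + n * q' := by
    rw [Nat.cast_sub (by omega)]; push_cast; ring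
  have e4 : ((n - 1 : ℕ) : ℂ) * z = (-z + n * s) + n * q := by
    rw [Nat.cast_sub (by omega), hzs]; push_cast; ring
  have nq' : -q' ∉ L'.lattice := fun h => (int_X kq').1 (by simpa using neg_mem h)
  rw [e3, (X_add_mem G' nq' hnq').1, (X_neg G' (int_X kq').1).1, ← hXz] at kX
  have knz : ¬ InK V L X (-z) := fun h => kz (by simpa using gInK_neg G h)
  have kns : InK V L X (n * s) := gInK_nat G ks n
  have knzs : ¬ InK V L X (-z + n * s) := fun h => knz (by
    have := gInK_sub G h kns
    rwa [add_sub_cancel_right] at this)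
  rw [e4, (X_add_mem G (int_X knzs).1 hnq).1, ← (X_neg G hzL).1] at kX
  by_cases hsL : s ∈ L.lattice
  · have h5 : X z = X q ∧ Y z = Y q := by
      rw [hzs]
      exact X_add_mem G (int_X kq).1 hsL
    refine ⟨?_, ?_⟩
    · rw [← hXz, h5.1, sub_self, map_zero]
      exact zero_le
    · rw [← h5.2, hYz, Valuation.map_sub_swap]
      exact hy2
  · have hnsL : n * s ∉ L.lattice := fun h => hsL (gmem_of_nat_mul G ks vn h)
    have hr := gv_tX_nat G ks vn hsL hnsL
    obtain ⟨r1, r0, -⟩ := gv_tX_lt G ks hsL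
    obtain ⟨-, i1, -, -⟩ := gnear G knz kns hnsL
    obtain ⟨-, -, i2, i3⟩ := gnear G kq ks hsL
    rw [hr] at i1
    set r := V.valuation (tX X Y s) with hrdef
    have e5 : 2 * Y (-z) + (WT a 1).a₁ * X (-z) + (WT a 1).a₃ = -(2 * Y z + a * X z + 1) := by
      rw [(X_neg G hzL).2, (X_neg G hzL).1]
      simp only [WT]
      ring
    rw [e5] at i1
    have h5 : V.valuation (-(2 * Y z + a * X z + 1) * tX X Y (n * s)) = r := by
      rw [map_mul, Valuation.map_neg, vDz, one_mul, hr]
    have hr2 : r ^ 2 < r := by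
      rw [pow_two]
      exact mul_lt_of_lt_one_right (zero_lt_iff.2 r0) r1
    have h6 : V.valuation (X (-z + n * s) - X (-z)) = r := by
      rw [show X (-z + n * s) - X (-z) =
        (X (-z + n * s) - X (-z) - -(2 * Y z + a * X z + 1) * tX X Y (n * s)) +
        -(2 * Y z + a * X z + 1) * tX X Y (n * s) by ring, Valuation.map_add_eq_of_lt_right, h5]
      rw [h5]
      exact lt_of_le_of_lt i1 hr2
    unfold Cg at kX
    rw [h6] at kX
    rw [← hzs] at i2 i3
    refine ⟨?_, ?_⟩
    · rw [← hXz]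
      exact i2.trans kX
    · rw [show Y' q' - Y q = (Y z - Y q) - (y - Y' q') by rw [hYz]; ring]
      exact v_sub_le (i3.trans kX) hy2

end

end Pool.Agent.N2R
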