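import Pool.Agent.N2.StR
import Pool.Agent.MU3.BAll
import Pool.Agent.MUX.UAll
import Pool.Agent.MUX.XLib

/-!
# MUX-2N, block R: module CML (the linear identity of complex multiplication at a point of order three)
-/

set_option autoImplicit false

open WeierstrassCurve Polynomial

namespace Pool.Agent.N2R

open _root_.MU3 Pool.Agent.MU3A Pool.Agent.MU3B Pool.Agent.RI Pool.Agent.MUX Pool.Agent.MUXU
open Pool.Agent.MUXV (InK tX)
open Pool.Agent.MUX2 (GRG)
open Pool.Agent.NS (xu)
open Pool.Agent.N2 (WT yt et GoodT CaseT)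

noncomputable section

namespace CML

lemma ode_der {a b c d mu : ℂ} {A B : ℂ[X]} (h : OdeP a b c d mu A B) (e : ℂ) :
    2 * ((derivative A).eval e * B.eval e - A.eval e * (derivative B).eval e) *
        ((derivative (derivative A)).eval e * B.eval e -
          A.eval e * (derivative (derivative B)).eval e) * (4 * e ^ 3 - a * e - b) +
      ((derivative A).eval e * B.eval e - A.eval e * (derivative B).eval e) ^ 2 *
        (12 * e ^ 2 - a) =
    mu ^ 2 * (12 * A.eval e ^ 2 * (derivative A).eval e * B.eval e +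
      4 * A.eval e ^ 3 * (derivative B).eval e -
      c * ((derivative A).eval e * B.eval e ^ 3 +
        3 * A.eval e * B.eval e ^ 2 * (derivative B).eval e) -
      4 * d * B.eval e ^ 3 * (derivative B).eval e) := by
  unfold OdeP at h
  have h1 := congrArg (fun p : ℂ[X] => eval e (derivative p)) h
  simp only [derivative_mul, derivative_sub, derivative_pow, derivative_X,
    derivative_C, derivative_ofNat, eval_mul, eval_add, eval_sub, eval_pow, eval_C, eval_X,
    eval_ofNat, eval_one, eval_zero, Nat.cast_ofNat, map_ofNat] at h1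
  norm_num at h1
  linear_combination h1

lemma cancel_eval {P₁ P₂ P₃ : ℂ[X]} (h3 : P₃ ≠ 0)
    (h : ∀ x, P₁.eval x * P₃.eval x = P₂.eval x * P₃.eval x) : P₁ = P₂ := by
  refine mul_right_cancel₀ h3 (Polynomial.funext fun x => ?_)
  rw [eval_mul, eval_mul]
  exact h x

lemma alg {e u a c α B0 B1 B2 S1 A0 A1 A2 g2 g3 : ℂ} (hα : α ≠ 0) (hB0 : B0 ≠ 0) (hc : c ≠ 0)
    (hu : u ≠ 0) (hA0 : A0 = e * B0) (hA1 : A1 - e * B1 = α * B0) (hA2 : A2 - e * B2 = 2 * S1)
    (hP : 4 * e ^ 3 - g2 * e - g3 = u ^ 6 * c ^ 2) (hP' : 12 * e ^ 2 - g2 = 2 * a * c * u ^ 4)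
    (hod : 2 * (A1 * B0 - A0 * B1) * (A2 * B0 - A0 * B2) * (4 * e ^ 3 - g2 * e - g3) +
      (A1 * B0 - A0 * B1) ^ 2 * (12 * e ^ 2 - g2) =
      α ^ 2 * (12 * A0 ^ 2 * A1 * B0 + 4 * A0 ^ 3 * B1 - g2 * (A1 * B0 ^ 3 +
        3 * A0 * B0 ^ 2 * B1) - 4 * g3 * B0 ^ 3 * B1)) :
    2 * u ^ 2 * c * (S1 - α * B1) = α * B0 * a * (α - 1) := by
  have h1 : A1 = α * B0 + e * B1 := by linear_combination hA1
  have h2 : A2 = 2 * S1 + e * B2 := by linear_combination hA2
  have h3 : g2 = 12 * e ^ 2 - 2 * a * c * u ^ 4 := by linear_combination -hP'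
  have h4 : g3 = 4 * e ^ 3 - g2 * e - u ^ 6 * c ^ 2 := by linear_combination -hP
  subst hA0 h1 h2 h3
  subst h4
  have h5 : 2 * α * B0 ^ 3 * c * u ^ 4 ≠ 0 :=
    mul_ne_zero (mul_ne_zero (mul_ne_zero (mul_ne_zero two_ne_zero hα) (pow_ne_zero 3 hB0)) hc)
      (pow_ne_zero 4 hu)
  refine mul_left_cancel₀ h5 ?_
  linear_combination hod

/-- the logarithmic derivative of a product of linear factors -/
lemma log_der (R : Finset ℂ) (f : ℂ → ℂ) (e : ℂ)
    (h : (∏ q ∈ R, (X - C (f q)) : ℂ[X]).eval e ≠ 0) :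
    (derivative (∏ q ∈ R, (X - C (f q)) : ℂ[X])).eval e =
      (∏ q ∈ R, (X - C (f q)) : ℂ[X]).eval e * ∑ q ∈ R, 1 / (e - f q) := by
  classical
  rw [derivative_prod_finset, eval_finsetSum, Finset.mul_sum]
  refine Finset.sum_congr rfl fun q hq => ?_
  have h1 : (∏ q ∈ R, (X - C (f q)) : ℂ[X]).eval e =
      (e - f q) * (∏ q ∈ R.erase q, (X - C (f q)) : ℂ[X]).eval e := by
    rw [← Finset.mul_prod_erase R _ hq, eval_mul]
    simp
  have h2 : e - f q ≠ 0 := by
    intro h0
    apply h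
    rw [h1, h0, zero_mul]
  rw [h1, eval_mul]
  simp only [derivative_sub, derivative_X, derivative_C, sub_zero, eval_one, mul_one]
  field_simp

end CML

open CML in
theorem tr_CML (h : Sr_DEF) : Sr_CML := by
  intro A B b L om hcq hL u e a c w hdeu hw β R hR
  obtain ⟨h12, hc0, -, hg2, -, -, -⟩ := h L u e a c hdeu
  have hu0 : u ≠ 0 := hdeu.u0
  have hCM := hL.hasCM hcq
  have hal : alB β = emb (1 + ((3 : ℕ) : OO A B) * β) := by
    rw [MUX.emb_add hcq, MUX.emb_mul hcq, MUX.emb_one hcq, MUX.emb_natCast hcq]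
    unfold alB
    norm_num
  have hα : Isg L L (alB β) := by
    intro z hz
    rw [hal]
    exact hCM _ z hz
  have ha0 : alB β ≠ 0 := by
    rw [hal]
    refine MUX.emb_ne_zero hcq ?_
    intro h0
    have h1 := congrArg QuadraticAlgebra.re h0
    rw [QuadraticAlgebra.re_add, QuadraticAlgebra.re_one, QuadraticAlgebra.re_mul,
      QuadraticAlgebra.re_natCast, QuadraticAlgebra.im_natCast, QuadraticAlgebra.re_zero] at h1
    push_cast at h1
    simp only [mul_zero, zero_mul, add_zero] at h1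
    omega
  have hRM : IsRpM L L (alB β) R := ⟨hR.mem, hR.ne, hR.inj, hR.surj⟩
  have hdiff : alB β * w - w ∈ L.lattice := by
    have h1 : alB β * w - w = emb β * (3 * w) := by
      unfold alB
      ring
    rw [h1]
    exact hCM _ _ hw.three
  have haw : alB β * w ∉ L.lattice := by
    intro h1
    have h2 := L.lattice.sub_mem h1 hdiff
    rw [sub_sub_cancel] at h2
    exact hw.ne h2
  have heq : alB β * w = w + (alB β * w - w) := by ring
  have hperP : L.weierstrassP (alB β * w) = e := by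
    have h1 := L.weierstrassP_add_coe w ⟨_, hdiff⟩
    rw [heq, ← hw.P, ← h1]
  have hperD : L.derivWeierstrassP (alB β * w) = u ^ 3 * c := by
    have h1 := L.derivWeierstrassP_add_coe w ⟨_, hdiff⟩
    rw [heq, ← hw.D, ← h1]
  obtain ⟨A₀, hA0, hdeg, hode, hiso⟩ := u_ISO L L (alB β) R ha0 hα hRM
  have hpfi := u_PFI L L (alB β) R ha0 hα hRM w haw
  set α : ℂ := alB β with hαd
  have hB0e : (C (α ^ 2) * ∏ q ∈ R, (X - C (L.weierstrassP q)) : ℂ[X]).eval e ≠ 0 := by
    intro h0
    exact haw ((hiso.ker w hw.ne).2 (by rw [hw.P]; exact h0))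
  have hPe : (∏ q ∈ R, (X - C (L.weierstrassP q)) : ℂ[X]).eval e ≠ 0 := by
    intro h0
    apply hB0e
    rw [eval_mul, h0, mul_zero]
  -- the factorisation
  have hid : A₀ - C e * (C (α ^ 2) * ∏ q ∈ R, (X - C (L.weierstrassP q))) =
      (X - C e) * ∏ q ∈ R, (X - C (L.weierstrassP (w + q))) := by
    have hm : (∏ q ∈ R, (X - C (L.weierstrassP q)) : ℂ[X]) ≠ 0 :=
      (monic_prod_of_monic _ _ (fun q _ => monic_X_sub_C _)).ne_zero
    refine cancel_eval hm fun x => ?_
    obtain ⟨z, hz, hzx⟩ := b_SUR L x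
    by_cases hmz : α * z ∈ L.lattice
    · obtain ⟨q, hq, hqz⟩ := hR.surj z hmz hz
      have h5 : (∏ q ∈ R, (X - C (L.weierstrassP q)) : ℂ[X]).eval x = 0 := by
        rw [eval_prod]
        refine Finset.prod_eq_zero hq ?_
        rw [eval_sub, eval_X, eval_C, ← hzx]
        have h6 : L.weierstrassP z = L.weierstrassP q := by
          have h7 := L.weierstrassP_add_coe q ⟨z - q, hqz⟩
          rw [← h7]
          congr 1
          simp
        rw [h6, sub_self]
      rw [h5, mul_zero, mul_zero]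
    · congr 1
      have h5 := hpfi z hmz
      have h6 := hiso.P z hz hmz
      rw [hperP, hw.P, hzx] at h5
      rw [hzx] at h6
      rw [eval_sub, ← h6]
      simp only [eval_mul, eval_C, eval_prod, eval_sub, eval_X]
      linear_combination h5
  have hAe : A₀.eval e = e * (C (α ^ 2) * ∏ q ∈ R, (X - C (L.weierstrassP q)) : ℂ[X]).eval e := by
    have h1 := hiso.P w hw.ne haw
    rw [hperP, hw.P] at h1
    exact h1.symm
  have hder := u_DER L L α A₀ _ hiso w hw.ne haw
  rw [hperD, hw.D, hw.P] at hder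
  have hod := ode_der hode e
  -- values of the derivatives of the products
  have hB0' : (derivative (C (α ^ 2) * ∏ q ∈ R, (X - C (L.weierstrassP q)) : ℂ[X])).eval e =
      (C (α ^ 2) * ∏ q ∈ R, (X - C (L.weierstrassP q)) : ℂ[X]).eval e *
        ∑ q ∈ R, 1 / (e - L.weierstrassP q) := by
    rw [derivative_C_mul, eval_mul, log_der R _ e hPe, eval_mul, eval_C, mul_assoc]
  set B₀ : ℂ[X] := C (α ^ 2) * ∏ q ∈ R, (X - C (L.weierstrassP q)) with hB0
  clear_value B₀
  have d1 := congrArg (fun p : ℂ[X] => eval e (derivative p)) hid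
  have d2 := congrArg (fun p : ℂ[X] => eval e (derivative (derivative p))) hid
  have hSlog := log_der R (fun q => L.weierstrassP (w + q)) e
  set S : ℂ[X] := ∏ q ∈ R, (X - C (L.weierstrassP (w + q))) with hS
  clear_value S
  simp only [derivative_mul, derivative_sub, derivative_add, derivative_X, derivative_C,
    eval_mul, eval_add, eval_sub, eval_C, eval_X, sub_zero, sub_self,
    zero_mul, zero_add, one_mul, add_zero] at d1 d2
  have hS0 : S.eval e = α * B₀.eval e := by
    have h1 : (u ^ 3 * c) * B₀.eval e ≠ 0 :=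
      mul_ne_zero (mul_ne_zero (pow_ne_zero 3 hu0) hc0) hB0e
    refine mul_left_cancel₀ h1 ?_
    simp only [eval_sub, eval_mul] at hder
    rw [hAe] at hder
    linear_combination (-1 : ℂ) * hder - u ^ 3 * c * B₀.eval e * d1
  have hSne : S.eval e ≠ 0 := by
    rw [hS0]
    exact mul_ne_zero ha0 hB0e
  have hS' := hSlog hSne
  have hPw : 4 * e ^ 3 - L.g₂ * e - L.g₃ = u ^ 6 * c ^ 2 := by
    have h1 := L.derivWeierstrassP_sq w hw.ne
    rw [hw.D, hw.P] at h1
    linear_combination -h1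
  have hPw' : 12 * e ^ 2 - L.g₂ = 2 * a * c * u ^ 4 := by
    rw [hg2]
    linear_combination (e + u ^ 2 * a ^ 2 / 12) * h12
  have e1 : (derivative A₀).eval e - e * (derivative B₀).eval e = α * B₀.eval e := by
    rw [← hS0]
    linear_combination d1
  have e2 : (derivative (derivative A₀)).eval e - e * (derivative (derivative B₀)).eval e =
      2 * (derivative S).eval e := by
    linear_combination d2
  have key := alg ha0 hB0e hc0 hu0 hAe e1 e2 hPw hPw' hod
  have hxe : ∀ z, e - L.weierstrassP z = -(u ^ 2 * xu L u e z) := by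
    intro z
    unfold xu
    field_simp
    ring
  have hs : ∀ g : ℂ → ℂ, ∑ q ∈ R, 1 / (e - L.weierstrassP (g q)) =
      -(∑ q ∈ R, 1 / xu L u e (g q)) / u ^ 2 := by
    intro g
    rw [← Finset.sum_neg_distrib, Finset.sum_div]
    refine Finset.sum_congr rfl fun q _ => ?_
    rw [hxe, one_div, one_div, inv_neg, mul_inv]
    ring
  have hs1 := hs (fun q => q)
  have hs2 := hs (fun q => w + q)
  rw [hs1] at hB0'
  rw [hs2, hS0] at hS'
  rw [hB0', hS'] at key
  rw [Finset.sum_sub_distrib]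
  have h1 : α * B₀.eval e ≠ 0 := mul_ne_zero ha0 hB0e
  refine mul_left_cancel₀ h1 ?_
  field_simp at key ⊢
  linear_combination -key

end

end Pool.Agent.N2R
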