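import Pool.Agent.N2.StR
import Pool.Agent.MU3.BAll
import Pool.Agent.MUX.XLib

/-!
# MUX-2N, block R2N: complex multiplication by `1 + 3 β` at a point of order three (CMQ)
-/

set_option autoImplicit false

open WeierstrassCurve Polynomial

namespace Pool.Agent.N2R

open _root_.MU3 Pool.Agent.MU3A Pool.Agent.MU3B Pool.Agent.RI Pool.Agent.MUX Pool.Agent.MUXU
open Pool.Agent.NS (xu)

theorem tr_CMQ (h : Sr_DEF) : Sr_CMQ := by
  intro A B b L om hcq hL u e a c w hdeu hw β R hR
  obtain ⟨h3e, -⟩ := h L u e a c hdeu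
  have hu0 : u ≠ 0 := hdeu.u0
  have hCM := hL.hasCM hcq
  have hβ : alB β = emb (1 + (β + β + β)) := by
    have h1 : (1 : OO A B).re = 1 := rfl
    have h2 : (1 : OO A B).im = 0 := rfl
    unfold alB
    simp only [emb, QuadraticAlgebra.re_add, QuadraticAlgebra.im_add, h1, h2]
    push_cast
    ring
  have hα : ∀ z ∈ L.lattice, alB β * z ∈ L.lattice := fun z hz => by
    rw [hβ]; exact hCM _ z hz
  have ha0 : alB β ≠ 0 := by
    rw [hβ]
    refine MUX.emb_ne_zero hcq ?_
    intro h0
    have h1 := congrArg QuadraticAlgebra.re h0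
    have h3 : (1 : OO A B).re = 1 := rfl
    have h4 : (0 : OO A B).re = 0 := rfl
    simp only [QuadraticAlgebra.re_add, h3, h4] at h1
    omega
  have hdiff : alB β * w - w ∈ L.lattice := by
    have h1 : alB β * w - w = emb β * (3 * w) := by
      unfold alB; ring
    rw [h1]
    exact hCM _ _ hw.three
  have haw : alB β * w ∉ L.lattice := by
    intro h1
    have h2 := L.lattice.sub_mem h1 hdiff
    rw [sub_sub_cancel] at h2
    exact hw.ne h2
  have hper : L.weierstrassP (alB β * w) = L.weierstrassP w := by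
    have h1 := L.weierstrassP_add_coe w ⟨_, hdiff⟩
    rw [← h1]
    congr 1
    show alB β * w = w + (alB β * w - w)
    ring
  have key := b_CMX L (alB β) R ha0 hα hR w haw
  rw [hper, hw.P] at key
  have hsum : ∑ q ∈ R, (xu L u e (w + q) - xu L u e q) =
      (∑ q ∈ R, (L.weierstrassP (w + q) - L.weierstrassP q)) / u ^ 2 := by
    rw [Finset.sum_div]
    refine Finset.sum_congr rfl (fun q _ => ?_)
    unfold xu
    ring
  have hs : ∑ q ∈ R, (L.weierstrassP (w + q) - L.weierstrassP q) = alB β ^ 2 * e - e := by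
    rw [key]; ring
  rw [hsum, hs]
  field_simp
  linear_combination (1 - alB β ^ 2) * h3e

end Pool.Agent.N2R
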