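import Pool.Agent.N2.StR
import Pool.Agent.MU3.BAll

/-!
# MUX-2N, block R2N, module DEF: facts on the Deuring form
-/

set_option autoImplicit false

open WeierstrassCurve Polynomial

namespace Pool.Agent.N2R

open _root_.MU3 Pool.Agent.MU3A Pool.Agent.MU3B Pool.Agent.RI Pool.Agent.MUX Pool.Agent.MUXU
open Pool.Agent.MUXV (InK tX)
open Pool.Agent.MUX2 (GRG)
open Pool.Agent.NS (xu)
open Pool.Agent.N2 (WT yt et GoodT CaseT)

noncomputable section

/-- DEF. -/
theorem tr_DEF : Sr_DEF := by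
  intro L u e a c h
  have hu := h.u0
  have key : ∀ x : ℂ, 4 * x ^ 3 - L.g₂ * x - L.g₃ =
      4 * (x - e) ^ 3 + u ^ 2 * a ^ 2 * (x - e) ^ 2 + 2 * a * c * u ^ 4 * (x - e) +
        u ^ 6 * c ^ 2 := by
    intro x
    obtain ⟨z, hz, rfl⟩ := b_SUR L x
    rw [← L.derivWeierstrassP_sq z hz]
    have h1 := h.eq z hz
    unfold xu at h1
    set P := L.weierstrassP z
    set D := L.derivWeierstrassP z
    have h2 : D ^ 2 = u ^ 6 * (D / u ^ 3) ^ 2 := by
      field_simp
    rw [h2, h1]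
    field_simp
    ring
  have k0 := key 0
  have k1 := key 1
  have k2 := key (-1)
  have hs : 12 * e = u ^ 2 * a ^ 2 := by
    linear_combination (-1) * k0 + (1 / 2) * k1 + (1 / 2) * k2
  have he : e = u ^ 2 * a ^ 2 / 12 := by
    rw [eq_div_iff (by norm_num)]
    linear_combination hs
  have hg2' : L.g₂ = 12 * e ^ 2 - 2 * a * c * u ^ 4 := by
    linear_combination (-1 / 2) * k1 + (1 / 2) * k2 - 2 * e * hs
  have hg3' : L.g₃ = 4 * e ^ 3 - L.g₂ * e - u ^ 6 * c ^ 2 := by
    linear_combination (-1) * key e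
  have hg2 : L.g₂ = u ^ 4 * (a ^ 4 - 24 * a * c) / 12 := by
    rw [hg2', he]
    ring
  have hg3 : L.g₃ = -(u ^ 6 * (a ^ 6 - 36 * a ^ 3 * c + 216 * c ^ 2)) / 216 := by
    rw [hg3', hg2, he]
    ring
  have hD := (b_DSC L).1
  have hc : c ≠ 0 := by
    rintro rfl
    apply hD
    rw [hg2, hg3]
    ring
  refine ⟨hs, hc, ?_, hg2, hg3, ?_, ?_⟩
  · intro h3
    apply hD
    have h4 : c = a ^ 3 / 27 := by
      rw [eq_div_iff (by norm_num)]
      linear_combination -h3
    rw [hg2, hg3, h4]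
    ring
  · obtain ⟨w, hw, hwe, hw'⟩ := (b_DSC L).2 e (u ^ 3 * c) (by rw [key e]; ring)
    refine ⟨w, hw, ?_, hwe, hw'⟩
    have hd0 : L.derivWeierstrassP w ≠ 0 := by
      rw [hw']
      exact mul_ne_zero (pow_ne_zero 3 hu) hc
    have h2w : 2 * w ∉ L.lattice := fun h2 => hd0 ((b_ZER L w hw).2 h2)
    have h3 := (b_DUP L w h2w).1
    rw [hwe, hw'] at h3
    have h4 : (6 * e ^ 2 - L.g₂ / 2) / (2 * (u ^ 3 * c)) = a * u / 2 := by
      rw [hg2', div_eq_div_iff (mul_ne_zero two_ne_zero (mul_ne_zero (pow_ne_zero 3 hu) hc))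
        two_ne_zero]
      ring
    rw [h4] at h3
    have h5 : L.weierstrassP (2 * w) = L.weierstrassP w := by
      rw [hwe]
      linear_combination h3 - (1 / 4) * hs
    rcases b_NEQ L w (2 * w) hw h2w h5 with h6 | h6
    · exact absurd (by rwa [show 2 * w - w = w by ring] at h6) hw
    · rwa [show 2 * w + w = 3 * w by ring] at h6
  · intro z hz h3z
    have h2z : 2 * z ∉ L.lattice := by
      intro h2
      apply hz
      have := sub_mem h3z h2
      rwa [show 3 * z - 2 * z = z by ring] at this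
    have e1 : L.weierstrassP (2 * z) = L.weierstrassP z := by
      have h1 := L.weierstrassP_add_coe (-z) ⟨3 * z, h3z⟩
      have h2 : -z + ((⟨3 * z, h3z⟩ : L.lattice) : ℂ) = 2 * z := by
        simp only
        ring
      rw [h2, L.weierstrassP_neg] at h1
      exact h1
    have hd0 : L.derivWeierstrassP z ≠ 0 := fun h0 => h2z ((b_ZER L z hz).1 h0)
    have h3 := (b_DUP L z h2z).1
    rw [e1, div_pow, eq_div_iff (pow_ne_zero 2 (mul_ne_zero two_ne_zero hd0))] at h3
    have h4 := L.derivWeierstrassP_sq z hz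
    have h5 := key (L.weierstrassP z)
    have hX : L.weierstrassP z = u ^ 2 * xu L u e z + e := by
      unfold xu
      field_simp
      ring
    set P := L.weierstrassP z
    set D := L.derivWeierstrassP z
    set X := xu L u e z
    have h6 : D ^ 2 = 4 * (P - e) ^ 3 + u ^ 2 * a ^ 2 * (P - e) ^ 2 +
        2 * a * c * u ^ 4 * (P - e) + u ^ 6 * c ^ 2 := by
      rw [h4, ← h5]
    have h7 : D ^ 2 = u ^ 6 * (4 * X ^ 3 + (a * X + c) ^ 2) := by
      rw [h6, hX]
      ring
    have h8 : 12 * P * D ^ 2 = (6 * P ^ 2 - L.g₂ / 2) ^ 2 := by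
      linear_combination h3
    have h9 : 6 * P ^ 2 - L.g₂ / 2 = u ^ 4 * (6 * X ^ 2 + a ^ 2 * X + a * c) := by
      rw [hg2', hX]
      linear_combination u ^ 2 * X * hs
    have h10 : 12 * P = u ^ 2 * (12 * X + a ^ 2) := by
      rw [hX]
      linear_combination hs
    rw [h9, h10, h7] at h8
    have h11 : u ^ 8 * (4 * (X * (3 * X ^ 3 + a ^ 2 * X ^ 2 + 3 * a * c * X + 3 * c ^ 2))) =
        0 := by
      linear_combination h8
    rcases mul_eq_zero.1 h11 with h12 | h12
    · exact absurd h12 (pow_ne_zero 8 hu)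
    rcases mul_eq_zero.1 h12 with h13 | h13
    · norm_num at h13
    exact mul_eq_zero.1 h13

end

end Pool.Agent.N2R
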