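import Pool.Agent.N2.StR

/-!
# MUX-2N, block R, module DU2 (helper96): duplication in Deuring form
-/

set_option autoImplicit false

open WeierstrassCurve Polynomial

namespace Pool.Agent.N2R

open _root_.MU3 Pool.Agent.MU3A Pool.Agent.MU3B Pool.Agent.RI Pool.Agent.MUX Pool.Agent.MUXU
open Pool.Agent.MUXV (InK tX)
open Pool.Agent.MUX2 (GRG)
open Pool.Agent.NS (xu)
open Pool.Agent.N2 (WT yt et GoodT CaseT)

theorem tr_DU2 (h1 : Sr_CHT) : Sr_DU2 := by
  intro L u e a c hD z hz
  have he := hD.eq z hz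
  refine ⟨fun h2 => ?_, fun h2 => ?_⟩
  · have h0 : L.derivWeierstrassP z = 0 := (b_ZER L z hz).2 h2
    rw [← he, h0]
    simp
  · obtain ⟨-, hdup⟩ := h1 L u e a c hD
    obtain ⟨hne, h3, -⟩ := hdup z h2
    have hY : L.derivWeierstrassP z / u ^ 3 = 2 * yt L u e a c z + a * xu L u e z + c := by
      simp only [yt, et]
      ring
    rw [hY] at he
    rw [h3]
    generalize xu L u e z = X at *
    generalize yt L u e a c z = Y at *
    have e1 : (3 * X ^ 2 - a * Y) / (2 * Y + a * X + c) * (2 * Y + a * X + c) =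
        3 * X ^ 2 - a * Y := div_mul_cancel₀ _ hne
    generalize (3 * X ^ 2 - a * Y) / (2 * Y + a * X + c) = l at *
    rw [← he]
    have e2 : (l ^ 2 + a * l - 2 * X) * (2 * Y + a * X + c) ^ 2 =
        (3 * X ^ 2 - a * Y) ^ 2 + a * (3 * X ^ 2 - a * Y) * (2 * Y + a * X + c) -
          2 * X * (2 * Y + a * X + c) ^ 2 := by
      rw [← e1]
      ring
    rw [e2]
    linear_combination (-(a ^ 2) / 4 - 2 * X) * he

end Pool.Agent.N2R
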