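import Pool.Agent.N2.StR

/-!
# MUX-2N, block R, module EQL: an automorphism which fixes `a` fixes all invariants (model `NS/RN_EQL.lean`)
-/

set_option autoImplicit false

open WeierstrassCurve Polynomial

namespace Pool.Agent.N2R

open _root_.MU3 Pool.Agent.MU3A Pool.Agent.MU3B Pool.Agent.RI Pool.Agent.MUX Pool.Agent.MUXU
open Pool.Agent.NS (xu)
open Pool.Agent.N2 (WT yt et GoodT CaseT)

theorem tr_EQL (h : Sr_DEF) : Sr_EQL := by
  intro L u e a hL hn σ hσ
  obtain ⟨he, -, -, h2, h3, -, -⟩ := h L u e a 1 hL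
  have hu : u ≠ 0 := hL.u0
  have hP : a ^ 4 - 24 * a = u ^ 2 * (a ^ 6 - 36 * a ^ 3 + 216) := by
    have h1 : u ^ 4 * (a ^ 4 - 24 * a - u ^ 2 * (a ^ 6 - 36 * a ^ 3 + 216)) = 0 := by
      rw [h2, h3] at hn
      linear_combination 12 * hn
    exact sub_eq_zero.1 ((mul_eq_zero.1 h1).resolve_left (pow_ne_zero 4 hu))
  have hQ : a ^ 6 - 36 * a ^ 3 + 216 ≠ 0 := by
    intro h0
    rw [h0, mul_zero] at hP
    have hP' : a * (a ^ 3 - 24) = 0 := by linear_combination hP
    rcases mul_eq_zero.1 hP' with h1 | h1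
    · rw [h1] at h0
      norm_num at h0
    · have h4 : (72 : ℂ) = 0 := by linear_combination (a ^ 3 - 12) * h1 - h0
      norm_num at h4
  have hu2 : u ^ 2 = (a ^ 4 - 24 * a) / (a ^ 6 - 36 * a ^ 3 + 216) := by
    rw [eq_div_iff hQ]
    linear_combination -hP
  have hsu : σ (u ^ 2) = u ^ 2 := by
    rw [hu2]
    simp only [map_div₀, map_mul, map_add, map_sub, map_pow, map_ofNat, hσ]
  have he' : e = u ^ 2 * a ^ 2 / 12 := by
    rw [eq_div_iff (by norm_num : (12 : ℂ) ≠ 0)]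
    linear_combination he
  have hse : σ e = e := by
    rw [he']
    simp only [map_div₀, map_mul, map_pow _ a, map_ofNat, hσ, hsu]
  have hs2 : σ L.g₂ = L.g₂ := by
    have h4 : L.g₂ = (u ^ 2) ^ 2 * (a ^ 4 - 24 * a) / 12 := by rw [h2]; ring
    rw [h4]
    simp only [map_div₀, map_mul, map_pow _ (u ^ 2), map_sub, map_pow _ a,
      map_ofNat, hσ, hsu]
  have hs3 : σ L.g₃ = L.g₃ := by
    have h4 : L.g₃ = -(1 / 18) * L.g₂ := by linear_combination (1 / 18) * hn
    rw [h4]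
    simp only [map_div₀, map_mul, map_neg, map_one, map_ofNat, hs2]
  refine ⟨hsu, hse, hs2, hs3, ?_⟩
  unfold kap
  simp only [map_div₀, map_mul, map_sub, map_one, map_ofNat, hs2]

end Pool.Agent.N2R
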