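import Pool.Agent.N2.StR
import Pool.Agent.MUX.XLib

/-!
# MUX-2N, block R, module FLD (helper50): the field of definition
-/

set_option autoImplicit false

open WeierstrassCurve Polynomial

namespace Pool.Agent.N2R

open _root_.MU3 Pool.Agent.MU3A Pool.Agent.MU3B Pool.Agent.RI Pool.Agent.MUX Pool.Agent.MUXU
open Pool.Agent.MUXV (InK tX)
open Pool.Agent.MUX2 (GRG)
open Pool.Agent.NS (xu)
open Pool.Agent.N2 (WT yt et GoodT CaseT)

noncomputable section

theorem xn_mem_three {A B : ℤ} (hc : CQ A B) {b : Ideal (OO A B)} {L : PeriodPair} {om : ℂ}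
    (h : IsNL b L om) {w : ℂ} (hw : w ∉ L.lattice) (hw2 : 3 * w ∈ L.lattice) :
    L.weierstrassP w ∈ RF (idl (A := A) (B := B) 3) := by
  have h1 : xn L w ∈ RF (idl (A := A) (B := B) 3) := by
    refine IntermediateField.subset_adjoin _ _ ⟨b, L, om, h, Or.inr ⟨w, ?_, hw, rfl⟩⟩
    intro x hx
    obtain ⟨y, rfl⟩ := Ideal.mem_span_singleton'.1 hx
    have h2 : emb (y * ((3 : ℕ) : OO A B)) = emb y * 3 := by
      rw [emb_mul hc]
      congr 1
      have := map_natCast (Pool.Agent.MUX.embHom hc) 3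
      rw [Pool.Agent.MUX.embHom_apply] at this
      rw [this]
      norm_num
    rw [h2, mul_assoc]
    exact h.toIsLI.hasCM hc y _ hw2
  have h3 : L.weierstrassP w = xn L w + ((1 / 12 : ℚ) : ℂ) := by
    unfold xn
    push_cast
    ring
  rw [h3]
  refine add_mem h1 ?_
  exact SubfieldClass.ratCast_mem _ _

theorem tr_FLD (h1 : Sr_DEF) : Sr_FLD := by
  intro A B b L om hc hL u e a c w₁ w₂ hd hw hw2 hw3 hu
  obtain ⟨e12, hc0, -, hg2, hg3, -, -⟩ := h1 L u e a c hd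
  have hu0 := hd.u0
  have m1 := xn_mem_three hc hL hw.ne hw.three
  have m2 := xn_mem_three hc hL hw2 hw3
  have me : e ∈ RF (idl (A := A) (B := B) 3) := hw.P ▸ m1
  have mu2 : u ^ 2 ∈ RF (idl (A := A) (B := B) 3) := hu ▸ sub_mem m2 m1
  have mr : ∀ r : ℚ, (r : ℂ) ∈ RF (idl (A := A) (B := B) 3) := fun r =>
    SubfieldClass.ratCast_mem _ _
  have mk : kap L ∈ RF (idl (A := A) (B := B) 3) :=
    IntermediateField.subset_adjoin _ _ ⟨b, L, om, hL, Or.inl rfl⟩
  have mg2 : L.g₂ ∈ RF (idl (A := A) (B := B) 3) := by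
    have : L.g₂ = ((1 / 12 : ℚ) : ℂ) + ((144 : ℚ) : ℂ) * kap L := by
      unfold kap
      push_cast
      ring
    rw [this]
    exact add_mem (mr _) (mul_mem (mr _) mk)
  have mg3 : L.g₃ ∈ RF (idl (A := A) (B := B) 3) := by
    have : L.g₃ = ((-1 / 18 : ℚ) : ℂ) * L.g₂ := by
      rw [hL.nrm]
      push_cast
      ring
    rw [this]
    exact mul_mem (mr _) mg2
  have ma2 : a ^ 2 ∈ RF (idl (A := A) (B := B) 3) := by
    have : a ^ 2 = ((12 : ℚ) : ℂ) * e / u ^ 2 := by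
      rw [eq_div_iff (pow_ne_zero 2 hu0)]
      push_cast
      linear_combination -e12
    rw [this]
    exact div_mem (mul_mem (mr _) me) mu2
  have mac : a * c ∈ RF (idl (A := A) (B := B) 3) := by
    have : a * c = ((1 / 24 : ℚ) : ℂ) * ((a ^ 2) ^ 2 - ((12 : ℚ) : ℂ) * L.g₂ / (u ^ 2) ^ 2) := by
      rw [hg2]
      push_cast
      field_simp
      ring
    rw [this]
    exact mul_mem (mr _) (sub_mem (pow_mem ma2 2) (div_mem (mul_mem (mr _) mg2) (pow_mem mu2 2)))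
  refine ⟨mu2, me, ma2, mac, ?_⟩
  have : c ^ 2 = ((1 / 216 : ℚ) : ℂ) * (((-216 : ℚ) : ℂ) * L.g₃ / (u ^ 2) ^ 3 - (a ^ 2) ^ 3 +
      ((36 : ℚ) : ℂ) * (a ^ 2 * (a * c))) := by
    rw [hg3]
    push_cast
    field_simp
    ring
  rw [this]
  exact mul_mem (mr _) (add_mem (sub_mem (div_mem (mul_mem (mr _) mg3) (pow_mem mu2 3))
    (pow_mem ma2 3)) (mul_mem (mr _) (mul_mem ma2 mac)))

end

end Pool.Agent.N2R
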