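import Pool.Agent.N2.StR
import Pool.Agent.MU3.BAll
import Pool.Agent.MUX.UAll
import Pool.Agent.MUX.VG

/-!
# MUX-2N, block R2N, module FXL (helper31): an automorphism in the inertia group fixes the `x`-coordinates of
the points of order prime to 2. The proof follows `NS/RN_FXL.lean` (helper19).

`tr_FXL : Sr_UNQ → Sr_EQL → Sr_RED → Sr_GRT → Sr_TOR → Sr_FXL`.
-/

set_option autoImplicit false

open WeierstrassCurve Polynomial

namespace Pool.Agent.N2R

open _root_.MU3 Pool.Agent.MU3A Pool.Agent.MU3B Pool.Agent.RI Pool.Agent.MUX Pool.Agent.MUXU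
open Pool.Agent.MUXV (InK tX)
open Pool.Agent.MUX2 (GRG)
open Pool.Agent.NS (xu)
open Pool.Agent.N2 (WT yt et GoodT CaseT)

noncomputable section

theorem tr_FXL (h1 : Sr_UNQ) (h2 : Sr_EQL) (h3 : Sr_RED) (h4 : Sr_GRT) (h5 : Sr_TOR) :
    Sr_FXL := by
  intro A B V β N hC b L om hL u e a hDeu ha F hNF hF σ hσ hσa hin
  have hv1 : V.valuation (1 : ℂ) = 1 := map_one _
  have hu := hDeu.u0
  have hσa' : σ a = a := by
    refine h1 A B V β N hC b L om hL.toIsLI u e a hDeu ha σ hσ hσa fun z hz hNz => hin z hz ?_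
    obtain ⟨k, rfl⟩ := hNF
    have h6 : ((N * k : ℕ) : ℂ) * z = (k : ℕ) • ((N : ℂ) * z) := by
      rw [nsmul_eq_mul]; push_cast; ring
    rw [h6]
    exact nsmul_mem hNz k
  obtain ⟨hσu, hσe, hσ2, hσ3, hσk⟩ := h2 L u e a hDeu hL.nrm σ hσa'
  refine ⟨hσk, fun z hz hFz => ?_⟩
  have hCj : IsCj σ L L := ⟨hσ2.symm, hσ3.symm⟩
  obtain ⟨Φ, hΦ⟩ := u_PHI σ L L hCj
  have hΦz : Φ z ∉ L.lattice := fun h => hz ((hΦ.mem z).1 h)
  have hFΦ : (F : ℂ) * Φ z ∈ L.lattice := by
    have := ((u_TSN σ L L Φ hCj hΦ).1 (F : ℤ) z).2 (by simpa using hFz)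
    simpa using this
  have hX : xu L u e (Φ z) = σ (xu L u e z) := by
    rw [xu, xu, hΦ.P z hz, map_div₀, map_sub, hσu, hσe]
  have hlt : V.valuation (xu L u e z - xu L u e (Φ z)) < 1 := by
    rw [hX, Valuation.map_sub_swap]
    exact (hin z hz hFz).1
  have hred := (h3 A B V β N hC b L om hL.toIsLI u e a 1 hDeu ha hv1.le (Or.inr hv1)).2.1
  obtain ⟨ξ, G, -⟩ := h4 V L u e a 1 hC.v3 hred hv1 hDeu
  have nK : ∀ w : ℂ, w ∉ L.lattice → (F : ℂ) * w ∈ L.lattice → ¬ InK V L (xu L u e) w := by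
    intro w hw hFw h
    rcases h with h | h
    · exact hw h
    · exact h ((ValuationSubring.valuation_le_one_iff _ _).1
        (h5 V L u e a 1 ha hv1.le hDeu F hF w hw hFw).1)
  have hP : L.weierstrassP (Φ z) = L.weierstrassP z := by
    by_cases hp : InK V L (xu L u e) (z + Φ z)
    · have h6 := Pool.Agent.MUX2.gmem_of_nat_mul G hp hF (by
        rw [mul_add]; exact add_mem hFz hFΦ)
      have h7 : Φ z = -z + ((⟨z + Φ z, h6⟩ : L.lattice) : ℂ) := by
        show Φ z = -z + (z + Φ z)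
        ring
      rw [h7, L.weierstrassP_add_coe, L.weierstrassP_neg]
    · by_cases hm : InK V L (xu L u e) (z - Φ z)
      · have h6 := Pool.Agent.MUX2.gmem_of_nat_mul G hm hF (by
          rw [mul_sub]; exact sub_mem hFz hFΦ)
        have h7 : z = Φ z + ((⟨z - Φ z, h6⟩ : L.lattice) : ℂ) := by
          show z = Φ z + (z - Φ z)
          ring
        have h8 := L.weierstrassP_add_coe (Φ z) ⟨z - Φ z, h6⟩
        rw [← h7] at h8
        exact h8.symm
      · exact absurd (Pool.Agent.MUX2.gv_X_sub G (nK z hz hFz) (nK _ hΦz hFΦ) hp hm) hlt.ne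
  have h6 := hΦ.P z hz
  rw [hP] at h6
  rw [xn, map_sub, ← h6, map_div₀, map_one, map_ofNat]

end

end Pool.Agent.N2R
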