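import Pool.Agent.N2.StR

/-!
# MUX-2N, block R: good reduction of the Deuring form (helper94)
-/

set_option autoImplicit false

open WeierstrassCurve Polynomial

namespace Pool.Agent.N2R

open _root_.MU3 Pool.Agent.MU3A Pool.Agent.MU3B Pool.Agent.RI Pool.Agent.MUX Pool.Agent.MUXU
open Pool.Agent.MUX2 (GRG)
open Pool.Agent.NS (xu)
open Pool.Agent.N2 (WT yt et GoodT CaseT)

noncomputable section

/-- the discriminant of the Deuring curve -/
theorem GRT_disc (a c : ℂ) : (WT a c).Δ = c ^ 3 * (a ^ 3 - 27 * c) := by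
  simp only [WeierstrassCurve.Δ, WeierstrassCurve.b₂, WeierstrassCurve.b₄, WeierstrassCurve.b₆,
    WeierstrassCurve.b₈, WT]
  ring

theorem GRT_unit (V : ValuationSubring ℂ) (a c : ℂ) (h3 : V.valuation (3 : ℂ) = 1)
    (ha : V.valuation a < 1) (hc : V.valuation c = 1) :
    V.valuation (a ^ 3 - 27 * c) = 1 := by
  have e27 : V.valuation (27 * c) = 1 := by
    have : (27 : ℂ) * c = 3 ^ 3 * c := by norm_num
    rw [this, map_mul, map_pow, h3, hc]
    simp
  have ea : V.valuation (a ^ 3) < 1 := by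
    rw [map_pow]
    exact pow_lt_one₀ zero_le' ha (by norm_num)
  rw [Valuation.map_sub_eq_of_lt_right, e27]
  rwa [e27]

theorem tr_GRT (h : Sr_XIT) : Sr_GRT := by
  intro V L u e a c h3 ha hc hD
  obtain ⟨ξ, hk, hs, hp⟩ := h L u e a c hD
  refine ⟨ξ, ⟨⟨ha.le, ?_, hc.le, ?_, ?_⟩, ?_, hp, fun z hz => (hk z).2 hz⟩, hs⟩
  · show V.valuation (0 : ℂ) ≤ 1
    rw [map_zero]
    exact zero_le_one
  · show V.valuation (0 : ℂ) ≤ 1
    rw [map_zero]
    exact zero_le_one
  · show V.valuation (0 : ℂ) ≤ 1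
    rw [map_zero]
    exact zero_le_one
  · rw [GRT_disc, map_mul, map_pow, hc, GRT_unit V a c h3 ha hc]
    simp

end

end Pool.Agent.N2R
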