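import Pool.Agent.N2.StR
import Pool.Agent.MU3.BAll

/-!
# MUX-2N, block R2N, module HPD: a Deuring form with integral coefficients
-/

set_option autoImplicit false

open WeierstrassCurve Polynomial

namespace Pool.Agent.N2R

open _root_.MU3 Pool.Agent.MU3A Pool.Agent.MU3B Pool.Agent.RI Pool.Agent.MUX Pool.Agent.MUXU
open Pool.Agent.MUXV (InK tX)
open Pool.Agent.MUX2 (GRG)
open Pool.Agent.NS (xu)
open Pool.Agent.N2 (WT yt et GoodT CaseT)

noncomputable section

namespace HPDaux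

/-- the four points of order three, up to the sign -/
def pm : Fin 4 → ℤ × ℤ := ![(1, 0), (0, 1), (1, 1), (1, -1)]

def pz (L : PeriodPair) (q : ℤ × ℤ) : ℂ := ((q.1 : ℂ) * L.ω₁ + (q.2 : ℂ) * L.ω₂) / 3

lemma pz_mem {L : PeriodPair} {q : ℤ × ℤ} (h : pz L q ∈ L.lattice) :
    (3 : ℤ) ∣ q.1 ∧ (3 : ℤ) ∣ q.2 := by
  obtain ⟨m, n, e⟩ := PeriodPair.mem_lattice.mp h
  have h1 := LinearIndependent.pair_iff.mp L.indep (3 * m - q.1) (3 * n - q.2) (by
    unfold pz at e
    simp only [Complex.real_smul]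
    push_cast
    linear_combination 3 * e)
  obtain ⟨h2, h3⟩ := h1
  refine ⟨⟨m, ?_⟩, ⟨n, ?_⟩⟩
  · have h4 : ((q.1 : ℤ) : ℝ) = ((3 * m : ℤ) : ℝ) := by
      push_cast
      linarith
    exact_mod_cast h4
  · have h4 : ((q.2 : ℤ) : ℝ) = ((3 * n : ℤ) : ℝ) := by
      push_cast
      linarith
    exact_mod_cast h4

lemma pz_three (L : PeriodPair) (q : ℤ × ℤ) : 3 * pz L q ∈ L.lattice := by
  have h : 3 * pz L q = (q.1 : ℂ) * L.ω₁ + (q.2 : ℂ) * L.ω₂ := by
    unfold pz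
    ring
  rw [h]
  exact PeriodPair.mem_lattice.mpr ⟨q.1, q.2, rfl⟩

lemma pz_sub (L : PeriodPair) (q r : ℤ × ℤ) : pz L q - pz L r = pz L (q.1 - r.1, q.2 - r.2) := by
  unfold pz
  push_cast
  ring

lemma pz_add (L : PeriodPair) (q r : ℤ × ℤ) : pz L q + pz L r = pz L (q.1 + r.1, q.2 + r.2) := by
  unfold pz
  push_cast
  ring

lemma pm_ne : ∀ i : Fin 4, ¬ ((3 : ℤ) ∣ (pm i).1 ∧ (3 : ℤ) ∣ (pm i).2) := by decide

lemma pm_sub : ∀ i j : Fin 4, i ≠ j →
    ¬ ((3 : ℤ) ∣ (pm i).1 - (pm j).1 ∧ (3 : ℤ) ∣ (pm i).2 - (pm j).2) := by decide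

lemma pm_add : ∀ i j : Fin 4, i ≠ j →
    ¬ ((3 : ℤ) ∣ (pm i).1 + (pm j).1 ∧ (3 : ℤ) ∣ (pm i).2 + (pm j).2) := by decide

lemma others : ∀ i j : Fin 4, i ≠ j → ∃ k l : Fin 4, k ≠ i ∧ k ≠ j ∧ l ≠ i ∧ l ≠ j ∧ k ≠ l := by
  decide

lemma P_inj (L : PeriodPair) {i j : Fin 4} (hij : i ≠ j) :
    L.weierstrassP (pz L (pm i)) ≠ L.weierstrassP (pz L (pm j)) := by
  intro h
  rcases b_NEQ L (pz L (pm j)) (pz L (pm i)) (fun h => pm_ne j (pz_mem h))
    (fun h => pm_ne i (pz_mem h)) h with h1 | h1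
  · rw [pz_sub] at h1
    exact pm_sub i j hij (pz_mem h1)
  · rw [pz_add] at h1
    exact pm_add i j hij (pz_mem h1)

/-- the data of a point of order three -/
lemma data {L : PeriodPair} {w : ℂ} (hw : w ∉ L.lattice) (h3 : 3 * w ∈ L.lattice) :
    L.derivWeierstrassP w ≠ 0 ∧ 12 * L.weierstrassP w * L.derivWeierstrassP w ^ 2 =
      (6 * L.weierstrassP w ^ 2 - L.g₂ / 2) ^ 2 := by
  have h2 : 2 * w ∉ L.lattice := fun h2 => hw (by
    have h4 : w = 3 * w - 2 * w := by ring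
    rw [h4]
    exact sub_mem h3 h2)
  have hd : L.derivWeierstrassP w ≠ 0 := fun h0 => h2 ((b_ZER L w hw).1 h0)
  refine ⟨hd, ?_⟩
  have hp : L.weierstrassP (2 * w) = L.weierstrassP w := by
    have h4 : 2 * w = -w + 3 * w := by ring
    rw [h4]
    exact (L.weierstrassP_add_coe (-w) ⟨3 * w, h3⟩).trans (L.weierstrassP_neg w)
  have h5 := (b_DUP L w h2).1
  rw [hp] at h5
  have h6 : L.weierstrassP w + 2 * L.weierstrassP w = 3 * L.weierstrassP w := by ring
  rw [h6] at h5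
  have h7 : (6 * L.weierstrassP w ^ 2 - L.g₂ / 2) / (2 * L.derivWeierstrassP w) *
      (2 * L.derivWeierstrassP w) = 6 * L.weierstrassP w ^ 2 - L.g₂ / 2 :=
    div_mul_cancel₀ _ (mul_ne_zero two_ne_zero hd)
  rw [← h7, mul_pow, ← h5]
  ring

lemma deu {L : PeriodPair} {w u : ℂ} (hw : w ∉ L.lattice) (h3 : 3 * w ∈ L.lattice)
    (hu : u ≠ 0) : Deu L u (L.weierstrassP w)
      ((6 * L.weierstrassP w ^ 2 - L.g₂ / 2) / (L.derivWeierstrassP w * u))
      (L.derivWeierstrassP w / u ^ 3) := by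
  obtain ⟨hd, h1⟩ := data hw h3
  refine ⟨hu, fun z hz => ?_⟩
  have h4 := L.derivWeierstrassP_sq z hz
  have h5 := L.derivWeierstrassP_sq w hw
  unfold xu
  generalize L.derivWeierstrassP z = D at *
  generalize L.weierstrassP z = X at *
  generalize L.derivWeierstrassP w = d at *
  generalize L.weierstrassP w = p at *
  have e1 : (6 * p ^ 2 - L.g₂ / 2) / (d * u) * ((X - p) / u ^ 2) + d / u ^ 3 =
      ((6 * p ^ 2 - L.g₂ / 2) * (X - p) + d ^ 2) / (d * u ^ 3) := by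
    field_simp
  have e2 : (D / u ^ 3) ^ 2 = D ^ 2 / u ^ 6 := by
    rw [div_pow]
    ring
  have e3 : 4 * ((X - p) / u ^ 2) ^ 3 = 4 * (X - p) ^ 3 / u ^ 6 := by
    rw [div_pow]
    ring
  have e4 : (((6 * p ^ 2 - L.g₂ / 2) * (X - p) + d ^ 2) / (d * u ^ 3)) ^ 2 =
      (12 * p * (X - p) ^ 2 + 2 * (6 * p ^ 2 - L.g₂ / 2) * (X - p) + d ^ 2) / u ^ 6 := by
    rw [div_pow, div_eq_div_iff (pow_ne_zero 2 (mul_ne_zero hd (pow_ne_zero 3 hu)))
      (pow_ne_zero 6 hu)]
    linear_combination (-(X - p) ^ 2 * u ^ 6) * h1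
  rw [e1, e2, e3, e4, h4, ← add_div]
  congr 1
  rw [h5]
  ring

end HPDaux

open HPDaux in
theorem tr_HPD (hDEF : Sr_DEF) : Sr_HPD := by
  intro V L hv3
  obtain ⟨⟨i, j⟩, -, hmax⟩ := Finset.exists_max_image (Finset.univ : Finset (Fin 4 × Fin 4))
    (fun q => V.valuation (L.weierstrassP (pz L (pm q.2)) - L.weierstrassP (pz L (pm q.1))))
    ⟨(0, 1), Finset.mem_univ _⟩
  have hmax' : ∀ k l : Fin 4,
      V.valuation (L.weierstrassP (pz L (pm l)) - L.weierstrassP (pz L (pm k))) ≤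
      V.valuation (L.weierstrassP (pz L (pm j)) - L.weierstrassP (pz L (pm i))) :=
    fun k l => hmax (k, l) (Finset.mem_univ _)
  have hij : i ≠ j := by
    rintro rfl
    have h1 := hmax' 0 1
    rw [sub_self, map_zero, le_zero_iff, map_eq_zero, sub_eq_zero] at h1
    exact P_inj L (by decide) h1
  obtain ⟨k, l, hki, hkj, hli, hlj, hkl⟩ := others i j hij
  have hne : L.weierstrassP (pz L (pm j)) - L.weierstrassP (pz L (pm i)) ≠ 0 :=
    sub_ne_zero.2 (P_inj L hij.symm)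
  obtain ⟨u, hu⟩ := IsAlgClosed.exists_pow_nat_eq
    (L.weierstrassP (pz L (pm j)) - L.weierstrassP (pz L (pm i))) (by norm_num : 0 < 2)
  have hu0 : u ≠ 0 := by
    rintro rfl
    apply hne
    rw [← hu]
    ring
  have hw : pz L (pm i) ∉ L.lattice := fun h => pm_ne i (pz_mem h)
  have h3 := pz_three L (pm i)
  obtain ⟨hd, -⟩ := data hw h3
  have hD := deu hw h3 hu0
  obtain ⟨-, hc0, -, -, -, -, hroot⟩ := hDEF L _ _ _ _ hD
  set a : ℂ := (6 * L.weierstrassP (pz L (pm i)) ^ 2 - L.g₂ / 2) /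
    (L.derivWeierstrassP (pz L (pm i)) * u) with ha
  set c : ℂ := L.derivWeierstrassP (pz L (pm i)) / u ^ 3 with hc
  have hx : ∀ m : Fin 4, m ≠ i →
      xu L u (L.weierstrassP (pz L (pm i))) (pz L (pm m)) ≠ 0 ∧
      3 * xu L u (L.weierstrassP (pz L (pm i))) (pz L (pm m)) ^ 3 +
        a ^ 2 * xu L u (L.weierstrassP (pz L (pm i))) (pz L (pm m)) ^ 2 +
        3 * a * c * xu L u (L.weierstrassP (pz L (pm i))) (pz L (pm m)) + 3 * c ^ 2 = 0 := by
    intro m hm
    have h0 : xu L u (L.weierstrassP (pz L (pm i))) (pz L (pm m)) ≠ 0 := by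
      unfold xu
      exact div_ne_zero (sub_ne_zero.2 (P_inj L hm)) (pow_ne_zero 2 hu0)
    exact ⟨h0, (hroot _ (fun h => pm_ne m (pz_mem h)) (pz_three L _)).resolve_left h0⟩
  have hxv : ∀ m : Fin 4, V.valuation (xu L u (L.weierstrassP (pz L (pm i))) (pz L (pm m))) ≤
      1 := by
    intro m
    unfold xu
    rw [hu, map_div₀]
    exact div_le_one_of_le₀ (hmax' i m) zero_le
  have hxj : xu L u (L.weierstrassP (pz L (pm i))) (pz L (pm j)) = 1 := by
    unfold xu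
    rw [hu, div_self hne]
  have hxinj : ∀ m n : Fin 4, m ≠ n → xu L u (L.weierstrassP (pz L (pm i))) (pz L (pm m)) ≠
      xu L u (L.weierstrassP (pz L (pm i))) (pz L (pm n)) := by
    intro m n hmn h
    unfold xu at h
    rw [div_left_inj' (pow_ne_zero 2 hu0)] at h
    exact P_inj L hmn (sub_left_inj.1 h)
  have hj := (hx j hij.symm).2
  rw [hxj] at hj
  have hk := (hx k hki).2
  have hl := (hx l hli).2
  have hkj' := hxinj k j hkj
  have hlj' := hxinj l j hlj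
  rw [hxj] at hkj' hlj'
  have hkl' := hxinj k l hkl
  have hvk := hxv k
  have hvl := hxv l
  generalize xu L u (L.weierstrassP (pz L (pm i))) (pz L (pm k)) = x at *
  generalize xu L u (L.weierstrassP (pz L (pm i))) (pz L (pm l)) = y at *
  have q1 : 3 * (x ^ 2 + x + 1) + a ^ 2 * (x + 1) + 3 * a * c = 0 := by
    have : (x - 1) * (3 * (x ^ 2 + x + 1) + a ^ 2 * (x + 1) + 3 * a * c) = 0 := by
      linear_combination hk - hj
    exact (mul_eq_zero.1 this).resolve_left (sub_ne_zero.2 hkj')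
  have q2 : 3 * (y ^ 2 + y + 1) + a ^ 2 * (y + 1) + 3 * a * c = 0 := by
    have : (y - 1) * (3 * (y ^ 2 + y + 1) + a ^ 2 * (y + 1) + 3 * a * c) = 0 := by
      linear_combination hl - hj
    exact (mul_eq_zero.1 this).resolve_left (sub_ne_zero.2 hlj')
  have q3 : 3 * (x + y + 1) + a ^ 2 = 0 := by
    have : (x - y) * (3 * (x + y + 1) + a ^ 2) = 0 := by
      linear_combination q1 - q2
    exact (mul_eq_zero.1 this).resolve_left (sub_ne_zero.2 hkl')
  have q4 : c ^ 2 = -(x * y) := by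
    have h5 : 3 * (c ^ 2 + x * y) = 0 := by
      linear_combination hj - q1 + x * q3
    have h6 := (mul_eq_zero.1 h5).resolve_left (by norm_num)
    linear_combination h6
  have ha2 : a ^ 2 = -(3 * (x + y + 1)) := by linear_combination q3
  have sqle : ∀ t : ℂ, V.valuation (t ^ 2) ≤ 1 → V.valuation t ≤ 1 := by
    intro t ht
    by_contra hcon
    rw [not_le] at hcon
    rw [map_pow] at ht
    exact absurd ht (not_le.2 (one_lt_pow₀ hcon two_ne_zero))
  have hva : V.valuation a ≤ 1 := by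
    apply sqle
    rw [ha2, Valuation.map_neg, map_mul, hv3, one_mul]
    exact Valuation.map_add_le _ (Valuation.map_add_le _ hvk hvl) (map_one _).le
  have hvc : V.valuation c ≤ 1 := by
    apply sqle
    rw [q4, Valuation.map_neg, map_mul]
    exact mul_le_one' hvk hvl
  refine ⟨pz L (pm i), pz L (pm j), u, a, c, ⟨hw, h3, rfl, ?_⟩,
    ⟨fun h => pm_ne j (pz_mem h), pz_three L _⟩, P_inj L hij.symm, hu, hD, hva, hvc, ?_⟩
  · rw [hc]
    field_simp
  · by_contra hcon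
    rw [not_or] at hcon
    have hva1 := lt_of_le_of_ne hva hcon.1
    have hvc1 := lt_of_le_of_ne hvc hcon.2
    have h5 : (3 : ℂ) = -(a * a + 3 * (a * c) + 3 * (c * c)) := by
      linear_combination hj
    have h6 : V.valuation (a * a + 3 * (a * c) + 3 * (c * c)) < 1 := by
      refine Valuation.map_add_lt _ (Valuation.map_add_lt _ ?_ ?_) ?_
      · rw [map_mul]
        exact mul_lt_one_of_lt_of_le hva1 hva
      · rw [map_mul, hv3, one_mul, map_mul]
        exact mul_lt_one_of_lt_of_le hva1 hvc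
      · rw [map_mul, hv3, one_mul, map_mul]
        exact mul_lt_one_of_lt_of_le hvc1 hvc
    have h7 := congrArg V.valuation h5
    rw [hv3, Valuation.map_neg] at h7
    rw [← h7] at h6
    exact lt_irrefl _ h6

end

end Pool.Agent.N2R
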