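import Pool.Agent.N2.StR
import Pool.Agent.MU3.BAll
import Pool.Agent.MUX.UAll
import Pool.Agent.MUX.R2All

/-!
# MUX-2N, block R, module ISO: integral formulas for isogenies of odd degree (helper64)

Adapted from `NS/RN_ISO.lean`.
-/

set_option autoImplicit false

open WeierstrassCurve Polynomial

namespace Pool.Agent.N2R

open _root_.MU3 Pool.Agent.MU3A Pool.Agent.MU3B Pool.Agent.RI Pool.Agent.MUX Pool.Agent.MUXU
open Pool.Agent.MUXV (InK tX)
open Pool.Agent.MUX2 (GRG)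
open Pool.Agent.NS (xu)
open Pool.Agent.N2 (WT yt et GoodT CaseT)

noncomputable section

namespace ISO

lemma int_iff (V : ValuationSubring ℂ) (p : ℂ[X]) :
    (∀ i, V.valuation (p.coeff i) ≤ 1) ↔ p ∈ Polynomial.lifts V.subtype := by
  rw [Polynomial.lifts_iff_coeff_lifts]
  refine forall_congr' fun i => ?_
  rw [ValuationSubring.valuation_le_one_iff]
  constructor
  · intro h
    exact ⟨⟨_, h⟩, rfl⟩
  · rintro ⟨x, hx⟩
    rw [← hx]
    exact x.2

lemma C_mem {V : ValuationSubring ℂ} {a : ℂ} (h : V.valuation a ≤ 1) :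
    (C a : ℂ[X]) ∈ Polynomial.lifts V.subtype := by
  rw [ValuationSubring.valuation_le_one_iff] at h
  exact Polynomial.C_mem_lifts V.subtype ⟨a, h⟩

lemma X_sub_mem {V : ValuationSubring ℂ} {a : ℂ} (h : V.valuation a ≤ 1) :
    (X - C a : ℂ[X]) ∈ Polynomial.lifts V.subtype := by
  have h1 : (X - C a : ℂ[X]) = X + C (-a) := by rw [C_neg, sub_eq_add_neg]
  rw [h1]
  exact add_mem (Polynomial.X_mem_lifts _) (C_mem (by rwa [Valuation.map_neg]))

lemma v_odd {V : ValuationSubring ℂ} (v2 : V.valuation (2 : ℂ) < 1) {n : ℕ} (hn : Odd n) :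
    V.valuation (n : ℂ) = 1 := by
  obtain ⟨k, rfl⟩ := hn
  have hk : V.valuation (k : ℂ) ≤ 1 := by
    rw [ValuationSubring.valuation_le_one_iff]
    exact natCast_mem V k
  have h1 : V.valuation (2 * (k : ℂ)) < 1 := by
    rw [map_mul]
    exact mul_lt_one_of_lt_of_le v2 hk
  have h2 : ((2 * k + 1 : ℕ) : ℂ) = 2 * (k : ℂ) + 1 := by push_cast; rfl
  rw [h2, Valuation.map_add_eq_of_lt_right _ (by rw [map_one]; exact h1), map_one]

lemma frac (L : PeriodPair) (b : ℕ) (hb : 1 < b) : L.ω₁ / b ∉ L.lattice := by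
  intro hm
  have hb' : (b : ℚ) ≠ 0 := by exact_mod_cast (Nat.ne_of_gt (lt_trans Nat.zero_lt_one hb))
  have e : L.ω₁ / b = ((1 / b : ℚ) : ℂ) * L.ω₁ + ((0 : ℚ) : ℂ) * L.ω₂ := by
    push_cast
    ring
  rw [e, PeriodPair.mul_ω₁_add_mul_ω₂_mem_lattice] at hm
  have h1 : ((((1 / b : ℚ)).num : ℤ) : ℚ) = (1 / b : ℚ) := (Rat.den_eq_one_iff _).1 hm.1
  have h2 : ((b : ℤ) : ℚ) * ((((1 / b : ℚ)).num : ℤ) : ℚ) = 1 := by
    rw [h1]
    push_cast
    field_simp
  have h3 : (b : ℤ) * ((1 / b : ℚ)).num = 1 := by exact_mod_cast h2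
  have h4 : (b : ℤ) ∣ 1 := ⟨_, h3.symm⟩
  have h5 := Int.le_of_dvd one_pos h4
  have h6 : (b : ℤ) ≤ 1 := h5
  omega

lemma unit_nu (h1 : Sr_SCL) {V : ValuationSubring ℂ}
    {L M : PeriodPair} {u e a c u' e' a' c' mu : ℂ} {n : ℕ}
    (v3 : V.valuation (3 : ℂ) = 1) (hL : Deu L u e a c) (hM : Deu M u' e' a' c')
    (ha : V.valuation a < 1) (hc : V.valuation c = 1) (ha' : V.valuation a' < 1)
    (hc' : V.valuation c' = 1) (hmu : mu ≠ 0)
    (hI : Isg L M mu) (hvn : V.valuation (n : ℂ) = 1)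
    (hker : ∀ z, mu * z ∈ M.lattice → n * z ∈ L.lattice) :
    V.valuation (mu * u' / u) = 1 := by
  obtain ⟨L₁, hL1, -, -, WL, YL, ξL, gL⟩ := h1 V L u e a c v3 ha hc hL
  obtain ⟨M₁, hM1, -, -, WM, YM, ξM, gM⟩ := h1 V M u' e' a' c' v3 ha' hc' hM
  have hu := hL.u0
  have hu' := hM.u0
  have hnu0 : mu * u' / u ≠ 0 := div_ne_zero (mul_ne_zero hmu hu') hu
  have hn0 : (n : ℂ) ≠ 0 := by
    intro h
    rw [h, map_zero] at hvn
    exact zero_ne_one hvn
  have e1 : V.valuation (mu * u' / u) ≤ 1 := by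
    refine (Pool.Agent.MUX2.r2_IT2 V L₁ M₁ (e / u ^ 2) (e' / u' ^ 2) (mu * u' / u) YL YM
      ⟨WL, ξL, gL⟩ ⟨WM, ξM, gM⟩ hnu0 ?_).1
    intro w hw
    have h : w = u * (w / u) := by field_simp
    have h2 : w / u ∈ L.lattice := (hL1 _).2 (by rwa [← h])
    have h3 := (hM1 _).1 (hI _ h2)
    have h5 : u' * (mu * (w / u)) = mu * u' / u * w := by field_simp
    rwa [h5] at h3
  have e2 : V.valuation (n / (mu * u' / u)) ≤ 1 := by
    refine (Pool.Agent.MUX2.r2_IT2 V M₁ L₁ (e' / u' ^ 2) (e / u ^ 2) (n / (mu * u' / u)) YM YL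
      ⟨WM, ξM, gM⟩ ⟨WL, ξL, gL⟩ (div_ne_zero hn0 hnu0) ?_).1
    intro w hw
    have h : w = u' * (w / u') := by field_simp
    have h2 : w / u' ∈ M.lattice := (hM1 _).2 (by rwa [← h])
    have h3 : mu * (w / u' / mu) ∈ M.lattice := by
      have h4 : mu * (w / u' / mu) = w / u' := by field_simp
      rwa [h4]
    have h4 := (hL1 _).1 (hker _ h3)
    have h5 : u * (n * (w / u' / mu)) = n / (mu * u' / u) * w := by field_simp
    rwa [h5] at h4
  refine le_antisymm e1 ?_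
  rw [map_div₀, hvn] at e2
  have h6 : V.valuation (mu * u' / u) ≠ 0 := (_root_.map_ne_zero _).2 hnu0
  rw [one_div] at e2
  exact (inv_le_one₀ (zero_lt_iff.2 h6)).1 e2

lemma cancel_eval {P₁ P₂ P₃ : ℂ[X]} (h3 : P₃ ≠ 0)
    (h : ∀ x, P₁.eval x * P₃.eval x = P₂.eval x * P₃.eval x) : P₁ = P₂ := by
  refine mul_right_cancel₀ h3 (Polynomial.funext fun x => ?_)
  rw [eval_mul, eval_mul]
  exact h x

end ISO

open ISO in
theorem tr_ISO (h1 : Sr_SCL) (h2 : Sr_TOR) : Sr_ISO := by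
  intro V L M u e a c u' e' a' c' mu n v2 v3 hL hM ha hc ha' hc' hmu hI hodd hker R hR
  have hu := hL.u0
  have hu' := hM.u0
  have hvn : V.valuation (n : ℂ) = 1 := v_odd v2 hodd
  have hnu := unit_nu h1 v3 hL hM ha hc ha' hc' hmu hI hvn hker
  have hxq : ∀ q ∈ R, V.valuation (xu L u e q) ≤ 1 := fun q hq =>
    (h2 V L u e a c ha.le hc.le hL n hvn q (hR.ne q hq) (hker q (hR.mem q hq))).1
  refine ⟨hnu, hxq, ?_⟩
  obtain ⟨A₀, hA0, hdeg, -, hiso⟩ := u_ISO L M mu R hmu hI hR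
  set B₀ : ℂ[X] := C (mu ^ 2) * ∏ q ∈ R, (X - C (L.weierstrassP q)) with hB0
  set Q : ℂ[X] := C (u ^ 2) * X + C e with hQ
  have hu2 : u ^ 2 ≠ 0 := pow_ne_zero 2 hu
  -- the coordinates
  have hxe : ∀ z, u ^ 2 * xu L u e z + e = L.weierstrassP z := by
    intro z
    unfold xu
    field_simp
    ring
  have hQe : ∀ z, Q.eval (xu L u e z) = L.weierstrassP z := by
    intro z
    rw [hQ, eval_add, eval_mul, eval_C, eval_X, eval_C, hxe]
  -- the polynomial `B`
  have hB : C ((mu * u' / u) ^ 2) * ∏ q ∈ R, (X - C (xu L u e q)) =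
      C (u' ^ 2 * ((u ^ 2) ^ (R.card + 1))⁻¹) * B₀.comp Q := by
    have h5 : B₀.comp Q = C (mu ^ 2) * C (u ^ 2) ^ R.card * ∏ q ∈ R, (X - C (xu L u e q)) := by
      rw [hB0, mul_comp, C_comp, prod_comp]
      have h6 : ∀ q ∈ R, (X - C (L.weierstrassP q) : ℂ[X]).comp Q =
          C (u ^ 2) * (X - C (xu L u e q)) := by
        intro q _
        rw [sub_comp, X_comp, C_comp, hQ, ← hxe q, C_add, C_mul, mul_sub]
        ring
      rw [Finset.prod_congr rfl h6, Finset.prod_mul_distrib, Finset.prod_const, mul_assoc]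
    rw [h5, ← C_pow, ← C_mul, ← mul_assoc, ← C_mul]
    congr 2
    rw [pow_succ (u ^ 2) R.card]
    field_simp
  rw [hB]
  set κ : ℂ := ((u ^ 2) ^ (R.card + 1))⁻¹ with hκ
  clear_value B₀ Q
  have hκ0 : κ ≠ 0 := inv_ne_zero (pow_ne_zero _ hu2)
  -- degrees
  have hQd : Q.natDegree = 1 := by
    rw [hQ]
    exact natDegree_linear hu2
  have hQl : Q.leadingCoeff = u ^ 2 := by
    rw [hQ]
    exact leadingCoeff_linear hu2
  have hB0d : B₀.natDegree ≤ R.card := by
    rw [hB0]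
    refine (natDegree_C_mul_le _ _).trans ?_
    rw [natDegree_prod_of_monic _ _ (fun q _ => monic_X_sub_C _)]
    simp
  have hA1d : (A₀ - C e' * B₀).natDegree = R.card + 1 := by
    rw [natDegree_sub_eq_left_of_natDegree_lt, hdeg]
    refine lt_of_le_of_lt ((natDegree_C_mul_le _ _).trans hB0d) ?_
    rw [hdeg]
    exact Nat.lt_succ_self _
  have hA1m : (A₀ - C e' * B₀).Monic := by
    refine hA0.sub_of_left ?_
    refine degree_lt_degree ?_
    refine lt_of_le_of_lt ((natDegree_C_mul_le _ _).trans hB0d) ?_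
    rw [hdeg]
    exact Nat.lt_succ_self _
  have hAm : (C κ * (A₀ - C e' * B₀).comp Q).Monic := by
    show leadingCoeff _ = 1
    rw [leadingCoeff_mul, leadingCoeff_C, leadingCoeff_comp (by rw [hQd]; exact one_ne_zero),
      hA1m.leadingCoeff, hQl, hA1d, one_mul, hκ]
    exact inv_mul_cancel₀ (pow_ne_zero _ hu2)
  have hAd : (C κ * (A₀ - C e' * B₀).comp Q).natDegree = R.card + 1 := by
    rw [natDegree_C_mul hκ0, natDegree_comp, hA1d, hQd, mul_one]
  -- the two formulas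
  have hzL : ∀ z, mu * z ∉ M.lattice → z ∉ L.lattice := fun z h h' => h (hI z h')
  have f1 : ∀ z, mu * z ∉ M.lattice →
      xu M u' e' (mu * z) * (C (u' ^ 2 * κ) * B₀.comp Q).eval (xu L u e z) =
        (C κ * (A₀ - C e' * B₀).comp Q).eval (xu L u e z) := by
    intro z hz
    simp only [eval_mul, eval_C, eval_comp, hQe, eval_sub, ← hiso.P z (hzL z hz) hz]
    unfold xu
    field_simp
  have f2 : ∀ z, mu * z ∉ M.lattice →
      mu * u' / u * (M.derivWeierstrassP (mu * z) / u' ^ 3) *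
          (C (u' ^ 2 * κ) * B₀.comp Q).eval (xu L u e z) ^ 2 =
        (derivative (C κ * (A₀ - C e' * B₀).comp Q) * (C (u' ^ 2 * κ) * B₀.comp Q) -
          (C κ * (A₀ - C e' * B₀).comp Q) * derivative (C (u' ^ 2 * κ) * B₀.comp Q)).eval
            (xu L u e z) * (L.derivWeierstrassP z / u ^ 3) := by
    intro z hz
    have h5 := u_DER L M mu A₀ B₀ hiso z (hzL z hz) hz
    have hQ' : derivative Q = C (u ^ 2) := by
      rw [hQ]
      simp
    rw [derivative_C_mul, derivative_C_mul, derivative_comp, derivative_comp, hQ']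
    simp only [eval_sub, eval_mul, eval_C, eval_comp, hQe, derivative_sub, derivative_C_mul] at h5 ⊢
    have h6 : mu * u' / u * (M.derivWeierstrassP (mu * z) / u' ^ 3) *
        (u' ^ 2 * κ * eval (L.weierstrassP z) B₀) ^ 2 =
        (u' ^ 2 * κ ^ 2 / u) * (mu * M.derivWeierstrassP (mu * z) *
          eval (L.weierstrassP z) B₀ ^ 2) := by
      field_simp
    rw [h6, h5]
    field_simp
    ring
  refine ⟨C κ * (A₀ - C e' * B₀).comp Q, hAm, hAd, ?_, fun z hz => ⟨f1 z hz, f2 z hz⟩⟩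
  -- integrality
  obtain ⟨w, hwdef⟩ : ∃ w, w = L.ω₁ / ((n + 2 : ℕ) : ℂ) := ⟨_, rfl⟩
  have hw : w ∉ L.lattice := by
    rw [hwdef]
    exact frac L (n + 2) (by omega)
  have hl0 : ((n + 2 : ℕ) : ℂ) ≠ 0 := Nat.cast_ne_zero.2 (by omega)
  have hwl : ((n + 2 : ℕ) : ℂ) * w ∈ L.lattice := by
    rw [hwdef, mul_div_cancel₀ _ hl0]
    exact L.ω₁_mem_lattice
  have hvl : V.valuation ((n + 2 : ℕ) : ℂ) = 1 := v_odd v2 (hodd.add_even even_two)
  have hmw : mu * w ∉ M.lattice := by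
    intro h
    have h5 := hker w h
    obtain ⟨k, hk⟩ := hodd
    have hw2 : 2 * w ∈ L.lattice := by
      have h6 : 2 * w = ((n + 2 : ℕ) : ℂ) * w - n * w := by
        push_cast
        ring
      rw [h6]
      exact sub_mem hwl h5
    apply hw
    have h6 : w = n * w - k • (2 * w) := by
      rw [hk, nsmul_eq_mul]
      push_cast
      ring
    rw [h6]
    exact sub_mem h5 (nsmul_mem hw2 k)
  have hwq : ∀ q ∈ R, w + q ∉ L.lattice := by
    intro q hq h
    apply hmw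
    have h5 : mu * w = mu * (w + q) - mu * q := by ring
    rw [h5]
    exact sub_mem (hI _ h) (hR.mem q hq)
  have hXwq : ∀ q ∈ R, V.valuation (xu L u e (w + q)) ≤ 1 := by
    intro q hq
    refine (h2 V L u e a c ha.le hc.le hL ((n + 2) * n) ?_ (w + q) (hwq q hq) ?_).1
    · rw [Nat.cast_mul, map_mul, hvn, hvl, mul_one]
    · have h5 : (((n + 2) * n : ℕ) : ℂ) * (w + q) =
          n • (((n + 2 : ℕ) : ℂ) * w) + (n + 2) • (n * q) := by
        rw [nsmul_eq_mul, nsmul_eq_mul]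
        push_cast
        ring
      rw [h5]
      exact add_mem (nsmul_mem hwl n) (nsmul_mem (hker q (hR.mem q hq)) (n + 2))
  have hXw : V.valuation (xu L u e w) ≤ 1 :=
    (h2 V L u e a c ha.le hc.le hL (n + 2) hvl w hw hwl).1
  have hXmw : V.valuation (xu M u' e' (mu * w)) ≤ 1 := by
    refine (h2 V M u' e' a' c' ha'.le hc'.le hM (n + 2) hvl (mu * w) hmw ?_).1
    have h5 := hI _ hwl
    have h6 : ((n + 2 : ℕ) : ℂ) * (mu * w) = mu * (((n + 2 : ℕ) : ℂ) * w) := by
      ring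
    rwa [h6]
  have hprodV : C ((mu * u' / u) ^ 2) * ∏ q ∈ R, (X - C (xu L u e q)) ∈
      Polynomial.lifts V.subtype := by
    refine mul_mem (C_mem ?_) (prod_mem fun q hq => X_sub_mem (hxq q hq))
    rw [map_pow, hnu, one_pow]
  -- the polynomial identity
  have hid : C κ * (A₀ - C e' * B₀).comp Q =
      C (xu M u' e' (mu * w)) * (C (u' ^ 2 * κ) * B₀.comp Q) +
        (X - C (xu L u e w)) * ∏ q ∈ R, (X - C (xu L u e (w + q))) := by
    have hm : (∏ q ∈ R, (X - C (xu L u e q)) : ℂ[X]) ≠ 0 :=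
      (monic_prod_of_monic _ _ (fun q _ => monic_X_sub_C _)).ne_zero
    refine cancel_eval hm fun x => ?_
    obtain ⟨z, hz, hzx⟩ := b_SUR L (u ^ 2 * x + e)
    have hx : x = xu L u e z := by
      unfold xu
      rw [hzx]
      field_simp
      ring
    by_cases hmz : mu * z ∈ M.lattice
    · obtain ⟨q, hq, hqz⟩ := hR.surj z hmz hz
      have h5 : (∏ q ∈ R, (X - C (xu L u e q)) : ℂ[X]).eval x = 0 := by
        rw [eval_prod]
        refine Finset.prod_eq_zero hq ?_
        rw [eval_sub, eval_X, eval_C, hx]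
        unfold xu
        have h6 : L.weierstrassP z = L.weierstrassP q := by
          have h7 := L.weierstrassP_add_coe q ⟨z - q, hqz⟩
          rw [← h7]
          congr 1
          simp
        rw [h6, sub_self]
      rw [h5, mul_zero, mul_zero]
    · congr 1
      rw [eval_add, hx, ← f1 z hmz, ← hB]
      have h5 := u_PFI L M mu R hmu hI hR w hmw z hmz
      have h6 : ∀ y : ℂ, L.weierstrassP z - L.weierstrassP y =
          u ^ 2 * (xu L u e z - xu L u e y) := by
        intro y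
        rw [← hxe z, ← hxe y]
        ring
      have h7 : M.weierstrassP (mu * z) - M.weierstrassP (mu * w) =
          u' ^ 2 * (xu M u' e' (mu * z) - xu M u' e' (mu * w)) := by
        unfold xu
        field_simp
        ring
      simp only [h6, h7, Finset.prod_mul_distrib, Finset.prod_const] at h5
      have h8 : mu ^ 2 * (u' ^ 2 * (xu M u' e' (mu * z) - xu M u' e' (mu * w))) *
          ∏ q ∈ R, (xu L u e z - xu L u e q) =
          u ^ 2 * (xu L u e z - xu L u e w) * ∏ q ∈ R, (xu L u e z - xu L u e (w + q)) := by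
        have h9 : (u ^ 2) ^ R.card ≠ 0 := pow_ne_zero _ hu2
        refine mul_left_cancel₀ h9 ?_
        linear_combination h5
      simp only [eval_mul, eval_C, eval_prod, eval_sub, eval_X]
      have h10 : (xu L u e z - xu L u e w) * ∏ q ∈ R, (xu L u e z - xu L u e (w + q)) =
          (mu ^ 2 * (u' ^ 2 * (xu M u' e' (mu * z) - xu M u' e' (mu * w))) *
          ∏ q ∈ R, (xu L u e z - xu L u e q)) / u ^ 2 := by
        rw [h8]
        field_simp
      rw [h10]
      field_simp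
      ring
  rw [int_iff, hid, ← hB]
  exact add_mem (mul_mem (C_mem hXmw) hprodV) (mul_mem (X_sub_mem hXw)
    (prod_mem fun q hq => X_sub_mem (hXwq q hq)))

end

end Pool.Agent.N2R
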