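import Pool.Agent.N2.StR

/-!
# MUX-2N, block R2N, module NRC (helper99): the normalisation `c = 1` of the Deuring form
-/

set_option autoImplicit false

open WeierstrassCurve Polynomial

namespace Pool.Agent.N2R

open _root_.MU3 Pool.Agent.MU3A Pool.Agent.MU3B Pool.Agent.RI Pool.Agent.MUX Pool.Agent.MUXU
open Pool.Agent.MUXV (InK tX)
open Pool.Agent.MUX2 (GRG)
open Pool.Agent.NS (xu)
open Pool.Agent.N2 (WT yt et GoodT CaseT)

noncomputable section

/-- NRC. -/
theorem tr_NRC : Sr_NRC := by
  intro V L u e a c hD hc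
  have hc0 : c ≠ 0 := by
    rintro rfl
    rw [map_zero] at hc
    exact zero_ne_one hc
  obtain ⟨l, hl⟩ := IsAlgClosed.exists_pow_nat_eq c (n := 3) (by norm_num)
  have hl0 : l ≠ 0 := by
    rintro rfl
    apply hc0
    rw [← hl]
    ring
  have hu0 := hD.u0
  have hvl : V.valuation l = 1 := by
    have h1 : V.valuation l ^ 3 = 1 := by rw [← map_pow, hl, hc]
    rcases lt_trichotomy (V.valuation l) 1 with h | h | h
    · exact absurd h1 (pow_lt_one₀ zero_le h (by norm_num)).ne
    · exact h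
    · exact absurd h1 (one_lt_pow₀ h (by norm_num)).ne'
  have hx : ∀ z, xu L (u * l) e z = xu L u e z / l ^ 2 := by
    intro z
    unfold xu
    field_simp
  refine ⟨l, hl0, hl, hvl, ⟨mul_ne_zero hu0 hl0, ?_⟩, ?_⟩
  · intro z hz
    have h1 := hD.eq z hz
    rw [hx z]
    have h2 : (L.derivWeierstrassP z / (u * l) ^ 3) ^ 2 =
        (L.derivWeierstrassP z / u ^ 3) ^ 2 / c ^ 2 := by
      rw [← hl]
      field_simp
    rw [h2, h1, ← hl]
    field_simp
  · intro z
    refine ⟨hx z, ?_⟩
    unfold yt et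
    rw [hx z, ← hl]
    field_simp

end

end Pool.Agent.N2R
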