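import Pool.Agent.N2.StR
import Pool.Agent.MU3.BAll
import Pool.Agent.MUX.XLib

/-!
# MUX-2N, block R, module RED: supersingular reduction (adapted from `NS/RN_RED.lean`)
-/

set_option autoImplicit false

open WeierstrassCurve Polynomial

namespace Pool.Agent.N2R

open _root_.MU3 Pool.Agent.MU3A Pool.Agent.MU3B Pool.Agent.RI Pool.Agent.MUX Pool.Agent.MUXU
open Pool.Agent.MUXV (InK tX)
open Pool.Agent.MUX2 (GRG)
open Pool.Agent.NS (xu)
open Pool.Agent.N2 (WT yt et GoodT CaseT)

noncomputable section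

theorem tr_RED (h1 : Sr_CMQ) (h2 : Sr_TOR) (h3 : Sr_DEF) : Sr_RED := by
  intro A B V β N hC b L om hL u e a c hdeu ha hc hac
  obtain ⟨-, -, -, -, -, ⟨w, hw⟩, -⟩ := h3 L u e a c hdeu
  have cm : ∀ x : OO A B, ∀ z ∈ L.lattice, emb x * z ∈ L.lattice := by
    intro x z hz
    obtain ⟨y, hy, rfl⟩ := (hL.mem z).1 hz
    refine (hL.mem _).2 ⟨x * y, b.mul_mem_left x hy, ?_⟩
    rw [MUX.emb_mul hC.cq]; ring
  obtain ⟨α', hα'⟩ := hC.nrm
  have hα : alB β ≠ 0 := by
    intro h0
    rw [h0, mul_zero] at hα'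
    have h4 := hC.one
    have h5 : N = 0 := by exact_mod_cast hα'
    omega
  have cmα : ∀ z ∈ L.lattice, alB β * z ∈ L.lattice := by
    intro z hz
    have h4 := add_mem hz (nsmul_mem (cm β z hz) 3)
    have h5 : z + 3 • (emb β * z) = alB β * z := by
      simp only [nsmul_eq_mul]
      unfold alB
      push_cast
      ring
    rwa [h5] at h4
  obtain ⟨R, hR⟩ := b_REP L (alB β) hα cmα
  have key := h1 A B b L om hC.cq hL u e a c w hdeu hw β R hR
  have hαw : alB β * w ∉ L.lattice := by
    intro h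
    apply hw.ne
    have h5 := cm β _ hw.three
    have h6 := sub_mem h h5
    have h7 : alB β * w - emb β * (3 * w) = w := by
      unfold alB
      ring
    rwa [h7] at h6
  have hN : ∀ q, alB β * q ∈ L.lattice → (N : ℂ) * q ∈ L.lattice := by
    intro q hq
    rw [hα', mul_assoc]
    exact cm _ _ hq
  have v3N : V.valuation ((3 * N : ℕ) : ℂ) = 1 := by
    push_cast
    rw [map_mul, hC.v3, hC.vN, one_mul]
  have vq : ∀ q ∈ R, V.valuation (xu L u e q) ≤ 1 := fun q hq =>
    (h2 V L u e a c ha hc hdeu N hC.vN q (hR.ne q hq) (hN q (hR.mem q hq))).1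
  have hwq : ∀ q ∈ R, w + q ∉ L.lattice := by
    intro q hq h
    apply hαw
    have h5 := sub_mem (cmα _ h) (hR.mem q hq)
    have h6 : alB β * (w + q) - alB β * q = alB β * w := by ring
    rwa [h6] at h5
  have vwq : ∀ q ∈ R, V.valuation (xu L u e (w + q)) ≤ 1 := by
    intro q hq
    refine (h2 V L u e a c ha hc hdeu (3 * N) v3N _ (hwq q hq) ?_).1
    have h5 := nsmul_mem hw.three N
    have h6 := nsmul_mem (hN q (hR.mem q hq)) 3
    have h7 := add_mem h5 h6
    have h8 : N • (3 * w) + 3 • ((N : ℂ) * q) = ((3 * N : ℕ) : ℂ) * (w + q) := by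
      simp only [nsmul_eq_mul]
      push_cast
      ring
    rwa [h8] at h7
  have vS : V.valuation (∑ q ∈ R, (xu L u e (w + q) - xu L u e q)) ≤ 1 := by
    refine Valuation.map_sum_le _ fun q hq => ?_
    exact (Valuation.map_sub _ _ _).trans (max_le (vwq q hq) (vq q hq))
  -- the valuations of `12` and of `α² - 1`
  have v12 : V.valuation (12 : ℂ) = V.valuation (2 : ℂ) ^ 2 := by
    have h5 : (12 : ℂ) = 2 ^ 2 * 3 := by norm_num
    rw [h5, map_mul, map_pow, hC.v3, mul_one]
  have v3b : V.valuation (3 * emb β) = V.valuation (emb β) := by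
    rw [map_mul, hC.v3, one_mul]
  have v23b : V.valuation (2 + 3 * emb β) = V.valuation (emb β) := by
    have h5 : V.valuation (2 : ℂ) < V.valuation (3 * emb β) := by
      rw [v3b]
      exact hC.vb
    rw [Valuation.map_add_eq_of_lt_right _ h5, v3b]
  have vα : V.valuation (alB β ^ 2 - 1) = V.valuation (emb β) ^ 2 := by
    have h5 : alB β ^ 2 - 1 = (3 * emb β) * (2 + 3 * emb β) := by
      unfold alB
      ring
    rw [h5, map_mul, v3b, v23b, pow_two]
  have main2 : (V.valuation a * V.valuation (emb β)) ^ 2 ≤ V.valuation (2 : ℂ) ^ 2 := by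
    have h5 := congrArg V.valuation key
    rw [map_mul, map_mul, map_pow, vα, v12] at h5
    rw [mul_pow, h5]
    exact mul_le_of_le_one_right' vS
  have main : V.valuation a * V.valuation (emb β) ≤ V.valuation (2 : ℂ) :=
    le_of_pow_le_pow_left₀ two_ne_zero zero_le main2
  have hlt : V.valuation a < 1 := by
    by_contra hge
    rw [not_lt] at hge
    exact absurd hC.vb (not_lt.2 ((le_mul_of_one_le_left' hge).trans main))
  refine ⟨main, hlt, ?_⟩
  rcases hac with h | h
  · exact absurd h hlt.ne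
  · exact h

end

end Pool.Agent.N2R
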