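import Pool.Agent.N2.StR

/-!
# MUX-2N, block R2N, module RFN (helper4): the final statement of the block
-/

set_option autoImplicit false

namespace Pool.Agent.N2R

open _root_.MU3 Pool.Agent.MU3A Pool.Agent.MU3B Pool.Agent.RI Pool.Agent.MUX Pool.Agent.MUXU
open Pool.Agent.N2 (GoodT CaseT S2_RFIN)

noncomputable section

theorem tr_RFN (h1 : Sr_ALB) (h2 : Sr_HPD) (h3 : Sr_RED) (h4 : Sr_FLD) (h5 : Sr_UNR) :
    Sr_RFN := by
  intro A B V hI hV hT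
  obtain ⟨β, N, hN, hβ⟩ := h1 A B V hI.toCQ hI.two hV
  refine ⟨fun b L om hL => ?_, fun f hf0 hf2 σ hσ hin y hy => ?_⟩
  · obtain ⟨w₁, w₂, u, a, c, hw1, ⟨hw2, hw23⟩, hne, hu, hdeu, ha, hc, hac⟩ := h2 V L hN.v3
    obtain ⟨r1, -, r3⟩ := h3 A B V β N hN b L om hL.toIsLI _ _ _ _ hdeu ha hc hac
    rw [hβ, mul_one] at r1
    obtain ⟨k1, k2, -⟩ := h4 A B b L om hN.cq hL _ _ _ _ _ _ hdeu hw1 hw2 hw23 hu
    refine ⟨u, _, a, c, ⟨hdeu.u0, ⟨w₁, w₂, hw1.three, hw23, hw1.ne, hw2, ?_, ?_, rfl, hu⟩,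
      hdeu.eq, r1, r3⟩, k1, k2⟩
    · intro h
      apply hne
      have h6 := L.weierstrassP_add_coe w₁ ⟨w₂ - w₁, h⟩
      rw [← h6]
      congr 1
      show w₂ = w₁ + (w₂ - w₁)
      ring
    · intro h
      apply hne
      have h6 := L.weierstrassP_add_coe (-w₁) ⟨w₂ + w₁, h⟩
      rw [← L.weierstrassP_neg w₁, ← h6]
      congr 1
      show w₂ = -w₁ + (w₂ + w₁)
      ring
  · refine h5 A B V β N hN hT f (Nat.odd_iff.2 (by omega)) σ hσ (fun y hy hyv => ?_) y hy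
    rw [← ValuationSubring.mem_nonunits_iff]
    exact hin y hy ((ValuationSubring.valuation_le_one_iff _ _).1 hyv)

end

end Pool.Agent.N2R
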