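import Pool.Agent.N2.DefsT
import Pool.Agent.MUX.StJG

/-!
# MUX-2R: common definitions and final statements, `2` ramified in `k`, `D ≠ -4` (helper77). See `Pool/Agent/MUX/PAPER_2R.md`

`B = 0`, `O = ℤ[w]`, `w² = A`, `A < -1` squarefree, `A ≡ 2, 3` modulo 4, `2 O = P²`. `V` a valuation ring of `ℂ` with `V ∩ O = P`, `v = V.valuation`
(multiplicative: `v(x)^4 ≤ v(2)^j` is the additive `v(x) ≥ j/4`). `dR A` = 2 (`A ≡ 3` modulo 4) or 3 (`A` even) is the exponent of the different at `P`.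
The numbers are those of helper66's message of 11:48Z (integer level `m/2`, `E[4]`, `γ²`, translates by `1/8`, `1/32`; G+ with the bound `1/3`). `SetQ`: `f` odd, divisible by 3 and by the odd part
of `D`, and there is an odd sign character `κ` modulo `f` (`f` is divisible by a prime `q₁ ≡ 3` modulo 4 which splits). Levels `m = lvX 2 f n = f 2^(n+2)`,
`a = aX 2 f = 1 + 8 f`, `R : Reps A B (2 * f) ι`, `γ² ↔ 25`. `O^* = {1,-1}`.

* `GoodQ` : as `GoodT` with `v(a1)² ≤ v 2` (`u L` has the equation `y² + a1 x y + a3 y = x³`, `a3` a unit: supersingular).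
* `OddQ` : the weights in `T(τ)`; `OddF` : the odd characters `e = e0 κ`, extended by zero to the elements not prime to `2 f`.
* `BasY`, `SetY`, `InpGY` : as `BasX`, `SetX`, `InpG` of blocks K, J, but `K` may contain the first layer `B 1` (`√2`): all degrees are counted from `B 1`.
-/

set_option autoImplicit false

namespace Pool.Agent.N2

open _root_.MU3 Pool.Agent.MU3 Pool.Agent.MU3A Pool.Agent.MU3B Pool.Agent.RI Pool.Agent.RID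
  Pool.Agent.MUX Pool.Agent.MUXE Pool.Agent.MuSym Pool.Agent.MUXH Pool.Agent.NS Pool.Agent.MUXK
  Pool.Agent.MUXJ OnePoint

noncomputable section

/-- `2` is ramified in `k`, and `D ≠ -4` -/
structure CaseR2 (A B : ℤ) : Prop extends CQ A B where
  two : (2 : ℤ) ∣ B ^ 2 + 4 * A
  exc : A ≠ -1

/-- the exponent of the different at `P` -/
def dR (A : ℤ) : ℕ := if A % 4 = 3 then 2 else 3

lemma CaseR2.b0 {A B : ℤ} (h : CaseR2 A B) : B = 0 := by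
  rcases h.hB with h1 | h1
  · exact h1
  · have h2 := h.two
    rw [h1] at h2
    omega

/-- `A ≡ 2, 3` modulo 4 -/
lemma CaseR2.mod {A B : ℤ} (h : CaseR2 A B) : A % 4 = 2 ∨ A % 4 = 3 := by
  obtain ⟨h1, h2⟩ := h.fund0 h.b0
  have h3 : ¬ (4 : ℤ) ∣ A := by
    intro h4
    have h5 : (2 : ℤ) * 2 ∣ A := by
      have : (2 : ℤ) * 2 = 4 := by norm_num
      rwa [this]
    have h6 := h1 2 h5
    rw [Int.isUnit_iff] at h6
    omega
  omega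

/-- an odd character with values `±1` modulo `f` -/
structure KapF {A B : ℤ} (f : ℕ) (κ : OO A B → ℤ) : Prop where
  one : κ 1 = 1
  mul : ∀ x y, κ (x * y) = κ x * κ y
  neg : κ (-1) = -1
  per : ∀ x y, x - y ∈ idl (A := A) (B := B) f → κ x = κ y
  unit : ∀ x, IsCoprime (sp x) (idl (A := A) (B := B) f) → κ x = 1 ∨ κ x = -1

/-- the standing hypotheses -/
structure SetQ (A B : ℤ) (P : Ideal (OO A B)) (V : ValuationSubring ℂ) (f : ℕ) : Prop where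
  case : CaseR2 A B
  hP : IsPN 2 P
  hV : OverI V P
  f0 : f ≠ 0
  fp : ¬ 2 ∣ f
  fD : 3 * absD A B ∣ 8 * (f : ℤ)
  kap : ∃ κ : OO A B → ℤ, KapF f κ

/-- the lattice `u L` has the equation `y² + a1 x y + a3 y = x³`, supersingular good reduction at `V` -/
structure GoodQ (V : ValuationSubring ℂ) (L : PeriodPair) (u e a1 a3 : ℂ) : Prop where
  u0 : u ≠ 0
  tor : ∃ w1 w2 : ℂ, 3 * w1 ∈ L.lattice ∧ 3 * w2 ∈ L.lattice ∧ w1 ∉ L.lattice ∧ w2 ∉ L.lattice ∧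
    w2 - w1 ∉ L.lattice ∧ w2 + w1 ∉ L.lattice ∧ e = L.weierstrassP w1 ∧
    u ^ 2 = L.weierstrassP w2 - L.weierstrassP w1
  eq : ∀ z ∉ L.lattice, (L.derivWeierstrassP z / u ^ 3) ^ 2 =
    4 * ((L.weierstrassP z - e) / u ^ 2) ^ 3 + (a1 * ((L.weierstrassP z - e) / u ^ 2) + a3) ^ 2
  v1 : V.valuation a1 ^ 2 ≤ V.valuation (2 : ℂ)
  v3 : V.valuation a3 = 1

/-- the weights in `T(τ)` -/
structure OddQ {A B : ℤ} (f : ℕ) (V : ValuationSubring ℂ) (om : OO A B → ℂ) : Prop where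
  neg : ∀ x, om (-x) = -om x
  per : ∀ x y, x - y ∈ idl (A := A) (B := B) (2 * f) → om x = om y
  cong : ∀ x, IsCoprime x ((2 * f : ℕ) : OO A B) →
    V.valuation (om x - 1) ^ 2 ≤ V.valuation (2 : ℂ)

/-- the odd characters: extended by zero to the elements not prime to `2 f`, of conductor dividing `f` -/
structure OddF {A B : ℤ} (f : ℕ) (e : OO A B → ℂ) : Prop extends
    IsEI (idl (A := A) (B := B) (2 * f)) e where
  cond : ∀ x y, IsCoprime x ((2 * f : ℕ) : OO A B) → IsCoprime y ((2 * f : ℕ) : OO A B) →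
    x - y ∈ idl (A := A) (B := B) f → e x = e y

/-! ## Fields -/

/-- as `BasX`, but the degrees are counted from the first layer -/
structure BasY (p : ℕ) (k K : IntermediateField ℚ ℂ) (B : ℕ → IntermediateField ℚ ℂ) : Prop where
  hk : k ≤ K
  gal : IsGalois k (IntermediateField.extendScalars hk)
  ab : ∀ σ τ : (IntermediateField.extendScalars hk) ≃ₐ[k] (IntermediateField.extendScalars hk),
    σ * τ = τ * σ
  deg : ∀ n, Module.finrank ℚ ↥(K ⊔ B (n + 1)) = Module.finrank ℚ ↥(K ⊔ B 1) * p ^ n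
  lay : ∀ n, IsLayer p n (B n)
  mono : Monotone B

/-- as `SetX`, with `BasY` for `K` -/
structure SetY (p : ℕ) (k K₀ K : IntermediateField ℚ ℂ) (B : ℕ → IntermediateField ℚ ℂ) :
    Prop where
  b0 : BasX p k K₀ B
  b : BasY p k K B
  le : K₀ ≤ K
  cop : ¬ p ∣ Module.finrank k (IntermediateField.extendScalars b0.hk)
  om : ∃ ω ∈ K₀, IsPrimitiveRoot ω p
  ze : ∃ ζ ∈ K, IsPrimitiveRoot ζ (2 * p)

/-- as `InpG`, with `SetY` -/
def InpGY (p d : ℕ) (A B : ℤ) (V : ValuationSubring ℂ) : Prop :=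
  ∀ (f : ℕ), f ≠ 0 → ¬ p ∣ f → d ∣ f →
  ∀ (K₀ K : IntermediateField ℚ ℂ) (Bn : ℕ → IntermediateField ℚ ℂ)
    [FiniteDimensional ℚ (kk A B)] [FiniteDimensional ℚ K] [∀ n, FiniteDimensional ℚ ↥(K ⊔ Bn n)],
    SetY p (kk A B) K₀ K Bn → (∀ y ∈ K, y ∈ RF (idl (A := A) (B := B) (lvX p f 0))) →
    (∀ y ∈ RF (⊤ : Ideal (OO A B)), y ∈ K) →
    ∀ (hk : ∀ n, kk A B ≤ K ⊔ Bn n) (hk₀ : ∀ n, kk A B ≤ K₀ ⊔ Bn n) (hkK : kk A B ≤ K₀),
    ∃ (S : Finset ℕ) (c c₀ : ℕ → ℂ) (n₁ : ℕ),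
      InpX (IsLocalRing.ResidueField V) p (kk A B) K₀ K Bn hk hk₀ hkK S c c₀ n₁

/-! ## Final statements of the blocks -/

/-- (KAP2, helper77) the level `d`. -/
def SQ_KAP : Prop :=
  ∀ A B : ℤ, CaseR2 A B → ∃ d : ℕ, d ≠ 0 ∧ ¬ 2 ∣ d ∧ 3 * absD A B ∣ 8 * (d : ℤ) ∧
    ∃ κ : OO A B → ℤ, KapF d κ

/-- (RFIN, helper77) the reduction of the normalised lattices; and `RF (idl f)` is unramified at `V` (`f` odd). -/
def SQ_RFIN : Prop :=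
  ∀ (A B : ℤ) (P : Ideal (OO A B)) (V : ValuationSubring ℂ), CaseR2 A B → IsPN 2 P → OverI V P →
    TorX A B →
    (∀ (b : Ideal (OO A B)) (L : PeriodPair) (om : ℂ), IsNL b L om →
      ∃ u e a1 a3 : ℂ, GoodQ V L u e a1 a3 ∧ u ^ 2 ∈ RF (idl (A := A) (B := B) 3) ∧
        e ∈ RF (idl (A := A) (B := B) 3)) ∧
    ∀ f : ℕ, f ≠ 0 → ¬ 2 ∣ f → ∀ σ : ℂ ≃+* ℂ, FixK A B σ →
      (∀ y ∈ RF (idl (A := A) (B := B) f), y ∈ V → σ y - y ∈ V.nonunits) →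
      ∀ y ∈ RF (idl (A := A) (B := B) f), σ y = y

/-- (EFIN, helper59) the criterion: additively `v(T(τ)/u) ≥ d/2 + 1/4`, and `v ≥ d/2 + 3/4` at squares. `C` is a conjugate family,
products of `Θ_a` over half systems of `XX`. -/
def SQ_EFIN : Prop :=
  ∀ (A B : ℤ) (P : Ideal (OO A B)) (V : ValuationSubring ℂ) (f : ℕ), SetQ A B P V f →
    TorX A B → ∀ (ι : Type) [Fintype ι] (R : Reps A B (2 * f) ι) (u e a1 a3 : ℂ),
    GoodQ V (R.L R.i0) u e a1 a3 → ∀ om : OO A B → ℂ, OddQ f V om →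
    ∀ n : ℕ, 5 ≤ n →
    ∀ (H : ι → Finset ℂ), (∀ i, IsHalf (R.L i) (aX 2 f : ℂ) (H i)) →
    ∀ (D : IntermediateField ℚ ℂ) (h : kk A B ≤ D),
      (∀ y ∈ D, y ∈ RF (idl (A := A) (B := B) (lvX 2 f n))) → InCyc A B f (2 ^ (n + 2)) D →
    letI := algC h
    ∀ (C : (D ≃ₐ[kk A B] D) → ℂ),
    (∀ τ : D ≃ₐ[kk A B] D, ∃ y : D, (y : ℂ) = C 1 ∧ ((τ y : D) : ℂ) = C τ) →
    (∀ τ : D ≃ₐ[kk A B] D, ∃ S, HalfS R (lvX 2 f n) h τ S ∧
      C τ = ∏ q ∈ S, ThetaH (R.L q.1) (H q.1) (pt R (lvX 2 f n) q.1 (Quotient.out q.2))) →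
    (∀ τ : D ≃ₐ[kk A B] D,
      V.valuation (TT2 R om (lvX 2 f n) (aX 2 f) h τ / u) ^ 4 ≤
        V.valuation (2 : ℂ) ^ (2 * dR A + 1)) ∧
    ∀ g : (D ≃ₐ[kk A B] D) → ℤ,
      (∃ y ∈ D, y ^ 2 = ∏ᶠ τ : D ≃ₐ[kk A B] D, C τ ^ g τ) →
      ∀ τ' : D ≃ₐ[kk A B] D,
        V.valuation ((∑ᶠ τ : D ≃ₐ[kk A B] D, (g τ : ℂ) *
          TT2 R om (lvX 2 f n) (aX 2 f) h (τ * τ')) / u) ^ 4 ≤
            V.valuation (2 : ℂ) ^ (2 * dR A + 3)

/-- (TYF, helper4) the values: `PhiK/(u om)` is in `pi KI`, `pi` a unit, the values of `v` on `KI` are in `(1/2) ℤ`; the same `pi`, `KI`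
for all `kk`. -/
def SQ_TYF : Prop :=
  ∀ (A B : ℤ) (P : Ideal (OO A B)) (V : ValuationSubring ℂ) (f : ℕ), SetQ A B P V f →
    TorX A B → ∀ (ι : Type) [Fintype ι] (R : Reps A B (2 * f) ι) (u el a1 a3 : ℂ),
    GoodQ V (R.L R.i0) u el a1 a3 →
    ∀ e : OO A B → ℂ, OddF f e → ∀ r : ℕ, ¬ 2 ∣ r → (∀ x, e x ≠ 0 → e x ^ (2 * r) = 1) →
    ∃ (pi : ℂ) (KI : Subfield ℂ),
      (∀ kk : ι → ℂ, (∀ i, kk i = 0 ∨ kk i ^ (2 * r) = 1) →
        ∀ x y, ∃ w ∈ KI, PhiK R e kk x y / (u * R.om R.i0) = pi * w) ∧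
      (∀ w ∈ KI, V.valuation w < 1 → V.valuation w ^ 2 ≤ V.valuation (2 : ℂ)) ∧
      (∃ w ∈ KI, V.valuation w ^ 2 = V.valuation (2 : ℂ)) ∧ V.valuation pi = 1

/-- (GPT, helper6) Theorem G+ for the translate `P_(1/8, 1/32)` of `P = PhiK R e kk / (u om_(i0))`: first coefficient `(1 - ζ_8)(1 - ζ_32)`,
`v = 5/16 < 1/3`. `kk i` may be zero for `i ≠ i0`. -/
def SQ_GPT : Prop :=
  ∀ (A B : ℤ) (P : Ideal (OO A B)) (V : ValuationSubring ℂ) (f : ℕ), SetQ A B P V f →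
    TorX A B → ∀ (ι : Type) [Fintype ι] (R : Reps A B (2 * f) ι) (u el a1 a3 : ℂ),
    GoodQ V (R.L R.i0) u el a1 a3 →
    ∀ e : OO A B → ℂ, IsEI (idl (A := A) (B := B) (2 * f)) e → ∀ r : ℕ, r ≠ 0 →
    (∀ x, e x ≠ 0 → e x ^ r = 1) → ∀ kk : ι → ℂ, V.valuation (kk R.i0) = 1 →
    ∀ N' : ℕ, N' ≠ 0 → absD A B * ((2 * f : ℕ) : ℤ) ^ 2 ∣ (N' : ℤ) →
    ∃ a b c d : ℤ, a * d - b * c = 1 ∧ (N' : ℤ) ∣ c ∧ (N' : ℤ) ∣ d - 1 ∧
      1 < V.valuation (PTq 32 (PTq 8 (fun x y => PhiK R e kk x y / (u * R.om R.i0))) ∞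
        (mob a b c d ∞))

/-- (HFIN, helper41) the character sums: for infinitely many levels `v < d/2 + 3/4`. -/
def SQ_HFIN : Prop :=
  ∀ (A B : ℤ) (P : Ideal (OO A B)) (V : ValuationSubring ℂ) (f : ℕ), SetQ A B P V f →
    TorX A B → ∀ (ι : Type) [Fintype ι] (R : Reps A B (2 * f) ι) (u el a1 a3 : ℂ),
    GoodQ V (R.L R.i0) u el a1 a3 →
    ∀ e : OO A B → ℂ, OddF f e → ∀ r : ℕ, ¬ 2 ∣ r → (∀ x, e x ≠ 0 → e x ^ (2 * r) = 1) →
    ∀ kk : ι → ℂ, (∀ i, kk i ^ (2 * r) = 1) →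
    ∀ n₀ : ℕ, ∃ n, n₀ ≤ n ∧
      V.valuation (2 : ℂ) ^ (2 * dR A + 3) <
        V.valuation ((1 / 2 * ∑ j ∈ Finset.range 2, (-1) ^ (1 - j) *
        (STX R (lvX 2 f n) (2 ^ (n + 2)) (aX 2 f) e kk (25 ^ j) +
          STX R (lvX 2 f n) (2 ^ (n + 2)) (aX 2 f) e kk (-(25 ^ j)))) / u) ^ 4

/-- (INPG, helper36) the inputs of block J. -/
def SQ_INPG : Prop :=
  ∀ (A B : ℤ) (P : Ideal (OO A B)) (V : ValuationSubring ℂ) (d : ℕ), CaseR2 A B → IsPN 2 P →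
    OverI V P → TorX A B → d ≠ 0 → ¬ 2 ∣ d → 3 * absD A B ∣ 8 * (d : ℤ) →
    (∃ κ : OO A B → ℤ, KapF d κ) → InpGY 2 d A B V

/-- (JFIN, helper34) blocks K and J: the main theorem from the inputs. (`UnrH` from `SQ_RFIN`.) -/
def SQ_JFIN : Prop :=
  ∀ (A B : ℤ) (P : Ideal (OO A B)) (V : ValuationSubring ℂ) (d : ℕ), CaseR2 A B → IsPN 2 P →
    OverI V P → d ≠ 0 → ¬ 2 ∣ d → UnrH A B V → TorX A B → NLex A B → InpGY 2 d A B V →
    ∀ (F M K : IntermediateField ℚ ℂ) [FiniteDimensional ℚ M] (_ : kk A B ≤ F) (h : F ≤ M)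
    (a : ℕ), TorU A B F → IsGalois F (IntermediateField.extendScalars h) →
    Module.finrank F (IntermediateField.extendScalars h) = 2 ^ a → K ≤ M →
    ∃ C : ℕ, ∀ (n : ℕ) (Q : IntermediateField ℚ ℂ), IsLayer 2 n Q →
      padicValNat 2 (classNo (K ⊔ Q)) ≤ C * (n + 1) ^ C

end

end Pool.Agent.N2
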