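import Pool.Agent.N2.StR
import Pool.Agent.N2.DefsR2

/-!
# MUX-2R, block R2N (helper77): the final statement `SQ_RFIN`, `2` ramified
-/

set_option autoImplicit false

namespace Pool.Agent.N2R

open _root_.MU3 Pool.Agent.MU3A Pool.Agent.MU3B Pool.Agent.RI Pool.Agent.MUX Pool.Agent.MUXU
open Pool.Agent.N2 (GoodQ CaseR2 SQ_RFIN)

noncomputable section

theorem tr_RFQ (h1 : Sr_ALC) (h2 : Sr_HPD) (h3 : Sr_RED) (h4 : Sr_FLD) (h5 : Sr_UNR) :
    SQ_RFIN := by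
  intro A B P V hI hP hV hT
  obtain ⟨β, N, hN, hβ⟩ := h1 A B V P hI.toCQ hI.two hV hP.mem
  refine ⟨fun b L om hL => ?_, fun f hf0 hf2 σ hσ hin y hy => ?_⟩
  · obtain ⟨w₁, w₂, u, a, c, hw1, ⟨hw2, hw23⟩, hne, hu, hdeu, ha, hc, hac⟩ := h2 V L hN.v3
    obtain ⟨r1, -, r3⟩ := h3 A B V β N hN b L om hL.toIsLI _ _ _ _ hdeu ha hc hac
    have r2 : V.valuation a ^ 2 ≤ V.valuation (2 : ℂ) := by
      have h2p : (0 : V.ValueGroup) < V.valuation (2 : ℂ) :=
        zero_lt_iff.2 ((Valuation.ne_zero_iff _).2 two_ne_zero)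
      have e1 : V.valuation a ^ 2 * V.valuation (2 : ℂ) ≤
          V.valuation (2 : ℂ) * V.valuation (2 : ℂ) := by
        have e2 := pow_le_pow_left₀ zero_le r1 2
        rw [mul_pow, hβ, sq (V.valuation (2 : ℂ))] at e2
        exact e2
      exact le_of_mul_le_mul_right e1 h2p
    obtain ⟨k1, k2, -⟩ := h4 A B b L om hN.cq hL _ _ _ _ _ _ hdeu hw1 hw2 hw23 hu
    refine ⟨u, _, a, c, ⟨hdeu.u0, ⟨w₁, w₂, hw1.three, hw23, hw1.ne, hw2, ?_, ?_, rfl, hu⟩,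
      hdeu.eq, r2, r3⟩, k1, k2⟩
    · intro h
      apply hne
      have h6 := L.weierstrassP_add_coe w₁ ⟨w₂ - w₁, h⟩
      rw [← h6]
      congr 1
      show w₂ = w₁ + (w₂ - w₁)
      ring
    · intro h
      apply hne
      have h6 := L.weierstrassP_add_coe (-w₁) ⟨w₂ + w₁, h⟩
      rw [← L.weierstrassP_neg w₁, ← h6]
      congr 1
      show w₂ = -w₁ + (w₂ + w₁)
      ring
  · refine h5 A B V β N hN hT f (Nat.odd_iff.2 (by omega)) σ hσ (fun y hy hyv => ?_) y hy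
    rw [← ValuationSubring.mem_nonunits_iff]
    exact hin y hy ((ValuationSubring.valuation_le_one_iff _ _).1 hyv)

end

end Pool.Agent.N2R
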