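import Pool.Agent.N2.StR
import Pool.Agent.MUX.U_SCX
import Pool.Agent.MU3.A_SCP

/-!
# MUX-2N, block R: module SCL, the scaled lattice (helper84)
-/

set_option autoImplicit false

open WeierstrassCurve Polynomial

namespace Pool.Agent.N2R

open _root_.MU3 Pool.Agent.MU3A Pool.Agent.MU3B Pool.Agent.RI Pool.Agent.MUX Pool.Agent.MUXU
open Pool.Agent.MUXV (InK tX)
open Pool.Agent.MUX2 (GRG)
open Pool.Agent.NS (xu)
open Pool.Agent.N2 (WT yt et GoodT CaseT)

noncomputable section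

theorem tr_SCL (h : Sr_GRT) : Sr_SCL := by
  intro V L u e a c h3 ha hc hL
  obtain ⟨ξ, hξ, -⟩ := h V L u e a c h3 ha hc hL
  have hu := hL.u0
  obtain ⟨L₁, hL₁⟩ := tu_SCX L u hu
  obtain ⟨k1, k2, -, -⟩ := ta_SCP L L₁ u hu hL₁
  refine ⟨L₁, hL₁, k1, k2, WT a c, fun z => yt L u e a c (z / u),
    ξ.comp (AddMonoidHom.mulRight u⁻¹), ?_⟩
  refine ⟨hξ.int, hξ.disc, ?_, ?_⟩
  · intro z hz
    have h1 : z / u ∉ L.lattice := by
      intro h2
      refine hz ?_
      have h3 := (hL₁ (z / u)).1 h2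
      rwa [mul_div_cancel₀ _ hu] at h3
    have h4 : L₁.weierstrassP z - e / u ^ 2 = xu L u e (z / u) := by
      have h5 := k1 (z / u)
      rw [mul_div_cancel₀ _ hu] at h5
      rw [h5]
      unfold xu
      ring
    have h6 := hξ.some (z / u) h1
    show ∃ h, ξ (z * u⁻¹) = Affine.Point.some (L₁.weierstrassP z - e / u ^ 2) _ h
    rw [← div_eq_mul_inv, h4]
    exact h6
  · intro z hz
    show ξ (z * u⁻¹) = 0
    rw [← div_eq_mul_inv]
    refine hξ.zero _ ?_
    rw [hL₁, mul_div_cancel₀ _ hu]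
    exact hz

end

end Pool.Agent.N2R
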