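import Pool.Agent.N2.StR
import Pool.Agent.MUX.G_VAL
import Pool.Agent.MUX.G_ADD

/-!
# MUX-2N, block R, module TOR: points of order prime to the residue characteristic have integral
coordinates (helper83)
-/

set_option autoImplicit false

open WeierstrassCurve Polynomial

namespace Pool.Agent.N2R

open _root_.MU3 Pool.Agent.MU3A Pool.Agent.MU3B Pool.Agent.RI Pool.Agent.MUX Pool.Agent.MUXU
open Pool.Agent.MUXV (InK tX)
open Pool.Agent.MUX2 (GRG)
open Pool.Agent.NS (xu)
open Pool.Agent.N2 (WT yt et GoodT CaseT)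

noncomputable section

namespace TOR

open Pool.Agent.MU3.Val Pool.Agent.MUXG

variable {V : ValuationSubring ℂ} {W : WeierstrassCurve.Affine ℂ}

/-- multiples of a point in the kernel of reduction -/
lemma zc_nsmul (hW : IntG V.valuation W) {P : W.Point} (hP : InE V.valuation P) (n : ℕ) :
    InE V.valuation (n • P) ∧
    V.valuation (zc (n • P) - n * zc P) ≤ V.valuation (zc P) ^ 2 ∧
      V.valuation (zc (n • P)) ≤ V.valuation (zc P) := by
  classical
  have hlt : V.valuation (zc P) < 1 := (tg_NEG ℂ _ V.valuation W hW _ hP).1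
  have hsq : V.valuation (zc P) ^ 2 ≤ V.valuation (zc P) := by
    rw [pow_two]; exact mul_le_of_le_one_right' hlt.le
  induction n with
  | zero =>
    rw [zero_nsmul, zc_zero]
    refine ⟨inE_zero, ?_, ?_⟩
    · simp
    · simp
  | succ n ih =>
    obtain ⟨ih0, ih1, ih2⟩ := ih
    have h3 := tg_ADD tg_VAL tg_NEG ℂ _ V.valuation W hW _ _ ih0 hP
    rw [max_eq_right ih2] at h3
    rw [succ_nsmul]
    have h4 : V.valuation (zc (n • P + P) - ((n + 1 : ℕ) : ℂ) * zc P) ≤
        V.valuation (zc P) ^ 2 := by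
      have e2 : zc (n • P + P) - ((n + 1 : ℕ) : ℂ) * zc P =
          (zc (n • P + P) - zc (n • P) - zc P) + (zc (n • P) - n * zc P) := by push_cast; ring
      rw [e2]
      exact v_add_le h3.2 ih1
    refine ⟨h3.1, h4, ?_⟩
    have e3 : zc (n • P + P) = (zc (n • P + P) - ((n + 1 : ℕ) : ℂ) * zc P) +
        ((n + 1 : ℕ) : ℂ) * zc P := by ring
    rw [e3]
    exact v_add_le (h4.trans hsq) (v_mul_le_right (v_nat _ _) le_rfl)

/-- no torsion of order `n`, `v n = 1`, in the kernel of reduction -/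
lemma eq_zero (hW : IntG V.valuation W) {P : W.Point} (hP : InE V.valuation P) {n : ℕ}
    (hn : V.valuation (n : ℂ) = 1) (h : n • P = 0) : P = 0 := by
  obtain ⟨hlt, h0, -⟩ := tg_NEG ℂ _ V.valuation W hW _ hP
  obtain ⟨-, h1, -⟩ := zc_nsmul hW hP n
  rw [h, zc_zero, zero_sub, Valuation.map_neg, map_mul, hn, one_mul] at h1
  apply h0
  by_contra hne
  have h4 : V.valuation (zc P) ^ 2 < V.valuation (zc P) := by
    rw [pow_two]
    exact mul_lt_of_lt_one_right (zero_lt_iff.2 hne) hlt
  exact absurd h1 (not_le.2 h4)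

end TOR

/-- Points of order `n` with `v n = 1` have integral coordinates. -/
theorem tr_TOR (h : Sr_XIT) : Sr_TOR := by
  intro V L u e a c ha hc hD n hn z hz hnz
  obtain ⟨ξ, hker, -, hsome⟩ := h L u e a c hD
  have hint : Pool.Agent.MUXG.IntG V.valuation (WT a c) := by
    have h0 : V.valuation (0 : ℂ) ≤ 1 := by rw [map_zero]; exact zero_le_one
    exact ⟨ha, h0, hc, h0, h0⟩
  obtain ⟨hns, e1⟩ := hsome z hz
  have hX : V.valuation (xu L u e z) ≤ 1 := by
    by_contra hcon
    rw [not_le] at hcon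
    have hE : Pool.Agent.MU3.Val.InE V.valuation (ξ z) := by rw [e1]; exact hcon
    have h0 := TOR.eq_zero hint hE hn
      (by rw [← map_nsmul, nsmul_eq_mul]; exact (hker _).2 hnz)
    exact hz ((hker z).1 h0)
  exact ⟨hX, (Pool.Agent.MUXG.tg_VAL ℂ _ V.valuation (WT a c) hint _ _ hns).1 hX⟩

end

end Pool.Agent.N2R
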