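import Pool.Agent.N2.StR

/-!
# MUX-2N, block R2N, module TP2: the points of order a power of 2, 2 inert
-/

set_option autoImplicit false

namespace Pool.Agent.N2R

open _root_.MU3 Pool.Agent.MU3A Pool.Agent.MU3B Pool.Agent.RI Pool.Agent.MUX Pool.Agent.MUXU
open Pool.Agent.NS (xu)

noncomputable section

namespace TP2

variable {V : ValuationSubring ℂ} {x a c : ℂ}

lemma vc (ha : V.valuation a ≤ V.valuation (2 : ℂ))
    (hc : V.valuation c = 1) (hx : V.valuation (2 : ℂ) * V.valuation x < 1) :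
    V.valuation (a * x + c) = 1 := by
  rw [← hc]
  apply Valuation.map_add_eq_of_lt_right
  rw [map_mul, hc]
  exact lt_of_le_of_lt (mul_le_mul_left ha _) hx

lemma v4 : V.valuation (4 * x ^ 3) = V.valuation (2 : ℂ) ^ 2 * V.valuation x ^ 3 := by
  rw [show (4 : ℂ) * x ^ 3 = 2 ^ 2 * x ^ 3 by norm_num, map_mul, map_pow, map_pow]

lemma vD (ha : V.valuation a ≤ V.valuation (2 : ℂ))
    (hc : V.valuation c = 1) (hx : V.valuation (2 : ℂ) * V.valuation x < 1)
    (hx3 : V.valuation (2 : ℂ) ^ 2 * V.valuation x ^ 3 < 1) :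
    V.valuation (4 * x ^ 3 + (a * x + c) ^ 2) = 1 := by
  have h1 : V.valuation ((a * x + c) ^ 2) = 1 := by rw [map_pow, vc ha hc hx, one_pow]
  rw [← h1]
  apply Valuation.map_add_eq_of_lt_right
  rw [v4, h1]
  exact hx3

lemma small (h2 : V.valuation (2 : ℂ) < 1) (hx : V.valuation x ≤ 1) :
    V.valuation (2 : ℂ) * V.valuation x < 1 ∧
      V.valuation (2 : ℂ) ^ 2 * V.valuation x ^ 3 < 1 := by
  constructor
  · calc V.valuation (2 : ℂ) * V.valuation x ≤ V.valuation (2 : ℂ) * 1 :=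
        mul_le_mul_right hx _
      _ < 1 := by rw [mul_one]; exact h2
  · calc V.valuation (2 : ℂ) ^ 2 * V.valuation x ^ 3 ≤ V.valuation (2 : ℂ) ^ 2 * 1 :=
        mul_le_mul_right (pow_le_one' hx 3) _
      _ < 1 := by rw [mul_one]; exact pow_lt_one₀ zero_le h2 two_ne_zero

/-- the linear term for `1 ≤ θ t` -/
lemma vle (ha : V.valuation a ≤ V.valuation (2 : ℂ)) (hc : V.valuation c = 1)
    (hx : 1 ≤ V.valuation (2 : ℂ) * V.valuation x) :
    V.valuation ((a * x + c) ^ 2) ≤ V.valuation (2 : ℂ) ^ 2 * V.valuation x ^ 2 := by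
  rw [map_pow, ← mul_pow]
  apply pow_le_pow_left₀ zero_le
  apply Valuation.map_add_le
  · rw [map_mul]
    exact mul_le_mul_left ha _
  · rw [hc]
    exact hx

lemma two_pos : 0 < V.valuation (2 : ℂ) := by
  rw [zero_lt_iff]
  exact (Valuation.ne_zero_iff _).2 two_ne_zero

lemma pow_lt_aux {t : V.ValueGroup} (ht : 1 < t) :
    V.valuation (2 : ℂ) ^ 2 * t ^ 2 < V.valuation (2 : ℂ) ^ 2 * t ^ 3 :=
  mul_lt_mul_of_pos_left (pow_lt_pow_right₀ ht (by norm_num)) (pow_pos two_pos 2)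

/-- the points of order two -/
lemma base (h2 : V.valuation (2 : ℂ) < 1) (ha : V.valuation a ≤ V.valuation (2 : ℂ))
    (hc : V.valuation c = 1) (h : 4 * x ^ 3 + (a * x + c) ^ 2 = 0) :
    1 < V.valuation x ∧ V.valuation x ^ 3 * V.valuation (2 : ℂ) ^ 2 = 1 := by
  have ht : 1 < V.valuation x := by
    by_contra ht
    obtain ⟨h3, h4⟩ := small h2 (not_lt.1 ht)
    have h5 := vD ha hc h3 h4
    rw [h, map_zero] at h5
    exact zero_ne_one h5
  refine ⟨ht, ?_⟩
  have h6 : V.valuation (4 * x ^ 3) = V.valuation ((a * x + c) ^ 2) := by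
    rw [show 4 * x ^ 3 = -((a * x + c) ^ 2) by linear_combination h, Valuation.map_neg]
  rw [v4] at h6
  have h7 : V.valuation (2 : ℂ) * V.valuation x < 1 := by
    by_contra h7
    have h8 := vle ha hc (not_lt.1 h7)
    rw [← h6] at h8
    exact absurd (pow_lt_aux ht) (not_lt.2 h8)
  rw [mul_comm, h6, map_pow, vc ha hc h7, one_pow]

/-- halving -/
lemma step {b : ℂ} (h2 : V.valuation (2 : ℂ) < 1) (ha : V.valuation a ≤ V.valuation (2 : ℂ))
    (hc : V.valuation c = 1) (hb : 1 < V.valuation b)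
    (hb3 : V.valuation b ^ 3 * V.valuation (2 : ℂ) ^ 2 ≤ 1)
    (h : b * (4 * x ^ 3 + (a * x + c) ^ 2) = x ^ 4 - a * c * x ^ 2 - 2 * c ^ 2 * x) :
    1 < V.valuation x ∧ V.valuation b = V.valuation x ^ 4 := by
  have v0 := two_pos (V := V)
  have e1 : V.valuation (a * c * x ^ 2) ≤ V.valuation (2 : ℂ) * V.valuation x ^ 2 := by
    rw [map_mul, map_mul, hc, mul_one, map_pow]
    exact mul_le_mul_left ha _
  have e2 : V.valuation (2 * c ^ 2 * x) = V.valuation (2 : ℂ) * V.valuation x := by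
    rw [map_mul, map_mul, map_pow, hc, one_pow, mul_one]
  have hv := congrArg V.valuation h
  rw [map_mul] at hv
  have ht : 1 < V.valuation x := by
    by_contra ht
    have ht := not_lt.1 ht
    obtain ⟨h3, h4⟩ := small h2 ht
    rw [vD ha hc h3 h4, mul_one] at hv
    have h5 : V.valuation (x ^ 4 - a * c * x ^ 2 - 2 * c ^ 2 * x) ≤ 1 := by
      apply Valuation.map_sub_le
      · apply Valuation.map_sub_le
        · rw [map_pow]
          exact pow_le_one' ht 4
        · refine e1.trans ?_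
          calc V.valuation (2 : ℂ) * V.valuation x ^ 2 ≤ V.valuation (2 : ℂ) * 1 :=
              mul_le_mul_right (pow_le_one' ht 2) _
            _ ≤ 1 := by rw [mul_one]; exact h2.le
      · rw [e2]
        exact h3.le
    rw [← hv] at h5
    exact absurd hb (not_lt.2 h5)
  refine ⟨ht, ?_⟩
  set t := V.valuation x with htd
  set θ := V.valuation (2 : ℂ) with hθ
  have t0 : 0 < t := lt_trans zero_lt_one ht
  have e3 : V.valuation (x ^ 4 - a * c * x ^ 2 - 2 * c ^ 2 * x) = t ^ 4 := by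
    have h5 : V.valuation (x ^ 4 - a * c * x ^ 2) = t ^ 4 := by
      rw [Valuation.map_sub_eq_of_lt_left, map_pow]
      rw [map_pow]
      refine lt_of_le_of_lt e1 ?_
      calc θ * t ^ 2 ≤ 1 * t ^ 2 := mul_le_mul_left h2.le _
        _ = t ^ 2 := one_mul _
        _ < t ^ 4 := pow_lt_pow_right₀ ht (by norm_num)
    rw [Valuation.map_sub_eq_of_lt_left, h5]
    rw [e2, h5]
    calc θ * t ≤ 1 * t := mul_le_mul_left h2.le _
      _ = t ^ 1 := by rw [one_mul, pow_one]
      _ < t ^ 4 := pow_lt_pow_right₀ ht (by norm_num)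
  rw [e3] at hv
  have h7 : θ ^ 2 * t ^ 3 < 1 := by
    by_contra h7
    have h7 := not_lt.1 h7
    have h8 : V.valuation (4 * x ^ 3 + (a * x + c) ^ 2) ≤ θ ^ 2 * t ^ 3 := by
      apply Valuation.map_add_le
      · rw [v4]
      · rcases le_or_gt 1 (θ * t) with h9 | h9
        · exact (vle ha hc h9).trans (pow_lt_aux ht).le
        · rw [map_pow, vc ha hc h9, one_pow]
          exact h7
    have h9 : t ^ 4 ≤ V.valuation b * (θ ^ 2 * t ^ 3) := by
      rw [← hv]
      exact mul_le_mul_right h8 _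
    have h10 : t ≤ V.valuation b * θ ^ 2 := by
      have h11 : t * t ^ 3 ≤ (V.valuation b * θ ^ 2) * t ^ 3 := by
        calc t * t ^ 3 = t ^ 4 := by rw [pow_succ' t 3]
          _ ≤ V.valuation b * (θ ^ 2 * t ^ 3) := h9
          _ = (V.valuation b * θ ^ 2) * t ^ 3 := by rw [mul_assoc]
      exact le_of_mul_le_mul_right h11 (pow_pos t0 3)
    have h12 : t ^ 3 ≤ (V.valuation b ^ 3 * θ ^ 2) * θ ^ 4 := by
      calc t ^ 3 ≤ (V.valuation b * θ ^ 2) ^ 3 := pow_le_pow_left₀ zero_le h10 3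
        _ = (V.valuation b ^ 3 * θ ^ 2) * θ ^ 4 := by
            rw [mul_pow, ← pow_mul, mul_assoc, ← pow_add]
    have h13 : (V.valuation b ^ 3 * θ ^ 2) * θ ^ 4 ≤ 1 * θ ^ 4 := mul_le_mul_left hb3 _
    have h14 : θ ^ 4 < 1 := pow_lt_one₀ zero_le h2 (by norm_num)
    have h15 : 1 < t ^ 3 := one_lt_pow₀ ht (by norm_num)
    rw [one_mul] at h13
    exact absurd (lt_of_lt_of_le h15 (h12.trans h13)) (not_lt.2 h14.le)
  have h8 : θ * t < 1 := by
    by_contra h8
    have h9 : 1 ≤ θ ^ 2 * t ^ 2 := by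
      rw [← mul_pow]
      exact one_le_pow₀ (not_lt.1 h8)
    exact absurd (h9.trans (pow_lt_aux ht).le) (not_le.2 h7)
  rw [vD ha hc h8 h7, mul_one] at hv
  exact hv

end TP2

open TP2 in
theorem tr_TP2 (h : Sr_DU2) : Sr_TP2 := by
  intro V L u e a c h2 ha hc hD j
  induction j with
  | zero =>
    intro z hz hz0
    rw [pow_zero, one_mul] at hz0
    rw [zero_add, pow_one] at hz
    obtain ⟨h3, h4⟩ := base h2 ha hc ((h L u e a c hD z hz0).1 hz)
    exact ⟨h3, by rw [pow_zero, mul_one]; exact h4⟩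
  | succ j ih =>
    intro z hz hz0
    have hz1 : z ∉ L.lattice := by
      intro h1
      apply hz0
      have h3 := L.lattice.nsmul_mem h1 (2 ^ (j + 1))
      rw [nsmul_eq_mul] at h3
      exact_mod_cast h3
    have hz2 : 2 * z ∉ L.lattice := by
      intro h1
      apply hz0
      have h3 := L.lattice.nsmul_mem h1 (2 ^ j)
      rw [nsmul_eq_mul] at h3
      have h4 : (2 : ℂ) ^ (j + 1) * z = ((2 ^ j : ℕ) : ℂ) * (2 * z) := by
        push_cast
        ring
      rw [h4]
      exact h3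
    have h5 := ih (2 * z) (by
      have h4 : (2 : ℂ) ^ (j + 1) * (2 * z) = 2 ^ (j + 1 + 1) * z := by ring
      rw [h4]
      exact hz) (by
      have h4 : (2 : ℂ) ^ j * (2 * z) = 2 ^ (j + 1) * z := by ring
      rw [h4]
      exact hz0)
    obtain ⟨hb, hb2⟩ := h5
    have hb3 : V.valuation (xu L u e (2 * z)) ^ 3 * V.valuation (2 : ℂ) ^ 2 ≤ 1 := by
      rw [← hb2]
      apply mul_le_mul_left
      apply pow_le_pow_right₀ hb.le
      have := Nat.one_le_pow j 4 (by norm_num)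
      omega
    obtain ⟨h6, h7⟩ := step h2 ha hc hb hb3 ((h L u e a c hD z hz1).2 hz2)
    refine ⟨h6, ?_⟩
    rw [h7, ← pow_mul] at hb2
    rw [← hb2]
    congr 2
    rw [pow_succ]
    ring

end

end Pool.Agent.N2R
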