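import Pool.Agent.N2.StR
import Pool.Agent.MU3.BAll

/-!
# MUX-2N, block R, module TRA (helper52): translation by the point of order three `(0, 0)`
-/

set_option autoImplicit false

namespace Pool.Agent.N2R

open _root_.MU3 Pool.Agent.MU3A Pool.Agent.MU3B Pool.Agent.RI Pool.Agent.MUX Pool.Agent.MUXU
open Pool.Agent.NS (xu)
open Pool.Agent.N2 (WT yt et GoodT CaseT)

theorem tr_TRA (h : Sr_DEF) : Sr_TRA := by
  intro L u e a c w hd hw z hz hzw hzw'
  obtain ⟨h12, -, -, -, -, -, -⟩ := h L u e a c hd
  have hu := hd.u0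
  have hX0 : L.weierstrassP z - e ≠ 0 := by
    intro h0
    rcases b_NEQ L w z hw.ne hz (by rw [hw.P]; linear_combination h0) with h1 | h1
    · exact hzw' h1
    · exact hzw h1
  have hX : xu L u e z ≠ 0 := div_ne_zero hX0 (pow_ne_zero 2 hu)
  -- the curve equation
  have heq := hd.eq z hz
  -- addition
  have hP : ∀ y, L.weierstrassP y = u ^ 2 * xu L u e y + e := by
    intro y
    unfold xu
    field_simp
    ring
  have hD : L.derivWeierstrassP z = u ^ 3 * (2 * yt L u e a c z + a * xu L u e z + c) := by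
    unfold yt et
    field_simp
    ring
  have hE : yt L u e a c z ^ 2 + a * xu L u e z * yt L u e a c z + c * yt L u e a c z =
      xu L u e z ^ 3 := by
    have h1 : L.derivWeierstrassP z / u ^ 3 = 2 * yt L u e a c z + a * xu L u e z + c := by
      rw [hD]
      field_simp
    rw [h1] at heq
    linear_combination heq / 4
  have hneg : -w ∉ L.lattice := fun h0 => hw.ne (by simpa using neg_mem h0)
  have key : ∀ Q s : ℂ, Q ∉ L.lattice → z + Q ∉ L.lattice → z - Q ∉ L.lattice →
      L.weierstrassP Q = e → L.derivWeierstrassP Q = u ^ 3 * s →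
      4 * xu L u e (z + Q) * xu L u e z ^ 2 =
        (2 * yt L u e a c z + a * xu L u e z + c - s) ^ 2 - 4 * xu L u e z ^ 3 -
          a ^ 2 * xu L u e z ^ 2 := by
    intro Q s hQ h1 h2 hPQ hDQ
    have h3 := (b_ADD L Q z hQ hz h1 h2).1
    rw [hPQ, hDQ, hD, hP (z + Q), hP z] at h3
    have h4 : (u ^ 3 * (2 * yt L u e a c z + a * xu L u e z + c) - u ^ 3 * s) /
        (2 * (u ^ 2 * xu L u e z + e - e)) =
        u * (2 * yt L u e a c z + a * xu L u e z + c - s) / (2 * xu L u e z) := by
      field_simp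
      ring
    rw [h4] at h3
    have h5 : u ^ 2 * (4 * xu L u e (z + Q) * xu L u e z ^ 2) =
        u ^ 2 * ((2 * yt L u e a c z + a * xu L u e z + c - s) ^ 2 - 4 * xu L u e z ^ 3 -
          a ^ 2 * xu L u e z ^ 2) := by
      have h6 : (u ^ 2 * xu L u e (z + Q) + e + (u ^ 2 * xu L u e z + e) + e) *
          (4 * xu L u e z ^ 2) =
          u ^ 2 * (2 * yt L u e a c z + a * xu L u e z + c - s) ^ 2 := by
        rw [h3]
        field_simp
        ring
      linear_combination h6 - xu L u e z ^ 2 * h12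
    exact mul_left_cancel₀ (pow_ne_zero 2 hu) h5
  have k1 := key w c hw.ne hzw hzw' hw.P hw.D
  have k2 := key (-w) (-c) hneg (by simpa [sub_eq_add_neg] using hzw')
    (by simpa [sub_neg_eq_add] using hzw)
    (by rw [PeriodPair.weierstrassP_neg, hw.P])
    (by rw [PeriodPair.derivWeierstrassP_neg, hw.D]; ring)
  rw [← sub_eq_add_neg] at k2
  have r1 : xu L u e (z + w) * xu L u e z ^ 2 = -(c * yt L u e a c z) := by
    linear_combination k1 / 4 + hE
  refine ⟨hX, r1, ?_⟩
  have r2 : xu L u e (z - w) * xu L u e z ^ 2 =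
      c * (yt L u e a c z + a * xu L u e z + c) := by
    linear_combination k2 / 4 + hE
  have r3 : xu L u e z ^ 3 * (xu L u e z * xu L u e (z + w) * xu L u e (z - w)) =
      xu L u e z ^ 3 * (-c ^ 2) := by
    have : xu L u e z ^ 3 * (xu L u e z * xu L u e (z + w) * xu L u e (z - w)) =
        (xu L u e (z + w) * xu L u e z ^ 2) * (xu L u e (z - w) * xu L u e z ^ 2) := by ring
    rw [this, r1, r2]
    linear_combination -c ^ 2 * hE
  exact mul_left_cancel₀ (pow_ne_zero 3 hX) r3

end Pool.Agent.N2R
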