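import Pool.Agent.N2.StR
import Pool.Agent.NS.RN_UNQ
import Pool.Agent.MUX.C_CJN

/-!
# MUX-2N, block R: an automorphism in the inertia group fixes `a` (UNQ)
-/

set_option autoImplicit false

open WeierstrassCurve Polynomial

namespace Pool.Agent.N2R

open _root_.MU3 Pool.Agent.MU3A Pool.Agent.MU3B Pool.Agent.RI Pool.Agent.MUX Pool.Agent.MUXU
open Pool.Agent.MUXV (InK tX)
open Pool.Agent.MUX2 (GRG)
open Pool.Agent.NS (xu)
open Pool.Agent.N2 (WT yt et GoodT CaseT)

noncomputable section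

namespace UNQ

open Pool.Agent.NSR.UNQ (per v_nat order)

/-- the congruence of the summands -/
theorem term {V : ValuationSubring ℂ} {x y x' y' : ℂ} {d : V.ValueGroup}
    (vx : V.valuation x = 1) (vy : V.valuation y = 1) (vx' : V.valuation x' = 1)
    (vy' : V.valuation y' = 1) (hx : V.valuation (x' - x) ≤ d) (hy : V.valuation (y' - y) ≤ d) :
    V.valuation ((1 / x' + x' ^ 2 / y') - (1 / x + x ^ 2 / y)) ≤ d := by
  have x0 : x ≠ 0 := by
    intro h
    rw [h, map_zero] at vx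
    exact zero_ne_one vx
  have y0 : y ≠ 0 := by
    intro h
    rw [h, map_zero] at vy
    exact zero_ne_one vy
  have x0' : x' ≠ 0 := by
    intro h
    rw [h, map_zero] at vx'
    exact zero_ne_one vx'
  have y0' : y' ≠ 0 := by
    intro h
    rw [h, map_zero] at vy'
    exact zero_ne_one vy'
  have e : (1 / x' + x' ^ 2 / y') - (1 / x + x ^ 2 / y) =
      -(x' - x) / (x' * x) + ((x' - x) * ((x' + x) * y) - (y' - y) * x ^ 2) / (y' * y) := by
    field_simp
    ring
  rw [e]
  refine le_trans (V.valuation.map_add _ _) (max_le ?_ ?_)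
  · rw [map_div₀, Valuation.map_neg, map_mul, vx, vx', one_mul, div_one]
    exact hx
  · rw [map_div₀, map_mul V.valuation y' y, vy, vy', one_mul, div_one]
    refine le_trans (V.valuation.map_sub _ _) (max_le ?_ ?_)
    · rw [map_mul, map_mul, vy, mul_one]
      have h1 : V.valuation (x' + x) ≤ 1 := by
        refine le_trans (V.valuation.map_add _ _) (max_le vx'.le vx.le)
      calc V.valuation (x' - x) * V.valuation (x' + x) ≤ V.valuation (x' - x) * 1 :=
            mul_le_mul_right h1 _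
        _ = V.valuation (x' - x) := mul_one _
        _ ≤ d := hx
    · rw [map_mul, map_pow, vx, one_pow, mul_one]
      exact hy

theorem close_unit {V : ValuationSubring ℂ} {x x' : ℂ} (vx : V.valuation x = 1)
    (h : V.valuation (x' - x) < 1) : V.valuation x' = 1 := by
  have e7 : x' = (x' - x) + x := by ring
  rw [e7, Valuation.map_add_eq_of_lt_right, vx]
  rw [vx]
  exact h

end UNQ

open UNQ Pool.Agent.NSR.UNQ in
/-- (UNQ) the hypotheses `Su_` are the theorems `u_` of `MUX/UAll.lean` -/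
theorem tr_UNQ (h1 : Sr_DEF) (h2 : Sr_RED) (h3 : Sr_TOR) (h4 : Sr_TRA) (h5 : Sr_CML)
    (h6 : Sr_CLO) (u1 : Su_BAC) (u2 : Su_CJE) (u3 : Su_PHI) (u4 : Su_TSN) : Sr_UNQ := by
  intro A B V β N hC b L om hL u e a hDeu hva σ hσ hσa hX
  obtain ⟨-, -, -, -, -, ⟨w, hw⟩, -⟩ := h1 L u e a 1 hDeu
  have v1 : V.valuation (1 : ℂ) ≤ 1 := by rw [map_one]
  obtain ⟨-, va1, -⟩ := h2 A B V β N hC b L om hL u e a 1 hDeu hva v1 (Or.inr (map_one _))
  have hcm : HasCM A B L := hL.hasCM hC.cq
  -- the conjugate lattice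
  obtain ⟨L', hcj⟩ := u2 σ L
  obtain ⟨Φ, hΦ⟩ := u3 σ L L' hcj
  obtain ⟨tsn, -⟩ := u4 σ L L' Φ hcj hΦ
  have hσ2 : σ 2 = 2 := map_ofNat σ 2
  have hσu : σ u ≠ 0 := by
    rw [Ne, map_eq_zero_iff σ σ.injective]
    exact hDeu.u0
  have hxu : ∀ z, z ∉ L.lattice → xu L' (σ u) (σ e) (Φ z) = σ (xu L u e z) := by
    intro z hz
    unfold xu
    rw [hΦ.P z hz, map_div₀, map_sub, map_pow]
  have het : ∀ z, z ∉ L.lattice → L'.derivWeierstrassP (Φ z) / (σ u) ^ 3 =
      σ (L.derivWeierstrassP z / u ^ 3) := by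
    intro z hz
    rw [hΦ.P' z hz, map_div₀, map_pow]
  have hyt : ∀ z, z ∉ L.lattice → yt L' (σ u) (σ e) (σ a) 1 (Φ z) = σ (yt L u e a 1 z) := by
    intro z hz
    have h9 := hxu z hz
    have h10 := het z hz
    unfold yt et
    rw [h9, h10]
    have e9 : σ ((L.derivWeierstrassP z / u ^ 3 - a * xu L u e z - 1) / 2) =
        (σ (L.derivWeierstrassP z / u ^ 3) - σ a * σ (xu L u e z) - 1) / 2 := by
      rw [map_div₀ σ _ 2, map_sub, map_sub, map_mul, map_one, hσ2]
    rw [e9]
  have hDeu' : Deu L' (σ u) (σ e) (σ a) 1 := by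
    refine ⟨hσu, fun z' hz' => ?_⟩
    obtain ⟨z, hz⟩ := hΦ.surj z'
    have hzL : z ∉ L.lattice := by
      intro h7
      apply hz'
      have h8 := sub_mem ((hΦ.mem z).2 h7) hz
      rwa [sub_sub_cancel] at h8
    have e1 := per L' hz
    have h8 := hxu z hzL
    have h8' : xu L' (σ u) (σ e) z' = xu L' (σ u) (σ e) (Φ z) := by
      unfold xu
      rw [e1.1]
    rw [h8', ← e1.2, h8, het z hzL]
    have h10 := congrArg σ (hDeu.eq z hzL)
    rw [map_pow, map_add, map_mul, map_pow, map_pow, map_add, map_mul, map_one, map_ofNat] at h10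
    exact h10
  by_contra hne
  set δ : ℂ := σ a - a with hδ
  have hδ0 : δ ≠ 0 := sub_ne_zero.2 hne
  have hvδ : V.valuation δ ≠ 0 := by
    rw [Ne, map_eq_zero]
    exact hδ0
  -- the multiplier `α`
  have hN1 := hC.one
  obtain ⟨α', hnrm⟩ := hC.nrm
  have hal0 : alB β ≠ 0 := by
    intro h0
    rw [h0, mul_zero] at hnrm
    have h8 : N = 0 := by exact_mod_cast hnrm
    omega
  have halz : ∀ z, alB β * z = z + emb β * (3 * z) := by
    intro z
    unfold alB
    ring
  have hisg : Isg L L (alB β) := by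
    intro z hz
    rw [halz]
    have h7 := hcm β _ (nsmul_mem hz 3)
    rw [nsmul_eq_mul] at h7
    exact add_mem hz (by exact_mod_cast h7)
  obtain ⟨⟨R, hR⟩, -⟩ := u1.2 L L (alB β) hal0 hisg
  have hNal : ∀ z, alB β * z ∈ L.lattice → (N : ℂ) * z ∈ L.lattice := by
    intro z hz
    have h7 := hcm α' _ hz
    rwa [← mul_assoc, ← hnrm] at h7
  have hσb : σ (emb β) = emb β := Pool.Agent.MUXC.CJN.emb_fix hσ β
  have hσal : σ (alB β) = alB β := by
    unfold alB
    rw [map_add, map_mul, map_one, hσb, map_ofNat]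
  have halw : ∀ z, alB β * (z + w) ∈ L.lattice → alB β * z ∈ L.lattice → False := by
    intro z h7 h8
    have h9 := sub_mem h7 h8
    rw [mul_add, add_sub_cancel_left, halz] at h9
    have h10 := hcm β _ hw.three
    exact hw.ne ((add_mem_cancel_right h10).1 h9)
  -- the points `q`
  have hXYq : ∀ q ∈ R, V.valuation (xu L u e q) ≤ 1 ∧ V.valuation (yt L u e a 1 q) ≤ 1 :=
    fun q hq => h3 V L u e a 1 hva v1 hDeu N hC.vN q (hR.ne q hq) (hNal q (hR.mem q hq))
  have hpw : ∀ q ∈ R, q + w ∉ L.lattice := fun q hq hqw =>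
    halw q (hisg _ hqw) (hR.mem q hq)
  have hmw : ∀ q ∈ R, q - w ∉ L.lattice := by
    intro q hq hqw
    have h7 := neg_mem (hisg _ hqw)
    have h8 := neg_mem (hR.mem q hq)
    refine halw (-q) ?_ ?_
    · have e7 : alB β * (-q + w) = -(alB β * (q - w)) := by ring
      rw [e7]
      exact h7
    · have e7 : alB β * -q = -(alB β * q) := by ring
      rw [e7]
      exact h8
  have hv3N : V.valuation ((3 * N : ℕ) : ℂ) = 1 := by
    push_cast
    rw [map_mul, hC.v3, hC.vN, one_mul]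
  have h3w : ∀ q ∈ R, ((3 * N : ℕ) : ℂ) * q ∈ L.lattice := by
    intro q hq
    have h7 := nsmul_mem (hNal q (hR.mem q hq)) 3
    rw [nsmul_eq_mul] at h7
    have e7 : ((3 * N : ℕ) : ℂ) * q = ((3 : ℕ) : ℂ) * ((N : ℂ) * q) := by
      push_cast
      ring
    rw [e7]
    exact h7
  have h3w' : ((3 * N : ℕ) : ℂ) * w ∈ L.lattice := by
    have h7 := nsmul_mem hw.three N
    rw [nsmul_eq_mul] at h7
    have e7 : ((3 * N : ℕ) : ℂ) * w = (N : ℂ) * (3 * w) := by
      push_cast
      ring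
    rw [e7]
    exact h7
  have hXp : ∀ q ∈ R, V.valuation (xu L u e (q + w)) ≤ 1 := fun q hq =>
    (h3 V L u e a 1 hva v1 hDeu (3 * N) hv3N (q + w) (hpw q hq)
      (by rw [mul_add]; exact add_mem (h3w q hq) h3w')).1
  have hXm : ∀ q ∈ R, V.valuation (xu L u e (q - w)) ≤ 1 := fun q hq =>
    (h3 V L u e a 1 hva v1 hDeu (3 * N) hv3N (q - w) (hmw q hq)
      (by rw [mul_sub]; exact sub_mem (h3w q hq) h3w')).1
  have htra := fun (q : ℂ) (hq : q ∈ R) =>
    h4 L u e a 1 w hDeu hw q (hR.ne q hq) (hpw q hq) (hmw q hq)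
  have hvX : ∀ q ∈ R, V.valuation (xu L u e q) = 1 := by
    intro q hq
    obtain ⟨-, -, t3⟩ := htra q hq
    have h7 := congrArg V.valuation t3
    rw [map_mul, map_mul, one_pow, Valuation.map_neg, map_one] at h7
    refine le_antisymm (hXYq q hq).1 ?_
    calc (1 : V.ValueGroup) = V.valuation (xu L u e q) * V.valuation (xu L u e (q + w)) *
          V.valuation (xu L u e (q - w)) := h7.symm
      _ ≤ V.valuation (xu L u e q) * 1 * 1 :=
          mul_le_mul' (mul_le_mul' le_rfl (hXp q hq)) (hXm q hq)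
      _ = V.valuation (xu L u e q) := by rw [mul_one, mul_one]
  have hvY : ∀ q ∈ R, V.valuation (yt L u e a 1 q) = 1 := by
    intro q hq
    have h7 : yt L u e a 1 q * (yt L u e a 1 q + a * xu L u e q + 1) = xu L u e q ^ 3 := by
      have h8 := hDeu.eq q (hR.ne q hq)
      unfold yt et
      linear_combination (1 / 4 : ℂ) * h8
    have h8 := congrArg V.valuation h7
    rw [map_mul, map_pow, hvX q hq, one_pow] at h8
    have h9 : V.valuation (yt L u e a 1 q + a * xu L u e q + 1) ≤ 1 := by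
      refine le_trans (V.valuation.map_add _ _) (max_le ?_ v1)
      refine le_trans (V.valuation.map_add _ _) (max_le (hXYq q hq).2 ?_)
      rw [map_mul, hvX q hq, mul_one]
      exact hva
    refine le_antisymm (hXYq q hq).2 ?_
    calc (1 : V.ValueGroup) = V.valuation (yt L u e a 1 q) *
          V.valuation (yt L u e a 1 q + a * xu L u e q + 1) := h8.symm
      _ ≤ V.valuation (yt L u e a 1 q) * 1 := mul_le_mul' le_rfl h9
      _ = V.valuation (yt L u e a 1 q) := mul_one _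
  -- (CLO)
  have hclo : ∀ q ∈ R, V.valuation (σ (xu L u e q) - xu L u e q) ≤ V.valuation δ ∧
      V.valuation (σ (yt L u e a 1 q) - yt L u e a 1 q) ≤ V.valuation δ := by
    intro q hq
    have hqL := hR.ne q hq
    have hNq := hNal q (hR.mem q hq)
    obtain ⟨n, n1, n2, n3, n4, n5⟩ := order L V hC.odd hC.vN hqL hNq
    have htsn : ∀ k : ℕ, (k : ℂ) * Φ q ∈ L'.lattice ↔ (k : ℂ) * q ∈ L.lattice := by
      intro k
      have h7 := tsn (k : ℤ) q
      rwa [Int.cast_natCast] at h7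
    obtain ⟨x1, x2⟩ := hX q hqL hNq
    have h7 := h6 V L L' u e a (σ u) (σ e) (σ a) hC.v3 hDeu hDeu' va1 hσa n n1 n2 n3 q
      (Φ q) (fun k k1 k2 => ⟨n5 k k1 k2, fun h8 => n5 k k1 k2 ((htsn k).1 h8)⟩) n4
      ((htsn n).2 n4) (by rw [hxu q hqL]; exact x1) (by rw [hyt q hqL]; exact x2)
    rwa [hxu q hqL, hyt q hqL] at h7
  -- (CML) and its conjugate
  have hR' : IsReps L (alB β) R := ⟨hR.mem, hR.ne, hR.inj, hR.surj⟩
  have c1 := h5 A B b L om hC.cq hL u e a 1 w hDeu hw β R hR'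
  obtain ⟨t, ht⟩ : ∃ t : ℂ → ℂ, ∀ q, t q = 1 / xu L u e q + xu L u e q ^ 2 / yt L u e a 1 q :=
    ⟨_, fun _ => rfl⟩
  have hsum : ∑ q ∈ R, (1 / xu L u e q - 1 / xu L u e (w + q)) = ∑ q ∈ R, t q := by
    refine Finset.sum_congr rfl fun q hq => ?_
    obtain ⟨t1, t2, -⟩ := htra q hq
    rw [ht, add_comm w q]
    have y0 : yt L u e a 1 q ≠ 0 := by
      intro h
      have h7 := hvY q hq
      rw [h, map_zero] at h7
      exact zero_ne_one h7
    have x2 : xu L u e (q + w) ≠ 0 := by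
      intro h
      rw [h, zero_mul, one_mul] at t2
      exact y0 (neg_eq_zero.1 t2.symm)
    have e7 : 1 / xu L u e (q + w) = -(xu L u e q ^ 2 / yt L u e a 1 q) := by
      field_simp
      rw [one_mul] at t2
      linear_combination t2
    rw [e7]
    ring
  rw [hsum, mul_one] at c1
  have c2 := congrArg σ c1
  rw [map_mul, map_sub, map_one, hσal, map_mul, hσ2, map_sum] at c2
  have c3 : δ * (alB β - 1) = 2 * ∑ q ∈ R, (σ (t q) - t q) := by
    rw [Finset.sum_sub_distrib, hδ]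
    linear_combination c2 - c1
  have c5 : V.valuation (∑ q ∈ R, (σ (t q) - t q)) ≤ V.valuation δ := by
    refine Valuation.map_sum_le _ fun q hq => ?_
    obtain ⟨x1, x2⟩ := hX q (hR.ne q hq) (hNal q (hR.mem q hq))
    have h7 := term (hvX q hq) (hvY q hq) (close_unit (hvX q hq) x1) (close_unit (hvY q hq) x2)
      (hclo q hq).1 (hclo q hq).2
    have e7 : σ (t q) = 1 / σ (xu L u e q) + σ (xu L u e q) ^ 2 / σ (yt L u e a 1 q) := by
      rw [ht, map_add, map_div₀, map_div₀, map_one, map_pow]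
    rw [e7, ht]
    exact h7
  have c6 := congrArg V.valuation c3
  have c6' : alB β - 1 = 3 * emb β := by
    unfold alB
    ring
  rw [map_mul, map_mul, c6', map_mul, hC.v3, one_mul] at c6
  have c7 : V.valuation δ * V.valuation (emb β) ≤ V.valuation δ * V.valuation (2 : ℂ) := by
    rw [c6, mul_comm]
    exact mul_le_mul' c5 le_rfl
  have hδpos : 0 < V.valuation δ := zero_lt_iff.2 hvδ
  have c8 : V.valuation (emb β) ≤ V.valuation (2 : ℂ) := le_of_mul_le_mul_left c7 hδpos
  exact absurd hC.vb (not_lt.2 c8)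

end

end Pool.Agent.N2R
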