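import Pool.Agent.N2.StR
import Pool.Agent.MUX.XLib

/-!
# MUX-2N, block R, module UNR: the inertia groups of `RF (idl f)` are trivial, `f` odd (helper40)
-/

set_option autoImplicit false

open WeierstrassCurve Polynomial

namespace Pool.Agent.N2R

open _root_.MU3 Pool.Agent.MU3A Pool.Agent.MU3B Pool.Agent.RI Pool.Agent.MUX Pool.Agent.MUXU
open Pool.Agent.MUXV (InK tX)
open Pool.Agent.MUX2 (GRG)
open Pool.Agent.NS (xu)
open Pool.Agent.N2 (WT yt et GoodT CaseT)

noncomputable section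

namespace UNR

variable {A B : ℤ}

/-- an automorphism which fixes `wC` fixes `k` -/
lemma fix_kk {σ : ℂ ≃+* ℂ} (hσ : FixK A B σ) : ∀ y ∈ kk A B, σ y = y := by
  intro y hy
  induction hy using IntermediateField.adjoin_induction with
  | mem x hx => rw [Set.mem_singleton_iff] at hx; rw [hx]; exact hσ
  | algebraMap x => simp
  | add x y _ _ hx hy => rw [map_add, hx, hy]
  | inv x _ hx => rw [map_inv₀, hx]
  | mul x y _ _ hx hy => rw [map_mul, hx, hy]

/-- odd natural numbers are units -/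
lemma v_odd {V : ValuationSubring ℂ} (h2 : V.valuation (2 : ℂ) < 1) {f : ℕ} (hf : Odd f) :
    V.valuation (f : ℂ) = 1 := by
  obtain ⟨k, rfl⟩ := hf
  have hle : V.valuation (k : ℂ) ≤ 1 := (ValuationSubring.valuation_le_one_iff _ _).2 (by
    have := intCast_mem V k
    exact_mod_cast this)
  have h6 : V.valuation ((2 : ℂ) * k) < 1 := by
    rw [map_mul]
    calc V.valuation (2 : ℂ) * V.valuation (k : ℂ) ≤ V.valuation (2 : ℂ) * 1 :=
          mul_le_mul_right hle _
      _ < 1 := by rw [mul_one]; exact h2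
  have h7 := V.valuation.map_add_eq_of_lt_right (x := (2 : ℂ) * k) (y := 1)
    (by rw [map_one]; exact h6)
  push_cast
  rw [h7, map_one]

/-- points killed by `n` are killed by the ideal `(n)` -/
lemma tor_of_mul (h : CQ A B) {b : Ideal (OO A B)} {L : PeriodPair} {om : ℂ} (hL : IsLI b L om)
    {n : ℕ} {z : ℂ} (hz : (n : ℂ) * z ∈ L.lattice) : Tor (idl (A := A) (B := B) n) L z := by
  intro x hx
  obtain ⟨y, rfl⟩ := Ideal.mem_span_singleton.1 hx
  obtain ⟨t, ht, e⟩ := (hL.mem _).1 hz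
  refine (hL.mem _).2 ⟨y * t, b.mul_mem_left _ ht, ?_⟩
  rw [emb_mul h, emb_mul h, emb_natCast h]
  linear_combination (emb y) * e

end UNR

open UNR in
/-- (UNR) inertia groups are trivial -/
theorem tr_UNR (h1 : Sr_HPD) (h2 : Sr_RED) (h7 : Sr_NRC) (h3 : Sr_TOR) (h4 : Sr_LIF)
    (h5 : Sr_MFD) (h6 : Sr_FXL) : Sr_UNR := by
  intro A B V β N hc T f hfo σ hσ hin
  have hcq := hc.cq
  have hf0 : f ≠ 0 := by
    rintro rfl
    exact absurd hfo (by decide)
  have hidf : idl (A := A) (B := B) f ≠ ⊥ := by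
    intro h0
    rw [Ideal.span_singleton_eq_bot] at h0
    have h7 := emb_natCast (A := A) (B := B) hcq f
    rw [h0, emb_zero hcq] at h7
    exact hf0 (by exact_mod_cast h7.symm)
  have hvf : V.valuation (f : ℂ) = 1 := v_odd hc.v2 hfo
  have hN0 : N ≠ 0 := by
    have := hc.one
    omega
  have hvF : V.valuation ((N * f : ℕ) : ℂ) = 1 := by
    rw [Nat.cast_mul, map_mul, hc.vN, hvf, one_mul]
  -- the generators
  have key : ∀ (b : Ideal (OO A B)) (L : PeriodPair) (om : ℂ), IsNL b L om →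
      σ (kap L) = kap L ∧ ∀ z, Tor (idl (A := A) (B := B) f) L z → z ∉ L.lattice →
        σ (xn L z) = xn L z := by
    intro b L om hL
    obtain ⟨w₁, w₂, u, a, c, hW, hw2, hne, hu2, hD, va, vc, vac⟩ := h1 V L hc.v3
    set e : ℂ := L.weierstrassP w₁ with he
    obtain ⟨_, va1, vc1⟩ := h2 A B V β N hc b L om hL.toIsLI u e a c hD va vc vac
    obtain ⟨l, hl0, hl3, vl, hD1, _⟩ := h7 V L u e a c hD vc1
    have va' : V.valuation (a / l) ≤ 1 := by
      rw [map_div₀, vl, div_one]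
      exact va
    obtain ⟨M, hMf, haM, hM⟩ := h5 A B hcq (fun m hm => T.fin m hm) b L om hL (u * l) e (a / l)
      hD1 (N * f) (mul_ne_zero hN0 hf0)
    obtain ⟨σ', hσ', hσσ, hσM⟩ := h4 A B V hcq hc.v2 (RF (idl (A := A) (B := B) f)) M
      (T.fin _ hidf) (T.gal _ hidf) hMf σ hσ hin
    obtain ⟨hk, hx⟩ := h6 A B V β N hc b L om hL (u * l) e (a / l) hD1 va' (N * f)
      (Dvd.intro f rfl) hvF σ' hσ' (hσM _ haM va') (fun z hz hz' => by
        obtain ⟨g1, g2⟩ := h3 V L (u * l) e (a / l) 1 va' (by rw [map_one]) hD1 (N * f) hvF z hz hz'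
        obtain ⟨g3, g4⟩ := hM z hz hz'
        exact ⟨hσM _ g3 g1, hσM _ g4 g2⟩)
    refine ⟨?_, fun z hz hzL => ?_⟩
    · have hm : kap L ∈ RF (idl (A := A) (B := B) f) :=
        IntermediateField.subset_adjoin _ _ ⟨b, L, om, hL, Or.inl rfl⟩
      rw [← hσσ _ hm]
      exact hk
    · have hm : xn L z ∈ RF (idl (A := A) (B := B) f) :=
        IntermediateField.subset_adjoin _ _ ⟨b, L, om, hL, Or.inr ⟨z, hz, hzL, rfl⟩⟩
      rw [← hσσ _ hm]
      apply hx z hzL
      have h8 := hz ((f : ℕ) : OO A B) (Ideal.mem_span_singleton_self _)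
      rw [emb_natCast hcq] at h8
      have h9 := L.lattice.nsmul_mem h8 N
      rw [nsmul_eq_mul] at h9
      have e9 : ((N * f : ℕ) : ℂ) * z = (N : ℂ) * ((f : ℂ) * z) := by push_cast; ring
      rw [e9]
      exact h9
  intro y hy
  induction hy using IntermediateField.adjoin_induction with
  | mem x hx =>
    obtain ⟨b, L, om, hL, h | ⟨z, hz, hzL, h⟩⟩ := hx
    · rw [h]; exact (key b L om hL).1
    · rw [h]; exact (key b L om hL).2 z hz hzL
  | algebraMap x => exact fix_kk hσ _ x.2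
  | add x y _ _ hx hy => rw [map_add, hx, hy]
  | inv x _ hx => rw [map_inv₀, hx]
  | mul x y _ _ hx hy => rw [map_mul, hx, hy]

end

end Pool.Agent.N2R
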