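import Pool.Agent.N2.StR
import Pool.Agent.NS.RN_RAM
import Pool.Agent.NS.RN_VAL3
import Pool.Agent.NS.RN_ALR
import Pool.Agent.MUX.XLib
import Pool.Agent.MUX.C_CMM
import Pool.Agent.MUX.U_AUE

/-!
# MUX-2N, block R, module VL2: the values of `RF (f)` at `V`, `f` odd; 2 inert, and 2 ramified
-/

set_option autoImplicit false

open WeierstrassCurve Polynomial

namespace Pool.Agent.N2R

open _root_.MU3 Pool.Agent.MU3A Pool.Agent.MU3B Pool.Agent.RI Pool.Agent.MUX Pool.Agent.MUXU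

noncomputable section

namespace VL2

open Pool.Agent.NSR.VAL3 Pool.Agent.NSR.ALRaux

/-- odd integers are units at `V` -/
lemma v_odd {V : ValuationSubring ℂ} (h2 : V.valuation (2 : ℂ) < 1) {n : ℤ}
    (hn : ¬ (2 : ℤ) ∣ n) : V.valuation (n : ℂ) = 1 := by
  refine le_antisymm (v_int V n) (not_lt.1 fun hlt => ?_)
  obtain ⟨k, hk⟩ : ∃ k : ℤ, n = 2 * k + 1 := ⟨n / 2, by omega⟩
  have h5 : V.valuation ((2 : ℂ) * (k : ℂ)) < 1 := by
    rw [map_mul]
    exact lt_of_le_of_lt (mul_le_of_le_one_right' (v_int V k)) h2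
  have h6 := Valuation.map_sub_lt V.valuation hlt h5
  have h7 : (n : ℂ) - 2 * (k : ℂ) = 1 := by
    rw [hk]
    push_cast
    ring
  rw [h7, map_one] at h6
  exact lt_irrefl _ h6

/-- the common part: a finite Galois extension with trivial inertia -/
lemma main (hU : Sr_UNR) {A B : ℤ} {V : ValuationSubring ℂ} {β : OO A B} {N : ℕ}
    (hN : CtxB A B V β N) (hT : TorX A B) {P : Ideal (OO A B)} (hP : P ≠ ⊥) (hV : OverI V P)
    {ϖ : OO A B} (h1 : ϖ ∈ P) (h2 : ϖ ∉ P ^ 2) {f : ℕ} (hf : Odd f) {y : ℂ}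
    (hy : y ∈ RF (idl (A := A) (B := B) f)) (hy0 : y ≠ 0) :
    ∃ k : ℤ, V.valuation y = V.valuation (emb ϖ) ^ k := by
  have hC : CQ A B := hN.cq
  have hf0 : f ≠ 0 := by
    rintro rfl
    exact absurd hf (by decide)
  have _ : FiniteDimensional (kk A B) (RF (idl (A := A) (B := B) f)) := hT.fin _ (idl_ne hC hf0)
  have _ : IsGalois (kk A B) (RF (idl (A := A) (B := B) f)) := hT.gal _ (idl_ne hC hf0)
  exact Pool.Agent.NSR.tr_RAM A B V P ϖ hC (isPrime hC hV) hP hV h1 h2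
    (RF (idl (A := A) (B := B) f)) (by
      intro σ hσ
      obtain ⟨s, hs, hsσ⟩ := Pool.Agent.MUXC.CMM.ext tu_AUE hC _ σ
      have h4 := hU A B V β N hN hT f hf s hs (by
        intro z hz hvz
        have h5 := hσ ⟨z, hz⟩ hvz
        rw [← hsσ] at h5
        exact h5)
      ext z
      have h5 := h4 z z.2
      rw [hsσ] at h5
      exact h5) y hy hy0

/-- `v x ≤ v β` for the elements of the maximal ideal, if `v(β)² = v 2` -/
lemma le_beta {V : ValuationSubring ℂ} (v2 : V.valuation (2 : ℂ) < 1) {β : ℂ}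
    (hβ : V.valuation β ^ 2 = V.valuation (2 : ℂ)) (hβ1 : V.valuation β < 1) (n m : ℤ)
    (hx : V.valuation ((n : ℂ) + m * β) < 1) :
    V.valuation ((n : ℂ) + m * β) ≤ V.valuation β := by
  have h1 : V.valuation ((m : ℂ) * β) ≤ V.valuation β := by
    rw [map_mul]
    exact mul_le_of_le_one_left' (v_int V m)
  have h2 : V.valuation (n : ℂ) < 1 := by
    have h3 := Valuation.map_sub_lt V.valuation hx (lt_of_le_of_lt h1 hβ1)
    rwa [add_sub_cancel_right] at h3
  have h3 : (2 : ℤ) ∣ n := by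
    by_contra hno
    rw [v_odd v2 hno] at h2
    exact lt_irrefl _ h2
  obtain ⟨k, rfl⟩ := h3
  have h4 : V.valuation (((2 * k : ℤ)) : ℂ) ≤ V.valuation β := by
    push_cast
    rw [map_mul, ← hβ, sq]
    calc V.valuation β * V.valuation β * V.valuation (k : ℂ)
        ≤ V.valuation β * V.valuation β := mul_le_of_le_one_right' (v_int V k)
      _ ≤ V.valuation β := mul_le_of_le_one_right' hβ1.le
  exact le_trans (Valuation.map_add _ _ _) (max_le h4 h1)

/-- a uniformiser of the prime over 2, 2 ramified -/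
lemma unif {A B : ℤ} {V : ValuationSubring ℂ} {P : Ideal (OO A B)} (hC : CQ A B)
    (hV : OverI V P) (v2 : V.valuation (2 : ℂ) < 1) (β : OO A B)
    (hβ : V.valuation (emb β) ^ 2 = V.valuation (2 : ℂ))
    (hx : ∀ x : OO A B, ∃ n m : ℤ, emb x = n + m * emb β) :
    β ∈ P ∧ β ∉ P ^ 2 := by
  have hβ1 : V.valuation (emb β) < 1 := by
    rw [← not_le]
    intro h
    have h1 := one_le_pow₀ (n := 2) h
    rw [hβ] at h1
    exact absurd v2 (not_lt.2 h1)
  have hβ0 : V.valuation (emb β) ≠ 0 := by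
    intro h
    rw [h, zero_pow two_ne_zero] at hβ
    have h2 : V.valuation (2 : ℂ) ≠ 0 := by
      rw [Ne, map_eq_zero]
      norm_num
    exact h2 hβ.symm
  refine ⟨(hV β).1 (V.mem_nonunits_iff.2 hβ1), fun h => ?_⟩
  have hP : ∀ x ∈ P, V.valuation (emb x) ≤ V.valuation (emb β) := by
    intro x hxP
    obtain ⟨n, m, h1⟩ := hx x
    have h2 := V.mem_nonunits_iff.1 ((hV x).2 hxP)
    rw [h1] at h2 ⊢
    exact le_beta v2 hβ hβ1 n m h2
  have hP2 : ∀ x ∈ P ^ 2, V.valuation (emb x) ≤ V.valuation (emb β) * V.valuation (emb β) := by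
    intro x hxP
    rw [sq] at hxP
    refine Submodule.mul_induction_on hxP (fun a ha b hb => ?_) (fun a b ha hb => ?_)
    · rw [emb_mul hC, map_mul]
      exact mul_le_mul' (hP a ha) (hP b hb)
    · rw [emb_add hC]
      exact le_trans (Valuation.map_add _ _ _) (max_le ha hb)
  have h1 := hP2 β h
  have h2 : V.valuation (emb β) * V.valuation (emb β) < V.valuation (emb β) * 1 :=
    (mul_lt_mul_iff_right₀ (zero_lt_iff.2 hβ0)).2 hβ1
  rw [mul_one] at h2
  exact absurd h1 (not_le.2 h2)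

/-- there is a uniformiser with `v(β)² = v 2` -/
lemma exists_unif {A B : ℤ} {V : ValuationSubring ℂ} (hC : CQ A B)
    (hD : (2 : ℤ) ∣ B ^ 2 + 4 * A) (v2 : V.valuation (2 : ℂ) < 1) :
    ∃ β : OO A B, V.valuation (emb β) ^ 2 = V.valuation (2 : ℂ) ∧
      ∀ x : OO A B, ∃ n m : ℤ, emb x = n + m * emb β := by
  have hw := wC_sq hC
  have hB : B = 0 := by
    rcases hC.hB with h | h
    · exact h
    · subst h
      omega
  subst hB
  have hf := hC.fund0 rfl
  have hn4 : ¬ (4 : ℤ) ∣ A := by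
    rintro ⟨c, hc⟩
    have h2 := hf.1 2 ⟨c, by rw [hc]; ring⟩
    exact absurd (Int.isUnit_iff.1 h2) (by norm_num)
  have hf2 := hf.2
  by_cases hA : (2 : ℤ) ∣ A
  · obtain ⟨a, ha⟩ := hA
    have ha2 : ¬ (2 : ℤ) ∣ a := by omega
    refine ⟨⟨0, 1⟩, ?_, fun x => ⟨x.re, x.im, ?_⟩⟩
    · rw [MUX.emb_w, sq, ← map_mul, hw]
      have h6 : ((A : ℤ) : ℂ) + ((0 : ℤ) : ℂ) * wC A 0 = 2 * (a : ℂ) := by
        rw [ha]
        push_cast
        ring
      rw [h6, map_mul, v_odd v2 ha2, mul_one]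
    · rw [MUX.emb_w]
      rfl
  · have hA2 : A % 4 = 3 := by omega
    refine ⟨⟨1, 1⟩, ?_, fun x => ⟨x.re - x.im, x.im, ?_⟩⟩
    · have h5 : emb (⟨1, 1⟩ : OO A 0) = 1 + wC A 0 := by
        unfold emb
        push_cast
        ring
      obtain ⟨a, ha⟩ : ∃ a : ℤ, A = 4 * a + 3 := ⟨A / 4, by omega⟩
      -- `β² = 2 (2 (a + 1) + w)`
      have h6 : (1 + wC A 0) * (1 + wC A 0) = 2 * (2 * ((a + 1 : ℤ) : ℂ) + wC A 0) := by
        have h7 : ((A : ℤ) : ℂ) = 4 * (a : ℂ) + 3 := by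
          rw [ha]
          push_cast
          ring
        rw [h7] at hw
        push_cast at hw ⊢
        linear_combination hw
      have h8 : V.valuation (wC A 0) = 1 := by
        have h9 : V.valuation (wC A 0) ^ 2 = 1 := by
          rw [sq, ← map_mul, hw]
          have h10 : ((A : ℤ) : ℂ) + ((0 : ℤ) : ℂ) * wC A 0 = ((A : ℤ) : ℂ) := by
            push_cast
            ring
          rw [h10]
          exact v_odd v2 (by omega)
        exact (pow_eq_one_iff_of_nonneg zero_le two_ne_zero).1 h9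
      have h11 : V.valuation (2 * ((a + 1 : ℤ) : ℂ)) < 1 := by
        rw [map_mul]
        exact lt_of_le_of_lt (mul_le_of_le_one_right' (v_int V _)) v2
      have h12 : V.valuation (2 * ((a + 1 : ℤ) : ℂ) + wC A 0) = 1 := by
        rw [Valuation.map_add_eq_of_lt_right _ (by rw [h8]; exact h11), h8]
      rw [h5, sq, ← map_mul, h6, map_mul, h12, mul_one]
    · unfold emb
      push_cast
      ring

end VL2

open VL2 in
/-- (VL2) the values of `RF (f)` at `V` -/
theorem tr_VL2 (h1 : Sr_ALB) (h2 : Sr_ALC) (h3 : Sr_UNR) : Sr_VL2 := by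
  refine ⟨?_, ?_⟩
  · intro A B V hC hD hV hT f hf y hy hy0
    obtain ⟨β, N, hN, -⟩ := h1 A B V hC hD hV
    have hmem : ((2 : ℕ) : OO A B) ∈ idl (A := A) (B := B) 2 := Ideal.mem_span_singleton_self _
    have hnot : ((2 : ℕ) : OO A B) ∉ idl (A := A) (B := B) 2 ^ 2 := by
      intro h
      rw [Ideal.span_singleton_pow, Ideal.mem_span_singleton] at h
      obtain ⟨x, hx⟩ := h
      have h4 := congrArg emb hx
      rw [emb_mul hC, emb_pow hC, emb_natCast hC] at h4
      have h5 : emb (((2 : ℕ) : OO A B) * x) = 1 := by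
        rw [emb_mul hC, emb_natCast hC]
        push_cast at h4 ⊢
        linear_combination -(1 / 2) * h4
      have h6 := (hV _).2 ((idl (A := A) (B := B) 2).mul_mem_right x hmem)
      rw [h5, ValuationSubring.mem_nonunits_iff, map_one] at h6
      exact lt_irrefl _ h6
    obtain ⟨k, hk⟩ := main h3 hN hT (Pool.Agent.NSR.VAL3.idl_ne hC (by norm_num)) hV hmem hnot hf
      hy hy0
    refine ⟨k, ?_⟩
    rw [hk, emb_natCast hC]
    norm_num
  · intro A B V P hC hD hV h2P hT f hf y hy hy0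
    obtain ⟨β, N, hN, -⟩ := h2 A B V P hC hD hV h2P
    obtain ⟨ϖ, hϖ, hx⟩ := exists_unif hC hD hN.v2
    obtain ⟨hm, hn⟩ := unif hC hV hN.v2 ϖ hϖ hx
    have hP : P ≠ ⊥ := by
      rintro rfl
      exact Pool.Agent.NSR.VAL3.natCast_ne hC (by norm_num) ((Submodule.mem_bot _).1 h2P)
    obtain ⟨k, hk⟩ := main h3 hN hT hP hV hm hn hf hy hy0
    refine ⟨k, ?_⟩
    rw [hk, ← hϖ, ← zpow_natCast, ← zpow_natCast, ← zpow_mul, ← zpow_mul, mul_comm]

end

end Pool.Agent.N2R
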