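import Pool.Agent.N2.StR
import Pool.Agent.MU3.BAll

/-!
# MUX-2N, block R, module XIT: the group isomorphism in Deuring form (helper76)

Model: `Pool/Agent/MUX/R2_GR2.lean` (helper46).
-/

set_option autoImplicit false

open WeierstrassCurve Polynomial

namespace Pool.Agent.N2R

open _root_.MU3 Pool.Agent.MU3A Pool.Agent.MU3B Pool.Agent.RI Pool.Agent.MUX Pool.Agent.MUXU
open Pool.Agent.MUXV (InK tX)
open Pool.Agent.MUX2 (GRG)
open Pool.Agent.NS (xu)
open Pool.Agent.N2 (WT yt et GoodT CaseT)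

noncomputable section

namespace XIT

open WeierstrassCurve.Affine

theorem some_eq {W : WeierstrassCurve.Affine ℂ} {x y x' y' : ℂ} (h : W.Nonsingular x y)
    (h' : W.Nonsingular x' y') (hx : x = x') (hy : y = y') :
    Point.some x y h = Point.some x' y' h' := by
  subst hx hy
  rfl

theorem disc (a c : ℂ) : (WT a c).Δ = c ^ 3 * (a ^ 3 - 27 * c) := by
  have w1 : (WT a c).a₁ = a := rfl
  have w2 : (WT a c).a₂ = 0 := rfl
  have w3 : (WT a c).a₃ = c := rfl
  have w4 : (WT a c).a₄ = 0 := rfl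
  have w6 : (WT a c).a₆ = 0 := rfl
  rw [WeierstrassCurve.Δ, WeierstrassCurve.b₂, WeierstrassCurve.b₄, WeierstrassCurve.b₆,
    WeierstrassCurve.b₈, w1, w2, w3, w4, w6]
  ring

end XIT

open XIT WeierstrassCurve.Affine in
theorem tr_XIT (hDEF : Sr_DEF) : Sr_XIT := by
  intro L u e a c hD0
  classical
  obtain ⟨he, hc0, hac, hg2, hg3, -, -⟩ := hDEF L u e a c hD0
  have hu := hD0.u0
  have hu2 : u ^ 2 ≠ 0 := pow_ne_zero 2 hu
  have hu3 : u ^ 3 ≠ 0 := pow_ne_zero 3 hu
  obtain ⟨P, hP⟩ : ∃ P : ℂ → ℂ, P = L.weierstrassP := ⟨_, rfl⟩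
  obtain ⟨D, hD⟩ : ∃ D : ℂ → ℂ, D = L.derivWeierstrassP := ⟨_, rfl⟩
  obtain ⟨X, hX0⟩ : ∃ X : ℂ → ℂ, X = xu L u e := ⟨_, rfl⟩
  obtain ⟨T, hT0⟩ : ∃ T : ℂ → ℂ, T = et L u := ⟨_, rfl⟩
  obtain ⟨Y, hY0⟩ : ∃ Y : ℂ → ℂ, Y = yt L u e a c := ⟨_, rfl⟩
  have hPX : ∀ z, P z = u ^ 2 * X z + e := fun z => by
    rw [hX0, xu, hP]
    field_simp
    ring
  have hDT : ∀ z, D z = u ^ 3 * T z := fun z => by
    rw [hT0, et, hD]
    field_simp
  have hYe : ∀ z, Y z = (T z - a * X z - c) / 2 := fun z => by
    rw [hX0, hT0, hY0, yt]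
  obtain ⟨W, hW⟩ : ∃ W : WeierstrassCurve.Affine ℂ, W = WT a c := ⟨_, rfl⟩
  have w1 : W.a₁ = a := by rw [hW]; rfl
  have w2 : W.a₂ = 0 := by rw [hW]; rfl
  have w3 : W.a₃ = c := by rw [hW]; rfl
  have w4 : W.a₄ = 0 := by rw [hW]; rfl
  have w6 : W.a₆ = 0 := by rw [hW]; rfl
  have wΔ : W.Δ ≠ 0 := by
    rw [hW, disc]
    exact mul_ne_zero (pow_ne_zero 3 hc0) (sub_ne_zero.2 hac)
  -- the facts
  have hTsq : ∀ z, z ∉ L.lattice → T z ^ 2 = 4 * X z ^ 3 + (a * X z + c) ^ 2 := fun z hz => by
    rw [hX0, hT0, et]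
    exact hD0.eq z hz
  have hpar : ∀ z, P (-z) = P z ∧ D (-z) = -D z := fun z => by
    rw [hP, hD]
    exact ⟨L.weierstrassP_neg z, L.derivWeierstrassP_neg z⟩
  have hper : ∀ z, ∀ v ∈ L.lattice, P (z + v) = P z ∧ D (z + v) = D z := by
    intro z v hv
    rw [hP, hD]
    exact ⟨L.weierstrassP_add_coe z ⟨v, hv⟩, L.derivWeierstrassP_add_coe z ⟨v, hv⟩⟩
  have eqX : ∀ z z', P z = P z' → X z = X z' := by
    intro z z' h
    rw [hPX, hPX] at h
    exact mul_left_cancel₀ hu2 (add_right_cancel h)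
  have eqT : ∀ z z', D z = D z' → T z = T z' := by
    intro z z' h
    rw [hDT, hDT] at h
    exact mul_left_cancel₀ hu3 h
  have hinj : ∀ z z', z ∉ L.lattice → z' ∉ L.lattice → P z = P z' →
      z - z' ∈ L.lattice ∨ z + z' ∈ L.lattice := fun z z' hz hz' hx => by
    rw [hP] at hx
    exact b_NEQ L z' z hz' hz hx
  have hy0 : ∀ z, z ∉ L.lattice → (D z = 0 ↔ 2 * z ∈ L.lattice) := fun z hz => by
    rw [hD]
    exact b_ZER L z hz
  have hadd := b_ADD L
  have hdbl := b_DUP L
  rw [← hP, ← hD] at hadd hdbl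
  have ns : ∀ z, z ∉ L.lattice → W.Nonsingular (X z) (Y z) := by
    intro z hz
    rw [← equation_iff_nonsingular_of_Δ_ne_zero wΔ, WeierstrassCurve.Affine.equation_iff, w1, w2,
      w3, w4, w6, hYe]
    linear_combination (1 / 4) * hTsq z hz
  obtain ⟨f, hf⟩ : ∃ f : ℂ → W.Point,
      f = fun z => if h : z ∈ L.lattice then 0 else Point.some _ _ (ns z h) := ⟨_, rfl⟩
  have hf0 : ∀ z, z ∈ L.lattice → f z = 0 := fun z hz => by rw [hf]; exact dif_pos hz
  have hf1 : ∀ z (hz : z ∉ L.lattice), f z = Point.some _ _ (ns z hz) := fun z hz => by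
    rw [hf]; exact dif_neg hz
  have hfper : ∀ z, ∀ v ∈ L.lattice, f (z + v) = f z := by
    intro z v hv
    by_cases hz : z ∈ L.lattice
    · rw [hf0 z hz, hf0 _ (add_mem hz hv)]
    · have hzu : z + v ∉ L.lattice := fun h => hz (by
        have := sub_mem h hv
        rwa [add_sub_cancel_right] at this)
      have h1 := eqX _ _ (hper z v hv).1
      have h2 := eqT _ _ (hper z v hv).2
      rw [hf1 z hz, hf1 _ hzu]
      exact some_eq _ _ h1 (by rw [hYe, hYe, h1, h2])
  have hnegY : ∀ x y : ℂ, W.negY x y = -y - a * x - c := by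
    intro x y
    rw [WeierstrassCurve.Affine.negY, w1, w3]
  have hmap : ∀ z z', f (z + z') = f z + f z' := by
    intro z z'
    by_cases hz : z ∈ L.lattice
    · rw [hf0 z hz, zero_add, add_comm z z', hfper z' z hz]
    by_cases hz' : z' ∈ L.lattice
    · rw [hf0 z' hz', add_zero, hfper z z' hz']
    by_cases hzz : z + z' ∈ L.lattice
    · rw [hf0 _ hzz, hf1 z hz, hf1 z' hz']
      have e1 : z = -z' + (z + z') := by ring
      have hx : X z = X z' := by
        apply eqX
        rw [e1, (hper (-z') _ hzz).1, (hpar z').1]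
      have hy : T z = -T z' := by
        have h1 : D z = -D z' := by
          rw [e1, (hper (-z') _ hzz).2, (hpar z').2]
        rw [hDT, hDT] at h1
        apply mul_left_cancel₀ hu3
        rw [h1]
        ring
      exact (Point.add_of_Y_eq hx (by rw [hnegY, hYe, hYe, hx, hy]; ring)).symm
    by_cases hzd : z - z' ∈ L.lattice
    · have e1 : f z' = f z := by
        have := hfper z' _ hzd
        rw [← this]
        congr 1
        ring
      have e2 : f (z + z') = f (2 * z) := by
        have := hfper (z + z') _ hzd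
        rw [← this]
        congr 1
        ring
      have h2z : 2 * z ∉ L.lattice := by
        intro h
        apply hzz
        have := sub_mem h hzd
        have e : z + z' = 2 * z - (z - z') := by ring
        rwa [e]
      have ht : T z ≠ 0 := fun h => h2z ((hy0 z hz).1 (by rw [hDT, h, mul_zero]))
      have hyne : Y z ≠ W.negY (X z) (Y z) := by
        rw [hnegY, hYe]
        intro h0
        apply ht
        linear_combination h0
      rw [e1, e2, hf1 z hz, hf1 _ h2z, Point.add_self_of_Y_ne hyne]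
      obtain ⟨m, hm⟩ : ∃ m : ℂ, m = (6 * X z ^ 2 + a ^ 2 * X z + a * c) / (2 * T z) := ⟨_, rfl⟩
      have hM : (6 * P z ^ 2 - L.g₂ / 2) / (2 * D z) = u * m := by
        have h1 : 6 * P z ^ 2 - L.g₂ / 2 = u ^ 4 * (6 * X z ^ 2 + a ^ 2 * X z + a * c) := by
          rw [hPX, hg2]
          linear_combination (u ^ 2 * X z + e / 2 + u ^ 2 * a ^ 2 / 24) * he
        rw [h1, hDT, hm]
        field_simp
      have hsl : W.slope (X z) (X z) (Y z) (Y z) = m - a / 2 := by
        rw [WeierstrassCurve.Affine.slope_of_Y_ne rfl hyne, hnegY, w1, w2, w4]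
        have h3 : Y z - (-Y z - a * X z - c) = T z := by rw [hYe]; ring
        rw [h3, hYe, hm]
        field_simp
        ring
      obtain ⟨hd1, hd2⟩ := hdbl z h2z
      rw [hM, hPX, hPX] at hd1 hd2
      rw [hDT, hDT] at hd2
      have hx2 : X (2 * z) + 2 * X z + a ^ 2 / 4 = m ^ 2 := by
        apply mul_left_cancel₀ hu2
        linear_combination hd1 - (1 / 4) * he
      have ht2 : T (2 * z) + T z = -2 * m * (X (2 * z) - X z) := by
        apply mul_left_cancel₀ hu3
        linear_combination hd2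
      have hX : W.addX (X z) (X z)
          (W.slope (X z) (X z) (Y z) (Y z)) = X (2 * z) := by
        rw [WeierstrassCurve.Affine.addX, hsl, w1, w2]
        linear_combination -hx2
      apply some_eq
      · exact hX.symm
      · rw [WeierstrassCurve.Affine.addY, WeierstrassCurve.Affine.negAddY, hnegY, hX, hsl]
        rw [hYe, hYe]
        linear_combination (1 / 2) * ht2
    · have hxne : X z ≠ X z' := by
        intro h
        rcases hinj z z' hz hz' (by rw [hPX, hPX, h]) with h3 | h3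
        · exact hzd h3
        · exact hzz h3
      have hxne' : X z - X z' ≠ 0 := sub_ne_zero.2 hxne
      rw [hf1 z hz, hf1 z' hz', hf1 _ hzz, Point.add_of_X_ne hxne]
      obtain ⟨m, hm⟩ : ∃ m : ℂ, m = (T z - T z') / (2 * (X z - X z')) := ⟨_, rfl⟩
      have hM : (D z - D z') / (2 * (P z - P z')) = u * m := by
        have h1 : P z - P z' = u ^ 2 * (X z - X z') := by rw [hPX, hPX]; ring
        have h2 : D z - D z' = u ^ 3 * (T z - T z') := by rw [hDT, hDT]; ring
        rw [h1, h2, hm]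
        field_simp
      have hsl : W.slope (X z) (X z') (Y z) (Y z') = m - a / 2 := by
        rw [WeierstrassCurve.Affine.slope_of_X_ne hxne, hYe, hYe, hm]
        field_simp
        ring
      obtain ⟨ha1, ha2⟩ := hadd z' z hz' hz hzz hzd
      rw [hM, hPX, hPX] at ha1 ha2
      rw [hPX z'] at ha1
      rw [hDT, hDT] at ha2
      have hx2 : X (z + z') + X z + X z' + a ^ 2 / 4 = m ^ 2 := by
        apply mul_left_cancel₀ hu2
        linear_combination ha1 - (1 / 4) * he
      have ht2 : T (z + z') + T z = -2 * m * (X (z + z') - X z) := by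
        apply mul_left_cancel₀ hu3
        linear_combination ha2
      have hX : W.addX (X z) (X z')
          (W.slope (X z) (X z') (Y z) (Y z')) = X (z + z') := by
        rw [WeierstrassCurve.Affine.addX, hsl, w1, w2]
        linear_combination -hx2
      apply some_eq
      · exact hX.symm
      · rw [WeierstrassCurve.Affine.addY, WeierstrassCurve.Affine.negAddY, hnegY, hX, hsl]
        rw [hYe, hYe]
        linear_combination (1 / 2) * ht2
  subst hW
  refine ⟨⟨⟨f, hf0 0 L.lattice.zero_mem⟩, hmap⟩, ?_, ?_, ?_⟩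
  · intro z
    refine ⟨fun h => ?_, fun h => hf0 z h⟩
    by_contra hz
    have h1 : f z = 0 := h
    rw [hf1 z hz] at h1
    exact Point.some_ne_zero _ h1
  · intro p
    rcases p with _ | ⟨x, y, h⟩
    · exact ⟨0, hf0 0 L.lattice.zero_mem⟩
    · have heq := (WeierstrassCurve.Affine.equation_iff _ _).1 h.1
      rw [w1, w2, w3, w4, w6] at heq
      obtain ⟨z, hz, hzP, hzD⟩ := (b_DSC L).2 (u ^ 2 * x + e) (u ^ 3 * (2 * y + a * x + c)) (by
        rw [hg2, hg3]
        have he' : e = u ^ 2 * a ^ 2 / 12 := by linear_combination (1 / 12) * he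
        rw [he']
        linear_combination (4 * u ^ 6) * heq)
      refine ⟨z, ?_⟩
      have h1 : f z = _ := hf1 z hz
      refine h1.trans ?_
      have h2 : X z = x := by
        apply mul_left_cancel₀ hu2
        have h3 := hPX z
        rw [hP, hzP] at h3
        exact (add_right_cancel h3).symm
      have h4 : T z = 2 * y + a * x + c := by
        apply mul_left_cancel₀ hu3
        have h3 := hDT z
        rw [hD, hzD] at h3
        exact h3.symm
      exact some_eq _ _ h2 (by rw [hYe, h2, h4]; ring)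
  · intro z hz
    rw [← hX0, ← hY0]
    exact ⟨ns z hz, hf1 z hz⟩

end

end Pool.Agent.N2R
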