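import Pool.Agent.N2.R_ALB
import Pool.Agent.N2.R_ALC
import Pool.Agent.N2.R_CHT
import Pool.Agent.N2.R_CML
import Pool.Agent.N2.R_CLO
import Pool.Agent.N2.R_DEF
import Pool.Agent.N2.R_CMQ
import Pool.Agent.N2.R_DU2
import Pool.Agent.N2.R_EQL
import Pool.Agent.N2.R_FLD
import Pool.Agent.N2.R_FXL
import Pool.Agent.N2.R_GRT
import Pool.Agent.N2.R_HPD
import Pool.Agent.N2.R_ISO
import Pool.Agent.N2.R_LIF
import Pool.Agent.N2.R_MFD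
import Pool.Agent.N2.R_NRC
import Pool.Agent.N2.R_RED
import Pool.Agent.N2.R_RFN
import Pool.Agent.N2.R_RFQ
import Pool.Agent.N2.R_SCL
import Pool.Agent.N2.R_TOR
import Pool.Agent.N2.R_TP2
import Pool.Agent.N2.R_TRA
import Pool.Agent.N2.R_UNQ
import Pool.Agent.N2.R_UNR
import Pool.Agent.N2.R_VL2
import Pool.Agent.N2.R_XIT
import Pool.Agent.MUX.UAll

/-!
# MUX-2N, 2R: block R without hypotheses (helper77)
-/

set_option autoImplicit false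

namespace Pool.Agent.N2R

open Pool.Agent.MUXU

theorem r_DEF : Sr_DEF := tr_DEF
theorem r_XIT : Sr_XIT := tr_XIT r_DEF
theorem r_HPD : Sr_HPD := tr_HPD r_DEF
theorem r_NRC : Sr_NRC := tr_NRC
theorem r_TOR : Sr_TOR := tr_TOR r_XIT
theorem r_TRA : Sr_TRA := tr_TRA r_DEF
theorem r_CMQ : Sr_CMQ := tr_CMQ r_DEF
theorem r_CML : Sr_CML := tr_CML r_DEF
theorem r_ALB : Sr_ALB := tr_ALB
theorem r_ALC : Sr_ALC := tr_ALC
theorem r_RED : Sr_RED := tr_RED r_CMQ r_TOR r_DEF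
theorem r_GRT : Sr_GRT := tr_GRT r_XIT
theorem r_CHT : Sr_CHT := tr_CHT r_DEF
theorem r_CLO : Sr_CLO := tr_CLO r_GRT r_CHT
theorem r_UNQ : Sr_UNQ := tr_UNQ r_DEF r_RED r_TOR r_TRA r_CML r_CLO u_BAC u_CJE u_PHI u_TSN
theorem r_EQL : Sr_EQL := tr_EQL r_DEF
theorem r_FXL : Sr_FXL := tr_FXL r_UNQ r_EQL r_RED r_GRT r_TOR
theorem r_LIF : Sr_LIF := tr_LIF
theorem r_MFD : Sr_MFD := tr_MFD r_DEF
theorem r_UNR : Sr_UNR := tr_UNR r_HPD r_RED r_NRC r_TOR r_LIF r_MFD r_FXL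
theorem r_VL2 : Sr_VL2 := tr_VL2 r_ALB r_ALC r_UNR
theorem r_DU2 : Sr_DU2 := tr_DU2 r_CHT
theorem r_TP2 : Sr_TP2 := tr_TP2 r_DU2
theorem r_SCL : Sr_SCL := tr_SCL r_GRT
theorem r_ISO : Sr_ISO := tr_ISO r_SCL r_TOR
theorem r_FLD : Sr_FLD := tr_FLD r_DEF

/-- `2` inert -/
theorem r_RFIN : Pool.Agent.N2.S2_RFIN := tr_RFN r_ALB r_HPD r_RED r_FLD r_UNR

/-- `2` ramified -/
theorem r_RFINQ : Pool.Agent.N2.SQ_RFIN := tr_RFQ r_ALC r_HPD r_RED r_FLD r_UNR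

end Pool.Agent.N2R
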