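import Pool.Agent.N2.HAll
import Pool.Agent.N2.GSAll
import Pool.Agent.N2.RAll

/-!
# N2, block H without hypotheses (helper41)
-/

set_option autoImplicit false

namespace Pool.Agent.N2Z

open Pool.Agent.N2

/-- the character sums, `2` inert -/
theorem h_HFINT0 : S2_HFIN := h_HFINT Pool.Agent.N2R.r_RFIN

/-- the character sums, `2` ramified -/
theorem h_HFINU0 : SQ_HFIN := h_HFINU gq_GPT Pool.Agent.N2R.r_RFINQ

end Pool.Agent.N2Z
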