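import Pool.Agent.N2.StIR
import Pool.Agent.NS.I_INP

/-!
# MUX-2R, block IR, module INP (helper36): the inputs of block K
-/

set_option autoImplicit false

namespace Pool.Agent.N2IR

open _root_.MU3 Pool.Agent.MU3 Pool.Agent.MU3A Pool.Agent.MU3B Pool.Agent.RI Pool.Agent.RID
  Pool.Agent.MUX Pool.Agent.MUXK Pool.Agent.MUXI Pool.Agent.NSI Pool.Agent.N2

noncomputable section

/-- (INP) the inputs of block K -/
theorem tr_INP (h1 : Sr_I31) (h2 : Sr_LEM1Y) (h3 : Sr_NRXY) : Sr_INP := by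
  intro A B P V f hS hTor ι iι R u el a1 a3 hG K₀ K Bn ik iK iKB hX hKT hk hk₀ hkK S c c₀ n₁ hW C
    hE hc₀
  have iP : Fact (Nat.Prime 2) := ⟨Nat.prime_two⟩
  have iK₀ : FiniteDimensional ℚ K₀ := Pool.Agent.NSI.INP.fd hX.le
  have iKB₀ : ∀ n, FiniteDimensional ℚ ↥(K₀ ⊔ Bn n) := fun n =>
    Pool.Agent.NSI.INP.fd (E' := K ⊔ Bn n) (sup_le_sup_right hX.le _)
  have hNr := h3 2 (kk A B) K₀ K Bn hX hk hk₀ S c c₀ n₁ hW
  have hI3 : ∀ (χ : (letI := algC hkK; (↥K₀ ≃ₐ[kk A B] ↥K₀) →*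
      (IsLocalRing.ResidueField V)ˣ)) (N n₀ : ℕ), ∃ n, n₀ ≤ n ∧
      I3At (IsLocalRing.ResidueField V) 2 (kk A B) K₀ Bn hkK χ N n (hk₀ n) (c₀ n)
        (hW.mem₀ n) := by
    intro χ N n₀
    refine h2 (IsLocalRing.ResidueField V) 2 (kk A B) K₀ Bn hX.b0 hX.cop hX.om hk₀ hkK c₀ hW.mem₀
      (Pool.Agent.NSI.INP.c_ne hW) n₁ hNr χ (fun n₀ => ?_) N n₀
    exact h1 A B P V f hS hTor ι R u el a1 a3 hG K₀ Bn hX.b0 hX.cop hKT hk₀ hkK C hE c₀ hW.mem₀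
      hc₀ χ n₀
  exact
    { mem := hW.mem
      ne := hW.ne
      mem₀ := hW.mem₀
      norm := hW.norm
      prime := hW.prime
      su := hW.su
      nrm := hW.nrm
      kol := hW.kol
      i3 := hI3 }

end

end Pool.Agent.N2IR
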