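import Pool.Agent.NS.DefsN
import Pool.Agent.MUX.StXE2
import Pool.Agent.MUX.StHX

/-!
# MUX-2N: common definitions, `2` inert in `k` (helper66). See `Pool/Agent/MUX/PAPER_2N.md`

`CaseT A B`: `2` is inert in `k`, `D ≠ -3`. `V` a valuation ring of `ℂ` with `V ∩ O = 2 O` (`OverI V (idl 2)`), `v = V.valuation`
(multiplicative; `v x ≤ v 2` is the additive `v(x) ≥ 1`). `SetT`: `f` odd, divisible by `3 |D|`. Levels `m = lvX 2 f n = f 2^(n+2)`, `a = aX 2 f =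
1 + 8 f`, `γ ↔ 5`. `R : Reps A B (2 * f) ι`. `O^* = {1,-1}`, `O/2` has four elements.

* `GoodT V L u e a1 a3` : `w1, w2` two points of order three of `L`, `w2 ≠ ± w1`, `e = ℘(w1)`, `u² = ℘(w2) - ℘(w1)`; the lattice `u L` has the equation
  `y² + a1 x y + a3 y = x³`, `x(u z) = xu L u e z = (℘(z; L) - e)/u²`, `(2 y + a1 x + a3)(u z) = ℘'(z; L)/u³`; supersingular good reduction:
  `a1 ∈ 2 V`, `a3` a unit. (`e` and `u²` are in `RF (3)`: `xn L w1 = e - 1/12`.)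
* `IsTei2 V w` : the Teichmueller character `w` of `(O/2)^*` (values in the third roots of unity), `w x ≡ emb x` modulo `2`.
* `OddT f V om` : the weights `om` used in `T(τ)`: odd, periodic modulo `2 f`, `om x ≡ emb x` modulo `2` (for instance `κ₀ w`, `κ₀` an odd sign).
* `TT2 R om m a h τ = 1/2 Σ om(x) mu_i (Θ_a'/Θ_a)(pt R m i x; L_i)`, `(i, x) ∈ XX R m h τ`.
* `PTq q P` : `P(x, y) - P(x + 1/q, y + 1/q)`.
-/

set_option autoImplicit false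

namespace Pool.Agent.N2

open _root_.MU3 Pool.Agent.MU3A Pool.Agent.MU3B Pool.Agent.RI Pool.Agent.MUX Pool.Agent.MUXE
  Pool.Agent.MuSym Pool.Agent.MUXH Pool.Agent.NS OnePoint

noncomputable section

/-- `2` is inert in `k`, and `D ≠ -3` -/
structure CaseT (A B : ℤ) : Prop extends CQ A B where
  two : (8 : ℤ) ∣ B ^ 2 + 4 * A - 5
  exc : ¬ (B = 1 ∧ A = -1)

/-- the standing hypotheses -/
structure SetT (A B : ℤ) (V : ValuationSubring ℂ) (f : ℕ) : Prop where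
  case : CaseT A B
  hV : OverI V (idl (A := A) (B := B) 2)
  f0 : f ≠ 0
  fp : ¬ 2 ∣ f
  fD : 3 * absD A B ∣ (f : ℤ)

/-- the lattice `u L` has the equation `y² + a1 x y + a3 y = x³`, supersingular good reduction at `V` -/
structure GoodT (V : ValuationSubring ℂ) (L : PeriodPair) (u e a1 a3 : ℂ) : Prop where
  u0 : u ≠ 0
  tor : ∃ w1 w2 : ℂ, 3 * w1 ∈ L.lattice ∧ 3 * w2 ∈ L.lattice ∧ w1 ∉ L.lattice ∧ w2 ∉ L.lattice ∧
    w2 - w1 ∉ L.lattice ∧ w2 + w1 ∉ L.lattice ∧ e = L.weierstrassP w1 ∧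
    u ^ 2 = L.weierstrassP w2 - L.weierstrassP w1
  eq : ∀ z ∉ L.lattice, (L.derivWeierstrassP z / u ^ 3) ^ 2 =
    4 * ((L.weierstrassP z - e) / u ^ 2) ^ 3 + (a1 * ((L.weierstrassP z - e) / u ^ 2) + a3) ^ 2
  v1 : V.valuation a1 ≤ V.valuation (2 : ℂ)
  v3 : V.valuation a3 = 1

/-- `2 y + a1 x + a3` on `u L`, as a function on `L` -/
def et (L : PeriodPair) (u z : ℂ) : ℂ := L.derivWeierstrassP z / u ^ 3

/-- `y` on `u L`, as a function on `L` -/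
def yt (L : PeriodPair) (u e a1 a3 z : ℂ) : ℂ := (et L u z - a1 * xu L u e z - a3) / 2

/-- the curve `y² + a1 x y + a3 y = x³` -/
def WT (a1 a3 : ℂ) : WeierstrassCurve.Affine ℂ := ⟨a1, 0, a3, 0, 0⟩

/-- Teichmueller character of `(O/2)^*`, extended by `0` -/
structure IsTei2 {A B : ℤ} (V : ValuationSubring ℂ) (w : OO A B → ℂ) : Prop where
  one : w 1 = 1
  mul : ∀ x y, w (x * y) = w x * w y
  per : ∀ x y, x - y ∈ idl (A := A) (B := B) 2 → w x = w y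
  zero : ∀ x ∈ idl (A := A) (B := B) 2, w x = 0
  pow : ∀ x ∉ idl (A := A) (B := B) 2, w x ^ 3 = 1
  cong : ∀ x, V.valuation (w x - emb x) ≤ V.valuation (2 : ℂ)

/-- the weights in `T(τ)` -/
structure OddT {A B : ℤ} (f : ℕ) (V : ValuationSubring ℂ) (om : OO A B → ℂ) : Prop where
  neg : ∀ x, om (-x) = -om x
  per : ∀ x y, x - y ∈ idl (A := A) (B := B) (2 * f) → om x = om y
  cong : ∀ x, IsCoprime x ((2 * f : ℕ) : OO A B) →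
    V.valuation (om x - emb x) ≤ V.valuation (2 : ℂ)

section
variable {A B : ℤ} {n : ℕ} {ι : Type}

/-- `T(τ)` with the weights `om` -/
def TT2 (R : Reps A B n ι) (om : OO A B → ℂ) (m a : ℕ) {D : IntermediateField ℚ ℂ}
    (h : kk A B ≤ D) (τ : letI := algC h; D ≃ₐ[kk A B] D) : ℂ :=
  1 / 2 * ∑ᶠ q ∈ XX R m h τ, om (Quotient.out q.2) * muX R q.1 *
    dlX (R.L q.1) a (pt R m q.1 (Quotient.out q.2))

end

/-- `D` is in the compositum of `RF (4 f)` (`lvX 2 f 0 = 4 f`) and the field of the `M`-th roots of unity, in the form: every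
automorphism which is trivial on both is trivial on `D` -/
def InCyc (A B : ℤ) (f M : ℕ) (D : IntermediateField ℚ ℂ) : Prop :=
  ∀ σ : ℂ ≃+* ℂ, FixK A B σ → (∀ y ∈ RF (idl (A := A) (B := B) (lvX 2 f 0)), σ y = y) →
    (∀ z : ℂ, z ^ M = 1 → σ z = z) → ∀ y ∈ D, σ y = y

/-- `P(x, y) - P(x + 1/q, y + 1/q)` -/
def PTq (q : ℤ) (P : OnePoint ℚ → OnePoint ℚ → ℂ) (x y : OnePoint ℚ) : ℂ :=
  P x y - P (mob q 1 0 q x) (mob q 1 0 q y)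

/-! ## Final statements of the blocks -/

/-- (RFIN, helper77) the reduction of the normalised lattices, and uniqueness in the form: an automorphism in the inertia group of
`RF (idl f)` is trivial on it (`f` odd). -/
def S2_RFIN : Prop :=
  ∀ (A B : ℤ) (V : ValuationSubring ℂ), CaseT A B → OverI V (idl (A := A) (B := B) 2) →
    TorX A B →
    (∀ (b : Ideal (OO A B)) (L : PeriodPair) (om : ℂ), IsNL b L om →
      ∃ u e a1 a3 : ℂ, GoodT V L u e a1 a3 ∧ u ^ 2 ∈ RF (idl (A := A) (B := B) 3) ∧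
        e ∈ RF (idl (A := A) (B := B) 3)) ∧
    ∀ f : ℕ, f ≠ 0 → ¬ 2 ∣ f → ∀ σ : ℂ ≃+* ℂ, FixK A B σ →
      (∀ y ∈ RF (idl (A := A) (B := B) f), y ∈ V → σ y - y ∈ V.nonunits) →
      ∀ y ∈ RF (idl (A := A) (B := B) f), σ y = y

/-- (EFIN, helper34) the improved criterion: `v(T(τ)/u) ≥ 1/2`, and `v ≥ 3/2` at squares. `C` is a conjugate family, products of
`Θ_a` over half systems of `XX`. -/
def S2_EFIN : Prop :=
  ∀ (A B : ℤ) (V : ValuationSubring ℂ) (f : ℕ), SetT A B V f → TorX A B →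
    ∀ (ι : Type) [Fintype ι] (R : Reps A B (2 * f) ι) (u e a1 a3 : ℂ),
    GoodT V (R.L R.i0) u e a1 a3 → ∀ om : OO A B → ℂ, OddT f V om →
    ∀ n : ℕ, 2 ≤ n →
    ∀ (H : ι → Finset ℂ), (∀ i, IsHalf (R.L i) (aX 2 f : ℂ) (H i)) →
    ∀ (D : IntermediateField ℚ ℂ) (h : kk A B ≤ D),
      (∀ y ∈ D, y ∈ RF (idl (A := A) (B := B) (lvX 2 f n))) → InCyc A B f (2 ^ (n + 2)) D →
    letI := algC h
    ∀ (C : (D ≃ₐ[kk A B] D) → ℂ),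
    (∀ τ : D ≃ₐ[kk A B] D, ∃ y : D, (y : ℂ) = C 1 ∧ ((τ y : D) : ℂ) = C τ) →
    (∀ τ : D ≃ₐ[kk A B] D, ∃ S, HalfS R (lvX 2 f n) h τ S ∧
      C τ = ∏ q ∈ S, ThetaH (R.L q.1) (H q.1) (pt R (lvX 2 f n) q.1 (Quotient.out q.2))) →
    (∀ τ : D ≃ₐ[kk A B] D,
      V.valuation (TT2 R om (lvX 2 f n) (aX 2 f) h τ / u) ^ 2 ≤ V.valuation (2 : ℂ)) ∧
    ∀ g : (D ≃ₐ[kk A B] D) → ℤ,
      (∃ y ∈ D, y ^ 2 = ∏ᶠ τ : D ≃ₐ[kk A B] D, C τ ^ g τ) →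
      ∀ τ' : D ≃ₐ[kk A B] D,
        V.valuation ((∑ᶠ τ : D ≃ₐ[kk A B] D, (g τ : ℂ) *
          TT2 R om (lvX 2 f n) (aX 2 f) h (τ * τ')) / u) ^ 2 ≤ V.valuation (2 : ℂ) ^ 3

/-- (TYF, helper4) the type of the values: all values `PhiK/(u om)` are in `pi KI`, `v` is unramified on the field `KI`, and
`v(pi)³ v(2)^i = 1` with `i ≤ 2`. -/
def S2_TYF : Prop :=
  ∀ (A B : ℤ) (V : ValuationSubring ℂ) (f : ℕ), SetT A B V f → TorX A B →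
    ∀ (ι : Type) [Fintype ι] (R : Reps A B (2 * f) ι) (u el a1 a3 : ℂ),
    GoodT V (R.L R.i0) u el a1 a3 →
    ∀ e : OO A B → ℂ, IsEI (idl (A := A) (B := B) (2 * f)) e → ∀ r : ℕ, ¬ 2 ∣ r →
    (∀ x, e x ≠ 0 → e x ^ (2 * r) = 1) → ∀ kk : ι → ℂ, (∀ i, kk i ^ (2 * r) = 1) →
    ∃ (pi : ℂ) (KI : Subfield ℂ) (i : ℕ), i ≤ 2 ∧
      (∀ x y, ∃ w ∈ KI, PhiK R e kk x y / (u * R.om R.i0) = pi * w) ∧
      (∀ w ∈ KI, V.valuation w < 1 → V.valuation w ≤ V.valuation (2 : ℂ)) ∧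
      V.valuation pi ^ 3 * V.valuation (2 : ℂ) ^ i = 1

/-- (GPT) Theorem G for the translates `P_(1/16)` and `P_(1/4, 1/16)` of `P = PhiK R e kk / (u om_(i0))`: the first coefficients are
`1 - ζ_16` (`v = 1/8`) and `(1 - i)(1 - ζ_16)` (`v = 5/8`). -/
def S2_GPT : Prop :=
  ∀ (A B : ℤ) (V : ValuationSubring ℂ) (f : ℕ), SetT A B V f → TorX A B →
    ∀ (ι : Type) [Fintype ι] (R : Reps A B (2 * f) ι) (u el a1 a3 : ℂ),
    GoodT V (R.L R.i0) u el a1 a3 →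
    ∀ e : OO A B → ℂ, IsEI (idl (A := A) (B := B) (2 * f)) e → ∀ r : ℕ, r ≠ 0 →
    (∀ x, e x ≠ 0 → e x ^ r = 1) → ∀ kk : ι → ℂ, V.valuation (kk R.i0) = 1 →
    ∀ N' : ℕ, N' ≠ 0 → absD A B * ((2 * f : ℕ) : ℤ) ^ 2 ∣ (N' : ℤ) →
    (∃ a b c d : ℤ, a * d - b * c = 1 ∧ (N' : ℤ) ∣ c ∧ (N' : ℤ) ∣ d - 1 ∧
      V.valuation (2 : ℂ) ≤ V.valuation (PTq 16 (fun x y => PhiK R e kk x y / (u * R.om R.i0)) ∞
        (mob a b c d ∞)) ^ 8) ∧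
    ∃ a b c d : ℤ, a * d - b * c = 1 ∧ (N' : ℤ) ∣ c ∧ (N' : ℤ) ∣ d - 1 ∧
      V.valuation (2 : ℂ) ^ 5 ≤ V.valuation (PTq 16 (PTq 4
        (fun x y => PhiK R e kk x y / (u * R.om R.i0))) ∞ (mob a b c d ∞)) ^ 8

/-- (KEY0, helper6) the topological key lemma at `p = 2`. -/
def S2_KEY0 : Prop :=
  ∀ (M : Type) [AddCommGroup M] (N r n0 : ℕ) (Φ : OnePoint ℚ → OnePoint ℚ → M)
    (_ : 1 < N) (_ : Nat.Coprime 2 N) (_ : 1 ≤ r)
    (_ : ∀ q : ℕ, q.Coprime 2 → ∀ m : M, q • m = 0 → m = 0)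
    (_ : ∀ x y z, Φ x y + Φ y z = Φ x z)
    (_ : ∀ a b c d : ℤ, a * d - b * c = 1 → ((2 : ℤ) ^ r * N) ∣ c →
      ((2 : ℤ) ^ r * N) ∣ d - 1 → ∀ x y, Φ (mob a b c d x) (mob a b c d y) = Φ x y)
    (_ : ∀ a b c d : ℤ, ∀ n ≥ n0, c ≠ 0 → d ≠ 0 → IsCoprime a c → IsCoprime b d →
      ((2 : ℤ) ^ r * N) ∣ c → a * d - b * c = (2 : ℤ) ^ n →
      Φ (((a : ℚ) / c : ℚ) : OnePoint ℚ) (((b : ℚ) / d : ℚ) : OnePoint ℚ) = 0)
    (_ : ∀ b : ℤ, ∀ n ≥ n0, ¬ (2 : ℤ) ∣ b → Φ ∞ (((b : ℚ) / 2 ^ n : ℚ) : OnePoint ℚ) = 0)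
    (a b c d : ℤ) (_ : a * d - b * c = 1) (_ : (2 : ℤ) ^ r * N ∣ c)
    (_ : (2 : ℤ) ^ r * N ∣ d - 1) (x : OnePoint ℚ), Φ x (mob a b c d x) = 0

/-- (HFIN, helper66) the character sums: for infinitely many levels `v < 3/2`. -/
def S2_HFIN : Prop :=
  ∀ (A B : ℤ) (V : ValuationSubring ℂ) (f : ℕ), SetT A B V f → TorX A B →
    ∀ (ι : Type) [Fintype ι] (R : Reps A B (2 * f) ι) (u el a1 a3 : ℂ),
    GoodT V (R.L R.i0) u el a1 a3 →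
    ∀ e : OO A B → ℂ, IsEI (idl (A := A) (B := B) (2 * f)) e → ∀ r : ℕ, ¬ 2 ∣ r →
    (∀ x, e x ≠ 0 → e x ^ (2 * r) = 1) → ∀ kk : ι → ℂ, (∀ i, kk i ^ (2 * r) = 1) →
    ∀ n₀ : ℕ, ∃ n, n₀ ≤ n ∧
      V.valuation (2 : ℂ) ^ 3 < V.valuation ((1 / 2 * ∑ j ∈ Finset.range 2, (-1) ^ (1 - j) *
        (STX R (lvX 2 f n) (2 ^ (n + 2)) (aX 2 f) e kk (5 ^ j) +
          STX R (lvX 2 f n) (2 ^ (n + 2)) (aX 2 f) e kk (-(5 ^ j)))) / u) ^ 2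

end

end Pool.Agent.N2
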