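import Pool.Agent.NS.StIN
import Pool.Agent.N2.DefsT
import Pool.Agent.MUX.Kap2
import Pool.Agent.MUX.StJG

/-!
# MUX-2N, block I2N (helper36): from blocks E2N, H2N to the input (I3) of block K, `2` inert in `k`

As `Pool/Agent/NS/StIN.lean` (3 inert). Every statement is a `def St_X : Prop`; a module proves `theorem tt_X (h : ..) ... : St_X`
in the file `Pool/Agent/N2/I_X.lean`, namespace `Pool.Agent.N2I`. The general statements of `StIN.lean` (`Sn_FOU`, `Sn_E0`, `Sn_SUB`, `Sn_XMX`, `Sn_TSH`,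
`Sn_TH`, `Sn_NR1`, `Sn_NRX`, `Sn_LEM1`, all proved: `Pool/Agent/NS/IAll.lean`) and of `MUX/StIX.lean` are used as they are, with `p = 2`.
-/

set_option autoImplicit false

namespace Pool.Agent.N2I

open _root_.MU3 Pool.Agent.MU3 Pool.Agent.MU3A Pool.Agent.MU3B Pool.Agent.RI Pool.Agent.RID
  Pool.Agent.MUX Pool.Agent.MUXK Pool.Agent.MUXI Pool.Agent.NSI Pool.Agent.N2
open Pool.Agent.MU3I (w3 zt)

noncomputable section

/-! ## Definitions -/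

lemma setL_T {A B : ℤ} {V : ValuationSubring ℂ} {f : ℕ} (h : SetT A B V f) : SetL 2 A B f :=
  ⟨h.case.toCQ, Or.inl rfl, h.f0, h.fp⟩

/-- the input from block E for one field `D` -/
structure EInpT {A B : ℤ} (V : ValuationSubring ℂ) (f : ℕ) {ι : Type}
    (R : Reps A B (2 * f) ι) (u : ℂ) (n : ℕ) {D : IntermediateField ℚ ℂ} (h : kk A B ≤ D)
    (C : (letI := algC h; D ≃ₐ[kk A B] D) → ℂ) : Prop where
  ne : C (letI := algC h; 1) ≠ 0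
  conj : letI := algC h
    ∀ τ : D ≃ₐ[kk A B] D, ∃ y : D, (y : ℂ) = C 1 ∧ ((τ y : D) : ℂ) = C τ
  ew : letI := algC h
    ∀ om : OO A B → ℂ, OddT f V om → ∀ g : (D ≃ₐ[kk A B] D) → ℤ,
      (∃ y ∈ D, y ^ 2 = ∏ᶠ τ : D ≃ₐ[kk A B] D, C τ ^ g τ) → ∀ τ' : D ≃ₐ[kk A B] D,
        V.valuation ((∑ᶠ τ : D ≃ₐ[kk A B] D, (g τ : ℂ) *
          TT2 R om (lvX 2 f n) (aX 2 f) h (τ * τ')) / u) ^ 2 ≤ V.valuation (2 : ℂ) ^ 3

/-! ## Characters -/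

/-- (KAP) the odd sign function modulo `D`, `D` odd.

PROOF. `Pool/Agent/MUX/Kap2.lean` (`kap_exists`, helper77), where `8 ∣ D - 1` is used only for `B = 1` and `D ≡ 1` modulo 4, i.e. `|D| ≡ 3` modulo 4; here `D ≡ 5` modulo 8. -/
def St_KAP : Prop :=
  ∀ A B : ℤ, CaseT A B → ∃ κ : OO A B → ℤ, Pool.Agent.MUX2.KapD A B κ

/-- (TE2) existence of the Teichmueller character.

PROOF. As `Pool/Agent/NS/I_TEI.lean` (3 inert). `2` is a prime element of `O` (`D ≡ 5` modulo 8: `w² - w - A` with `A` odd is irreducible modulo 2), `O/2` is a field with four elements, `(O/2)^*` is cyclic of order 3: its elements are the classes of `1, w, w + 1 = w²` (`w = ⟨0, 1⟩`, `w² = A + w`, `A` odd). `ζ = exp(2 π i/3)`.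
`∏_(j = 0, 1, 2) (emb w - ζ^j) = emb (w^3 - 1) ∈ 2 emb O` (`w^3 = A w + w² = (A + 1) w + A`, so `w^3 - 1 = (A + 1) w + (A - 1)`, both coefficients even). The differences `ζ^i - ζ^j` are units (`(1 - ζ)(1 - ζ²) = 3`, `v(3) = 1` since `v(2) < 1`), so exactly one factor has `v < 1`, the others `v = 1`, and
`v(emb w - ζ^j) ≤ v(2)` for this `j`. `ω = ζ^j`; `w(x) = 0, 1, ω, ω²` for the classes `0, 1, w, w + 1`. `cong` for `w + 1`: `emb (w + 1) - ω² = emb(w + 1 - w²) + (emb w ^2 - ω²)`. `emb O ⊆ V`: `emb x` is integral over `ℤ`. -/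
def St_TE2 : Prop :=
  ∀ (A B : ℤ) (V : ValuationSubring ℂ), CaseT A B → OverI V (idl (A := A) (B := B) 2) →
    ∃ w : OO A B → ℂ, IsTei2 V w

/-- (EPT) the weights and the odd character.

USES KAP, TE2, Sx_ALG. PROOF. `lvX 2 f 0 = 4 f`. `om x = κ(x) w(x)`, `κ` from KAP, `w` from TE2. `OddT`: `κ(-1) = -1`, `w(-x) = w(x)` (`-x - x ∈ (2)`); `per`: `|D| ∣ f`; `cong`: `x` prime to `2 f` is prime to `D`, so `κ x = ± 1`, and `v(- w x - emb x) ≤ max(v(w x - emb x), v(2 w x))` with `v(w x) = 1`.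
`e0` is periodic modulo `2 f`: let `x - y ∈ (2 f)`. If `x` is not prime to `2 f` (equivalently to `4 f`), neither is `y`, both values are `0`. Otherwise choose `y'` with `y y' ≡ 1` modulo `4 f`; `z = x y' ≡ 1` modulo `2 f`, so `z² ≡ 1` modulo `4 f` (`(1 + 2 f t)² = 1 + 4 f (t + f t²)`), `e0(z)² = 1` and `e0(z)^r = 1`, `r` odd, so `e0(z) = 1` and
`e0(x) = e0(x) e0(y) e0(y') = e0(y) e0(z) = e0(y)`. `e x = e0 x * om x`. `neg`: `e0(-1) = 1`, `om(-1) = -om(1) = -1`. `supp`: if `x` is prime to `2 f` all factors are `≠ 0`. `e^(6 r) = 1`: `κ^2 = 1`, `w^3 = 1`, `e0^r = 1`. -/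
def St_EPT : Prop :=
  ∀ (A B : ℤ) (V : ValuationSubring ℂ) (f : ℕ) (_ : SetT A B V f) (e0 : OO A B → ℂ) (r : ℕ)
    (_ : ¬ 2 ∣ r)
    (_ : e0 1 = 1) (_ : e0 (-1) = 1) (_ : ∀ x y, e0 (x * y) = e0 x * e0 y)
    (_ : ∀ x y, x - y ∈ idl (A := A) (B := B) (lvX 2 f 0) → e0 x = e0 y)
    (_ : ∀ x, e0 x ≠ 0 ↔ IsCoprime x ((lvX 2 f 0 : ℕ) : OO A B))
    (_ : ∀ x, e0 x ≠ 0 → e0 x ^ r = 1),
    ∃ (om e : OO A B → ℂ), OddT f V om ∧ IsEI (idl (A := A) (B := B) (2 * f)) e ∧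
      (∀ x, e x ≠ 0 → e x ^ (2 * (3 * r)) = 1) ∧
      ∀ x, IsCoprime x ((lvX 2 f 0 : ℕ) : OO A B) → e0 x * om x = e x

/-- (CYC) `K B_n` is in the compositum of `RF (4 f)` and the field of the `2^(n+2)`-th roots of unity.

USES Si_LAY. PROOF. `q0 2 * 2^n = 2^(n+2) = M`, `ζ = zt M`, `Bn = ℚ(ζ + ζ⁻¹)` (LAY). Let `σ` be trivial on `RF (4 f)` and on the `M`-th roots of unity. The `y` with `σ y = y` form an intermediate field of `ℂ / ℚ` which contains `K` and `ζ + ζ⁻¹`, so it contains `K ⊔ Bn`. -/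
def St_CYC : Prop :=
  ∀ (A B : ℤ) (f : ℕ) (K : IntermediateField ℚ ℂ),
    (∀ y ∈ K, y ∈ RF (idl (A := A) (B := B) (lvX 2 f 0))) → ∀ (n : ℕ)
    (Bn : IntermediateField ℚ ℂ), IsLayer 2 n Bn → InCyc A B f (2 ^ (n + 2)) (K ⊔ Bn)

/-! ## The result -/

/-- (I31) one level, `T`. Module of helper36. -/
def St_I31 : Prop :=
  ∀ (A B : ℤ) (V : ValuationSubring ℂ) (f : ℕ), SetT A B V f → TorX A B →
    ∀ (ι : Type) [Fintype ι] (R : Reps A B (2 * f) ι) (u el a1 a3 : ℂ),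
    GoodT V (R.L R.i0) u el a1 a3 →
    ∀ (K : IntermediateField ℚ ℂ) (Bn : ℕ → IntermediateField ℚ ℂ)
    [FiniteDimensional ℚ K] [∀ n, FiniteDimensional ℚ ↥(K ⊔ Bn n)]
    (hB : BasX 2 (kk A B) K Bn)
    (_ : ¬ 2 ∣ Module.finrank (kk A B) (IntermediateField.extendScalars hB.hk))
    (_ : ∀ y ∈ K, y ∈ RF (idl (A := A) (B := B) (lvX 2 f 0)))
    (hk : ∀ n, kk A B ≤ K ⊔ Bn n) (hkK : kk A B ≤ K)
    (C : ∀ n, (letI := algC (hk n); ↥(K ⊔ Bn n) ≃ₐ[kk A B] ↥(K ⊔ Bn n)) → ℂ)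
    (_ : ∀ n, 2 ≤ n → EInpT V f R u n (hk n) (C n)) (c₀ : ℕ → ℂ)
    (mem : ∀ n, c₀ n ∈ K ⊔ Bn n) (_ : ∀ n, 2 ≤ n → c₀ n = C n (letI := algC (hk n); 1))
    (χ : (letI := algC hkK; (↥K ≃ₐ[kk A B] ↥K) →* (IsLocalRing.ResidueField V)ˣ)) (n₀ : ℕ),
    ∃ n, n₀ ≤ n ∧ I3At (IsLocalRing.ResidueField V) 2 (kk A B) K Bn hkK χ 1 n (hk n) (c₀ n) (mem n)

/-- THE RESULT of block I2N: the inputs of block K. Module of helper36. -/
def St_INP : Prop :=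
  ∀ (A B : ℤ) (V : ValuationSubring ℂ) (f : ℕ), SetT A B V f → TorX A B →
    ∀ (ι : Type) [Fintype ι] (R : Reps A B (2 * f) ι) (u el a1 a3 : ℂ),
    GoodT V (R.L R.i0) u el a1 a3 →
    ∀ (K₀ K : IntermediateField ℚ ℂ) (Bn : ℕ → IntermediateField ℚ ℂ)
    [FiniteDimensional ℚ (kk A B)] [FiniteDimensional ℚ K] [∀ n, FiniteDimensional ℚ ↥(K ⊔ Bn n)]
    (_ : SetX 2 (kk A B) K₀ K Bn)
    (_ : ∀ y ∈ K₀, y ∈ RF (idl (A := A) (B := B) (lvX 2 f 0)))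
    (hk : ∀ n, kk A B ≤ K ⊔ Bn n) (hk₀ : ∀ n, kk A B ≤ K₀ ⊔ Bn n) (hkK : kk A B ≤ K₀)
    (S : Finset ℕ) (c c₀ : ℕ → ℂ) (n₁ : ℕ)
    (_ : Pool.Agent.MUXZ.InpW 2 (kk A B) K₀ K Bn hk hk₀ S c c₀ n₁)
    (C : ∀ n, (letI := algC (hk₀ n); ↥(K₀ ⊔ Bn n) ≃ₐ[kk A B] ↥(K₀ ⊔ Bn n)) → ℂ)
    (_ : ∀ n, 2 ≤ n → EInpT V f R u n (hk₀ n) (C n))
    (_ : ∀ n, 2 ≤ n → c₀ n = C n (letI := algC (hk₀ n); 1)),
    InpX (IsLocalRing.ResidueField V) 2 (kk A B) K₀ K Bn hk hk₀ hkK S c c₀ n₁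

/-- the inputs of block J for `2` inert. Module of helper36 (model `Pool/Agent/MUX/Z_INP.lean`).

USES INP, CYC, S2_EFIN, `Zl_INW`, `Zl_LVX` (`NS/ZL.lean`), Sn_SUB, Sz_THN, Sy_MEM, Sy_CXS, Sy_REX. -/
def St_INPG : Prop :=
  ∀ (A B : ℤ) (V : ValuationSubring ℂ), CaseT A B → OverI V (idl (A := A) (B := B) 2) →
    TorX A B → Pool.Agent.MUXJ.InpG 2 (3 * (absD A B).toNat) A B V

end

end Pool.Agent.N2I
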