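import Pool.Agent.NS.StIN
import Pool.Agent.N2.DefsR2

/-!
# MUX-2R, block IR (helper36): from blocks E, H to the input (I3) of block K, `2` ramified in `k`, `D ≠ -4`

As `Pool/Agent/N2/StIT.lean` (2 inert). Every statement is a `def Sr_X : Prop`; a module proves `theorem tr_X (h : ..) ... : Sr_X`
in the file `Pool/Agent/N2/IR_X.lean`, namespace `Pool.Agent.N2IR`. The general statements of `NS/StIN.lean` and of `MUX/StIX.lean` are used as they are.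
New: `K` may contain the first layer `B 1` (`BasY`, `SetY`, `DefsR2.lean`); the constants in the norm relations between the `c₀ n` are in `K₀ B 1`, fixed by `γ²`; so
block E, H give the statement for the operator `γ² - 1` (`I3Q`), and `(γ² - 1)` of the norm of `c₀ n` to the level `m` is `(γ² - 1) c₀ m`. `γ² - 1 = (γ - 1)²` modulo squares.
-/

set_option autoImplicit false

namespace Pool.Agent.N2IR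

open _root_.MU3 Pool.Agent.MU3 Pool.Agent.MU3A Pool.Agent.MU3B Pool.Agent.RI Pool.Agent.RID
  Pool.Agent.MUX Pool.Agent.MUXK Pool.Agent.MUXI Pool.Agent.NSI Pool.Agent.N2
open Pool.Agent.MU3I (w3 zt)

noncomputable section

/-! ## Definitions -/

lemma setL_Q {A B : ℤ} {P : Ideal (OO A B)} {V : ValuationSubring ℂ} {f : ℕ}
    (h : SetQ A B P V f) : SetL 2 A B f :=
  ⟨h.case.toCQ, Or.inl rfl, h.f0, h.fp⟩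

/-- the input from block E for one field `D` -/
structure EInpQ {A B : ℤ} (V : ValuationSubring ℂ) (f : ℕ) {ι : Type}
    (R : Reps A B (2 * f) ι) (u : ℂ) (n : ℕ) {D : IntermediateField ℚ ℂ} (h : kk A B ≤ D)
    (C : (letI := algC h; D ≃ₐ[kk A B] D) → ℂ) : Prop where
  ne : C (letI := algC h; 1) ≠ 0
  conj : letI := algC h
    ∀ τ : D ≃ₐ[kk A B] D, ∃ y : D, (y : ℂ) = C 1 ∧ ((τ y : D) : ℂ) = C τ
  ew : letI := algC h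
    ∀ om : OO A B → ℂ, OddQ f V om → ∀ g : (D ≃ₐ[kk A B] D) → ℤ,
      (∃ y ∈ D, y ^ 2 = ∏ᶠ τ : D ≃ₐ[kk A B] D, C τ ^ g τ) → ∀ τ' : D ≃ₐ[kk A B] D,
        V.valuation ((∑ᶠ τ : D ≃ₐ[kk A B] D, (g τ : ℂ) *
          TT2 R om (lvX 2 f n) (aX 2 f) h (τ * τ')) / u) ^ 4 ≤
            V.valuation (2 : ℂ) ^ (2 * dR A + 3)

/-- the norm relation between the levels, constants in the first layer -/
def NrRelY (p : ℕ) (k K : IntermediateField ℚ ℂ) (B : ℕ → IntermediateField ℚ ℂ)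
    (hk : ∀ n, k ≤ K ⊔ B n) (c₀ : ℕ → ℂ) (mem : ∀ n, c₀ n ∈ K ⊔ B n) (n₁ : ℕ) : Prop :=
  ∀ m n : ℕ, n₁ ≤ m → 1 ≤ m → m ≤ n →
    letI := algC (hk n)
    ∀ γ : ↥(K ⊔ B n) ≃ₐ[k] ↥(K ⊔ B n), (∀ x : ↥(K ⊔ B n), γ x = x ↔ (x : ℂ) ∈ K) →
    ∃ C ∈ K ⊔ B 1, C ≠ 0 ∧ ((∏ i ∈ Finset.range (p ^ (n - m)),
      (γ ^ (p ^ m * i)) ⟨c₀ n, mem n⟩ : ↥(K ⊔ B n)) : ℂ) = C * c₀ m

/-- the statement of (I3) for the character `χ`, the operator `γ^p - 1` and one level `n` -/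
def I3Q (F : Type) [Field F] (p : ℕ) (k K : IntermediateField ℚ ℂ)
    (B : ℕ → IntermediateField ℚ ℂ) (hkK : k ≤ K)
    (χ : (letI := algC hkK; (↥K ≃ₐ[k] ↥K) →* Fˣ)) (n : ℕ) (hk : k ≤ K ⊔ B n) (c : ℂ)
    (mem : c ∈ K ⊔ B n) : Prop :=
  letI := algC hk
  letI := algC hkK
    ∀ γ : ↥(K ⊔ B n) ≃ₐ[k] ↥(K ⊔ B n), (∀ x : ↥(K ⊔ B n), γ x = x ↔ (x : ℂ) ∈ K) →
    ∀ [Fintype (NC hk (B n))] (r : NC hk (B n) → (↥K ≃ₐ[k] ↥K)),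
    (∀ (δ : NC hk (B n)) (x : ↥K) (x' : ↥(K ⊔ B n)), (x' : ℂ) = x →
      (((δ : ↥(K ⊔ B n) ≃ₐ[k] ↥(K ⊔ B n)) x' : ↥(K ⊔ B n)) : ℂ) = (r δ x : ↥K)) →
    ∃ θ : F →+ ZMod p, ∀ y : ↥(K ⊔ B n), y ^ p ≠ ∏ δ : NC hk (B n),
      ((δ : ↥(K ⊔ B n) ≃ₐ[k] ↥(K ⊔ B n)) (Tg (γ ^ p) ⟨c, mem⟩)) ^
        (θ ((χ (r δ))⁻¹ : Fˣ)).val

/-! ## Characters -/

/-- (EPQ) the weights and the odd character.

PROOF. `lvX 2 f 0 = 4 f`. `κ` from `SetQ.kap`, `om x = κ x`, `e x = e0 x * κ x` (as complex numbers). `OddQ`: `per`: `idl (2 * f) ≤ idl f`; `cong`: `x` prime to `2 f` is prime to `f`, `κ x = ± 1`, and `v(0)`, `v(-2)` satisfy `v² ≤ v 2` (`2 ∈ V`, i.e. `v 2 ≤ 1`: every integer is in `V`).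
`IsEI`, `supp`: `x` is prime to `2 f` iff it is prime to `4 f`; then `κ x = ± 1`, `e0 x ≠ 0`; otherwise `e0 x = 0`. `neg`: `e0 (-1) = 1`. KEY: if `x`, `y` are prime to `2 f` and `x - y ∈ (f)` then `e0 x = e0 y` (this gives `cond`, and `per` modulo `2 f`). Proof: choose `y'` with `y y' ≡ 1` modulo `4 f`, `z = x y' ≡ 1` modulo `f`,
`z` prime to `2`. `z = a + b w`, `w² = A` (`CaseR2.b0`), `nm z = a² - A b²` is odd (`z u + 2 v = 1` gives `nm z * nm u = nm (1 - 2 v)` odd). `z² = (a² + A b²) + 2 a b w`, so `z² ≡ 1` modulo `2` (`a² + A b² ≡ nm z` modulo `2`), `z^4 = (1 + 2 s)² ≡ 1` modulo `4`; `z^4 ≡ 1` modulo `f`, and `f` is odd, so `z^4 ≡ 1` modulo `4 f`: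
`e0(z)^4 = 1`, `e0(z)^r = 1`, `r` odd, so `e0 z = 1`; `e0 x = e0 x e0 (y y') = e0 y e0 z = e0 y`. `e^(2 r) = 1`: `κ^2 = 1`, `e0^r = 1`. Model: `N2/I_EPT.lean`. -/
def Sr_EPQ : Prop :=
  ∀ (A B : ℤ) (P : Ideal (OO A B)) (V : ValuationSubring ℂ) (f : ℕ) (_ : SetQ A B P V f)
    (e0 : OO A B → ℂ) (r : ℕ) (_ : ¬ 2 ∣ r)
    (_ : e0 1 = 1) (_ : e0 (-1) = 1) (_ : ∀ x y, e0 (x * y) = e0 x * e0 y)
    (_ : ∀ x y, x - y ∈ idl (A := A) (B := B) (lvX 2 f 0) → e0 x = e0 y)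
    (_ : ∀ x, e0 x ≠ 0 ↔ IsCoprime x ((lvX 2 f 0 : ℕ) : OO A B))
    (_ : ∀ x, e0 x ≠ 0 → e0 x ^ r = 1),
    ∃ (om e : OO A B → ℂ), OddQ f V om ∧ OddF f e ∧ (∀ x, e x ≠ 0 → e x ^ (2 * r) = 1) ∧
      ∀ x, IsCoprime x ((lvX 2 f 0 : ℕ) : OO A B) → e0 x * om x = e x

/-! ## Fields: degrees counted from the first layer -/

/-- (GALY) `K B_n / k` is Galois with abelian group.

PROOF. `Pool/Agent/MUX/K_GALX.lean` (`t_GALX`), which uses only `gal`, `ab` and `IsLayer p n (B n)`. -/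
def Sr_GALY : Prop := ∀ (p : ℕ) [Fact p.Prime] (k K : IntermediateField ℚ ℂ)
    (B : ℕ → IntermediateField ℚ ℂ)
    [FiniteDimensional ℚ K] [∀ n, FiniteDimensional ℚ ↥(K ⊔ B n)], BasY p k K B →
    ∀ (n : ℕ) (h : k ≤ K ⊔ B n), letI := algC h
    IsGalois k ↥(K ⊔ B n) ∧ ∀ σ τ : ↥(K ⊔ B n) ≃ₐ[k] ↥(K ⊔ B n), σ * τ = τ * σ

/-- (ORDY) the automorphisms of `K B_(n+1)` with fixed field `K B_n`, `n ≥ 1`.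

USES GALY. PROOF. `NC h (K ⊔ B n) ⊆ Gal(K_(n+1)/k)` has order `p` (`Pool.Agent.MUXK.K_NR1.card_NC` and `BasY.deg` for `n`, `n - 1`). (1) `σ ≠ 1` in a group of order `p` generates it, so `σ x = x` implies that `x` is fixed by `NC h (K ⊔ B n)`, hence in `K ⊔ B n` (`K_NR1.mem_of_fixed`). (2) The powers of `σ` are in `NC h (K ⊔ B n)`, so
`orderOf σ ∣ p`, and `orderOf σ ≠ 1` since `K_(n+1) ≠ K_n` (degrees). -/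
def Sr_ORDY : Prop := ∀ (p : ℕ) [Fact p.Prime] (k K : IntermediateField ℚ ℂ)
    (B : ℕ → IntermediateField ℚ ℂ)
    [FiniteDimensional ℚ K] [∀ n, FiniteDimensional ℚ ↥(K ⊔ B n)], BasY p k K B →
    ∀ (n : ℕ) (_ : 1 ≤ n) (h : k ≤ K ⊔ B (n + 1)), letI := algC h
    (∀ σ : ↥(K ⊔ B (n + 1)) ≃ₐ[k] ↥(K ⊔ B (n + 1)),
      (∀ x : ↥(K ⊔ B (n + 1)), (x : ℂ) ∈ K ⊔ B n → σ x = x) → σ ≠ 1 →
      ∀ x : ↥(K ⊔ B (n + 1)), σ x = x ↔ (x : ℂ) ∈ K ⊔ B n) ∧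
    ∀ σ : ↥(K ⊔ B (n + 1)) ≃ₐ[k] ↥(K ⊔ B (n + 1)),
      (∀ x : ↥(K ⊔ B (n + 1)), σ x = x ↔ (x : ℂ) ∈ K ⊔ B n) → orderOf σ = p

/-- (LFY) lifting from `K₀ B_n` to `K B_n`, `n ≥ 1`.

USES GALY, S_GALX. PROOF. `Pool.Agent.MUXK.K_NR1.res` with `L' = K ⊔ B n`, `L = K₀ ⊔ B n`, `A' = K ⊔ B 1`, `A = K₀ ⊔ B 1` (an automorphism trivial on `K₀ ⊔ B n` and on `K ⊔ B 1` is trivial on `K` and `B n`, so it is `1`: `GCC.triv`; degrees: `BasX.deg`, `BasY.deg`): the restriction `NC h (K ⊔ B 1) → NC h₀ (K₀ ⊔ B 1)` is bijective. -/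
def Sr_LFY : Prop := ∀ (p : ℕ) [Fact p.Prime] (k K₀ K : IntermediateField ℚ ℂ)
    (B : ℕ → IntermediateField ℚ ℂ)
    [FiniteDimensional ℚ K] [∀ n, FiniteDimensional ℚ ↥(K ⊔ B n)], BasX p k K₀ B → BasY p k K B →
    K₀ ≤ K → ∀ (n : ℕ) (_ : 1 ≤ n) (h : k ≤ K ⊔ B n) (h₀ : k ≤ K₀ ⊔ B n)
    (hh : K₀ ⊔ B n ≤ K ⊔ B n),
    letI := algC h
    letI := algC h₀
    ∀ γ : ↥(K₀ ⊔ B n) ≃ₐ[k] ↥(K₀ ⊔ B n),
      (∀ x : ↥(K₀ ⊔ B n), (x : ℂ) ∈ K₀ ⊔ B 1 → γ x = x) →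
    ∃ γ' : ↥(K ⊔ B n) ≃ₐ[k] ↥(K ⊔ B n), (∀ x : ↥(K ⊔ B n), (x : ℂ) ∈ K ⊔ B 1 → γ' x = x) ∧
      ∀ x : ↥(K₀ ⊔ B n), ((γ' ⟨x, hh x.2⟩ : ↥(K ⊔ B n)) : ℂ) = (γ x : ↥(K₀ ⊔ B n))

/-- (INWY) the inputs from block W, first level 1.

USES ORDY, `Zl_LVX`, `Sn_SUB`, Sy_MEM, Sy_TOW, Sy_SUC, Sy_I1, Sy_KOL. `Pool/Agent/NS/ZL.lean` (`tl_INW`), the same proof; `BasX.deg` of `K` is used there only in `ordP` (field `nrm`), replaced by ORDY (2) for `n ≥ 1`. -/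
def Sr_INWY : Prop :=
  ∀ (p : ℕ) (A B : ℤ) (f : ℕ)
    (_ : SetL p A B f) (_ : TorX A B) (ι : Type) [Finite ι] (R : Reps A B (p * f) ι)
    (H : ι → Finset ℂ)
    (θ : ∀ n : ℕ, (RF (idl (A := A) (B := B) (lvX p f n)) : IntermediateField (kk A B) ℂ))
    (_ : Pool.Agent.MUXZ.ThN p f R H θ)
    (K₀ K : IntermediateField ℚ ℂ) (Bn : ℕ → IntermediateField ℚ ℂ)
    [FiniteDimensional ℚ (kk A B)] [FiniteDimensional ℚ K] [∀ n, FiniteDimensional ℚ ↥(K ⊔ Bn n)]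
    (_ : SetY p (kk A B) K₀ K Bn) (_ : ∀ y ∈ K, y ∈ RF (idl (A := A) (B := B) (lvX p f 0)))
    (_ : ∀ y ∈ RF (⊤ : Ideal (OO A B)), y ∈ K)
    (hk : ∀ n, kk A B ≤ K ⊔ Bn n) (hk₀ : ∀ n, kk A B ≤ K₀ ⊔ Bn n),
    ∃ S : Finset ℕ, Pool.Agent.MUXZ.InpW p (kk A B) K₀ K Bn hk hk₀ S
      (fun n => Pool.Agent.MUXW.cW (hk n) (θ n)) (fun n => Pool.Agent.MUXW.cW (hk₀ n) (θ n)) 1

/-- (NR1Y) the norm relation for `c₀`, one step, `n ≥ 1`; the constant is in `K₀ B_1`.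

USES GALY, S_GALX, ORDY, LFY. PROOF. As `Pool/Agent/NS/I_NR1.lean`. `σ` is trivial on `K₀ ⊔ B n ⊇ K₀ ⊔ B 1`; `τ` from LFY extends it, is trivial on `K ⊔ B 1` and on `B n` (as `σ` is), so on `K ⊔ B n`, and `τ ≠ 1` (`σ ≠ 1`: degrees): ORDY (1). `Q = NC (hk (n+1)) (K₀ ⊔ B (n+1))`. `∏_i σ^i c₀(n+1) = ∏_i τ^i ∏_(g ∈ Q) g c(n+1) = ∏_g g (C c n) = C' c₀ n`
with `C ∈ K` from `hI.nrm`, `C' = ∏_(g ∈ Q) g C`; the restriction `Q → NC (hk n) (K₀ ⊔ B n)` is bijective (`K_NR1.res`, degrees for `n ≥ 1`), so `∏_(g ∈ Q) g (c n) = c₀ n`. `C'` is in `K` (`K/k` is normal) and fixed by `Q`, so in `K₀ ⊔ B (n+1)` (`mem_of_fixed`); let `ρ` be an automorphism of `K₀ ⊔ B (n+1)` trivial on `K₀ ⊔ B 1`; its lift (LFY) is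
trivial on `K`, so it fixes `C'`. So `C' ∈ K₀ ⊔ B 1` (`mem_of_fixed` for `K₀ ⊔ B (n+1)`). -/
def Sr_NR1Y : Prop := ∀ (p : ℕ) [Fact p.Prime]
    (k K₀ K : IntermediateField ℚ ℂ) (B : ℕ → IntermediateField ℚ ℂ)
    [FiniteDimensional ℚ k] [FiniteDimensional ℚ K] [∀ n, FiniteDimensional ℚ ↥(K ⊔ B n)]
    [∀ n, FiniteDimensional ℚ ↥(K₀ ⊔ B n)], SetY p k K₀ K B →
    ∀ (hk : ∀ n, k ≤ K ⊔ B n) (hk₀ : ∀ n, k ≤ K₀ ⊔ B n) (S : Finset ℕ) (c c₀ : ℕ → ℂ) (n₁ : ℕ)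
    (hI : Pool.Agent.MUXZ.InpW p k K₀ K B hk hk₀ S c c₀ n₁), ∀ n, n₁ ≤ n → 1 ≤ n →
    letI := algC (hk₀ (n + 1))
    ∀ σ : ↥(K₀ ⊔ B (n + 1)) ≃ₐ[k] ↥(K₀ ⊔ B (n + 1)),
      (∀ x : ↥(K₀ ⊔ B (n + 1)), σ x = x ↔ (x : ℂ) ∈ K₀ ⊔ B n) →
      ∃ C ∈ K₀ ⊔ B 1, C ≠ 0 ∧ ∏ i ∈ Finset.range p,
        (((σ ^ i) ⟨c₀ (n + 1), hI.mem₀ (n + 1)⟩ : ↥(K₀ ⊔ B (n + 1))) : ℂ) = C * c₀ n

/-- (NRXY) the norm relation from `K₀_n` to `K₀_m`, `m ≥ 1`.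

USES NR1Y, S_RSX. PROOF. `Pool/Agent/NS/I_NRX.lean`; there `γ C = C` is used only for the powers `γ^(p^m i)`, and `γ^(p^m)` is trivial on `K₀ ⊔ B m ⊇ K₀ ⊔ B 1` (`K_NRX.step` with the hypothesis `(g ^ q) C = C` instead of `g C = C`). -/
def Sr_NRXY : Prop := ∀ (p : ℕ) [Fact p.Prime]
    (k K₀ K : IntermediateField ℚ ℂ) (B : ℕ → IntermediateField ℚ ℂ)
    [FiniteDimensional ℚ k] [FiniteDimensional ℚ K] [∀ n, FiniteDimensional ℚ ↥(K ⊔ B n)]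
    [∀ n, FiniteDimensional ℚ ↥(K₀ ⊔ B n)], SetY p k K₀ K B →
    ∀ (hk : ∀ n, k ≤ K ⊔ B n) (hk₀ : ∀ n, k ≤ K₀ ⊔ B n) (S : Finset ℕ) (c c₀ : ℕ → ℂ) (n₁ : ℕ)
    (hI : Pool.Agent.MUXZ.InpW p k K₀ K B hk hk₀ S c c₀ n₁),
    NrRelY p k K₀ B hk₀ c₀ hI.mem₀ n₁

/-- (LEM1Y) one level is enough, with constants in `K B_1` and the operator `γ^p - 1`. Module of helper36. -/
def Sr_LEM1Y : Prop := ∀ (F : Type) [Field F] (p : ℕ) [Fact p.Prime]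
    (k K : IntermediateField ℚ ℂ) (B : ℕ → IntermediateField ℚ ℂ)
    [FiniteDimensional ℚ K] [∀ n, FiniteDimensional ℚ ↥(K ⊔ B n)] (hB : BasX p k K B)
    (_ : ¬ p ∣ Module.finrank k (IntermediateField.extendScalars hB.hk))
    (_ : ∃ ω ∈ K, IsPrimitiveRoot ω p)
    (hk : ∀ n, k ≤ K ⊔ B n) (hkK : k ≤ K) (c₀ : ℕ → ℂ) (mem : ∀ n, c₀ n ∈ K ⊔ B n)
    (_ : ∀ n, c₀ n ≠ 0) (n₁ : ℕ) (_ : NrRelY p k K B hk c₀ mem n₁)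
    (χ : (letI := algC hkK; (↥K ≃ₐ[k] ↥K) →* Fˣ)),
    (∀ n₀ : ℕ, ∃ n, n₀ ≤ n ∧ I3Q F p k K B hkK χ n (hk n) (c₀ n) (mem n)) →
    ∀ N n₀ : ℕ, ∃ n, n₀ ≤ n ∧ I3At F p k K B hkK χ N n (hk n) (c₀ n) (mem n)

/-! ## The result -/

/-- (I31) one level, `γ² - 1`. Module of helper36. -/
def Sr_I31 : Prop :=
  ∀ (A B : ℤ) (P : Ideal (OO A B)) (V : ValuationSubring ℂ) (f : ℕ), SetQ A B P V f →
    TorX A B → ∀ (ι : Type) [Fintype ι] (R : Reps A B (2 * f) ι) (u el a1 a3 : ℂ),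
    GoodQ V (R.L R.i0) u el a1 a3 →
    ∀ (K : IntermediateField ℚ ℂ) (Bn : ℕ → IntermediateField ℚ ℂ)
    [FiniteDimensional ℚ K] [∀ n, FiniteDimensional ℚ ↥(K ⊔ Bn n)]
    (hB : BasX 2 (kk A B) K Bn)
    (_ : ¬ 2 ∣ Module.finrank (kk A B) (IntermediateField.extendScalars hB.hk))
    (_ : ∀ y ∈ K, y ∈ RF (idl (A := A) (B := B) (lvX 2 f 0)))
    (hk : ∀ n, kk A B ≤ K ⊔ Bn n) (hkK : kk A B ≤ K)
    (C : ∀ n, (letI := algC (hk n); ↥(K ⊔ Bn n) ≃ₐ[kk A B] ↥(K ⊔ Bn n)) → ℂ)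
    (_ : ∀ n, 5 ≤ n → EInpQ V f R u n (hk n) (C n)) (c₀ : ℕ → ℂ)
    (mem : ∀ n, c₀ n ∈ K ⊔ Bn n) (_ : ∀ n, 5 ≤ n → c₀ n = C n (letI := algC (hk n); 1))
    (χ : (letI := algC hkK; (↥K ≃ₐ[kk A B] ↥K) →* (IsLocalRing.ResidueField V)ˣ)) (n₀ : ℕ),
    ∃ n, n₀ ≤ n ∧ I3Q (IsLocalRing.ResidueField V) 2 (kk A B) K Bn hkK χ n (hk n) (c₀ n) (mem n)

/-- THE RESULT of block IR: the inputs of block K. Module of helper36. -/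
def Sr_INP : Prop :=
  ∀ (A B : ℤ) (P : Ideal (OO A B)) (V : ValuationSubring ℂ) (f : ℕ), SetQ A B P V f →
    TorX A B → ∀ (ι : Type) [Fintype ι] (R : Reps A B (2 * f) ι) (u el a1 a3 : ℂ),
    GoodQ V (R.L R.i0) u el a1 a3 →
    ∀ (K₀ K : IntermediateField ℚ ℂ) (Bn : ℕ → IntermediateField ℚ ℂ)
    [FiniteDimensional ℚ (kk A B)] [FiniteDimensional ℚ K] [∀ n, FiniteDimensional ℚ ↥(K ⊔ Bn n)]
    (_ : SetY 2 (kk A B) K₀ K Bn)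
    (_ : ∀ y ∈ K₀, y ∈ RF (idl (A := A) (B := B) (lvX 2 f 0)))
    (hk : ∀ n, kk A B ≤ K ⊔ Bn n) (hk₀ : ∀ n, kk A B ≤ K₀ ⊔ Bn n) (hkK : kk A B ≤ K₀)
    (S : Finset ℕ) (c c₀ : ℕ → ℂ) (n₁ : ℕ)
    (_ : Pool.Agent.MUXZ.InpW 2 (kk A B) K₀ K Bn hk hk₀ S c c₀ n₁)
    (C : ∀ n, (letI := algC (hk₀ n); ↥(K₀ ⊔ Bn n) ≃ₐ[kk A B] ↥(K₀ ⊔ Bn n)) → ℂ)
    (_ : ∀ n, 5 ≤ n → EInpQ V f R u n (hk₀ n) (C n))
    (_ : ∀ n, 5 ≤ n → c₀ n = C n (letI := algC (hk₀ n); 1)),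
    InpX (IsLocalRing.ResidueField V) 2 (kk A B) K₀ K Bn hk hk₀ hkK S c c₀ n₁

end

end Pool.Agent.N2IR
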