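import Pool.Agent.NS.ZL
import Pool.Agent.N2.StIR

/-!
# MUX-2R, block IR, INWY: the inputs from block W, first level 1 (helper41)

`Pool/Agent/NS/ZL.lean` (`tl_INW`), the same proof; the order of the automorphism in the field `nrm` is from ORDY.
-/

set_option autoImplicit false

open NumberField IsDedekindDomain

namespace Pool.Agent.N2IR

open _root_.MU3 Pool.Agent.MU3 Pool.Agent.MU3A Pool.Agent.MU3B Pool.Agent.RI Pool.Agent.RID
  Pool.Agent.MUX Pool.Agent.MUXK Pool.Agent.MUXI Pool.Agent.NSI Pool.Agent.N2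
open Pool.Agent.MUXJ Pool.Agent.MUXW Pool.Agent.MUXZ
open Pool.Agent.MU3I (w3 zt)
open Pool.Agent.MU3V (Sub GD)

noncomputable section

open Pool.Agent.MUXZ.Z_INW in
/-- the inputs from block W, first level 1 -/
theorem tr_INWY (hORD : Sr_ORDY) (hLVX : Pool.Agent.NSZ.Zl_LVX) (hLVF : Sn_SUB) (hMEM : Sy_MEM)
    (hTOW : Sy_TOW) (hSUC : Sy_SUC) (hI1 : Sy_I1) (hKOL : Sy_KOL) : Sr_INWY := by
  intro p A B f hS T ι _ R H θ hθ K₀ K Bn _ _ _ hX hKF hHK hk hk₀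
  have hp : p.Prime := by
    rcases hS.hp with h | h
    · rw [h]; exact Nat.prime_two
    · rw [h]; exact Nat.prime_three
  have : Fact p.Prime := ⟨hp⟩
  have hc : MUX.CQ A B := hS.cq
  have hnl : IsNL (⊤ : Ideal (OO A B)) (R.L R.i0) (R.om R.i0) := by
    have h1 := R.nl R.i0
    rw [R.b0] at h1
    exact h1
  have hNL : NLex A B := ⟨_, _, _, hnl⟩
  have hm0 : ∀ n, lvX p f n ≠ 0 := fun n => (hLVX p A B f hS n).1
  have hsub : ∀ n, Sub (K ⊔ Bn n) (RF (idl (A := A) (B := B) (lvX p f n))) := fun n =>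
    hLVF p A B f hS T hNL K hKF n (Bn n) (hX.b.lay n)
  have hsub₀ : ∀ n, Sub (K₀ ⊔ Bn n) (RF (idl (A := A) (B := B) (lvX p f n))) := fun n =>
    hLVF p A B f hS T hNL K₀ (fun y hy => hKF y (hX.le hy)) n (Bn n) (hX.b.lay n)
  have hM := fun n => hMEM A B (RF (idl (A := A) (B := B) (lvX p f n))) (T.fin _ (idl_ne (hm0 n)))
    (T.gal _ (idl_ne (hm0 n))) (T.comm _ (idl_ne (hm0 n))) (K ⊔ Bn n) (hk n) (hsub n) (θ n)
    (hθ.ne n)
  have hM₀ := fun n => hMEM A B (RF (idl (A := A) (B := B) (lvX p f n)))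
    (T.fin _ (idl_ne (hm0 n))) (T.gal _ (idl_ne (hm0 n))) (T.comm _ (idl_ne (hm0 n)))
    (K₀ ⊔ Bn n) (hk₀ n) (hsub₀ n) (θ n) (hθ.ne n)
  have hmem : ∀ n, cW (hk n) (θ n) ∈ K ⊔ Bn n := by
    intro n
    rw [(hM n).1]
    exact ((hM n).2.1 _).1
  have hne : ∀ n, cW (hk n) (θ n) ≠ 0 := by
    intro n
    rw [(hM n).1]
    exact ((hM n).2.1 _).2
  have hmem₀ : ∀ n, cW (hk₀ n) (θ n) ∈ K₀ ⊔ Bn n := by
    intro n
    rw [(hM₀ n).1]
    exact ((hM₀ n).2.1 _).1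
  obtain ⟨n0, hn0, hSUC'⟩ := hSUC A B hc T (R.L R.i0) (R.om R.i0) hnl
  obtain ⟨n1, hn1, hKOL'⟩ := hKOL A B hc T (p * f) ι R
  have ha0 : aX p f ≠ 0 := by
    intro h0
    have h1 := (hLVX p A B f hS 0).2.2.2.2.2.1
    rw [h0] at h1
    exact absurd h1 (by decide)
  have haZ : (aX p f : ℤ) ≠ 0 := by exact_mod_cast ha0
  have hhalf : IsHalf (R.L R.i0) ((aX p f : ℤ) : ℂ) (H R.i0) := by
    have h1 := hθ.half R.i0
    rw [Int.cast_natCast]
    exact h1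
  have hcopO : ∀ n, IsCoprime ((aX p f : ℤ) : OO A B) ((lvX p f n : ℕ) : OO A B) := fun n =>
    (hLVX p A B f hS n).2.2.2.2.2.2.2.1
  have hfn0 := hS.f0
  set S : Finset ℕ := n0.primeFactors ∪ n1.primeFactors ∪ (aX p f).primeFactors ∪
    (p * f).primeFactors with hSdef
  have hSprime : ∀ q ∈ S, q.Prime := by
    intro q hq
    rw [hSdef] at hq
    simp only [Finset.mem_union] at hq
    rcases hq with ((h | h) | h) | h <;> exact Nat.prime_of_mem_primeFactors h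
  have hS0 : ∀ q : ℕ, q.Prime → q ∣ n0 → q ∈ S := by
    intro q hq hd
    rw [hSdef]
    simp only [Finset.mem_union]
    exact Or.inl (Or.inl (Or.inl (Nat.mem_primeFactors.2 ⟨hq, hd, hn0⟩)))
  have hS1 : ∀ q : ℕ, q.Prime → q ∣ n1 → q ∈ S := by
    intro q hq hd
    rw [hSdef]
    simp only [Finset.mem_union]
    exact Or.inl (Or.inl (Or.inr (Nat.mem_primeFactors.2 ⟨hq, hd, hn1⟩)))
  have hSa : ∀ q : ℕ, q.Prime → (q : ℤ) ∣ (aX p f : ℤ) → q ∈ S := by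
    intro q hq hd
    have h1 : q ∣ aX p f := by exact_mod_cast hd
    rw [hSdef]
    simp only [Finset.mem_union]
    exact Or.inl (Or.inr (Nat.mem_primeFactors.2 ⟨hq, h1, ha0⟩))
  have hSm : ∀ n, ∀ q : ℕ, q.Prime → (q : ℤ) ∣ nm ((lvX p f n : ℕ) : OO A B) → q ∈ S := by
    intro n q hq hd
    have h1 := (hLVX p A B f hS n).2.2.2.2.2.2.2.2.1 q hq hd
    rw [hSdef]
    simp only [Finset.mem_union]
    exact Or.inr (Nat.mem_primeFactors.2 ⟨hq, h1, mul_ne_zero hp.ne_zero hfn0⟩)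
  have hHas : ∀ n, HasH A B (K ⊔ Bn n) := fun n x hx =>
    (le_sup_left : K ≤ K ⊔ Bn n) (hHK x hx)
  refine ⟨S, ?_⟩
  constructor
  case mem => exact hmem
  case ne => exact hne
  case mem₀ => exact hmem₀
  case norm =>
    intro n
    exact hTOW A B (RF (idl (A := A) (B := B) (lvX p f n))) (T.fin _ (idl_ne (hm0 n)))
      (T.gal _ (idl_ne (hm0 n))) (T.comm _ (idl_ne (hm0 n))) (K₀ ⊔ Bn n) (K ⊔ Bn n) (hk₀ n) (hk n)
      (sup_le_sup_right hX.le _) (hsub n) (θ n) (hθ.ne n) (hmem n)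
  case prime => exact hSprime
  case su =>
    intro n _
    exact hSUC' _ (natO_ne (hm0 n)) (hLVX p A B f hS n).2.2.2.2.1 (aX p f : ℤ) (H R.i0) haZ
      (hcopO n) hhalf S hS0 hSa (hSm n) (θ n) (hθ.om n) (K ⊔ Bn n) (hk n) (hsub n) _ rfl
  case nrm =>
    intro n hn1'
    let akD : Algebra (kk A B) ↥(K ⊔ Bn n) := algC (hk n)
    let akL : Algebra (kk A B) ↥(K ⊔ Bn (n + 1)) := algC (hk (n + 1))
    intro σ hσ
    have hle : K ⊔ Bn n ≤ K ⊔ Bn (n + 1) := sup_le_sup_left (hX.b.mono (Nat.le_succ n)) K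
    have hord : orderOf σ = p := (hORD p (kk A B) K Bn hX.b n hn1' (hk (n + 1))).2 σ hσ
    have hlev : ((lvX p f (n + 1) : ℕ) : OO A B) = (p : OO A B) * ((lvX p f n : ℕ) : OO A B) := by
      rw [(hLVX p A B f hS n).2.1]
      push_cast
      rfl
    have hbm : (p : OO A B) ∣ ((lvX p f n : ℕ) : OO A B) := by
      obtain ⟨t, ht⟩ := (hLVX p A B f hS n).2.2.1
      rw [ht]
      push_cast
      exact dvd_mul_right _ _
    obtain ⟨C, hCH, hC0, hCe⟩ := i1' hI1 A B hc T (R.L R.i0) (R.om R.i0) hnl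
      ((lvX p f n : ℕ) : OO A B) (p : OO A B) ((lvX p f (n + 1) : ℕ) : OO A B) hlev
      (natO_ne (hm0 n)) hbm (hLVX p A B f hS n).2.2.2.1 (aX p f : ℤ) (H R.i0) haZ (hcopO n)
      hhalf (θ n) (θ (n + 1)) (hθ.om n) (hθ.om (n + 1)) (K ⊔ Bn n) (K ⊔ Bn (n + 1)) (hk n)
      (hk (n + 1)) hle (hHas n) (hsub n) (hsub (n + 1)) p σ hσ hord hp.ne_zero
      ⟨cW (hk (n + 1)) (θ (n + 1)), hmem (n + 1)⟩ rfl
    exact ⟨C, hHK C hCH, hC0, hCe⟩
  case kol =>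
    intro n _
    let akD : Algebra (kk A B) ↥(K ⊔ Bn n) := algC (hk n)
    have h1 := hKOL' p hp _ (natO_ne (hm0 n)) (hLVX p A B f hS n).2.2.2.1 (aX p f : ℤ)
      (H R.i0) haZ (hcopO n) hhalf S hS1 hSa (hSm n) (θ n) (hθ.om n) (K ⊔ Bn n) (hk n) (hHas n)
      (hsub n) ⟨cW (hk n) (θ n), hmem n⟩ rfl
    refine KolInP.mono ?_ h1
    intro g hg x hx
    exact hg x (hHK _ hx)

end

end Pool.Agent.N2IR
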