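import Pool.Agent.N2.StIR
import Pool.Agent.NS.I_LEM1

/-!
# MUX-2R, block IR, module LEM1Y: one level is enough, constants in the first layer (helper36)

As `Pool/Agent/NS/I_LEM1.lean`.
-/

set_option autoImplicit false

open NumberField IsDedekindDomain Finset
open scoped nonZeroDivisors Pointwise

namespace Pool.Agent.N2IR

open Pool.Agent.MU3 Pool.Agent.RI Pool.Agent.RID Pool.Agent.MUXK Pool.Agent.NSI
open Pool.Agent.NSI.LEM1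

namespace LEM1Y

variable {k L : Type} [Field k] [Field L] [Algebra k L]

theorem coreY {M : Type} [Field M] [Algebra k M] (p : ℕ) [hp : Fact p.Prime] (j : M →+* L)
    (r : (L ≃ₐ[k] L) →* (M ≃ₐ[k] M))
    (hr : ∀ (σ : L ≃ₐ[k] L) (x : M), j (r σ x) = σ (j x))
    (comm : ∀ σ τ : L ≃ₐ[k] L, σ * τ = τ * σ) (γ : L ≃ₐ[k] L) (m n N : ℕ) (hmn : m ≤ n)
    (hN : N ≤ p ^ n - p ^ m)
    (hfix : ∀ x : L, (γ ^ (p ^ m)) x = x ↔ ∃ z : M, j z = x)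
    (D : Subgroup (L ≃ₐ[k] L)) [Fintype D] (D' : Subgroup (M ≃ₐ[k] M)) [Fintype D']
    (e : D ≃* D') (he : ∀ δ : D, ((e δ : D') : M ≃ₐ[k] M) = r δ)
    (cn : L) (hcn : cn ≠ 0) (cm : M) (hcm : cm ≠ 0) (C : L) (hC : C ≠ 0)
    (hCγ : (γ ^ p) C = C) (hCm : ∃ z : M, j z = C)
    (hnrm : ∏ i ∈ range (p ^ (n - m)), (γ ^ (p ^ m * i)) cn = C * j cm)
    (hω : ∀ w : L, w ^ p = 1 → γ w = w) (b : D → ℕ) (b' : D' → ℕ)
    (hb : ∀ δ, b δ = b' (e δ)) (y : L)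
    (hy : y ^ p = ∏ δ : D, ((δ : L ≃ₐ[k] L) ((Tg γ)^[N] cn)) ^ b δ) :
    ∃ t : M, t ^ p = ∏ δ : D', ((δ : M ≃ₐ[k] M) (Tg ((r γ) ^ p) cm)) ^ b' δ := by
  have hp0 : p ≠ 0 := hp.out.ne_zero
  -- apply `T ^ (Q - N)`
  obtain ⟨i, hi⟩ := Nat.exists_eq_add_of_le hN
  have hy1 : ((Tg γ)^[i] y) ^ p =
      ∏ δ : D, ((δ : L ≃ₐ[k] L) ((Tg γ)^[p ^ n - p ^ m] cn)) ^ b δ := by
    rw [← K_TNX.iter_pow, hy, Tg_prod_iter comm, ← Function.iterate_add_apply, hi, Nat.add_comm i N]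
  obtain ⟨w, hw0, hw⟩ := norm_id p γ m n hmn hcn
  rw [hnrm] at hw
  rw [hw] at hy1
  set y1 : L := (Tg γ)^[i] y with hy1d
  set W : L := ∏ δ : D, ((δ : L ≃ₐ[k] L) w) ^ b δ with hW
  have hW0 : W ≠ 0 := by
    rw [hW, prod_ne_zero_iff]
    intro δ _
    exact pow_ne_zero _ ((map_ne_zero _).mpr hw0)
  set s : L := ∏ δ : D, ((δ : L ≃ₐ[k] L) (C * j cm)) ^ b δ with hs
  have hjcm : j cm ≠ 0 := (map_ne_zero _).mpr hcm
  have hs0 : s ≠ 0 := by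
    rw [hs, prod_ne_zero_iff]
    intro δ _
    exact pow_ne_zero _ ((map_ne_zero _).mpr (mul_ne_zero hC hjcm))
  have hy2 : (y1 / W) ^ p = s := by
    rw [div_pow, div_eq_iff (pow_ne_zero _ hW0), hy1, hW, hs, ← prod_pow, ← prod_mul_distrib]
    refine prod_congr rfl fun δ _ => ?_
    rw [map_mul _ (C * j cm) (w ^ p), map_pow, mul_pow]
    congr 1
    rw [← pow_mul, ← pow_mul, mul_comm]
  set y2 : L := y1 / W with hy2d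
  have hy20 : y2 ≠ 0 := by
    intro h
    rw [h, zero_pow hp0] at hy2
    exact hs0 hy2.symm
  -- `T s`
  have hCTg : Tg (γ ^ p) (C * j cm) = j (Tg ((r γ) ^ p) cm) := by
    unfold Tg
    rw [map_mul, hCγ, mul_div_mul_left _ _ hC, map_div₀, ← map_pow, hr]
  have hTs : Tg (γ ^ p) s = j (∏ δ : D', ((δ : M ≃ₐ[k] M) (Tg ((r γ) ^ p) cm)) ^ b' δ) := by
    rw [hs, Tg_prod comm, hCTg, map_prod, ← e.toEquiv.prod_comp]
    refine prod_congr rfl fun δ _ => ?_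
    rw [map_pow, hb δ]
    congr 1
    rw [← hr]
    congr 1
    show (r δ) _ = ((e δ : D') : M ≃ₐ[k] M) _
    rw [he]
  -- `h` fixes `s`
  set h : L ≃ₐ[k] L := γ ^ (p ^ m) with hh
  have hhC : h C = C := (hfix C).2 hCm
  have hhj : ∀ z : M, h (j z) = j z := fun z => (hfix _).2 ⟨z, rfl⟩
  have hhδ : ∀ δ : D, h ((δ : L ≃ₐ[k] L) (C * j cm)) = (δ : L ≃ₐ[k] L) (C * j cm) := by
    intro δ
    have e3 : h ((δ : L ≃ₐ[k] L) (C * j cm)) = (δ : L ≃ₐ[k] L) (h (C * j cm)) :=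
      congrArg (fun f : L ≃ₐ[k] L => f (C * j cm)) (comm h (δ : L ≃ₐ[k] L))
    rw [e3, map_mul, hhC, hhj]
  have hhs : h s = s := by
    rw [hs, map_prod]
    refine prod_congr rfl fun δ _ => ?_
    rw [map_pow, hhδ]
  have hhy : h y2 ≠ 0 := (map_ne_zero _).mpr hy20
  have hw3 : (h y2 / y2) ^ p = 1 := by
    rw [div_pow, ← map_pow, hy2, hhs, div_self hs0]
  have hwγ : (γ ^ p) (h y2 / y2) = h y2 / y2 := by
    have h5 : ∀ i : ℕ, (γ ^ i) (h y2 / y2) = h y2 / y2 := by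
      intro i
      induction i with
      | zero => rfl
      | succ i ih => rw [pow_succ, AlgEquiv.mul_apply, hω _ hw3, ih]
    exact h5 _
  have hcomm : ∀ x : L, h ((γ ^ p) x) = (γ ^ p) (h x) := fun x =>
    congrArg (fun f : L ≃ₐ[k] L => f x) (comm h (γ ^ p))
  have hγy : (γ ^ p) y2 ≠ 0 := (map_ne_zero _).mpr hy20
  have ht : h (Tg (γ ^ p) y2) = Tg (γ ^ p) y2 := by
    unfold Tg
    rw [map_div₀, hcomm]
    rw [map_div₀] at hwγ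
    rw [div_eq_div_iff hγy hy20] at hwγ
    rw [div_eq_div_iff hhy hy20, hwγ, mul_comm]
  obtain ⟨t, htj⟩ := (hfix _).mp ht
  refine ⟨t, ?_⟩
  apply j.injective
  rw [map_pow, htj, ← hTs, ← hy2, K_TNX.Tg_pow]

end LEM1Y

/-- (LEM1Y) one level is enough -/
theorem tr_LEM1Y (h1 : S_GALX) (h2 : S_RSX) : Sr_LEM1Y := by
  intro F _ p hp k K B _ _ hB hcop hom hk hkK c₀ mem hne n₁ hN χ h3 N n₀
  obtain ⟨m, hm1, hm2⟩ := h3 (n₁ + 1)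
  have hpos : 0 < p := hp.out.pos
  obtain ⟨n, hn⟩ : ∃ n, n = m + (N + n₀) := ⟨_, rfl⟩
  refine ⟨n, by omega, ?_⟩
  have hmn : m ≤ n := by omega
  have hQ : N ≤ p ^ n - p ^ m := by
    have e1 : p ^ n - p ^ m = p ^ m * (p ^ (N + n₀) - 1) := by
      rw [hn, pow_add, Nat.mul_sub, mul_one]
    have e2 : 1 ≤ p ^ m := Nat.one_le_pow _ _ hpos
    have e3 : N + n₀ < p ^ (N + n₀) := Nat.lt_pow_self hp.out.one_lt
    rw [e1]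
    calc N ≤ 1 * (p ^ (N + n₀) - 1) := by omega
      _ ≤ p ^ m * (p ^ (N + n₀) - 1) := Nat.mul_le_mul_right _ e2
  let _ := algC (hk n)
  let _ := algC (hk m)
  let _ := algC hkK
  intro γ hγ _ r hr
  have hsub : K ⊔ B m ≤ K ⊔ B n := sup_le_sup_left (hB.mono hmn) K
  obtain ⟨r', hr', hrγ, e, he⟩ := h2 p k K B hB hcop m n hmn (hk n) (hk m) hsub
  obtain ⟨ρm, hρm⟩ := I3X19.restr h2 p k K B hB hcop hkK m (hk m)
  obtain ⟨hr1, hr2⟩ := hrγ γ hγ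
  let _ : Fintype (NC (hk m) (B m)) := Fintype.ofEquiv _ e.toEquiv
  obtain ⟨θ, hθ⟩ := hm2 (r' γ) hr1 (fun δ => ρm δ) hρm
  have hρ : ∀ δ, ρm (e δ) = r δ := by
    intro δ
    refine AlgEquiv.ext fun x => Subtype.ext ?_
    have hx1 : (x : ℂ) ∈ K ⊔ B m := le_sup_left (a := K) x.2
    rw [← hρm (e δ) x ⟨x, hx1⟩ rfl, ← hr δ x ⟨x, hsub hx1⟩ rfl, he]
    exact hr' _ ⟨x, hx1⟩
  refine ⟨θ, fun y hy => ?_⟩
  obtain ⟨ω, hωK, hω1⟩ := hom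
  obtain ⟨C, hCk, hC0, hC⟩ := hN m n (by omega) (by omega) hmn γ hγ
  have hB1m : K ⊔ B 1 ≤ K ⊔ B m := sup_le_sup_left (hB.mono (by omega)) K
  have hKn : K ⊔ B 1 ≤ K ⊔ B n := hB1m.trans hsub
  obtain ⟨j, hj⟩ := LEM1.incl hsub
  have hj' : ∀ z : ↥(K ⊔ B m), j z = ⟨z, hsub z.2⟩ := fun z => Subtype.ext (hj z)
  have b1 : ∀ (σ : ↥(K ⊔ B n) ≃ₐ[k] ↥(K ⊔ B n)) (x : ↥(K ⊔ B m)), j (r' σ x) = σ (j x) := by
    intro σ x
    apply Subtype.ext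
    rw [hj, hr', hj']
  have b2 : ∀ x : ↥(K ⊔ B n), (γ ^ (p ^ m)) x = x ↔ ∃ z : ↥(K ⊔ B m), j z = x := by
    intro x
    rw [hr2 x]
    constructor
    · intro hx
      exact ⟨⟨x, hx⟩, Subtype.ext (hj _)⟩
    · rintro ⟨z, rfl⟩
      rw [hj]
      exact z.2
  have b3 : (⟨C, hKn hCk⟩ : ↥(K ⊔ B n)) ≠ 0 := by
    intro h; exact hC0 (congrArg Subtype.val h)
  have b4 : (γ ^ p) (⟨C, hKn hCk⟩ : ↥(K ⊔ B n)) = ⟨C, hKn hCk⟩ := by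
    have hsub1 : K ⊔ B 1 ≤ K ⊔ B n := hKn
    have hk1 : k ≤ K ⊔ B 1 := hk 1
    obtain ⟨r1, _, hrγ1, _⟩ := h2 p k K B hB hcop 1 n (by omega) (hk n) hk1 hsub1
    have h5 := (hrγ1 γ hγ).2 ⟨C, hKn hCk⟩
    rw [pow_one] at h5
    exact h5.2 hCk
  have b4' : ∃ z : ↥(K ⊔ B m), j z = (⟨C, hKn hCk⟩ : ↥(K ⊔ B n)) :=
    ⟨⟨C, hB1m hCk⟩, Subtype.ext (hj _)⟩
  have b5 : ∏ i ∈ range (p ^ (n - m)), (γ ^ (p ^ m * i)) ⟨c₀ n, mem n⟩ =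
      ⟨C, hKn hCk⟩ * j ⟨c₀ m, mem m⟩ := by
    apply Subtype.ext
    rw [hC, hj']
    rfl
  have b6 : ∀ w : ↥(K ⊔ B n), w ^ p = 1 → γ w = w := by
    intro w hw
    rw [hγ w]
    have hw' : (w : ℂ) ^ p = 1 := congrArg Subtype.val hw
    have : NeZero p := ⟨hpos.ne'⟩
    obtain ⟨i, _, hi⟩ := hω1.eq_pow_of_pow_eq_one hw'
    rw [← hi]
    exact K.pow_mem hωK i
  have b7 : (⟨c₀ n, mem n⟩ : ↥(K ⊔ B n)) ≠ 0 := by
    intro h; exact hne n (congrArg Subtype.val h)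
  have b8 : (⟨c₀ m, mem m⟩ : ↥(K ⊔ B m)) ≠ 0 := by
    intro h; exact hne m (congrArg Subtype.val h)
  obtain ⟨t, ht⟩ := LEM1Y.coreY (M := ↥(K ⊔ B m)) p
    j r' b1
    (h1 p k K B hB n (hk n)).2 γ m n N hmn hQ b2 (NC (hk n) (B n)) (NC (hk m) (B m)) e he
    ⟨c₀ n, mem n⟩ b7 ⟨c₀ m, mem m⟩ b8 ⟨C, hKn hCk⟩ b3 b4 b4' b5 b6
    (fun δ => (θ ((χ (r δ))⁻¹ : Fˣ)).val) (fun δ => (θ ((χ (ρm δ))⁻¹ : Fˣ)).val)
    (fun δ => by rw [hρ]) y hy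
  exact hθ t ht

end Pool.Agent.N2IR
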