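import Pool.Agent.N2.StIR
import Pool.Agent.MUX.K_NR1

/-!
# MUX-2R, block IR, module LFY: lifting from `K₀ B_n` to `K B_n`, `n ≥ 1`
-/

set_option autoImplicit false

namespace Pool.Agent.N2IR

open _root_.MU3 Pool.Agent.MU3 Pool.Agent.MU3A Pool.Agent.MU3B Pool.Agent.RI Pool.Agent.RID
  Pool.Agent.MUX Pool.Agent.MUXK Pool.Agent.MUXI Pool.Agent.NSI Pool.Agent.N2
open Pool.Agent.MU3I (w3 zt)

/-- (LFY) -/
theorem tr_LFY (h1 : Sr_GALY) (h2 : S_GALX) : Sr_LFY := by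
  intro p _ k K₀ K B _ _ hX₀ hY hle n hn h h₀ hh
  let aL' : Algebra k ↥(K ⊔ B n) := algC h
  let aL : Algebra k ↥(K₀ ⊔ B n) := algC h₀
  intro γ hγ
  obtain ⟨m, rfl⟩ : ∃ m, n = m + 1 := ⟨n - 1, by omega⟩
  have hhj : ∀ j, K₀ ⊔ B j ≤ K ⊔ B j := fun j => sup_le_sup_right hle _
  have fK₀ : FiniteDimensional ℚ K₀ := FiniteDimensional.of_injective
    (IntermediateField.inclusion hle).toLinearMap
    (IntermediateField.inclusion hle).injective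
  have fK₀B : ∀ j, FiniteDimensional ℚ ↥(K₀ ⊔ B j) := fun j => FiniteDimensional.of_injective
    (IntermediateField.inclusion (hhj j)).toLinearMap
    (IntermediateField.inclusion (hhj j)).injective
  have hB1 : B 1 ≤ B (m + 1) := hY.mono (Nat.succ_le_succ (Nat.zero_le m))
  have gal' := (h1 p k K B hY (m + 1) h).1
  have gal := (h2 p k K₀ B hX₀ (m + 1) h₀).1
  have d1 := hY.deg m
  have d3 := hX₀.deg (m + 1)
  have d4 := hX₀.deg 1
  obtain ⟨e, he⟩ := K_NR1.res (A := K₀ ⊔ B 1) (A' := K ⊔ B 1) h₀ h hh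
    (hX₀.hk.trans le_sup_left) (hY.hk.trans le_sup_left) (sup_le_sup_left hB1 K₀)
    (sup_le_sup_left hB1 K) (hhj 1) gal gal'
    (by
      intro ρ q1 q2
      apply GCC.triv h ρ
      · intro x hx
        exact q2 x ((le_sup_left : K ≤ K ⊔ B 1) hx)
      · intro x hx
        exact q1 x ((le_sup_right : B (m + 1) ≤ K₀ ⊔ B (m + 1)) hx))
    (by rw [d1, d3, d4]; ring)
  have hmem : γ ∈ NC h₀ (K₀ ⊔ B 1) := hγ
  refine ⟨((e.symm ⟨γ, hmem⟩ : NC h (K ⊔ B 1)) : ↥(K ⊔ B (m + 1)) ≃ₐ[k] ↥(K ⊔ B (m + 1))),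
    (e.symm ⟨γ, hmem⟩).2, ?_⟩
  intro x
  have h5 := he (e.symm ⟨γ, hmem⟩) x
  rw [Equiv.apply_symm_apply] at h5
  exact h5.symm

end Pool.Agent.N2IR
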