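import Pool.Agent.N2.StIR
import Pool.Agent.MUX.K_NR1

/-!
# MUX-2R, block IR, module NR1Y (helper14): the norm relation for `c₀`, one step, `n ≥ 1`; the constant is in `K₀ B_1`.
After `NS/I_NR1.lean` and `MUX/K_NR1.lean` (helper73).
-/

set_option autoImplicit false

open NumberField IsDedekindDomain Finset
open scoped nonZeroDivisors Pointwise

namespace Pool.Agent.N2IR

open _root_.MU3 Pool.Agent.MU3 Pool.Agent.MU3A Pool.Agent.MU3B Pool.Agent.RI Pool.Agent.RID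
  Pool.Agent.MUX Pool.Agent.MUXK Pool.Agent.MUXI Pool.Agent.NSI Pool.Agent.N2
  Pool.Agent.Lib_helper28.FROB
open Pool.Agent.MU3I (w3 zt)

open Pool.Agent.MUXK.K_NR1 in
/-- the norm relation, one step -/
theorem tr_NR1Y (h1 : Sr_GALY) (h2 : S_GALX) (h3 : Sr_ORDY) (h4 : Sr_LFY) : Sr_NR1Y := by
  intro p _ k K₀ K B _ _ _ _ hX hk hk₀ S c c₀ n₁ hI n hn hn1
  have hpr : p.Prime := Fact.out
  intro σ hσ
  have hBn : B n ≤ B (n + 1) := hX.b.mono (Nat.le_succ n)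
  have hh : ∀ m, K₀ ⊔ B m ≤ K ⊔ B m := fun m => sup_le_sup_right hX.le _
  have hL : K ⊔ B n ≤ K ⊔ B (n + 1) := sup_le_sup_left hBn K
  have hM : K₀ ⊔ B n ≤ K₀ ⊔ B (n + 1) := sup_le_sup_left hBn K₀
  have fK₀ : FiniteDimensional ℚ K₀ := FiniteDimensional.of_injective
    (IntermediateField.inclusion hX.le).toLinearMap
    (IntermediateField.inclusion hX.le).injective
  let aL' : Algebra k ↥(K ⊔ B (n + 1)) := algC (hk (n + 1))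
  let aL : Algebra k ↥(K ⊔ B n) := algC (hk n)
  let aM' : Algebra k ↥(K₀ ⊔ B (n + 1)) := algC (hk₀ (n + 1))
  let aK : Algebra k K := algC hX.b.hk
  obtain ⟨gL', cL'⟩ := h1 p k K B hX.b (n + 1) (hk (n + 1))
  obtain ⟨gL, cL⟩ := h1 p k K B hX.b n (hk n)
  obtain ⟨gM', cM'⟩ := h2 p k K₀ B hX.b0 (n + 1) (hk₀ (n + 1))
  have gK : IsGalois k K := (isGalois_algC hX.b.hk).2 hX.b.gal
  have fdL' : FiniteDimensional k ↥(K ⊔ B (n + 1)) :=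
    Module.Finite.of_restrictScalars_finite ℚ k _
  have fdL : FiniteDimensional k ↥(K ⊔ B n) := Module.Finite.of_restrictScalars_finite ℚ k _
  have fdK : FiniteDimensional k K := Module.Finite.of_restrictScalars_finite ℚ k _
  -- lift
  obtain ⟨τ, hτK, hτ⟩ := h4 p k K₀ K B hX.b0 hX.b hX.le (n + 1) (Nat.le_add_left 1 n)
    (hk (n + 1)) (hk₀ (n + 1)) (hh (n + 1)) σ
    (fun x hx => (hσ x).2 (sup_le_sup_left (hX.b.mono hn1) K₀ hx))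
  -- fixed field of `τ`
  have hτf : ∀ x : ↥(K ⊔ B (n + 1)), τ x = x ↔ (x : ℂ) ∈ K ⊔ B n := by
    have hfixB : ∀ x : ↥(K ⊔ B (n + 1)), (x : ℂ) ∈ B n → τ x = x := by
      intro x hx
      have hx1 : (x : ℂ) ∈ K₀ ⊔ B n := (le_sup_right : B n ≤ K₀ ⊔ B n) hx
      have h5 := hτ ⟨(x : ℂ), hM hx1⟩
      rw [(hσ ⟨(x : ℂ), hM hx1⟩).2 hx1] at h5
      exact Subtype.ext h5
    have hτS : ∀ x : ↥(K ⊔ B (n + 1)), (x : ℂ) ∈ K ⊔ B n → τ x = x := by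
      let aLL : Algebra ↥(K ⊔ B n) ↥(K ⊔ B (n + 1)) := algC hL
      have tLL : IsScalarTower k ↥(K ⊔ B n) ↥(K ⊔ B (n + 1)) := towerC (hk n) hL
      have hres : ∀ (x : ↥(K ⊔ B n)),
          ((AlgEquiv.restrictNormalHom ↥(K ⊔ B n) τ x : ↥(K ⊔ B n)) : ℂ) =
            (τ ⟨(x : ℂ), hL x.2⟩ : ↥(K ⊔ B (n + 1))) := by
        intro x
        exact congrArg Subtype.val (AlgEquiv.restrictNormal_commutes τ ↥(K ⊔ B n) x)
      have hr1 : AlgEquiv.restrictNormalHom ↥(K ⊔ B n) τ = 1 := by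
        apply GCC.triv (hk n)
        · intro x hx
          apply Subtype.ext
          rw [hres, hτK _ ((le_sup_left : K ≤ K ⊔ B 1) hx)]
        · intro x hx
          apply Subtype.ext
          rw [hres, hfixB _ hx]
      intro x hx
      have h5 := hres ⟨(x : ℂ), hx⟩
      rw [hr1] at h5
      exact (Subtype.ext h5).symm
    have hτ1 : τ ≠ 1 := by
      intro h6
      have h7 : K₀ ⊔ B (n + 1) ≤ K₀ ⊔ B n := by
        intro z hz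
        have h8 := hτ ⟨z, hz⟩
        rw [h6] at h8
        exact (hσ ⟨z, hz⟩).1 (Subtype.ext h8.symm)
      have h9 : K₀ ⊔ B (n + 1) = K₀ ⊔ B n := le_antisymm h7 hM
      have d1 := hX.b0.deg (n + 1)
      have d2 := hX.b0.deg n
      rw [h9, d2, pow_succ] at d1
      have d3 : 0 < Module.finrank ℚ K₀ := Module.finrank_pos
      have d4 : 0 < p ^ n := pow_pos hpr.pos n
      have d5 : Module.finrank ℚ K₀ * p ^ n * 1 = Module.finrank ℚ K₀ * p ^ n * p := by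
        rw [mul_one, mul_assoc]
        exact d1
      have d6 := Nat.eq_of_mul_eq_mul_left (Nat.mul_pos d3 d4) d5
      exact hpr.one_lt.ne d6
    exact (h3 p k K B hX.b n hn1 (hk (n + 1))).1 τ hτS hτ1
  obtain ⟨C, hC, hC0, hCe⟩ := hI.nrm n hn τ hτf
  -- powers of `τ` and `σ`
  have hpow : ∀ (i : ℕ) (x : ↥(K₀ ⊔ B (n + 1))),
      (((τ ^ i) ⟨(x : ℂ), hh (n + 1) x.2⟩ : ↥(K ⊔ B (n + 1))) : ℂ) =
        (((σ ^ i) x : ↥(K₀ ⊔ B (n + 1))) : ℂ) := by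
    intro i
    induction i with
    | zero =>
      intro x
      rfl
    | succ i ih =>
      intro x
      rw [pow_succ, pow_succ, AlgEquiv.mul_apply, AlgEquiv.mul_apply, ← ih (σ x)]
      congr 2
      exact Subtype.ext (hτ x)
  -- the groups
  have d1 := hX.b.deg n
  have d2 : Module.finrank ℚ ↥(K ⊔ B n) = Module.finrank ℚ ↥(K ⊔ B 1) * p ^ (n - 1) := by
    have := hX.b.deg (n - 1)
    rwa [Nat.sub_add_cancel hn1] at this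
  have d3 := hX.b0.deg (n + 1)
  have d4 := hX.b0.deg n
  have d5 : p ^ n = p ^ (n - 1) * p := by rw [← pow_succ, Nat.sub_add_cancel hn1]
  obtain ⟨e, he⟩ := res (A := K₀ ⊔ B n) (A' := K₀ ⊔ B (n + 1)) (hk n) (hk (n + 1)) hL (hk₀ n)
    (hk₀ (n + 1)) (hh n) (hh (n + 1)) hM gL gL'
    (by
      intro ρ q1 q2
      apply GCC.triv (hk (n + 1)) ρ
      · intro x hx
        exact q1 x ((le_sup_left : K ≤ K ⊔ B n) hx)
      · intro x hx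
        exact q2 x ((le_sup_right : B (n + 1) ≤ K₀ ⊔ B (n + 1)) hx))
    (by rw [d1, d2, d3, d4, pow_succ, d5]; ring)
  have fP : Fintype (NC (hk (n + 1)) (K₀ ⊔ B (n + 1))) := Fintype.ofFinite _
  have fQ : Fintype (NC (hk n) (K₀ ⊔ B n)) := Fintype.ofFinite _
  have pr1 : ∀ x : ↥(K ⊔ B n), ((∏ g : NC (hk (n + 1)) (K₀ ⊔ B (n + 1)),
      (g : ↥(K ⊔ B (n + 1)) ≃ₐ[k] ↥(K ⊔ B (n + 1))) ⟨(x : ℂ), hL x.2⟩ : ↥(K ⊔ B (n + 1))) : ℂ) =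
      ∏ g : NC (hk n) (K₀ ⊔ B n), (((g : ↥(K ⊔ B n) ≃ₐ[k] ↥(K ⊔ B n)) x : ↥(K ⊔ B n)) : ℂ) := by
    intro x
    refine (map_prod (K ⊔ B (n + 1)).val _ _).trans ?_
    exact Fintype.prod_equiv e _ _ (fun g => (he g x).symm)
  -- `c₀ (n + 1)` and `c₀ n`
  have hc' : (⟨c₀ (n + 1), hh (n + 1) (hI.mem₀ (n + 1))⟩ : ↥(K ⊔ B (n + 1))) =
      ∏ g : NC (hk (n + 1)) (K₀ ⊔ B (n + 1)),
        (g : ↥(K ⊔ B (n + 1)) ≃ₐ[k] ↥(K ⊔ B (n + 1))) ⟨c (n + 1), hI.mem (n + 1)⟩ := by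
    apply Subtype.ext
    refine Eq.trans ?_ (map_prod (K ⊔ B (n + 1)).val _ _).symm
    have h5 := hI.norm (n + 1)
    rw [finprod_eq_prod_of_fintype] at h5
    exact h5
  have hc : c₀ n = ∏ g : NC (hk n) (K₀ ⊔ B n),
      (((g : ↥(K ⊔ B n) ≃ₐ[k] ↥(K ⊔ B n)) ⟨c n, hI.mem n⟩ : ↥(K ⊔ B n)) : ℂ) := by
    have h5 := hI.norm n
    rw [finprod_eq_prod_of_fintype] at h5
    exact h5
  -- the constant
  have hCL : C ∈ K ⊔ B (n + 1) := (le_sup_left : K ≤ K ⊔ B (n + 1)) hC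
  let y : ↥(K ⊔ B (n + 1)) := ∏ g : NC (hk (n + 1)) (K₀ ⊔ B (n + 1)),
    (g : ↥(K ⊔ B (n + 1)) ≃ₐ[k] ↥(K ⊔ B (n + 1))) ⟨C, hCL⟩
  have hyK : (y : ℂ) ∈ K := by
    let aKL : Algebra K ↥(K ⊔ B (n + 1)) := algC le_sup_left
    have tKL : IsScalarTower k K ↥(K ⊔ B (n + 1)) := towerC hX.b.hk le_sup_left
    have e1 : (y : ℂ) = ∏ g : NC (hk (n + 1)) (K₀ ⊔ B (n + 1)),
        (((g : ↥(K ⊔ B (n + 1)) ≃ₐ[k] ↥(K ⊔ B (n + 1))) ⟨C, hCL⟩ : ↥(K ⊔ B (n + 1))) : ℂ) :=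
      map_prod (K ⊔ B (n + 1)).val _ _
    rw [e1]
    refine prod_mem fun g _ => ?_
    have e2 := congrArg (fun t : ↥(K ⊔ B (n + 1)) => (t : ℂ))
      (AlgEquiv.restrictNormal_commutes
        (g : ↥(K ⊔ B (n + 1)) ≃ₐ[k] ↥(K ⊔ B (n + 1))) ↥K ⟨C, hC⟩)
    have e3 : (((g : ↥(K ⊔ B (n + 1)) ≃ₐ[k] ↥(K ⊔ B (n + 1))) ⟨C, hCL⟩ :
        ↥(K ⊔ B (n + 1))) : ℂ) = ((AlgEquiv.restrictNormal
          (g : ↥(K ⊔ B (n + 1)) ≃ₐ[k] ↥(K ⊔ B (n + 1))) ↥K ⟨C, hC⟩ : ↥K) : ℂ) := e2.symm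
    rw [e3]
    exact Subtype.mem _
  have hyM : (y : ℂ) ∈ K₀ ⊔ B (n + 1) := by
    apply mem_of_fixed (hk (n + 1)) (hk₀ (n + 1)) gL' y
    intro s hs
    show s (∏ g : NC (hk (n + 1)) (K₀ ⊔ B (n + 1)),
      (g : ↥(K ⊔ B (n + 1)) ≃ₐ[k] ↥(K ⊔ B (n + 1))) ⟨C, hCL⟩) = _
    rw [map_prod]
    exact Fintype.prod_equiv
      (Equiv.mulLeft (⟨s, hs⟩ : NC (hk (n + 1)) (K₀ ⊔ B (n + 1)))) _ _ (fun g => rfl)
  have hkB : k ≤ K₀ ⊔ B 1 := hX.b0.hk.trans le_sup_left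
  have hy : (y : ℂ) ∈ K₀ ⊔ B 1 := by
    refine mem_of_fixed (hk₀ (n + 1)) hkB gM' (⟨(y : ℂ), hyM⟩ : ↥(K₀ ⊔ B (n + 1))) ?_
    intro ρ hρ
    obtain ⟨ρ', hρ1, hρ2⟩ := h4 p k K₀ K B hX.b0 hX.b hX.le (n + 1) (Nat.le_add_left 1 n)
      (hk (n + 1)) (hk₀ (n + 1)) (hh (n + 1)) ρ (fun x hx => hρ x hx)
    apply Subtype.ext
    rw [← hρ2 ⟨(y : ℂ), hyM⟩]
    have e4 : (⟨(y : ℂ), hh (n + 1) hyM⟩ : ↥(K ⊔ B (n + 1))) = y := rfl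
    rw [e4, hρ1 y ((le_sup_left : K ≤ K ⊔ B 1) hyK)]
  have hy0 : (y : ℂ) ≠ 0 := by
    have h5 : y ≠ 0 := by
      apply Finset.prod_ne_zero_iff.2
      intro g _ h6
      have h7 : (⟨C, hCL⟩ : ↥(K ⊔ B (n + 1))) = 0 := by
        have h8 : (g : ↥(K ⊔ B (n + 1)) ≃ₐ[k] ↥(K ⊔ B (n + 1))) ⟨C, hCL⟩ =
            (g : ↥(K ⊔ B (n + 1)) ≃ₐ[k] ↥(K ⊔ B (n + 1))) 0 := by rw [h6, map_zero]
        exact (g : ↥(K ⊔ B (n + 1)) ≃ₐ[k] ↥(K ⊔ B (n + 1))).injective h8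
      exact hC0 (congrArg Subtype.val h7)
    intro h6
    exact h5 (Subtype.ext h6)
  refine ⟨y, hy, hy0, ?_⟩
  -- the computation
  have s1 : ∏ i ∈ range p, (((σ ^ i) ⟨c₀ (n + 1), hI.mem₀ (n + 1)⟩ : ↥(K₀ ⊔ B (n + 1))) : ℂ) =
      ((∏ i ∈ range p, (τ ^ i) ⟨c₀ (n + 1), hh (n + 1) (hI.mem₀ (n + 1))⟩ :
        ↥(K ⊔ B (n + 1))) : ℂ) := by
    refine Eq.trans ?_ (map_prod (K ⊔ B (n + 1)).val _ _).symm
    exact Finset.prod_congr rfl fun i _ => (hpow i ⟨c₀ (n + 1), hI.mem₀ (n + 1)⟩).symm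
  have s2 : (∏ i ∈ range p, (τ ^ i) ⟨c (n + 1), hI.mem (n + 1)⟩ : ↥(K ⊔ B (n + 1))) =
      ⟨C, (le_sup_left : K ≤ K ⊔ B (n + 1)) hC⟩ * ⟨c n, hL (hI.mem n)⟩ := by
    apply Subtype.ext
    refine (map_prod (K ⊔ B (n + 1)).val _ _).trans ?_
    exact hCe
  have s3 : (∏ i ∈ range p, (τ ^ i) ⟨c₀ (n + 1), hh (n + 1) (hI.mem₀ (n + 1))⟩ :
        ↥(K ⊔ B (n + 1))) =
      (∏ g : NC (hk (n + 1)) (K₀ ⊔ B (n + 1)), (g : ↥(K ⊔ B (n + 1)) ≃ₐ[k] ↥(K ⊔ B (n + 1)))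
        ⟨C, (le_sup_left : K ≤ K ⊔ B (n + 1)) hC⟩) *
      ∏ g : NC (hk (n + 1)) (K₀ ⊔ B (n + 1)), (g : ↥(K ⊔ B (n + 1)) ≃ₐ[k] ↥(K ⊔ B (n + 1)))
        ⟨c n, hL (hI.mem n)⟩ := by
    rw [hc', ← Finset.prod_mul_distrib]
    simp only [map_prod]
    rw [Finset.prod_comm]
    refine Finset.prod_congr rfl fun g _ => ?_
    rw [← map_mul, ← s2, map_prod]
    refine Finset.prod_congr rfl fun i _ => ?_
    rw [← AlgEquiv.mul_apply, ← AlgEquiv.mul_apply, cL']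
  have hcoe : ∀ (x y : ↥(K ⊔ B (n + 1))), ((x * y : ↥(K ⊔ B (n + 1))) : ℂ) = (x : ℂ) * (y : ℂ) :=
    fun x y => rfl
  rw [s1, s3, hcoe, pr1 ⟨c n, hI.mem n⟩, ← hc]

end Pool.Agent.N2IR
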