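import Pool.Agent.N2.StIR
import Pool.Agent.MUX.K_NR1

/-!
# MUX-2R, block IR, module ORDY (helper12): the automorphisms of `K B_(n+1)` with fixed field `K B_n`
-/

set_option autoImplicit false

namespace Pool.Agent.N2IR

open _root_.MU3 Pool.Agent.MU3 Pool.Agent.MU3A Pool.Agent.MU3B Pool.Agent.RI Pool.Agent.RID
  Pool.Agent.MUX Pool.Agent.MUXK Pool.Agent.MUXI Pool.Agent.NSI Pool.Agent.N2

noncomputable section

theorem tr_ORDY (h1 : Sr_GALY) : Sr_ORDY := by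
  intro p _ k K B _ _ hB n hn h
  have hpr : p.Prime := Fact.out
  obtain ⟨n', rfl⟩ : ∃ n', n = n' + 1 := ⟨n - 1, by omega⟩
  have hle : K ⊔ B (n' + 1) ≤ K ⊔ B (n' + 1 + 1) := sup_le_sup_left (hB.mono (Nat.le_succ _)) K
  have hkA : k ≤ K ⊔ B (n' + 1) := hB.hk.trans le_sup_left
  let akL : Algebra k ↥(K ⊔ B (n' + 1 + 1)) := algC h
  obtain ⟨gal, -⟩ := h1 p k K B hB (n' + 1 + 1) h
  have fdL : FiniteDimensional k ↥(K ⊔ B (n' + 1 + 1)) :=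
    Module.Finite.of_restrictScalars_finite ℚ k _
  have hcard : Nat.card (NC h (K ⊔ B (n' + 1))) = p := by
    have e1 := K_NR1.card_NC h hkA hle gal
    rw [hB.deg (n' + 1), hB.deg n', pow_succ] at e1
    have p1 : 0 < Module.finrank ℚ ↥(K ⊔ B 1) := Module.finrank_pos
    have p2 : 0 < Module.finrank ℚ ↥(K ⊔ B 1) * p ^ n' := Nat.mul_pos p1 (pow_pos hpr.pos _)
    refine Nat.eq_of_mul_eq_mul_right p2 ?_
    rw [e1]
    ring
  have hmem : ∀ σ : ↥(K ⊔ B (n' + 1 + 1)) ≃ₐ[k] ↥(K ⊔ B (n' + 1 + 1)),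
      (∀ x : ↥(K ⊔ B (n' + 1 + 1)), (x : ℂ) ∈ K ⊔ B (n' + 1) → σ x = x) →
      σ ∈ NC h (K ⊔ B (n' + 1)) := fun σ hσ => hσ
  have hgen : ∀ σ : ↥(K ⊔ B (n' + 1 + 1)) ≃ₐ[k] ↥(K ⊔ B (n' + 1 + 1)),
      σ ∈ NC h (K ⊔ B (n' + 1)) → σ ≠ 1 →
      orderOf σ = p ∧ Subgroup.zpowers σ = NC h (K ⊔ B (n' + 1)) := by
    intro σ hσ h1
    have hz : Subgroup.zpowers σ ≤ NC h (K ⊔ B (n' + 1)) := by rwa [Subgroup.zpowers_le]
    have hd : orderOf σ ∣ p := by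
      rw [← Nat.card_zpowers, ← hcard]
      exact Subgroup.card_dvd_of_le hz
    have ho : orderOf σ = p := by
      rcases (Nat.dvd_prime hpr).1 hd with h2 | h2
      · exact absurd (orderOf_eq_one_iff.1 h2) h1
      · exact h2
    refine ⟨ho, ?_⟩
    apply Subgroup.eq_of_le_of_card_ge hz
    rw [hcard, Nat.card_zpowers, ho]
  refine ⟨?_, ?_⟩
  · intro σ hσ hσ1 x
    refine ⟨fun hx => ?_, hσ x⟩
    obtain ⟨-, hz⟩ := hgen σ (hmem σ hσ) hσ1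
    refine K_NR1.mem_of_fixed h hkA gal x ?_
    intro τ hτ
    rw [← hz] at hτ
    obtain ⟨j, hj⟩ := hτ
    have h2 : σ ∈ MulAction.stabilizer
        (↥(K ⊔ B (n' + 1 + 1)) ≃ₐ[k] ↥(K ⊔ B (n' + 1 + 1))) x := hx
    have h4 := zpow_mem h2 j
    have hj' : σ ^ j = τ := hj
    rw [hj'] at h4
    exact h4
  · intro σ hσ
    refine (hgen σ (hmem σ fun x hx => (hσ x).2 hx) ?_).1
    rintro rfl
    have h7 : K ⊔ B (n' + 1 + 1) ≤ K ⊔ B (n' + 1) := fun z hz => (hσ ⟨z, hz⟩).1 rfl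
    have h9 : K ⊔ B (n' + 1 + 1) = K ⊔ B (n' + 1) := le_antisymm h7 hle
    have d1 := hB.deg (n' + 1)
    have d2 := hB.deg n'
    rw [h9, d2, pow_succ] at d1
    have p1 : 0 < Module.finrank ℚ ↥(K ⊔ B 1) := Module.finrank_pos
    have p2 : 0 < Module.finrank ℚ ↥(K ⊔ B 1) * p ^ n' := Nat.mul_pos p1 (pow_pos hpr.pos _)
    have d5 : Module.finrank ℚ ↥(K ⊔ B 1) * p ^ n' * 1 =
        Module.finrank ℚ ↥(K ⊔ B 1) * p ^ n' * p := by
      rw [mul_one, mul_assoc]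
      exact d1
    exact hpr.one_lt.ne (Nat.eq_of_mul_eq_mul_left p2 d5)

end

end Pool.Agent.N2IR
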