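import Pool.Agent.N2.IAllT
import Pool.Agent.N2.IR_EPQ
import Pool.Agent.N2.IR_GALY
import Pool.Agent.N2.IR_ORDY
import Pool.Agent.N2.IR_LFY
import Pool.Agent.N2.IR_INWY
import Pool.Agent.N2.IR_NR1Y
import Pool.Agent.N2.IR_NRXY
import Pool.Agent.N2.IR_LEM1Y
import Pool.Agent.N2.IR_I31
import Pool.Agent.N2.IR_INP
import Pool.Agent.N2.IR_INPG

/-!
# MUX-2R, block IR without hypotheses (helper36): `2` ramified, `D ≠ -4`; the inputs are blocks R, E, H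
-/

set_option autoImplicit false

namespace Pool.Agent.N2IR

open Pool.Agent.MUXF Pool.Agent.MUXI Pool.Agent.MUXK Pool.Agent.NSI Pool.Agent.N2
open Pool.Agent.N2I (t_LVX t_THN t_CYC)

theorem r_EPQ : Sr_EPQ := tr_EPQ
theorem r_GALY : Sr_GALY := tr_GALY
theorem r_ORDY : Sr_ORDY := tr_ORDY r_GALY
theorem r_LFY : Sr_LFY := tr_LFY r_GALY k_GALX
theorem r_INWY : Sr_INWY :=
  tr_INWY r_ORDY t_LVX n_SUB MUXW.z_MEM MUXW.z_TOW MUXW.z_SUC MUXW.z_I1 MUXW.z_KOL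
theorem r_NR1Y : Sr_NR1Y := tr_NR1Y r_GALY k_GALX r_ORDY r_LFY
theorem r_NRXY : Sr_NRXY := tr_NRXY r_NR1Y k_RSX
theorem r_LEM1Y : Sr_LEM1Y := tr_LEM1Y k_GALX k_RSX

theorem r_I31 (hH : SQ_HFIN) : Sr_I31 :=
  tr_I31 Pool.Agent.MUXJ.j_RES i_CHI n_FOU Pool.Agent.MU3I.t_ITG r_EPQ n_E0 i_ARF i_XXF n_SUB
    i_GAM n_XMX i_BIJ n_TH i_GEN hH k_GALX

theorem r_INP (hH : SQ_HFIN) : Sr_INP := tr_INP (r_I31 hH) r_LEM1Y r_NRXY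

/-- the result of block IR -/
theorem r_INPG (hRF : SQ_RFIN) (hEF : SQ_EFIN) (hH : SQ_HFIN) : SQ_INPG :=
  tr_INPG hRF hEF (r_INP hH) t_CYC t_LVX r_INWY n_SUB t_THN MUXW.z_MEM MUXW.z_CXS MUXY.z_REX

end Pool.Agent.N2IR
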