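import Pool.Agent.N2.DefsR2
import Pool.Agent.MUX.Kap2
import Mathlib.NumberTheory.LSeries.PrimesInAP
import Mathlib.NumberTheory.LegendreSymbol.JacobiSymbol

/-!
# MUX-2R (helper77): the odd sign character, `2` ramified in `k`, `D ≠ -4`

There is a prime `q ≡ 3` modulo 4 which splits in `k`; `κ` is the quadratic character modulo a prime of degree one above `q`.
-/

set_option autoImplicit false

namespace Pool.Agent.N2

open _root_.MU3 Pool.Agent.MU3 Pool.Agent.MU3A Pool.Agent.MU3B Pool.Agent.MUX Pool.Agent.MUX2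

noncomputable section

/-- a residue with Jacobi symbol `-1` modulo `n`, `n > 1` odd and squarefree -/
theorem exists_jac_neg {n : ℕ} (hn : Squarefree n) (h2 : n % 2 = 1) (h1 : n ≠ 1) :
    ∃ a : ℕ, jacobiSym a n = -1 := by
  obtain ⟨l, hl, m, rfl⟩ := Nat.exists_prime_and_dvd h1
  have : Fact l.Prime := ⟨hl⟩
  have hl2 : l ≠ 2 := by
    rintro rfl
    omega
  obtain ⟨s, hs⟩ := FiniteField.exists_nonsquare (F := ZMod l) (by
    rw [ZMod.ringChar_zmod_n]; exact hl2)
  have hcop : Nat.Coprime l m := by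
    rw [hl.coprime_iff_not_dvd]
    intro h
    have h3 : l * l ∣ l * m := Nat.mul_dvd_mul_left l h
    have h4 := hn l h3
    rw [Nat.isUnit_iff] at h4
    exact hl.one_lt.ne' h4
  obtain ⟨a, ha1, ha2⟩ := Nat.chineseRemainder hcop s.val 1
  refine ⟨a, ?_⟩
  have hm0 : m ≠ 0 := by
    rintro rfl
    simp at h2
  have : NeZero l := ⟨hl.ne_zero⟩
  have : NeZero m := ⟨hm0⟩
  rw [jacobiSym.mul_right]
  have e1 : jacobiSym (a : ℤ) l = -1 := by
    rw [← jacobiSym.legendreSym.to_jacobiSym, legendreSym.eq_neg_one_iff]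
    have h3 : ((a : ℤ) : ZMod l) = s := by
      have h4 : ((a : ℕ) : ZMod l) = ((s.val : ℕ) : ZMod l) := (ZMod.natCast_eq_natCast_iff _ _ _).2 ha1
      rw [ZMod.natCast_zmod_val] at h4
      rw [Int.cast_natCast]
      exact h4
    rw [h3]
    exact hs
  have e2 : jacobiSym (a : ℤ) m = 1 := by
    have h3 : ((a : ℤ) % (m : ℤ)) = ((1 : ℤ) % (m : ℤ)) := by
      have := ha2
      unfold Nat.ModEq at this
      exact_mod_cast this
    rw [jacobiSym.mod_left' h3]
    exact jacobiSym.one_left m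
  rw [e1, e2, mul_one]

/-- a prime `q ≡ 3` modulo 4 which splits in `k` -/
theorem exists_split {A B : ℤ} (hC : CaseR2 A B) :
    ∃ (q : ℕ) (r : ℤ), q.Prime ∧ q % 4 = 3 ∧ (q : ℤ) ∣ r ^ 2 - A := by
  have hB := hC.b0
  have hneg := hC.neg
  rw [hB] at hneg
  obtain ⟨hsq, -⟩ := hC.fund0 hB
  rcases hC.mod with h | h
  · -- `A` even
    have hpos : 0 < 1 - A := by omega
    have h4 : (1 - A).toNat % 4 = 3 := by omega
    obtain ⟨q, hq, hq3, hqd⟩ := exists_three_mod_four h4
    refine ⟨q, 1, hq, hq3, ?_⟩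
    have h5 : (((1 - A).toNat : ℕ) : ℤ) = 1 - A := Int.toNat_of_nonneg hpos.le
    have h6 : (q : ℤ) ∣ (((1 - A).toNat : ℕ) : ℤ) := by exact_mod_cast hqd
    rw [h5] at h6
    rwa [one_pow]
  · set n : ℕ := A.natAbs with hn
    have hnA : A = -(n : ℤ) := by omega
    have hn4 : n % 4 = 1 := by omega
    have hn1 : n ≠ 1 := by
      intro h1
      apply hC.exc
      rw [hnA, h1]
      norm_num
    have hsn : Squarefree n := Int.squarefree_natAbs.2 hsq
    obtain ⟨a, ha⟩ := exists_jac_neg hsn (by omega) hn1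
    have hcop4 : Nat.Coprime 4 n := by
      have h3 : Nat.Coprime 2 n := by
        rw [Nat.coprime_two_left, Nat.odd_iff]
        omega
      exact Nat.Coprime.pow_left 2 h3
    obtain ⟨c, hc1, hc2⟩ := Nat.chineseRemainder hcop4 3 a
    have hacop : Nat.Coprime a n := by
      by_contra h3
      have h4 : jacobiSym a n = 0 := by
        have : NeZero n := ⟨by omega⟩
        rw [jacobiSym.eq_zero_iff_not_coprime]
        simpa [Int.gcd_natCast_natCast] using h3
      rw [h4] at ha
      norm_num at ha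
    have hccop : Nat.Coprime c (4 * n) := by
      refine Nat.Coprime.mul_right ?_ ?_
      · have h3 : Nat.gcd c 4 = Nat.gcd 3 4 := by
          exact Nat.ModEq.gcd_eq hc1
        unfold Nat.Coprime
        rw [h3]
        norm_num
      · have h3 : Nat.gcd c n = Nat.gcd a n := Nat.ModEq.gcd_eq hc2
        unfold Nat.Coprime
        rw [h3]
        exact hacop
    have : NeZero (4 * n) := ⟨by omega⟩
    obtain ⟨q, -, hq, hqc⟩ := Nat.forall_exists_prime_gt_and_eq_mod
      (q := 4 * n) (a := ((c : ℕ) : ZMod (4 * n))) ((ZMod.isUnit_iff_coprime c (4 * n)).2 hccop) 0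
    have hq1 : q ≡ c [MOD 4 * n] := (ZMod.natCast_eq_natCast_iff _ _ _).1 hqc
    have hq4 : q ≡ 3 [MOD 4] := (Nat.ModEq.of_mul_right n hq1).trans hc1
    have hqn : q ≡ a [MOD n] := (Nat.ModEq.of_mul_left 4 hq1).trans hc2
    have hq3 : q % 4 = 3 := by
      have := hq4
      unfold Nat.ModEq at this
      omega
    have : Fact q.Prime := ⟨hq⟩
    have hqo : Odd q := by rw [Nat.odd_iff]; omega
    have j1 : jacobiSym (n : ℤ) q = -1 := by
      rw [jacobiSym.quadratic_reciprocity_one_mod_four hn4 hqo]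
      have h3 : ((q : ℤ) % (n : ℤ)) = ((a : ℤ) % (n : ℤ)) := by
        have := hqn
        unfold Nat.ModEq at this
        exact_mod_cast this
      rw [jacobiSym.mod_left' h3]
      exact ha
    have j2 : jacobiSym A q = 1 := by
      rw [hnA, jacobiSym.neg _ hqo, j1, ZMod.χ₄_nat_three_mod_four hq3]
      norm_num
    rw [← jacobiSym.legendreSym.to_jacobiSym] at j2
    have hA0 : ((A : ℤ) : ZMod q) ≠ 0 := by
      intro h0
      rw [(legendreSym.eq_zero_iff q A).2 h0] at j2
      norm_num at j2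
    obtain ⟨y, hy⟩ := (legendreSym.eq_one_iff q hA0).1 j2
    refine ⟨q, (y.val : ℤ), hq, hq3, ?_⟩
    rw [← ZMod.intCast_zmod_eq_zero_iff_dvd]
    push_cast
    rw [ZMod.natCast_zmod_val, hy]
    ring

theorem sq_KAP : SQ_KAP := by
  intro A B hC
  obtain ⟨q, r, hq, hq3, hr⟩ := exists_split hC
  have hB := hC.b0
  subst hB
  have hneg := hC.neg
  have hmod := hC.mod
  obtain ⟨hsq, -⟩ := hC.fund0 rfl
  have hq2 : q ≠ 2 := by rintro rfl; norm_num at hq3
  have : Fact q.Prime := ⟨hq⟩
  set n : ℕ := if A % 4 = 3 then A.natAbs else A.natAbs / 2 with hn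
  have hn2 : n % 2 = 1 := by
    rw [hn]
    split_ifs <;> omega
  have hnD : absD A 0 ∣ 8 * (n : ℤ) := by
    have e1 : absD A 0 = 4 * (A.natAbs : ℤ) := by
      unfold absD
      omega
    rw [e1, hn]
    split_ifs with h
    · exact ⟨2, by ring⟩
    · refine ⟨1, ?_⟩
      have : (A.natAbs : ℤ) = 2 * ((A.natAbs / 2 : ℕ) : ℤ) := by omega
      push_cast at this ⊢
      linarith
  refine ⟨3 * q * n, ?_, ?_, ?_, ?_⟩
  · refine mul_ne_zero (mul_ne_zero (by norm_num) hq.ne_zero) ?_
    omega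
  · intro h
    rcases (Nat.Prime.dvd_mul Nat.prime_two).1 h with h1 | h1
    · rcases (Nat.Prime.dvd_mul Nat.prime_two).1 h1 with h3 | h3
      · norm_num at h3
      · exact hq2 ((Nat.prime_dvd_prime_iff_eq Nat.prime_two hq).1 h3).symm
    · omega
  · obtain ⟨t, ht⟩ := hnD
    refine ⟨q * t, ?_⟩
    push_cast
    linear_combination (3 * (q : ℤ)) * ht
  have hw : (r : ZMod q) * (r : ZMod q) = (A : ZMod q) := by
    have h1 := (ZMod.intCast_zmod_eq_zero_iff_dvd _ q).2 hr
    push_cast at h1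
    linear_combination h1
  -- the homomorphism `w ↦ r`
  let φ : OO A 0 → ZMod q := fun x => (x.re : ZMod q) + (x.im : ZMod q) * (r : ZMod q)
  have φmul : ∀ x y, φ (x * y) = φ x * φ y := by
    intro x y
    simp only [φ, QuadraticAlgebra.re_mul, QuadraticAlgebra.im_mul]
    push_cast
    linear_combination (-(x.im : ZMod q) * (y.im : ZMod q)) * hw
  have r1 : (1 : OO A 0).re = 1 := rfl
  have i1 : (1 : OO A 0).im = 0 := rfl
  have φone : φ 1 = 1 := by
    simp only [φ, r1, i1]; push_cast; ring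
  have φneg : φ (-1) = -1 := by
    simp only [φ, QuadraticAlgebra.re_neg, QuadraticAlgebra.im_neg, r1, i1]; push_cast; ring
  have φsub : ∀ x y, φ (x - y) = φ x - φ y := by
    intro x y
    simp only [φ, QuadraticAlgebra.re_sub, QuadraticAlgebra.im_sub]
    push_cast; ring
  have φadd : ∀ x y, φ (x + y) = φ x + φ y := by
    intro x y
    simp only [φ, QuadraticAlgebra.re_add, QuadraticAlgebra.im_add]
    push_cast; ring
  have φD : ∀ x, x ∈ idl (A := A) (B := 0) (3 * q * n) → φ x = 0 := by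
    intro x hx
    obtain ⟨c, rfl⟩ := Ideal.mem_span_singleton'.1 hx
    rw [φmul]
    have h1 : φ (((3 * q * n : ℕ) : ℕ) : OO A 0) = 0 := by
      have h2 : ((((3 * q * n : ℕ) : ℕ) : OO A 0)).re = ((3 * q * n : ℕ) : ℤ) := by
        rw [QuadraticAlgebra.re_natCast]
      have h3 : ((((3 * q * n : ℕ) : ℕ) : OO A 0)).im = 0 := by
        rw [QuadraticAlgebra.im_natCast]
      simp only [φ, h2, h3]
      push_cast
      rw [ZMod.natCast_self]
      ring
    rw [h1, mul_zero]
  refine ⟨fun x => quadraticChar (ZMod q) (φ x), ⟨?_, ?_, ?_, ?_, ?_⟩⟩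
  · simp only [φone, map_one]
  · intro x y; simp only [φmul, map_mul]
  · simp only [φneg]
    rw [quadraticChar_neg_one (by rw [ZMod.ringChar_zmod_n]; exact hq2), ZMod.card]
    exact ZMod.χ₄_nat_three_mod_four hq3
  · intro x y hxy
    have h1 := φD _ hxy
    rw [φsub, sub_eq_zero] at h1
    simp only [h1]
  · intro x hx
    have h1 : φ x ≠ 0 := by
      intro h0
      obtain ⟨a, ha, b, hb, hab⟩ := Ideal.isCoprime_iff_exists.1 hx
      obtain ⟨c, rfl⟩ := Ideal.mem_span_singleton'.1 ha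
      have h2 : φ (c * x + b) = 1 := by rw [hab, φone]
      rw [φadd, φmul, h0, mul_zero, zero_add, φD b hb] at h2
      exact zero_ne_one h2
    exact quadraticChar_dichotomy h1

end

end Pool.Agent.N2
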