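import Pool.Agent.N2.StE2
import Pool.Agent.MUX.E_GAL

/-!
# MUX-2N, block E2N, module AUT: automorphisms of `ℂ` which act as a principal ideal. Model:
`Pool/Agent/MUX/E_GAL.lean` (helper44), whose lemmas are used
-/

set_option autoImplicit false

open Polynomial

namespace Pool.Agent.N2E

open _root_.MU3 Pool.Agent.MU3A Pool.Agent.MU3B Pool.Agent.MUX Pool.Agent.MUXU Pool.Agent.MUXE
open Pool.Agent.RI Pool.Agent.NS Pool.Agent.N2
open Pool.Agent.NSE (IntP)
open Pool.Agent.MUX2 (GRG)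
open Pool.Agent.MUXV (InK tX)

noncomputable section

/-- (AUT) -/
theorem td_AUT : Sd_AUT := by
  intro A B hR T hN m hm c hc0 hc
  obtain ⟨s, hs, hact⟩ := T.surj m hm (sp c)
    (fun h => hc0 (Ideal.span_singleton_eq_bot.1 h)) hc
  obtain ⟨L₀, b₀, om₀, hL₀⟩ := hN
  obtain ⟨b₁, L₁, om₁, mu₁, hL₁, hA₁⟩ := hact b₀ L₀ om₀ hL₀
  refine ⟨s, hs, ?_, ?_, ?_, ?_⟩
  · rintro L ⟨b, om, hL⟩
    obtain ⟨b', L', om', mu, hL', hA⟩ := hact b L om hL
    rw [← hA.kap, (GalX.core hR hL hL' hA.isq).1]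
  · rintro L ⟨b, om, hL⟩ z hz hz'
    obtain ⟨b', L', om', mu, hL', hA⟩ := hact b L om hL
    obtain ⟨h1, h2, h3, h4⟩ := GalX.core hR hL hL' hA.isq
    rcases hA.act z hz with ⟨h5, -⟩ | ⟨-, h6, h7, -⟩
    · exact absurd h5 hz'
    · rw [← h3] at h6
      have h8 : emb c * z ∉ L.lattice := by
        rcases h2 with h | h
        · rw [← h]
          exact h6
        · intro h9
          apply h6
          rw [h, neg_mul]
          exact neg_mem h9
      refine ⟨h8, ?_⟩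
      rw [h7]
      unfold xn
      rw [h4]
      rcases h2 with h | h
      · rw [h]
      · rw [h, neg_mul, L.weierstrassP_neg]
  · intro m' hmm hc1 y hy
    have hm' : m' ≠ ⊥ := by
      intro h0
      exact hm (le_bot_iff.1 (h0 ▸ hmm))
    have hA' : ActI s m' (sp c) L₀ L₁ mu₁ := by
      refine ⟨hA₁.kap, ?_, hA₁.isq, fun z hz => hA₁.act z fun x hx => hz x (hmm hx)⟩
      rw [Ideal.isCoprime_iff_sup_eq] at hc ⊢
      rw [eq_top_iff, ← hc]
      exact sup_le_sup_left hmm _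
    exact (T.triv m' (sp c) s b₀ L₀ L₁ om₀ mu₁ hm' hs hL₀ hA' hL₁.nrm).2 ⟨c, hc1, rfl⟩ y hy
  · intro M hM hmM z hz
    exact (T.zeta M m (sp c) s b₀ L₀ L₁ om₀ mu₁ hm hs hM hmM hL₀ hA₁ z hz).2

end

end Pool.Agent.N2E
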