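import Pool.Agent.N2.StE2
import Pool.Agent.MUX.E_TRA

/-!
# MUX-2N, block E2N, module GTA: automorphisms of `ℂ` act on `Θ_a(z)` (helper95; after `MUX/E_GTH.lean`)
-/

set_option autoImplicit false

open Polynomial

namespace Pool.Agent.N2E

open _root_.MU3 Pool.Agent.MU3A Pool.Agent.MU3B Pool.Agent.MUX Pool.Agent.MUXU Pool.Agent.MUXE
open Pool.Agent.RI Pool.Agent.NS Pool.Agent.N2

noncomputable section

/-- (GTA) the automorphism acts on `Θ_a` -/
theorem td_GTA : Sd_GTA := by
  intro A B hR L hL a H hH m hm c s hs hac z hz hzL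
  obtain ⟨t1, -, -, -, -, -, -, -, t9⟩ := te_TRA A B hR L hL
  obtain ⟨φ, hφ⟩ := hR.hom
  have emul : ∀ x y : OO A B, emb (x * y) = emb x * emb y := by
    intro x y
    rw [← hφ, ← hφ, ← hφ, map_mul]
  have eadd : ∀ x y : OO A B, emb (x + y) = emb x + emb y := by
    intro x y
    rw [← hφ, ← hφ, ← hφ, map_add]
  have eone : emb (1 : OO A B) = 1 := by rw [← hφ, map_one]
  have enat : ∀ n : ℕ, emb (n : OO A B) = n := by
    intro n
    rw [← hφ, map_natCast]
  have hgen : ∀ x ∈ sp (a : OO A B), ∃ k : OO A B, x = k * (a : OO A B) := by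
    intro x hx
    obtain ⟨k, hk⟩ := Ideal.mem_span_singleton'.1 hx
    exact ⟨k, hk.symm⟩
  have hq : ∀ q ∈ H, Tor m L q ∧ q ∉ L.lattice := by
    intro q hqH
    constructor
    · intro x hx
      obtain ⟨k, hk⟩ := hgen x (hm hx)
      rw [hk, emul, enat, mul_assoc]
      exact t1 k _ (hH.mem q hqH)
    · intro h0
      refine hH.ne q hqH ?_
      rw [two_mul]
      exact add_mem h0 h0
  have hcq : ∀ q ∈ H, xn L (emb c * q) = xn L q := by
    intro q hqH
    obtain ⟨k, hk⟩ := hgen _ hac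
    have h2 : q - emb c * q ∈ L.lattice := by
      have h3 : c = 1 + k * (a : OO A B) := by rw [← hk]; ring
      have h4 : q - emb c * q = -(emb k * ((a : ℂ) * q)) := by
        rw [h3, eadd, eone, emul, enat]
        ring
      rw [h4]
      exact neg_mem (t1 k _ (hH.mem q hqH))
    exact (((t9 q (emb c * q) h2).2 (hq q hqH).2).1).symm
  have hTh : ∀ z, ThetaH L H z = ∏ q ∈ H, (xn L z - xn L q) := by
    intro z
    unfold ThetaH
    refine Finset.prod_congr rfl fun q _ => ?_
    unfold xn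
    ring
  rw [hTh, hTh, map_prod]
  refine Finset.prod_congr rfl fun q hqH => ?_
  rw [map_sub, (hs.xn L hL z hz hzL).2, (hs.xn L hL q (hq q hqH).1 (hq q hqH).2).2, hcq q hqH]

end

end Pool.Agent.N2E
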