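import Pool.Agent.N2.StE2

/-!
# MUX-2N, block E2N, module LAG (helper52): a polynomial over `V` with many zeros has a small derivative at a zero
-/

set_option autoImplicit false

open Polynomial

namespace Pool.Agent.N2E

open Pool.Agent.NSE (IntP)

namespace LAG

variable {V : ValuationSubring ℂ}

lemma iff {P : ℂ[X]} : IntP V P ↔ ∃ p : V[X], p.map (algebraMap V ℂ) = P := by
  constructor
  · intro h
    have hl : P ∈ Polynomial.lifts (algebraMap V ℂ) := by
      rw [Polynomial.lifts_iff_coeff_lifts]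
      intro n
      exact ⟨⟨P.coeff n, (V.valuation_le_one_iff _).1 (h n)⟩, rfl⟩
    obtain ⟨p, hp⟩ := (Polynomial.mem_lifts P).1 hl
    exact ⟨p, hp⟩
  · rintro ⟨p, rfl⟩ n
    rw [Polynomial.coeff_map]
    exact (V.valuation_le_one_iff _).2 (p.coeff n).2

lemma iC {c : ℂ} (hc : V.valuation c ≤ 1) : IntP V (C c) :=
  iff.2 ⟨C ⟨c, (V.valuation_le_one_iff _).1 hc⟩, by rw [Polynomial.map_C]; rfl⟩

lemma isub {P Q : ℂ[X]} (hP : IntP V P) (hQ : IntP V Q) : IntP V (P - Q) := by
  obtain ⟨p, rfl⟩ := iff.1 hP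
  obtain ⟨q, rfl⟩ := iff.1 hQ
  exact iff.2 ⟨p - q, Polynomial.map_sub _⟩

lemma imul {P Q : ℂ[X]} (hP : IntP V P) (hQ : IntP V Q) : IntP V (P * Q) := by
  obtain ⟨p, rfl⟩ := iff.1 hP
  obtain ⟨q, rfl⟩ := iff.1 hQ
  exact iff.2 ⟨p * q, Polynomial.map_mul _⟩

lemma ev {P : ℂ[X]} (hP : IntP V P) {c : ℂ} (hc : V.valuation c ≤ 1) :
    V.valuation (P.eval c) ≤ 1 := by
  obtain ⟨p, rfl⟩ := iff.1 hP
  have h : (p.map (algebraMap V ℂ)).eval c =
      algebraMap V ℂ (p.eval ⟨c, (V.valuation_le_one_iff _).1 hc⟩) := by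
    rw [Polynomial.eval_map, ← Polynomial.eval₂_at_apply]
    rfl
  rw [h]
  exact (V.valuation_le_one_iff _).2 (p.eval _).2

lemma factor {P : ℂ[X]} (hP : IntP V P) {c : ℂ} (hc : V.valuation c ≤ 1) (h0 : P.eval c = 0) :
    ∃ Q : ℂ[X], IntP V Q ∧ P = (X - C c) * Q := by
  obtain ⟨p, rfl⟩ := iff.1 hP
  have hinj : Function.Injective (algebraMap V ℂ) := fun a b h => Subtype.ext h
  have h : (p.map (algebraMap V ℂ)).eval c =
      algebraMap V ℂ (p.eval ⟨c, (V.valuation_le_one_iff _).1 hc⟩) := by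
    rw [Polynomial.eval_map, ← Polynomial.eval₂_at_apply]
    rfl
  have h1 : p.eval ⟨c, (V.valuation_le_one_iff _).1 hc⟩ = 0 := by
    apply hinj
    rw [← h, h0, map_zero]
  obtain ⟨q, hq⟩ := Polynomial.dvd_iff_isRoot.2 h1
  refine ⟨q.map (algebraMap V ℂ), iff.2 ⟨q, rfl⟩, ?_⟩
  conv_lhs => rw [hq]
  rw [Polynomial.map_mul, Polynomial.map_sub, Polynomial.map_X, Polynomial.map_C]
  rfl

lemma factors (S : Finset ℂ) : ∀ P : ℂ[X], IntP V P → (∀ x ∈ S, V.valuation x ≤ 1) →
    (∀ x ∈ S, P.eval x = 0) → ∃ R : ℂ[X], IntP V R ∧ P = (∏ x ∈ S, (X - C x)) * R := by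
  classical
  induction S using Finset.induction_on with
  | empty =>
    intro P hP _ _
    exact ⟨P, hP, by simp⟩
  | insert a S ha ih =>
    intro P hP hv h0
    obtain ⟨Q, hQ, hPQ⟩ := factor hP (hv a (Finset.mem_insert_self a S))
      (h0 a (Finset.mem_insert_self a S))
    obtain ⟨R, hR, hQR⟩ := ih Q hQ (fun x hx => hv x (Finset.mem_insert_of_mem hx)) (by
      intro x hx
      have h1 := h0 x (Finset.mem_insert_of_mem hx)
      rw [hPQ, eval_mul, eval_sub, eval_X, eval_C] at h1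
      rcases mul_eq_zero.1 h1 with h2 | h2
      · exact absurd (by rw [← sub_eq_zero.1 h2]; exact hx) ha
      · exact h2)
    refine ⟨R, hR, ?_⟩
    rw [Finset.prod_insert ha, hPQ, hQR]
    ring

lemma one (S : Finset ℂ) (x0 : ℂ) (hx : x0 ∉ S) (h0 : V.valuation x0 ≤ 1)
    (hS : ∀ x ∈ S, V.valuation x ≤ 1) (P : ℂ[X]) (hP : IntP V P) (hP0 : P.eval x0 = 0)
    (hPS : ∀ x ∈ S, P.eval x = 0) :
    V.valuation ((derivative P).eval x0) ≤ ∏ x ∈ S, V.valuation (x0 - x) := by
  classical
  obtain ⟨R, hR, hPR⟩ := factors (insert x0 S) P hP (by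
    intro x hx
    rcases Finset.mem_insert.1 hx with h | h
    · rw [h]; exact h0
    · exact hS x h) (by
    intro x hx
    rcases Finset.mem_insert.1 hx with h | h
    · rw [h]; exact hP0
    · exact hPS x h)
  rw [Finset.prod_insert hx, mul_assoc] at hPR
  have h1 : (derivative P).eval x0 = (∏ x ∈ S, (x0 - x)) * R.eval x0 := by
    rw [hPR, derivative_mul, derivative_sub, derivative_X, derivative_C, sub_zero, one_mul,
      eval_add, eval_mul, eval_mul, eval_sub, eval_X, eval_C, sub_self, zero_mul, add_zero,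
      eval_prod]
    simp
  rw [h1, map_mul, map_prod]
  calc (∏ x ∈ S, V.valuation (x0 - x)) * V.valuation (R.eval x0)
      ≤ (∏ x ∈ S, V.valuation (x0 - x)) * 1 := mul_le_mul_right (ev hR h0) _
    _ = _ := mul_one _

end LAG

open LAG in
theorem td_LAG : Sd_LAG := by
  intro V S x0 hx h0 hS
  have two : ∀ (S : Finset ℂ), x0 ∉ S → (∀ x ∈ S, V.valuation x ≤ 1) → ∀ P : ℂ[X], IntP V P →
      (∀ x ∈ S, P.eval x = P.eval x0) →
      V.valuation ((derivative P).eval x0) ≤ ∏ x ∈ S, V.valuation (x0 - x) := by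
    intro S hx hS P hP hPS
    have h1 := one S x0 hx h0 hS (P - C (P.eval x0)) (isub hP (iC (ev hP h0))) (by simp) (by
      intro x hxS
      rw [eval_sub, eval_C, hPS x hxS, sub_self])
    rwa [derivative_sub, derivative_C, sub_zero] at h1
  refine ⟨fun P hP hP0 hPS => one S x0 hx h0 hS P hP hP0 hPS, two S hx hS, ?_, ?_⟩
  · intro P Q hP hQ hPQ
    have h1 := one S x0 hx h0 hS (C (Q.eval x0) * P - C (P.eval x0) * Q)
      (isub (imul (iC (ev hQ h0)) hP) (imul (iC (ev hP h0)) hQ)) (by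
        rw [eval_sub, eval_mul, eval_mul, eval_C, eval_C]
        ring) (by
      intro x hxS
      rw [eval_sub, eval_mul, eval_mul, eval_C, eval_C]
      linear_combination hPQ x hxS)
    have h2 : (derivative (C (Q.eval x0) * P - C (P.eval x0) * Q)).eval x0 =
        (derivative P).eval x0 * Q.eval x0 - P.eval x0 * (derivative Q).eval x0 := by
      rw [derivative_sub, derivative_C_mul, derivative_C_mul, eval_sub, eval_mul, eval_mul, eval_C,
        eval_C]
      ring
    rwa [h2] at h1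
  · intro P Q h κ S' hP hQ hh hκ hx' hS' e0 eS eS'
    have h1 := one S x0 hx h0 hS (P - C κ * (h * h) * Q)
      (isub hP (imul (imul (iC hκ) (imul hh hh)) hQ)) (by
        rw [eval_sub, eval_mul, eval_mul, eval_mul, eval_C, e0]
        ring) (by
      intro x hxS
      rw [eval_sub, eval_mul, eval_mul, eval_mul, eval_C, eS x hxS]
      ring)
    have h2 := two S' hx' hS' h hh eS'
    have h3 : (derivative P).eval x0 * Q.eval x0 - P.eval x0 * (derivative Q).eval x0 =
        2 * (derivative h).eval x0 * (κ * h.eval x0 * Q.eval x0 ^ 2) +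
          (derivative (P - C κ * (h * h) * Q)).eval x0 * Q.eval x0 := by
      rw [derivative_sub, derivative_mul, derivative_C_mul, derivative_mul]
      simp only [eval_sub, eval_mul, eval_add, eval_C]
      rw [e0]
      ring
    rw [h3]
    refine (V.valuation.map_add _ _).trans (max_le_max ?_ ?_)
    · rw [map_mul, map_mul]
      have h4 : V.valuation (κ * h.eval x0 * Q.eval x0 ^ 2) ≤ 1 := by
        rw [map_mul, map_mul, map_pow]
        exact mul_le_one' (mul_le_one' hκ (ev hh h0)) (pow_le_one' (ev hQ h0) 2)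
      calc V.valuation 2 * V.valuation ((derivative h).eval x0) *
            V.valuation (κ * h.eval x0 * Q.eval x0 ^ 2)
          ≤ V.valuation 2 * (∏ x ∈ S', V.valuation (x0 - x)) * 1 :=
            mul_le_mul' (mul_le_mul' le_rfl h2) h4
        _ = _ := mul_one _
    · rw [map_mul]
      calc V.valuation ((derivative (P - C κ * (h * h) * Q)).eval x0) * V.valuation (Q.eval x0)
          ≤ (∏ x ∈ S, V.valuation (x0 - x)) * 1 := mul_le_mul' h1 (ev hQ h0)
        _ = _ := mul_one _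

end Pool.Agent.N2E
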