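import Pool.Agent.N2.StE2

/-!
# MUX-2N, block E2N, module PRD: products of rational functions over a valuation ring (helper48)
-/

set_option autoImplicit false

open Polynomial

namespace Pool.Agent.N2E

open _root_.MU3 Pool.Agent.MU3A Pool.Agent.MU3B Pool.Agent.MUX Pool.Agent.MUXU Pool.Agent.MUXE
open Pool.Agent.RI Pool.Agent.NS Pool.Agent.N2
open Pool.Agent.NSE (IntP)

namespace PRD

variable {V : ValuationSubring ℂ}

theorem ne0 {z : ℂ} (h : V.valuation z = 1) : z ≠ 0 := by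
  rintro rfl
  rw [map_zero] at h
  exact zero_ne_one h

theorem int_one : IntP V (1 : ℂ[X]) := fun i => by
  rw [coeff_one]
  split_ifs
  · rw [map_one]
  · rw [map_zero]; exact zero_le_one

theorem int_mul {P Q : ℂ[X]} (hP : IntP V P) (hQ : IntP V Q) : IntP V (P * Q) := fun i => by
  rw [coeff_mul]
  refine V.valuation.map_sum_le fun k _ => ?_
  rw [map_mul]
  exact mul_le_one' (hP _) (hQ _)

theorem int_pow {P : ℂ[X]} (hP : IntP V P) (k : ℕ) : IntP V (P ^ k) := by
  induction k with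
  | zero => rw [pow_zero]; exact int_one
  | succ k ih => rw [pow_succ]; exact int_mul ih hP

theorem dlg_mul {A B A' B' : ℂ[X]} {x : ℂ} (hA : A.eval x ≠ 0) (hB : B.eval x ≠ 0)
    (hA' : A'.eval x ≠ 0) (hB' : B'.eval x ≠ 0) :
    dlg (A * A') (B * B') x = dlg A B x + dlg A' B' x := by
  unfold dlg
  rw [derivative_mul, derivative_mul, eval_mul, eval_mul, eval_add, eval_add, eval_mul, eval_mul,
    eval_mul, eval_mul]
  field_simp
  ring

theorem dlg_one (x : ℂ) : dlg 1 1 x = 0 := by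
  unfold dlg
  rw [derivative_one, eval_zero]
  ring

theorem dlg_pow {A B : ℂ[X]} {x : ℂ} (hA : A.eval x ≠ 0) (hB : B.eval x ≠ 0) (k : ℕ) :
    dlg (A ^ k) (B ^ k) x = k * dlg A B x := by
  induction k with
  | zero => rw [pow_zero, pow_zero, dlg_one, Nat.cast_zero, zero_mul]
  | succ k ih =>
    rw [pow_succ, pow_succ, dlg_mul (by rw [eval_pow]; exact pow_ne_zero _ hA)
      (by rw [eval_pow]; exact pow_ne_zero _ hB) hA hB, ih]
    push_cast
    ring

theorem dlg_swap (A B : ℂ[X]) (x : ℂ) : dlg B A x = -dlg A B x := by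
  unfold dlg
  rw [mul_comm (A.eval x) (B.eval x), ← neg_div]
  congr 1
  ring

/-- one factor -/
theorem one_factor {P Q : ℂ[X]} (g : ℤ) {T : Set ℂ} (hP : IntP V P) (hQ : IntP V Q)
    (h : ∀ x ∈ T, V.valuation (P.eval x) = 1 ∧ V.valuation (Q.eval x) = 1) :
    ∃ A B : ℂ[X], IntP V A ∧ IntP V B ∧ ∀ x ∈ T,
      V.valuation (A.eval x) = 1 ∧ V.valuation (B.eval x) = 1 ∧
      A.eval x * Q.eval x ^ g = B.eval x * P.eval x ^ g ∧ dlg A B x = (g : ℂ) * dlg P Q x := by
  rcases Int.eq_nat_or_neg g with ⟨k, rfl | rfl⟩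
  · refine ⟨P ^ k, Q ^ k, int_pow hP k, int_pow hQ k, fun x hx => ?_⟩
    obtain ⟨h1, h2⟩ := h x hx
    refine ⟨by rw [eval_pow, map_pow, h1, one_pow], by rw [eval_pow, map_pow, h2, one_pow], ?_, ?_⟩
    · rw [eval_pow, eval_pow, zpow_natCast, zpow_natCast, mul_comm]
    · rw [dlg_pow (ne0 h1) (ne0 h2), Int.cast_natCast]
  · refine ⟨Q ^ k, P ^ k, int_pow hQ k, int_pow hP k, fun x hx => ?_⟩
    obtain ⟨h1, h2⟩ := h x hx
    refine ⟨by rw [eval_pow, map_pow, h2, one_pow], by rw [eval_pow, map_pow, h1, one_pow], ?_, ?_⟩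
    · rw [eval_pow, eval_pow, zpow_neg, zpow_neg, zpow_natCast, zpow_natCast,
        mul_inv_cancel₀ (pow_ne_zero _ (ne0 h2)), mul_inv_cancel₀ (pow_ne_zero _ (ne0 h1))]
    · rw [dlg_pow (ne0 h2) (ne0 h1), dlg_swap P Q]
      push_cast
      ring

end PRD

open PRD in
theorem td_PRD : Sd_PRD := by
  classical
  intro V J s P Q g T
  induction s using Finset.induction_on with
  | empty =>
    intro _
    refine ⟨1, 1, int_one, int_one, fun x _ => ⟨?_, ?_, ?_, ?_⟩⟩
    · rw [eval_one, map_one]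
    · rw [eval_one, map_one]
    · rw [Finset.prod_empty, Finset.prod_empty]
    · rw [Finset.sum_empty, dlg_one]
  | insert j s hj ih =>
    intro h
    obtain ⟨A, B, hA, hB, hAB⟩ := ih fun i hi => h i (Finset.mem_insert_of_mem hi)
    obtain ⟨hP, hQ, hu⟩ := h j (Finset.mem_insert_self j s)
    obtain ⟨A', B', hA', hB', hAB'⟩ := one_factor (g j) hP hQ hu
    refine ⟨A' * A, B' * B, int_mul hA' hA, int_mul hB' hB, fun x hx => ?_⟩
    obtain ⟨a1, b1, e1, d1⟩ := hAB x hx
    obtain ⟨a2, b2, e2, d2⟩ := hAB' x hx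
    refine ⟨by rw [eval_mul, map_mul, a1, a2, one_mul], by rw [eval_mul, map_mul, b1, b2, one_mul],
      ?_, ?_⟩
    · rw [Finset.prod_insert hj, Finset.prod_insert hj, eval_mul, eval_mul]
      calc A'.eval x * A.eval x * ((Q j).eval x ^ g j * ∏ i ∈ s, (Q i).eval x ^ g i)
          = (A'.eval x * (Q j).eval x ^ g j) * (A.eval x * ∏ i ∈ s, (Q i).eval x ^ g i) := by ring
        _ = (B'.eval x * (P j).eval x ^ g j) * (B.eval x * ∏ i ∈ s, (P i).eval x ^ g i) := by
          rw [e1, e2]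
        _ = _ := by ring
    · rw [Finset.sum_insert hj, dlg_mul (ne0 a2) (ne0 b2) (ne0 a1) (ne0 b1), d1, d2]

end Pool.Agent.N2E
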