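import Pool.Agent.N2.StER2
import Pool.Agent.MUX.XLib

/-!
# MUX-2R, block ER2: module CON (helper28), the elements `c = 1 + N b`, `N = 2^(n-1) f a`
-/

set_option autoImplicit false

open Polynomial

namespace Pool.Agent.N2V

open _root_.MU3 Pool.Agent.MU3A Pool.Agent.MU3B Pool.Agent.MUX Pool.Agent.MUXU Pool.Agent.MUXE
open Pool.Agent.RI Pool.Agent.NS Pool.Agent.N2
open Pool.Agent.N2E (cc)

noncomputable section

namespace CON

variable {A B : ℤ} {P : Ideal (OO A B)} {V : ValuationSubring ℂ} {n f a m m' : ℕ}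

/-- numbers -/
theorem nums (h : SetV A B P V n f a m m') :
    m' * a = 4 * NN n f a ∧ m * a = 8 * NN n f a ∧ m = 2 * m' ∧ (∃ r, NN n f a = 8 * r) ∧
      (∃ r, NN n f a = f * a * r) ∧ (∃ r, NN n f a = 4 * f * r) ∧ (∃ r, NN n f a = a * r) ∧
      (∃ r, NN n f a ^ 2 = 2 ^ (n + 2) * r) ∧ (∃ r, m' ^ 2 = 2 ^ (n + 2) * r) ∧
      2 * NN n f a * 2 = m' * a := by
  obtain ⟨k, rfl⟩ : ∃ k, n = k + 5 := ⟨n - 5, by have := h.n5; omega⟩
  have h1 := h.hm
  have h2 := h.hm'
  have h3 : k + 5 - 1 = k + 4 := by omega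
  have h4 : NN (k + 5) f a = 2 ^ (k + 4) * f * a := by rw [NN, h3]
  have h5 : (2 : ℕ) ^ (k + 5 + 2) = 128 * 2 ^ k := by ring
  have h6 : (2 : ℕ) ^ (k + 5 + 1) = 64 * 2 ^ k := by ring
  have h7 : (2 : ℕ) ^ (k + 4) = 16 * 2 ^ k := by ring
  rw [h4, h1, h2, h5, h6, h7]
  refine ⟨by ring, by ring, by ring, ⟨2 * 2 ^ k * f * a, by ring⟩, ⟨16 * 2 ^ k, by ring⟩,
    ⟨4 * 2 ^ k * a, by ring⟩, ⟨16 * 2 ^ k * f, by ring⟩, ⟨2 * 2 ^ k * f ^ 2 * a ^ 2, by ring⟩,
    ⟨32 * 2 ^ k * f ^ 2, by ring⟩, by ring⟩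

theorem Npos (h : SetV A B P V n f a m m') : NN n f a ≠ 0 := by
  have h1 := h.f3
  have h2 := h.a3
  unfold NN
  positivity

theorem m'pos (h : SetV A B P V n f a m m') : m' ≠ 0 := by
  have h1 := h.f3
  rw [h.hm']
  positivity

theorem cast_dvd_mem {d e : ℕ} (h : ∃ r, e = d * r) (b : OO A B) :
    ((e : ℕ) : OO A B) * b ∈ idl (A := A) (B := B) d := by
  obtain ⟨r, rfl⟩ := h
  rw [Ideal.mem_span_singleton]
  exact ⟨(r : OO A B) * b, by push_cast; ring⟩

theorem cc_sub (N : ℕ) (b : OO A B) : cc N b - 1 = (N : OO A B) * b := by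
  unfold cc
  ring

theorem coprime_of {N M : ℕ} (h : ∃ r, N ^ 2 = M * r) (b : OO A B) :
    IsCoprime (cc N b) ((M : ℕ) : OO A B) := by
  have h1 : IsCoprime (cc N b) ((N : ℕ) : OO A B) := by
    refine ⟨1, -b, ?_⟩
    unfold cc
    ring
  have h2 : IsCoprime (cc N b) (((N : ℕ) : OO A B) ^ 2) := h1.pow_right
  obtain ⟨r, hr⟩ := h
  have h3 : ((N : ℕ) : OO A B) ^ 2 = ((M : ℕ) : OO A B) * (r : OO A B) := by
    exact_mod_cast congrArg (fun x : ℕ => (x : OO A B)) hr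
  rw [h3] at h2
  exact h2.of_mul_right_left

theorem cc_ne {N : ℕ} (h : 2 ∣ N) (b : OO A B) : cc N b ≠ 0 := by
  intro h0
  have h1 := congrArg QuadraticAlgebra.re h0
  have h2 : (cc N b).re = 1 + (N : ℤ) * b.re := by
    unfold cc
    simp only [QuadraticAlgebra.re_add, QuadraticAlgebra.re_one, QuadraticAlgebra.re_mul,
      QuadraticAlgebra.re_natCast, QuadraticAlgebra.im_natCast]
    ring
  rw [h2, QuadraticAlgebra.re_zero] at h1
  obtain ⟨r, rfl⟩ := h
  have h3 : (2 : ℤ) ∣ 1 := ⟨-(r * b.re), by push_cast at h1; linarith⟩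
  norm_num at h3

theorem nI_of (hq : CQ A B) {c : OO A B} (hc : c ≠ 0) {M : ℕ} (h : (M : ℤ) ∣ nm c - 1) :
    ∃ j : ℕ, nI (sp c) = 1 + M * j := by
  obtain ⟨j, hj⟩ := h
  have h1 : 0 ≤ nm c := nm_nonneg hq c
  have h2 : nm c ≠ 0 := fun h => hc ((nm_eq_zero hq).1 h)
  rw [nI_sp hq hc]
  by_cases hM : M = 0
  · refine ⟨0, ?_⟩
    subst hM
    simp only [Nat.cast_zero, zero_mul] at hj
    have : nm c = 1 := by linarith
    rw [this]
    simp
  have hM' : (0 : ℤ) < M := by exact_mod_cast Nat.pos_of_ne_zero hM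
  have hj0 : 0 ≤ j := by
    by_contra hneg
    push Not at hneg
    have : (M : ℤ) * j < 0 := mul_neg_of_pos_of_neg hM' hneg
    omega
  refine ⟨j.natAbs, ?_⟩
  zify
  rw [abs_of_nonneg h1, abs_of_nonneg hj0]
  linarith

theorem two_mem (h : CtxU A B P V) : ((2 : ℕ) : OO A B) ∈ P := by
  by_contra hc
  have h1 := h.unit _ hc
  rw [emb_natCast h.cq] at h1
  exact absurd h.v2 (by rw [show (2 : ℂ) = ((2 : ℕ) : ℂ) by norm_num, h1]; exact lt_irrefl _)

theorem v2_ne : V.valuation (2 : ℂ) ≠ 0 := by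
  rw [Valuation.ne_zero_iff]
  norm_num

theorem dR_cases (A : ℤ) : dR A = 2 ∨ dR A = 3 := by
  unfold dR
  split_ifs <;> simp

theorem le_of_sq {x y : V.ValueGroup} (h : x ^ 2 ≤ y ^ 2) : x ≤ y := by
  by_contra hc
  rw [not_le] at hc
  exact absurd h (not_le.2 (pow_lt_pow_left₀ hc zero_le (by norm_num)))

theorem coprime_mem {x : OO A B} {M : ℕ} (h : CtxU A B P V) (hx : IsCoprime x ((M : ℕ) : OO A B))
    (hM : 2 ∣ M) : x ∉ P := by
  intro hxP
  obtain ⟨u, v, huv⟩ := hx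
  obtain ⟨r, rfl⟩ := hM
  have h1 : ((2 * r : ℕ) : OO A B) ∈ P := by
    rw [Nat.cast_mul]
    exact P.mul_mem_right _ (two_mem h)
  have h2 : (1 : OO A B) ∈ P := by
    rw [← huv]
    exact P.add_mem (P.mul_mem_left _ hxP) (P.mul_mem_left _ h1)
  exact h.max.ne_top ((Ideal.eq_top_iff_one _).2 h2)

/-- the valuation of `a w0 x` -/
theorem v_awx (h : CtxU A B P V) (ha : ¬ 2 ∣ a) (x : OO A B) :
    V.valuation (emb ((a : OO A B) * w0 * x)) ^ 2 =
      V.valuation (2 : ℂ) ^ (dR A - 2) * V.valuation (emb x) ^ 2 := by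
  rw [emb_mul h.cq, emb_mul h.cq, emb_natCast h.cq, map_mul, map_mul, h.nat a ha, one_mul, mul_pow]
  congr 1
  exact h.w0

end CON

open CON in
theorem tv_CON : Sv_CON := by
  intro A B P V n f a m m' h
  obtain ⟨e1, e2, e3, e4, e5, e6, e7, e8, e9, e10⟩ := nums h
  have hq := h.ctx.cq
  have hdom : IsDomain (OO A B) := isDomain hq
  have hN := Npos h
  have hm' := m'pos h
  have hN2 : 2 ∣ NN n f a := by
    obtain ⟨r, hr⟩ := e4
    exact ⟨4 * r, by omega⟩
  have hMN : ∃ r, NN n f a ^ 2 = m * a * r := by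
    obtain ⟨r, hr⟩ := e4
    refine ⟨r, ?_⟩
    rw [e2, pow_two]
    conv_lhs => rw [hr]
    rw [hr]
    ring
  have hmN : ∃ r, NN n f a ^ 2 = m * r := by
    obtain ⟨r, hr⟩ := hMN
    exact ⟨a * r, by rw [hr]; ring⟩
  have hB := h.ctx.B0
  have hA : A < 0 := by
    have := hq.neg
    rw [hB] at this
    omega
  have hwre : (w0 : OO A B).re = 0 := rfl
  have hwim : (w0 : OO A B).im = 1 := rfl
  refine ⟨fun b => ⟨?_, ?_, ?_, ?_, ?_, ?_⟩, ⟨?_, ?_⟩, ?_, ?_, ?_, ?_⟩
  · rw [Ideal.isCoprime_span_singleton_iff]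
    exact coprime_of hMN b
  · exact coprime_of hmN b
  · exact cc_ne hN2 b
  · rw [cc_sub]
    exact cast_dvd_mem e5 b
  · rw [cc_sub]
    exact cast_dvd_mem e6 b
  · rw [cc_sub]
    exact cast_dvd_mem e7 b
  · intro k
    refine nI_of hq (cc_ne hN2 _) (M := 2 ^ (n + 2)) ?_
    obtain ⟨r, hr⟩ := e8
    have h1 : nm (cc (NN n f a) ((k : OO A B) * w0)) - 1 = -A * (NN n f a : ℤ) ^ 2 * (k : ℤ) ^ 2 := by
      unfold cc nm
      simp only [QuadraticAlgebra.re_add, QuadraticAlgebra.im_add, QuadraticAlgebra.re_one,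
        QuadraticAlgebra.im_one, QuadraticAlgebra.re_mul, QuadraticAlgebra.im_mul,
        QuadraticAlgebra.re_natCast, QuadraticAlgebra.im_natCast, hwre, hwim, hB]
      ring
    rw [h1]
    have h2 : (NN n f a : ℤ) ^ 2 = (2 ^ (n + 2) : ℕ) * (r : ℤ) := by exact_mod_cast hr
    rw [h2]
    exact ⟨-A * r * k ^ 2, by ring⟩
  · intro b
    have h2m : 2 ∣ m' := ⟨2 ^ n * f, by rw [h.hm']; ring⟩
    refine nI_of hq (cc_ne h2m _) (M := 2 ^ (n + 2)) ?_
    obtain ⟨r, hr⟩ := e9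
    have h1 : nm (cc m' b) - 1 = 2 * (m' : ℤ) * b.re + (m' : ℤ) ^ 2 * (b.re ^ 2 - A * b.im ^ 2) := by
      unfold cc nm
      simp only [QuadraticAlgebra.re_add, QuadraticAlgebra.im_add, QuadraticAlgebra.re_one,
        QuadraticAlgebra.im_one, QuadraticAlgebra.re_mul, QuadraticAlgebra.im_mul,
        QuadraticAlgebra.re_natCast, QuadraticAlgebra.im_natCast, hB]
      ring
    rw [h1]
    have h2 : (m' : ℤ) ^ 2 = (2 ^ (n + 2) : ℕ) * (r : ℤ) := by exact_mod_cast hr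
    have h3 : 2 * (m' : ℤ) = (2 ^ (n + 2) : ℕ) * (f : ℤ) := by
      rw [h.hm']
      push_cast
      ring
    rw [h2, h3]
    exact ⟨f * b.re + r * (b.re ^ 2 - A * b.im ^ 2), by ring⟩
  · intro k l
    have h1 : cc (NN n f a) ((k : OO A B) * w0) * cc (NN n f a) ((l : OO A B) * w0) -
        cc (NN n f a) (((k + l : ℕ) : OO A B) * w0) =
        ((NN n f a ^ 2 : ℕ) : OO A B) * ((k : OO A B) * (l : OO A B) * w0 * w0) := by
      unfold cc
      push_cast
      ring
    rw [h1]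
    exact cast_dvd_mem hMN _
  · rw [cc_sub, e1]
    push_cast
    ring
  · intro x hx hmem
    have hxP : x ∉ P := coprime_mem h.ctx hx ⟨m', e3⟩
    have h1 : cc (NN n f a) (((2 : ℕ) : OO A B) * w0) * x - x =
        ((2 * NN n f a : ℕ) : OO A B) * (w0 * x) := by
      unfold cc
      push_cast
      ring
    rw [h1, Ideal.mem_span_singleton] at hmem
    obtain ⟨y, hy⟩ := hmem
    have h2 : ((m' : ℕ) : OO A B) * ((a : OO A B) * w0 * x) = ((m' : ℕ) : OO A B) * (2 * y) := by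
      have h3 : ((2 * NN n f a * 2 : ℕ) : OO A B) = ((m' * a : ℕ) : OO A B) := by rw [e10]
      push_cast at h3 hy
      linear_combination 2 * hy - (w0 * x) * h3
    have h3 := mul_left_cancel₀ (natCast_ne_zero' hq hm') h2
    have h4 := v_awx h.ctx h.ao x
    rw [h3, h.ctx.unit x hxP, one_pow, mul_one, emb_mul hq, map_mul, mul_pow] at h4
    have h5 : emb (2 : OO A B) = 2 := by
      have := emb_natCast hq 2
      exact_mod_cast this
    rw [h5] at h4
    have hv0 : V.valuation (2 : ℂ) ≠ 0 := v2_ne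
    have hv1 := h.ctx.v2
    have h6 : V.valuation (2 : ℂ) ^ 2 < V.valuation (2 : ℂ) ^ (dR A - 2) := by
      apply pow_lt_pow_right_of_lt_one₀ (zero_lt_iff.2 hv0) hv1
      rcases dR_cases A with h7 | h7 <;> rw [h7] <;> norm_num
    have h7 : V.valuation (2 : ℂ) ^ 2 * V.valuation (emb y) ^ 2 ≤ V.valuation (2 : ℂ) ^ 2 :=
      mul_le_of_le_one_right' (pow_le_one' (h.ctx.int y) 2)
    rw [h4] at h7
    exact absurd h6 (not_lt.2 h7)
  · intro L om hL
    have ham := hL.mem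
    have hm'c : (m' : ℂ) ≠ 0 := by exact_mod_cast hm'
    have hNm : (NN n f a : ℂ) * 4 = m' * a := by
      have : ((m' * a : ℕ) : ℂ) = ((4 * NN n f a : ℕ) : ℂ) := by rw [e1]
      push_cast at this
      linear_combination -this
    have hom := hL.om_ne
    have key : ∀ x : OO A B, emb x * (emb (w0 : OO A B) * (a * om / 4)) ∈ L.lattice ↔
        (a : OO A B) * w0 * x ∈ idl (A := A) (B := B) (2 ^ 2) := by
      intro x
      rw [ham, Ideal.mem_span_singleton]
      constructor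
      · rintro ⟨y, -, hy⟩
        refine ⟨y, ?_⟩
        apply emb_inj hq
        rw [emb_mul hq, emb_mul hq, emb_mul hq, emb_natCast hq, emb_natCast hq]
        have h1 : om * (emb x * emb (w0 : OO A B) * a - 4 * emb y) = 0 := by
          linear_combination 4 * hy
        have h2 := (mul_eq_zero.1 h1).resolve_left hom
        push_cast
        linear_combination h2
      · rintro ⟨y, hy⟩
        refine ⟨y, trivial, ?_⟩
        have h1 := congrArg emb hy
        rw [emb_mul hq, emb_mul hq, emb_mul hq, emb_natCast hq, emb_natCast hq] at h1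
        push_cast at h1
        linear_combination (om / 4) * h1
    have hv0 : V.valuation (2 : ℂ) ≠ 0 := v2_ne
    refine ⟨?_, ?_, ?_, ?_, ?_⟩
    · intro b
      unfold cc
      rw [emb_add hq, emb_one hq, emb_mul hq, emb_natCast hq]
      field_simp
      linear_combination (emb b) * hNm
    · intro k
      rw [emb_mul hq, emb_natCast hq]
      ring
    · intro x hx
      rw [key, h.ctx.dv]
      apply le_of_sq
      rw [v_awx h.ctx h.ao x]
      have h1 := (h.ctx.pw _ _).1 hx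
      refine (mul_le_mul_right h1 _).trans ?_
      rw [← pow_add, ← pow_mul]
      rcases dR_cases A with h7 | h7 <;> rw [h7]
    · intro ht
      obtain ⟨ϖ, hϖ⟩ := h.ctx.pi
      have h1 : ϖ ^ (5 - dR A) ∈ P ^ (5 - dR A) := by
        rw [h.ctx.pw, emb_pow hq, map_pow, ← pow_mul, mul_comm, pow_mul, hϖ]
      have h2 := ht _ h1
      rw [key, h.ctx.dv] at h2
      have h3 := v_awx h.ctx h.ao (ϖ ^ (5 - dR A))
      have h4 : V.valuation (emb (ϖ ^ (5 - dR A))) ^ 2 = V.valuation (2 : ℂ) ^ (5 - dR A) := by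
        rw [emb_pow hq, map_pow, ← pow_mul, mul_comm, pow_mul, hϖ]
      rw [h4, ← pow_add] at h3
      have h5 : dR A - 2 + (5 - dR A) = 3 := by
        rcases dR_cases A with h7 | h7 <;> rw [h7]
      rw [h5] at h3
      have h6 := pow_le_pow_left₀ zero_le h2 2
      rw [h3, ← pow_mul] at h6
      have h7 : V.valuation (2 : ℂ) ^ (2 * 2) < V.valuation (2 : ℂ) ^ 3 :=
        pow_lt_pow_right_of_lt_one₀ (zero_lt_iff.2 hv0) h.ctx.v2 (by norm_num)
      exact absurd h7 (not_lt.2 h6)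
    · intro Y hY
      obtain ⟨b', -, hb'⟩ := (ham _).1 hY
      obtain ⟨r, hr⟩ : ∃ r : ℤ, (a : ℤ) ^ 2 = 1 + 4 * r := by
        have h1 : a % 2 = 1 := by
          have := h.ao
          omega
        obtain ⟨s, hs⟩ : ∃ s, a = 2 * s + 1 := ⟨a / 2, by omega⟩
        refine ⟨(s : ℤ) ^ 2 + s, ?_⟩
        rw [hs]
        push_cast
        ring
      refine ⟨(a : OO A B) * b', ?_⟩
      rw [ham]
      refine ⟨((-r : ℤ) : OO A B) * b', trivial, ?_⟩
      rw [emb_mul hq, emb_mul hq, emb_natCast hq, emb_intCast hq]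
      have h2 : (a : ℂ) ^ 2 = 1 + 4 * (r : ℂ) := by exact_mod_cast congrArg (fun x : ℤ => (x : ℂ)) hr
      push_cast
      linear_combination (1 / 4 : ℂ) * hb' - (emb b' * om / 4) * h2

end

end Pool.Agent.N2V
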