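import Pool.Agent.N2.StER2

/-!
# MUX-2R, block ER2: COS, a stable set is a union of orbits of 16 elements
-/

set_option autoImplicit false

namespace Pool.Agent.N2V

open _root_.MU3 Pool.Agent.MU3A Pool.Agent.MU3B Pool.Agent.MUX Pool.Agent.MUXU Pool.Agent.MUXE
open Pool.Agent.RI Pool.Agent.NS Pool.Agent.N2
open Pool.Agent.NSE (IntP)
open Pool.Agent.MUX2 (GRG)
open Pool.Agent.MUXV (InK tX)
open Pool.Agent.N2E (dlg AutC cc)

noncomputable section

namespace COS

/-- a finite set which is a union of classes -/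
theorem classes {α : Type} [DecidableEq α] (O : α → Finset α) (S : Finset α)
    (h1 : ∀ q ∈ S, q ∈ O q) (h2 : ∀ q ∈ S, O q ⊆ S) (h3 : ∀ q ∈ S, ∀ r ∈ O q, O r = O q) :
    ∃ T : Finset α, T ⊆ S ∧ (∀ t ∈ T, ∀ t' ∈ T, t ≠ t' → Disjoint (O t) (O t')) ∧
      T.biUnion O = S := by
  classical
  let rep : Finset α → Option α := fun U => if h : U.Nonempty then some h.choose else none
  have hrep : ∀ q ∈ S, ∃ t, rep (O q) = some t ∧ t ∈ O q := by
    intro q hq
    have hne : (O q).Nonempty := ⟨q, h1 q hq⟩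
    exact ⟨hne.choose, dif_pos hne, hne.choose_spec⟩
  let T : Finset α := S.filter fun t => rep (O t) = some t
  refine ⟨T, Finset.filter_subset _ _, ?_, ?_⟩
  · intro t ht t' ht' hne
    obtain ⟨hS, hr⟩ := Finset.mem_filter.1 ht
    obtain ⟨hS', hr'⟩ := Finset.mem_filter.1 ht'
    rw [Finset.disjoint_left]
    intro y hy hy'
    apply hne
    have e : O t = O t' := (h3 t hS y hy).symm.trans (h3 t' hS' y hy')
    rw [e, hr'] at hr
    exact (Option.some_injective _ hr).symm
  · ext q
    rw [Finset.mem_biUnion]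
    constructor
    · rintro ⟨t, ht, hq⟩
      exact h2 t (Finset.mem_filter.1 ht).1 hq
    · intro hq
      obtain ⟨t, ht1, ht2⟩ := hrep q hq
      have e : O t = O q := h3 q hq t ht2
      refine ⟨t, Finset.mem_filter.2 ⟨h2 q hq ht2, ?_⟩, ?_⟩
      · rw [e]
        exact ht1
      · rw [e]
        exact h1 q hq

variable {A B : ℤ}

theorem red (b : OO A B) : ∃ l < 4, ∃ y : OO A B, b = bb l + (y + y) := by
  have e1 : b.re % 2 = 0 ∨ b.re % 2 = 1 := by omega
  have e2 : b.im % 2 = 0 ∨ b.im % 2 = 1 := by omega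
  rcases e1 with e1 | e1 <;> rcases e2 with e2 | e2
  · refine ⟨0, by norm_num, ⟨b.re / 2, b.im / 2⟩, ?_⟩
    apply QuadraticAlgebra.ext <;> simp [bb] <;> omega
  · refine ⟨2, by norm_num, ⟨b.re / 2, b.im / 2⟩, ?_⟩
    apply QuadraticAlgebra.ext <;> simp [bb] <;> omega
  · refine ⟨1, by norm_num, ⟨b.re / 2, b.im / 2⟩, ?_⟩
    apply QuadraticAlgebra.ext <;> simp [bb] <;> omega
  · refine ⟨3, by norm_num, ⟨b.re / 2, b.im / 2⟩, ?_⟩
    apply QuadraticAlgebra.ext <;> simp [bb] <;> omega

theorem bb_inj {m' : ℕ} (hm : m' ≠ 0) {l l' : ℕ} (hl : l < 4) (hl' : l' < 4) {y : OO A B}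
    (h : (m' : OO A B) * bb l - (m' : OO A B) * bb l' = ((2 * m' : ℕ) : OO A B) * y) : l = l' := by
  have hm' : (m' : ℤ) ≠ 0 := by exact_mod_cast hm
  have h1 := congrArg QuadraticAlgebra.re h
  have h2 := congrArg QuadraticAlgebra.im h
  simp only [QuadraticAlgebra.re_sub, QuadraticAlgebra.im_sub, QuadraticAlgebra.re_mul,
    QuadraticAlgebra.im_mul, QuadraticAlgebra.re_natCast, QuadraticAlgebra.im_natCast, zero_mul,
    mul_zero, add_zero, bb] at h1 h2
  push_cast at h1 h2
  have h3 : ((l : ℤ) % 2) - ((l' : ℤ) % 2) = 2 * y.re := by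
    apply mul_left_cancel₀ hm'
    linear_combination h1
  have h4 : ((l : ℤ) / 2) - ((l' : ℤ) / 2) = 2 * y.im := by
    apply mul_left_cancel₀ hm'
    linear_combination h2
  omega

end COS

theorem tv_COS (hCON : Sv_CON) : Sv_COS := by
  classical
  intro A B P V n f a m m' hS ι S hcop hst1 hst2
  obtain ⟨-, -, c3, c4, c5, -⟩ := hCON A B P V n f a m m' hS
  set N : ℕ := NN n f a with hN
  let π := Ideal.Quotient.mk (idl (A := A) (B := B) m)
  let C : ℕ → (OO A B ⧸ idl (A := A) (B := B) m) := fun k => π (cc N ((k : OO A B) * w0))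
  let T : OO A B → (OO A B ⧸ idl (A := A) (B := B) m) := fun b => π ((m' : OO A B) * b)
  have hm2 : m = 2 * m' := by
    rw [hS.hm, hS.hm', pow_succ 2 (n + 1)]
    ring
  have hm0 : m' ≠ 0 := by
    rw [hS.hm']
    have := hS.f3
    positivity
  have mem_m : ∀ x : OO A B, x ∈ idl (A := A) (B := B) m ↔ ∃ y, x = ((m : ℕ) : OO A B) * y :=
    fun x => Ideal.mem_span_singleton
  have hπ : ∀ x y : OO A B, π x = π y ↔ ∃ z, x - y = ((m : ℕ) : OO A B) * z := by
    intro x y
    rw [← mem_m]
    exact Ideal.Quotient.eq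
  -- multiplicativity
  have hle : ∀ x : OO A B, x ∈ idl (A := A) (B := B) (m * a) → x ∈ idl (A := A) (B := B) m := by
    intro x hx
    obtain ⟨y, rfl⟩ := Ideal.mem_span_singleton.1 hx
    refine Ideal.mem_span_singleton.2 ⟨(a : OO A B) * y, ?_⟩
    push_cast
    ring
  have hC : ∀ k l, C k * C l = C (k + l) := by
    intro k l
    show π _ * π _ = π _
    rw [← map_mul]
    exact Ideal.Quotient.eq.2 (hle _ (c3 k l))
  have hC0 : C 0 = 1 := by
    show π (cc N (((0 : ℕ) : OO A B) * w0)) = 1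
    rw [Nat.cast_zero, zero_mul]
    unfold cc
    rw [mul_zero, add_zero, map_one]
  have hC4 : C 4 = 1 + T ((a : OO A B) * w0) := by
    show π _ = 1 + π _
    rw [← map_one π, ← map_add]
    congr 1
    have := c4
    push_cast at this ⊢
    linear_combination this
  have hT : ∀ b b', T (b + b') = T b + T b' := by
    intro b b'
    show π _ = π _ + π _
    rw [← map_add]
    congr 1
    ring
  have hT2 : ∀ y, T (y + y) = 0 := by
    intro y
    show π _ = 0
    rw [← map_zero π, hπ]
    refine ⟨y, ?_⟩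
    rw [hm2]
    push_cast
    ring
  have hNev : ∃ N' : ℕ, N = 2 * N' := by
    refine ⟨2 ^ (n - 2) * f * a, ?_⟩
    rw [hN]
    unfold NN
    have h5 := hS.n5
    have : n - 1 = (n - 2) + 1 := by omega
    rw [this, pow_succ]
    ring
  have hCT : ∀ k b, C k * T b = T b := by
    intro k b
    obtain ⟨N', hN'⟩ := hNev
    show π _ * π _ = π _
    rw [← map_mul, hπ]
    refine ⟨(N' : OO A B) * ((k : OO A B) * w0) * b, ?_⟩
    unfold cc
    rw [hN', hm2]
    push_cast
    ring
  have hTm : ∀ b y, T b * π y = T (b * y) := by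
    intro b y
    show π _ * π _ = π _
    rw [← map_mul]
    congr 1
    ring
  -- normal form
  have nfT : ∀ b, ∃ l < 4, T b = T (bb l) := by
    intro b
    obtain ⟨l, hl, y, hy⟩ := COS.red b
    refine ⟨l, hl, ?_⟩
    rw [hy, hT, hT2, add_zero]
  have nf : ∀ K : ℕ, ∀ (b : OO A B) (x : OO A B), ∃ k < 4, ∃ l < 4,
      C K * π x + T b = C k * π x + T (bb l) := by
    intro K
    induction K using Nat.strong_induction_on with
    | _ K ih =>
      intro b x
      rcases Nat.lt_or_ge K 4 with h | h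
      · obtain ⟨l, hl, e⟩ := nfT b
        exact ⟨K, h, l, hl, by rw [e]⟩
      · obtain ⟨J, rfl⟩ : ∃ J, K = 4 + J := ⟨K - 4, by omega⟩
        obtain ⟨k, hk, l, hl, e⟩ := ih J (by omega) ((a : OO A B) * w0 * x + b) x
        refine ⟨k, hk, l, hl, ?_⟩
        rw [← e, ← hC, hC4, hT, ← hTm ((a : OO A B) * w0) x]
        have : (1 + T ((a : OO A B) * w0)) * C J * π x =
            C J * π x + C J * T ((a : OO A B) * w0) * π x := by ring
        rw [this, hCT]
        ring
  -- the orbits
  let φ : ι × (OO A B ⧸ idl (A := A) (B := B) m) → ℕ × ℕ →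
      ι × (OO A B ⧸ idl (A := A) (B := B) m) := fun q j => (q.1, C j.1 * q.2 + T (bb j.2))
  let R : Finset (ℕ × ℕ) := Finset.range 4 ×ˢ Finset.range 4
  let O : ι × (OO A B ⧸ idl (A := A) (B := B) m) →
      Finset (ι × (OO A B ⧸ idl (A := A) (B := B) m)) := fun q => R.image (φ q)
  have hRm : ∀ j, j ∈ R ↔ j.1 < 4 ∧ j.2 < 4 := by
    intro j
    simp only [R, Finset.mem_product, Finset.mem_range]
  have hCS : ∀ k, ∀ q ∈ S, ((q.1, C k * q.2) : ι × (OO A B ⧸ idl (A := A) (B := B) m)) ∈ S := by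
    intro k
    induction k with
    | zero =>
      intro q hq
      rw [hC0, one_mul]
      exact hq
    | succ k ih =>
      intro q hq
      have h1 := hst1 _ (ih q hq)
      have e : C (k + 1) * q.2 = π (cc N w0) * (C k * q.2) := by
        rw [add_comm k 1, ← hC, mul_assoc]
        congr 1
        show π _ = π _
        rw [Nat.cast_one, one_mul]
      rw [e]
      exact h1
  have hφS : ∀ q ∈ S, ∀ j, φ q j ∈ S := fun q hq j => hst2 _ (hCS j.1 q hq) (bb j.2)
  have hbb0 : T (bb 0) = 0 := by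
    show π _ = 0
    have : (bb 0 : OO A B) = 0 := by
      unfold bb
      apply QuadraticAlgebra.ext <;> simp
    rw [this, mul_zero, map_zero]
  have hφ0 : ∀ q, φ q (0, 0) = q := by
    intro q
    show (q.1, C 0 * q.2 + T (bb 0)) = q
    rw [hC0, one_mul, hbb0, add_zero]
  -- injectivity
  have key : ∀ x : OO A B, IsCoprime x ((m : ℕ) : OO A B) → ∀ k k' : ℕ, k < k' → k' < 4 →
      ∀ b b' : OO A B, C k * π x + T b ≠ C k' * π x + T b' := by
    intro x hx k k' hkk hk4 b b' h
    -- everything modulo `m'`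
    let π' := Ideal.Quotient.mk (idl (A := A) (B := B) m')
    let D : ℕ → (OO A B ⧸ idl (A := A) (B := B) m') := fun k => π' (cc N ((k : OO A B) * w0))
    have hle' : ∀ x : OO A B, x ∈ idl (A := A) (B := B) m → x ∈ idl (A := A) (B := B) m' := by
      intro x hx
      obtain ⟨y, rfl⟩ := Ideal.mem_span_singleton.1 hx
      refine Ideal.mem_span_singleton.2 ⟨2 * y, ?_⟩
      rw [hm2]
      push_cast
      ring
    have hD : ∀ k l, D k * D l = D (k + l) := by
      intro k l
      show π' _ * π' _ = π' _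
      rw [← map_mul]
      exact Ideal.Quotient.eq.2 (hle' _ (hle _ (c3 k l)))
    have hD4 : D 4 = 1 := by
      show π' _ = 1
      rw [← map_one π']
      refine Ideal.Quotient.eq.2 ?_
      rw [c4]
      refine Ideal.mem_span_singleton.2 ⟨(a : OO A B) * w0, ?_⟩
      push_cast
      ring
    have e1 : D k * π' x = D k' * π' x := by
      have h1 : π (cc N ((k : OO A B) * w0) * x + (m' : OO A B) * b) =
          π (cc N ((k' : OO A B) * w0) * x + (m' : OO A B) * b') := by
        rw [map_add, map_add, map_mul, map_mul]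
        exact h
      obtain ⟨z, hz⟩ := (hπ _ _).1 h1
      show π' _ * π' _ = π' _ * π' _
      rw [← map_mul, ← map_mul]
      refine Ideal.Quotient.eq.2 (Ideal.mem_span_singleton.2 ⟨2 * z - b + b', ?_⟩)
      rw [hm2] at hz
      push_cast at hz
      linear_combination hz
    have e2 : π' x = D (k' - k) * π' x := by
      have h1 := congrArg (fun t => D (4 - k) * t) e1
      simp only [← mul_assoc, hD] at h1
      have h2 : 4 - k + k = 4 := by omega
      have h3 : 4 - k + k' = 4 + (k' - k) := by omega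
      rw [h2, h3, ← hD, hD4, one_mul, one_mul] at h1
      exact h1
    have e3 : π' x = D 2 * π' x := by
      have hj : k' - k = 1 ∨ k' - k = 2 ∨ k' - k = 3 := by omega
      rcases hj with hj | hj | hj
      · rw [hj] at e2
        calc π' x = D 1 * π' x := e2
          _ = D 1 * (D 1 * π' x) := congrArg (fun t => D 1 * t) e2
          _ = D 2 * π' x := by rw [← mul_assoc, hD]
      · rw [hj] at e2
        exact e2
      · rw [hj] at e2
        calc π' x = D 3 * π' x := e2
          _ = D 3 * (D 3 * π' x) := congrArg (fun t => D 3 * t) e2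
          _ = D 2 * π' x := by
            rw [← mul_assoc, hD, show 3 + 3 = 4 + 2 from rfl, ← hD, hD4, one_mul]
    refine c5 x hx ?_
    have e4 : π' (cc N (((2 : ℕ) : OO A B) * w0) * x) = π' x := by
      rw [map_mul]
      exact e3.symm
    exact Ideal.Quotient.eq.1 e4
  have hπout : ∀ y : OO A B ⧸ idl (A := A) (B := B) m, π (Quotient.out y) = y := fun y =>
    Ideal.Quotient.mk_out y
  have hinj : ∀ q ∈ S, Set.InjOn (φ q) (R : Set (ℕ × ℕ)) := by
    intro q hq j hj j' hj' h
    obtain ⟨h1, h2⟩ := (hRm j).1 hj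
    obtain ⟨h1', h2'⟩ := (hRm j').1 hj'
    have h3 : C j.1 * q.2 + T (bb j.2) = C j'.1 * q.2 + T (bb j'.2) := congrArg Prod.snd h
    have hx := hcop q hq
    rw [← hπout q.2] at h3
    rcases lt_trichotomy j.1 j'.1 with h4 | h4 | h4
    · exact absurd h3 (key _ hx _ _ h4 h1' _ _)
    · rw [h4] at h3
      have h5 := add_left_cancel h3
      obtain ⟨z, hz⟩ := (hπ _ _).1 h5
      rw [hm2] at hz
      exact Prod.ext h4 (COS.bb_inj hm0 h2 h2' hz)
    · exact absurd h3.symm (key _ hx _ _ h4 h1 _ _)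
  have hcard : ∀ q ∈ S, (O q).card = R.card := fun q hq => Finset.card_image_of_injOn (hinj q hq)
  have hOS : ∀ q ∈ S, O q ⊆ S := by
    intro q hq r hr
    obtain ⟨j, -, rfl⟩ := Finset.mem_image.1 hr
    exact hφS q hq j
  have hO3 : ∀ q ∈ S, ∀ r ∈ O q, O r = O q := by
    intro q hq r hr
    have hrS := hOS q hq hr
    refine Finset.eq_of_subset_of_card_le ?_ (by rw [hcard q hq, hcard r hrS])
    intro s hs
    obtain ⟨j, -, rfl⟩ := Finset.mem_image.1 hr
    obtain ⟨i, -, rfl⟩ := Finset.mem_image.1 hs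
    obtain ⟨k, hk, l, hl, e⟩ := nf (i.1 + j.1) (bb j.2 + bb i.2) (Quotient.out q.2)
    rw [hπout] at e
    refine Finset.mem_image.2 ⟨(k, l), (hRm _).2 ⟨hk, hl⟩, ?_⟩
    show (q.1, C k * q.2 + T (bb l)) = (q.1, C i.1 * (C j.1 * q.2 + T (bb j.2)) + T (bb i.2))
    rw [← e, ← hC, hT, mul_add, hCT]
    congr 1
    ring
  obtain ⟨U, hUS, hdis, hun⟩ := COS.classes O S
    (fun q hq => Finset.mem_image.2 ⟨(0, 0), (hRm _).2 ⟨by norm_num, by norm_num⟩, hφ0 q⟩)
    hOS hO3
  let ψ : ι × (OO A B ⧸ idl (A := A) (B := B) m) → ι × OO A B := fun q => (q.1, Quotient.out q.2)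
  have hψ : Set.InjOn ψ (U : Set _) := by
    intro q _ q' _ h
    have h0 : ψ q = ψ q' := h
    have h1 : (ψ q).1 = (ψ q').1 := congrArg Prod.fst h0
    have h2 : (ψ q).2 = (ψ q').2 := congrArg Prod.snd h0
    have h3 : (Quotient.out q.2 : OO A B) = Quotient.out q'.2 := h2
    refine Prod.ext h1 ?_
    rw [← hπout q.2, ← hπout q'.2, h3]
  have hval : ∀ (q : ι × (OO A B ⧸ idl (A := A) (B := B) m)) (k l : ℕ),
      (((ψ q).1, Ideal.Quotient.mk (idl (A := A) (B := B) m)
        (cc N ((k : OO A B) * w0) * (ψ q).2 + (m' : OO A B) * bb l)) :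
        ι × (OO A B ⧸ idl (A := A) (B := B) m)) = φ q (k, l) := by
    intro q k l
    refine Prod.ext rfl ?_
    show π _ = C k * q.2 + T (bb l)
    rw [map_add, map_mul]
    show C k * π (Quotient.out q.2) + T (bb l) = _
    rw [hπout]
  refine ⟨U.image ψ, ?_, ?_, ?_⟩
  · intro t ht
    obtain ⟨q, hq, rfl⟩ := Finset.mem_image.1 ht
    exact hcop q (hUS hq)
  · intro F
    rw [Finset.sum_image hψ, ← hun, Finset.sum_biUnion (by
      intro t ht t' ht' hne
      exact hdis t ht t' ht' hne)]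
    refine Finset.sum_congr rfl fun q hq => ?_
    rw [Finset.sum_image (hinj q (hUS hq)), Finset.sum_product]
    refine Finset.sum_congr rfl fun k _ => Finset.sum_congr rfl fun l _ => ?_
    rw [hval]
  · intro F
    rw [Finset.prod_image hψ, ← hun, Finset.prod_biUnion (by
      intro t ht t' ht' hne
      exact hdis t ht t' ht' hne)]
    refine Finset.prod_congr rfl fun q hq => ?_
    rw [Finset.prod_image (hinj q (hUS hq)), Finset.prod_product]
    refine Finset.prod_congr rfl fun k _ => Finset.prod_congr rfl fun l _ => ?_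
    rw [hval]

end

end Pool.Agent.N2V
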