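import Pool.Agent.N2.StER2
import Pool.Agent.N2.R_ALC
import Pool.Agent.MUX.E_RNG

/-!
# MUX-2R, block ER2, module CTX: from the standing hypotheses to `CtxU` (after `E_CTX.lean`, `R_ALC.lean`, `NS/F_CTX.lean`)

`ϖ = ⟨t, 1⟩`, `t = 0` for `A` even, `t = 1` for `A` odd; `x = ix t x + x.im ϖ`.
-/

set_option autoImplicit false

namespace Pool.Agent.N2V

open _root_.MU3 Pool.Agent.MU3A Pool.Agent.MU3B Pool.Agent.MUX Pool.Agent.MUXU Pool.Agent.MUXE
open Pool.Agent.RI Pool.Agent.NS Pool.Agent.N2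
open Pool.Agent.N2R (ALC.v_int ALC.v_emb ALC.v_odd ALC.v_unit)

noncomputable section

namespace CtxUaux

variable {A B : ℤ} {V : ValuationSubring ℂ}

/-- the integer part of `x = i + s ϖ`, `ϖ = ⟨t, 1⟩` -/
def ix (t : ℤ) (x : OO A 0) : ℤ := x.re - t * x.im

/-- `ϖ = ⟨t, 1⟩` -/
def pi (A t : ℤ) : OO A 0 := ⟨t, 1⟩

/-- the case distinction: `t = 0`, `A = 4 c + 2`, or `t = 1`, `A = 4 c - 1` -/
def Cs (A t : ℤ) : Prop := (t = 0 ∧ ∃ c, A = 4 * c + 2) ∨ (t = 1 ∧ ∃ c, A = 4 * c - 1)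

lemma ex_Cs (h : A % 4 = 2 ∨ A % 4 = 3) : ∃ t, Cs A t := by
  rcases h with h | h
  · exact ⟨0, Or.inl ⟨rfl, (A - 2) / 4, by omega⟩⟩
  · exact ⟨1, Or.inr ⟨rfl, (A + 1) / 4, by omega⟩⟩

lemma emb_eq (t : ℤ) (x : OO A 0) :
    emb x = ((ix t x : ℤ) : ℂ) + (x.im : ℂ) * emb (pi A t) := by
  unfold emb ix pi
  push_cast
  ring

lemma wsq (h : CQ A 0) : wC A 0 * wC A 0 = (A : ℂ) := by
  rw [MUX.wC_sq h]
  push_cast
  ring

lemma v_pi (h : CQ A 0) (h2 : V.valuation (2 : ℂ) < 1) {t : ℤ} (ht : Cs A t) :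
    V.valuation (emb (pi A t)) ^ 2 = V.valuation (2 : ℂ) := by
  have hw := wsq h
  rcases ht with ⟨rfl, c, hc⟩ | ⟨rfl, c, hc⟩
  · have h1 : emb (pi A 0) * emb (pi A 0) = 2 * (((2 * c + 1 : ℤ)) : ℂ) := by
      have h3 : (A : ℂ) = 4 * (c : ℂ) + 2 := by exact_mod_cast hc
      unfold emb pi
      push_cast
      linear_combination hw + h3
    rw [sq, ← map_mul, h1, map_mul, ALC.v_odd h2 (by omega), mul_one]
  · have hu : V.valuation (emb (⟨2 * c, 1⟩ : OO A 0)) = 1 := by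
      refine ALC.v_unit h h2 ?_
      have h8 : nm (⟨2 * c, 1⟩ : OO A 0) = 4 * c ^ 2 - A := by
        unfold nm
        simp only
        ring
      rw [h8]
      omega
    have h1 : emb (pi A 1) * emb (pi A 1) = 2 * emb (⟨2 * c, 1⟩ : OO A 0) := by
      have h3 : (A : ℂ) = 4 * (c : ℂ) - 1 := by exact_mod_cast hc
      unfold emb pi
      push_cast
      linear_combination hw + h3
    rw [sq, ← map_mul, h1, map_mul, hu, mul_one]

lemma v_two0 : V.valuation (2 : ℂ) ≠ 0 := by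
  rw [Valuation.ne_zero_iff]
  norm_num

lemma v_pi_lt (h : CQ A 0) (h2 : V.valuation (2 : ℂ) < 1) {t : ℤ} (ht : Cs A t) :
    V.valuation (emb (pi A t)) < 1 := by
  have h1 := v_pi h h2 ht
  refine not_le.1 fun h3 => ?_
  have h4 : 1 ≤ V.valuation (emb (pi A t)) ^ 2 := one_le_pow₀ h3
  rw [h1] at h4
  exact not_lt.2 h4 h2

lemma lt_v_pi (h : CQ A 0) (h2 : V.valuation (2 : ℂ) < 1) {t : ℤ} (ht : Cs A t) :
    V.valuation (2 : ℂ) < V.valuation (emb (pi A t)) := by
  have h1 := v_pi h h2 ht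
  refine not_le.1 fun h3 => ?_
  have h4 : V.valuation (emb (pi A t)) ^ 2 ≤ V.valuation (2 : ℂ) ^ 2 := pow_le_pow_left₀ zero_le h3 2
  rw [h1, sq] at h4
  have h5 : V.valuation (2 : ℂ) * V.valuation (2 : ℂ) < V.valuation (2 : ℂ) * 1 :=
    (mul_lt_mul_iff_right₀ (zero_lt_iff.2 v_two0)).2 h2
  rw [mul_one] at h5
  exact not_lt.2 h4 h5

lemma v_even {n : ℤ} (hn : (2 : ℤ) ∣ n) :
    V.valuation (n : ℂ) ≤ V.valuation (2 : ℂ) := by
  obtain ⟨k, rfl⟩ := hn
  push_cast
  rw [map_mul]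
  exact mul_le_of_le_one_right' (ALC.v_int V k)

lemma v_spi_le (t : ℤ) (s : ℤ) :
    V.valuation ((s : ℂ) * emb (pi A t)) ≤ V.valuation (emb (pi A t)) := by
  rw [map_mul]
  exact mul_le_of_le_one_left' (ALC.v_int V s)

/-- `i` odd: a unit -/
lemma v_one (h : CQ A 0) (h2 : V.valuation (2 : ℂ) < 1) {t : ℤ} (ht : Cs A t) {x : OO A 0}
    (hx : ¬ (2 : ℤ) ∣ ix t x) : V.valuation (emb x) = 1 := by
  rw [emb_eq t x, Valuation.map_add_eq_of_lt_left]
  · exact ALC.v_odd h2 hx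
  · rw [ALC.v_odd h2 hx]
    exact lt_of_le_of_lt (v_spi_le t _) (v_pi_lt h h2 ht)

/-- `i` even -/
lemma v_le (h : CQ A 0) (h2 : V.valuation (2 : ℂ) < 1) {t : ℤ} (ht : Cs A t) {x : OO A 0}
    (hx : (2 : ℤ) ∣ ix t x) : V.valuation (emb x) ≤ V.valuation (emb (pi A t)) := by
  rw [emb_eq t x]
  refine Valuation.map_add_le _ ?_ (v_spi_le t _)
  exact (v_even hx).trans (lt_v_pi h h2 ht).le

/-- `i` even, `s` odd -/
lemma v_eq (h : CQ A 0) (h2 : V.valuation (2 : ℂ) < 1) {t : ℤ} (ht : Cs A t) {x : OO A 0}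
    (hx : (2 : ℤ) ∣ ix t x) (hs : ¬ (2 : ℤ) ∣ x.im) :
    V.valuation (emb x) = V.valuation (emb (pi A t)) := by
  have h3 : V.valuation ((x.im : ℂ) * emb (pi A t)) = V.valuation (emb (pi A t)) := by
    rw [map_mul, ALC.v_odd h2 hs, one_mul]
  rw [emb_eq t x, Valuation.map_add_eq_of_lt_right, h3]
  rw [h3]
  exact lt_of_le_of_lt (v_even hx) (lt_v_pi h h2 ht)

/-- `v x ≤ v 2`: divisible by 2 -/
lemma ex_half (h : CQ A 0) (h2 : V.valuation (2 : ℂ) < 1) {t : ℤ} (ht : Cs A t) {x : OO A 0}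
    (hx : V.valuation (emb x) ≤ V.valuation (2 : ℂ)) : ∃ y : OO A 0, x = 2 * y := by
  have h3 : (2 : ℤ) ∣ ix t x := by
    by_contra hc
    rw [v_one h h2 ht hc] at hx
    exact not_lt.2 hx h2
  have h4 : (2 : ℤ) ∣ x.im := by
    by_contra hc
    rw [v_eq h h2 ht h3 hc] at hx
    exact not_lt.2 hx (lt_v_pi h h2 ht)
  obtain ⟨a, ha⟩ := h3
  obtain ⟨b, hb⟩ := h4
  refine ⟨⟨a + t * b, b⟩, ?_⟩
  unfold ix at ha
  apply QuadraticAlgebra.ext
  · simp only [QuadraticAlgebra.re_mul, QuadraticAlgebra.re_ofNat, QuadraticAlgebra.im_ofNat]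
    linear_combination ha + t * hb
  · simp only [QuadraticAlgebra.im_mul, QuadraticAlgebra.re_ofNat, QuadraticAlgebra.im_ofNat]
    linear_combination hb

lemma v_two_mul (h : CQ A 0) (y : OO A 0) :
    V.valuation (emb (2 * y)) = V.valuation (2 : ℂ) * V.valuation (emb y) := by
  rw [MUX.emb_mul h, map_mul]
  have h1 := MUX.emb_natCast h 2
  rw [Nat.cast_ofNat] at h1
  rw [h1]
  norm_num

lemma dvd_iff (h : CQ A 0) (h2 : V.valuation (2 : ℂ) < 1) {t : ℤ} (ht : Cs A t) :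
    ∀ (k : ℕ) (x : OO A 0), x ∈ idl (A := A) (B := 0) (2 ^ k) ↔
      V.valuation (emb x) ≤ V.valuation (2 : ℂ) ^ k := by
  intro k
  induction k with
  | zero =>
    intro x
    refine ⟨fun _ => by rw [pow_zero]; exact ALC.v_emb h V x, fun _ => ?_⟩
    rw [Ideal.mem_span_singleton, pow_zero, Nat.cast_one]
    exact one_dvd x
  | succ k ih =>
    intro x
    constructor
    · intro hx
      obtain ⟨y, rfl⟩ := Ideal.mem_span_singleton.1 hx
      rw [MUX.emb_mul h, MUX.emb_natCast h, map_mul]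
      push_cast
      rw [map_pow]
      exact mul_le_of_le_one_right' (ALC.v_emb h V y)
    · intro hx
      have h3 : V.valuation (emb x) ≤ V.valuation (2 : ℂ) := by
        refine hx.trans ?_
        rw [pow_succ]
        exact mul_le_of_le_one_left' (pow_le_one₀ zero_le h2.le)
      obtain ⟨y, rfl⟩ := ex_half h h2 ht h3
      rw [v_two_mul h, pow_succ, mul_comm] at hx
      have h4 : V.valuation (emb y) ≤ V.valuation (2 : ℂ) ^ k :=
        (mul_le_mul_iff_left₀ (zero_lt_iff.2 v_two0)).1 hx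
      obtain ⟨z, rfl⟩ := Ideal.mem_span_singleton.1 ((ih y).2 h4)
      rw [Ideal.mem_span_singleton]
      refine ⟨z, ?_⟩
      push_cast
      ring

lemma two_sq {P : Ideal (OO A 0)} {t : ℤ} (ht : Cs A t) (h2 : (2 : OO A 0) ∈ P)
    (hp : pi A t ∈ P) : (2 : OO A 0) ∈ P ^ 2 := by
  have h22 : (2 : OO A 0) * 2 ∈ P ^ 2 := by rw [sq]; exact Ideal.mul_mem_mul h2 h2
  have h2p : (2 : OO A 0) * pi A t ∈ P ^ 2 := by rw [sq]; exact Ideal.mul_mem_mul h2 hp
  have hpp : pi A t * pi A t ∈ P ^ 2 := by rw [sq]; exact Ideal.mul_mem_mul hp hp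
  rcases ht with ⟨rfl, c, hc⟩ | ⟨rfl, c, hc⟩
  · have h1 : (2 : OO A 0) = pi A 0 * pi A 0 - (c : OO A 0) * (2 * 2) := by
      apply QuadraticAlgebra.ext
      · simp only [pi, QuadraticAlgebra.re_mul, QuadraticAlgebra.re_sub, QuadraticAlgebra.re_ofNat,
          QuadraticAlgebra.im_ofNat, QuadraticAlgebra.re_intCast, QuadraticAlgebra.im_intCast,
          QuadraticAlgebra.im_mul, Int.cast_id]
        linear_combination -hc
      · simp only [pi, QuadraticAlgebra.re_mul, QuadraticAlgebra.im_sub, QuadraticAlgebra.re_ofNat,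
          QuadraticAlgebra.im_ofNat, QuadraticAlgebra.re_intCast, QuadraticAlgebra.im_intCast,
          QuadraticAlgebra.im_mul, Int.cast_id]
        ring
    rw [h1]
    exact Ideal.sub_mem _ hpp (Ideal.mul_mem_left _ _ h22)
  · have h1 : (2 : OO A 0) = (c : OO A 0) * (2 * 2) + 2 * pi A 1 - pi A 1 * pi A 1 := by
      apply QuadraticAlgebra.ext
      · simp only [pi, QuadraticAlgebra.re_mul, QuadraticAlgebra.re_sub, QuadraticAlgebra.re_ofNat,
          QuadraticAlgebra.im_ofNat, QuadraticAlgebra.re_intCast, QuadraticAlgebra.im_intCast,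
          QuadraticAlgebra.im_mul, QuadraticAlgebra.re_add, Int.cast_id]
        linear_combination hc
      · simp only [pi, QuadraticAlgebra.re_mul, QuadraticAlgebra.im_sub, QuadraticAlgebra.re_ofNat,
          QuadraticAlgebra.im_ofNat, QuadraticAlgebra.re_intCast, QuadraticAlgebra.im_intCast,
          QuadraticAlgebra.im_mul, QuadraticAlgebra.im_add, Int.cast_id]
        ring
    rw [h1]
    exact Ideal.sub_mem _ (Ideal.add_mem _ (Ideal.mul_mem_left _ _ h22) h2p) hpp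

lemma nm_odd {t : ℤ} (ht : Cs A t) {x : OO A 0} (hx : ¬ (2 : ℤ) ∣ ix t x) :
    ¬ (2 : ℤ) ∣ nm x := by
  intro h1
  apply hx
  have h3 : (2 : ℤ) ∣ ix t x ^ 2 := by
    rcases ht with ⟨rfl, c, hc⟩ | ⟨rfl, c, hc⟩
    · have h4 : ix 0 x ^ 2 = nm x + 2 * ((2 * c + 1) * x.im ^ 2) := by
        unfold nm ix
        linear_combination (x.im ^ 2) * hc
      rw [h4]
      exact dvd_add h1 (dvd_mul_right _ _)
    · have h4 : ix 1 x ^ 2 = nm x + 2 * (2 * c * x.im ^ 2 - x.re * x.im) := by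
        unfold nm ix
        linear_combination (x.im ^ 2) * hc
      rw [h4]
      exact dvd_add h1 (dvd_mul_right _ _)
  exact Int.prime_two.dvd_of_dvd_pow h3

end CtxUaux

open CtxUaux in
/-- (CTX) from the standing hypotheses to `CtxU` -/
theorem tv_CTX : Sv_CTX := by
  intro A B P V hC hP hV hT hG hF
  have h := hC.toCQ
  have hB := hC.b0
  have hmod := hC.mod
  subst hB
  obtain ⟨t, ht⟩ := ex_Cs hmod
  have h2P : (2 : OO A 0) ∈ P := by
    have := hP.mem
    rwa [Nat.cast_ofNat] at this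
  have h1P : (1 : OO A 0) ∉ P := fun h1 => hP.prime.ne_top ((Ideal.eq_top_iff_one P).2 h1)
  have hv2 : V.valuation (2 : ℂ) < 1 := by
    have h1 := (hV ((2 : ℕ) : OO A 0)).2 hP.mem
    rw [ValuationSubring.mem_nonunits_iff, MUX.emb_natCast h] at h1
    simpa using h1
  have hunit : ∀ x : OO A 0, x ∉ P → V.valuation (emb x) = 1 := fun x hx =>
    le_antisymm (ALC.v_emb h V x) (not_lt.1 fun h1 =>
      hx ((hV x).1 ((ValuationSubring.mem_nonunits_iff V).2 h1)))
  have hlt : ∀ x : OO A 0, V.valuation (emb x) < 1 → x ∈ P := fun x hx =>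
    (hV x).1 ((ValuationSubring.mem_nonunits_iff V).2 hx)
  have hmem : ∀ x : OO A 0, x ∈ P ↔ (2 : ℤ) ∣ ix t x := by
    intro x
    constructor
    · intro hx
      by_contra hc
      have h3 := (ValuationSubring.mem_nonunits_iff V).1 ((hV x).2 hx)
      rw [v_one h hv2 ht hc] at h3
      exact lt_irrefl _ h3
    · intro hx
      exact hlt x (lt_of_le_of_lt (v_le h hv2 ht hx) (v_pi_lt h hv2 ht))
  have hone : ∀ x : OO A 0, x ∉ P → x - 1 ∈ P := by
    intro x hx
    rw [hmem] at hx ⊢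
    have e1 : ix t (x - 1) = ix t x - 1 := by
      unfold ix
      rw [QuadraticAlgebra.re_sub, QuadraticAlgebra.im_sub, QuadraticAlgebra.re_one,
        QuadraticAlgebra.im_one]
      ring
    rw [e1]
    omega
  have hpiP : pi A t ∈ P := hlt _ (v_pi_lt h hv2 ht)
  have h2sq := two_sq ht h2P hpiP
  have hdv := dvd_iff (V := V) h hv2 ht
  have hpw1 : ∀ (k : ℕ) (x : OO A 0), x ∈ P ^ k →
      V.valuation (emb x) ^ 2 ≤ V.valuation (2 : ℂ) ^ k := by
    intro k
    induction k with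
    | zero =>
      intro x _
      rw [pow_zero]
      exact pow_le_one₀ zero_le (ALC.v_emb h V x)
    | succ k ih =>
      intro x hx
      rw [pow_succ] at hx
      refine Submodule.mul_induction_on hx ?_ ?_
      · intro a ha b hb
        rw [MUX.emb_mul h, map_mul, mul_pow, pow_succ]
        refine mul_le_mul' (ih a ha) ?_
        rw [← v_pi h hv2 ht]
        exact pow_le_pow_left₀ zero_le (v_le h hv2 ht ((hmem b).1 hb)) 2
      · intro a b ha hb
        rw [MUX.emb_add h]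
        rcases le_max_iff.1 (Valuation.map_add V.valuation (emb a) (emb b)) with h3 | h3
        · exact (pow_le_pow_left₀ zero_le h3 2).trans ha
        · exact (pow_le_pow_left₀ zero_le h3 2).trans hb
  have hpw2 : ∀ (k : ℕ) (x : OO A 0), V.valuation (emb x) ^ 2 ≤ V.valuation (2 : ℂ) ^ k →
      x ∈ P ^ k := by
    intro k
    induction k using Nat.twoStepInduction with
    | zero =>
      intro x _
      rw [pow_zero, Ideal.one_eq_top]
      exact Submodule.mem_top
    | one =>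
      intro x hx
      rw [pow_one] at hx ⊢
      refine hlt x (not_le.1 fun h3 => ?_)
      exact not_lt.2 ((one_le_pow₀ h3).trans hx) hv2
    | more k ih _ =>
      intro x hx
      have h3 : V.valuation (emb x) ≤ V.valuation (2 : ℂ) := by
        refine not_lt.1 fun h4 => ?_
        have h5 : V.valuation (2 : ℂ) ^ 2 < V.valuation (emb x) ^ 2 :=
          pow_lt_pow_left₀ h4 zero_le two_ne_zero
        refine not_lt.2 (hx.trans ?_) h5
        rw [pow_add]
        exact mul_le_of_le_one_left' (pow_le_one₀ zero_le hv2.le)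
      obtain ⟨y, rfl⟩ := ex_half h hv2 ht h3
      rw [v_two_mul h, mul_pow, pow_add, mul_comm] at hx
      have h4 : V.valuation (emb y) ^ 2 ≤ V.valuation (2 : ℂ) ^ k :=
        (mul_le_mul_iff_left₀ (zero_lt_iff.2 (pow_ne_zero 2 v_two0))).1 hx
      have h5 := Ideal.mul_mem_mul (ih y h4) h2sq
      rw [← pow_add] at h5
      rwa [mul_comm]
  refine
    { ring := te_RNG A 0 h
      cq := h
      B0 := rfl
      mod := hmod
      v2 := hv2
      int := ALC.v_emb h V
      unit := hunit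
      nat := ?_
      max := ?_
      one := hone
      nrm := fun x hx => nm_odd ht fun hc => hx ((hmem x).2 hc)
      pi := ⟨pi A t, v_pi h hv2 ht⟩
      w0 := ?_
      pw := fun k x => ⟨hpw1 k x, hpw2 k x⟩
      dv := hdv
      good := hG
      val := ?_
      exq := ?_ }
  · intro n hn
    have := ALC.v_odd (V := V) hv2 (n := (n : ℤ)) (by omega)
    simpa using this
  · rw [Ideal.isMaximal_iff]
    refine ⟨h1P, ?_⟩
    intro J x hJ hx hxJ
    have h4 : (1 : OO A 0) = x - (x - 1) := by ring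
    rw [h4]
    exact J.sub_mem hxJ (hJ (hone x hx))
  · rw [MUX.emb_w, sq, ← map_mul, wsq h]
    rcases hmod with h3 | h3
    · have hd : dR A = 3 := by
        unfold dR
        rw [if_neg (by omega)]
      obtain ⟨c, hc⟩ : ∃ c : ℤ, A = 2 * (2 * c + 1) := ⟨(A - 2) / 4, by omega⟩
      have hc' : (A : ℂ) = 2 * ((2 * c + 1 : ℤ) : ℂ) := by exact_mod_cast hc
      rw [hd, hc', map_mul, ALC.v_odd hv2 (by omega), mul_one, pow_one]
    · have hd : dR A = 2 := by
        unfold dR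
        rw [if_pos h3]
      rw [hd, ALC.v_odd hv2 (by omega), pow_zero]
  · intro f _ hf y hy hy0
    exact hF f (Nat.not_even_iff_odd.1 fun he => hf he.two_dvd) y hy hy0
  · rintro L ⟨b, om, hL⟩
    have h20 : (2 : OO A 0) ≠ 0 := by
      intro h0
      have h1 := congrArg QuadraticAlgebra.re h0
      simp only [QuadraticAlgebra.re_ofNat, QuadraticAlgebra.re_zero] at h1
      norm_num at h1
    have hPb : P ≠ ⊥ := by
      rintro rfl
      exact h20 (Ideal.mem_bot.1 h2P)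
    obtain ⟨σ, -, hσ⟩ := hT.surj ⊤ (by
      intro h0
      have h4 : (2 : OO A 0) ∈ (⊤ : Ideal (OO A 0)) := Submodule.mem_top
      rw [h0] at h4
      exact h20 (Ideal.mem_bot.1 h4)) P hPb (Ideal.isCoprime_iff_sup_eq.2 (sup_top_eq _))
    obtain ⟨b', L', om', mu, hL', hact⟩ := hσ b L om hL
    exact ⟨L', mu, ⟨b', om', hL'⟩, hact.isq⟩

end

end Pool.Agent.N2V
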