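import Pool.Agent.N2.StER2
import Pool.Agent.MUX.XLib

/-!
# MUX-2R, block ER2, module DEG: the degree of `RF (2^(j+1) f)` over `RF (f)` (helper45)

The proof of `Pool/Agent/N2/E_DEG.lean` (helper92), for `2` ramified: the classes modulo `2^(j+1)` of the elements `⟨r, s⟩`
not in `P` are determined by `r / 2` and `s`.
-/

set_option autoImplicit false

open Polynomial

namespace Pool.Agent.N2V

open _root_.MU3 Pool.Agent.MU3A Pool.Agent.MU3B Pool.Agent.MUX Pool.Agent.MUXU Pool.Agent.MUXE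
open Pool.Agent.RI Pool.Agent.NS Pool.Agent.N2

noncomputable section

namespace DEG

lemma mem_idl_of {A B : ℤ} (n : ℕ) (x : OO A B) (h1 : (n : ℤ) ∣ x.re) (h2 : (n : ℤ) ∣ x.im) :
    x ∈ idl (A := A) (B := B) n := by
  obtain ⟨a, ha⟩ := h1
  obtain ⟨b, hb⟩ := h2
  rw [Ideal.mem_span_singleton]
  refine ⟨⟨a, b⟩, ?_⟩
  ext <;> simp [ha, hb]

/-- the pairs of classes -/
def box (j : ℕ) : Finset (ℕ × ℕ) := Finset.range (2 ^ j) ×ˢ Finset.range (2 ^ (j + 1))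

lemma card_box (j : ℕ) : (box j).card = 2 * 4 ^ j := by
  unfold box
  simp only [Finset.card_product, Finset.card_range]
  have h2 : 2 ^ j * 2 ^ j = 4 ^ j := by rw [← mul_pow]; norm_num
  rw [pow_succ, ← mul_assoc, h2, mul_comm]

/-- the class of an element -/
def cls {A B : ℤ} (j : ℕ) (x : OO A B) : ℕ × ℕ :=
  ((x.re % (2 ^ (j + 1) : ℕ)).toNat / 2, (x.im % (2 ^ (j + 1) : ℕ)).toNat)

lemma cls_mem {A B : ℤ} (j : ℕ) (x : OO A B) : cls j x ∈ box j := by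
  have hN : (0 : ℤ) < ((2 ^ (j + 1) : ℕ) : ℤ) := by positivity
  have h1 := Int.emod_nonneg x.re hN.ne'
  have h2 := Int.emod_lt_of_pos x.re hN
  have h3 := Int.emod_nonneg x.im hN.ne'
  have h4 := Int.emod_lt_of_pos x.im hN
  unfold box cls
  simp only [Finset.mem_product, Finset.mem_range]
  have hp : 2 ^ (j + 1) = 2 * 2 ^ j := pow_succ' 2 j
  generalize hc : x.re % ((2 ^ (j + 1) : ℕ) : ℤ) = c at h1 h2 ⊢
  generalize hd : x.im % ((2 ^ (j + 1) : ℕ) : ℤ) = d at h3 h4 ⊢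
  generalize he : 2 ^ (j + 1) = e at hp h2 h4 ⊢
  constructor
  · omega
  · omega

/-- the parity of the first coordinate -/
lemma par {A B : ℤ} (hB : B = 0) (hA : A % 4 = 2 ∨ A % 4 = 3) (x y : OO A B)
    (hx : ¬ (2 : ℤ) ∣ nm x) (hy : ¬ (2 : ℤ) ∣ nm y) (h : (2 : ℤ) ∣ x.im - y.im) :
    (2 : ℤ) ∣ x.re - y.re := by
  have key : ∀ z : OO A B, ¬ (2 : ℤ) ∣ nm z → ¬ (2 : ℤ) ∣ z.re + A * z.im := by
    intro z hz h1
    apply hz
    have h2 : nm z = (z.re + A * z.im) + z.re * (z.re - 1) - A * (z.im * (z.im + 1)) := by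
      unfold nm
      linear_combination (z.re * z.im) * hB
    have h3 : (2 : ℤ) ∣ z.re * (z.re - 1) := (Int.even_mul_pred_self z.re).two_dvd
    have h4 : (2 : ℤ) ∣ z.im * (z.im + 1) := (Int.even_mul_succ_self z.im).two_dvd
    rw [h2]
    exact dvd_sub (dvd_add h1 h3) (dvd_mul_of_dvd_right h4 _)
  have h1 := key x hx
  have h2 := key y hy
  have h3 : (2 : ℤ) ∣ A * (x.im - y.im) := dvd_mul_of_dvd_right h _
  rw [mul_sub] at h3
  omega

lemma cls_inj {A B : ℤ} (hB : B = 0) (hA : A % 4 = 2 ∨ A % 4 = 3) (j : ℕ) (x y : OO A B)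
    (hx : ¬ (2 : ℤ) ∣ nm x) (hy : ¬ (2 : ℤ) ∣ nm y) (h : cls j x = cls j y) :
    x - y ∈ idl (A := A) (B := B) (2 ^ (j + 1)) := by
  have hN : (0 : ℤ) < ((2 ^ (j + 1) : ℕ) : ℤ) := by positivity
  have h1 := Int.emod_nonneg x.re hN.ne'
  have h2 := Int.emod_nonneg y.re hN.ne'
  have h3 := Int.emod_nonneg x.im hN.ne'
  have h4 := Int.emod_nonneg y.im hN.ne'
  unfold cls at h
  rw [Prod.mk.injEq] at h
  obtain ⟨e1, e2⟩ := h
  have e4 : x.im % ((2 ^ (j + 1) : ℕ) : ℤ) = y.im % ((2 ^ (j + 1) : ℕ) : ℤ) := by omega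
  have e5 : ((2 ^ (j + 1) : ℕ) : ℤ) ∣ x.im - y.im := Int.ModEq.dvd (Int.ModEq.symm e4)
  have h5 : (2 : ℤ) ∣ ((2 ^ (j + 1) : ℕ) : ℤ) := by
    push_cast
    exact dvd_pow_self 2 (by omega)
  have e6 := par hB hA x y hx hy (h5.trans e5)
  have e7 : (2 : ℤ) ∣ (x.re % ((2 ^ (j + 1) : ℕ) : ℤ)) - (y.re % ((2 ^ (j + 1) : ℕ) : ℤ)) := by
    have h6 := Int.emod_add_mul_ediv x.re ((2 ^ (j + 1) : ℕ) : ℤ)
    have h7 := Int.emod_add_mul_ediv y.re ((2 ^ (j + 1) : ℕ) : ℤ)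
    have h8 : (x.re % ((2 ^ (j + 1) : ℕ) : ℤ)) - (y.re % ((2 ^ (j + 1) : ℕ) : ℤ)) =
        (x.re - y.re) - ((2 ^ (j + 1) : ℕ) : ℤ) *
          (x.re / ((2 ^ (j + 1) : ℕ) : ℤ) - y.re / ((2 ^ (j + 1) : ℕ) : ℤ)) := by
      linear_combination h6 - h7
    rw [h8]
    exact dvd_sub e6 (dvd_mul_of_dvd_left h5 _)
  have e3 : x.re % ((2 ^ (j + 1) : ℕ) : ℤ) = y.re % ((2 ^ (j + 1) : ℕ) : ℤ) := by omega
  apply mem_idl_of
  · show ((2 ^ (j + 1) : ℕ) : ℤ) ∣ x.re - y.re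
    exact Int.ModEq.dvd (Int.ModEq.symm e3)
  · exact e5

end DEG

open DEG in
theorem tv_DEG : Sv_DEG := by
  classical
  intro A B P V hC hG j f hf h3f
  have hR := hC.ring
  obtain ⟨f1, -, f3, -, f5⟩ := Pool.Agent.MUXE.te_FAC Pool.Agent.MUXE.te_TRA A B hR
  -- ideals
  set m : Ideal (OO A B) := idl (A := A) (B := B) (2 ^ (j + 1) * f) with hm
  set m' : Ideal (OO A B) := idl (A := A) (B := B) f with hm'
  have hmm' : m ≤ m' := Ideal.span_singleton_le_span_singleton.2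
    (by push_cast; exact Dvd.intro_left _ rfl)
  have h2P : (2 : OO A B) ∈ P := by
    have h4 := (hC.pw 1 (2 : OO A B)).2
    rw [pow_one, pow_one] at h4
    apply h4
    have h5 : emb (2 : OO A B) = (2 : ℂ) := by
      rw [← Pool.Agent.MUX.embHom_apply hC.cq]
      exact map_ofNat _ 2
    rw [h5, sq]
    exact mul_le_of_le_one_left' hC.v2.le
  have hm3 : m ≤ P := by
    rw [hm]
    refine (Ideal.span_singleton_le_iff_mem _).2 ?_
    have h4 : (((2 ^ (j + 1) * f : ℕ)) : OO A B) = 2 ^ j * f * 2 := by push_cast; ring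
    rw [h4]
    exact Ideal.mul_mem_left _ _ h2P
  have hm0 : m ≠ ⊥ := by
    intro h0
    have h4 : (((2 ^ (j + 1) * f : ℕ)) : OO A B) ∈ m := Ideal.mem_span_singleton_self _
    rw [h0, Ideal.mem_bot] at h4
    obtain ⟨φ, hφ⟩ := hR.hom
    have h5 : φ (((2 ^ (j + 1) * f : ℕ)) : OO A B) = ((2 ^ (j + 1) * f : ℕ) : ℂ) := map_natCast φ _
    rw [h4, map_zero] at h5
    have h6 : (2 ^ (j + 1) * f : ℕ) = 0 := by exact_mod_cast h5.symm
    exact (mul_ne_zero (pow_ne_zero _ (by norm_num)) hf) h6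
  have hcop : IsCoprime (((2 ^ (j + 1) : ℕ)) : OO A B) ((f : ℕ) : OO A B) := by
    have h4 : Nat.Coprime (2 ^ (j + 1)) f :=
      Nat.Coprime.pow_left _ ((Nat.Prime.coprime_iff_not_dvd Nat.prime_two).2 h3f)
    have h5 := (Nat.isCoprime_iff_coprime.2 h4).intCast (R := OO A B)
    simpa using h5
  have hinf : ∀ x : OO A B, x ∈ idl (A := A) (B := B) (2 ^ (j + 1)) → x ∈ m' → x ∈ m := by
    intro x h4 h5
    rw [Ideal.mem_span_singleton] at h4 h5
    rw [hm, Ideal.mem_span_singleton, Nat.cast_mul]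
    exact hcop.mul_dvd h4 h5
  -- fields
  have hF : RF m' ≤ RF m := f1 m m' hmm'
  have := hG.fin m hm0
  have := hG.gal m hm0
  set E : IntermediateField (kk A B) (RF m) := IntermediateField.restrict hF with hE
  have e1 : Module.finrank (kk A B) (RF m') = Module.finrank (kk A B) E :=
    (IntermediateField.restrictAlgEquiv hF).toLinearEquiv.finrank_eq
  have e2 : Module.finrank (kk A B) E * Module.finrank E (RF m) =
      Module.finrank (kk A B) (RF m) := Module.finrank_mul_finrank _ _ _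
  have e3 : Nat.card E.fixingSubgroup = Module.finrank E (RF m) :=
    IsGalois.card_fixingSubgroup_eq_finrank E
  rw [← e2, ← e3, e1, mul_comm]
  refine Nat.mul_le_mul_right _ ?_
  -- the kernel
  have hker : ∀ σ : E.fixingSubgroup, ∃ α : OO A B, α - 1 ∈ m' ∧
      ActE (em (σ : RF m ≃ₐ[kk A B] RF m)) m α := by
    intro σ
    refine hG.ker m m' hm0 hmm' (em (σ : RF m ≃ₐ[kk A B] RF m)) ?_
    intro y hy hy'
    have h4 : (⟨y, hy⟩ : RF m) ∈ E := (IntermediateField.mem_restrict hF _).2 hy'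
    have h5 := (IntermediateField.mem_fixingSubgroup_iff E _).1 σ.2 ⟨y, hy⟩ h4
    exact congrArg Subtype.val h5
  choose α hα1 hα2 using hker
  have hα3 : ∀ σ, ¬ (2 : ℤ) ∣ nm (α σ) := by
    intro σ
    apply hC.nrm
    intro hσ
    have h4 := (hα2 σ).1
    have h5 : sp (α σ) ≤ P := (Ideal.span_singleton_le_iff_mem _).2 hσ
    have h7 : sp (α σ) ⊔ m = ⊤ := Ideal.isCoprime_iff_sup_eq.1 h4
    have h8 : (⊤ : Ideal (OO A B)) ≤ P := h7 ▸ sup_le h5 hm3
    exact hC.max.ne_top (top_le_iff.1 h8)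
  have hinj : ∀ σ τ, α σ - α τ ∈ idl (A := A) (B := B) (2 ^ (j + 1)) → σ = τ := by
    intro σ τ h
    have h4 : α σ - α τ ∈ m' := by
      have := sub_mem (hα1 σ) (hα1 τ)
      rwa [sub_sub_sub_cancel_right] at this
    have h5 : α σ - α τ ∈ m := hinf _ h h4
    have h6 := f5 m (RF m) (em (σ : RF m ≃ₐ[kk A B] RF m)) (α σ) (α τ) (Or.inl h5) (hα2 σ)
    have h7 := f3 m _ _ _ h6 (hα2 τ)
    apply Subtype.ext
    apply AlgEquiv.ext
    intro x
    apply Subtype.ext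
    exact DFunLike.congr_fun h7 x
  have hcard : Nat.card E.fixingSubgroup ≤ Nat.card (box j) := by
    refine Nat.card_le_card_of_injective (fun σ => ⟨cls j (α σ), cls_mem j _⟩) ?_
    intro σ τ h
    exact hinj _ _ (cls_inj hC.B0 hC.mod j _ _ (hα3 σ) (hα3 τ) (congrArg Subtype.val h))
  refine hcard.trans (le_of_eq ?_)
  rw [Nat.card_eq_fintype_card, Fintype.card_coe, card_box]

end

end Pool.Agent.N2V
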