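import Pool.Agent.N2.StER2
import Pool.Agent.MUX.UAll

/-!
# MUX-2R, block ER2: module DS2, the distribution relation for multiplication by 2 (helper44)
-/

set_option autoImplicit false

open Polynomial

namespace Pool.Agent.N2V

open _root_.MU3 Pool.Agent.MU3A Pool.Agent.MU3B Pool.Agent.MUX Pool.Agent.MUXU Pool.Agent.MUXE
open Pool.Agent.RI Pool.Agent.NS Pool.Agent.N2

noncomputable section

namespace DS2

theorem nat_mul {M : PeriodPair} (k : ℕ) {w : ℂ} (h : w ∈ M.lattice) :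
    (k : ℂ) * w ∈ M.lattice := by
  have := nsmul_mem h k
  rwa [nsmul_eq_mul] at this

theorem two_mem {M : PeriodPair} {w : ℂ} (h : w ∈ M.lattice) : 2 * w ∈ M.lattice := by
  have := nat_mul (M := M) 2 h
  exact_mod_cast this

theorem cop_mem {M : PeriodPair} {a : ℕ} (ha : ¬ 2 ∣ a) {w : ℂ} (h2 : 2 * w ∈ M.lattice)
    (h : (a : ℂ) * w ∈ M.lattice) : w ∈ M.lattice := by
  obtain ⟨k, hk⟩ : ∃ k, a = 2 * k + 1 := ⟨a / 2, by omega⟩
  have e : w = (a : ℂ) * w - (k : ℂ) * (2 * w) := by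
    rw [hk]
    push_cast
    ring
  rw [e]
  exact sub_mem h (nat_mul k h2)

/-- the half system `2 H` -/
theorem half {L : PeriodPair} {a : ℕ} (ha : ¬ 2 ∣ a) {H : Finset ℂ}
    (hH : IsHalf L (a : ℂ) H) : IsHalf L (a : ℂ) (H.image fun h => 2 * h) := by
  refine ⟨?_, ?_, ?_, ?_, ?_⟩
  · intro q hq
    obtain ⟨h, hh, rfl⟩ := Finset.mem_image.1 hq
    rw [mul_left_comm]
    exact two_mem (hH.mem h hh)
  · intro q hq h2
    obtain ⟨h, hh, rfl⟩ := Finset.mem_image.1 hq
    refine hH.ne h hh (cop_mem ha h2 ?_)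
    rw [mul_left_comm]
    exact two_mem (hH.mem h hh)
  · intro q hq q' hq' h2
    obtain ⟨h, hh, rfl⟩ := Finset.mem_image.1 hq
    obtain ⟨h', hh', rfl⟩ := Finset.mem_image.1 hq'
    have : h = h' := by
      refine hH.inj h hh h' hh' (cop_mem ha ?_ ?_)
      · rw [mul_sub]; exact h2
      · rw [mul_sub]; exact sub_mem (hH.mem h hh) (hH.mem h' hh')
    rw [this]
  · intro q hq q' hq' h2
    obtain ⟨h, hh, rfl⟩ := Finset.mem_image.1 hq
    obtain ⟨h', hh', rfl⟩ := Finset.mem_image.1 hq'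
    refine hH.neg h hh h' hh' (cop_mem ha ?_ ?_)
    · rw [mul_add]; exact h2
    · rw [mul_add]; exact add_mem (hH.mem h hh) (hH.mem h' hh')
  · intro z hz hzL
    obtain ⟨k, hk⟩ : ∃ k, a = 2 * k + 1 := ⟨a / 2, by omega⟩
    have e1 : z = 2 * (((k + 1 : ℕ) : ℂ) * z) - (a : ℂ) * z := by
      rw [hk]
      push_cast
      ring
    have h1 : (a : ℂ) * (((k + 1 : ℕ) : ℂ) * z) ∈ L.lattice := by
      rw [mul_left_comm]
      exact nat_mul _ hz
    have h2 : ((k + 1 : ℕ) : ℂ) * z ∉ L.lattice := by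
      intro h
      refine hzL ?_
      rw [e1]
      exact sub_mem (two_mem h) hz
    obtain ⟨h, hh, h9⟩ := hH.surj _ h1 h2
    refine ⟨2 * h, Finset.mem_image_of_mem _ hh, ?_⟩
    rcases h9 with h9 | h9
    · left
      have e : z - 2 * h = 2 * (((k + 1 : ℕ) : ℂ) * z - h) - (a : ℂ) * z := by
        linear_combination e1
      rw [e]
      exact sub_mem (two_mem h9) hz
    · right
      have e : z + 2 * h = 2 * (((k + 1 : ℕ) : ℂ) * z + h) - (a : ℂ) * z := by
        linear_combination e1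
      rw [e]
      exact sub_mem (two_mem h9) hz

/-- logarithmic derivatives of a product -/
theorem dprod (S : Finset ℂ) (F : ℂ → ℂ → ℂ) (c : ℂ → ℂ) (z : ℂ)
    (h : ∀ s ∈ S, HasDerivAt (F s) (c s * F s z) z) :
    HasDerivAt (fun x => ∏ s ∈ S, F s x) ((∑ s ∈ S, c s) * ∏ s ∈ S, F s z) z := by
  classical
  induction S using Finset.induction_on with
  | empty => simpa using hasDerivAt_const z (1 : ℂ)
  | insert s S hs ih =>
    have h1 := (h s (Finset.mem_insert_self s S)).mul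
      (ih fun t ht => h t (Finset.mem_insert_of_mem ht))
    have e : (fun x => ∏ t ∈ insert s S, F t x) = (F s) * fun x => ∏ t ∈ S, F t x := by
      funext x
      rw [Finset.prod_insert hs]
      rfl
    rw [e, Finset.sum_insert hs, Finset.prod_insert hs]
    refine h1.congr_deriv ?_
    ring

end DS2

open DS2 in
theorem tv_DS2 : Sv_DS2 := by
  intro L R hR a H ha hH
  have h20 : (2 : ℂ) ≠ 0 := two_ne_zero
  have hisg : Isg L L 2 := fun w hw => two_mem hw
  have ha0 : a ≠ 0 := by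
    rintro rfl
    exact ha (dvd_zero 2)
  have ha0' : (a : ℂ) ≠ 0 := by exact_mod_cast ha0
  have hcard : R.card = 3 := by
    have h1 := b_NUM L 2 R h20 (fun w hw => two_mem hw) ⟨hR.mem, hR.ne, hR.inj, hR.surj⟩
    rw [Complex.norm_ofNat] at h1
    have h2 : ((R.card : ℕ) : ℝ) = 3 := by linarith
    exact_mod_cast h2
  have hC0 : (∏ h ∈ H, ∏ q ∈ R, (L.weierstrassP h - L.weierstrassP q)) ≠ 0 := by
    rw [Finset.prod_ne_zero_iff]
    intro h hh
    rw [Finset.prod_ne_zero_iff]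
    intro q hq h0
    have hhL : h ∉ L.lattice := fun h1 => hH.ne h hh (two_mem h1)
    rcases b_NEQ L q h (hR.ne q hq) hhL (sub_eq_zero.1 h0) with h1 | h1
    · refine hH.ne h hh ?_
      have e : 2 * h = 2 * (h - q) + 2 * q := by ring
      rw [e]
      exact add_mem (two_mem h1) (hR.mem q hq)
    · refine hH.ne h hh ?_
      have e : 2 * h = 2 * (h + q) - 2 * q := by ring
      rw [e]
      exact sub_mem (two_mem h1) (hR.mem q hq)
  refine ⟨hcard, hC0, ?_⟩
  have hH2 := half ha hH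
  have hprod : ∀ z : ℂ, (a : ℂ) * (2 * z) ∉ L.lattice →
      ThetaH L H z * ∏ q ∈ R, ThetaH L H (z + q) =
        (-4) ^ H.card * (∏ h ∈ H, ∏ q ∈ R, (L.weierstrassP h - L.weierstrassP q)) *
          ThetaH L H (2 * z) := by
    intro z hz
    have hz2 : 2 * z ∉ L.lattice := fun h => hz (nat_mul a h)
    have e1 : ThetaH L H (2 * z) =
        ∏ h ∈ H, (L.weierstrassP (2 * z) - L.weierstrassP (2 * h)) := by
      rw [← (b_TIN L a _ _ hH2 hH).1 (2 * z), ThetaH,
        Finset.prod_image fun x _ y _ h => mul_left_cancel₀ h20 h]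
    rw [e1]
    simp only [ThetaH]
    rw [Finset.prod_comm, ← Finset.prod_mul_distrib, ← Finset.prod_const,
      ← Finset.prod_mul_distrib, ← Finset.prod_mul_distrib]
    refine Finset.prod_congr rfl fun h hh => ?_
    have h1 := u_PFI L L 2 R h20 hisg hR z hz2 h (hH.ne h hh)
    have h2 : ∏ q ∈ R, (L.weierstrassP (z + q) - L.weierstrassP h) =
        -∏ q ∈ R, (L.weierstrassP h - L.weierstrassP (z + q)) := by
      have h3 : ∀ q ∈ R, (L.weierstrassP (z + q) - L.weierstrassP h) =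
          (-1) * (L.weierstrassP h - L.weierstrassP (z + q)) := fun q _ => by ring
      rw [Finset.prod_congr rfl h3, Finset.prod_mul_distrib, Finset.prod_const, hcard]
      ring
    rw [h2]
    linear_combination -h1
  intro z hz
  refine ⟨hprod z hz, ?_⟩
  have hna : ((‖(a : ℂ)‖ ^ 2 : ℝ) : ℂ) = (a : ℂ) ^ 2 := by
    rw [Complex.norm_natCast]; push_cast; ring
  have hz0 : (a : ℂ) * z ∉ L.lattice := by
    intro h
    refine hz ?_
    rw [mul_left_comm]
    exact two_mem h
  have hzq : ∀ q ∈ R, (a : ℂ) * (z + q) ∉ L.lattice := by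
    intro q hq h
    refine hz ?_
    have e : (a : ℂ) * (2 * z) = 2 * ((a : ℂ) * (z + q)) - (a : ℂ) * (2 * q) := by ring
    rw [e]
    exact sub_mem (two_mem h) (nat_mul a (hR.mem q hq))
  have d0 : HasDerivAt (ThetaH L H) (dlX L a z * ThetaH L H z) z := by
    have h1 := (b_TDL L a H ha0' (fun w hw => nat_mul a hw) hH z hz0).2
    rw [hna] at h1
    exact h1
  have d1 : ∀ q ∈ R, HasDerivAt (fun x => ThetaH L H (x + q))
      (dlX L a (z + q) * ThetaH L H (z + q)) z := by
    intro q hq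
    have h1 := (b_TDL L a H ha0' (fun w hw => nat_mul a hw) hH (z + q) (hzq q hq)).2
    rw [hna] at h1
    exact h1.comp_add_const z _
  have d2 : HasDerivAt (fun x => ThetaH L H (2 * x))
      (2 * dlX L a (2 * z) * ThetaH L H (2 * z)) z := by
    have h1 := (b_TDL L a H ha0' (fun w hw => nat_mul a hw) hH (2 * z) hz).2
    rw [hna] at h1
    have h2 : HasDerivAt (fun x : ℂ => 2 * x) 2 z := by
      simpa using (hasDerivAt_id z).const_mul (2 : ℂ)
    refine (HasDerivAt.comp z h1 h2).congr_deriv ?_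
    unfold dlX; ring
  have d3 : HasDerivAt (fun x => ThetaH L H x * ∏ q ∈ R, ThetaH L H (x + q))
      ((dlX L a z + ∑ q ∈ R, dlX L a (z + q)) *
        (ThetaH L H z * ∏ q ∈ R, ThetaH L H (z + q))) z := by
    have h1 := d0.mul (dprod R (fun q x => ThetaH L H (x + q)) (fun q => dlX L a (z + q)) z d1)
    refine h1.congr_deriv ?_
    ring
  have hopen : IsOpen {x : ℂ | (a : ℂ) * (2 * x) ∉ L.lattice} := by
    have h1 : IsClosed {x : ℂ | (a : ℂ) * (2 * x) ∈ L.lattice} :=
      L.isClosed_lattice.preimage (by fun_prop : Continuous fun x : ℂ => (a : ℂ) * (2 * x))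
    exact h1.isOpen_compl
  have hev : (fun x => ThetaH L H x * ∏ q ∈ R, ThetaH L H (x + q)) =ᶠ[nhds z]
      fun x => (-4) ^ H.card * (∏ h ∈ H, ∏ q ∈ R, (L.weierstrassP h - L.weierstrassP q)) *
        ThetaH L H (2 * x) := by
    filter_upwards [hopen.mem_nhds hz] with x hx
    exact hprod x hx
  have d4 := (d2.const_mul ((-4) ^ H.card *
    (∏ h ∈ H, ∏ q ∈ R, (L.weierstrassP h - L.weierstrassP q)))).congr_of_eventuallyEq hev
  have h5 := d3.unique d4
  rw [hprod z hz] at h5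
  have hz1 : 2 * z ∉ L.lattice := fun h => hz (nat_mul a h)
  have h6 : ThetaH L H (2 * z) ≠ 0 := by
    intro h0
    exact hz ((b_TNZ L a H (fun w hw => nat_mul a hw) hH (2 * z) hz1).1 h0)
  have h7 : (-4) ^ H.card * (∏ h ∈ H, ∏ q ∈ R, (L.weierstrassP h - L.weierstrassP q)) *
      ThetaH L H (2 * z) ≠ 0 :=
    mul_ne_zero (mul_ne_zero (pow_ne_zero _ (by norm_num)) hC0) h6
  refine mul_right_cancel₀ h7 ?_
  rw [h5]; ring

end

end Pool.Agent.N2V
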