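import Pool.Agent.N2.StER2

/-!
# MUX-2R, block ER2, module FIB: the fibres in terms of the points of level `m'` (helper61)
-/

set_option autoImplicit false

namespace Pool.Agent.N2V

open _root_.MU3 Pool.Agent.MU3A Pool.Agent.MU3B Pool.Agent.MUX Pool.Agent.MUXU Pool.Agent.MUXE
open Pool.Agent.RI Pool.Agent.NS Pool.Agent.N2
open Pool.Agent.MUXV (InK tX)

noncomputable section

namespace FIB61

lemma inj {A B : ℤ} (hR : RingE A B) (x y : OO A B) (h : emb x = emb y) : x = y := by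
  obtain ⟨φ, hφ⟩ := hR.hom
  have h1 : emb (x - y) = 0 := by
    rw [← hφ, map_sub, hφ, hφ, h, sub_self]
  exact sub_eq_zero.1 (hR.inj0 _ h1)

lemma nI_mem {A B : ℤ} (hR : RingE A B) (b : Ideal (OO A B)) :
    ((nI b : ℕ) : OO A B) ∈ b := by
  have := hR.ded
  change ((Ideal.absNorm b : ℕ) : OO A B) ∈ b
  exact Ideal.absNorm_mem b

lemma nI_ne {A B : ℤ} (hR : RingE A B) (b : Ideal (OO A B)) (hb : b ≠ ⊥) : nI b ≠ 0 := by
  have := hR.ded
  change Ideal.absNorm b ≠ 0
  rw [Ne, Ideal.absNorm_eq_zero_iff]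
  exact hb

lemma nat_dvd {A B : ℤ} (m k : ℕ) (h : ((m : ℕ) : OO A B) ∣ ((k : ℕ) : OO A B)) :
    m ∣ k := by
  obtain ⟨z, hz⟩ := h
  have h5 : (k : ℤ) = (m : ℤ) * z.re := by
    have := congrArg QuadraticAlgebra.re hz
    simpa using this
  exact Int.natCast_dvd_natCast.1 ⟨z.re, h5⟩

/-- representatives modulo 2 -/
lemma mod2 {A B : ℤ} (y : OO A B) : ∃ l < 4, ∃ t : OO A B, y - bb l = t + t := by
  have h1 : y.re % 2 = 0 ∨ y.re % 2 = 1 := by omega
  have h2 : y.im % 2 = 0 ∨ y.im % 2 = 1 := by omega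
  rcases h1 with h1 | h1 <;> rcases h2 with h2 | h2
  · refine ⟨0, by norm_num, ⟨y.re / 2, y.im / 2⟩, ?_⟩
    ext <;> simp [bb] <;> omega
  · refine ⟨2, by norm_num, ⟨y.re / 2, y.im / 2⟩, ?_⟩
    ext <;> simp [bb] <;> omega
  · refine ⟨1, by norm_num, ⟨y.re / 2, y.im / 2⟩, ?_⟩
    ext <;> simp [bb] <;> omega
  · refine ⟨3, by norm_num, ⟨y.re / 2, y.im / 2⟩, ?_⟩
    ext <;> simp [bb] <;> omega

lemma mod2_inj {A B : ℤ} {l l' : ℕ} (hl : l < 4) (hl' : l' < 4)
    (h : ∃ t : OO A B, (bb l - bb l' : OO A B) = t + t) : l = l' := by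
  obtain ⟨t, ht⟩ := h
  have h1 := congrArg QuadraticAlgebra.re ht
  have h2 := congrArg QuadraticAlgebra.im ht
  simp [bb] at h1 h2
  omega

lemma bb_zero {A B : ℤ} : (bb 0 : OO A B) = 0 := by
  ext <;> simp [bb]

/-- the facts on the lattice which are used; `N = N(b_i)` -/
structure Fa (A B : ℤ) (b : Ideal (OO A B)) (L : PeriodPair) (om : ℂ) (N : ℕ) : Prop where
  ring : RingE A B
  li : IsLI b L om
  mem : ((N : ℕ) : OO A B) ∈ b
  odd : ¬ 2 ∣ N
  ne : N ≠ 0

section
variable {A B : ℤ} {b : Ideal (OO A B)} {L : PeriodPair} {om : ℂ} {N : ℕ}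

/-- the points of order two -/
def zz (A B : ℤ) (om : ℂ) (N l : ℕ) : ℂ := om * N * emb (bb l : OO A B) / 2

lemma hom2 (h : Fa A B b L om N) : (∀ x y : OO A B, emb (x * y) = emb x * emb y) ∧
    (∀ x y : OO A B, emb (x + y) = emb x + emb y) ∧
    (∀ x y : OO A B, emb (x - y) = emb x - emb y) ∧
    (∀ k : ℕ, emb ((k : ℕ) : OO A B) = (k : ℂ)) := by
  obtain ⟨φ, hφ⟩ := h.ring.hom
  refine ⟨fun x y => ?_, fun x y => ?_, fun x y => ?_, fun k => ?_⟩
  · rw [← hφ, ← hφ, ← hφ, map_mul]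
  · rw [← hφ, ← hφ, ← hφ, map_add]
  · rw [← hφ, ← hφ, ← hφ, map_sub]
  · rw [← hφ, map_natCast]

/-- the multiples `N(b) y` with `y ∈ O` -/
lemma nmem (h : Fa A B b L om N) (y : OO A B) : om * N * emb y ∈ L.lattice := by
  obtain ⟨hm, ha, hs, hn⟩ := hom2 h
  refine (h.li.mem _).2 ⟨((N : ℕ) : OO A B) * y, b.mul_mem_right _ h.mem, ?_⟩
  rw [hm, hn]
  ring

/-- `N(b) y / 2` -/
lemma half_mem (h : Fa A B b L om N) (y : OO A B) (hy : om * N * emb y / 2 ∈ L.lattice) :
    ∃ t : OO A B, y = t + t := by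
  obtain ⟨hm, ha, hs, hn⟩ := hom2 h
  obtain ⟨x, hx, he⟩ := (h.li.mem _).1 hy
  have hom := h.li.om_ne
  obtain ⟨k, hk⟩ : ∃ k, N = 2 * k + 1 := ⟨N / 2, by have := h.odd; omega⟩
  refine ⟨x - (k : ℕ) * y, ?_⟩
  have h1 : ((N : ℕ) : OO A B) * y = x + x := by
    refine inj h.ring _ _ ?_
    rw [hm, ha, hn]
    have h2 : om * ((N : ℂ) * emb y) = om * (emb x + emb x) := by linear_combination 2 * he
    exact mul_left_cancel₀ hom h2
  rw [hk] at h1
  push_cast at h1
  linear_combination h1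

lemma rp (h : Fa A B b L om N) :
    IsRpM L L 2 ((Finset.Ico 1 4).image (zz A B om N)) ∧
    Set.InjOn (zz A B om N) (Finset.Ico 1 4) := by
  obtain ⟨hm, ha, hs, hn⟩ := hom2 h
  have hinj : ∀ l < 4, ∀ l' < 4, zz A B om N l - zz A B om N l' ∈ L.lattice → l = l' := by
    intro l hl l' hl' hll
    refine mod2_inj (A := A) (B := B) hl hl' (half_mem h _ ?_)
    rw [hs]
    have e : om * N * (emb (bb l : OO A B) - emb (bb l' : OO A B)) / 2 =
        zz A B om N l - zz A B om N l' := by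
      unfold zz; ring
    rw [e]; exact hll
  have h0 : zz A B om N 0 = 0 := by
    unfold zz
    rw [bb_zero]
    obtain ⟨φ, hφ⟩ := h.ring.hom
    rw [← hφ, map_zero]; ring
  refine ⟨⟨?_, ?_, ?_, ?_⟩, ?_⟩
  · intro q hq
    obtain ⟨l, hl, rfl⟩ := Finset.mem_image.1 hq
    have e : 2 * zz A B om N l = om * N * emb (bb l : OO A B) := by unfold zz; ring
    rw [e]
    exact nmem h _
  · intro q hq hqL
    obtain ⟨l, hl, rfl⟩ := Finset.mem_image.1 hq
    rw [Finset.mem_Ico] at hl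
    have := hinj l hl.2 0 (by norm_num) (by rw [h0, sub_zero]; exact hqL)
    omega
  · intro q hq q' hq' hqq
    obtain ⟨l, hl, rfl⟩ := Finset.mem_image.1 hq
    obtain ⟨l', hl', rfl⟩ := Finset.mem_image.1 hq'
    rw [Finset.mem_Ico] at hl hl'
    rw [hinj l hl.2 l' hl'.2 hqq]
  · intro z hz hzL
    obtain ⟨y, hy, he⟩ := (h.li.mem _).1 hz
    obtain ⟨l, hl, t, ht⟩ := mod2 y
    obtain ⟨k, hk⟩ : ∃ k, N = 2 * k + 1 := ⟨N / 2, by have := h.odd; omega⟩
    have hz2 : z - zz A B om N l = om * emb (-((k : ℕ) : OO A B) * y + ((N : ℕ) : OO A B) * t) := by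
      have h1 : y - ((N : ℕ) : OO A B) * bb l =
          (-((k : ℕ) : OO A B) * y + ((N : ℕ) : OO A B) * t) +
            (-((k : ℕ) : OO A B) * y + ((N : ℕ) : OO A B) * t) := by
        have h2 : ((N : ℕ) : OO A B) = 2 * ((k : ℕ) : OO A B) + 1 := by
          rw [hk]; push_cast; ring
        linear_combination ((N : ℕ) : OO A B) * ht - y * h2
      have h3 := congrArg emb h1
      rw [ha, hs, hm (((N : ℕ) : OO A B)), hn] at h3
      unfold zz
      linear_combination (1 / 2) * he + (om / 2) * h3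
    have hmem : z - zz A B om N l ∈ L.lattice := by
      refine (h.li.mem _).2 ⟨_, ?_, hz2⟩
      exact b.add_mem (b.mul_mem_left _ hy) (b.mul_mem_right _ h.mem)
    refine ⟨_, Finset.mem_image_of_mem _ ?_, hmem⟩
    rw [Finset.mem_Ico]
    refine ⟨?_, hl⟩
    rcases Nat.eq_zero_or_pos l with rfl | hl0
    · rw [h0, sub_zero] at hmem
      exact absurd hmem hzL
    · exact hl0
  · intro l hl l' hl' hll
    rw [Finset.coe_Ico, Set.mem_Ico] at hl hl'
    exact hinj l hl.2 l' hl'.2 (by rw [hll, sub_self]; exact zero_mem _)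

/-- the value of the constant -/
lemma val (h2 : Sv_GRT) (h3 : Sv_TWO) {V : ValuationSubring ℂ} {u e a1 a3 : ℂ}
    (hg : GoodQ V L u e a1 a3) (hv : V.valuation (2 : ℂ) < 1) {a : ℕ} (ha : ¬ 2 ∣ a)
    {H : Finset ℂ} (hH : IsHalf L (a : ℂ) H) {R : Finset ℂ} (hR : IsRpM L L 2 R)
    (hc : R.card = 3) :
    V.valuation ((-4) ^ H.card * ∏ h ∈ H, ∏ q ∈ R, (L.weierstrassP h - L.weierstrassP q)) =
      V.valuation (u ^ 2) ^ (3 * H.card) := by
  obtain ⟨-, htor⟩ := h2 V L u e a1 a3 hg hv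
  obtain ⟨-, hk, hp, -⟩ := h3 V L u e a1 a3 hg hv
  have hp := hp R hR
  have hu : u ≠ 0 := hg.u0
  have key : ∀ h ∈ H, ∀ q ∈ R, V.valuation (L.weierstrassP h - L.weierstrassP q) =
      V.valuation (u ^ 2) * V.valuation (xu L u e q) := by
    intro h hh q hq
    have e1 : L.weierstrassP h - L.weierstrassP q = u ^ 2 * (xu L u e h - xu L u e q) := by
      unfold xu; field_simp; ring
    have hhL : h ∉ L.lattice := by
      intro hm
      refine hH.ne h hh ?_
      have := nsmul_mem hm 2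
      rw [nsmul_eq_mul] at this
      exact_mod_cast this
    have hhK : ¬ InK V L (xu L u e) h := fun hK => hhL ((htor a ha).2 h (hH.mem h hh) hK)
    have hx1 : V.valuation (xu L u e h) ≤ 1 := by
      rw [ValuationSubring.valuation_le_one_iff]
      by_contra hcon
      exact hhK (Or.inr hcon)
    have hqL : q ∉ L.lattice := hR.ne q hq
    have hqK : InK V L (xu L u e) q := hk 1 q (by rw [pow_one]; exact hR.mem q hq)
    have hx2 : 1 < V.valuation (xu L u e q) := by
      rw [← not_le, ValuationSubring.valuation_le_one_iff]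
      rcases hqK with h | h
      · exact absurd h hqL
      · exact h
    rw [e1, map_mul, Valuation.map_sub_eq_of_lt_right _ (lt_of_le_of_lt hx1 hx2)]
  have v4 : V.valuation (-4 : ℂ) = V.valuation (2 : ℂ) ^ 2 := by
    rw [Valuation.map_neg, ← map_pow]; norm_num
  have h5 : ∀ h ∈ H, V.valuation (∏ q ∈ R, (L.weierstrassP h - L.weierstrassP q)) =
      V.valuation (u ^ 2) ^ 3 * ∏ q ∈ R, V.valuation (xu L u e q) := by
    intro h hh
    rw [map_prod, Finset.prod_congr rfl (key h hh), Finset.prod_mul_distrib, Finset.prod_const, hc]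
  rw [map_mul, map_pow, v4, map_prod, Finset.prod_congr rfl h5, Finset.prod_const, ← mul_pow,
    mul_left_comm, hp, mul_one, ← pow_mul]

end

end FIB61

open FIB61 in
/-- FIB. -/
theorem tv_FIB (h1 : Sv_GRT) (h2 : Sv_TWO) (h3 : Sv_DS2) : Sv_FIB := by
  intro A B P V n f a m m' hS ι R H i hH
  have hR := hS.ctx.ring
  have hnl := R.nl i
  set L := R.L i with hL
  set om := R.om i with hom
  set N := nI (R.b i) with hN
  have hN0 : N ≠ 0 := nI_ne hR _ hnl.b_ne
  have hcop : N.Coprime (2 * f) := R.cop i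
  have hNodd : ¬ 2 ∣ N := by
    intro h
    have h4 := Nat.Coprime.coprime_mul_right_right hcop
    have h5 := Nat.dvd_gcd h (dvd_refl 2)
    rw [Nat.Coprime] at h4
    rw [h4] at h5
    omega
  have hF : Fa A B (R.b i) L om N := ⟨hR, hnl.toIsLI, nI_mem hR _, hNodd, hN0⟩
  obtain ⟨hm, ha, hs, hn⟩ := hom2 hF
  obtain ⟨hRp, hinj⟩ := rp hF
  set R' := (Finset.Ico 1 4).image (zz A B om N) with hR'
  obtain ⟨hc3, hne, hdist⟩ := h3 L R' hRp a (H i) hS.ao hH
  set C : ℂ := ∏ h ∈ H i, ∏ q ∈ R', (L.weierstrassP h - L.weierstrassP q) with hC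
  have hom0 : om ≠ 0 := hnl.om_ne
  have hNC : (N : ℂ) ≠ 0 := by exact_mod_cast hN0
  have hf0 : f ≠ 0 := by have := hS.f3; omega
  have hm'0 : m' ≠ 0 := by
    rw [hS.hm']
    exact mul_ne_zero (pow_ne_zero _ (by norm_num)) hf0
  have hm'C : (m' : ℂ) ≠ 0 := by exact_mod_cast hm'0
  have hmm : m = 2 * m' := by
    rw [hS.hm, hS.hm', show n + 2 = (n + 1) + 1 by ring, pow_succ]
    ring
  have hmC : (m : ℂ) = 2 * m' := by rw [hmm]; push_cast; ring
  have hNm : N.Coprime m' := by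
    rw [hS.hm']
    exact Nat.Coprime.mul_right
      (Nat.Coprime.pow_right _ (Nat.Coprime.coprime_mul_right_right hcop))
      (Nat.Coprime.coprime_mul_left_right hcop)
  have ham : a.Coprime m' := by
    rw [hS.hm']
    refine Nat.Coprime.mul_right (Nat.Coprime.pow_right _ ?_) hS.af
    exact ((Nat.Prime.coprime_iff_not_dvd Nat.prime_two).2 hS.ao).symm
  have hm'1 : m' ≠ 1 := by
    rw [hS.hm', pow_succ]
    intro h
    have : 2 ∣ 1 := ⟨2 ^ n * f, by rw [← h]; ring⟩
    omega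
  have hpt : ∀ x : OO A B, 2 * pt R m i x = pt R m' i x := by
    intro x
    unfold pt
    rw [hmC]
    field_simp
  have hptl : ∀ (x : OO A B) (l : ℕ), pt R m i (x + (m' : OO A B) * bb l) =
      pt R m i x + zz A B om N l := by
    intro x l
    unfold pt zz
    rw [ha, hm, hn, hmC]
    field_simp
    ring
  have hz0 : zz A B om N 0 = 0 := by
    unfold zz
    rw [bb_zero]
    obtain ⟨φ, hφ⟩ := hR.hom
    rw [← hφ, map_zero]; ring
  have hcopx : ∀ x : OO A B, IsCoprime x ((m : ℕ) : OO A B) →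
      IsCoprime x ((m' : ℕ) : OO A B) := by
    intro x hx
    rw [hmm] at hx
    push_cast at hx
    exact IsCoprime.of_mul_right_right hx
  have hnot : ∀ x : OO A B, IsCoprime x ((m : ℕ) : OO A B) →
      (a : ℂ) * (2 * pt R m i x) ∉ L.lattice := by
    intro x hx hmem
    rw [hpt] at hmem
    obtain ⟨y, -, hy⟩ := (hnl.mem _).1 hmem
    have e1 : ((N : ℕ) : OO A B) * (((a : ℕ) : OO A B) * x) = ((m' : ℕ) : OO A B) * y := by
      refine inj hR _ _ ?_
      rw [hm, hm, hm, hn, hn, hn]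
      unfold pt at hy
      have h5 : om * ((N : ℂ) * ((a : ℂ) * emb x)) = om * ((m' : ℂ) * emb y) := by
        have h6 : (a : ℂ) * (om * N * emb x / m') * m' = om * emb y * m' := by
          rw [← hy]
        have h7 : (a : ℂ) * (om * N * emb x / m') * m' = a * (om * N * emb x) := by
          field_simp
        rw [h7] at h6
        linear_combination h6
      exact mul_left_cancel₀ hom0 h5
    have hNm2 : IsCoprime ((N : ℕ) : OO A B) ((m' : ℕ) : OO A B) := by
      obtain ⟨s, t, hst⟩ := Nat.isCoprime_iff_coprime.2 hNm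
      refine ⟨(s : OO A B), (t : OO A B), ?_⟩
      have := congrArg (fun k : ℤ => (k : OO A B)) hst
      push_cast at this
      exact this
    have d1 : ((m' : ℕ) : OO A B) ∣ ((a : ℕ) : OO A B) * x :=
      hNm2.symm.dvd_of_dvd_mul_left ⟨y, e1⟩
    have d2 : ((m' : ℕ) : OO A B) ∣ ((a : ℕ) : OO A B) :=
      (hcopx x hx).symm.dvd_of_dvd_mul_right d1
    have d3 := nat_dvd _ _ d2
    exact hm'1 (Nat.Coprime.eq_one_of_dvd ham.symm d3)
  have main : ∀ x : OO A B, IsCoprime x ((m : ℕ) : OO A B) →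
      GFib R H m m' i x = ((-4) ^ (H i).card * C) * ThetaH L (H i) (pt R m' i x) ∧
        FFib R a m m' i x = 2 * dlX L a (pt R m' i x) := by
    intro x hx
    obtain ⟨h5, h6⟩ := hdist (pt R m i x) (hnot x hx)
    rw [hpt] at h5 h6
    constructor
    · rw [← h5]
      unfold GFib
      rw [Finset.range_eq_Ico, Finset.prod_eq_prod_Ico_succ_bot (by norm_num)]
      simp only [hptl]
      rw [hz0, add_zero, hR', Finset.prod_image hinj]
    · rw [← h6]
      unfold FFib
      rw [Finset.range_eq_Ico, Finset.sum_eq_sum_Ico_succ_bot (by norm_num)]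
      simp only [hptl]
      rw [hz0, add_zero, hR', Finset.sum_image hinj]
  refine ⟨(-4) ^ (H i).card * C, mul_ne_zero (pow_ne_zero _ (by norm_num)) hne, ?_, ?_⟩
  · intro u' e' a1' a3' hg
    exact val h1 h2 hg hS.ctx.v2 hS.ao hH hRp hc3
  · intro x hx
    obtain ⟨h5, h6⟩ := main x hx
    refine ⟨h5, h6, ?_⟩
    intro y hy
    obtain ⟨t, ht⟩ := Ideal.mem_span_singleton.1 hy
    have hyx : y = x + ((m' : ℕ) : OO A B) * t := by linear_combination ht
    have hym' : IsCoprime y ((m' : ℕ) : OO A B) := by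
      rw [hyx]
      exact (IsCoprime.add_mul_left_left_iff).2 (hcopx x hx)
    have hym : IsCoprime y ((m : ℕ) : OO A B) := by
      rw [hmm]
      push_cast
      refine IsCoprime.mul_right ?_ hym'
      have h7 : ((m' : ℕ) : OO A B) = 2 * ((2 ^ n * f : ℕ) : OO A B) := by
        rw [hS.hm']; push_cast; ring
      rw [h7] at hym'
      exact IsCoprime.of_mul_right_left hym'
    obtain ⟨h7, h8⟩ := main y hym
    have hpy : pt R m' i y = pt R m' i x + om * N * emb t := by
      rw [hyx]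
      unfold pt
      rw [ha, hm, hn]
      field_simp
      ring
    have hper := (b_PER L).1
    rw [h5, h6, h7, h8, hpy]
    refine ⟨?_, ?_⟩
    · rw [(b_TIN L a _ _ hH hH).2.2 _ _ (nmem hF t)]
    · unfold dlX
      rw [mul_add, hper _ _ (nmem hF t)]
      have h9 : (a : ℂ) * (om * N * emb t) ∈ L.lattice := by
        have := nsmul_mem (nmem hF t) a
        rwa [nsmul_eq_mul] at this
      rw [hper _ _ h9]

end

end Pool.Agent.N2V
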