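import Pool.Agent.N2.StE2
import Pool.Agent.MUX.E_PT

/-!
# MUX-2N, block E2N, module XXS: stability of the sets `XX` (helper96)
-/

set_option autoImplicit false

namespace Pool.Agent.N2E

open _root_.MU3 Pool.Agent.MU3A Pool.Agent.MU3B Pool.Agent.MUX Pool.Agent.MUXU Pool.Agent.MUXE
open Pool.Agent.RI Pool.Agent.NS Pool.Agent.N2

noncomputable section

namespace XXS

/-- congruent elements give congruent points -/
lemma pt_cong {A B : ℤ} (hr : RingE A B) {n : ℕ} {ι : Type} (R : Reps A B n ι)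
    (hn : n ≠ 0) (i : ι) {m : ℕ} (hm0 : m ≠ 0) {x y : OO A B}
    (hy : x - y ∈ idl (A := A) (B := B) m) :
    pt R m i x - pt R m i y ∈ (R.L i).lattice := by
  obtain ⟨hmu0, hmuL, -, -⟩ := te_PT te_TRA A B hr n ι R hn i
  obtain ⟨t, ht⟩ := Ideal.mem_span_singleton.1 hy
  obtain ⟨φ, hφ⟩ := hr.hom
  have e1 : emb x = (m : ℂ) * emb t + emb y := by
    have : x = ((m : ℕ) : OO A B) * t + y := by rw [← ht]; ring
    rw [this, ← hφ, ← hφ, ← hφ, map_add, map_mul, map_natCast]
  have hmc : (m : ℂ) ≠ 0 := by exact_mod_cast hm0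
  have hu : R.om R.i0 * emb t ∈ (R.L R.i0).lattice := by
    rw [(R.nl R.i0).mem]
    exact ⟨t, by rw [R.b0]; trivial, rfl⟩
  have h5 := hmuL _ hu
  have hom : R.om R.i0 ≠ 0 := (R.nl R.i0).om_ne
  have e4 : muX R i * (R.om R.i0 * emb t) = pt R m i x - pt R m i y := by
    unfold muX pt
    rw [e1]
    field_simp
    ring
  rwa [e4] at h5

/-- the point of level `m` is killed by `m` -/
lemma pt_mul {A B : ℤ} (hr : RingE A B) {n : ℕ} {ι : Type} (R : Reps A B n ι)
    (hn : n ≠ 0) (i : ι) {m : ℕ} (hm0 : m ≠ 0) (x : OO A B) :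
    (m : ℂ) * pt R m i x ∈ (R.L i).lattice := by
  obtain ⟨hmu0, hmuL, -, -⟩ := te_PT te_TRA A B hr n ι R hn i
  have hmc : (m : ℂ) ≠ 0 := by exact_mod_cast hm0
  have hu : R.om R.i0 * emb x ∈ (R.L R.i0).lattice := by
    rw [(R.nl R.i0).mem]
    exact ⟨x, by rw [R.b0]; trivial, rfl⟩
  have h5 := hmuL _ hu
  have hom : R.om R.i0 ≠ 0 := (R.nl R.i0).om_ne
  have e4 : muX R i * (R.om R.i0 * emb x) = (m : ℂ) * pt R m i x := by
    unfold muX pt
    field_simp
  rwa [e4] at h5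

/-- `c x ≡ y` modulo `m` implies that `y` is prime to `m` -/
lemma cop_of {A B : ℤ} {m : ℕ} {x y : OO A B} (hx : IsCoprime x ((m : ℕ) : OO A B))
    (h : x - y ∈ idl (A := A) (B := B) m) : IsCoprime y ((m : ℕ) : OO A B) := by
  obtain ⟨t, ht⟩ := Ideal.mem_span_singleton.1 h
  have e1 : y = x + ((m : ℕ) : OO A B) * (-t) := by
    have : y = x - ((m : ℕ) : OO A B) * t := by rw [← ht]; ring
    rw [this]; ring
  rw [e1]
  exact IsCoprime.add_mul_left_left hx _

end XXS

open XXS in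
theorem td_XXS : Sd_XXS := by
  intro A B V n f a m hS ι R D h
  letI := algC h
  intro τ q hq
  have hr := hS.ctx.ring
  have hf : f ≠ 0 := by have := hS.f3; omega
  have hm0 : m ≠ 0 := by rw [hS.hm]; positivity
  have h2f : 2 * f ≠ 0 := by omega
  have hNL : NL A B (R.L q.1) := ⟨R.b q.1, R.om q.1, R.nl q.1⟩
  obtain ⟨t1, -, t3, -, t5, -, -, -, t9⟩ := te_TRA A B hr (R.L q.1) hNL
  obtain ⟨φ, hφ⟩ := hr.hom
  obtain ⟨a1, σ, a2, a3, ⟨a4, a5, a6⟩⟩ := hq
  refine ⟨?_, ?_⟩
  · -- `-1`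
    have hmk : -(Quotient.out q.2 : OO A B) - Quotient.out (-q.2) ∈
        idl (A := A) (B := B) m := by
      rw [← Ideal.Quotient.eq_zero_iff_mem, map_sub, map_neg, Ideal.Quotient.mk_out,
        Ideal.Quotient.mk_out]
      exact sub_self _
    refine ⟨cop_of a1.neg_left hmk, σ, a2, a3, a4, ?_⟩
    have e1 := pt_cong hr R h2f q.1 hm0 hmk
    have e2 : pt R m q.1 (-(Quotient.out q.2 : OO A B)) = -pt R m q.1 (Quotient.out q.2) := by
      unfold pt
      rw [← hφ, ← hφ, map_neg]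
      ring
    rw [e2] at e1
    have hnz : -(pt R m q.1 (Quotient.out q.2 : OO A B)) ∉ (R.L q.1).lattice :=
      fun h => a6 (by simpa using neg_mem h)
    obtain ⟨b1, b2⟩ := t9 _ _ e1
    obtain ⟨c1, -, c3⟩ := b2 hnz
    refine ⟨?_, fun h => hnz (b1.2 h)⟩
    rw [a5, ← c1, ← c3, neg_neg]
  · intro c s hc hs hsD
    have hmk : c * (Quotient.out q.2 : OO A B) -
        Quotient.out (Ideal.Quotient.mk (idl (A := A) (B := B) m) c * q.2) ∈
        idl (A := A) (B := B) m := by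
      rw [← Ideal.Quotient.eq_zero_iff_mem, map_sub, map_mul, Ideal.Quotient.mk_out,
        Ideal.Quotient.mk_out]
      exact sub_self _
    refine ⟨cop_of (hc.mul_left a1) hmk, σ.trans s, ?_, ?_, ?_, ?_⟩
    · show s (σ (wC A B)) = wC A B
      rw [show σ (wC A B) = wC A B from a2]
      exact hs.fix
    · intro y
      show s (σ (y : ℂ)) = _
      rw [a3 y]
      exact hsD _ (τ y).2
    · show kap (R.L q.1) = s (σ (kap (R.L R.i0)))
      rw [← a4]
      exact (hs.kap _ hNL).symm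
    · have hma : Tor (idl (A := A) (B := B) (m * a)) (R.L q.1)
          (pt R m q.1 (Quotient.out q.2 : OO A B)) := by
        rw [show idl (A := A) (B := B) (m * a) = sp ((m * a : ℕ) : OO A B) from rfl, t5]
        have e3 : emb ((m * a : ℕ) : OO A B) = (a : ℂ) * m := by
          rw [← hφ, map_natCast]
          push_cast
          ring
        rw [e3, mul_assoc]
        have h7 := nsmul_mem (pt_mul hr R h2f q.1 hm0 (Quotient.out q.2 : OO A B)) a
        rwa [nsmul_eq_mul] at h7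
      obtain ⟨d1, d2⟩ := hs.xn _ hNL _ hma a6
      have e1 := pt_cong hr R h2f q.1 hm0 hmk
      have e2 : pt R m q.1 (c * (Quotient.out q.2 : OO A B)) =
          emb c * pt R m q.1 (Quotient.out q.2) := by
        unfold pt
        rw [← hφ, ← hφ, ← hφ, map_mul]
        ring
      rw [e2] at e1
      obtain ⟨b1, b2⟩ := t9 _ _ e1
      obtain ⟨c1, -, -⟩ := b2 d1
      refine ⟨?_, fun h => d1 (b1.2 h)⟩
      show s (σ (xn (R.L R.i0) (pt R m R.i0 1))) = _
      rw [a5, d2, c1]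

end

end Pool.Agent.N2E
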