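import Pool.Agent.N2.StER2
import Pool.Agent.N2.E_ORB
import Pool.Agent.N2.E_XXS
import Pool.Agent.MUX.E_MAIN0
import Pool.Agent.MUX.XLib

/-!
# MUX-2R, block ER2, module FIN: the final form (helper25)
-/

set_option autoImplicit false

open Polynomial

namespace Pool.Agent.N2V

open _root_.MU3 Pool.Agent.MU3A Pool.Agent.MU3B Pool.Agent.MUX Pool.Agent.MUXU Pool.Agent.MUXE
open Pool.Agent.RI Pool.Agent.NS Pool.Agent.N2
open Pool.Agent.N2E (dlg AutC cc)

noncomputable section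

namespace FIN

lemma out_neg {A B : ℤ} {m : ℕ} (q : OO A B ⧸ idl (A := A) (B := B) m) :
    (Quotient.out (-q) : OO A B) - -(Quotient.out q : OO A B) ∈ idl (A := A) (B := B) m := by
  rw [← Ideal.Quotient.eq_zero_iff_mem, map_sub, map_neg, Ideal.Quotient.mk_out,
    Ideal.Quotient.mk_out]
  exact sub_self _

lemma dlX_neg (L : PeriodPair) (a : ℕ) (z : ℂ) : dlX L a (-z) = -dlX L a z := by
  obtain ⟨-, h1⟩ := b_PER L
  unfold dlX
  rw [h1, show (a : ℂ) * -z = -(a * z) by ring, h1]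
  ring

lemma finite_quot (A B : ℤ) (hr : RingE A B) {m : ℕ} (hm : m ≠ 0) :
    Finite (OO A B ⧸ idl (A := A) (B := B) m) := by
  haveI := hr.ded
  exact Ideal.finiteQuotientOfFreeOfNeBot _ (m0_ne A B hr hm)

/-- from the eighth to the fourth power -/
lemma half_pow {G : Type} [LinearOrderedCommGroupWithZero G] {x c : G} (hc : c ≤ 1) {i j : ℕ}
    (hij : 2 * j ≤ i) (h : x ^ 8 ≤ c ^ i) : x ^ 4 ≤ c ^ j := by
  have h1 : (x ^ 4) ^ 2 ≤ (c ^ j) ^ 2 := by
    rw [← pow_mul, ← pow_mul]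
    refine h.trans ?_
    rw [Nat.mul_comm j 2]
    exact pow_le_pow_right_of_le_one' hc hij
  exact (pow_le_pow_iff_left₀ zero_le' zero_le' two_ne_zero).1 h1

end FIN

open FIN in
/-- (FIN) the final form -/
theorem tv_FIN (hCTX : Sv_CTX) (hAUT : N2E.Sd_AUT) (hCON : Sv_CON) (hGLC : Sv_GLC)
    (hXXS : Sv_XXS) (hHEQ : Sv_HEQ) (hHAL : Sv_HAL) (hMAIN : Sv_MAIN) : Sv_FIN := by
  classical
  intro hRF hVL A B P V f hS hT ι _ R u e a1 a3 hG om hom n hn H hH D h hD hcyc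
  letI := algC h
  intro C hC1 hC2
  have hcq : CQ A B := hS.case.toCQ
  have hr : RingE A B := te_RNG A B hcq
  -- the levels
  obtain ⟨ha3, hao, haf⟩ := m0_aX (p := 2) (f := f) (Or.inl rfl) hS.f0
  have hlv : lvX 2 f n = 2 ^ (n + 2) * f := by
    simp [lvX, q0]; ring
  have h3f : 3 ∣ f := by
    have h1 : (3 : ℤ) ∣ 8 * (f : ℤ) := (dvd_mul_right _ _).trans hS.fD
    omega
  have hf3 : 3 ≤ f := Nat.le_of_dvd (Nat.pos_of_ne_zero hS.f0) h3f
  have hred := hRF A B P V hS.case hS.hP hS.hV hT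
  have hgood : ∀ L, NL A B L → ∃ u e a1 a3 : ℂ, GoodQ V L u e a1 a3 := by
    rintro L ⟨b, omL, hL⟩
    obtain ⟨u', e', a1', a3', h1, -⟩ := hred.1 b L omL hL
    exact ⟨u', e', a1', a3', h1⟩
  have hctx : CtxU A B P V := hCTX A B P V hS.case hS.hP hS.hV hT hgood
    (hVL A B V P hcq hS.case.two hS.hV hS.hP.mem hT)
  set m : ℕ := lvX 2 f n with hm
  set a : ℕ := aX 2 f with ha
  set m' : ℕ := 2 ^ (n + 1) * f with hm'
  have hSet : SetV A B P V n f a m m' :=
    { ctx := hctx, tor := hT, n5 := hn, f3 := hf3, fd := h3f, fo := hS.fp, a3 := ha3, ao := hao,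
      af := haf, hm := hlv, hm' := rfl }
  have hm0 : m ≠ 0 := by
    rw [hlv]; exact mul_ne_zero (pow_ne_zero _ two_ne_zero) hS.f0
  have ha0 : a ≠ 0 := by omega
  have hmm : m = 2 * m' := by rw [hlv, hm', pow_succ 2 (n + 1)]; ring
  have h2m : 2 * f ∣ m := by
    rw [hlv]
    exact Nat.mul_dvd_mul (dvd_pow_self 2 (by omega)) dvd_rfl
  have hmb := m0_ne A B hr hm0
  have hmab := m0_ne A B hr (mul_ne_zero hm0 ha0)
  have hnl : ∃ L, NL A B L := ⟨R.L R.i0, R.b R.i0, R.om R.i0, R.nl R.i0⟩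
  obtain ⟨g1, g2, g3⟩ := hGLC A B P V n f a m m' hSet D hcyc
  have hD' := g3 hD hnl
  obtain ⟨k1, -, -, -, -, -⟩ := hCON A B P V n f a m m' hSet
  -- the automorphisms
  have haut : ∀ b : OO A B, ∃ s : ℂ ≃+* ℂ, AutC (idl (m * a)) (cc (NN n f a) b) s := fun b =>
    hAUT A B hr hT hnl _ hmab _ (k1 b).2.2.1 (k1 b).1
  have hstc : ∀ τ : D ≃ₐ[kk A B] D, ∀ q ∈ XX R m h τ,
      (q.1, Ideal.Quotient.mk (idl (A := A) (B := B) m) (cc (NN n f a) w0) * q.2) ∈
        XX R m h τ := by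
    intro τ q hq
    obtain ⟨s, hs⟩ := haut w0
    have e1 : ((1 : ℕ) : OO A B) * w0 = w0 := by rw [Nat.cast_one, one_mul]
    refine (hXXS A B P V n f a m m' hSet ι R D h τ q hq).2 _ s (k1 w0).2.1 hs ?_
    exact g1 1 s (by rw [e1]; exact hs)
  have hstt : ∀ τ : D ≃ₐ[kk A B] D, ∀ q ∈ XX R m h τ, ∀ b : OO A B, (q.1, q.2 +
      Ideal.Quotient.mk (idl (A := A) (B := B) m) ((m' : OO A B) * b)) ∈ XX R m h τ := by
    intro τ q hq b
    have hx : IsCoprime (Quotient.out q.2 : OO A B) ((m : ℕ) : OO A B) := hq.1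
    have hx2 : IsCoprime (Quotient.out q.2 : OO A B) ((2 : ℕ) : OO A B) :=
      hx.of_isCoprime_of_dvd_right (map_dvd (Nat.castRingHom (OO A B))
        (⟨m', hmm⟩ : 2 ∣ m))
    obtain ⟨v, w, hvw⟩ := hx2
    obtain ⟨k, hk⟩ : ∃ k, a = 2 * k + 1 := ⟨(a - 1) / 2, by omega⟩
    set x : OO A B := Quotient.out q.2 with hxd
    set b' : OO A B := (a : OO A B) * v * b with hb'
    have e2 : cc m' b' = cc (NN n f a) (4 * (v * b)) := by
      unfold cc NN
      have h1 : (m' : OO A B) * (a : OO A B) =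
          ((2 ^ (n - 1) * f * a : ℕ) : OO A B) * 4 := by
        have h2 : m' * a = 2 ^ (n - 1) * f * a * 4 := by
          rw [hm']
          obtain ⟨n', rfl⟩ : ∃ n', n = n' + 1 := ⟨n - 1, by omega⟩
          rw [Nat.add_sub_cancel]
          ring
        exact_mod_cast congrArg (Nat.cast : ℕ → OO A B) h2
      rw [hb']
      linear_combination (v * b) * h1
    obtain ⟨s, hs⟩ := haut (4 * (v * b))
    rw [← e2] at hs
    have h4 := (hXXS A B P V n f a m m' hSet ι R D h τ q hq).2 (cc m' b') s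
      (by rw [e2]; exact (k1 _).2.1) hs (g2 b' s hs)
    have e3 : Ideal.Quotient.mk (idl (A := A) (B := B) m) (cc m' b') * q.2 =
        q.2 + Ideal.Quotient.mk (idl (A := A) (B := B) m) ((m' : OO A B) * b) := by
      have h5 : q.2 = Ideal.Quotient.mk (idl (A := A) (B := B) m) x :=
        (Ideal.Quotient.mk_out q.2).symm
      rw [h5, ← map_mul, ← map_add, Ideal.Quotient.eq, Ideal.mem_span_singleton]
      refine ⟨(k : OO A B) * b - (a : OO A B) * b * w, ?_⟩
      have h6 : (a : OO A B) = 2 * (k : OO A B) + 1 := by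
        exact_mod_cast congrArg (Nat.cast : ℕ → OO A B) hk
      have h7 : (m : OO A B) = 2 * (m' : OO A B) := by
        exact_mod_cast congrArg (Nat.cast : ℕ → OO A B) hmm
      have h8 : v * x + w * 2 = 1 := by
        have := hvw
        push_cast at this
        exact this
      unfold cc
      rw [hb', h7]
      linear_combination (m' * a * b) * h8 + (m' * b) * h6
    rw [e3] at h4
    exact h4
  -- the half systems
  have hhal := fun τ : D ≃ₐ[kk A B] D =>
    hHAL A B P V n f a m m' hSet ι R D h τ (hstc τ) (hstt τ)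
  choose S hS1 hS2 hS3 using hhal
  -- the two functions
  have hpt : ∀ (i : ι) (y y' : OO A B), y - y' ∈ idl (A := A) (B := B) m →
      pt R m i y - pt R m i y' ∈ (R.L i).lattice := fun i y y' hy =>
    N2E.XXS.pt_cong hr R (by have := hS.f0; omega) i hm0 hy
  have hptn : ∀ (i : ι) (y : OO A B), pt R m i (-y) = -pt R m i y := by
    intro i y
    have h1 : emb (-y) = -emb y := by
      obtain ⟨φ, hφ⟩ := hr.hom
      rw [← hφ, ← hφ, map_neg]
    unfold pt
    rw [h1]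
    ring
  set F : ι × (OO A B ⧸ idl (A := A) (B := B) m) → ℂ := fun q =>
    ThetaH (R.L q.1) (H q.1) (pt R m q.1 (Quotient.out q.2)) with hF
  set G : ι × (OO A B ⧸ idl (A := A) (B := B) m) → ℂ := fun q =>
    om (Quotient.out q.2) * muX R q.1 *
      dlX (R.L q.1) a (pt R m q.1 (Quotient.out q.2)) with hGd
  have hFn : ∀ q, F (q.1, -q.2) = F q := by
    intro q
    have h1 := hpt q.1 _ _ (out_neg q.2)
    rw [hptn] at h1
    show ThetaH (R.L q.1) (H q.1) (pt R m q.1 (Quotient.out (-q.2))) = _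
    rw [N2E.ORB.th_per (R.L q.1) (a : ℂ) (hH q.1) h1]
    exact (b_TIN (R.L q.1) a (H q.1) (H q.1) (hH q.1) (hH q.1)).2.1 _
  have hGn : ∀ q, G (q.1, -q.2) = G q := by
    intro q
    have h1 := hpt q.1 _ _ (out_neg q.2)
    rw [hptn] at h1
    show om (Quotient.out (-q.2)) * muX R q.1 *
      dlX (R.L q.1) a (pt R m q.1 (Quotient.out (-q.2))) = _
    have h2 : om (Quotient.out (-q.2)) = -om (Quotient.out q.2) := by
      rw [← hom.neg]
      apply hom.per
      have h3 := out_neg q.2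
      rw [Ideal.mem_span_singleton] at h3 ⊢
      exact (map_dvd (Nat.castRingHom (OO A B)) h2m).trans h3
    rw [N2E.ORB.dlX_per (R.L q.1) a h1, dlX_neg, h2]
    show _ = om (Quotient.out q.2) * muX R q.1 *
      dlX (R.L q.1) a (pt R m q.1 (Quotient.out q.2))
    ring
  have hCS : ∀ τ : D ≃ₐ[kk A B] D, C τ = ∏ q ∈ S τ, F q := by
    intro τ
    obtain ⟨S0, hS0, hC0⟩ := hC2 τ
    rw [hC0]
    exact ((hHEQ A B P V n f a m m' hSet ι R D h τ S0 hS0 F (fun q _ => hFn q)).1 (S τ)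
      (hS1 τ))
  have hTT : ∀ τ : D ≃ₐ[kk A B] D, TT2 R om m a h τ = ∑ q ∈ S τ, G q := by
    intro τ
    have h1 := (hHEQ A B P V n f a m m' hSet ι R D h τ (S τ) (hS1 τ) G (fun q _ => hGn q)).2
    unfold TT2
    rw [show (∑ᶠ q ∈ XX R m h τ, om (Quotient.out q.2) * muX R q.1 *
      dlX (R.L q.1) a (pt R m q.1 (Quotient.out q.2))) = ∑ᶠ q ∈ XX R m h τ, G q from rfl, h1]
    ring
  -- the Galois group is finite and commutative
  haveI := hT.fin _ hmb
  let φ : D →ₗ[kk A B] RF (idl (A := A) (B := B) m) :=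
    { toFun := fun y => ⟨y, hD y y.2⟩
      map_add' := fun x y => rfl
      map_smul' := fun c x => by
        apply Subtype.ext
        show ((c • x : D) : ℂ) =
          ((c • (⟨x, hD x x.2⟩ : RF (idl (A := A) (B := B) m)) :
            RF (idl (A := A) (B := B) m)) : ℂ)
        rw [Algebra.smul_def, Algebra.smul_def]
        rfl }
  have hφ : Function.Injective φ := by
    intro x y hxy
    apply Subtype.ext
    exact congrArg (fun z : RF (idl (A := A) (B := B) m) => (z : ℂ)) hxy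
  haveI : FiniteDimensional (kk A B) D := FiniteDimensional.of_injective φ hφ
  haveI : Finite (D ≃ₐ[kk A B] D) := inferInstance
  letI : Fintype (D ≃ₐ[kk A B] D) := Fintype.ofFinite _
  have hcom := m0_comm hT _ hmb D h hD
  have hcop : ∀ (τ : D ≃ₐ[kk A B] D), ∀ q ∈ S τ,
      IsCoprime (Quotient.out q.2 : OO A B) ((m : ℕ) : OO A B) := fun τ q hq =>
    ((hS1 τ).sub q hq).1
  have hv2 : V.valuation (2 : ℂ) ≤ 1 := hctx.v2.le
  have hd3 : dR A ≤ 3 := by unfold dR; split <;> omega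
  refine ⟨fun τ => ?_, ?_⟩
  · have key := (hMAIN A B P V n f a m m' hSet ι R u e a1 a3 hG H hH om hom
      (D ≃ₐ[kk A B] D) S hcop hS2 hS3).1 τ
    rw [hTT]
    exact half_pow hv2 (by omega) key
  · intro g hsq τ'
    have key := (hMAIN A B P V n f a m m' hSet ι R u e a1 a3 hG H hH om hom
      (D ≃ₐ[kk A B] D) (fun τ => S (τ * τ')) (fun τ => hcop _) (fun τ => hS2 _)
      (fun τ => hS3 _)).2 g
    rw [finsum_eq_sum_of_fintype]
    have e1 : (∑ τ : D ≃ₐ[kk A B] D, (g τ : ℂ) * TT2 R om m a h (τ * τ')) =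
        ∑ τ : D ≃ₐ[kk A B] D, (g τ : ℂ) * ∑ q ∈ S (τ * τ'), G q :=
      Finset.sum_congr rfl fun τ _ => by rw [hTT]
    rw [e1]
    refine half_pow hv2 (i := 3 * dR A + 9) (by omega) (key ?_)
    obtain ⟨w, hw, hwp⟩ := hsq
    rw [finprod_eq_prod_of_fintype] at hwp
    obtain ⟨y, hy1, -⟩ := hC1 1
    have hyτ : ∀ τ : D ≃ₐ[kk A B] D, ((τ y : D) : ℂ) = C τ := by
      intro τ
      obtain ⟨y', hy', hy''⟩ := hC1 τ
      have : y' = y := Subtype.ext (hy'.trans hy1.symm)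
      rw [← hy'', this]
    have hw4 : (⟨w, hw⟩ : D) ^ 2 = ∏ τ : D ≃ₐ[kk A B] D, (τ y) ^ g τ := by
      apply Subtype.ext
      rw [IntermediateField.coe_prod]
      rw [show (((⟨w, hw⟩ : D) ^ 2 : D) : ℂ) = w ^ 2 from rfl, hwp]
      refine Finset.prod_congr rfl (fun τ _ => ?_)
      rw [← hyτ τ, ← m0_zpc (D := D)]
    refine ⟨(τ' ⟨w, hw⟩ : D), hD' _ (τ' ⟨w, hw⟩).2, fun k s hs => g1 k s hs _ (τ' ⟨w, hw⟩).2,
      ?_⟩
    have hw5 := congrArg τ' hw4
    rw [map_pow, map_prod] at hw5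
    have hw6 := congrArg (fun y : D => (y : ℂ)) hw5
    push_cast at hw6
    rw [hw6]
    refine Finset.prod_congr rfl (fun τ _ => ?_)
    rw [show (∏ q ∈ S (τ * τ'), ThetaH (R.L q.1) (H q.1)
      (pt R m q.1 (Quotient.out q.2))) = C (τ * τ') from (hCS _).symm,
      hcom τ τ', map_zpow₀, ← hyτ (τ' * τ), m0_zpc]
    rfl

end

end Pool.Agent.N2V
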