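import Pool.Agent.N2.StER2
import Pool.Agent.MUX.E_GAL

/-!
# MUX-2R, block ER2: module GLC, the automorphisms `1 + k N w0` and `1 + m' b` are trivial on `D`,
and `D ≤ RF (m')` (helper64)
-/

set_option autoImplicit false

open Polynomial

namespace Pool.Agent.N2V

open _root_.MU3 Pool.Agent.MU3A Pool.Agent.MU3B Pool.Agent.MUX Pool.Agent.MUXU Pool.Agent.MUXE
open Pool.Agent.RI Pool.Agent.NS Pool.Agent.N2
open Pool.Agent.NSE (IntP)
open Pool.Agent.MUX2 (GRG)
open Pool.Agent.MUXV (InK tX)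
open Pool.Agent.N2E (dlg AutC cc)

noncomputable section

namespace GLC

lemma idl_le {A B : ℤ} {m n : ℕ} (h : n ∣ m) :
    idl (A := A) (B := B) m ≤ idl (A := A) (B := B) n := by
  obtain ⟨c, rfl⟩ := h
  rw [Ideal.span_singleton_le_span_singleton]
  exact ⟨(c : OO A B), by push_cast; ring⟩

lemma lv4 (f : ℕ) : lvX 2 f 0 = 4 * f := by
  unfold lvX q0
  norm_num
  ring

end GLC

/-- GLC. -/
theorem tv_GLC (h1 : Sv_CON) : Sv_GLC := by
  intro A B P V n f a m m' hE D hD
  obtain ⟨c1, ⟨c2, c2'⟩, -⟩ := h1 A B P V n f a m m' hE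
  have hm := hE.hm
  have hm' := hE.hm'
  have hp : 2 ^ (n + 2) ≠ 0 := pow_ne_zero _ two_ne_zero
  have hone : ∀ (j : ℕ) (z : ℂ), z ^ 2 ^ (n + 2) = 1 → z ^ (1 + 2 ^ (n + 2) * j) = z := by
    intro j z hz
    rw [pow_add, pow_one, pow_mul, hz, one_pow, mul_one]
  have d4 : 4 * f ∣ m' := ⟨2 ^ (n - 1), by
    obtain ⟨n', rfl⟩ : ∃ n', n = n' + 1 := ⟨n - 1, by have := hE.n5; omega⟩
    rw [hm']
    simp only [Nat.add_sub_cancel]
    ring⟩
  have dm : m' ∣ m := ⟨2, by rw [hm, hm']; ring⟩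
  have dma : 4 * f ∣ m * a := (d4.trans dm).trans (dvd_mul_right _ _)
  have dz : 2 ^ (n + 2) ∣ m * a := ⟨f * a, by rw [hm]; ring⟩
  have hb4 : ∀ b : OO A B, cc m' b - 1 ∈ idl (A := A) (B := B) (4 * f) := by
    intro b
    have e1 : cc m' b - 1 = (m' : OO A B) * b := by
      unfold cc
      ring
    rw [e1]
    exact Ideal.mul_mem_right _ _ (GLC.idl_le d4 (Ideal.mem_span_singleton_self _))
  refine ⟨?_, ?_, ?_⟩
  · intro k s hs y hy
    obtain ⟨-, -, -, -, c4, -⟩ := c1 ((k : OO A B) * w0)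
    obtain ⟨j, hj⟩ := c2 k
    refine hD s hs.fix ?_ ?_ y hy
    · refine hs.triv (idl (lvX 2 f 0)) (GLC.idl_le ?_) ?_
      · rw [GLC.lv4]; exact dma
      · rw [GLC.lv4]; exact c4
    · intro z hz
      rw [hs.zeta (2 ^ (n + 2)) hp (GLC.idl_le dz) z hz, hj]
      exact hone j z hz
  · intro b s hs y hy
    obtain ⟨j, hj⟩ := c2' b
    refine hD s hs.fix ?_ ?_ y hy
    · refine hs.triv (idl (lvX 2 f 0)) (GLC.idl_le ?_) ?_
      · rw [GLC.lv4]; exact dma
      · rw [GLC.lv4]; exact hb4 b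
    · intro z hz
      rw [hs.zeta (2 ^ (n + 2)) hp (GLC.idl_le dz) z hz, hj]
      exact hone j z hz
  · intro hDm hNL y hy
    have T := hE.tor
    have hR := hE.ctx.ring
    obtain ⟨φ, hφ⟩ := hR.hom
    have hn0 : ∀ n : ℕ, n ≠ 0 → idl (A := A) (B := B) n ≠ ⊥ := by
      intro n hn h0
      have h4 : ((n : ℕ) : OO A B) ∈ idl (A := A) (B := B) n := Ideal.mem_span_singleton_self _
      rw [h0, Ideal.mem_bot] at h4
      have h5 : φ ((n : ℕ) : OO A B) = ((n : ℕ) : ℂ) := map_natCast φ _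
      rw [h4, map_zero] at h5
      exact hn (by exact_mod_cast h5.symm)
    have hf0 : f ≠ 0 := by have := hE.f3; omega
    have hm0 : m ≠ 0 := by rw [hm]; exact mul_ne_zero hp hf0
    have hm'0 : m' ≠ 0 := by rw [hm']; exact mul_ne_zero (pow_ne_zero _ two_ne_zero) hf0
    have i0 := hn0 m hm0
    have i0' := hn0 m' hm'0
    have hmm : idl (A := A) (B := B) m ≤ idl (A := A) (B := B) m' := GLC.idl_le dm
    have hF : RF (idl (A := A) (B := B) m') ≤ RF (idl (A := A) (B := B) m) :=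
      T.mono _ _ hmm
    haveI := T.fin _ i0
    haveI := T.gal _ i0
    set E : IntermediateField (kk A B) (RF (idl (A := A) (B := B) m)) :=
      IntermediateField.restrict hF with hEd
    have key : (⟨y, hDm y hy⟩ : RF (idl (A := A) (B := B) m)) ∈ E := by
      rw [← IsGalois.fixedField_fixingSubgroup E, IntermediateField.mem_fixedField_iff]
      intro σ hσ
      obtain ⟨s, hs, hs1⟩ := Pool.Agent.MUXE.GalX.extd T i0 (em σ)
      have htr : ∀ x ∈ RF (idl (A := A) (B := B) m'), s x = x := by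
        intro x hx
        have hx' := hF hx
        have h4 : (⟨x, hx'⟩ : RF (idl (A := A) (B := B) m)) ∈ E :=
          (IntermediateField.mem_restrict hF _).2 hx
        have h5 := (IntermediateField.mem_fixingSubgroup_iff E _).1 hσ ⟨x, hx'⟩ h4
        rw [← hs1 ⟨x, hx'⟩]
        exact congrArg Subtype.val h5
      obtain ⟨L, b₀, om, hL⟩ := hNL
      obtain ⟨c, ha, ha'⟩ := T.act _ i0 s hs
      obtain ⟨b', L', om', mu, hL', hA⟩ := ha' b₀ L om hL
      have hA' : ActI s (idl (A := A) (B := B) m') c L L' mu := by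
        refine ⟨hA.kap, ?_, hA.isq, fun z hz => hA.act z fun x hx => hz x (hmm hx)⟩
        rw [Ideal.isCoprime_iff_sup_eq] at ha ⊢
        rw [eq_top_iff, ← ha]
        exact sup_le_sup_left hmm c
      obtain ⟨x, hx1, hx⟩ := (T.triv _ c s b₀ L L' om mu i0' hs hL hA' hL'.nrm).1 htr
      obtain ⟨b, hb⟩ := Ideal.mem_span_singleton'.1 hx1
      have hxc : x = cc m' b := by
        unfold cc
        linear_combination -hb
      obtain ⟨j, hj⟩ := c2' b
      have hsy : s y = y := by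
        refine hD s hs ?_ ?_ y hy
        · intro x hx
          refine htr x (T.mono _ _ (GLC.idl_le ?_) hx)
          rw [GLC.lv4]
          exact d4
        · intro z hz
          have h6 := (T.zeta (2 ^ (n + 2)) _ c s b₀ L L' om mu i0 hs hp
            (GLC.idl_le (dvd_trans ⟨f, by rw [hm]⟩ dvd_rfl)) hL hA z hz).2
          rw [h6, hx, hxc, hj]
          exact hone j z hz
      apply Subtype.ext
      show em σ ⟨y, hDm y hy⟩ = y
      rw [hs1]
      exact hsy
    exact (IntermediateField.mem_restrict hF _).1 key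

end

end Pool.Agent.N2V
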