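import Pool.Agent.N2.StE2

/-!
# MUX-2N, block E2N, module GRT: good reduction of the Deuring model (helper72)

Models: `Pool/Agent/NS/E_GRN.lean` (helper2) and `Pool/Agent/MUX/R2_GR2.lean` (helper46).
-/

set_option autoImplicit false

open Polynomial

namespace Pool.Agent.N2E

open _root_.MU3 Pool.Agent.MU3A Pool.Agent.MU3B Pool.Agent.MUX Pool.Agent.MUXU Pool.Agent.MUXE
open Pool.Agent.RI Pool.Agent.NS Pool.Agent.N2
open Pool.Agent.NSE (IntP)
open Pool.Agent.MUX2 (GRG)
open Pool.Agent.MUXV (InK tX)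

noncomputable section

namespace GRT

open WeierstrassCurve.Affine

theorem some_eq {W : WeierstrassCurve.Affine ℂ} {x y x' y' : ℂ} (h : W.Nonsingular x y)
    (h' : W.Nonsingular x' y') (hx : x = x') (hy : y = y') :
    Point.some x y h = Point.some x' y' h' := by
  subst hx hy
  rfl

/-- the homomorphism -/
theorem hom (L : PeriodPair) (e v a b : ℂ) (hv : v ≠ 0) (E1 : 12 * e * v ^ 2 = a ^ 2)
    (E2 : (12 * e ^ 2 - L.g₂) * v ^ 4 = 2 * a * b)
    (E3 : (4 * e ^ 3 - L.g₂ * e - L.g₃) * v ^ 6 = b ^ 2) :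
    ∃ ξ : ℂ →+ (WT a b).Point, (∀ z ∈ L.lattice, ξ z = 0) ∧
      ∀ z, z ∉ L.lattice → ∃ h, ξ z = .some ((L.weierstrassP z - e) * v ^ 2)
        ((L.derivWeierstrassP z * v ^ 3 - a * ((L.weierstrassP z - e) * v ^ 2) - b) / 2) h := by
  classical
  set P : ℂ → ℂ := L.weierstrassP with hP
  set D : ℂ → ℂ := L.derivWeierstrassP with hD
  set X : ℂ → ℂ := fun z => (P z - e) * v ^ 2 with hX0
  set Y : ℂ → ℂ := fun z => (D z * v ^ 3 - a * ((P z - e) * v ^ 2) - b) / 2 with hY0
  have hXe : ∀ z, X z = (P z - e) * v ^ 2 := fun _ => rfl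
  have hYe : ∀ z, Y z = (D z * v ^ 3 - a * ((P z - e) * v ^ 2) - b) / 2 := fun _ => rfl
  set W : WeierstrassCurve.Affine ℂ := WT a b with hW
  have w1 : W.a₁ = a := rfl
  have w2 : W.a₂ = 0 := rfl
  have w3 : W.a₃ = b := rfl
  have w4 : W.a₄ = 0 := rfl
  have w6 : W.a₆ = 0 := rfl
  -- the facts
  have hsq : ∀ z, z ∉ L.lattice → D z ^ 2 = 4 * P z ^ 3 - L.g₂ * P z - L.g₃ :=
    fun z hz => L.derivWeierstrassP_sq z hz
  have hpar : ∀ z, P (-z) = P z ∧ D (-z) = -D z := fun z =>
    ⟨L.weierstrassP_neg z, L.derivWeierstrassP_neg z⟩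
  have hper : ∀ z, ∀ u ∈ L.lattice, P (z + u) = P z ∧ D (z + u) = D z := by
    intro z u hu
    exact ⟨L.weierstrassP_add_coe z ⟨u, hu⟩, L.derivWeierstrassP_add_coe z ⟨u, hu⟩⟩
  have hinj : ∀ z z', z ∉ L.lattice → z' ∉ L.lattice → P z = P z' →
      z - z' ∈ L.lattice ∨ z + z' ∈ L.lattice := fun z z' hz hz' hx =>
    b_NEQ L z' z hz' hz hx
  have hy0 : ∀ z, z ∉ L.lattice → (D z = 0 ↔ 2 * z ∈ L.lattice) := fun z hz => b_ZER L z hz
  have hadd := b_ADD L
  have hdbl := b_DUP L
  have hv2 : v ^ 2 ≠ 0 := pow_ne_zero 2 hv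
  have hv3 : v ^ 3 ≠ 0 := pow_ne_zero 3 hv
  have ns : ∀ z, z ∉ L.lattice → W.Nonsingular (X z) (Y z) := by
    intro z hz
    rw [WeierstrassCurve.Affine.nonsingular_iff', WeierstrassCurve.Affine.equation_iff, w1, w2, w3,
      w4, w6, hXe, hYe]
    refine ⟨by
      linear_combination (v ^ 6 / 4) * hsq z hz + ((P z - e) ^ 2 * v ^ 4 / 4) * E1 +
        ((P z - e) * v ^ 2 / 4) * E2 + (1 / 4 : ℂ) * E3, ?_⟩
    by_contra hcon
    rw [not_or, not_not, not_not] at hcon
    obtain ⟨hx, hy⟩ := hcon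
    have h1 := hsq z hz
    have h2 : D z = 0 := by
      apply mul_left_cancel₀ hv3
      linear_combination hy
    rw [h2] at h1 hx
    have e2 : L.g₂ = 12 * P z ^ 2 := by
      apply mul_left_cancel₀ (pow_ne_zero 4 hv)
      linear_combination 4 * hx - 2 * ((P z - e) * v ^ 2) * E1 - E2
    have e3 : L.g₃ = -8 * P z ^ 3 := by
      linear_combination h1 - P z * e2
    apply (b_DSC L).1
    rw [e2, e3]
    ring
  set f : ℂ → W.Point := fun z => if h : z ∈ L.lattice then 0 else Point.some _ _ (ns z h) with hf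
  have hf0 : ∀ z, z ∈ L.lattice → f z = 0 := fun z hz => dif_pos hz
  have hf1 : ∀ z (hz : z ∉ L.lattice), f z = Point.some _ _ (ns z hz) := fun z hz => dif_neg hz
  have hfper : ∀ z, ∀ u ∈ L.lattice, f (z + u) = f z := by
    intro z u hu
    by_cases hz : z ∈ L.lattice
    · rw [hf0 z hz, hf0 _ (add_mem hz hu)]
    · have hzu : z + u ∉ L.lattice := fun h => hz (by
        have := sub_mem h hu
        rwa [add_sub_cancel_right] at this)
      rw [hf1 z hz, hf1 _ hzu]
      exact some_eq _ _ (by rw [hXe, hXe, (hper z u hu).1])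
        (by rw [hYe, hYe, (hper z u hu).1, (hper z u hu).2])
  have hnegY : ∀ x y : ℂ, W.negY x y = -y - a * x - b := by
    intro x y
    rw [WeierstrassCurve.Affine.negY, w1, w3]
  have hmap : ∀ z z', f (z + z') = f z + f z' := by
    intro z z'
    by_cases hz : z ∈ L.lattice
    · rw [hf0 z hz, zero_add, add_comm z z', hfper z' z hz]
    by_cases hz' : z' ∈ L.lattice
    · rw [hf0 z' hz', add_zero, hfper z z' hz']
    by_cases hzz : z + z' ∈ L.lattice
    · rw [hf0 _ hzz, hf1 z hz, hf1 z' hz']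
      have e : z = -z' + (z + z') := by ring
      have hx : P z = P z' := by
        rw [e, (hper (-z') _ hzz).1, (hpar z').1]
      have hy : D z = -D z' := by
        rw [e, (hper (-z') _ hzz).2, (hpar z').2]
      exact (Point.add_of_Y_eq (by rw [hXe, hXe, hx])
        (by rw [hnegY, hYe, hYe, hXe, hx, hy]; ring)).symm
    by_cases hzd : z - z' ∈ L.lattice
    · have e1 : f z' = f z := by
        have := hfper z' _ hzd
        rw [← this]
        congr 1
        ring
      have e2 : f (z + z') = f (2 * z) := by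
        have := hfper (z + z') _ hzd
        rw [← this]
        congr 1
        ring
      have h2z : 2 * z ∉ L.lattice := by
        intro h
        apply hzz
        have := sub_mem h hzd
        have e : z + z' = 2 * z - (z - z') := by ring
        rwa [e]
      have hy : D z ≠ 0 := fun h => h2z ((hy0 z hz).1 h)
      have hyne : Y z ≠ W.negY (X z) (Y z) := by
        rw [hnegY, hYe, hXe]
        intro h0
        apply hy
        apply mul_left_cancel₀ hv3
        linear_combination h0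
      rw [e1, e2, hf1 z hz, hf1 _ h2z, Point.add_self_of_Y_ne hyne]
      have hsl : W.slope (X z) (X z) (Y z) (Y z) =
          (6 * P z ^ 2 - L.g₂ / 2) / (2 * D z) * v - a / 2 := by
        rw [WeierstrassCurve.Affine.slope_of_Y_ne rfl hyne, hnegY, w1, w2, w4]
        have h3 : Y z - (-Y z - a * X z - b) = D z * v ^ 3 := by rw [hYe, hXe]; ring
        rw [h3, hYe, hXe]
        have h4 : D z * v ^ 3 ≠ 0 := mul_ne_zero hy hv3
        rw [div_eq_iff h4]
        have h5 : (6 * P z ^ 2 - L.g₂ / 2) / (2 * D z) * D z = (6 * P z ^ 2 - L.g₂ / 2) / 2 := by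
          field_simp
        linear_combination (-v ^ 2 * (P z - e) / 2) * E1 - (1 / 4 : ℂ) * E2 - v ^ 4 * h5
      obtain ⟨hd1, hd2⟩ := hdbl z h2z
      have hX : W.addX (X z) (X z)
          (W.slope (X z) (X z) (Y z) (Y z)) = X (2 * z) := by
        rw [WeierstrassCurve.Affine.addX, hsl, w1, w2, hXe, hXe]
        linear_combination -(v ^ 2) * hd1 + (1 / 4 : ℂ) * E1
      apply some_eq
      · exact hX.symm
      · rw [WeierstrassCurve.Affine.addY, WeierstrassCurve.Affine.negAddY, hnegY, hX, hsl]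
        rw [hYe, hYe, hXe, hXe]
        linear_combination (v ^ 3 / 2) * hd2
    · have hxne : X z ≠ X z' := by
        intro h
        have h' : P z = P z' := by
          rw [hXe, hXe] at h
          have := mul_right_cancel₀ hv2 h
          linear_combination this
        rcases hinj z z' hz hz' h' with h3 | h3
        · exact hzd h3
        · exact hzz h3
      rw [hf1 z hz, hf1 z' hz', hf1 _ hzz, Point.add_of_X_ne hxne]
      have hsl : W.slope (X z) (X z') (Y z) (Y z') =
          (D z - D z') / (2 * (P z - P z')) * v - a / 2 := by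
        rw [WeierstrassCurve.Affine.slope_of_X_ne hxne]
        have h3 : X z - X z' = (P z - P z') * v ^ 2 := by rw [hXe, hXe]; ring
        have h4 : P z - P z' ≠ 0 := by
          intro h
          apply hxne
          rw [← sub_eq_zero, h3, h, zero_mul]
        rw [h3, hYe, hYe]
        field_simp
        ring
      obtain ⟨ha1, ha2⟩ := hadd z' z hz' hz hzz hzd
      have hX : W.addX (X z) (X z')
          (W.slope (X z) (X z') (Y z) (Y z')) = X (z + z') := by
        rw [WeierstrassCurve.Affine.addX, hsl, w1, w2, hXe, hXe, hXe]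
        linear_combination -(v ^ 2) * ha1 + (1 / 4 : ℂ) * E1
      apply some_eq
      · exact hX.symm
      · rw [WeierstrassCurve.Affine.addY, WeierstrassCurve.Affine.negAddY, hnegY, hX, hsl]
        rw [hYe, hYe, hXe, hXe]
        linear_combination (v ^ 3 / 2) * ha2
  exact ⟨⟨⟨f, hf0 0 L.lattice.zero_mem⟩, hmap⟩, fun z hz => hf0 z hz,
    fun z hz => ⟨ns z hz, hf1 z hz⟩⟩

theorem disc (a b : ℂ) : (WT a b).Δ = b * b * b * (a ^ 3 - 3 * 3 * 3 * b) := by
  have w1 : (WT a b).a₁ = a := rfl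
  have w2 : (WT a b).a₂ = 0 := rfl
  have w3 : (WT a b).a₃ = b := rfl
  have w4 : (WT a b).a₄ = 0 := rfl
  have w6 : (WT a b).a₆ = 0 := rfl
  rw [WeierstrassCurve.Δ, WeierstrassCurve.b₂, WeierstrassCurve.b₄, WeierstrassCurve.b₆,
    WeierstrassCurve.b₈, w1, w2, w3, w4, w6]
  ring

end GRT

/-- (GRT) the Deuring model has good reduction -/
theorem td_GRT (h1 : Sd_COE) : Sd_GRT := by
  intro V L u e a b hG h2
  obtain ⟨e1, e2, e3, v3, -⟩ := h1 V L u e a b hG h2
  have hu := hG.u0
  have hui : u⁻¹ ≠ 0 := inv_ne_zero hu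
  have huu : u * u⁻¹ = 1 := mul_inv_cancel₀ hu
  have vb := hG.v3
  have va : V.valuation a < 1 := lt_of_le_of_lt hG.v1 h2
  obtain ⟨ξ, h0, hs⟩ := GRT.hom L e u⁻¹ a b hui
    (by
      rw [e1, mul_assoc, ← mul_pow, huu, one_pow, mul_one])
    (by
      rw [e2, mul_assoc, ← mul_pow, huu, one_pow, mul_one])
    (by
      rw [e3, mul_assoc, ← mul_pow, huu, one_pow, mul_one])
  refine ⟨ξ, ?_, ?_, fun z hz => ?_, h0⟩
  · refine ⟨?_, ?_, ?_, ?_, ?_⟩
    · show V.valuation a ≤ 1
      exact va.le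
    · show V.valuation 0 ≤ 1
      rw [map_zero]
      exact zero_le_one
    · show V.valuation b ≤ 1
      rw [vb]
    · show V.valuation 0 ≤ 1
      rw [map_zero]
      exact zero_le_one
    · show V.valuation 0 ≤ 1
      rw [map_zero]
      exact zero_le_one
  · rw [GRT.disc]
    have h4 : V.valuation (3 * 3 * 3 * b) = 1 := by
      simp only [map_mul, v3, vb, mul_one]
    have h5 : V.valuation (a ^ 3) < 1 := by
      rw [map_pow]
      exact pow_lt_one₀ zero_le va (by norm_num)
    have h6 : V.valuation (a ^ 3 - 3 * 3 * 3 * b) = 1 := by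
      have h7 : V.valuation (a ^ 3 - 3 * 3 * 3 * b) = V.valuation (3 * 3 * 3 * b) :=
        Valuation.map_sub_eq_of_lt_right _ (by rw [h4]; exact h5)
      rw [h7, h4]
    simp only [map_mul, vb, h6, mul_one]
  · obtain ⟨hn, hx⟩ := hs z hz
    have g1 : (L.weierstrassP z - e) * u⁻¹ ^ 2 = xu L u e z := by
      unfold xu
      field_simp
    have g2 : (L.derivWeierstrassP z * u⁻¹ ^ 3 - a * ((L.weierstrassP z - e) * u⁻¹ ^ 2) - b) / 2 =
        yt L u e a b z := by
      rw [g1]
      unfold yt et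
      field_simp
    have hn' : (WT a b).Nonsingular (xu L u e z) (yt L u e a b z) := by
      rw [← g1, ← g2]; exact hn
    exact ⟨hn', hx.trans (GRT.some_eq _ _ g1 g2)⟩

end

end Pool.Agent.N2E
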