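import Pool.Agent.N2.StER2
import Pool.Agent.N2.E_GRT
import Pool.Agent.MUX.VG

/-!
# MUX-2R, block ER2, module GRT: good reduction of the Deuring model, points of odd order

Port of `Pool/Agent/N2/E_GRT.lean` and of the first part of `Pool/Agent/N2/E_TPT.lean`.
-/

set_option autoImplicit false

open Polynomial

namespace Pool.Agent.N2V

open _root_.MU3 Pool.Agent.MU3A Pool.Agent.MU3B Pool.Agent.MUX Pool.Agent.MUXU Pool.Agent.MUXE
open Pool.Agent.RI Pool.Agent.NS Pool.Agent.N2
open Pool.Agent.NSE (IntP)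
open Pool.Agent.MUX2 (GRG)
open Pool.Agent.MUXV (InK tX)
open Pool.Agent.N2E (dlg AutC cc)

noncomputable section

namespace GRT

theorem v_int (V : ValuationSubring ℂ) (a : ℤ) : V.valuation (a : ℂ) ≤ 1 :=
  (V.valuation_le_one_iff _).2 (intCast_mem V a)

/-- odd integers are units at `V` -/
theorem v_nat (V : ValuationSubring ℂ) (h2 : V.valuation (2 : ℂ) < 1) (N : ℕ) (hN : ¬ 2 ∣ N) :
    V.valuation (N : ℂ) = 1 := by
  obtain ⟨k, hk⟩ : ∃ k : ℕ, N = 2 * k + 1 := ⟨N / 2, by omega⟩
  refine le_antisymm ?_ (not_lt.1 fun hlt => ?_)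
  · have := v_int V (N : ℤ)
    rwa [Int.cast_natCast] at this
  · have h3 : V.valuation ((2 : ℂ) * (k : ℂ)) < 1 := by
      rw [map_mul]
      have := v_int V (k : ℤ)
      rw [Int.cast_natCast] at this
      exact lt_of_le_of_lt (mul_le_of_le_one_right' this) h2
    have h4 := Valuation.map_sub_lt V.valuation hlt h3
    have h5 : (N : ℂ) - 2 * (k : ℂ) = 1 := by
      rw [hk]
      push_cast
      ring
    rw [h5, map_one] at h4
    exact lt_irrefl _ h4

end GRT

/-- (GRT) the Deuring model has good reduction; points of odd order -/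
theorem tv_GRT (h1 : Sv_COE) : Sv_GRT := by
  intro V L u e a b hG h2
  obtain ⟨e1, e2, e3, v3, va, -⟩ := h1 V L u e a b hG h2
  have hu := hG.u0
  have hui : u⁻¹ ≠ 0 := inv_ne_zero hu
  have huu : u * u⁻¹ = 1 := mul_inv_cancel₀ hu
  have vb := hG.v3
  obtain ⟨ξ, h0, hs⟩ := Pool.Agent.N2E.GRT.hom L e u⁻¹ a b hui
    (by
      rw [e1, mul_assoc, ← mul_pow, huu, one_pow, mul_one])
    (by
      rw [e2, mul_assoc, ← mul_pow, huu, one_pow, mul_one])
    (by
      rw [e3, mul_assoc, ← mul_pow, huu, one_pow, mul_one])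
  have G : GRG V (WT a b) L (xu L u e) (yt L u e a b) ξ := by
    refine ⟨?_, ?_, fun z hz => ?_, h0⟩
    · refine ⟨?_, ?_, ?_, ?_, ?_⟩
      · show V.valuation a ≤ 1
        exact va.le
      · show V.valuation 0 ≤ 1
        rw [map_zero]
        exact zero_le_one
      · show V.valuation b ≤ 1
        rw [vb]
      · show V.valuation 0 ≤ 1
        rw [map_zero]
        exact zero_le_one
      · show V.valuation 0 ≤ 1
        rw [map_zero]
        exact zero_le_one
    · rw [Pool.Agent.N2E.GRT.disc]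
      have h4 : V.valuation (3 * 3 * 3 * b) = 1 := by
        simp only [map_mul, v3, vb, mul_one]
      have h5 : V.valuation (a ^ 3) < 1 := by
        rw [map_pow]
        exact pow_lt_one₀ zero_le va (by norm_num)
      have h6 : V.valuation (a ^ 3 - 3 * 3 * 3 * b) = 1 := by
        have h7 : V.valuation (a ^ 3 - 3 * 3 * 3 * b) = V.valuation (3 * 3 * 3 * b) :=
          Valuation.map_sub_eq_of_lt_right _ (by rw [h4]; exact h5)
        rw [h7, h4]
      simp only [map_mul, vb, h6, mul_one]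
    · obtain ⟨hn, hx⟩ := hs z hz
      have g1 : (L.weierstrassP z - e) * u⁻¹ ^ 2 = xu L u e z := by
        unfold xu
        field_simp
      have g2 : (L.derivWeierstrassP z * u⁻¹ ^ 3 - a * ((L.weierstrassP z - e) * u⁻¹ ^ 2) - b) / 2 =
          yt L u e a b z := by
        rw [g1]
        unfold yt et
        field_simp
      have hn' : (WT a b).Nonsingular (xu L u e z) (yt L u e a b z) := by
        rw [← g1, ← g2]; exact hn
      exact ⟨hn', hx.trans (Pool.Agent.N2E.GRT.some_eq _ _ g1 g2)⟩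
  exact ⟨⟨ξ, G⟩, fun N hN => ⟨GRT.v_nat V h2 N hN, fun z hz hK =>
    Pool.Agent.MUX2.gmem_of_nat_mul G hK (GRT.v_nat V h2 N hN) hz⟩⟩

end

end Pool.Agent.N2V
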