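import Pool.Agent.N2.StER2
import Pool.Agent.N2.E_HAL

/-!
# MUX-2R, block ER2: module HAL, half systems which are stable under `1 + N w0` and `m' b`
-/

set_option autoImplicit false

open Polynomial

namespace Pool.Agent.N2V

open _root_.MU3 Pool.Agent.MU3A Pool.Agent.MU3B Pool.Agent.MUX Pool.Agent.MUXU Pool.Agent.MUXE
open Pool.Agent.RI Pool.Agent.NS Pool.Agent.N2
open Pool.Agent.NSE (IntP)
open Pool.Agent.MUX2 (GRG)
open Pool.Agent.MUXV (InK tX)
open Pool.Agent.N2E (dlg AutC cc)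

noncomputable section

open Pool.Agent.N2E.HAL in
/-- HAL. -/
theorem tv_HAL (h1 : Sv_CON) (h2 : Sv_XXS) : Sv_HAL := by
  classical
  intro A B P V n f a m m' hS ι _ R D h
  letI := algC h
  intro τ hst htr
  have hcq := hS.ctx.cq
  have hf3 := hS.f3
  have hm : m ≠ 0 := by
    rw [hS.hm]
    exact mul_ne_zero (pow_ne_zero _ two_ne_zero) (by omega)
  have hfm : f ∣ m := by
    rw [hS.hm]
    exact dvd_mul_left _ _
  have hfm' : f ∣ m' := by
    rw [hS.hm']
    exact dvd_mul_left _ _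
  have hbot : ∀ k : ℕ, k ≠ 0 → idl (A := A) (B := B) k ≠ ⊥ := by
    intro k hk h0
    rw [Ideal.span_singleton_eq_bot] at h0
    exact natCast_ne_zero' hcq hk h0
  haveI : Finite (OO A B ⧸ idl (A := A) (B := B) m) := finite_quot hcq (hbot m hm)
  haveI : Finite (OO A B ⧸ idl (A := A) (B := B) f) := finite_quot hcq (hbot f (by omega))
  have hle : idl (A := A) (B := B) m ≤ idl (A := A) (B := B) f := by
    rw [Ideal.span_singleton_le_span_singleton]
    obtain ⟨k, hk⟩ := hfm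
    exact ⟨(k : OO A B), by rw [hk]; push_cast; ring⟩
  set r : (OO A B ⧸ idl (A := A) (B := B) m) →+* (OO A B ⧸ idl (A := A) (B := B) f) :=
    Ideal.Quotient.factor hle with hr
  have hrm : ∀ x : OO A B, r (Ideal.Quotient.mk _ x) = Ideal.Quotient.mk _ x := fun x =>
    Ideal.Quotient.factor_mk hle x
  obtain ⟨j, hj⟩ := exists_injective_nat (OO A B ⧸ idl (A := A) (B := B) f)
  set c : OO A B := cc (NN n f a) w0 with hc
  have hc1 : r (Ideal.Quotient.mk _ c) = 1 := by
    rw [hrm, ← map_one (Ideal.Quotient.mk (idl (A := A) (B := B) f)), Ideal.Quotient.eq]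
    have h3 := ((h1 A B P V n f a m m' hS).1 w0).2.2.2.2.1
    rw [← hc] at h3
    have h4 : idl (A := A) (B := B) (4 * f) ≤ idl (A := A) (B := B) f := by
      rw [Ideal.span_singleton_le_span_singleton]
      exact ⟨4, by push_cast; ring⟩
    exact h4 h3
  have hrc : ∀ X, r (Ideal.Quotient.mk _ c * X) = r X := by
    intro X
    rw [map_mul, hc1, one_mul]
  have hrt : ∀ X, ∀ b : OO A B, r (X + Ideal.Quotient.mk _ ((m' : OO A B) * b)) = r X := by
    intro X b
    have h3 : r (Ideal.Quotient.mk _ ((m' : OO A B) * b)) = 0 := by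
      rw [hrm, Ideal.Quotient.eq_zero_iff_mem, Ideal.mem_span_singleton]
      obtain ⟨k, hk⟩ := hfm'
      exact ⟨(k : OO A B) * b, by rw [hk]; push_cast; ring⟩
    rw [map_add, h3, add_zero]
  have hne : ∀ q ∈ XX R m h τ, r q.2 ≠ -r q.2 := by
    intro q hq h0
    have h3 : q.2 = Ideal.Quotient.mk _ (Quotient.out q.2 : OO A B) := (Quotient.out_eq q.2).symm
    have h4 : r q.2 + r q.2 = 0 := by
      nth_rewrite 1 [h0]
      exact neg_add_cancel _
    rw [h3, hrm, ← map_add, Ideal.Quotient.eq_zero_iff_mem, ← two_mul] at h4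
    exact two_mul_notMem hf3 hS.fo hfm hq.1 h4
  have hfin : {q | q ∈ XX R m h τ ∧ j (r q.2) < j (-r q.2)}.Finite := Set.toFinite _
  have hmem : ∀ q, q ∈ hfin.toFinset ↔ q ∈ XX R m h τ ∧ j (r q.2) < j (-r q.2) := by
    intro q
    rw [Set.Finite.mem_toFinset]
    rfl
  refine ⟨hfin.toFinset, ⟨?_, ?_, ?_⟩, ?_, ?_⟩
  · intro q hq
    exact ((hmem q).1 hq).1
  · intro q hq
    have h3 : j (r q.2) ≠ j (-r q.2) := fun h4 => hne q hq (hj h4)
    rcases lt_or_gt_of_ne h3 with h4 | h4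
    · exact Or.inl ((hmem q).2 ⟨hq, h4⟩)
    · right
      refine (hmem _).2 ⟨(h2 A B P V n f a m m' hS ι R D h τ q hq).1, ?_⟩
      change j (r (-q.2)) < j (-r (-q.2))
      rw [map_neg, neg_neg]
      exact h4
  · intro q hq h3
    have h4 := ((hmem q).1 hq).2
    have h5 : j (r (-q.2)) < j (-r (-q.2)) := ((hmem _).1 h3).2
    rw [map_neg, neg_neg] at h5
    omega
  · intro q hq
    obtain ⟨h3, h4⟩ := (hmem q).1 hq
    refine (hmem _).2 ⟨hst q h3, ?_⟩
    change j (r (Ideal.Quotient.mk _ c * q.2)) < j (-r (Ideal.Quotient.mk _ c * q.2))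
    rw [hrc]
    exact h4
  · intro q hq b
    obtain ⟨h3, h4⟩ := (hmem q).1 hq
    refine (hmem _).2 ⟨htr q h3 b, ?_⟩
    change j (r (q.2 + Ideal.Quotient.mk _ ((m' : OO A B) * b))) <
      j (-r (q.2 + Ideal.Quotient.mk _ ((m' : OO A B) * b)))
    rw [hrt]
    exact h4

end

end Pool.Agent.N2V
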