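import Pool.Agent.N2.StE2

/-!
# MUX-2N, block E2N, module HEQ (helper4): sums and products of even functions over half systems
-/

set_option autoImplicit false

namespace Pool.Agent.N2E

open _root_.MU3 Pool.Agent.MU3A Pool.Agent.MU3B Pool.Agent.MUX Pool.Agent.MUXU Pool.Agent.MUXE
open Pool.Agent.RI Pool.Agent.NS Pool.Agent.N2

noncomputable section

namespace HEQ

variable {α : Type} [DecidableEq α] {X : Set α} {S S' : Finset α} {ν : α → α}

lemma prod_eq (hνν : ∀ q, ν (ν q) = q) (sub : ∀ q ∈ S, q ∈ X) (cov : ∀ q ∈ X, q ∈ S ∨ ν q ∈ S)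
    (dis : ∀ q ∈ S, ν q ∉ S) (sub' : ∀ q ∈ S', q ∈ X) (cov' : ∀ q ∈ X, q ∈ S' ∨ ν q ∈ S')
    (dis' : ∀ q ∈ S', ν q ∉ S') (F : α → ℂ) (hF : ∀ q ∈ X, F (ν q) = F q) :
    ∏ q ∈ S, F q = ∏ q ∈ S', F q := by
  refine Finset.prod_bij' (fun q _ => if q ∈ S' then q else ν q)
    (fun q _ => if q ∈ S then q else ν q) ?_ ?_ ?_ ?_ ?_
  · intro q hq
    by_cases h : q ∈ S'
    · simp only [if_pos h]; exact h
    · simp only [if_neg h]; exact (cov' q (sub q hq)).resolve_left h
  · intro q hq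
    by_cases h : q ∈ S
    · simp only [if_pos h]; exact h
    · simp only [if_neg h]; exact (cov q (sub' q hq)).resolve_left h
  · intro q hq
    by_cases h : q ∈ S'
    · simp only [if_pos h, if_pos hq]
    · simp only [if_neg h, if_neg (dis q hq), hνν]
  · intro q hq
    by_cases h : q ∈ S
    · simp only [if_pos h, if_pos hq]
    · simp only [if_neg h, if_neg (dis' q hq), hνν]
  · intro q hq
    by_cases h : q ∈ S'
    · simp only [if_pos h]
    · simp only [if_neg h]; exact (hF q (sub q hq)).symm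

lemma sum_eq (hνν : ∀ q, ν (ν q) = q) (hν : ∀ q ∈ X, ν q ∈ X) (sub : ∀ q ∈ S, q ∈ X)
    (cov : ∀ q ∈ X, q ∈ S ∨ ν q ∈ S) (dis : ∀ q ∈ S, ν q ∉ S) (F : α → ℂ)
    (hF : ∀ q ∈ X, F (ν q) = F q) :
    ∑ᶠ q ∈ X, F q = 2 * ∑ q ∈ S, F q := by
  have h1 : X = ((S ∪ S.image ν : Finset α) : Set α) := by
    ext q
    rw [Finset.mem_coe, Finset.mem_union, Finset.mem_image]
    constructor
    · intro hq
      rcases cov q hq with h | h
      · exact Or.inl h
      · exact Or.inr ⟨ν q, h, hνν q⟩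
    · rintro (h | ⟨p, hp, rfl⟩)
      · exact sub q h
      · exact hν p (sub p hp)
  have h2 : Disjoint S (S.image ν) := by
    rw [Finset.disjoint_left]
    intro q hq h
    obtain ⟨p, hp, rfl⟩ := Finset.mem_image.1 h
    exact dis p hp hq
  have h3 : ∑ᶠ q ∈ X, F q = ∑ q ∈ S ∪ S.image ν, F q := by
    rw [h1, finsum_mem_coe_finset]
  rw [h3, Finset.sum_union h2, Finset.sum_image (fun x _ y _ hxy => by
    have := congrArg ν hxy
    rwa [hνν, hνν] at this), two_mul]
  congr 1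
  exact Finset.sum_congr rfl fun q hq => hF q (sub q hq)

end HEQ

theorem td_HEQ (h1 : Sd_XXS) : Sd_HEQ := by
  classical
  intro A B V n f a m hS ι R D h
  letI := algC h
  intro τ S hHS F hF
  have hνν : ∀ q : ι × (OO A B ⧸ idl (A := A) (B := B) m),
      (fun q : ι × (OO A B ⧸ idl (A := A) (B := B) m) => (q.1, -q.2))
        ((fun q : ι × (OO A B ⧸ idl (A := A) (B := B) m) => (q.1, -q.2)) q) = q := by
    intro q
    simp
  refine ⟨fun S' hS' => ?_, ?_⟩
  · exact HEQ.prod_eq (ν := fun q => (q.1, -q.2)) hνν hHS.sub hHS.cov hHS.dis hS'.sub hS'.cov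
      hS'.dis F hF
  · exact HEQ.sum_eq (ν := fun q => (q.1, -q.2)) hνν
      (fun q hq => (h1 A B V n f a m hS ι R D h τ q hq).1) hHS.sub hHS.cov hHS.dis F hF

end

end Pool.Agent.N2E
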