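import Pool.Agent.N2.StER2
import Pool.Agent.N2.E_HEQ

/-!
# MUX-2R, block ER2, module HEQ (helper31): sums and products of even functions over half systems
-/

set_option autoImplicit false

namespace Pool.Agent.N2V

open _root_.MU3 Pool.Agent.MU3A Pool.Agent.MU3B Pool.Agent.MUX Pool.Agent.MUXU Pool.Agent.MUXE
open Pool.Agent.RI Pool.Agent.NS Pool.Agent.N2
open Pool.Agent.N2E (dlg AutC cc)

noncomputable section

theorem tv_HEQ (h1 : Sv_XXS) : Sv_HEQ := by
  classical
  intro A B P V n f a m m' hS ι R D h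
  letI := algC h
  intro τ S hHS F hF
  have hνν : ∀ q : ι × (OO A B ⧸ idl (A := A) (B := B) m),
      (fun q : ι × (OO A B ⧸ idl (A := A) (B := B) m) => (q.1, -q.2))
        ((fun q : ι × (OO A B ⧸ idl (A := A) (B := B) m) => (q.1, -q.2)) q) = q := by
    intro q
    simp
  refine ⟨fun S' hS' => ?_, ?_⟩
  · exact N2E.HEQ.prod_eq (ν := fun q => (q.1, -q.2)) hνν hHS.sub hHS.cov hHS.dis hS'.sub hS'.cov
      hS'.dis F hF
  · exact N2E.HEQ.sum_eq (ν := fun q => (q.1, -q.2)) hνν
      (fun q hq => (h1 A B P V n f a m m' hS ι R D h τ q hq).1) hHS.sub hHS.cov hHS.dis F hF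

end

end Pool.Agent.N2V
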