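import Pool.Agent.N2.StER2
import Pool.Agent.MUX.XLib

/-!
# MUX-2R, block ER2: module ORB, the sum over one orbit of `1 + N w0`

`c_k = 1 + N k w0`, `N = 2^(n-1) f a`, `Q = om_0/m'`, `ξ_j = x(Q + j Y)`. The product of the fibres over the orbit is the same rational function over `V` at the
four points `ξ_j`, and it takes the same value at them: its logarithmic derivative is small (`LAG`, `DST`).
-/

set_option autoImplicit false

open Polynomial

namespace Pool.Agent.N2V

open _root_.MU3 Pool.Agent.MU3A Pool.Agent.MU3B Pool.Agent.MUX Pool.Agent.MUXU Pool.Agent.MUXE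
open Pool.Agent.RI Pool.Agent.NS Pool.Agent.N2
open Pool.Agent.NSE (IntP)
open Pool.Agent.MUX2 (GRG)
open Pool.Agent.MUXV (InK tX)
open Pool.Agent.N2E (dlg AutC cc Sd_LAG Sd_PRD)

noncomputable section

namespace ORB

lemma pf (j f : ℕ) (hf : f ≠ 0) : (2 ^ j * f).primeFactors ⊆ (2 * f).primeFactors := by
  intro p hp
  have h := Nat.mem_primeFactors.1 hp
  rw [Nat.mem_primeFactors]
  refine ⟨h.1, ?_, by omega⟩
  rcases (Nat.Prime.dvd_mul h.1).1 h.2.1 with h2 | h2
  · exact (h.1.dvd_of_dvd_pow h2).mul_right _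
  · exact h2.mul_left _

variable {V : ValuationSubring ℂ}

/-- the values of a polynomial over `V` -/
lemma ev {P : ℂ[X]} (hP : IntP V P) {x : ℂ} (hx : V.valuation x ≤ 1) :
    V.valuation (P.eval x) ≤ 1 := by
  rw [eval_eq_sum_range]
  refine Valuation.map_sum_le _ fun i _ => ?_
  rw [map_mul, map_pow]
  exact mul_le_one' (hP i) (pow_le_one' hx _)

lemma der {P : ℂ[X]} (hP : IntP V P) : IntP V (derivative P) := fun i => by
  rw [coeff_derivative, map_mul]
  refine mul_le_one' (hP _) ?_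
  have h : ((i : ℂ) + 1) = ((i + 1 : ℕ) : ℂ) := by push_cast; rfl
  rw [h]
  exact (V.valuation_le_one_iff _).2 (natCast_mem V.toSubring _)

/-- the logarithmic derivative and its numerator -/
lemma v_dlg {P Q : ℂ[X]} {x : ℂ} (hP : V.valuation (P.eval x) = 1)
    (hQ : V.valuation (Q.eval x) = 1) : V.valuation (dlg P Q x) =
    V.valuation ((derivative P).eval x * Q.eval x - P.eval x * (derivative Q).eval x) := by
  unfold dlg
  rw [map_div₀, map_mul (V.valuation) (P.eval x), hP, hQ, one_mul, div_one]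

lemma v_dlg_le {P Q : ℂ[X]} {x : ℂ} (hP : IntP V P) (hQ : IntP V Q) (hx : V.valuation x ≤ 1)
    (hP1 : V.valuation (P.eval x) = 1) (hQ1 : V.valuation (Q.eval x) = 1) :
    V.valuation (dlg P Q x) ≤ 1 := by
  rw [v_dlg hP1 hQ1]
  refine (Valuation.map_sub _ _ _).trans (max_le ?_ ?_)
  · rw [map_mul]
    exact mul_le_one' (ev (der hP) hx) hQ1.le
  · rw [map_mul]
    exact mul_le_one' hP1.le (ev (der hQ) hx)

end ORB

open ORB

/-- (ORB) the sum over one orbit of `1 + N w0` -/
theorem tv_ORB (h1 : Sd_LAG) (h2 : Sd_PRD) (h4 : Sv_DST) (h5 : Sv_CON) (h6 : Sv_NE1)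
    (h8 : Sv_FIB) (h7 : Sv_GPO) : Sv_ORB := by
  intro A B P V n f a m m' hE ι R u e a1 a3 hg H i hH x hx
  have hc : CQ A B := hE.ctx.cq
  have hv2 := hE.ctx.v2
  have hf0 : f ≠ 0 := by have := hE.f3; omega
  have hm0 : m ≠ 0 := by
    rw [hE.hm]
    positivity
  have hm0' : m' ≠ 0 := by
    rw [hE.hm']
    positivity
  have hmC' : (m' : ℂ) ≠ 0 := by exact_mod_cast hm0'
  have hpf' : m'.primeFactors ⊆ (2 * f).primeFactors := by
    rw [hE.hm']
    exact pf (n + 1) f hf0
  have hmm' : m = 2 * m' := by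
    rw [hE.hm, hE.hm']
    ring
  -- facts on the points
  obtain ⟨-, -, -, hPT0⟩ := te_PT te_TRA A B hE.ctx.ring (2 * f) ι R (by omega) R.i0
  -- elements prime to `m` are units at `V`
  have h2P : ((2 : ℕ) : OO A B) ∈ P := by
    have h9 := (hE.ctx.pw 1 ((2 : ℕ) : OO A B)).2 (by
      rw [MUX.emb_natCast hc, pow_one]
      push_cast
      exact pow_le_of_le_one zero_le hv2.le (by norm_num))
    rwa [pow_one] at h9
  have hunit : ∀ y : OO A B, IsCoprime y ((m : ℕ) : OO A B) → y ∉ P := by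
    intro y hy hy2
    obtain ⟨s, t, hst⟩ := hy
    have hmax := hE.ctx.max.ne_top
    apply hmax
    rw [Ideal.eq_top_iff_one, ← hst]
    refine Ideal.add_mem _ (Ideal.mul_mem_left _ _ hy2) (Ideal.mul_mem_left _ _ ?_)
    rw [hmm']
    push_cast
    have h9 := Ideal.mul_mem_right ((m' : ℕ) : OO A B) P h2P
    push_cast at h9
    exact h9
  -- (1)
  have part1 : ∀ y : OO A B, IsCoprime y ((m : ℕ) : OO A B) →
      V.valuation (muX R i * FFib R a m m' i y / u) ≤ V.valuation (2 : ℂ) := by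
    intro y hy
    obtain ⟨κ, k, P1, Q1, hP, hQ, -, hc1⟩ := h7 A B P V n f a m m' hE ι R u e a1 a3 hg H i hH y
      (hunit y hy)
    obtain ⟨q1, q2, q3, q4, -, q6⟩ := hc1 1 (by rwa [one_mul])
    rw [one_mul] at q6
    have e1 : V.valuation (emb y) = 1 := hE.ctx.unit y (hunit y hy)
    have e2 : V.valuation (muX R i * emb y * FFib R a m m' i y / u) ≤ V.valuation (2 : ℂ) := by
      rw [q6, map_mul, map_mul, mul_assoc]
      exact mul_le_of_le_one_right' (mul_le_one' (v_dlg_le hP hQ q1 q3 q4) q2)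
    have e3 : muX R i * emb y * FFib R a m m' i y / u =
        emb y * (muX R i * FFib R a m m' i y / u) := by ring
    rwa [e3, map_mul, e1, one_mul] at e2
  refine ⟨part1 x hx, ?_⟩
  -- (2)
  intro y hy
  obtain ⟨c1, -, c3, c4, -, c6⟩ := h5 A B P V n f a m m' hE
  have hom : IsNL (⊤ : Ideal (OO A B)) (R.L R.i0) (R.om R.i0) := by
    have := R.nl R.i0
    rwa [R.b0] at this
  obtain ⟨d1, d2, d3, d4, -⟩ := c6 (R.L R.i0) (R.om R.i0) hom
  set N : ℕ := NN n f a with hN
  set L0 := R.L R.i0 with hL0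
  set om := R.om R.i0 with hom0
  have hNL : NL A B L0 := ⟨_, _, hom⟩
  set c : ℕ → OO A B := fun k => cc N ((k : OO A B) * w0) with hcdef
  have hcc : ∀ k, IsCoprime (c k) ((m : ℕ) : OO A B) := fun k => (c1 _).2.1
  have hc0 : c 0 = 1 := by
    simp [hcdef, cc]
  have hmma : idl (A := A) (B := B) (m * a) ≤ idl (A := A) (B := B) m' := by
    refine Ideal.span_singleton_le_span_singleton.2 ⟨((2 * a : ℕ) : OO A B), ?_⟩
    rw [hmm']
    push_cast
    ring
  have hm'a : ((m' * a : ℕ) : OO A B) * w0 ∈ idl (A := A) (B := B) m' := by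
    rw [Ideal.mem_span_singleton]
    refine ⟨(a : OO A B) * w0, ?_⟩
    push_cast
    ring
  -- the points `Q + k Y`
  set Rp : ℂ := emb (w0 : OO A B) * (a * om / 4) with hRp
  have hck : ∀ k : ℕ, emb (c k) * (om / m') = om / m' + k * Rp := by
    intro k
    rw [hcdef]
    simp only
    rw [d1, d2]
  have hP0 : ∀ c : ℕ, (c : ℂ) * (om / m') ∈ L0.lattice → f ∣ c := by
    intro c hcL
    have h9 := ((hPT0 m' hm0' hpf' 1).2.2.2 ((c : ℕ) : OO A B)).1 (by
      rw [MUX.emb_natCast hc]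
      exact hcL)
    obtain ⟨z, hz⟩ := h9
    have h10 := congrArg QuadraticAlgebra.re hz
    have h11 : (c : ℤ) = (m' : ℤ) * z.re := by simpa using h10
    have h12 : m' ∣ c := Int.natCast_dvd_natCast.1 ⟨z.re, h11⟩
    refine dvd_trans ?_ h12
    rw [hE.hm']
    exact dvd_mul_left _ _
  have hmP : ((2 ^ (n + 1) * f : ℕ) : ℂ) * (om / m') ∈ L0.lattice := by
    rw [← hE.hm', mul_div_cancel₀ _ hmC']
    refine (hom.mem _).2 ⟨1, trivial, ?_⟩
    rw [MUX.emb_one hc, mul_one]
  obtain ⟨nk1, nk2, -⟩ := h6 V L0 u e a1 a3 hg hv2 (n + 1) f a hE.f3 hE.fo hE.ao hE.af (om / m')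
    hmP hP0
  obtain ⟨S, hS1, hS2, hS3⟩ := (h4 A B P V hE.ctx L0 u e a1 a3 hNL hg (om / m') nk1 nk2).2
    Rp d3 d4
  -- the fibres
  obtain ⟨κf, -, -, hfib⟩ := h8 A B P V n f a m m' hE ι R H i hH
  -- the data for `x_k = c_k x`
  have hxk : ∀ k, IsCoprime (c k * x) ((m : ℕ) : OO A B) := fun k => (hcc k).mul_left hx
  have data := fun k : ℕ => h7 A B P V n f a m m' hE ι R u e a1 a3 hg H i hH (c k * x)
    (hunit _ (hxk k))
  choose κ kk P1 Q1 hP hQ hκ hdat using data
  set ξ : ℕ → ℂ := fun j => xu L0 u e (om / m' + j * Rp) with hξ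
  have hξ0 : ξ 0 = xu L0 u e (om / m') := by
    rw [hξ]
    simp
  have D : ∀ j k : ℕ, V.valuation (ξ j) ≤ 1 ∧
      V.valuation ((P1 k).eval (ξ j)) = 1 ∧ V.valuation ((Q1 k).eval (ξ j)) = 1 ∧
      GFib R H m m' i (c j * (c k * x)) * (Q1 k).eval (ξ j) =
        κ k * (P1 k).eval (ξ j) := by
    intro j k
    obtain ⟨q1, -, q3, q4, q5, -⟩ := hdat k (c j) ((hcc j).mul_left (hxk k))
    rw [hck] at q1 q3 q4 q5
    exact ⟨q1, q3, q4, q5⟩
  -- the product of the fibres does not depend on `j`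
  set Th : ℕ → ℂ := fun r => GFib R H m m' i (c r * x) with hTh
  have hcong : ∀ j k : ℕ, c j * (c k * x) - c (j + k) * x ∈ idl (A := A) (B := B) m' := by
    intro j k
    have h9 := Ideal.mul_mem_left _ x (hmma (c3 j k))
    have h10 : x * (c j * c k - c (j + k)) = c j * (c k * x) - c (j + k) * x := by ring
    have h11 : x * (cc N ((j : OO A B) * w0) * cc N ((k : OO A B) * w0) -
        cc N (((j + k : ℕ) : OO A B) * w0)) = x * (c j * c k - c (j + k)) := rfl
    rw [h11, h10] at h9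
    exact h9
  have hTjk : ∀ j k : ℕ, GFib R H m m' i (c j * (c k * x)) = Th (j + k) :=
    fun j k => ((hfib (c (j + k) * x) (hxk _)).2.2 _ (hcong j k)).1
  have hT4 : ∀ r : ℕ, Th (r + 4) = Th r := by
    intro r
    have h9 : c (r + 4) * x - c r * x ∈ idl (A := A) (B := B) m' := by
      have h10 := hmma (c3 r 4)
      have h11 : c 4 - 1 ∈ idl (A := A) (B := B) m' := by
        have h12 : c 4 - 1 = ((m' * a : ℕ) : OO A B) * w0 := c4
        rw [h12]
        exact hm'a
      have h13 : (c (r + 4) - c r) = -(c r * c 4 - c (r + 4)) + c r * (c 4 - 1) := by ring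
      have h14 : c (r + 4) * x - c r * x = x * (c (r + 4) - c r) := by ring
      rw [h14, h13]
      refine Ideal.mul_mem_left _ _ (Ideal.add_mem _ (neg_mem h10) (Ideal.mul_mem_left _ _ h11))
    exact ((hfib (c r * x) (hxk _)).2.2 _ h9).1
  have hprod : ∀ j, j < 4 → ∏ k ∈ Finset.range 4, Th (j + k) = ∏ k ∈ Finset.range 4, Th k := by
    intro j hj
    have e4 := hT4 0
    have e5 := hT4 1
    have e6 := hT4 2
    simp only [Finset.prod_range_succ, Finset.prod_range_zero, one_mul]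
    norm_num at e4 e5 e6
    interval_cases j
    · simp
    · norm_num
      rw [e4]
      ring
    · norm_num
      rw [e4, e5]
      ring
    · norm_num
      rw [e4, e5, e6]
      ring
  have hκ0 : ∀ k, κ k ≠ 0 := by
    intro k h0
    have h9 := hκ k
    rw [h0, map_zero] at h9
    have h10 : V.valuation (2 : ℂ) ≠ 0 := (Valuation.ne_zero_iff _).2 two_ne_zero
    exact pow_ne_zero 2 (zpow_ne_zero (kk k) h10) h9.symm
  -- the products of the rational functions
  obtain ⟨P', Q', hP', hQ', hPQ⟩ := h2 V ℕ (Finset.range 4) P1 Q1 (fun _ => 1)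
    (ξ '' {j | j < 4}) (fun k _ => ⟨hP k, hQ k, by
      rintro _ ⟨j, -, rfl⟩
      exact ⟨(D j k).2.1, (D j k).2.2.1⟩⟩)
  have hne : ∀ {w : ℂ}, V.valuation w = 1 → w ≠ 0 := fun {w} hw h0 => by
    rw [h0, map_zero] at hw
    exact zero_ne_one hw
  have hval : ∀ j, j < 4 → P'.eval (ξ j) * ∏ k ∈ Finset.range 4, κ k =
      Q'.eval (ξ j) * ∏ k ∈ Finset.range 4, Th k := by
    intro j hj
    obtain ⟨-, -, q3, -⟩ := hPQ (ξ j) ⟨j, hj, rfl⟩
    simp only [zpow_one] at q3
    have e1 : (∏ k ∈ Finset.range 4, Th k) * ∏ k ∈ Finset.range 4, (Q1 k).eval (ξ j) =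
        (∏ k ∈ Finset.range 4, κ k) * ∏ k ∈ Finset.range 4, (P1 k).eval (ξ j) := by
      rw [← hprod j hj, ← Finset.prod_mul_distrib, ← Finset.prod_mul_distrib]
      refine Finset.prod_congr rfl fun k _ => ?_
      rw [← hTjk]
      exact (D j k).2.2.2
    have e2 : (∏ k ∈ Finset.range 4, (Q1 k).eval (ξ j)) ≠ 0 :=
      Finset.prod_ne_zero_iff.2 fun k _ => hne (D j k).2.2.1
    apply mul_right_cancel₀ e2
    linear_combination (∏ k ∈ Finset.range 4, κ k) * q3 - Q'.eval (ξ j) * e1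
  have hKK : (∏ k ∈ Finset.range 4, κ k) ≠ 0 := Finset.prod_ne_zero_iff.2 fun k _ => hκ0 k
  have hcross : ∀ j, j < 4 → P'.eval (ξ j) * Q'.eval (ξ 0) = P'.eval (ξ 0) * Q'.eval (ξ j) := by
    intro j hj
    apply mul_right_cancel₀ hKK
    linear_combination Q'.eval (ξ 0) * hval j hj - Q'.eval (ξ j) * hval 0 (by norm_num)
  -- `LAG`
  obtain ⟨p1, p2, -, p4⟩ := hPQ (ξ 0) ⟨0, by norm_num, rfl⟩
  have hS1' : ξ 0 ∉ S := by
    rw [hξ0]
    exact hS1
  have hlag := (h1 V S (ξ 0) hS1' (D 0 0).1 (fun s hs => (hS2 s hs).1)).2.2.1 P' Q' hP' hQ' (by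
    intro s hs
    obtain ⟨-, k, hk, rfl⟩ := hS2 s hs
    exact hcross k hk)
  have hdR : dR A = 2 ∨ dR A = 3 := by
    unfold dR
    split_ifs
    · exact Or.inl rfl
    · exact Or.inr rfl
  have hdl : V.valuation (dlg P' Q' (ξ 0)) ^ 8 ≤ V.valuation (2 : ℂ) ^ (3 * (dR A - 1)) := by
    rw [v_dlg p1 p2]
    refine (pow_le_pow_left₀ zero_le hlag 8).trans ?_
    rw [hξ0]
    exact hS3
  -- the sum with the weights `emb x_k`
  have hsum : ∑ k ∈ Finset.range 4, muX R i * emb (c k * x) *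
      FFib R a m m' i (c k * x) / u = 2 * dlg P' Q' (ξ 0) * et L0 u (om / m') := by
    rw [p4, Finset.mul_sum, Finset.sum_mul]
    refine Finset.sum_congr rfl fun k _ => ?_
    obtain ⟨-, -, -, -, -, q6⟩ := hdat k 1 (by rw [one_mul]; exact hxk k)
    rw [one_mul, MUX.emb_one hc, one_mul] at q6
    rw [q6, hξ0]
    push_cast
    ring
  have het : V.valuation (et L0 u (om / m')) ≤ 1 := by
    obtain ⟨-, q2, -⟩ := hdat 0 1 (by rw [one_mul]; exact hxk 0)
    rwa [MUX.emb_one hc, one_mul] at q2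
  have hsum2 : V.valuation (∑ k ∈ Finset.range 4, muX R i * emb (c k * x) *
      FFib R a m m' i (c k * x) / u) ^ 8 ≤ V.valuation (2 : ℂ) ^ (3 * dR A + 5) := by
    rw [hsum, map_mul, map_mul, mul_pow, mul_pow]
    refine (mul_le_of_le_one_right' (pow_le_one' het 8)).trans ?_
    refine (mul_le_mul' le_rfl hdl).trans ?_
    rw [← pow_add]
    refine le_of_eq ?_
    congr 1
    omega
  -- replace the weights by `emb x`
  have v4 : V.valuation (4 : ℂ) = V.valuation (2 : ℂ) ^ 2 := by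
    rw [← map_pow]
    norm_num
  have hdiff : V.valuation (∑ k ∈ Finset.range 4, (emb (c k * x) - emb x) *
      (muX R i * FFib R a m m' i (c k * x) / u)) ≤ V.valuation (2 : ℂ) ^ 3 := by
    refine Valuation.map_sum_le _ fun k _ => ?_
    rw [map_mul]
    have e1 : V.valuation (emb (c k * x) - emb x) ≤ V.valuation (4 : ℂ) := by
      have e2 : c k * x - x = ((4 : ℕ) : OO A B) * (((2 ^ (n - 3) * f * a : ℕ) : OO A B) *
          ((k : OO A B) * w0) * x) := by
        have e3 : N = 4 * (2 ^ (n - 3) * f * a) := by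
          have e4 : 2 ^ (n - 1) = 4 * 2 ^ (n - 3) := by
            have := hE.n5
            have e6 : n - 1 = 2 + (n - 3) := by omega
            rw [e6, pow_add]
            norm_num
          rw [hN, NN, e4]
          ring
        have e5 : c k = 1 + ((N : ℕ) : OO A B) * ((k : OO A B) * w0) := rfl
        rw [e5, e3]
        push_cast
        ring
      rw [← MUX.emb_sub hc, e2, MUX.emb_mul hc, MUX.emb_natCast hc, map_mul]
      push_cast
      exact mul_le_of_le_one_right' (hE.ctx.int _)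
    refine (mul_le_mul' e1 (part1 _ (hxk k))).trans (le_of_eq ?_)
    rw [v4]
    exact (pow_succ _ 2).symm
  have key : emb x * ((∑ k ∈ Finset.range 4, muX R i * FFib R a m m' i (y k)) / u) =
      (∑ k ∈ Finset.range 4, muX R i * emb (c k * x) *
        FFib R a m m' i (c k * x) / u) -
      ∑ k ∈ Finset.range 4, (emb (c k * x) - emb x) *
        (muX R i * FFib R a m m' i (c k * x) / u) := by
    rw [← Finset.sum_sub_distrib, Finset.sum_div, Finset.mul_sum]
    refine Finset.sum_congr rfl fun k hk => ?_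
    rw [((hfib (c k * x) (hxk k)).2.2 _ (hy k (Finset.mem_range.1 hk))).2]
    show emb x * (muX R i * FFib R a m m' i (c k * x) / u) = _
    ring
  have vx : V.valuation (emb x) = 1 := hE.ctx.unit x (hunit x hx)
  have e7 : V.valuation ((∑ k ∈ Finset.range 4, muX R i *
      FFib R a m m' i (y k)) / u) = V.valuation (emb x *
      ((∑ k ∈ Finset.range 4, muX R i * FFib R a m m' i (y k)) / u)) := by
    rw [map_mul, vx, one_mul]
  rw [e7, key]
  have e8 := Valuation.map_sub V.valuation (∑ k ∈ Finset.range 4, muX R i * emb (c k * x) *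
        FFib R a m m' i (c k * x) / u)
      (∑ k ∈ Finset.range 4, (emb (c k * x) - emb x) *
        (muX R i * FFib R a m m' i (c k * x) / u))
  refine (pow_le_pow_left₀ zero_le e8 8).trans ?_
  rcases le_total (V.valuation (∑ k ∈ Finset.range 4, muX R i * emb (c k * x) *
        FFib R a m m' i (c k * x) / u))
      (V.valuation (∑ k ∈ Finset.range 4, (emb (c k * x) - emb x) *
        (muX R i * FFib R a m m' i (c k * x) / u))) with h | h
  · rw [max_eq_right h]
    refine (pow_le_pow_left₀ zero_le hdiff 8).trans ?_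
    rw [← pow_mul]
    refine pow_le_pow_of_le_one zero_le hv2.le ?_
    omega
  · rw [max_eq_left h]
    exact hsum2

end

end Pool.Agent.N2V
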