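import Pool.Agent.N2.StER2
import Pool.Agent.MUX.E_TRA
import Pool.Agent.MUX.E_TRB

/-!
# MUX-2R, block ER2: one step `L → N = ν P⁻¹ L` (PST), `2 = P²` ramified in `k` (helper78)

The kernel of one step has one nonzero class, which gives a lower bound for the multiplier; the
composition of two steps has the kernel of multiplication by `2`, so both bounds are equalities.
-/

set_option autoImplicit false

open Polynomial

namespace Pool.Agent.N2V

open _root_.MU3 Pool.Agent.MU3A Pool.Agent.MU3B Pool.Agent.MUX Pool.Agent.MUXU Pool.Agent.MUXE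
open Pool.Agent.RI Pool.Agent.NS Pool.Agent.N2
open Pool.Agent.NSE (IntP)
open Pool.Agent.MUX2 (GRG)
open Pool.Agent.MUXV (InK tX)
open Pool.Agent.N2E (dlg AutC cc)

noncomputable section

namespace PST

variable {A B : ℤ} {P : Ideal (OO A B)} {V : ValuationSubring ℂ}

/-- `2 ∈ P` -/
theorem two_mem (h : CtxU A B P V) : ((2 : ℕ) : OO A B) ∈ P := by
  obtain ⟨φ, hφ⟩ := h.ring.hom
  have embn : ∀ n : ℕ, emb ((n : ℕ) : OO A B) = n := fun n => by rw [← hφ, map_natCast]
  have h1 := (h.pw 1 ((2 : ℕ) : OO A B)).2 (by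
    rw [embn, pow_one]
    push_cast
    have h2 : V.valuation (2 : ℂ) ≤ 1 := h.v2.le
    calc V.valuation (2 : ℂ) ^ 2 = V.valuation (2 : ℂ) * V.valuation (2 : ℂ) := pow_two _
      _ ≤ V.valuation (2 : ℂ) * 1 := mul_le_mul_right h2 _
      _ = V.valuation (2 : ℂ) := mul_one _)
  rwa [pow_one] at h1

/-- the first part of one step -/
theorem step (hTWO : Sv_TWO) (hPVI : Sv_PVI) (hBAC : Su_BAC) (h : CtxU A B P V)
    {L N : PeriodPair} {nu u e a1 a3 u' e' a1' a3' : ℂ} (hL : NL A B L) (hQ : IsQ P L N nu)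
    (hg : GoodQ V L u e a1 a3) (hg' : GoodQ V N u' e' a1' a3') :
    ∃ q, Tor P L q ∧ q ∉ L.lattice ∧ IsRpM L N nu {q} ∧
      V.valuation (nu * u' / u) ^ 2 * V.valuation (xu L u e q) = 1 ∧
      V.valuation (2 : ℂ) ≤ V.valuation (nu * u' / u) ^ 2 := by
  obtain ⟨φ, hφ⟩ := h.ring.hom
  have embn : ∀ n : ℕ, emb ((n : ℕ) : OO A B) = n := fun n => by rw [← hφ, map_natCast]
  have mem2 := two_mem h
  have hPbot : P ≠ ⊥ := by
    intro h0
    rw [h0, Ideal.mem_bot] at mem2
    have h9 := embn 2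
    rw [mem2, ← hφ, map_zero] at h9
    norm_num at h9
  obtain ⟨tra1, -⟩ := te_TRA A B h.ring L hL
  have hν : nu ≠ 0 := hQ.1
  have hTor : ∀ z, nu * z ∈ N.lattice ↔ Tor P L z := hQ.2
  have hIsg : Isg L N nu := fun w hw => (hTor w).2 (fun x _ => tra1 x w hw)
  obtain ⟨⟨R, hR⟩, -⟩ := hBAC.2 L N nu hν hIsg
  have torR : ∀ q ∈ R, Tor P L q := fun q hq => (hTor q).1 (hR.mem q hq)
  obtain ⟨two1, two2, -, -⟩ := hTWO V L u e a1 a3 hg h.v2
  have tor2 : ∀ q, Tor P L q → 2 * q ∈ L.lattice := by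
    intro q hq
    have := hq _ mem2
    rw [embn] at this
    exact_mod_cast this
  have cong : ∀ q q', Tor P L q → Tor P L q' → q ∉ L.lattice → q' ∉ L.lattice →
      q' - q ∈ L.lattice := by
    intro q q' hq hq' hqL hqL'
    obtain ⟨x, hx⟩ := (te_TRB A B h.ring L hL).2 P hPbot h.max q q' hq hq' hqL
    by_cases hxP : x ∈ P
    · exfalso
      apply hqL'
      have := add_mem hx (hq x hxP)
      rwa [sub_add_cancel] at this
    · have h9 := add_mem hx (hq _ (h.one x hxP))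
      rw [← hφ (x - 1), map_sub, map_one, hφ] at h9
      convert h9 using 1
      ring
  obtain ⟨q0', hq0', hq0L'⟩ : ∃ q, Tor P L q ∧ q ∉ L.lattice := by
    obtain ⟨q, k1, k2⟩ := (te_TRB A B h.ring L hL).1 ⊤ P hPbot h.max.ne_top.lt_top
    exact ⟨q, k1, fun h8 => k2 fun x _ => tra1 x q h8⟩
  obtain ⟨q0, hq0R, -⟩ := hR.surj q0' ((hTor q0').2 hq0') hq0L'
  have hq0L := hR.ne q0 hq0R
  have hq0T := torR q0 hq0R
  have hR1 : R = {q0} := by
    ext q
    rw [Finset.mem_singleton]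
    constructor
    · intro hq
      exact hR.inj q hq q0 hq0R (cong q0 q hq0T (torR q hq) hq0L (hR.ne q hq))
    · rintro rfl
      exact hq0R
  rw [hR1] at hR
  obtain ⟨t1, t2⟩ := two1 q0 (tor2 q0 hq0T) hq0L
  have p1 := hPVI V L N u e a1 a3 u' e' a1' a3' nu hg hg' h.v2 hν hIsg {q0} hR (by
    intro q hq
    rw [Finset.mem_singleton] at hq
    rw [hq]
    refine two2 1 q0 ?_
    rw [pow_one]
    exact tor2 q0 hq0T)
  rw [Finset.prod_singleton] at p1
  refine ⟨q0, hq0T, hq0L, hR, p1, ?_⟩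
  have hX : 0 < V.valuation (xu L u e q0) := lt_trans zero_lt_one t1
  rw [← p1] at t2
  exact le_of_mul_le_mul_right t2 hX

end PST

open PST in
theorem tv_PST (hTWO : Sv_TWO) (hPVI : Sv_PVI) (hBAC : Su_BAC) : Sv_PST := by
  intro A B P V h L N nu u e a1 a3 u' e' a1' a3' hL hN hQ hg hg'
  obtain ⟨φ, hφ⟩ := h.ring.hom
  have embn : ∀ n : ℕ, emb ((n : ℕ) : OO A B) = n := fun n => by rw [← hφ, map_natCast]
  have hv0 : V.valuation (2 : ℂ) ≠ 0 := (Valuation.ne_zero_iff _).2 (by norm_num)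
  obtain ⟨q, s1, s2, s3, s4, s5⟩ := step hTWO hPVI hBAC h hL hQ hg hg'
  obtain ⟨N', nu', hN', hQ'⟩ := h.exq N hN
  obtain ⟨u'', e'', a1'', a3'', hg''⟩ := h.good N' hN'
  obtain ⟨-, -, -, -, -, r5⟩ := step hTWO hPVI hBAC h hN hQ' hg' hg''
  obtain ⟨tra1, tra2, tra3, tra4, tra5, tra6, tra7, -⟩ := te_TRA A B h.ring L hL
  have hu' := hg'.u0
  -- the kernel of the composition
  have ker : ∀ z, nu * nu' * z ∈ N'.lattice ↔ 2 * z ∈ L.lattice := by
    intro z
    rw [show nu * nu' * z = nu' * (nu * z) by ring, hQ'.2 (nu * z)]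
    constructor
    · intro hz
      have h1 : Tor (P * P) L z := by
        apply tra7
        intro x hx
        have h2 := hz x hx
        rw [show emb x * (nu * z) = nu * (emb x * z) by ring] at h2
        exact (hQ.2 _).1 h2
      have h3 : ((2 : ℕ) : OO A B) ∈ P * P := by
        rw [← pow_two]
        refine (h.pw 2 _).2 ?_
        rw [embn]
        push_cast
        exact le_rfl
      have h4 := h1 _ h3
      rw [embn] at h4
      exact_mod_cast h4
    · intro hz x hx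
      rw [show emb x * (nu * z) = nu * (emb x * z) by ring]
      refine (hQ.2 _).2 fun p hp => ?_
      have h1 : p * x ∈ P ^ 2 := by
        rw [pow_two]
        exact Ideal.mul_mem_mul hp hx
      have h2 : p * x ∈ idl (A := A) (B := B) (2 ^ 1) := by
        refine (h.dv 1 _).2 ?_
        rw [pow_one]
        exact (pow_le_pow_iff_left₀ zero_le zero_le two_ne_zero).1 ((h.pw 2 _).1 h1)
      unfold idl at h2
      rw [Ideal.mem_span_singleton] at h2
      obtain ⟨y, hy⟩ := h2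
      have h3 : emb p * (emb x * z) = emb y * (2 * z) := by
        have h4 : emb (p * x) = emb p * emb x := by rw [← hφ, map_mul, hφ, hφ]
        rw [← mul_assoc, ← h4, hy, ← hφ, map_mul, hφ y]
        push_cast
        rw [map_ofNat]
        ring
      rw [h3]
      exact tra1 y _ hz
  have hIsg2 : Isg L L 2 := by
    intro w hw
    rw [two_mul]
    exact add_mem hw hw
  have hIsg' : Isg L N' (nu * nu') := fun w hw => (ker w).2 (hIsg2 w hw)
  obtain ⟨⟨R, hR⟩, -⟩ := hBAC.2 L L 2 (by norm_num) hIsg2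
  have hR' : IsRpM L N' (nu * nu') R :=
    ⟨fun q hq => (ker q).2 (hR.mem q hq), hR.ne, hR.inj, fun z hz => hR.surj z ((ker z).1 hz)⟩
  obtain ⟨-, two2, two3, -⟩ := hTWO V L u e a1 a3 hg h.v2
  have p1 := hPVI V L N' u e a1 a3 u'' e'' a1'' a3'' (nu * nu') hg hg'' h.v2
    (mul_ne_zero hQ.1 hQ'.1) hIsg' R hR' (fun q hq => two2 1 q (by
      rw [pow_one]
      exact hR.mem q hq))
  have p2 := two3 R hR
  have hprod : ∏ q ∈ R, V.valuation (xu L u e q) ≠ 0 := by
    intro h0
    rw [h0, mul_zero] at p2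
    exact zero_ne_one p2
  have p3 : V.valuation (nu * nu' * u'' / u) ^ 2 = V.valuation (2 : ℂ) ^ 2 :=
    mul_right_cancel₀ hprod (p1.trans p2.symm)
  have e1 : nu * nu' * u'' / u = (nu * u' / u) * (nu' * u'' / u') := by
    field_simp
  rw [e1, map_mul, mul_pow] at p3
  have key : V.valuation (nu * u' / u) ^ 2 = V.valuation (2 : ℂ) := by
    refine le_antisymm ?_ s5
    have h1 : V.valuation (nu * u' / u) ^ 2 * V.valuation (2 : ℂ) ≤
        V.valuation (2 : ℂ) * V.valuation (2 : ℂ) := by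
      calc V.valuation (nu * u' / u) ^ 2 * V.valuation (2 : ℂ)
          ≤ V.valuation (nu * u' / u) ^ 2 * V.valuation (nu' * u'' / u') ^ 2 :=
            mul_le_mul_right r5 _
        _ = V.valuation (2 : ℂ) ^ 2 := p3
        _ = V.valuation (2 : ℂ) * V.valuation (2 : ℂ) := pow_two _
    exact le_of_mul_le_mul_right h1 (zero_lt_iff.2 hv0)
  refine ⟨key, q, s1, s2, s3, ?_⟩
  rw [← key]
  exact s4

end

end Pool.Agent.N2V
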