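import Pool.Agent.N2.StER2

/-!
# MUX-2R, block ER2, module PVI (helper89): the multiplier of an isogeny whose kernel is in the kernel of reduction

The product formula (PFI) for `w = ω₁ / 5`, `z = ω₁ / 7`. Models: `Pool/Agent/NS/F_PIS.lean` (helper61), `Pool/Agent/N2/E_UNT.lean` (helper76).
-/

set_option autoImplicit false

open Polynomial

namespace Pool.Agent.N2V

open _root_.MU3 Pool.Agent.MU3A Pool.Agent.MU3B Pool.Agent.MUX Pool.Agent.MUXU Pool.Agent.MUXE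
open Pool.Agent.RI Pool.Agent.NS Pool.Agent.N2
open Pool.Agent.NSE (IntP)
open Pool.Agent.MUX2 (GRG)
open Pool.Agent.MUXV (InK tX)
open Pool.Agent.N2E (dlg AutC cc)

noncomputable section

namespace PVI

/-- rational multiples of the period `ω₁` -/
theorem rat_mul (L : PeriodPair) (x : ℚ) (hx : x.den ≠ 1) : ((x : ℚ) : ℂ) * L.ω₁ ∉ L.lattice := by
  intro hm
  have e : ((x : ℚ) : ℂ) * L.ω₁ = ((x : ℚ) : ℂ) * L.ω₁ + ((0 : ℚ) : ℂ) * L.ω₂ := by
    push_cast
    ring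
  rw [e, PeriodPair.mul_ω₁_add_mul_ω₂_mem_lattice] at hm
  exact hx hm.1

end PVI

open PVI in
theorem tv_PVI (h2 : Sv_GRT) : Sv_PVI := by
  intro V L N u e a1 a3 u' e' a1' a3' ν hg hg' hv2 hν hIsg R hR hRk
  obtain ⟨⟨ξ, G⟩, tL⟩ := h2 V L u e a1 a3 hg hv2
  obtain ⟨⟨ξ', G'⟩, tN⟩ := h2 V N u' e' a1' a3' hg' hv2
  have hu := hg.u0
  have hu' := hg'.u0
  -- integer multiples of the period
  have hω : ∀ k : ℤ, (k : ℂ) * L.ω₁ ∈ L.lattice := by
    intro k
    have := L.lattice.smul_mem k L.ω₁_mem_lattice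
    rwa [zsmul_eq_mul] at this
  -- a rational point of odd order
  have good : ∀ (x : ℚ) (n : ℕ) (k : ℤ), ¬ 2 ∣ n → (n : ℂ) * ((x : ℚ) : ℂ) = (k : ℂ) →
      x.den ≠ 1 →
      ¬ InK V L (xu L u e) (((x : ℚ) : ℂ) * L.ω₁) ∧ ν * (((x : ℚ) : ℂ) * L.ω₁) ∉ N.lattice ∧
      ¬ InK V N (xu N u' e') (ν * (((x : ℚ) : ℂ) * L.ω₁)) := by
    intro x n k hn hk hx
    have hnL : (n : ℂ) * (((x : ℚ) : ℂ) * L.ω₁) ∈ L.lattice := by
      rw [← mul_assoc, hk]
      exact hω k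
    have hxL := rat_mul L x hx
    have m0 : ¬ InK V L (xu L u e) (((x : ℚ) : ℂ) * L.ω₁) := fun hin =>
      hxL ((tL n hn).2 _ hnL hin)
    have m1 : ν * (((x : ℚ) : ℂ) * L.ω₁) ∉ N.lattice := by
      intro h8
      obtain ⟨q, hq, hqL⟩ := hR.surj _ h8 hxL
      exact m0 ((Pool.Agent.MUX2.gInK_congr G (Or.inl hqL)).2 (hRk q hq))
    refine ⟨m0, m1, fun hin => ?_⟩
    refine m1 ((tN n hn).2 _ ?_ hin)
    have h8 := hIsg _ hnL
    rwa [show ν * ((n : ℂ) * (((x : ℚ) : ℂ) * L.ω₁)) = (n : ℂ) * (ν * (((x : ℚ) : ℂ) * L.ω₁)) by ring] at h8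
  obtain ⟨w1, w2, w3⟩ := good (1 / 5) 5 1 (by norm_num) (by push_cast; norm_num) (by norm_num)
  obtain ⟨z1, z2, z3⟩ := good (1 / 7) 7 1 (by norm_num) (by push_cast; norm_num) (by norm_num)
  obtain ⟨p1, p2, p3⟩ := good (12 / 35) 35 12 (by norm_num) (by push_cast; norm_num) (by norm_num)
  obtain ⟨s1, s2, s3⟩ := good (-2 / 35) 35 (-2) (by norm_num) (by push_cast; norm_num) (by norm_num)
  have ep : (((12 / 35 : ℚ) : ℚ) : ℂ) * L.ω₁ =
      (((1 / 7 : ℚ) : ℚ) : ℂ) * L.ω₁ + (((1 / 5 : ℚ) : ℚ) : ℂ) * L.ω₁ := by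
    push_cast
    ring
  have es : (((-2 / 35 : ℚ) : ℚ) : ℂ) * L.ω₁ =
      (((1 / 7 : ℚ) : ℚ) : ℂ) * L.ω₁ - (((1 / 5 : ℚ) : ℚ) : ℂ) * L.ω₁ := by
    push_cast
    ring
  rw [ep] at p1 p2 p3
  rw [es] at s1 s2 s3
  generalize (((1 / 7 : ℚ) : ℚ) : ℂ) * L.ω₁ = z at z1 z2 z3 p1 p2 p3 s1 s2 s3
  generalize (((1 / 5 : ℚ) : ℚ) : ℂ) * L.ω₁ = w at w1 w2 w3 p1 p2 p3 s1 s2 s3
  -- the product formula
  have pf := u_PFI L N ν R hν hIsg hR w w2 z z2
  have xd : ∀ a b : ℂ, L.weierstrassP a - L.weierstrassP b =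
      u ^ 2 * (xu L u e a - xu L u e b) := by
    intro a b
    unfold xu
    field_simp
    ring
  have xd' : ∀ a b : ℂ, N.weierstrassP a - N.weierstrassP b =
      u' ^ 2 * (xu N u' e' a - xu N u' e' b) := by
    intro a b
    unfold xu
    field_simp
    ring
  have pf' : (ν * u' / u) ^ 2 * (xu N u' e' (ν * z) - xu N u' e' (ν * w)) *
      ∏ q ∈ R, (xu L u e z - xu L u e q) =
      (xu L u e z - xu L u e w) * ∏ q ∈ R, (xu L u e z - xu L u e (w + q)) := by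
    simp only [xd, xd', Finset.prod_mul_distrib, Finset.prod_const] at pf
    have hu2 : u ^ 2 * (u ^ 2) ^ R.card ≠ 0 := by positivity
    apply mul_left_cancel₀ hu2
    have e1 : u ^ 2 * (ν * u' / u) ^ 2 = ν ^ 2 * u' ^ 2 := by
      field_simp
    linear_combination pf + ((u ^ 2) ^ R.card *
      (xu N u' e' (ν * z) - xu N u' e' (ν * w)) * ∏ q ∈ R, (xu L u e z - xu L u e q)) * e1
  have v1 : V.valuation (xu N u' e' (ν * z) - xu N u' e' (ν * w)) = 1 :=
    Pool.Agent.MUX2.gv_X_sub G' z3 w3 (by rw [← mul_add]; exact p3) (by rw [← mul_sub]; exact s3)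
  have v2 : V.valuation (xu L u e z - xu L u e w) = 1 :=
    Pool.Agent.MUX2.gv_X_sub G z1 w1 p1 s1
  have v3 : ∀ q ∈ R, V.valuation (xu L u e z - xu L u e (w + q)) = 1 := by
    intro q hqR
    have hq := hRk q hqR
    refine Pool.Agent.MUX2.gv_X_sub G z1 (fun hin => w1 ?_) (fun hin => p1 ?_) (fun hin => s1 ?_)
    · have := Pool.Agent.MUX2.gInK_sub G hin hq
      rwa [add_sub_cancel_right] at this
    · have := Pool.Agent.MUX2.gInK_sub G hin hq
      rwa [show z + (w + q) - q = z + w by ring] at this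
    · have := Pool.Agent.MUX2.gInK_add G hin hq
      rwa [show z - (w + q) + q = z - w by ring] at this
  have hzint : V.valuation (xu L u e z) ≤ 1 := (Pool.Agent.MUXV.int_X z1).2
  have v4 : ∀ q ∈ R, V.valuation (xu L u e z - xu L u e q) = V.valuation (xu L u e q) := by
    intro q hqR
    apply Valuation.map_sub_eq_of_lt_right
    have hq1 : 1 < V.valuation (xu L u e q) := by
      rcases hRk q hqR with h8 | h8
      · exact absurd h8 (hR.ne q hqR)
      · rwa [← not_le, ValuationSubring.valuation_le_one_iff]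
    exact lt_of_le_of_lt hzint hq1
  have key := congrArg V.valuation pf'
  rw [map_mul, map_mul, map_mul, map_prod, map_prod, v1, v2, Finset.prod_congr rfl v3,
    Finset.prod_congr rfl v4, Finset.prod_const_one, map_pow, mul_one, mul_one] at key
  exact key

end

end Pool.Agent.N2V
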