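import Pool.Agent.N2.StER2
import Pool.Agent.NS.E_RAT

/-!
# MUX-2R, block ER2, module RAT (helper26): the isogeny as a rational function over V
-/

set_option autoImplicit false

open Filter Topology Polynomial

namespace Pool.Agent.N2V

open _root_.MU3 Pool.Agent.MU3A Pool.Agent.MU3B Pool.Agent.MUX Pool.Agent.MUXU Pool.Agent.MUXE
open Pool.Agent.RI Pool.Agent.NS Pool.Agent.N2
open Pool.Agent.NSE (IntP)
open Pool.Agent.MUX2 (GRG)
open Pool.Agent.MUXV (InK tX int_X)
open Pool.Agent.MUX2 (gInK_congr gv_X_sub)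

noncomputable section

open Pool.Agent.NSE.RAT Pool.Agent.NSE.UNT in
theorem tv_RAT (h1 : Sv_COE) (h2 : Sv_GRT) (h4 : Sv_UNT) : Sv_RAT := by
  intro V L M u e a1 a3 u' e' a1' a3' μ hiso
  have hν := h4 V L M u e a1 a3 u' e' a1' a3' μ hiso
  have hL := hiso.gL
  have hM := hiso.gM
  have hv2 := hiso.v2
  have hμ := hiso.mu0
  have hI := hiso.isg
  obtain ⟨N, hN2, hN⟩ := hiso.odd
  obtain ⟨⟨ξ, grL⟩, tL⟩ := h2 V L u e a1 a3 hL hv2
  obtain ⟨⟨ξ', grM⟩, tM⟩ := h2 V M u' e' a1' a3' hM hv2
  obtain ⟨-, -, -, -, -, -, -, -, dL, -⟩ := h1 V L u e a1 a3 hL hv2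
  obtain ⟨-, -, -, -, -, -, -, -, dM, -⟩ := h1 V M u' e' a1' a3' hM hv2
  have hN0 : N ≠ 0 := by
    rintro rfl
    exact hN2 (dvd_zero 2)
  have hNpos : 0 < N := Nat.pos_of_ne_zero hN0
  obtain ⟨⟨R, hR⟩, -⟩ := u_BAC.2 L M μ hμ hI
  obtain ⟨l, hl1, hl⟩ := Nat.exists_infinite_primes (3 * N + 1)
  have h2l : ¬ 2 ∣ l := by
    intro h
    have := (Nat.prime_dvd_prime_iff_eq Nat.prime_two hl).1 h
    omega
  have hlN : ¬ l ∣ N := fun h => by
    have := Nat.le_of_dvd hNpos h
    omega
  have h2m : ¬ 2 ∣ N * l := by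
    intro h
    rcases Nat.prime_two.dvd_mul.1 h with h | h
    · exact hN2 h
    · exact h2l h
  have hl0 : (l : ℂ) ≠ 0 := by exact_mod_cast hl.ne_zero
  set w : ℂ := L.ω₁ / l with hw
  have lw : (l : ℂ) * w ∈ L.lattice := by
    rw [hw, mul_div_cancel₀ _ hl0]
    exact L.ω₁_mem_lattice
  have Nw : (N : ℂ) * w ∉ L.lattice := by
    intro hm
    have e1 : (N : ℂ) * w = ((N : ℤ) : ℂ) * (L.ω₁ / (l : ℂ)) := by
      rw [hw]
      push_cast
      ring
    rw [e1] at hm
    have h5 := frac L _ _ hl.ne_zero hm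
    exact hlN (by exact_mod_cast h5)
  have jw : ¬ InK V L (xu L u e) w := fun h => Nw (by
    have := zmul L N ((tL l h2l).2 w lw h)
    simpa using this)
  have jq : ∀ q ∈ R, ¬ InK V L (xu L u e) q := fun q hq h =>
    hR.ne q hq ((tL N hN2).2 q (hN q (hR.mem q hq)) h)
  have jwq : ∀ q ∈ R, ¬ InK V L (xu L u e) (w + q) := by
    intro q hq h
    have hNq := hN q (hR.mem q hq)
    have hm := (tL (N * l) h2m).2 (w + q) (by
      have e1 : ((N * l : ℕ) : ℂ) * (w + q) = ((N : ℤ) : ℂ) * ((l : ℂ) * w) +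
          ((l : ℤ) : ℂ) * ((N : ℂ) * q) := by
        push_cast
        ring
      rw [e1]
      exact add_mem (zmul L _ lw) (zmul L _ hNq)) h
    apply Nw
    have e2 : (N : ℂ) * w = ((N : ℤ) : ℂ) * (w + q) - (N : ℂ) * q := by
      push_cast
      ring
    rw [e2]
    exact sub_mem (zmul L _ hm) hNq
  have mw : μ * w ∉ M.lattice := fun h => Nw (hN w h)
  have jM : ¬ InK V M (xu M u' e') (μ * w) := fun h => mw ((tM l h2l).2 _ (by
    have e1 : (l : ℂ) * (μ * w) = μ * ((l : ℂ) * w) := by ring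
    rw [e1]
    exact hI _ lw) h)
  have vq : ∀ q ∈ R, V.valuation (xu L u e q) ≤ 1 := fun q hq => (int_X (jq q hq)).2
  have vwq : ∀ q ∈ R, V.valuation (xu L u e (w + q)) ≤ 1 := fun q hq => (int_X (jwq q hq)).2
  have vw : V.valuation (xu L u e w) ≤ 1 := (int_X jw).2
  have vc : V.valuation (xu M u' e' (μ * w)) ≤ 1 := (int_X jM).2
  set c : ℂ := xu M u' e' (μ * w) with hc
  set ν : ℂ := μ * u' / u with hνd
  have vν1 : V.valuation (ν ^ 2) = 1 := by rw [map_pow, hν, one_pow]
  have hν0 : ν ^ 2 ≠ 0 := by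
    apply pow_ne_zero
    intro h0
    rw [h0, map_zero] at hν
    exact zero_ne_one hν
  have vν : V.valuation (ν ^ 2) ≤ 1 := vν1.le
  set A : ℂ[X] := ∏ q ∈ R, (X - C (xu L u e q)) with hA
  set B : ℂ[X] := ∏ q ∈ R, (X - C (xu L u e (w + q))) with hB
  set Q : ℂ[X] := C (ν ^ 2) * A with hQ
  set T : ℂ[X] := (X - C (xu L u e w)) * B with hT
  have iQ : IntP V Q := int_mul (int_C vν) (int_prod R _ vq)
  have evA : ∀ z, A.eval z = ∏ q ∈ R, (z - xu L u e q) := by
    intro z
    rw [hA, eval_prod]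
    refine Finset.prod_congr rfl fun q _ => ?_
    rw [eval_sub, eval_X, eval_C]
  have evB : ∀ z, B.eval z = ∏ q ∈ R, (z - xu L u e (w + q)) := by
    intro z
    rw [hB, eval_prod]
    refine Finset.prod_congr rfl fun q _ => ?_
    rw [eval_sub, eval_X, eval_C]
  -- the first identity
  have hu0 : u ^ 2 ≠ 0 := pow_ne_zero _ hL.u0
  have hu0' : u' ^ 2 ≠ 0 := pow_ne_zero _ hM.u0
  have eL : ∀ a b : ℂ, L.weierstrassP a - L.weierstrassP b =
      u ^ 2 * (xu L u e a - xu L u e b) := by
    intro a b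
    unfold xu
    rw [← sub_div, mul_div_cancel₀ _ hu0]
    ring
  have eM : ∀ a b : ℂ, M.weierstrassP a - M.weierstrassP b =
      u' ^ 2 * (xu M u' e' a - xu M u' e' b) := by
    intro a b
    unfold xu
    rw [← sub_div, mul_div_cancel₀ _ hu0']
    ring
  have id0 : ∀ z, μ * z ∉ M.lattice →
      ν ^ 2 * (xu M u' e' (μ * z) - c) * A.eval (xu L u e z) =
        (xu L u e z - xu L u e w) * B.eval (xu L u e z) := by
    intro z hz
    have pf := u_PFI L M μ R hμ hI hR w mw z hz
    have p1 : ∏ q ∈ R, (L.weierstrassP z - L.weierstrassP q) =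
        (u ^ 2) ^ R.card * A.eval (xu L u e z) := by
      rw [evA, ← Finset.prod_const, ← Finset.prod_mul_distrib]
      exact Finset.prod_congr rfl fun q _ => eL _ _
    have p2 : ∏ q ∈ R, (L.weierstrassP z - L.weierstrassP (w + q)) =
        (u ^ 2) ^ R.card * B.eval (xu L u e z) := by
      rw [evB, ← Finset.prod_const, ← Finset.prod_mul_distrib]
      exact Finset.prod_congr rfl fun q _ => eL _ _
    rw [p1, p2, eM, eL] at pf
    have hpow : (u ^ 2) ^ R.card ≠ 0 := pow_ne_zero _ hu0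
    apply mul_left_cancel₀ (mul_ne_zero hu0 hpow)
    rw [hνd]
    have e3 : u ^ 2 * (u ^ 2) ^ R.card * ((μ * u' / u) ^ 2 * (xu M u' e' (μ * z) - c) *
        A.eval (xu L u e z)) = μ ^ 2 * (u' ^ 2 * (xu M u' e' (μ * z) - c)) *
        ((u ^ 2) ^ R.card * A.eval (xu L u e z)) := by
      have hu : u ≠ 0 := hL.u0
      field_simp
    rw [e3, pf]
    ring
  have id1 : ∀ z, μ * z ∉ M.lattice →
      xu M u' e' (μ * z) * Q.eval (xu L u e z) = (C c * Q + T).eval (xu L u e z) := by
    intro z hz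
    have q1 := id0 z hz
    simp only [hQ, hT, eval_add, eval_mul, eval_C, eval_sub, eval_X]
    rw [← q1]
    ring
  -- the kernel of reduction
  have ker : ∀ z, InK V L (xu L u e) z → InK V M (xu M u' e') (μ * z) := by
    intro z hz
    by_cases hzM : μ * z ∈ M.lattice
    · exact Or.inl hzM
    have hzL : z ∉ L.lattice := fun h => hzM (hI z h)
    have hx : 1 < V.valuation (xu L u e z) := by
      rcases hz with h | h
      · exact absurd h hzL
      · rw [← ValuationSubring.valuation_le_one_iff] at h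
        exact not_le.1 h
    have hsub : ∀ a : ℂ, V.valuation a ≤ 1 →
        V.valuation (xu L u e z - a) = V.valuation (xu L u e z) := fun a ha =>
      Valuation.map_sub_eq_of_lt_left _ (lt_of_le_of_lt ha hx)
    have q1 := congrArg V.valuation (id0 z hzM)
    rw [map_mul, map_mul, vν1, one_mul, map_mul, evA, evB, map_prod, map_prod,
      Finset.prod_congr rfl fun q hq => hsub _ (vq q hq),
      Finset.prod_congr rfl fun q hq => hsub _ (vwq q hq), hsub _ vw, Finset.prod_const] at q1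
    have hne : V.valuation (xu L u e z) ^ R.card ≠ 0 :=
      pow_ne_zero _ (ne_of_gt (lt_trans zero_lt_one hx))
    have q2 := mul_right_cancel₀ hne q1
    refine Or.inr fun h => ?_
    rw [← ValuationSubring.valuation_le_one_iff] at h
    have h6 : V.valuation (xu M u' e' (μ * z) - c) ≤ 1 :=
      (Valuation.map_sub _ _ _).trans (max_le h vc)
    rw [q2] at h6
    exact absurd hx (not_lt.2 h6)
  refine ⟨C c * Q + T, Q, int_add (int_mul (int_C vc) iQ) (int_mul (int_XC vw)
    (int_prod R _ vwq)), iQ, ?_, ker, ?_⟩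
  · intro z hz
    refine ⟨id1 z hz, ?_⟩
    have hzL : z ∉ L.lattice := fun h => hz (hI z h)
    have hev : ∀ᶠ t in 𝓝 z, xu M u' e' (μ * t) * Q.eval (xu L u e t) =
        (C c * Q + T).eval (xu L u e t) := by
      have e2 : ∀ᶠ t in 𝓝 z, μ * t ∉ M.lattice := by
        have hcont : ContinuousAt (fun t : ℂ => μ * t) z := by fun_prop
        exact hcont.eventually_mem ((M.isClosed_lattice.isOpen_compl).mem_nhds hz)
      filter_upwards [e2] with t ht
      exact id1 t ht
    have hxL := dL z hzL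
    have hxM := dM (μ * z) hz
    have hM' : HasDerivAt (fun t : ℂ => xu M u' e' (μ * t))
        (u' * et M u' (μ * z) * μ) z := by
      have h5 : HasDerivAt (fun t : ℂ => μ * t) μ z := by
        simpa using (hasDerivAt_id z).const_mul μ
      exact HasDerivAt.comp z hxM h5
    have hB' : HasDerivAt (fun t : ℂ => Q.eval (xu L u e t))
        ((derivative Q).eval (xu L u e z) * (u * et L u z)) z :=
      HasDerivAt.comp z (Q.hasDerivAt (xu L u e z)) hxL
    have hA' : HasDerivAt (fun t : ℂ => (C c * Q + T).eval (xu L u e t))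
        ((derivative (C c * Q + T)).eval (xu L u e z) * (u * et L u z)) z :=
      HasDerivAt.comp z ((C c * Q + T).hasDerivAt (xu L u e z)) hxL
    have heq := (hM'.mul hB').unique (hA'.congr_of_eventuallyEq hev)
    have hid := id1 z hz
    have hu : u ≠ 0 := hL.u0
    generalize C c * Q + T = P at *
    simp only [eval_sub, eval_mul]
    apply mul_left_cancel₀ hu
    rw [hνd]
    have e5 : u * (μ * u' / u * et M u' (μ * z) * Q.eval (xu L u e z) ^ 2) =
        u' * et M u' (μ * z) * μ * Q.eval (xu L u e z) ^ 2 := by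
      field_simp
    rw [e5]
    linear_combination (Q.eval (xu L u e z)) * heq -
      (derivative Q).eval (xu L u e z) * (u * et L u z) * hid
  · intro z hz
    have hzK : ¬ InK V L (xu L u e) z := fun h => hz (ker z h)
    refine ⟨hzK, ?_⟩
    have hadd : ∀ q : ℂ, μ * q ∈ M.lattice → ¬ InK V L (xu L u e) (z + q) := by
      intro q hq h
      apply hz
      have h7 := ker _ h
      refine (gInK_congr grM (z := μ * (z + q)) (w := μ * z) (Or.inl ?_)).1 h7
      have e8 : μ * (z + q) - μ * z = μ * q := by ring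
      rw [e8]
      exact hq
    rw [hQ, eval_mul, eval_C, evA, map_mul, vν1, one_mul, map_prod]
    apply Finset.prod_eq_one
    intro q hq
    have hμq := hR.mem q hq
    refine gv_X_sub grL hzK (jq q hq) (hadd q hμq) ?_
    have h9 := hadd (-q) (by
      have e9 : μ * -q = -(μ * q) := by ring
      rw [e9]
      exact neg_mem hμq)
    rwa [← sub_eq_add_neg] at h9

end

end Pool.Agent.N2V
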