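import Pool.Agent.N2.StER2
import Pool.Agent.N2.E_THT

/-!
# MUX-2R, block ER2: module THT, the functions `z ↦ Θ_a(μ z)` as rational functions of `x` (port of `E_THT.lean`)
-/

set_option autoImplicit false

open Polynomial

namespace Pool.Agent.N2V

open _root_.MU3 Pool.Agent.MU3A Pool.Agent.MU3B Pool.Agent.MUX Pool.Agent.MUXU Pool.Agent.MUXE
open Pool.Agent.RI Pool.Agent.NS Pool.Agent.N2
open Pool.Agent.NSE (IntP)
open Pool.Agent.MUX2 (GRG gv_X_sub)
open Pool.Agent.MUXV (InK tX)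
open Pool.Agent.N2E (dlg)

noncomputable section

/-- (THT) the functions `z ↦ Θ_a(μ z)` on `L` as rational functions of `x` over `V`. -/
theorem tv_THT (h2 : Sv_GRT) (h3 : Sv_RAT) : Sv_THT := by
  intro V L M u e a1 a3 u' e' a1' a3' μ hI a H ha hH
  obtain ⟨P, Q, iP, iQ, r1, -, r3⟩ := h3 V L M u e a1 a3 u' e' a1' a3' μ hI
  obtain ⟨⟨ξ, G⟩, -⟩ := h2 V M u' e' a1' a3' hI.gM hI.v2
  have hu' : u' ≠ 0 := hI.gM.u0
  have hu : u ≠ 0 := hI.gL.u0
  by_cases hq : ∀ q ∈ H, ¬ InK V M (xu M u' e') q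
  swap
  · refine ⟨0, 0, fun i => by simp, fun i => by simp, fun z _ _ h => ?_⟩
    exact absurd (fun q hq' => (h q hq').1) hq
  refine ⟨∏ q ∈ H, (P - C (xu M u' e' q) * Q), Q ^ H.card, ?_, ?_, ?_⟩
  · refine NSER.ALG.iprod _ _ fun q hq' => NSER.ALG.sub iP (NSER.ALG.mul (NSER.ALG.iC ?_) iQ)
    exact (MUXV.int_X (hq q hq')).2
  · rw [← Finset.prod_const]
    exact NSER.ALG.iprod _ _ fun q _ => iQ
  intro z hz haz hqq
  obtain ⟨r4, r5⟩ := r3 z hz
  have hzM : μ * z ∉ M.lattice := fun h => hz (Or.inl h)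
  obtain ⟨r6, r7⟩ := r1 z hzM
  have hcv : ∀ q ∈ H, V.valuation (xu M u' e' (μ * z) - xu M u' e' q) = 1 := fun q hq' =>
    gv_X_sub G hz (hqq q hq').1 (hqq q hq').2.1 (hqq q hq').2.2
  have hc0 : ∀ q ∈ H, xu M u' e' (μ * z) - xu M u' e' q ≠ 0 := fun q hq' h0 => by
    have := hcv q hq'
    rw [h0, map_zero] at this
    exact zero_ne_one this
  set x := xu L u e z with hx
  have hQ0 : Q.eval x ≠ 0 := fun h0 => by
    rw [h0, map_zero] at r5
    exact zero_ne_one r5
  have hF : ∀ q, (P - C (xu M u' e' q) * Q).eval x =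
      (xu M u' e' (μ * z) - xu M u' e' q) * Q.eval x := by
    intro q
    rw [eval_sub, eval_mul, eval_C, ← r6]
    ring
  have hF0 : ∀ q ∈ H, (P - C (xu M u' e' q) * Q).eval x ≠ 0 := fun q hq' => by
    rw [hF]
    exact mul_ne_zero (hc0 q hq') hQ0
  have hx' : ∀ w q, M.weierstrassP w - M.weierstrassP q =
      u' ^ 2 * (xu M u' e' w - xu M u' e' q) := by
    intro w q
    unfold xu
    field_simp
    ring
  have hnat : ∀ w ∈ M.lattice, (a : ℂ) * w ∈ M.lattice := by
    intro w hw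
    have := M.lattice.smul_mem (a : ℤ) hw
    rwa [zsmul_eq_mul, Int.cast_natCast] at this
  have hdl : ∑ q ∈ H, M.derivWeierstrassP (μ * z) /
      (M.weierstrassP (μ * z) - M.weierstrassP q) = dlX M a (μ * z) := by
    have h8 := (b_TDL M (a : ℂ) H (Nat.cast_ne_zero.2 ha) hnat hH (μ * z) haz).1
    unfold dlX
    have h9 : ((‖(a : ℂ)‖ ^ 2 : ℝ) : ℂ) = (a : ℂ) ^ 2 := by
      rw [Complex.norm_natCast]; push_cast; rfl
    rw [h9] at h8
    exact h8
  refine ⟨r4, ?_, ?_, ?_, ?_⟩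
  · rw [eval_prod, map_prod]
    refine Finset.prod_eq_one fun q hq' => ?_
    rw [hF, map_mul, hcv q hq', r5, one_mul]
  · rw [eval_pow, map_pow, r5, one_pow]
  · rw [eval_prod, eval_pow, Finset.prod_congr rfl fun q _ => hF q, Finset.prod_mul_distrib,
      Finset.prod_const]
    unfold ThetaH
    rw [Finset.prod_congr rfl fun q _ => hx' (μ * z) q, Finset.prod_mul_distrib,
      Finset.prod_const]
    ring
  · rw [Pool.Agent.N2E.THT.dlg_prod _ _ _ hF0 hQ0, Finset.sum_mul, ← hdl, Finset.mul_sum, Finset.sum_div]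
    refine Finset.sum_congr rfl fun q hq' => ?_
    have h5 := hc0 q hq'
    have h6 : M.derivWeierstrassP (μ * z) = u' ^ 3 * et M u' (μ * z) := by
      unfold et
      field_simp
    unfold dlg
    have h7 : (derivative (P - C (xu M u' e' q) * Q)).eval x * Q.eval x -
        (P - C (xu M u' e' q) * Q).eval x * (derivative Q).eval x =
        (derivative P * Q - P * derivative Q).eval x := by
      simp only [derivative_sub, derivative_mul, derivative_C, eval_sub, eval_mul, eval_C,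
        eval_add, eval_zero]
      ring
    rw [h7, hF, hx', h6]
    rw [div_mul_eq_mul_div, mul_comm ((derivative P * Q - P * derivative Q).eval x), ← r7]
    field_simp

end

end Pool.Agent.N2V
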