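import Pool.Agent.N2.StER2
import Pool.Agent.MUX.UAll
import Pool.Agent.MUX.E_TRA
import Pool.Agent.MUX.E_TP

/-!
# MUX-2R, block ER2: the points of exact order `P^(j+1)` (TPU), `2` ramified

Adapted from `NS/F_TPR.lean` (helper1).
-/

set_option autoImplicit false

open Polynomial

namespace Pool.Agent.N2V

open _root_.MU3 Pool.Agent.MU3A Pool.Agent.MU3B Pool.Agent.MUX Pool.Agent.MUXU Pool.Agent.MUXE
open Pool.Agent.RI Pool.Agent.NS Pool.Agent.N2
open Pool.Agent.NSE (IntP)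
open Pool.Agent.MUX2 (GRG)
open Pool.Agent.MUXV (InK tX)
open Pool.Agent.N2E (dlg AutC cc)

noncomputable section

namespace TPU

theorem lt_one_of_sq {Γ : Type*} [LinearOrderedCommGroupWithZero Γ] {a b : Γ}
    (h : a ^ 2 = b) (hb : b < 1) : a < 1 := by
  by_contra hc
  have hc' : 1 ≤ a := not_lt.1 hc
  have h1 : 1 ≤ a ^ 2 := one_le_pow₀ hc'
  rw [h] at h1
  exact absurd hb (not_lt.2 h1)

theorem one_lt_of {Γ : Type*} [LinearOrderedCommGroupWithZero Γ] {T π : Γ}
    (h : π * T = 1) (hπ : π < 1) : 1 < T := by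
  by_contra hc
  have hc' : T ≤ 1 := not_lt.1 hc
  have h2 : π * T < 1 := lt_of_le_of_lt (mul_le_of_le_one_right' hc') hπ
  rw [h] at h2
  exact lt_irrefl _ h2

/-- the coordinate is periodic -/
theorem xu_per (L : PeriodPair) (u e : ℂ) {z w : ℂ} (h : z - w ∈ L.lattice) :
    xu L u e z = xu L u e w := by
  unfold xu
  have h1 := L.weierstrassP_add_coe w ⟨z - w, h⟩
  have h2 : w + (z - w) = z := by ring
  rw [show w + ((⟨z - w, h⟩ : L.lattice) : ℂ) = z from h2] at h1
  rw [h1]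

/-- the claim of the induction -/
theorem claim (h2 : Sv_GRT) (h4 : Sv_PST) {A B : ℤ} {P : Ideal (OO A B)} {V : ValuationSubring ℂ}
    (h : CtxU A B P V) (j : ℕ) : ∀ (L : PeriodPair) (u e a1 a3 : ℂ), NL A B L →
      GoodQ V L u e a1 a3 → ∀ z, Tor (P ^ (j + 1)) L z → ¬ Tor (P ^ j) L z →
      InK V L (xu L u e) z ∧ z ∉ L.lattice ∧ 1 < V.valuation (xu L u e z) ∧
      V.valuation (2 : ℂ) * V.valuation (xu L u e z) ^ (2 ^ j) = 1 := by
  obtain ⟨φ, hφ⟩ := h.ring.hom
  have embn : ∀ n : ℕ, emb ((n : ℕ) : OO A B) = n := fun n => by rw [← hφ, map_natCast]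
  have hv2 := h.v2
  have mem2 : ((2 : ℕ) : OO A B) ∈ P := by
    have h8 := (h.pw 1 ((2 : ℕ) : OO A B)).2 (by
      rw [embn, pow_one, Nat.cast_ofNat, sq]
      exact mul_le_of_le_one_right' hv2.le)
    rwa [pow_one] at h8
  induction j with
  | zero =>
    intro L u e a1 a3 hL hg z hz hz0
    obtain ⟨tra1, -⟩ := te_TRA A B h.ring L hL
    have hzL : z ∉ L.lattice := fun h8 => hz0 fun x _ => tra1 x z h8
    rw [zero_add, pow_one] at hz
    obtain ⟨N, ν, hN, hQ⟩ := h.exq L hL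
    obtain ⟨u', e', a1', a3', hg'⟩ := h.good N hN
    obtain ⟨-, q, k1, k2, k3, k4⟩ := h4 A B P V h L N ν u e a1 a3 u' e' a1' a3' hL hN hQ hg hg'
    obtain ⟨q', hq', hzq⟩ := k3.surj z ((hQ.2 z).2 hz) hzL
    rw [Finset.mem_singleton] at hq'
    rw [hq'] at hzq
    have hx := xu_per L u e hzq
    have h1 := one_lt_of k4 hv2
    rw [← hx] at h1 k4
    refine ⟨Or.inr fun hin => ?_, hzL, h1, by simpa using k4⟩
    exact absurd h1 (not_lt.2 ((V.valuation_le_one_iff _).2 hin))
  | succ j ih =>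
    intro L u e a1 a3 hL hg z hz hz0
    obtain ⟨tra1, tra2, tra3, tra4, tra5, tra6, tra7, tra8, tra9⟩ := te_TRA A B h.ring L hL
    obtain ⟨N, ν, hN, hQ⟩ := h.exq L hL
    obtain ⟨u', e', a1', a3', hg'⟩ := h.good N hN
    obtain ⟨hmu, q, k1, k2, k3, k4⟩ := h4 A B P V h L N ν u e a1 a3 u' e' a1' a3' hL hN hQ hg hg'
    have hν : ν ≠ 0 := hQ.1
    have hTor : ∀ z, ν * z ∈ N.lattice ↔ Tor P L z := hQ.2
    have hIsg : Isg L N ν := fun w hw => (hTor w).2 (fun x _ => tra1 x w hw)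
    obtain ⟨⟨ξ, G⟩, hodd⟩ := h2 V L u e a1 a3 hg hv2
    have hodd' := (h2 V N u' e' a1' a3' hg' hv2).2
    have hu := hg.u0
    have hu' := hg'.u0
    have hzL : z ∉ L.lattice := fun h8 => hz0 fun x _ => tra1 x z h8
    -- the point of order 5
    have hw5 : ((5 : ℕ) : ℂ) * (L.ω₁ / 5) ∈ L.lattice := by
      have h8 : ((5 : ℕ) : ℂ) * (L.ω₁ / 5) = L.ω₁ := by
        push_cast
        ring
      rw [h8]
      exact L.ω₁_mem_lattice
    have n1 := TP.fifth L
    set w : ℂ := L.ω₁ / 5 with hw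
    have i1 : ¬ InK V L (xu L u e) w := fun hin =>
      n1 ((hodd 5 (by norm_num)).2 w hw5 hin)
    have m1 : ν * w ∉ N.lattice := by
      intro h8
      have h9 := (hTor w).1 h8 _ mem2
      rw [embn] at h9
      apply n1
      have h10 := sub_mem hw5 (add_mem h9 h9)
      have h11 : ((5 : ℕ) : ℂ) * w - (((2 : ℕ) : ℂ) * w + ((2 : ℕ) : ℂ) * w) = w := by
        push_cast
        ring
      rwa [h11] at h10
    have i1' : ¬ InK V N (xu N u' e') (ν * w) := by
      intro hin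
      refine m1 ((hodd' 5 (by norm_num)).2 _ ?_ hin)
      have h8 := hIsg _ hw5
      rwa [show ν * (((5 : ℕ) : ℂ) * w) = ((5 : ℕ) : ℂ) * (ν * w) by ring] at h8
    -- the point `z' = ν z`
    have hz1 : Tor (P ^ (j + 1)) N (ν * z) := by
      intro x hx
      have h8 : Tor P L (emb x * z) := by
        apply tra6 (P ^ (j + 1)) P x z hx
        rw [← pow_succ]
        exact hz
      have h9 := (hTor _).2 h8
      rwa [show ν * (emb x * z) = emb x * (ν * z) by ring] at h9
    have hz2 : ¬ Tor (P ^ j) N (ν * z) := by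
      intro h8
      apply hz0
      rw [pow_succ]
      apply tra7
      intro x hx
      have h9 := h8 x hx
      rw [show emb x * (ν * z) = ν * (emb x * z) by ring] at h9
      exact (hTor _).1 h9
    obtain ⟨y1, y2, y3, y4⟩ := ih N u' e' a1' a3' hN hg' (ν * z) hz1 hz2
    have hq1 := one_lt_of k4 hv2
    have hqK : InK V L (xu L u e) q := Or.inr fun hin =>
      absurd hq1 (not_lt.2 ((V.valuation_le_one_iff _).2 hin))
    -- the product formula
    have pf := u_PFI L N ν {q} hν hIsg k3 w m1 z y2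
    have xd : ∀ a b : ℂ, L.weierstrassP a - L.weierstrassP b =
        u ^ 2 * (xu L u e a - xu L u e b) := by
      intro a b
      unfold xu
      field_simp
      ring
    have xd' : ∀ a b : ℂ, N.weierstrassP a - N.weierstrassP b =
        u' ^ 2 * (xu N u' e' a - xu N u' e' b) := by
      intro a b
      unfold xu
      field_simp
      ring
    have pf' : (ν * u' / u) ^ 2 * (xu N u' e' (ν * z) - xu N u' e' (ν * w)) *
        ∏ q ∈ ({q} : Finset ℂ), (xu L u e z - xu L u e q) =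
        (xu L u e z - xu L u e w) *
          ∏ q ∈ ({q} : Finset ℂ), (xu L u e z - xu L u e (w + q)) := by
      rw [Finset.prod_singleton, Finset.prod_singleton] at pf ⊢
      rw [xd, xd, xd, xd'] at pf
      apply mul_left_cancel₀ (mul_ne_zero (pow_ne_zero 2 hu) (pow_ne_zero 2 hu))
      have e1 : u ^ 2 * (ν * u' / u) ^ 2 = ν ^ 2 * u' ^ 2 := by
        field_simp
      linear_combination pf + (u ^ 2 *
        (xu N u' e' (ν * z) - xu N u' e' (ν * w)) * (xu L u e z - xu L u e q)) * e1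
    have hm0 : V.valuation (ν * u' / u) ≠ 0 :=
      (Valuation.ne_zero_iff _).2 (div_ne_zero (mul_ne_zero hν hu') hu)
    have hm1 : V.valuation (ν * u' / u) < 1 := lt_one_of_sq hmu hv2
    obtain ⟨X1, X2⟩ := TP.num V.valuation 2 (2 ^ j) (by norm_num) (by positivity) {q}
      (Finset.card_singleton q)
      (ν * u' / u) (xu N u' e' (ν * z)) (xu N u' e' (ν * w)) (xu L u e z) (xu L u e w)
      (fun q => xu L u e q) (fun q => xu L u e (w + q)) (V.valuation (xu L u e q))
      (V.valuation (ν * u' / u)) hm0 hm1 rfl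
      (by rw [hmu]; simpa using k4)
      hq1 (fun q' hq' => by rw [Finset.mem_singleton.1 hq'])
      (fun q' hq' => by
        rw [Finset.mem_singleton.1 hq']
        exact (Pool.Agent.MUXV.int_X (fun hin => i1 (by
          have := Pool.Agent.MUX2.gInK_sub G hin hqK
          rwa [add_sub_cancel_right] at this))).2)
      (Pool.Agent.MUXV.int_X i1).2 (Pool.Agent.MUXV.int_X i1').2
      y3 (by rw [hmu]; simpa using y4) pf'
    refine ⟨Or.inr fun hin => ?_, hzL, X1, ?_⟩
    · exact absurd X1 (not_lt.2 ((V.valuation_le_one_iff _).2 hin))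
    · rw [← y4, ← X2, ← pow_mul, pow_succ' 2 j]

end TPU

open TPU in
theorem tv_TPU (h2 : Sv_GRT) (h4 : Sv_PST) : Sv_TPU := by
  intro A B P V h j L u e a1 a3 hL hg z hz hz0
  obtain ⟨k1, k2, k3, k4⟩ := claim h2 h4 h j L u e a1 a3 hL hg z hz hz0
  refine ⟨k1, k2, ?_⟩
  obtain ⟨⟨ξ, G⟩, -⟩ := h2 V L u e a1 a3 hg h.v2
  obtain ⟨-, -, h5⟩ := Pool.Agent.MUX2.gv_tX_lt G k1 k2
  have hx0 : V.valuation (xu L u e z) ^ (2 ^ j) ≠ 0 := by
    refine pow_ne_zero _ fun h0 => ?_
    rw [h0] at k3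
    exact absurd k3 (not_lt.2 zero_le)
  apply mul_left_cancel₀ hx0
  rw [mul_comm _ (V.valuation (2 : ℂ)), k4, pow_succ' 2 j, pow_mul, ← mul_pow, h5, one_pow]

end

end Pool.Agent.N2V
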