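import Pool.Agent.N2.StE2
import Pool.Agent.N2.R_CHT
import Pool.Agent.N2.R_TP2

/-!
# MUX-2N, block E2N, module TPT: torsion points

The valuations of `x` at the points of order a power of two are computed from the duplication
formula, with the lemmas `CHT.alg_x` (`R_CHT.lean`) and `TP2.base`, `TP2.step` (`R_TP2.lean`).
-/

set_option autoImplicit false

open Polynomial

namespace Pool.Agent.N2E

open _root_.MU3 Pool.Agent.MU3A Pool.Agent.MU3B Pool.Agent.MUX Pool.Agent.MUXU Pool.Agent.MUXE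
open Pool.Agent.RI Pool.Agent.NS Pool.Agent.N2
open Pool.Agent.NSE (IntP)
open Pool.Agent.MUX2 (GRG)
open Pool.Agent.MUXV (InK tX)

noncomputable section

namespace TPT

theorem v_int (V : ValuationSubring ℂ) (a : ℤ) : V.valuation (a : ℂ) ≤ 1 :=
  (V.valuation_le_one_iff _).2 (intCast_mem V a)

/-- odd integers are units at `V` -/
theorem v_nat (V : ValuationSubring ℂ) (h2 : V.valuation (2 : ℂ) < 1) (N : ℕ) (hN : ¬ 2 ∣ N) :
    V.valuation (N : ℂ) = 1 := by
  obtain ⟨k, hk⟩ : ∃ k : ℕ, N = 2 * k + 1 := ⟨N / 2, by omega⟩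
  refine le_antisymm ?_ (not_lt.1 fun hlt => ?_)
  · have := v_int V (N : ℤ)
    rwa [Int.cast_natCast] at this
  · have h3 : V.valuation ((2 : ℂ) * (k : ℂ)) < 1 := by
      rw [map_mul]
      have := v_int V (k : ℤ)
      rw [Int.cast_natCast] at this
      exact lt_of_le_of_lt (mul_le_of_le_one_right' this) h2
    have h4 := Valuation.map_sub_lt V.valuation hlt h3
    have h5 : (N : ℂ) - 2 * (k : ℂ) = 1 := by
      rw [hk]
      push_cast
      ring
    rw [h5, map_one] at h4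
    exact lt_irrefl _ h4

/-- duplication in Deuring form -/
theorem dup {L : PeriodPair} {u e a c : ℂ} (hu : u ≠ 0)
    (hD : ∀ z ∉ L.lattice, et L u z ^ 2 = 4 * xu L u e z ^ 3 + (a * xu L u e z + c) ^ 2)
    (he : 12 * e = a ^ 2 * u ^ 2) (hg2 : 12 * e ^ 2 - L.g₂ = 2 * a * c * u ^ 4)
    {z : ℂ} (hz : z ∉ L.lattice) :
    (2 * z ∈ L.lattice → 4 * xu L u e z ^ 3 + (a * xu L u e z + c) ^ 2 = 0) ∧
    (2 * z ∉ L.lattice → xu L u e (2 * z) * (4 * xu L u e z ^ 3 + (a * xu L u e z + c) ^ 2) =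
      xu L u e z ^ 4 - a * c * xu L u e z ^ 2 - 2 * c ^ 2 * xu L u e z) := by
  have hE := hD z hz
  refine ⟨fun h2 => ?_, fun h2z => ?_⟩
  · have h0 : L.derivWeierstrassP z = 0 := (b_ZER L z hz).2 h2
    rw [← hE]
    unfold et
    rw [h0]
    simp
  · obtain ⟨h1, -⟩ := b_DUP L z h2z
    have hne : L.derivWeierstrassP z ≠ 0 := fun h0 => h2z ((b_ZER L z hz).1 h0)
    have hTT : 2 * yt L u e a c z + a * xu L u e z + c = et L u z := by
      unfold yt
      ring
    have hy : et L u z ≠ 0 := by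
      unfold et
      exact div_ne_zero hne (pow_ne_zero 3 hu)
    have hT : u ^ 4 * (6 * xu L u e z ^ 2 + a ^ 2 * xu L u e z + a * c) =
        6 * L.weierstrassP z ^ 2 - L.g₂ / 2 := by
      have hx : L.weierstrassP z = u ^ 2 * xu L u e z + e := by
        unfold xu
        field_simp
        ring
      have he' : e = a ^ 2 * u ^ 2 / 12 := by linear_combination he / 12
      have hg : L.g₂ = 12 * e ^ 2 - 2 * a * c * u ^ 4 := by linear_combination -hg2
      rw [hg, hx, he']
      ring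
    have hm : (3 * xu L u e z ^ 2 - a * yt L u e a c z) / et L u z =
        (6 * L.weierstrassP z ^ 2 - L.g₂ / 2) / (2 * L.derivWeierstrassP z) / u - a / 2 := by
      rw [← hT]
      have h3 : 3 * xu L u e z ^ 2 - a * yt L u e a c z =
          ((6 * xu L u e z ^ 2 + a ^ 2 * xu L u e z + a * c) - a * et L u z) / 2 := by
        rw [← hTT]
        ring
      rw [h3]
      unfold et
      field_simp
    have h1' : L.weierstrassP (2 * z) + L.weierstrassP z + L.weierstrassP z =
        ((6 * L.weierstrassP z ^ 2 - L.g₂ / 2) / (2 * L.derivWeierstrassP z)) ^ 2 := by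
      rw [← h1]
      ring
    have he2 : 12 * e = u ^ 2 * a ^ 2 := by linear_combination he
    have h4 := Pool.Agent.N2R.CHT.alg_x hu he2 h1' hm
    have h5 : xu L u e (2 * z) = ((3 * xu L u e z ^ 2 - a * yt L u e a c z) / et L u z) ^ 2 +
        a * ((3 * xu L u e z ^ 2 - a * yt L u e a c z) / et L u z) - 2 * xu L u e z := by
      calc xu L u e (2 * z) = (L.weierstrassP (2 * z) - e) / u ^ 2 := rfl
        _ = _ := h4
        _ = _ := by
          unfold xu
          ring
    rw [h5, ← hTT]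
    rw [← hTT] at hy hE
    generalize xu L u e z = X at *
    generalize yt L u e a c z = Y at *
    have e1 : (3 * X ^ 2 - a * Y) / (2 * Y + a * X + c) * (2 * Y + a * X + c) =
        3 * X ^ 2 - a * Y := div_mul_cancel₀ _ hy
    generalize (3 * X ^ 2 - a * Y) / (2 * Y + a * X + c) = l at *
    rw [← hE]
    have e2 : (l ^ 2 + a * l - 2 * X) * (2 * Y + a * X + c) ^ 2 =
        (3 * X ^ 2 - a * Y) ^ 2 + a * (3 * X ^ 2 - a * Y) * (2 * Y + a * X + c) -
          2 * X * (2 * Y + a * X + c) ^ 2 := by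
      rw [← e1]
      ring
    rw [e2]
    linear_combination (-(a ^ 2) / 4 - 2 * X) * hE

end TPT

open TPT Pool.Agent.N2R.TP2 in
theorem td_TPT (h1 : Sd_COE) (h2 : Sd_GRT) : Sd_TPT := by
  intro V L u e a1 a3 hG hv2
  obtain ⟨ξ, G⟩ := h2 V L u e a1 a3 hG hv2
  obtain ⟨he, hg2, -, -, -, hD, -, -, -⟩ := h1 V L u e a1 a3 hG hv2
  refine ⟨fun N hN => ⟨v_nat V hv2 N hN, fun z hz hK =>
    Pool.Agent.MUX2.gmem_of_nat_mul G hK (v_nat V hv2 N hN) hz⟩, ?_⟩
  have key : ∀ (j : ℕ) (z : ℂ), 2 ^ (j + 1) * z ∈ L.lattice → 2 ^ j * z ∉ L.lattice →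
      z ∉ L.lattice ∧ 1 < V.valuation (xu L u e z) ∧
        V.valuation (xu L u e z) ^ (3 * 4 ^ j) * V.valuation (2 : ℂ) ^ 2 = 1 := by
    intro j
    induction j with
    | zero =>
      intro z hz hz0
      rw [pow_zero, one_mul] at hz0
      rw [zero_add, pow_one] at hz
      obtain ⟨h3, h4⟩ := base hv2 hG.v1 hG.v3 ((dup hG.u0 hD he hg2 hz0).1 hz)
      exact ⟨hz0, h3, by rw [pow_zero, mul_one]; exact h4⟩
    | succ j ih =>
      intro z hz hz0
      have hz1 : z ∉ L.lattice := by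
        intro h1
        apply hz0
        have h3 := L.lattice.nsmul_mem h1 (2 ^ (j + 1))
        rw [nsmul_eq_mul] at h3
        exact_mod_cast h3
      have hz2 : 2 * z ∉ L.lattice := by
        intro h1
        apply hz0
        have h3 := L.lattice.nsmul_mem h1 (2 ^ j)
        rw [nsmul_eq_mul] at h3
        have h4 : (2 : ℂ) ^ (j + 1) * z = ((2 ^ j : ℕ) : ℂ) * (2 * z) := by
          push_cast
          ring
        rw [h4]
        exact h3
      obtain ⟨-, hb, hb2⟩ := ih (2 * z) (by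
        have h4 : (2 : ℂ) ^ (j + 1) * (2 * z) = 2 ^ (j + 1 + 1) * z := by ring
        rw [h4]
        exact hz) (by
        have h4 : (2 : ℂ) ^ j * (2 * z) = 2 ^ (j + 1) * z := by ring
        rw [h4]
        exact hz0)
      have hb3 : V.valuation (xu L u e (2 * z)) ^ 3 * V.valuation (2 : ℂ) ^ 2 ≤ 1 := by
        rw [← hb2]
        apply mul_le_mul_left
        apply pow_le_pow_right₀ hb.le
        have := Nat.one_le_pow j 4 (by norm_num)
        omega
      obtain ⟨h6, h7⟩ := step hv2 hG.v1 hG.v3 hb hb3 ((dup hG.u0 hD he hg2 hz1).2 hz2)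
      refine ⟨hz1, h6, ?_⟩
      rw [h7, ← pow_mul] at hb2
      rw [← hb2]
      congr 2
      rw [pow_succ]
      ring
  intro j z hz hz0
  obtain ⟨hzL, hx, hx2⟩ := key j z hz hz0
  have hK : InK V L (xu L u e) z := Or.inr fun hin =>
    absurd hx (not_lt.2 ((V.valuation_le_one_iff _).2 hin))
  refine ⟨hK, hzL, ?_⟩
  obtain ⟨-, -, h3⟩ := Pool.Agent.MUX2.gv_tX_lt G hK hzL
  refine (pow_left_inj₀ zero_le zero_le two_ne_zero).1 ?_
  have h4 : V.valuation (xu L u e z) ^ (3 * 4 ^ j) ≠ 0 :=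
    pow_ne_zero _ (ne_of_gt (lt_trans zero_lt_one hx))
  apply mul_left_cancel₀ h4
  rw [hx2]
  calc V.valuation (xu L u e z) ^ (3 * 4 ^ j) *
        (V.valuation (tX (xu L u e) (yt L u e a1 a3) z) ^ (3 * 4 ^ j)) ^ 2
      = (V.valuation (xu L u e z) *
          V.valuation (tX (xu L u e) (yt L u e a1 a3) z) ^ 2) ^ (3 * 4 ^ j) := by
        rw [mul_pow, ← pow_mul, ← pow_mul (V.valuation (tX (xu L u e) (yt L u e a1 a3) z)) 2,
          mul_comm (3 * 4 ^ j) 2]
    _ = 1 := by rw [h3, one_pow]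

end

end Pool.Agent.N2E
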