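import Pool.Agent.N2.StER2
import Pool.Agent.N2.E_TPT

/-!
# MUX-2R, block ER2, module TWO: points of order a power of two (helper42)
-/

set_option autoImplicit false

open Polynomial

namespace Pool.Agent.N2V

open _root_.MU3 Pool.Agent.MU3A Pool.Agent.MU3B Pool.Agent.MUX Pool.Agent.MUXU Pool.Agent.MUXE
open Pool.Agent.RI Pool.Agent.NS Pool.Agent.N2
open Pool.Agent.NSE (IntP)
open Pool.Agent.MUX2 (GRG)
open Pool.Agent.MUXV (InK tX)
open Pool.Agent.N2E (dlg AutC cc)

noncomputable section

namespace TWO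

/-- `a1 x + a3` is a unit if `x` is integral -/
lemma unit_lin {V : ValuationSubring ℂ} {a1 a3 x : ℂ} (h1 : V.valuation a1 < 1)
    (h3 : V.valuation a3 = 1) (hx : V.valuation x ≤ 1) : V.valuation (a1 * x + a3) = 1 := by
  have h4 : V.valuation (a1 * x) < V.valuation a3 := by
    rw [map_mul, h3]
    exact (mul_le_of_le_one_right' hx).trans_lt h1
  rw [Valuation.map_add_eq_of_lt_right _ h4, h3]

/-- the zeros of the two-division polynomial -/
lemma base {V : ValuationSubring ℂ} {a1 a3 x : ℂ} (h2 : V.valuation (2 : ℂ) < 1)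
    (h1 : V.valuation a1 ^ 2 ≤ V.valuation (2 : ℂ)) (h1' : V.valuation a1 < 1)
    (h3 : V.valuation a3 = 1) (he : 4 * x ^ 3 + (a1 * x + a3) ^ 2 = 0) :
    1 < V.valuation x ∧ V.valuation (2 : ℂ) * V.valuation x ≤ 1 := by
  have h4 : (a1 * x + a3) ^ 2 = -(2 ^ 2 * x ^ 3) := by linear_combination he
  have h5 := congrArg V.valuation h4
  rw [Valuation.map_neg, map_mul, map_pow, map_pow, map_pow] at h5
  have hT : 1 < V.valuation x := by
    by_contra hcon
    have hx := not_lt.1 hcon
    rw [unit_lin h1' h3 hx, one_pow] at h5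
    have h6 : V.valuation (2 : ℂ) ^ 2 * V.valuation x ^ 3 < 1 :=
      (mul_le_of_le_one_right' (pow_le_one' hx 3)).trans_lt (pow_lt_one₀ zero_le h2 two_ne_zero)
    rw [← h5] at h6
    exact lt_irrefl _ h6
  refine ⟨hT, ?_⟩
  by_contra hcon
  have hc := not_le.1 hcon
  have hT0 : 0 < V.valuation x := lt_trans zero_lt_one hT
  have h20 : 0 < V.valuation (2 : ℂ) := by
    rw [zero_lt_iff]
    exact (Valuation.ne_zero_iff _).2 (by norm_num)
  -- the two bounds
  have h6 : V.valuation (2 : ℂ) * V.valuation x ^ 2 <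
      V.valuation (2 : ℂ) ^ 2 * V.valuation x ^ 3 := by
    have h7 : 0 < V.valuation (2 : ℂ) * V.valuation x ^ 2 := mul_pos h20 (pow_pos hT0 2)
    calc V.valuation (2 : ℂ) * V.valuation x ^ 2
        = V.valuation (2 : ℂ) * V.valuation x ^ 2 * 1 := (mul_one _).symm
      _ < V.valuation (2 : ℂ) * V.valuation x ^ 2 * (V.valuation (2 : ℂ) * V.valuation x) :=
          mul_lt_mul_of_pos_left hc h7
      _ = V.valuation (2 : ℂ) ^ 2 * V.valuation x ^ 3 := by
          rw [mul_mul_mul_comm, ← pow_two, ← pow_succ]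
  have h8 : 1 < V.valuation (2 : ℂ) ^ 2 * V.valuation x ^ 3 := by
    calc (1 : V.ValueGroup) < V.valuation (2 : ℂ) * V.valuation x := hc
      _ < V.valuation (2 : ℂ) * V.valuation x ^ 2 := by
          rw [pow_two]
          refine mul_lt_mul_of_pos_left ?_ h20
          calc V.valuation x = V.valuation x * 1 := (mul_one _).symm
            _ < V.valuation x * V.valuation x := mul_lt_mul_of_pos_left hT hT0
      _ < _ := h6
  have h9 : V.valuation (a1 * x + a3) ^ 2 < V.valuation (2 : ℂ) ^ 2 * V.valuation x ^ 3 := by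
    rcases le_total (V.valuation (a1 * x)) (V.valuation a3) with h10 | h10
    · have h11 := (Valuation.map_add V.valuation (a1 * x) a3).trans (max_le h10 le_rfl)
      rw [h3] at h11
      exact (pow_le_one' h11 2).trans_lt h8
    · have h11 := (Valuation.map_add V.valuation (a1 * x) a3).trans (max_le le_rfl h10)
      rw [map_mul] at h11
      refine (pow_le_pow_left' h11 2).trans_lt ?_
      rw [mul_pow]
      exact (mul_le_mul' h1 le_rfl).trans_lt h6
  rw [h5] at h9
  exact lt_irrefl _ h9

end TWO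

open TWO in
theorem tv_TWO (h1 : Sv_COE) (h2 : Sv_PVI) : Sv_TWO := by
  intro V L u e a1 a3 hG hv2
  obtain ⟨he, hg2, -, -, ha1, -, hD, -, -, -⟩ := h1 V L u e a1 a3 hG hv2
  have hdup := fun z (hz : z ∉ L.lattice) =>
    Pool.Agent.N2E.TPT.dup (L := L) (u := u) (e := e) (a := a1) (c := a3) hG.u0 hD he hg2 hz
  have p1 : ∀ z, 2 * z ∈ L.lattice → z ∉ L.lattice → 1 < V.valuation (xu L u e z) ∧
      V.valuation (2 : ℂ) * V.valuation (xu L u e z) ≤ 1 := fun z hz hzL =>
    base hv2 hG.v1 ha1 hG.v3 ((hdup z hzL).1 hz)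
  have p2 : ∀ (j : ℕ) (z : ℂ), 2 ^ j * z ∈ L.lattice → InK V L (xu L u e) z := by
    intro j
    induction j with
    | zero =>
      intro z hz
      rw [pow_zero, one_mul] at hz
      exact Or.inl hz
    | succ j ih =>
      intro z hz
      by_cases hzL : z ∈ L.lattice
      · exact Or.inl hzL
      refine Or.inr fun hin => ?_
      have hx := (V.valuation_le_one_iff _).2 hin
      by_cases h2z : 2 * z ∈ L.lattice
      · exact absurd (p1 z h2z hzL).1 (not_lt.2 hx)
      have h3 : (2 : ℂ) ^ j * (2 * z) ∈ L.lattice := by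
        have h4 : (2 : ℂ) ^ j * (2 * z) = 2 ^ (j + 1) * z := by ring
        rw [h4]
        exact hz
      rcases ih _ h3 with h4 | h4
      · exact h2z h4
      have h5 : 1 < V.valuation (xu L u e (2 * z)) := not_le.1 fun h6 =>
        h4 ((V.valuation_le_one_iff _).1 h6)
      have h6 := congrArg V.valuation ((hdup z hzL).2 h2z)
      have h7 : V.valuation (4 * xu L u e z ^ 3 + (a1 * xu L u e z + a3) ^ 2) = 1 := by
        have h8 : V.valuation ((a1 * xu L u e z + a3) ^ 2) = 1 := by
          rw [map_pow, unit_lin ha1 hG.v3 hx, one_pow]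
        have h9 : V.valuation (4 * xu L u e z ^ 3) <
            V.valuation ((a1 * xu L u e z + a3) ^ 2) := by
          have h10 : (4 : ℂ) = 2 * 2 := by norm_num
          rw [h8, h10, map_mul, map_mul, map_pow]
          exact (mul_le_of_le_one_right' (pow_le_one' hx 3)).trans_lt
            ((mul_le_of_le_one_right' hv2.le).trans_lt hv2)
        rw [Valuation.map_add_eq_of_lt_right _ h9, h8]
      rw [map_mul, h7, mul_one] at h6
      rw [h6] at h5
      refine absurd h5 (not_lt.2 ?_)
      have ha1V : a1 ∈ V := (V.valuation_le_one_iff _).1 ha1.le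
      have ha3V : a3 ∈ V := (V.valuation_le_one_iff _).1 hG.v3.le
      have h2V : (2 : ℂ) ∈ V := (V.valuation_le_one_iff _).1 hv2.le
      refine (V.valuation_le_one_iff _).2 ?_
      exact sub_mem (sub_mem (pow_mem hin 4) (mul_mem (mul_mem ha1V ha3V) (pow_mem hin 2)))
        (mul_mem (mul_mem h2V (pow_mem ha3V 2)) hin)
  refine ⟨p1, p2, fun R hR => ?_, fun R hR => ?_⟩
  · have h3 := h2 V L L u e a1 a3 u e a1 a3 2 hG hG hv2 (by norm_num) (fun w hw => by
      have := nsmul_mem hw 2
      rw [nsmul_eq_mul] at this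
      exact_mod_cast this) R hR (fun q hq => p2 1 q (by
        rw [pow_one]
        exact hR.mem q hq))
    rw [mul_div_cancel_right₀ _ hG.u0] at h3
    exact h3
  · have h3 := h2 V L L u e a1 a3 u e a1 a3 4 hG hG hv2 (by norm_num) (fun w hw => by
      have := nsmul_mem hw 4
      rw [nsmul_eq_mul] at this
      exact_mod_cast this) R hR (fun q hq => p2 2 q (by
        have h4 : (2 : ℂ) ^ 2 = 4 := by norm_num
        rw [h4]
        exact hR.mem q hq))
    rw [mul_div_cancel_right₀ _ hG.u0] at h3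
    have h4 : V.valuation (4 : ℂ) = V.valuation (2 : ℂ) ^ 2 := by
      rw [← map_pow]
      norm_num
    rw [h4, ← pow_mul] at h3
    exact h3

end

end Pool.Agent.N2V
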