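import Pool.Agent.N2.V_COE
import Pool.Agent.N2.V_GRT
import Pool.Agent.N2.V_UNT
import Pool.Agent.N2.V_RAT
import Pool.Agent.N2.V_THT
import Pool.Agent.N2.V_NE1
import Pool.Agent.N2.V_PVI
import Pool.Agent.N2.V_TWO
import Pool.Agent.N2.V_PST
import Pool.Agent.N2.V_TPU
import Pool.Agent.N2.V_DST
import Pool.Agent.N2.V_DS2
import Pool.Agent.N2.V_CTX
import Pool.Agent.N2.V_DEG
import Pool.Agent.N2.V_CON
import Pool.Agent.N2.V_SIG
import Pool.Agent.N2.V_MUL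
import Pool.Agent.N2.V_FIB
import Pool.Agent.N2.V_GPO
import Pool.Agent.N2.V_SQR
import Pool.Agent.N2.V_ORB
import Pool.Agent.N2.V_GLC
import Pool.Agent.N2.V_XXS
import Pool.Agent.N2.V_HEQ
import Pool.Agent.N2.V_HAL
import Pool.Agent.N2.V_COS
import Pool.Agent.N2.V_MAIN
import Pool.Agent.N2.V_FIN
import Pool.Agent.N2.E_LAG
import Pool.Agent.N2.E_PRD
import Pool.Agent.N2.E_AUT
import Pool.Agent.N2.E_GTA
import Pool.Agent.N2.R_VL2
import Pool.Agent.N2.R_ALB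
import Pool.Agent.N2.R_ALC
import Pool.Agent.N2.RAll

/-! # Block ER2 of the project MUX-2R, assembled (helper59)

`StER2.lean` states the criterion for squares (`2` ramified in `k`); the files `V_*.lean` prove the statements. Here they are put
together: `v_X : Sv_X` without hypotheses, and `v_EFIN` gives `SQ_EFIN` from `SQ_RFIN`. -/

set_option autoImplicit false

namespace Pool.Agent.N2V

open Pool.Agent.N2 Pool.Agent.N2E

theorem v_COE : Sv_COE := tv_COE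
theorem v_GRT : Sv_GRT := tv_GRT v_COE
theorem v_UNT : Sv_UNT := tv_UNT v_GRT
theorem v_RAT : Sv_RAT := tv_RAT v_COE v_GRT v_UNT
theorem v_THT : Sv_THT := tv_THT v_GRT v_RAT
theorem v_NE1 : Sv_NE1 := tv_NE1 v_GRT
theorem v_PVI : Sv_PVI := tv_PVI v_GRT
theorem v_TWO : Sv_TWO := tv_TWO v_COE v_PVI
theorem v_PST : Sv_PST := tv_PST v_TWO v_PVI Pool.Agent.MUXU.u_BAC
theorem v_TPU : Sv_TPU := tv_TPU v_GRT v_PST
theorem v_DST : Sv_DST := tv_DST v_GRT v_TWO v_TPU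
theorem v_DS2 : Sv_DS2 := tv_DS2
theorem v_CTX : Sv_CTX := tv_CTX
theorem v_DEG : Sv_DEG := tv_DEG
theorem v_CON : Sv_CON := tv_CON
theorem v_SIG : Sv_SIG := tv_SIG v_GRT v_TPU v_DEG
theorem v_MUL : Sv_MUL := tv_MUL
theorem v_FIB : Sv_FIB := tv_FIB v_GRT v_TWO v_DS2
theorem v_GPO : Sv_GPO := tv_GPO v_GRT v_THT v_NE1 v_MUL v_FIB
theorem v_SQR : Sv_SQR :=
  tv_SQR td_LAG td_PRD v_COE v_DST td_AUT td_GTA v_CON v_SIG v_NE1 v_GPO
theorem v_ORB : Sv_ORB := tv_ORB td_LAG td_PRD v_DST v_CON v_NE1 v_FIB v_GPO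
theorem v_GLC : Sv_GLC := tv_GLC v_CON
theorem v_XXS : Sv_XXS := tv_XXS
theorem v_HEQ : Sv_HEQ := tv_HEQ v_XXS
theorem v_HAL : Sv_HAL := tv_HAL v_CON v_XXS
theorem v_COS : Sv_COS := tv_COS v_CON
theorem v_MAIN : Sv_MAIN := tv_MAIN v_CON v_SQR v_ORB v_COS
theorem v_FIN : Sv_FIN := tv_FIN v_CTX td_AUT v_CON v_GLC v_XXS v_HEQ v_HAL v_MAIN

/-- block ER2 -/
theorem v_EFIN (h : SQ_RFIN) : SQ_EFIN := v_FIN h Pool.Agent.N2R.r_VL2.2

end Pool.Agent.N2V
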