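import Pool.Agent.N2.StE2
import Pool.Agent.MUX.XLib

/-!
# MUX-2N, block E2N: module CON (helper47), the elements `c = 1 + N b`, `N = 2^n f a`
-/

set_option autoImplicit false

open Polynomial

namespace Pool.Agent.N2E

open _root_.MU3 Pool.Agent.MU3A Pool.Agent.MU3B Pool.Agent.MUX Pool.Agent.MUXU Pool.Agent.MUXE
open Pool.Agent.RI Pool.Agent.NS Pool.Agent.N2

noncomputable section

namespace CON

variable {A B : ℤ} {V : ValuationSubring ℂ} {n f a m : ℕ}

/-- numbers -/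
theorem nums (h : SetE A B V n f a m) :
    m * a = 4 * (2 ^ n * f * a) ∧ (∃ r, 2 ^ n * f * a = 2 * r) ∧
      (∃ r, 2 ^ n * f * a = f * a * r) ∧ (∃ r, 2 ^ n * f * a = 4 * f * r) ∧
      (∃ r, 2 ^ n * f * a = a * r) ∧
      (∃ r, (2 ^ n * f * a) ^ 2 = 2 ^ (n + 2) * r) ∧ (∃ r, (2 ^ n * f * a) ^ 2 = m * a * r) ∧
      2 * (2 ^ n * f * a) * 2 = m * a ∧ 2 ∣ m := by
  obtain ⟨k, rfl⟩ : ∃ k, n = k + 2 := ⟨n - 2, by have := h.n2; omega⟩
  have h1 := h.hm
  have h5 : (2 : ℕ) ^ (k + 2 + 2) = 16 * 2 ^ k := by ring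
  have h7 : (2 : ℕ) ^ (k + 2) = 4 * 2 ^ k := by ring
  rw [h1, h5, h7]
  refine ⟨by ring, ⟨2 * 2 ^ k * f * a, by ring⟩, ⟨4 * 2 ^ k, by ring⟩, ⟨2 ^ k * a, by ring⟩,
    ⟨4 * 2 ^ k * f, by ring⟩, ⟨2 ^ k * f ^ 2 * a ^ 2, by ring⟩, ⟨2 ^ k * f * a, by ring⟩,
    by ring, ⟨8 * 2 ^ k * f, by ring⟩⟩

theorem mpos (h : SetE A B V n f a m) : m ≠ 0 := by
  have h1 := h.f3
  rw [h.hm]
  positivity

theorem cast_dvd_mem {d e : ℕ} (h : ∃ r, e = d * r) (b : OO A B) :
    ((e : ℕ) : OO A B) * b ∈ idl (A := A) (B := B) d := by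
  obtain ⟨r, rfl⟩ := h
  rw [Ideal.mem_span_singleton]
  exact ⟨(r : OO A B) * b, by push_cast; ring⟩

theorem cc_sub (N : ℕ) (b : OO A B) : cc N b - 1 = (N : OO A B) * b := by
  unfold cc
  ring

theorem coprime_of {N M : ℕ} (h : ∃ r, N ^ 2 = M * r) (b : OO A B) :
    IsCoprime (cc N b) ((M : ℕ) : OO A B) := by
  have h1 : IsCoprime (cc N b) ((N : ℕ) : OO A B) := by
    refine ⟨1, -b, ?_⟩
    unfold cc
    ring
  have h2 : IsCoprime (cc N b) (((N : ℕ) : OO A B) ^ 2) := h1.pow_right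
  obtain ⟨r, hr⟩ := h
  have h3 : ((N : ℕ) : OO A B) ^ 2 = ((M : ℕ) : OO A B) * (r : OO A B) := by
    exact_mod_cast congrArg (fun x : ℕ => (x : OO A B)) hr
  rw [h3] at h2
  exact h2.of_mul_right_left

theorem cc_ne {N : ℕ} (h : ∃ r, N = 2 * r) (b : OO A B) : cc N b ≠ 0 := by
  intro h0
  have h1 := congrArg QuadraticAlgebra.re h0
  have h2 : (cc N b).re = 1 + (N : ℤ) * b.re := by
    unfold cc
    simp only [QuadraticAlgebra.re_add, QuadraticAlgebra.re_one, QuadraticAlgebra.re_mul,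
      QuadraticAlgebra.re_natCast, QuadraticAlgebra.im_natCast]
    ring
  rw [h2, QuadraticAlgebra.re_zero] at h1
  obtain ⟨r, rfl⟩ := h
  have h3 : (2 : ℤ) ∣ 1 := ⟨-(r * b.re), by push_cast at h1; linarith⟩
  norm_num at h3

theorem nI_of (hq : CQ A B) {c : OO A B} (hc : c ≠ 0) {M : ℕ} (h : (M : ℤ) ∣ nm c - 1) :
    ∃ j : ℕ, nI (sp c) = 1 + M * j := by
  obtain ⟨j, hj⟩ := h
  have h1 : 0 ≤ nm c := nm_nonneg hq c
  rw [nI_sp hq hc]
  by_cases hM : M = 0
  · refine ⟨0, ?_⟩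
    subst hM
    simp only [Nat.cast_zero, zero_mul] at hj
    have : nm c = 1 := by linarith
    rw [this]
    simp
  have hM' : (0 : ℤ) < M := by exact_mod_cast Nat.pos_of_ne_zero hM
  have hj0 : 0 ≤ j := by
    by_contra hneg
    push Not at hneg
    have h2 : nm c ≠ 0 := fun h => hc ((nm_eq_zero hq).1 h)
    have : (M : ℤ) * j < 0 := mul_neg_of_pos_of_neg hM' hneg
    omega
  refine ⟨j.natAbs, ?_⟩
  zify
  rw [abs_of_nonneg h1, abs_of_nonneg hj0]
  linarith

theorem B1 (h : CtxT A B V) : B = 1 := by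
  rcases h.cq.hB with hB | hB
  · exfalso
    obtain ⟨k, hk⟩ := h.two
    rw [hB] at hk
    omega
  · exact hB

theorem del_nmem (h : CtxT A B V) : (del : OO A B) ∉ idl (A := A) (B := B) 2 := by
  intro h0
  rw [Ideal.mem_span_singleton] at h0
  obtain ⟨y, hy⟩ := h0
  have h1 := congrArg QuadraticAlgebra.re hy
  have h2 : (del : OO A B).re = -B := rfl
  have hB := B1 h
  rw [h2] at h1
  simp only [QuadraticAlgebra.re_mul, QuadraticAlgebra.re_natCast, QuadraticAlgebra.im_natCast]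
    at h1
  push_cast at h1
  have h3 : -B = 2 * y.re := by linarith
  omega

theorem coprime_mem {x : OO A B} {M : ℕ} (h : CtxT A B V) (hx : IsCoprime x ((M : ℕ) : OO A B))
    (hM : 2 ∣ M) : x ∉ idl (A := A) (B := B) 2 := by
  intro hxP
  obtain ⟨u, v, huv⟩ := hx
  obtain ⟨r, rfl⟩ := hM
  have h1 : ((2 * r : ℕ) : OO A B) ∈ idl (A := A) (B := B) 2 := by
    rw [Ideal.mem_span_singleton]
    exact ⟨(r : OO A B), by push_cast; ring⟩
  have h2 : (1 : OO A B) ∈ idl (A := A) (B := B) 2 := by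
    rw [← huv]
    exact Ideal.add_mem _ (Ideal.mul_mem_left _ _ hxP) (Ideal.mul_mem_left _ _ h1)
  exact h.max.ne_top ((Ideal.eq_top_iff_one _).2 h2)

/-- `a del x` is not divisible by 2 -/
theorem adx (h : CtxT A B V) (ha : ¬ 2 ∣ a) {x : OO A B} (hx : x ∉ idl (A := A) (B := B) 2)
    (y : OO A B) : (a : OO A B) * del * x ≠ 2 * y := by
  intro h0
  have h1 : V.valuation (emb ((a : OO A B) * del * x)) = V.valuation (emb (2 * y)) := by
    rw [h0]
  have h5 : emb (2 : OO A B) = 2 := by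
    have := emb_natCast h.cq 2
    exact_mod_cast this
  rw [emb_mul h.cq, emb_mul h.cq, emb_natCast h.cq, map_mul, map_mul, h.nat a ha, one_mul,
    h.unit _ (del_nmem h), one_mul, h.unit x hx, emb_mul h.cq, h5, map_mul] at h1
  have h7 : V.valuation (2 : ℂ) * V.valuation (emb y) ≤ V.valuation (2 : ℂ) :=
    mul_le_of_le_one_right' (h.int y)
  rw [← h1] at h7
  exact absurd h.v2 (not_lt.2 h7)

end CON

open CON in
theorem td_CON : Sd_CON := by
  intro A B V n f a m h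
  obtain ⟨e1, e2, e3, e4, e5, e6, e7, e8, e9⟩ := nums h
  have hq := h.ctx.cq
  have hdom : IsDomain (OO A B) := isDomain hq
  have hm := mpos h
  have hmN : ∃ r, (2 ^ n * f * a) ^ 2 = m * r := by
    obtain ⟨r, hr⟩ := e7
    exact ⟨a * r, by rw [hr]; ring⟩
  refine ⟨fun b => ⟨?_, ?_, ?_, ?_, ?_, ?_⟩, ⟨?_, ?_⟩, ?_, ?_, ?_, ?_⟩
  · rw [Ideal.isCoprime_span_singleton_iff]
    exact coprime_of e7 b
  · exact coprime_of hmN b
  · exact cc_ne e2 b
  · rw [cc_sub]
    exact cast_dvd_mem e3 b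
  · rw [cc_sub]
    exact cast_dvd_mem e4 b
  · rw [cc_sub]
    exact cast_dvd_mem e5 b
  · exact del_nmem h.ctx
  · intro k
    refine nI_of hq (cc_ne e2 _) (M := 2 ^ (n + 2)) ?_
    obtain ⟨r, hr⟩ := e6
    have hd1 : (del : OO A B).re = -B := rfl
    have hd2 : (del : OO A B).im = 2 := rfl
    have h1 : nm (cc (2 ^ n * f * a) ((k : OO A B) * del)) - 1 =
        -(B ^ 2 + 4 * A) * (((2 ^ n * f * a : ℕ) : ℤ)) ^ 2 * (k : ℤ) ^ 2 := by
      unfold cc nm
      simp only [QuadraticAlgebra.re_add, QuadraticAlgebra.im_add, QuadraticAlgebra.re_one,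
        QuadraticAlgebra.im_one, QuadraticAlgebra.re_mul, QuadraticAlgebra.im_mul,
        QuadraticAlgebra.re_natCast, QuadraticAlgebra.im_natCast, hd1, hd2]
      ring
    rw [h1]
    have h2 : (((2 ^ n * f * a : ℕ) : ℤ)) ^ 2 = (2 ^ (n + 2) : ℕ) * (r : ℤ) := by
      exact_mod_cast hr
    rw [h2]
    exact ⟨-(B ^ 2 + 4 * A) * r * k ^ 2, by ring⟩
  · intro k l
    have h1 : cc (2 ^ n * f * a) ((k : OO A B) * del) * cc (2 ^ n * f * a) ((l : OO A B) * del) -
        cc (2 ^ n * f * a) (((k + l : ℕ) : OO A B) * del) =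
        (((2 ^ n * f * a) ^ 2 : ℕ) : OO A B) * ((k : OO A B) * (l : OO A B) * del * del) := by
      unfold cc
      push_cast
      ring
    rw [h1]
    exact cast_dvd_mem e7 _
  · have h1 : cc (2 ^ n * f * a) (((4 : ℕ) : OO A B) * del) - 1 =
        ((m * a : ℕ) : OO A B) * del := by
      rw [cc_sub, e1]
      push_cast
      ring
    rw [h1]
    exact cast_dvd_mem ⟨1, by ring⟩ _
  · intro x hx hmem
    have hxP := coprime_mem h.ctx hx e9
    have h1 : cc (2 ^ n * f * a) (((2 : ℕ) : OO A B) * del) * x - x =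
        ((2 * (2 ^ n * f * a) : ℕ) : OO A B) * (del * x) := by
      unfold cc
      push_cast
      ring
    rw [h1, Ideal.mem_span_singleton] at hmem
    obtain ⟨y, hy⟩ := hmem
    have h2 : ((m : ℕ) : OO A B) * ((a : OO A B) * del * x) = ((m : ℕ) : OO A B) * (2 * y) := by
      have h3 : ((2 * (2 ^ n * f * a) * 2 : ℕ) : OO A B) = ((m * a : ℕ) : OO A B) := by rw [e8]
      push_cast at h3 hy
      linear_combination 2 * hy - (del * x) * h3
    exact adx h.ctx h.ao hxP y (mul_left_cancel₀ (natCast_ne_zero' hq hm) h2)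
  · intro L om hL
    have ham := hL.mem
    have hmc : (m : ℂ) ≠ 0 := by exact_mod_cast hm
    have hNm : ((2 ^ n * f * a : ℕ) : ℂ) * 4 = m * a := by
      have : ((m * a : ℕ) : ℂ) = ((4 * (2 ^ n * f * a) : ℕ) : ℂ) := by rw [e1]
      push_cast at this ⊢
      linear_combination -this
    have hom := hL.om_ne
    refine ⟨?_, ?_, ?_, ?_, ?_⟩
    · intro b
      unfold cc
      rw [emb_add hq, emb_one hq, emb_mul hq, emb_natCast hq]
      field_simp
      linear_combination (emb b) * hNm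
    · intro k
      rw [emb_mul hq, emb_natCast hq]
      ring
    · rw [ham]
      refine ⟨(a : OO A B) * del, trivial, ?_⟩
      rw [emb_mul hq, emb_natCast hq]
      ring
    · intro h0
      rw [ham] at h0
      obtain ⟨y, -, hy⟩ := h0
      have h1 : om * (a * emb (del : OO A B) * emb (1 : OO A B) - 2 * emb y) = 0 := by
        rw [emb_one hq]
        linear_combination 2 * hy
      have h2 := (mul_eq_zero.1 h1).resolve_left hom
      have h5 : emb (2 : OO A B) = 2 := by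
        have := emb_natCast hq 2
        exact_mod_cast this
      have h1n : (1 : OO A B) ∉ idl (A := A) (B := B) 2 := fun h3 =>
        h.ctx.max.ne_top ((Ideal.eq_top_iff_one _).2 h3)
      refine adx h.ctx h.ao h1n y ?_
      apply emb_inj hq
      rw [emb_mul hq, emb_mul hq, emb_mul hq, emb_natCast hq, h5]
      linear_combination h2
    · intro Y hY
      obtain ⟨b', -, hb'⟩ := (ham _).1 hY
      obtain ⟨r, hr⟩ : ∃ r : ℤ, (a : ℤ) ^ 2 = 1 + 4 * r := by
        have h1 : a % 2 = 1 := by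
          have := h.ao
          omega
        obtain ⟨s, hs⟩ : ∃ s, a = 2 * s + 1 := ⟨a / 2, by omega⟩
        refine ⟨(s : ℤ) ^ 2 + s, ?_⟩
        rw [hs]
        push_cast
        ring
      refine ⟨(a : OO A B) * b', ?_⟩
      rw [ham]
      refine ⟨((-r : ℤ) : OO A B) * b', trivial, ?_⟩
      rw [emb_mul hq, emb_mul hq, emb_natCast hq, emb_intCast hq]
      have h2 : (a : ℂ) ^ 2 = 1 + 4 * (r : ℂ) := by exact_mod_cast congrArg (fun x : ℤ => (x : ℂ)) hr
      push_cast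
      linear_combination (1 / 4 : ℂ) * hb' - (emb b' * om / 4) * h2

end

end Pool.Agent.N2E
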