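import Pool.Agent.N2.StE2
import Pool.Agent.MU3.BAll

/-!
# MUX-2N, block E2N, module DST: the distances (helper81)
-/

set_option autoImplicit false

open Polynomial

namespace Pool.Agent.N2E

open _root_.MU3 Pool.Agent.MU3A Pool.Agent.MU3B Pool.Agent.MUX Pool.Agent.MUXU Pool.Agent.MUXE
open Pool.Agent.RI Pool.Agent.NS Pool.Agent.N2
open Pool.Agent.NSE (IntP)
open Pool.Agent.MUX2 (GRG)
open Pool.Agent.MUXV (InK tX)

noncomputable section

namespace DST

/-- the quarter points -/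
def qp (L : PeriodPair) (p : ℕ × ℕ) : ℂ := ((p.1 : ℂ) * L.ω₁ + (p.2 : ℂ) * L.ω₂) / 4

lemma mem_om1 (L : PeriodPair) : L.ω₁ ∈ L.lattice :=
  L.mem_lattice.2 ⟨1, 0, by simp⟩

lemma mem_om2 (L : PeriodPair) : L.ω₂ ∈ L.lattice :=
  L.mem_lattice.2 ⟨0, 1, by simp⟩

lemma four_qp (L : PeriodPair) (p : ℕ × ℕ) : 4 * qp L p ∈ L.lattice := by
  refine L.mem_lattice.2 ⟨p.1, p.2, ?_⟩
  unfold qp
  push_cast
  ring

/-- the coordinates of a lattice point -/
lemma coord (L : PeriodPair) (N a b : ℤ)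
    (h : ((a : ℂ) * L.ω₁ + (b : ℂ) * L.ω₂) ∈ L.lattice.map
      (LinearMap.mulLeft ℤ (N : ℂ))) : N ∣ a ∧ N ∣ b := by
  obtain ⟨y, hy, h1⟩ := h
  obtain ⟨m, n, rfl⟩ := L.mem_lattice.1 hy
  have h2 : (((N * m - a : ℤ) : ℝ)) • L.ω₁ + (((N * n - b : ℤ) : ℝ)) • L.ω₂ = 0 := by
    simp only [LinearMap.mulLeft_apply] at h1
    simp only [Complex.real_smul]
    push_cast
    linear_combination h1
  obtain ⟨h3, h4⟩ := LinearIndependent.pair_iff.1 L.indep _ _ h2
  have h5 : N * m - a = 0 := by exact_mod_cast h3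
  have h6 : N * n - b = 0 := by exact_mod_cast h4
  exact ⟨⟨m, by omega⟩, ⟨n, by omega⟩⟩

lemma coord4 (L : PeriodPair) (a b : ℤ)
    (h : ((a : ℂ) * L.ω₁ + (b : ℂ) * L.ω₂) / 4 ∈ L.lattice) : 4 ∣ a ∧ 4 ∣ b := by
  refine coord L 4 a b ⟨_, h, ?_⟩
  simp only [LinearMap.mulLeft_apply]
  push_cast
  ring

lemma qp_inj (L : PeriodPair) (p q : ℕ × ℕ) (hp : p.1 < 4 ∧ p.2 < 4) (hq : q.1 < 4 ∧ q.2 < 4)
    (h : qp L p - qp L q ∈ L.lattice) : p = q := by
  have h1 : (((p.1 : ℤ) - q.1 : ℤ) * L.ω₁ + ((p.2 : ℤ) - q.2 : ℤ) * L.ω₂) / 4 ∈ L.lattice := by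
    have e : (((p.1 : ℤ) - q.1 : ℤ) * L.ω₁ + ((p.2 : ℤ) - q.2 : ℤ) * L.ω₂) / 4 =
        qp L p - qp L q := by
      unfold qp
      push_cast
      ring
    rw [e]
    exact h
  obtain ⟨h2, h3⟩ := coord4 L _ _ h1
  ext <;> omega

lemma qp_two (L : PeriodPair) (p : ℕ × ℕ) :
    2 * qp L p ∈ L.lattice ↔ p.1 % 2 = 0 ∧ p.2 % 2 = 0 := by
  constructor
  · intro h
    have h1 : (((2 * p.1 : ℕ) : ℤ) * L.ω₁ + ((2 * p.2 : ℕ) : ℤ) * L.ω₂) / 4 ∈ L.lattice := by
      have e : (((2 * p.1 : ℕ) : ℤ) * L.ω₁ + ((2 * p.2 : ℕ) : ℤ) * L.ω₂) / 4 =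
          2 * qp L p := by
        unfold qp
        push_cast
        ring
      rw [e]
      exact h
    obtain ⟨h2, h3⟩ := coord4 L _ _ h1
    omega
  · rintro ⟨h1, h2⟩
    obtain ⟨a, ha⟩ : ∃ a, p.1 = 2 * a := ⟨p.1 / 2, by omega⟩
    obtain ⟨b, hb⟩ : ∃ b, p.2 = 2 * b := ⟨p.2 / 2, by omega⟩
    refine L.mem_lattice.2 ⟨(a : ℤ), (b : ℤ), ?_⟩
    unfold qp
    rw [ha, hb]
    push_cast
    ring

section
variable {V : ValuationSubring ℂ} {W : WeierstrassCurve.Affine ℂ} {L : PeriodPair}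
  {X Y : ℂ → ℂ} {ξ : ℂ →+ W.Point}

/-- the distance of `X (P + w)` and `X P` -/
lemma dist (G : GRG V W L X Y ξ) {P w : ℂ} (hP : ¬ InK V L X P) (h2P : ¬ InK V L X (2 * P))
    (hw : InK V L X w) (hwL : w ∉ L.lattice) :
    ¬ InK V L X (P + w) ∧ V.valuation (X P - X (P + w)) = V.valuation (tX X Y w) := by
  obtain ⟨h1, h2, -, -⟩ := MUX2.gnear G hP hw hwL
  obtain ⟨h3, h4, -⟩ := MUX2.gv_tX_lt G hw hwL
  have h5 := MUX2.gv_DX G hP h2P
  refine ⟨h1, ?_⟩
  have h6 : V.valuation ((2 * Y P + W.a₁ * X P + W.a₃) * tX X Y w) =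
      V.valuation (tX X Y w) := by rw [map_mul, h5, one_mul]
  have h7 : V.valuation (tX X Y w) ^ 2 < V.valuation (tX X Y w) := by
    rw [pow_two]
    exact mul_lt_of_lt_one_right (zero_lt_iff.2 h4) h3
  have e : X P - X (P + w) = -((2 * Y P + W.a₁ * X P + W.a₃) * tX X Y w +
      (X (P + w) - X P - (2 * Y P + W.a₁ * X P + W.a₃) * tX X Y w)) := by ring
  rw [e, Valuation.map_neg, V.valuation.map_add_eq_of_lt_left, h6]
  rw [h6]
  exact lt_of_le_of_lt h2 h7

end

end DST

open DST in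
theorem td_DST (h1 : Sd_COE) (h2 : Sd_GRT) (h3 : Sd_TPT) : Sd_DST := by
  classical
  intro V L u e a1 a3 hG hv2 P hP h2P
  obtain ⟨-, -, -, -, -, -, -, -, hper⟩ := h1 V L u e a1 a3 hG hv2
  obtain ⟨ξ, G⟩ := h2 V L u e a1 a3 hG hv2
  obtain ⟨-, htp⟩ := h3 V L u e a1 a3 hG hv2
  set X : ℂ → ℂ := xu L u e with hX
  set Y : ℂ → ℂ := yt L u e a1 a3 with hY
  have hv0 : V.valuation (2 : ℂ) ≠ 0 := by simp
  -- the valuation of a torsion point
  have hord2 : ∀ w : ℂ, 2 * w ∈ L.lattice → w ∉ L.lattice →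
      InK V L X w ∧ V.valuation (tX X Y w) ^ 3 = V.valuation (2 : ℂ) := by
    intro w hw hwL
    obtain ⟨h4, -, h5⟩ := htp 0 w (by simpa using hw) (by simpa using hwL)
    exact ⟨h4, by simpa using h5⟩
  have hord4 : ∀ w : ℂ, 4 * w ∈ L.lattice → 2 * w ∉ L.lattice →
      InK V L X w ∧ V.valuation (tX X Y w) ^ 12 = V.valuation (2 : ℂ) := by
    intro w hw hwL
    obtain ⟨h4, -, h5⟩ := htp 1 w (by norm_num; exact hw) (by simpa using hwL)
    exact ⟨h4, by simpa using h5⟩
  have hInK : ∀ w : ℂ, 4 * w ∈ L.lattice → InK V L X w := by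
    intro w hw
    by_cases h : w ∈ L.lattice
    · exact Or.inl h
    by_cases h' : 2 * w ∈ L.lattice
    · exact (hord2 w h' h).1
    · exact (hord4 w hw h').1
  have hroot : ∀ (n : ℕ) (x y : V.ValueGroup), n ≠ 0 → x ^ n = y ^ n → x = y := by
    intro n x y hn hxy
    exact (pow_left_inj₀ zero_le zero_le hn).1 hxy
  -- the main computation
  have key : ∀ β : V.ValueGroup, β ^ 12 = V.valuation (2 : ℂ) → ∀ w : ℂ, 4 * w ∈ L.lattice →
      w ∉ L.lattice → ¬ InK V L X (P + w) ∧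
      V.valuation (X P - X (P + w)) = β ^ (if 2 * w ∈ L.lattice then 4 else 1) := by
    intro β hβ w hw hwL
    obtain ⟨h4, h5⟩ := dist G hP h2P (hInK w hw) hwL
    refine ⟨h4, ?_⟩
    rw [h5]
    by_cases h : 2 * w ∈ L.lattice
    · rw [if_pos h]
      refine hroot 3 _ _ (by norm_num) ?_
      rw [(hord2 w h hwL).2, ← pow_mul, ← hβ]
    · rw [if_neg h]
      refine hroot 12 _ _ (by norm_num) ?_
      rw [(hord4 w hw h).2, pow_one, ← hβ]
  have inj : ∀ w w' : ℂ, 4 * w ∈ L.lattice → 4 * w' ∈ L.lattice → X (P + w) = X (P + w') →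
      w - w' ∈ L.lattice := by
    intro w w' hw hw' hXX
    have hk := hInK w hw
    have hk' := hInK w' hw'
    have hn : ∀ v : ℂ, InK V L X v → P + v ∉ L.lattice := by
      intro v hv hvL
      refine hP ?_
      rw [MUX2.gInK_congr G (w := -v) (by
        rw [sub_neg_eq_add]
        exact Or.inl hvL)]
      exact MUX2.gInK_neg G hv
    have hwp : L.weierstrassP (P + w) = L.weierstrassP (P + w') := by
      have h4 : (L.weierstrassP (P + w) - e) / u ^ 2 = (L.weierstrassP (P + w') - e) / u ^ 2 := hXX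
      have hu : u ^ 2 ≠ 0 := pow_ne_zero 2 hG.u0
      rw [div_left_inj' hu] at h4
      linear_combination h4
    rcases b_NEQ L (P + w') (P + w) (hn w' hk') (hn w hk) hwp with h4 | h4
    · have e1 : w - w' = P + w - (P + w') := by ring
      rw [e1]
      exact h4
    · exfalso
      refine h2P ?_
      rw [MUX2.gInK_congr G (w := -(w + w')) (by
        have e1 : 2 * P - -(w + w') = P + w + (P + w') := by ring
        rw [e1]
        exact Or.inl h4)]
      exact MUX2.gInK_neg G (MUX2.gInK_add G hk hk')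
  -- the general form
  have gen : ∀ (β : V.ValueGroup), β ^ 12 = V.valuation (2 : ℂ) → ∀ (ι : Type) (I : Finset ι)
      (f : ι → ℂ), (∀ i ∈ I, 4 * f i ∈ L.lattice ∧ f i ∉ L.lattice) →
      (∀ i ∈ I, ∀ j ∈ I, f i - f j ∈ L.lattice → i = j) →
      ∃ S : Finset ℂ, X P ∉ S ∧ (∀ x ∈ S, V.valuation x ≤ 1 ∧ ∃ i ∈ I, x = X (P + f i)) ∧
        ∏ x ∈ S, V.valuation (X P - x) =
          β ^ (∑ i ∈ I, if 2 * f i ∈ L.lattice then 4 else 1) := by
    intro β hβ ι I f hI hinj
    have hβ0 : β ≠ 0 := by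
      rintro rfl
      rw [zero_pow (by norm_num)] at hβ
      exact hv0 hβ.symm
    refine ⟨I.image (fun i => X (P + f i)), ?_, ?_, ?_⟩
    · intro h4
      obtain ⟨i, hi, h5⟩ := Finset.mem_image.1 h4
      have h6 := (key β hβ (f i) (hI i hi).1 (hI i hi).2).2
      rw [h5, sub_self, map_zero] at h6
      exact pow_ne_zero _ hβ0 h6.symm
    · intro x hx
      obtain ⟨i, hi, rfl⟩ := Finset.mem_image.1 hx
      refine ⟨(MUXV.int_X (key β hβ (f i) (hI i hi).1 (hI i hi).2).1).2, i, hi, rfl⟩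
    · rw [Finset.prod_image, ← Finset.prod_pow_eq_pow_sum]
      · exact Finset.prod_congr rfl fun i hi => (key β hβ (f i) (hI i hi).1 (hI i hi).2).2
      · intro i hi j hj hij
        exact hinj i hi j hj (inj _ _ (hI i hi).1 (hI j hj).1 hij)
  constructor
  · -- the 15 points
    set β : V.ValueGroup := V.valuation (tX X Y (qp L (0, 1))) with hβd
    have h01 : 2 * qp L (0, 1) ∉ L.lattice := by
      rw [qp_two]
      simp
    have hβ : β ^ 12 = V.valuation (2 : ℂ) := (hord4 _ (four_qp L _) h01).2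
    set I : Finset (ℕ × ℕ) := (Finset.range 4 ×ˢ Finset.range 4).erase (0, 0) with hI
    have hz : qp L (0, 0) = 0 := by simp [qp]
    obtain ⟨S, h4, h5, h6⟩ := gen β hβ (ℕ × ℕ) I (qp L) (by
        intro p hp
        refine ⟨four_qp L p, fun h => ?_⟩
        rw [hI, Finset.mem_erase, Finset.mem_product, Finset.mem_range, Finset.mem_range] at hp
        refine hp.1 (qp_inj L p (0, 0) hp.2 (by norm_num) ?_)
        rw [hz, sub_zero]
        exact h) (by
        intro p hp q hq h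
        rw [hI, Finset.mem_erase, Finset.mem_product, Finset.mem_range, Finset.mem_range] at hp hq
        exact qp_inj L p q hp.2 hq.2 h)
    refine ⟨S, h4, ?_, ?_⟩
    · intro x hx
      obtain ⟨h7, p, -, h8⟩ := h5 x hx
      exact ⟨h7, qp L p, four_qp L p, h8⟩
    · rw [h6]
      have e1 : (∑ p ∈ I, if 2 * qp L p ∈ L.lattice then 4 else 1) =
          ∑ p ∈ I, if p.1 % 2 = 0 ∧ p.2 % 2 = 0 then 4 else 1 := by
        refine Finset.sum_congr rfl fun p _ => ?_
        simp only [qp_two]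
      have e2 : (∑ p ∈ I, if p.1 % 2 = 0 ∧ p.2 % 2 = 0 then 4 else 1) = 24 := by
        rw [hI]
        decide
      rw [e1, e2, ← hβ, ← pow_mul]
  · intro R hR h2R
    have hRL : R ∉ L.lattice := fun h => h2R (by
      rw [two_mul]
      exact add_mem h h)
    set β : V.ValueGroup := V.valuation (tX X Y R) with hβd
    have hβ : β ^ 12 = V.valuation (2 : ℂ) := (hord4 _ hR h2R).2
    have h4R : ∀ k : ℕ, 4 * ((k : ℂ) * R) ∈ L.lattice := by
      intro k
      have e1 : 4 * ((k : ℂ) * R) = k • (4 * R) := by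
        rw [nsmul_eq_mul]
        ring
      rw [e1]
      exact nsmul_mem hR k
    have h3R : 3 * R ∉ L.lattice := fun h => hRL (by
      have e1 : R = 4 * R - 3 * R := by ring
      rw [e1]
      exact sub_mem hR h)
    obtain ⟨S, h4, h5, h6⟩ := gen β hβ ℕ {1, 2, 3} (fun k => (k : ℂ) * R) (by
        intro k hk
        refine ⟨h4R k, ?_⟩
        simp only [Finset.mem_insert, Finset.mem_singleton] at hk
        rcases hk with rfl | rfl | rfl
        · simpa using hRL
        · simpa using h2R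
        · simpa using h3R) (by
        have hlt : ∀ i ∈ ({1, 2, 3} : Finset ℕ), ∀ j ∈ ({1, 2, 3} : Finset ℕ), j < i →
            (i : ℂ) * R - (j : ℂ) * R ∉ L.lattice := by
          intro i hi j hj hij
          have e1 : (i : ℂ) * R - (j : ℂ) * R = ((i - j : ℕ) : ℂ) * R := by
            rw [Nat.cast_sub hij.le]
            ring
          rw [e1]
          simp only [Finset.mem_insert, Finset.mem_singleton] at hi hj
          have h7 : i - j = 1 ∨ i - j = 2 := by omega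
          rcases h7 with h7 | h7 <;> rw [h7]
          · simpa using hRL
          · simpa using h2R
        intro i hi j hj h
        rcases lt_trichotomy i j with h7 | h7 | h7
        · exfalso
          refine hlt j hj i hi h7 ?_
          have := neg_mem h
          rwa [neg_sub] at this
        · exact h7
        · exact absurd h (hlt i hi j hj h7))
    refine ⟨S, h4, ?_, ?_⟩
    · intro x hx
      obtain ⟨h7, k, hk, h8⟩ := h5 x hx
      refine ⟨h7, k, ?_, h8⟩
      simp only [Finset.mem_insert, Finset.mem_singleton] at hk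
      omega
    · have h2' : 2 * (((2 : ℕ) : ℂ) * R) ∈ L.lattice := by
        have e1 : 2 * (((2 : ℕ) : ℂ) * R) = 4 * R := by
          push_cast
          ring
        rw [e1]
        exact hR
      have h3' : 2 * (((3 : ℕ) : ℂ) * R) ∉ L.lattice := fun h => h2R (by
        have e1 : 2 * R = 2 * (((3 : ℕ) : ℂ) * R) - 4 * R := by
          push_cast
          ring
        rw [e1]
        exact sub_mem h hR)
      have h1' : 2 * (((1 : ℕ) : ℂ) * R) ∉ L.lattice := by simpa using h2R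
      have e1 : (∑ k ∈ ({1, 2, 3} : Finset ℕ),
          if 2 * ((k : ℂ) * R) ∈ L.lattice then 4 else 1) = 6 := by
        rw [Finset.sum_insert (by decide), Finset.sum_insert (by decide), Finset.sum_singleton,
          if_neg h1', if_pos h2', if_neg h3']
        norm_num
      rw [h6, e1, ← hβ, ← pow_mul]

end

end Pool.Agent.N2E
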