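import Pool.Agent.N2.StE2
import Pool.Agent.MUX.E_EW
import Pool.Agent.MUX.E_PT

/-!
# MUX-2N, block E2N, module FIN: the final form (helper71)
-/

set_option autoImplicit false

namespace Pool.Agent.N2E

open _root_.MU3 Pool.Agent.MU3A Pool.Agent.MU3B Pool.Agent.MUX Pool.Agent.MUXU Pool.Agent.MUXE
open Pool.Agent.RI Pool.Agent.NS Pool.Agent.N2

noncomputable section

namespace FIN

lemma fn_f {A B : ℤ} {V : ValuationSubring ℂ} {f : ℕ} (h : SetT A B V f) : 3 ≤ f ∧ 3 ∣ f := by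
  have h1 : (3 : ℤ) ∣ (f : ℤ) := (dvd_mul_right 3 (absD A B)).trans h.fD
  have h2 : 3 ∣ f := by exact_mod_cast h1
  exact ⟨Nat.le_of_dvd (Nat.pos_of_ne_zero h.f0) h2, h2⟩

/-- `Θ` is even and periodic -/
lemma fn_theta {L : PeriodPair} {a : ℂ} {H : Finset ℂ} (hH : IsHalf L a H) {z l : ℂ}
    (hl : l ∈ L.lattice) : ThetaH L H (l - z) = ThetaH L H z := by
  obtain ⟨-, h1, h2⟩ := b_TIN L a H H hH hH
  rw [show l - z = -z + l by ring, h2 _ _ hl, h1]

lemma fn_mkout {A B : ℤ} {m : ℕ} (x : OO A B ⧸ idl (A := A) (B := B) m) :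
    (Quotient.out x : OO A B) + Quotient.out (-x) ∈ idl (A := A) (B := B) m := by
  rw [← Ideal.Quotient.eq_zero_iff_mem, map_add, Ideal.Quotient.mk_out, Ideal.Quotient.mk_out]
  exact add_neg_cancel x

end FIN

open FIN in
theorem td_FIN (h1 : Sd_CTX) (h2 : Sd_AUT) (h3 : Sd_CON) (h4 : Sd_GLC) (h5 : Sd_XXS)
    (h6 : Sd_HEQ) (h7 : Sd_HAL) (h8 : Sd_MAIN) : Sd_FIN := by
  classical
  intro hR A B V f hS hT ι _ R u e a1 a3 hG om hom n hn H hH D hD hDF hCyc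
  letI := algC hD
  intro C hC hCS
  obtain ⟨hf3, hf3'⟩ := fn_f hS
  obtain ⟨ha3, hao, haf⟩ := m0_aX (p := 2) (Or.inl rfl) hS.f0
  have hctx := h1 A B V hS.case hS.hV hT hR
  have hr := hctx.ring
  have hm : lvX 2 f n = 2 ^ (n + 2) * f := by
    simp [lvX, q0]
    ring
  have hm0 : lvX 2 f n ≠ 0 := by
    rw [hm]
    exact mul_ne_zero (pow_ne_zero _ (by norm_num)) hS.f0
  have ha0 : aX 2 f ≠ 0 := by omega
  have h2f : 2 * f ≠ 0 := by omega
  have hE : SetE A B V n f (aX 2 f) (lvX 2 f n) :=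
    ⟨hctx, hT, hn, hf3, hf3', hS.fp, ha3, hao, haf, hm⟩
  have hmb := m0_ne A B hr hm0
  have hmab := m0_ne A B hr (mul_ne_zero hm0 ha0)
  generalize haa : aX 2 f = a at *
  generalize hmm : lvX 2 f n = m at *
  -- the automorphism
  obtain ⟨hc, -⟩ := h3 A B V n f a m hE
  obtain ⟨hc1, hc2, hc3, -⟩ := hc (del : OO A B)
  obtain ⟨s, hs⟩ := h2 A B hr hT ⟨R.L R.i0, R.b R.i0, R.om R.i0, R.nl R.i0⟩ _ hmab _ hc3 hc1
  have hs1 : AutC (idl (A := A) (B := B) (m * a))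
      (cc (2 ^ n * f * a) (((1 : ℕ) : OO A B) * del)) s := by
    rw [Nat.cast_one, one_mul]
    exact hs
  have hsD : ∀ y ∈ D, s y = y := h4 A B V n f a m hE D hCyc 1 s hs1
  have hXc : ∀ τ : D ≃ₐ[kk A B] D, ∀ q ∈ XX R m hD τ,
      (q.1, Ideal.Quotient.mk (idl (A := A) (B := B) m) (cc (2 ^ n * f * a) del) * q.2) ∈
        XX R m hD τ := fun τ q hq =>
    (h5 A B V n f a m hE ι R D hD τ q hq).2 _ s hc2 hs hsD
  choose S hS1 hS2 using fun τ : D ≃ₐ[kk A B] D => h7 A B V n f a m hE ι R D hD τ (hXc τ)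
  choose S' hS1' hS2' using hCS
  -- products
  have hprod : ∀ τ : D ≃ₐ[kk A B] D, C τ = ∏ q ∈ S τ,
      ThetaH (R.L q.1) (H q.1) (pt R m q.1 (Quotient.out q.2)) := by
    intro τ
    rw [hS2' τ]
    refine (h6 A B V n f a m hE ι R D hD τ (S' τ) (hS1' τ)
      (fun q => ThetaH (R.L q.1) (H q.1) (pt R m q.1 (Quotient.out q.2))) ?_).1 (S τ) (hS1 τ)
    intro q hq
    obtain ⟨l, hl, e2⟩ := bdl_pt (te_PT te_TRA) hr R h2f q.1 hm0 (fn_mkout q.2)
    show ThetaH (R.L q.1) (H q.1) (pt R m q.1 (Quotient.out (-q.2))) = _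
    rw [e2]
    exact fn_theta (hH q.1) hl
  -- sums
  have hsum : ∀ τ : D ≃ₐ[kk A B] D, TT2 R om m a hD τ = ∑ q ∈ S τ, om (Quotient.out q.2) *
      muX R q.1 * dlX (R.L q.1) a (pt R m q.1 (Quotient.out q.2)) := by
    intro τ
    have e1 := (h6 A B V n f a m hE ι R D hD τ (S τ) (hS1 τ)
      (fun q => om (Quotient.out q.2) * muX R q.1 *
        dlX (R.L q.1) a (pt R m q.1 (Quotient.out q.2))) (by
      intro q hq
      obtain ⟨l, hl, e2⟩ := bdl_pt (te_PT te_TRA) hr R h2f q.1 hm0 (fn_mkout q.2)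
      show om (Quotient.out (-q.2)) * muX R q.1 *
        dlX (R.L q.1) a (pt R m q.1 (Quotient.out (-q.2))) = _
      have e3 : om (Quotient.out (-q.2)) = -om (Quotient.out q.2) := by
        rw [← hom.neg]
        refine hom.per _ _ ?_
        have e4 : (Quotient.out (-q.2) : OO A B) - -Quotient.out q.2 =
            Quotient.out q.2 + Quotient.out (-q.2) := by ring
        rw [e4]
        obtain ⟨t, ht⟩ := Ideal.mem_span_singleton.1 (fn_mkout q.2)
        rw [ht]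
        refine Ideal.mem_span_singleton.2 ?_
        refine Dvd.dvd.mul_right ?_ t
        rw [hm]
        have e5 : 2 * f ∣ 2 ^ (n + 2) * f := Dvd.intro (2 ^ (n + 1)) (by ring)
        exact_mod_cast Nat.cast_dvd_cast (α := OO A B) e5
      rw [e2, bdl_odd hl, e3]
      ring)).2
    unfold TT2
    rw [e1]
    ring
  have hcop : ∀ τ : D ≃ₐ[kk A B] D, ∀ q ∈ S τ,
      IsCoprime (Quotient.out q.2 : OO A B) ((m : ℕ) : OO A B) :=
    fun τ q hq => ((hS1 τ).sub q hq).1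
  constructor
  · intro τ
    rw [hsum τ]
    exact (h8 A B V n f a m hE ι R u e a1 a3 hG H hH om hom Unit (fun _ => S τ)
      (fun _ => hcop τ) (fun _ => hS2 τ)).1 ()
  · intro g hsq τ'
    have hfinG : Finite (D ≃ₐ[kk A B] D) := ew_fin hT _ hmb D hD hDF
    letI : Fintype (D ≃ₐ[kk A B] D) := Fintype.ofFinite _
    have hcom := m0_comm hT _ hmb D hD hDF
    have key := (h8 A B V n f a m hE ι R u e a1 a3 hG H hH om hom (D ≃ₐ[kk A B] D)
      (fun τ => S (τ * τ')) (fun τ => hcop (τ * τ')) (fun τ => hS2 (τ * τ'))).2 g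
    rw [finsum_eq_sum_of_fintype]
    have e1 : (∑ τ : D ≃ₐ[kk A B] D, (g τ : ℂ) * TT2 R om m a hD (τ * τ')) =
        ∑ τ : D ≃ₐ[kk A B] D, (g τ : ℂ) * ∑ q ∈ S (τ * τ'), om (Quotient.out q.2) *
          muX R q.1 * dlX (R.L q.1) a (pt R m q.1 (Quotient.out q.2)) :=
      Finset.sum_congr rfl (fun τ _ => by rw [hsum])
    rw [e1]
    apply key
    obtain ⟨v, hv, hvp⟩ := hsq
    rw [finprod_eq_prod_of_fintype] at hvp
    obtain ⟨y, hy1, -⟩ := hC 1
    have hyτ : ∀ τ : D ≃ₐ[kk A B] D, ((τ y : D) : ℂ) = C τ := by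
      intro τ
      obtain ⟨y', hy', hy''⟩ := hC τ
      have : y' = y := Subtype.ext (hy'.trans hy1.symm)
      rw [← hy'', this]
    have hw4 : (⟨v, hv⟩ : D) ^ 2 = ∏ τ : D ≃ₐ[kk A B] D, (τ y) ^ g τ := by
      apply Subtype.ext
      rw [IntermediateField.coe_prod]
      rw [show (((⟨v, hv⟩ : D) ^ 2 : D) : ℂ) = v ^ 2 from rfl, hvp]
      refine Finset.prod_congr rfl (fun τ _ => ?_)
      rw [← hyτ τ, ← m0_zpc (D := D)]
    refine ⟨(τ' ⟨v, hv⟩ : D), hDF _ (τ' ⟨v, hv⟩).2, ?_, ?_⟩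
    · intro k s' hs'
      exact h4 A B V n f a m hE D hCyc k s' hs' _ (τ' ⟨v, hv⟩).2
    · have hw5 := congrArg τ' hw4
      rw [map_pow, map_prod] at hw5
      have hw6 := congrArg (fun y : D => (y : ℂ)) hw5
      push_cast at hw6
      rw [hw6]
      refine Finset.prod_congr rfl (fun τ _ => ?_)
      rw [← hprod, hcom τ τ', map_zpow₀, ← hyτ (τ' * τ), m0_zpc]
      rfl

end

end Pool.Agent.N2E
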