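import Pool.Agent.N2.StE2

/-!
# MUX-2N, block E2N, module GPO (helper89)

The values of `Θ_a` at the points `(i, x)` as rational functions over `V` of `x(P)`.
Model: the lemma `point` of `Pool/Agent/NS/E_ONE.lean` (helper76).
-/

set_option autoImplicit false

open Polynomial

namespace Pool.Agent.N2E

open _root_.MU3 Pool.Agent.MU3A Pool.Agent.MU3B Pool.Agent.MUX Pool.Agent.MUXU Pool.Agent.MUXE
open Pool.Agent.RI Pool.Agent.NS Pool.Agent.N2
open Pool.Agent.NSE (IntP)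
open Pool.Agent.MUX2 (GRG)
open Pool.Agent.MUXV (InK tX)

noncomputable section

namespace GPO

/-- `|H|` is even if `a` is odd -/
lemma card2 {L : PeriodPair} {a : ℕ} {H : Finset ℂ} (ha : a ≠ 0) (h2 : ¬ 2 ∣ a)
    (hH : IsHalf L (a : ℂ) H) : 2 ∣ H.card := by
  obtain ⟨-, -, h⟩ := b_HRE L a H (by exact_mod_cast ha) (fun w hw => by
    have := nsmul_mem hw a
    rwa [nsmul_eq_mul] at this) hH
  have h1 : 2 * H.card + 1 = a ^ 2 := by
    rw [Complex.norm_natCast] at h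
    exact_mod_cast h
  have h3 : a ^ 2 % 4 = 1 := by
    rw [Nat.pow_mod]
    have h4 : a % 4 = 1 ∨ a % 4 = 3 := by omega
    rcases h4 with h4 | h4 <;> rw [h4]
  omega

/-- `v(u²)` is a power of `v 2` -/
lemma usq (h7 : Sd_UNR) {A B : ℤ} {V : ValuationSubring ℂ} (hC : CtxT A B V)
    (hT : TorX A B) {L : PeriodPair} {u e a1 a3 : ℂ} (hL : NL A B L)
    (hg : GoodT V L u e a1 a3) :
    ∃ k : ℤ, V.valuation (u ^ 2) = V.valuation (2 : ℂ) ^ k := by
  obtain ⟨w₁, w₂, h1, h2, h1', h2', -, -, -, hu⟩ := hg.tor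
  have hring := hC.ring
  obtain ⟨φ, hφ⟩ := hring.hom
  have e3 : emb ((3 : ℕ) : OO A B) = 3 := by rw [← hφ, map_natCast]; norm_num
  obtain ⟨-, hx, -⟩ := te_FAC te_TRA A B hring
  have hsp := (te_TRA A B hring L hL).2.2.2.2.1
  have m1 : xn L w₁ ∈ RF (idl (A := A) (B := B) 3) :=
    (hx _ L hL).2 w₁ ((hsp _ _).2 (by rw [e3]; exact h1)) h1'
  have m2 : xn L w₂ ∈ RF (idl (A := A) (B := B) 3) :=
    (hx _ L hL).2 w₂ ((hsp _ _).2 (by rw [e3]; exact h2)) h2'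
  have e4 : u ^ 2 = xn L w₂ - xn L w₁ := by
    rw [hu, xn, xn]
    ring
  refine h7 A B V hC hT 3 (by norm_num) (by norm_num) _ ?_ (pow_ne_zero 2 hg.u0)
  rw [e4]
  exact sub_mem m2 m1

end GPO

open GPO in
/-- (GPO) the values of `Θ_a` at the points `(i, x)`. -/
theorem td_GPO (h2 : Sd_GRT) (h3 : Sd_THT) (h4 : Sd_NE1) (h5 : Sd_MUL)
    (h6 : Sd_UNR) : Sd_GPO := by
  intro A B V n f a m hS ι R u e a1 a3 hgood i H hH x hx
  have hC := hS.ctx
  have hT := hS.tor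
  have hf3 := hS.f3
  have hf := hS.fo
  have hpa := hS.ao
  have ha0 : a ≠ 0 := by have := hS.a3; omega
  have hring := hC.ring
  obtain ⟨φ, hφ⟩ := hring.hom
  have emul : ∀ x y : OO A B, emb (x * y) = emb x * emb y := fun x y => by
    rw [← hφ, map_mul, hφ, hφ]
  obtain rfl := hS.hm
  obtain ⟨hmu, hisg, hodd⟩ := h5 A B V hC (2 * f) ι R (by omega) (dvd_mul_right _ _) i x hx
  have hm0 : 2 ^ (n + 2) * f ≠ 0 := mul_ne_zero (by positivity) (by omega)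
  have hmf : (2 ^ (n + 2) * f).primeFactors ⊆ (2 * f).primeFactors := by
    rw [Nat.primeFactors_mul (by positivity) (by omega), Nat.primeFactors_pow _ (by omega),
      Nat.primeFactors_mul (by norm_num) (by omega)]
  obtain ⟨-, -, -, hpt⟩ := te_PT te_TRA A B hring (2 * f) ι R (by omega) i
  obtain ⟨u', e', a1', a3', hg'⟩ := hC.good (R.L i) ⟨_, _, R.nl i⟩
  have hI : IsoT V (R.L R.i0) (R.L i) u e a1 a3 u' e' a1' a3' (muX R i * emb x) :=
    ⟨hgood, hg', hC.v2, hmu, hisg, hodd⟩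
  obtain ⟨P, Q, hP, hQ, hPQ⟩ := h3 V (R.L R.i0) (R.L i) u e a1 a3 u' e' a1' a3' _ hI a H ha0 hH
  obtain ⟨k, hk⟩ := usq h6 hC hT ⟨_, _, R.nl i⟩ hg'
  obtain ⟨t, ht⟩ := card2 ha0 hpa hH
  refine ⟨(u' ^ 2) ^ H.card, k * t, P, Q, hP, hQ, ?_, ?_⟩
  · rw [map_pow, hk, ht, ← zpow_natCast, ← zpow_natCast, ← zpow_mul, ← zpow_mul]
    congr 1
    push_cast
    ring
  intro c hc
  obtain ⟨hz, hzm, hzo, -⟩ := hpt (2 ^ (n + 2) * f) hm0 hmf (c * x)
  obtain ⟨hzK, -, hza, hzq⟩ := h4 V (R.L i) u' e' a1' a3' hg' hC.v2 (n + 2) f a hf3 hf hpa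
    hS.af _ hzm (hzo hc)
  have ez : muX R i * emb x * (emb c * (R.om R.i0 / (2 ^ (n + 2) * f : ℕ))) =
      pt R (2 ^ (n + 2) * f) i (c * x) := by
    rw [hz, emul]
    ring
  obtain ⟨k1, k2, k3, k4, k5⟩ := hPQ (emb c * (R.om R.i0 / (2 ^ (n + 2) * f : ℕ)))
    (by rw [ez]; exact hzK) (by rw [ez]; exact hza) (fun q hq => by
      rw [ez]
      exact hzq q (hH.mem q hq) (fun hqL => hH.ne q hq (by
        have hqq := add_mem hqL hqL
        rwa [← two_mul] at hqq)))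
  rw [ez] at k4 k5
  obtain ⟨ξ, G⟩ := h2 V (R.L R.i0) u e a1 a3 hgood hC.v2
  have vx := (Pool.Agent.MUXV.int_X k1).2
  have vy := Pool.Agent.MUX2.gInt_Y G k1
  have v2 : V.valuation (2 : ℂ) ≤ 1 := hC.v2.le
  have e1 : et (R.L R.i0) u (emb c * (R.om R.i0 / (2 ^ (n + 2) * f : ℕ))) =
      2 * yt (R.L R.i0) u e a1 a3 (emb c * (R.om R.i0 / (2 ^ (n + 2) * f : ℕ))) +
        a1 * xu (R.L R.i0) u e (emb c * (R.om R.i0 / (2 ^ (n + 2) * f : ℕ))) + a3 := by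
    rw [yt]
    ring
  have ve : V.valuation (et (R.L R.i0) u (emb c * (R.om R.i0 / (2 ^ (n + 2) * f : ℕ)))) ≤ 1 := by
    rw [e1]
    refine (Valuation.map_add _ _ _).trans (max_le ?_ hgood.v3.le)
    refine (Valuation.map_add _ _ _).trans (max_le ?_ ?_)
    · rw [map_mul]
      exact mul_le_one' v2 vy
    · rw [map_mul]
      exact mul_le_one' (hgood.v1.trans v2) vx
  exact ⟨vx, ve, k2, k3, k4, k5⟩

end

end Pool.Agent.N2E
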