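import Pool.Agent.N2.StE2

/-!
# MUX-2N, block E2N, module NE1: the points that occur are not in the kernel of reduction
-/

set_option autoImplicit false

namespace Pool.Agent.N2E

open _root_.MU3 Pool.Agent.MU3A Pool.Agent.MU3B Pool.Agent.MUX Pool.Agent.MUXU Pool.Agent.MUXE
open Pool.Agent.RI Pool.Agent.NS Pool.Agent.N2
open Pool.Agent.MUX2 (GRG gInK_nat)
open Pool.Agent.MUXV (InK tX)

noncomputable section

namespace NE1

lemma nat_mul_mem {L : PeriodPair} (c : ℕ) {w : ℂ} (hw : w ∈ L.lattice) :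
    (c : ℂ) * w ∈ L.lattice := by
  have h := L.lattice.smul_mem (c : ℤ) hw
  simpa using h

end NE1

open NE1 in
/-- NE1. -/
theorem td_NE1 (h1 : Sd_GRT) (h2 : Sd_TPT) : Sd_NE1 := by
  intro V L u e a1 a3 hg hv j f a hf hpf hpa hco z hz hord
  obtain ⟨ξ, hG⟩ := h1 V L u e a1 a3 hg hv
  obtain ⟨htor, -⟩ := h2 V L u e a1 a3 hg hv
  have hp : Nat.Prime 2 := Nat.prime_two
  have hcf : ∀ k : ℕ, f.Coprime (2 ^ k) := fun k =>
    Nat.Coprime.pow_right k ((Nat.Prime.coprime_iff_not_dvd hp).2 hpf).symm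
  have hno : ∀ k : ℕ, k ≤ j → ((a * 2 ^ k : ℕ) : ℂ) * z ∉ L.lattice := by
    intro k hk hmem
    have h3 := hord _ hmem
    have h4 : f ∣ a * 2 ^ k := (Dvd.intro_left _ rfl).trans h3
    have h6 : f ∣ a := (hcf k).dvd_of_dvd_mul_right h4
    have h7 : f = 1 := Nat.Coprime.eq_one_of_dvd hco.symm h6
    omega
  have hfa : ¬ 2 ∣ f * a := by
    rw [hp.dvd_mul]
    rintro (h | h)
    · exact hpf h
    · exact hpa h
  have key : ∀ q : ℂ, (a : ℂ) * q ∈ L.lattice → ¬ InK V L (xu L u e) (z + q) := by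
    intro q hq hE
    have hE' := gInK_nat hG hE (2 ^ j)
    have hmem : ((f * a : ℕ) : ℂ) * (((2 ^ j : ℕ) : ℂ) * (z + q)) ∈ L.lattice := by
      have h3 := add_mem (nat_mul_mem a hz) (nat_mul_mem (2 ^ j * f) hq)
      have h4 : ((f * a : ℕ) : ℂ) * (((2 ^ j : ℕ) : ℂ) * (z + q)) =
          (a : ℂ) * (((2 ^ j * f : ℕ) : ℂ) * z) + ((2 ^ j * f : ℕ) : ℂ) * ((a : ℂ) * q) := by
        push_cast
        ring
      rw [h4]
      exact h3
    have hz' := (htor _ hfa).2 _ hmem hE'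
    have h5 := sub_mem (nat_mul_mem a hz') (nat_mul_mem (2 ^ j) hq)
    refine hno j le_rfl ?_
    have h6 : ((a * 2 ^ j : ℕ) : ℂ) * z =
        (a : ℂ) * (((2 ^ j : ℕ) : ℂ) * (z + q)) - ((2 ^ j : ℕ) : ℂ) * ((a : ℂ) * q) := by
      push_cast
      ring
    rw [h6]
    exact h5
  refine ⟨?_, ?_, ?_, ?_⟩
  · have h3 := key 0 (by rw [mul_zero]; exact zero_mem _)
    rwa [add_zero] at h3
  · intro hE
    have hE' := gInK_nat hG hE (2 ^ j)
    have hmem : ((f : ℕ) : ℂ) * (((2 ^ j : ℕ) : ℂ) * (2 * z)) ∈ L.lattice := by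
      have h3 := nat_mul_mem 2 hz
      have h4 : ((f : ℕ) : ℂ) * (((2 ^ j : ℕ) : ℂ) * (2 * z)) =
          ((2 : ℕ) : ℂ) * (((2 ^ j * f : ℕ) : ℂ) * z) := by
        push_cast
        ring
      rw [h4]
      exact h3
    have h5 := (htor _ hpf).2 _ hmem hE'
    have h6 : ((2 ^ (j + 1) : ℕ) : ℂ) * z ∈ L.lattice := by
      have h7 : ((2 ^ (j + 1) : ℕ) : ℂ) * z = ((2 ^ j : ℕ) : ℂ) * (2 * z) := by
        push_cast
        ring
      rw [h7]
      exact h5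
    have h8 : f ∣ 2 ^ (j + 1) := (Dvd.intro_left _ rfl).trans (hord _ h6)
    have h9 : f = 1 := Nat.Coprime.eq_one_of_dvd (hcf (j + 1)) h8
    omega
  · have h3 := hno 0 (Nat.zero_le _)
    rwa [pow_zero, mul_one] at h3
  · intro q hq hqL
    refine ⟨?_, key q hq, ?_⟩
    · intro hE
      exact hqL ((htor a hpa).2 _ hq hE)
    · rw [sub_eq_add_neg]
      refine key (-q) ?_
      rw [mul_neg]
      exact neg_mem hq

end

end Pool.Agent.N2E
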