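import Pool.Agent.N2.StE2

/-!
# MUX-2N, block E2N (helper15): PRT, a finite set with a free action of the cyclic group of order 4
-/

set_option autoImplicit false

namespace Pool.Agent.N2E

noncomputable section

namespace PRT

variable {α : Type} {S : Finset α} {φ : α → α}

theorem it_mem (h1 : ∀ q ∈ S, φ q ∈ S) (k : ℕ) : ∀ r ∈ S, φ^[k] r ∈ S := by
  induction k with
  | zero => intro r hr; exact hr
  | succ k ih => intro r hr; rw [Function.iterate_succ_apply]; exact ih _ (h1 r hr)

theorem inj (h4 : ∀ q ∈ S, φ^[4] q = q) {k : ℕ} (hk : k ≤ 4) {a b : α} (ha : a ∈ S) (hb : b ∈ S)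
    (h : φ^[k] a = φ^[k] b) : a = b := by
  have e : ∀ c, φ^[4 - k] (φ^[k] c) = φ^[4] c := by
    intro c
    rw [← Function.iterate_add_apply, Nat.sub_add_cancel hk]
  rw [← h4 a ha, ← h4 b hb, ← e a, ← e b, h]

theorem ne_it (h1 : ∀ q ∈ S, φ q ∈ S) (h4 : ∀ q ∈ S, φ^[4] q = q) (h2 : ∀ q ∈ S, φ^[2] q ≠ q)
    {q : α} (hq : q ∈ S) {d : ℕ} (hd1 : 1 ≤ d) (hd3 : d ≤ 3) : φ^[d] q ≠ q := by
  intro h
  have hc : d = 1 ∨ d = 2 ∨ d = 3 := by omega
  rcases hc with rfl | rfl | rfl
  · apply h2 q hq
    rw [show (2 : ℕ) = 1 + 1 from rfl, Function.iterate_add_apply, h, h]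
  · exact h2 q hq h
  · have h5 : φ^[1] q = q := by
      have h6 := h4 q hq
      rw [show (4 : ℕ) = 1 + 3 from rfl, Function.iterate_add_apply, h] at h6
      exact h6
    apply h2 q hq
    rw [show (2 : ℕ) = 1 + 1 from rfl, Function.iterate_add_apply, h5, h5]

theorem injOn (h1 : ∀ q ∈ S, φ q ∈ S) (h4 : ∀ q ∈ S, φ^[4] q = q) (h2 : ∀ q ∈ S, φ^[2] q ≠ q)
    {q : α} (hq : q ∈ S) : Set.InjOn (fun k => φ^[k] q) (Finset.range 4 : Finset ℕ) := by
  have key : ∀ i j : ℕ, i < j → j < 4 → φ^[i] q = φ^[j] q → False := by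
    intro i j hij hj h
    have e : φ^[j] q = φ^[i] (φ^[j - i] q) := by
      rw [← Function.iterate_add_apply, Nat.add_sub_cancel' hij.le]
    rw [e] at h
    have h5 := inj h4 (by omega : i ≤ 4) hq (it_mem h1 (j - i) q hq) h
    exact ne_it h1 h4 h2 hq (by omega : 1 ≤ j - i) (by omega) h5.symm
  intro i hi j hj h
  have hi' : i < 4 := by simpa using hi
  have hj' : j < 4 := by simpa using hj
  rcases lt_trichotomy i j with h5 | h5 | h5
  · exact (key i j h5 hj' h).elim
  · exact h5
  · exact (key j i h5 hi' h.symm).elim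

end PRT

theorem td_PRT : Sd_PRT := by
  classical
  intro α S φ
  induction hn : S.card using Nat.strong_induction_on generalizing S with
  | _ n ih =>
    intro h1 h4 h2
    rcases S.eq_empty_or_nonempty with rfl | ⟨q, hq⟩
    · exact ⟨∅, Finset.Subset.refl _, fun F => by simp⟩
    · set O : Finset α := (Finset.range 4).image (fun k => φ^[k] q) with hO
      have hinj := PRT.injOn h1 h4 h2 hq
      have hqO : q ∈ O := Finset.mem_image.2 ⟨0, by simp, rfl⟩
      have hOS : O ⊆ S := by
        intro r hr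
        obtain ⟨k, -, rfl⟩ := Finset.mem_image.1 hr
        exact PRT.it_mem h1 k q hq
      have hsub : S \ O ⊆ S := Finset.sdiff_subset
      have hst : ∀ r ∈ S \ O, φ r ∈ S \ O := by
        intro r hr
        obtain ⟨hr1, hr2⟩ := Finset.mem_sdiff.1 hr
        refine Finset.mem_sdiff.2 ⟨h1 r hr1, fun h => hr2 ?_⟩
        obtain ⟨k, hk, hk2⟩ := Finset.mem_image.1 h
        have hk' : k < 4 := Finset.mem_range.1 hk
        have e1 : r = φ^[k + 3] q := by
          have e2 : φ^[4] r = φ^[3] (φ r) := by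
            rw [show (4 : ℕ) = 3 + 1 from rfl, Function.iterate_add_apply]; rfl
          rw [← h4 r hr1, e2, ← hk2, ← Function.iterate_add_apply, Nat.add_comm]
        rcases Nat.eq_zero_or_pos k with h0 | h0
        · rw [h0] at e1
          exact Finset.mem_image.2 ⟨3, by simp, e1.symm⟩
        · have e3 : φ^[k + 3] q = φ^[k - 1] (φ^[4] q) := by
            rw [← Function.iterate_add_apply]
            congr 1
            omega
          rw [h4 q hq] at e3
          exact Finset.mem_image.2 ⟨k - 1, Finset.mem_range.2 (by omega), (e1.trans e3).symm⟩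
      have hlt : (S \ O).card < n := by
        rw [← hn]
        exact Finset.card_lt_card ⟨hsub, fun h => (Finset.mem_sdiff.1 (h hq)).2 hqO⟩
      obtain ⟨T, hT, hF⟩ := ih _ hlt (S \ O) rfl hst (fun r hr => h4 r (hsub hr))
        (fun r hr => h2 r (hsub hr))
      have hqT : q ∉ T := fun h => (Finset.mem_sdiff.1 (hT h)).2 hqO
      refine ⟨insert q T, Finset.insert_subset hq (hT.trans hsub), fun F => ?_⟩
      rw [Finset.sum_insert hqT, ← hF F, ← Finset.sum_sdiff hOS, hO, Finset.sum_image hinj,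
        add_comm]

end

end Pool.Agent.N2E
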