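import Pool.Agent.N2.StE2
import Pool.Agent.NS.RN_RAM

/-!
# MUX-2N, block E2N: module RAM (helper28), from `RN_RAM.lean` with `P = (2)`, `ϖ = 2` (model: `NS/E_RAM.lean`)
-/

set_option autoImplicit false

open Polynomial

namespace Pool.Agent.N2E

open _root_.MU3 Pool.Agent.MU3A Pool.Agent.MU3B Pool.Agent.MUX Pool.Agent.MUXU Pool.Agent.MUXE
open Pool.Agent.RI Pool.Agent.NS Pool.Agent.N2

theorem td_RAM : Sd_RAM := by
  intro A B V hC F _ _ htriv y hy hy0
  obtain ⟨⟨φ, hφ⟩, hinj, -, -, -⟩ := hC.ring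
  have h2e : emb (((2 : ℕ) : OO A B)) = (2 : ℂ) := by
    rw [← hφ, map_natCast]
    norm_num
  have h2ne : (2 : ℂ) ≠ 0 := by norm_num
  have hmul : ∀ z : OO A B, emb (((2 : ℕ) : OO A B) * z) = 2 * emb z := by
    intro z
    rw [← hφ, map_mul, hφ, hφ, h2e]
  have hlt : ∀ z : OO A B, V.valuation (emb (((2 : ℕ) : OO A B) * z)) < 1 := by
    intro z
    rw [hmul, map_mul]
    exact mul_lt_one_of_lt_of_le hC.v2 (hC.int z)
  have hmem2 : ((2 : ℕ) : OO A B) ∈ idl (A := A) (B := B) 2 := Ideal.mem_span_singleton_self _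
  have h20 : ((2 : ℕ) : OO A B) ≠ 0 := by
    intro h
    have h1 := congrArg emb h
    rw [h2e, ← hφ 0, map_zero] at h1
    exact h2ne h1
  have hP0 : idl (A := A) (B := B) 2 ≠ ⊥ := by
    intro h
    rw [h] at hmem2
    exact h20 (by simpa using hmem2)
  have hOver : OverI V (idl (A := A) (B := B) 2) := by
    intro x
    rw [ValuationSubring.mem_nonunits_iff]
    constructor
    · intro h
      by_contra hx
      rw [hC.unit x hx] at h
      exact lt_irrefl _ h
    · intro h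
      obtain ⟨z, rfl⟩ := Ideal.mem_span_singleton'.mp h
      rw [mul_comm]
      exact hlt z
  have hsq : ((2 : ℕ) : OO A B) ∉ (idl (A := A) (B := B) 2) ^ 2 := by
    intro h
    rw [Ideal.span_singleton_pow] at h
    obtain ⟨z, hz⟩ := Ideal.mem_span_singleton'.mp h
    have h1 := congrArg emb hz
    have h2 : emb (z * ((2 : ℕ) : OO A B) ^ 2) = emb z * 4 := by
      rw [← hφ, map_mul, map_pow, hφ, hφ, h2e]
      norm_num
    rw [h2, h2e] at h1
    have h4 : (1 : ℂ) = 2 * emb z := by linear_combination (-1 / 2 : ℂ) * h1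
    have h5 := congrArg V.valuation h4
    rw [map_one, map_mul] at h5
    have h6 := mul_lt_one_of_lt_of_le hC.v2 (hC.int z)
    rw [← h5] at h6
    exact lt_irrefl _ h6
  obtain ⟨k, hk⟩ := Pool.Agent.NSR.tr_RAM A B V (idl (A := A) (B := B) 2) ((2 : ℕ) : OO A B) hC.cq
    hC.max.isPrime hP0 hOver hmem2 hsq F htriv y hy hy0
  exact ⟨k, by rw [hk, h2e]⟩

end Pool.Agent.N2E
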