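import Pool.Agent.N2.StE2

/-!
# MUX-2N, block E2N, module UNR: `RF (f)` is unramified at `V` if `f` is odd (helper94, from
`Pool/Agent/NS/E_UNR.lean`)
-/

set_option autoImplicit false

open Polynomial

namespace Pool.Agent.N2E

open _root_.MU3 Pool.Agent.MU3A Pool.Agent.MU3B Pool.Agent.MUX Pool.Agent.MUXU Pool.Agent.MUXE
open Pool.Agent.RI Pool.Agent.NS Pool.Agent.N2

noncomputable section

namespace UNR

/-- extension of an automorphism of `RF m` to `ℂ` (as `CXW.extn` in `W_CXW.lean` of MUX) -/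
lemma extn {A B : ℤ} (hT : TorX A B) {m : Ideal (OO A B)} (hm : m ≠ ⊥)
    (σ : (RF m : IntermediateField (kk A B) ℂ) ≃ₐ[kk A B] RF m) :
    ∃ s : ℂ ≃+* ℂ, FixK A B s ∧ ∀ y : (RF m : IntermediateField (kk A B) ℂ),
      s y = ((σ y : (RF m : IntermediateField (kk A B) ℂ)) : ℂ) := by
  let D : IntermediateField ℚ ℂ :=
    (RF m : IntermediateField (kk A B) ℂ).restrictScalars ℚ
  have hkD : kk A B ≤ D := fun x hx =>
    (RF m : IntermediateField (kk A B) ℂ).algebraMap_mem ⟨x, hx⟩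
  letI := algC hkD
  let f : D ≃+* D :=
    { toFun := fun y => σ y
      invFun := fun y => σ.symm y
      left_inv := fun y => σ.symm_apply_apply y
      right_inv := fun y => σ.apply_symm_apply y
      map_mul' := fun x y => map_mul σ x y
      map_add' := fun x y => map_add σ x y }
  let τ : D ≃ₐ[kk A B] D := AlgEquiv.ofRingEquiv (f := f) (fun r => σ.commutes r)
  obtain ⟨s, hs, h1⟩ := hT.ext m hm D hkD (fun y hy => hy) τ
  exact ⟨s, hs, fun y => h1 ⟨y, y.2⟩⟩

lemma idl_ne {A B : ℤ} {f : ℕ} (hf : f ≠ 0) : idl (A := A) (B := B) f ≠ ⊥ := by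
  intro h
  rw [Ideal.span_singleton_eq_bot] at h
  have h1 := congrArg QuadraticAlgebra.re h
  rw [QuadraticAlgebra.re_natCast, QuadraticAlgebra.re_zero] at h1
  exact hf (by exact_mod_cast h1)

end UNR

/-- UNR. -/
theorem td_UNR (h : Sd_RAM) : Sd_UNR := by
  intro A B V hC hT f hf hf2
  have hm : idl (A := A) (B := B) f ≠ ⊥ := UNR.idl_ne hf
  have := hT.fin _ hm
  have := hT.gal _ hm
  refine h A B V hC (RF (idl (A := A) (B := B) f)) ?_
  intro σ hσ
  obtain ⟨s, hs, hsv⟩ := UNR.extn hT hm σ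
  have h1 : ∀ y ∈ (RF (idl (A := A) (B := B) f) : IntermediateField (kk A B) ℂ), y ∈ V →
      s y - y ∈ V.nonunits := by
    intro y hy hyV
    have h2 := hσ ⟨y, hy⟩ ((V.valuation_le_one_iff y).2 hyV)
    rw [ValuationSubring.mem_nonunits_iff, hsv ⟨y, hy⟩]
    exact h2
  have h2 := hC.iner f hf hf2 s hs h1
  apply AlgEquiv.ext
  intro y
  apply Subtype.ext
  rw [← hsv]
  exact h2 y y.2

end

end Pool.Agent.N2E
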