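import Pool.Agent.N2.StE2

/-!
# MUX-2N, block E2N, module UNT (helper76): the multiplier of an isogeny of odd degree is a unit

Model: `Pool/Agent/NS/E_UNT.lean` (helper48).
-/

set_option autoImplicit false

open Polynomial

namespace Pool.Agent.N2E

open _root_.MU3 Pool.Agent.MU3A Pool.Agent.MU3B Pool.Agent.MUX Pool.Agent.MUXU Pool.Agent.MUXE
open Pool.Agent.RI Pool.Agent.NS Pool.Agent.N2
open Pool.Agent.NSE (IntP)
open Pool.Agent.MUX2 (GRG)
open Pool.Agent.MUXV (InK tX)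

noncomputable section

namespace UNT

theorem frac (L : PeriodPair) (a : ℤ) (b : ℕ) (hb : b ≠ 0)
    (hm : (a : ℂ) * (L.ω₁ / b) ∈ L.lattice) : (b : ℤ) ∣ a := by
  have e : (a : ℂ) * (L.ω₁ / b) = ((a / b : ℚ) : ℂ) * L.ω₁ + ((0 : ℚ) : ℂ) * L.ω₂ := by
    push_cast
    ring
  rw [e, PeriodPair.mul_ω₁_add_mul_ω₂_mem_lattice] at hm
  have h1 : ((((a / b : ℚ)).num : ℤ) : ℚ) = (a / b : ℚ) := (Rat.den_eq_one_iff _).1 hm.1
  have hb' : (b : ℚ) ≠ 0 := by exact_mod_cast hb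
  refine ⟨((a / b : ℚ)).num, ?_⟩
  have h2 : (a : ℚ) = b * ((((a / b : ℚ)).num : ℤ) : ℚ) := by
    rw [h1]
    field_simp
  exact_mod_cast h2

/-- multiples by integers -/
theorem zmul (L : PeriodPair) (n : ℤ) {z : ℂ} (hz : z ∈ L.lattice) : (n : ℂ) * z ∈ L.lattice := by
  rw [← zsmul_eq_mul]
  exact zsmul_mem hz n

end UNT

open UNT in
theorem td_UNT (h2 : Sd_GRT) (h3 : Sd_TPT) : Sd_UNT := by
  intro V L M u e a1 a3 u' e' a1' a3' μ hI0
  have hL := hI0.gL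
  have hM := hI0.gM
  have hv3 := hI0.v2
  have hμ := hI0.mu0
  have hI := hI0.isg
  obtain ⟨N, hN3, hN⟩ := hI0.odd
  obtain ⟨ξ, grL⟩ := h2 V L u e a1 a3 hL hv3
  obtain ⟨ξ', grM⟩ := h2 V M u' e' a1' a3' hM hv3
  have tL := (h3 V L u e a1 a3 hL hv3).1
  have tM := (h3 V M u' e' a1' a3' hM hv3).1
  have hN0 : N ≠ 0 := by
    rintro rfl
    exact hN3 (dvd_zero 2)
  obtain ⟨⟨R, hR⟩, -⟩ := u_BAC.2 L M μ hμ hI
  -- the two primes
  obtain ⟨l, hl1, hl⟩ := Nat.exists_infinite_primes (3 * N + 1)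
  obtain ⟨l', hl1', hl'⟩ := Nat.exists_infinite_primes (l + 1)
  have hNpos : 0 < N := Nat.pos_of_ne_zero hN0
  have hll : l ≠ l' := by omega
  have h3l : ¬ 2 ∣ l := by
    intro h
    have := (Nat.prime_dvd_prime_iff_eq Nat.prime_two hl).1 h
    omega
  have h3l' : ¬ 2 ∣ l' := by
    intro h
    have := (Nat.prime_dvd_prime_iff_eq Nat.prime_two hl').1 h
    omega
  have hlN : ¬ l ∣ N := fun h => by
    have := Nat.le_of_dvd hNpos h
    omega
  have hlN' : ¬ l' ∣ N := fun h => by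
    have := Nat.le_of_dvd hNpos h
    omega
  have h3n : ¬ 2 ∣ N * l * l' := by
    intro h
    rcases Nat.prime_two.dvd_mul.1 h with h | h
    · rcases Nat.prime_two.dvd_mul.1 h with h | h
      · exact hN3 h
      · exact h3l h
    · exact h3l' h
  have h3m : ¬ 2 ∣ l * l' := by
    intro h
    rcases Nat.prime_two.dvd_mul.1 h with h | h
    · exact h3l h
    · exact h3l' h
  have hl0 : (l : ℂ) ≠ 0 := by exact_mod_cast hl.ne_zero
  have hl0' : (l' : ℂ) ≠ 0 := by exact_mod_cast hl'.ne_zero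
  set w : ℂ := L.ω₁ / l with hw
  set z : ℂ := L.ω₁ / l' with hz
  have o1 := L.ω₁_mem_lattice
  have lw : (l : ℂ) * w ∈ L.lattice := by
    rw [hw, mul_div_cancel₀ _ hl0]
    exact o1
  have lz : (l' : ℂ) * z ∈ L.lattice := by
    rw [hz, mul_div_cancel₀ _ hl0']
    exact o1
  -- the combinations of `z` and `w` are not in the lattice, even after multiplication by `N`
  have comb : ∀ a b : ℤ, ¬ ((l' : ℤ) ∣ a ∧ (l : ℤ) ∣ b) →
      (N : ℂ) * ((a : ℂ) * z + (b : ℂ) * w) ∉ L.lattice := by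
    intro a b hab hm
    apply hab
    have e1 : (N : ℂ) * ((a : ℂ) * z + (b : ℂ) * w) =
        ((N * (a * l + b * l') : ℤ) : ℂ) * (L.ω₁ / ((l * l' : ℕ) : ℂ)) := by
      rw [hz, hw]
      push_cast
      field_simp
    rw [e1] at hm
    have h5 := frac L _ _ (Nat.mul_ne_zero hl.ne_zero hl'.ne_zero) hm
    have hlz : Prime (l : ℤ) := Nat.prime_iff_prime_int.1 hl
    have hlz' : Prime (l' : ℤ) := Nat.prime_iff_prime_int.1 hl'
    have hNl : ¬ (l : ℤ) ∣ (N : ℤ) := fun h => hlN (by exact_mod_cast h)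
    have hNl' : ¬ (l' : ℤ) ∣ (N : ℤ) := fun h => hlN' (by exact_mod_cast h)
    have hd1 : (l : ℤ) ∣ a * l + b * l' := by
      have : (l : ℤ) ∣ (N : ℤ) * (a * l + b * l') := Dvd.dvd.trans ⟨(l' : ℤ), by push_cast; ring⟩ h5
      exact (hlz.dvd_or_dvd this).resolve_left hNl
    have hd2 : (l' : ℤ) ∣ a * l + b * l' := by
      have : (l' : ℤ) ∣ (N : ℤ) * (a * l + b * l') := Dvd.dvd.trans ⟨(l : ℤ), by push_cast; ring⟩ h5
      exact (hlz'.dvd_or_dvd this).resolve_left hNl'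
    have hne1 : ¬ (l : ℤ) ∣ (l' : ℤ) := fun h =>
      hll ((Nat.prime_dvd_prime_iff_eq hl hl').1 (by exact_mod_cast h))
    have hne2 : ¬ (l' : ℤ) ∣ (l : ℤ) := fun h =>
      hll ((Nat.prime_dvd_prime_iff_eq hl' hl).1 (by exact_mod_cast h)).symm
    constructor
    · have : (l' : ℤ) ∣ a * l := (dvd_add_left (Dvd.intro_left b rfl)).1 hd2
      exact (hlz'.dvd_or_dvd this).resolve_right hne2
    · have : (l : ℤ) ∣ b * l' := (dvd_add_right (Dvd.intro_left a rfl)).1 hd1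
      exact (hlz.dvd_or_dvd this).resolve_right hne1
  have one_not : ∀ k : ℕ, k.Prime → ∀ s : ℤ, s = 1 ∨ s = -1 → ¬ (k : ℤ) ∣ s := by
    intro k hk s hs h
    have h6 : (k : ℤ) ∣ 1 := by
      rcases hs with rfl | rfl
      · exact h
      · exact (dvd_neg.1 h)
    have h7 : k ∣ 1 := by exact_mod_cast h6
    exact hk.one_lt.ne' (Nat.dvd_one.1 h7)
  -- points of `L`
  have ptL : ∀ (a b c : ℤ) (q : ℂ), (N : ℂ) * q ∈ L.lattice →
      ¬ ((l' : ℤ) ∣ a ∧ (l : ℤ) ∣ b) →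
      ¬ InK V L (xu L u e) ((a : ℂ) * z + (b : ℂ) * w + (c : ℂ) * q) := by
    intro a b c q hq hab hin
    have hm := (tL (N * l * l') h3n).2 _ (by
      have e1 : ((N * l * l' : ℕ) : ℂ) * ((a : ℂ) * z + (b : ℂ) * w + (c : ℂ) * q) =
          ((N * l * a : ℤ) : ℂ) * ((l' : ℂ) * z) + ((N * l' * b : ℤ) : ℂ) * ((l : ℂ) * w) +
            ((l * l' * c : ℤ) : ℂ) * ((N : ℂ) * q) := by
        push_cast
        ring
      rw [e1]
      exact add_mem (add_mem (zmul L _ lz) (zmul L _ lw)) (zmul L _ hq)) hin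
    apply comb a b hab
    have e2 : (N : ℂ) * ((a : ℂ) * z + (b : ℂ) * w) =
        ((N : ℤ) : ℂ) * ((a : ℂ) * z + (b : ℂ) * w + (c : ℂ) * q) -
          ((c : ℤ) : ℂ) * ((N : ℂ) * q) := by
      push_cast
      ring
    rw [e2]
    exact sub_mem (zmul L _ hm) (zmul L _ hq)
  -- points of `M`
  have ptM : ∀ (a b : ℤ), ¬ ((l' : ℤ) ∣ a ∧ (l : ℤ) ∣ b) →
      μ * ((a : ℂ) * z + (b : ℂ) * w) ∉ M.lattice ∧
      ¬ InK V M (xu M u' e') (μ * ((a : ℂ) * z + (b : ℂ) * w)) := by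
    intro a b hab
    have h4 : μ * ((a : ℂ) * z + (b : ℂ) * w) ∉ M.lattice := fun h => comb a b hab (hN _ h)
    refine ⟨h4, fun hin => h4 ((tM (l * l') h3m).2 _ ?_ hin)⟩
    have e1 : ((l * l' : ℕ) : ℂ) * (μ * ((a : ℂ) * z + (b : ℂ) * w)) =
        μ * (((l * a : ℤ) : ℂ) * ((l' : ℂ) * z) + ((l' * b : ℤ) : ℂ) * ((l : ℂ) * w)) := by
      push_cast
      ring
    rw [e1]
    exact hI _ (add_mem (zmul L _ lz) (zmul L _ lw))
  have hz1 : ∀ b : ℤ, ∀ s : ℤ, s = 1 ∨ s = -1 → ¬ ((l' : ℤ) ∣ s ∧ (l : ℤ) ∣ b) := fun b s hs h =>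
    one_not l' hl' s hs h.1
  have hw1 : ∀ a : ℤ, ∀ s : ℤ, s = 1 ∨ s = -1 → ¬ ((l' : ℤ) ∣ a ∧ (l : ℤ) ∣ s) := fun a s hs h =>
    one_not l hl s hs h.2
  have hN00 : (N : ℂ) * 0 ∈ L.lattice := by rw [mul_zero]; exact L.lattice.zero_mem
  obtain ⟨mz, iz⟩ := ptM 1 0 (hz1 0 1 (Or.inl rfl))
  obtain ⟨mw, iw⟩ := ptM 0 1 (hw1 0 1 (Or.inl rfl))
  obtain ⟨-, ip⟩ := ptM 1 1 (hz1 1 1 (Or.inl rfl))
  obtain ⟨-, im⟩ := ptM 1 (-1) (hz1 (-1) 1 (Or.inl rfl))
  have ez : ((1 : ℤ) : ℂ) * z + ((0 : ℤ) : ℂ) * w = z := by push_cast; ring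
  have ew : ((0 : ℤ) : ℂ) * z + ((1 : ℤ) : ℂ) * w = w := by push_cast; ring
  have ep : μ * (((1 : ℤ) : ℂ) * z + ((1 : ℤ) : ℂ) * w) = μ * z + μ * w := by push_cast; ring
  have em' : μ * (((1 : ℤ) : ℂ) * z + ((-1 : ℤ) : ℂ) * w) = μ * z - μ * w := by push_cast; ring
  rw [ez] at mz iz
  rw [ew] at mw iw
  rw [ep] at ip
  rw [em'] at im
  -- the product formula
  have pf := u_PFI L M μ R hμ hI hR w mw z mz
  have hu0 : u ^ 2 ≠ 0 := pow_ne_zero _ hL.u0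
  have hu0' : u' ^ 2 ≠ 0 := pow_ne_zero _ hM.u0
  have dL : ∀ a b : ℂ, L.weierstrassP a - L.weierstrassP b =
      u ^ 2 * (xu L u e a - xu L u e b) := by
    intro a b
    unfold xu
    rw [← sub_div, mul_div_cancel₀ _ hu0]
    ring
  have dM : ∀ a b : ℂ, M.weierstrassP a - M.weierstrassP b =
      u' ^ 2 * (xu M u' e' a - xu M u' e' b) := by
    intro a b
    unfold xu
    rw [← sub_div, mul_div_cancel₀ _ hu0']
    ring
  have vM : V.valuation (M.weierstrassP (μ * z) - M.weierstrassP (μ * w)) =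
      V.valuation (u' ^ 2) := by
    rw [dM, map_mul, Pool.Agent.MUX2.gv_X_sub grM iz iw ip im, mul_one]
  have ptL' : ∀ (a b c : ℤ) (q p : ℂ), (N : ℂ) * q ∈ L.lattice →
      ¬ ((l' : ℤ) ∣ a ∧ (l : ℤ) ∣ b) → p = (a : ℂ) * z + (b : ℂ) * w + (c : ℂ) * q →
      ¬ InK V L (xu L u e) p := by
    intro a b c q p hq hab hp
    rw [hp]
    exact ptL a b c q hq hab
  have jz : ¬ InK V L (xu L u e) z :=
    ptL' 1 0 0 0 z hN00 (hz1 0 1 (Or.inl rfl)) (by push_cast; ring)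
  have vL : V.valuation (L.weierstrassP z - L.weierstrassP w) = V.valuation (u ^ 2) := by
    rw [dL, map_mul, Pool.Agent.MUX2.gv_X_sub grL jz
      (ptL' 0 1 0 0 w hN00 (hw1 0 1 (Or.inl rfl)) (by push_cast; ring))
      (ptL' 1 1 0 0 _ hN00 (hz1 1 1 (Or.inl rfl)) (by push_cast; ring))
      (ptL' 1 (-1) 0 0 _ hN00 (hz1 (-1) 1 (Or.inl rfl)) (by push_cast; ring)), mul_one]
  have vq : ∀ q ∈ R, V.valuation (L.weierstrassP z - L.weierstrassP q) =
      V.valuation (u ^ 2) := by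
    intro q hq
    have hNq := hN q (hR.mem q hq)
    have jq : ¬ InK V L (xu L u e) q := fun h => hR.ne q hq ((tL N hN3).2 q hNq h)
    rw [dL, map_mul, Pool.Agent.MUX2.gv_X_sub grL jz jq
      (ptL' 1 0 1 q _ hNq (hz1 0 1 (Or.inl rfl)) (by push_cast; ring))
      (ptL' 1 0 (-1) q _ hNq (hz1 0 1 (Or.inl rfl)) (by push_cast; ring)), mul_one]
  have vwq : ∀ q ∈ R, V.valuation (L.weierstrassP z - L.weierstrassP (w + q)) =
      V.valuation (u ^ 2) := by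
    intro q hq
    have hNq := hN q (hR.mem q hq)
    rw [dL, map_mul, Pool.Agent.MUX2.gv_X_sub grL jz
      (ptL' 0 1 1 q _ hNq (hw1 0 1 (Or.inl rfl)) (by push_cast; ring))
      (ptL' 1 1 1 q _ hNq (hz1 1 1 (Or.inl rfl)) (by push_cast; ring))
      (ptL' 1 (-1) (-1) q _ hNq (hz1 (-1) 1 (Or.inl rfl)) (by push_cast; ring)), mul_one]
  have pv := congrArg V.valuation pf
  rw [map_mul, map_mul, map_mul, map_prod, map_prod, vM, vL, Finset.prod_congr rfl vq,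
    Finset.prod_congr rfl vwq, Finset.prod_const] at pv
  have hT0 : V.valuation (u ^ 2) ^ R.card ≠ 0 := pow_ne_zero _ ((_root_.map_ne_zero _).2 hu0)
  have h6 : V.valuation (μ ^ 2) * V.valuation (u' ^ 2) = V.valuation (u ^ 2) :=
    mul_right_cancel₀ hT0 pv
  have h7 : V.valuation (μ * u' / u) ^ 2 = 1 := by
    rw [← map_pow, div_pow, mul_pow, map_div₀, map_mul, h6]
    exact div_self ((_root_.map_ne_zero _).2 hu0)
  rcases lt_trichotomy (V.valuation (μ * u' / u)) 1 with h | h | h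
  · exact absurd h7 (pow_lt_one₀ zero_le h two_ne_zero).ne
  · exact h
  · exact absurd h7 (one_lt_pow₀ h two_ne_zero).ne'

end

end Pool.Agent.N2E
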