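import Pool.Agent.N2.E_LAG
import Pool.Agent.N2.E_PRD
import Pool.Agent.N2.E_COE
import Pool.Agent.N2.E_GRT
import Pool.Agent.N2.E_TPT
import Pool.Agent.N2.E_UNT
import Pool.Agent.N2.E_RAT
import Pool.Agent.N2.E_THT
import Pool.Agent.N2.E_DST
import Pool.Agent.N2.E_CTX
import Pool.Agent.N2.E_RAM
import Pool.Agent.N2.E_UNR
import Pool.Agent.N2.E_DEG
import Pool.Agent.N2.E_AUT
import Pool.Agent.N2.E_GTA
import Pool.Agent.N2.E_CON
import Pool.Agent.N2.E_SIG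
import Pool.Agent.N2.E_NE1
import Pool.Agent.N2.E_MUL
import Pool.Agent.N2.E_GPO
import Pool.Agent.N2.E_SQR
import Pool.Agent.N2.E_ORB
import Pool.Agent.N2.E_GLC
import Pool.Agent.N2.E_XXS
import Pool.Agent.N2.E_HEQ
import Pool.Agent.N2.E_HAL
import Pool.Agent.N2.E_PRT
import Pool.Agent.N2.E_MAIN
import Pool.Agent.N2.E_FIN

/-! # Block E2N of the project MUX-2N, assembled

`StE2.lean` states the improved criterion for squares (`2` inert in `k`); the files `E_*.lean` prove the statements. Here they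
are put together: `d_X : Sd_X` without hypotheses, and `d_EFIN` gives `S2_EFIN` from `S2_RFIN`. -/

namespace Pool.Agent.N2E

open Pool.Agent.N2

theorem d_LAG : Sd_LAG := td_LAG
theorem d_PRD : Sd_PRD := td_PRD
theorem d_COE : Sd_COE := td_COE
theorem d_GRT : Sd_GRT := td_GRT d_COE
theorem d_TPT : Sd_TPT := td_TPT d_COE d_GRT
theorem d_UNT : Sd_UNT := td_UNT d_GRT d_TPT
theorem d_RAT : Sd_RAT := td_RAT d_COE d_GRT d_TPT d_UNT
theorem d_THT : Sd_THT := td_THT d_GRT d_RAT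
theorem d_DST : Sd_DST := td_DST d_COE d_GRT d_TPT
theorem d_CTX : Sd_CTX := td_CTX
theorem d_RAM : Sd_RAM := td_RAM
theorem d_UNR : Sd_UNR := td_UNR d_RAM
theorem d_DEG : Sd_DEG := td_DEG
theorem d_AUT : Sd_AUT := td_AUT
theorem d_GTA : Sd_GTA := td_GTA
theorem d_CON : Sd_CON := td_CON
theorem d_SIG : Sd_SIG := td_SIG d_COE d_GRT d_TPT d_UNR d_DEG
theorem d_NE1 : Sd_NE1 := td_NE1 d_GRT d_TPT
theorem d_MUL : Sd_MUL := td_MUL
theorem d_GPO : Sd_GPO := td_GPO d_GRT d_THT d_NE1 d_MUL d_UNR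
theorem d_SQR : Sd_SQR := td_SQR d_LAG d_PRD d_COE d_DST d_AUT d_GTA d_CON d_SIG d_NE1 d_GPO
theorem d_ORB : Sd_ORB := td_ORB d_LAG d_PRD d_DST d_CON d_NE1 d_GPO
theorem d_GLC : Sd_GLC := td_GLC d_CON
theorem d_XXS : Sd_XXS := td_XXS
theorem d_HEQ : Sd_HEQ := td_HEQ d_XXS
theorem d_HAL : Sd_HAL := td_HAL d_CON d_XXS
theorem d_PRT : Sd_PRT := td_PRT
theorem d_MAIN : Sd_MAIN := td_MAIN d_CON d_SQR d_ORB d_PRT
theorem d_FIN : Sd_FIN := td_FIN d_CTX d_AUT d_CON d_GLC d_XXS d_HEQ d_HAL d_MAIN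

/-- block E2N -/
theorem d_EFIN (h : S2_RFIN) : S2_EFIN := d_FIN h

end Pool.Agent.N2E
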