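import Pool.Agent.N2.G_GptT
import Pool.Agent.MU3.Q_ALL
import Pool.Agent.MUX.N_RET
import Pool.Agent.MUX.N_NFE
import Pool.Agent.MUX.N_DSC
import Pool.Agent.MUX.N_DSI
import Pool.Agent.MUX.N_ZL
import Pool.Agent.MUX.N_FK
import Pool.Agent.MUX.N_FGG
import Pool.Agent.MUX.N_GV
import Pool.Agent.MUX.N_GD
import Pool.Agent.MUX.N_GP
import Pool.Agent.MUX.N_DV
import Pool.Agent.MUX.YAll
import Pool.Agent.MUX.XTMain
import Pool.Agent.NS.Y_Key0

/-!
# N2, blocks G2N and KEY0 without hypotheses (helper6)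
-/

set_option autoImplicit false

namespace Pool.Agent.N2

open _root_.MU3 Pool.Agent.MUX Pool.Agent.MUXN Pool.Agent.MUXF Pool.Agent.MUXY Pool.Agent.MUXU
  Pool.Agent.MuSym OnePoint

/-- Theorem G at `p = 2` for the translates -/
theorem g_GPT : S2_GPT :=
  gPT_T tg_RET tg_NFE (tg_DSC tg_DSI) tg_ZL (tg_FK u_AUF) tg_FGG Pool.Agent.MU3Q.wq
    (tg_GP tg_GV tg_GD) tg_DV u_SCX Pool.Agent.MUXT.main_FTI xf_CHI y_CON y_ALP y_FEC y_COP xf_ALG
    xf_IDL xf_NIM xf_QB xf_BDD xf_TSM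

/-- KEY0 at `p = 2` -/
theorem g_KEY0 : S2_KEY0 := by
  intro M _ N r n0 Φ hN h2N hr tor add inv A A0 a b c d hdet hc hd x
  refine Pool.Agent.NSY.key0_two (n0 := n0) hN (Nat.coprime_two_left.1 h2N) hr
    (fun q hq => tor q (Nat.coprime_two_right.2 hq)) add inv A
    (fun b n hn hb => A0 b n hn ?_) a b c d hdet hc hd x
  intro h
  obtain ⟨k, hk⟩ := hb
  omega

end Pool.Agent.N2
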