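import Pool.Agent.N2.StHU
import Pool.Agent.MUX.HX_HZ

/-!
# MUX-2R, block HU, module DVU (helper54)

The character sums of a function with exponents in `{1, h}` modulo `8`: `tu_DVU : Su_DVU`. Twin of `N2/H_DVT.lean`.
-/

set_option autoImplicit false

namespace Pool.Agent.N2H

open _root_.MU3 Pool.Agent.MuSym Pool.Agent.MUXH Pool.Agent.N2 OnePoint

noncomputable section

namespace Dvu

/-- a property invariant under the translation by `q` holds everywhere if it holds on `0, .., q - 1` -/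
theorem reduce (q : ℕ) (hq : 0 < q) (D : ℤ → Prop) (h : ∀ b, D b ↔ D (b + q))
    (h0 : ∀ r : ℕ, r < q → D r) (b : ℤ) : D b := by
  have h1 : ∀ (t : ℤ) (r : ℕ), D r ↔ D (r + q * t) := by
    intro t r
    induction t using Int.induction_on with
    | zero => rw [mul_zero, add_zero]
    | succ i ih =>
      have e : (r : ℤ) + q * ((i : ℤ) + 1) = (r + q * i) + q := by ring
      rw [e, ← h]
      exact ih
    | pred i ih =>
      have e : (r : ℤ) + q * (-(i : ℤ)) = (r + q * (-(i : ℤ) - 1)) + q := by ring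
      rw [e, ← h] at ih
      exact ih
  have hpos : (0 : ℤ) < q := by exact_mod_cast hq
  have h2 := Int.emod_nonneg b hpos.ne'
  have h3 := Int.emod_lt_of_pos b hpos
  obtain ⟨r, hr⟩ := Int.eq_ofNat_of_zero_le h2
  have h4 : r < q := by
    have : (r : ℤ) < q := by rw [← hr]; exact h3
    exact_mod_cast this
  have h5 : b = (r : ℤ) + q * (b / q) := by
    rw [← hr]
    exact (Int.emod_add_mul_ediv b q).symm
  rw [h5]
  exact (h1 _ r).1 (h0 r h4)

/-- a linear recurrence with roots `1`, `w` -/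
theorem rec_sum (a : ℕ → ℂ) (w : ℂ) (ha : ∀ j, a (j + 2) = (1 + w) * a (j + 1) - w * a j)
    (hw : w ^ 8 = 1) (hw1 : w ≠ 1) :
    (w - 1) * ∑ j ∈ Finset.range 8, a j = 8 * (w * a 0 - a 1) := by
  have h1 : ∀ j, a (j + 1) - a j = w ^ j * (a 1 - a 0) := by
    intro j
    induction j with
    | zero => simp
    | succ j ih =>
      rw [ha j, pow_succ]
      linear_combination w * ih
  have h2 : ∀ j, (w - 1) * a j = (w - 1) * a 0 + (w ^ j - 1) * (a 1 - a 0) := by
    intro j
    induction j with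
    | zero => simp
    | succ j ih =>
      rw [pow_succ]
      linear_combination ih + (w - 1) * h1 j
  have h3 : ∑ j ∈ Finset.range 8, w ^ j = 0 := by
    have h4 := geom_sum_mul w 8
    rw [hw, sub_self] at h4
    exact (mul_eq_zero.1 h4).resolve_right (sub_ne_zero.2 hw1)
  have h4 : ∑ j ∈ Finset.range 8, ((w - 1) * a 0 + (w ^ j - 1) * (a 1 - a 0)) =
      8 * ((w - 1) * a 0) + (∑ j ∈ Finset.range 8, w ^ j - 8) * (a 1 - a 0) := by
    simp only [Finset.sum_range_succ, Finset.sum_range_zero]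
    ring
  rw [Finset.mul_sum, Finset.sum_congr rfl fun j _ => h2 j, h4, h3]
  ring

/-- the sum of a function with exponents in `{1, h}` -/
theorem sum_two (q : ℕ) (om ζ : ℂ) (h : ℕ) (hom : om ^ 8 = 1) (hζ : ζ ^ q * om = 1)
    (hne : om ^ h ≠ om) (y : ℕ → ℂ)
    (hy : ∀ b, y (b + 2 * q) - (om + om ^ h) * y (b + q) + om ^ (1 + h) * y b = 0) :
    (om - om ^ h) * ∑ b ∈ Finset.range (8 * q), ζ ^ b * y b =
      -8 * om ^ h * ∑ b ∈ Finset.range (2 * q), ζ ^ b * y b +
        8 * (1 + ζ ^ q * om ^ h) * ∑ b ∈ Finset.range q, ζ ^ b * y (b + q) := by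
  have hom0 : om ≠ 0 := right_ne_zero_of_mul_eq_one hζ
  obtain ⟨z, hz⟩ : ∃ z, z = ζ ^ q := ⟨_, rfl⟩
  rw [← hz] at hζ ⊢
  have hz8 : z ^ 8 = 1 := by
    have h1 : (z * om) ^ 8 = 1 := by rw [hζ, one_pow]
    rwa [mul_pow, hom, mul_one] at h1
  -- the inner sums
  have hin : ∀ b : ℕ, (om - om ^ h) * ∑ j ∈ Finset.range 8, z ^ j * y (j * q + b) =
      8 * (y (b + q) - om ^ h * y b) := by
    intro b
    have h1 := rec_sum (fun j => z ^ j * y (j * q + b)) (z * om ^ h) (fun j => by
      show z ^ (j + 2) * y ((j + 2) * q + b) =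
        (1 + z * om ^ h) * (z ^ (j + 1) * y ((j + 1) * q + b)) -
          z * om ^ h * (z ^ j * y (j * q + b))
      have h2 := hy (j * q + b)
      have e1 : j * q + b + 2 * q = (j + 2) * q + b := by ring
      have e2 : j * q + b + q = (j + 1) * q + b := by ring
      rw [e1, e2, pow_add om 1 h, pow_one] at h2
      rw [pow_succ z (j + 1), pow_succ z j]
      linear_combination (z ^ j * z * z) * h2 +
        (z ^ j * z * y ((j + 1) * q + b) - z ^ j * z * om ^ h * y (j * q + b)) * hζ) (by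
      rw [mul_pow, hz8, ← pow_mul, mul_comm h 8, pow_mul, hom, one_pow, one_mul]) (by
      intro h3
      apply hne
      have h4 : om * (z * om ^ h) = om := by rw [h3, mul_one]
      linear_combination h4 - om ^ h * hζ)
    have h5 : ∑ j ∈ Finset.range 8, (fun j => z ^ j * y (j * q + b)) j =
      ∑ j ∈ Finset.range 8, z ^ j * y (j * q + b) := rfl
    rw [h5] at h1
    simp only [pow_zero, pow_one, one_mul, zero_mul, zero_add] at h1
    rw [add_comm q b] at h1
    linear_combination (-om) * h1 + (om ^ h * (∑ j ∈ Finset.range 8, z ^ j * y (j * q + b)) -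
      8 * om ^ h * y b + 8 * y (b + q)) * hζ
  have h1 : (om - om ^ h) * ∑ b ∈ Finset.range (8 * q), ζ ^ b * y b =
      ∑ b ∈ Finset.range q, ζ ^ b * (8 * (y (b + q) - om ^ h * y b)) := by
    rw [Hz.sum_range_mul' (fun b => ζ ^ b * y b) q 8, Finset.sum_comm, Finset.mul_sum]
    refine Finset.sum_congr rfl fun b _ => ?_
    rw [← hin b, Finset.mul_sum, Finset.mul_sum, Finset.mul_sum]
    refine Finset.sum_congr rfl fun j _ => ?_
    rw [pow_add, mul_comm j q, pow_mul, ← hz]
    ring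
  have h2 : ∑ b ∈ Finset.range (2 * q), ζ ^ b * y b =
      ∑ b ∈ Finset.range q, ζ ^ b * y b + z * ∑ b ∈ Finset.range q, ζ ^ b * y (b + q) := by
    rw [two_mul, Finset.sum_range_add]
    congr 1
    rw [Finset.mul_sum]
    refine Finset.sum_congr rfl fun b _ => ?_
    rw [pow_add, ← hz, add_comm q b]
    ring
  have h3 : ∑ b ∈ Finset.range q, ζ ^ b * (8 * (y (b + q) - om ^ h * y b)) =
      8 * ∑ b ∈ Finset.range q, ζ ^ b * y (b + q) -
        8 * om ^ h * ∑ b ∈ Finset.range q, ζ ^ b * y b := by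
    rw [Finset.mul_sum, Finset.mul_sum, ← Finset.sum_sub_distrib]
    refine Finset.sum_congr rfl fun b _ => ?_
    ring
  rw [h1, h2, h3]
  ring

/-- the valuations of the roots of unity -/
theorem roots (V : ValuationSubring ℂ) (hV : V.valuation (2 : ℂ) < 1) (om : ℂ)
    (hom : IsPrimitiveRoot om 8) (h : ℕ) (hh : h = 3 ∨ h = 5 ∨ h = 7) (z : ℂ) (hz : z * om = 1) :
    om ^ h ≠ om ∧ V.valuation (1 + z * om ^ h) ^ 2 ≤ V.valuation (2 : ℂ) ∧
    V.valuation (om + om ^ h) < 1 ∧ V.valuation (om ^ (1 + h) + 1) < 1 ∧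
    V.valuation (2 : ℂ) ^ dH h * V.valuation (om - om ^ h) ^ 2 = V.valuation (2 : ℂ) ^ 4 := by
  have h4 : om ^ 4 = -1 := by
    have h1 : IsPrimitiveRoot (om ^ 4) 2 := hom.pow (by norm_num) (by norm_num)
    exact h1.eq_neg_one_of_two_right
  have hv1 : V.valuation om = 1 := Hz.val_root V 8 (by norm_num) om hom.pow_eq_one
  have hz3 : z = -om ^ 3 := by
    linear_combination (-om ^ 3) * hz + z * h4
  have hi : IsPrimitiveRoot (om ^ 2) 4 := hom.pow (by norm_num) (by norm_num)
  have hi' : IsPrimitiveRoot (-om ^ 2) 4 := by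
    have h1 := hi.pow_of_coprime 3 (by norm_num)
    have h2 : (om ^ 2) ^ 3 = -om ^ 2 := by linear_combination om ^ 2 * h4
    rwa [h2] at h1
  have hm : V.valuation (om ^ 2 - 1) ^ 2 = V.valuation (2 : ℂ) := by
    have := Hz.val_p 2 Nat.prime_two V 1 (om ^ 2) (by simpa using hi)
    simpa using this
  have hp : V.valuation (om ^ 2 + 1) ^ 2 = V.valuation (2 : ℂ) := by
    have := Hz.val_p 2 Nat.prime_two V 1 (-om ^ 2) (by simpa using hi')
    have e : -om ^ 2 - 1 = -(om ^ 2 + 1) := by ring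
    rw [e, Valuation.map_neg] at this
    simpa using this
  have hsq : ∀ w : ℂ, V.valuation w ^ 2 ≤ V.valuation (2 : ℂ) → V.valuation w < 1 := by
    intro w hw
    by_contra hc
    exact absurd (lt_of_le_of_lt hw hV) (not_lt.2 (one_le_pow₀ (not_lt.1 hc)))
  have hom0 : om ≠ 0 := right_ne_zero_of_mul_eq_one hz
  have ht0 : V.valuation (2 : ℂ) ≠ 0 := (Valuation.ne_zero_iff _).2 (by norm_num)
  have key : ∀ w : ℂ, V.valuation (om * w) = V.valuation w := fun w => by
    rw [map_mul, hv1, one_mul]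
  have hz' : ∀ w : ℂ, V.valuation (om + om * w) = V.valuation (1 + w) := fun w => by
    rw [← key (1 + w), mul_add, mul_one]
  rcases hh with rfl | rfl | rfl
  · -- `h = 3`
    have e1 : z * om ^ 3 = om ^ 2 := by linear_combination om ^ 2 * hz
    have e2 : om + om ^ 3 = om * (om ^ 2 + 1) := by ring
    have e3 : om ^ (1 + 3) + 1 = 0 := by rw [show 1 + 3 = 4 from rfl, h4]; ring
    have e4 : om - om ^ 3 = -(om * (om ^ 2 - 1)) := by ring
    refine ⟨?_, ?_, ?_, ?_, ?_⟩
    · intro hc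
      have h5 : om ^ 2 - 1 = 0 := by
        have h6 : om * (om ^ 2 - 1) = 0 := by linear_combination hc
        exact (mul_eq_zero.1 h6).resolve_left hom0
      rw [h5, map_zero, zero_pow two_ne_zero] at hm
      exact ht0 hm.symm
    · rw [e1, add_comm, hp]
    · rw [e2, key]
      exact hsq _ hp.le
    · rw [e3, map_zero]
      exact zero_lt_one
    · rw [e4, Valuation.map_neg, key, hm, dH, if_neg (by norm_num), ← pow_succ]
  · -- `h = 5`
    have e1 : 1 + z * om ^ 5 = 0 := by linear_combination om ^ 4 * hz + h4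
    have e2 : om + om ^ 5 = 0 := by linear_combination om * h4
    have e3 : om ^ (1 + 5) + 1 = -(om ^ 2 - 1) := by
      rw [show 1 + 5 = 6 from rfl]
      linear_combination om ^ 2 * h4
    have e4 : om - om ^ 5 = om * 2 := by linear_combination (-om) * h4
    refine ⟨?_, ?_, ?_, ?_, ?_⟩
    · intro hc
      have h5 : om * 2 = 0 := by linear_combination -hc - e4
      exact hom0 ((mul_eq_zero.1 h5).resolve_right (by norm_num))
    · rw [e1, map_zero, zero_pow two_ne_zero]
      exact zero_le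
    · rw [e2, map_zero]
      exact zero_lt_one
    · rw [e3, Valuation.map_neg]
      exact hsq _ hm.le
    · rw [e4, key, dH, if_pos rfl, ← pow_add]
  · -- `h = 7`
    have e1 : 1 + z * om ^ 7 = -(om ^ 2 - 1) := by
      linear_combination om ^ 6 * hz + om ^ 2 * h4
    have e2 : om + om ^ 7 = -(om * (om ^ 2 - 1)) := by linear_combination om ^ 3 * h4
    have e3 : om ^ (1 + 7) + 1 = 2 := by
      rw [show 1 + 7 = 8 from rfl, hom.pow_eq_one]
      norm_num
    have e4 : om - om ^ 7 = om * (om ^ 2 + 1) := by linear_combination (-om ^ 3) * h4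
    refine ⟨?_, ?_, ?_, ?_, ?_⟩
    · intro hc
      have h5 : om ^ 2 + 1 = 0 := by
        have h6 : om * (om ^ 2 + 1) = 0 := by linear_combination -hc - e4
        exact (mul_eq_zero.1 h6).resolve_left hom0
      rw [h5, map_zero, zero_pow two_ne_zero] at hp
      exact ht0 hp.symm
    · rw [e1, Valuation.map_neg, hm]
    · rw [e2, Valuation.map_neg, key]
      exact hsq _ hm.le
    · rw [e3]
      exact hV
    · rw [e4, key, hp, dH, if_neg (by norm_num), ← pow_succ]

end Dvu

open Dvu Pool.Agent.MUXH.Hz in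
theorem tu_DVU : Su_DVU := by
  intro V hV K hK om hom h hh n y hper hrel hyK b₀ hb₀ ζ hζ hζom
  obtain ⟨q, hq⟩ : ∃ q : ℕ, q = 2 ^ n := ⟨_, rfl⟩
  have hqz : (2 : ℤ) ^ n = (q : ℤ) := by rw [hq]; push_cast; rfl
  have hqz1 : (2 : ℤ) ^ (n + 1) = ((2 * q : ℕ) : ℤ) := by
    rw [pow_succ, hqz]; push_cast; ring
  have hqpos : 0 < q := by rw [hq]; positivity
  have hN : 2 ^ (n + 3) = 8 * q := by rw [hq, pow_add]; ring
  have hNz : (2 : ℤ) ^ (n + 3) = ((8 * q : ℕ) : ℤ) := by rw [← hN]; push_cast; rfl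
  rw [← hq] at hζom
  simp only [hqz] at hrel ⊢
  obtain ⟨hne, hw, hu1, hg1, hD⟩ := roots V hV om hom h hh (ζ ^ q) hζom
  have ht0 : (0 : V.ValueGroup) < V.valuation (2 : ℂ) :=
    lt_of_le_of_ne zero_le ((Valuation.ne_zero_iff _).2 (by norm_num)).symm
  have hvom : V.valuation om = 1 := val_root V 8 (by norm_num) om hom.pow_eq_one
  have red : ∀ b : ℤ, ∃ c : ℕ, c < 8 * q ∧ (2 : ℤ) ^ (n + 3) ∣ b - c := by
    intro b
    have hpos : (0 : ℤ) < (2 : ℤ) ^ (n + 3) := by positivity
    have h0 := Int.emod_nonneg b hpos.ne'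
    have h1 := Int.emod_lt_of_pos b hpos
    refine ⟨(b % (2 : ℤ) ^ (n + 3)).toNat, ?_, ?_⟩
    · have h3 : (((b % (2 : ℤ) ^ (n + 3)).toNat : ℕ) : ℤ) < ((8 * q : ℕ) : ℤ) := by
        rw [Int.toNat_of_nonneg h0, ← hNz]
        exact h1
      exact_mod_cast h3
    · rw [Int.toNat_of_nonneg h0]
      have := Int.emod_add_mul_ediv b ((2 : ℤ) ^ (n + 3))
      exact ⟨b / (2 : ℤ) ^ (n + 3), by linarith⟩
  -- the maximal value
  obtain ⟨bs, hbs, hmax⟩ := Finset.exists_max_image (Finset.range (8 * q))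
    (fun b : ℕ => V.valuation (y b)) ⟨0, Finset.mem_range.2 (by omega)⟩
  have hall : ∀ b : ℤ, V.valuation (y b) ≤ V.valuation (y bs) := by
    intro b
    obtain ⟨c, hc, hcb⟩ := red b
    rw [hper _ _ hcb]
    exact hmax c (Finset.mem_range.2 hc)
  have hvb0 : (0 : V.ValueGroup) < V.valuation (y b₀) :=
    lt_of_le_of_ne zero_le ((Valuation.ne_zero_iff _).2 hb₀).symm
  have hvs0 : (0 : V.ValueGroup) < V.valuation (y bs) := lt_of_lt_of_le hvb0 (hall b₀)
  have hys0 : y bs ≠ 0 := fun h => by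
    rw [h, map_zero] at hvs0
    exact lt_irrefl _ hvs0
  obtain ⟨W, hWdef⟩ : ∃ W : ℤ → ℂ, ∀ b, W b = y b / y bs := ⟨_, fun _ => rfl⟩
  have hWK : ∀ b, W b ∈ K := fun b => by
    rw [hWdef]
    exact hyK b bs hys0
  have hW1 : ∀ b, V.valuation (W b) ≤ 1 := by
    intro b
    rw [hWdef, map_div₀]
    exact div_le_one_of_le₀ (hall b) zero_le
  have hWs : W bs = 1 := by
    rw [hWdef]
    exact div_self hys0
  have hyW : ∀ b : ℤ, y b = y bs * W b := by
    intro b
    rw [hWdef]
    field_simp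
  have hWrel : ∀ b : ℤ, W (b + ((2 * q : ℕ) : ℤ)) - (om + om ^ h) * W (b + q) +
      om ^ (1 + h) * W b = 0 := by
    intro b
    have h1 := hrel b
    rw [hqz1, hyW, hyW (b + q), hyW b] at h1
    have h2 : y bs * (W (b + ((2 * q : ℕ) : ℤ)) - (om + om ^ h) * W (b + q) +
      om ^ (1 + h) * W b) = 0 := by linear_combination h1
    exact (mul_eq_zero.1 h2).resolve_left hys0
  -- period `2 q` modulo the maximal ideal
  have hW2 : ∀ b : ℤ, V.valuation (W (b + ((2 * q : ℕ) : ℤ)) - W b) < 1 := by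
    intro b
    have h1 : W (b + ((2 * q : ℕ) : ℤ)) - W b = (om + om ^ h) * W (b + q) -
      (om ^ (1 + h) + 1) * W b := by linear_combination hWrel b
    rw [h1]
    refine Valuation.map_sub_lt _ ?_ ?_
    · rw [map_mul]
      exact lt_of_le_of_lt (mul_le_of_le_one_right' (hW1 _)) hu1
    · rw [map_mul]
      exact lt_of_le_of_lt (mul_le_of_le_one_right' (hW1 _)) hg1
  -- a value of valuation one
  obtain ⟨r, hr, hWr⟩ : ∃ r : ℕ, r < 2 * q ∧ V.valuation (W r) = 1 := by
    by_contra hcon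
    have h1 : ∀ b, V.valuation (W b) < 1 := by
      refine reduce (2 * q) (by omega) (fun b => V.valuation (W b) < 1) (fun b => ?_)
        (fun r hr => lt_of_le_of_ne (hW1 r) fun h => hcon ⟨r, hr, h⟩)
      show V.valuation (W b) < 1 ↔ V.valuation (W (b + ((2 * q : ℕ) : ℤ))) < 1
      constructor
      · intro h2
        have e : W (b + ((2 * q : ℕ) : ℤ)) = (W (b + ((2 * q : ℕ) : ℤ)) - W b) + W b := by ring
        rw [e]
        exact Valuation.map_add_lt _ (hW2 b) h2
      · intro h2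
        have e : W b = W (b + ((2 * q : ℕ) : ℤ)) - (W (b + ((2 * q : ℕ) : ℤ)) - W b) := by ring
        rw [e]
        exact Valuation.map_sub_lt _ h2 (hW2 b)
    have h2 := h1 bs
    rw [hWs, map_one] at h2
    exact lt_irrefl _ h2
  obtain ⟨c, hc⟩ : ∃ c : ℕ → ℂ, ∀ k, c k =
      ∑ b ∈ Finset.range (2 * q), ((b.choose k : ℕ) : ℂ) * W b := ⟨_, fun _ => rfl⟩
  have hcK : ∀ k, c k ∈ K := fun k => by
    rw [hc]
    exact sum_mem fun b _ => mul_mem (natCast_mem K _) (hWK _)
  have hc1 : ∀ k, V.valuation (c k) ≤ 1 := fun k => by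
    rw [hc]
    refine Valuation.map_sum_le _ fun b _ => ?_
    rw [map_mul]
    exact mul_le_one' (val_nat V _) (hW1 _)
  have hnewton : ∀ f : ℕ → ℤ, ∑ b ∈ Finset.range (2 * q), (f b : ℂ) * W b =
      ∑ k ∈ Finset.range (2 * q), (((fwdDiff 1)^[k] f 0 : ℤ) : ℂ) * c k := by
    intro f
    rw [newton (2 * q) (fun b => W b) f]
    refine Finset.sum_congr rfl fun k _ => ?_
    rw [hc]
  have hex1 : ∃ k, k < 2 * q ∧ V.valuation (c k) = 1 := by
    by_contra hcon
    have hlt : ∀ k < 2 * q, V.valuation (c k) < 1 := fun k hk =>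
      lt_of_le_of_ne (hc1 k) fun h => hcon ⟨k, hk, h⟩
    have h1 := hnewton (fun b => if b = r then 1 else 0)
    have h2 : ∑ b ∈ Finset.range (2 * q), (((if b = r then 1 else 0 : ℤ)) : ℂ) * W b
        = W r := by
      rw [Finset.sum_eq_single r]
      · simp
      · intro b _ hb
        rw [if_neg hb]
        simp
      · intro h
        exact absurd (Finset.mem_range.2 hr) h
    rw [h2] at h1
    have h3 : V.valuation (W r) < 1 := by
      rw [h1]
      refine Valuation.map_sum_lt _ one_ne_zero fun k hk => ?_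
      rw [map_mul]
      exact lt_of_le_of_lt (mul_le_of_le_one_left' (val_int V _))
        (hlt k (Finset.mem_range.1 hk))
    exact absurd hWr h3.ne
  classical
  obtain ⟨hk₀, hk₁⟩ := Nat.find_spec hex1
  obtain ⟨k₀, hk₀def⟩ : ∃ k₀, k₀ = Nat.find hex1 := ⟨_, rfl⟩
  rw [← hk₀def] at hk₀ hk₁
  have hmin1 : ∀ k < k₀, V.valuation (c k) < 1 := by
    intro k hk
    refine lt_of_le_of_ne (hc1 k) fun h => ?_
    rw [hk₀def] at hk
    exact Nat.find_min hex1 hk ⟨lt_trans hk (by rw [← hk₀def]; exact hk₀), h⟩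
  have hmin : ∀ k < k₀, V.valuation (c k) ^ 2 ≤ V.valuation (2 : ℂ) := fun k hk =>
    hK _ (hcK k) (hmin1 k hk)
  -- the valuation of `ζ - 1`
  have hx : V.valuation (ζ - 1) ^ (4 * q) = V.valuation (2 : ℂ) := by
    have := val_p 2 Nat.prime_two V (n + 2) ζ hζ
    rw [show 2 ^ (n + 2) * (2 - 1) = 4 * q by rw [hq, pow_add]; omega] at this
    simpa using this
  obtain ⟨x, hxdef⟩ : ∃ x, x = V.valuation (ζ - 1) := ⟨_, rfl⟩
  rw [← hxdef] at hx
  have hx0 : 0 < x := by
    rw [hxdef]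
    refine lt_of_le_of_ne zero_le fun h => ?_
    rw [hxdef, ← h, zero_pow (by omega)] at hx
    exact ht0.ne hx
  have hx1 : x < 1 := by
    by_contra h
    have h1 : 1 ≤ x := not_lt.1 h
    have : 1 ≤ x ^ (4 * q) := one_le_pow₀ h1
    rw [hx] at this
    exact absurd this (not_le.2 hV)
  have hxk : V.valuation (2 : ℂ) < (x ^ k₀) ^ 2 := by
    rw [← hx, ← pow_mul]
    exact pow_lt_pow_right_of_lt_one₀ hx0 hx1 (by omega)
  have hval : V.valuation (∑ b ∈ Finset.range (2 * q), ζ ^ b * W b) = x ^ k₀ := by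
    rw [shift_pow (2 * q) (fun b => W b) ζ]
    have hsc : ∑ k ∈ Finset.range (2 * q), (ζ - 1) ^ k *
        ∑ b ∈ Finset.range (2 * q), ((b.choose k : ℕ) : ℂ) * W b =
        ∑ k ∈ Finset.range (2 * q), (ζ - 1) ^ k * c k :=
      Finset.sum_congr rfl fun k _ => by rw [hc]
    rw [hsc]
    have hk₀N : k₀ ∈ Finset.range (2 * q) := Finset.mem_range.2 hk₀
    rw [← Finset.add_sum_erase _ _ hk₀N]
    have ha : V.valuation ((ζ - 1) ^ k₀ * c k₀) = x ^ k₀ := by
      rw [map_mul, map_pow, hk₁, mul_one, hxdef]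
    have hb : V.valuation (∑ k ∈ (Finset.range (2 * q)).erase k₀, (ζ - 1) ^ k * c k)
        < x ^ k₀ := by
      refine Valuation.map_sum_lt _ (pow_pos hx0 k₀).ne' fun k hk => ?_
      have hne := Finset.ne_of_mem_erase hk
      rw [map_mul, map_pow, ← hxdef]
      rcases lt_or_gt_of_ne hne with hlt | hgt
      · refine lt_of_le_of_lt (mul_le_of_le_one_left' (pow_le_one' hx1.le k)) ?_
        exact lt_of_pow_lt_pow_left₀ 2 (pow_pos hx0 k₀).le (lt_of_le_of_lt (hmin k hlt) hxk)
      · refine lt_of_le_of_lt (mul_le_of_le_one_right' (hc1 k)) ?_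
        exact pow_lt_pow_right_of_lt_one₀ hx0 hx1 hgt
    have := Valuation.map_add_eq_of_lt_left V.valuation (x := (ζ - 1) ^ k₀ * c k₀)
      (y := ∑ k ∈ (Finset.range (2 * q)).erase k₀, (ζ - 1) ^ k * c k) (by rw [ha]; exact hb)
    rw [this, ha]
  -- the sum
  have hvζ : V.valuation ζ = 1 := by
    refine val_root V (2 ^ (n + 3)) (by positivity) ζ hζ.pow_eq_one
  have hsum := sum_two q om ζ h hom.pow_eq_one hζom hne (fun b => W b) (fun b => by
    have h1 := hWrel b
    have e1 : (((b + 2 * q : ℕ)) : ℤ) = (b : ℤ) + ((2 * q : ℕ) : ℤ) := by push_cast; ring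
    have e2 : (((b + q : ℕ)) : ℤ) = (b : ℤ) + (q : ℤ) := by push_cast; ring
    show W ((b + 2 * q : ℕ) : ℤ) - (om + om ^ h) * W ((b + q : ℕ) : ℤ) +
      om ^ (1 + h) * W (b : ℤ) = 0
    rw [e1, e2]
    exact h1)
  have h8 : V.valuation (8 : ℂ) = V.valuation (2 : ℂ) ^ 3 := by
    rw [← map_pow]
    norm_num
  have hvs : V.valuation (om - om ^ h) * V.valuation (∑ b ∈ Finset.range (8 * q), ζ ^ b * W b) =
      V.valuation (2 : ℂ) ^ 3 * x ^ k₀ := by
    have ha : V.valuation (-8 * om ^ h * ∑ b ∈ Finset.range (2 * q), ζ ^ b * W b) =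
        V.valuation (2 : ℂ) ^ 3 * x ^ k₀ := by
      rw [map_mul, map_mul, Valuation.map_neg, h8, map_pow, hvom, one_pow, mul_one, hval]
    have hb : V.valuation (8 * (1 + ζ ^ q * om ^ h) *
        ∑ b ∈ Finset.range q, ζ ^ b * W ((b + q : ℕ) : ℤ)) < V.valuation (2 : ℂ) ^ 3 * x ^ k₀ := by
      rw [map_mul, map_mul, h8, mul_assoc]
      refine mul_lt_mul_of_pos_left ?_ (pow_pos ht0 3)
      refine lt_of_le_of_lt (mul_le_of_le_one_right' ?_) ?_
      · refine Valuation.map_sum_le _ fun b _ => ?_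
        rw [map_mul, map_pow, hvζ, one_pow, one_mul]
        exact hW1 _
      · exact lt_of_pow_lt_pow_left₀ 2 (pow_pos hx0 k₀).le (lt_of_le_of_lt hw hxk)
    have h1 : (om - om ^ h) * ∑ b ∈ Finset.range (8 * q), ζ ^ b * W b =
        -8 * om ^ h * ∑ b ∈ Finset.range (2 * q), ζ ^ b * W b +
          8 * (1 + ζ ^ q * om ^ h) * ∑ b ∈ Finset.range q, ζ ^ b * W ((b + q : ℕ) : ℤ) := hsum
    rw [← map_mul, h1, Valuation.map_add_eq_of_lt_left V.valuation (by rw [ha]; exact hb), ha]
  have hys : ∑ b ∈ Finset.range (2 ^ (n + 3)), ζ ^ b * y b =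
      y bs * ∑ b ∈ Finset.range (8 * q), ζ ^ b * W b := by
    rw [hN, Finset.mul_sum]
    refine Finset.sum_congr rfl fun b _ => ?_
    rw [hyW b]
    ring
  obtain ⟨S, hS⟩ : ∃ S, S = V.valuation (∑ b ∈ Finset.range (8 * q), ζ ^ b * W b) := ⟨_, rfl⟩
  obtain ⟨D, hDdef⟩ : ∃ D, D = V.valuation (om - om ^ h) := ⟨_, rfl⟩
  obtain ⟨t, ht⟩ : ∃ t, t = V.valuation (2 : ℂ) := ⟨_, rfl⟩
  rw [← hS, ← hDdef, ← ht] at hvs
  rw [← hDdef, ← ht] at hD
  rw [hys, map_mul, ← hS, ← ht]
  rw [← ht] at hV ht0 hxk hx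
  have htd : 0 < t ^ dH h := pow_pos ht0 _
  -- the square
  have hS2 : t ^ 4 * S ^ 2 = t ^ dH h * (t ^ 6 * (x ^ k₀) ^ 2) := by
    calc t ^ 4 * S ^ 2 = (t ^ dH h * D ^ 2) * S ^ 2 := by rw [hD]
      _ = t ^ dH h * (D * S) ^ 2 := by rw [mul_assoc, mul_pow]
      _ = t ^ dH h * (t ^ 6 * (x ^ k₀) ^ 2) := by rw [hvs, mul_pow, ← pow_mul]
  have hS2' : S ^ 2 = t ^ dH h * (t ^ 2 * (x ^ k₀) ^ 2) := by
    have h1 : t ^ 4 * S ^ 2 = t ^ 4 * (t ^ dH h * (t ^ 2 * (x ^ k₀) ^ 2)) := by
      rw [hS2, show t ^ 6 = t ^ 4 * t ^ 2 by rw [← pow_add], mul_assoc, mul_left_comm]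
    exact mul_left_cancel₀ (pow_pos ht0 4).ne' h1
  have hvs2 : V.valuation (y b₀) ^ 2 ≤ V.valuation (y bs) ^ 2 :=
    pow_le_pow_left₀ zero_le (hall b₀) 2
  constructor
  · calc t ^ (dH h + 3) * V.valuation (y b₀) ^ 2
        ≤ t ^ (dH h + 3) * V.valuation (y bs) ^ 2 := mul_le_mul_right hvs2 _
      _ = V.valuation (y bs) ^ 2 * (t ^ dH h * (t ^ 2 * t)) := by
          rw [mul_comm, pow_add, ← pow_succ]
      _ < V.valuation (y bs) ^ 2 * (t ^ dH h * (t ^ 2 * (x ^ k₀) ^ 2)) := by
          refine mul_lt_mul_of_pos_left ?_ (pow_pos hvs0 2)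
          refine mul_lt_mul_of_pos_left ?_ htd
          exact mul_lt_mul_of_pos_left hxk (pow_pos ht0 2)
      _ = (V.valuation (y bs) * S) ^ 2 := by rw [mul_pow, hS2']
  · intro b₁ hb₁
    have hke : k₀ < q := by
      by_contra hcon
      have hlt : ∀ k < q, V.valuation (c k) < 1 := fun k hk =>
        hmin1 k (lt_of_lt_of_le hk (not_lt.1 hcon))
      -- `W r + W (r + q)` is small
      have hS0 : ∀ r : ℕ, r < q → V.valuation (W r + W ((r : ℤ) + q)) < 1 := by
        intro r hr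
        have h1 := hnewton (fun b => if b % 2 ^ n = r then 1 else 0)
        have h2 : ∑ b ∈ Finset.range (2 * q), (((if b % 2 ^ n = r then 1 else 0 : ℤ)) : ℂ) * W b
            = W r + W ((r : ℤ) + q) := by
          rw [show 2 * q = q + q by ring, Finset.sum_range_add]
          congr 1
          · rw [Finset.sum_eq_single r]
            · rw [Nat.mod_eq_of_lt (by rw [← hq]; exact hr)]
              simp
            · intro b hb hbr
              rw [Nat.mod_eq_of_lt (by rw [← hq]; exact Finset.mem_range.1 hb), if_neg hbr]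
              simp
            · intro h
              exact absurd (Finset.mem_range.2 hr) h
          · rw [Finset.sum_eq_single r]
            · rw [← hq, Nat.add_mod_left, Nat.mod_eq_of_lt hr, add_comm q r]
              simp
            · intro b hb hbr
              rw [← hq, Nat.add_mod_left, Nat.mod_eq_of_lt (Finset.mem_range.1 hb), if_neg hbr]
              simp
            · intro h
              exact absurd (Finset.mem_range.2 hr) h
        rw [h2] at h1
        rw [h1]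
        refine Valuation.map_sum_lt _ one_ne_zero fun k _ => ?_
        rw [map_mul]
        rcases lt_or_ge k q with hk | hk
        · exact lt_of_le_of_lt (mul_le_of_le_one_left' (val_int V _)) (hlt k hk)
        · have h5 := dvd_diff 2 Nat.prime_two n (fun b => if b % 2 ^ n = r then 1 else 0)
            (fun b => by simp) k (by rw [← hq]; exact hk) 0
          obtain ⟨w, hw⟩ := h5
          rw [hw]
          push_cast
          rw [map_mul]
          refine lt_of_le_of_lt (mul_le_of_le_one_right' (hc1 k)) ?_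
          rw [← ht]
          exact lt_of_le_of_lt (mul_le_of_le_one_right' (val_int V _)) hV
      have hall2 : ∀ b : ℤ, V.valuation (W (b + q) - W b) < 1 := by
        refine reduce q hqpos (fun b => V.valuation (W (b + q) - W b) < 1) (fun b => ?_)
          (fun r hr => ?_)
        · show V.valuation (W (b + q) - W b) < 1 ↔ V.valuation (W (b + q + q) - W (b + q)) < 1
          have h2 := hW2 b
          rw [show b + ((2 * q : ℕ) : ℤ) = b + q + q by push_cast; ring] at h2
          constructor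
          · intro h3
            have e : W (b + q + q) - W (b + q) = (W (b + q + q) - W b) - (W (b + q) - W b) := by
              ring
            rw [e]
            exact Valuation.map_sub_lt _ h2 h3
          · intro h3
            have e : W (b + q) - W b = (W (b + q + q) - W b) - (W (b + q + q) - W (b + q)) := by
              ring
            rw [e]
            exact Valuation.map_sub_lt _ h2 h3
        · show V.valuation (W ((r : ℤ) + q) - W r) < 1
          have e : W ((r : ℤ) + q) - W r = (W r + W ((r : ℤ) + q)) - 2 * W r := by ring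
          rw [e]
          refine Valuation.map_sub_lt _ (hS0 r hr) ?_
          rw [map_mul, ← ht]
          exact lt_of_le_of_lt (mul_le_of_le_one_right' (hW1 _)) hV
      have h3 := hb₁ bs
      rw [hyW (b₁ + q), hyW b₁, ← mul_sub, map_mul] at h3
      have h4 : V.valuation (y bs) * V.valuation (W (b₁ + q) - W b₁) < V.valuation (y bs) :=
        mul_lt_of_lt_one_right hvs0 (hall2 b₁)
      exact absurd h4 (not_lt.2 h3)
    have hxk4 : t < (x ^ k₀) ^ 4 := by
      rw [← hx, ← pow_mul]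
      exact pow_lt_pow_right_of_lt_one₀ hx0 hx1 (by omega)
    calc t ^ (2 * dH h + 5) * V.valuation (y b₀) ^ 4
        ≤ t ^ (2 * dH h + 5) * V.valuation (y bs) ^ 4 :=
          mul_le_mul_right (pow_le_pow_left₀ zero_le (hall b₀) 4) _
      _ = V.valuation (y bs) ^ 4 * (t ^ (2 * dH h) * (t ^ 4 * t)) := by
          rw [mul_comm, pow_add, ← pow_succ]
      _ < V.valuation (y bs) ^ 4 * (t ^ (2 * dH h) * (t ^ 4 * (x ^ k₀) ^ 4)) := by
          refine mul_lt_mul_of_pos_left ?_ (pow_pos hvs0 4)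
          refine mul_lt_mul_of_pos_left ?_ (pow_pos ht0 _)
          exact mul_lt_mul_of_pos_left hxk4 (pow_pos ht0 4)
      _ = (V.valuation (y bs) * S) ^ 4 := by
          have h5 : S ^ 4 = t ^ (2 * dH h) * (t ^ 4 * (x ^ k₀) ^ 4) := by
            calc S ^ 4 = (S ^ 2) ^ 2 := by rw [← pow_mul]
              _ = (t ^ dH h * (t ^ 2 * (x ^ k₀) ^ 2)) ^ 2 := by rw [hS2']
              _ = t ^ (2 * dH h) * (t ^ 4 * (x ^ k₀) ^ 4) := by
                  rw [mul_pow, mul_pow, ← pow_mul, ← pow_mul, ← pow_mul, mul_comm (dH h) 2]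
          rw [mul_pow, h5]

end

end Pool.Agent.N2H
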