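import Pool.Agent.N2.StHT
import Pool.Agent.MUX.HN_H1N

/-!
# MUX-2N, block HT, module H1T: Theorem G for the part `1` of the symbol (helper76)
-/

set_option autoImplicit false

namespace Pool.Agent.N2H

open _root_.MU3 Pool.Agent.MuSym Pool.Agent.MUXH Pool.Agent.N2 OnePoint

noncomputable section

namespace H1T

/-- the projector for the differences -/
theorem prj_PTq (r : ℤ) (hr : r ≠ 0) (q : ℕ) (hq : q ≠ 0) (c : ℕ → ℂ)
    (P Q : OnePoint ℚ → OnePoint ℚ → ℂ)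
    (h : ∀ x y, ∑ t ∈ Finset.range q, c t * Q (mob q t 0 q x) (mob q t 0 q y) = P x y) :
    ∀ x y, ∑ t ∈ Finset.range q, c t * (Q (mob q t 0 q x) (mob q t 0 q y) -
        Q (mob r 1 0 r (mob q t 0 q x)) (mob r 1 0 r (mob q t 0 q y))) =
      P x y - P (mob r 1 0 r x) (mob r 1 0 r y) := by
  intro x y
  have hq0 : (q : ℤ) ≠ 0 := by exact_mod_cast hq
  rw [← h x y, ← h (mob r 1 0 r x) (mob r 1 0 r y), ← Finset.sum_sub_distrib]
  refine Finset.sum_congr rfl fun k _ => ?_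
  rw [MUXHN.H1N.mob_comm q k r 1 hq0 hr x, MUXHN.H1N.mob_comm q k r 1 hq0 hr y, mul_sub]

/-- the transfer of the bound -/
theorem gen {V : ValuationSubring ℂ} (P Q : OnePoint ℚ → OnePoint ℚ → ℂ) (bd : V.ValueGroup)
    (hbd : 0 < bd) (q : ℕ) (hq : q ≠ 0) (c : ℕ → ℂ) (hc : ∀ t, V.valuation (c t) ≤ 1)
    (hprj : ∀ x y, ∑ t ∈ Finset.range q, c t * Q (mob q t 0 q x) (mob q t 0 q y) = P x y)
    (M : ℕ) (hG : ∃ α β γ δ : ℤ, α * δ - β * γ = 1 ∧ ((M * q ^ 2 : ℕ) : ℤ) ∣ γ ∧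
      ((M * q ^ 2 : ℕ) : ℤ) ∣ δ - 1 ∧ bd ≤ V.valuation (P ∞ (mob α β γ δ ∞)) ^ 8) :
    ∃ α β γ δ : ℤ, α * δ - β * γ = 1 ∧ (M : ℤ) ∣ γ ∧ (M : ℤ) ∣ δ - 1 ∧
      bd ≤ V.valuation (Q ∞ (mob α β γ δ ∞)) ^ 8 := by
  by_contra hcon
  push Not at hcon
  obtain ⟨D, hD⟩ : ∃ D : ℤ, D = (q : ℤ) := ⟨_, rfl⟩
  have hD0 : D ≠ 0 := by rw [hD]; exact_mod_cast hq
  obtain ⟨α, β, γ, δ, h1, h2, h3, h4⟩ := hG
  have hcast : ((M * q ^ 2 : ℕ) : ℤ) = M * D ^ 2 := by
    push_cast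
    rw [hD]
  rw [hcast] at h2 h3
  obtain ⟨u, hu⟩ := h2
  obtain ⟨t, ht⟩ := h3
  have hterm : ∀ k ∈ Finset.range q, V.valuation (c k *
      Q (mob q k 0 q ∞) (mob q k 0 q (mob α β γ δ ∞))) ^ 8 < bd := by
    intro k _
    have e1 : γ = D ^ 2 * (M * u) := by rw [hu]; ring
    have e2 : mob D k 0 D (mob α β γ δ ∞) =
        mob (α + k * D * (M * u)) (β + k * D * M * (t - (β * u - α * t)) - k ^ 2 * (M * u))
          (D ^ 2 * (M * u)) (δ - k * D * (M * u)) ∞ := by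
      rw [e1]
      exact MUXH.H1.conj_mob D k α (M * u) hD0 _ _ _ _
    have hδ2 : δ = 1 + M * D ^ 2 * t := by linarith
    have hα2 : α = 1 + M * D ^ 2 * (β * u - α * t) := by
      have h5 : α = 1 + β * γ - α * (δ - 1) := by linarith
      rw [ht, hu] at h5
      linarith
    rw [← hD, e2, MUXH.H1.mob_inf, map_mul]
    have h5 := hcon (α + k * D * (M * u))
      (β + k * D * M * (t - (β * u - α * t)) - k ^ 2 * (M * u))
      (D ^ 2 * (M * u)) (δ - k * D * (M * u)) ?_ ?_ ?_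
    · refine lt_of_le_of_lt (pow_le_pow_left₀ zero_le (mul_le_of_le_one_left' (hc k)) 8) h5
    · have e3 : δ - α = M * D ^ 2 * (t - (β * u - α * t)) := by linarith
      have e4 : α * δ - β * (D ^ 2 * (M * u)) = 1 := by rw [← e1]; exact h1
      linear_combination e4 + (k * D * (M * u)) * e3
    · exact Dvd.intro_left (D ^ 2 * u) (by ring)
    · refine ⟨D ^ 2 * t - k * D * u, ?_⟩
      rw [hδ2]
      ring
  have hsum : V.valuation (∑ k ∈ Finset.range q, c k *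
      Q (mob q k 0 q ∞) (mob q k 0 q (mob α β γ δ ∞))) ^ 8 < bd := by
    refine Finset.sum_induction _ (fun x => V.valuation x ^ 8 < bd) ?_ ?_ hterm
    · intro x y hx hy
      have h := V.valuation.map_add x y
      rcases le_total (V.valuation x) (V.valuation y) with hxy | hxy
      · rw [max_eq_right hxy] at h
        exact lt_of_le_of_lt (pow_le_pow_left₀ zero_le h 8) hy
      · rw [max_eq_left hxy] at h
        exact lt_of_le_of_lt (pow_le_pow_left₀ zero_le h 8) hx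
    · show V.valuation 0 ^ 8 < _
      rw [map_zero, zero_pow (by norm_num)]
      exact hbd
  rw [hprj] at hsum
  exact absurd h4 (not_le.2 hsum)

end H1T

open H1T in
theorem tt_H1T : St_H1T := by
  intro V N₀ s₀ i nu P pi KI hyp N' hN' hdvd
  obtain ⟨q, c, hq, hc, hprj⟩ := hyp.prj
  have h2pos : (0 : V.ValueGroup) < V.valuation (2 : ℂ) :=
    lt_of_le_of_ne zero_le ((Valuation.ne_zero_iff _).2 (by norm_num)).symm
  have h16 := prj_PTq 16 (by norm_num) q hq c _ _ hprj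
  have h4 := prj_PTq 4 (by norm_num) q hq c _ _ hprj
  have h164 := prj_PTq 16 (by norm_num) q hq c _ (PTq 4 (sgnPart (1 : ℂ) P)) h4
  have hne : N' * q ^ 2 ≠ 0 := mul_ne_zero hN' (pow_ne_zero _ hq)
  exact ⟨gen (PTq 16 P) (PTq 16 (sgnPart (1 : ℂ) P)) _ h2pos q hq c hc h16 N'
      (hyp.G1 _ hne (Dvd.dvd.mul_right hdvd _)),
    gen (PTq 16 (PTq 4 P)) (PTq 16 (PTq 4 (sgnPart (1 : ℂ) P))) _ (pow_pos h2pos 5) q hq c hc
      h164 N' (hyp.G2 _ hne (Dvd.dvd.mul_right hdvd _))⟩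

end

end Pool.Agent.N2H
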