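import Pool.Agent.N2.StHU
import Pool.Agent.N2.H_H1T

/-!
# MUX-2R, block HU, module H1U: Theorem G for `P` from Theorem G for the holomorphic part. Model:
`Pool/Agent/N2/H_H1T.lean` (helper76)
-/

set_option autoImplicit false

namespace Pool.Agent.N2H

open _root_.MU3 Pool.Agent.MuSym Pool.Agent.MUXH Pool.Agent.N2 OnePoint

noncomputable section

namespace H1U

/-- the transfer of the bound -/
theorem gen {V : ValuationSubring ℂ} (P Q : OnePoint ℚ → OnePoint ℚ → ℂ)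
    (q : ℕ) (hq : q ≠ 0) (c : ℕ → ℂ) (hc : ∀ t, V.valuation (c t) ≤ 1)
    (hprj : ∀ x y, ∑ t ∈ Finset.range q, c t * Q (mob q t 0 q x) (mob q t 0 q y) = P x y)
    (M : ℕ) (hG : ∃ α β γ δ : ℤ, α * δ - β * γ = 1 ∧ ((M * q ^ 2 : ℕ) : ℤ) ∣ γ ∧
      ((M * q ^ 2 : ℕ) : ℤ) ∣ δ - 1 ∧ 1 < V.valuation (P ∞ (mob α β γ δ ∞))) :
    ∃ α β γ δ : ℤ, α * δ - β * γ = 1 ∧ (M : ℤ) ∣ γ ∧ (M : ℤ) ∣ δ - 1 ∧
      1 < V.valuation (Q ∞ (mob α β γ δ ∞)) := by
  by_contra hcon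
  push Not at hcon
  obtain ⟨D, hD⟩ : ∃ D : ℤ, D = (q : ℤ) := ⟨_, rfl⟩
  have hD0 : D ≠ 0 := by rw [hD]; exact_mod_cast hq
  obtain ⟨α, β, γ, δ, h1, h2, h3, h4⟩ := hG
  have hcast : ((M * q ^ 2 : ℕ) : ℤ) = M * D ^ 2 := by
    push_cast
    rw [hD]
  rw [hcast] at h2 h3
  obtain ⟨u, hu⟩ := h2
  obtain ⟨t, ht⟩ := h3
  have hterm : ∀ k ∈ Finset.range q, V.valuation (c k *
      Q (mob q k 0 q ∞) (mob q k 0 q (mob α β γ δ ∞))) ≤ 1 := by
    intro k _
    have e1 : γ = D ^ 2 * (M * u) := by rw [hu]; ring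
    have e2 : mob D k 0 D (mob α β γ δ ∞) =
        mob (α + k * D * (M * u)) (β + k * D * M * (t - (β * u - α * t)) - k ^ 2 * (M * u))
          (D ^ 2 * (M * u)) (δ - k * D * (M * u)) ∞ := by
      rw [e1]
      exact MUXH.H1.conj_mob D k α (M * u) hD0 _ _ _ _
    have hδ2 : δ = 1 + M * D ^ 2 * t := by linarith
    have hα2 : α = 1 + M * D ^ 2 * (β * u - α * t) := by
      have h5 : α = 1 + β * γ - α * (δ - 1) := by linarith
      rw [ht, hu] at h5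
      linarith
    rw [← hD, e2, MUXH.H1.mob_inf, map_mul]
    have h5 := hcon (α + k * D * (M * u))
      (β + k * D * M * (t - (β * u - α * t)) - k ^ 2 * (M * u))
      (D ^ 2 * (M * u)) (δ - k * D * (M * u)) ?_ ?_ ?_
    · exact (mul_le_of_le_one_left' (hc k)).trans h5
    · have e3 : δ - α = M * D ^ 2 * (t - (β * u - α * t)) := by linarith
      have e4 : α * δ - β * (D ^ 2 * (M * u)) = 1 := by rw [← e1]; exact h1
      linear_combination e4 + (k * D * (M * u)) * e3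
    · exact Dvd.intro_left (D ^ 2 * u) (by ring)
    · refine ⟨D ^ 2 * t - k * D * u, ?_⟩
      rw [hδ2]
      ring
  have hsum : V.valuation (∑ k ∈ Finset.range q, c k *
      Q (mob q k 0 q ∞) (mob q k 0 q (mob α β γ δ ∞))) ≤ 1 := by
    refine Finset.sum_induction _ (fun x => V.valuation x ≤ 1) ?_ ?_ hterm
    · intro x y hx hy
      exact (V.valuation.map_add x y).trans (max_le hx hy)
    · show V.valuation 0 ≤ _
      rw [map_zero]
      exact zero_le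
  rw [hprj] at hsum
  exact absurd h4 (not_lt.2 hsum)

end H1U

open H1U in
/-- (H1U) -/
theorem tu_H1U : Su_H1U := by
  intro V N₀ s₀ nu P Pp pi KI om h hyp N' hN' hdvd
  obtain ⟨q, c, hq, hc, hprj⟩ := hyp.prj
  have h8 := H1T.prj_PTq 8 (by norm_num) q hq c _ _ hprj
  have h328 := H1T.prj_PTq 32 (by norm_num) q hq c _ (PTq 8 P) h8
  exact gen (PTq 32 (PTq 8 Pp)) (PTq 32 (PTq 8 P)) q hq c hc h328 N'
    (hyp.G _ (mul_ne_zero hN' (pow_ne_zero _ hq)) (Dvd.dvd.mul_right hdvd _))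

end

end Pool.Agent.N2H
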