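import Pool.Agent.N2.StHT
import Pool.Agent.MUX.HN_H1N

/-!
# MUX-2N, block HT: glue (helper66)
-/

set_option autoImplicit false

namespace Pool.Agent.N2H

open _root_.MU3 Pool.Agent.MuSym Pool.Agent.MUXH Pool.Agent.N2 OnePoint

noncomputable section

namespace HTG

/-- the elements `x` with `v(x)³ t^i < 1`, as a submodule of `ℂ` -/
def mT (V : ValuationSubring ℂ) (i : ℕ) : Submodule V ℂ where
  carrier := {x | V.valuation x ^ 3 * V.valuation (2 : ℂ) ^ i < 1}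
  add_mem' := by
    intro a b ha hb
    change V.valuation (a + b) ^ 3 * V.valuation (2 : ℂ) ^ i < 1
    have ha' : V.valuation a ^ 3 * V.valuation (2 : ℂ) ^ i < 1 := ha
    have hb' : V.valuation b ^ 3 * V.valuation (2 : ℂ) ^ i < 1 := hb
    rcases le_total (V.valuation a) (V.valuation b) with h | h
    · have h1 : V.valuation (a + b) ≤ V.valuation b :=
        (V.valuation.map_add a b).trans (max_le h le_rfl)
      exact lt_of_le_of_lt (mul_le_mul_left (pow_le_pow_left' h1 3) _) hb'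
    · have h1 : V.valuation (a + b) ≤ V.valuation a :=
        (V.valuation.map_add a b).trans (max_le le_rfl h)
      exact lt_of_le_of_lt (mul_le_mul_left (pow_le_pow_left' h1 3) _) ha'
  zero_mem' := by
    change V.valuation 0 ^ 3 * V.valuation (2 : ℂ) ^ i < 1
    rw [map_zero, zero_pow (by norm_num), zero_mul]
    exact zero_lt_one
  smul_mem' := by
    intro c x hx
    change V.valuation ((c : ℂ) * x) ^ 3 * V.valuation (2 : ℂ) ^ i < 1
    have h1 : V.valuation (c : ℂ) ≤ 1 := (V.valuation_le_one_iff _).2 c.2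
    have h2 : V.valuation x ^ 3 * V.valuation (2 : ℂ) ^ i < 1 := hx
    have h3 : V.valuation ((c : ℂ) * x) ≤ V.valuation x := by
      rw [map_mul]
      exact mul_le_of_le_one_left' h1
    exact lt_of_le_of_lt (mul_le_mul_left (pow_le_pow_left' h3 3) _) h2

lemma mem_mT {V : ValuationSubring ℂ} {i : ℕ} {x : ℂ} :
    x ∈ mT V i ↔ V.valuation x ^ 3 * V.valuation (2 : ℂ) ^ i < 1 := Iff.rfl

/-- from small combinations to vanishing cycles -/
lemma fin_aux (hLOCT : St_LOCT) (hKYT : St_KYT) (V : ValuationSubring ℂ)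
    (hV : V.valuation (2 : ℂ) < 1) (m : Submodule V ℂ) (N₀ s : ℕ) (nu : ℤ → ℂ)
    (F : OnePoint ℚ → OnePoint ℚ → ℂ) (hN2 : 2 ≤ N₀) (hcop : Nat.Coprime 2 N₀) (hnu1 : nu 1 = 1)
    (hper : ∀ d d', ((2 * N₀ : ℕ) : ℤ) ∣ d - d' → nu d = nu d')
    (hunit : ∀ d, IsCoprime d ((2 * N₀ : ℕ) : ℤ) → V.valuation (nu d) = 1)
    (hF : IsSym (2 ^ (s + 1) * N₀) nu F) (k n₁ : ℕ)
    (hFp : ∀ (r : ℚ) (k : ℤ), F ∞ ((r + k : ℚ) : OnePoint ℚ) = F ∞ (r : OnePoint ℚ))
    (hk : ∀ x y, (2 : ℂ) ^ k * F x y ∈ m) (α g : ℤ) (hα : (4 : ℤ) ∣ α - 1) (hα1 : α ≠ 1)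
    (hg : (4 : ℤ) ∣ g - 1) (hg1 : g ≠ 1)
    (hall : ∀ n, n₁ ≤ n → ∀ b : ℤ, ¬ (2 : ℤ) ∣ b →
      comb α g 1 (fun b => F ∞ (((b : ℚ) / 2 ^ n : ℚ) : OnePoint ℚ)) b ∈ m) :
    ∃ R : ℕ, ∀ a b c d : ℤ, a * d - b * c = 1 → (2 : ℤ) ^ R * N₀ ∣ c →
      (2 : ℤ) ^ R * N₀ ∣ d - 1 → ∀ x, PTq 16 F x (mob a b c d x) ∈ m := by
  let z : ℕ → ℤ → ℂ := fun n b => F ∞ (((b : ℚ) / 2 ^ n : ℚ) : OnePoint ℚ)
  have hzper : ∀ (n : ℕ) (b c : ℤ), (2 : ℤ) ^ n ∣ b - c → z n b = z n c := by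
    rintro n b c ⟨t, ht⟩
    have e : ((b : ℚ) / 2 ^ n : ℚ) = (c : ℚ) / 2 ^ n + t := by
      have h3 : ((2 : ℚ) ^ n) ≠ 0 := by positivity
      have : (b : ℚ) = c + 2 ^ n * t := by
        have : (b : ℤ) = c + 2 ^ n * t := by linear_combination ht
        exact_mod_cast this
      rw [this]
      field_simp
    change F ∞ (((b : ℚ) / 2 ^ n : ℚ) : OnePoint ℚ) = F ∞ (((c : ℚ) / 2 ^ n : ℚ) : OnePoint ℚ)
    rw [e]
    exact hFp _ t
  obtain ⟨r, hr⟩ := hLOCT V hV m z k n₁ hzper (fun n b => hk _ _) α g hα hα1 hg hg1 1 hall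
  exact hKYT V hV m N₀ s nu F hN2 hcop hnu1 hper hunit hF r n₁ hr

lemma mob_trq (q : ℤ) (hq : q ≠ 0) (r : ℚ) :
    mob q 1 0 q (r : OnePoint ℚ) = ((r + 1 / q : ℚ) : OnePoint ℚ) := by
  rw [MUXHN.H1N.mob_tr q 1 hq]
  push_cast
  rfl

end HTG

open HTG in
/-- (HT) -/
theorem tt_HT (hBDT : St_BDT) (hHKT : St_HKT) (hSHT : St_SHT) (hH1T : St_H1T) (hTYT : St_TYT)
    (hLOCT : St_LOCT) (hKYT : St_KYT) (hDVT : St_DVT) : St_HT := by
  intro V N₀ s₀ i nu P pi KI H α g hα hα1 hg hg1 n₀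
  by_contra hcon
  push Not at hcon
  obtain ⟨hQs, hQp, hQd⟩ := hHKT _ nu P (1 : ℂ) H.sym H.nu1 H.dep
  obtain ⟨k, hk⟩ := hBDT V H.vp P H.alg H.fin
  set Q := sgnPart (1 : ℂ) P with hQ
  set t := V.valuation (2 : ℂ) with ht
  have ht0 : (0 : V.ValueGroup) < t := by
    rw [ht]
    exact zero_lt_iff.2 ((V.valuation.ne_zero_iff).2 two_ne_zero)
  have ht1 : t < 1 := H.vp
  have hti : t ^ i ≤ 1 := pow_le_one' ht1.le i
  have hti0 : (0 : V.ValueGroup) < t ^ i := pow_pos ht0 i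
  have hpi : pi ≠ 0 := by
    rintro rfl
    have := H.vpi
    rw [map_zero, zero_pow (by norm_num), zero_mul] at this
    exact zero_ne_one this
  have hpi1 : 1 ≤ V.valuation pi := (hTYT V H.vp KI H.unr i H.i2 pi H.vpi).1
  have hTY := (hTYT V H.vp KI H.unr i H.i2 pi H.vpi).2
  -- the values of `Q`
  have hQtyp : ∀ x y, ∃ w ∈ KI, Q x y = pi * w := by
    intro x y
    obtain ⟨w1, hw1, e1⟩ := H.typ x y
    obtain ⟨w2, hw2, e2⟩ := H.typ (mob (-1) 0 0 1 x) (mob (-1) 0 0 1 y)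
    refine ⟨w1 + w2, add_mem hw1 hw2, ?_⟩
    rw [hQ]
    unfold sgnPart
    rw [e1, e2]
    ring
  have hQk : ∀ x y, V.valuation (2 ^ k * Q x y) ≤ 1 := by
    intro x y
    have e : (2 : ℂ) ^ k * Q x y = 2 ^ k * P x y +
        (2 ^ k * P (mob (-1) 0 0 1 x) (mob (-1) 0 0 1 y)) := by
      rw [hQ]
      unfold sgnPart
      ring
    rw [e]
    exact (V.valuation.map_add _ _).trans (max_le (hk _ _) (hk _ _))
  have hsmall : ∀ x : ℂ, V.valuation (2 ^ k * x) ≤ 1 → (2 : ℂ) ^ (k + 1) * x ∈ mT V i := by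
    intro x hx
    rw [mem_mT]
    have e : (2 : ℂ) ^ (k + 1) * x = 2 * (2 ^ k * x) := by ring
    rw [e, map_mul]
    have h1 : V.valuation (2 : ℂ) * V.valuation (2 ^ k * x) < 1 := by
      exact mul_lt_one_of_lt_of_le H.vp hx
    have h2 : (V.valuation (2 : ℂ) * V.valuation (2 ^ k * x)) ^ 3 < 1 :=
      pow_lt_one' h1 (by norm_num)
    exact mul_lt_one_of_lt_of_le h2 hti
  -- the functions on the levels
  let z : ℕ → ℤ → ℂ := fun n b => Q ∞ (((b : ℚ) / 2 ^ n : ℚ) : OnePoint ℚ)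
  have hzper : ∀ (n : ℕ) (b c : ℤ), (2 : ℤ) ^ n ∣ b - c → z n b = z n c := by
    rintro n b c ⟨t, ht⟩
    have e : ((b : ℚ) / 2 ^ n : ℚ) = (c : ℚ) / 2 ^ n + t := by
      have h3 : ((2 : ℚ) ^ n) ≠ 0 := by positivity
      have : (b : ℚ) = c + 2 ^ n * t := by
        have : (b : ℤ) = c + 2 ^ n * t := by linear_combination ht
        exact_mod_cast this
      rw [this]
      field_simp
    change Q ∞ (((b : ℚ) / 2 ^ n : ℚ) : OnePoint ℚ) = Q ∞ (((c : ℚ) / 2 ^ n : ℚ) : OnePoint ℚ)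
    rw [e]
    exact hQp _ t
  have hzdep : ∀ (n : ℕ) (b : ℤ), z (n + 1) (b + 2 ^ n) = - z (n + 1) b := by
    intro n b
    have h := hQd ((b : ℚ) / 2 ^ n)
    rw [Finset.sum_range_succ, Finset.sum_range_one] at h
    have h3 : ((2 : ℚ) ^ n) ≠ 0 := by positivity
    have e1 : (((b : ℚ) / 2 ^ n + ((0 : ℕ) : ℚ)) / 2 : ℚ) = ((b : ℤ) : ℚ) / 2 ^ (n + 1) := by
      push_cast
      field_simp
      ring
    have e2 : (((b : ℚ) / 2 ^ n + ((1 : ℕ) : ℚ)) / 2 : ℚ) =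
        ((b + 2 ^ n : ℤ) : ℚ) / 2 ^ (n + 1) := by
      push_cast
      field_simp
      ring
    rw [e1, e2] at h
    exact eq_neg_of_add_eq_zero_right h
  have hztyp : ∀ n b, ∃ w ∈ KI, z n b = pi * w := fun n b => hQtyp _ _
  have hint : ∀ a : ℤ, (a : ℂ) ∈ KI := fun a => intCast_mem KI a
  have hYtyp : ∀ n b, ∃ w ∈ KI, comb α g 1 (z n) b = pi * w := by
    intro n b
    choose w hw hw' using hztyp n
    refine ⟨∑ j ∈ Finset.range (1 + 1), ((-1 : ℂ) ^ (1 - j) * ((1 : ℕ).choose j : ℂ)) *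
      ((α : ℂ) * w (g ^ (1 - j) * b) - (α : ℂ) ^ 2 * w (g ^ (1 - j) * α ^ 2 * b)), ?_, ?_⟩
    · refine sum_mem fun j _ => mul_mem (mul_mem (pow_mem (neg_mem (one_mem _)) _)
        (natCast_mem KI _)) (sub_mem (mul_mem (hint α) (hw _))
        (mul_mem (pow_mem (hint α) 2) (hw _)))
    · unfold comb
      rw [Finset.mul_sum]
      refine Finset.sum_congr rfl fun j _ => ?_
      rw [hw', hw']
      ring
  have hYper : ∀ n, ∀ b c : ℤ, (2 : ℤ) ^ n ∣ b - c →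
      comb α g 1 (z n) b = comb α g 1 (z n) c := by
    intro n b c hbc
    unfold comb
    refine Finset.sum_congr rfl fun j _ => ?_
    rw [hzper n (g ^ (1 - j) * b) (g ^ (1 - j) * c) (by
        rw [← mul_sub]; exact hbc.mul_left _),
      hzper n (g ^ (1 - j) * α ^ 2 * b) (g ^ (1 - j) * α ^ 2 * c) (by
        rw [← mul_sub]; exact hbc.mul_left _)]
  have hpow : ∀ (u : ℤ), (4 : ℤ) ∣ u - 1 → ∀ j : ℕ, (4 : ℤ) ∣ u ^ j - 1 := by
    intro u hu j
    have := sub_dvd_pow_sub_pow u 1 j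
    rw [one_pow] at this
    exact hu.trans this
  -- a shift by `2^e`, `n ≤ e + 2`
  have hshift : ∀ (n e : ℕ), n ≤ e + 2 → ∀ (u : ℤ), (4 : ℤ) ∣ u - 1 → ∀ b : ℤ,
      z n (u * (b + 2 ^ e)) = z n (u * b + 2 ^ e) := by
    intro n e hne u hu b
    refine hzper _ _ _ ?_
    obtain ⟨w, hw⟩ := hu
    have e1 : u * (b + 2 ^ e) - (u * b + 2 ^ e) = 2 ^ (e + 2) * w := by
      have : u = 1 + 4 * w := by linear_combination hw
      rw [this, pow_add]
      ring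
    rw [e1]
    exact (pow_dvd_pow 2 hne).mul_right _
  have hgα : ∀ j : ℕ, (4 : ℤ) ∣ g ^ j * α ^ 2 - 1 := by
    intro j
    have e : g ^ j * α ^ 2 - 1 = (g ^ j - 1) * α ^ 2 + (α ^ 2 - 1) := by ring
    rw [e]
    exact dvd_add ((hpow g hg _).mul_right _) (hpow α hα 2)
  have hYdep : ∀ (m : ℕ) (b : ℤ), comb α g 1 (z (m + 1)) (b + 2 ^ m) =
      - comb α g 1 (z (m + 1)) b := by
    intro m b
    unfold comb
    rw [← Finset.sum_neg_distrib]
    refine Finset.sum_congr rfl fun j _ => ?_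
    rw [hshift (m + 1) m (by omega) _ (hpow g hg (1 - j)) b,
      hshift (m + 1) m (by omega) _ (hgα (1 - j)) b, hzdep, hzdep]
    ring
  have hYdiv : ∀ n, ∀ b b' : ℤ, comb α g 1 (z n) b' ≠ 0 →
      comb α g 1 (z n) b / comb α g 1 (z n) b' ∈ KI := by
    intro n b b' hb'
    obtain ⟨w, hw, e⟩ := hYtyp n b
    obtain ⟨w', hw', e'⟩ := hYtyp n b'
    rw [e, e', mul_div_mul_left _ _ hpi]
    exact div_mem hw hw'
  have hnuv : ∀ d, IsCoprime d ((2 * N₀ : ℕ) : ℤ) → V.valuation (nu d) = 1 := by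
    intro d hd
    obtain ⟨a, b, hab⟩ := hd
    have h1 : nu (d * a) = nu 1 := H.nuper _ _ ⟨-b, by linear_combination hab⟩
    rw [H.num, H.nu1] at h1
    refine le_antisymm (H.nuv d) ?_
    have h2 : V.valuation (nu d) * V.valuation (nu a) = 1 := by
      rw [← map_mul, h1, map_one]
    calc (1 : V.ValueGroup) = V.valuation (nu d) * V.valuation (nu a) := h2.symm
      _ ≤ V.valuation (nu d) * 1 := by
        exact mul_le_mul_right (H.nuv a) _
      _ = V.valuation (nu d) := mul_one _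
  have hN0 : N₀ ≠ 0 := by have := H.N0; omega
  rcases Nat.lt_or_ge i 2 with hi | hi
  · -- `i ≤ 1`
    have hi1 : i ≤ 1 := by omega
    -- the values of the combinations
    have hY1 : ∀ n, max n₀ 3 ≤ n → ∀ b, V.valuation (comb α g 1 (z n) b) ≤ V.valuation pi := by
      intro n hn b
      obtain ⟨m, rfl⟩ : ∃ m, n = m + 1 := ⟨n - 1, by omega⟩
      by_contra hb
      rw [not_le] at hb
      obtain ⟨ζ, hζ, hle⟩ := hcon (m + 1) (by omega)
      obtain ⟨w, hw, e⟩ := hYtyp (m + 1) b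
      have hY0 : comb α g 1 (z (m + 1)) b ≠ 0 := by
        intro h0
        rw [h0, map_zero] at hb
        exact not_lt_zero hb
      have hw1 : 1 < V.valuation w := by
        by_contra hw1
        rw [not_lt] at hw1
        rw [e, map_mul] at hb
        exact absurd hb (not_lt.2 (mul_le_of_le_one_right' hw1))
      have h1 := (hTY w hw).1 hw1
      have h2 := (hDVT V H.vp KI H.unr m (by omega) (comb α g 1 (z (m + 1)))
        (hYper (m + 1)) (hYdep m) (hYdiv (m + 1)) b hY0 ζ hζ).1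
      -- `t < v(Σ)`
      have h3 : t < V.valuation (∑ b ∈ Finset.range (2 ^ (m + 1)), ζ ^ b *
          comb α g 1 (z (m + 1)) b) := by
        refine lt_of_le_of_lt ?_ h2
        rw [e, map_mul]
        calc t = t * 1 := (mul_one _).symm
          _ ≤ t * (V.valuation pi * (V.valuation w * t)) := by
            exact mul_le_mul_right (one_le_mul hpi1 h1) t
          _ = t ^ 2 * (V.valuation pi * V.valuation w) := by
            rw [sq]
            ac_rfl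
      have h4 : t ^ 3 < V.valuation (∑ b ∈ Finset.range (2 ^ (m + 1)), ζ ^ b *
          comb α g 1 (z (m + 1)) b) ^ 2 := by
        calc t ^ 3 ≤ t ^ 2 := pow_le_pow_right_of_le_one' ht1.le (by norm_num)
          _ < _ := pow_lt_pow_left₀ h3 zero_le (by norm_num)
      exact absurd hle (not_le.2 h4)
    have hY2 : ∀ n, max n₀ 3 ≤ n → ∀ b, comb α g 1 (z n) b -
        comb α g 1 (z n) (b + 2 ^ (n - 2)) ∈ mT V i := by
      intro n hn b₁
      obtain ⟨m, rfl⟩ : ∃ m, n = m + 1 := ⟨n - 1, by omega⟩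
      by_contra hb
      rw [mem_mT, not_lt] at hb
      obtain ⟨ζ, hζ, hle⟩ := hcon (m + 1) (by omega)
      have e0 : m + 1 - 2 = m - 1 := by omega
      rw [e0] at hb
      obtain ⟨w, hw, e⟩ := hYtyp (m + 1) b₁
      obtain ⟨w', hw', e'⟩ := hYtyp (m + 1) (b₁ + 2 ^ (m - 1))
      have e1 : comb α g 1 (z (m + 1)) b₁ - comb α g 1 (z (m + 1)) (b₁ + 2 ^ (m - 1)) =
          pi * (w - w') := by
        rw [e, e']
        ring
      rw [e1] at hb
      have hww : 1 ≤ V.valuation (w - w') := (hTY (w - w') (sub_mem hw hw')).2.1.1 hb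
      have hd1 : V.valuation pi ≤ V.valuation (comb α g 1 (z (m + 1)) (b₁ + 2 ^ (m - 1)) -
          comb α g 1 (z (m + 1)) b₁) := by
        rw [Valuation.map_sub_swap, e1, map_mul]
        exact le_mul_of_one_le_right' hww
      -- one of the two values has valuation `≥ 1`
      obtain ⟨b₀, hb₀, hb₀1⟩ : ∃ b₀, comb α g 1 (z (m + 1)) b₀ ≠ 0 ∧
          1 ≤ V.valuation (comb α g 1 (z (m + 1)) b₀) := by
        by_contra hno
        push Not at hno
        have hlt : ∀ b, V.valuation (comb α g 1 (z (m + 1)) b) < 1 := by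
          intro b
          by_cases h0 : comb α g 1 (z (m + 1)) b = 0
          · rw [h0, map_zero]
            exact zero_lt_one
          · exact hno b h0
        have h5 : V.valuation (comb α g 1 (z (m + 1)) (b₁ + 2 ^ (m - 1)) -
            comb α g 1 (z (m + 1)) b₁) < 1 :=
          lt_of_le_of_lt (V.valuation.map_sub _ _) (max_lt (hlt _) (hlt _))
        exact absurd (hpi1.trans hd1) (not_le.2 h5)
      have h2 := (hDVT V H.vp KI H.unr m (by omega) (comb α g 1 (z (m + 1)))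
        (hYper (m + 1)) (hYdep m) (hYdiv (m + 1)) b₀ hb₀ ζ hζ).2 b₁
        (fun b => (hY1 (m + 1) hn b).trans hd1)
      have h4 : t ^ 3 < V.valuation (∑ b ∈ Finset.range (2 ^ (m + 1)), ζ ^ b *
          comb α g 1 (z (m + 1)) b) ^ 2 := by
        refine lt_of_le_of_lt ?_ h2
        exact le_mul_of_one_le_right' (one_le_pow_of_one_le' hb₀1 2)
      exact absurd hle (not_le.2 h4)
    -- the symbol `Q' = PTq 4 Q`
    have hQ's : IsSym (2 ^ (s₀ + 4 + 1) * N₀) nu (PTq 4 Q) := hSHT N₀ s₀ nu Q H.nuper hQs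
    have hQ'eq : ∀ n, 2 ≤ n → ∀ b : ℤ, PTq 4 Q ∞ (((b : ℚ) / 2 ^ n : ℚ) : OnePoint ℚ) =
        z n b - z n (b + 2 ^ (n - 2)) := by
      intro n hn b
      obtain ⟨m, rfl⟩ : ∃ m, n = m + 2 := ⟨n - 2, by omega⟩
      unfold PTq
      rw [MUXH.H1.mob_inf, mob_trq 4 (by norm_num)]
      have e : ((b : ℚ) / 2 ^ (m + 2) + 1 / ((4 : ℤ) : ℚ) : ℚ) =
          ((b + 2 ^ (m + 2 - 2) : ℤ) : ℚ) / 2 ^ (m + 2) := by
        have h3 : ((2 : ℚ) ^ m) ≠ 0 := by positivity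
        rw [Nat.add_sub_cancel]
        push_cast
        rw [pow_add]
        field_simp
        ring
      rw [e]
    have hQ'p : ∀ (r : ℚ) (k : ℤ), PTq 4 Q ∞ ((r + k : ℚ) : OnePoint ℚ) =
        PTq 4 Q ∞ (r : OnePoint ℚ) := by
      intro r k
      unfold PTq
      rw [MUXH.H1.mob_inf, mob_trq 4 (by norm_num), mob_trq 4 (by norm_num), hQp]
      have e : (r + k + 1 / ((4 : ℤ) : ℚ) : ℚ) = r + 1 / ((4 : ℤ) : ℚ) + k := by ring
      rw [e, hQp]
    obtain ⟨R, hR⟩ := fin_aux hLOCT hKYT V H.vp (mT V i) N₀ (s₀ + 4) nu (PTq 4 Q) H.N0 H.cop H.nu1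
      H.nuper hnuv hQ's (k + 1) (max n₀ 3) hQ'p (by
        intro x y
        unfold PTq
        rw [mul_sub]
        exact sub_mem (hsmall _ (hQk _ _)) (hsmall _ (hQk _ _))) α g hα hα1 hg hg1 (by
        intro n hn b _
        have h := hY2 n hn b
        have e : comb α g 1 (fun b => PTq 4 Q ∞ (((b : ℚ) / 2 ^ n : ℚ) : OnePoint ℚ)) b =
            comb α g 1 (z n) b - comb α g 1 (z n) (b + 2 ^ (n - 2)) := by
          unfold comb
          rw [← Finset.sum_sub_distrib]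
          refine Finset.sum_congr rfl fun j _ => ?_
          rw [hshift n (n - 2) (by omega) _ (hpow g hg (1 - j)) b,
            hshift n (n - 2) (by omega) _ (hgα (1 - j)) b]
          beta_reduce
          rw [hQ'eq n (by omega), hQ'eq n (by omega)]
          ring
        rw [e]
        exact h)
    obtain ⟨a, b, c, d, hdet, hc, hd, hv⟩ := (hH1T V N₀ s₀ i nu P pi KI H
      (2 ^ (R + (s₀ + 1)) * N₀) (mul_ne_zero (pow_ne_zero _ (by norm_num)) hN0)
      (mul_dvd_mul_right (pow_dvd_pow 2 (Nat.le_add_left _ _)) _)).2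
    have hdvd : (2 : ℤ) ^ R * (N₀ : ℤ) ∣ ((2 ^ (R + (s₀ + 1)) * N₀ : ℕ) : ℤ) := by
      push_cast
      exact mul_dvd_mul_right (pow_dvd_pow 2 (Nat.le_add_right _ _)) _
    have h1 := hR a b c d hdet (hdvd.trans hc) (hdvd.trans hd) ∞
    have hQ'typ : ∀ x y, ∃ w ∈ KI, PTq 4 Q x y = pi * w := by
      intro x y
      obtain ⟨w1, hw1, e1⟩ := hQtyp x y
      obtain ⟨w2, hw2, e2⟩ := hQtyp (mob 4 1 0 4 x) (mob 4 1 0 4 y)
      refine ⟨w1 - w2, sub_mem hw1 hw2, ?_⟩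
      unfold PTq
      rw [e1, e2]
      ring
    obtain ⟨w1, hw1, e1⟩ := hQ'typ ∞ (mob a b c d ∞)
    obtain ⟨w2, hw2, e2⟩ := hQ'typ (mob 16 1 0 16 ∞) (mob 16 1 0 16 (mob a b c d ∞))
    have e3 : PTq 16 (PTq 4 Q) ∞ (mob a b c d ∞) = pi * (w1 - w2) := by
      change PTq 4 Q ∞ (mob a b c d ∞) -
        PTq 4 Q (mob 16 1 0 16 ∞) (mob 16 1 0 16 (mob a b c d ∞)) = _
      rw [e1, e2]
      ring
    rw [mem_mT, e3] at h1
    rw [← hQ, e3] at hv
    have hww := (hTY (w1 - w2) (sub_mem hw1 hw2)).2.2.2 hi1 hv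
    exact absurd h1 (not_lt.2 ((hTY (w1 - w2) (sub_mem hw1 hw2)).2.1.2 hww))
  · -- `i = 2`
    obtain rfl : i = 2 := le_antisymm H.i2 hi
    have hY : ∀ n, max n₀ 3 ≤ n → ∀ b, comb α g 1 (z n) b ∈ mT V 2 := by
      intro n hn b
      obtain ⟨m, rfl⟩ : ∃ m, n = m + 1 := ⟨n - 1, by omega⟩
      by_contra hb
      rw [mem_mT, not_lt] at hb
      obtain ⟨ζ, hζ, hle⟩ := hcon (m + 1) (by omega)
      have hY0 : comb α g 1 (z (m + 1)) b ≠ 0 := by
        intro h0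
        rw [h0, map_zero, zero_pow (by norm_num), zero_mul] at hb
        exact absurd hb (not_le.2 zero_lt_one)
      have h2 := (hDVT V H.vp KI H.unr m (by omega) (comb α g 1 (z (m + 1)))
        (hYper (m + 1)) (hYdep m) (hYdiv (m + 1)) b hY0 ζ hζ).1
      set S := V.valuation (∑ b ∈ Finset.range (2 ^ (m + 1)), ζ ^ b *
          comb α g 1 (z (m + 1)) b) with hS
      have hle' : S ^ 2 ≤ t ^ 3 := hle
      set Yb := V.valuation (comb α g 1 (z (m + 1)) b) with hYb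
      have h3 : t ^ 4 < S ^ 3 := by
        calc t ^ 4 = t ^ 4 * 1 := (mul_one _).symm
          _ ≤ t ^ 4 * (Yb ^ 3 * t ^ 2) := mul_le_mul_right hb _
          _ = (t ^ 2 * Yb) ^ 3 := by
            rw [mul_left_comm, ← pow_add, mul_pow, ← pow_mul, mul_comm]
          _ < S ^ 3 := pow_lt_pow_left₀ h2 zero_le (by norm_num)
      have h4 : t ^ 8 < S ^ 6 := by
        calc t ^ 8 = (t ^ 4) ^ 2 := by rw [← pow_mul]
          _ < (S ^ 3) ^ 2 := pow_lt_pow_left₀ h3 zero_le (by norm_num)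
          _ = S ^ 6 := by rw [← pow_mul]
      have h5 : S ^ 6 ≤ t ^ 9 := by
        calc S ^ 6 = (S ^ 2) ^ 3 := by rw [← pow_mul]
          _ ≤ (t ^ 3) ^ 3 := pow_le_pow_left' hle' 3
          _ = t ^ 9 := by rw [← pow_mul]
      have h6 : t ^ 9 ≤ t ^ 8 := pow_le_pow_right_of_le_one' ht1.le (by norm_num)
      exact absurd (h5.trans h6) (not_le.2 h4)
    obtain ⟨R, hR⟩ := fin_aux hLOCT hKYT V H.vp (mT V 2) N₀ s₀ nu Q H.N0 H.cop H.nu1
      H.nuper hnuv hQs (k + 1) (max n₀ 3) hQp (fun x y => hsmall _ (hQk _ _)) α g hα hα1 hg hg1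
      (fun n hn b _ => hY n hn b)
    obtain ⟨a, b, c, d, hdet, hc, hd, hv⟩ := (hH1T V N₀ s₀ 2 nu P pi KI H
      (2 ^ (R + (s₀ + 1)) * N₀) (mul_ne_zero (pow_ne_zero _ (by norm_num)) hN0)
      (mul_dvd_mul_right (pow_dvd_pow 2 (Nat.le_add_left _ _)) _)).1
    have hdvd : (2 : ℤ) ^ R * (N₀ : ℤ) ∣ ((2 ^ (R + (s₀ + 1)) * N₀ : ℕ) : ℤ) := by
      push_cast
      exact mul_dvd_mul_right (pow_dvd_pow 2 (Nat.le_add_right _ _)) _
    have h1 := hR a b c d hdet (hdvd.trans hc) (hdvd.trans hd) ∞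
    obtain ⟨w1, hw1, e1⟩ := hQtyp ∞ (mob a b c d ∞)
    obtain ⟨w2, hw2, e2⟩ := hQtyp (mob 16 1 0 16 ∞) (mob 16 1 0 16 (mob a b c d ∞))
    have e3 : PTq 16 Q ∞ (mob a b c d ∞) = pi * (w1 - w2) := by
      unfold PTq
      rw [e1, e2]
      ring
    rw [mem_mT, e3] at h1
    rw [← hQ, e3] at hv
    have hww := (hTY (w1 - w2) (sub_mem hw1 hw2)).2.2.1 rfl hv
    exact absurd h1 (not_lt.2 ((hTY (w1 - w2) (sub_mem hw1 hw2)).2.1.2 hww))

end

end Pool.Agent.N2H
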