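import Pool.Agent.N2.StHU
import Pool.Agent.N2.H_HT
import Pool.Agent.MUX.HX_HK

/-!
# MUX-2R, block HU: glue (helper66)
-/

set_option autoImplicit false

namespace Pool.Agent.N2H

open _root_.MU3 Pool.Agent.MuSym Pool.Agent.MUXH Pool.Agent.N2 OnePoint

noncomputable section

namespace HUG

/-- the valuation ring as a submodule of `ℂ` -/
def mU (V : ValuationSubring ℂ) : Submodule V ℂ where
  carrier := {x | V.valuation x ≤ 1}
  add_mem' := by
    intro a b ha hb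
    have ha' : V.valuation a ≤ 1 := ha
    have hb' : V.valuation b ≤ 1 := hb
    exact (V.valuation.map_add a b).trans (max_le ha' hb')
  zero_mem' := by
    change V.valuation 0 ≤ 1
    rw [map_zero]
    exact zero_le_one
  smul_mem' := by
    intro c x hx
    change V.valuation ((c : ℂ) * x) ≤ 1
    rw [map_mul]
    exact mul_le_one' ((V.valuation_le_one_iff _).2 c.2) hx

lemma mem_mU {V : ValuationSubring ℂ} {x : ℂ} : x ∈ mU V ↔ V.valuation x ≤ 1 := Iff.rfl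

/-- from small combinations to vanishing cycles, translation by `1/32` -/
lemma fin_aux (hLOCT : St_LOCT) (hKYU : Su_KYU) (V : ValuationSubring ℂ)
    (hV : V.valuation (2 : ℂ) < 1) (m : Submodule V ℂ) (N₀ s : ℕ) (nu : ℤ → ℂ)
    (F : OnePoint ℚ → OnePoint ℚ → ℂ) (hN2 : 2 ≤ N₀) (hcop : Nat.Coprime 2 N₀) (hnu1 : nu 1 = 1)
    (hper : ∀ d d', ((8 * N₀ : ℕ) : ℤ) ∣ d - d' → nu d = nu d')
    (hunit : ∀ d, IsCoprime d ((2 * N₀ : ℕ) : ℤ) → V.valuation (nu d) = 1)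
    (hF : IsSym (2 ^ (s + 1) * N₀) nu F) (k n₁ : ℕ)
    (hFp : ∀ (r : ℚ) (k : ℤ), F ∞ ((r + k : ℚ) : OnePoint ℚ) = F ∞ (r : OnePoint ℚ))
    (hk : ∀ x y, (2 : ℂ) ^ k * F x y ∈ m) (α g : ℤ) (hα : (4 : ℤ) ∣ α - 1) (hα1 : α ≠ 1)
    (hg : (4 : ℤ) ∣ g - 1) (hg1 : g ≠ 1)
    (hall : ∀ n, n₁ ≤ n → ∀ b : ℤ, ¬ (2 : ℤ) ∣ b →
      comb α g 1 (fun b => F ∞ (((b : ℚ) / 2 ^ n : ℚ) : OnePoint ℚ)) b ∈ m) :
    ∃ R : ℕ, ∀ a b c d : ℤ, a * d - b * c = 1 → (2 : ℤ) ^ R * N₀ ∣ c →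
      (2 : ℤ) ^ R * N₀ ∣ d - 1 → ∀ x, PTq 32 F x (mob a b c d x) ∈ m := by
  let z : ℕ → ℤ → ℂ := fun n b => F ∞ (((b : ℚ) / 2 ^ n : ℚ) : OnePoint ℚ)
  have hzper : ∀ (n : ℕ) (b c : ℤ), (2 : ℤ) ^ n ∣ b - c → z n b = z n c := by
    rintro n b c ⟨t, ht⟩
    have e : ((b : ℚ) / 2 ^ n : ℚ) = (c : ℚ) / 2 ^ n + t := by
      have h3 : ((2 : ℚ) ^ n) ≠ 0 := by positivity
      have : (b : ℚ) = c + 2 ^ n * t := by
        have : (b : ℤ) = c + 2 ^ n * t := by linear_combination ht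
        exact_mod_cast this
      rw [this]
      field_simp
    change F ∞ (((b : ℚ) / 2 ^ n : ℚ) : OnePoint ℚ) = F ∞ (((c : ℚ) / 2 ^ n : ℚ) : OnePoint ℚ)
    rw [e]
    exact hFp _ t
  obtain ⟨r, hr⟩ := hLOCT V hV m z k n₁ hzper (fun n b => hk _ _) α g hα hα1 hg hg1 1 hall
  exact hKYU V hV m N₀ s nu F hN2 hcop hnu1 hper hunit hF r n₁ hr

/-- translations by integers -/
lemma sym_tr {N : ℕ} {nu : ℤ → ℂ} {P : OnePoint ℚ → OnePoint ℚ → ℂ} (hP : IsSym N nu P)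
    (hnu1 : nu 1 = 1) (r : ℚ) (k : ℤ) :
    P ∞ ((r + k : ℚ) : OnePoint ℚ) = P ∞ (r : OnePoint ℚ) := by
  have h := hP.equiv 1 k 0 1 (by ring) (dvd_zero _) ∞ (r : OnePoint ℚ)
  rw [hnu1, one_mul, MUXH.Hk.mob_inf, MUXH.Hk.mob_tr] at h
  exact h

end HUG

open HUG in
/-- (HU) -/
theorem tu_HU (hBDT : St_BDT) (hSHU : Su_SHU) (hH1U : Su_H1U) (hLOCT : St_LOCT)
    (hKYU : Su_KYU) (hDVU : Su_DVU) : Su_HU := by
  intro V N₀ s₀ nu P Pp pi KI om h H α g hα hα1 hg hg1 n₀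
  by_contra hcon
  push Not at hcon
  obtain ⟨k, hk⟩ := hBDT V H.vp P H.alg H.fin
  have hPp : ∀ (r : ℚ) (k : ℤ), P ∞ ((r + k : ℚ) : OnePoint ℚ) = P ∞ (r : OnePoint ℚ) :=
    fun r k => sym_tr H.sym H.nu1 r k
  set t := V.valuation (2 : ℂ) with ht
  set d := dH h with hd
  have ht0 : (0 : V.ValueGroup) < t := by
    rw [ht]
    exact zero_lt_iff.2 ((V.valuation.ne_zero_iff).2 two_ne_zero)
  have ht1 : t < 1 := H.vp
  have hpi : pi ≠ 0 := by
    rintro rfl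
    have := H.vpi
    rw [map_zero] at this
    exact zero_ne_one this
  -- arithmetic of the values
  have hTY : ∀ w ∈ KI, 1 < V.valuation w → 1 ≤ V.valuation w ^ 2 * t := by
    intro w hw h1
    have hw0 : w ≠ 0 := by
      rintro rfl
      rw [map_zero] at h1
      exact not_lt_zero h1
    have hv0 : V.valuation w ≠ 0 := (V.valuation.ne_zero_iff).2 hw0
    have h2 : V.valuation w⁻¹ < 1 := by
      rw [map_inv₀]
      exact inv_lt_one_of_one_lt₀ h1
    have h3 := H.unr w⁻¹ (inv_mem hw) h2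
    rw [map_inv₀, inv_pow] at h3
    calc (1 : V.ValueGroup) = V.valuation w ^ 2 * (V.valuation w ^ 2)⁻¹ :=
          (mul_inv_cancel₀ (pow_ne_zero 2 hv0)).symm
      _ ≤ V.valuation w ^ 2 * t := mul_le_mul_right h3 _
  obtain ⟨ϖ, hϖ, hϖv⟩ := H.hlf
  have hTY2 : ∀ w ∈ KI, 1 < V.valuation w ^ 2 * t → 1 ≤ V.valuation w ^ 2 * t ^ 2 := by
    intro w hw h1
    have e1 : V.valuation (w * ϖ) ^ 2 = V.valuation w ^ 2 * t := by
      rw [map_mul, mul_pow, hϖv]
    have h2 : 1 < V.valuation (w * ϖ) := by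
      by_contra h3
      rw [not_lt] at h3
      rw [← e1] at h1
      exact absurd h1 (not_lt.2 (pow_le_one' h3 2))
    have h3 := hTY (w * ϖ) (mul_mem hw hϖ) h2
    rw [e1, mul_assoc, ← sq] at h3
    exact h3
  -- the functions on the levels
  let z : ℕ → ℤ → ℂ := fun n b => P ∞ (((b : ℚ) / 2 ^ n : ℚ) : OnePoint ℚ)
  have hzper : ∀ (n : ℕ) (b c : ℤ), (2 : ℤ) ^ n ∣ b - c → z n b = z n c := by
    rintro n b c ⟨t, ht⟩
    have e : ((b : ℚ) / 2 ^ n : ℚ) = (c : ℚ) / 2 ^ n + t := by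
      have h3 : ((2 : ℚ) ^ n) ≠ 0 := by positivity
      have : (b : ℚ) = c + 2 ^ n * t := by
        have : (b : ℤ) = c + 2 ^ n * t := by linear_combination ht
        exact_mod_cast this
      rw [this]
      field_simp
    change P ∞ (((b : ℚ) / 2 ^ n : ℚ) : OnePoint ℚ) = P ∞ (((c : ℚ) / 2 ^ n : ℚ) : OnePoint ℚ)
    rw [e]
    exact hPp _ t
  have hzrel : ∀ (n : ℕ) (b : ℤ), z (n + 3) (b + 2 ^ (n + 1)) -
      (om + om ^ h) * z (n + 3) (b + 2 ^ n) + om ^ (1 + h) * z (n + 3) b = 0 := by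
    intro n b
    have h0 := H.rel ((b : ℚ) / 2 ^ (n + 3))
    have h3 : ((2 : ℚ) ^ n) ≠ 0 := by positivity
    have e1 : ((b : ℚ) / 2 ^ (n + 3) + 1 / 4 : ℚ) =
        ((b + 2 ^ (n + 1) : ℤ) : ℚ) / 2 ^ (n + 3) := by
      push_cast
      rw [pow_add, pow_add]
      field_simp
      ring
    have e2 : ((b : ℚ) / 2 ^ (n + 3) + 1 / 8 : ℚ) =
        ((b + 2 ^ n : ℤ) : ℚ) / 2 ^ (n + 3) := by
      push_cast
      rw [pow_add]
      field_simp
      ring
    rw [e1, e2] at h0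
    exact h0
  have hztyp : ∀ n b, ∃ w ∈ KI, z n b = pi * w := fun n b => H.typ _ _
  have hint : ∀ a : ℤ, (a : ℂ) ∈ KI := fun a => intCast_mem KI a
  have hYtyp : ∀ n b, ∃ w ∈ KI, comb α g 1 (z n) b = pi * w := by
    intro n b
    choose w hw hw' using hztyp n
    refine ⟨∑ j ∈ Finset.range (1 + 1), ((-1 : ℂ) ^ (1 - j) * ((1 : ℕ).choose j : ℂ)) *
      ((α : ℂ) * w (g ^ (1 - j) * b) - (α : ℂ) ^ 2 * w (g ^ (1 - j) * α ^ 2 * b)), ?_, ?_⟩
    · refine sum_mem fun j _ => mul_mem (mul_mem (pow_mem (neg_mem (one_mem _)) _)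
        (natCast_mem KI _)) (sub_mem (mul_mem (hint α) (hw _))
        (mul_mem (pow_mem (hint α) 2) (hw _)))
    · unfold comb
      rw [Finset.mul_sum]
      refine Finset.sum_congr rfl fun j _ => ?_
      rw [hw', hw']
      ring
  have hYper : ∀ n, ∀ b c : ℤ, (2 : ℤ) ^ n ∣ b - c →
      comb α g 1 (z n) b = comb α g 1 (z n) c := by
    intro n b c hbc
    unfold comb
    refine Finset.sum_congr rfl fun j _ => ?_
    rw [hzper n (g ^ (1 - j) * b) (g ^ (1 - j) * c) (by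
        rw [← mul_sub]; exact hbc.mul_left _),
      hzper n (g ^ (1 - j) * α ^ 2 * b) (g ^ (1 - j) * α ^ 2 * c) (by
        rw [← mul_sub]; exact hbc.mul_left _)]
  have hpow : ∀ (u : ℤ), (8 : ℤ) ∣ u - 1 → ∀ j : ℕ, (8 : ℤ) ∣ u ^ j - 1 := by
    intro u hu j
    have := sub_dvd_pow_sub_pow u 1 j
    rw [one_pow] at this
    exact hu.trans this
  -- a shift by `2^e`, `n ≤ e + 3`
  have hshift : ∀ (n e : ℕ), n ≤ e + 3 → ∀ (u : ℤ), (8 : ℤ) ∣ u - 1 → ∀ b : ℤ,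
      z n (u * (b + 2 ^ e)) = z n (u * b + 2 ^ e) := by
    intro n e hne u hu b
    refine hzper _ _ _ ?_
    obtain ⟨w, hw⟩ := hu
    have e1 : u * (b + 2 ^ e) - (u * b + 2 ^ e) = 2 ^ (e + 3) * w := by
      have : u = 1 + 8 * w := by linear_combination hw
      rw [this, pow_add]
      ring
    rw [e1]
    exact (pow_dvd_pow 2 hne).mul_right _
  have hgα : ∀ j : ℕ, (8 : ℤ) ∣ g ^ j * α ^ 2 - 1 := by
    intro j
    have e : g ^ j * α ^ 2 - 1 = (g ^ j - 1) * α ^ 2 + (α ^ 2 - 1) := by ring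
    rw [e]
    exact dvd_add ((hpow g hg _).mul_right _) (hpow α hα 2)
  have hYrel : ∀ (m : ℕ) (b : ℤ), comb α g 1 (z (m + 3)) (b + 2 ^ (m + 1)) -
      (om + om ^ h) * comb α g 1 (z (m + 3)) (b + 2 ^ m) +
        om ^ (1 + h) * comb α g 1 (z (m + 3)) b = 0 := by
    intro m b
    unfold comb
    rw [Finset.mul_sum, Finset.mul_sum, ← Finset.sum_sub_distrib, ← Finset.sum_add_distrib]
    refine Finset.sum_eq_zero fun j _ => ?_
    rw [hshift (m + 3) (m + 1) (by omega) _ (hpow g hg (1 - j)) b,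
      hshift (m + 3) (m + 1) (by omega) _ (hgα (1 - j)) b,
      hshift (m + 3) m (by omega) _ (hpow g hg (1 - j)) b,
      hshift (m + 3) m (by omega) _ (hgα (1 - j)) b]
    have h1 := hzrel m (g ^ (1 - j) * b)
    have h2 := hzrel m (g ^ (1 - j) * α ^ 2 * b)
    linear_combination ((-1 : ℂ) ^ (1 - j) * ((1 : ℕ).choose j : ℂ)) * ((α : ℂ) * h1 -
      (α : ℂ) ^ 2 * h2)
  have hYdiv : ∀ n, ∀ b b' : ℤ, comb α g 1 (z n) b' ≠ 0 →
      comb α g 1 (z n) b / comb α g 1 (z n) b' ∈ KI := by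
    intro n b b' hb'
    obtain ⟨w, hw, e⟩ := hYtyp n b
    obtain ⟨w', hw', e'⟩ := hYtyp n b'
    rw [e, e', mul_div_mul_left _ _ hpi]
    exact div_mem hw hw'
  have hvpi : ∀ w, V.valuation (pi * w) = V.valuation w := by
    intro w
    rw [map_mul, H.vpi, one_mul]
  have hnuv : ∀ d, IsCoprime d ((2 * N₀ : ℕ) : ℤ) → V.valuation (nu d) = 1 := by
    intro d hd
    have hd8 : IsCoprime d ((8 * N₀ : ℕ) : ℤ) := by
      have h1 : IsCoprime d (2 : ℤ) := hd.of_isCoprime_of_dvd_right (by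
        push_cast
        exact dvd_mul_right _ _)
      have h2 : IsCoprime d (N₀ : ℤ) := hd.of_isCoprime_of_dvd_right (by
        push_cast
        exact dvd_mul_left _ _)
      have h3 : IsCoprime d ((2 : ℤ) ^ 3) := h1.pow_right
      have e : ((8 * N₀ : ℕ) : ℤ) = (2 : ℤ) ^ 3 * N₀ := by push_cast; norm_num
      rw [e]
      exact h3.mul_right h2
    obtain ⟨a, b, hab⟩ := hd8
    have h1 : nu (d * a) = nu 1 := H.nuper _ _ ⟨-b, by linear_combination hab⟩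
    rw [H.num, H.nu1] at h1
    refine le_antisymm (H.nuv d) ?_
    have h2 : V.valuation (nu d) * V.valuation (nu a) = 1 := by
      rw [← map_mul, h1, map_one]
    calc (1 : V.ValueGroup) = V.valuation (nu d) * V.valuation (nu a) := h2.symm
      _ ≤ V.valuation (nu d) * 1 := by
        exact mul_le_mul_right (H.nuv a) _
      _ = V.valuation (nu d) := mul_one _
  have hN0 : N₀ ≠ 0 := by have := H.N0; omega
  -- the values of the combinations
  have hY1 : ∀ n, max n₀ 3 ≤ n → ∀ b, V.valuation (comb α g 1 (z n) b) ^ 2 * t ≤ 1 := by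
    intro n hn b
    obtain ⟨m, rfl⟩ : ∃ m, n = m + 3 := ⟨n - 3, by omega⟩
    by_contra hb
    rw [not_le] at hb
    obtain ⟨ζ, hζ, hζ2, hle⟩ := hcon (m + 3) (by omega)
    obtain ⟨w, hw, e⟩ := hYtyp (m + 3) b
    have hY0 : comb α g 1 (z (m + 3)) b ≠ 0 := by
      intro h0
      rw [h0, map_zero, zero_pow (by norm_num), zero_mul] at hb
      exact not_lt_zero hb
    have hv : V.valuation (comb α g 1 (z (m + 3)) b) = V.valuation w := by rw [e, hvpi]
    rw [hv] at hb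
    have h1 := hTY2 w hw hb
    have hζ3 : ζ ^ 2 ^ m * om = 1 := by
      rw [Nat.add_sub_cancel] at hζ2
      exact hζ2
    have h2 := (hDVU V H.vp KI H.unr om H.om8 h H.hh m (comb α g 1 (z (m + 3)))
      (hYper (m + 3)) (hYrel m) (hYdiv (m + 3)) b hY0 ζ hζ hζ3).1
    set S := V.valuation (∑ b ∈ Finset.range (2 ^ (m + 3)), ζ ^ b *
        comb α g 1 (z (m + 3)) b) with hS
    have hle' : S ^ 4 ≤ t ^ (2 * d + 3) := hle
    rw [hv] at h2
    have h3 : t ^ (d + 1) < S ^ 2 := by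
      calc t ^ (d + 1) = t ^ (d + 1) * 1 := (mul_one _).symm
        _ ≤ t ^ (d + 1) * (V.valuation w ^ 2 * t ^ 2) := mul_le_mul_right h1 _
        _ = t ^ (d + 3) * V.valuation w ^ 2 := by
          rw [show d + 3 = (d + 1) + 2 from rfl, pow_add t (d + 1) 2]
          ac_rfl
        _ < S ^ 2 := h2
    have h4 : t ^ (2 * d + 3) < S ^ 4 := by
      calc t ^ (2 * d + 3) ≤ t ^ (2 * d + 2) :=
            pow_le_pow_right_of_le_one' ht1.le (by omega)
        _ = (t ^ (d + 1)) ^ 2 := by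
          rw [← pow_mul]
          congr 1
          ring
        _ < (S ^ 2) ^ 2 := pow_lt_pow_left₀ h3 zero_le (by norm_num)
        _ = S ^ 4 := by rw [← pow_mul]
    exact absurd hle' (not_le.2 h4)
  have hY2 : ∀ n, max n₀ 3 ≤ n → ∀ b, comb α g 1 (z n) b -
      comb α g 1 (z n) (b + 2 ^ (n - 3)) ∈ mU V := by
    intro n hn b₁
    obtain ⟨m, rfl⟩ : ∃ m, n = m + 3 := ⟨n - 3, by omega⟩
    by_contra hb
    rw [mem_mU, not_le] at hb
    obtain ⟨ζ, hζ, hζ2, hle⟩ := hcon (m + 3) (by omega)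
    rw [Nat.add_sub_cancel] at hb hζ2
    obtain ⟨w, hw, e⟩ := hYtyp (m + 3) b₁
    obtain ⟨w', hw', e'⟩ := hYtyp (m + 3) (b₁ + 2 ^ m)
    have e1 : comb α g 1 (z (m + 3)) b₁ - comb α g 1 (z (m + 3)) (b₁ + 2 ^ m) =
        pi * (w - w') := by
      rw [e, e']
      ring
    rw [e1, hvpi] at hb
    have hww : 1 ≤ V.valuation (w - w') ^ 2 * t := hTY (w - w') (sub_mem hw hw') hb
    have hD : V.valuation (comb α g 1 (z (m + 3)) (b₁ + 2 ^ m) -
        comb α g 1 (z (m + 3)) b₁) = V.valuation (w - w') := by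
      rw [Valuation.map_sub_swap, e1, hvpi]
    have hsqle : ∀ a b : V.ValueGroup, a ^ 2 ≤ b ^ 2 → a ≤ b := by
      intro a b hab
      by_contra hc
      rw [not_le] at hc
      exact absurd hab (not_le.2 (pow_lt_pow_left₀ hc zero_le (by norm_num)))
    have hmax : ∀ b, V.valuation (comb α g 1 (z (m + 3)) b) ≤
        V.valuation (comb α g 1 (z (m + 3)) (b₁ + 2 ^ m) - comb α g 1 (z (m + 3)) b₁) := by
      intro b
      rw [hD]
      refine hsqle _ _ ?_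
      have h1 : V.valuation (comb α g 1 (z (m + 3)) b) ^ 2 * t ≤ V.valuation (w - w') ^ 2 * t :=
        (hY1 (m + 3) hn b).trans hww
      exact le_of_mul_le_mul_right h1 ht0
    -- one of the two values is large
    obtain ⟨b₀, hb₀, hb₀1⟩ : ∃ b₀, comb α g 1 (z (m + 3)) b₀ ≠ 0 ∧
        1 ≤ V.valuation (comb α g 1 (z (m + 3)) b₀) ^ 2 * t := by
      have h1 : V.valuation (w - w') ≤ max (V.valuation w) (V.valuation w') :=
        V.valuation.map_sub _ _
      rcases le_total (V.valuation w) (V.valuation w') with h2 | h2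
      · rw [max_eq_right h2] at h1
        have h3 : 1 ≤ V.valuation w' ^ 2 * t :=
          hww.trans (mul_le_mul_left (pow_le_pow_left' h1 2) _)
        refine ⟨b₁ + 2 ^ m, ?_, ?_⟩
        · intro h0
          rw [e'] at h0
          have h4 : w' = 0 := by
            rcases mul_eq_zero.1 h0 with h5 | h5
            · exact absurd h5 hpi
            · exact h5
          rw [h4, map_zero, zero_pow (by norm_num), zero_mul] at h3
          exact absurd h3 (not_le.2 zero_lt_one)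
        · rw [e', hvpi]
          exact h3
      · rw [max_eq_left h2] at h1
        have h3 : 1 ≤ V.valuation w ^ 2 * t :=
          hww.trans (mul_le_mul_left (pow_le_pow_left' h1 2) _)
        refine ⟨b₁, ?_, ?_⟩
        · intro h0
          rw [e] at h0
          have h4 : w = 0 := by
            rcases mul_eq_zero.1 h0 with h5 | h5
            · exact absurd h5 hpi
            · exact h5
          rw [h4, map_zero, zero_pow (by norm_num), zero_mul] at h3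
          exact absurd h3 (not_le.2 zero_lt_one)
        · rw [e, hvpi]
          exact h3
    have h2 := (hDVU V H.vp KI H.unr om H.om8 h H.hh m (comb α g 1 (z (m + 3)))
      (hYper (m + 3)) (hYrel m) (hYdiv (m + 3)) b₀ hb₀ ζ hζ hζ2).2 b₁ hmax
    set Yb := V.valuation (comb α g 1 (z (m + 3)) b₀) with hYb
    have h4 : t ^ (2 * d + 3) < V.valuation (∑ b ∈ Finset.range (2 ^ (m + 3)), ζ ^ b *
        comb α g 1 (z (m + 3)) b) ^ 4 := by
      refine lt_of_le_of_lt ?_ h2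
      calc t ^ (2 * d + 3) = t ^ (2 * d + 3) * 1 := (mul_one _).symm
        _ ≤ t ^ (2 * d + 3) * (Yb ^ 2 * t) ^ 2 :=
            mul_le_mul_right (one_le_pow_of_one_le' hb₀1 2) _
        _ = t ^ (2 * d + 5) * Yb ^ 4 := by
            rw [mul_pow, ← pow_mul, show 2 * d + 5 = (2 * d + 3) + 2 from rfl,
              pow_add t (2 * d + 3) 2]
            ac_rfl
    exact absurd hle (not_le.2 h4)
  -- the symbol `Q' = PTq 8 P`
  have hQ's : IsSym (2 ^ (s₀ + 6 + 1) * N₀) nu (PTq 8 P) := hSHU N₀ s₀ nu P H.nuper H.sym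
  have hQ'eq : ∀ n, 3 ≤ n → ∀ b : ℤ, PTq 8 P ∞ (((b : ℚ) / 2 ^ n : ℚ) : OnePoint ℚ) =
      z n b - z n (b + 2 ^ (n - 3)) := by
    intro n hn b
    obtain ⟨m, rfl⟩ : ∃ m, n = m + 3 := ⟨n - 3, by omega⟩
    unfold PTq
    rw [MUXH.H1.mob_inf, HTG.mob_trq 8 (by norm_num)]
    have e : ((b : ℚ) / 2 ^ (m + 3) + 1 / ((8 : ℤ) : ℚ) : ℚ) =
        ((b + 2 ^ (m + 3 - 3) : ℤ) : ℚ) / 2 ^ (m + 3) := by
      have h3 : ((2 : ℚ) ^ m) ≠ 0 := by positivity
      rw [Nat.add_sub_cancel]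
      push_cast
      rw [pow_add]
      field_simp
      ring
    rw [e]
  have hQ'p : ∀ (r : ℚ) (k : ℤ), PTq 8 P ∞ ((r + k : ℚ) : OnePoint ℚ) =
      PTq 8 P ∞ (r : OnePoint ℚ) := by
    intro r k
    unfold PTq
    rw [MUXH.H1.mob_inf, HTG.mob_trq 8 (by norm_num), HTG.mob_trq 8 (by norm_num), hPp]
    have e : (r + k + 1 / ((8 : ℤ) : ℚ) : ℚ) = r + 1 / ((8 : ℤ) : ℚ) + k := by ring
    rw [e, hPp]
  have hα4 : (4 : ℤ) ∣ α - 1 := (show (4 : ℤ) ∣ 8 by norm_num).trans hα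
  have hg4 : (4 : ℤ) ∣ g - 1 := (show (4 : ℤ) ∣ 8 by norm_num).trans hg
  obtain ⟨R, hR⟩ := fin_aux hLOCT hKYU V H.vp (mU V) N₀ (s₀ + 6) nu (PTq 8 P) H.N0 H.cop H.nu1
    H.nuper hnuv hQ's k (max n₀ 3) hQ'p (by
      intro x y
      unfold PTq
      rw [mul_sub]
      exact sub_mem (hk _ _) (hk _ _)) α g hα4 hα1 hg4 hg1 (by
      intro n hn b _
      have h2 := hY2 n hn b
      have e : comb α g 1 (fun b => PTq 8 P ∞ (((b : ℚ) / 2 ^ n : ℚ) : OnePoint ℚ)) b =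
          comb α g 1 (z n) b - comb α g 1 (z n) (b + 2 ^ (n - 3)) := by
        unfold comb
        rw [← Finset.sum_sub_distrib]
        refine Finset.sum_congr rfl fun j _ => ?_
        rw [hshift n (n - 3) (by omega) _ (hpow g hg (1 - j)) b,
          hshift n (n - 3) (by omega) _ (hgα (1 - j)) b]
        beta_reduce
        rw [hQ'eq n (by omega), hQ'eq n (by omega)]
        ring
      rw [e]
      exact h2)
  obtain ⟨a, b, c, d', hdet, hc, hd', hv⟩ := hH1U V N₀ s₀ nu P Pp pi KI om h H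
    (2 ^ (R + (s₀ + 1)) * N₀) (mul_ne_zero (pow_ne_zero _ (by norm_num)) hN0)
    (mul_dvd_mul_right (pow_dvd_pow 2 (Nat.le_add_left _ _)) _)
  have hdvd : (2 : ℤ) ^ R * (N₀ : ℤ) ∣ ((2 ^ (R + (s₀ + 1)) * N₀ : ℕ) : ℤ) := by
    push_cast
    exact mul_dvd_mul_right (pow_dvd_pow 2 (Nat.le_add_right _ _)) _
  have h1 := hR a b c d' hdet (hdvd.trans hc) (hdvd.trans hd') ∞
  rw [mem_mU] at h1
  exact absurd hv (not_lt.2 h1)

end

end Pool.Agent.N2H
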