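import Pool.Agent.N2.StHT
import Pool.Agent.MUX.HX_HZ

/-!
# MUX-2N, block HT, module DVT (helper11)

The character sums of a depleted function with values of one type: `tt_DVT : St_DVT`. Twin of `MUX/HN_DVN.lean`.
-/

set_option autoImplicit false

namespace Pool.Agent.N2H

open _root_.MU3 Pool.Agent.MuSym Pool.Agent.MUXH Pool.Agent.N2 OnePoint

noncomputable section

open Pool.Agent.MUXH.Hz in
theorem tt_DVT : St_DVT := by
  intro V hV K hK n hn y hper hneg hyK b₀ hb₀ ζ hζ
  obtain ⟨m, rfl⟩ : ∃ m, n = m + 1 := ⟨n - 1, by omega⟩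
  rw [Nat.add_sub_cancel]
  obtain ⟨e, he⟩ : ∃ e : ℕ, e = 2 ^ m := ⟨_, rfl⟩
  obtain ⟨q, hq⟩ : ∃ q : ℕ, q = 2 ^ (m + 1) := ⟨_, rfl⟩
  have hqe : q = 2 * e := by rw [hq, he, pow_succ]; ring
  have hepos : 0 < e := by rw [he]; positivity
  have hqpos : 0 < q := by omega
  have hN : 2 ^ (m + 1 + 1) = 2 * q := by rw [hq, pow_succ]; ring
  have hNz : (2 : ℤ) ^ (m + 1 + 1) = ((2 * q : ℕ) : ℤ) := by rw [← hN]; push_cast; rfl
  have ht0 : (0 : V.ValueGroup) < V.valuation (2 : ℂ) :=
    lt_of_le_of_ne zero_le ((Valuation.ne_zero_iff _).2 (by norm_num)).symm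
  have hnegN : ∀ b : ℕ, y ((b + q : ℕ) : ℤ) = -y b := by
    intro b
    rw [← hneg b, hq]
    push_cast
    rfl
  have hnegZ : ∀ b : ℤ, y (b + 2 ^ m + 2 ^ m) = -y b := by
    intro b
    rw [← hneg b]
    congr 1
    rw [pow_succ]
    ring
  have red : ∀ b : ℤ, ∃ c : ℕ, c < 2 * q ∧ (2 : ℤ) ^ (m + 1 + 1) ∣ b - c := by
    intro b
    have hpos : (0 : ℤ) < (2 : ℤ) ^ (m + 1 + 1) := by positivity
    have h0 := Int.emod_nonneg b hpos.ne'
    have h1 := Int.emod_lt_of_pos b hpos
    refine ⟨(b % (2 : ℤ) ^ (m + 1 + 1)).toNat, ?_, ?_⟩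
    · have h3 : (((b % (2 : ℤ) ^ (m + 1 + 1)).toNat : ℕ) : ℤ) < ((2 * q : ℕ) : ℤ) := by
        rw [Int.toNat_of_nonneg h0, ← hNz]
        exact h1
      exact_mod_cast h3
    · rw [Int.toNat_of_nonneg h0]
      have := Int.emod_add_mul_ediv b ((2 : ℤ) ^ (m + 1 + 1))
      exact ⟨b / (2 : ℤ) ^ (m + 1 + 1), by linarith⟩
  -- the maximal value
  obtain ⟨bs, hbs, hmax⟩ := Finset.exists_max_image (Finset.range q)
    (fun b : ℕ => V.valuation (y b)) ⟨0, Finset.mem_range.2 hqpos⟩
  have hall : ∀ b : ℤ, V.valuation (y b) ≤ V.valuation (y bs) := by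
    intro b
    obtain ⟨c, hc, hcb⟩ := red b
    rw [hper _ _ hcb]
    rcases lt_or_ge c q with h | h
    · exact hmax c (Finset.mem_range.2 h)
    · have h1 : c = (c - q) + q := by omega
      rw [h1, hnegN, Valuation.map_neg]
      exact hmax _ (Finset.mem_range.2 (by omega))
  have hvb0 : (0 : V.ValueGroup) < V.valuation (y b₀) :=
    lt_of_le_of_ne zero_le ((Valuation.ne_zero_iff _).2 hb₀).symm
  have hvs0 : (0 : V.ValueGroup) < V.valuation (y bs) := lt_of_lt_of_le hvb0 (hall b₀)
  have hys0 : y bs ≠ 0 := fun h => by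
    rw [h, map_zero] at hvs0
    exact lt_irrefl _ hvs0
  obtain ⟨W, hWdef⟩ : ∃ W : ℕ → ℂ, ∀ b, W b = y b / y bs := ⟨_, fun _ => rfl⟩
  have hWK : ∀ b, W b ∈ K := fun b => by
    rw [hWdef]
    exact hyK b bs hys0
  have hW1 : ∀ b, V.valuation (W b) ≤ 1 := by
    intro b
    rw [hWdef, map_div₀]
    exact div_le_one_of_le₀ (hall b) zero_le
  have hWs : W bs = 1 := by
    rw [hWdef]
    exact div_self hys0
  have hyW : ∀ b : ℕ, y b = y bs * W b := by
    intro b
    rw [hWdef]
    field_simp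
  obtain ⟨c, hc⟩ : ∃ c : ℕ → ℂ, ∀ k, c k =
      ∑ b ∈ Finset.range q, ((b.choose k : ℕ) : ℂ) * W b := ⟨_, fun _ => rfl⟩
  have hcK : ∀ k, c k ∈ K := fun k => by
    rw [hc]
    exact sum_mem fun b _ => mul_mem (natCast_mem K _) (hWK _)
  have hc1 : ∀ k, V.valuation (c k) ≤ 1 := fun k => by
    rw [hc]
    refine Valuation.map_sum_le _ fun b _ => ?_
    rw [map_mul]
    exact mul_le_one' (val_nat V _) (hW1 _)
  have hnewton : ∀ f : ℕ → ℤ, ∑ b ∈ Finset.range q, (f b : ℂ) * W b =
      ∑ k ∈ Finset.range q, (((fwdDiff 1)^[k] f 0 : ℤ) : ℂ) * c k := by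
    intro f
    rw [newton q W f]
    refine Finset.sum_congr rfl fun k _ => ?_
    rw [hc]
  have hex1 : ∃ k, k < q ∧ V.valuation (c k) = 1 := by
    by_contra hcon
    have hlt : ∀ k < q, V.valuation (c k) < 1 := fun k hk =>
      lt_of_le_of_ne (hc1 k) fun h => hcon ⟨k, hk, h⟩
    have h1 := hnewton (fun b => if b = bs then 1 else 0)
    have h2 : ∑ b ∈ Finset.range q, (((if b = bs then 1 else 0 : ℤ)) : ℂ) * W b
        = W bs := by
      rw [Finset.sum_eq_single bs]
      · simp
      · intro b _ hb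
        rw [if_neg hb]
        simp
      · intro h
        exact absurd hbs h
    rw [h2] at h1
    have h3 : V.valuation (W bs) < 1 := by
      rw [h1]
      refine Valuation.map_sum_lt _ one_ne_zero fun k hk => ?_
      rw [map_mul]
      exact lt_of_le_of_lt (mul_le_of_le_one_left' (val_int V _))
        (hlt k (Finset.mem_range.1 hk))
    rw [hWs, map_one] at h3
    exact lt_irrefl _ h3
  classical
  obtain ⟨hk₀, hk₁⟩ := Nat.find_spec hex1
  obtain ⟨k₀, hk₀def⟩ : ∃ k₀, k₀ = Nat.find hex1 := ⟨_, rfl⟩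
  rw [← hk₀def] at hk₀ hk₁
  have hmin1 : ∀ k < k₀, V.valuation (c k) < 1 := by
    intro k hk
    refine lt_of_le_of_ne (hc1 k) fun h => ?_
    rw [hk₀def] at hk
    exact Nat.find_min hex1 hk ⟨lt_trans hk (by rw [← hk₀def]; exact hk₀), h⟩
  have hmin : ∀ k < k₀, V.valuation (c k) ≤ V.valuation (2 : ℂ) := fun k hk =>
    hK _ (hcK k) (hmin1 k hk)
  -- the valuation of `ζ - 1`
  have hx : V.valuation (ζ - 1) ^ q = V.valuation (2 : ℂ) := by
    have := val_p 2 Nat.prime_two V (m + 1) ζ hζ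
    rw [show 2 ^ (m + 1) * (2 - 1) = q by rw [hq]; omega] at this
    simpa using this
  obtain ⟨x, hxdef⟩ : ∃ x, x = V.valuation (ζ - 1) := ⟨_, rfl⟩
  rw [← hxdef] at hx
  have hx0 : 0 < x := by
    rw [hxdef]
    refine lt_of_le_of_ne zero_le fun h => ?_
    rw [hxdef, ← h, zero_pow (by omega)] at hx
    exact ht0.ne hx
  have hx1 : x < 1 := by
    by_contra h
    have h1 : 1 ≤ x := not_lt.1 h
    have : 1 ≤ x ^ q := one_le_pow₀ h1
    rw [hx] at this
    exact absurd this (not_le.2 hV)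
  have hval : V.valuation (∑ b ∈ Finset.range q, ζ ^ b * W b) = x ^ k₀ := by
    rw [shift_pow q W ζ]
    have hsc : ∑ k ∈ Finset.range q, (ζ - 1) ^ k *
        ∑ b ∈ Finset.range q, ((b.choose k : ℕ) : ℂ) * W b =
        ∑ k ∈ Finset.range q, (ζ - 1) ^ k * c k :=
      Finset.sum_congr rfl fun k _ => by rw [hc]
    rw [hsc]
    have hk₀N : k₀ ∈ Finset.range q := Finset.mem_range.2 hk₀
    rw [← Finset.add_sum_erase _ _ hk₀N]
    have ha : V.valuation ((ζ - 1) ^ k₀ * c k₀) = x ^ k₀ := by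
      rw [map_mul, map_pow, hk₁, mul_one, hxdef]
    have hb : V.valuation (∑ k ∈ (Finset.range q).erase k₀, (ζ - 1) ^ k * c k)
        < x ^ k₀ := by
      refine Valuation.map_sum_lt _ (pow_pos hx0 k₀).ne' fun k hk => ?_
      have hne := Finset.ne_of_mem_erase hk
      rw [map_mul, map_pow, ← hxdef]
      rcases lt_or_gt_of_ne hne with hlt | hgt
      · refine lt_of_le_of_lt (mul_le_of_le_one_left' (pow_le_one' hx1.le k)) ?_
        refine lt_of_le_of_lt (hmin k hlt) ?_
        rw [← hx]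
        exact pow_lt_pow_right_of_lt_one₀ hx0 hx1 hk₀
      · refine lt_of_le_of_lt (mul_le_of_le_one_right' (hc1 k)) ?_
        exact pow_lt_pow_right_of_lt_one₀ hx0 hx1 hgt
    have := Valuation.map_add_eq_of_lt_left V.valuation (x := (ζ - 1) ^ k₀ * c k₀)
      (y := ∑ k ∈ (Finset.range q).erase k₀, (ζ - 1) ^ k * c k) (by rw [ha]; exact hb)
    rw [this, ha]
  have hζq : ζ ^ q = -1 := by
    have h1 : IsPrimitiveRoot (ζ ^ q) 2 := by
      refine hζ.pow (by positivity) ?_
      rw [hN]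
      ring
    exact h1.eq_neg_one_of_two_right
  -- the sum
  have hsum : ∑ b ∈ Finset.range (2 ^ (m + 1 + 1)), ζ ^ b * y b =
      2 * (y bs * ∑ b ∈ Finset.range q, ζ ^ b * W b) := by
    rw [hN, show 2 * q = q + q by ring, Finset.sum_range_add]
    have h1 : ∀ b ∈ Finset.range q, ζ ^ (q + b) * y ((q + b : ℕ) : ℤ) = ζ ^ b * y b := by
      intro b _
      rw [pow_add, hζq, add_comm q b, hnegN]
      ring
    have h2 : ∑ b ∈ Finset.range q, ζ ^ b * y b =
        y bs * ∑ b ∈ Finset.range q, ζ ^ b * W b := by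
      rw [Finset.mul_sum]
      refine Finset.sum_congr rfl fun b _ => ?_
      rw [hyW b]
      ring
    rw [Finset.sum_congr rfl h1, h2]
    ring
  have hvsum : V.valuation (∑ b ∈ Finset.range (2 ^ (m + 1 + 1)), ζ ^ b * y b) =
      V.valuation (2 : ℂ) * V.valuation (y bs) * x ^ k₀ := by
    rw [hsum, map_mul, map_mul, hval, mul_assoc]
  rw [hvsum]
  constructor
  · have h2 : V.valuation (2 : ℂ) < x ^ k₀ := by
      conv_lhs => rw [← hx]
      exact pow_lt_pow_right_of_lt_one₀ hx0 hx1 hk₀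
    calc V.valuation (2 : ℂ) ^ 2 * V.valuation (y b₀)
        ≤ V.valuation (2 : ℂ) ^ 2 * V.valuation (y bs) := mul_le_mul_right (hall b₀) _
      _ = V.valuation (2 : ℂ) * V.valuation (y bs) * V.valuation (2 : ℂ) := by
          rw [pow_two, mul_assoc, mul_assoc, mul_comm (V.valuation (y bs)) (V.valuation (2 : ℂ))]
      _ < V.valuation (2 : ℂ) * V.valuation (y bs) * x ^ k₀ :=
          mul_lt_mul_of_pos_left h2 (mul_pos ht0 hvs0)
  · intro b₁ hb₁
    have hke : k₀ < e := by
      by_contra hcon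
      have hlt : ∀ k < e, V.valuation (c k) < 1 := fun k hk =>
        hmin1 k (lt_of_lt_of_le hk (not_lt.1 hcon))
      -- `W r + W (r + e)` is small
      have hS0 : ∀ r : ℕ, r < e → V.valuation (W r + W (r + e)) < 1 := by
        intro r hr
        have h1 := hnewton (fun b => if b % 2 ^ m = r then 1 else 0)
        have h2 : ∑ b ∈ Finset.range q, (((if b % 2 ^ m = r then 1 else 0 : ℤ)) : ℂ) * W b
            = W r + W (r + e) := by
          rw [hqe, show 2 * e = e + e by ring, Finset.sum_range_add]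
          congr 1
          · rw [Finset.sum_eq_single r]
            · rw [Nat.mod_eq_of_lt (by rw [← he]; exact hr)]
              simp
            · intro b hb hbr
              rw [Nat.mod_eq_of_lt (by rw [← he]; exact Finset.mem_range.1 hb), if_neg hbr]
              simp
            · intro h
              exact absurd (Finset.mem_range.2 hr) h
          · rw [Finset.sum_eq_single r]
            · rw [← he, Nat.add_mod_left, Nat.mod_eq_of_lt hr, add_comm e r]
              simp
            · intro b hb hbr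
              rw [← he, Nat.add_mod_left, Nat.mod_eq_of_lt (Finset.mem_range.1 hb), if_neg hbr]
              simp
            · intro h
              exact absurd (Finset.mem_range.2 hr) h
        rw [h2] at h1
        rw [h1]
        refine Valuation.map_sum_lt _ one_ne_zero fun k _ => ?_
        rw [map_mul]
        rcases lt_or_ge k e with hk | hk
        · exact lt_of_le_of_lt (mul_le_of_le_one_left' (val_int V _)) (hlt k hk)
        · have h5 := dvd_diff 2 Nat.prime_two m (fun b => if b % 2 ^ m = r then 1 else 0)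
            (fun b => by simp) k (by rw [← he]; exact hk) 0
          obtain ⟨w, hw⟩ := h5
          rw [hw]
          push_cast
          rw [map_mul]
          refine lt_of_le_of_lt (mul_le_of_le_one_right' (hc1 k)) ?_
          exact lt_of_le_of_lt (mul_le_of_le_one_right' (val_int V _)) hV
      have hS1 : ∀ r : ℕ, r < e →
          V.valuation (y (r : ℤ) + y ((r : ℤ) + 2 ^ m)) < V.valuation (y bs) := by
        intro r hr
        have h1 : (r : ℤ) + 2 ^ m = ((r + e : ℕ) : ℤ) := by rw [he]; push_cast; rfl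
        rw [h1, hyW r, hyW (r + e), ← mul_add, map_mul]
        exact mul_lt_of_lt_one_right hvs0 (hS0 r hr)
      have hS2 : ∀ b : ℤ, V.valuation (y b + y (b + 2 ^ m)) < V.valuation (y bs) →
          V.valuation (y (b + 2 ^ m) - y b) < V.valuation (y bs) := by
        intro b hb
        have h1 : y (b + 2 ^ m) - y b = (y b + y (b + 2 ^ m)) - 2 * y b := by ring
        rw [h1]
        refine lt_of_le_of_lt (Valuation.map_sub _ _ _) (max_lt hb ?_)
        rw [map_mul]
        exact lt_of_le_of_lt (mul_le_mul_right (hall b) _) (mul_lt_of_lt_one_left hvs0 hV)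
      have hS3 : ∀ (j r : ℕ), r < e → V.valuation (y ((r : ℤ) + j * 2 ^ m) +
          y ((r : ℤ) + j * 2 ^ m + 2 ^ m)) < V.valuation (y bs) := by
        intro j
        induction j with
        | zero =>
          intro r hr
          simpa using hS1 r hr
        | succ j ih =>
          intro r hr
          have h1 := hS2 _ (ih r hr)
          have h2 : (r : ℤ) + ((j + 1 : ℕ) : ℤ) * 2 ^ m = (r : ℤ) + j * 2 ^ m + 2 ^ m := by
            push_cast
            ring
          rw [h2, hnegZ, ← sub_eq_add_neg]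
          exact h1
      obtain ⟨d, _, hdb⟩ := red b₁
      have h6 := hS3 (d / e) (d % e) (Nat.mod_lt _ hepos)
      have h7 : ((d % e : ℕ) : ℤ) + ((d / e : ℕ) : ℤ) * 2 ^ m = d := by
        have h8 := Nat.mod_add_div d e
        have h9 : (((d % e + e * (d / e) : ℕ)) : ℤ) = (d : ℤ) := by rw [h8]
        have h10 : (e : ℤ) = 2 ^ m := by rw [he]; push_cast; rfl
        rw [← h9, ← h10]
        push_cast
        ring
      rw [h7] at h6
      have h11 := hS2 _ h6
      have h12 := hb₁ bs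
      rw [hper b₁ d hdb, hper (b₁ + 2 ^ m) (d + 2 ^ m) (by
        rw [show b₁ + 2 ^ m - ((d : ℤ) + 2 ^ m) = b₁ - d by ring]
        exact hdb)] at h12
      exact absurd h12 (not_le.2 h11)
    have h3 : V.valuation (2 : ℂ) < (x ^ k₀) ^ 2 := by
      conv_lhs => rw [← hx, hqe]
      rw [← pow_mul]
      exact pow_lt_pow_right_of_lt_one₀ hx0 hx1 (by omega)
    calc V.valuation (2 : ℂ) ^ 3 * V.valuation (y b₀) ^ 2
        ≤ V.valuation (2 : ℂ) ^ 3 * V.valuation (y bs) ^ 2 :=
          mul_le_mul_right (pow_le_pow_left₀ zero_le (hall b₀) 2) _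
      _ = (V.valuation (2 : ℂ) * V.valuation (y bs)) ^ 2 * V.valuation (2 : ℂ) := by
          rw [mul_pow, pow_succ (V.valuation (2 : ℂ)) 2, mul_assoc, mul_assoc,
            mul_comm (V.valuation (2 : ℂ)) (V.valuation (y bs) ^ 2)]
      _ < (V.valuation (2 : ℂ) * V.valuation (y bs)) ^ 2 * (x ^ k₀) ^ 2 :=
          mul_lt_mul_of_pos_left h3 (pow_pos (mul_pos ht0 hvs0) 2)
      _ = (V.valuation (2 : ℂ) * V.valuation (y bs) * x ^ k₀) ^ 2 := by
          rw [mul_pow _ (x ^ k₀)]

end

end Pool.Agent.N2H
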