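import Pool.Agent.N2.StHT
import Pool.Agent.MUX.HX_HK

/-!
# MUX-2N, block HT, module HKT: the part `s` of the symbol (adapted from `MUX/HN_HKN.lean`)
-/

set_option autoImplicit false

namespace Pool.Agent.N2H

open _root_.MU3 Pool.Agent.MuSym Pool.Agent.MUXH Pool.Agent.N2 OnePoint

noncomputable section

/-- (HKT) the part `s` of the symbol. -/
theorem tt_HKT : St_HKT := by
  intro N' nu P s hP hnu hdep
  obtain ⟨h1, h2, -⟩ := tx_HK 2 (by norm_num) N' nu P P hP hnu s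
  refine ⟨h2, h1, ?_⟩
  have ht : ∀ (r : ℚ) (k : ℤ), P ∞ ((r + k : ℚ) : OnePoint ℚ) = P ∞ (r : OnePoint ℚ) := by
    intro r k
    have h := hP.equiv 1 k 0 1 (by ring) (dvd_zero _) ∞ (r : OnePoint ℚ)
    rw [Hk.mob_inf, Hk.mob_tr, hnu, one_mul] at h
    exact h
  have hs : ∀ r : ℚ, sgnPart s P ∞ (r : OnePoint ℚ) =
      P ∞ (r : OnePoint ℚ) + s * P ∞ ((-r : ℚ) : OnePoint ℚ) := by
    intro r
    unfold sgnPart
    rw [Hk.mob_inf, Hk.mob_neg]
  intro x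
  have e1 := hdep x
  have e2 := hdep (-x)
  simp only [Finset.sum_range_succ, Finset.sum_range_zero, zero_add] at e1 e2 ⊢
  have a0 : (-((x + ((0 : ℕ) : ℚ)) / 2) : ℚ) = (-x + ((0 : ℕ) : ℚ)) / 2 := by push_cast; ring
  have a1 : (-((x + ((1 : ℕ) : ℚ)) / 2) : ℚ) = (-x + ((1 : ℕ) : ℚ)) / 2 + ((-1 : ℤ) : ℚ) := by
    push_cast; ring
  rw [hs, hs, a0, a1, ht]
  linear_combination e1 + s * e2

end

end Pool.Agent.N2H
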