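import Pool.Agent.N2.DefsT
import Pool.Agent.MUX.StHN

/-!
# MUX-2N, block HT (helper66): PAPER_2N.md, sections 4, 7, 8, abstract. `p = 2`, `2` inert

The twin of block HN (`Pool/Agent/MUX/StHN.lean`, proofs `Pool/Agent/MUX/HN_*.lean`, namespace `Pool.Agent.MUXHN`) for `p = 2`. Nothing here depends on
the field `k`. Every statement is a `def St_X : Prop`; a module proves `theorem tt_X (h : ..) ... : St_X` in `Pool/Agent/N2/H_X.lean`, namespace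
`Pool.Agent.N2H`; the hypotheses are the statements named under USES. `v = V.valuation` (multiplicative). `PTq q P x y = P x y - P (x + 1/q) (y + 1/q)` (DefsT.lean), `sgnPart`, `IsSym`
(`MU3/Base.lean`), `comb` (`MUX/StHX.lean`): `comb a g 1 F b = (a F b - a² F(a² b)) - (a F(g b) - a² F(g a² b))` up to the sign.
-/

set_option autoImplicit false

namespace Pool.Agent.N2H

open _root_.MU3 Pool.Agent.MuSym Pool.Agent.MUXH Pool.Agent.N2 OnePoint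

noncomputable section

/-- the standing hypotheses: `P = Σ_i kk_i PhiI (b_i) / (u Om)`; `KI` a field on which `v` is unramified, all values are in `pi * KI`,
`v(pi)³ v(2)^i = 1`, `i ≤ 2`. -/
structure HypT (V : ValuationSubring ℂ) (N₀ s₀ i : ℕ) (nu : ℤ → ℂ)
    (P : OnePoint ℚ → OnePoint ℚ → ℂ) (pi : ℂ) (KI : Subfield ℂ) : Prop where
  vp : V.valuation (2 : ℂ) < 1
  N0 : 2 ≤ N₀
  cop : Nat.Coprime 2 N₀
  nu1 : nu 1 = 1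
  num : ∀ d d', nu (d * d') = nu d * nu d'
  nuper : ∀ d d', ((2 * N₀ : ℕ) : ℤ) ∣ d - d' → nu d = nu d'
  nuv : ∀ d, V.valuation (nu d) ≤ 1
  sym : IsSym (2 ^ (s₀ + 1) * N₀) nu P
  dep : ∀ x : ℚ, ∑ j ∈ Finset.range 2, P ∞ (((x + j) / 2 : ℚ) : OnePoint ℚ) = 0
  alg : ∀ x y, IsAlgebraic ℚ (P x y)
  fin : ∃ T : Finset ℂ, ∀ x y, P x y ∈ AddSubgroup.closure (T : Set ℂ)
  typ : ∀ x y, ∃ w ∈ KI, P x y = pi * w
  unr : ∀ w ∈ KI, V.valuation w < 1 → V.valuation w ≤ V.valuation (2 : ℂ)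
  i2 : i ≤ 2
  vpi : V.valuation pi ^ 3 * V.valuation (2 : ℂ) ^ i = 1
  /-- Theorem G for `P_(1/16)`, `v(1 - ζ_16)^8 = v 2` -/
  G1 : ∀ N' : ℕ, N' ≠ 0 → 2 ^ (s₀ + 1) * N₀ ∣ N' → ∃ α β γ δ : ℤ, α * δ - β * γ = 1 ∧
    (N' : ℤ) ∣ γ ∧ (N' : ℤ) ∣ δ - 1 ∧
    V.valuation (2 : ℂ) ≤ V.valuation (PTq 16 P ∞ (mob α β γ δ ∞)) ^ 8
  /-- Theorem G for `P_(1/4, 1/16)` -/
  G2 : ∀ N' : ℕ, N' ≠ 0 → 2 ^ (s₀ + 1) * N₀ ∣ N' → ∃ α β γ δ : ℤ, α * δ - β * γ = 1 ∧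
    (N' : ℤ) ∣ γ ∧ (N' : ℤ) ∣ δ - 1 ∧
    V.valuation (2 : ℂ) ^ 5 ≤ V.valuation (PTq 16 (PTq 4 P) ∞ (mob α β γ δ ∞)) ^ 8
  /-- the projector; the integers `q` are odd -/
  prj : ∃ (q : ℕ) (c : ℕ → ℂ), q ≠ 0 ∧ (∀ t, V.valuation (c t) ≤ 1) ∧ ∀ x y : OnePoint ℚ,
    ∑ t ∈ Finset.range q, c t * sgnPart (1 : ℂ) P (mob q t 0 q x) (mob q t 0 q y) = P x y

/-- (BDT) bounded denominators. USES `MUXH.Sx_MAX`, `MUXH.Sx_ALB` (proved: `tx_MAX`, `tx_ALB` in `HX_MAX`, `HX_ALB`).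
MODEL: `MUX/HN_BDN.lean` (`2` instead of `3`). -/
def St_BDT : Prop :=
  ∀ (V : ValuationSubring ℂ) (_ : V.valuation (2 : ℂ) < 1) (P : OnePoint ℚ → OnePoint ℚ → ℂ)
    (_ : ∀ x y, IsAlgebraic ℚ (P x y))
    (_ : ∃ T : Finset ℂ, ∀ x y, P x y ∈ AddSubgroup.closure (T : Set ℂ)),
    ∃ k : ℕ, ∀ x y, V.valuation (2 ^ k * P x y) ≤ 1

/-- (HKT) the part `1` of the symbol. MODEL: `MUX/HN_HKN.lean`. -/
def St_HKT : Prop :=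
  ∀ (N' : ℕ) (nu : ℤ → ℂ) (P : OnePoint ℚ → OnePoint ℚ → ℂ) (s : ℂ), IsSym N' nu P → nu 1 = 1 →
    (∀ x : ℚ, ∑ j ∈ Finset.range 2, P ∞ (((x + j) / 2 : ℚ) : OnePoint ℚ) = 0) →
    IsSym N' nu (sgnPart s P) ∧
    (∀ (r : ℚ) (k : ℤ), sgnPart s P ∞ ((r + k : ℚ) : OnePoint ℚ) =
      sgnPart s P ∞ (r : OnePoint ℚ)) ∧
    ∀ x : ℚ, ∑ j ∈ Finset.range 2, sgnPart s P ∞ (((x + j) / 2 : ℚ) : OnePoint ℚ) = 0

/-- (SHT) `Q_(1/4)` is a symbol with the same character.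

PROOF. `τ = mob 4 1 0 4` (`x ↦ x + 1/4`). Additivity: clear. `h = (a b; c d)`, `2^(s+5) N₀ ∣ c`: `a d ≡ 1` modulo `8`, `a`, `d` odd, so `4 ∣ d - a`;
`τ (h x) = h' (τ x)` with `h' = (a + c/4, b + (d - a)/4 - c/16; c, d - c/4)`, integral, determinant 1, `2^(s+1) N₀ ∣ c`, and `nu (d - c/4) = nu d` because
`2 N₀ ∣ c/4`. Use `mob_mul`-type lemmas as in `MUX/HN_KYN.lean` (there `τ = mob 27 1 0 27`). -/
def St_SHT : Prop :=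
  ∀ (N₀ s : ℕ) (nu : ℤ → ℂ) (Q : OnePoint ℚ → OnePoint ℚ → ℂ),
    (∀ d d', ((2 * N₀ : ℕ) : ℤ) ∣ d - d' → nu d = nu d') → IsSym (2 ^ (s + 1) * N₀) nu Q →
    IsSym (2 ^ (s + 5) * N₀) nu (PTq 4 Q)

/-- (H1T) Theorem G for the part `1`.

MODEL: `MUX/HN_H1N.lean`. PROOF. `q`, `c` from `prj`, `h` from `G1` resp. `G2` for `N' q²`. With `T_t = mob q t 0 q` (it commutes on the cusps with the translations by `1/16`, `1/4`):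
`PTq 16 P ∞ (h ∞) = Σ_t c_t PTq 16 (sgnPart 1 P) ∞ (h_t ∞)`, `T_t (h ∞) = h_t ∞`, `h_t = (α + t γ/q, β + t (δ - α)/q - t² γ/q²; γ, δ - t γ/q)`, integral and in `Γ₁(N')`. If all terms were
smaller than the bound then so would the sum be. The same for `PTq 16 (PTq 4 P)`. -/
def St_H1T : Prop :=
  ∀ (V : ValuationSubring ℂ) (N₀ s₀ i : ℕ) (nu : ℤ → ℂ) (P : OnePoint ℚ → OnePoint ℚ → ℂ)
    (pi : ℂ) (KI : Subfield ℂ), HypT V N₀ s₀ i nu P pi KI →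
    ∀ N' : ℕ, N' ≠ 0 → 2 ^ (s₀ + 1) * N₀ ∣ N' →
    (∃ α β γ δ : ℤ, α * δ - β * γ = 1 ∧ (N' : ℤ) ∣ γ ∧ (N' : ℤ) ∣ δ - 1 ∧
      V.valuation (2 : ℂ) ≤ V.valuation (PTq 16 (sgnPart (1 : ℂ) P) ∞ (mob α β γ δ ∞)) ^ 8) ∧
    ∃ α β γ δ : ℤ, α * δ - β * γ = 1 ∧ (N' : ℤ) ∣ γ ∧ (N' : ℤ) ∣ δ - 1 ∧
      V.valuation (2 : ℂ) ^ 5 ≤
        V.valuation (PTq 16 (PTq 4 (sgnPart (1 : ℂ) P)) ∞ (mob α β γ δ ∞)) ^ 8

/-- (TYT) arithmetic of types.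

PROOF. `t = v 2`, `0 < t < 1`, `v(pi)³ t^i = 1`, so `v pi ≥ 1`. If `v w < 1` then `v w ≤ t`. (1) If `1 < v w` then `v(w⁻¹) < 1`, so `v(w⁻¹) ≤ t`, `t v(w) ≥ 1`. (2) `x = pi w`, `v(x)³ t^i = v(w)³`: so `1 ≤ v(x)³ t^i` iff `1 ≤ v w`.
(3) `i = 2`, `t ≤ v(x)^8`: if `v w ≤ t` then `v(x)^24 t^16 = v(w)^24 ≤ t^24`, and `v(x)^24 ≥ t³`: `t^19 ≤ t^24`, contradiction. (4) `i ≤ 1`, `t^5 ≤ v(x)^8`: if `v w ≤ t` then `t^15 t^(8 i) ≤ v(x)^24 t^(8 i) = v(w)^24 ≤ t^24`, but `15 + 8 i ≤ 23`. -/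
def St_TYT : Prop :=
  ∀ (V : ValuationSubring ℂ) (_ : V.valuation (2 : ℂ) < 1) (KI : Subfield ℂ)
    (_ : ∀ w ∈ KI, V.valuation w < 1 → V.valuation w ≤ V.valuation (2 : ℂ)) (i : ℕ) (_ : i ≤ 2)
    (pi : ℂ) (_ : V.valuation pi ^ 3 * V.valuation (2 : ℂ) ^ i = 1),
    1 ≤ V.valuation pi ∧ ∀ w ∈ KI,
    (1 < V.valuation w → 1 ≤ V.valuation w * V.valuation (2 : ℂ)) ∧
    (1 ≤ V.valuation (pi * w) ^ 3 * V.valuation (2 : ℂ) ^ i ↔ 1 ≤ V.valuation w) ∧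
    (i = 2 → V.valuation (2 : ℂ) ≤ V.valuation (pi * w) ^ 8 → 1 ≤ V.valuation w) ∧
    (i ≤ 1 → V.valuation (2 : ℂ) ^ 5 ≤ V.valuation (pi * w) ^ 8 → 1 ≤ V.valuation w)

/-- (LOCT) if the combinations are in `m` then `z` is locally constant modulo `m` on the odd numbers, uniformly in the
level. `m` is any `V`-submodule of `ℂ`.

MODEL: `MUX/HN_LOC.lean` with `2` instead of `3`; `4 ∣ α - 1`, `4 ∣ g - 1` (`Q0 2`, see `MUX/HX_STP.lean` for the step `u^(2^j) ≡ 1 + 2^(e+j) w`, `w` odd, `e ≥ 2`). PROOF. Write `E_u y (b) = y (u b)` and `x ≡ y` for `x - y ∈ m`. `comb α g N z = ± A (E_g - 1)^N z`, `A y = α y - α² E_(α²) y`.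
(1) Let `y n = (E_g - 1)^N (z n)`: `α y (b) ≡ α² y (α² b)` for `b` odd, `n ≥ n₀`; `α` is a unit of
`V`, so `y (α^(2 i) b) ≡ α^(-i) y (b)`; for `2^k ∣ i`: `α^i - 1` is divisible by `2^k` and `2^k y ∈ m`: `y (α^(2 i) b) ≡ y (b)`.
Let `e ≥ 2` be the exponent of `2` in `α² - 1` (`α ≠ ±1`). For every `n` the powers of `α^(2 2^k)` are, modulo `2^n`, all classes `≡ 1`
modulo `2^(e+k)`. So `y n b ≡ y n b'` for
`2^(e+k) ∣ b - b'`, `b` odd. (2) Step down: if `y' = E_g y - y` is locally constant (mod `2^r`) then so is `y`: let `u = g^(2^r)`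
(`2^r ∣ u - 1`), `S (b) = Σ_(i < 2^r) y' (g^i b)`: `y (u b) - y (b) = S (b)`, `S (u b) ≡ S (b)`, so `y (u^j b) - y (b) ≡ j S (b)`, which is in
`m` for `2^(k+1) ∣ j`; the powers of `u^(2^(k+1))` are all classes `≡ 1` modulo `2^(r')`. Induction on `N`. -/
def St_LOCT : Prop :=
  ∀ (V : ValuationSubring ℂ) (_ : V.valuation (2 : ℂ) < 1) (m : Submodule V ℂ) (z : ℕ → ℤ → ℂ)
    (k n₀ : ℕ) (_ : ∀ (n : ℕ) (b c : ℤ), (2 : ℤ) ^ n ∣ b - c → z n b = z n c)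
    (_ : ∀ n b, (2 : ℂ) ^ k * z n b ∈ m) (α g : ℤ) (_ : (4 : ℤ) ∣ α - 1) (_ : α ≠ 1)
    (_ : (4 : ℤ) ∣ g - 1) (_ : g ≠ 1) (N : ℕ)
    (_ : ∀ n, n₀ ≤ n → ∀ b : ℤ, ¬ (2 : ℤ) ∣ b → comb α g N (z n) b ∈ m),
    ∃ r : ℕ, ∀ n, n₀ ≤ n → ∀ b b' : ℤ, ¬ (2 : ℤ) ∣ b → (2 : ℤ) ^ r ∣ b - b' →
      z n b - z n b' ∈ m

/-- (PAIT) the value at a pair of determinant `2^n`. MODEL: `MUX/HN_PAI.lean`. -/
def St_PAIT : Prop :=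
  ∀ (N' : ℕ) (nu : ℤ → ℂ) (Q : OnePoint ℚ → OnePoint ℚ → ℂ), IsSym N' nu Q →
    ∀ (n : ℕ) (a b c d : ℤ), c ≠ 0 → d ≠ 0 → IsCoprime a c → (N' : ℤ) ∣ c →
      a * d - b * c = 2 ^ n → ∃ e : ℤ, (2 : ℤ) ^ n ∣ a * e - b ∧
      nu a * Q (((a : ℚ) / c : ℚ) : OnePoint ℚ) (((b : ℚ) / d : ℚ) : OnePoint ℚ) =
        Q ∞ (((e : ℚ) / 2 ^ n : ℚ) : OnePoint ℚ)

/-- (KYT) from locally constant values to vanishing closed cycles of `Q_(1/16)`.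

USES PAIT, `NSY.key0_two` (file `Pool/Agent/NS/Y_Key0.lean`). MODEL: `MUX/HN_KYN.lean`. PROOF. `M = ℂ ⧸ m` (`m` as an additive group; it is a `V`-submodule, so an odd integer `q`,
a unit of `V`, has no torsion). `R = 8 + (s₀ + 1) + r + 1`, `Φ x y` = the class of `PTq 16 Q x y`. `inv` for `Γ₁(2^R N₀)`: `τ h τ⁻¹ =
(a + c/16, b + (d - a)/16 - c/256; c, d - c/16)` is integral (`2^R ∣ c`, `d - 1`, `a - 1`) and in `Γ₀(2^(s₀+1) N₀)` with lower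
right entry `≡ 1` modulo `2 N₀`; `nu = 1` for it and for `h`. (A), `n ≥ n₁ := n₀ + r + 5`: `(a, c)`, `(b, d)` as in `key0_two`; `2` divides `c`, so
`a` is odd; `a` is prime to `N₀`; `d = (2^n + b c)/a`, so `2^(r+5) ∣ d` and `b` is odd. PAIT for `Q`: `nu a Q u w = Q ∞ (e/2^n)`, `a e ≡ b` modulo
`2^n`. PAIT for `u + t = (a + c/16, c)`, `w + t = (b + d/16, d)` (primitive, same determinant, `nu (a + c/16) = nu a`):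
`nu a Q (u+t) (w+t) = Q ∞ (e'/2^n)`, `(a + c/16) e' ≡ b + d/16`. Modulo `2^(r+1)`: `a e' ≡ b ≡ a e`, so `2^r ∣ e - e'`, `e` is odd, and the
difference `Q ∞ (e/2^n) - Q ∞ (e'/2^n)` is in `m`; divide by the unit `nu a`. (A0): `b/2^n + 1/16 = (b + 2^(n-4))/2^n`. -/
def St_KYT : Prop :=
  ∀ (V : ValuationSubring ℂ) (_ : V.valuation (2 : ℂ) < 1) (m : Submodule V ℂ) (N₀ s₀ : ℕ)
    (nu : ℤ → ℂ) (Q : OnePoint ℚ → OnePoint ℚ → ℂ) (_ : 2 ≤ N₀) (_ : Nat.Coprime 2 N₀)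
    (_ : nu 1 = 1) (_ : ∀ d d', ((2 * N₀ : ℕ) : ℤ) ∣ d - d' → nu d = nu d')
    (_ : ∀ d, IsCoprime d ((2 * N₀ : ℕ) : ℤ) → V.valuation (nu d) = 1)
    (_ : IsSym (2 ^ (s₀ + 1) * N₀) nu Q) (r n₀ : ℕ)
    (_ : ∀ n, n₀ ≤ n → ∀ b b' : ℤ, ¬ (2 : ℤ) ∣ b → (2 : ℤ) ^ r ∣ b - b' →
      Q ∞ (((b : ℚ) / 2 ^ n : ℚ) : OnePoint ℚ) - Q ∞ (((b' : ℚ) / 2 ^ n : ℚ) : OnePoint ℚ) ∈ m),
    ∃ R : ℕ, ∀ a b c d : ℤ, a * d - b * c = 1 → (2 : ℤ) ^ R * N₀ ∣ c →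
      (2 : ℤ) ^ R * N₀ ∣ d - 1 → ∀ x, PTq 16 Q x (mob a b c d x) ∈ m

/-- (DVT) the character sums of a depleted function with values of one type.

MODEL: `MUX/HN_DVN.lean`. PROOF. `t = v 2`. Let `y b* ≠ 0` have maximal valuation among the `y b` (finitely many classes), `W b = y b/y b* ∈ K ∩ V`, `W b* = 1`; we may take `0 ≤ b* < q`, `q = 2^n`
(`y (b + q) = - y b`). `ζ^q = -1`, so `Σ_(b < 2q) ζ^b y b = 2 y b* Σ_(b < q) ζ^b W b`. Write (Newton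
expansion, `shift_pow` of `MU3/H_HZ.lean`) `P(T) = Σ_(b < q) W b T^b`, `P(1 + X) = Σ_(i < q) c_i X^i`, `c_i ∈ K ∩ V`. Some `c_i` is a unit (otherwise, as `W b = ± Σ binom.. c_i` is an integral combination of the `c_i`, `v(W b*) < 1`). Let `i₀` be the smallest `i` with
`v c_i = 1`; for `i < i₀`: `v c_i < 1`, so `v c_i ≤ t`. `x = v(ζ - 1)`: `x^q = t` (`ζ` of order `2^(n+1)`), `x < 1`. So `v(P(ζ)) = x^(i₀) > x^q = t`: (1) `v(Σ) > t² v(y b*)`.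
(2) (`n ≥ 1`, `q' = q/2`.) CLAIM: `i₀ < q'` if some difference `y (b₁ + q') - y b₁` has maximal valuation. Otherwise `(T - 1)^(q')` divides `P` modulo the maximal ideal, `(T-1)^(q') = T^(q') + 1` (characteristic 2), so `P = (T^(q') + 1) P₁` modulo it, `deg P₁ < q'`: `W (b + q') ≡ W b` modulo the maximal
ideal for `0 ≤ b < q'`, and then for all `b` (`W (b + q) = - W b ≡ W b + 2 (..)`): so `v(y (b₁ + q') - y b₁) < v(y b*)`, but it is `≥ v(y b*)`. (Direct form: if `c_i` is in the maximal ideal for `i < q'` then the coefficients `W b`, `b < q`, of `P(T) = Σ_i c_i (T-1)^i ≡ Σ_(q' ≤ i < q) c_i (T^(q') + 1)(T - 1)^(i - q')`.)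
Then `v(Σ)² = t² v(y b*)² x^(2 i₀) > t² v(y b*)² x^(2 q') = t³ v(y b*)²`. -/
def St_DVT : Prop :=
  ∀ (V : ValuationSubring ℂ) (_ : V.valuation (2 : ℂ) < 1) (K : Subfield ℂ)
    (_ : ∀ w ∈ K, V.valuation w < 1 → V.valuation w ≤ V.valuation (2 : ℂ)) (n : ℕ) (_ : 1 ≤ n)
    (y : ℤ → ℂ)
    (_ : ∀ b c : ℤ, (2 : ℤ) ^ (n + 1) ∣ b - c → y b = y c)
    (_ : ∀ b : ℤ, y (b + 2 ^ n) = -y b)
    (_ : ∀ b b' : ℤ, y b' ≠ 0 → y b / y b' ∈ K) (b₀ : ℤ) (_ : y b₀ ≠ 0)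
    (ζ : ℂ) (_ : IsPrimitiveRoot ζ (2 ^ (n + 1))),
    V.valuation (2 : ℂ) ^ 2 * V.valuation (y b₀) <
      V.valuation (∑ b ∈ Finset.range (2 ^ (n + 1)), ζ ^ b * y b) ∧
    ∀ b₁ : ℤ, (∀ b, V.valuation (y b) ≤ V.valuation (y (b₁ + 2 ^ (n - 1)) - y b₁)) →
      V.valuation (2 : ℂ) ^ 3 * V.valuation (y b₀) ^ 2 <
        V.valuation (∑ b ∈ Finset.range (2 ^ (n + 1)), ζ ^ b * y b) ^ 2

/-- (HT) the conclusion of the block: infinitely many levels with large character sums.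

USES BDT, HKT, SHT, H1T, TYT, LOCT, KYT, DVT. MODEL: `MUX/HN_HN.lean`. PROOF (helper66, glue). `t = v 2`, `Q = sgnPart 1 P`, `z n b = Q ∞ (b/2^n)`. Suppose that for some `n₀` and all `n ≥ n₀` there is `ζ` with `v(Σ)² ≤ t³`. Let `n ≥ n₀`, `n ≥ 3`,
`Y b = comb α g 1 (z n) b`: period `2^n`, `Y (b + 2^(n-1)) = - Y b`, values in `pi KI`.
`i = 2`: `m = {x : v(x)³ t² < 1}`. If `Y b ∉ m` then `v(Y b)³ t² ≥ 1`, DVT (1): `v(Σ)³ > t⁶ v(Y b)³ ≥ t⁴`, `v(Σ)⁶ > t⁸ > t⁹`, contradiction. So all `Y b ∈ m`, LOCT, KYT for `Q`, H1T (1), TYT (3): contradiction.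
`i ≤ 1`: `m = {x : v(x)³ t^i < 1}`. `Y b = pi w_b`. If `v w_b > 1` then `v w_b t ≥ 1`, `v(Y b) t ≥ v pi ≥ 1`, DVT (1): `v(Σ) > t`, contradiction. So `v(Y b) ≤ v pi` for all `b`. If `Y (b₁ + 2^(n-2)) - Y b₁ = pi w'` is not in `m` then `v w' ≥ 1`, so it has maximal valuation and is `≥ v pi ≥ 1`, one of `Y (b₁ + 2^(n-2))`, `Y b₁`
has valuation `≥ 1`, DVT (2): `v(Σ)² > t³`: contradiction. So all differences are in `m`. With `Q' = PTq 4 Q` (SHT), `z' n b = Q' ∞ (b/2^n) = z n b - z n (b + 2^(n-2))`: `comb α g 1 (z' n) b = Y b - Y (b + 2^(n-2))` (because `α² 2^(n-2) ≡ g 2^(n-2) ≡ 2^(n-2)` modulo `2^n`) is in `m`. LOCT, KYT for `Q'`, H1T (2), TYT (4): contradiction. -/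
def St_HT : Prop :=
  ∀ (V : ValuationSubring ℂ) (N₀ s₀ i : ℕ) (nu : ℤ → ℂ) (P : OnePoint ℚ → OnePoint ℚ → ℂ)
    (pi : ℂ) (KI : Subfield ℂ), HypT V N₀ s₀ i nu P pi KI →
    ∀ (α g : ℤ), (4 : ℤ) ∣ α - 1 → α ≠ 1 → (4 : ℤ) ∣ g - 1 → g ≠ 1 → ∀ n₀ : ℕ,
      ∃ n, n₀ ≤ n ∧ ∀ ζ : ℂ, IsPrimitiveRoot ζ (2 ^ n) →
        V.valuation (2 : ℂ) ^ 3 < V.valuation (∑ b ∈ Finset.range (2 ^ n), ζ ^ b *
          comb α g 1 (fun b => sgnPart (1 : ℂ) P ∞ (((b : ℚ) / 2 ^ n : ℚ) : OnePoint ℚ)) b) ^ 2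

end

end Pool.Agent.N2H
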