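import Pool.Agent.N2.H_DepT
import Pool.Agent.N2.StHT
import Pool.Agent.MUX.YAll
import Pool.Agent.MUX.XLib
import Pool.Agent.MUX.N_FK
import Pool.Agent.MUX.HY_SYM
import Pool.Agent.MUX.HY_HFX
import Pool.Agent.MUX.HY_BRG

/-!
# N2, block H (helper41): the character sums, for `2` inert (glue; model `NS/H_Hfin.lean`)
-/

set_option autoImplicit false

namespace Pool.Agent.N2H

open _root_.MU3 Pool.Agent.MU3A Pool.Agent.MU3B Pool.Agent.MU3F Pool.Agent.MUX Pool.Agent.MUXH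
  Pool.Agent.MUXHY Pool.Agent.MuSym Pool.Agent.NS Pool.Agent.N2 OnePoint
open scoped ComplexConjugate

noncomputable section

variable {A B : ℤ}

/-- the `x`-coordinates of torsion points of normalised lattices are algebraic -/
theorem xn_alg (hc : CQ A B) (hT : TorX A B) {b : Ideal (OO A B)} {L : PeriodPair} {om : ℂ}
    (hL : IsNL b L om) {n : ℕ} (hn : n ≠ 0) {z : ℂ} (hz : n * z ∈ L.lattice)
    (hz' : z ∉ L.lattice) : IsAlgebraic ℚ (L.weierstrassP z) := by
  have hn' : ((n : ℕ) : OO A B) ≠ 0 := natCast_ne_zero' hc hn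
  have hm : idl (A := A) (B := B) n ≠ ⊥ := by
    intro h
    exact hn' (Ideal.span_singleton_eq_bot.1 h)
  have hf := hT.fin _ hm
  have htor : Tor (idl (A := A) (B := B) n) L z := by
    refine (tor_span hc (IsLI.hasCM hc hL.toIsLI) _).2 ?_
    rw [emb_natCast hc]
    exact hz
  have hmem : xn L z ∈ RF (idl (A := A) (B := B) n) :=
    IntermediateField.subset_adjoin _ _ ⟨b, L, om, hL, Or.inr ⟨z, htor, hz', rfl⟩⟩
  have h1 : IsAlgebraic (kk A B) (⟨xn L z, hmem⟩ : RF (idl (A := A) (B := B) n)) :=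
    Algebra.IsAlgebraic.isAlgebraic _
  have h2 : IsAlgebraic (kk A B) (xn L z) := h1.algebraMap (A := ℂ)
  have h3 : Algebra.IsAlgebraic ℚ (kk A B) := MUXN.FK.isAlgebraic_kk hc
  have h4 : IsAlgebraic ℚ (xn L z) := h2.restrictScalars ℚ
  have e1 : L.weierstrassP z = xn L z + ((1 / 12 : ℚ) : ℂ) := by
    unfold xn
    push_cast
    ring
  rw [e1]
  exact h4.add (isAlgebraic_algebraMap (A := ℂ) (1 / 12 : ℚ))

theorem u_alg (hc : CQ A B) (hT : TorX A B) {b : Ideal (OO A B)} {L : PeriodPair} {om : ℂ}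
    (hL : IsNL b L om) {V : ValuationSubring ℂ} {u e a1 a3 : ℂ} (h : GoodT V L u e a1 a3) :
    IsAlgebraic ℚ u := by
  obtain ⟨w1, w2, h1, h2, h3, h4, -, -, -, h5⟩ := h.tor
  have k1 : IsAlgebraic ℚ (L.weierstrassP w1) := xn_alg hc hT hL (n := 3) (by norm_num)
    (by push_cast; exact h1) h3
  have k2 : IsAlgebraic ℚ (L.weierstrassP w2) := xn_alg hc hT hL (n := 3) (by norm_num)
    (by push_cast; exact h2) h4
  have k3 : IsAlgebraic ℚ (u ^ 2) := by
    rw [h5]
    exact k2.sub k1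
  exact k3.of_pow (by norm_num)

theorem sum_alg {ι : Type} (S : Finset ι) (F : ι → ℂ) (h : ∀ c ∈ S, IsAlgebraic ℚ (F c)) :
    IsAlgebraic ℚ (∑ c ∈ S, F c) := by
  rw [← mem_algebraicClosure_iff]
  exact sum_mem fun c hc => mem_algebraicClosure_iff.2 (h c hc)

/-- the hypotheses of the abstract part -/
theorem hypT (hG : S2_GPT) (hT' : S2_TYF) (hP : MUXY.Sy_ALP) (hCOP : MUXY.Sy_COP)
    {V : ValuationSubring ℂ} {f : ℕ}
    (hS : SetT A B V f) (hT : TorX A B) {ι : Type} [Fintype ι] (R : Reps A B (2 * f) ι)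
    {u el a1 a3 : ℂ} (hg : GoodT V (R.L R.i0) u el a1 a3)
    {e : OO A B → ℂ} (he : IsEI (idl (A := A) (B := B) (2 * f)) e) {r : ℕ} (hr2 : ¬ 2 ∣ r)
    (her : ∀ x, e x ≠ 0 → e x ^ (2 * r) = 1) {kk : ι → ℂ} (hkk : ∀ i, kk i ^ (2 * r) = 1) :
    ∃ (pi : ℂ) (KI : Subfield ℂ) (i : ℕ), HypT V (N0X A B f) 1 i (nuX e)
      (fun x y => PhiK R e kk x y / (u * R.om R.i0)) pi KI := by
  obtain ⟨pi, KI, i, hi, typ, unr, vpi⟩ := hT' A B V f hS hT ι R u el a1 a3 hg e he r hr2 her kk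
    hkk
  obtain ⟨v2, vZ, v1, vr, D0, D2, gD, gb, gt, h2f⟩ := valT hS
  have hcq : CQ A B := hS.case.toCQ
  have hr0 : r ≠ 0 := by
    rintro rfl
    exact hr2 (dvd_zero 2)
  have hr20 : 2 * r ≠ 0 := by omega
  have hf0 := hS.f0
  obtain ⟨nu1, num, nuper, nuv⟩ := chrT MUXF.xf_CHI hS he hr20 her
  have hN0 : ((N0X A B f : ℕ) : ℤ) = absD A B * (f : ℤ) ^ 2 := Brg.N0X_cast f D0
  have hDz : absD A B * ((2 * f : ℕ) : ℤ) ^ 2 = ((2 ^ (1 + 1) * N0X A B f : ℕ) : ℤ) := by
    push_cast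
    rw [hN0]
    ring
  have hfz : (f : ℤ) ≠ 0 := by exact_mod_cast hf0
  have hf1 : (0 : ℤ) < f := by exact_mod_cast Nat.pos_of_ne_zero hf0
  have hD2 : 2 ≤ absD A B := by
    have h5 := hS.case.two
    have h6 := hS.case.neg
    rcases hS.case.hB with hB | hB
    · subst hB
      unfold absD
      omega
    · subst hB
      unfold absD
      omega
  have hN2 : 2 ≤ N0X A B f := by
    have h1 : (2 : ℤ) ≤ ((N0X A B f : ℕ) : ℤ) := by
      rw [hN0]
      have h2 : (1 : ℤ) ≤ (f : ℤ) ^ 2 := by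
        have : 0 < (f : ℤ) ^ 2 := by positivity
        omega
      nlinarith
    exact_mod_cast h1
  have hNne : N0X A B f ≠ 0 := by omega
  have hcop : ∀ i, IsCoprime (MUX.sp ((MUX.nI (R.b i) : ℕ) : OO A B))
      (idl (A := A) (B := B) (2 * f)) :=
    hCOP A B (2 * f) ι R _ 1 (by rw [pow_one]; exact h2f)
  have hGG := hG A B V f hS hT ι R u el a1 a3 hg e he (2 * r) hr20 her kk (vr _ _ hr20 (hkk _))
  refine ⟨pi, KI, i, ?_⟩
  exact
    { vp := v2
      N0 := hN2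
      cop := by
        rw [Nat.Prime.coprime_iff_not_dvd Nat.prime_two]
        intro h
        have h1 : (2 : ℤ) ∣ ((N0X A B f : ℕ) : ℤ) := by exact_mod_cast h
        rw [hN0] at h1
        rcases Int.prime_two.dvd_or_dvd h1 with h2 | h2
        · exact D2 h2
        · have h4 := Int.prime_two.dvd_of_dvd_pow h2
          exact hS.fp (by exact_mod_cast h4)
      nu1 := nu1
      num := num
      nuper := nuper
      nuv := nuv
      sym := by
        have h1 : ∀ c, IsSym (2 ^ (1 + 1) * N0X A B f) (nuX e) (PhiI (R.b c) e) := fun c =>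
          MUXT.sym_EI (toCQ hcq) (R.b c) (R.nl c).b_ne _ e (toEI he) (2 * f) (by omega) h2f _
            (mul_ne_zero (by norm_num) hNne) (by rw [hDz])
        exact Sym.isSym_lin h1 kk (u * R.om R.i0)
      dep := by
        intro x
        unfold PhiK
        rw [← Finset.sum_div, Finset.sum_comm]
        have h1 : ∀ c, ∑ j ∈ Finset.range 2, kk c * PhiI (R.b c) e ∞
            (((x + j) / 2 : ℚ) : OnePoint ℚ) = 0 := by
          intro c
          rw [← Finset.mul_sum, phi_dep hS he (R.nl c).b_ne x, mul_zero]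
        rw [Finset.sum_eq_zero fun c _ => h1 c, zero_div]
      alg := by
        intro x y
        have hua : IsAlgebraic ℚ u := u_alg hcq hT (R.nl R.i0) hg
        have hka : ∀ c, IsAlgebraic ℚ (kk c) := fun c =>
          IsAlgebraic.of_pow (Nat.pos_of_ne_zero hr20) (by rw [hkk c]; exact isAlgebraic_one)
        have h1 := fun c =>
          (hP A B hcq hT (2 * f) ι inferInstance R _ e gb gt he hcop (2 * r) hr20 her c x y).2
        have e1 : PhiK R e kk x y / (u * R.om R.i0) =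
            (∑ c, kk c * (PhiI (R.b c) e x y / R.om R.i0)) * u⁻¹ := by
          unfold PhiK
          have ho : R.om R.i0 ≠ 0 := (R.nl R.i0).om_ne
          have hu := hg.u0
          rw [mul_comm u, ← div_div, Finset.sum_div, div_eq_mul_inv]
          congr 1
          refine Finset.sum_congr rfl fun c _ => ?_
          ring
        rw [e1]
        exact (sum_alg _ _ fun c _ => (hka c).mul (h1 c)).mul hua.inv
      fin := by
        classical
        have h1 := fun c => MUXT.fg_EI A B (toCQ hcq) (R.b c) _ e (R.nl c).b_ne gb (toEI he)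
        choose S hS' using h1
        set Z : ℂ := u * R.om R.i0 with hZ
        refine ⟨Finset.univ.biUnion fun c => (S c).image fun t => kk c / Z * t, fun x y => ?_⟩
        have e1 : PhiK R e kk x y / Z = ∑ c, kk c / Z * PhiI (R.b c) e x y := by
          unfold PhiK
          rw [Finset.sum_div]
          refine Finset.sum_congr rfl fun c _ => ?_
          ring
        rw [e1]
        refine sum_mem fun c _ => ?_
        have h2 := hS' c x y
        have h3 : AddMonoidHom.mulLeft (kk c / Z) (PhiI (R.b c) e x y) ∈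
            (AddSubgroup.closure (S c : Set ℂ)).map (AddMonoidHom.mulLeft (kk c / Z)) :=
          AddSubgroup.mem_map_of_mem _ h2
        rw [AddMonoidHom.map_closure] at h3
        refine AddSubgroup.closure_mono ?_ h3
        rintro _ ⟨t, ht, rfl⟩
        simp only [Finset.coe_biUnion, Set.mem_iUnion]
        exact ⟨c, by simp, Finset.mem_coe.2 (Finset.mem_image.2 ⟨t, ht, rfl⟩)⟩
      typ := typ
      unr := unr
      i2 := hi
      vpi := vpi
      G1 := by
        intro N' hN' hd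
        refine (hGG N' hN' ?_).1
        rw [hDz]
        exact_mod_cast hd
      G2 := by
        intro N' hN' hd
        refine (hGG N' hN' ?_).2
        rw [hDz]
        exact_mod_cast hd
      prj := by
        obtain ⟨q, c, -, h1, h2, h3⟩ := prT MUXF.xf_PHX MUXF.xf_PRJ hS R he kk
          (u * R.om R.i0) 1
        exact ⟨q, c, h1, h2, h3⟩ }

/-- the character sums -/
theorem th_HFIN (hHT : St_HT) (hG : S2_GPT) (hT' : S2_TYF) (hP : MUXY.Sy_ALP)
    (hCOP : MUXY.Sy_COP) : S2_HFIN := by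
  intro A B V f hS hT ι _ R u el a1 a3 hg e he r hr2 her kk hkk n₀
  obtain ⟨v2, vZ, v1, vr, D0, D2, gD, gb, gt, h2f⟩ := valT hS
  have hcq : CQ A B := hS.case.toCQ
  have hf0 := hS.f0
  set kk' : ι → ℂ := fun c => kk c / e ((nI (R.b c) : ℕ) : OO A B) with hkk'
  have heN : ∀ c, e ((nI (R.b c) : ℕ) : OO A B) ≠ 0 := Brg.e_nI R he h2f
  have hk1 : ∀ c, kk' c ^ (2 * r) = 1 := by
    intro c
    rw [hkk']
    beta_reduce
    rw [div_pow, hkk, her _ (heN c), div_one]
  obtain ⟨pi, KI, i, hyp⟩ := hypT hG hT' hP hCOP hS hT R hg he hr2 her hk1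
  have hfz : (0 : ℤ) < f := by exact_mod_cast Nat.pos_of_ne_zero hf0
  have haz : ((aX 2 f : ℕ) : ℤ) - 1 = 4 * (2 * f) := by
    unfold aX q0
    push_cast
    norm_num
    ring
  have ha4 : (4 : ℤ) ∣ ((aX 2 f : ℕ) : ℤ) - 1 := by rw [haz]; exact Dvd.intro _ rfl
  have ha1 : ((aX 2 f : ℕ) : ℤ) ≠ 1 := by
    intro h
    rw [h] at haz
    omega
  obtain ⟨n, hn, hmain⟩ := hHT V (N0X A B f) 1 i (nuX e) _ pi KI hyp ((aX 2 f : ℕ) : ℤ) 5 ha4 ha1
    (by norm_num) (by norm_num) (n₀ + 2)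
  obtain ⟨m, rfl⟩ : ∃ m, n = m + 2 := ⟨n - 2, by omega⟩
  refine ⟨m, by omega, ?_⟩
  have hQS := ty_QSX MUXF.xf_F5 MUXF.xf_PRD 2 Nat.prime_two A B hcq ⊤ f hf0 ι inferInstance R _ e
    he h2f kk 1 1 m
  have hM : q0 2 * 2 ^ m = 2 ^ (m + 2) := by
    unfold q0
    norm_num
    ring
  have hq3 : (q0 2 : ℤ) = 4 := by
    unfold q0
    norm_num
  have hq3' : (q0 2 : ℚ) = 4 := by
    unfold q0
    norm_num
  rw [hM, hq3, hq3'] at hQS
  have e4 : (1 + 4 : ℤ) = 5 := by norm_num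
  have e4' : (1 + 4 : ℚ) = 5 := by norm_num
  rw [e4, e4'] at hQS
  have hL : ∑ j ∈ Finset.range 2, (-1 : ℂ) ^ (1 - j) *
        (STX R (lvX 2 f m) (2 ^ (m + 2)) (aX 2 f) e kk (5 ^ j) +
          STX R (lvX 2 f m) (2 ^ (m + 2)) (aX 2 f) e kk (-(5 ^ j))) =
      ∑ j ∈ Finset.range (1 + 1), ((-1 : ℂ) ^ (1 - j) * ((1 : ℕ).choose j : ℂ)) *
        (STX R (lvX 2 f m) (2 ^ (m + 2)) (aX 2 f) e kk (5 ^ j) +
          ((1 : ℤ) : ℂ) * STX R (lvX 2 f m) (2 ^ (m + 2)) (aX 2 f) e kk (-5 ^ j)) := by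
    refine Finset.sum_congr rfl fun j hj => ?_
    have hj2 : j = 0 ∨ j = 1 := by
      have := Finset.mem_range.1 hj
      omega
    rcases hj2 with rfl | rfl <;> simp
  rw [hL, hQS]
  have hprim := Hfx.prim 2 (m + 2) Nat.prime_two (-(5 * ((aX 2 f : ℕ) : ℤ) ^ 2)) (by
    intro h
    rw [dvd_neg] at h
    rcases Int.prime_two.dvd_or_dvd h with h | h
    · omega
    · have h5 := Int.prime_two.dvd_of_dvd_pow h
      omega)
  have hζ : ex (-((5 : ℚ) ^ 1 * (aX 2 f : ℚ) ^ 2) / ((2 ^ (m + 2) : ℕ) : ℚ)) =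
      ex (((-(5 * ((aX 2 f : ℕ) : ℤ) ^ 2) : ℤ) : ℚ) / (2 : ℕ) ^ (m + 2)) := by
    push_cast
    rw [pow_one]
  rw [hζ]
  set ζ : ℂ := ex (((-(5 * ((aX 2 f : ℕ) : ℤ) ^ 2) : ℤ) : ℚ) / (2 : ℕ) ^ (m + 2)) with hζd
  have h1 := hmain ζ hprim
  have hu := hg.u0
  have e5 : (1 / 2 * (2 * (f : ℂ) * ∑ b ∈ Finset.range (2 ^ (m + 2)), ζ ^ b *
      comb ((aX 2 f : ℕ) : ℤ) 5 1 (fun b => sgnPart ((1 : ℤ) : ℂ) (PP R ⊤ e kk 0) ∞
        ((b / ((2 ^ (m + 2) : ℕ) : ℚ) : ℚ) : OnePoint ℚ)) b)) / u =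
      f * ∑ b ∈ Finset.range (2 ^ (m + 2)), ζ ^ b *
      comb ((aX 2 f : ℕ) : ℤ) 5 1 (fun b => sgnPart (1 : ℂ)
        (fun x y => PhiK R e kk' x y / (u * R.om R.i0)) ∞
        (((b : ℚ) / 2 ^ (m + 2) : ℚ) : OnePoint ℚ)) b := by
    have e0 : ∀ S : ℂ, (1 / 2 * (2 * (f : ℂ) * S)) / u = f * (S / u) := by
      intro S
      ring
    rw [e0, Finset.sum_div]
    congr 1
    refine Finset.sum_congr rfl fun b _ => ?_
    rw [mul_div_assoc]
    congr 1
    unfold comb
    rw [Finset.sum_div]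
    refine Finset.sum_congr rfl fun j _ => ?_
    rw [mul_div_assoc]
    congr 1
    have e6 : ∀ b : ℤ, sgnPart ((1 : ℤ) : ℂ) (PP R ⊤ e kk 0) ∞
        ((b / ((2 ^ (m + 2) : ℕ) : ℚ) : ℚ) : OnePoint ℚ) = u * sgnPart (1 : ℂ)
        (fun x y => PhiK R e kk' x y / (u * R.om R.i0)) ∞
        (((b : ℚ) / 2 ^ (m + 2) : ℚ) : OnePoint ℚ) := by
      intro b
      have e7 : ∀ x y, PP R ⊤ e kk 0 x y = u * (PhiK R e kk' x y / (u * R.om R.i0)) := by
        intro x y
        rw [Brg.PP_zero, ← mul_div_assoc, mul_div_mul_left _ _ hu]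
      unfold sgnPart
      rw [e7, e7]
      push_cast
      ring
    beta_reduce
    rw [e6, e6]
    field_simp
  rw [e5, map_mul]
  have e9 : V.valuation (f : ℂ) = 1 := by
    have := v1 f (by
      intro h
      exact hS.fp (by exact_mod_cast h))
    exact_mod_cast this
  rw [e9, one_mul]
  exact h1

end

end Pool.Agent.N2H
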