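import Pool.Agent.N2.StHT
import Pool.Agent.MUX.HX_STP

/-!
# MUX-2N, block HT, module LOCT: local constancy modulo a submodule, `p = 2`
-/

set_option autoImplicit false

namespace Pool.Agent.N2H

open _root_.MU3 Pool.Agent.MuSym Pool.Agent.MUXH Pool.Agent.N2 OnePoint

noncomputable section

namespace LocT

theorem nd_mul {u b : ℤ} (hu : (4 : ℤ) ∣ u - 1) (h : ¬ (2 : ℤ) ∣ b) : ¬ (2 : ℤ) ∣ u * b := by
  intro h1
  have hu : (2 : ℤ) ∣ u - 1 := (by norm_num : (2 : ℤ) ∣ 4).trans hu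
  rcases Int.prime_two.dvd_or_dvd h1 with h2 | h2
  · have h3 : (2 : ℤ) ∣ 1 := by
      have h4 := dvd_sub h2 hu
      have e : u - (u - 1) = 1 := by ring
      rwa [e] at h4
    exact absurd h3 (by norm_num)
  · exact h h2

theorem nd_pow {u b : ℤ} (hu : (4 : ℤ) ∣ u - 1) (h : ¬ (2 : ℤ) ∣ b) (i : ℕ) :
    ¬ (2 : ℤ) ∣ u ^ i * b := by
  induction i with
  | zero => simpa using h
  | succ i ih =>
    have e : u ^ (i + 1) * b = u * (u ^ i * b) := by ring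
    rw [e]
    exact nd_mul hu ih

theorem dvd_pow_sub {u : ℤ} (hu : (4 : ℤ) ∣ u - 1) (i : ℕ) : (4 : ℤ) ∣ u ^ i - 1 := by
  have h := sub_dvd_pow_sub_pow u 1 i
  rw [one_pow] at h
  exact hu.trans h

/-- `2^r` divides `g^(2^r) - 1` -/
theorem two_pow_dvd {g : ℤ} (hg : (4 : ℤ) ∣ g - 1) (r : ℕ) : (2 : ℤ) ^ r ∣ g ^ 2 ^ r - 1 := by
  induction r with
  | zero => rw [pow_zero]; exact one_dvd _
  | succ r ih =>
    obtain ⟨c, hc⟩ := ih
    obtain ⟨d, hd⟩ := dvd_pow_sub hg (2 ^ r)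
    have e1 : g ^ 2 ^ (r + 1) = (g ^ 2 ^ r) ^ 2 := by rw [← pow_mul, pow_succ]
    refine ⟨c * (1 + 2 * d), ?_⟩
    have e2 : g ^ 2 ^ (r + 1) - 1 = (g ^ 2 ^ r - 1) * (2 + (g ^ 2 ^ r - 1)) := by
      rw [e1]
      ring
    rw [e2]
    have e3 : (g ^ 2 ^ r - 1) * (2 + (g ^ 2 ^ r - 1)) = (2 ^ r * c) * (2 + 4 * d) := by
      rw [← hd]
      rw [← hc]
    rw [e3, pow_succ]
    ring

/-- the powers of `u` are, modulo `2^n`, all classes `≡ 1` modulo `2^s` -/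
theorem gen {u : ℤ} (hu : (4 : ℤ) ∣ u - 1) (hu1 : u ≠ 1) : ∃ s : ℕ, ∀ (n : ℕ) (b b' : ℤ),
    ¬ (2 : ℤ) ∣ b → (2 : ℤ) ^ s ∣ b - b' → ∃ i : ℕ, (2 : ℤ) ^ n ∣ u ^ i * b - b' := by
  obtain ⟨w, hw, hw3⟩ := (Int.finiteMultiplicity_iff.2
    ⟨by norm_num, sub_ne_zero.2 hu1⟩ : FiniteMultiplicity (2 : ℤ) (u - 1)).exists_eq_pow_mul_and_not_dvd
  obtain ⟨k, hk⟩ : ∃ k, k = multiplicity (2 : ℤ) (u - 1) := ⟨_, rfl⟩
  rw [← hk] at hw
  have hk2 : 2 ≤ k := by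
    by_contra h
    obtain ⟨c, hc⟩ := hu
    rcases (by omega : k = 0 ∨ k = 1) with h0 | h0
    · rw [h0, pow_zero, one_mul] at hw
      exact hw3 ⟨2 * c, by rw [← hw, hc]; ring⟩
    · rw [h0, pow_one] at hw
      exact hw3 ⟨c, by linarith⟩
  have hk1 : 1 ≤ k := by omega
  refine ⟨k, fun n b b' hb hbb => ?_⟩
  rcases le_total n k with hn | hn
  · refine ⟨0, ?_⟩
    rw [pow_zero, one_mul]
    exact (pow_dvd_pow 2 hn).trans hbb
  · induction n, hn using Nat.le_induction with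
    | base => exact ⟨0, by rw [pow_zero, one_mul]; exact hbb⟩
    | succ n hn ih =>
      obtain ⟨i, c, hc⟩ := ih
      obtain ⟨w', h1, h2⟩ := MUXH.Stp.pow_u (p := 2) (w := w) Nat.prime_two hk1
        (fun _ => hk2) (by rw [hw]; norm_num) (by rw [show ((2 : ℕ) : ℤ) = 2 from rfl]; exact hw3) n hn
      rw [show ((2 : ℕ) : ℤ) = 2 from rfl] at h1 h2
      have hb2 := nd_pow hu hb i
      -- the target class
      obtain ⟨t, ht⟩ : ∃ t : ℕ, (2 : ℤ) ∣ t + c := by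
        refine ⟨((-c) % 2).toNat, ?_⟩
        have h3 : 0 ≤ (-c) % 2 := Int.emod_nonneg _ (by norm_num)
        rw [Int.toNat_of_nonneg h3]
        omega
      obtain ⟨j, hj⟩ := MUXH.Stp.solve (p := 2) Nat.prime_two (w := w') (b := u ^ i * b)
        (by rw [show ((2 : ℕ) : ℤ) = 2 from rfl]; exact h2)
        (by rw [show ((2 : ℕ) : ℤ) = 2 from rfl]; exact hb2) t
      rw [show ((2 : ℕ) : ℤ) = 2 from rfl] at hj
      obtain ⟨q, hq⟩ := MUXH.Stp.pow_one_add (p := 2) (hk1.trans hn) w' j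
      rw [show ((2 : ℕ) : ℤ) = 2 from rfl] at hq
      refine ⟨2 ^ (n - k) * j + i, ?_⟩
      obtain ⟨a, ha⟩ := hj
      obtain ⟨d, hd⟩ := ht
      have e1 : u ^ (2 ^ (n - k) * j + i) * b = (1 + (2 : ℤ) ^ n * w') ^ j * (u ^ i * b) := by
        rw [pow_add, pow_mul, h1]
        ring
      have e2 : (1 + (2 : ℤ) ^ n * w') ^ j = 2 ^ (n + 1) * q + (1 + j * ((2 : ℤ) ^ n * w')) := by
        linarith
      rw [e1, e2]
      refine ⟨q * (u ^ i * b) + a + d, ?_⟩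
      have e3 : u ^ i * b = b' + 2 ^ n * c := by linarith
      have e4 : (j : ℤ) * (w' * (u ^ i * b)) = 2 * a + t := by linarith
      have e5 : (c : ℤ) = 2 * d - t := by linarith
      calc (2 ^ (n + 1) * q + (1 + j * ((2 : ℤ) ^ n * w'))) * (u ^ i * b) - b'
          = 2 ^ (n + 1) * q * (u ^ i * b) + (u ^ i * b - b') +
            2 ^ n * (j * (w' * (u ^ i * b))) := by ring
        _ = 2 ^ (n + 1) * q * (u ^ i * b) + (2 ^ n * (2 * d - t)) + 2 ^ n * (2 * a + t) := by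
            rw [e4, hc, e5]
        _ = 2 ^ (n + 1) * (q * (u ^ i * b) + a + d) := by ring

variable {V : ValuationSubring ℂ}

/-- locally constant modulo `m` -/
def LC (m : Submodule V ℂ) (r : ℕ) (y : ℤ → ℂ) : Prop :=
  ∀ b b' : ℤ, ¬ (2 : ℤ) ∣ b → (2 : ℤ) ^ r ∣ b - b' → y b - y b' ∈ m

theorem int_mul (m : Submodule V ℂ) {x : ℂ} (hx : x ∈ m) (c : ℤ) : (c : ℂ) * x ∈ m := by
  have h := zsmul_mem hx c
  rwa [zsmul_eq_mul] at h

/-- an integer divisible by `2^k` times a value -/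
theorem dvd_mul_mem (m : Submodule V ℂ) {k : ℕ} {x : ℂ} (hx : (2 : ℂ) ^ k * x ∈ m) {c : ℤ}
    (hc : (2 : ℤ) ^ k ∣ c) : (c : ℂ) * x ∈ m := by
  obtain ⟨d, rfl⟩ := hc
  have h := int_mul m hx d
  have e : (((2 : ℤ) ^ k * d : ℤ) : ℂ) * x = (d : ℂ) * ((2 : ℂ) ^ k * x) := by
    push_cast
    ring
  rwa [e]

/-- from invariance under `u` to local constancy -/
theorem lc_of_inv {u : ℤ} (hu : (4 : ℤ) ∣ u - 1) (hu1 : u ≠ 1) : ∃ s : ℕ,
    ∀ (m : Submodule V ℂ) (n : ℕ) (y : ℤ → ℂ), (∀ b c : ℤ, (2 : ℤ) ^ n ∣ b - c → y b = y c) →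
      (∀ b : ℤ, ¬ (2 : ℤ) ∣ b → y b - y (u * b) ∈ m) → LC m s y := by
  obtain ⟨s, hs⟩ := gen hu hu1
  refine ⟨s, fun m n y hper hinv b b' hb hbb => ?_⟩
  obtain ⟨i, hi⟩ := hs n b b' hb hbb
  rw [← hper _ _ hi]
  clear hi
  induction i with
  | zero =>
    rw [pow_zero, one_mul, sub_self]
    exact zero_mem _
  | succ i ih =>
    have h := hinv _ (nd_pow hu hb i)
    have e : u ^ (i + 1) * b = u * (u ^ i * b) := by ring
    rw [e]
    have e2 : y b - y (u * (u ^ i * b)) = (y b - y (u ^ i * b)) +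
        (y (u ^ i * b) - y (u * (u ^ i * b))) := by ring
    rw [e2]
    exact add_mem ih h

/-- the difference operator -/
def D (g : ℤ) (y : ℤ → ℂ) : ℤ → ℂ := fun b => y b - y (g * b)

theorem D_per {g : ℤ} {n : ℕ} {y : ℤ → ℂ} (hper : ∀ b c : ℤ, (2 : ℤ) ^ n ∣ b - c → y b = y c) :
    ∀ b c : ℤ, (2 : ℤ) ^ n ∣ b - c → D g y b = D g y c := by
  intro b c h
  unfold D
  rw [hper b c h, hper (g * b) (g * c) (by rw [← mul_sub]; exact Dvd.dvd.mul_left h g)]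

theorem D_mem {g : ℤ} {k : ℕ} {m : Submodule V ℂ} {y : ℤ → ℂ} (h : ∀ b, (2 : ℂ) ^ k * y b ∈ m) :
    ∀ b, (2 : ℂ) ^ k * D g y b ∈ m := by
  intro b
  unfold D
  rw [mul_sub]
  exact sub_mem (h b) (h _)

theorem pow_ne_one' {u : ℤ} (hu : (4 : ℤ) ∣ u - 1) (hu1 : u ≠ 1) {i : ℕ} (hi : i ≠ 0) :
    u ^ i ≠ 1 := by
  intro h
  have h1 : u.natAbs ^ i = 1 := by
    rw [← Int.natAbs_pow, h]
    rfl
  have h2 : u.natAbs = 1 := (pow_eq_one_iff_of_nonneg (Nat.zero_le _) hi).1 h1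
  rcases Int.natAbs_eq u with h3 | h3
  · rw [h2] at h3
    exact hu1 h3
  · rw [h2] at h3
    rw [h3] at hu
    norm_num at hu

/-- step down -/
theorem step {g : ℤ} (hg : (4 : ℤ) ∣ g - 1) (hg1 : g ≠ 1) (k r : ℕ) : ∃ s : ℕ,
    ∀ (m : Submodule V ℂ) (n : ℕ) (y : ℤ → ℂ), (∀ b c : ℤ, (2 : ℤ) ^ n ∣ b - c → y b = y c) →
      (∀ b, (2 : ℂ) ^ k * y b ∈ m) → LC m r (D g y) → LC m s y := by
  obtain ⟨u, hu⟩ : ∃ u : ℤ, u = g ^ 2 ^ r := ⟨_, rfl⟩
  have hu3 : (4 : ℤ) ∣ u - 1 := by rw [hu]; exact dvd_pow_sub hg _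
  have hur : (2 : ℤ) ^ r ∣ u - 1 := by
    rw [hu]
    exact two_pow_dvd hg r
  have hu1 : u ≠ 1 := by rw [hu]; exact pow_ne_one' hg hg1 (by positivity)
  obtain ⟨s, hs⟩ := lc_of_inv (V := V) (dvd_pow_sub hu3 (2 ^ k)) (pow_ne_one' hu3 hu1 (i := 2 ^ k)
    (by positivity))
  refine ⟨s, fun m n y hper hk hlc => hs m n y hper ?_⟩
  -- the sums
  obtain ⟨S, hS⟩ : ∃ S : ℤ → ℂ, ∀ b, S b = y b - y (u * b) := ⟨_, fun _ => rfl⟩
  have hS2 : ∀ b, S b = ∑ i ∈ Finset.range (2 ^ r), D g y (g ^ i * b) := by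
    intro b
    have h1 : ∀ i : ℕ, D g y (g ^ i * b) = y (g ^ i * b) - y (g ^ (i + 1) * b) := by
      intro i
      unfold D
      rw [show g ^ (i + 1) * b = g * (g ^ i * b) by ring]
    rw [Finset.sum_congr rfl fun i _ => h1 i, Finset.sum_range_sub', hS, hu]
    rw [pow_zero, one_mul]
  have hSu : ∀ b : ℤ, ¬ (2 : ℤ) ∣ b → S b - S (u * b) ∈ m := by
    intro b hb
    rw [hS2, hS2, ← Finset.sum_sub_distrib]
    refine Submodule.sum_mem _ fun i _ => hlc _ _ (nd_pow hg hb i) ?_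
    have e : g ^ i * b - g ^ i * (u * b) = (u - 1) * (-(g ^ i * b)) := by ring
    rw [e]
    exact Dvd.dvd.mul_right hur _
  have hSj : ∀ (j : ℕ) (b : ℤ), ¬ (2 : ℤ) ∣ b → S b - S (u ^ j * b) ∈ m := by
    intro j b hb
    induction j with
    | zero =>
      rw [pow_zero, one_mul, sub_self]
      exact zero_mem _
    | succ j ih =>
      have h := hSu _ (nd_pow hu3 hb j)
      have e : u ^ (j + 1) * b = u * (u ^ j * b) := by ring
      rw [e]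
      have e2 : S b - S (u * (u ^ j * b)) = (S b - S (u ^ j * b)) +
          (S (u ^ j * b) - S (u * (u ^ j * b))) := by ring
      rw [e2]
      exact add_mem ih h
  intro b hb
  have hSk : (2 : ℂ) ^ k * S b ∈ m := by
    rw [hS, mul_sub]
    exact sub_mem (hk _) (hk _)
  have h2 : y b - y (u ^ 2 ^ k * b) = ((2 : ℂ) ^ k) * S b -
      ∑ j ∈ Finset.range (2 ^ k), (S b - S (u ^ j * b)) := by
    have h1 : ∀ j : ℕ, S (u ^ j * b) = y (u ^ j * b) - y (u ^ (j + 1) * b) := by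
      intro j
      rw [hS, show u ^ (j + 1) * b = u * (u ^ j * b) by ring]
    rw [Finset.sum_sub_distrib, Finset.sum_const, Finset.card_range, nsmul_eq_mul,
      Finset.sum_congr rfl fun j _ => h1 j, Finset.sum_range_sub', pow_zero, one_mul]
    push_cast
    ring
  rw [h2]
  exact sub_mem hSk (Submodule.sum_mem _ fun j _ => hSj j b hb)

/-- iteration of the step down -/
theorem steps {g : ℤ} (hg : (4 : ℤ) ∣ g - 1) (hg1 : g ≠ 1) (k N : ℕ) : ∀ r : ℕ, ∃ s : ℕ,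
    ∀ (m : Submodule V ℂ) (n : ℕ) (y : ℤ → ℂ), (∀ b c : ℤ, (2 : ℤ) ^ n ∣ b - c → y b = y c) →
      (∀ b, (2 : ℂ) ^ k * y b ∈ m) → LC m r ((D g)^[N] y) → LC m s y := by
  induction N with
  | zero => exact fun r => ⟨r, fun m n y _ _ h => h⟩
  | succ N ih =>
    intro r
    obtain ⟨s, hs⟩ := ih r
    obtain ⟨s', hs'⟩ := step (V := V) hg hg1 k s
    refine ⟨s', fun m n y hper hk h => hs' m n y hper hk ?_⟩
    rw [Function.iterate_succ_apply] at h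
    exact hs m n (D g y) (D_per hper) (D_mem hk) h

theorem iter_per {g : ℤ} {n : ℕ} (N : ℕ) : ∀ {y : ℤ → ℂ},
    (∀ b c : ℤ, (2 : ℤ) ^ n ∣ b - c → y b = y c) →
    ∀ b c : ℤ, (2 : ℤ) ^ n ∣ b - c → (D g)^[N] y b = (D g)^[N] y c := by
  induction N with
  | zero => exact fun h => h
  | succ N ih =>
    intro y h
    rw [Function.iterate_succ_apply]
    exact ih (D_per h)

theorem iter_mem {g : ℤ} {k : ℕ} {m : Submodule V ℂ} (N : ℕ) : ∀ {y : ℤ → ℂ},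
    (∀ b, (2 : ℂ) ^ k * y b ∈ m) → ∀ b, (2 : ℂ) ^ k * (D g)^[N] y b ∈ m := by
  induction N with
  | zero => exact fun h => h
  | succ N ih =>
    intro y h
    rw [Function.iterate_succ_apply]
    exact ih (D_mem h)

/-- the substitution operator -/
def E (g : ℤ) : Module.End ℂ (ℤ → ℂ) where
  toFun y := fun b => y (g * b)
  map_add' _ _ := rfl
  map_smul' _ _ := rfl

theorem E_pow (g : ℤ) (i : ℕ) (y : ℤ → ℂ) (b : ℤ) : ((E g) ^ i) y b = y (g ^ i * b) := by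
  induction i generalizing b with
  | zero => simp
  | succ i ih =>
    rw [pow_succ', Module.End.mul_apply]
    have h1 : (E g) (((E g) ^ i) y) b = ((E g) ^ i) y (g * b) := rfl
    rw [h1, ih, pow_succ]
    ring_nf

theorem iter_eq (g : ℤ) (N : ℕ) (y : ℤ → ℂ) :
    (D g)^[N] y = ((1 + -(E g)) ^ N) y := by
  induction N generalizing y with
  | zero => rfl
  | succ N ih =>
    rw [Function.iterate_succ_apply, ih, pow_succ, Module.End.mul_apply]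
    have h : D g y = (1 + -(E g)) y := by
      funext b
      show y b - y (g * b) = y b + -(y (g * b))
      ring
    rw [h]

theorem iter_sum (g : ℤ) (N : ℕ) (y : ℤ → ℂ) (b : ℤ) :
    (D g)^[N] y b = ∑ j ∈ Finset.range (N + 1), ((-1 : ℂ) ^ (N - j) * (N.choose j : ℂ)) *
      y (g ^ (N - j) * b) := by
  rw [iter_eq, (Commute.one_left (-(E g))).add_pow, LinearMap.sum_apply, Finset.sum_apply]
  refine Finset.sum_congr rfl fun j _ => ?_
  rw [one_pow, one_mul, neg_pow (E g), Module.End.mul_apply, Module.End.mul_apply]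
  have h1 : ((N.choose j : ℕ) : Module.End ℂ (ℤ → ℂ)) y = ((N.choose j : ℕ) : ℂ) • y := by
    funext c
    rw [Module.End.natCast_apply]
    simp
  rw [h1, _root_.map_smul, _root_.map_smul]
  have h2 : ∀ (x : ℤ → ℂ) (i : ℕ), ((-1 : Module.End ℂ (ℤ → ℂ)) ^ i) x = ((-1 : ℂ) ^ i) • x := by
    intro x i
    induction i with
    | zero => simp
    | succ i ih =>
      rw [pow_succ', Module.End.mul_apply, ih, _root_.map_smul, pow_succ']
      funext c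
      simp
  rw [h2]
  simp only [Pi.smul_apply, smul_eq_mul, E_pow]
  ring

theorem comb_eq (α g : ℤ) (N : ℕ) (y : ℤ → ℂ) (b : ℤ) : comb α g N y b =
    (α : ℂ) * (D g)^[N] y b - (α : ℂ) ^ 2 * (D g)^[N] y (α ^ 2 * b) := by
  unfold comb
  rw [iter_sum, iter_sum, Finset.mul_sum, Finset.mul_sum, ← Finset.sum_sub_distrib]
  refine Finset.sum_congr rfl fun j _ => ?_
  rw [← mul_assoc (g ^ (N - j)) (α ^ 2) b]
  ring

end LocT

open LocT in
theorem tt_LOCT : St_LOCT := by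
  intro V h3 m z k n₀ hper hk α g hα hα1 hg hg1 N hcomb
  -- `α` is a unit
  have hint : ∀ n : ℤ, V.valuation (n : ℂ) ≤ 1 := by
    intro n
    have h := V.zsmul_mem (V.one_mem) n
    rw [zsmul_eq_mul, mul_one] at h
    exact (ValuationSubring.valuation_le_one_iff _ _).2 h
  have hαv : V.valuation (α : ℂ) = 1 := by
    refine le_antisymm (hint α) (not_lt.1 fun hlt => ?_)
    obtain ⟨c, hc⟩ := hα
    have h4 : V.valuation ((2 * c : ℂ) * 2) < 1 := by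
      rw [map_mul]
      refine lt_of_le_of_lt (mul_le_of_le_one_left' ?_) h3
      have h7 := hint (2 * c)
      push_cast at h7
      exact h7
    have h5 : V.valuation ((α : ℂ) - (2 * c : ℂ) * 2) < 1 :=
      lt_of_le_of_lt (V.valuation.map_sub _ _) (max_lt hlt h4)
    have e : (α : ℂ) - (2 * c : ℂ) * 2 = 1 := by
      have h6 : (α : ℂ) - 1 = 4 * c := by exact_mod_cast hc
      linear_combination h6
    rw [e, map_one] at h5
    exact lt_irrefl _ h5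
  have hα0 : (α : ℂ) ≠ 0 := by
    intro h0
    rw [h0, map_zero] at hαv
    exact zero_ne_one hαv
  have hαinv : (α : ℂ)⁻¹ ∈ V := by
    rw [← ValuationSubring.valuation_le_one_iff, map_inv₀, hαv, inv_one]
  -- the number `u`
  obtain ⟨u, hu⟩ : ∃ u : ℤ, u = (α ^ 2) ^ 2 ^ k := ⟨_, rfl⟩
  have hα2 : (4 : ℤ) ∣ α ^ 2 - 1 := dvd_pow_sub hα 2
  have hu3 : (4 : ℤ) ∣ u - 1 := by rw [hu]; exact dvd_pow_sub hα2 _
  have hα21 : α ^ 2 ≠ 1 := pow_ne_one' hα hα1 two_ne_zero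
  have hu1 : u ≠ 1 := by rw [hu]; exact pow_ne_one' hα2 hα21 (by positivity)
  have hαk : (2 : ℤ) ^ k ∣ α ^ 2 ^ k - 1 := by
    exact two_pow_dvd hα k
  obtain ⟨s, hs⟩ := lc_of_inv (V := V) hu3 hu1
  obtain ⟨r, hr⟩ := steps (V := V) hg hg1 k N s
  refine ⟨r, fun n hn => hr m n (z n) (hper n) (hk n) ?_⟩
  refine hs m n _ (iter_per N (hper n)) ?_
  have hYk : ∀ b, (2 : ℂ) ^ k * (D g)^[N] (z n) b ∈ m := iter_mem N (hk n)
  obtain ⟨Y, hY⟩ : ∃ Y : ℤ → ℂ, Y = (D g)^[N] (z n) := ⟨_, rfl⟩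
  rw [← hY] at hYk ⊢
  have hstep : ∀ b : ℤ, ¬ (2 : ℤ) ∣ b → Y b - (α : ℂ) * Y (α ^ 2 * b) ∈ m := by
    intro b hb
    have h1 := hcomb n hn b hb
    rw [comb_eq, ← hY] at h1
    have h2 := m.smul_mem (⟨(α : ℂ)⁻¹, hαinv⟩ : V) h1
    have e : (⟨(α : ℂ)⁻¹, hαinv⟩ : V) • ((α : ℂ) * Y b - (α : ℂ) ^ 2 * Y (α ^ 2 * b)) =
        Y b - (α : ℂ) * Y (α ^ 2 * b) := by
      show (α : ℂ)⁻¹ * ((α : ℂ) * Y b - (α : ℂ) ^ 2 * Y (α ^ 2 * b)) = _
      field_simp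
    rwa [e] at h2
  have hi : ∀ (i : ℕ) (b : ℤ), ¬ (2 : ℤ) ∣ b →
      Y b - (α : ℂ) ^ i * Y ((α ^ 2) ^ i * b) ∈ m := by
    intro i b hb
    induction i with
    | zero =>
      rw [pow_zero, pow_zero, one_mul, one_mul, sub_self]
      exact zero_mem _
    | succ i ih =>
      have h1 := hstep _ (nd_pow hα2 hb i)
      have h2 := int_mul m h1 (α ^ i)
      have e : (α ^ 2) ^ (i + 1) * b = α ^ 2 * ((α ^ 2) ^ i * b) := by ring
      rw [e]
      have e2 : Y b - (α : ℂ) ^ (i + 1) * Y (α ^ 2 * ((α ^ 2) ^ i * b)) =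
          (Y b - (α : ℂ) ^ i * Y ((α ^ 2) ^ i * b)) +
          ((α ^ i : ℤ) : ℂ) * (Y ((α ^ 2) ^ i * b) - (α : ℂ) * Y (α ^ 2 * ((α ^ 2) ^ i * b))) := by
        push_cast
        ring
      rw [e2]
      exact add_mem ih h2
  intro b hb
  have h1 := hi (2 ^ k) b hb
  rw [← hu] at h1
  have h2 := dvd_mul_mem m (hYk (u * b)) hαk
  have e : Y b - Y (u * b) = (Y b - (α : ℂ) ^ 2 ^ k * Y (u * b)) +
      ((α ^ 2 ^ k - 1 : ℤ) : ℂ) * Y (u * b) := by
    push_cast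
    ring
  rw [e]
  exact add_mem h1 h2

end

end Pool.Agent.N2H
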