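import Pool.Agent.N2.StHT

/-!
# MUX-2N, block HT, module PAIT (helper97): the value at a pair of determinant `2^n`

Adapted from `Pool/Agent/MUX/HN_PAI.lean` (helper7).
-/

set_option autoImplicit false

namespace Pool.Agent.N2H

open _root_.MU3 Pool.Agent.MuSym Pool.Agent.MUXH Pool.Agent.N2 OnePoint

noncomputable section

/-- PAIT. -/
theorem tt_PAIT : St_PAIT := by
  intro N' nu Q hQ n a b c d hc hd hac hN hdet
  obtain ⟨u, v, huv⟩ := hac
  have hc' : (c : ℚ) ≠ 0 := by exact_mod_cast hc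
  have hd' : (d : ℚ) ≠ 0 := by exact_mod_cast hd
  have h3 : ((2 : ℚ) ^ n) ≠ 0 := by positivity
  have hdet' : (a : ℚ) * d - b * c = 2 ^ n := by exact_mod_cast hdet
  refine ⟨u * b + v * d, ⟨v, ?_⟩, ?_⟩
  · linear_combination b * huv + v * hdet
  · have h1 := hQ.equiv u v (-c) a (by linear_combination huv) ((dvd_neg).2 hN)
      (((a : ℚ) / c : ℚ) : OnePoint ℚ) (((b : ℚ) / d : ℚ) : OnePoint ℚ)
    rw [← h1]
    have e1 : mob u v (-c) a (((a : ℚ) / c : ℚ) : OnePoint ℚ) = ∞ := by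
      show (if ((-c : ℤ) : ℚ) * ((a : ℚ) / c) + a = 0 then (∞ : OnePoint ℚ) else _) = _
      rw [if_pos]
      push_cast
      field_simp
      ring
    have e2 : mob u v (-c) a (((b : ℚ) / d : ℚ) : OnePoint ℚ) =
        ((((u * b + v * d : ℤ) : ℚ) / 2 ^ n : ℚ) : OnePoint ℚ) := by
      have h2 : ((-c : ℤ) : ℚ) * ((b : ℚ) / d) + a = 2 ^ n / d := by
        rw [← hdet']
        push_cast
        field_simp
        ring
      show (if ((-c : ℤ) : ℚ) * ((b : ℚ) / d) + a = 0 then (∞ : OnePoint ℚ) else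
        (((u * ((b : ℚ) / d) + v) / (((-c : ℤ) : ℚ) * ((b : ℚ) / d) + a) : ℚ) : OnePoint ℚ)) = _
      rw [h2, if_neg (div_ne_zero h3 hd')]
      congr 1
      push_cast
      field_simp
    rw [e1, e2]

end

end Pool.Agent.N2H
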