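import Pool.Agent.N2.StHT

/-!
# MUX-2N, block HT, module SHT: `Q_(1/4)` is a symbol with the same character. Model:
`Pool/Agent/MUX/HN_KYN.lean` (helper95)
-/

set_option autoImplicit false

namespace Pool.Agent.N2H

open _root_.MU3 Pool.Agent.MuSym Pool.Agent.MUXH Pool.Agent.N2 OnePoint

noncomputable section

/-- the translation by `1/4` on the finite cusps -/
theorem sht_tau (x : ℚ) : mob 4 1 0 4 (x : OnePoint ℚ) = ((x + 1 / 4 : ℚ) : OnePoint ℚ) := by
  rw [NSY.mob_coe _ _ _ _ _ (by norm_num)]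
  congr 1
  push_cast
  ring

theorem sht_tau_inf : mob 4 1 0 4 (∞ : OnePoint ℚ) = ∞ := NSY.mob_infty0 _ _ _

/-- conjugation of a matrix by the translation by `1/4` -/
theorem sht_conj (a b c d a' b' d' : ℤ) (ha : 4 * a' = 4 * a + c)
    (hb : 16 * b' = 16 * b + 4 * (d - a) - c) (hd : 4 * d' = 4 * d - c) (x : OnePoint ℚ) :
    mob 4 1 0 4 (mob a b c d x) = mob a' b' c d' (mob 4 1 0 4 x) := by
  have ha' : (a' : ℚ) = a + c / 4 := by
    have : (4 : ℚ) * a' = 4 * a + c := by exact_mod_cast ha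
    linarith
  have hb' : (b' : ℚ) = b + (d - a) / 4 - c / 16 := by
    have : (16 : ℚ) * b' = 16 * b + 4 * (d - a) - c := by exact_mod_cast hb
    linarith
  have hd' : (d' : ℚ) = d - c / 4 := by
    have : (4 : ℚ) * d' = 4 * d - c := by exact_mod_cast hd
    linarith
  induction x using OnePoint.rec with
  | infty =>
    by_cases hc : c = 0
    · subst hc
      rw [NSY.mob_infty0, sht_tau_inf, NSY.mob_infty0]
    · have hc' : (c : ℚ) ≠ 0 := by exact_mod_cast hc
      rw [NSY.mob_infty _ _ _ _ hc, sht_tau, sht_tau_inf, NSY.mob_infty _ _ _ _ hc, ha']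
      congr 1
      field_simp
  | coe r =>
    rw [sht_tau]
    have e : (c : ℚ) * (r + 1 / 4) + d' = c * r + d := by
      rw [hd']
      ring
    by_cases h : (c : ℚ) * r + d = 0
    · have h1 : mob a b c d (r : OnePoint ℚ) = ∞ := by
        unfold mob
        simp [h]
      have h2 : mob a' b' c d' ((r + 1 / 4 : ℚ) : OnePoint ℚ) = ∞ := by
        have e' : (c : ℚ) * (r + 4⁻¹) + d' = 0 := by
          rw [← h, ← e]
          ring
        unfold mob
        simp [e']
      rw [h1, h2, sht_tau_inf]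
    · rw [NSY.mob_coe _ _ _ _ _ h, sht_tau, NSY.mob_coe _ _ _ _ _ (by rw [e]; exact h), e]
      congr 1
      have h' : (c : ℚ) * r + d ≠ 0 := h
      rw [eq_div_iff h', add_mul, div_mul_cancel₀ _ h', ha', hb']
      ring

/-- (SHT) -/
theorem tt_SHT : St_SHT := by
  intro N₀ s nu Q hper hsym
  refine ⟨fun x y z => ?_, fun a b c d hdet hc x y => ?_⟩
  · unfold PTq
    rw [← hsym.add x y z, ← hsym.add (mob 4 1 0 4 x) (mob 4 1 0 4 y) (mob 4 1 0 4 z)]
    ring
  · obtain ⟨k, hk⟩ := hc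
    -- `c = 16 c₂`, `c₁ = c/4`
    obtain ⟨c₂, hc2⟩ : ∃ c₂ : ℤ, c₂ = 2 ^ (s + 1) * N₀ * k := ⟨_, rfl⟩
    have hc : c = 16 * c₂ := by
      rw [hk, hc2]
      push_cast
      rw [show s + 5 = 4 + (s + 1) by omega, pow_add]
      ring
    have hlev : ((2 ^ (s + 1) * N₀ : ℕ) : ℤ) ∣ c := by
      rw [hc, hc2]
      push_cast
      exact ⟨16 * k, by ring⟩
    have h2N : ((2 * N₀ : ℕ) : ℤ) ∣ 4 * c₂ := by
      rw [hc2]
      push_cast
      exact ⟨4 * 2 ^ s * k, by ring⟩
    -- `4 ∣ d - a`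
    have h4 : (4 : ℤ) ∣ d - a := by
      have h1 : a * d = 1 + 4 * (4 * (b * c₂)) := by
        rw [hc] at hdet
        linear_combination hdet
      have h2 : (a * d) % 4 = 1 := by omega
      have ha : a % 4 = 0 ∨ a % 4 = 1 ∨ a % 4 = 2 ∨ a % 4 = 3 := by omega
      have hd : d % 4 = 0 ∨ d % 4 = 1 ∨ d % 4 = 2 ∨ d % 4 = 3 := by omega
      rw [Int.mul_emod] at h2
      rcases ha with ha | ha | ha | ha <;> rcases hd with hd | hd | hd | hd <;>
        rw [ha, hd] at h2 <;> norm_num at h2 <;> omega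
    obtain ⟨e, he⟩ := h4
    have hconj := sht_conj a b c d (a + 4 * c₂) (b + e - c₂) (d - 4 * c₂)
      (by rw [hc]; ring) (by rw [hc, he]; ring) (by rw [hc]; ring)
    have hdet' : (a + 4 * c₂) * (d - 4 * c₂) - (b + e - c₂) * c = 1 := by
      rw [hc] at hdet ⊢
      linear_combination hdet + 4 * c₂ * he
    have hnu : nu (d - 4 * c₂) = nu d := by
      apply hper
      have e1 : d - 4 * c₂ - d = -(4 * c₂) := by ring
      rw [e1, dvd_neg]
      exact h2N
    unfold PTq
    rw [hconj x, hconj y, hsym.equiv a b c d hdet hlev x y, hsym.equiv _ _ c _ hdet' hlev, hnu]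
    ring

end

end Pool.Agent.N2H
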