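import Pool.Agent.N2.StHT

/-!
# MUX-2N, block HT, module TYT (helper27): arithmetic of types
-/

set_option autoImplicit false

namespace Pool.Agent.N2H

open _root_.MU3 Pool.Agent.MuSym Pool.Agent.MUXH Pool.Agent.N2 OnePoint

noncomputable section

namespace TYT

variable {Γ : Type*} [LinearOrderedCommGroupWithZero Γ]

private lemma one_le_of_pow {a : Γ} {n : ℕ} (h : 1 ≤ a ^ n) (hn : n ≠ 0) : 1 ≤ a := by
  by_contra hc
  exact absurd h (not_le.2 (pow_lt_one₀ zero_le' (not_le.1 hc) hn))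

private lemma cube {t p x : Γ} {i : ℕ} (hp : p ^ 3 * t ^ i = 1) : (p * x) ^ 3 * t ^ i = x ^ 3 := by
  rw [mul_pow, mul_right_comm, hp, one_mul]

private lemma key {t p x : Γ} (ht0 : t ≠ 0) (ht : t < 1) (hx : x < 1 → x ≤ t) {i j : ℕ}
    (hp : p ^ 3 * t ^ i = 1) (hij : 3 * j + 8 * i < 24) (h : t ^ j ≤ (p * x) ^ 8) : 1 ≤ x := by
  by_contra hx1
  have hxt := hx (not_le.1 hx1)
  have h2 : t ^ (3 * j + 8 * i) ≤ t ^ 24 := by
    calc t ^ (3 * j + 8 * i) = (t ^ j) ^ 3 * t ^ (8 * i) := by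
          rw [pow_add, mul_comm 3 j, pow_mul]
      _ ≤ ((p * x) ^ 8) ^ 3 * t ^ (8 * i) := mul_le_mul' (pow_le_pow_left' h 3) le_rfl
      _ = ((p * x) ^ 3 * t ^ i) ^ 8 := by
          rw [mul_pow ((p * x) ^ 3), ← pow_mul, ← pow_mul, ← pow_mul, mul_comm i 8]
      _ = (x ^ 3) ^ 8 := by rw [cube hp]
      _ = x ^ 24 := by rw [← pow_mul]
      _ ≤ t ^ 24 := pow_le_pow_left' hxt 24
  exact absurd h2 (not_le.2 (pow_lt_pow_right_of_lt_one₀ (zero_lt_iff.2 ht0) ht hij))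

end TYT

open TYT in
theorem tt_TYT : St_TYT := by
  intro V hv KI hKI i hi pi hpi
  have ht0 : V.valuation (2 : ℂ) ≠ 0 := (Valuation.ne_zero_iff _).2 two_ne_zero
  have hp1 : 1 ≤ V.valuation pi := by
    apply one_le_of_pow (n := 3) _ (by norm_num)
    calc (1 : V.ValueGroup) = V.valuation pi ^ 3 * V.valuation (2 : ℂ) ^ i := hpi.symm
      _ ≤ V.valuation pi ^ 3 * 1 := mul_le_mul' le_rfl (pow_le_one' hv.le i)
      _ = V.valuation pi ^ 3 := mul_one _
  refine ⟨hp1, fun w hw => ⟨fun h1 => ?_, ?_, fun h2 h => ?_, fun h1 h => ?_⟩⟩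
  · have hw0 : V.valuation w ≠ 0 := (zero_lt_one.trans h1).ne'
    have hlt : V.valuation w⁻¹ < 1 := by
      rw [map_inv₀]
      exact inv_lt_one_of_one_lt₀ h1
    have hle := hKI w⁻¹ (KI.inv_mem hw) hlt
    calc (1 : V.ValueGroup) = V.valuation w * V.valuation w⁻¹ := by
          rw [map_inv₀, mul_inv_cancel₀ hw0]
      _ ≤ V.valuation w * V.valuation (2 : ℂ) := mul_le_mul' le_rfl hle
  · rw [map_mul, cube hpi]
    exact ⟨fun h => one_le_of_pow h (by norm_num), fun h => one_le_pow_of_one_le' h 3⟩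
  · rw [map_mul] at h
    exact key (j := 1) ht0 hv (hKI w hw) hpi (by omega) (by rwa [pow_one])
  · rw [map_mul] at h
    exact key (j := 5) ht0 hv (hKI w hw) hpi (by omega) h

end

end Pool.Agent.N2H
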