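import Pool.Agent.NS.StTN

/-!
# MUX-2N, block T2N (helper4): finitely many pairs of cusps generate all values
-/

set_option autoImplicit false

namespace Pool.Agent.N2T

open OnePoint Pool.Agent.NST
open Pool.Agent.MUXY (Dn)

noncomputable section

/-- the denominator of a cusp -/
def dc : OnePoint ℚ → ℕ
  | Option.none => 1
  | Option.some r => r.den

lemma dc_pos (x : OnePoint ℚ) : dc x ≠ 0 := by
  induction x using OnePoint.rec with
  | infty => exact one_ne_zero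
  | coe r => exact r.den_nz

lemma dn_of {m : ℕ} {x : OnePoint ℚ} (h : dc x ∣ m) : Dn m x := by
  rintro r rfl
  exact h

theorem fgp : Nt_FGP := by
  classical
  intro P T hT
  obtain ⟨F, hF⟩ : ∃ F : OnePoint ℚ × OnePoint ℚ → ℂ, F = fun q => P q.1 q.2 := ⟨_, rfl⟩
  have hN : IsNoetherian ℤ (Submodule.span ℤ (T : Set ℂ)) :=
    isNoetherian_span_of_finite ℤ (Finset.finite_toSet T)
  have hle : Submodule.span ℤ (F '' Set.univ) ≤ Submodule.span ℤ (T : Set ℂ) := by
    rw [Submodule.span_le]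
    rintro _ ⟨q, -, rfl⟩
    have h1 := hT q.1 q.2
    rw [← Submodule.span_int_eq_addSubgroupClosure] at h1
    rw [hF]
    exact h1
  have hfg := isNoetherian_submodule.1 hN _ hle
  obtain ⟨S', hS', hsp⟩ := (Submodule.fg_span_iff_fg_span_finset_subset _).1 hfg
  obtain ⟨S, -, hS⟩ := Finset.subset_set_image_iff.1 hS'
  obtain ⟨D, hD⟩ : ∃ D : ℕ, D = ∏ q ∈ S, (dc q.1 * dc q.2) := ⟨_, rfl⟩
  have hD0 : D ≠ 0 := by
    rw [hD]
    exact Finset.prod_ne_zero_iff.2 fun q _ => mul_ne_zero (dc_pos _) (dc_pos _)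
  obtain ⟨j, N, hN3, hjN⟩ := Nat.exists_eq_pow_mul_and_not_dvd hD0 3 (by norm_num)
  have hN0 : N ≠ 0 := by
    rintro rfl
    exact hN3 (dvd_zero 3)
  have hdvd : ∀ q ∈ S, dc q.1 * dc q.2 ∣ 3 ^ j * N := by
    intro q hq
    rw [← hjN, hD]
    exact Finset.dvd_prod_of_mem (fun q : OnePoint ℚ × OnePoint ℚ => dc q.1 * dc q.2) hq
  refine ⟨S, j, N, hN0, hN3, fun q hq => ⟨dn_of ((dvd_mul_right _ _).trans (hdvd q hq)),
    dn_of ((dvd_mul_left _ _).trans (hdvd q hq))⟩, fun x y => ?_⟩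
  have h1 : F (x, y) ∈ Submodule.span ℤ (F '' Set.univ) :=
    Submodule.subset_span ⟨(x, y), trivial, rfl⟩
  rw [hsp, ← hS, Finset.coe_image] at h1
  have h2 : F (x, y) ∈ AddSubgroup.closure (F '' (S : Set (OnePoint ℚ × OnePoint ℚ))) := by
    rw [← Submodule.span_int_eq_addSubgroupClosure]
    exact h1
  rw [hF] at h2
  exact h2

end

end Pool.Agent.N2T
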