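import Pool.Agent.N2.T2_ACT
import Pool.Agent.N2.T2_UNF
import Pool.Agent.N2.T2_FGP
import Pool.Agent.NS.T_GLC
import Pool.Agent.NS.T_FGV
import Pool.Agent.NS.T_RTU
import Pool.Agent.NS.T_TYF
import Pool.Agent.MU3.A2Val

/-!
# MUX-2N, block T2N (helper4): the result `S2_TYF`, `2` inert
-/

set_option autoImplicit false

namespace Pool.Agent.N2T

open _root_.MU3 Pool.Agent.MU3A Pool.Agent.MU3B Pool.Agent.RI Pool.Agent.MUX Pool.Agent.MUXU
open OnePoint Pool.Agent.NS Pool.Agent.N2 Pool.Agent.NST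
open Pool.Agent.MUXY (ActN Dn y_MUU y_BRI y_MUI y_MUC y_RA1 y_ALP)

noncomputable section

/-! ### Roots of unity -/

lemma v_odd {V : ValuationSubring ℂ} (h2 : V.valuation (2 : ℂ) < 1) {M : ℕ} (hM : ¬ 2 ∣ M) :
    ¬ V.valuation (M : ℂ) < 1 := by
  intro hMV
  obtain ⟨k, rfl⟩ : ∃ k, M = 2 * k + 1 := ⟨M / 2, by omega⟩
  have h3 : V.valuation (2 * (k : ℂ)) < 1 := by
    rw [map_mul]
    exact mul_lt_one_of_lt_of_le h2 ((V.valuation_le_one_iff _).2 (natCast_mem V k))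
  have h4 : V.valuation (1 : ℂ) < 1 := by
    have e1 : (1 : ℂ) = ((2 * k + 1 : ℕ) : ℂ) - 2 * (k : ℂ) := by push_cast; ring
    rw [e1]
    exact lt_of_le_of_lt (V.valuation.map_sub _ _) (max_lt hMV h3)
  rw [map_one] at h4
  exact lt_irrefl _ h4

lemma rtu2 {V : ValuationSubring ℂ} (h2 : V.valuation (2 : ℂ) < 1) {r : ℕ} (hr : ¬ 2 ∣ r)
    (σ : ℂ ≃+* ℂ) (hσ : ∀ z : ℂ, z ^ r = 1 → V.valuation (σ z - z) < 1) (z : ℂ)
    (hz : z = 0 ∨ z ^ (2 * r) = 1) : σ z = z := by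
  have hr0 : r ≠ 0 := by
    rintro rfl
    exact hr (dvd_zero 2)
  -- roots of odd order
  have key : ∀ z : ℂ, z ^ r = 1 → σ z = z := by
    intro z hz
    have hz0 : z ≠ 0 := by
      rintro rfl
      rw [zero_pow hr0] at hz
      exact zero_ne_one hz
    have h1 : (σ z / z) ^ r = 1 := by
      rw [div_pow, ← map_pow, hz, map_one, div_one]
    have h3 : V.valuation (σ z / z - 1) < 1 := by
      have h4 : σ z / z - 1 = (σ z - z) / z := by
        rw [sub_div, div_self hz0]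
      rw [h4, map_div₀, RTU.v_root hr0 hz, div_one]
      exact hσ z hz
    exact (div_eq_one_iff_eq hz0).1 (RTU.root_one hr0 h1 h3 (v_odd h2 hr))
  rcases hz with rfl | hz
  · exact map_zero σ
  · have h1 : (z ^ r) ^ 2 = 1 := by rw [← pow_mul, mul_comm]; exact hz
    have h2 : (z ^ r - 1) * (z ^ r + 1) = 0 := by linear_combination h1
    rcases mul_eq_zero.1 h2 with h3 | h3
    · exact key z (sub_eq_zero.1 h3)
    · replace h3 : z ^ r = -1 := eq_neg_of_add_eq_zero_left h3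
      have h4 : (-z) ^ r = 1 := by
        rw [Odd.neg_pow (Nat.odd_iff.2 (by omega)), h3, neg_neg]
      have h5 := key _ h4
      rw [map_neg] at h5
      exact neg_inj.1 h5

/-! ### `O/2` has four elements -/

lemma mem_idl2 {A B : ℤ} {x : OO A B} :
    x ∈ idl (A := A) (B := B) 2 ↔ (2 : ℤ) ∣ x.re ∧ (2 : ℤ) ∣ x.im := by
  rw [Ideal.mem_span_singleton]
  have e1 : ((2 : ℕ) : OO A B).re = 2 := by
    rw [QuadraticAlgebra.re_natCast]; rfl
  have e2 : ((2 : ℕ) : OO A B).im = 0 := QuadraticAlgebra.im_natCast _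
  constructor
  · rintro ⟨y, rfl⟩
    rw [QuadraticAlgebra.re_mul, QuadraticAlgebra.im_mul, e1, e2]
    exact ⟨⟨y.re, by ring⟩, ⟨y.im, by ring⟩⟩
  · rintro ⟨⟨a, ha⟩, ⟨b, hb⟩⟩
    refine ⟨⟨a, b⟩, ?_⟩
    ext
    · rw [QuadraticAlgebra.re_mul, e1, e2, ha]; ring
    · rw [QuadraticAlgebra.im_mul, e1, e2, hb]; ring

lemma cube {A B : ℤ} (hC : CaseT A B) {c : OO A B} (hc : c ∉ idl (A := A) (B := B) 2) :
    c ^ 3 - 1 ∈ idl (A := A) (B := B) 2 := by
  have hB : B = 1 := by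
    rcases hC.hB with h | h
    · exfalso
      have := hC.two
      rw [h] at this
      omega
    · exact h
  subst hB
  have hA : (A : ZMod 2) = 1 := by
    have h1 := hC.two
    have h2 : A % 2 = 1 := by omega
    have h3 : (A : ZMod 2) = ((A % 2 : ℤ) : ZMod 2) := by
      rw [ZMod.intCast_eq_intCast_iff_dvd_sub]
      exact ⟨A / 2 * (-1), by push_cast; omega⟩
    rw [h3, h2]
    rfl
  rw [mem_idl2] at hc ⊢
  have hre : (c ^ 3 - 1).re = c.re ^ 3 + 3 * A * c.re * c.im ^ 2 + A * c.im ^ 3 - 1 := by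
    rw [pow_succ, pow_two, QuadraticAlgebra.re_sub]
    simp only [QuadraticAlgebra.re_mul, QuadraticAlgebra.im_mul, QuadraticAlgebra.re_one]
    ring
  have him : (c ^ 3 - 1).im = 3 * c.re ^ 2 * c.im + 3 * c.re * c.im ^ 2 + (1 + A) * c.im ^ 3 := by
    rw [pow_succ, pow_two, QuadraticAlgebra.im_sub]
    simp only [QuadraticAlgebra.re_mul, QuadraticAlgebra.im_mul, QuadraticAlgebra.im_one]
    ring
  rw [hre, him]
  have key : ∀ z : ℤ, (2 : ℤ) ∣ z ↔ (z : ZMod 2) = 0 := fun z => by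
    have := ZMod.intCast_zmod_eq_zero_iff_dvd z 2
    exact_mod_cast this.symm
  rw [key, key] at hc ⊢
  push_cast
  rw [hA]
  generalize (c.re : ZMod 2) = a at hc ⊢
  generalize (c.im : ZMod 2) = b at hc ⊢
  revert a b
  decide

/-! ### Valuations of the elements of the inertia field -/

lemma v_int {V : ValuationSubring ℂ} (h2 : V.valuation (2 : ℂ) < 1) {y : ℤ} (hy : y ≠ 0) :
    ∃ a : ℕ, V.valuation (y : ℂ) = V.valuation (2 : ℂ) ^ a := by
  obtain ⟨a, b, hb, hab⟩ := Nat.exists_eq_pow_mul_and_not_dvd (Int.natAbs_ne_zero.2 hy) 2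
    (by norm_num)
  refine ⟨a, ?_⟩
  have h3 : V.valuation (b : ℂ) = 1 :=
    le_antisymm ((V.valuation_le_one_iff _).2 (natCast_mem V b)) (not_lt.1 (v_odd h2 hb))
  have h4 : V.valuation ((y.natAbs : ℕ) : ℂ) = V.valuation (2 : ℂ) ^ a := by
    rw [hab]
    push_cast
    rw [map_mul, map_pow, h3, mul_one]
  rcases Int.natAbs_eq y with h5 | h5
  · have h6 : (y : ℂ) = ((y.natAbs : ℕ) : ℂ) :=
      (congrArg (fun z : ℤ => (z : ℂ)) h5).trans (Int.cast_natCast _)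
    rw [h6, h4]
  · have h6 : (y : ℂ) = -((y.natAbs : ℕ) : ℂ) :=
      (congrArg (fun z : ℤ => (z : ℂ)) h5).trans (by rw [Int.cast_neg, Int.cast_natCast])
    rw [h6, Valuation.map_neg, h4]

/-- the valuation of an algebraic number is at least a power of `v 2` -/
lemma arch {V : ValuationSubring ℂ} (h2 : V.valuation (2 : ℂ) < 1) {w : ℂ}
    (hw : IsAlgebraic ℚ w) (hw0 : w ≠ 0) :
    ∃ N : ℕ, V.valuation (2 : ℂ) ^ N ≤ V.valuation w := by
  have h1 : IsAlgebraic ℤ (w⁻¹) := (IsFractionRing.isAlgebraic_iff ℤ ℚ ℂ).2 hw.inv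
  obtain ⟨y, hy0, hy⟩ := h1.exists_integral_multiple
  have h3 : V.valuation (y • w⁻¹) ≤ 1 := by
    rw [V.valuation_le_one_iff]
    exact Pool.Agent.MU3A2.mem_of_integral hy
  obtain ⟨a, ha⟩ := v_int h2 hy0
  refine ⟨a, ?_⟩
  rw [zsmul_eq_mul, map_mul, map_inv₀, ha] at h3
  have hw1 : V.valuation w ≠ 0 := (Valuation.ne_zero_iff _).2 hw0
  rwa [← div_eq_mul_inv, div_le_one₀ (zero_lt_iff.2 hw1)] at h3

/-- the values of `v` on a field on which `v` is unramified are the powers of `v 2` -/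
lemma disc {V : ValuationSubring ℂ} (h2 : V.valuation (2 : ℂ) < 1) (K : Subfield ℂ)
    (hK : ∀ w ∈ K, V.valuation w < 1 → V.valuation w ≤ V.valuation (2 : ℂ)) {w : ℂ} (hw : w ∈ K)
    (hwa : IsAlgebraic ℚ w) (hw0 : w ≠ 0) :
    ∃ k : ℤ, V.valuation w = V.valuation (2 : ℂ) ^ k := by
  have h20 : (2 : ℂ) ≠ 0 := two_ne_zero
  have hv2 : V.valuation (2 : ℂ) ≠ 0 := (Valuation.ne_zero_iff _).2 h20
  have h2K : (2 : ℂ) ∈ K := by
    have := natCast_mem K 2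
    exact_mod_cast this
  have key : ∀ (M : ℕ) (w : ℂ), w ∈ K → V.valuation w ≤ 1 →
      V.valuation (2 : ℂ) ^ M ≤ V.valuation w → ∃ j : ℕ, V.valuation w = V.valuation (2 : ℂ) ^ j := by
    intro M
    induction M with
    | zero =>
      intro w _ h1 h3
      exact ⟨0, le_antisymm (by simpa using h1) (by simpa using h3)⟩
    | succ M ih =>
      intro w hw h1 h3
      rcases h1.lt_or_eq with h1 | h1
      · have h4 := hK w hw h1
        obtain ⟨j, hj⟩ := ih (w / 2) (K.div_mem hw h2K) (by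
          rw [map_div₀]
          exact (div_le_one₀ (zero_lt_iff.2 hv2)).2 h4) (by
          rw [map_div₀, le_div_iff₀ (zero_lt_iff.2 hv2), ← pow_succ]
          exact h3)
        refine ⟨j + 1, ?_⟩
        rw [map_div₀, div_eq_iff hv2] at hj
        rw [hj, pow_succ]
      · exact ⟨0, by rw [h1, pow_zero]⟩
  obtain ⟨N, hN⟩ := arch h2 hwa hw0
  obtain ⟨N', hN'⟩ := arch h2 hwa.inv (inv_ne_zero hw0)
  have hw1 : V.valuation w ≠ 0 := (Valuation.ne_zero_iff _).2 hw0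
  obtain ⟨j, hj⟩ := key (N + N') (w * 2 ^ N') (K.mul_mem hw (K.pow_mem h2K _)) (by
    rw [map_inv₀] at hN'
    rw [map_mul, map_pow]
    calc V.valuation w * V.valuation (2 : ℂ) ^ N' ≤ V.valuation w * (V.valuation w)⁻¹ :=
          mul_le_mul' le_rfl hN'
      _ = 1 := mul_inv_cancel₀ hw1) (by
    rw [map_mul, map_pow, pow_add]
    exact mul_le_mul' hN le_rfl)
  refine ⟨j - N', ?_⟩
  rw [map_mul, map_pow] at hj
  rw [zpow_sub₀ hv2, zpow_natCast, zpow_natCast, ← hj, mul_div_assoc,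
    div_self (pow_ne_zero _ hv2), mul_one]

/-! ### Algebraicity -/

lemma alg_ua {A B : ℤ} (hC : CQ A B) (T : TorX A B) {V : ValuationSubring ℂ}
    {b : Ideal (OO A B)} {L : PeriodPair} {om : ℂ} (hL : IsNL b L om) {u e a1 a3 : ℂ}
    (hG : GoodT V L u e a1 a3) : IsAlgebraic ℚ (u * a3) := by
  obtain ⟨w1, w2, h31, h32, hw1, hw2, -, -, he, hu2⟩ := hG.tor
  have hu0 := hG.u0
  have h31' : ((3 : ℕ) : ℂ) * w1 ∈ L.lattice := by exact_mod_cast h31
  have h32' : ((3 : ℕ) : ℂ) * w2 ∈ L.lattice := by exact_mod_cast h32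
  have hP1 : IsAlgebraic ℚ (L.weierstrassP w1) :=
    ALT.alg_RF hC T three_ne_zero (ALT.wp_mem hC hL hw1 h31')
  have hP2 : IsAlgebraic ℚ (L.weierstrassP w2) :=
    ALT.alg_RF hC T three_ne_zero (ALT.wp_mem hC hL hw2 h32')
  have hu2a : IsAlgebraic ℚ (u ^ 2) := by rw [hu2]; exact hP2.sub hP1
  have hk : IsAlgebraic ℚ (kap L) := ALT.alg_RF hC T three_ne_zero (n := 3)
    (IntermediateField.subset_adjoin _ _ ⟨b, L, om, hL, Or.inl rfl⟩)
  have hg2 : IsAlgebraic ℚ L.g₂ := by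
    have h8 : L.g₂ = ((1 / 12 : ℚ) : ℂ) + ((144 : ℚ) : ℂ) * kap L := by
      unfold kap
      push_cast
      ring
    rw [h8]
    exact (ALT.alg_num _).add ((ALT.alg_num _).mul hk)
  have hg3 : IsAlgebraic ℚ L.g₃ := by
    have h8 : L.g₃ = ((-1 / 18 : ℚ) : ℂ) * L.g₂ := by
      rw [hL.nrm]
      push_cast
      ring
    rw [h8]
    exact (ALT.alg_num _).mul hg2
  have hD : IsAlgebraic ℚ (L.derivWeierstrassP w1) := by
    apply IsAlgebraic.of_pow two_pos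
    rw [L.derivWeierstrassP_sq w1 hw1]
    have h4 : IsAlgebraic ℚ (4 : ℂ) := by simpa using ALT.alg_num 4
    exact ((h4.mul (hP1.pow 3)).sub (hg2.mul hP1)).sub hg3
  have heq := hG.eq w1 hw1
  rw [← he, sub_self, zero_div, mul_zero, zero_add, zero_pow (by norm_num), mul_zero,
    zero_add] at heq
  have hua : (u * a3) ^ 2 = (L.derivWeierstrassP w1) ^ 2 * ((u ^ 2) ^ 2)⁻¹ := by
    rw [mul_pow, ← heq]
    field_simp
  apply IsAlgebraic.of_pow two_pos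
  rw [hua]
  exact (hD.pow 2).mul (hu2a.pow 2).inv

/-! ### The result -/

open TYF in
/-- TYPE at `2`, from `S2_RFIN` -/
theorem t2_TYF (hR : S2_RFIN) : S2_TYF := by
  intro A B V f hS hT ι _ R u el a1 a3 hG e he r hr her ka hka
  have hQ : CQ A B := hS.case.toCQ
  have hu0 : u ≠ 0 := hG.u0
  have ha30 : a3 ≠ 0 := by
    rintro rfl
    have := hG.v3
    rw [map_zero] at this
    exact zero_ne_one this
  have hr0 : r ≠ 0 := by
    rintro rfl
    exact hr (dvd_zero 2)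
  have h2r0 : 2 * r ≠ 0 := mul_ne_zero two_ne_zero hr0
  -- `v 2 < 1`
  have h2 : V.valuation (2 : ℂ) < 1 := by
    have h1 : ((2 : ℕ) : OO A B) ∈ idl (A := A) (B := B) 2 := Ideal.mem_span_singleton_self _
    have h3 := (hS.hV _).2 h1
    rw [ValuationSubring.mem_nonunits_iff, MUX.emb_natCast hQ] at h3
    exact_mod_cast h3
  have hv2 : V.valuation (2 : ℂ) ≠ 0 := (Valuation.ne_zero_iff _).2 two_ne_zero
  have hD := absD_ge hQ
  have h3f : 3 ∣ f := by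
    have h1 : (3 : ℤ) ∣ (f : ℤ) := (Dvd.intro _ rfl).trans hS.fD
    exact_mod_cast h1
  have hf3 : 3 ≤ f := Nat.le_of_dvd (Nat.pos_of_ne_zero hS.f0) h3f
  have h2f : 2 * f ≠ 0 := mul_ne_zero (by norm_num) hS.f0
  have hp : 3 ∣ 2 * f := h3f.mul_left 2
  obtain ⟨U, hU⟩ : ∃ U, U = u * a3 := ⟨_, rfl⟩
  have hU0 : U ≠ 0 := by rw [hU]; exact mul_ne_zero hu0 ha30
  have hUa : IsAlgebraic ℚ U := by
    rw [hU]
    exact alg_ua hQ hT (R.nl R.i0) hG
  -- the values of `P = PhiK/(u a3 om_0)`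
  obtain ⟨T, hTT⟩ := nt_FGV A B hQ (2 * f) ι R (idl (2 * f)) e (idl_ne_bot hQ h2f) he ka
    (U * R.om R.i0)
  obtain ⟨S, j0, N0, hN00, -, hSD0, hgen⟩ :=
    fgp (fun x y => PhiK R e ka x y / (U * R.om R.i0)) T hTT
  obtain ⟨j, N, hN2, hjN⟩ := Nat.exists_eq_pow_mul_and_not_dvd
    (mul_ne_zero (pow_ne_zero j0 (by norm_num : (3 : ℕ) ≠ 0)) hN00) 2 (by norm_num)
  rw [hjN] at hSD0
  have hN0 : N ≠ 0 := by
    rintro rfl
    exact hN2 (dvd_zero 2)
  obtain ⟨m', hm'⟩ : ∃ m', m' = f * N := ⟨_, rfl⟩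
  have hm'0 : m' ≠ 0 := by rw [hm']; exact mul_ne_zero hS.f0 hN0
  have hm'2 : ¬ 2 ∣ m' := by
    intro h
    rw [hm'] at h
    rcases (Nat.Prime.dvd_mul Nat.prime_two).1 h with h | h
    · exact hS.fp h
    · exact hN2 h
  have hfm : f ∣ m' := by rw [hm']; exact Dvd.intro _ rfl
  have h3m : 3 ∣ m' := h3f.trans hfm
  obtain ⟨m, hm⟩ : ∃ m, m = 2 ^ (j + 1) * m' := ⟨_, rfl⟩
  have hm0 : m ≠ 0 := by rw [hm]; exact mul_ne_zero (by positivity) hm'0
  have hmm : m' ∣ m := by rw [hm]; exact dvd_mul_left _ _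
  have hpm : 2 * f ∣ m := by
    rw [hm, pow_succ, mul_assoc, mul_comm (2 ^ j)]
    exact (mul_dvd_mul_left 2 hfm).mul_right _
  -- the field
  obtain ⟨Q, hQdef⟩ : ∃ Q : OnePoint ℚ × OnePoint ℚ → ℂ,
    Q = fun q => PhiK R e ka q.1 q.2 / (U * R.om R.i0) := ⟨_, rfl⟩
  have hgen' : ∀ x y, Q (x, y) ∈ AddSubgroup.closure
      (Q '' (S : Set (OnePoint ℚ × OnePoint ℚ))) := by
    rw [hQdef]
    exact hgen
  have hQalg : ∀ q, IsAlgebraic ℚ (Q q) := by
    have hALV := nt_ALV y_ALP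
    intro q
    have hG : ∀ (g : ℕ) (R' : Reps A B g ι) (_ : IsEI (idl (A := A) (B := B) g) e)
        (_ : 3 ∣ g) (_ : g ≠ 0), IsAlgebraic ℚ (PhiK R' e ka q.1 q.2 / (U * R'.om R'.i0)) := by
      intro g R' he' h3 hg
      obtain ⟨k, rfl⟩ := h3
      exact hALV A B hQ hT k (by omega) ι R' e he' (2 * r) h2r0 her ka hka U hUa q.1 q.2
    rw [hQdef]
    exact hG _ R he hp h2f
  set Ts : Set ℂ := (Q '' (S : Set (OnePoint ℚ × OnePoint ℚ))) ∪
    ((Polynomial.nthRootsFinset r (1 : ℂ) : Finset ℂ) : Set ℂ) with hTs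
  have hTfin : Ts.Finite :=
    Set.Finite.union ((Finset.finite_toSet S).image _) (Finset.finite_toSet _)
  have hTalg : ∀ t ∈ Ts, IsAlgebraic ℚ t := by
    rintro t (⟨q, -, rfl⟩ | ht)
    · exact hQalg q
    · rw [Finset.mem_coe, Polynomial.mem_nthRootsFinset (Nat.pos_of_ne_zero hr0)] at ht
      refine ⟨Polynomial.X ^ r - 1, Polynomial.X_pow_sub_C_ne_zero
        (Nat.pos_of_ne_zero hr0) (1 : ℚ), ?_⟩
      simp [ht]
  obtain ⟨F, hFf, hFg, hEF, hTF⟩ := nt_GLC A B hQ (RF (idl (A := A) (B := B) m'))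
    (hT.fin _ (idl_ne_bot hQ hm'0)) Ts hTfin hTalg
  have hrF : ∀ z : ℂ, z ^ r = 1 → z ∈ F := fun z hz => hTF (Or.inr (by
    rw [Finset.mem_coe, Polynomial.mem_nthRootsFinset (Nat.pos_of_ne_zero hr0)]
    exact hz))
  have hQF : ∀ q ∈ S, Q q ∈ F := fun q hq => hTF (Or.inl ⟨q, hq, rfl⟩)
  have hunf := unf2 hQ hS.hV F
  -- the key point
  have hkey : ∀ σ : ℂ ≃+* ℂ, InI A B V (F : Set ℂ) σ →
      ∃ ε : ℂ, ε ^ 3 = 1 ∧ ∀ q ∈ S, ε * σ (Q q) = Q q := by
    intro σ hσ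
    obtain ⟨hRF, c, d, hc1, hc2, hact⟩ := aci2 hR hS.case hS.hV hT R j m' hm'0
      hm'2 σ hσ.fix (fun y hy hyV => hσ.iner y (hEF hy) hyV)
    rw [← hm] at hact
    have hsu : σ U = d R.i0 * U := by
      rw [hU]
      exact sgu2 hQ R hG hmm h3m σ c d hc1 hact
    have hroot : ∀ z : ℂ, (z = 0 ∨ z ^ (2 * r) = 1) → σ z = z := by
      refine rtu2 h2 hr σ ?_
      intro z hz
      have hz1 : V.valuation z = 1 := RTU.v_root hr0 hz
      have h1 := hσ.iner z (hrF z hz) ((V.valuation_le_one_iff _).1 hz1.le)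
      rwa [ValuationSubring.mem_nonunits_iff] at h1
    have hse : ∀ x, σ (e x) = e x := by
      intro x
      apply hroot
      by_cases hx : e x = 0
      · exact Or.inl hx
      · exact Or.inr (her x hx)
    have hsk : ∀ l, σ (ka l) = ka l := fun l => hroot _ (Or.inr (hka l))
    have hdvd : 2 ^ j * N ∣ m := by
      rw [hm, hm']
      exact mul_dvd_mul (pow_dvd_pow 2 (Nat.le_succ j)) (Dvd.intro_left _ rfl)
    refine ⟨e c, ?_, fun q hq => ?_⟩
    · have h1 : e (c ^ 3) = e c ^ 3 := by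
        rw [pow_succ, pow_two, he.mul, he.mul, pow_succ, pow_two]
      rw [← h1, ← he.one]
      apply he.per
      -- `c³ ≡ 1` modulo `2 f`
      have h3 := cube hS.case hc2
      have h4 : c ^ 3 - 1 ∈ idl (A := A) (B := B) f := by
        have h5 : c ^ 3 - 1 = (c ^ 2 + c + 1) * (c - 1) := by ring
        rw [h5]
        exact Ideal.mul_mem_left _ _ (mem_idl_of_dvd hfm hc1)
      rw [Ideal.mem_span_singleton] at h3 h4 ⊢
      have h5 : IsCoprime ((2 : ℕ) : OO A B) ((f : ℕ) : OO A B) := by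
        have h6 : Nat.Coprime 2 f := (Nat.Prime.coprime_iff_not_dvd Nat.prime_two).2 hS.fp
        exact (Nat.isCoprime_iff_coprime.2 h6).map (Int.castRingHom (OO A B))
      have h6 := h5.mul_dvd h3 h4
      rw [← Nat.cast_mul] at h6
      exact h6
    · have h1 := vak2 hQ hf3 R hp e he hmm hm'0 hm0 hfm hpm σ c d hc1 hact hse ka hsk U hU0 hsu
        q.1 q.2 (dn_mono hdvd (hSD0 q hq).1) (dn_mono hdvd (hSD0 q hq).2)
      rw [hQdef]
      exact h1
  have hQU : ∀ x y, PhiK R e ka x y / (u * R.om R.i0) = a3 * Q (x, y) := by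
    intro x y
    rw [hQdef, hU]
    field_simp
  by_cases hS0 : ∀ q ∈ S, Q q = 0
  · -- all values are zero
    refine ⟨1, KIn A B V F, 0, by norm_num, fun x y => ⟨0, (KIn A B V F).zero_mem, ?_⟩,
      fun w hw hw1 => hunf w hw hw1, by rw [map_one, one_pow, pow_zero, one_mul]⟩
    have h1 : AddSubgroup.closure (Q '' (S : Set (OnePoint ℚ × OnePoint ℚ))) ≤ ⊥ := by
      rw [AddSubgroup.closure_le]
      rintro _ ⟨q, hq, rfl⟩
      exact hS0 q hq
    have h3 : Q (x, y) = 0 := h1 (hgen' x y)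
    rw [hQU, h3, mul_zero, mul_zero]
  push Not at hS0
  obtain ⟨q0, hq0, hq00⟩ := hS0
  -- the quotients
  have hquo : ∀ q ∈ S, Q q / Q q0 ∈ KIn A B V F := by
    intro q hq
    refine ⟨F.div_mem (hQF q hq) (hQF q0 hq0), fun σ hσ => ?_⟩
    obtain ⟨ε, hε, h1⟩ := hkey σ hσ
    have hε0 : ε ≠ 0 := by
      rintro rfl
      norm_num at hε
    have h3 := h1 q hq
    have h4 := h1 q0 hq0
    rw [map_div₀]
    nth_rewrite 2 [← h3]
    nth_rewrite 2 [← h4]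
    rw [mul_div_mul_left _ _ hε0]
  have hcub : Q q0 ^ 3 ∈ KIn A B V F := by
    refine ⟨F.pow_mem (hQF q0 hq0) 3, fun σ hσ => ?_⟩
    obtain ⟨ε, hε, h1⟩ := hkey σ hσ
    have h4 := h1 q0 hq0
    rw [map_pow]
    nth_rewrite 2 [← h4]
    rw [mul_pow, hε, one_mul]
  obtain ⟨k, hk⟩ := disc h2 (KIn A B V F) (fun w hw hw1 => hunf w hw hw1) hcub
    ((hQalg q0).pow 3) (pow_ne_zero 3 hq00)
  -- `k = 3 l - i`
  obtain ⟨l, i, hi, hkl⟩ : ∃ (l : ℤ) (i : ℕ), i ≤ 2 ∧ k = 3 * l - i := by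
    refine ⟨(k + 2) / 3, (3 * ((k + 2) / 3) - k).toNat, ?_, ?_⟩ <;> omega
  have h2K : (2 : ℂ) ∈ KIn A B V F := by
    have := natCast_mem (KIn A B V F) 2
    exact_mod_cast this
  have h2l : (2 : ℂ) ^ l ∈ KIn A B V F := zpow_mem h2K l
  have h2l0 : (2 : ℂ) ^ l ≠ 0 := zpow_ne_zero _ two_ne_zero
  refine ⟨a3 * Q q0 / 2 ^ l, KIn A B V F, i, hi, fun x y => ?_,
    fun w hw hw1 => hunf w hw hw1, ?_⟩
  · have hle : AddSubgroup.closure (Q '' (S : Set (OnePoint ℚ × OnePoint ℚ))) ≤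
        ((KIn A B V F).toAddSubgroup).map (AddMonoidHom.mulLeft (Q q0)) := by
      rw [AddSubgroup.closure_le]
      rintro _ ⟨q, hq, rfl⟩
      refine ⟨Q q / Q q0, hquo q hq, ?_⟩
      rw [AddMonoidHom.coe_mulLeft]
      field_simp
    obtain ⟨w', hw', hw2⟩ := hle (hgen' x y)
    refine ⟨2 ^ l * w', (KIn A B V F).mul_mem h2l hw', ?_⟩
    rw [hQU, ← hw2, AddMonoidHom.coe_mulLeft]
    field_simp
  · have h1 : V.valuation (a3 * Q q0 / 2 ^ l) ^ 3 = V.valuation (2 : ℂ) ^ (-(i : ℤ)) := by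
      rw [map_div₀, map_mul, hG.v3, one_mul, div_pow, ← map_pow, hk, map_zpow₀, hkl]
      rw [← zpow_natCast (V.valuation (2 : ℂ) ^ l) 3, ← zpow_mul, ← zpow_sub₀ hv2]
      congr 1
      push_cast
      ring
    rw [h1, zpow_neg, zpow_natCast]
    exact inv_mul_cancel₀ (pow_ne_zero _ hv2)

end

end Pool.Agent.N2T
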