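import Pool.Agent.NS.T_UNF
import Pool.Agent.MUX.E_RAM

/-!
# MUX-2R, block T (helper4): the values on the inertia field, any prime ideal `P`

`ϖ ∈ P`, `ϖ ∉ P²`: the values of `v` on the inertia field of a finite Galois extension `F / k` are powers of `v ϖ`, in the form
`v y < 1 → v y ≤ v ϖ`. The proof is the one of `Pool/Agent/NS/T_UNF.lean` (helper37), with the ring isomorphism of `Pool/Agent/NS/RN_RAM.lean` (helper44).
-/

set_option autoImplicit false

open NumberField IsDedekindDomain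

namespace Pool.Agent.N2T

open _root_.MU3 Pool.Agent.MU3A Pool.Agent.MU3B Pool.Agent.RI Pool.Agent.MUX Pool.Agent.MUXU
open OnePoint Pool.Agent.NS Pool.Agent.NST

noncomputable section

open UNF Pool.Agent.MUXE.RamE Pool.Agent.MU3E.RAM Ideal in
theorem unfP {A B : ℤ} {V : ValuationSubring ℂ} {P : Ideal (OO A B)} (hcq : CQ A B)
    (hV : OverI V P) {ϖ : OO A B} (hϖ : ϖ ∈ P) (hϖ2 : ϖ ∉ P ^ 2)
    (F : IntermediateField (kk A B) ℂ) [FiniteDimensional (kk A B) F] [IsGalois (kk A B) F]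
    (y : ℂ) (hyK : y ∈ KIn A B V F) (hy1 : V.valuation y < 1) :
    V.valuation y ≤ V.valuation (emb ϖ) := by
  obtain ⟨⟨φ, hφ⟩, hinj, hded, hpos, hint⟩ := Pool.Agent.MUXE.te_RNG A B hcq
  have hlt : ∀ x : OO A B, V.valuation (emb x) < 1 ↔ x ∈ P := fun x =>
    (ValuationSubring.mem_nonunits_iff (A := V)).symm.trans (hV x)
  have hϖ0 : ϖ ≠ 0 := by
    rintro rfl
    exact hϖ2 (Ideal.zero_mem _)
  have hw0 : IsIntegral ℤ (wC A B) := by
    rw [hint _ (wC_mem A B)]
    exact ⟨⟨0, 1⟩, by simp [emb]⟩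
  have hfd : FiniteDimensional ℚ (kk A B) :=
    IntermediateField.adjoin.finiteDimensional hw0.tower_top
  have hk : NumberField (kk A B) := ⟨⟩
  have hFQ : FiniteDimensional ℚ F := FiniteDimensional.trans ℚ (kk A B) F
  have hF : NumberField F := ⟨⟩
  have hIn : ∀ x : OO A B, IsIntegral ℤ (ek x) := by
    intro x
    have h2 : IsIntegral ℤ (emb x) := (hint (emb x) (emb_mem x)).mpr ⟨x, rfl⟩
    have h3 : algebraMap (kk A B) ℂ (ek x) = emb x := rfl
    rw [← h3] at h2
    exact (isIntegral_algebraMap_iff (FaithfulSMul.algebraMap_injective (kk A B) ℂ)).mp h2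
  -- the ring isomorphism
  let e : OO A B →+* 𝓞 (kk A B) :=
    { toFun := fun x => ⟨ek x, hIn x⟩
      map_one' := by
        apply RingOfIntegers.ext
        apply Subtype.ext
        change emb 1 = 1
        rw [← hφ, map_one]
      map_mul' := by
        intro a b
        apply RingOfIntegers.ext
        apply Subtype.ext
        change emb (a * b) = emb a * emb b
        rw [← hφ, ← hφ, ← hφ, map_mul]
      map_zero' := by
        apply RingOfIntegers.ext
        apply Subtype.ext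
        change emb 0 = 0
        rw [← hφ, map_zero]
      map_add' := by
        intro a b
        apply RingOfIntegers.ext
        apply Subtype.ext
        change emb (a + b) = emb a + emb b
        rw [← hφ, ← hφ, ← hφ, map_add] }
  have he : ∀ x, (((e x : 𝓞 (kk A B)) : kk A B) : ℂ) = emb x := fun x => rfl
  have hesurj : Function.Surjective e := by
    intro x
    have h2 : IsIntegral ℤ ((x : kk A B) : ℂ) :=
      (RingOfIntegers.isIntegral_coe x).map (Algebra.ofId (kk A B) ℂ |>.restrictScalars ℤ)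
    obtain ⟨z, hz⟩ := (hint _ (x : kk A B).2).mp h2
    refine ⟨z, ?_⟩
    apply RingOfIntegers.ext
    apply Subtype.ext
    rw [he, hz]
  have heinj : Function.Injective e := by
    rw [injective_iff_map_eq_zero]
    intro x hx
    apply hinj
    rw [← he, hx]
    rfl
  have hϖne : emb ϖ ≠ 0 := fun h => hϖ0 (hinj ϖ h)
  have hcoe : algebraMap F ℂ ((algebraMap (𝓞 (kk A B)) (𝓞 F) (e ϖ) : 𝓞 F) : F) = emb ϖ := rfl
  obtain ⟨w, hw⟩ := exists_prime (V := V) (algebraMap F ℂ)
    (z := algebraMap (𝓞 (kk A B)) (𝓞 F) (e ϖ)) (by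
      intro h
      apply hϖne
      rw [← hcoe, h]
      exact map_zero _) (by
      rw [hcoe]
      exact (hlt ϖ).2 hϖ)
  have hcomap : (w.asIdeal.under (𝓞 (kk A B))).comap e = P := by
    ext z
    have hxw : z ∈ (w.asIdeal.under (𝓞 (kk A B))).comap e ↔ V.valuation (emb z) < 1 := by
      exact hw (algebraMap (𝓞 (kk A B)) (𝓞 F) (e z))
    rw [hxw]
    exact hlt z
  have hmap : P.map e = w.asIdeal.under (𝓞 (kk A B)) := by
    rw [← hcomap]
    exact Ideal.map_comap_of_surjective e hesurj _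
  have hq1 : e ϖ ∈ w.asIdeal.under (𝓞 (kk A B)) := by
    rw [← hmap]
    exact Ideal.mem_map_of_mem e hϖ
  have hq2 : e ϖ ∉ (w.asIdeal.under (𝓞 (kk A B))) ^ 2 := by
    rw [← hmap, ← Ideal.map_pow, Ideal.mem_map_iff_of_surjective e hesurj]
    rintro ⟨z, hz, hz2⟩
    rw [heinj hz2] at hz
    exact hϖ2 hz
  set K₁ : IntermediateField (kk A B) F :=
    IntermediateField.fixedField (w.asIdeal.inertia (F ≃ₐ[kk A B] F)) with hK₁
  have hK₁Q : FiniteDimensional ℚ K₁ := FiniteDimensional.trans ℚ (kk A B) K₁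
  have hK₁n : NumberField K₁ := ⟨⟩
  have hcard := card_fixed w K₁ hK₁
  obtain ⟨v, hvp, hvv⟩ := val_card (k := kk A B) w
  obtain ⟨v₁, -, hvv₁⟩ := val_card (k := K₁) w
  rw [hcard] at hvv₁
  set n := Nat.card (w.asIdeal.inertia (F ≃ₐ[kk A B] F)) with hn
  set q : F := algebraMap (kk A B) F ((e ϖ : 𝓞 (kk A B)) : kk A B) with hq
  have hqC : algebraMap F ℂ q = emb ϖ := rfl
  have hq0 : q ≠ 0 := by
    intro h
    apply hϖne
    rw [← hqC, h, map_zero]
  have hval3 : w.valuation F q = WithZero.exp (-1 : ℤ) ^ n := by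
    rw [hq, hvv]
    congr 1
    have h2 : ((e ϖ : 𝓞 (kk A B)) : kk A B) = algebraMap (𝓞 (kk A B)) (kk A B) (e ϖ) := rfl
    rw [h2, HeightOneSpectrum.valuation_of_algebraMap]
    exact intVal_one v (by rw [hvp]; exact hq1) (by rw [hvp]; exact hq2)
  -- the element `y` is in `K₁`
  have hyF : y ∈ F := hyK.1
  have hyK₁ : (⟨y, hyF⟩ : F) ∈ K₁ := by
    rw [hK₁, IntermediateField.mem_fixedField_iff]
    intro σ hσ
    obtain ⟨s, hs⟩ := tu_AUE (F.restrictScalars ℚ) (by
      have h1 : Algebra.IsAlgebraic ℚ F := inferInstance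
      exact h1) ((algebraMap F ℂ).comp (σ : F →+* F))
    have hs' : ∀ x : F, s (x : ℂ) = ((σ x : F) : ℂ) := hs
    have hI : InI A B V (F : Set ℂ) s := by
      refine ⟨?_, ?_, ?_⟩
      · have h1 := hs' (algebraMap (kk A B) F ⟨wC A B, wC_mem A B⟩)
        rw [σ.commutes] at h1
        exact h1
      · intro x hx
        rw [hs' ⟨x, hx⟩]
        exact (σ ⟨x, hx⟩).2
      · intro x hx hxV
        rw [ValuationSubring.mem_nonunits_iff, hs' ⟨x, hx⟩]
        exact inertia_lt (algebraMap F ℂ) hw hσ (x := ⟨x, hx⟩)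
          ((V.valuation_le_one_iff _).2 hxV)
    apply Subtype.ext
    rw [← hs']
    exact hyK.2 s hI
  have h1 := hvv₁ ⟨⟨y, hyF⟩, hyK₁⟩
  have h2 : w.valuation F (⟨y, hyF⟩ : F) < 1 := by
    refine lt_of_le_of_ne (le_ord (algebraMap F ℂ) hw hy1.le) ?_
    intro h
    have h3 := ord_one (algebraMap F ℂ) hw h
    exact absurd h3 hy1.ne
  have h3 : w.valuation F (⟨y, hyF⟩ : F) ≤ w.valuation F q := by
    have h4 : (algebraMap K₁ F) ⟨⟨y, hyF⟩, hyK₁⟩ = (⟨y, hyF⟩ : F) := rfl
    rw [h4] at h1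
    rw [h1] at h2 ⊢
    rw [hval3]
    apply pow_le_pow_left₀ zero_le
    have h5 : v₁.valuation K₁ ⟨⟨y, hyF⟩, hyK₁⟩ < 1 := by
      by_contra h6
      push Not at h6
      exact absurd h2 (not_lt.2 (one_le_pow₀ h6))
    by_cases h0 : v₁.valuation K₁ ⟨⟨y, hyF⟩, hyK₁⟩ = 0
    · rw [h0]
      exact zero_le
    · rw [← WithZero.exp_log h0] at h5 ⊢
      rw [← WithZero.exp_zero, WithZero.exp_lt_exp] at h5
      rw [WithZero.exp_le_exp]
      omega
  have h4 : w.valuation F ((⟨y, hyF⟩ : F) / q) ≤ 1 := by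
    rw [map_div₀]
    have h30 : w.valuation F q ≠ 0 := (map_ne_zero _).2 hq0
    exact (div_le_one₀ (zero_lt_iff.2 h30)).2 h3
  have h5 := ord_le (algebraMap F ℂ) hw h4
  rw [map_div₀, map_div₀, hqC] at h5
  have h30 : V.valuation (emb ϖ) ≠ 0 := (map_ne_zero _).2 hϖne
  exact (div_le_one₀ (zero_lt_iff.2 h30)).1 h5

end

end Pool.Agent.N2T
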