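import Pool.Agent.N2.T3_PRM
import Pool.Agent.N2.T3_UNF
import Pool.Agent.NS.TR_ACF

/-!
# MUX-2R, block T (helper4): the result `SQ_TYF`, `2` ramified

`σ` in the inertia group at `V` of a large Galois extension `F / k` fixes `RF (m')`, `m'` odd, so it acts on the points of level `m = 2^(j+1) m'` of
every `L_i` as `d_i c`, `c ≡ 1` modulo `m'`, `c` prime to `m`. So `e(c) = 1` (`OddF.cond`), and `PhiK/(u a3 om_0)` is fixed by `σ` (`vak2`).
The values of `v` on the inertia field are those of `T3_UNF.lean`. The field `F` contains generators of the values for the single weights, so that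
`pi = a3` and `KI` do not depend on `kk`.
-/

set_option autoImplicit false

namespace Pool.Agent.N2T

open _root_.MU3 Pool.Agent.MU3A Pool.Agent.MU3B Pool.Agent.RI Pool.Agent.MUX Pool.Agent.MUXU
open OnePoint Pool.Agent.NS Pool.Agent.N2 Pool.Agent.NST
open Pool.Agent.MUXY (ActN Dn y_MUU y_BRI y_MUI y_MUC y_RA1 y_ALP)

noncomputable section

/-- `u a3` -/
theorem sgu3 {A B : ℤ} {V : ValuationSubring ℂ} (hC : CQ A B) {n : ℕ} {ι : Type}
    (R : Reps A B n ι) {u e a1 a3 : ℂ} (hG : GoodQ V (R.L R.i0) u e a1 a3) {m m' : ℕ}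
    (hmm : m' ∣ m) (h3 : 3 ∣ m') (σ : ℂ ≃+* ℂ) (c : OO A B) (d : ι → ℤ)
    (hc : c - 1 ∈ idl (A := A) (B := B) m') (hT : ActT R m σ c d) :
    σ (u * a3) = d R.i0 * (u * a3) := by
  set L := R.L R.i0 with hL
  obtain ⟨w1, w2, h31, h32, hw1, hw2, -, -, he, hu2⟩ := hG.tor
  have hu0 := hG.u0
  -- the action on the points of order three
  have hact : ∀ w : ℂ, 3 * w ∈ L.lattice → w ∉ L.lattice →
      σ (L.weierstrassP w) = L.weierstrassP w ∧
      σ (L.derivWeierstrassP w) = d R.i0 * L.derivWeierstrassP w := by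
    intro w h3w hw
    have hmul : ∀ k : ℕ, 3 ∣ k → (k : ℂ) * w ∈ L.lattice := by
      rintro _ ⟨k, rfl⟩
      have h1 := nsmul_mem h3w k
      rw [nsmul_eq_mul] at h1
      have e1 : ((3 * k : ℕ) : ℂ) * w = (k : ℂ) * (3 * w) := by push_cast; ring
      rw [e1]
      exact h1
    obtain ⟨-, hP, hP'⟩ := (hT.act R.i0).act w (hmul m (h3.trans hmm)) hw
    have hcw : emb c * w - w ∈ L.lattice := by
      obtain ⟨y, hy⟩ := Ideal.mem_span_singleton'.1 hc
      have h1 : emb c - 1 = emb y * m' := by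
        have h2 := congrArg emb hy
        rw [Pool.Agent.MUX.emb_mul hC, Pool.Agent.MUX.emb_natCast hC, Pool.Agent.MUX.emb_sub hC,
          Pool.Agent.MUX.emb_one hC] at h2
        exact h2.symm
      have h2 : emb c * w - w = emb y * (m' * w) := by
        linear_combination w * h1
      rw [h2]
      exact (R.nl R.i0).toIsLI.hasCM hC y _ (hmul m' h3)
    have hPc : L.weierstrassP (emb c * w) = L.weierstrassP w := by
      have h4 := L.weierstrassP_add_coe w ⟨emb c * w - w, hcw⟩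
      have h5 : w + ((⟨emb c * w - w, hcw⟩ : L.lattice) : ℂ) = emb c * w := by
        show w + (emb c * w - w) = emb c * w
        ring
      rw [h5] at h4
      exact h4
    have hDc := SGU.der_congr L hcw
    rcases hT.sgn R.i0 with hd | hd
    · rw [hd] at hP hP' ⊢
      push_cast at hP hP' ⊢
      rw [one_mul] at hP hP' ⊢
      exact ⟨by rw [← hP, hPc], by rw [← hP', hDc]⟩
    · rw [hd] at hP hP' ⊢
      push_cast at hP hP' ⊢
      have h1 : -1 * emb c * w = -(emb c * w) := by ring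
      rw [h1] at hP hP'
      rw [L.weierstrassP_neg] at hP
      rw [L.derivWeierstrassP_neg] at hP'
      exact ⟨by rw [← hP, hPc], by rw [← hP', hDc]; ring⟩
  obtain ⟨hP1, hD1⟩ := hact w1 h31 hw1
  obtain ⟨hP2, -⟩ := hact w2 h32 hw2
  have hsu2 : σ (u ^ 2) = u ^ 2 := by
    rw [hu2, map_sub, hP1, hP2]
  -- `u a3 = ± ℘'(w1)/u²`
  have heq := hG.eq w1 hw1
  rw [← he, sub_self, zero_div, mul_zero, zero_add, zero_pow (by norm_num), mul_zero,
    zero_add] at heq
  have hua : u * a3 = L.derivWeierstrassP w1 / u ^ 2 ∨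
      u * a3 = -(L.derivWeierstrassP w1 / u ^ 2) := by
    apply sq_eq_sq_iff_eq_or_eq_neg.1
    rw [mul_pow, ← heq]
    field_simp
  have h5 : σ (L.derivWeierstrassP w1 / u ^ 2) =
      d R.i0 * (L.derivWeierstrassP w1 / u ^ 2) := by
    rw [map_div₀, hD1, hsu2, mul_div_assoc]
  rcases hua with hua | hua
  · rw [hua, h5]
  · rw [hua, map_neg, h5, mul_neg]

/-! ### Algebraicity -/

lemma alg_ua3 {A B : ℤ} (hC : CQ A B) (T : TorX A B) {V : ValuationSubring ℂ}
    {b : Ideal (OO A B)} {L : PeriodPair} {om : ℂ} (hL : IsNL b L om) {u e a1 a3 : ℂ}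
    (hG : GoodQ V L u e a1 a3) : IsAlgebraic ℚ (u * a3) := by
  obtain ⟨w1, w2, h31, h32, hw1, hw2, -, -, he, hu2⟩ := hG.tor
  have hu0 := hG.u0
  have h31' : ((3 : ℕ) : ℂ) * w1 ∈ L.lattice := by exact_mod_cast h31
  have h32' : ((3 : ℕ) : ℂ) * w2 ∈ L.lattice := by exact_mod_cast h32
  have hP1 : IsAlgebraic ℚ (L.weierstrassP w1) :=
    ALT.alg_RF hC T three_ne_zero (ALT.wp_mem hC hL hw1 h31')
  have hP2 : IsAlgebraic ℚ (L.weierstrassP w2) :=
    ALT.alg_RF hC T three_ne_zero (ALT.wp_mem hC hL hw2 h32')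
  have hu2a : IsAlgebraic ℚ (u ^ 2) := by rw [hu2]; exact hP2.sub hP1
  have hk : IsAlgebraic ℚ (kap L) := ALT.alg_RF hC T three_ne_zero (n := 3)
    (IntermediateField.subset_adjoin _ _ ⟨b, L, om, hL, Or.inl rfl⟩)
  have hg2 : IsAlgebraic ℚ L.g₂ := by
    have h8 : L.g₂ = ((1 / 12 : ℚ) : ℂ) + ((144 : ℚ) : ℂ) * kap L := by
      unfold kap
      push_cast
      ring
    rw [h8]
    exact (ALT.alg_num _).add ((ALT.alg_num _).mul hk)
  have hg3 : IsAlgebraic ℚ L.g₃ := by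
    have h8 : L.g₃ = ((-1 / 18 : ℚ) : ℂ) * L.g₂ := by
      rw [hL.nrm]
      push_cast
      ring
    rw [h8]
    exact (ALT.alg_num _).mul hg2
  have hD : IsAlgebraic ℚ (L.derivWeierstrassP w1) := by
    apply IsAlgebraic.of_pow two_pos
    rw [L.derivWeierstrassP_sq w1 hw1]
    have h4 : IsAlgebraic ℚ (4 : ℂ) := by simpa using ALT.alg_num 4
    exact ((h4.mul (hP1.pow 3)).sub (hg2.mul hP1)).sub hg3
  have heq := hG.eq w1 hw1
  rw [← he, sub_self, zero_div, mul_zero, zero_add, zero_pow (by norm_num), mul_zero,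
    zero_add] at heq
  have hua : (u * a3) ^ 2 = (L.derivWeierstrassP w1) ^ 2 * ((u ^ 2) ^ 2)⁻¹ := by
    rw [mul_pow, ← heq]
    field_simp
  apply IsAlgebraic.of_pow two_pos
  rw [hua]
  exact (hD.pow 2).mul (hu2a.pow 2).inv

section
variable {A B : ℤ} {n : ℕ} {ι : Type} [Fintype ι] [DecidableEq ι]

/-- the sum over the single weights -/
lemma phiK_sum (R : Reps A B n ι) (e : OO A B → ℂ) (kk : ι → ℂ) (x y : OnePoint ℚ) :
    PhiK R e kk x y = ∑ i, kk i * PhiK R e (Pi.single i 1) x y := by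
  unfold PhiK
  refine Finset.sum_congr rfl fun i _ => ?_
  have h1 : ∑ j, (Pi.single i (1 : ℂ) : ι → ℂ) j * PhiI (R.b j) e x y = PhiI (R.b i) e x y := by
    rw [Finset.sum_eq_single i]
    · rw [Pi.single_eq_same, one_mul]
    · intro j _ hj
      rw [Pi.single_eq_of_ne hj, zero_mul]
    · intro h
      exact absurd (Finset.mem_univ i) h
  rw [h1]

/-- the values for a single weight are algebraic -/
lemma alg_single (hQ : CQ A B) (hT : TorX A B) (hn : 3 ∣ n) (hn0 : n ≠ 0) (R : Reps A B n ι)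
    (e : OO A B → ℂ) (he : IsEI (idl (A := A) (B := B) n) e) {r : ℕ} (hr : r ≠ 0)
    (her : ∀ x, e x ≠ 0 → e x ^ (2 * r) = 1) {u : ℂ} (hu : IsAlgebraic ℚ u) (i : ι)
    (x y : OnePoint ℚ) : IsAlgebraic ℚ (PhiK R e (Pi.single i 1) x y / (u * R.om R.i0)) := by
  have hALV := nt_ALV y_ALP
  have h2r0 : 2 * r ≠ 0 := mul_ne_zero two_ne_zero hr
  have hG : ∀ (g : ℕ) (R' : Reps A B g ι) (_ : IsEI (idl (A := A) (B := B) g) e)
      (_ : 3 ∣ g) (_ : g ≠ 0) (ka : ι → ℂ) (_ : ∀ j, ka j ^ (2 * r) = 1),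
      IsAlgebraic ℚ (PhiK R' e ka x y / (u * R'.om R'.i0)) := by
    intro g R' he' h3 hg ka hka
    obtain ⟨k, rfl⟩ := h3
    exact hALV A B hQ hT k (by omega) ι R' e he' (2 * r) h2r0 her ka hka u hu x y
  have h1 := hG n R he hn hn0 (fun _ => 1) (fun _ => one_pow _)
  have h2 := hG n R he hn hn0 (Function.update (fun _ => 1) i (-1)) (fun j => by
    by_cases h : j = i
    · rw [h, Function.update_self, pow_mul, neg_one_sq, one_pow]
    · rw [Function.update_of_ne h, one_pow])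
  have h3 : PhiK R e (Pi.single i 1) x y / (u * R.om R.i0) =
      (1 / 2 : ℚ) • (PhiK R e (fun _ => 1) x y / (u * R.om R.i0) -
        PhiK R e (Function.update (fun _ => 1) i (-1)) x y / (u * R.om R.i0)) := by
    have h4 : PhiK R e (Pi.single i 1) x y = (1 / 2 : ℂ) * (PhiK R e (fun _ => 1) x y -
        PhiK R e (Function.update (fun _ => 1) i (-1)) x y) := by
      unfold PhiK
      rw [← Finset.sum_sub_distrib, Finset.mul_sum]
      refine Finset.sum_congr rfl fun j _ => ?_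
      by_cases h : j = i
      · rw [h, Pi.single_eq_same, Function.update_self]
        ring
      · rw [Pi.single_eq_of_ne h, Function.update_of_ne h]
        ring
    rw [h4, Algebra.smul_def]
    simp only [one_div, map_inv₀, map_ofNat]
    ring
  rw [h3]
  exact (h1.sub h2).smul _

end

/-! ### The result -/

open TYF in
/-- TYPE at `2`, ramified, from `SQ_RFIN` -/
theorem t3_TYF (hR : SQ_RFIN) : SQ_TYF := by
  classical
  intro A B P V f hS hT ι _ R u el a1 a3 hG e he r hr her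
  have hC := hS.case
  have hQ : CQ A B := hS.case.toCQ
  have hu0 : u ≠ 0 := hG.u0
  have ha30 : a3 ≠ 0 := by
    rintro rfl
    have := hG.v3
    rw [map_zero] at this
    exact zero_ne_one this
  have hr0 : r ≠ 0 := by
    rintro rfl
    exact hr (dvd_zero 2)
  have h2 : V.valuation (2 : ℂ) < 1 := r_v2 hQ hS.hP hS.hV
  obtain ⟨ϖ, hϖ, hϖ2, hϖv⟩ := r_unif hC hS.hP hS.hV
  have h3f : 3 ∣ f := by
    have h1 : (3 : ℤ) ∣ 8 * (f : ℤ) := (Dvd.intro _ rfl).trans hS.fD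
    omega
  have hf3 : 3 ≤ f := Nat.le_of_dvd (Nat.pos_of_ne_zero hS.f0) h3f
  have h2f : 2 * f ≠ 0 := mul_ne_zero (by norm_num) hS.f0
  have hp : 3 ∣ 2 * f := h3f.mul_left 2
  obtain ⟨U, hU⟩ : ∃ U, U = u * a3 := ⟨_, rfl⟩
  have hU0 : U ≠ 0 := by rw [hU]; exact mul_ne_zero hu0 ha30
  have hUa : IsAlgebraic ℚ U := by
    rw [hU]
    exact alg_ua3 hQ hT (R.nl R.i0) hG
  -- the values of `P = PhiK/(u a3 om_0)` for the single weights
  obtain ⟨Q, hQdef⟩ : ∃ Q : ι → OnePoint ℚ × OnePoint ℚ → ℂ,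
    Q = fun i q => PhiK R e (Pi.single i 1) q.1 q.2 / (U * R.om R.i0) := ⟨_, rfl⟩
  have hgen0 : ∀ i : ι, ∃ (S : Finset (OnePoint ℚ × OnePoint ℚ)) (N : ℕ), N ≠ 0 ∧
      (∀ q ∈ S, Dn N q.1 ∧ Dn N q.2) ∧ ∀ x y, Q i (x, y) ∈ AddSubgroup.closure
        (Q i '' (S : Set (OnePoint ℚ × OnePoint ℚ))) := by
    intro i
    obtain ⟨T, hTT⟩ := nt_FGV A B hQ (2 * f) ι R (idl (2 * f)) e (idl_ne_bot hQ h2f)
      he.toIsEI (Pi.single i 1) (U * R.om R.i0)
    obtain ⟨S, j0, N0, hN00, -, hSD0, hgen⟩ :=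
      fgp (fun x y => PhiK R e (Pi.single i 1) x y / (U * R.om R.i0)) T hTT
    refine ⟨S, 3 ^ j0 * N0, mul_ne_zero (pow_ne_zero _ three_ne_zero) hN00, hSD0, ?_⟩
    rw [hQdef]
    exact hgen
  choose S Nn hNn0 hSD hgen using hgen0
  obtain ⟨j, N, hN2, hjN⟩ := Nat.exists_eq_pow_mul_and_not_dvd
    (Finset.prod_ne_zero_iff.2 fun i (_ : i ∈ (Finset.univ : Finset ι)) => hNn0 i) 2
    (by norm_num)
  have hNd : ∀ i, Nn i ∣ 2 ^ j * N := fun i => by
    rw [← hjN]
    exact Finset.dvd_prod_of_mem Nn (Finset.mem_univ i)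
  have hN0 : N ≠ 0 := by
    rintro rfl
    exact hN2 (dvd_zero 2)
  obtain ⟨m', hm'⟩ : ∃ m', m' = f * N := ⟨_, rfl⟩
  have hm'0 : m' ≠ 0 := by rw [hm']; exact mul_ne_zero hS.f0 hN0
  have hm'2 : ¬ 2 ∣ m' := by
    intro h
    rw [hm'] at h
    rcases (Nat.Prime.dvd_mul Nat.prime_two).1 h with h | h
    · exact hS.fp h
    · exact hN2 h
  have hfm : f ∣ m' := by rw [hm']; exact Dvd.intro _ rfl
  have h3m : 3 ∣ m' := h3f.trans hfm
  obtain ⟨m, hm⟩ : ∃ m, m = 2 ^ (j + 1) * m' := ⟨_, rfl⟩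
  have hm0 : m ≠ 0 := by rw [hm]; exact mul_ne_zero (by positivity) hm'0
  have hmm : m' ∣ m := by rw [hm]; exact dvd_mul_left _ _
  have hpm : 2 * f ∣ m := by
    rw [hm, pow_succ, mul_assoc, mul_comm (2 ^ j)]
    exact (mul_dvd_mul_left 2 hfm).mul_right _
  have hdvd : 2 ^ j * N ∣ m := by
    rw [hm, hm']
    exact mul_dvd_mul (pow_dvd_pow 2 (Nat.le_succ j)) (Dvd.intro_left _ rfl)
  have hQalg : ∀ i q, IsAlgebraic ℚ (Q i q) := by
    intro i q
    rw [hQdef]
    exact alg_single hQ hT hp h2f R e he.toIsEI hr0 her hUa i q.1 q.2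
  -- the field
  set Ts : Set ℂ := (⋃ i, (Q i '' (S i : Set (OnePoint ℚ × OnePoint ℚ)))) ∪
    ((Polynomial.nthRootsFinset r (1 : ℂ) : Finset ℂ) : Set ℂ) with hTs
  have hTfin : Ts.Finite := by
    refine Set.Finite.union (Set.finite_iUnion fun i => ?_) (Finset.finite_toSet _)
    exact (Finset.finite_toSet (S i)).image _
  have hTalg : ∀ t ∈ Ts, IsAlgebraic ℚ t := by
    rintro t (ht | ht)
    · obtain ⟨i, q, -, rfl⟩ := Set.mem_iUnion.1 ht
      exact hQalg i q
    · rw [Finset.mem_coe, Polynomial.mem_nthRootsFinset (Nat.pos_of_ne_zero hr0)] at ht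
      refine ⟨Polynomial.X ^ r - 1, Polynomial.X_pow_sub_C_ne_zero
        (Nat.pos_of_ne_zero hr0) (1 : ℚ), ?_⟩
      simp [ht]
  obtain ⟨F, hFf, hFg, hEF, hTF⟩ := nt_GLC A B hQ (RF (idl (A := A) (B := B) m'))
    (hT.fin _ (idl_ne_bot hQ hm'0)) Ts hTfin hTalg
  have hrF : ∀ z : ℂ, z ^ r = 1 → z ∈ F := fun z hz => hTF (Or.inr (by
    rw [Finset.mem_coe, Polynomial.mem_nthRootsFinset (Nat.pos_of_ne_zero hr0)]
    exact hz))
  have hQF : ∀ i, ∀ q ∈ S i, Q i q ∈ F := fun i q hq =>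
    hTF (Or.inl (Set.mem_iUnion.2 ⟨i, q, hq, rfl⟩))
  have hroot : ∀ σ : ℂ ≃+* ℂ, InI A B V (F : Set ℂ) σ →
      ∀ z : ℂ, (z = 0 ∨ z ^ (2 * r) = 1) → σ z = z := by
    intro σ hσ
    refine rtu2 h2 hr σ ?_
    intro z hz
    have hz1 : V.valuation z = 1 := RTU.v_root hr0 hz
    have h1 := hσ.iner z (hrF z hz) ((V.valuation_le_one_iff _).1 hz1.le)
    rwa [ValuationSubring.mem_nonunits_iff] at h1
  -- the values are in the inertia field
  have hkey : ∀ σ : ℂ ≃+* ℂ, InI A B V (F : Set ℂ) σ → ∀ i, ∀ q ∈ S i, σ (Q i q) = Q i q := by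
    intro σ hσ i q hq
    have hRF := (hR A B P V hC hS.hP hS.hV hT).2 m' hm'0 hm'2 σ hσ.fix
      (fun y hy hyV => hσ.iner y (hEF hy) hyV)
    obtain ⟨c, d, hc1, hcop, hact⟩ := Pool.Agent.NSTR.tw_ACF y_MUU y_BRI A B hQ hT (2 * f) ι R
      m m' hm0 hmm σ hσ.fix hRF
    have hsu : σ U = d R.i0 * U := by
      rw [hU]
      exact sgu3 hQ R hG hmm h3m σ c d hc1 hact
    have hse : ∀ x, σ (e x) = e x := by
      intro x
      apply hroot σ hσ
      by_cases hx : e x = 0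
      · exact Or.inl hx
      · exact Or.inr (her x hx)
    have hsk : ∀ l, σ ((Pi.single i (1 : ℂ) : ι → ℂ) l) = (Pi.single i (1 : ℂ) : ι → ℂ) l := by
      intro l
      apply hroot σ hσ
      by_cases hl : l = i
      · right
        rw [hl, Pi.single_eq_same, one_pow]
      · left
        exact Pi.single_eq_of_ne hl _
    have hec : e c = 1 := by
      rw [← he.one]
      apply he.cond
      · have h3 := Ideal.isCoprime_iff_exists.1 hcop
        obtain ⟨a, ha, b, hb, hab⟩ := h3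
        obtain ⟨a', rfl⟩ := Ideal.mem_span_singleton'.1 ha
        obtain ⟨b', rfl⟩ := Ideal.mem_span_singleton'.1 hb
        obtain ⟨k, hk⟩ := hpm
        refine ⟨a', b' * ((k : ℕ) : OO A B), ?_⟩
        rw [← hab, hk]
        push_cast
        ring
      · exact isCoprime_one_left
      · exact mem_idl_of_dvd hfm hc1
    have h1 := vak2 hQ hf3 R hp e he.toIsEI hmm hm'0 hm0 hfm hpm σ c d hc1 hact hse
      (Pi.single i 1) hsk U hU0 hsu q.1 q.2 (dn_mono ((hNd i).trans hdvd) (hSD i q hq).1)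
      (dn_mono ((hNd i).trans hdvd) (hSD i q hq).2)
    rw [hec, one_mul] at h1
    rw [hQdef]
    exact h1
  have hin : ∀ i x y, Q i (x, y) ∈ KIn A B V F := by
    intro i x y
    have hle : AddSubgroup.closure (Q i '' (S i : Set (OnePoint ℚ × OnePoint ℚ))) ≤
        (KIn A B V F).toAddSubgroup := by
      rw [AddSubgroup.closure_le]
      rintro _ ⟨q, hq, rfl⟩
      exact ⟨hQF i q hq, fun σ hσ => hkey σ hσ i q hq⟩
    exact hle (hgen i x y)
  have hkin : ∀ z : ℂ, (z = 0 ∨ z ^ (2 * r) = 1) → z ∈ KIn A B V F := by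
    intro z hz
    refine ⟨?_, fun σ hσ => hroot σ hσ z hz⟩
    rcases hz with rfl | hz
    · exact F.zero_mem
    · have h1 : (z ^ r) ^ 2 = 1 := by rw [← pow_mul, mul_comm]; exact hz
      have h3 : (z ^ r - 1) * (z ^ r + 1) = 0 := by linear_combination h1
      rcases mul_eq_zero.1 h3 with h3 | h3
      · exact hrF z (sub_eq_zero.1 h3)
      · replace h3 : z ^ r = -1 := eq_neg_of_add_eq_zero_left h3
        have h4 : (-z) ^ r = 1 := by
          rw [Odd.neg_pow (Nat.odd_iff.2 (by omega)), h3, neg_neg]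
        have h5 := F.neg_mem (hrF _ h4)
        rwa [neg_neg] at h5
  refine ⟨a3, KIn A B V F, ?_, ?_, ⟨emb ϖ, ⟨?_, ?_⟩, hϖv⟩, hG.v3⟩
  · intro kk hkk x y
    refine ⟨∑ i, kk i * Q i (x, y), ?_, ?_⟩
    · exact sum_mem fun i _ => mul_mem (hkin _ (hkk i)) (hin i x y)
    · rw [phiK_sum, hQdef, hU, Finset.sum_div, Finset.mul_sum]
      refine Finset.sum_congr rfl fun i _ => ?_
      have := (R.nl R.i0).om_ne
      field_simp
  · intro w hw hw1
    have h1 := unfP hQ hS.hV hϖ hϖ2 F w hw hw1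
    have h3 := pow_le_pow_left₀ zero_le h1 2
    rwa [hϖv] at h3
  · exact F.algebraMap_mem ⟨emb ϖ, MUX.emb_mem ϖ⟩
  · intro σ hσ
    have h1 : σ (wC A B) = wC A B := hσ.fix
    unfold emb
    rw [map_add, map_mul, map_intCast, map_intCast, h1]

end

end Pool.Agent.N2T
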