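import Pool.Agent.MUX.HY_QSX

/-!
# N2, 2 ramified, block H: the quantity of the final statement as a character sum, for `g = 25` and the two parts of
the symbol (helper41)
-/

set_option autoImplicit false

namespace Pool.Agent.N2U

open _root_.MU3 Pool.Agent.MU3A Pool.Agent.MU3B Pool.Agent.MU3F Pool.Agent.MUX Pool.Agent.MUXH
  Pool.Agent.MUXHY Pool.Agent.MuSym OnePoint
open scoped ComplexConjugate

noncomputable section

/-- the sum over norms is zero if no norm is in the class -/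
theorem SnX_zero {A B : ℤ} {n : ℕ} {ι : Type} (R : Reps A B n ι) (m M : ℕ) (e : OO A B → ℂ)
    (i : ι) (c d : ℤ) (hd : d ∣ (M : ℤ))
    (h : ∀ x : OO A B, e x ≠ 0 → ¬ d ∣ nm x * nI (R.b i) - c) : SnX R m M e i c = 0 := by
  unfold SnX sumMod
  rw [show (fun q : OO A B ⧸ Ideal.span {((m : ℕ) : OO A B)} =>
      (if (M : ℤ) ∣ nm (Quotient.out q) * nI (R.b i) - c then
        e (Quotient.out q) * ee (R.L i) (pt R m i (Quotient.out q)) else 0)) = fun _ => 0 from ?_]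
  · simp
  · funext q
    split_ifs with h1
    · by_cases h2 : e (Quotient.out q) = 0
      · rw [h2, zero_mul]
      · exact absurd (hd.trans h1) (h _ h2)
    · rfl

open Pool.Agent.MU3H.Qs in
/-- the algebra of character sums -/
theorem qs_gen {M : ℕ} (hM : M ≠ 0) {a u : ℤ} (ha : IsCoprime a (M : ℤ))
    (hu : IsCoprime u (M : ℤ)) (N : ℕ) (Q : ℤ → ℂ) (hQ : ∀ b k : ℤ, Q (b + M * k) = Q b)
    (K : ℂ) (T : ℕ → ℂ)
    (hT : ∀ j ≤ N, T j = K * ((a : ℂ) * ∑ b ∈ Finset.range M,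
        ex (((-((b : ℤ) * (a ^ 2 * u ^ j)) : ℤ) : ℚ) / (M : ℚ)) * Q b -
      (a : ℂ) ^ 2 * ∑ b ∈ Finset.range M, ex (((-((b : ℤ) * u ^ j) : ℤ) : ℚ) / (M : ℚ)) * Q b)) :
    ∑ j ∈ Finset.range (N + 1), ((-1 : ℂ) ^ (N - j) * (N.choose j : ℂ)) * T j =
      K * ∑ b ∈ Finset.range M, ex (((-(u ^ N * a ^ 2) : ℤ) : ℚ) / (M : ℚ)) ^ b *
        comb a u N Q b := by
  have : NeZero M := ⟨hM⟩
  have hMQ : (M : ℚ) ≠ 0 := Nat.cast_ne_zero.2 hM
  set E : ℤ → ℂ := fun k => ex (k / (M : ℚ)) with hEdef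
  have hEadd : ∀ k l : ℤ, E (k + l) = E k * E l := by
    intro k l
    simp only [hEdef]
    rw [← ex_add]
    congr 1
    push_cast
    ring
  have hEq : ∀ k : ℤ, E (M * k) = 1 := by
    intro k
    simp only [hEdef]
    rw [← ex_int k]
    congr 1
    push_cast
    field_simp
  have hEper : ∀ b k : ℤ, E (b + M * k) = E b := by
    intro b k
    rw [hEadd, hEq, mul_one]
  set W : ℤ → ℂ := fun c => ∑ b ∈ Finset.range M, E (-(b * c)) * Q b with hWdef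
  have hsub : ∀ (c u : ℤ), IsCoprime u (M : ℤ) →
      W c = ∑ b ∈ Finset.range M, E (-(b * (u * c))) * Q (u * b) := by
    intro c u hu
    have hG : ∀ b k : ℤ, (fun b : ℤ => E (-(b * c)) * Q b) (b + M * k) =
        (fun b : ℤ => E (-(b * c)) * Q b) b := by
      intro b k
      show E (-((b + M * k) * c)) * Q (b + M * k) = E (-(b * c)) * Q b
      rw [hQ, show -((b + M * k) * c) = -(b * c) + M * (-(k * c)) by ring, hEper]
    have h := sum_mul (G := fun b : ℤ => E (-(b * c)) * Q b) hG hu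
    simp only [hWdef]
    rw [← h]
    refine Finset.sum_congr rfl (fun b _ => ?_)
    show E (-((u * (b : ℤ)) * c)) * Q (u * (b : ℤ)) = _
    rw [show -((u * (b : ℤ)) * c) = -(b * (u * c)) by ring]
  have hz : ∀ b : ℕ, ex (((-(u ^ N * a ^ 2) : ℤ) : ℚ) / (M : ℚ)) ^ b =
      E (-(b * (u ^ N * a ^ 2))) := by
    intro b
    rw [ex_pow]
    simp only [hEdef]
    congr 1
    push_cast
    ring
  have hTW : ∀ j ≤ N, T j = K * ((a : ℂ) * W (a ^ 2 * u ^ j) - (a : ℂ) ^ 2 * W (u ^ j)) :=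
    hT
  have hterm : ∀ j ∈ Finset.range (N + 1),
      (a : ℂ) * W (a ^ 2 * u ^ j) - (a : ℂ) ^ 2 * W (u ^ j) =
        ∑ b ∈ Finset.range M, E (-(b * (u ^ N * a ^ 2))) *
          ((a : ℂ) * Q (u ^ (N - j) * b) - (a : ℂ) ^ 2 * Q (u ^ (N - j) * a ^ 2 * b)) := by
    intro j hj
    have hjN : N - j + j = N := Nat.sub_add_cancel (Nat.lt_succ_iff.mp (Finset.mem_range.mp hj))
    have e4 : u ^ (N - j) * u ^ j = u ^ N := by rw [← pow_add, hjN]
    rw [hsub (a ^ 2 * u ^ j) (u ^ (N - j)) hu.pow_left,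
      hsub (u ^ j) (u ^ (N - j) * a ^ 2) (hu.pow_left.mul_left ha.pow_left),
      Finset.mul_sum, Finset.mul_sum, ← Finset.sum_sub_distrib]
    refine Finset.sum_congr rfl (fun b _ => ?_)
    rw [show u ^ (N - j) * (a ^ 2 * u ^ j) = u ^ N * a ^ 2 by rw [← e4]; ring,
      show u ^ (N - j) * a ^ 2 * u ^ j = u ^ N * a ^ 2 by rw [← e4]; ring]
    ring
  have hlhs : ∀ j ∈ Finset.range (N + 1),
      ((-1 : ℂ) ^ (N - j) * (N.choose j : ℂ)) * T j =
      K * ∑ b ∈ Finset.range M, E (-(b * (u ^ N * a ^ 2))) *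
        (((-1 : ℂ) ^ (N - j) * (N.choose j : ℂ)) *
          ((a : ℂ) * Q (u ^ (N - j) * b) - (a : ℂ) ^ 2 * Q (u ^ (N - j) * a ^ 2 * b))) := by
    intro j hj
    rw [hTW j (Nat.lt_succ_iff.mp (Finset.mem_range.mp hj)), hterm j hj, Finset.mul_sum,
      Finset.mul_sum, Finset.mul_sum]
    refine Finset.sum_congr rfl (fun b _ => ?_)
    ring
  rw [Finset.sum_congr rfl hlhs, ← Finset.mul_sum, Finset.sum_comm]
  congr 1
  refine Finset.sum_congr rfl (fun b _ => ?_)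
  rw [hz b, ← Finset.mul_sum]
  congr 1

open Qsx Pool.Agent.MU3H.Qs in
/-- (QSU) the quantity of the final statement as a character sum, for any `u = 1` modulo `8` and
the two parts `kP`, `kM` of the weights: `kk_i = kP_i` if classes `c = 1` modulo `8` occur as
`N(x) N(b_i)`, `kk_i = kM_i` if classes `c = -1` occur. -/
theorem qsu (h1 : MUXF.Sx_F5) (h2 : MUXF.Sx_PRD) {A B : ℤ} (hC : CQ A B) {f : ℕ} (hf : f ≠ 0)
    {ι : Type} [Fintype ι] (R : Reps A B (2 * f) ι) {g : Ideal (OO A B)} {e : OO A B → ℂ}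
    (he : IsEI g e) (hg : ((2 * f : ℕ) : OO A B) ∈ g) (kk kP kM : ι → ℂ) (N n : ℕ) {u : ℤ}
    (hu : (8 : ℤ) ∣ u - 1)
    (hP : ∀ (i : ι) (c : ℤ), (8 : ℤ) ∣ c - 1 →
      kk i * SnX R (lvX 2 f n) (q0 2 * 2 ^ n) e i c = kP i * SnX R (lvX 2 f n) (q0 2 * 2 ^ n) e i c)
    (hM : ∀ (i : ι) (c : ℤ), (8 : ℤ) ∣ c - 1 →
      kk i * SnX R (lvX 2 f n) (q0 2 * 2 ^ n) e i (-c) =
        kM i * SnX R (lvX 2 f n) (q0 2 * 2 ^ n) e i (-c)) :
    ∑ j ∈ Finset.range (N + 1), ((-1 : ℂ) ^ (N - j) * (N.choose j : ℂ)) *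
        (STX R (lvX 2 f n) (q0 2 * 2 ^ n) (aX 2 f) e kk (u ^ j) +
          STX R (lvX 2 f n) (q0 2 * 2 ^ n) (aX 2 f) e kk (-u ^ j)) =
      2 * f * ∑ b ∈ Finset.range (q0 2 * 2 ^ n),
        ex (((-(u ^ N * (aX 2 f : ℤ) ^ 2) : ℤ) : ℚ) / ((q0 2 * 2 ^ n : ℕ) : ℚ)) ^ b *
          comb (aX 2 f) u N (fun b =>
            PP R ⊤ e kP 0 ∞ ((b / ((q0 2 * 2 ^ n : ℕ) : ℚ) : ℚ) : OnePoint ℚ) +
            PP R ⊤ e kM 0 (mob (-1) 0 0 1 ∞)
              (mob (-1) 0 0 1 ((b / ((q0 2 * 2 ^ n : ℕ) : ℚ) : ℚ) : OnePoint ℚ))) b := by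
  have hp : Nat.Prime 2 := Nat.prime_two
  have hMdef : q0 2 * 2 ^ n ≠ 0 := mul_ne_zero (q0_ne hp) (pow_ne_zero _ hp.ne_zero)
  have hSnX := fun i c => SnX_eq h1 hC hp hf R he hg n i c
  have hodd : ∀ u : ℤ, (8 : ℤ) ∣ u - 1 → IsCoprime u ((q0 2 * 2 ^ n : ℕ) : ℤ) := by
    intro u hu
    have h3 : IsCoprime u (2 : ℤ) := by
      obtain ⟨t, ht⟩ := hu
      exact ⟨1, -(4 * t), by linear_combination ht⟩
    have h4 : ((q0 2 * 2 ^ n : ℕ) : ℤ) = 2 ^ (n + 2) := by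
      unfold q0
      push_cast
      norm_num
      ring
    rw [h4]
    exact h3.pow_right
  have ha8 : (8 : ℤ) ∣ (aX 2 f : ℤ) - 1 := by
    refine ⟨f, ?_⟩
    unfold aX q0
    push_cast
    norm_num
  have hmul8 : ∀ x y : ℤ, (8 : ℤ) ∣ x - 1 → (8 : ℤ) ∣ y - 1 → (8 : ℤ) ∣ x * y - 1 := by
    intro x y hx hy
    have h1 : x * y - 1 = (x - 1) * y + (y - 1) := by ring
    rw [h1]
    exact dvd_add (Dvd.dvd.mul_right hx y) hy
  have hpow8 : ∀ j : ℕ, (8 : ℤ) ∣ u ^ j - 1 := by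
    intro j
    have := sub_dvd_pow_sub_pow u 1 j
    rw [one_pow] at this
    exact hu.trans this
  generalize hMM : q0 2 * 2 ^ n = M at *
  have : NeZero M := ⟨hMdef⟩
  have hMQ : (M : ℚ) ≠ 0 := Nat.cast_ne_zero.2 hMdef
  set FP : ℤ → ℂ := fun b => PP R ⊤ e kP 0 ∞ ((b / (M : ℚ) : ℚ) : OnePoint ℚ) with hFPdef
  set FM : ℤ → ℂ := fun b => PP R ⊤ e kM 0 ∞ ((b / (M : ℚ) : ℚ) : OnePoint ℚ) with hFMdef
  set Q : ℤ → ℂ := fun b => PP R ⊤ e kP 0 ∞ ((b / (M : ℚ) : ℚ) : OnePoint ℚ) +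
            PP R ⊤ e kM 0 (mob (-1) 0 0 1 ∞)
              (mob (-1) 0 0 1 ((b / (M : ℚ) : ℚ) : OnePoint ℚ)) with hQdef
  set E : ℤ → ℂ := fun k => ex (k / (M : ℚ)) with hEdef
  have hPF : ∀ b : ℤ, Q b = FP b + FM (-b) := by
    intro b
    simp only [hQdef, hFPdef, hFMdef]
    rw [mob_inf, mob_neg]
    congr 4
    push_cast
    ring
  have hper : ∀ (k' : ι → ℂ) (b k : ℤ),
      PP R ⊤ e k' 0 ∞ (((b + M * k : ℤ) / (M : ℚ) : ℚ) : OnePoint ℚ) =
        PP R ⊤ e k' 0 ∞ ((b / (M : ℚ) : ℚ) : OnePoint ℚ) := by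
    intro k' b k
    have h := PP_per h2 hC R ⊤ e k' (b / (M : ℚ)) k
    rw [← h]
    congr 3
    push_cast
    field_simp
  have hQper : ∀ b k : ℤ, Q (b + M * k) = Q b := by
    intro b k
    rw [hPF, hPF]
    congr 1
    · exact hper kP b k
    · have := hper kM (-b) (-k)
      simp only [hFMdef]
      rw [← this]
      congr 3
      push_cast
      ring
  have hEadd : ∀ k l : ℤ, E (k + l) = E k * E l := by
    intro k l
    simp only [hEdef]
    rw [← ex_add]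
    congr 1
    push_cast
    ring
  have hEq : ∀ k : ℤ, E (M * k) = 1 := by
    intro k
    simp only [hEdef]
    rw [← ex_int k]
    congr 1
    push_cast
    field_simp
  have hEper : ∀ b k : ℤ, E (b + M * k) = E b := by
    intro b k
    rw [hEadd, hEq, mul_one]
  -- the transform
  have hSn : ∀ (k' : ι → ℂ) (c : ℤ), ∑ i, k' i * SnX R (lvX 2 f n) M e i c =
      (2 * f) * ∑ b ∈ Finset.range M, E (-(b * c)) *
        PP R ⊤ e k' 0 ∞ ((((b : ℕ) : ℤ) / (M : ℚ) : ℚ) : OnePoint ℚ) := by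
    intro k' c
    have h3 : ∀ i, k' i * SnX R (lvX 2 f n) M e i c = ∑ b ∈ Finset.range M, (2 * f) *
        (E (-(b * c)) * (k' i / e ((nI (R.b i) : ℕ) : OO A B) *
          PhiI (R.b i) e ∞ ((((b : ℕ) : ℤ) / (M : ℚ) : ℚ) : OnePoint ℚ) / R.om R.i0)) := by
      intro i
      rw [hSnX i c, Finset.mul_sum, Finset.mul_sum, Finset.mul_sum]
      refine Finset.sum_congr rfl fun b _ => ?_
      have h4 : E (-(b * c)) = ex (-(b * c) / (M : ℚ)) := by
        simp only [hEdef]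
        push_cast
        rfl
      rw [h4, Int.cast_natCast]
      ring
    rw [Finset.sum_congr rfl (fun i _ => h3 i), Finset.sum_comm, Finset.mul_sum]
    refine Finset.sum_congr rfl fun b _ => ?_
    rw [← Finset.mul_sum, ← Finset.mul_sum, ← Finset.sum_div]
    congr 2
    simp only [PP]
    rw [pow_zero]
    simp only [mul_one]
  have hneg : ∀ c : ℤ, ∑ b ∈ Finset.range M, E (-(b * (-c))) * FM b =
      ∑ b ∈ Finset.range M, E (-(b * c)) * FM (-b) := by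
    intro c
    have hG : ∀ b k : ℤ, (fun b : ℤ => E (-(b * (-c))) * FM b) (b + M * k) =
        (fun b : ℤ => E (-(b * (-c))) * FM b) b := by
      intro b k
      show E (-((b + M * k) * (-c))) * FM (b + M * k) = E (-(b * (-c))) * FM b
      have : FM (b + M * k) = FM b := hper kM b k
      rw [this, show -((b + M * k) * (-c)) = -(b * (-c)) + M * (k * c) by ring, hEper]
    have h := sum_mul (G := fun b : ℤ => E (-(b * (-c))) * FM b) hG (u := -1)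
      (by exact (isCoprime_one_left).neg_left)
    rw [← h]
    refine Finset.sum_congr rfl (fun b _ => ?_)
    show E (-((-1 * (b : ℤ)) * (-c))) * FM (-1 * (b : ℤ)) = _
    rw [show -((-1 * (b : ℤ)) * (-c)) = -(b * c) by ring, show -1 * (b : ℤ) = -b by ring]
  have hSW : ∀ c : ℤ, (8 : ℤ) ∣ c - 1 → ∑ i, kk i * SnX R (lvX 2 f n) M e i c +
      ∑ i, kk i * SnX R (lvX 2 f n) M e i (-c) =
      (2 * f) * ∑ b ∈ Finset.range M, E (-(b * c)) * Q b := by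
    intro c hc
    rw [Finset.sum_congr rfl (fun i _ => hP i c hc), Finset.sum_congr rfl (fun i _ => hM i c hc),
      hSn kP c, hSn kM (-c)]
    have h5 := hneg c
    simp only [hFMdef] at h5
    rw [h5, ← mul_add, ← Finset.sum_add_distrib]
    congr 1
    refine Finset.sum_congr rfl (fun b _ => ?_)
    rw [hPF, mul_add]
  have ha2 : (8 : ℤ) ∣ (aX 2 f : ℤ) ^ 2 - 1 := by rw [sq]; exact hmul8 _ _ ha8 ha8
  refine qs_gen hMdef (hodd _ ha8) (hodd _ hu) N Q hQper (2 * f) (fun j =>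
    STX R (lvX 2 f n) M (aX 2 f) e kk (u ^ j) + STX R (lvX 2 f n) M (aX 2 f) e kk (-u ^ j)) ?_
  intro j _
  have e0 : ∀ c, STX R (lvX 2 f n) M (aX 2 f) e kk c =
      ((aX 2 f : ℕ) : ℂ) * ∑ i, kk i * SnX R (lvX 2 f n) M e i ((aX 2 f : ℤ) ^ 2 * c) -
        ((aX 2 f : ℕ) : ℂ) ^ 2 * ∑ i, kk i * SnX R (lvX 2 f n) M e i c := by
    intro c
    unfold STX
    rw [Finset.mul_sum, Finset.mul_sum, ← Finset.sum_sub_distrib]
    refine Finset.sum_congr rfl fun i _ => ?_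
    ring
  have e1 := hSW (u ^ j) (hpow8 j)
  have e2 := hSW ((aX 2 f : ℤ) ^ 2 * u ^ j) (hmul8 _ _ ha2 (hpow8 j))
  simp only [hEdef] at e1 e2
  beta_reduce
  rw [e0, e0, show (aX 2 f : ℤ) ^ 2 * -u ^ j = -((aX 2 f : ℤ) ^ 2 * u ^ j) by ring,
    Int.cast_natCast]
  linear_combination ((aX 2 f : ℕ) : ℂ) * e2 - ((aX 2 f : ℕ) : ℂ) ^ 2 * e1

end

end Pool.Agent.N2U
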