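import Pool.Agent.N2.U_Hyp
import Pool.Agent.N2.U_QSU
import Pool.Agent.MUX.HY_HFX

/-!
# N2, 2 ramified, block H (helper41): the final statement `SQ_HFIN`
-/

set_option autoImplicit false

namespace Pool.Agent.N2U

open _root_.MU3 Pool.Agent.MU3A Pool.Agent.MU3B Pool.Agent.MU3F Pool.Agent.MUX Pool.Agent.MUXH
  Pool.Agent.MUXHY Pool.Agent.MuSym Pool.Agent.NS Pool.Agent.N2 Pool.Agent.N2H OnePoint
open scoped ComplexConjugate

noncomputable section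

theorem dH_eq (A : ℤ) (hA : A % 4 = 2 ∨ A % 4 = 3) : dH (hR A) = dR A := by
  unfold dH dR
  rcases hR_cases hA with ⟨h0, h⟩ | ⟨h0, h⟩ | ⟨h0, h⟩
  · rw [h, if_pos rfl, if_pos h0]
  · rw [h, if_neg (by norm_num), if_neg (by omega)]
  · rw [h, if_neg (by norm_num), if_neg (by omega)]

/-- the sums over the classes `c`, `-c` see only one part of the weights -/
theorem part {A : ℤ} {P : Ideal (OO A 0)} {V : ValuationSubring ℂ} {f : ℕ}
    (H : SetQ A 0 P V f) {ι : Type} (R : Reps A 0 (2 * f) ι) {e : OO A 0 → ℂ}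
    (he : IsEI (idl (A := A) (B := 0) (2 * f)) e) (kk : ι → ℂ) (m M : ℕ) (hM : 8 ∣ M) (s : ℤ)
    (hs : s = 1 ∨ s = -1) (i : ι) (c : ℤ) (hc : (8 : ℤ) ∣ c - 1) :
    kk i * SnX R m M e i (s * c) = kS R s kk i * SnX R m M e i (s * c) := by
  obtain ⟨hA0, hqf, -, -, -⟩ := lev H
  have hA := H.case.mod
  unfold kS
  by_cases h : InH A (s * nI (R.b i))
  · rw [if_pos h]
  · rw [if_neg h, zero_mul]
    have htop : (⊤ : Ideal (OO A 0)) ≠ ⊥ := top_ne_bot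
    rw [SnX_zero R m M e i (s * c) 8 (by exact_mod_cast hM), mul_zero]
    intro x hx0 h1
    apply h
    obtain ⟨h2, -⟩ := exp_facts H.case.toCQ hA hqf he htop (x := x) Submodule.mem_top hx0
    have h3 : InH A (nm x * (s * nI (R.b i))) := by
      refine (inH_congr ?_).2 (inH_one A)
      have hss : s * s = 1 := by rcases hs with rfl | rfl <;> norm_num
      obtain ⟨t, ht⟩ := h1
      obtain ⟨w, hw⟩ := hc
      refine ⟨s * t + w, ?_⟩
      linear_combination s * ht + (c : ℤ) * hss + hw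
    exact (inH_mul hA h2).1 h3

/-- the character sums, `2` ramified -/
theorem tu_HFIN (hHU : Su_HU) (hG : SQ_GPT) (hT' : SQ_TYF) : SQ_HFIN := by
  intro A B P V f hS hT ι _ R u el a1 a3 hg e he r hr2 her kk hkk n₀
  have hB := hS.case.b0
  subst hB
  obtain ⟨v2, vZ, v1, vr, gb, gt, h2f⟩ := valQ hS
  have hcq : CQ A 0 := hS.case.toCQ
  have hA := hS.case.mod
  have heI := he.toIsEI
  have hf0 := hS.f0
  set kk' : ι → ℂ := fun c => kk c / e ((nI (R.b c) : ℕ) : OO A 0) with hkk'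
  have heN : ∀ c, e ((nI (R.b c) : ℕ) : OO A 0) ≠ 0 := Brg.e_nI R heI h2f
  have hk1 : ∀ c, kk' c ^ (2 * r) = 1 := by
    intro c
    rw [hkk']
    beta_reduce
    rw [div_pow, hkk, her _ (heN c), div_one]
  obtain ⟨pi, KI, hyp⟩ := hypU hG hT' hS hT R hg he hr2 her hk1
  have haz : ((aX 2 f : ℕ) : ℤ) - 1 = 8 * f := by
    unfold aX q0
    push_cast
    norm_num
  have ha8 : (8 : ℤ) ∣ ((aX 2 f : ℕ) : ℤ) - 1 := by rw [haz]; exact Dvd.intro _ rfl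
  have ha1 : ((aX 2 f : ℕ) : ℤ) ≠ 1 := by
    intro h
    rw [h] at haz
    omega
  obtain ⟨n, hn, hmain⟩ := hHU V (qR A * f ^ 2) 4 (nuX e) _ _ pi KI (ex (1 / 8)) (hR A) hyp
    ((aX 2 f : ℕ) : ℤ) 25 ha8 ha1 (by norm_num) (by norm_num) (n₀ + 3)
  obtain ⟨m, rfl⟩ : ∃ m, n = m + 2 := ⟨n - 2, by omega⟩
  have hm1 : 1 ≤ m := by omega
  refine ⟨m, by omega, ?_⟩
  have hM : q0 2 * 2 ^ m = 2 ^ (m + 2) := by
    unfold q0
    norm_num
    ring
  have h8M : 8 ∣ q0 2 * 2 ^ m := by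
    rw [hM]
    obtain ⟨k, rfl⟩ : ∃ k, m = k + 1 := ⟨m - 1, by omega⟩
    exact ⟨2 ^ k, by ring⟩
  have hQS := qsu MUXF.xf_F5 MUXF.xf_PRD hcq hf0 R heI h2f kk (kS R 1 kk) (kS R (-1) kk) 1 m
    (u := 25) (by norm_num)
    (by
      intro i c hc
      have := part hS R heI kk (lvX 2 f m) (q0 2 * 2 ^ m) h8M 1 (Or.inl rfl) i c hc
      rwa [one_mul] at this)
    (by
      intro i c hc
      have := part hS R heI kk (lvX 2 f m) (q0 2 * 2 ^ m) h8M (-1) (Or.inr rfl) i c hc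
      rwa [neg_one_mul] at this)
  rw [hM] at hQS
  have hL : ∑ j ∈ Finset.range 2, (-1 : ℂ) ^ (1 - j) *
        (STX R (lvX 2 f m) (2 ^ (m + 2)) (aX 2 f) e kk (25 ^ j) +
          STX R (lvX 2 f m) (2 ^ (m + 2)) (aX 2 f) e kk (-(25 ^ j))) =
      ∑ j ∈ Finset.range (1 + 1), ((-1 : ℂ) ^ (1 - j) * ((1 : ℕ).choose j : ℂ)) *
        (STX R (lvX 2 f m) (2 ^ (m + 2)) (aX 2 f) e kk (25 ^ j) +
          STX R (lvX 2 f m) (2 ^ (m + 2)) (aX 2 f) e kk (-25 ^ j)) := by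
    refine Finset.sum_congr rfl fun j hj => ?_
    have hj2 : j = 0 ∨ j = 1 := by
      have := Finset.mem_range.1 hj
      omega
    rcases hj2 with rfl | rfl <;> simp
  rw [hL, hQS]
  have hprim := Hfx.prim 2 (m + 2) Nat.prime_two (-(25 ^ 1 * ((aX 2 f : ℕ) : ℤ) ^ 2)) (by
    intro h
    rw [dvd_neg] at h
    rcases Int.prime_two.dvd_or_dvd h with h | h
    · norm_num at h
    · have h5 := Int.prime_two.dvd_of_dvd_pow h
      omega)
  have hζ : ex (((-(25 ^ 1 * ((aX 2 f : ℕ) : ℤ) ^ 2) : ℤ) : ℚ) / ((2 ^ (m + 2) : ℕ) : ℚ)) =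
      ex (((-(25 ^ 1 * ((aX 2 f : ℕ) : ℤ) ^ 2) : ℤ) : ℚ) / (2 : ℕ) ^ (m + 2)) := by
    push_cast
    rfl
  rw [hζ]
  set ζ : ℂ := ex (((-(25 ^ 1 * ((aX 2 f : ℕ) : ℤ) ^ 2) : ℤ) : ℚ) / (2 : ℕ) ^ (m + 2)) with hζd
  have hζ8 : ζ ^ 2 ^ (m + 2 - 3) * ex (1 / 8) = 1 := by
    rw [hζd, ex_pow', ← ex_add']
    obtain ⟨k, rfl⟩ : ∃ k, m = k + 1 := ⟨m - 1, by omega⟩
    have e1 : k + 1 + 2 - 3 = k := by omega
    rw [e1]
    obtain ⟨w, hw⟩ : (8 : ℤ) ∣ 1 - 25 ^ 1 * ((aX 2 f : ℕ) : ℤ) ^ 2 := by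
      have h1 : ((aX 2 f : ℕ) : ℤ) = 1 + 8 * f := by linarith
      rw [h1]
      exact ⟨-(3 + 25 * (2 * f + 8 * f ^ 2)), by ring⟩
    rw [← ex_int' w]
    congr 1
    have h2 : (1 : ℚ) - 25 ^ 1 * ((aX 2 f : ℕ) : ℚ) ^ 2 = 8 * w := by exact_mod_cast hw
    have h3 : ((2 : ℚ) ^ k) ≠ 0 := pow_ne_zero _ (by norm_num)
    push_cast
    rw [show ((2 : ℚ) ^ (k + 1 + 2)) = 2 ^ k * 8 by ring]
    field_simp
    linear_combination h2
  have h1 := hmain ζ hprim hζ8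
  have hu := hg.u0
  have hPPU : ∀ b : ℤ, PP R ⊤ e (kS R 1 kk) 0 ∞ ((b / ((2 ^ (m + 2) : ℕ) : ℚ) : ℚ) : OnePoint ℚ) +
      PP R ⊤ e (kS R (-1) kk) 0 (mob (-1) 0 0 1 ∞)
        (mob (-1) 0 0 1 ((b / ((2 ^ (m + 2) : ℕ) : ℚ) : ℚ) : OnePoint ℚ)) =
      u * (PhiU R e (kS R 1 kk') (kS R (-1) kk') ∞
        (((b : ℚ) / 2 ^ (m + 2) : ℚ) : OnePoint ℚ) / (u * R.om R.i0)) := by
    intro b
    have e7 : ∀ s x y, PP R ⊤ e (kS R s kk) 0 x y = PhiK R e (kS R s kk') x y / R.om R.i0 := by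
      intro s x y
      rw [Brg.PP_zero]
      unfold PhiK
      congr 1
      refine Finset.sum_congr rfl fun c _ => ?_
      unfold kS
      beta_reduce
      by_cases h : InH A (s * nI (R.b c))
      · rw [if_pos h, if_pos h]
      · rw [if_neg h, if_neg h, zero_div]
    rw [e7, e7]
    unfold PhiU
    rw [← mul_div_assoc, mul_div_mul_left _ _ hu, add_div]
    push_cast
    rfl
  have e5 : (1 / 2 * (2 * (f : ℂ) * ∑ b ∈ Finset.range (2 ^ (m + 2)), ζ ^ b *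
      comb ((aX 2 f : ℕ) : ℤ) 25 1 (fun b => PP R ⊤ e (kS R 1 kk) 0 ∞
          ((b / ((2 ^ (m + 2) : ℕ) : ℚ) : ℚ) : OnePoint ℚ) +
        PP R ⊤ e (kS R (-1) kk) 0 (mob (-1) 0 0 1 ∞)
          (mob (-1) 0 0 1 ((b / ((2 ^ (m + 2) : ℕ) : ℚ) : ℚ) : OnePoint ℚ))) b)) / u =
      f * ∑ b ∈ Finset.range (2 ^ (m + 2)), ζ ^ b *
      comb ((aX 2 f : ℕ) : ℤ) 25 1 (fun b => PhiU R e (kS R 1 kk') (kS R (-1) kk') ∞
        (((b : ℚ) / 2 ^ (m + 2) : ℚ) : OnePoint ℚ) / (u * R.om R.i0)) b := by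
    have e0 : ∀ S : ℂ, (1 / 2 * (2 * (f : ℂ) * S)) / u = f * (S / u) := by
      intro S
      ring
    rw [e0, Finset.sum_div]
    congr 1
    refine Finset.sum_congr rfl fun b _ => ?_
    rw [mul_div_assoc]
    congr 1
    unfold comb
    rw [Finset.sum_div]
    refine Finset.sum_congr rfl fun j _ => ?_
    rw [mul_div_assoc]
    congr 1
    beta_reduce
    rw [hPPU, hPPU]
    field_simp
  rw [e5, map_mul]
  have e9 : V.valuation (f : ℂ) = 1 := by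
    have := v1 f (by
      intro h
      exact hS.fp (by exact_mod_cast h))
    exact_mod_cast this
  rw [e9, one_mul, ← dH_eq A hA]
  exact h1

end

end Pool.Agent.N2U
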