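import Pool.Agent.N2.H_HT
import Pool.Agent.N2.H_BDT
import Pool.Agent.N2.H_HKT
import Pool.Agent.N2.H_SHT
import Pool.Agent.N2.H_H1T
import Pool.Agent.N2.H_TYT
import Pool.Agent.N2.H_LOCT
import Pool.Agent.N2.H_KYT
import Pool.Agent.N2.H_PAIT
import Pool.Agent.N2.H_DVT
import Pool.Agent.N2.H_HfinT
import Pool.Agent.N2.GAll
import Pool.Agent.N2.T2_TYF
import Pool.Agent.N2.HU_HU
import Pool.Agent.N2.HU_SHU
import Pool.Agent.N2.HU_H1U
import Pool.Agent.N2.HU_KYU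
import Pool.Agent.N2.HU_DVU
import Pool.Agent.N2.U_Hfin
import Pool.Agent.N2.T3_TYF

/-!
# N2, block H, all modules put together (helper41)

`h_HFINT` : `2` inert, `h_HFINU` : `2` ramified.
-/

set_option autoImplicit false

namespace Pool.Agent.N2Z

open Pool.Agent.N2 Pool.Agent.N2H Pool.Agent.N2U Pool.Agent.N2T Pool.Agent.MUXY

/-- the abstract theorem of block H, `2` inert -/
theorem h_HT : St_HT :=
  tt_HT tt_BDT tt_HKT tt_SHT tt_H1T tt_TYT tt_LOCT (tt_KYT tt_PAIT) tt_DVT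

/-- the character sums, `2` inert -/
theorem h_HFINT (hR : S2_RFIN) : S2_HFIN :=
  th_HFIN h_HT g_GPT (t2_TYF hR) y_ALP y_COP

/-- the abstract theorem of block H, `2` ramified -/
theorem h_HU : Su_HU :=
  tu_HU tt_BDT tu_SHU tu_H1U tt_LOCT (tu_KYU tt_PAIT) tu_DVU

/-- the character sums, `2` ramified -/
theorem h_HFINU (hG : SQ_GPT) (hR : SQ_RFIN) : SQ_HFIN :=
  tu_HFIN h_HU hG (t3_TYF hR)

end Pool.Agent.N2Z
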