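import Pool.Agent.N2.StIT

/-!
# MUX-2N, block I2N: `St_CYC` (helper45)
-/

set_option autoImplicit false

namespace Pool.Agent.N2I

open _root_.MU3 Pool.Agent.MU3 Pool.Agent.MU3A Pool.Agent.MU3B Pool.Agent.RI Pool.Agent.RID
  Pool.Agent.MUX Pool.Agent.MUXK Pool.Agent.MUXI Pool.Agent.NSI Pool.Agent.N2
open Pool.Agent.MU3I (w3 zt)

noncomputable section

theorem tt_CYC (h1 : Pool.Agent.MUXI.Si_LAY) : St_CYC := by
  intro A B f K hK n Bn hBn σ _ hRF hz y hy
  set S : Subfield ℂ := RingHom.eqLocusField (σ : ℂ →+* ℂ) (RingHom.id ℂ) with hS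
  have hmem : ∀ x : ℂ, x ∈ S ↔ σ x = x := fun x => Iff.rfl
  have halg : ∀ x : ℚ, algebraMap ℚ ℂ x ∈ S := by
    intro x
    rw [hmem]
    simp
  set F : IntermediateField ℚ ℂ := S.toIntermediateField halg with hF
  have hmemF : ∀ x : ℂ, x ∈ F ↔ σ x = x := fun x => Iff.rfl
  have hKF : K ≤ F := by
    intro x hx
    rw [hmemF]
    exact hRF x (hK x hx)
  have hBF : Bn ≤ F := by
    rw [h1 2 n (Or.inl rfl) Bn hBn, IntermediateField.adjoin_le_iff, Set.singleton_subset_iff]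
    have hM : q0 2 * 2 ^ n = 2 ^ (n + 2) := by
      have : q0 2 = 4 := by simp [q0]
      rw [this]; ring
    have hzt : (zt (q0 2 * 2 ^ n)) ^ (2 ^ (n + 2)) = 1 := by
      rw [hM]
      unfold zt
      rw [← Complex.exp_nat_mul, Complex.exp_eq_one_iff]
      refine ⟨1, ?_⟩
      push_cast
      field_simp
    have h2 : σ (zt (q0 2 * 2 ^ n)) = zt (q0 2 * 2 ^ n) := hz _ hzt
    refine (hmemF _).2 ?_
    rw [map_add, map_inv₀, h2]
  have hsup : K ⊔ Bn ≤ F := sup_le hKF hBF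
  exact (hmemF y).1 (hsup hy)

end

end Pool.Agent.N2I
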