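import Pool.Agent.N2.StIT

/-!
# MUX-2N, block I2N: module EPT, the weights and the odd character

`om x = κ(x) w(x)`, `e x = e0(x) κ(x) w(x)`; `e0` is periodic modulo `2 f`: if `z ≡ 1` modulo `2 f` then `z² ≡ 1` modulo `4 f`,
and `e0` has odd order.
-/

set_option autoImplicit false

namespace Pool.Agent.N2I

open _root_.MU3 Pool.Agent.MU3 Pool.Agent.MU3A Pool.Agent.MU3B Pool.Agent.RI Pool.Agent.RID
  Pool.Agent.MUX Pool.Agent.MUXK Pool.Agent.MUXI Pool.Agent.NSI Pool.Agent.N2

noncomputable section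

namespace EPT

variable {A B : ℤ}

lemma cop_iff {x : OO A B} {m : ℕ} :
    IsCoprime (sp x) (idl (A := A) (B := B) m) ↔ IsCoprime x ((m : ℕ) : OO A B) :=
  Ideal.isCoprime_span_singleton_iff x _

lemma idl_le {m n : ℕ} (h : m ∣ n) : idl (A := A) (B := B) n ≤ idl m := by
  obtain ⟨c, rfl⟩ := h
  rw [Ideal.span_singleton_le_iff_mem, Pool.Agent.MUX2.idl_mem]
  exact ⟨(c : OO A B), by push_cast; ring⟩

lemma cop_dvd {x : OO A B} {m n : ℕ} (h : m ∣ n) (hx : IsCoprime x ((n : ℕ) : OO A B)) :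
    IsCoprime x ((m : ℕ) : OO A B) := by
  obtain ⟨c, rfl⟩ := h
  push_cast at hx
  exact (IsCoprime.mul_right_iff.1 hx).1

lemma cop4 {x : OO A B} {f : ℕ} :
    IsCoprime x ((lvX 2 f 0 : ℕ) : OO A B) ↔ IsCoprime x ((2 * f : ℕ) : OO A B) := by
  have e : lvX 2 f 0 = 2 * (2 * f) := by
    unfold lvX q0
    simp
    ring
  rw [e]
  constructor
  · exact cop_dvd ⟨2, by ring⟩
  · intro h
    have h2 : IsCoprime x ((2 : ℕ) : OO A B) := cop_dvd ⟨f, rfl⟩ h
    rw [Nat.cast_mul]
    exact IsCoprime.mul_right h2 h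

lemma cop_congr' {x y : OO A B} {m : ℕ} (h : x - y ∈ idl (A := A) (B := B) m)
    (hx : IsCoprime x ((m : ℕ) : OO A B)) : IsCoprime y ((m : ℕ) : OO A B) :=
  cop_iff.1 (Pool.Agent.MUX2.cop_congr h (cop_iff.2 hx))

/-- `e0` is periodic modulo `2 f` -/
lemma per2 {f r : ℕ} (hr : ¬ 2 ∣ r) {e0 : OO A B → ℂ} (one : e0 1 = 1)
    (mul : ∀ x y, e0 (x * y) = e0 x * e0 y)
    (per : ∀ x y, x - y ∈ idl (A := A) (B := B) (lvX 2 f 0) → e0 x = e0 y)
    (supp : ∀ x, e0 x ≠ 0 ↔ IsCoprime x ((lvX 2 f 0 : ℕ) : OO A B))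
    (pow : ∀ x, e0 x ≠ 0 → e0 x ^ r = 1) (x y : OO A B)
    (h : x - y ∈ idl (A := A) (B := B) (2 * f)) : e0 x = e0 y := by
  have e : lvX 2 f 0 = 4 * f := by
    unfold lvX q0
    simp
    ring
  by_cases hx : IsCoprime x ((lvX 2 f 0 : ℕ) : OO A B)
  · have hy : IsCoprime y ((lvX 2 f 0 : ℕ) : OO A B) :=
      cop4.2 (cop_congr' h (cop4.1 hx))
    obtain ⟨a, b, hab⟩ := hy
    obtain ⟨c, hc⟩ := (Pool.Agent.MUX2.idl_mem _ _).1 h
    rw [e] at hab per
    push_cast at hab hc
    have hya : e0 y * e0 a = 1 := by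
      rw [← mul, ← one]
      apply per
      rw [Pool.Agent.MUX2.idl_mem]
      refine ⟨-b, ?_⟩
      push_cast
      linear_combination hab
    have hz2 : e0 (x * a) ^ 2 = 1 := by
      rw [pow_two, ← mul, ← one]
      apply per
      rw [Pool.Agent.MUX2.idl_mem]
      refine ⟨(c * a - 2 * b) + f * (c * a - 2 * b) ^ 2, ?_⟩
      have hz : x * a = 1 + 2 * f * (c * a - 2 * b) := by
        linear_combination a * hc + hab
      rw [hz]
      push_cast
      ring
    have hz0 : e0 (x * a) ≠ 0 := by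
      intro h0
      rw [h0] at hz2
      norm_num at hz2
    have hz : e0 (x * a) = 1 := by
      obtain ⟨k, hk⟩ : ∃ k, r = 2 * k + 1 := ⟨r / 2, by omega⟩
      have h3 := pow _ hz0
      rw [hk, pow_succ, pow_mul, hz2, one_pow, one_mul] at h3
      exact h3
    rw [mul] at hz
    have ha : e0 a ≠ 0 := by
      intro h0
      rw [h0, mul_zero] at hya
      exact zero_ne_one hya
    exact mul_right_cancel₀ ha (hz.trans hya.symm)
  · have hy : ¬ IsCoprime y ((lvX 2 f 0 : ℕ) : OO A B) := by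
      intro hy
      apply hx
      have h' : y - x ∈ idl (A := A) (B := B) (2 * f) := by
        rw [← neg_sub]
        exact neg_mem h
      exact cop4.2 (cop_congr' h' (cop4.1 hy))
    have h0 : e0 x = 0 := by
      by_contra h0
      exact hx ((supp x).1 h0)
    have h1 : e0 y = 0 := by
      by_contra h0
      exact hy ((supp y).1 h0)
    rw [h0, h1]

end EPT

open EPT in
theorem tt_EPT (h1 : St_KAP) (h2 : St_TE2) (h3 : Pool.Agent.MUXF.Sx_ALG) : St_EPT := by
  intro A B V f hS e0 r hr one neg mul per supp pow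
  obtain ⟨κ, hκ⟩ := h1 A B hS.case
  obtain ⟨w, hw⟩ := h2 A B V hS.case hS.hV
  have habs : 0 < absD A B := by
    have := hS.case.neg
    unfold absD
    omega
  have hDf : (absD A B).toNat ∣ f := by
    have h4 : absD A B ∣ (f : ℤ) := (dvd_mul_left _ 3).trans hS.fD
    rw [← Int.toNat_of_nonneg habs.le] at h4
    exact_mod_cast h4
  have hD2 : (absD A B).toNat ∣ 2 * f := hDf.trans (dvd_mul_left f 2)
  have hκneg : ∀ x, κ (-x) = -κ x := by
    intro x
    rw [← neg_one_mul, hκ.mul, hκ.neg, neg_one_mul]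
  have hwneg : ∀ x, w (-x) = w x := by
    intro x
    apply hw.per
    rw [Pool.Agent.MUX2.idl_mem]
    exact ⟨-x, by push_cast; ring⟩
  have hn2 : ∀ x, IsCoprime x ((2 * f : ℕ) : OO A B) → x ∉ idl (A := A) (B := B) 2 := by
    intro x hx hx2
    have hc : IsCoprime x ((2 : ℕ) : OO A B) := cop_dvd ⟨f, rfl⟩ hx
    obtain ⟨a, b, hab⟩ := hc
    have h5 : (1 : OO A B) ∈ idl (A := A) (B := B) 2 := by
      rw [← hab]
      exact add_mem (Ideal.mul_mem_left _ a hx2)
        (Ideal.mul_mem_left _ b (Ideal.mem_span_singleton_self _))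
    have h6 := (hS.hV 1).2 h5
    have h7 : emb (1 : OO A B) = 1 := by
      have h8 := ((h3 A B ⟨hS.case.hB, hS.case.neg, hS.case.fund1, hS.case.fund0⟩).2.2.1 1).1
      simpa using h8
    rw [h7, ValuationSubring.mem_nonunits_iff, map_one] at h6
    exact lt_irrefl _ h6
  have hκu : ∀ x, IsCoprime x ((2 * f : ℕ) : OO A B) → κ x = 1 ∨ κ x = -1 := by
    intro x hx
    exact hκ.unit x (cop_iff.2 (cop_dvd hD2 hx))
  have hodd : OddT f V (fun x => (κ x : ℂ) * w x) := by
    refine ⟨?_, ?_, ?_⟩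
    · intro x
      show (κ (-x) : ℂ) * w (-x) = -((κ x : ℂ) * w x)
      rw [hκneg, hwneg]
      push_cast
      ring
    · intro x y h
      show (κ x : ℂ) * w x = (κ y : ℂ) * w y
      rw [hκ.per x y (idl_le hD2 h), hw.per x y (idl_le ⟨f, rfl⟩ h)]
    · intro x hx
      show V.valuation ((κ x : ℂ) * w x - emb x) ≤ V.valuation (2 : ℂ)
      rcases hκu x hx with h | h
      · rw [h]
        have e : ((1 : ℤ) : ℂ) * w x - emb x = w x - emb x := by
          push_cast
          ring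
        rw [e]
        exact hw.cong x
      · rw [h]
        have e : ((-1 : ℤ) : ℂ) * w x - emb x = (w x - emb x) - 2 * w x := by
          push_cast
          ring
        rw [e]
        refine (Valuation.map_sub V.valuation _ _).trans (max_le (hw.cong x) ?_)
        rw [map_mul]
        have h9 := hw.pow x (hn2 x hx)
        have h4 : V.valuation (w x) ^ 3 = 1 := by
          rw [← map_pow, h9, map_one]
        have h5 : V.valuation (w x) ≤ 1 := by
          by_contra h6
          push Not at h6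
          exact absurd h4 (one_lt_pow₀ h6 (by norm_num)).ne'
        exact mul_le_of_le_one_right' h5
  have per2f := per2 hr one mul per supp pow
  refine ⟨fun x => (κ x : ℂ) * w x, fun x => e0 x * ((κ x : ℂ) * w x), hodd,
    ⟨?_, ?_, ?_, ?_, ?_⟩, ?_, ?_⟩
  · show e0 1 * ((κ 1 : ℂ) * w 1) = 1
    rw [one, hκ.one, hw.one]
    norm_num
  · intro x y
    show e0 (x * y) * ((κ (x * y) : ℂ) * w (x * y)) =
      (e0 x * ((κ x : ℂ) * w x)) * (e0 y * ((κ y : ℂ) * w y))
    rw [mul, hκ.mul, hw.mul]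
    push_cast
    ring
  · intro x y h
    show e0 x * ((κ x : ℂ) * w x) = e0 y * ((κ y : ℂ) * w y)
    rw [per2f x y h, hκ.per x y (idl_le hD2 h), hw.per x y (idl_le ⟨f, rfl⟩ h)]
  · intro x
    rw [cop_iff]
    constructor
    · intro h
      exact cop4.1 ((supp x).1 (left_ne_zero_of_mul h))
    · intro hx
      refine mul_ne_zero ((supp x).2 (cop4.2 hx)) (mul_ne_zero ?_ ?_)
      · rcases hκu x hx with h | h
        · rw [h]; norm_num
        · rw [h]; norm_num
      · intro h0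
        have h3 := hw.pow x (hn2 x hx)
        rw [h0] at h3
        norm_num at h3
  · show e0 (-1) * ((κ (-1) : ℂ) * w (-1)) = -1
    rw [neg, hκ.neg, hwneg, hw.one]
    norm_num
  · intro x hx
    have h0 : e0 x ≠ 0 := left_ne_zero_of_mul hx
    have hc : IsCoprime x ((2 * f : ℕ) : OO A B) := cop4.1 ((supp x).1 h0)
    show (e0 x * ((κ x : ℂ) * w x)) ^ (2 * (3 * r)) = 1
    have e1 : e0 x ^ (2 * (3 * r)) = 1 := by
      rw [show 2 * (3 * r) = r * 6 by ring, pow_mul, pow x h0, one_pow]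
    have e2 : (κ x : ℂ) ^ (2 * (3 * r)) = 1 := by
      have h3 : (κ x : ℂ) ^ 2 = 1 := by
        rcases hκu x hc with h | h
        · rw [h]; norm_num
        · rw [h]; norm_num
      rw [pow_mul, h3, one_pow]
    have e3 : w x ^ (2 * (3 * r)) = 1 := by
      rw [show 2 * (3 * r) = 3 * (2 * r) by ring, pow_mul, hw.pow x (hn2 x hc), one_pow]
    rw [mul_pow, mul_pow, e1, e2, e3]
    norm_num
  · intro x _
    rfl

end

end Pool.Agent.N2I
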