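import Pool.Agent.N2.StIT
import Pool.Agent.MU3.I_I3F

/-!
# MUX-2N, block I2N, module I31 (helper36): one level, from blocks E2N and H2N

Model: `Pool/Agent/NS/I_I31.lean`.
-/

set_option autoImplicit false

namespace Pool.Agent.N2I

open _root_.MU3 Pool.Agent.MU3 Pool.Agent.MU3A Pool.Agent.MU3B Pool.Agent.RI Pool.Agent.RID
  Pool.Agent.MUX Pool.Agent.MUXK Pool.Agent.MUXI Pool.Agent.NSI Pool.Agent.N2
open Pool.Agent.MU3I (w3 zt St_ITG)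

noncomputable section

namespace I31

lemma emb_nat {A B : ℤ} (n : ℕ) : emb (n : OO A B) = n := by
  have h1 : ((n : ℕ) : OO A B).re = n := by
    simp
  have h2 : ((n : ℕ) : OO A B).im = 0 := by
    simp
  unfold emb
  rw [h1, h2]
  push_cast
  ring

/-- the set `v(x)² ≤ v(2)³` -/
lemma val_prop (V : ValuationSubring ℂ) (u : ℂ) :
    V.valuation ((0 : ℂ) / u) ^ 2 ≤ V.valuation (2 : ℂ) ^ 3 ∧
    (∀ x y : ℂ, V.valuation (x / u) ^ 2 ≤ V.valuation (2 : ℂ) ^ 3 →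
      V.valuation (y / u) ^ 2 ≤ V.valuation (2 : ℂ) ^ 3 →
      V.valuation ((x + y) / u) ^ 2 ≤ V.valuation (2 : ℂ) ^ 3) ∧
    (∀ v x : ℂ, v ∈ V → V.valuation (x / u) ^ 2 ≤ V.valuation (2 : ℂ) ^ 3 →
      V.valuation (v * x / u) ^ 2 ≤ V.valuation (2 : ℂ) ^ 3) ∧
    ∀ v x : ℂ, v ∉ V.nonunits → V.valuation (v * x / u) ^ 2 ≤ V.valuation (2 : ℂ) ^ 3 →
      V.valuation (x / u) ^ 2 ≤ V.valuation (2 : ℂ) ^ 3 := by
  refine ⟨by simp, ?_, ?_, ?_⟩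
  · intro x y hx hy
    rw [add_div]
    have h1 := V.valuation.map_add (x / u) (y / u)
    rcases le_total (V.valuation (x / u)) (V.valuation (y / u)) with h | h
    · rw [max_eq_right h] at h1
      exact (pow_le_pow_left' h1 2).trans hy
    · rw [max_eq_left h] at h1
      exact (pow_le_pow_left' h1 2).trans hx
  · intro v x hv hx
    rw [mul_div_assoc, map_mul]
    have h1 : V.valuation v ≤ 1 := (V.valuation_le_one_iff v).2 hv
    exact (pow_le_pow_left' (mul_le_of_le_one_left' h1) 2).trans hx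
  · intro v x hv hx
    rw [mul_div_assoc, map_mul] at hx
    have h1 : 1 ≤ V.valuation v := by
      by_contra h2
      exact hv (V.mem_nonunits_iff.2 (lt_of_not_ge h2))
    exact (pow_le_pow_left' (le_mul_of_one_le_left' h1) 2).trans hx

/-- if the product is a square, then the sum is small -/
theorem pows (hFOU : Sn_FOU) (hTG : St_ITG) {A B : ℤ} (V : ValuationSubring ℂ) (f : ℕ)
    {ι : Type} (R : Reps A B (2 * f) ι) (u : ℂ)
    (n : ℕ) (D : IntermediateField ℚ ℂ) [FiniteDimensional ℚ D] (h : kk A B ≤ D)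
    (C : (letI := algC h; D ≃ₐ[kk A B] D) → ℂ) (hE : EInpT V f R u n h C) (w : OO A B → ℂ)
    (hw : OddT f V w) :
    letI := algC h
    ∀ (_ : ∀ σ τ : D ≃ₐ[kk A B] D, σ * τ = τ * σ) (c₁ : ℂ) (hc : c₁ ∈ D) (_ : c₁ = C 1)
      (γ : D ≃ₐ[kk A B] D) (Δ : Subgroup (D ≃ₐ[kk A B] D)) [Fintype Δ] (N : ℕ) (b : Δ → ℕ)
      (X : Δ →* ℂˣ) (_ : (∑ δ : Δ, (b δ : ℂ) * (X δ : ℂ)) ∉ V.nonunits) (y : D)
      (_ : y ^ 2 = ∏ δ : Δ, ((δ : D ≃ₐ[kk A B] D) ((Tg γ)^[N] ⟨c₁, hc⟩)) ^ b δ),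
      V.valuation ((∑ j ∈ Finset.range (N + 1),
        (((-1 : ℤ) ^ (N - j) * (N.choose j : ℤ) : ℤ) : ℂ) *
        ∑ δ : Δ, (((X δ)⁻¹ : ℂˣ) : ℂ) * TT2 R w (lvX 2 f n)
          (aX 2 f) h (γ ^ j * (δ : D ≃ₐ[kk A B] D))) / u) ^ 2 ≤ V.valuation (2 : ℂ) ^ 3 := by
  classical
  let akL : Algebra (kk A B) D := algC h
  intro comm c₁ hc hc1 γ Δ iΔ N b X hX y hy
  have fdk : FiniteDimensional (kk A B) D := Module.Finite.of_restrictScalars_finite ℚ (kk A B) D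
  have iG : Fintype (D ≃ₐ[kk A B] D) := Fintype.ofFinite _
  let e : ℕ → ℤ := fun j => (-1 : ℤ) ^ (N - j) * (N.choose j : ℤ)
  let g : (D ≃ₐ[kk A B] D) → ℤ := fun τ => ∑ δ : Δ, ∑ j ∈ Finset.range (N + 1),
      if (δ : D ≃ₐ[kk A B] D) * γ ^ j = τ then (b δ : ℤ) * e j else 0
  have hcτ : ∀ τ : D ≃ₐ[kk A B] D, ((τ ⟨c₁, hc⟩ : D) : ℂ) = C τ := by
    intro τ
    obtain ⟨y', hy1, hy2⟩ := hE.conj τ
    have h3 : y' = ⟨c₁, hc⟩ := Subtype.ext (hy1.trans hc1.symm)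
    rw [← h3]
    exact hy2
  have hcne : (⟨c₁, hc⟩ : D) ≠ 0 := by
    intro h0
    apply hE.ne
    have h1 : c₁ = 0 := congrArg Subtype.val h0
    rw [hc1] at h1
    exact h1
  have hu : ∀ τ : D ≃ₐ[kk A B] D, C τ ≠ 0 := by
    intro τ h0
    rw [← hcτ τ] at h0
    have h1 : τ (⟨c₁, hc⟩ : D) = 0 := Subtype.ext h0
    exact hcne ((map_eq_zero_iff τ τ.injective).1 h1)
  have e1 : (y : ℂ) ^ 2 = ∏ᶠ τ : D ≃ₐ[kk A B] D, C τ ^ g τ := by
    rw [MU3I.I3F.prod_exp γ Δ _ hu (fun δ => (b δ : ℤ)) N e g (fun τ => rfl)]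
    have h1 : (y : ℂ) ^ 2 = D.val (y ^ 2) := rfl
    rw [h1, hy, map_prod]
    refine Finset.prod_congr rfl fun δ _ => ?_
    rw [MU3I.I3F.tg_pow hTG _ _ γ δ _ hcne N (b δ), map_prod]
    refine Finset.prod_congr rfl fun j _ => ?_
    rw [map_zpow₀]
    exact congrArg (fun w : ℂ => w ^ ((b δ : ℤ) * e j)) (hcτ ((δ : D ≃ₐ[kk A B] D) * γ ^ j))
  have e2 := hE.ew w hw g ⟨y, y.2, e1⟩
  obtain ⟨q1, q2, q3, q4⟩ := val_prop V u
  refine hFOU V (fun x => V.valuation (x / u) ^ 2 ≤ V.valuation (2 : ℂ) ^ 3) q1 q2 q3 q4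
    (D ≃ₐ[kk A B] D) comm γ Δ
    (fun τ => TT2 R w (lvX 2 f n) (aX 2 f) h τ) (fun δ => (b δ : ℤ)) N e X ?_ ?_
  · simpa using hX
  · intro τ'
    have e3 := e2 τ'
    rw [MU3I.I3F.sum_exp γ Δ (fun τ => TT2 R w (lvX 2 f n) (aX 2 f) h τ)
      (fun δ => (b δ : ℤ)) N e g (fun τ => rfl) τ'] at e3
    exact e3

lemma muX_ne {f : ℕ} (hf : f ≠ 0) {A B : ℤ} {ι : Type} (R : Reps A B (2 * f) ι) (i : ι) :
    muX R i ≠ 0 := by
  have h2 : nI (R.b i) ≠ 0 := by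
    intro h
    have h1 := R.cop i
    rw [h, Nat.coprime_zero_left] at h1
    omega
  unfold muX
  exact div_ne_zero (mul_ne_zero (R.nl i).om_ne (Nat.cast_ne_zero.2 h2)) (R.nl R.i0).om_ne

lemma kkC_pow {f : ℕ} (hf : f ≠ 0) {A B : ℤ} {ι : Type} (R : Reps A B (2 * f) ι) (kp : ι → ℂ)
    (r : ℕ) (hkp : ∀ i, kp i ^ r = 1) (i : ι) :
    kkC R kp (fun i => muX R i) 1 i ^ (2 * (3 * r)) = 1 := by
  have h1 : kp i * muX R i / muX R i = kp i := mul_div_cancel_right₀ _ (muX_ne hf R i)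
  unfold kkC
  rw [h1, if_pos rfl, mul_one, show 2 * (3 * r) = r * 6 by ring, pow_mul, hkp, one_pow]

end I31

/-- (I31) one level -/
theorem tt_I31 (hRES : Pool.Agent.MUXJ.Sj_RES) (hCHI : Si_CHI) (hFOU : Sn_FOU)
    (hTG : St_ITG) (hEPT : St_EPT) (hE0 : Sn_E0) (hARF : Si_ARF)
    (hXXF : Si_XXF) (hSUB : Sn_SUB) (hGAM : Si_GAM) (hXM : Sn_XMX) (hBIJ : Si_BIJ) (hTH : Sn_TH)
    (hGEN : Si_GEN) (hH : S2_HFIN) (hGAL : S_GALX) : St_I31 := by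
  classical
  intro A B V f hS hTor ι iι R u el a1 a3 hG K Bn iK iKB hB hcop hKT hk hkK C hE c₀ mem hc₀ χ n₀
  let aK : Algebra (kk A B) K := algC hkK
  have iP : Fact (Nat.Prime 2) := ⟨Nat.prime_two⟩
  have hCQ : CQ A B := hS.case.toCQ
  have hL : SetL 2 A B f := setL_T hS
  have hpV : ((2 : ℕ) : ℂ) ∈ V.nonunits := by
    have h1 := (hS.hV ((2 : ℕ) : OO A B)).2 (Ideal.mem_span_singleton_self _)
    rwa [I31.emb_nat] at h1
  obtain ⟨iF1, iF2⟩ := hRES 2 V hpV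
  have galK : IsGalois (kk A B) K := (isGalois_algC hkK).2 hB.gal
  have fdkK : FiniteDimensional (kk A B) K :=
    Module.Finite.of_restrictScalars_finite ℚ (kk A B) K
  have commK : ∀ a b : K ≃ₐ[kk A B] K, a * b = b * a := by
    intro a b
    have h1 := hB.ab ((extEquiv hkK).symm.autCongr a) ((extEquiv hkK).symm.autCongr b)
    rw [← map_mul, ← map_mul] at h1
    exact (extEquiv hkK).symm.autCongr.injective h1
  have iG0 : Fintype (K ≃ₐ[kk A B] K) := Fintype.ofFinite _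
  have hcard : Fintype.card (K ≃ₐ[kk A B] K) =
      Module.finrank (kk A B) (IntermediateField.extendScalars hB.hk) := by
    rw [← Nat.card_eq_fintype_card, IsGalois.card_aut_eq_finrank]
    exact (extEquiv hkK).toLinearEquiv.finrank_eq
  have hc3 : ¬ 2 ∣ Fintype.card (K ≃ₐ[kk A B] K) := by
    rw [hcard]
    exact hcop
  obtain ⟨X, θ, hXθ⟩ := hCHI 2 V hpV iF1 iF2 (K ≃ₐ[kk A B] K) commK hc3 χ
  obtain ⟨rr, hrr⟩ : ∃ rr, rr = Fintype.card (K ≃ₐ[kk A B] K) := ⟨_, rfl⟩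
  have hXr : ∀ τ, X τ ^ rr = 1 := by
    intro τ
    rw [hrr, ← map_pow, pow_card_eq_one, map_one]
  rw [← hrr] at hc3
  obtain ⟨e0, kp, h01, h0m, h0mul, h0per, h0supp, h0pow, hkp, h0X⟩ := hE0 2 A B f hL hTor ι R K
    hkK hKT galK X _ hXr
  obtain ⟨w, e, hw, hei, hepow, hes⟩ := hEPT A B V f hS e0 rr hc3 h01 h0m h0mul h0per h0supp
    h0pow
  have hkk := I31.kkC_pow hS.f0 R kp rr hkp
  have h8 : ¬ 2 ∣ 3 * rr := by
    intro h
    rcases (Nat.Prime.dvd_mul Nat.prime_two).1 h with h | h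
    · omega
    · exact hc3 h
  obtain ⟨n, hn1, hnot⟩ := hH A B V f hS hTor ι R u el a1 a3 hG e hei (3 * rr) h8 hepow
    (kkC R kp (fun i => muX R i) 1) hkk (n₀ + 2)
  refine ⟨n, by omega, ?_⟩
  have hn2 : 2 ≤ n := by omega
  let akL : Algebra (kk A B) ↥(K ⊔ Bn n) := algC (hk n)
  intro γ hγ iN r hr
  obtain ⟨gal, comm⟩ := hGAL 2 (kk A B) K Bn hB n (hk n)
  have hNL : ∃ (b : Ideal (OO A B)) (L : PeriodPair) (om : ℂ), IsNL b L om :=
    ⟨_, _, _, R.nl R.i0⟩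
  have hsub := hSUB 2 A B f hL hTor hNL K hKT n (Bn n) (hB.lay n)
  obtain ⟨γ₀, hγ₀, hγ₀z⟩ := hGAM 2 (Or.inl rfl) (kk A B) K Bn hB n (hk n)
  have hXX := hXM 2 A B f hL hTor ι R K (Bn n) n (hk n) (hB.lay n) hsub gal γ₀ hγ₀z
  obtain ⟨hbij, hrmul⟩ := hBIJ 2 (kk A B) K Bn hB n (hk n) hkK r hr
  have fdk : FiniteDimensional (kk A B) ↥(K ⊔ Bn n) :=
    Module.Finite.of_restrictScalars_finite ℚ (kk A B) ↥(K ⊔ Bn n)
  have iG : Finite (↥(K ⊔ Bn n) ≃ₐ[kk A B] ↥(K ⊔ Bn n)) := inferInstance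
  let rh : NC (hk n) (Bn n) →* (K ≃ₐ[kk A B] K) := MonoidHom.mk' r hrmul
  let X' : NC (hk n) (Bn n) →* ℂˣ := X.comp rh
  have hX'θ : (∑ δ : NC (hk n) (Bn n),
      (((θ ((χ (r δ))⁻¹ : (IsLocalRing.ResidueField V)ˣ)).val : ℕ) : ℂ) * (X' δ : ℂ)) ∉
        V.nonunits := by
    have h1 : (∑ δ : NC (hk n) (Bn n),
      (((θ ((χ (r δ))⁻¹ : (IsLocalRing.ResidueField V)ˣ)).val : ℕ) : ℂ) * (X' δ : ℂ)) =
        ∑ δ : K ≃ₐ[kk A B] K,
      (((θ ((χ δ)⁻¹ : (IsLocalRing.ResidueField V)ˣ)).val : ℕ) : ℂ) * (X δ : ℂ) :=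
      Fintype.sum_bijective r hbij _ _ fun δ => rfl
    rw [h1]
    exact hXθ
  have hKD : K ≤ K ⊔ Bn n := le_sup_left
  have hq3 : q0 2 = 4 := by simp [q0]
  have hCc : ∀ i, (nI (R.b i)).Coprime (lvX 2 f n) := by
    intro i
    have h1 := R.cop i
    have h2 : lvX 2 f n ∣ (2 * f) ^ (n + 2) := by
      have h4 : f ∣ f ^ (n + 2) := dvd_pow_self f (by omega)
      have h5 : lvX 2 f n = 2 ^ (n + 2) * f := by
        unfold lvX
        rw [hq3]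
        ring
      rw [h5, mul_pow]
      exact mul_dvd_mul (dvd_refl _) h4
    exact Nat.Coprime.coprime_dvd_right h2 (Nat.Coprime.pow_right _ h1)
  have hm2 : 2 ≤ lvX 2 f n := by
    have h2 : 1 ≤ 2 ^ n := Nat.one_le_pow _ _ (by norm_num)
    have h3 : 1 ≤ f := Nat.one_le_iff_ne_zero.2 hS.f0
    unfold lvX
    rw [hq3]
    nlinarith [Nat.mul_le_mul h3 h2]
  have hm0 : (idl (A := A) (B := B) (lvX 2 f n)) ≠ ⊥ := by
    intro h
    have h1 : ((lvX 2 f n : ℕ) : OO A B) = 0 := Ideal.span_singleton_eq_bot.1 h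
    have h2 := congrArg emb h1
    rw [I31.emb_nat] at h2
    have h3 : emb (0 : OO A B) = 0 := by
      unfold emb
      simp
    rw [h3] at h2
    have h4 : lvX 2 f n = 0 := by exact_mod_cast h2
    omega
  have hlv : lvX 2 f 0 ∣ lvX 2 f n := by
    unfold lvX
    rw [pow_zero, mul_one]
    exact dvd_mul_right _ _
  have hle : idl (A := A) (B := B) (lvX 2 f n) ≤ idl (lvX 2 f 0) := by
    refine Ideal.span_singleton_le_span_singleton.2 ?_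
    exact_mod_cast Nat.cast_dvd_cast hlv
  have hchi : ∀ (δ : NC (hk n) (Bn n)) (j : ℕ),
      ∀ q ∈ XX R (lvX 2 f n) (hk n) (γ₀ ^ j * (δ : ↥(K ⊔ Bn n) ≃ₐ[kk A B] ↥(K ⊔ Bn n))),
      (((X' δ)⁻¹ : ℂˣ) : ℂ) = kp q.1 * e0 (Quotient.out q.2) := by
    intro δ j q hq
    have hqc : IsCoprime (Quotient.out q.2 : OO A B) ((lvX 2 f n : ℕ) : OO A B) := hq.1
    have h1 := hXXF A B hCQ hTor (2 * f) ι R (lvX 2 f n) hm2 hCc (K ⊔ Bn n) (hk n) hsub gal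
    have hq2 : (q.1, Ideal.Quotient.mk (idl (A := A) (B := B) (lvX 2 f n))
        (Quotient.out q.2)) = q := Prod.ext rfl (Quotient.out_eq' q.2)
    have h2 := (h1.1 (γ₀ ^ j * (δ : ↥(K ⊔ Bn n) ≃ₐ[kk A B] ↥(K ⊔ Bn n))) q.1
      (Quotient.out q.2) hqc).1 (by rw [hq2]; exact hq)
    obtain ⟨-, -, -, -, -, h3, -⟩ := hARF A B hCQ hTor hNL (idl (lvX 2 f n)) hm0 (K ⊔ Bn n)
      (hk n) hsub gal
    have hγj : ∀ (i : ℕ) (z : ↥(K ⊔ Bn n)), (z : ℂ) ∈ K → (γ₀ ^ i) z = z := by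
      intro i z hz
      induction i with
      | zero => rfl
      | succ i ih =>
        rw [pow_succ, AlgEquiv.mul_apply, (hγ₀ z).2 hz, ih]
    have h4 := h3 K hkK (idl (lvX 2 f 0)) hle hKD
      (γ₀ ^ j * (δ : ↥(K ⊔ Bn n) ≃ₐ[kk A B] ↥(K ⊔ Bn n))) (r δ)
      (sp (Quotient.out q.2) * cjI (R.b q.1)) (by
        intro x x' hx
        rw [AlgEquiv.mul_apply]
        have h5 := hr δ x x' hx
        have h6 : (((δ : ↥(K ⊔ Bn n) ≃ₐ[kk A B] ↥(K ⊔ Bn n)) x' : ↥(K ⊔ Bn n)) : ℂ) ∈ K := by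
          rw [h5]
          exact (r δ x).2
        rw [hγj j _ h6]
        exact h5) h2
    have hco : IsCoprime (Quotient.out q.2 : OO A B) ((lvX 2 f 0 : ℕ) : OO A B) := by
      have h7 : ((lvX 2 f 0 : ℕ) : OO A B) ∣ ((lvX 2 f n : ℕ) : OO A B) := by
        exact_mod_cast Nat.cast_dvd_cast hlv
      exact hqc.of_isCoprime_of_dvd_right h7
    exact h0X (r δ) q.1 (Quotient.out q.2) hco h4
  -- the ideal `(2 f)`
  have hg1 : idl (A := A) (B := B) (lvX 2 f 0) ≤ idl (2 * f) := by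
    refine Ideal.span_singleton_le_span_singleton.2 ?_
    have h1 : 2 * f ∣ lvX 2 f 0 := by
      unfold lvX
      rw [hq3, pow_zero, mul_one]
      exact ⟨2, by ring⟩
    exact_mod_cast Nat.cast_dvd_cast h1
  have hg2 : idl (A := A) (B := B) (2 * f) ≤ idl f := by
    refine Ideal.span_singleton_le_span_singleton.2 ?_
    have h1 : f ∣ 2 * f := dvd_mul_left f 2
    exact_mod_cast Nat.cast_dvd_cast h1
  have hTHi := hTH 2 A B f hL (idl (2 * f)) hg1 hg2 ι R n _ γ₀ (NC (hk n) (Bn n))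
    (fun τ => XX R (lvX 2 f n) (hk n) τ) hXX X' e0 kp (fun i => muX R i) w e 1
    (fun x y hxy => h0per x y (hle hxy)) (fun x y hxy => hw.per x y (hg1 (hle hxy))) hei
    (Or.inl rfl) (fun _ => rfl) (fun x hx => by rw [if_pos rfl, mul_one]; exact hes x hx) hchi
  -- the statement for `γ₀`
  have hcne : c₀ n ≠ 0 := by
    rw [hc₀ n hn2]
    exact (hE n hn2).ne
  have key : ∀ y : ↥(K ⊔ Bn n), y ^ 2 ≠ ∏ δ : NC (hk n) (Bn n),
      ((δ : ↥(K ⊔ Bn n) ≃ₐ[kk A B] ↥(K ⊔ Bn n)) ((Tg γ₀)^[1] ⟨c₀ n, mem n⟩)) ^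
        (θ ((χ (r δ))⁻¹ : (IsLocalRing.ResidueField V)ˣ)).val := by
    intro y hy
    have hHf := I31.pows hFOU hTG V f R u n (K ⊔ Bn n) (hk n) (C n) (hE n hn2) w
      hw comm (c₀ n) (mem n) (hc₀ n hn2) γ₀ (NC (hk n) (Bn n)) 1
      (fun δ => (θ ((χ (r δ))⁻¹ : (IsLocalRing.ResidueField V)ˣ)).val) X' hX'θ y hy
    refine absurd hHf (not_le_of_gt ?_)
    have hS1 : ∑ j ∈ Finset.range (1 + 1),
        (((-1 : ℤ) ^ (1 - j) * (Nat.choose 1 j : ℤ) : ℤ) : ℂ) *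
        ∑ δ : NC (hk n) (Bn n), (((X' δ)⁻¹ : ℂˣ) : ℂ) * TT2 R w (lvX 2 f n)
          (aX 2 f) (hk n) (γ₀ ^ j * (δ : ↥(K ⊔ Bn n) ≃ₐ[kk A B] ↥(K ⊔ Bn n))) =
        1 / 2 * ∑ j ∈ Finset.range 2, (-1) ^ (1 - j) *
        (STX R (lvX 2 f n) (2 ^ (n + 2)) (aX 2 f) e (kkC R kp (fun i => muX R i) 1) (5 ^ j) +
          STX R (lvX 2 f n) (2 ^ (n + 2)) (aX 2 f) e (kkC R kp (fun i => muX R i) 1)
            (-(5 ^ j))) := by
      rw [Finset.mul_sum]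
      refine Finset.sum_congr rfl fun j hj => ?_
      have hj1 : j ≤ 1 := by
        have := Finset.mem_range.1 hj
        omega
      have hch : Nat.choose 1 j = 1 := by
        interval_cases j <;> rfl
      have h9 := hTHi j
      have e1 : q0 2 * 2 ^ n = 2 ^ (n + 2) := by
        rw [hq3]
        ring
      have e2 : (1 + (q0 2 : ℤ)) = 5 := by
        rw [hq3]
        norm_num
      rw [e1, e2] at h9
      have h10 : ∑ δ : NC (hk n) (Bn n), (((X' δ)⁻¹ : ℂˣ) : ℂ) * TT2 R w (lvX 2 f n)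
          (aX 2 f) (hk n) (γ₀ ^ j * (δ : ↥(K ⊔ Bn n) ≃ₐ[kk A B] ↥(K ⊔ Bn n))) =
          1 / 2 * (STX R (lvX 2 f n) (2 ^ (n + 2)) (aX 2 f) e (kkC R kp (fun i => muX R i) 1)
            (5 ^ j) + ((1 : ℤ) : ℂ) * STX R (lvX 2 f n) (2 ^ (n + 2)) (aX 2 f) e
            (kkC R kp (fun i => muX R i) 1) (-5 ^ j)) := by
        rw [← h9, Finset.mul_sum]
        refine Finset.sum_congr rfl fun δ _ => ?_
        unfold TT2
        ring
      rw [h10, hch]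
      push_cast
      ring
    rw [hS1]
    exact hnot
  have key2 := hGEN 2 (kk A B) K Bn hB n (hk n) (c₀ n) (mem n) hcne 1 γ₀ hγ₀
    (fun δ => (θ ((χ (r δ))⁻¹ : (IsLocalRing.ResidueField V)ˣ)).val) key γ hγ
  exact ⟨θ, key2⟩

end

end Pool.Agent.N2I
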