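import Pool.Agent.N2.StIT

/-!
# MUX-2N, block I2N, module KAP: the odd sign function modulo `D` (helper76)

Model: `kap_exists` in `Pool/Agent/MUX/Kap2.lean` (helper77).
-/

set_option autoImplicit false

namespace Pool.Agent.N2I

open _root_.MU3 Pool.Agent.MU3 Pool.Agent.MU3A Pool.Agent.MU3B Pool.Agent.RI Pool.Agent.RID
  Pool.Agent.MUX Pool.Agent.MUXK Pool.Agent.MUXI Pool.Agent.NSI Pool.Agent.N2
open Pool.Agent.MU3I (w3 zt)
open Pool.Agent.MUX2 (exists_three_mod_four)

noncomputable section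

/-- KAP. -/
theorem tt_KAP : St_KAP := by
  intro A B hC
  have h8 : (8 : ℤ) ∣ B ^ 2 + 4 * A - 5 := hC.two
  have hB : B = 1 := by
    rcases hC.hB with h | h
    · subst h
      obtain ⟨c, hc⟩ := h8
      omega
    · exact h
  subst hB
  have hneg := hC.neg
  have habs : absD A 1 = -(1 + 4 * A) := by simp [absD]
  have hpos : 0 < absD A 1 := by rw [habs]; omega
  have hmod : ((absD A 1).toNat) % 4 = 3 := by
    rw [habs] at hpos ⊢
    obtain ⟨c, hc⟩ := h8
    omega
  obtain ⟨q, hq, hq3, hqd⟩ := exists_three_mod_four hmod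
  have : Fact q.Prime := ⟨hq⟩
  have hq2 : q ≠ 2 := by rintro rfl; norm_num at hq3
  have hD : ((1 + 4 * A : ℤ) : ZMod q) = 0 := by
    have h1 : (q : ℤ) ∣ absD A 1 := by
      have : ((absD A 1).toNat : ℤ) = absD A 1 := Int.toNat_of_nonneg hpos.le
      rw [← this]; exact_mod_cast hqd
    rw [habs, dvd_neg] at h1
    exact (ZMod.intCast_zmod_eq_zero_iff_dvd _ _).2 h1
  have h20 : (2 : ZMod q) ≠ 0 := by
    intro h
    have h2 : ((2 : ℕ) : ZMod q) = 0 := by exact_mod_cast h
    rw [ZMod.natCast_eq_zero_iff] at h2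
    exact hq2 ((Nat.prime_dvd_prime_iff_eq hq Nat.prime_two).1 h2)
  have hw : (2 : ZMod q)⁻¹ * (2 : ZMod q)⁻¹ = (A : ZMod q) + (2 : ZMod q)⁻¹ := by
    have h1 : (1 : ZMod q) + 4 * (A : ZMod q) = 0 := by
      have := hD; push_cast at this; exact this
    field_simp
    linear_combination -h1
  -- the homomorphism `w ↦ 1/2`
  let φ : OO A 1 → ZMod q := fun x => (x.re : ZMod q) + (x.im : ZMod q) * (2 : ZMod q)⁻¹
  have φmul : ∀ x y, φ (x * y) = φ x * φ y := by
    intro x y
    simp only [φ, QuadraticAlgebra.re_mul, QuadraticAlgebra.im_mul]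
    push_cast
    linear_combination (-(x.im : ZMod q) * (y.im : ZMod q)) * hw
  have r1 : (1 : OO A 1).re = 1 := rfl
  have i1 : (1 : OO A 1).im = 0 := rfl
  have φone : φ 1 = 1 := by
    simp only [φ, r1, i1]; push_cast; ring
  have φneg : φ (-1) = -1 := by
    simp only [φ, QuadraticAlgebra.re_neg, QuadraticAlgebra.im_neg, r1, i1]; push_cast; ring
  have φsub : ∀ x y, φ (x - y) = φ x - φ y := by
    intro x y
    simp only [φ, QuadraticAlgebra.re_sub, QuadraticAlgebra.im_sub]
    push_cast; ring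
  have φadd : ∀ x y, φ (x + y) = φ x + φ y := by
    intro x y
    simp only [φ, QuadraticAlgebra.re_add, QuadraticAlgebra.im_add]
    push_cast; ring
  have φD : ∀ x, x ∈ idl (A := A) (B := 1) (absD A 1).toNat → φ x = 0 := by
    intro x hx
    obtain ⟨c, rfl⟩ := Ideal.mem_span_singleton'.1 hx
    rw [φmul]
    have h1 : φ (((absD A 1).toNat : ℕ) : OO A 1) = 0 := by
      have h2 : ((((absD A 1).toNat : ℕ) : OO A 1)).re = ((absD A 1).toNat : ℤ) := by simp
      have h3 : ((((absD A 1).toNat : ℕ) : OO A 1)).im = 0 := by simp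
      simp only [φ, h2, h3]
      have : (((absD A 1).toNat : ℕ) : ZMod q) = 0 := (ZMod.natCast_eq_zero_iff _ _).2 hqd
      push_cast
      rw [this]; ring
    rw [h1, mul_zero]
  refine ⟨fun x => quadraticChar (ZMod q) (φ x), ⟨?_, ?_, ?_, ?_, ?_⟩⟩
  · simp only [φone, map_one]
  · intro x y; simp only [φmul, map_mul]
  · simp only [φneg]
    rw [quadraticChar_neg_one (by rw [ZMod.ringChar_zmod_n]; exact hq2), ZMod.card]
    exact ZMod.χ₄_nat_three_mod_four hq3
  · intro x y hxy
    have h1 := φD _ hxy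
    rw [φsub, sub_eq_zero] at h1
    simp only [h1]
  · intro x hx
    have h1 : φ x ≠ 0 := by
      intro h0
      obtain ⟨a, ha, b, hb, hab⟩ := Ideal.isCoprime_iff_exists.1 hx
      obtain ⟨c, rfl⟩ := Ideal.mem_span_singleton'.1 ha
      have h2 : φ (c * x + b) = 1 := by rw [hab, φone]
      rw [φadd, φmul, h0, mul_zero, zero_add, φD b hb] at h2
      exact zero_ne_one h2
    exact quadraticChar_dichotomy h1

end

end Pool.Agent.N2I
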