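import Pool.Agent.N2.StIT
import Pool.Agent.MUX.XLib

/-!
# MUX-2N, block I2N, module TE2: existence of the Teichmueller character (adapted from `NS/I_TEI.lean` of helper80)

`2 O` is a prime ideal with four residue classes, so `x ^ 3 ≡ 1` modulo `2` for `x ∉ 2 O`. For such an `x`
there is exactly one cube root of unity `η` with `v (emb x - η) < 1`, and then `v (emb x - η) ≤ v 2`
(the product of the `emb x - η` is `emb x ^ 3 - 1`, and different cube roots of unity differ by units at `V`).
Put `w x = η`, and `w x = 0` for `x ∈ 2 O`; everything follows from the uniqueness.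
-/

set_option autoImplicit false

namespace Pool.Agent.N2I

open _root_.MU3 Pool.Agent.MU3 Pool.Agent.MU3A Pool.Agent.MU3B Pool.Agent.RI Pool.Agent.RID
  Pool.Agent.MUX Pool.Agent.MUXK Pool.Agent.MUXI Pool.Agent.NSI Pool.Agent.N2
open Pool.Agent.MU3I (w3 zt)

noncomputable section

namespace TE2

/-! ### Cube roots of unity -/

lemma nat_le (V : ValuationSubring ℂ) (n : ℕ) : V.valuation (n : ℂ) ≤ 1 :=
  (V.valuation_le_one_iff _).2 (natCast_mem V.toSubring n)

lemma v3_of_v2 {V : ValuationSubring ℂ} (v2 : V.valuation (2 : ℂ) < 1) :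
    V.valuation (3 : ℂ) = 1 := by
  refine le_antisymm (by exact_mod_cast nat_le V 3) (not_lt.1 fun h => ?_)
  have h1 : V.valuation (3 - 2 : ℂ) < 1 := lt_of_le_of_lt (V.valuation.map_sub _ _) (max_lt h v2)
  have h2 : (3 - 2 : ℂ) = 1 := by norm_num
  rw [h2, map_one] at h1
  exact lt_irrefl _ h1

lemma v_root {V : ValuationSubring ℂ} {η : ℂ} (h : η ^ 3 = 1) : V.valuation η = 1 := by
  have h1 : V.valuation η ^ 3 = 1 := by rw [← map_pow, h, map_one]
  exact (pow_eq_one_iff.1 h1).resolve_right (by norm_num)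

/-- different cube roots of unity differ by a unit at `V` -/
lemma root_eq {V : ValuationSubring ℂ} (v2 : V.valuation (2 : ℂ) < 1) {η η' : ℂ} (h : η ^ 3 = 1)
    (h' : η' ^ 3 = 1) (hv : V.valuation (η - η') < 1) : η = η' := by
  have h0 : η' ≠ 0 := by
    rintro rfl
    norm_num at h'
  have hr8 : (η / η') ^ 3 = 1 := by rw [div_pow, h, h', div_one]
  have hrv : V.valuation (η / η') = 1 := v_root hr8
  have hrV : η / η' ∈ V := (V.valuation_le_one_iff _).1 hrv.le
  have hd : V.valuation (η / η' - 1) < 1 := by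
    have e1 : η / η' - 1 = (η - η') / η' := by
      rw [sub_div, div_self h0]
    rw [e1, map_div₀, v_root h', div_one]
    exact hv
  by_contra hne
  have hr1 : η / η' - 1 ≠ 0 := by
    intro h1
    exact hne ((div_eq_one_iff_eq h0).1 (sub_eq_zero.1 h1))
  generalize η / η' = ρ at hr8 hrV hd hr1
  have hgeom : 1 + ρ + ρ ^ 2 = 0 := by
    apply mul_left_cancel₀ hr1
    linear_combination hr8
  have h8 : (3 : ℂ) = -((ρ - 1) * (ρ + 2)) := by
    linear_combination hgeom
  have hmem : ρ + 2 ∈ V := V.add_mem _ _ hrV (by exact_mod_cast natCast_mem V.toSubring 2)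
  have hv8 : V.valuation (3 : ℂ) < 1 := by
    rw [h8, Valuation.map_neg, map_mul]
    exact mul_lt_one_of_lt_of_le hd ((V.valuation_le_one_iff _).2 hmem)
  rw [v3_of_v2 v2] at hv8
  exact lt_irrefl _ hv8

/-- `z ^ 3 ≡ 1` modulo `2`: then `z` is congruent to a cube root of unity -/
lemma exists_root {V : ValuationSubring ℂ} (v2 : V.valuation (2 : ℂ) < 1) {z : ℂ}
    (hz : V.valuation (z ^ 3 - 1) ≤ V.valuation (2 : ℂ)) :
    ∃ η : ℂ, η ^ 3 = 1 ∧ V.valuation (η - z) ≤ V.valuation (2 : ℂ) := by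
  have hprod : z ^ 3 - 1 = ∏ η ∈ Polynomial.nthRootsFinset 3 (1 : ℂ), (z - η) := by
    have h1 := Polynomial.X_pow_sub_one_eq_prod (R := ℂ) (n := 3) (by norm_num)
      (Complex.isPrimitiveRoot_exp 3 (by norm_num))
    have h2 := congrArg (Polynomial.eval z) h1
    rw [Polynomial.eval_prod] at h2
    simpa using h2
  have hS : ∀ η ∈ Polynomial.nthRootsFinset 3 (1 : ℂ), η ^ 3 = 1 := fun η hη =>
    (Polynomial.mem_nthRootsFinset (by norm_num) (1 : ℂ)).1 hη
  by_cases h : ∃ η ∈ Polynomial.nthRootsFinset 3 (1 : ℂ), V.valuation (z - η) < 1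
  · obtain ⟨η, hη, hv⟩ := h
    refine ⟨η, hS η hη, ?_⟩
    rw [Valuation.map_sub_swap]
    have h1 : V.valuation (z ^ 3 - 1) = V.valuation (z - η) := by
      rw [hprod, ← Finset.mul_prod_erase _ _ hη, map_mul, map_prod]
      have h2 : ∏ x ∈ (Polynomial.nthRootsFinset 3 (1 : ℂ)).erase η, V.valuation (z - x) = 1 := by
        refine Finset.prod_eq_one fun x hx => ?_
        obtain ⟨hxne, hxS⟩ := Finset.mem_erase.1 hx
        have h3 : V.valuation (η - x) = 1 := by
          refine le_antisymm ?_ (not_lt.1 fun h4 => hxne (root_eq v2 (hS η hη) (hS x hxS) h4).symm)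
          exact (V.valuation.map_sub _ _).trans
            (max_le (v_root (hS η hη)).le (v_root (hS x hxS)).le)
        have e1 : z - x = (z - η) + (η - x) := by ring
        rw [e1, Valuation.map_add_eq_of_lt_right _ (by rw [h3]; exact hv), h3]
      rw [h2, mul_one]
    rw [← h1]
    exact hz
  · push Not at h
    exfalso
    have h1 : 1 ≤ V.valuation (z ^ 3 - 1) := by
      rw [hprod, map_prod]
      exact Finset.prod_induction (fun x => V.valuation (z - x)) (fun y => 1 ≤ y)
        (fun a b ha hb => one_le_mul_of_one_le_of_one_le ha hb) le_rfl h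
    exact absurd v2 (not_lt.2 (h1.trans hz))

/-! ### The ring `O` -/

lemma wC_int {A B : ℤ} (hc : CQ A B) : IsIntegral ℤ (wC A B) := by
  refine ⟨Polynomial.X ^ 2 - Polynomial.C B * Polynomial.X - Polynomial.C A, ?_, ?_⟩
  · monicity!
  · have := wC_sq hc
    simp only [Polynomial.eval₂_sub, Polynomial.eval₂_mul, Polynomial.eval₂_pow,
      Polynomial.eval₂_X, Polynomial.eval₂_C]
    simp only [algebraMap_int_eq, eq_intCast]
    linear_combination this

lemma emb_mem_V {A B : ℤ} (hc : CQ A B) (V : ValuationSubring ℂ) (x : OO A B) : emb x ∈ V := by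
  have h1 : wC A B ∈ V := by
    have h2 : IsIntegral V (wC A B) := (wC_int hc).tower_top
    obtain ⟨y, hy⟩ := IsIntegrallyClosed.isIntegral_iff.1 h2
    rw [← hy]
    exact y.2
  have h3 : ∀ n : ℤ, (n : ℂ) ∈ V := fun n => intCast_mem V.toSubring n
  exact V.add_mem _ _ (h3 _) (V.mul_mem _ _ (h3 _) h1)

section
variable {A B : ℤ} {V : ValuationSubring ℂ}

lemma v_emb (hc : CQ A B) (V : ValuationSubring ℂ) (x : OO A B) : V.valuation (emb x) ≤ 1 :=
  (V.valuation_le_one_iff _).2 (emb_mem_V hc V x)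

lemma v_two (hc : CQ A B) (hV : OverI V (idl (A := A) (B := B) 2)) :
    V.valuation (2 : ℂ) < 1 := by
  have h1 : emb ((2 : ℕ) : OO A B) ∈ V.nonunits := (hV _).2 (Ideal.mem_span_singleton_self _)
  rw [emb_natCast hc] at h1
  exact_mod_cast V.mem_nonunits_iff.1 h1

/-- the elements of `2 O` are `≤ v 2` at `V` -/
lemma v_mem (hc : CQ A B) (V : ValuationSubring ℂ) {x : OO A B}
    (hx : x ∈ idl (A := A) (B := B) 2) : V.valuation (emb x) ≤ V.valuation (2 : ℂ) := by
  obtain ⟨y, rfl⟩ := Ideal.mem_span_singleton.1 hx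
  rw [emb_mul hc, emb_natCast hc, map_mul]
  exact mul_le_of_le_one_right' (v_emb hc V y)

lemma prime (hc : CQ A B) (hV : OverI V (idl (A := A) (B := B) 2)) :
    (idl (A := A) (B := B) 2).IsPrime := by
  refine ⟨?_, ?_⟩
  · rw [Ideal.ne_top_iff_one]
    intro h
    have h1 := V.mem_nonunits_iff.1 ((hV 1).2 h)
    rw [emb_one hc, map_one] at h1
    exact lt_irrefl _ h1
  · intro x y hxy
    have h1 := V.mem_nonunits_iff.1 ((hV _).2 hxy)
    rw [emb_mul hc, map_mul] at h1
    by_contra hcon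
    push Not at hcon
    have hx : V.valuation (emb x) = 1 := le_antisymm (v_emb hc V x)
      (not_lt.1 fun h => hcon.1 ((hV x).1 (V.mem_nonunits_iff.2 h)))
    have hy : V.valuation (emb y) = 1 := le_antisymm (v_emb hc V y)
      (not_lt.1 fun h => hcon.2 ((hV y).1 (V.mem_nonunits_iff.2 h)))
    rw [hx, hy, one_mul] at h1
    exact lt_irrefl _ h1

/-- `x ^ 3 ≡ 1` modulo `2` -/
lemma pow3 (hc : CQ A B) (hV : OverI V (idl (A := A) (B := B) 2)) {x : OO A B}
    (hx : x ∉ idl (A := A) (B := B) 2) : x ^ 3 - 1 ∈ idl (A := A) (B := B) 2 := by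
  classical
  have : (idl (A := A) (B := B) 2).IsPrime := prime hc hV
  have h3 : ((2 : ℕ) : OO A B) ≠ 0 := natCast_ne_zero' hc (by norm_num)
  have : Finite (OO A B ⧸ idl (A := A) (B := B) 2) := by
    refine finite_quot hc ?_
    rw [Ne, Ideal.span_singleton_eq_bot]
    exact h3
  have hcard : Nat.card (OO A B ⧸ idl (A := A) (B := B) 2) = 4 := by
    have h1 : nI (sp ((2 : ℕ) : OO A B)) = (nm ((2 : ℕ) : OO A B)).natAbs := nI_sp hc h3
    have h2 : nm ((2 : ℕ) : OO A B) = 4 := by
      have := nm_intCast (A := A) (B := B) 2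
      push_cast at this ⊢
      rw [this]
    rw [h2] at h1
    exact h1
  let _ : Fintype (OO A B ⧸ idl (A := A) (B := B) 2) := Fintype.ofFinite _
  let _ : Field (OO A B ⧸ idl (A := A) (B := B) 2) := Fintype.fieldOfDomain _
  have hne : Ideal.Quotient.mk (idl (A := A) (B := B) 2) x ≠ 0 := by
    rw [Ne, Ideal.Quotient.eq_zero_iff_mem]
    exact hx
  have h1 := FiniteField.pow_card_sub_one_eq_one (Ideal.Quotient.mk (idl (A := A) (B := B) 2) x) hne
  rw [← Nat.card_eq_fintype_card, hcard] at h1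
  have h2 : Ideal.Quotient.mk (idl (A := A) (B := B) 2) (x ^ 3 - 1) = 0 := by
    rw [map_sub, map_pow, map_one, sub_eq_zero]
    exact h1
  exact Ideal.Quotient.eq_zero_iff_mem.1 h2

lemma exists_eta (hc : CQ A B) (hV : OverI V (idl (A := A) (B := B) 2)) {x : OO A B}
    (hx : x ∉ idl (A := A) (B := B) 2) :
    ∃ η : ℂ, η ^ 3 = 1 ∧ V.valuation (η - emb x) ≤ V.valuation (2 : ℂ) := by
  refine exists_root (v_two hc hV) ?_
  have h1 := v_mem hc V (pow3 hc hV hx)
  rwa [emb_sub hc, emb_pow hc, emb_one hc] at h1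

end

end TE2

open TE2 in
/-- (TE2) existence of the Teichmueller character -/
theorem tt_TE2 : St_TE2 := by
  classical
  intro A B V hC hV
  have hc : CQ A B := hC.toCQ
  have v2 := v_two hc hV
  have hP : (idl (A := A) (B := B) 2).IsPrime := prime hc hV
  choose η hη3 hηv using fun (x : OO A B) (hx : x ∉ idl (A := A) (B := B) 2) => exists_eta hc hV hx
  have key : ∀ (x : OO A B) (hx : x ∉ idl (A := A) (B := B) 2) (ξ : ℂ), ξ ^ 3 = 1 →
      V.valuation (ξ - emb x) < 1 → η x hx = ξ := by
    intro x hx ξ hξ hv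
    refine root_eq v2 (hη3 x hx) hξ ?_
    have e1 : η x hx - ξ = (η x hx - emb x) - (ξ - emb x) := by ring
    rw [e1]
    exact lt_of_le_of_lt (V.valuation.map_sub _ _) (max_lt (lt_of_le_of_lt (hηv x hx) v2) hv)
  refine ⟨fun x => if hx : x ∈ idl (A := A) (B := B) 2 then 0 else η x hx, ?_, ?_, ?_, ?_, ?_, ?_⟩
  · have h1 : (1 : OO A B) ∉ idl (A := A) (B := B) 2 := (Ideal.ne_top_iff_one _).1 hP.ne_top
    rw [dif_neg h1]
    refine key 1 h1 1 (one_pow 3) ?_
    rw [emb_one hc, sub_self, map_zero]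
    exact zero_lt_one
  · intro x y
    by_cases hx : x ∈ idl (A := A) (B := B) 2
    · rw [dif_pos hx, dif_pos (Ideal.mul_mem_right y _ hx), zero_mul]
    · by_cases hy : y ∈ idl (A := A) (B := B) 2
      · rw [dif_pos hy, dif_pos (Ideal.mul_mem_left _ x hy), mul_zero]
      · have hxy : x * y ∉ idl (A := A) (B := B) 2 := fun h => (hP.mem_or_mem h).elim hx hy
        rw [dif_neg hx, dif_neg hy, dif_neg hxy]
        refine key (x * y) hxy _ (by rw [mul_pow, hη3, hη3, one_mul]) ?_
        have e1 : η x hx * η y hy - emb (x * y) =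
            η x hx * (η y hy - emb y) + emb y * (η x hx - emb x) := by
          rw [emb_mul hc]
          ring
        rw [e1]
        refine lt_of_le_of_lt (V.valuation.map_add _ _) (max_lt ?_ ?_)
        · rw [map_mul, v_root (hη3 x hx), one_mul]
          exact lt_of_le_of_lt (hηv y hy) v2
        · rw [map_mul]
          exact lt_of_le_of_lt (mul_le_of_le_one_left' (v_emb hc V y))
            (lt_of_le_of_lt (hηv x hx) v2)
  · intro x y hxy
    by_cases hx : x ∈ idl (A := A) (B := B) 2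
    · have hy : y ∈ idl (A := A) (B := B) 2 := by
        have h := Ideal.sub_mem _ hx hxy
        rwa [sub_sub_cancel] at h
      rw [dif_pos hx, dif_pos hy]
    · have hy : y ∉ idl (A := A) (B := B) 2 := by
        intro h
        apply hx
        have h := Ideal.add_mem _ hxy h
        rwa [sub_add_cancel] at h
      rw [dif_neg hx, dif_neg hy]
      refine key x hx _ (hη3 y hy) ?_
      have e1 : η y hy - emb x = (η y hy - emb y) - emb (x - y) := by
        rw [emb_sub hc]
        ring
      rw [e1]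
      exact lt_of_le_of_lt (V.valuation.map_sub _ _)
        (max_lt (lt_of_le_of_lt (hηv y hy) v2) (lt_of_le_of_lt (v_mem hc V hxy) v2))
  · intro x hx
    rw [dif_pos hx]
  · intro x hx
    rw [dif_neg hx]
    exact hη3 x hx
  · intro x
    by_cases hx : x ∈ idl (A := A) (B := B) 2
    · rw [dif_pos hx, zero_sub, Valuation.map_neg]
      exact v_mem hc V hx
    · rw [dif_neg hx]
      exact hηv x hx

end

end Pool.Agent.N2I
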