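import Pool.Agent.NS.IAll
import Pool.Agent.MUX.ZW
import Pool.Agent.MUX.ZY
import Pool.Agent.MUX.Z_THN
import Pool.Agent.N2.I_KAP
import Pool.Agent.N2.I_TE2
import Pool.Agent.N2.I_EPT
import Pool.Agent.N2.I_CYC
import Pool.Agent.N2.I_I31
import Pool.Agent.N2.I_INP
import Pool.Agent.N2.I_INPG

/-!
# MUX-2N, block I2N without hypotheses (helper36): `2` inert; the inputs are blocks R, E, H
-/

set_option autoImplicit false

namespace Pool.Agent.N2I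

open Pool.Agent.MUXF Pool.Agent.MUXI Pool.Agent.MUXK Pool.Agent.NSI Pool.Agent.N2

theorem t_KAP : St_KAP := tt_KAP
theorem t_TE2 : St_TE2 := tt_TE2
theorem t_EPT : St_EPT := tt_EPT t_KAP t_TE2 xf_ALG
theorem t_CYC : St_CYC := tt_CYC i_LAY

theorem t_LVX : Pool.Agent.NSZ.Zl_LVX := Pool.Agent.NSZ.tl_LVX

theorem t_INW : Pool.Agent.NSZ.Zl_INW :=
  Pool.Agent.NSZ.tl_INW t_LVX n_SUB MUXW.z_MEM MUXW.z_TOW MUXW.z_SUC MUXW.z_I1 MUXW.z_KOL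

theorem t_THN : Pool.Agent.MUXZ.Sz_THN := Pool.Agent.MUXZ.tz_THN MUXW.z_THG

theorem t_I31 (hH : S2_HFIN) : St_I31 :=
  tt_I31 Pool.Agent.MUXJ.j_RES i_CHI n_FOU Pool.Agent.MU3I.t_ITG t_EPT n_E0 i_ARF i_XXF n_SUB
    i_GAM n_XMX i_BIJ n_TH i_GEN hH k_GALX

theorem t_INP (hH : S2_HFIN) : St_INP := tt_INP (t_I31 hH) n_LEM1 n_NRX

/-- the result of block I2N -/
theorem t_INPG (hRF : S2_RFIN) (hEF : S2_EFIN) (hH : S2_HFIN) : St_INPG :=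
  tt_INPG hRF hEF (t_INP hH) t_CYC t_LVX t_INW n_SUB t_THN MUXW.z_MEM MUXW.z_CXS MUXY.z_REX

end Pool.Agent.N2I
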