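import Pool.Agent.N2.ZFinT
import Pool.Agent.N2.IAllT
import Pool.Agent.N2.EAll
import Pool.Agent.N2.RAll
import Pool.Agent.N2.HAll

/-!
# MUX-2N, all blocks put together: `p = 2` inert in `k`, `D ≠ -3`, no hypotheses (helper41)
-/

set_option autoImplicit false

open NumberField IsDedekindDomain

namespace Pool.Agent.N2Z

open _root_.MU3 Pool.Agent.MU3 Pool.Agent.MU3A Pool.Agent.MU3B Pool.Agent.RI Pool.Agent.RID
  Pool.Agent.MUX Pool.Agent.MUXK Pool.Agent.MUXJ Pool.Agent.MUXZ Pool.Agent.MU3Z Pool.Agent.NSZ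
  Pool.Agent.N2 Pool.Agent.N2I

/-- the inputs of block J, `2` inert -/
theorem i_INPG2 : St_INPG :=
  Pool.Agent.N2I.t_INPG Pool.Agent.N2R.r_RFIN (Pool.Agent.N2E.d_EFIN Pool.Agent.N2R.r_RFIN)
    (h_HFINT Pool.Agent.N2R.r_RFIN)

/-- the main theorem for ray class fields, `2` inert -/
theorem z_main2u (A B : ℤ) (hC : CaseT A B)
    (F M K : IntermediateField ℚ ℂ) [FiniteDimensional ℚ M] (hF : kk A B ≤ F) (h : F ≤ M)
    (a : ℕ) (hT : TorU A B F) (hGal : IsGalois F (IntermediateField.extendScalars h))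
    (ha : Module.finrank F (IntermediateField.extendScalars h) = 2 ^ a) (hK : K ≤ M) :
    ∃ C : ℕ, ∀ (n : ℕ) (Q : IntermediateField ℚ ℂ), IsLayer 2 n Q →
      padicValNat 2 (classNo (K ⊔ Q)) ≤ C * (n + 1) ^ C :=
  z_main2 Pool.Agent.N2R.r_RFIN i_INPG2 A B hC F M K hF h a hT hGal ha hK

/-- every finite extension of `ℚ` inside the maximal abelian extension of `ℚ(√-d)`, `d ≡ 3` modulo 8,
`d ≠ 3` -/
theorem final2u (d : ℕ) (hd : Squarefree d) (h8 : d % 8 = 3)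
    (h3 : d ≠ 3) (K : IntermediateField ℚ ℂ) [FiniteDimensional ℚ K] (hK : K ≤ weberField d) :
    ∃ C : ℕ, ∀ (n : ℕ) (Q : IntermediateField ℚ ℂ), IsLayer 2 n Q →
      padicValNat 2 (classNo (K ⊔ Q)) ≤ C * (n + 1) ^ C :=
  final2 Pool.Agent.N2R.r_RFIN i_INPG2 d hd h8 h3 K hK

end Pool.Agent.N2Z
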