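import Pool.Agent.N2.ZFinR
import Pool.Agent.N2.ZInert2
import Pool.Agent.N2.IAllR
import Pool.Agent.N2.HAllU
import Pool.Agent.N2.KapR
import Pool.Agent.N2.VAll
import Pool.Agent.N2.KY
import Pool.Agent.MUX.JUAll

/-!
# MUX: the theorem for `p = 2` and all imaginary quadratic fields except `ℚ(i)`, `ℚ(√-3)` (helper36)

The three cases: `2` split (`MUX/ZFin.lean`, helper3), inert (`N2/ZInert2.lean`: blocks R helper77, E helper34, G, T, H helper6, helper4, helper66,
helper41, I helper36), ramified (`N2/ZFinR.lean`: blocks R, KAP helper77, E helper59, G, T, H helper6, helper4, helper66, helper41, I helper36, K helper66,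
J helper34).
-/

set_option autoImplicit false

open NumberField IsDedekindDomain

namespace Pool.Agent.N2Z

open _root_.MU3 Pool.Agent.MU3 Pool.Agent.MU3A Pool.Agent.MU3B Pool.Agent.RI Pool.Agent.RID
  Pool.Agent.MUX Pool.Agent.MUXK Pool.Agent.MUXJ Pool.Agent.MUXZ Pool.Agent.MU3Z Pool.Agent.NSZ
  Pool.Agent.N2

theorem r_INPG2 : SQ_INPG :=
  Pool.Agent.N2IR.r_INPG Pool.Agent.N2R.r_RFINQ (Pool.Agent.N2V.v_EFIN Pool.Agent.N2R.r_RFINQ)
    h_HFINU0

/-- `p = 2`, ramified in `k`, `k ≠ ℚ(i)`, for ray class fields -/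
theorem z_main2r (A B : ℤ) (hC : CaseR2 A B) (F M K : IntermediateField ℚ ℂ)
    [FiniteDimensional ℚ M] (hF : kk A B ≤ F) (h : F ≤ M) (a : ℕ) (hT : TorU A B F)
    (hG : IsGalois F (IntermediateField.extendScalars h))
    (ha : Module.finrank F (IntermediateField.extendScalars h) = 2 ^ a) (hK : K ≤ M) :
    ∃ C : ℕ, ∀ (n : ℕ) (Q : IntermediateField ℚ ℂ), IsLayer 2 n Q →
      padicValNat 2 (classNo (K ⊔ Q)) ≤ C * (n + 1) ^ C :=
  z_main2R sq_KAP Pool.Agent.N2R.r_RFINQ r_INPG2 (j_JFIN Pool.Agent.N2K.j_MAINKY) A B hC F M K hF h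
    a hT hG ha hK

/-- `p = 2`, all `k` except `ℚ(i)`, `ℚ(√-3)`, for ray class fields -/
theorem z_all2 (A B : ℤ) (hC : MUX.CQ A B) (h3 : absD A B ≠ 3) (h4 : absD A B ≠ 4)
    (F M K : IntermediateField ℚ ℂ) [FiniteDimensional ℚ M] (hF : kk A B ≤ F) (h : F ≤ M)
    (a : ℕ) (hT : TorU A B F) (hG : IsGalois F (IntermediateField.extendScalars h))
    (ha : Module.finrank F (IntermediateField.extendScalars h) = 2 ^ a) (hK : K ≤ M) :
    ∃ C : ℕ, ∀ (n : ℕ) (Q : IntermediateField ℚ ℂ), IsLayer 2 n Q →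
      padicValNat 2 (classNo (K ⊔ Q)) ≤ C * (n + 1) ^ C := by
  unfold absD at h3 h4
  rcases hC.hB with hB | hB
  · have hR : CaseR2 A B := { hC with
      two := by
        rw [hB]
        exact ⟨2 * A, by ring⟩
      exc := by
        intro h5
        rw [hB, h5] at h4
        norm_num at h4 }
    exact z_main2r A B hR F M K hF h a hT hG ha hK
  · have h0 : (B ^ 2 + 4 * A) % 8 = 1 ∨ (B ^ 2 + 4 * A) % 8 = 5 := by
      rw [hB]
      omega
    rcases h0 with h0 | h0
    · have hP : CaseP 2 A B := { hC with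
        split := Or.inr ⟨rfl, by omega⟩ }
      exact z_main 2 A B hP F M K hF h a hT hG ha hK
    · have hI : CaseT A B := { hC with
        two := by omega
        exc := by
          rintro ⟨h5, h6⟩
          rw [h5, h6] at h3
          norm_num at h3 }
      exact z_main2u A B hI F M K hF h a hT hG ha hK

/-- `p = 2`, in terms of `weberField d`, `d ≠ 1, 3` -/
theorem final2_all (d : ℕ) (hd : Squarefree d) (h1 : d ≠ 1) (h3 : d ≠ 3)
    (K : IntermediateField ℚ ℂ) [FiniteDimensional ℚ K] (hK : K ≤ weberField d) :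
    ∃ C : ℕ, ∀ (n : ℕ) (Q : IntermediateField ℚ ℂ), IsLayer 2 n Q →
      padicValNat 2 (classNo (K ⊔ Q)) ≤ C * (n + 1) ^ C := by
  have h5 := absD_p d
  refine to_weber hd h1 h3 (MUXC.c_TOR _ _ (cq_p hd)) ?_ K hK
  intro F M K _ hF h a hT hG ha hK
  refine z_all2 _ _ (cq_p hd) ?_ ?_ F M K hF h a hT hG ha hK <;>
  · rw [h5]
    split_ifs <;> omega

end Pool.Agent.N2Z
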