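import Pool.Agent.N2.G_BinT
import Pool.Agent.NS.G_Leg
import Pool.Agent.NS.RN_UNR

/-!
# N2, block G2N (helper6): the lattice `u L` of `GoodT`; algebraicity of `u`, `e`, `a1`, `a3`
-/

set_option autoImplicit false

namespace Pool.Agent.N2

open _root_.MU3 Pool.Agent.MU3A Pool.Agent.MU3B Pool.Agent.MU3Q Pool.Agent.MUX Pool.Agent.MUXN
  Pool.Agent.NS Pool.Agent.NSG

noncomputable section

variable {A B : ℤ}

/-- the values of `℘` at torsion points of normalised lattices are algebraic -/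
theorem tor_alg (hc : CQ A B) (hT : TorX A B) {b : Ideal (OO A B)} {L : PeriodPair} {om : ℂ}
    (hL : IsNL b L om) {n : ℕ} (hn : n ≠ 0) {z : ℂ} (hz : (n : ℂ) * z ∈ L.lattice)
    (hz' : z ∉ L.lattice) : IsAlgebraic ℚ (L.weierstrassP z) := by
  have hm : idl (A := A) (B := B) n ≠ ⊥ := by
    intro h0
    rw [Ideal.span_singleton_eq_bot] at h0
    have h1 := congrArg QuadraticAlgebra.re h0
    rw [QuadraticAlgebra.re_natCast, QuadraticAlgebra.re_zero] at h1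
    exact hn (by exact_mod_cast h1)
  have hf := hT.fin _ hm
  have hmem : xn L z ∈ RF (idl (A := A) (B := B) n) :=
    IntermediateField.subset_adjoin _ _ ⟨b, L, om, hL, Or.inr
      ⟨z, Pool.Agent.NSR.UNR.tor_of_mul hc hL.toIsLI hz, hz', rfl⟩⟩
  have h1 : IsAlgebraic (kk A B) (⟨xn L z, hmem⟩ : RF (idl (A := A) (B := B) n)) :=
    Algebra.IsAlgebraic.isAlgebraic _
  have h2 : IsAlgebraic ℚ (xn L z) := alg_of hc (h1.algebraMap (A := ℂ))
  have h3 : L.weierstrassP z = xn L z + ((1 / 12 : ℚ) : ℂ) := by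
    unfold xn
    push_cast
    ring
  rw [h3]
  exact h2.add (isAlgebraic_algebraMap (A := ℂ) (1 / 12 : ℚ))

theorem g_alg (hc : CQ A B) (hT : TorX A B) {b : Ideal (OO A B)} {L : PeriodPair} {om : ℂ}
    (hL : IsNL b L om) : IsAlgebraic ℚ L.g₂ ∧ IsAlgebraic ℚ L.g₃ := by
  have hk := kap_alg hc hT hL
  have hq : ∀ q : ℚ, IsAlgebraic ℚ (q : ℂ) := fun q => isAlgebraic_algebraMap (A := ℂ) q
  have h2 : IsAlgebraic ℚ L.g₂ := by
    have e1 : L.g₂ = ((144 : ℚ) : ℂ) * kap L + ((1 / 12 : ℚ) : ℂ) := by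
      unfold kap
      push_cast
      ring
    rw [e1]
    exact ((hq _).mul hk).add (hq _)
  refine ⟨h2, ?_⟩
  have e1 : L.g₃ = ((-(1 / 18) : ℚ) : ℂ) * L.g₂ := by
    rw [hL.nrm]
    push_cast
    ring
  rw [e1]
  exact (hq _).mul h2

theorem legT_alg (hc : CQ A B) (hT : TorX A B) {b : Ideal (OO A B)} {L : PeriodPair} {om : ℂ}
    (hL : IsNL b L om) {V : ValuationSubring ℂ} {u e a1 a3 : ℂ} (h : GoodT V L u e a1 a3) :
    IsAlgebraic ℚ u ∧ IsAlgebraic ℚ e ∧ IsAlgebraic ℚ a1 ∧ IsAlgebraic ℚ a3 := by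
  obtain ⟨k2, k3⟩ := g_alg hc hT hL
  have hq : ∀ q : ℚ, IsAlgebraic ℚ (q : ℂ) := fun q => isAlgebraic_algebraMap (A := ℂ) q
  obtain ⟨w1, w2, t1, t2, n1, n2, -, -, he, hu⟩ := h.tor
  have p1 : IsAlgebraic ℚ (L.weierstrassP w1) :=
    tor_alg hc hT hL (n := 3) (by norm_num) (by exact_mod_cast t1) n1
  have p2 : IsAlgebraic ℚ (L.weierstrassP w2) :=
    tor_alg hc hT hL (n := 3) (by norm_num) (by exact_mod_cast t2) n2
  have hu2 : IsAlgebraic ℚ (u ^ 2) := by rw [hu]; exact p2.sub p1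
  have hua : IsAlgebraic ℚ u := IsAlgebraic.of_pow (by norm_num) hu2
  have dsq : ∀ w : ℂ, w ∉ L.lattice → IsAlgebraic ℚ (L.weierstrassP w) →
      IsAlgebraic ℚ ((L.derivWeierstrassP w / u ^ 3) ^ 2) := by
    intro w hw ha
    have e1 : (L.derivWeierstrassP w / u ^ 3) ^ 2 = (((4 : ℚ) : ℂ) * L.weierstrassP w ^ 3 -
        L.g₂ * L.weierstrassP w - L.g₃) * ((u ^ 2) ^ 3)⁻¹ := by
      rw [div_pow, L.derivWeierstrassP_sq w hw]
      push_cast
      rw [div_eq_mul_inv]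
      congr 2
      ring
    rw [e1]
    exact ((((hq 4).mul (ha.pow 3)).sub (k2.mul ha)).sub k3).mul (hu2.pow 3).inv
  have ha3 : IsAlgebraic ℚ a3 := by
    have h1 := h.eq w1 n1
    rw [he, sub_self, zero_div, mul_zero, zero_add] at h1
    have h2 : a3 ^ 2 = (L.derivWeierstrassP w1 / u ^ 3) ^ 2 := by
      rw [h1]
      ring
    refine IsAlgebraic.of_pow (n := 2) (by norm_num) ?_
    rw [h2]
    exact dsq w1 n1 p1
  refine ⟨hua, by rw [he]; exact p1, ?_, ha3⟩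
  have h1 := h.eq w2 n2
  have e1 : (L.weierstrassP w2 - e) / u ^ 2 = 1 := by
    rw [he, ← hu]
    exact div_self (pow_ne_zero _ h.u0)
  rw [e1] at h1
  have h2 : (a1 + a3) ^ 2 = (L.derivWeierstrassP w2 / u ^ 3) ^ 2 - ((4 : ℚ) : ℂ) := by
    rw [h1]
    push_cast
    ring
  have h3 : IsAlgebraic ℚ (a1 + a3) := by
    refine IsAlgebraic.of_pow (n := 2) (by norm_num) ?_
    rw [h2]
    exact (dsq w2 n2 p2).sub (hq 4)
  have h4 : a1 = (a1 + a3) - a3 := by ring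
  rw [h4]
  exact h3.sub ha3

/-- the lattice `u L`, its integrality property at `V` -/
theorem legT (hS : MUXU.Su_SCX) (hWQ : St_WQ) (hGP : Sg_GP) (hDV : Sg_DV) (hc : CQ A B)
    (hT : TorX A B) {n : ℕ} {ι : Type}
    (R : Reps A B n ι) {V : ValuationSubring ℂ} (h2V : V.valuation (2 : ℂ) < 1) {u e a1 a3 : ℂ}
    (h : GoodT V (R.L R.i0) u e a1 a3) :
    ∃ (L' : PeriodPair) (S : Finset ℂ), BinP V L' S ∧ LatO A B L' (u * R.om R.i0) := by
  obtain ⟨L', hL'⟩ := hS (R.L R.i0) u h.u0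
  obtain ⟨s1, s2, -, -⟩ := ta_SCP (R.L R.i0) L' u h.u0 hL'
  have ho : R.om R.i0 ≠ 0 := (R.nl R.i0).om_ne
  obtain ⟨-, -, k1, k3⟩ := legT_alg hc hT (R.nl R.i0) h
  refine ⟨L', {a1, a3}, ?_, mul_ne_zero h.u0 ho, ?_⟩
  · refine bin_T hWQ hGP hDV V h2V L' (e / u ^ 2) a1 a3 ?_ k1 k3 h.v1 h.v3
    intro z hz
    have e1 : z = u * (u⁻¹ * z) := by rw [mul_inv_cancel_left₀ h.u0]
    have hz' : u⁻¹ * z ∉ (R.L R.i0).lattice := by
      intro h4
      apply hz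
      rw [e1]
      exact (hL' _).1 h4
    have h5 := h.eq _ hz'
    rw [e1, s1, s2, h5]
    have hu := h.u0
    ring
  · intro z
    have e1 : z = u * (u⁻¹ * z) := by rw [mul_inv_cancel_left₀ h.u0]
    rw [e1, ← hL' (u⁻¹ * z), (R.nl R.i0).mem]
    constructor
    · rintro ⟨x, -, hx⟩
      exact ⟨x, by rw [hx]; ring⟩
    · rintro ⟨x, hx⟩
      refine ⟨x, by rw [R.b0]; trivial, ?_⟩
      have hu := h.u0
      apply mul_left_cancel₀ hu
      rw [hx]
      ring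

end

end Pool.Agent.N2
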