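import Pool.Agent.N2.G_GdnQ
import Pool.Agent.N2.G_LegT
import Pool.Agent.N2.G_LcnP
import Pool.Agent.N2.G_UnnT
import Pool.Agent.MUX.HX_HZ

/-!
# N2, block G2N (helper6): Theorem G for combinations of translates of `PhiK R e kk / (u om)`, and `S2_GPT`
-/

set_option autoImplicit false

namespace Pool.Agent.N2

open _root_.MU3 Pool.Agent.MU3A Pool.Agent.MU3B Pool.Agent.MU3Q Pool.Agent.MUX Pool.Agent.MuSym
  Pool.Agent.MUXN Pool.Agent.NS Pool.Agent.NSG OnePoint UpperHalfPlane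

noncomputable section

variable {A B : ℤ}

/-- Theorem G for the combination `Σ_t cc t P(x + t/q, y + t/q)` of translates of `P = PhiK R e kk / (u om)` -/
theorem gptQ (k1 : Sg_RET) (k2 : Sg_NFE) (k3 : Sg_DSC) (k4 : Sg_ZL) (k5 : Sg_FK) (k6 : Sg_FGG)
    (h2 : MUXT.Xs_FTI)
    (h3 : MUXF.Sx_CHI) (h4 : MUXY.Sy_CON) (h5 : MUXY.Sy_ALP)
    (h7 : MUXY.Sy_FEC) (h8 : MUXY.Sy_COP) (hA : MUXF.Sx_ALG) (hI : MUXF.Sx_IDL)
    (hQB : MUXF.Sx_QB) (hBD : MUXF.Sx_BDD) (hTS : MUXF.Sx_TSM) {V : ValuationSubring ℂ}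
    (hc : CQ A B) (u1 : ∀ x : OO A B, nm x = 1 → x = 1 ∨ x = -1)
    (u2 : ∀ (b : Ideal (OO A B)) (_ : b ≠ ⊥) (x : OO A B), x ∈ b → nm x = MUX.nI b → b = MUX.sp x)
    (hLoc : LocN A B V) (hT : TorX A B) {n : ℕ} (hn : 2 ≤ n) {ι : Type} [Fintype ι]
    (R : Reps A B n ι) {u : ℂ} (hu : u ≠ 0) (hua : IsAlgebraic ℚ u) {L' : PeriodPair}
    {S₀ : Finset ℂ} (hB : BinP V L' S₀) (hL : LatO A B L' (u * R.om R.i0)) {e : OO A B → ℂ}
    (he : IsEI (idl (A := A) (B := B) n) e) {r : ℕ} (hr : r ≠ 0)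
    (her : ∀ x, e x ≠ 0 → e x ^ r = 1) {kk : ι → ℂ} (hkk : V.valuation (kk R.i0) = 1)
    {N' : ℕ} (hN' : N' ≠ 0) (hNd : absD A B * ((n : ℕ) : ℤ) ^ 2 ∣ (N' : ℤ)) {q : ℕ} (hq : 0 < q)
    (cc : Fin q → ℂ) (hs : ∑ t, cc t * zq q ^ (t : ℕ) ≠ 0) :
    ∃ a b c d : ℤ, a * d - b * c = 1 ∧ (N' : ℤ) ∣ c ∧ (N' : ℤ) ∣ d - 1 ∧
      V.valuation (∑ t, cc t * zq q ^ (t : ℕ)) ≤ V.valuation (∑ t : Fin q, cc t *
        (PhiK R e kk (mob q (t : ℕ) 0 q ∞) (mob q (t : ℕ) 0 q (mob a b c d ∞)) /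
          (u * R.om R.i0))) := by
  classical
  have hD := gdatQ hq h2 h3 h4 h5 h7 h8 hA hI hQB hBD hTS hc u1 u2 hT hn R e he r hr her u hu
    hua N' hN' hNd
  have hfE : Finite (EC e) := (h7 A B e r hr her).1
  have hFt : Fintype (EC e) := Fintype.ofFinite _
  have heE : e ∈ EC e := ⟨RingEquiv.refl ℂ, rfl⟩
  obtain ⟨s, hs'⟩ : ∃ s, s = ∑ t, cc t * zq q ^ (t : ℕ) := ⟨_, rfl⟩
  rw [← hs'] at hs ⊢
  set w : ι × EC e × Fin q → ℂ := fun j => if j.2.1 = ⟨e, heE⟩ then kk j.1 * cc j.2.2 / s else 0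
    with hw
  have hsum : ∀ F : ι × EC e × Fin q → ℂ, ∑ j, w j * F j =
      ∑ i, ∑ t, kk i * cc t / s * F (i, ⟨e, heE⟩, t) := by
    intro F
    rw [Fintype.sum_prod_type]
    refine Finset.sum_congr rfl fun i _ => ?_
    rw [Fintype.sum_prod_type, Finset.sum_eq_single (⟨e, heE⟩ : EC e)]
    · refine Finset.sum_congr rfl fun t _ => ?_
      rw [hw]
      beta_reduce
      rw [if_pos rfl]
    · intro e' _ he'
      refine Finset.sum_eq_zero fun t _ => ?_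
      rw [hw]
      beta_reduce
      rw [if_neg he', zero_mul]
    · intro h
      exact absurd (Finset.mem_univ _) h
  have hα : ∑ j, w j * a1Q q R e j = kk R.i0 := by
    rw [hsum, Finset.sum_eq_single R.i0]
    · have e1 : ∀ t : Fin q, kk R.i0 * cc t / s * a1Q q R e (R.i0, ⟨e, heE⟩, t) =
          kk R.i0 / s * (cc t * zq q ^ (t : ℕ)) := by
        intro t
        unfold a1Q
        rw [if_pos rfl]
        ring
      rw [Finset.sum_congr rfl fun t _ => e1 t, ← Finset.mul_sum, ← hs', div_mul_cancel₀ _ hs]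
    · intro i _ hi
      refine Finset.sum_eq_zero fun t _ => ?_
      unfold a1Q
      rw [if_neg hi, mul_zero]
    · intro h
      exact absurd (Finset.mem_univ _) h
  obtain ⟨a, b, c, d, m1, m2, m3, m4⟩ := gen_GTH k1 k2 k3 k4 k5 k6 hc hD hLoc hB hL w (by
      rw [hα, ValuationSubring.mem_nonunits_iff, hkk]
      exact lt_irrefl _)
  have hcast : ((q ^ 2 * N' : ℕ) : ℤ) = (q : ℤ) ^ 2 * (N' : ℤ) := by push_cast; ring
  rw [hcast] at m2 m3
  refine ⟨a, b, c, d, m1, dvd_trans (Dvd.intro_left _ rfl) m2, dvd_trans (Dvd.intro_left _ rfl) m3,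
    ?_⟩
  rw [ValuationSubring.mem_nonunits_iff, not_lt, hsum] at m4
  have e2 : (∑ i, ∑ t, kk i * cc t / s * PsQ q R e (i, ⟨e, heE⟩, t) ∞ (mob a b c d ∞)) /
      (u * R.om R.i0) = (∑ t : Fin q, cc t *
        (PhiK R e kk (mob q (t : ℕ) 0 q ∞) (mob q (t : ℕ) 0 q (mob a b c d ∞)) /
          (u * R.om R.i0))) / s := by
    rw [Finset.sum_comm, Finset.sum_div, Finset.sum_div]
    refine Finset.sum_congr rfl fun t _ => ?_
    unfold PhiK PsQ
    dsimp only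
    rw [Finset.sum_div, Finset.sum_div, Finset.mul_sum, Finset.sum_div]
    refine Finset.sum_congr rfl fun i _ => ?_
    ring
  rw [e2, map_div₀] at m4
  have hs3 : (0 : V.ValueGroup) < V.valuation s := zero_lt_iff.2 ((Valuation.ne_zero_iff _).2 hs)
  have := (le_div_iff₀ hs3).1 m4
  rw [one_mul] at this
  exact this

theorem zq_prim {q : ℕ} (hq : q ≠ 0) : IsPrimitiveRoot (zq q) q :=
  Complex.isPrimitiveRoot_exp q hq

theorem v16 (V : ValuationSubring ℂ) : V.valuation (1 - zq 16) ^ 8 = V.valuation (2 : ℂ) := by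
  have h1 : V.valuation (zq 16 - 1) ^ 8 = V.valuation (2 : ℂ) := by
    have := MUXH.Hz.val_p 2 Nat.prime_two V 3 (zq 16) (by
      have : (2 : ℕ) ^ (3 + 1) = 16 := by norm_num
      rw [this]
      exact zq_prim (by norm_num))
    norm_num at this
    exact this
  rw [← h1, ← neg_sub, Valuation.map_neg]

theorem v4 (V : ValuationSubring ℂ) : V.valuation (1 - zq 16 ^ 4) ^ 2 = V.valuation (2 : ℂ) := by
  have h1 : V.valuation (zq 16 ^ 4 - 1) ^ 2 = V.valuation (2 : ℂ) := by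
    have := MUXH.Hz.val_p 2 Nat.prime_two V 1 (zq 16 ^ 4) (by
      have : (2 : ℕ) ^ (1 + 1) = 4 := by norm_num
      rw [this]
      exact (zq_prim (q := 16) (by norm_num)).pow (by norm_num) (by norm_num))
    norm_num at this
    exact this
  rw [← h1, ← neg_sub, Valuation.map_neg]

/-- (GPT) Theorem G for the translates. -/
theorem gPT_T (k1 : Sg_RET) (k2 : Sg_NFE) (k3 : Sg_DSC) (k4 : Sg_ZL) (k5 : Sg_FK) (k6 : Sg_FGG)
    (hWQ : St_WQ) (hGP : Sg_GP) (hDV : Sg_DV) (hS : MUXU.Su_SCX) (h2 : MUXT.Xs_FTI)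
    (h3 : MUXF.Sx_CHI) (h4 : MUXY.Sy_CON) (h5 : MUXY.Sy_ALP)
    (h7 : MUXY.Sy_FEC) (h8 : MUXY.Sy_COP) (hA : MUXF.Sx_ALG) (hI : MUXF.Sx_IDL)
    (hN : MUXF.Sx_NIM) (hQB : MUXF.Sx_QB) (hBD : MUXF.Sx_BDD) (hTS : MUXF.Sx_TSM) : S2_GPT := by
  classical
  intro A B V f hST hT ι _ R u el a1 a3 hg e he r hr her kk hkk N' hN' hNd
  have hc : CQ A B := hST.case.toCQ
  obtain ⟨u1, u2⟩ := unit_T hI hN hST.case
  have hv2 : V.valuation (2 : ℂ) < 1 := by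
    have := vp (p := 2) hST.hV
    exact_mod_cast this
  have hLoc := loc_p Nat.prime_two hc hST.hV
  obtain ⟨L', S₀, hB, hL⟩ := legT hS hWQ hGP hDV hc hT R hv2 hg
  have hn : 2 ≤ 2 * f := by
    have := Nat.pos_of_ne_zero hST.f0
    omega
  have hua := (legT_alg hc hT (R.nl R.i0) hg).1
  have key := fun (cc : Fin 16 → ℂ) (hs : ∑ t, cc t * zq 16 ^ (t : ℕ) ≠ 0) =>
    gptQ k1 k2 k3 k4 k5 k6 h2 h3 h4 h5 h7 h8 hA hI hQB hBD hTS hc u1 u2 hLoc hT hn R hg.u0 hua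
      hB hL he hr her hkk hN' hNd (q := 16) (by norm_num) cc hs
  have hz16 : (1 : ℂ) - zq 16 ≠ 0 := by
    intro h0
    exact (zq_prim (q := 16) (by norm_num)).ne_one (by norm_num) (by linear_combination -h0)
  have hz4 : (1 : ℂ) - zq 16 ^ 4 ≠ 0 := by
    intro h0
    have h1 : zq 16 ^ 4 = 1 := by linear_combination -h0
    have h2 := (zq_prim (q := 16) (by norm_num)).pow_eq_one_iff_dvd 4
    have h3 := h2.1 h1
    norm_num at h3
  constructor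
  · obtain ⟨cc, hcc⟩ : ∃ cc : Fin 16 → ℂ, cc = fun t => (if t = 0 then 1 else 0) -
      (if t = 1 then 1 else 0) := ⟨_, rfl⟩
    have hF : ∀ F : Fin 16 → ℂ, ∑ t, cc t * F t = F 0 - F 1 := by
      intro F
      rw [hcc]
      simp only [sub_mul, ite_mul, one_mul, zero_mul, Finset.sum_sub_distrib, Finset.sum_ite_eq',
        Finset.mem_univ, if_true]
    have hs : ∑ t, cc t * zq 16 ^ (t : ℕ) = 1 - zq 16 := by
      rw [hF (fun t => zq 16 ^ (t : ℕ))]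
      norm_num
    obtain ⟨a, b, c, d, m1, m2, m3, m4⟩ := key cc (by rw [hs]; exact hz16)
    refine ⟨a, b, c, d, m1, m2, m3, ?_⟩
    rw [hs, hF (fun t => PhiK R e kk (mob (16 : ℕ) (t : ℕ) 0 (16 : ℕ) ∞)
      (mob (16 : ℕ) (t : ℕ) 0 (16 : ℕ) (mob a b c d ∞)) / (u * R.om R.i0))] at m4
    rw [← v16 V]
    refine pow_le_pow_left₀ zero_le ?_ 8
    unfold PTq
    dsimp only
    have e0 : (((0 : Fin 16) : ℕ) : ℤ) = 0 := rfl
    have e1 : (((1 : Fin 16) : ℕ) : ℤ) = 1 := rfl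
    rw [e0, e1] at m4
    rw [TrQ.mob_zero _ (by norm_num), TrQ.mob_zero _ (by norm_num)] at m4
    exact m4
  · obtain ⟨cc, hcc⟩ : ∃ cc : Fin 16 → ℂ, cc = fun t => (if t = 0 then 1 else 0) -
      (if t = 1 then 1 else 0) - (if t = 4 then 1 else 0) + (if t = 5 then 1 else 0) := ⟨_, rfl⟩
    have hF : ∀ F : Fin 16 → ℂ, ∑ t, cc t * F t = F 0 - F 1 - F 4 + F 5 := by
      intro F
      rw [hcc]
      simp only [sub_mul, add_mul, ite_mul, one_mul, zero_mul, Finset.sum_sub_distrib,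
        Finset.sum_add_distrib, Finset.sum_ite_eq', Finset.mem_univ, if_true]
    have hs : ∑ t, cc t * zq 16 ^ (t : ℕ) = (1 - zq 16) * (1 - zq 16 ^ 4) := by
      rw [hF (fun t => zq 16 ^ (t : ℕ))]
      norm_num
      ring
    obtain ⟨a, b, c, d, m1, m2, m3, m4⟩ := key cc (by rw [hs]; exact mul_ne_zero hz16 hz4)
    refine ⟨a, b, c, d, m1, m2, m3, ?_⟩
    rw [hs, hF (fun t => PhiK R e kk (mob (16 : ℕ) (t : ℕ) 0 (16 : ℕ) ∞)
      (mob (16 : ℕ) (t : ℕ) 0 (16 : ℕ) (mob a b c d ∞)) / (u * R.om R.i0))] at m4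
    have hv : V.valuation (2 : ℂ) ^ 5 = V.valuation ((1 - zq 16) * (1 - zq 16 ^ 4)) ^ 8 := by
      rw [map_mul, mul_pow, v16, show (8 : ℕ) = 2 * 4 by norm_num, pow_mul, v4, ← pow_succ']
    rw [hv]
    refine pow_le_pow_left₀ zero_le ?_ 8
    unfold PTq
    dsimp only
    have e0 : (((0 : Fin 16) : ℕ) : ℤ) = 0 := rfl
    have e1 : (((1 : Fin 16) : ℕ) : ℤ) = 1 := rfl
    have e4 : (((4 : Fin 16) : ℕ) : ℤ) = 4 := rfl
    have e5 : (((5 : Fin 16) : ℕ) : ℤ) = 5 := rfl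
    rw [e0, e1, e4, e5] at m4
    rw [TrQ.mob_zero _ (by norm_num), TrQ.mob_zero _ (by norm_num)] at m4
    have t4 : ∀ x : OnePoint ℚ, mob 4 1 0 4 x = mob ((16 : ℕ) : ℤ) 4 0 ((16 : ℕ) : ℤ) x := by
      intro x
      have := TrQ.mob_red 4 1 4 (by norm_num) (by norm_num) x
      norm_num at this ⊢
      exact this.symm
    have t5 : ∀ x : OnePoint ℚ, mob 4 1 0 4 (mob 16 1 0 16 x) =
        mob ((16 : ℕ) : ℤ) 5 0 ((16 : ℕ) : ℤ) x := by
      intro x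
      have h1 := TrQ.mob_mob 4 1 16 1 (by norm_num) (by norm_num) x
      have h2 := TrQ.mob_red 16 5 4 (by norm_num) (by norm_num) x
      norm_num at h1 h2 ⊢
      rw [h1, h2]
    rw [t5, t5, t4, t4]
    refine m4.trans (le_of_eq ?_)
    congr 1
    push_cast
    ring

end

end Pool.Agent.N2
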