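import Pool.Agent.N2.GS_Gde
import Pool.Agent.N2.G_GptT
import Pool.Agent.N2.DefsR2

/-!
# N2, block GS (helper6): Theorem G+ for combinations of translates of `PhiK R e kk / (u om)`, and `SQ_GPT`
-/

set_option autoImplicit false

namespace Pool.Agent.N2

open _root_.MU3 Pool.Agent.MU3A Pool.Agent.MU3B Pool.Agent.MU3Q Pool.Agent.MUX Pool.Agent.MuSym
  Pool.Agent.MUXN Pool.Agent.NS Pool.Agent.NSG OnePoint UpperHalfPlane

noncomputable section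

variable {A B : ℤ}

/-- Theorem G+ for the combination `Σ_t cc t P(x + t/q, y + t/q)` of translates of `P = PhiK R e kk / (u om)` -/
theorem gptE (k1 : Sg_RET) (k2 : Sg_NFE) (k3 : Sg_DSC) (k4 : Sg_ZL) (k5 : Sg_FK) (k6 : Sg_FGG)
    (h2 : MUXT.Xs_FTI)
    (h3 : MUXF.Sx_CHI) (h4 : MUXY.Sy_CON) (h5 : MUXY.Sy_ALP)
    (h7 : MUXY.Sy_FEC) (h8 : MUXY.Sy_COP) (hA : MUXF.Sx_ALG) (hI : MUXF.Sx_IDL)
    (hQB : MUXF.Sx_QB) (hBD : MUXF.Sx_BDD) (hTS : MUXF.Sx_TSM) {V : ValuationSubring ℂ}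
    (hc : CQ A B) (u1 : ∀ x : OO A B, nm x = 1 → x = 1 ∨ x = -1)
    (u2 : ∀ (b : Ideal (OO A B)) (_ : b ≠ ⊥) (x : OO A B), x ∈ b → nm x = MUX.nI b → b = MUX.sp x)
    (hLoc : LocN A B V) (hT : TorX A B) {n : ℕ} (hn : 2 ≤ n) (hn2 : 2 ∣ n) {ι : Type} [Fintype ι]
    (R : Reps A B n ι) {u : ℂ} (hu : u ≠ 0) (hua : IsAlgebraic ℚ u) {L' : PeriodPair}
    {S₀ : Finset ℂ} (hB : BinE V L' S₀) (hL : LatO A B L' (u * R.om R.i0)) {e : OO A B → ℂ}
    (he : IsEI (idl (A := A) (B := B) n) e) {r : ℕ} (hr : r ≠ 0)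
    (her : ∀ x, e x ≠ 0 → e x ^ r = 1) {kk : ι → ℂ} (hkk : V.valuation (kk R.i0) = 1)
    {N' : ℕ} (hN' : N' ≠ 0) (hNd : absD A B * ((n : ℕ) : ℤ) ^ 2 ∣ (N' : ℤ)) {q : ℕ} (hq : 0 < q)
    (cc : Fin q → ℂ) (hs : V.valuation (2 : ℂ) < V.valuation (∑ t, cc t * zq q ^ (t : ℕ)) ^ 3) :
    ∃ a b c d : ℤ, a * d - b * c = 1 ∧ (N' : ℤ) ∣ c ∧ (N' : ℤ) ∣ d - 1 ∧
      1 < V.valuation (∑ t : Fin q, cc t *
        (PhiK R e kk (mob q (t : ℕ) 0 q ∞) (mob q (t : ℕ) 0 q (mob a b c d ∞)) /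
          (u * R.om R.i0))) := by
  classical
  have hD := gdatE hq h2 h3 h4 h5 h7 h8 hA hI hQB hBD hTS hc u1 u2 hT hn hn2 R e he r hr her u hu
    hua N' hN' hNd
  have hfE : Finite (EC e) := (h7 A B e r hr her).1
  have hFt : Fintype (EC e) := Fintype.ofFinite _
  have heE : e ∈ EC e := ⟨RingEquiv.refl ℂ, rfl⟩
  obtain ⟨s, hs'⟩ : ∃ s, s = ∑ t, cc t * zq q ^ (t : ℕ) := ⟨_, rfl⟩
  rw [← hs'] at hs
  set w : ι × EC e × Fin q → ℂ := fun j => if j.2.1 = ⟨e, heE⟩ then kk j.1 * cc j.2.2 else 0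
    with hw
  have hsum : ∀ F : ι × EC e × Fin q → ℂ, ∑ j, w j * F j =
      ∑ i, ∑ t, kk i * cc t * F (i, ⟨e, heE⟩, t) := by
    intro F
    rw [Fintype.sum_prod_type]
    refine Finset.sum_congr rfl fun i _ => ?_
    rw [Fintype.sum_prod_type, Finset.sum_eq_single (⟨e, heE⟩ : EC e)]
    · refine Finset.sum_congr rfl fun t _ => ?_
      rw [hw]
      beta_reduce
      rw [if_pos rfl]
    · intro e' _ he'
      refine Finset.sum_eq_zero fun t _ => ?_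
      rw [hw]
      beta_reduce
      rw [if_neg he', zero_mul]
    · intro h
      exact absurd (Finset.mem_univ _) h
  have hα : ∑ j, w j * a1Q q R e j = kk R.i0 * s := by
    rw [hsum, Finset.sum_eq_single R.i0]
    · have e1 : ∀ t : Fin q, kk R.i0 * cc t * a1Q q R e (R.i0, ⟨e, heE⟩, t) =
          kk R.i0 * (cc t * zq q ^ (t : ℕ)) := by
        intro t
        unfold a1Q
        rw [if_pos rfl]
        ring
      rw [Finset.sum_congr rfl fun t _ => e1 t, ← Finset.mul_sum, ← hs']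
    · intro i _ hi
      refine Finset.sum_eq_zero fun t _ => ?_
      unfold a1Q
      rw [if_neg hi, mul_zero]
    · intro h
      exact absurd (Finset.mem_univ _) h
  obtain ⟨a, b, c, d, m1, m2, m3, m4⟩ := gen_GTH_E k1 k2 k3 k4 k5 k6 hc hD hLoc hB hL w (by
      unfold TV
      rw [hα, map_mul, hkk, one_mul]
      exact not_le.2 hs)
  have hcast : ((q ^ 2 * N' : ℕ) : ℤ) = (q : ℤ) ^ 2 * (N' : ℤ) := by push_cast; ring
  rw [hcast] at m2 m3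
  refine ⟨a, b, c, d, m1, dvd_trans (Dvd.intro_left _ rfl) m2, dvd_trans (Dvd.intro_left _ rfl) m3,
    ?_⟩
  rw [← V.valuation_le_one_iff, not_le, hsum] at m4
  have e2 : (∑ i, ∑ t, kk i * cc t * PsQ q R e (i, ⟨e, heE⟩, t) ∞ (mob a b c d ∞)) /
      (u * R.om R.i0) = ∑ t : Fin q, cc t *
        (PhiK R e kk (mob q (t : ℕ) 0 q ∞) (mob q (t : ℕ) 0 q (mob a b c d ∞)) /
          (u * R.om R.i0)) := by
    rw [Finset.sum_comm, Finset.sum_div]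
    refine Finset.sum_congr rfl fun t _ => ?_
    unfold PhiK PsQ
    dsimp only
    rw [Finset.sum_div, Finset.sum_div, Finset.mul_sum]
    refine Finset.sum_congr rfl fun i _ => ?_
    ring
  rwa [e2] at m4

/-- algebraicity of `u`, `e`, `a1`, `a3` -/
theorem legQ_alg (hc : CQ A B) (hT : TorX A B) {b : Ideal (OO A B)} {L : PeriodPair} {om : ℂ}
    (hL : IsNL b L om) {V : ValuationSubring ℂ} {u e a1 a3 : ℂ} (h : GoodQ V L u e a1 a3) :
    IsAlgebraic ℚ u ∧ IsAlgebraic ℚ e ∧ IsAlgebraic ℚ a1 ∧ IsAlgebraic ℚ a3 := by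
  obtain ⟨k2, k3⟩ := g_alg hc hT hL
  have hq : ∀ q : ℚ, IsAlgebraic ℚ (q : ℂ) := fun q => isAlgebraic_algebraMap (A := ℂ) q
  obtain ⟨w1, w2, t1, t2, n1, n2, -, -, he, hu⟩ := h.tor
  have p1 : IsAlgebraic ℚ (L.weierstrassP w1) :=
    tor_alg hc hT hL (n := 3) (by norm_num) (by exact_mod_cast t1) n1
  have p2 : IsAlgebraic ℚ (L.weierstrassP w2) :=
    tor_alg hc hT hL (n := 3) (by norm_num) (by exact_mod_cast t2) n2
  have hu2 : IsAlgebraic ℚ (u ^ 2) := by rw [hu]; exact p2.sub p1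
  have hua : IsAlgebraic ℚ u := IsAlgebraic.of_pow (by norm_num) hu2
  have dsq : ∀ w : ℂ, w ∉ L.lattice → IsAlgebraic ℚ (L.weierstrassP w) →
      IsAlgebraic ℚ ((L.derivWeierstrassP w / u ^ 3) ^ 2) := by
    intro w hw ha
    have e1 : (L.derivWeierstrassP w / u ^ 3) ^ 2 = (((4 : ℚ) : ℂ) * L.weierstrassP w ^ 3 -
        L.g₂ * L.weierstrassP w - L.g₃) * ((u ^ 2) ^ 3)⁻¹ := by
      rw [div_pow, L.derivWeierstrassP_sq w hw]
      push_cast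
      rw [div_eq_mul_inv]
      congr 2
      ring
    rw [e1]
    exact ((((hq 4).mul (ha.pow 3)).sub (k2.mul ha)).sub k3).mul (hu2.pow 3).inv
  have ha3 : IsAlgebraic ℚ a3 := by
    have h1 := h.eq w1 n1
    rw [he, sub_self, zero_div, mul_zero, zero_add] at h1
    have h2 : a3 ^ 2 = (L.derivWeierstrassP w1 / u ^ 3) ^ 2 := by
      rw [h1]
      ring
    refine IsAlgebraic.of_pow (n := 2) (by norm_num) ?_
    rw [h2]
    exact dsq w1 n1 p1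
  refine ⟨hua, by rw [he]; exact p1, ?_, ha3⟩
  have h1 := h.eq w2 n2
  have e1 : (L.weierstrassP w2 - e) / u ^ 2 = 1 := by
    rw [he, ← hu]
    exact div_self (pow_ne_zero _ h.u0)
  rw [e1] at h1
  have h2 : (a1 + a3) ^ 2 = (L.derivWeierstrassP w2 / u ^ 3) ^ 2 - ((4 : ℚ) : ℂ) := by
    rw [h1]
    push_cast
    ring
  have h3 : IsAlgebraic ℚ (a1 + a3) := by
    refine IsAlgebraic.of_pow (n := 2) (by norm_num) ?_
    rw [h2]
    exact (dsq w2 n2 p2).sub (hq 4)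
  have h4 : a1 = (a1 + a3) - a3 := by ring
  rw [h4]
  exact h3.sub ha3

/-- the lattice `u L`, its integrality property at `V` -/
theorem legQ (hS : MUXU.Su_SCX) (hWQ : St_WQ) (hDV : Sg_DV) (hc : CQ A B)
    (hT : TorX A B) {n : ℕ} {ι : Type}
    (R : Reps A B n ι) {V : ValuationSubring ℂ} (h2V : V.valuation (2 : ℂ) < 1) {u e a1 a3 : ℂ}
    (h : GoodQ V (R.L R.i0) u e a1 a3) :
    ∃ (L' : PeriodPair) (S : Finset ℂ), BinE V L' S ∧ LatO A B L' (u * R.om R.i0) := by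
  obtain ⟨L', hL'⟩ := hS (R.L R.i0) u h.u0
  obtain ⟨s1, s2, -, -⟩ := ta_SCP (R.L R.i0) L' u h.u0 hL'
  have ho : R.om R.i0 ≠ 0 := (R.nl R.i0).om_ne
  obtain ⟨-, -, k1, k3⟩ := legQ_alg hc hT (R.nl R.i0) h
  have hv1 : V.valuation a1 ≤ 1 := by
    by_contra hcon
    push Not at hcon
    have h1 := h.v1
    have h3 : (1 : V.ValueGroup) < V.valuation a1 ^ 2 := one_lt_pow₀ hcon two_ne_zero
    exact absurd (h3.trans_le h1) (not_lt.2 h2V.le)
  obtain ⟨S, hB⟩ := bin_E hWQ hDV V h2V L' (e / u ^ 2) a1 a3 (by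
    intro z hz
    have e1 : z = u * (u⁻¹ * z) := by rw [mul_inv_cancel_left₀ h.u0]
    have hz' : u⁻¹ * z ∉ (R.L R.i0).lattice := by
      intro h4
      apply hz
      rw [e1]
      exact (hL' _).1 h4
    have h5 := h.eq _ hz'
    rw [e1, s1, s2, h5]
    have hu := h.u0
    ring) k1 k3 hv1 h.v3
  refine ⟨L', S, hB, mul_ne_zero h.u0 ho, ?_⟩
  intro z
  have e1 : z = u * (u⁻¹ * z) := by rw [mul_inv_cancel_left₀ h.u0]
  rw [e1, ← hL' (u⁻¹ * z), (R.nl R.i0).mem]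
  constructor
  · rintro ⟨x, -, hx⟩
    exact ⟨x, by rw [hx]; ring⟩
  · rintro ⟨x, hx⟩
    refine ⟨x, by rw [R.b0]; trivial, ?_⟩
    have hu := h.u0
    apply mul_left_cancel₀ hu
    rw [hx]
    ring

theorem CaseR2.ge {A B : ℤ} (hc : CaseR2 A B) : 5 ≤ -(B ^ 2 + 4 * A) := by
  have h0 := hc.b0
  have h1 := hc.mod
  have h2 := hc.exc
  have h3 := hc.neg
  subst h0
  simp only [ne_eq, OfNat.ofNat_ne_zero, not_false_eq_true, zero_pow, zero_add] at h3 ⊢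
  omega

theorem v32 (V : ValuationSubring ℂ) : V.valuation (1 - zq 32) ^ 16 = V.valuation (2 : ℂ) := by
  have h1 : V.valuation (zq 32 - 1) ^ 16 = V.valuation (2 : ℂ) := by
    have := MUXH.Hz.val_p 2 Nat.prime_two V 4 (zq 32) (by
      have : (2 : ℕ) ^ (4 + 1) = 32 := by norm_num
      rw [this]
      exact zq_prim (by norm_num))
    norm_num at this
    exact this
  rw [← h1, ← neg_sub, Valuation.map_neg]

theorem v8 (V : ValuationSubring ℂ) : V.valuation (1 - zq 32 ^ 4) ^ 4 = V.valuation (2 : ℂ) := by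
  have h1 : V.valuation (zq 32 ^ 4 - 1) ^ 4 = V.valuation (2 : ℂ) := by
    have := MUXH.Hz.val_p 2 Nat.prime_two V 2 (zq 32 ^ 4) (by
      have : (2 : ℕ) ^ (2 + 1) = 8 := by norm_num
      rw [this]
      exact (zq_prim (q := 32) (by norm_num)).pow (by norm_num) (by norm_num))
    norm_num at this
    exact this
  rw [← h1, ← neg_sub, Valuation.map_neg]

/-- (GPT) Theorem G+ for the translates. -/
theorem gPT_Q (k1 : Sg_RET) (k2 : Sg_NFE) (k3 : Sg_DSC) (k4 : Sg_ZL) (k5 : Sg_FK) (k6 : Sg_FGG)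
    (k7 : Sg_LOC) (hWQ : St_WQ) (hDV : Sg_DV) (hS : MUXU.Su_SCX) (h2 : MUXT.Xs_FTI)
    (h3 : MUXF.Sx_CHI) (h4 : MUXY.Sy_CON) (h5 : MUXY.Sy_ALP)
    (h7 : MUXY.Sy_FEC) (h8 : MUXY.Sy_COP) (hA : MUXF.Sx_ALG) (hI : MUXF.Sx_IDL)
    (hN : MUXF.Sx_NIM) (hQB : MUXF.Sx_QB) (hBD : MUXF.Sx_BDD) (hTS : MUXF.Sx_TSM) : SQ_GPT := by
  classical
  intro A B P V f hSQ hT ι _ R u el a1 a3 hg e he r hr her kk hkk N' hN' hNd
  have hc : CQ A B := hSQ.case.toCQ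
  obtain ⟨u1, u2⟩ := unit_5 hI hN hc hSQ.case.ge
  have hv2 : V.valuation (2 : ℂ) < 1 := by
    have h1 : emb ((2 : ℕ) : OO A B) ∈ V.nonunits := (hSQ.hV _).2 hSQ.hP.mem
    have h2 : emb ((2 : ℕ) : OO A B) = 2 := by
      unfold emb
      rw [QuadraticAlgebra.re_natCast, QuadraticAlgebra.im_natCast]
      push_cast
      ring
    rw [h2, ValuationSubring.mem_nonunits_iff] at h1
    exact h1
  have hLoc : LocN A B V := by
    intro S hS
    obtain ⟨t, ht, hy⟩ := k7 A B hc 2 Nat.prime_two P hSQ.hP V hSQ.hV S hS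
    refine ⟨t, ?_, hy⟩
    have hle : V.valuation (emb t) ≤ 1 := (V.valuation_le_one_iff _).2 (N_GJ.emb_mem_V hc V t)
    refine le_antisymm hle (not_lt.1 fun hlt => ht ((hSQ.hV t).1 ?_))
    exact (ValuationSubring.mem_nonunits_iff _).2 hlt
  obtain ⟨L', S₀, hB, hL⟩ := legQ hS hWQ hDV hc hT R hv2 hg
  have hn : 2 ≤ 2 * f := by
    have := Nat.pos_of_ne_zero hSQ.f0
    omega
  have hua := (legQ_alg hc hT (R.nl R.i0) hg).1
  have hv20 : V.valuation (2 : ℂ) ≠ 0 := (Valuation.ne_zero_iff _).2 two_ne_zero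
  obtain ⟨cc, hcc⟩ : ∃ cc : Fin 32 → ℂ, cc = fun t => (if t = 0 then 1 else 0) -
    (if t = 1 then 1 else 0) - (if t = 4 then 1 else 0) + (if t = 5 then 1 else 0) := ⟨_, rfl⟩
  have hF : ∀ F : Fin 32 → ℂ, ∑ t, cc t * F t = F 0 - F 1 - F 4 + F 5 := by
    intro F
    rw [hcc]
    simp only [sub_mul, add_mul, ite_mul, one_mul, zero_mul, Finset.sum_sub_distrib,
      Finset.sum_add_distrib, Finset.sum_ite_eq', Finset.mem_univ, if_true]
  have hs : ∑ t, cc t * zq 32 ^ (t : ℕ) = (1 - zq 32) * (1 - zq 32 ^ 4) := by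
    rw [hF (fun t => zq 32 ^ (t : ℕ))]
    norm_num
    ring
  have hvs : V.valuation (2 : ℂ) < V.valuation (∑ t, cc t * zq 32 ^ (t : ℕ)) ^ 3 := by
    rw [hs]
    by_contra hcon
    push Not at hcon
    have h9 := pow_le_pow_left' hcon 16
    have h10 : (V.valuation ((1 - zq 32) * (1 - zq 32 ^ 4)) ^ 3) ^ 16 =
        V.valuation (2 : ℂ) ^ 15 := by
      calc (V.valuation ((1 - zq 32) * (1 - zq 32 ^ 4)) ^ 3) ^ 16
          = (V.valuation (1 - zq 32) ^ 16) ^ 3 * (V.valuation (1 - zq 32 ^ 4) ^ 4) ^ 12 := by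
            rw [map_mul, ← pow_mul, ← pow_mul, ← pow_mul, mul_pow]
        _ = _ := by rw [v32, v8, ← pow_add]
    rw [h10, pow_succ (V.valuation (2 : ℂ)) 15] at h9
    have h11 : (0 : V.ValueGroup) < V.valuation (2 : ℂ) ^ 15 :=
      zero_lt_iff.2 (pow_ne_zero _ hv20)
    have h12 : V.valuation (2 : ℂ) ^ 15 * V.valuation (2 : ℂ) < V.valuation (2 : ℂ) ^ 15 * 1 :=
      mul_lt_mul_of_pos_left hv2 h11
    rw [mul_one] at h12
    exact absurd h9 (not_le.2 h12)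
  obtain ⟨a, b, c, d, m1, m2, m3, m4⟩ :=
    gptE k1 k2 k3 k4 k5 k6 h2 h3 h4 h5 h7 h8 hA hI hQB hBD hTS hc u1 u2 hLoc hT hn
      (Dvd.intro _ rfl) R hg.u0 hua hB hL he hr her hkk hN' hNd (q := 32) (by norm_num) cc hvs
  refine ⟨a, b, c, d, m1, m2, m3, ?_⟩
  rw [hF (fun t => PhiK R e kk (mob (32 : ℕ) (t : ℕ) 0 (32 : ℕ) ∞)
    (mob (32 : ℕ) (t : ℕ) 0 (32 : ℕ) (mob a b c d ∞)) / (u * R.om R.i0))] at m4
  unfold PTq
  dsimp only
  have e0 : (((0 : Fin 32) : ℕ) : ℤ) = 0 := rfl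
  have e1 : (((1 : Fin 32) : ℕ) : ℤ) = 1 := rfl
  have e4 : (((4 : Fin 32) : ℕ) : ℤ) = 4 := rfl
  have e5 : (((5 : Fin 32) : ℕ) : ℤ) = 5 := rfl
  rw [e0, e1, e4, e5] at m4
  rw [TrQ.mob_zero _ (by norm_num), TrQ.mob_zero _ (by norm_num)] at m4
  have t4 : ∀ x : OnePoint ℚ, mob 8 1 0 8 x = mob ((32 : ℕ) : ℤ) 4 0 ((32 : ℕ) : ℤ) x := by
    intro x
    have := TrQ.mob_red 8 1 4 (by norm_num) (by norm_num) x
    norm_num at this ⊢
    exact this.symm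
  have t5 : ∀ x : OnePoint ℚ, mob 8 1 0 8 (mob 32 1 0 32 x) =
      mob ((32 : ℕ) : ℤ) 5 0 ((32 : ℕ) : ℤ) x := by
    intro x
    have h1 := TrQ.mob_mob 8 1 32 1 (by norm_num) (by norm_num) x
    have h2 := TrQ.mob_red 32 5 8 (by norm_num) (by norm_num) x
    norm_num at h1 h2 ⊢
    rw [h1, h2]
  rw [t5, t5, t4, t4]
  refine m4.trans_le (le_of_eq ?_)
  congr 1
  push_cast
  ring

end

end Pool.Agent.N2
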