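import Pool.Agent.N2.H_HT
import Pool.Agent.N2.H_BDT
import Pool.Agent.N2.H_HKT
import Pool.Agent.N2.H_SHT
import Pool.Agent.N2.H_H1T
import Pool.Agent.N2.H_TYT
import Pool.Agent.N2.H_LOCT
import Pool.Agent.N2.H_KYT
import Pool.Agent.N2.H_PAIT
import Pool.Agent.N2.H_DVT

/-!
# MUX-2N, block HT: the result without hypotheses (helper66)
-/

set_option autoImplicit false

namespace Pool.Agent.N2H

theorem ht_HT : St_HT :=
  tt_HT tt_BDT tt_HKT tt_SHT tt_H1T tt_TYT tt_LOCT (tt_KYT tt_PAIT) tt_DVT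

end Pool.Agent.N2H
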