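import Pool.Agent.N2.DefsT
import Pool.Agent.NS.StEN
import Pool.Agent.MUX.VG

/-!
# MUX-2N, block E2N: the improved criterion for squares (`2` inert in `k`) (helper34)

`V` a valuation ring of `ℂ` above `2`, `v = V.valuation` (multiplicative: `v x ≤ v 2` means `x ∈ 2 V`; `v x ≤ 1` iff `x ∈ V`). `L` a lattice, `GoodT V L u e a1 a3`:
`x = xu L u e = (℘ - e)/u²`, `y = yt L u e a1 a3`, `et L u = ℘'/u³ = 2 y + a1 x + a3`, `y² + a1 x y + a3 y = x³`, `et² = 4 x³ + (a1 x + a3)²`, `v a1 ≤ v 2`, `v a3 = 1`.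
`InK V L x z` (`VX.lean`): `z` is zero or in the kernel of reduction (`E₁`); `tX x y z = -x z/y z`. All lemmas of `Pool/Agent/MUX/VG.lean` (helper77; `gInK_add`, `gInK_congr`, `gmem_of_nat_mul`, `gv_X_sub`, `gv_DX`, `gnear`, ..) hold (`GRT`: `GRG V (WT a1 a3) L x y ξ`).

IDEA. Everything is a function of ONE number `ξ = x(P)`, `P = om/m`, `m = 2^(n+2) f` (`L_0 = om emb O`). A value `Θ_a(pt R m i x; L_i)` is a rational function over `V` of `ξ`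
(THT, GPO), an integral element `w` of the ray class field is a polynomial over `V` in `ξ` (SIG), and the automorphism `c = 1 + 2^n f a b` sends `P` to `P + Y`, `Y = emb b (a om/4)` any point with `4 Y ∈ L`. An identity `A = κ h² B` at the 16 points `ξ_Y = x(P + Y)`
implies a congruence for the logarithmic derivative of `A/B` at `ξ` modulo `∏ (ξ - ξ_Y)` (LAG), and `v(ξ - ξ_Y) = v(t(Y))` (DST). The numbers (additive valuations, `v(2) = 1`): `v(t(Y)) = 1/3` for the 3 points of order 2, `1/12` for the 12 points of order 4, total `2`. `del` is the square root of `D`; the automorphisms `1 + k 2^n f a del`, `k = 0, 1, 2, 3`,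
are trivial on `RF (2 f)` and on the `2^(n+2)`-th roots of unity, so on `D` (`n ≥ 2`); the sum over their three points is `1/12 + 1/3 + 1/12 = 1/2`.

Every statement is a `def Sd_X : Prop`; the module N2E_X proves `theorem td_X (h : ...) : Sd_X` in `Pool/Agent/N2/E_X.lean`, namespace `Pool.Agent.N2E`,
with the statements named under `Uses` as hypotheses (drop those which are not needed; others may be added if they do not depend on this one). Unconditional and usable: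
`Pool.Agent.MU3B.b_X : St_X` (`Pool/Agent/MU3/BAll.lean`), `Pool.Agent.MU3A.ta_SCP`, `Pool.Agent.MUXU.u_X : Su_X` (`Pool/Agent/MUX/UAll.lean`), and from block E of MUX
`Pool.Agent.MUXE.te_RNG`, `te_TRA`, `te_TRB`, `te_FAC te_TRA`, `te_GTH te_TRA`, `te_PT te_TRA` (all imported); `te_GAL` in `E_GAL.lean`; `Pool.Agent.NSE.te_BAS` in `Pool/Agent/NS/E_BAS.lean`. The models `E_X.lean` named in the proofs are the finished files for `3` inert, `Pool/Agent/NS/E_X.lean`.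
-/

set_option autoImplicit false

open Polynomial

namespace Pool.Agent.N2E

open _root_.MU3 Pool.Agent.MU3A Pool.Agent.MU3B Pool.Agent.MUX Pool.Agent.MUXU Pool.Agent.MUXE
open Pool.Agent.RI Pool.Agent.NS Pool.Agent.N2
open Pool.Agent.NSE (IntP)
open Pool.Agent.MUX2 (GRG)
open Pool.Agent.MUXV (InK tX)

noncomputable section

/-! ## Definitions -/

/-- the logarithmic derivative of the rational function `P/Q` at `x` -/
def dlg (P Q : ℂ[X]) (x : ℂ) : ℂ :=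
  ((derivative P).eval x * Q.eval x - P.eval x * (derivative Q).eval x) / (P.eval x * Q.eval x)

/-- the square root of the discriminant: `2 w - B` -/
def del {A B : ℤ} : OO A B := ⟨-B, 2⟩

/-- `1 + N b` -/
def cc {A B : ℤ} (N : ℕ) (b : OO A B) : OO A B := 1 + (N : OO A B) * b

/-- an isogeny of odd degree between lattices with good models -/
structure IsoT (V : ValuationSubring ℂ) (L M : PeriodPair) (u e a1 a3 u' e' a1' a3' μ : ℂ) :
    Prop where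
  gL : GoodT V L u e a1 a3
  gM : GoodT V M u' e' a1' a3'
  v2 : V.valuation (2 : ℂ) < 1
  mu0 : μ ≠ 0
  isg : Isg L M μ
  odd : ∃ N : ℕ, ¬ 2 ∣ N ∧ ∀ z, μ * z ∈ M.lattice → (N : ℂ) * z ∈ L.lattice

/-- the automorphism `s` of `ℂ / k` acts as the principal ideal `(c)` on level `m` -/
structure AutC {A B : ℤ} (m : Ideal (OO A B)) (c : OO A B) (s : ℂ ≃+* ℂ) : Prop where
  fix : FixK A B s
  kap : ∀ L, NL A B L → s (kap L) = kap L
  xn : ∀ L, NL A B L → ∀ z, Tor m L z → z ∉ L.lattice →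
    emb c * z ∉ L.lattice ∧ s (xn L z) = xn L (emb c * z)
  triv : ∀ m' : Ideal (OO A B), m ≤ m' → c - 1 ∈ m' → ∀ y ∈ RF m', s y = y
  zeta : ∀ M : ℕ, M ≠ 0 → m ≤ idl M → ∀ z : ℂ, z ^ M = 1 → s z = z ^ nI (sp c)

/-- everything on `O`, `k`, `V` and the reduction which is used -/
structure CtxT (A B : ℤ) (V : ValuationSubring ℂ) : Prop where
  ring : RingE A B
  cq : CQ A B
  two : (8 : ℤ) ∣ B ^ 2 + 4 * A - 5
  v2 : V.valuation (2 : ℂ) < 1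
  int : ∀ x : OO A B, V.valuation (emb x) ≤ 1
  unit : ∀ x : OO A B, x ∉ idl (A := A) (B := B) 2 → V.valuation (emb x) = 1
  nat : ∀ n : ℕ, ¬ 2 ∣ n → V.valuation (n : ℂ) = 1
  max : (idl (A := A) (B := B) 2).IsMaximal
  nrm : ∀ x : OO A B, x ∉ idl (A := A) (B := B) 2 → ¬ (2 : ℤ) ∣ nm x
  kval : ∀ y ∈ kk A B, y ≠ 0 → ∃ k : ℤ, V.valuation y = V.valuation (2 : ℂ) ^ k
  good : ∀ L, NL A B L → ∃ u e a1 a3 : ℂ, GoodT V L u e a1 a3
  iner : ∀ f : ℕ, f ≠ 0 → ¬ 2 ∣ f → ∀ σ : ℂ ≃+* ℂ, FixK A B σ →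
    (∀ y ∈ RF (idl (A := A) (B := B) f), y ∈ V → σ y - y ∈ V.nonunits) →
    ∀ y ∈ RF (idl (A := A) (B := B) f), σ y = y

/-- the hypotheses on the levels: `m = 2^(n+2) f` -/
structure SetE (A B : ℤ) (V : ValuationSubring ℂ) (n f a m : ℕ) : Prop where
  ctx : CtxT A B V
  tor : TorX A B
  n2 : 2 ≤ n
  f3 : 3 ≤ f
  fd : 3 ∣ f
  fo : ¬ 2 ∣ f
  a3 : 3 ≤ a
  ao : ¬ 2 ∣ a
  af : a.Coprime f
  hm : m = 2 ^ (n + 2) * f

/-! ## Polynomials over `V` -/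

/-- (LAG) a polynomial over `V` with many zeros has a small derivative at a zero.

PROOF. `IntP V` polynomials form a ring (coefficients in the subring `V`). (1) `P` is divisible by the monic polynomial `(X - x0) ∏_(x ∈ S) (X - x)` over `V` (different zeros in the domain `V`: `Multiset.prod_X_sub_C_dvd_iff_le_roots`, or divide by one factor after the other with `Polynomial.divByMonic` / synthetic division; the quotient of a
polynomial over `V` by a monic polynomial over `V` is over `V`). `P = (X - x0) Z R`, so `P'(x0) = Z(x0) R(x0)`, `v(R(x0)) ≤ 1`. (2) (1) for `P - C(P(x0))`. (3) (1) for `C(B(x0)) A - C(A(x0)) B`. (4) (1) for `U = A - C κ h² B`: `v(U'(x0)) ≤ ∏_S`; `κ h(x0)² B(x0) = A(x0)` gives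
`U'(x0) B(x0) = (A'B - A B')(x0) - 2 κ h h' B²(x0)`; `v(h'(x0)) ≤ ∏_(S')` by (2); `v(κ), v(h(x0)), v(B(x0)) ≤ 1`. -/
def Sd_LAG : Prop :=
  ∀ (V : ValuationSubring ℂ) (S : Finset ℂ) (x0 : ℂ), x0 ∉ S → V.valuation x0 ≤ 1 →
    (∀ x ∈ S, V.valuation x ≤ 1) →
    (∀ P : ℂ[X], IntP V P → P.eval x0 = 0 → (∀ x ∈ S, P.eval x = 0) →
      V.valuation ((derivative P).eval x0) ≤ ∏ x ∈ S, V.valuation (x0 - x)) ∧
    (∀ P : ℂ[X], IntP V P → (∀ x ∈ S, P.eval x = P.eval x0) →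
      V.valuation ((derivative P).eval x0) ≤ ∏ x ∈ S, V.valuation (x0 - x)) ∧
    (∀ P Q : ℂ[X], IntP V P → IntP V Q →
      (∀ x ∈ S, P.eval x * Q.eval x0 = P.eval x0 * Q.eval x) →
      V.valuation ((derivative P).eval x0 * Q.eval x0 - P.eval x0 * (derivative Q).eval x0) ≤
        ∏ x ∈ S, V.valuation (x0 - x)) ∧
    ∀ (P Q h : ℂ[X]) (κ : ℂ) (S' : Finset ℂ), IntP V P → IntP V Q → IntP V h →
      V.valuation κ ≤ 1 → x0 ∉ S' → (∀ x ∈ S', V.valuation x ≤ 1) →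
      P.eval x0 = κ * h.eval x0 ^ 2 * Q.eval x0 →
      (∀ x ∈ S, P.eval x = κ * h.eval x ^ 2 * Q.eval x) →
      (∀ x ∈ S', h.eval x = h.eval x0) →
      V.valuation ((derivative P).eval x0 * Q.eval x0 - P.eval x0 * (derivative Q).eval x0) ≤
        max (V.valuation (2 : ℂ) * ∏ x ∈ S', V.valuation (x0 - x))
          (∏ x ∈ S, V.valuation (x0 - x))

/-- (PRD) products of rational functions over `V` with integral exponents.

PROOF. `P' = ∏_(g_j ≥ 0) P_j^(g_j) ∏_(g_j < 0) Q_j^(-g_j)`, `Q'` the same with `P_j, Q_j` exchanged (or induction on `s`: one factor `j` and then powers: `g_j = k` or `-k`). On `T` all values are units, so not zero: `P'(x)/Q'(x) = ∏ (P_j(x)/Q_j(x))^(g_j)` and the logarithmic derivative (`dlg`) is additive: `dlg (P1 P2) (Q1 Q2) = dlg P1 Q1 + dlg P2 Q2`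
where the values are not zero (`derivative_mul`, `field_simp`, `ring`), `dlg Q P = -dlg P Q`. -/
def Sd_PRD : Prop :=
  ∀ (V : ValuationSubring ℂ) (J : Type) (s : Finset J) (P Q : J → ℂ[X]) (g : J → ℤ)
    (T : Set ℂ), (∀ j ∈ s, IntP V (P j) ∧ IntP V (Q j) ∧
      ∀ x ∈ T, V.valuation ((P j).eval x) = 1 ∧ V.valuation ((Q j).eval x) = 1) →
    ∃ P' Q' : ℂ[X], IntP V P' ∧ IntP V Q' ∧ ∀ x ∈ T,
      V.valuation (P'.eval x) = 1 ∧ V.valuation (Q'.eval x) = 1 ∧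
      P'.eval x * ∏ j ∈ s, (Q j).eval x ^ g j = Q'.eval x * ∏ j ∈ s, (P j).eval x ^ g j ∧
      dlg P' Q' x = ∑ j ∈ s, (g j : ℂ) * dlg (P j) (Q j) x

/-! ## The good model -/

/-- (COE) the coefficients. Model `E_COE.lean`.

PROOF. `℘'² = 4 ℘³ - g₂ ℘ - g₃` (`derivWeierstrassP_sq`) and `GoodT.eq`, `℘ = u² x + e`, `℘' = u³ et`, and `℘` takes every value: for all `T ∈ ℂ` `u⁶ (4 T³ + (a1 T + a3)²) = 4 (u² T + e)³ - g₂ (u² T + e) - g₃`. Compare coefficients: `12 e u⁴ = a1² u⁶`, `12 e² u² - g₂ u² = 2 a1 a3 u⁶`,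
`4 e³ - g₂ e - g₃ = a3² u⁶`. `v 3 = 1`: `3 = 1 + 2`. Derivative: `x' = ℘'/u² = u et`. -/
def Sd_COE : Prop :=
  ∀ (V : ValuationSubring ℂ) (L : PeriodPair) (u e a1 a3 : ℂ), GoodT V L u e a1 a3 →
    V.valuation (2 : ℂ) < 1 →
    12 * e = a1 ^ 2 * u ^ 2 ∧ 12 * e ^ 2 - L.g₂ = 2 * a1 * a3 * u ^ 4 ∧
    4 * e ^ 3 - L.g₂ * e - L.g₃ = a3 ^ 2 * u ^ 6 ∧ V.valuation (3 : ℂ) = 1 ∧
    (∀ z, 2 * yt L u e a1 a3 z + a1 * xu L u e z + a3 = et L u z) ∧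
    (∀ z ∉ L.lattice, et L u z ^ 2 = 4 * xu L u e z ^ 3 + (a1 * xu L u e z + a3) ^ 2) ∧
    (∀ z ∉ L.lattice, yt L u e a1 a3 z ^ 2 + a1 * xu L u e z * yt L u e a1 a3 z +
      a3 * yt L u e a1 a3 z = xu L u e z ^ 3) ∧
    (∀ z ∉ L.lattice, HasDerivAt (xu L u e) (u * et L u z) z) ∧
    ∀ z, (∀ w ∈ L.lattice, xu L u e (z + w) = xu L u e z ∧ et L u (z + w) = et L u z ∧
        yt L u e a1 a3 (z + w) = yt L u e a1 a3 z) ∧
      xu L u e (-z) = xu L u e z ∧ et L u (-z) = -et L u z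

/-- (GRT) good reduction in the sense of `VG.lean`. Model `E_GRN.lean`, and `S2_GR2` of `Pool/Agent/MUX/StR2.lean` (helper77; `R2_GR2.lean`).

Uses Sd_COE. PROOF. The discriminant of `WT a1 a3` is `a3³ (a1³ - 27 a3)`, a unit (`v 27 = 1`, `v a1 < 1`). `ξ` from `u_XIL` (the homomorphism to `EL L : Y² = X³ - g₂/4 X - g₃/4`, `X = ℘`, `Y = ℘'/2`) and the change of variables `(X, Y) ↦ ((X - e)/u², Y/u³ - (a1 (X - e)/u² + a3)/2)` (a bijection compatible with the group laws, by (COE)). -/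
def Sd_GRT : Prop :=
  ∀ (V : ValuationSubring ℂ) (L : PeriodPair) (u e a1 a3 : ℂ), GoodT V L u e a1 a3 →
    V.valuation (2 : ℂ) < 1 →
    ∃ ξ : ℂ →+ (WT a1 a3).Point, GRG V (WT a1 a3) L (xu L u e) (yt L u e a1 a3) ξ

/-- (TPT) torsion points. Model `E_TPN.lean`.

Uses Sd_COE, Sd_GRT, Su_PFI. PROOF. (1) `v N = 1` for odd `N`; `gmem_of_nat_mul`. (2) Induction on `j`. `j = 0`: `℘'(z) = 0` (`2 z ∈ L`, `b_ZER`), `et = 0`, so `4 x³ + (a1 x + a3)² = 0`, `x = x z`, `X = v x`. If `X ≤ 1` then `v(a1 x + a3) = 1` and `v(4 x³) < 1`, false. So `X > 1`, `z ∈ InK`. If `v(a1 x) ≥ 1`: `X ≥ v(2)⁻¹`, `v(4) X³ > 1`,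
so `v(a1 x + a3)² > 1`, so `v(a1 x + a3) = v(a1 x) ≤ v(2) X`, `v(4) X³ ≤ v(4) X²`, false. So `v(a1 x + a3) = 1`, `v(4) X³ = 1`; `X v(t)² = 1` (`gv_tX_lt`), so `v(t)⁶ = v(2)²`, `v(t)³ = v 2`. Step: let `w = w1` be the point of order 3 with `e = ℘ w1` (`GoodT.tor`): `x w = 0`, `2 w ≡ -w`, `x(2 w) = 0`. (PFI) for `M = L`, `μ = 2`, `R` representatives of the 3 nonzero classes of
`{z : 2 z ∈ L}/L` in the coordinate `x` (`℘ = u² x + e`): (*) `4 x(2 z) ∏_(q ∈ R) (x z - x q) = x z ∏_(q ∈ R) (x z - x(w + q))` (`2 z ∉ L`). `w ∉ InK` (`3 w ∈ L`, (1)), `q ∈ InK`, so `w + q ∉ InK` (`gInK_congr`), `x(w + q) ∈ V`. `T = v(x q)`, `v(4) T³ = 1`, `T > 1`, the same for all `q`. `2^(j+2) z ∈ L`, `2^(j+1) z ∉ L`, `z' = 2 z`, `Y = v(x z')`: `Y^(3·4^j) v(4) = 1`, so `1 < Y ≤ T`.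
If `x z ∈ V`: the left side of (*) has valuation `v(4) Y T³ = Y > 1`, the right side `≤ 1`. So `X = v(x z) > 1` and the right side has valuation `X⁴`. `X > T`: `v(4) Y X³ = X⁴`, `X = v(4) Y < T`. `X = T`: `T⁴ ≤ v(4) Y T³ = Y ≤ T`. So `X < T`, `X⁴ = v(4) Y T³ = Y`. Then `v(t z)⁴ = v(t z')` (squares). -/
def Sd_TPT : Prop :=
  ∀ (V : ValuationSubring ℂ) (L : PeriodPair) (u e a1 a3 : ℂ), GoodT V L u e a1 a3 →
    V.valuation (2 : ℂ) < 1 →
    (∀ (N : ℕ), ¬ 2 ∣ N → V.valuation (N : ℂ) = 1 ∧ ∀ z : ℂ, (N : ℂ) * z ∈ L.lattice →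
      InK V L (xu L u e) z → z ∈ L.lattice) ∧
    ∀ (j : ℕ) (z : ℂ), 2 ^ (j + 1) * z ∈ L.lattice → 2 ^ j * z ∉ L.lattice →
      InK V L (xu L u e) z ∧ z ∉ L.lattice ∧
        V.valuation (tX (xu L u e) (yt L u e a1 a3) z) ^ (3 * 4 ^ j) = V.valuation (2 : ℂ)

/-! ## Isogenies of odd degree -/

/-- (UNT) the multiplier is a unit. Model `E_UNT.lean` (the same proof).

Uses Sd_COE, Sd_GRT, Sd_TPT, Su_BAC, Su_PFI. PROOF. `R` representatives of the nonzero classes of `{q : μ q ∈ M}/L` (BAC). Choose two different primes `l, l'` greater than `3 N`, `w = ω₁/l`, `z = ω₁/l'`. `z, w, z ± w, z ± q, w + q, z ± (w + q)` (`q ∈ R`) are not in `L` and killed by odd numbers, so not in `InK V L` (TPT (1)); `μ z, μ w, μ (z ± w)` are not in `M` and not in `InK V M`.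
(PFI) in the coordinates: `(μ u'/u)² (x'(μ z) - x'(μ w)) ∏ (x z - x q) = (x z - x w) ∏ (x z - x(w + q))`, and all differences are units (`gv_X_sub`). -/
def Sd_UNT : Prop :=
  ∀ (V : ValuationSubring ℂ) (L M : PeriodPair) (u e a1 a3 u' e' a1' a3' μ : ℂ),
    IsoT V L M u e a1 a3 u' e' a1' a3' μ → V.valuation (μ * u' / u) = 1

/-- (RAT) the isogeny as a rational function over `V`. Model `E_RAT.lean`.

Uses Sd_COE, Sd_GRT, Sd_TPT, Sd_UNT, Su_BAC, Su_PFI. PROOF. `ν = μ u'/u`, a unit (UNT). `R` representatives (BAC), `w = ω₁/l`, `l` a prime greater than `3 N`: `w, w + q, q ∉ InK V L`, `μ w ∉ InK V M`; `c = x'(μ w) ∈ V`. `Q = C(ν²) ∏_(q ∈ R) (X - C(x q))`, `P = C c * Q + (X - C(x w)) ∏_(q ∈ R) (X - C(x(w + q)))`: over `V`, `P` monic of degree `|R| + 1`.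
(PFI): `ν² (x'(μ z) - c) ∏ (x z - x q) = (x z - x w) ∏ (x z - x(w + q))`: the first identity; differentiate it (COE: `x` has the derivative `u et`, `z ↦ x'(μ z)` the derivative `μ u' et'(μ z)`): `μ u' et'(μ z) Q(x) + x'(μ z) Q'(x) u et = P'(x) u et`; multiply by `Q(x)/u` and use the first identity. `z ∈ InK V L`, `μ z ∉ M`: `X = v(x z) > 1`, `v(P(x)) = X^(d+1)`, `v(Q(x)) = X^d`
(leading coefficients `1` and `ν²`), so `v(x'(μ z)) = X > 1`: `μ z ∈ InK V M`. Last part: `μ z ∉ InK V M`: so `z ∉ InK V L`; for `q ∈ R`, `z ± q ∉ InK V L` (otherwise `μ z ± μ q ∈ InK V M`, `μ q ∈ M`), `q ∉ InK V L`: `x z - x q` is a unit. -/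
def Sd_RAT : Prop :=
  ∀ (V : ValuationSubring ℂ) (L M : PeriodPair) (u e a1 a3 u' e' a1' a3' μ : ℂ),
    IsoT V L M u e a1 a3 u' e' a1' a3' μ →
    ∃ P Q : ℂ[X], IntP V P ∧ IntP V Q ∧
      (∀ z, μ * z ∉ M.lattice →
        xu M u' e' (μ * z) * Q.eval (xu L u e z) = P.eval (xu L u e z) ∧
        (μ * u' / u) * et M u' (μ * z) * Q.eval (xu L u e z) ^ 2 =
          et L u z * (derivative P * Q - P * derivative Q).eval (xu L u e z)) ∧
      (∀ z, InK V L (xu L u e) z → InK V M (xu M u' e') (μ * z)) ∧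
      ∀ z, ¬ InK V M (xu M u' e') (μ * z) → ¬ InK V L (xu L u e) z ∧
        V.valuation (Q.eval (xu L u e z)) = 1

/-- (THT) the functions `z ↦ Θ_a(μ z)` on `L` as rational functions of `x` over `V`.

Uses Sd_COE, Sd_GRT, Sd_RAT. PROOF. `P, Q` from (RAT). `P' = ∏_(q ∈ H) (P - C(x' q) Q)` (`q ∉ InK V M` for `q ∈ H`: so `x' q ∈ V`; if this fails for some `q ∈ H` the last statement is empty and `P' = Q' = 0` will do), `Q' = Q^|H|`. `Θ(μ z) = ∏ (℘ (μ z) - ℘ q) = ∏ u'² (x'(μ z) - x' q)` and `(x'(μ z) - x' q) Q(x z) = (P - C(x' q) Q)(x z)`.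
`x'(μ z) - x' q` is a unit (`gv_X_sub`), `Q(x z)` is a unit (RAT). Logarithmic derivative: `dlg P' Q' = Σ_q dlg (P - C(x' q) Q) Q`, and `dlg (P - c Q) Q = (P' Q - P Q')/((P - c Q) Q) = (P' Q - P Q')/(Q² (x' - c))`, so with (RAT) `et L u z dlg (..) = ν et M u' (μ z)/(x'(μ z) - x' q) = (μ/u) ℘'(μ z)/(℘(μ z) - ℘ q)`; the sum over `q` is `(μ/u) dlX M a (μ z)`
(`b_TDL` for the real number `a`: `‖a‖² = a²`; see `E_THN.lean`). -/
def Sd_THT : Prop :=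
  ∀ (V : ValuationSubring ℂ) (L M : PeriodPair) (u e a1 a3 u' e' a1' a3' μ : ℂ),
    IsoT V L M u e a1 a3 u' e' a1' a3' μ → ∀ (a : ℕ) (H : Finset ℂ), a ≠ 0 →
    IsHalf M (a : ℂ) H →
    ∃ P Q : ℂ[X], IntP V P ∧ IntP V Q ∧
      ∀ z, ¬ InK V M (xu M u' e') (μ * z) → (a : ℂ) * (μ * z) ∉ M.lattice →
      (∀ q ∈ H, ¬ InK V M (xu M u' e') q ∧ ¬ InK V M (xu M u' e') (μ * z + q) ∧
        ¬ InK V M (xu M u' e') (μ * z - q)) →
      ¬ InK V L (xu L u e) z ∧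
      V.valuation (P.eval (xu L u e z)) = 1 ∧ V.valuation (Q.eval (xu L u e z)) = 1 ∧
      ThetaH M H (μ * z) * Q.eval (xu L u e z) = (u' ^ 2) ^ H.card * P.eval (xu L u e z) ∧
      μ * dlX M a (μ * z) / u = dlg P Q (xu L u e z) * et L u z

/-- (DST) the distances.

Uses Sd_COE, Sd_GRT, Sd_TPT. PROOF. Let `4 Y ∈ L`, `Y ∉ L`: `Y ∈ InK` (TPT (2), `j = 0` or `1`), `v(t Y)³ = v 2` if `2 Y ∈ L`, `v(t Y)^12 = v 2` otherwise. `gnear` and `gv_DX` (`2 P ∉ InK`): `P + Y ∉ InK` and `v(x(P + Y) - x P) = v(t Y)`. If `x(P + Y) = x(P + Y')` then `P + Y ≡ ±(P + Y')` modulo `L` (`b_NEQ`), and `2 P ≡ -Y - Y'` is impossible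
(`2 P ∉ InK`): so `Y ≡ Y'`. (1) `S` = the image of the 15 nonzero classes `Y` (`(i ω₁ + j ω₂)/4`, `0 ≤ i, j < 4`), `Y ↦ x(P + Y)` is injective on them; 3 of them have order 2: the product of their `v(t Y)` is `v 2` (all are equal, being cube roots of the same element of an ordered group); 12 have order 4, the product is `v 2`. (2) `S` = `{x(P + R), x(P + 2 R), x(P + 3 R)}`:
`α = v(t R) = v(t(3 R))`, `α^12 = v 2`, `β = v(t(2 R))`, `β³ = v 2 = α^12`, `β = α⁴`; `(α β α)² = α^12 = v 2`. -/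
def Sd_DST : Prop :=
  ∀ (V : ValuationSubring ℂ) (L : PeriodPair) (u e a1 a3 : ℂ), GoodT V L u e a1 a3 →
    V.valuation (2 : ℂ) < 1 → ∀ P : ℂ, ¬ InK V L (xu L u e) P → ¬ InK V L (xu L u e) (2 * P) →
    (∃ S : Finset ℂ, xu L u e P ∉ S ∧
      (∀ x ∈ S, V.valuation x ≤ 1 ∧ ∃ Y, 4 * Y ∈ L.lattice ∧ x = xu L u e (P + Y)) ∧
      ∏ x ∈ S, V.valuation (xu L u e P - x) ≤ V.valuation (2 : ℂ) ^ 2) ∧
    ∀ R, 4 * R ∈ L.lattice → 2 * R ∉ L.lattice →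
      ∃ S : Finset ℂ, xu L u e P ∉ S ∧
        (∀ x ∈ S, V.valuation x ≤ 1 ∧ ∃ k : ℕ, k < 4 ∧ x = xu L u e (P + k * R)) ∧
        (∏ x ∈ S, V.valuation (xu L u e P - x)) ^ 2 ≤ V.valuation (2 : ℂ)

/-! ## The fields -/

/-- (CTX) from the standing hypotheses to `CtxT`. Model `E_CTX.lean`.

PROOF. `B² + 4A ≡ 5` modulo 8: `B = 1`, `A` odd, `nm x = re² + re im - A im²` is even only if `re` and `im` are even: `nrm`, and `O/(2)` is a field (`max`: `nm x = x star x`). `v 2 < 1`: `OverI` for `x = 2`. `int`: `emb x` is integral. `unit`: `OverI`. `nat`: `1 = 2 a + n b`. `kval`: `x = 2^j y`, `y ∉ (2)`; every element of `k` is `emb x/n`, `n` a positive integer. `good`, `iner`: `S2_RFIN`. -/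
def Sd_CTX : Prop :=
  ∀ (A B : ℤ) (V : ValuationSubring ℂ), CaseT A B → OverI V (idl (A := A) (B := B) 2) →
    TorX A B → S2_RFIN → CtxT A B V

/-- (RAM) a finite Galois extension `F / k` with trivial inertia group at `V` is unramified. Model `E_RAM.lean` (with `2` in place of `3`). -/
def Sd_RAM : Prop :=
  ∀ (A B : ℤ) (V : ValuationSubring ℂ), CtxT A B V →
    ∀ (F : IntermediateField (kk A B) ℂ) [FiniteDimensional (kk A B) F] [IsGalois (kk A B) F],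
      (∀ σ : F ≃ₐ[kk A B] F, (∀ x : F, V.valuation (x : ℂ) ≤ 1 →
        V.valuation ((σ x : ℂ) - x) < 1) → σ = 1) →
      ∀ y ∈ F, y ≠ 0 → ∃ k : ℤ, V.valuation y = V.valuation (2 : ℂ) ^ k

/-- (UNR) `RF (f)` is unramified at `V` if `f` is odd. Model `E_UNR.lean`.

Uses Sd_RAM. -/
def Sd_UNR : Prop :=
  ∀ (A B : ℤ) (V : ValuationSubring ℂ), CtxT A B V → TorX A B →
    ∀ f : ℕ, f ≠ 0 → ¬ 2 ∣ f → ∀ y ∈ RF (idl (A := A) (B := B) f), y ≠ 0 →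
      ∃ k : ℤ, V.valuation y = V.valuation (2 : ℂ) ^ k

/-- (DEG) the degree of `RF (2^(j+1) f)` over `RF (f)`. Model `E_DEG.lean`.

PROOF. As `E_DEG.lean`: at most `4^(j+1) - 4^j = 3·4^j` classes modulo `2^(j+1)` of elements not divisible by `2` (pairs `(re, im)` modulo `2^(j+1)`, not both even). -/
def Sd_DEG : Prop :=
  ∀ (A B : ℤ) (V : ValuationSubring ℂ), CtxT A B V → GalE A B → ∀ (j f : ℕ), f ≠ 0 → ¬ 2 ∣ f →
    Module.finrank (kk A B) (RF (idl (A := A) (B := B) (2 ^ (j + 1) * f))) ≤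
      (3 * 4 ^ j) * Module.finrank (kk A B) (RF (idl (A := A) (B := B) f))

/-- (AUT) automorphisms of `ℂ` which act as a principal ideal.

PROOF. `s` from `TorX.surj` for the ideal `sp c`: for every normalised `L` there are `L', mu` with `ActI s m (sp c) L L' mu`, `L'` normalised. `GalX.core` (`Pool/Agent/MUX/E_GAL.lean`): `kap L' = kap L`, `mu = ± emb c`, `L'` and `L` have the same lattice and `℘`. `kap`, `xn`: as `GalX.mk` there. `triv`: `ActI s m' (sp c) L L' mu` (`m ≤ m'`: `Tor m'` implies `Tor m`) for one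
normalised `L` (if there is none then `RF m'` is `k`; `GalX.fix`) and `TorX.triv`. `zeta`: `TorX.zeta` (`L` normalised exists by hypothesis). -/
def Sd_AUT : Prop :=
  ∀ (A B : ℤ), RingE A B → TorX A B → (∃ L, NL A B L) →
    ∀ (m : Ideal (OO A B)), m ≠ ⊥ → ∀ c : OO A B, c ≠ 0 → IsCoprime (sp c) m →
      ∃ s : ℂ ≃+* ℂ, AutC m c s

/-- (GTA) the automorphism acts on `Θ_a`.

PROOF. `ThetaH L H z = ∏ (xn L z - xn L q)`; `s (xn L z) = xn L (emb c * z)`, `s (xn L q) = xn L (emb c * q) = xn L q`, because `a q ∈ L` (so `Tor m L q`, `te_TRA`), `q ∉ L` (`IsHalf.ne`), and `(c - 1) q ∈ L` (`c - 1 = y a`). -/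
def Sd_GTA : Prop :=
  ∀ (A B : ℤ), RingE A B → ∀ L, NL A B L → ∀ (a : ℕ) (H : Finset ℂ), IsHalf L (a : ℂ) H →
    ∀ (m : Ideal (OO A B)), m ≤ idl a → ∀ (c : OO A B) (s : ℂ ≃+* ℂ), AutC m c s →
      c - 1 ∈ idl a → ∀ z, Tor m L z → z ∉ L.lattice →
        s (ThetaH L H z) = ThetaH L H (emb c * z)

/-- (CON) the elements `c = 1 + N b`, `N = 2^n f a`.

PROOF. (1) `c ≡ 1` modulo `2`, `f`, `a`, so `c` is prime to `m a = 2^(n+2) f a` and not `0`; `4 f ∣ N`, `f a ∣ N`. (2) `del = 2 w - B`, `B` odd. `del` has trace `0` and norm `-D`, `D = B² + 4 A`: `nm (1 + t del) = 1 - t² D` for integers `t`; `t = N k` and `2^(n+2) ∣ N²` (`2 n ≥ n + 2`). `nI (sp x) = |nm x|` (`IDL` of `Pool/Agent/MUX/StXF.lean`, or `Algebra.norm`; look for it in `MUX/`), `nm x ≥ 0`.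
(3) `c_k c_l - c_(k+l) = N² k l D` and `m a ∣ N²`. (4) `N = m a/4`. (5) `c_2 x - x = 2 N del x`; `m ∣ 2 N del x` gives `2 ∣ a del x` in `O`, and `(2)` is a prime ideal which does not contain `a`, `del`, `x`. (6) `(om/m) N δ k = k emb del (a om/4)`. `4 R ∈ L` and `2 R ∉ L` for `R = emb del (a om/4)`: `L = om emb O`, `emb` injective. (7) `L = om emb O`: `Y = om emb b'/4`, take `b = a b'`, `a² ≡ 1` modulo 4. -/
def Sd_CON : Prop :=
  ∀ (A B : ℤ) (V : ValuationSubring ℂ) (n f a m : ℕ), SetE A B V n f a m →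
    (∀ b : OO A B, IsCoprime (sp (cc (2 ^ n * f * a) b)) (idl (m * a)) ∧
      IsCoprime (cc (2 ^ n * f * a) b) ((m : ℕ) : OO A B) ∧
      cc (2 ^ n * f * a) b ≠ 0 ∧ cc (2 ^ n * f * a) b - 1 ∈ idl (f * a) ∧
      cc (2 ^ n * f * a) b - 1 ∈ idl (4 * f) ∧ cc (2 ^ n * f * a) b - 1 ∈ idl a) ∧
    ((del : OO A B) ∉ idl (A := A) (B := B) 2 ∧
      ∀ k : ℕ, ∃ j : ℕ, nI (sp (cc (2 ^ n * f * a) ((k : OO A B) * del))) =
        1 + 2 ^ (n + 2) * j) ∧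
    (∀ k l : ℕ, cc (2 ^ n * f * a) ((k : OO A B) * del) * cc (2 ^ n * f * a) ((l : OO A B) * del) -
      cc (2 ^ n * f * a) (((k + l : ℕ) : OO A B) * del) ∈ idl (m * a)) ∧
    (cc (2 ^ n * f * a) (((4 : ℕ) : OO A B) * del) - 1 ∈ idl (m * a)) ∧
    (∀ x : OO A B, IsCoprime x ((m : ℕ) : OO A B) →
      cc (2 ^ n * f * a) (((2 : ℕ) : OO A B) * del) * x - x ∉ idl m) ∧
    ∀ (L : PeriodPair) (om : ℂ), IsNL (⊤ : Ideal (OO A B)) L om →
      (∀ b : OO A B, emb (cc (2 ^ n * f * a) b) * (om / m) = om / m + emb b * (a * om / 4)) ∧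
      (∀ k : ℕ, emb ((k : OO A B) * del) * (a * om / 4) = k * (emb (del : OO A B) * (a * om / 4))) ∧
      4 * (emb (del : OO A B) * (a * om / 4)) ∈ L.lattice ∧
      2 * (emb (del : OO A B) * (a * om / 4)) ∉ L.lattice ∧
      ∀ Y, 4 * Y ∈ L.lattice → ∃ b : OO A B, Y - emb b * (a * om / 4) ∈ L.lattice

/-- (SIG) integral elements of the ray class field are polynomials in `x(P)`, `P = om/m`. Model `E_SIG.lean`.

Uses Sd_COE, Sd_GRT, Sd_TPT, Sd_UNR, Sd_DEG, Se_BAS (`Pool.Agent.NSE`). PROOF. `M = RF (m a)`, `M₀ = RF (f a)`, `m a = 2^(n+2) (f a)`. `GoodT.tor`: `e = ℘ w1`, `u² = ℘ w2 - ℘ w1`, `3 w_i ∈ L`: `e, u² ∈ RF (3) ≤ M₀` (`3 ∣ f`; `xn L w_i = ℘ w_i - 1/12`, `te_FAC`). `k` with `2^(n+2) k ≡ 1` modulo `f`, `P₀ = 2^(n+2) k P`, `P₁ = P - P₀`: `f P₀ ∈ L`,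
`2 P₀ ∉ L` (`f ≥ 3` odd, `k` prime to `f`), `2^(n+2) P₁ ∈ L`, `2^(n+1) P₁ ∉ L` (`1 - 2^(n+2) k` is odd). `P₀, 2 P₀ ∉ InK` (TPT (1)), so `v(2 y + a1 x + a3) = 1` at `P₀` (`gv_DX`). `π = x(P) - x(P₀)`: `gnear`: `v(π) = v(t(P₁))`, so `v(π)^(3·4^(n+1)) = v 2` (TPT (2), `j = n + 1`). (BAS) with `N = 3·4^(n+1)` (DEG with `j = n + 1`, `f := f a`; UNR; `te_GAL`): `w = Σ a_i π^i`,
`a_i ∈ M₀`, `v a_i ≤ 1`. `h = Σ C(a_i) (X - C(x P₀))^i`. `s` is trivial on `M₀` (`AutC.triv`, `c - 1 ∈ (f a)`), so on `a_i`, `e`, `u²`, `x(P₀)`, and `s(xn L P) = xn L (emb c * P)`: `s(x P) = x(emb c * P)` (`x = (xn + 1/12 - e)/u²`). -/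
def Sd_SIG : Prop :=
  ∀ (A B : ℤ) (V : ValuationSubring ℂ) (n f a m : ℕ), SetE A B V n f a m →
    ∀ (L : PeriodPair) (om u e a1 a3 : ℂ), IsNL (⊤ : Ideal (OO A B)) L om →
    GoodT V L u e a1 a3 →
    ∀ w ∈ RF (idl (A := A) (B := B) (m * a)), V.valuation w ≤ 1 →
    ∃ h : ℂ[X], IntP V h ∧ w = h.eval (xu L u e (om / m)) ∧
      ∀ (c : OO A B) (s : ℂ ≃+* ℂ), AutC (idl (m * a)) c s → c - 1 ∈ idl (f * a) →
        s w = h.eval (xu L u e (emb c * (om / m)))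

/-! ## The points -/

/-- (NE1) the points that occur are not in the kernel of reduction. Model `E_NE1.lean`.

Uses Sd_TPT, Sd_GRT. PROOF. As `E_NE1.lean`. `2 z ∈ InK`: `2^j (2 z) ∈ InK` is killed by `f`, so in `L`: `2^j f ∣ 2^(j+1)`, `f ∣ 2`, false (`f ≥ 3` odd). -/
def Sd_NE1 : Prop :=
  ∀ (V : ValuationSubring ℂ) (L : PeriodPair) (u e a1 a3 : ℂ), GoodT V L u e a1 a3 →
    V.valuation (2 : ℂ) < 1 → ∀ (j f a : ℕ), 3 ≤ f → ¬ 2 ∣ f → ¬ 2 ∣ a → a.Coprime f →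
      ∀ z : ℂ, ((2 ^ j * f : ℕ) : ℂ) * z ∈ L.lattice →
        (∀ c : ℕ, (c : ℂ) * z ∈ L.lattice → 2 ^ j * f ∣ c) →
        ¬ InK V L (xu L u e) z ∧ ¬ InK V L (xu L u e) (2 * z) ∧ (a : ℂ) * z ∉ L.lattice ∧
        ∀ q : ℂ, (a : ℂ) * q ∈ L.lattice → q ∉ L.lattice → ¬ InK V L (xu L u e) q ∧
          ¬ InK V L (xu L u e) (z + q) ∧ ¬ InK V L (xu L u e) (z - q)

/-- (MUL) the isogenies `μ_i x : L_(i0) → L_i` have odd degree. Model `E_MUL.lean`. -/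
def Sd_MUL : Prop :=
  ∀ (A B : ℤ) (V : ValuationSubring ℂ), CtxT A B V → ∀ (n : ℕ) (ι : Type) (R : Reps A B n ι),
    n ≠ 0 → 2 ∣ n → ∀ (i : ι) (x : OO A B), x ∉ idl (A := A) (B := B) 2 →
      muX R i * emb x ≠ 0 ∧ Isg (R.L R.i0) (R.L i) (muX R i * emb x) ∧
      ∃ N : ℕ, ¬ 2 ∣ N ∧ ∀ z, muX R i * emb x * z ∈ (R.L i).lattice →
        (N : ℂ) * z ∈ (R.L R.i0).lattice

/-- (GPO) the values of `Θ_a` at the points `(i, x)` as rational functions over `V` of `x(P)`.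

Uses Sd_COE, Sd_GRT, Sd_THT, Sd_NE1, Sd_MUL, Sd_UNR. PROOF. `μ = muX R i * emb x`, a model `u', e', a1', a3'` of `R.L i` (`CtxT.good`), `IsoT` by (MUL). `P, Q` from (THT); `κ = (u'²)^|H|`. `|H|` is even (`b_HRE`: `2 |H| + 1 = a²`, `a` odd, so `8 ∣ a² - 1`), `u'² = xn w2 - xn w1 ∈ RF (3)` (`GoodT.tor`), so `v(u'²)` is a power of `v 2` (UNR). `IsCoprime (c x) m`:
`pt R m i (c x) = μ (emb c om_0/m)` has exact order `m` (`te_PT`; `m.primeFactors ⊆ (2 f).primeFactors`), so (NE1) applies (`j = n + 2`), and (THT) with `z = emb c * (om_0/m)`. `v(et) ≤ 1`: `et = 2 y + a1 x + a3`, `z ∉ InK` (`gInt_Y`). -/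
def Sd_GPO : Prop :=
  ∀ (A B : ℤ) (V : ValuationSubring ℂ) (n f a m : ℕ), SetE A B V n f a m →
    ∀ (ι : Type) (R : Reps A B (2 * f) ι) (u e a1 a3 : ℂ), GoodT V (R.L R.i0) u e a1 a3 →
    ∀ (i : ι) (H : Finset ℂ), IsHalf (R.L i) (a : ℂ) H →
    ∀ x : OO A B, x ∉ idl (A := A) (B := B) 2 →
    ∃ (κ : ℂ) (k : ℤ) (P Q : ℂ[X]), IntP V P ∧ IntP V Q ∧
      V.valuation κ = (V.valuation (2 : ℂ) ^ k) ^ 2 ∧
      ∀ c : OO A B, IsCoprime (c * x) ((m : ℕ) : OO A B) →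
        V.valuation (xu (R.L R.i0) u e (emb c * (R.om R.i0 / m))) ≤ 1 ∧
        V.valuation (et (R.L R.i0) u (emb c * (R.om R.i0 / m))) ≤ 1 ∧
        V.valuation (P.eval (xu (R.L R.i0) u e (emb c * (R.om R.i0 / m)))) = 1 ∧
        V.valuation (Q.eval (xu (R.L R.i0) u e (emb c * (R.om R.i0 / m)))) = 1 ∧
        ThetaH (R.L i) H (pt R m i (c * x)) *
            Q.eval (xu (R.L R.i0) u e (emb c * (R.om R.i0 / m))) =
          κ * P.eval (xu (R.L R.i0) u e (emb c * (R.om R.i0 / m))) ∧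
        muX R i * emb x * dlX (R.L i) a (pt R m i (c * x)) / u =
          dlg P Q (xu (R.L R.i0) u e (emb c * (R.om R.i0 / m))) *
            et (R.L R.i0) u (emb c * (R.om R.i0 / m))

/-! ## The two estimates -/

/-- (SQR) squares, for products over arbitrary finite families of points `(i, x)`.

Uses Sd_LAG, Sd_PRD, Sd_COE, Sd_DST, Sd_AUT, Sd_GTA, Sd_CON, Sd_SIG, Sd_NE1, Sd_GPO. PROOF. `N = 2^n f a`, `c_b = cc N b`, `P = om_0/m`, `P, 2 P ∉ InK` (NE1; exact order `m`: `te_PT` for `i0`, `x = 1`). The elements `q = (i, x)` of all `X j`: `κ_q, k_q, P_q, Q_q` from (GPO) (`x` is prime to `m`, so not in `(2)`). `v(y)² = ∏ v(κ_q)^(g_j) = v(2)^(2 K)`, `K = Σ g_j k_q`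
(GPO with `c = 1`): `v(y) = v(2)^K` (`y ≠ 0`), `w = y/2^K ∈ RF m ≤ RF (m a)`, `v w = 1`. (SIG): `h`. For `b ∈ O` let `s_b` be an automorphism with `AutC (idl (m a)) c_b s_b` (AUT, CON), `ξ_b = xu (emb c_b * P) = xu (P + emb b * (a om_0/4))`. `s_b(Θ(z)) = Θ(emb c_b z) = Θ(pt R m i (c_b x))` (GTA) and (GPO) with `c = c_b`:
`s_b(y)² = ∏ (κ_q P_q(ξ_b)/Q_q(ξ_b))^(g_j) = κ₀ P(ξ_b)/Q(ξ_b)`, `κ₀ = ∏ κ_q^(g_j)`, `v κ₀ = v(2)^(2K)`, with `P, Q` from (PRD) for the finite family of the `(j, q)` (`J := Σ j, X j`, or the finset `Finset.univ.sigma X`), `T = {ξ_b}`. `s_b(y) = 2^K h(ξ_b)` (SIG; `2^K` is rational). So `P(ξ_b) = κ h(ξ_b)² Q(ξ_b)`, `κ = 4^K/κ₀`, `v κ = 1`, for all `b ∈ O`, in particular at `ξ_0 = xu P`.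
(DST (1)): `S`; its elements are `xu (P + Y)`, `4 Y ∈ L`, `Y ≡ emb b (a om_0/4)` (CON), so they are some `ξ_b`. (DST (2)) with `R = emb del (a om_0/4)`: `S'`; its elements are `xu (P + k R) = ξ_(k del)`, and `h(ξ_(k del)) = s w = w = h(ξ_0)` since `s y = y` by hypothesis. (LAG (4)): `v(P' Q - P Q')² ≤ max (v(2)² v(2)) (v(2)⁴) ≤ v(2)³` at `ξ_0`, so `v(dlg P Q ξ_0)² ≤ v(2)³`.
The sum is `Σ g_j emb x muX dlX/u = Σ g_j dlg P_q Q_q (ξ_0) et(P) = dlg P Q (ξ_0) et(P)` (GPO with `c = 1`: `emb 1 = 1`, `1 * x = x`; PRD), `v(et P) ≤ 1`. -/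
def Sd_SQR : Prop :=
  ∀ (A B : ℤ) (V : ValuationSubring ℂ) (n f a m : ℕ), SetE A B V n f a m →
    ∀ (ι : Type) (R : Reps A B (2 * f) ι) (u e a1 a3 : ℂ), GoodT V (R.L R.i0) u e a1 a3 →
    ∀ (H : ι → Finset ℂ), (∀ i, IsHalf (R.L i) (a : ℂ) (H i)) →
    ∀ (J : Type) [Fintype J] (X : J → Finset (ι × OO A B)) (g : J → ℤ),
      (∀ j, ∀ q ∈ X j, IsCoprime q.2 ((m : ℕ) : OO A B)) →
      (∃ y ∈ RF (idl (A := A) (B := B) m),
        (∀ (k : ℕ) (s : ℂ ≃+* ℂ),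
          AutC (idl (m * a)) (cc (2 ^ n * f * a) ((k : OO A B) * del)) s → s y = y) ∧
        y ^ 2 = ∏ j, (∏ q ∈ X j, ThetaH (R.L q.1) (H q.1) (pt R m q.1 q.2)) ^ g j) →
      V.valuation ((∑ j, (g j : ℂ) * ∑ q ∈ X j, emb q.2 * muX R q.1 *
        dlX (R.L q.1) a (pt R m q.1 q.2)) / u) ^ 2 ≤ V.valuation (2 : ℂ) ^ 3

/-- (ORB) the sum over one orbit of `1 + N del`, `N = 2^n f a`.

Uses Sd_LAG, Sd_PRD, Sd_COE, Sd_DST, Sd_CON, Sd_NE1, Sd_GPO. PROOF. `c_k = cc N (k del)`, `P = om_0/m`, `ξ_j = xu (emb c_j P) = xu (P + j R)`, `R = emb del (a om_0/4)` (CON). (1) (GPO) with `c = 1`: `v(muX emb x dlX/u) ≤ 1` (`P, Q` over `V` with unit values at `ξ_0 ∈ V`), `v(emb x) = 1` (`CtxT.unit`; `x` is prime to `m`, so not in `(2)`).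
(2) `Θ` and `dlX` at `pt R m i x` depend only on `x` modulo `m` (periodic: `b_TIN`, `b_TDL`; `pt` by `te_PT`). Let `x_k = c_k x` (`k = 0..3`), prime to `m`; `κ_k, P_k, Q_k` from (GPO) for `x_k`. For `c = c_j`: `c_j x_k ≡ c_(j+k) x` modulo `m` (CON (3)), `c_4 ≡ 1`, so `∏_k Θ(pt (c_j x_k)) = ∏_(k<4) Θ(pt (c_(j+k) x))` does not depend on `j < 4`; so `∏_k κ_k P_k(ξ_j)/Q_k(ξ_j)` does not depend on `j`,
and with `P, Q` from (PRD) (exponents `1`): `P(ξ_j) Q(ξ_0) = P(ξ_0) Q(ξ_j)`. (DST (2)), (LAG (3)): `v(dlg P Q ξ_0)² ≤ v 2`. So `Σ_k muX emb(x_k) dlX(pt x_k)/u = dlg P Q (ξ_0) et(P)` has `v(..)² ≤ v 2`. `emb x_k - emb x = emb x N k emb del`, `v ≤ v(4)` (`n ≥ 2`), `v(muX dlX(pt x_k)/u) ≤ 1` by (1), so `v(emb x Σ_k muX dlX(pt x_k)/u)² ≤ max (v 2) (v(4)²) = v 2`. -/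
def Sd_ORB : Prop :=
  ∀ (A B : ℤ) (V : ValuationSubring ℂ) (n f a m : ℕ), SetE A B V n f a m →
    ∀ (ι : Type) (R : Reps A B (2 * f) ι) (u e a1 a3 : ℂ), GoodT V (R.L R.i0) u e a1 a3 →
    ∀ (i : ι) (H : Finset ℂ), IsHalf (R.L i) (a : ℂ) H →
    ∀ x : OO A B, IsCoprime x ((m : ℕ) : OO A B) →
      V.valuation (muX R i * dlX (R.L i) a (pt R m i x) / u) ≤ 1 ∧
      ∀ y : ℕ → OO A B,
        (∀ k < 4, y k - cc (2 ^ n * f * a) ((k : OO A B) * del) * x ∈ idl m) →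
        V.valuation ((∑ k ∈ Finset.range 4, muX R i * dlX (R.L i) a (pt R m i (y k))) / u) ^ 2 ≤
          V.valuation (2 : ℂ)

/-! ## The sets `XX` -/

/-- (GLC) the automorphisms `1 + k N del` are trivial on `D`.

Uses Sd_CON. PROOF. `InCyc` for `s`: `AutC.fix`; `AutC.triv` with `m' = idl (2 f)` (`c - 1 ∈ (4 f) ≤ (2 f)`, `2 f ∣ m a`); `z^(2^(n+2)) = 1`: `s z = z^(1 + 2^(n+2) j) = z` (`AutC.zeta` with `M = 2^(n+2)`, CON (2)). -/
def Sd_GLC : Prop :=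
  ∀ (A B : ℤ) (V : ValuationSubring ℂ) (n f a m : ℕ), SetE A B V n f a m →
    ∀ D : IntermediateField ℚ ℂ, InCyc A B f (2 ^ (n + 2)) D → ∀ (k : ℕ) (s : ℂ ≃+* ℂ),
      AutC (idl (m * a)) (cc (2 ^ n * f * a) ((k : OO A B) * del)) s → ∀ y ∈ D, s y = y

/-- (XXS) stability of `XX` under `-1` and under `c`.

PROOF. Let `q = (i, X) ∈ XX`, `x = out X`, `σ` as in `XX`. (1) `out (-X) ≡ -x` modulo `m`: prime to `m`; `xn` is even and periodic, `pt R m i` of two elements which are congruent modulo `m` differ by an element of `L_i` (`te_PT` or directly: `om_i N(b_i) emb y`, `N(b_i) ∈ b_i`): `Hits` for the same `σ`. (2) `σ' = σ.trans s` (first `σ`): `FixK`, `ExtC` (`s` is trivial on `D`),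
`kap (R.L i) = s (σ ..)` (`AutC.kap`), `s (xn L_i (pt R m i x)) = xn L_i (emb c * pt R m i x) = xn L_i (pt R m i x')`, `x' = out (c X) ≡ c x`; `emb c * pt ∉ L_i` (`AutC.xn`; `Tor (idl (m a))` of the point: `m pt ∈ L_i`). `c x` is prime to `m`. -/
def Sd_XXS : Prop :=
  ∀ (A B : ℤ) (V : ValuationSubring ℂ) (n f a m : ℕ), SetE A B V n f a m →
    ∀ (ι : Type) (R : Reps A B (2 * f) ι) (D : IntermediateField ℚ ℂ) (h : kk A B ≤ D),
    letI := algC h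
    ∀ (τ : D ≃ₐ[kk A B] D), ∀ q ∈ XX R m h τ, (q.1, -q.2) ∈ XX R m h τ ∧
      ∀ (c : OO A B) (s : ℂ ≃+* ℂ), IsCoprime c ((m : ℕ) : OO A B) → AutC (idl (m * a)) c s →
        (∀ y ∈ D, s y = y) → (q.1, Ideal.Quotient.mk (idl (A := A) (B := B) m) c * q.2) ∈ XX R m h τ

/-- (HEQ) sums and products of even functions over half systems.

Uses Sd_XXS. PROOF. `S` is in bijection with `S'`: `q ↦ q` if `q ∈ S'`, `q ↦ (q.1, -q.2)` otherwise (`cov`, `dis`; `Finset.prod_bij'`). `XX` is the disjoint union of `S` and its image under `-1` (`sub`, `cov`, `dis`, XXS): `finsum_mem_coe_finset`. -/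
def Sd_HEQ : Prop :=
  ∀ (A B : ℤ) (V : ValuationSubring ℂ) (n f a m : ℕ), SetE A B V n f a m →
    ∀ (ι : Type) (R : Reps A B (2 * f) ι) (D : IntermediateField ℚ ℂ) (h : kk A B ≤ D),
    letI := algC h
    ∀ (τ : D ≃ₐ[kk A B] D) (S : Finset (ι × (OO A B ⧸ idl (A := A) (B := B) m))),
      HalfS R m h τ S → ∀ F : ι × (OO A B ⧸ idl (A := A) (B := B) m) → ℂ,
      (∀ q ∈ XX R m h τ, F (q.1, -q.2) = F q) →
      (∀ S', HalfS R m h τ S' → ∏ q ∈ S, F q = ∏ q ∈ S', F q) ∧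
      ∑ᶠ q ∈ XX R m h τ, F q = 2 * ∑ q ∈ S, F q

/-- (HAL) half systems which are stable under `1 + N del`.

Uses Sd_CON, Sd_XXS. PROOF. `XX` is finite (`ι` and `O/m` are finite). For `X ∈ O/m` let `r(X) ∈ O/(f)` be the class of `out X` (`f ∣ m`): `r(-X) = -r(X)`, `r(c X) = r(X)` (`c - 1 ∈ (4 f) ≤ (f)`), `r(X) ≠ -r(X)` if `out X` is prime to `m` (otherwise `f ∣ 2 x`, `f` odd, so `f ∣ x` with `x` prime to `f ≥ 3`, false). Take an injection `j` of the finite (or countable) set `O/(f)` into `ℕ` and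
`S = {q ∈ XX : j(r(q.2)) < j(-r(q.2))}`. -/
def Sd_HAL : Prop :=
  ∀ (A B : ℤ) (V : ValuationSubring ℂ) (n f a m : ℕ), SetE A B V n f a m →
    ∀ (ι : Type) [Finite ι] (R : Reps A B (2 * f) ι) (D : IntermediateField ℚ ℂ)
      (h : kk A B ≤ D),
    letI := algC h
    ∀ (τ : D ≃ₐ[kk A B] D),
      (∀ q ∈ XX R m h τ, (q.1, Ideal.Quotient.mk (idl (A := A) (B := B) m) (cc (2 ^ n * f * a) del) * q.2) ∈
        XX R m h τ) →
      ∃ S : Finset (ι × (OO A B ⧸ idl (A := A) (B := B) m)), HalfS R m h τ S ∧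
        ∀ q ∈ S, (q.1, Ideal.Quotient.mk (idl (A := A) (B := B) m) (cc (2 ^ n * f * a) del) * q.2) ∈ S

/-- (PRT) a finite set with a free action of the cyclic group of order 4 is a union of orbits.

PROOF. Induction on the number of elements of `S`: for `q ∈ S` the elements `φ^[k] q`, `k < 4`, are different (`φ^[2] q ≠ q` and `φ^[4] q = q`; `φ^[1] q = q` or `φ^[3] q = q` would give `φ^[2] q = q`; `φ` is injective on `S`); remove them from `S`: the rest is stable under `φ` (if `φ r = φ^[k] q` then `r = φ^[4] r = φ^[k+3] q`). -/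
def Sd_PRT : Prop :=
  ∀ (α : Type) (S : Finset α) (φ : α → α), (∀ q ∈ S, φ q ∈ S) → (∀ q ∈ S, φ^[4] q = q) →
    (∀ q ∈ S, φ^[2] q ≠ q) →
    ∃ T ⊆ S, ∀ F : α → ℂ, ∑ q ∈ S, F q = ∑ t ∈ T, ∑ k ∈ Finset.range 4, F (φ^[k] t)

/-- (MAIN) both estimates for families of sets of pairs which are stable under `c = 1 + N del`.

Uses Sd_CON, Sd_SQR, Sd_ORB, Sd_PRT. PROOF. `φ q = (q.1, c q.2)`; `φ^[k] q = (q.1, c^k q.2)` and `c^k ≡ c_k := cc N (k del)` modulo `m` (CON (3), induction), `c_4 ≡ 1`, `φ^[2] q ≠ q` (CON (5)): (PRT) gives `T_j`. `F q = om(out q.2) muX dlX(..)/u`. `y_k = out ((φ^[k] t).2) ≡ c_k out(t.2)` modulo `m`: `om(y_k) = om(out t.2)` (`OddT.per`; `2 f ∣ m`, `c_k - 1 ∈ (4 f)`),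
`v(om(..)) ≤ 1` (`OddT.cong`, `CtxT.int`). (i) `Σ_k F(φ^[k] t) = om(out t.2) Σ_k muX dlX(pt y_k)/u`, by (ORB (2)) `v(..)² ≤ v 2`; sum over `t`. (ii) (SQR) for `X j = {(q.1, out q.2) : q ∈ S j}`: `v(Σ g_j Σ_q emb(out q.2) E q)² ≤ v(2)³`, `E q = muX dlX/u`, `v(E q) ≤ 1` (ORB (1)). The difference to the claim is `Σ_j g_j Σ_(t ∈ T_j) D_t`,
`D_t = Σ_k (om(y_k) - emb(y_k)) E(φ^[k] t) = (om(x) - emb(x)) Σ_k E(φ^[k] t) - Σ_k (emb(y_k) - emb(x)) E(φ^[k] t)`, `x = out t.2`: `v(first)² ≤ v(2)² v(2)` (`OddT.cong`, ORB (2)), `v(second) ≤ v(4)` (`y_k - x ∈ (4)`). -/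
def Sd_MAIN : Prop :=
  ∀ (A B : ℤ) (V : ValuationSubring ℂ) (n f a m : ℕ), SetE A B V n f a m →
    ∀ (ι : Type) (R : Reps A B (2 * f) ι) (u e a1 a3 : ℂ), GoodT V (R.L R.i0) u e a1 a3 →
    ∀ (H : ι → Finset ℂ), (∀ i, IsHalf (R.L i) (a : ℂ) (H i)) →
    ∀ om : OO A B → ℂ, OddT f V om →
    ∀ (J : Type) [Fintype J] (S : J → Finset (ι × (OO A B ⧸ idl (A := A) (B := B) m))),
      (∀ j, ∀ q ∈ S j, IsCoprime (Quotient.out q.2 : OO A B) ((m : ℕ) : OO A B)) →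
      (∀ j, ∀ q ∈ S j,
        (q.1, Ideal.Quotient.mk (idl (A := A) (B := B) m) (cc (2 ^ n * f * a) del) * q.2) ∈ S j) →
      (∀ j, V.valuation ((∑ q ∈ S j, om (Quotient.out q.2) * muX R q.1 *
        dlX (R.L q.1) a (pt R m q.1 (Quotient.out q.2))) / u) ^ 2 ≤ V.valuation (2 : ℂ)) ∧
      ∀ g : J → ℤ,
        (∃ y ∈ RF (idl (A := A) (B := B) m),
          (∀ (k : ℕ) (s : ℂ ≃+* ℂ),
            AutC (idl (m * a)) (cc (2 ^ n * f * a) ((k : OO A B) * del)) s → s y = y) ∧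
          y ^ 2 = ∏ j, (∏ q ∈ S j,
            ThetaH (R.L q.1) (H q.1) (pt R m q.1 (Quotient.out q.2))) ^ g j) →
        V.valuation ((∑ j, (g j : ℂ) * ∑ q ∈ S j, om (Quotient.out q.2) * muX R q.1 *
          dlX (R.L q.1) a (pt R m q.1 (Quotient.out q.2))) / u) ^ 2 ≤ V.valuation (2 : ℂ) ^ 3

/-- (FIN) the final form.

Uses Sd_CTX, Sd_AUT, Sd_CON, Sd_GLC, Sd_XXS, Sd_HEQ, Sd_HAL, Sd_MAIN. PROOF. `m = lvX 2 f n = f * 4 * 2^n = 2^(n+2) f`, `a = aX 2 f = 1 + 8 f`, `f ≥ 3` (`3 absD ∣ f`), `SetE` (CTX). `c = cc N del`, `s` with `AutC (idl (m a)) c s` (AUT, CON; a normalised lattice exists: `R.nl`), trivial on `D` (GLC with `k = 1`): (XXS), (HAL): stable half systems `S τ`. `C τ = ∏_(q ∈ S τ) Θ` (HEQ; `Θ` is even and periodic, `b_TIN`).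
`TT2 = 1/2 · 2 Σ_(q ∈ S τ) om muX dlX` (HEQ: the function is even, since `om` and `dlX` are odd: `om (out (-X)) = om (-out X)` by `OddT.per`; `dlX` is odd and periodic, `b_TDL`, or `ee`). First claim: (MAIN (i)), `J = Unit`. Second claim: `J = D ≃ₐ D` (finite: `D` is contained in `RF m`; `τ ↦ C τ`), `S j := S (j τ')`, `y' = τ' y ∈ D`: `y'² = ∏ C(τ τ')^(g τ)`, because
`τ'(C τ) = τ'(τ(C 1)) = C(τ' τ) = C(τ τ')` (`Gal(D/k)` is commutative: extend to `ℂ` (`TorX.ext`), restrict to `RF m` (`TorX.comm`); see `E_MAIN.lean`, `E_FIN.lean` and `Pool/Agent/MUX/E_MAIN0.lean`), `y' ∈ D` is fixed by all `s` (GLC), (MAIN (ii)). -/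
def Sd_FIN : Prop := S2_RFIN → S2_EFIN

end

end Pool.Agent.N2E
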