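import Pool.Agent.N2.StE2
import Pool.Agent.NS.E_SIG
import Pool.Agent.NS.E_BAS
import Pool.Agent.MUX.E_GAL

/-!
# MUX-2N, block E2N, module SIG: integral elements of the ray class field are polynomials in `x(P)` (model `NS/E_SIG.lean`)
-/

set_option autoImplicit false

open Polynomial

namespace Pool.Agent.N2E

open _root_.MU3 Pool.Agent.MU3A Pool.Agent.MU3B Pool.Agent.MUX Pool.Agent.MUXU Pool.Agent.MUXE
open Pool.Agent.RI Pool.Agent.NS Pool.Agent.N2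
open Pool.Agent.NSE (IntP)
open Pool.Agent.NSE.SIG (rat_mem intP_sum)
open Pool.Agent.MUX2 (GRG)
open Pool.Agent.MUXV (InK tX)

noncomputable section

theorem td_SIG (h1 : Sd_COE) (h2 : Sd_GRT) (h3 : Sd_TPT) (h4 : Sd_UNR) (h5 : Sd_DEG) :
    Sd_SIG := by
  intro A B V n f a m S L om u e a1 a3 hL hgood w hw hvw
  obtain ⟨hC, hT, hn, hf, h3f, h2f, -, h2a, -, rfl⟩ := S
  have hR := hC.ring
  have hG : GalE A B := te_GAL A B hR hT
  obtain ⟨φ, hφ⟩ := hR.hom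
  have hmul : ∀ x y : OO A B, emb (x * y) = emb x * emb y := fun x y => by
    rw [← hφ, map_mul, hφ, hφ]
  have hnat : ∀ k : ℕ, emb ((k : ℕ) : OO A B) = k := fun k => by rw [← hφ, map_natCast]
  have hLn : NL A B L := ⟨⊤, om, hL⟩
  have hom0 := hL.om_ne
  have hv2 := hC.v2
  have hf0 : f ≠ 0 := by omega
  have ha : a ≠ 0 := by rintro rfl; exact h2a (dvd_zero 2)
  have hfa0 : f * a ≠ 0 := Nat.mul_ne_zero hf0 ha
  have h2fa : ¬ 2 ∣ f * a := fun h => by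
    rcases (Nat.Prime.dvd_mul (by norm_num)).1 h with h | h
    · exact h2f h
    · exact h2a h
  have hm0' : 2 ^ (n + 2) * f * a ≠ 0 := by positivity
  have hne : ∀ k : ℕ, k ≠ 0 → idl (A := A) (B := B) k ≠ ⊥ := by
    intro k hk h
    rw [Ideal.span_singleton_eq_bot] at h
    apply hk
    have h' := hnat k
    rw [h, ← hφ, map_zero] at h'
    exact_mod_cast h'.symm
  -- the fields
  have hmm : idl (A := A) (B := B) (2 ^ (n + 2) * f * a) ≤ idl (f * a) := by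
    rw [Ideal.span_singleton_le_span_singleton]
    refine ⟨((2 ^ (n + 2) : ℕ) : OO A B), ?_⟩
    push_cast; ring
  obtain ⟨c1, c2, c3, c4, c5⟩ := Pool.Agent.MUXE.te_FAC Pool.Agent.MUXE.te_TRA A B hR
  have hle := c1 _ _ hmm
  obtain ⟨ξ, G⟩ := h2 V L u e a1 a3 hgood hv2
  obtain ⟨t1, t2⟩ := h3 V L u e a1 a3 hgood hv2
  obtain ⟨w₁, w₂, hw₁, hw₂, hw₁L, hw₂L, -, -, he, hu2⟩ := hgood.tor
  -- torsion points
  have hTor : ∀ (k : ℕ) (z : ℂ), (k : ℂ) * z ∈ L.lattice → Tor (idl (A := A) (B := B) k) L z := by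
    intro k z hz x hx
    obtain ⟨y, rfl⟩ := Ideal.mem_span_singleton'.1 hx
    rw [hmul, hnat, mul_assoc]
    obtain ⟨c, -, hc⟩ := (hL.mem _).1 hz
    exact (hL.mem _).2 ⟨y * c, Submodule.mem_top, by rw [hc, hmul]; ring⟩
  have hint : ∀ (k : ℤ) (z : ℂ), z ∈ L.lattice → (k : ℂ) * z ∈ L.lattice := by
    intro k z hz
    simpa [zsmul_eq_mul] using L.lattice.smul_mem k hz
  obtain ⟨f', hf'⟩ := h3f
  have hthree : ∀ z : ℂ, 3 * z ∈ L.lattice → Tor (idl (A := A) (B := B) (f * a)) L z := by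
    intro z hz
    apply hTor
    have h11 := hint ((f' * a : ℕ) : ℤ) _ hz
    have h12 : ((f * a : ℕ) : ℂ) * z = (((f' * a : ℕ) : ℤ) : ℂ) * (3 * z) := by
      rw [hf']; push_cast; ring
    rw [h12]; exact h11
  have hx1 : xn L w₁ ∈ RF (idl (A := A) (B := B) (f * a)) :=
    (c2 _ L hLn).2 _ (hthree _ hw₁) hw₁L
  have hx2 : xn L w₂ ∈ RF (idl (A := A) (B := B) (f * a)) :=
    (c2 _ L hLn).2 _ (hthree _ hw₂) hw₂L
  have heM : e ∈ RF (idl (A := A) (B := B) (f * a)) := by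
    have h11 : e = xn L w₁ + ((1 / 12 : ℚ) : ℂ) := by rw [he]; unfold xn; push_cast; ring
    rw [h11]
    refine add_mem hx1 ?_
    exact SubfieldClass.ratCast_mem _ _
  have huM : u ^ 2 ∈ RF (idl (A := A) (B := B) (f * a)) := by
    have h11 : u ^ 2 = xn L w₂ - xn L w₁ := by rw [hu2]; unfold xn; ring
    rw [h11]
    exact sub_mem hx2 hx1
  -- the points
  have hcop : IsCoprime ((2 ^ (n + 2) : ℕ) : ℤ) (f : ℤ) := by
    rw [Nat.isCoprime_iff_coprime]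
    exact Nat.Coprime.pow_left _ ((Nat.Prime.coprime_iff_not_dvd (by norm_num)).2 h2f)
  obtain ⟨α, β, hαβ⟩ := hcop
  push_cast at hαβ
  obtain ⟨P₀, hP₀⟩ : ∃ z, z = (α : ℂ) / (f : ℕ) * om := ⟨_, rfl⟩
  obtain ⟨P₁, hP₁⟩ : ∃ z, z = (β : ℂ) / ((2 ^ (n + 2) : ℕ) : ℂ) * om := ⟨_, rfl⟩
  obtain ⟨Pt, hPt⟩ : ∃ z, z = om / ((2 ^ (n + 2) * f : ℕ) : ℂ) := ⟨_, rfl⟩
  rw [← hPt]
  have hfc : (f : ℂ) ≠ 0 := by exact_mod_cast hf0
  have h2c : (2 : ℂ) ^ (n + 2) ≠ 0 := pow_ne_zero _ (by norm_num)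
  have hsum : P₀ + P₁ = Pt := by
    have h11 : (α : ℂ) * 2 ^ (n + 2) + β * f = 1 := by exact_mod_cast hαβ
    rw [hP₀, hP₁, hPt]
    push_cast
    field_simp
    linear_combination h11
  have hfP₀ : (f : ℂ) * P₀ ∈ L.lattice := by
    have h11 : (f : ℂ) * P₀ = (((f : ℤ) * α : ℤ) : ℂ) / ((f : ℕ) : ℂ) * om := by
      rw [hP₀]; push_cast; ring
    rw [h11, rat_mem hR hL _ hf0]
    exact dvd_mul_right _ _
  have h2P₀ : 2 * P₀ ∉ L.lattice := by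
    have h11 : 2 * P₀ = ((2 * α : ℤ) : ℂ) / ((f : ℕ) : ℂ) * om := by
      rw [hP₀]; push_cast; ring
    rw [h11, rat_mem hR hL _ hf0]
    intro h12
    have h13 : IsCoprime (f : ℤ) α := ⟨β, 2 ^ (n + 2), by linear_combination hαβ⟩
    have h14 := h13.dvd_of_dvd_mul_right h12
    have h15 := Int.le_of_dvd (by norm_num) h14
    omega
  have hP₀L : P₀ ∉ L.lattice := fun h => h2P₀ (by rw [two_mul]; exact add_mem h h)
  have hP₀E : ¬ InK V L (xu L u e) P₀ := fun h => hP₀L ((t1 f h2f).2 P₀ hfP₀ h)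
  have h2P₀E : ¬ InK V L (xu L u e) (2 * P₀) := fun h => h2P₀ ((t1 f h2f).2 _ (by
    have h11 : (f : ℂ) * (2 * P₀) = f * P₀ + f * P₀ := by ring
    rw [h11]; exact add_mem hfP₀ hfP₀) h)
  have h2P₁ : (2 : ℂ) ^ (n + 1 + 1) * P₁ ∈ L.lattice := by
    have h11 : (2 : ℂ) ^ (n + 1 + 1) * P₁ =
        ((((2 ^ (n + 2) : ℕ) : ℤ) * β : ℤ) : ℂ) / ((2 ^ (n + 2) : ℕ) : ℂ) * om := by
      rw [hP₁]; push_cast; ring
    rw [h11, rat_mem hR hL _ (by positivity)]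
    exact dvd_mul_right _ _
  have h2P₁' : (2 : ℂ) ^ (n + 1) * P₁ ∉ L.lattice := by
    have h11 : (2 : ℂ) ^ (n + 1) * P₁ = (β : ℂ) / ((2 : ℕ) : ℂ) * om := by
      rw [hP₁]; push_cast; field_simp; ring
    rw [h11, rat_mem hR hL _ (by norm_num)]
    intro h12
    have h13 : (2 : ℤ) ∣ 1 := by
      rw [← hαβ]
      refine dvd_add (Dvd.dvd.mul_left (dvd_pow_self 2 (Nat.succ_ne_zero (n + 1))) _)
        (Dvd.dvd.mul_right ?_ _)
      exact_mod_cast h12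
    omega
  obtain ⟨hP₁E, hP₁L, hP₁v⟩ := t2 (n + 1) P₁ h2P₁ h2P₁'
  obtain ⟨hPE, hnr, -, -⟩ := Pool.Agent.MUX2.gnear G hP₀E hP₁E hP₁L
  have hDX := Pool.Agent.MUX2.gv_DX G hP₀E h2P₀E
  rw [hsum] at hPE hnr
  have hPL : Pt ∉ L.lattice := fun h => hPE (Or.inl h)
  -- the uniformiser
  obtain ⟨π, hπ⟩ : ∃ z, z = xu L u e Pt - xu L u e P₀ := ⟨_, rfl⟩
  have hvπ : V.valuation π ^ (3 * 4 ^ (n + 1)) = V.valuation (2 : ℂ) := by
    obtain ⟨h12, h12', -⟩ := Pool.Agent.MUX2.gv_tX_lt G hP₁E hP₁L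
    have h13 : V.valuation (tX (xu L u e) (yt L u e a1 a3) P₁) ^ 2 <
        V.valuation (tX (xu L u e) (yt L u e a1 a3) P₁) := by
      rw [pow_two]
      exact mul_lt_of_lt_one_right (zero_lt_iff.2 h12') h12
    rw [← hπ] at hnr
    have h14 : V.valuation ((2 * yt L u e a1 a3 P₀ + (WT a1 a3).a₁ * xu L u e P₀ +
        (WT a1 a3).a₃) * tX (xu L u e) (yt L u e a1 a3) P₁) =
        V.valuation (tX (xu L u e) (yt L u e a1 a3) P₁) := by
      rw [map_mul, hDX, one_mul]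
    have h15 : V.valuation π = V.valuation (tX (xu L u e) (yt L u e a1 a3) P₁) := by
      have h16 := Valuation.map_add_eq_of_lt_left V.valuation
        (x := (2 * yt L u e a1 a3 P₀ + (WT a1 a3).a₁ * xu L u e P₀ +
          (WT a1 a3).a₃) * tX (xu L u e) (yt L u e a1 a3) P₁)
        (y := π - (2 * yt L u e a1 a3 P₀ + (WT a1 a3).a₁ * xu L u e P₀ +
          (WT a1 a3).a₃) * tX (xu L u e) (yt L u e a1 a3) P₁)
        (by rw [h14]; exact lt_of_le_of_lt hnr h13)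
      rw [add_sub_cancel, h14] at h16
      exact h16
    rw [h15]
    exact hP₁v
  have hTorPt : Tor (idl (A := A) (B := B) (2 ^ (n + 2) * f * a)) L Pt := by
    refine hTor _ _ ?_
    have h11 : ((2 ^ (n + 2) * f * a : ℕ) : ℂ) * Pt = ((a : ℤ) : ℂ) / ((1 : ℕ) : ℂ) * om := by
      rw [hPt]; push_cast; field_simp
    rw [h11, rat_mem hR hL _ one_ne_zero]
    exact ⟨a, by simp⟩
  have hPM : xn L Pt ∈ RF (idl (A := A) (B := B) (2 ^ (n + 2) * f * a)) :=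
    (c2 _ L hLn).2 _ hTorPt hPL
  have hP₀M : xn L P₀ ∈ RF (idl (A := A) (B := B) (f * a)) := by
    refine (c2 _ L hLn).2 _ (hTor _ _ ?_) hP₀L
    have h11 : ((f * a : ℕ) : ℂ) * P₀ = ((a : ℤ) : ℂ) * (f * P₀) := by push_cast; ring
    rw [h11]
    exact hint _ _ hfP₀
  have hxx : ∀ z : ℂ, xu L u e z = (xn L z + 1 / 12 - e) / u ^ 2 := by
    intro z; unfold xu xn; ring
  have h12M : ∀ m' : Ideal (OO A B), (1 / 12 : ℂ) ∈ RF m' := by
    intro m'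
    have h11 : (1 / 12 : ℂ) = ((1 / 12 : ℚ) : ℂ) := by push_cast; ring
    rw [h11]
    exact SubfieldClass.ratCast_mem _ _
  have hx0M : xu L u e P₀ ∈ RF (idl (A := A) (B := B) (f * a)) := by
    rw [hxx]
    exact div_mem (sub_mem (add_mem hP₀M (h12M _)) heM) huM
  have hxPM : xu L u e Pt ∈ RF (idl (A := A) (B := B) (2 ^ (n + 2) * f * a)) := by
    rw [hxx]
    exact div_mem (sub_mem (add_mem hPM (h12M _)) (hle heM)) (hle huM)
  have hπM : π ∈ RF (idl (A := A) (B := B) (2 ^ (n + 2) * f * a)) := by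
    rw [hπ]; exact sub_mem hxPM (hle hx0M)
  have := hG.fin _ (hne _ hfa0)
  have := hG.fin _ (hne _ hm0')
  have hdeg := h5 A B V hC hG (n + 1) (f * a) hfa0 h2fa
  rw [← mul_assoc] at hdeg
  obtain ⟨c, hc1, hc2⟩ := Pool.Agent.NSE.te_BAS (kk A B) ℂ V.ValueGroup V.valuation
    (RF (idl (A := A) (B := B) (f * a))) (RF (idl (A := A) (B := B) (2 ^ (n + 2) * f * a)))
    (3 * 4 ^ (n + 1)) 2 π hle (by positivity) hdeg (by norm_num) hv2
    (h4 A B V hC hT (f * a) hfa0 h2fa) hπM hvπ w hw hvw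
  -- the function
  have hvx0 : V.valuation (xu L u e P₀) ≤ 1 := (Pool.Agent.MUXV.int_X hP₀E).2
  obtain ⟨Pol, hPol⟩ : ∃ Q : ℂ[X], Q = ∑ i : Fin (3 * 4 ^ (n + 1)),
    C ((c i : ℂ)) * (X - C (xu L u e P₀)) ^ (i : ℕ) := ⟨_, rfl⟩
  have hPolI : IntP V Pol := by
    rw [hPol]; exact intP_sum _ _ hc1 hvx0
  have hPolE : ∀ t : ℂ, Pol.eval t =
      ∑ i : Fin (3 * 4 ^ (n + 1)), (c i : ℂ) * (t - xu L u e P₀) ^ (i : ℕ) := by
    intro t
    rw [hPol, eval_finsetSum]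
    refine Finset.sum_congr rfl fun i _ => ?_
    simp
  have hPolw : w = Pol.eval (xu L u e Pt) := by rw [hPolE, ← hπ, ← hc2]
  refine ⟨Pol, hPolI, hPolw, ?_⟩
  intro x s hs hx
  have hsM : ∀ y ∈ RF (idl (A := A) (B := B) (f * a)), s y = y := hs.triv _ hmm hx
  have hsx : s (xu L u e Pt) = xu L u e (emb x * Pt) := by
    rw [hxx, map_div₀, map_sub, map_add, (hs.xn L hLn Pt hTorPt hPL).2, hsM _ (h12M _), hsM _ heM,
      hsM _ huM, ← hxx]
  rw [hPolw, hPolE, hPolE, map_sum]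
  refine Finset.sum_congr rfl fun i _ => ?_
  rw [map_mul, map_pow, map_sub, hsM _ (c i).2, hsx, hsM _ hx0M]

end

end Pool.Agent.N2E
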