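import Pool.Agent.NS.StGN
import Pool.Agent.MUX.N_GJ
import Pool.Agent.MU3.A2Val
import Pool.Agent.MU3.G_G6c

/-!
# N2, block G2N (helper6): THEOREM G in terms of an abstract integrality property `BinP` of the lattice

`BinP V L' S`: the first coefficient of a series, whose integral is a modular point of `ℂ / L'`, is in `V`. `S` is a finite set of
algebraic numbers (the coefficients of a model). Adapted from `NS/G_Gj.lean` and `NS/G_Gth.lean`.
-/

set_option autoImplicit false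

namespace Pool.Agent.N2

open _root_.MU3 Pool.Agent.MU3A Pool.Agent.MU3B Pool.Agent.MU3Q Pool.Agent.MUX Pool.Agent.NS
  Pool.Agent.MUXN Pool.Agent.MuSym Pool.Agent.NSG OnePoint UpperHalfPlane
open scoped MatrixGroups

noncomputable section

/-- integrality of the first coefficient at `V` for the lattice `L'` -/
structure BinP (V : ValuationSubring ℂ) (L' : PeriodPair) (S : Finset ℂ) : Prop where
  alg : ∀ x ∈ S, IsAlgebraic ℚ x
  bin : ∀ (K : Subfield ℂ) [NumberField K], (∀ x ∈ S, x ∈ K) → ∀ N : ℕ, 0 < N →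
    Complex.exp (2 * Real.pi * Complex.I / N) ∈ K → ∀ (Z : ℍ → ℂ) (z : PowerSeries ℂ), QS Z z →
    (∀ n, PowerSeries.coeff n z ∈ K) → PowerSeries.coeff 0 z = 0 →
    (∃ c ∈ K, c ≠ 0 ∧ c ∈ V ∧ ∀ n : ℕ, c * (n * PowerSeries.coeff n z) ∈ V) →
    (∀ γ : SL(2, ℤ), ∃ (C : ℂ) (w : ℕ → ℂ), ∀ τ : ℍ, HasSum (fun n : ℕ => w n *
      Complex.exp (2 * Real.pi * Complex.I * (τ : ℂ) / N) ^ (n + 1)) (Z (γ • τ) - C)) →
    (∀ γ ∈ CongruenceSubgroup.Gamma1 N, ∀ τ : ℍ, Z (γ • τ) - Z τ ∈ L'.lattice) →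
    PowerSeries.coeff 1 z ∈ V

/-- the lattice is `om O` -/
def LatO (A B : ℤ) (L' : PeriodPair) (om : ℂ) : Prop :=
  om ≠ 0 ∧ ∀ z : ℂ, z ∈ L'.lattice ↔ ∃ x : OO A B, z = om * emb x

open Pool.Agent.MUXN.N_GJ Pool.Agent.MU3G in
theorem gen_GJ (h2 : Sg_RET) (h3 : Sg_NFE) {A B : ℤ} (hc : CQ A B) {J : Type} [Fintype J]
    {Ψ : J → OnePoint ℚ → OnePoint ℚ → ℂ} {Θ : J → ℂ → ℂ} {α₁ : J → ℂ} {Om : ℂ} {N' : ℕ}
    (hG : GDatN A B J Ψ Θ α₁ Om N') {V : ValuationSubring ℂ} (hLoc : LocN A B V)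
    {L' : PeriodPair} {S₀ : Finset ℂ} (hB : BinP V L' S₀) (hL : LatO A B L' Om) (r : ℕ)
    (h : Fin r → SL(2, ℤ))
    (hfg : ∀ (ρ : SL(2, ℤ) → ℂ) (_ : ∀ g ∈ CongruenceSubgroup.Gamma1 N',
        ∀ g' ∈ CongruenceSubgroup.Gamma1 N', ρ (g * g') = ρ g + ρ g') (M : AddSubgroup ℂ)
      (_ : ∀ i, ρ (h i) ∈ M), ∀ g ∈ CongruenceSubgroup.Gamma1 N', ρ g ∈ M)
    (w : Fin r → ℂ) (hw : ∀ i, w i ∈ kk A B ∧ w i ∈ V) (y : J → ℂ)
    (hy : ∀ l', ∑ c : J, y c * (Ψ c ∞
      (mob (h l' 0 0) (h l' 0 1) (h l' 1 0) (h l' 1 1) ∞) / Om) = w l') :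
    ∃ y' : J → ℂ, (∀ l', ∑ c : J, y' c * (Ψ c ∞
      (mob (h l' 0 0) (h l' 0 1) (h l' 1 0) (h l' 1 1) ∞) / Om) = w l') ∧
      ∑ c : J, y' c * α₁ c ∈ V := by
  classical
  have hOm0 : Om ≠ 0 := hL.1
  choose α hα using fun j => hG.qexp j
  choose Kα hKα using fun j => (hα j).2.1
  -- generators of the fields of coefficients
  have hgen : ∀ c : J, ∃ S : Finset ℂ, (∀ x ∈ S, IsAlgebraic ℚ x) ∧
      ∀ K' : Subfield ℂ, (∀ x ∈ S, x ∈ K') → Kα c ≤ K' := by
    intro c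
    have := (hKα c).1
    exact gens _
  choose Sg hSg1 hSg2 using hgen
  set Pm : Fin r → J → ℂ := fun l' c => Ψ c ∞
      (mob (h l' 0 0) (h l' 0 1) (h l' 1 0) (h l' 1 1) ∞) / Om with hPm
  have hPmalg : ∀ l' c, IsAlgebraic ℚ (Pm l' c) := fun l' c => hG.alg c _ _
  have hN' : N' ≠ 0 := hG.pos.ne'
  have hζ : IsAlgebraic ℚ (Complex.exp (2 * Real.pi * Complex.I / N')) := by
    have hp := (Complex.isPrimitiveRoot_exp N' hN').pow_eq_one
    have : IsIntegral ℚ (Complex.exp (2 * Real.pi * Complex.I / N')) := by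
      refine ⟨Polynomial.X ^ N' - Polynomial.C 1, Polynomial.monic_X_pow_sub_C 1 hN', ?_⟩
      simp [hp]
    exact this.isAlgebraic
  obtain ⟨K, hKnf, hK⟩ := h3 ((Finset.univ.image fun q : Fin r × J => Pm q.1 q.2) ∪
    Finset.univ.image w ∪ S₀ ∪ {Complex.exp (2 * Real.pi * Complex.I / N')} ∪
    {wC A B} ∪ Finset.univ.biUnion Sg) (by
      intro x hx
      simp only [Finset.mem_union, Finset.mem_image, Finset.mem_univ, true_and,
        Finset.mem_singleton, Finset.mem_biUnion] at hx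
      rcases hx with ((((⟨q, rfl⟩ | ⟨i, rfl⟩) | hx) | rfl) | rfl) | ⟨c, hc'⟩
      · exact hPmalg _ _
      · exact kk_alg hc (hw i).1
      · exact hB.alg x hx
      · exact hζ
      · exact ((wC_int hc).tower_top (A := ℚ)).isAlgebraic
      · exact hSg1 c x hc')
  simp only [Finset.mem_union, Finset.mem_image, Finset.mem_univ, true_and,
    Finset.mem_singleton, Finset.mem_biUnion] at hK
  have hKP : ∀ l' c, Pm l' c ∈ K := fun l' c => hK _ (by
    left; left; left; left; left; exact ⟨(l', c), rfl⟩)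
  have hKw : ∀ i, w i ∈ K := fun i => hK _ (by left; left; left; left; right; exact ⟨i, rfl⟩)
  have hKlam : ∀ x ∈ S₀, x ∈ K := fun x hx => hK _ (by left; left; left; right; exact hx)
  have hKζ : Complex.exp (2 * Real.pi * Complex.I / N') ∈ K := hK _ (by left; left; right; rfl)
  have hKwC : wC A B ∈ K := hK _ (by left; right; rfl)
  have hKS : ∀ c : J, Kα c ≤ K := fun c => hSg2 c K fun x hx => hK x (by right; exact ⟨c, hx⟩)
  have hKemb : ∀ x : OO A B, emb x ∈ K := fun x =>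
    K.add_mem (intCast_mem _ _) (K.mul_mem (intCast_mem _ _) hKwC)
  obtain ⟨y', hy'K, hy'⟩ := h2 K J r (fun c i => Pm i c) w (fun c i => hKP i c) hKw y hy
  obtain ⟨t, ht1, ht⟩ := hLoc (Finset.univ.image w) (by
    intro x hx
    obtain ⟨i, -, rfl⟩ := Finset.mem_image.1 hx
    exact hw i)
  refine ⟨y', hy', ?_⟩
  have hαK : ∀ c : J, ∀ n, α c n ∈ K := fun c n => hKS c ((hKα c).2 n)
  have hαV : ∀ c : J, ∀ n, α c n ∈ V := fun c n =>
    Pool.Agent.MU3A2.mem_of_integral ((hα c).1 n)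
  set Z : ℍ → ℂ := fun τ => emb t * ∑ c : J, y' c * Θ c (τ : ℂ) with hZ
  set z : PowerSeries ℂ := PowerSeries.mk fun n =>
    emb t * ∑ c : J, y' c * (α c n / n) with hz
  have hzn : ∀ n, PowerSeries.coeff n z = emb t * ∑ c : J, y' c * (α c n / n) :=
    fun n => by rw [hz, PowerSeries.coeff_mk]
  have hsmul : ∀ (γ : SL(2, ℤ)) (τ : ℍ), ((γ • τ : ℍ) : ℂ) =
      (((γ 0 0 : ℤ) : ℂ) * τ + ((γ 0 1 : ℤ) : ℂ)) /
          (((γ 1 0 : ℤ) : ℂ) * τ + ((γ 1 1 : ℤ) : ℂ)) := by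
    intro γ τ
    rw [UpperHalfPlane.specialLinearGroup_apply]
    simp
  have hQS : QS Z z := by
    intro τ
    have hs := (hasSum_sum (s := Finset.univ) fun c (_ : c ∈ (Finset.univ : Finset J)) =>
      ((hα c).2.2.2 (τ : ℂ) τ.2).mul_left (y' c)).mul_left (emb t)
    have e2 : (fun n : ℕ => PowerSeries.coeff n z * qq τ ^ n) = fun n : ℕ =>
        emb t * ∑ c : J, y' c * (α c n / n *
          Complex.exp (2 * Real.pi * Complex.I * (τ : ℂ)) ^ n) := by
      funext n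
      rw [hzn n, qq, mul_assoc, Finset.sum_mul]
      congr 1
      refine Finset.sum_congr rfl fun c _ => ?_
      ring
    rw [e2]
    exact hs
  have hcusp : ∀ γ : SL(2, ℤ), ∃ (C : ℂ) (w : ℕ → ℂ), ∀ τ : ℍ, HasSum (fun n : ℕ => w n *
      Complex.exp (2 * Real.pi * Complex.I * (τ : ℂ) / N') ^ (n + 1)) (Z (γ • τ) - C) := by
    intro γ
    choose C W hW using fun c : J => hG.cusp c (γ 0 0) (γ 0 1) (γ 1 0) (γ 1 1)
      (G6c.det_eq γ)
    refine ⟨emb t * ∑ c : J, y' c * C c, fun n => emb t * ∑ c : J, y' c * W c n, ?_⟩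
    intro τ
    have hs := (hasSum_sum (s := Finset.univ) fun c (_ : c ∈ (Finset.univ : Finset J)) =>
      (hW c (τ : ℂ) τ.2).mul_left (y' c)).mul_left (emb t)
    have e1 : (fun n : ℕ => (emb t * ∑ c : J, y' c * W c n) *
        Complex.exp (2 * Real.pi * Complex.I * (τ : ℂ) / N') ^ (n + 1)) = fun n : ℕ =>
        emb t * ∑ c : J, y' c * (W c n *
          Complex.exp (2 * Real.pi * Complex.I * (τ : ℂ) / N') ^ (n + 1)) := by
      funext n
      rw [mul_assoc, Finset.sum_mul]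
      congr 1
      refine Finset.sum_congr rfl fun c _ => ?_
      ring
    have e2 : Z (γ • τ) - emb t * ∑ c : J, y' c * C c = emb t * ∑ c : J, y' c *
        (Θ c ((((γ 0 0 : ℤ) : ℂ) * τ + ((γ 0 1 : ℤ) : ℂ)) /
          (((γ 1 0 : ℤ) : ℂ) * τ + ((γ 1 1 : ℤ) : ℂ))) - C c) := by
      rw [hZ]
      beta_reduce
      rw [← mul_sub, ← Finset.sum_sub_distrib, hsmul]
      congr 1
      refine Finset.sum_congr rfl fun c _ => ?_
      ring
    rw [e1, e2]
    exact hs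
  -- the periods
  set ρ : SL(2, ℤ) → ℂ := fun g => ∑ c : J, y' c * (Ψ c ∞ (G6c.mI g) / Om) with hρ
  have hρadd : ∀ g ∈ CongruenceSubgroup.Gamma1 N', ∀ g' ∈ CongruenceSubgroup.Gamma1 N',
      ρ (g * g') = ρ g + ρ g' := by
    intro g hg g' hg'
    rw [hρ]
    beta_reduce
    rw [← Finset.sum_add_distrib]
    refine Finset.sum_congr rfl fun c _ => ?_
    obtain ⟨m1, m2⟩ := G6c.mem1 hg
    have a1 := hG.add c ∞ (G6c.mI g) (G6c.mI (g * g'))
    have a2 := hG.inv c (g 0 0) (g 0 1) (g 1 0) (g 1 1) (G6c.det_eq g) m1 m2 ∞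
      (G6c.mI g')
    rw [← G6c.mI_mul] at a2
    have a3 : mob (g 0 0) (g 0 1) (g 1 0) (g 1 1) ∞ = G6c.mI g := rfl
    rw [a3] at a2
    rw [← a1, a2]
    ring
  have hM : ∀ g ∈ CongruenceSubgroup.Gamma1 N', ∃ c : OO A B, emb t * ρ g = emb c := by
    let M : AddSubgroup ℂ := AddSubgroup.comap (AddMonoidHom.mulLeft (emb t))
      (AddMonoidHom.range (eHom hc).toAddMonoidHom)
    have hMm : ∀ x, x ∈ M ↔ ∃ c : OO A B, emb t * x = emb c := by
      intro x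
      constructor
      · rintro ⟨c, hc'⟩
        refine ⟨c, ?_⟩
        have e1 : emb t * x = eHom hc c := hc'.symm
        rw [e1, eHom_apply hc]
      · rintro ⟨c, hc'⟩
        refine ⟨c, ?_⟩
        rw [← eHom_apply hc] at hc'
        rw [eHom_apply hc] at hc'
        show (eHom hc) c = emb t * x
        rw [eHom_apply hc, hc']
    intro g hg
    rw [← hMm]
    refine hfg ρ hρadd M (fun i => ?_) g hg
    rw [hMm]
    have e1 : ρ (h i) = w i := hy' i
    rw [e1]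
    exact ht _ (Finset.mem_image_of_mem w (Finset.mem_univ i))
  have hper : ∀ γ ∈ CongruenceSubgroup.Gamma1 N', ∀ τ : ℍ, Z (γ • τ) - Z τ ∈ L'.lattice := by
    intro γ hγ τ
    obtain ⟨m1, m2⟩ := G6c.mem1 hγ
    obtain ⟨x, hx⟩ := hM γ hγ
    rw [hL.2]
    refine ⟨x, ?_⟩
    have e1 : Z (γ • τ) - Z τ = Om * (emb t * ρ γ) := by
      rw [hZ, hρ]
      beta_reduce
      rw [hsmul, ← mul_sub, ← Finset.sum_sub_distrib, mul_left_comm Om (emb t), Finset.mul_sum _ _ Om]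
      congr 1
      refine Finset.sum_congr rfl fun c _ => ?_
      rw [hG.per c (γ 0 0) (γ 0 1) (γ 1 0) (γ 1 1) (G6c.det_eq γ) m1 m2 (τ : ℂ) τ.2]
      have a3 : mob (γ 0 0) (γ 0 1) (γ 1 0) (γ 1 1) ∞ = G6c.mI γ := rfl
      rw [a3]
      field_simp
      ring
    rw [e1, hx]
  -- the denominators
  choose q hqK hq0 hqV hqy using fun c => denom K V (y' c) (hy'K c)
  have hden : ∃ c ∈ K, c ≠ 0 ∧ c ∈ V ∧ ∀ n : ℕ, c * (n * PowerSeries.coeff n z) ∈ V := by
    refine ⟨∏ c, q c, K.prod_mem fun c _ => hqK c, Finset.prod_ne_zero_iff.2 fun c _ => hq0 c,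
      prod_mem fun c _ => hqV c, ?_⟩
    intro m
    by_cases hm : m = 0
    · rw [hm]
      simp
    · have e1 : (∏ c, q c) * (m * PowerSeries.coeff m z) = ∑ c : J,
          (emb t * (∏ c' ∈ Finset.univ.erase c, q c')) * (q c * y' c) * α c m := by
        rw [hzn, mul_left_comm (m : ℂ), Finset.mul_sum, mul_left_comm, Finset.mul_sum,
          Finset.mul_sum]
        refine Finset.sum_congr rfl fun c _ => ?_
        rw [← Finset.mul_prod_erase Finset.univ q (Finset.mem_univ c)]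
        have : (m : ℂ) ≠ 0 := by exact_mod_cast hm
        field_simp
      rw [e1]
      exact sum_mem fun c _ => V.mul_mem _ _ (V.mul_mem _ _ (V.mul_mem _ _ (emb_mem_V hc V t)
        (prod_mem fun c _ => hqV c)) (hqy c)) (hαV c m)
  have hfin := hB.bin K hKlam N' hG.pos hKζ Z z hQS
    (fun m => by
      rw [hzn]
      exact K.mul_mem (hKemb t) (sum_mem fun c _ => K.mul_mem (hy'K c)
        (K.div_mem (hαK c m) (natCast_mem _ _))))
    (by rw [hzn]; simp) hden hcusp hper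
  rw [hzn] at hfin
  have e1 : (∑ c : J, y' c * (α c 1 / (1 : ℕ))) = ∑ c : J, y' c * α₁ c := by
    refine Finset.sum_congr rfl fun c _ => ?_
    rw [(hα c).2.2.1]
    simp
  rw [e1] at hfin
  have ht0 : emb t ≠ 0 := by
    intro h0
    rw [h0, map_zero] at ht1
    exact zero_ne_one ht1
  have ht2 : (emb t)⁻¹ ∈ V := by
    rw [← V.valuation_le_one_iff, map_inv₀, ht1, inv_one]
  have := V.mul_mem _ _ ht2 hfin
  rwa [inv_mul_cancel_left₀ ht0] at this

open Pool.Agent.MU3G in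
theorem gen_GTH (k1 : Sg_RET) (k2 : Sg_NFE) (h2 : Sg_DSC) (h3 : Sg_ZL) (h4 : Sg_FK) (h5 : Sg_FGG)
    {A B : ℤ} (hc : CQ A B) {J' : Type} [Fintype J']
    {Ψ : J' → OnePoint ℚ → OnePoint ℚ → ℂ} {Θ : J' → ℂ → ℂ} {α₁ : J' → ℂ} {Om : ℂ} {N' : ℕ}
    (hG : GDatN A B J' Ψ Θ α₁ Om N') {V : ValuationSubring ℂ} (hLoc : LocN A B V)
    {L' : PeriodPair} {S₀ : Finset ℂ} (hB : BinP V L' S₀) (hL : LatO A B L' Om) (kk' : J' → ℂ)
    (hkk : ∑ j, kk' j * α₁ j ∉ V.nonunits) :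
    ∃ a b c d : ℤ, a * d - b * c = 1 ∧ (N' : ℤ) ∣ c ∧ (N' : ℤ) ∣ d - 1 ∧
      (∑ j, kk' j * Ψ j ∞ (mob a b c d ∞)) / Om ∉ V.nonunits := by
  classical
  by_contra hcon
  push Not at hcon
  have hOm0 : Om ≠ 0 := hL.1
  obtain ⟨r, h, hh, hfg⟩ := h5 N' hG.pos
  set Pm : Fin r → J' → ℂ := fun l' c => Ψ c ∞
      (mob (h l' 0 0) (h l' 0 1) (h l' 1 0) (h l' 1 1) ∞) / Om with hPm
  -- the space of the period vectors
  let T : (J' → ℂ) →ₗ[ℂ] (Fin r → ℂ) :=
    { toFun := fun y l' => ∑ c, y c * Pm l' c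
      map_add' := by
        intro y z
        funext l'
        simp only [Pi.add_apply, add_mul, Finset.sum_add_distrib]
      map_smul' := by
        intro a y
        funext l'
        simp only [Pi.smul_apply, smul_eq_mul, RingHom.id_apply, Finset.mul_sum, mul_assoc] }
  have hT : ∀ y l', T y l' = ∑ c, y c * Pm l' c := fun y l' => rfl
  set X : Submodule ℂ (Fin r → ℂ) := LinearMap.range T with hX
  have hcol : ∀ c : J', (fun l' => Pm l' c) ∈ X := by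
    intro c
    refine ⟨Pi.single c 1, ?_⟩
    funext l'
    rw [hT, Finset.sum_eq_single c]
    · simp
    · intro c' _ hc'
      simp [Pi.single_eq_of_ne hc']
    · intro hc'
      exact absurd (Finset.mem_univ _) hc'
  obtain ⟨hfk, hfk2⟩ := h4 A B hc
  have hst : ∀ σ : ℂ ≃+* ℂ, (∀ a ∈ (kk A B : Set ℂ), σ a = a) → ∀ x ∈ X,
      (fun i => σ (x i)) ∈ X := by
    intro σ hσ x hx
    obtain ⟨y, rfl⟩ := hx
    have hF : FixK A B σ := (hfk σ).2 hσ
    have hcol' : ∀ c : J', (fun l' => σ (Pm l' c)) ∈ X := by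
      intro c
      obtain ⟨j, u, hu⟩ := hG.rat σ hF c
      have e1 : (fun l' => σ (Pm l' c)) = u • (fun l' => Pm l' j) := by
        funext l'
        simp only [Pi.smul_apply, smul_eq_mul, hPm, hu]
      rw [e1]
      exact X.smul_mem _ (hcol _)
    have e3 : (fun i => σ (T y i)) = ∑ c, (σ (y c)) • (fun l' => σ (Pm l' c)) := by
      funext l'
      rw [hT, map_sum, Finset.sum_apply]
      refine Finset.sum_congr rfl fun c _ => ?_
      simp
    rw [e3]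
    exact X.sum_mem fun c _ => X.smul_mem _ (hcol' c)
  obtain ⟨J, ej, hJ, hJX⟩ := h2 (kk A B : Set ℂ)
    (fun x hx => hfk2 x fun σ hσ => hx σ ((hfk σ).1 hσ)) V r X hst
  have hgj : ∀ j : Fin r, j ∈ J → ∃ y' : J' → ℂ, (∀ l', ∑ c, y' c * Pm l' c = ej j l') ∧
      ∑ c : J', y' c * α₁ c ∈ V := by
    intro j hj
    obtain ⟨hX1, hX2, -⟩ := hJ j hj
    obtain ⟨y, hy⟩ := hX1
    exact gen_GJ k1 k2 hc hG hLoc hB hL r h hfg (ej j) hX2 y (fun l' => by rw [← hy]; rfl)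
  choose! y' hy'1 hy'2 using hgj
  -- the vector `x`
  set x : Fin r → ℂ := T kk' with hx
  have hxnu : ∀ l', x l' ∈ V.nonunits := by
    intro l'
    obtain ⟨m1, m2⟩ := G6c.mem1 (hh l')
    have h6 := hcon (h l' 0 0) (h l' 0 1) (h l' 1 0) (h l' 1 1) (G6c.det_eq (h l')) m1 m2
    have e1 : x l' = (∑ j, kk' j * Ψ j ∞ (mob (h l' 0 0) (h l' 0 1) (h l' 1 0) (h l' 1 1) ∞)) /
        Om := by
      rw [hx, hT, Finset.sum_div]
      refine Finset.sum_congr rfl fun c _ => ?_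
      rw [hPm]
      ring
    rw [e1]
    exact h6
  have hxJ : x = ∑ j ∈ J, x j • ej j := hJX x ⟨kk', rfl⟩
  set yp : J' → ℂ := fun c => kk' c - ∑ j ∈ J, x j * y' j c with hyp
  have hyp0 : ∀ l', ∑ c, yp c * Pm l' c = 0 := by
    intro l'
    have e1 : ∑ c, yp c * Pm l' c = x l' - ∑ j ∈ J, x j * ej j l' := by
      have e2 : ∑ j ∈ J, x j * ej j l' = ∑ c, (∑ j ∈ J, x j * y' j c) * Pm l' c := by
        simp_rw [Finset.sum_mul]
        rw [Finset.sum_comm]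
        refine Finset.sum_congr rfl fun j hj => ?_
        rw [← hy'1 j hj l', Finset.mul_sum]
        refine Finset.sum_congr rfl fun c _ => ?_
        ring
      rw [e2, hx, hT, ← Finset.sum_sub_distrib]
      refine Finset.sum_congr rfl fun c _ => ?_
      rw [hyp]
      ring
    have e3 := congrFun hxJ l'
    rw [Finset.sum_apply] at e3
    simp only [Pi.smul_apply, smul_eq_mul] at e3
    rw [e1, ← e3, sub_self]
  -- the form
  choose α hα using fun j => hG.qexp j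
  set Z : ℍ → ℂ := fun τ => ∑ c : J', yp c * Θ c (τ : ℂ) with hZ
  set z : PowerSeries ℂ := PowerSeries.mk fun n => ∑ c : J', yp c * (α c n / n) with hz
  have hzn : ∀ n, PowerSeries.coeff n z = ∑ c : J', yp c * (α c n / n) :=
    fun n => by rw [hz, PowerSeries.coeff_mk]
  have hsmul : ∀ (γ : SL(2, ℤ)) (τ : ℍ), ((γ • τ : ℍ) : ℂ) =
      (((γ 0 0 : ℤ) : ℂ) * τ + ((γ 0 1 : ℤ) : ℂ)) /
          (((γ 1 0 : ℤ) : ℂ) * τ + ((γ 1 1 : ℤ) : ℂ)) := by
    intro γ τ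
    rw [UpperHalfPlane.specialLinearGroup_apply]
    simp
  have hQS : QS Z z := by
    intro τ
    have hs := (hasSum_sum (s := Finset.univ) fun c (_ : c ∈ (Finset.univ : Finset (J'))) =>
      ((hα c).2.2.2 (τ : ℂ) τ.2).mul_left (yp c))
    have e2 : (fun n : ℕ => PowerSeries.coeff n z * qq τ ^ n) = fun n : ℕ =>
        ∑ c : J', yp c * (α c n / n *
          Complex.exp (2 * Real.pi * Complex.I * (τ : ℂ)) ^ n) := by
      funext n
      rw [hzn n, qq, Finset.sum_mul]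
      refine Finset.sum_congr rfl fun c _ => ?_
      ring
    rw [e2]
    exact hs
  have hcusp : ∀ γ : SL(2, ℤ), ∃ (C : ℂ) (w : ℕ → ℂ), ∀ τ : ℍ, HasSum (fun n : ℕ => w n *
      Complex.exp (2 * Real.pi * Complex.I * (τ : ℂ) / N') ^ (n + 1)) (Z (γ • τ) - C) := by
    intro γ
    choose C W hW using fun c : J' => hG.cusp c (γ 0 0) (γ 0 1) (γ 1 0) (γ 1 1)
      (G6c.det_eq γ)
    refine ⟨∑ c : J', yp c * C c, fun n => ∑ c : J', yp c * W c n, ?_⟩
    intro τ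
    have hs := (hasSum_sum (s := Finset.univ) fun c (_ : c ∈ (Finset.univ : Finset (J'))) =>
      (hW c (τ : ℂ) τ.2).mul_left (yp c))
    have e1 : (fun n : ℕ => (∑ c : J', yp c * W c n) *
        Complex.exp (2 * Real.pi * Complex.I * (τ : ℂ) / N') ^ (n + 1)) = fun n : ℕ =>
        ∑ c : J', yp c * (W c n *
          Complex.exp (2 * Real.pi * Complex.I * (τ : ℂ) / N') ^ (n + 1)) := by
      funext n
      rw [Finset.sum_mul]
      refine Finset.sum_congr rfl fun c _ => ?_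
      ring
    have e2 : Z (γ • τ) - ∑ c : J', yp c * C c = ∑ c : J', yp c *
        (Θ c ((((γ 0 0 : ℤ) : ℂ) * τ + ((γ 0 1 : ℤ) : ℂ)) /
          (((γ 1 0 : ℤ) : ℂ) * τ + ((γ 1 1 : ℤ) : ℂ))) - C c) := by
      rw [hZ]
      beta_reduce
      rw [← Finset.sum_sub_distrib, hsmul]
      refine Finset.sum_congr rfl fun c _ => ?_
      ring
    rw [e1, e2]
    exact hs
  -- the periods
  set ρ : SL(2, ℤ) → ℂ := fun g => ∑ c : J', yp c *
    (Ψ c ∞ (G6c.mI g) / Om) with hρ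
  have hρadd : ∀ g ∈ CongruenceSubgroup.Gamma1 N', ∀ g' ∈ CongruenceSubgroup.Gamma1 N',
      ρ (g * g') = ρ g + ρ g' := by
    intro g hg g' hg'
    rw [hρ]
    beta_reduce
    rw [← Finset.sum_add_distrib]
    refine Finset.sum_congr rfl fun c _ => ?_
    obtain ⟨m1, m2⟩ := G6c.mem1 hg
    have a1 := hG.add c ∞ (G6c.mI g) (G6c.mI (g * g'))
    have a2 := hG.inv c (g 0 0) (g 0 1) (g 1 0) (g 1 1) (G6c.det_eq g) m1 m2 ∞
      (G6c.mI g')
    rw [← G6c.mI_mul] at a2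
    have a3 : mob (g 0 0) (g 0 1) (g 1 0) (g 1 1) ∞ = G6c.mI g := rfl
    rw [a3] at a2
    rw [← a1, a2]
    ring
  have hρ0 : ∀ g ∈ CongruenceSubgroup.Gamma1 N', ρ g = 0 := by
    intro g hg
    have := hfg ρ hρadd ⊥ (fun i => by
      rw [AddSubgroup.mem_bot]
      exact hyp0 i) g hg
    rwa [AddSubgroup.mem_bot] at this
  have hper : ∀ γ ∈ CongruenceSubgroup.Gamma1 N', ∀ τ : ℍ, Z (γ • τ) = Z τ := by
    intro γ hγ τ
    obtain ⟨m1, m2⟩ := G6c.mem1 hγ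
    have e1 : Z (γ • τ) - Z τ = Om * ρ γ := by
      rw [hZ, hρ]
      beta_reduce
      rw [hsmul, ← Finset.sum_sub_distrib, Finset.mul_sum _ _ Om]
      refine Finset.sum_congr rfl fun c _ => ?_
      rw [hG.per c (γ 0 0) (γ 0 1) (γ 1 0) (γ 1 1) (G6c.det_eq γ) m1 m2 (τ : ℂ) τ.2]
      have a3 : mob (γ 0 0) (γ 0 1) (γ 1 0) (γ 1 1) ∞ = G6c.mI γ := rfl
      rw [a3]
      field_simp
      ring
    rw [hρ0 γ hγ, mul_zero] at e1
    exact sub_eq_zero.1 e1
  have hz0 : z = 0 := h3 N' hG.pos Z z hQS (by rw [hzn]; simp) hcusp hper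
  have hc1 := hzn 1
  rw [hz0, map_zero] at hc1
  have e1 : (∑ c : J', yp c * (α c 1 / (1 : ℕ))) = ∑ c : J', yp c * α₁ c := by
    refine Finset.sum_congr rfl fun c _ => ?_
    rw [(hα c).2.2.1]
    simp
  have e2 : ∑ c : J', yp c * α₁ c = ∑ j, kk' j * α₁ j - ∑ j ∈ J, x j * ∑ c : J', y' j c * α₁ c := by
    have e4 : ∑ c : J', (∑ j ∈ J, x j * y' j c) * α₁ c =
        ∑ j ∈ J, x j * ∑ c : J', y' j c * α₁ c := by
      simp_rw [Finset.sum_mul, Finset.mul_sum]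
      rw [Finset.sum_comm]
      refine Finset.sum_congr rfl fun j _ => Finset.sum_congr rfl fun c _ => ?_
      ring
    rw [← e4, ← Finset.sum_sub_distrib]
    refine Finset.sum_congr rfl fun c _ => ?_
    rw [hyp]
    ring
  have e5 : ∑ j, kk' j * α₁ j = ∑ j ∈ J, x j * ∑ c : J', y' j c * α₁ c := by
    rw [e1, e2] at hc1
    exact (sub_eq_zero.1 hc1.symm)
  apply hkk
  rw [e5]
  exact sum_mem fun j hj => by
    rw [mul_comm]
    exact Pool.Agent.MU3A2.nonunit_mul (hy'2 j hj) (hxnu j)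

end

end Pool.Agent.N2
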