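import Pool.Agent.MUX.N_BIN
import Pool.Agent.N2.DefsT
import Pool.Agent.N2.G_Gen

/-!
# N2, block G2N (helper6): integrality of a series whose integral is a modular point, curve `y² + a1 x y + a3 y = x³` with good reduction
(from helper76's `MUX/N_BIN.lean`)
-/

set_option autoImplicit false

namespace Pool.Agent.N2

open _root_.MU3 Pool.Agent.MU3A Pool.Agent.MU3B Pool.Agent.MU3Q Pool.Agent.MUX Pool.Agent.NS
  Pool.Agent.MUXN Pool.Agent.MuSym Pool.Agent.NSG OnePoint UpperHalfPlane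
open scoped MatrixGroups

noncomputable section

namespace BinT

open Pool.Agent.MUXN.NBin

/-- the curve over a ring -/
def Wt {O : Type} [CommRing O] (a1 a3 : O) : WeierstrassCurve O := ⟨a1, 0, a3, 0, 0⟩

section Wt

variable {O : Type} [CommRing O] (a1 a3 : O)

theorem Wt_Δ : (Wt a1 a3).Δ = a3 ^ 3 * (a1 ^ 3 - 27 * a3) := by
  simp only [Wt, WeierstrassCurve.Δ, WeierstrassCurve.b₂, WeierstrassCurve.b₄,
    WeierstrassCurve.b₆, WeierstrassCurve.b₈]
  ring

theorem Wt_b₂ : (Wt a1 a3).b₂ = a1 ^ 2 := by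
  simp only [Wt, WeierstrassCurve.b₂]
  ring

theorem Wt_b₄ : (Wt a1 a3).b₄ = a1 * a3 := by
  simp only [Wt, WeierstrassCurve.b₄]
  ring

theorem Wt_b₆ : (Wt a1 a3).b₆ = a3 ^ 2 := by
  simp only [Wt, WeierstrassCurve.b₆]
  ring

theorem pull {ι : O →+* ℂ} (hι : Function.Injective ι) (c : O) (P Q G : PowerSeries O)
    (h : PowerSeries.C (ι c) ^ 2 * (PowerSeries.map ι Q * thetaD (PowerSeries.map ι P) -
        PowerSeries.map ι P * thetaD (PowerSeries.map ι Q)) ^ 2 =
      PowerSeries.map ι Q * (4 * PowerSeries.map ι P ^ 3 +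
        PowerSeries.C (ι a1) ^ 2 * PowerSeries.map ι P ^ 2 * PowerSeries.map ι Q +
        2 * PowerSeries.C (ι a1) * PowerSeries.C (ι a3) * PowerSeries.map ι P *
          PowerSeries.map ι Q ^ 2 + PowerSeries.C (ι a3) ^ 2 * PowerSeries.map ι Q ^ 3) *
        PowerSeries.map ι G ^ 2) :
    PowerSeries.C c ^ 2 * (Q * tth P - P * tth Q) ^ 2 =
      Q * (4 * P ^ 3 + PowerSeries.C (Wt a1 a3).b₂ * P ^ 2 * Q +
        2 * PowerSeries.C (Wt a1 a3).b₄ * P * Q ^ 2 +
        PowerSeries.C (Wt a1 a3).b₆ * Q ^ 3) * G ^ 2 := by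
  apply mapι_inj hι
  rw [Wt_b₂, Wt_b₄, Wt_b₆]
  simp only [map_mul, map_pow, map_sub, map_add, map_tth, map_ofNat, PowerSeries.map_C]
  linear_combination h

end Wt

end BinT

open BinT Pool.Agent.MUXN.NBin in
/-- integrality of a series whose integral is a modular point of a curve `y² + a1 x y + a3 y = x³` with good reduction -/
theorem bin_T (hWQ : St_WQ) (hGP : Sg_GP) (hDV : Sg_DV)
    (V : ValuationSubring ℂ) (h2V : V.valuation (2 : ℂ) < 1) (L : PeriodPair) (e a1 a3 : ℂ)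
    (heq : ∀ z ∉ L.lattice, L.derivWeierstrassP z ^ 2 =
      4 * (L.weierstrassP z - e) ^ 3 + (a1 * (L.weierstrassP z - e) + a3) ^ 2)
    (h1a : IsAlgebraic ℚ a1) (h3a : IsAlgebraic ℚ a3) (v1 : V.valuation a1 ≤ V.valuation (2 : ℂ))
    (v3 : V.valuation a3 = 1) : BinP V L {a1, a3} := by
  refine ⟨?_, ?_⟩
  · intro x hx
    rcases Finset.mem_insert.1 hx with rfl | hx
    · exact h1a
    · rw [Finset.mem_singleton.1 hx]
      exact h3a
  intro K _ hSK N hN hζ Z z hQS hzK hz0 hden hcusp hper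
  have hpV : ((2 : ℕ) : ℂ) ∈ V.nonunits := (ValuationSubring.mem_nonunits_iff _).2 (by
    exact_mod_cast h2V)
  by_cases h1 : PowerSeries.coeff 1 z = 0
  · rw [h1]
    exact V.zero_mem
  have h1K : a1 ∈ K := hSK a1 (by simp)
  have h3K : a3 ∈ K := hSK a3 (by simp)
  have h1V : a1 ∈ V := (V.valuation_le_one_iff _).1 (v1.trans h2V.le)
  have h3V : a3 ∈ V := (V.valuation_le_one_iff _).1 v3.le
  have hDVR := hDV K V 2 Nat.prime_two hpV
  obtain ⟨c, hcK, hc0, hcV, hcz⟩ := hden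
  have h2K : (2 : ℂ) ∈ K := by exact_mod_cast natCast_mem K 2
  have h4K : (4 : ℂ) ∈ K := by exact_mod_cast natCast_mem K 4
  obtain ⟨S, -, -, -, S2, ode, A, hA, B, hB, hA0, hAS⟩ := hWQ K V N L (-e) (a1 ^ 2 / 4)
    (a1 * a3 / 2) (a3 ^ 2 / 4) Z z hN hζ (K.div_mem (K.pow_mem h1K 2) h4K)
    (K.div_mem (K.mul_mem h1K h3K) h2K) (K.div_mem (K.pow_mem h3K 2) h4K) (by
      intro u hu
      rw [heq u hu]
      ring) hzK hz0 h1 hQS hcusp hper
  have hS0 : S ≠ 0 := by
    rintro rfl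
    rw [map_zero] at S2
    exact h1 (pow_eq_zero_iff two_ne_zero |>.1 S2.symm)
  have hB0 : B ≠ 0 := by
    rw [← hAS]
    exact mul_ne_zero hA0 hS0
  have hthS : thetaD S ≠ 0 := by
    intro h
    have h2 := congrArg (PowerSeries.coeff 2) h
    rw [map_zero, thetaD, PowerSeries.coeff_mk, S2] at h2
    have h3 : PowerSeries.coeff 1 z ^ 2 ≠ 0 := pow_ne_zero 2 h1
    rcases mul_eq_zero.1 h2 with h5 | h5
    · norm_num at h5
    · exact h3 h5
  -- the wronskian
  have hW1 : A * thetaD B - B * thetaD A = A ^ 2 * thetaD S := by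
    rw [← hAS, thetaD_mul]
    ring
  have hG : PowerSeries.C c * thetaD z ∈ PP K V := by
    intro n
    rw [PowerSeries.coeff_C_mul, thetaD, PowerSeries.coeff_mk]
    exact ⟨K.mul_mem hcK (K.mul_mem (natCast_mem K n) (hzK n)), hcz n⟩
  have hode : PowerSeries.C c ^ 2 * (B * thetaD A - A * thetaD B) ^ 2 =
      B * (4 * A ^ 3 + PowerSeries.C a1 ^ 2 * A ^ 2 * B +
        2 * PowerSeries.C a1 * PowerSeries.C a3 * A * B ^ 2 + PowerSeries.C a3 ^ 2 * B ^ 3) *
        (PowerSeries.C c * thetaD z) ^ 2 := by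
    have e1 : (B * thetaD A - A * thetaD B) ^ 2 = A ^ 4 * thetaD S ^ 2 := by
      calc (B * thetaD A - A * thetaD B) ^ 2 = (A * thetaD B - B * thetaD A) ^ 2 := by ring
        _ = _ := by rw [hW1]; ring
    have c1 : (4 : PowerSeries ℂ) * PowerSeries.C (a1 ^ 2 / 4 : ℂ) = PowerSeries.C a1 ^ 2 := by
      rw [← map_ofNat (PowerSeries.C : ℂ →+* PowerSeries ℂ) 4, ← map_mul, ← map_pow]
      congr 1
      ring
    have c2 : (4 : PowerSeries ℂ) * PowerSeries.C (a1 * a3 / 2 : ℂ) =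
        2 * PowerSeries.C a1 * PowerSeries.C a3 := by
      rw [← map_ofNat (PowerSeries.C : ℂ →+* PowerSeries ℂ) 4,
        ← map_ofNat (PowerSeries.C : ℂ →+* PowerSeries ℂ) 2, ← map_mul, ← map_mul, ← map_mul]
      congr 1
      ring
    have c3 : (4 : PowerSeries ℂ) * PowerSeries.C (a3 ^ 2 / 4 : ℂ) = PowerSeries.C a3 ^ 2 := by
      rw [← map_ofNat (PowerSeries.C : ℂ →+* PowerSeries ℂ) 4, ← map_mul, ← map_pow]
      congr 1
      ring
    rw [e1, ode, ← hAS, PowerSeries.smul_eq_C_mul, PowerSeries.smul_eq_C_mul,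
      PowerSeries.smul_eq_C_mul]
    linear_combination (PowerSeries.C c ^ 2 * A ^ 4 * S ^ 2 * thetaD z ^ 2) * c1 +
      (PowerSeries.C c ^ 2 * A ^ 4 * S ^ 3 * thetaD z ^ 2) * c2 +
      (PowerSeries.C c ^ 2 * A ^ 4 * S ^ 4 * thetaD z ^ 2) * c3
  -- the ring
  have hu : IsUnit (Wt (el a1 h1K h1V) (el a3 h3K h3V)).Δ := by
    rw [Wt_Δ]
    have h27 : V.valuation (27 : ℂ) = 1 := by
      have hle : V.valuation (26 : ℂ) < 1 := by
        have : (26 : ℂ) = 13 * 2 := by norm_num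
        rw [this, map_mul]
        refine mul_lt_one_of_nonneg_of_lt_one_right ?_ zero_le h2V
        have := Pool.Agent.MU3A2.int_mem (V := V) (13 : ℤ)
        exact (V.valuation_le_one_iff _).2 (by exact_mod_cast this)
      have e1 : (27 : ℂ) = 1 + 26 := by norm_num
      rw [e1, Valuation.map_add_eq_of_lt_left _ (by rw [map_one]; exact hle), map_one]
    have h5 : (a1 ^ 3 - 27 * a3 : ℂ) ∈ K :=
      K.sub_mem (K.pow_mem h1K 3) (K.mul_mem (by exact_mod_cast natCast_mem K 27) h3K)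
    have h6' : V.valuation (a1 ^ 3 - 27 * a3 : ℂ) = 1 := by
      have h8 : V.valuation (27 * a3) = 1 := by rw [map_mul, h27, v3, one_mul]
      rw [Valuation.map_sub_eq_of_lt_right, h8]
      rw [h8, map_pow]
      exact pow_lt_one₀ zero_le (lt_of_le_of_lt v1 h2V) (by norm_num)
    have h6 : (a1 ^ 3 - 27 * a3 : ℂ) ∈ V := (V.valuation_le_one_iff _).1 h6'.le
    have h7 : (el a1 h1K h1V ^ 3 - 27 * el a3 h3K h3V) = el (a1 ^ 3 - 27 * a3) h5 h6 := by
      apply io_inj K V
      rw [io_el, map_sub, map_mul, map_pow, map_ofNat, io_el, io_el]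
    rw [h7]
    exact ((el_unit h3K h3V v3).pow 3).mul (el_unit h5 h6 h6')
  have h20 : (2 : ↥(V.comap K.subtype)) ≠ 0 := by
    intro h
    have := congrArg (io K V) h
    rw [map_ofNat, map_zero] at this
    norm_num at this
  have hdvd := hGP ↥(V.comap K.subtype) h20 (Wt (el a1 h1K h1V) (el a3 h3K h3V)) hu tth
    (fun f n => by rw [tth, PowerSeries.coeff_mk]) (lft A hA)
    (lft B hB) (lft _ hG) (el c hcK hcV) (by
      intro h
      have := congrArg (io K V) h
      rw [io_el, map_zero] at this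
      exact hc0 this) (by
      intro h
      have := congrArg (PowerSeries.map (io K V)) h
      rw [map_lft, map_zero] at this
      exact hB0 this) (by
      intro h
      have := congrArg (PowerSeries.map (io K V)) h
      rw [map_sub, map_mul, map_mul, map_tth, map_tth, map_lft, map_lft, map_zero] at this
      have h8 : A ^ 2 * thetaD S = 0 := by
        rw [← hW1]
        linear_combination -this
      exact mul_ne_zero (pow_ne_zero 2 hA0) hthS h8) (by
      apply BinT.pull _ _ (io_inj K V)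
      rw [map_lft, map_lft, map_lft]
      exact hode)
  obtain ⟨G', hG'⟩ := hdvd
  have h9 := congrArg (PowerSeries.coeff 1) hG'
  rw [PowerSeries.coeff_C_mul] at h9
  have h10 := congrArg (io K V) h9
  rw [map_mul, io_el, lft, PowerSeries.coeff_mk, io_el, PowerSeries.coeff_C_mul, thetaD,
    PowerSeries.coeff_mk, Nat.cast_one, one_mul] at h10
  rw [mul_left_cancel₀ hc0 h10]
  exact io_mem _

end

end Pool.Agent.N2
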