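import Pool.Agent.N2.GS_Rsc
import Pool.Agent.N2.G_BinT

/-!
# N2, block GS (helper6): G+ at `p = 2`: the first coefficient of an odd series whose integral is a modular point of a curve
`y² + a1 x y + a3 y = x³` with `a3` a unit satisfies `v ≥ 1/3`
-/

set_option autoImplicit false

namespace Pool.Agent.N2

open _root_.MU3 Pool.Agent.MU3A Pool.Agent.MU3B Pool.Agent.MU3Q Pool.Agent.MUX Pool.Agent.NS
  Pool.Agent.MUXN Pool.Agent.MuSym Pool.Agent.NSG OnePoint UpperHalfPlane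
open scoped MatrixGroups

noncomputable section

/-- as `BinP`, for odd series, with the stronger conclusion -/
structure BinE (V : ValuationSubring ℂ) (L' : PeriodPair) (S : Finset ℂ) : Prop where
  alg : ∀ x ∈ S, IsAlgebraic ℚ x
  bin : ∀ (K : Subfield ℂ) [NumberField K], (∀ x ∈ S, x ∈ K) → ∀ N : ℕ, 0 < N →
    Complex.exp (2 * Real.pi * Complex.I / N) ∈ K → ∀ (Z : ℍ → ℂ) (z : PowerSeries ℂ), QS Z z →
    (∀ n, PowerSeries.coeff n z ∈ K) → PowerSeries.coeff 0 z = 0 →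
    (∀ n, Even n → PowerSeries.coeff n z = 0) →
    (∃ c ∈ K, c ≠ 0 ∧ c ∈ V ∧ ∀ n : ℕ, c * (n * PowerSeries.coeff n z) ∈ V) →
    (∀ γ : SL(2, ℤ), ∃ (C : ℂ) (w : ℕ → ℂ), ∀ τ : ℍ, HasSum (fun n : ℕ => w n *
      Complex.exp (2 * Real.pi * Complex.I * (τ : ℂ) / N) ^ (n + 1)) (Z (γ • τ) - C)) →
    (∀ γ ∈ CongruenceSubgroup.Gamma1 N, ∀ τ : ℍ, Z (γ • τ) - Z τ ∈ L'.lattice) →
    V.valuation (PowerSeries.coeff 1 z) ^ 3 ≤ V.valuation (2 : ℂ)

namespace GSB

open Pool.Agent.MUXN.NBin PowerSeries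

theorem thetaD_coeff (f : PowerSeries ℂ) (n : ℕ) : coeff n (thetaD f) = n * coeff n f := by
  rw [thetaD, coeff_mk]

theorem thetaD_sub (f g : PowerSeries ℂ) : thetaD (f - g) = thetaD f - thetaD g := by
  ext n
  rw [thetaD_coeff, map_sub, map_sub, thetaD_coeff, thetaD_coeff]
  ring

theorem thetaD_add (f g : PowerSeries ℂ) : thetaD (f + g) = thetaD f + thetaD g := by
  ext n
  rw [thetaD_coeff, map_add, map_add, thetaD_coeff, thetaD_coeff]
  ring

theorem thetaD_Xpow (m : ℕ) (f : PowerSeries ℂ) :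
    thetaD (X ^ m * f) = X ^ m * (m • f + thetaD f) := by
  ext n
  rw [thetaD_coeff, coeff_X_pow_mul', coeff_X_pow_mul']
  split_ifs with h
  · rw [map_add, map_nsmul, thetaD_coeff, nsmul_eq_mul, Nat.cast_sub h]
    ring
  · rw [mul_zero]

theorem thetaD_al (f : PowerSeries ℂ) : thetaD (GSR.al f) = GSR.al (thetaD f) := by
  ext n
  rw [thetaD_coeff, GSR.al_coeff, GSR.al_coeff, thetaD_coeff]
  ring

/-- uniqueness for the differential equation of `1/℘` -/
theorem ode_uniq {z S T : PowerSeries ℂ} {z1 a2 a4 a6 : ℂ} (h1 : z1 ≠ 0) (hz0 : coeff 0 z = 0)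
    (hz1 : coeff 1 z = z1) (S0 : coeff 0 S = 0) (S1 : coeff 1 S = 0) (S2 : coeff 2 S = z1 ^ 2)
    (T0 : coeff 0 T = 0) (T1 : coeff 1 T = 0) (T2 : coeff 2 T = z1 ^ 2)
    (hS : thetaD S ^ 2 = 4 * S * (1 + a2 • S + a4 • S ^ 2 + a6 • S ^ 3) * thetaD z ^ 2)
    (hT : thetaD T ^ 2 = 4 * T * (1 + a2 • T + a4 • T ^ 2 + a6 • T ^ 3) * thetaD z ^ 2) :
    S = T := by
  by_contra hne
  have hD : S - T ≠ 0 := sub_ne_zero.2 hne
  obtain ⟨m, hm⟩ : ∃ m, m = (S - T).order.toNat := ⟨_, rfl⟩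
  have hm1 : coeff m (S - T) ≠ 0 := by
    rw [hm]
    exact coeff_order hD
  obtain ⟨D', hD'⟩ : X ^ m ∣ S - T := by
    rw [hm]
    exact X_pow_order_dvd
  have hD0 : coeff 0 D' ≠ 0 := by
    rw [hD'] at hm1
    have h := coeff_X_pow_mul D' m 0
    rw [zero_add] at h
    rwa [h] at hm1
  obtain ⟨E, hE⟩ : X ^ 2 ∣ thetaD (S + T) := by
    rw [X_pow_dvd_iff]
    intro k hk
    rw [thetaD_coeff, map_add]
    interval_cases k
    · simp
    · rw [S1, T1]
      simp
  have hE0 : coeff 0 E = 4 * z1 ^ 2 := by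
    have h := congrArg (coeff 2) hE
    have h' := coeff_X_pow_mul E 2 0
    rw [zero_add] at h'
    rw [h', thetaD_coeff, map_add, S2, T2] at h
    rw [← h]
    push_cast
    ring
  obtain ⟨w, hw⟩ : X ^ 1 ∣ thetaD z := by
    rw [X_pow_dvd_iff]
    intro k hk
    interval_cases k
    rw [thetaD_coeff, hz0, mul_zero]
  have hw0 : coeff 0 w = z1 := by
    have h := congrArg (coeff 1) hw
    have h' := coeff_X_pow_mul w 1 0
    rw [zero_add] at h'
    rw [h', thetaD_coeff, hz1] at h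
    rw [← h]
    push_cast
    ring
  obtain ⟨U, hU⟩ : ∃ U : PowerSeries ℂ, U = 1 + C a2 * (S + T) + C a4 * (S ^ 2 + S * T + T ^ 2) +
      C a6 * (S ^ 3 + S ^ 2 * T + S * T ^ 2 + T ^ 3) := ⟨_, rfl⟩
  have hU0 : constantCoeff U = 1 := by
    have hs : constantCoeff S = 0 := by rw [← coeff_zero_eq_constantCoeff_apply, S0]
    have ht : constantCoeff T = 0 := by rw [← coeff_zero_eq_constantCoeff_apply, T0]
    rw [hU]
    simp [hs, ht]
  have key : thetaD (S - T) * thetaD (S + T) = 4 * (S - T) * U * thetaD z ^ 2 := by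
    rw [smul_eq_C_mul, smul_eq_C_mul, smul_eq_C_mul] at hS hT
    rw [thetaD_sub, thetaD_add, hU]
    linear_combination hS - hT
  rw [hE, hw, hD', thetaD_Xpow] at key
  have hX : (X ^ (m + 2) : PowerSeries ℂ) ≠ 0 := pow_ne_zero _ X_ne_zero
  have key2 : (m • D' + thetaD D') * E = 4 * D' * U * w ^ 2 := by
    apply mul_left_cancel₀ hX
    linear_combination key
  have h3 := congrArg constantCoeff key2
  rw [map_mul, map_mul, map_mul, map_mul, map_pow, hU0, map_add, map_nsmul] at h3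
  simp only [← coeff_zero_eq_constantCoeff_apply] at h3
  rw [thetaD_coeff, hE0, hw0, nsmul_eq_mul] at h3
  have h4 : coeff 0 (4 : PowerSeries ℂ) = 4 := by
    rw [coeff_zero_eq_constantCoeff_apply, map_ofNat]
  rw [h4] at h3
  have h5 : ((m : ℂ) - 1) * (4 * coeff 0 D' * z1 ^ 2) = 0 := by
    push_cast at h3
    linear_combination h3
  have h6 : (m : ℂ) = 1 := by
    have := (mul_eq_zero.1 h5).resolve_right
      (mul_ne_zero (mul_ne_zero (by norm_num) hD0) (pow_ne_zero 2 h1))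
    exact sub_eq_zero.1 this
  have h7 : m = 1 := by exact_mod_cast h6
  rw [h7, map_sub, S1, T1, sub_self] at hm1
  exact hm1 rfl

/-- evenness -/
theorem ode_even {z S : PowerSeries ℂ} {a2 a4 a6 : ℂ} (h1 : coeff 1 z ≠ 0) (hz0 : coeff 0 z = 0)
    (hz : ∀ n, Even n → coeff n z = 0) (S0 : coeff 0 S = 0) (S1 : coeff 1 S = 0)
    (S2 : coeff 2 S = coeff 1 z ^ 2)
    (hS : thetaD S ^ 2 = 4 * S * (1 + a2 • S + a4 • S ^ 2 + a6 • S ^ 3) * thetaD z ^ 2) :
    GSR.al S = S := by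
  have hal : GSR.al (thetaD z) = -thetaD z := by
    ext n
    rw [GSR.al_coeff, map_neg, thetaD_coeff]
    rcases Nat.even_or_odd n with hn | hn
    · rw [hz n hn]
      simp
    · rw [hn.neg_one_pow]
      ring
  have alC : ∀ (c : ℂ) (f : PowerSeries ℂ), GSR.al (c • f) = c • GSR.al f := by
    intro c f
    rw [smul_eq_C_mul, smul_eq_C_mul, map_mul, GSR.al_C]
  refine ode_uniq (z := z) (z1 := coeff 1 z) (a2 := a2) (a4 := a4) (a6 := a6) h1 hz0 rfl ?_ ?_ ?_
    S0 S1 S2 ?_ hS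
  · rw [GSR.al_coeff, S0, mul_zero]
  · rw [GSR.al_coeff, S1, mul_zero]
  · rw [GSR.al_coeff, S2]
    ring
  · have h := congrArg GSR.al hS
    rw [map_pow, ← thetaD_al] at h
    rw [h, map_mul, map_mul, map_mul, map_add, map_add, map_add, map_one, alC, alC, alC, map_pow,
      map_pow, map_pow, hal, map_ofNat]
    ring

theorem roots3 (F : Type) [Field F] [IsAlgClosed F] [CharZero F] (b c d : F) :
    ∃ e1 e2 e3 : F, e1 + e2 + e3 = -b ∧ e1 * e2 + e1 * e3 + e2 * e3 = c ∧ e1 * e2 * e3 = -d := by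
  obtain ⟨e1, h1⟩ : ∃ e1 : F, e1 ^ 3 + b * e1 ^ 2 + c * e1 + d = 0 := by
    obtain ⟨p, hp⟩ : ∃ p : Polynomial F, p = Polynomial.X ^ 3 + (Polynomial.C b * Polynomial.X ^ 2 +
      Polynomial.C c * Polynomial.X + Polynomial.C d) := ⟨_, rfl⟩
    have hdeg : (Polynomial.C b * Polynomial.X ^ 2 +
      Polynomial.C c * Polynomial.X + Polynomial.C d).degree < 3 := Polynomial.degree_quadratic_lt
    have hp3 : p.degree = 3 := by
      rw [hp, Polynomial.degree_add_eq_left_of_degree_lt (by rw [Polynomial.degree_X_pow]; exact hdeg),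
        Polynomial.degree_X_pow]
      rfl
    obtain ⟨e1, he⟩ := IsAlgClosed.exists_root p (by rw [hp3]; norm_num)
    refine ⟨e1, ?_⟩
    rw [Polynomial.IsRoot.def, hp] at he
    simp at he
    linear_combination he
  obtain ⟨s, hs⟩ : ∃ s, s = -b - e1 := ⟨_, rfl⟩
  obtain ⟨p, hp⟩ : ∃ p, p = c - e1 * s := ⟨_, rfl⟩
  obtain ⟨δ, hδ⟩ := IsAlgClosed.exists_pow_nat_eq (s ^ 2 - 4 * p) (n := 2) (by norm_num)
  have h20 : (2 : F) ≠ 0 := two_ne_zero
  refine ⟨e1, (s + δ) / 2, (s - δ) / 2, ?_, ?_, ?_⟩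
  · field_simp
    linear_combination 2 * hs
  · field_simp
    linear_combination -hδ + 4 * hp
  · field_simp
    linear_combination (-e1) * hδ + 4 * e1 * hp - 4 * e1 ^ 2 * hs + 4 * h1

end GSB

open GSB BinT Pool.Agent.MUXN.NBin in
/-- G+ for the curve `y² + a1 x y + a3 y = x³` -/
theorem bin_E (hWQ : St_WQ) (hDV : Sg_DV)
    (V : ValuationSubring ℂ) (h2V : V.valuation (2 : ℂ) < 1) (L : PeriodPair) (e a1 a3 : ℂ)
    (heq : ∀ z ∉ L.lattice, L.derivWeierstrassP z ^ 2 =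
      4 * (L.weierstrassP z - e) ^ 3 + (a1 * (L.weierstrassP z - e) + a3) ^ 2)
    (h1a : IsAlgebraic ℚ a1) (h3a : IsAlgebraic ℚ a3) (v1 : V.valuation a1 ≤ 1)
    (v3 : V.valuation a3 = 1) : ∃ S : Finset ℂ, BinE V L S := by
  classical
  -- the zeros
  obtain ⟨e1, e2, e3, t1, t2, t3, r1, r2, r3⟩ : ∃ e1 e2 e3 : ℂ, IsAlgebraic ℚ e1 ∧
      IsAlgebraic ℚ e2 ∧ IsAlgebraic ℚ e3 ∧ 4 * (e1 + e2 + e3) = -a1 ^ 2 ∧
      2 * (e1 * e2 + e1 * e3 + e2 * e3) = a1 * a3 ∧ 4 * (e1 * e2 * e3) = -a3 ^ 2 := by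
    have hQ0 : IsAlgClosure ℚ (algebraicClosure ℚ ℂ) :=
      algebraicClosure.isAlgClosure ℚ ℂ
    have hQ : IsAlgClosed (algebraicClosure ℚ ℂ) := IsAlgClosure.isAlgClosed ℚ
    obtain ⟨κ, hκ⟩ : ∃ κ : algebraicClosure ℚ ℂ →+* ℂ, κ = algebraMap (algebraicClosure ℚ ℂ) ℂ :=
      ⟨_, rfl⟩
    obtain ⟨b1, hb1⟩ : ∃ b1 : algebraicClosure ℚ ℂ, κ b1 = a1 :=
      ⟨⟨a1, mem_algebraicClosure_iff.2 h1a⟩, by rw [hκ]; rfl⟩
    obtain ⟨b3, hb3⟩ : ∃ b3 : algebraicClosure ℚ ℂ, κ b3 = a3 :=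
      ⟨⟨a3, mem_algebraicClosure_iff.2 h3a⟩, by rw [hκ]; rfl⟩
    have hκa : ∀ x, IsAlgebraic ℚ (κ x) := fun x => by
      rw [hκ]
      exact mem_algebraicClosure_iff.1 x.2
    obtain ⟨e1, e2, e3, q1, q2, q3⟩ := roots3 (algebraicClosure ℚ ℂ) (b1 ^ 2 / 4) (b1 * b3 / 2)
      (b3 ^ 2 / 4)
    refine ⟨κ e1, κ e2, κ e3, hκa _, hκa _, hκa _, ?_, ?_, ?_⟩
    · have := congrArg κ q1
      simp only [map_add, map_neg, map_div₀, map_pow, map_ofNat, hb1] at this
      linear_combination 4 * this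
    · have := congrArg κ q2
      simp only [map_add, map_mul, map_div₀, map_ofNat, hb1, hb3] at this
      linear_combination 2 * this
    · have := congrArg κ q3
      simp only [map_mul, map_neg, map_div₀, map_pow, map_ofNat, hb3] at this
      linear_combination 4 * this
  refine ⟨{a1, a3, e1, e2, e3}, ?_, ?_⟩
  · intro x hx
    simp only [Finset.mem_insert, Finset.mem_singleton] at hx
    rcases hx with rfl | rfl | rfl | rfl | rfl <;> assumption
  intro K _ hSK N hN hζ Z z hQS hzK hz0 hev hden hcusp hper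
  have hpV : ((2 : ℕ) : ℂ) ∈ V.nonunits := (ValuationSubring.mem_nonunits_iff _).2 (by
    exact_mod_cast h2V)
  by_cases h1 : PowerSeries.coeff 1 z = 0
  · rw [h1, map_zero, zero_pow three_ne_zero]
    exact zero_le
  have h1K : a1 ∈ K := hSK a1 (by simp)
  have h3K : a3 ∈ K := hSK a3 (by simp)
  have he1K : e1 ∈ K := hSK e1 (by simp)
  have he2K : e2 ∈ K := hSK e2 (by simp)
  have he3K : e3 ∈ K := hSK e3 (by simp)
  have h1V : a1 ∈ V := (V.valuation_le_one_iff _).1 v1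
  have h3V : a3 ∈ V := (V.valuation_le_one_iff _).1 v3.le
  have hDVR := hDV K V 2 Nat.prime_two hpV
  obtain ⟨c, hcK, hc0, hcV, hcz⟩ := hden
  have h2K : (2 : ℂ) ∈ K := by exact_mod_cast natCast_mem K 2
  have h4K : (4 : ℂ) ∈ K := by exact_mod_cast natCast_mem K 4
  obtain ⟨S, -, S0, S1, S2, ode, A, hA, B, hB, hA0, hAS⟩ := hWQ K V N L (-e) (a1 ^ 2 / 4)
    (a1 * a3 / 2) (a3 ^ 2 / 4) Z z hN hζ (K.div_mem (K.pow_mem h1K 2) h4K)
    (K.div_mem (K.mul_mem h1K h3K) h2K) (K.div_mem (K.pow_mem h3K 2) h4K) (by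
      intro u hu
      rw [heq u hu]
      ring) hzK hz0 h1 hQS hcusp hper
  have hS0 : S ≠ 0 := by
    rintro rfl
    rw [map_zero] at S2
    exact h1 (pow_eq_zero_iff two_ne_zero |>.1 S2.symm)
  have hB0 : B ≠ 0 := by
    rw [← hAS]
    exact mul_ne_zero hA0 hS0
  have hthS : thetaD S ≠ 0 := by
    intro h
    have h2 := congrArg (PowerSeries.coeff 2) h
    rw [map_zero, thetaD, PowerSeries.coeff_mk, S2] at h2
    have h3 : PowerSeries.coeff 1 z ^ 2 ≠ 0 := pow_ne_zero 2 h1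
    rcases mul_eq_zero.1 h2 with h5 | h5
    · norm_num at h5
    · exact h3 h5
  have hSev : GSR.al S = S := ode_even h1 hz0 hev S0 S1 S2 ode
  have hABal : GSR.al A * B = A * GSR.al B := by
    rw [← hAS, map_mul, hSev]
    ring
  -- the wronskian
  have hW1 : A * thetaD B - B * thetaD A = A ^ 2 * thetaD S := by
    rw [← hAS, thetaD_mul]
    ring
  have hG : PowerSeries.C c * thetaD z ∈ PP K V := by
    intro n
    rw [PowerSeries.coeff_C_mul, thetaD, PowerSeries.coeff_mk]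
    exact ⟨K.mul_mem hcK (K.mul_mem (natCast_mem K n) (hzK n)), hcz n⟩
  have hode : PowerSeries.C c ^ 2 * (B * thetaD A - A * thetaD B) ^ 2 =
      B * (4 * A ^ 3 + PowerSeries.C a1 ^ 2 * A ^ 2 * B +
        2 * PowerSeries.C a1 * PowerSeries.C a3 * A * B ^ 2 + PowerSeries.C a3 ^ 2 * B ^ 3) *
        (PowerSeries.C c * thetaD z) ^ 2 := by
    have e1 : (B * thetaD A - A * thetaD B) ^ 2 = A ^ 4 * thetaD S ^ 2 := by
      calc (B * thetaD A - A * thetaD B) ^ 2 = (A * thetaD B - B * thetaD A) ^ 2 := by ring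
        _ = _ := by rw [hW1]; ring
    have c1 : (4 : PowerSeries ℂ) * PowerSeries.C (a1 ^ 2 / 4 : ℂ) = PowerSeries.C a1 ^ 2 := by
      rw [← map_ofNat (PowerSeries.C : ℂ →+* PowerSeries ℂ) 4, ← map_mul, ← map_pow]
      congr 1
      ring
    have c2 : (4 : PowerSeries ℂ) * PowerSeries.C (a1 * a3 / 2 : ℂ) =
        2 * PowerSeries.C a1 * PowerSeries.C a3 := by
      rw [← map_ofNat (PowerSeries.C : ℂ →+* PowerSeries ℂ) 4,
        ← map_ofNat (PowerSeries.C : ℂ →+* PowerSeries ℂ) 2, ← map_mul, ← map_mul, ← map_mul]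
      congr 1
      ring
    have c3 : (4 : PowerSeries ℂ) * PowerSeries.C (a3 ^ 2 / 4 : ℂ) = PowerSeries.C a3 ^ 2 := by
      rw [← map_ofNat (PowerSeries.C : ℂ →+* PowerSeries ℂ) 4, ← map_mul, ← map_pow]
      congr 1
      ring
    rw [e1, ode, ← hAS, PowerSeries.smul_eq_C_mul, PowerSeries.smul_eq_C_mul,
      PowerSeries.smul_eq_C_mul]
    linear_combination (PowerSeries.C c ^ 2 * A ^ 4 * S ^ 2 * thetaD z ^ 2) * c1 +
      (PowerSeries.C c ^ 2 * A ^ 4 * S ^ 3 * thetaD z ^ 2) * c2 +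
      (PowerSeries.C c ^ 2 * A ^ 4 * S ^ 4 * thetaD z ^ 2) * c3
  -- the denominators of the zeros
  obtain ⟨d1, d1K, d10, d1V, d1e⟩ := N_GJ.denom K V e1 he1K
  obtain ⟨d2, d2K, d20, d2V, d2e⟩ := N_GJ.denom K V e2 he2K
  obtain ⟨d3, d3K, d30, d3V, d3e⟩ := N_GJ.denom K V e3 he3K
  obtain ⟨d, hd⟩ : ∃ d, d = d1 * d2 * d3 := ⟨_, rfl⟩
  have hd0 : d ≠ 0 := by rw [hd]; exact mul_ne_zero (mul_ne_zero d10 d20) d30
  have hdK : d ∈ K := by rw [hd]; exact K.mul_mem (K.mul_mem d1K d2K) d3K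
  have hdV : d ∈ V := by rw [hd]; exact V.mul_mem _ _ (V.mul_mem _ _ d1V d2V) d3V
  have k1 : d * e1 ∈ V := by
    have : d * e1 = d2 * d3 * (d1 * e1) := by rw [hd]; ring
    rw [this]
    exact V.mul_mem _ _ (V.mul_mem _ _ d2V d3V) d1e
  have k2 : d * e2 ∈ V := by
    have : d * e2 = d1 * d3 * (d2 * e2) := by rw [hd]; ring
    rw [this]
    exact V.mul_mem _ _ (V.mul_mem _ _ d1V d3V) d2e
  have k3 : d * e3 ∈ V := by
    have : d * e3 = d1 * d2 * (d3 * e3) := by rw [hd]; ring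
    rw [this]
    exact V.mul_mem _ _ (V.mul_mem _ _ d1V d2V) d3e
  have h20 : (2 : ↥(V.comap K.subtype)) ≠ 0 := by
    intro h
    have := congrArg (io K V) h
    rw [map_ofNat, map_zero] at this
    norm_num at this
  have h2u : ¬ IsUnit (2 : ↥(V.comap K.subtype)) := by
    rintro ⟨w, hw⟩
    have h5 : (w : ↥(V.comap K.subtype)) * ((w⁻¹ : (↥(V.comap K.subtype))ˣ) : ↥(V.comap K.subtype)) = 1 :=
      Units.mul_inv w
    rw [hw] at h5
    have h6 := congrArg (io K V) h5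
    rw [map_mul, map_ofNat, map_one] at h6
    have h7 := congrArg V.valuation h6
    rw [map_mul, map_one] at h7
    have h8 : V.valuation (io K V ((w⁻¹ : (↥(V.comap K.subtype))ˣ) : ↥(V.comap K.subtype))) ≤ 1 :=
      (V.valuation_le_one_iff _).2 (io_mem _)
    have h9 : V.valuation (2 : ℂ) * V.valuation (io K V
        ((w⁻¹ : (↥(V.comap K.subtype))ˣ) : ↥(V.comap K.subtype))) < 1 :=
      lt_of_le_of_lt (mul_le_of_le_one_right' h8) h2V
    rw [h7] at h9
    exact lt_irrefl _ h9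
  have hal_map : ∀ f : PowerSeries ↥(V.comap K.subtype),
      PowerSeries.map (io K V) (GSR.al f) = GSR.al (PowerSeries.map (io K V) f) := by
    intro f
    ext n
    rw [PowerSeries.coeff_map, GSR.al_coeff, GSR.al_coeff, PowerSeries.coeff_map, map_mul, map_pow,
      map_neg, map_one]
  have hthm : ∀ f : PowerSeries ↥(V.comap K.subtype),
      PowerSeries.map (io K V) (GD.th _ f) = thetaD (PowerSeries.map (io K V) f) := by
    intro f
    ext n
    rw [PowerSeries.coeff_map, GD.th_coeff, thetaD_coeff, PowerSeries.coeff_map, map_mul,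
      map_natCast]
  have hdvd := gs_main ↥(V.comap K.subtype) h20 h2u (a1 := el a1 h1K h1V) (a3 := el a3 h3K h3V)
    (d := el d hdK hdV) (e1 := el (d * e1) (K.mul_mem hdK he1K) k1)
    (e2 := el (d * e2) (K.mul_mem hdK he2K) k2) (e3 := el (d * e3) (K.mul_mem hdK he3K) k3)
    (c := el c hcK hcV) (by
      intro h
      have := congrArg (io K V) h
      rw [io_el, map_zero] at this
      exact hd0 this) (el_unit h3K h3V v3) (by
      apply io_inj K V
      simp only [map_mul, map_add, map_neg, map_pow, map_ofNat, io_el]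
      linear_combination d * r1) (by
      apply io_inj K V
      simp only [map_mul, map_add, map_pow, map_ofNat, io_el]
      linear_combination d ^ 2 * r2) (by
      apply io_inj K V
      simp only [map_mul, map_neg, map_pow, map_ofNat, io_el]
      linear_combination d ^ 3 * r3) (by
      intro h
      have := congrArg (io K V) h
      rw [io_el, map_zero] at this
      exact hc0 this) (lft A hA) (lft B hB) (lft _ hG) (by
      intro h
      have := congrArg (PowerSeries.map (io K V)) h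
      rw [map_lft, map_zero] at this
      exact hB0 this) (by
      apply mapι_inj (io_inj K V)
      rw [map_mul, map_mul, hal_map, hal_map, map_lft, map_lft]
      exact hABal) (by
      intro h
      have := congrArg (PowerSeries.map (io K V)) h
      rw [map_sub, map_mul, map_mul, hthm, hthm, map_lft, map_lft, map_zero] at this
      have h8 : A ^ 2 * thetaD S = 0 := by
        rw [← hW1]
        linear_combination -this
      exact mul_ne_zero (pow_ne_zero _ hA0) hthS h8) (by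
      apply mapι_inj (io_inj K V)
      simp only [map_mul, map_pow, map_sub, map_add, map_ofNat, PowerSeries.map_C, hthm, map_lft,
        io_el]
      have h9 : PowerSeries.map (io K V) (lft (PowerSeries.C c * thetaD z) hG) =
        PowerSeries.C c * thetaD z := map_lft hG
      exact hode) 1
  obtain ⟨g', hg'⟩ := hdvd
  have h10 := congrArg (io K V) hg'
  rw [map_pow, map_mul, map_mul, map_pow, map_pow, io_el, map_ofNat, lft, PowerSeries.coeff_mk,
    io_el, PowerSeries.coeff_C_mul, thetaD, PowerSeries.coeff_mk, Nat.cast_one, one_mul] at h10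
  have h11 : PowerSeries.coeff 1 z ^ 6 = 2 ^ 2 * io K V g' := by
    have hc6 : c ^ 6 ≠ 0 := pow_ne_zero _ hc0
    apply mul_left_cancel₀ hc6
    linear_combination h10
  have h12 : (V.valuation (PowerSeries.coeff 1 z) ^ 3) ^ 2 ≤ V.valuation (2 : ℂ) ^ 2 := by
    rw [← pow_mul, ← map_pow, h11, map_mul, map_pow]
    exact mul_le_of_le_one_right' ((V.valuation_le_one_iff _).2 (io_mem _))
  exact le_of_pow_le_pow_left₀ two_ne_zero zero_le h12

end

end Pool.Agent.N2
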