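import Pool.Agent.NS.StGN
import Pool.Agent.MUX.N_QXP
import Pool.Agent.N2.G_GdnQ
import Pool.Agent.N2.GS_Gen

/-!
# N2, block GS (helper6): the `q`-expansion of `thetaIntI`, with the coefficients of even index (`NS/G_Qxn.lean`), and the data `GDatE`
-/

set_option autoImplicit false

namespace Pool.Agent.N2

open _root_.MU3 Pool.Agent.MU3A Pool.Agent.MU3B Pool.Agent.MU3Q Pool.Agent.MUX Pool.Agent.MuSym
  Pool.Agent.MUXN Pool.Agent.NS Pool.Agent.NSG OnePoint UpperHalfPlane
open Pool.Agent.MUXF (Sx_ALG Sx_IDL Sx_QB Sx_BDD Sx_TSM qb)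
open Pool.Agent.MUXY (cqF eiF)
open scoped ComplexConjugate

noncomputable section

open N_QXP in
theorem qx2 (hA : Sx_ALG) (hI : Sx_IDL) (hQB : Sx_QB) (hBD : Sx_BDD) (hTS : Sx_TSM)
    (A B : ℤ) (hc : MUX.CQ A B) (u1 : ∀ x : OO A B, nm x = 1 → x = 1 ∨ x = -1)
    (u2 : ∀ (b : Ideal (OO A B)) (_ : b ≠ ⊥) (x : OO A B), x ∈ b → nm x = MUX.nI b → b = MUX.sp x)
    (n : ℕ) (ι : Type) (R : Reps A B n ι)
    (g : Ideal (OO A B)) (hg : g ≠ ⊥) (e : OO A B → ℂ) (he : IsEI g e) (r : ℕ) (hr : r ≠ 0)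
    (her : ∀ x, e x ≠ 0 → e x ^ r = 1) (i : ι) :
    ∃ α : ℕ → ℂ, (∀ n, IsIntegral ℤ (α n)) ∧
      (∃ K : Subfield ℂ, NumberField K ∧ ∀ n, α n ∈ K) ∧ (i = R.i0 → α 1 = 1) ∧
      (i ≠ R.i0 → α 1 = 0) ∧ (∀ τ : ℂ, 0 < τ.im → HasSum (fun n : ℕ => α n / n *
        Complex.exp (2 * Real.pi * Complex.I * τ) ^ n) (thetaIntI (R.b i) e τ)) ∧
      ∀ m : ℕ, (∀ x : OO A B, nm x = MUX.nI (R.b i) * m → e x = 0) → α m = 0 := by
  classical
  have hb : R.b i ≠ ⊥ := (R.nl i).b_ne
  obtain ⟨a1, a2, a3, a4, -⟩ := hA A B (cqF hc)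
  obtain ⟨q1, -, -⟩ := hQB A B (cqF hc) (R.b i) hb
  have hnb : MUX.nI (R.b i) ≠ 0 := (hI A B (cqF hc) (R.b i) hb).1
  have hnbC : ((MUX.nI (R.b i) : ℕ) : ℂ) ≠ 0 := by exact_mod_cast hnb
  obtain ⟨hfin, C, hC0, hC⟩ := hBD A B (cqF hc) g e hg (eiF he)
  set b : Ideal (OO A B) := R.b i with hbdef
  set S : ℕ → Finset b := fun m => (fin_fib hc hQB b hb m).toFinset with hSdef
  have hS : ∀ (m : ℕ) (x : b), x ∈ S m ↔ (qb b (x : OO A B)).toNat = m := by
    intro m x
    rw [hSdef]
    simp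
  set t : b → ℂ := fun x => e x * conj (emb (x : OO A B)) with htdef
  have hconj : ∀ x : OO A B, conj (emb x) = emb (star x) := fun x => ((a2 x).2.2.2.2.2.1).symm
  have hnmneg : ∀ x : OO A B, nm (-x) = nm x := by
    intro x
    unfold nm
    have h1 : (-x).im = -x.im := rfl
    have h2 : (-x).re = -x.re := rfl
    rw [h1, h2]
    ring
  have hembneg : ∀ x : OO A B, emb (-x) = -emb x := by
    intro x
    rw [← N_GJ.eHom_apply hc, ← N_GJ.eHom_apply hc, map_neg]
  have heneg : ∀ x : OO A B, e (-x) = -e x := by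
    intro x
    have h1 := he.mul (-1) x
    rw [neg_one_mul, he.neg, neg_one_mul] at h1
    exact h1
  have htneg : ∀ x : b, t (-x) = t x := by
    intro x
    show e (-(x : OO A B)) * conj (emb (-(x : OO A B))) = e x * conj (emb (x : OO A B))
    rw [heneg, hembneg, map_neg, neg_mul_neg]
  have hqbneg : ∀ x : OO A B, qb b (-x) = qb b x := by
    intro x
    unfold qb
    rw [hnmneg]
  have hSneg : ∀ m, ∀ x ∈ S m, -x ∈ S m := by
    intro m x hx
    rw [hS] at hx ⊢
    show (qb b (-(x : OO A B))).toNat = m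
    rw [hqbneg, hx]
  have hqb0 : qb b (0 : OO A B) = 0 := by
    unfold qb nm
    simp
  have hS0 : ∀ m, m ≠ 0 → (0 : b) ∉ S m := by
    intro m hm h
    rw [hS] at h
    apply hm
    rw [← h]
    show (qb b (0 : OO A B)).toNat = 0
    rw [hqb0]
    rfl
  have hnmS : ∀ (m : ℕ) (x : b), x ∈ S m → nm (x : OO A B) = MUX.nI b * m := by
    intro m x hx
    rw [hS] at hx
    obtain ⟨h2, h3⟩ := q1 x x.2
    have h4 : qb b (x : OO A B) = m := by omega
    rw [h2, h4]
    rfl
  have hS00 : ∀ x ∈ S 0, t x = 0 := by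
    intro x hx
    have h1 := hnmS 0 x hx
    have h2 : (x : OO A B) = 0 := (a2 x).2.1.1 (by rw [h1]; simp)
    rw [htdef]
    beta_reduce
    rw [h2, (a2 0).1.2 rfl]
    simp
  set α : ℕ → ℂ := fun m => (1 / 2) * ∑ x ∈ S m, t x with hαdef
  have hα0 : α 0 = 0 := by
    rw [hαdef]
    beta_reduce
    rw [Finset.sum_eq_zero hS00, mul_zero]
  have hαn : ∀ m, m ≠ 0 → α m = ∑ x ∈ (S m).filter (fun x : b => PH (x : OO A B)), t x := by
    intro m hm
    rw [hαdef]
    beta_reduce
    rw [half_sum (S m) (hSneg m) (hS0 m hm) t htneg]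
    ring
  have htint : ∀ x : b, IsIntegral ℤ (t x) := by
    intro x
    show IsIntegral ℤ (e x * conj (emb (x : OO A B)))
    rw [hconj]
    refine IsIntegral.mul ?_ (emb_int hc _)
    by_cases h : e x = 0
    · rw [h]
      exact isIntegral_zero
    · exact IsIntegral.of_pow (n := r) (Nat.pos_of_ne_zero hr)
        (by rw [her x h]; exact isIntegral_one)
  refine ⟨α, ?_, ?_, ?_, ?_, ?_, ?_⟩
  rotate_right
  · intro m hm
    show (1 / 2) * ∑ x ∈ S m, t x = 0
    rw [Finset.sum_eq_zero fun x hx => ?_, mul_zero]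
    show e x * conj (emb (x : OO A B)) = 0
    rw [hm x (hnmS m x hx), zero_mul]
  · intro m
    by_cases hm : m = 0
    · rw [hm, hα0]
      exact isIntegral_zero
    · rw [hαn m hm]
      exact IsIntegral.sum _ fun x _ => htint x
  · have hfin2 : (Set.range e ∪ {wC A B}).Finite := hfin.union (Set.finite_singleton _)
    have hfin3 : Finite ↑(Set.range e ∪ {wC A B}) := hfin2
    set K : IntermediateField ℚ ℂ := IntermediateField.adjoin ℚ (Set.range e ∪ {wC A B}) with hK
    have hKfd : FiniteDimensional ℚ K := by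
      apply IntermediateField.finiteDimensional_adjoin
      rintro x (⟨y, rfl⟩ | hx)
      · by_cases h : e y = 0
        · rw [h]
          exact isIntegral_zero
        · exact IsIntegral.of_pow (n := r) (Nat.pos_of_ne_zero hr)
            (by rw [her y h]; exact isIntegral_one)
      · rw [Set.mem_singleton_iff] at hx
        rw [hx]
        exact (N_GJ.wC_int hc).tower_top
    have hKe : ∀ x, e x ∈ K := fun x =>
      IntermediateField.subset_adjoin ℚ _ (Or.inl ⟨x, rfl⟩)
    have hKw : wC A B ∈ K := IntermediateField.subset_adjoin ℚ _ (Or.inr rfl)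
    have hKemb : ∀ x : OO A B, emb x ∈ K := fun x =>
      add_mem (intCast_mem _ _) (mul_mem (intCast_mem _ _) hKw)
    refine ⟨K.toSubfield, ?_, ?_⟩
    · have h4 : NumberField K := ⟨⟩
      exact h4
    · intro m
      show α m ∈ K
      refine mul_mem (div_mem (one_mem _) (ofNat_mem K 2)) (sum_mem fun x _ => ?_)
      show e x * conj (emb (x : OO A B)) ∈ K
      rw [hconj]
      exact mul_mem (hKe _) (hKemb _)
  · intro hi
    have hbt : b = ⊤ := by rw [hbdef, hi, R.b0]
    have hn1 : MUX.nI b = 1 := by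
      rw [hbt]
      unfold MUX.nI
      exact Nat.card_unique
    have h1mem : (1 : OO A B) ∈ b := by rw [hbt]; trivial
    rw [hαn 1 one_ne_zero]
    have hfil : (S 1).filter (fun x : b => PH (x : OO A B)) = {⟨1, h1mem⟩} := by
      ext x
      rw [Finset.mem_filter, Finset.mem_singleton]
      constructor
      · rintro ⟨h1, h2⟩
        have h3 := hnmS 1 x h1
        rw [hn1] at h3
        rcases u1 x (by rw [h3]; norm_num) with h4 | h4
        · exact Subtype.ext h4
        · exfalso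
          rw [h4] at h2
          have h5 : (-1 : OO A B).im = 0 := neg_zero
          have h6 : (-1 : OO A B).re = -1 := rfl
          unfold PH at h2
          rw [h5, h6] at h2
          omega
      · intro h
        rw [h]
        constructor
        · rw [hS]
          show (qb b (1 : OO A B)).toNat = 1
          have h3 := (q1 1 h1mem).1
          have h4 : (MUX.nI b : ℤ) = 1 := by rw [hn1]; rfl
          have h5 : nm (1 : OO A B) = 1 := by
            unfold nm
            rw [QuadraticAlgebra.re_one, QuadraticAlgebra.im_one]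
            ring
          have h6 : nm (1 : OO A B) = (MUX.nI b : ℤ) * qb b (1 : OO A B) := h3
          rw [h4, h5, one_mul] at h6
          rw [← h6]
          rfl
        · unfold PH
          right
          exact ⟨QuadraticAlgebra.im_one, by
            show (0 : ℤ) < (1 : OO A B).re
            rw [QuadraticAlgebra.re_one]
            exact one_pos⟩
    rw [hfil, Finset.sum_singleton]
    show e 1 * conj (emb (1 : OO A B)) = 1
    rw [he.one, ← N_GJ.eHom_apply hc, map_one, map_one, one_mul]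
  · intro hi
    have hS1 : S 1 = ∅ := by
      apply Finset.eq_empty_of_forall_notMem
      intro x hx
      have h1 := hnmS 1 x hx
      rw [Nat.cast_one, mul_one] at h1
      have h2 := u2 b hb x x.2 h1
      apply hi
      have hx0 : (x : OO A B) ≠ 0 := by
        intro h0
        rw [h0] at h1
        have h3 : nm (0 : OO A B) = 0 := by
          unfold nm
          simp
        rw [h3] at h1
        exact hnb (by exact_mod_cast h1.symm)
      have hone : (1 : OO A B) ≠ 0 := by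
        intro h0
        apply hx0
        rw [← mul_one (x : OO A B), h0, mul_zero]
      refine R.inj i R.i0 1 x hone hx0 ?_
      rw [R.b0]
      show sp (1 : OO A B) * b = sp (x : OO A B) * ⊤
      rw [← h2, Ideal.mul_top]
      show Ideal.span {(1 : OO A B)} * b = b
      rw [Ideal.span_singleton_one, Ideal.top_mul]
    show (1 / 2) * ∑ x ∈ S 1, t x = 0
    rw [hS1, Finset.sum_empty, mul_zero]
  · intro τ hτ
    have hsum := hTS A B (cqF hc) b hb e C hC τ hτ
    have hq : ∀ x : b, ((nm (x : OO A B) : ℤ) : ℂ) / ((MUX.nI b : ℕ) : ℂ) =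
        ((qb b (x : OO A B) : ℤ) : ℂ) := by
      intro x
      have h1 : nm (x : OO A B) = (MUX.nI b : ℤ) * qb b (x : OO A B) := (q1 x x.2).1
      rw [h1]
      push_cast
      field_simp
    set f : b → ℂ := fun x => e x * conj (emb (x : OO A B)) /
      (((nm (x : OO A B) : ℤ) : ℂ) / ((MUX.nI b : ℕ) : ℂ)) *
        Complex.exp (2 * Real.pi * Complex.I *
          (((nm (x : OO A B) : ℤ) : ℂ) / ((MUX.nI b : ℕ) : ℂ)) * τ) with hf
    have hfs : Summable f := by
      refine Summable.of_norm_bounded hsum.norm fun x => ?_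
      rw [hf]
      beta_reduce
      show _ ≤ ‖e x * conj (emb (x : OO A B)) * Complex.exp (2 * Real.pi * Complex.I *
          (((nm (x : OO A B) : ℤ) : ℂ) / ((MUX.nI b : ℕ) : ℂ)) * τ)‖
      rw [hq x, norm_mul, norm_mul (e x * conj (emb (x : OO A B))), norm_div]
      refine mul_le_mul_of_nonneg_right ?_ (norm_nonneg _)
      by_cases h0 : qb b (x : OO A B) = 0
      · rw [h0, Int.cast_zero, norm_zero, div_zero]
        exact norm_nonneg _
      · have h1 : 1 ≤ qb b (x : OO A B) := by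
          have := (q1 x x.2).2
          omega
        have h2 : (1 : ℝ) ≤ ‖((qb b (x : OO A B) : ℤ) : ℂ)‖ := by
          rw [Complex.norm_intCast]
          have h3 : (1 : ℝ) ≤ ((qb b (x : OO A B) : ℤ) : ℝ) := by exact_mod_cast h1
          exact h3.trans (le_abs_self _)
        exact div_le_self (norm_nonneg _) h2
    have hfib := hfs.hasSum.tsum_fiberwise (fun x : b => (qb b (x : OO A B)).toNat)
    have hfib2 := hfib.mul_left (1 / 2 : ℂ)
    have e1 : (fun m : ℕ => α m / m * Complex.exp (2 * Real.pi * Complex.I * τ) ^ m) =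
        fun m : ℕ => (1 / 2 : ℂ) * ∑' x : (fun x : b => (qb b (x : OO A B)).toNat) ⁻¹' {m},
          f x := by
      funext m
      have h1 : (fun x : b => (qb b (x : OO A B)).toNat) ⁻¹' {m} = ((S m : Finset b) : Set b) := by
        ext x
        rw [Finset.mem_coe, hS]
        rfl
      rw [h1, Finset.tsum_subtype' (S m) f, hαdef]
      beta_reduce
      rw [mul_div_assoc, mul_assoc]
      congr 1
      rw [div_mul_eq_mul_div, Finset.sum_mul, Finset.sum_div]
      refine Finset.sum_congr rfl fun x hx => ?_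
      have h2 : ((qb b (x : OO A B) : ℤ) : ℂ) = (m : ℂ) := by
        rw [hS] at hx
        have h3 := (q1 x x.2).2
        have h4 : qb b (x : OO A B) = m := by omega
        rw [h4]
        simp
      rw [hf, htdef]
      beta_reduce
      rw [hq x, h2, ← Complex.exp_nat_mul]
      rw [show 2 * (Real.pi : ℂ) * Complex.I * (m : ℂ) * τ =
        (m : ℂ) * (2 * Real.pi * Complex.I * τ) by ring]
      ring
    rw [e1]
    exact hfib2

/-- the norm of an element prime to an even number is odd -/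
theorem nm_odd {A B : ℤ} {n : ℕ} (hn : 2 ∣ n) {x : OO A B}
    (hx : IsCoprime (MUX.sp x) (idl (A := A) (B := B) n)) : ¬ (2 : ℤ) ∣ nm x := by
  rintro ⟨k, hk⟩
  obtain ⟨m, rfl⟩ := hn
  rw [Ideal.isCoprime_iff_exists] at hx
  obtain ⟨i, hi, j, hj, hij⟩ := hx
  rw [MUX.sp, Ideal.mem_span_singleton] at hi
  rw [Ideal.mem_span_singleton] at hj
  obtain ⟨y, rfl⟩ := hi
  obtain ⟨z, rfl⟩ := hj
  have hmul : ∀ x y : OO A B, nm (x * y) = nm x * nm y := by
    intro x y
    unfold nm
    rw [QuadraticAlgebra.re_mul, QuadraticAlgebra.im_mul]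
    ring
  have h1 : x * y = 1 - 2 * (((m : ℕ) : OO A B) * z) := by
    rw [← hij]
    push_cast
    ring
  obtain ⟨w, hw⟩ : ∃ w, w = ((m : ℕ) : OO A B) * z := ⟨_, rfl⟩
  rw [← hw] at h1
  have h2 : nm (x * y) = 1 - 4 * w.re - 2 * B * w.im + 4 * nm w := by
    have h3 : x * y = 1 - (w + w) := by rw [h1]; ring
    have e1 : (x * y).re = 1 - 2 * w.re := by
      rw [h3, QuadraticAlgebra.re_sub, QuadraticAlgebra.re_add, QuadraticAlgebra.re_one]
      ring
    have e2 : (x * y).im = -2 * w.im := by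
      rw [h3, QuadraticAlgebra.im_sub, QuadraticAlgebra.im_add, QuadraticAlgebra.im_one]
      ring
    unfold nm
    rw [e1, e2]
    ring
  rw [hmul, hk] at h2
  have h3 : (2 : ℤ) ∣ 1 := ⟨k * nm y + 2 * w.re + B * w.im - 2 * nm w, by linear_combination -h2⟩
  norm_num at h3

variable {A B : ℤ} {n : ℕ} {ι : Type} (q : ℕ)

open MUXY in
/-- the data for Theorem G+, for `g = (n)`, `n` even -/
theorem gdatE {q : ℕ} (hq : 0 < q) (h2 : MUXT.Xs_FTI) (h3 : MUXF.Sx_CHI) (h4 : Sy_CON) (h5 : Sy_ALP)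
    (h7 : Sy_FEC) (h8 : Sy_COP) (hA : MUXF.Sx_ALG) (hI : MUXF.Sx_IDL) (hQB : MUXF.Sx_QB)
    (hBD : MUXF.Sx_BDD) (hTS : MUXF.Sx_TSM) (hQ : MUX.CQ A B)
    (u1 : ∀ x : OO A B, nm x = 1 → x = 1 ∨ x = -1)
    (u2 : ∀ (b : Ideal (OO A B)) (_ : b ≠ ⊥) (x : OO A B), x ∈ b → nm x = MUX.nI b → b = MUX.sp x)
    (hT : TorX A B) [hι : Finite ι] (hn : 2 ≤ n) (hn2 : 2 ∣ n) (R : Reps A B n ι) (e : OO A B → ℂ)
    (he : IsEI (idl n) e) (r : ℕ) (hr : r ≠ 0) (her : ∀ x, e x ≠ 0 → e x ^ r = 1) (u : ℂ)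
    (hu : u ≠ 0) (hua : IsAlgebraic ℚ u) (N' : ℕ) (hN : N' ≠ 0)
    (hNd : absD A B * (n : ℤ) ^ 2 ∣ (N' : ℤ)) :
    GDatE A B (ι × EC e × Fin q) (PsQ q R e) (ThQ q R e) (a1Q q R e) (u * R.om R.i0)
      (q ^ 2 * N') := by
  classical
  refine
    { toGDatN := gdatQ hq h2 h3 h4 h5 h7 h8 hA hI hQB hBD hTS hQ u1 u2 hT hn R e he r hr her u hu
        hua N' hN hNd
      qe := ?_ }
  have hn0 : n ≠ 0 := by omega
  set g : Ideal (OO A B) := idl n with hg
  have hpf : ((n : ℕ) : OO A B) ∈ g := Ideal.mem_span_singleton_self _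
  have hgb : g ≠ ⊥ := by
    intro h
    rw [h, Ideal.mem_bot] at hpf
    exact Gdt.nat_ne _ hn0 hpf
  have hEI : ∀ e' ∈ EC e, IsEI g e' := by
    rintro e' ⟨σ, rfl⟩
    exact Gdt.ei_conj he σ
  have hEr : ∀ e' ∈ EC e, ∀ x, e' x ≠ 0 → e' x ^ r = 1 := by
    rintro e' ⟨σ, rfl⟩ x hx
    show σ (e x) ^ r = 1
    have hx' : e x ≠ 0 := by
      intro h0
      apply hx
      show σ (e x) = 0
      rw [h0, map_zero]
    rw [← map_pow, her x hx', map_one]
  rintro ⟨i, ⟨e', he'⟩, t⟩
  obtain ⟨α, hα1, ⟨K, hK1, hK2⟩, hα3, hα4, hα5, hα6⟩ :=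
    qx2 hA hI hQB hBD hTS A B hQ u1 u2 n ι R g hgb e' (hEI e' he') r hr (hEr e' he') i
  refine ⟨fun m => α m * zq q ^ ((t : ℕ) * m), ?_, ?_, ?_, ?_, ?_⟩
  · intro m
    exact (hα1 m).mul ((zq_int hq.ne').pow _)
  · set K1 : IntermediateField ℚ ℂ := K.toIntermediateField fun x => by
      have : (algebraMap ℚ ℂ x) = (x : ℂ) := rfl
      rw [this]
      exact SubfieldClass.ratCast_mem K x
    set K2 : IntermediateField ℚ ℂ := IntermediateField.adjoin ℚ {zq q}
    have hf1 : FiniteDimensional ℚ K1 := hK1.to_finiteDimensional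
    have hf2 : FiniteDimensional ℚ K2 :=
      IntermediateField.adjoin.finiteDimensional (zq_int hq.ne').tower_top
    have hf3 : FiniteDimensional ℚ ↥(K1 ⊔ K2) := IntermediateField.finiteDimensional_sup K1 K2
    refine ⟨(K1 ⊔ K2).toSubfield, ?_, fun m => ?_⟩
    · have h4 : NumberField ↥(K1 ⊔ K2) := ⟨⟩
      exact h4
    · show α m * zq q ^ ((t : ℕ) * m) ∈ K1 ⊔ K2
      have m1 : α m ∈ K1 ⊔ K2 := (le_sup_left : K1 ≤ K1 ⊔ K2) (hK2 m)
      have m2 : zq q ∈ K1 ⊔ K2 := (le_sup_right : K2 ≤ K1 ⊔ K2)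
        (IntermediateField.mem_adjoin_simple_self ℚ (zq q))
      exact mul_mem m1 (pow_mem m2 _)
  · show α 1 * zq q ^ ((t : ℕ) * 1) = if i = R.i0 then zq q ^ (t : ℕ) else 0
    rw [mul_one]
    split_ifs with hi
    · rw [hα3 hi, one_mul]
    · rw [hα4 hi, zero_mul]
  · intro τ hτ
    have him : 0 < (τ + (((t : ℕ) : ℤ) : ℂ) / q).im := by
      have : ((((t : ℕ) : ℤ) : ℂ) / q).im = 0 := by
        have : ((((t : ℕ) : ℤ) : ℂ) / q) = (((t : ℕ) / q : ℝ) : ℂ) := by push_cast; ring
        rw [this]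
        exact Complex.ofReal_im _
      rw [Complex.add_im, this, add_zero]
      exact hτ
    have h9 := hα5 _ him
    show HasSum _ (thetaIntI (R.b i) e' (τ + (((t : ℕ) : ℤ) : ℂ) / q))
    have e1 : (fun m : ℕ => α m / m * Complex.exp (2 * Real.pi * Complex.I *
        (τ + (((t : ℕ) : ℤ) : ℂ) / q)) ^ m) = fun m : ℕ => α m * zq q ^ ((t : ℕ) * m) / m *
        Complex.exp (2 * Real.pi * Complex.I * τ) ^ m := by
      funext m
      have e2 : Complex.exp (2 * Real.pi * Complex.I * (τ + (((t : ℕ) : ℤ) : ℂ) / q)) =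
          zq q ^ (t : ℕ) * Complex.exp (2 * Real.pi * Complex.I * τ) := by
        unfold zq
        rw [← Complex.exp_nat_mul, ← Complex.exp_add]
        congr 1
        push_cast
        ring
      rw [e2, mul_pow, ← pow_mul]
      ring
    rw [e1] at h9
    exact h9
  · intro m hm
    have h9 : α m = 0 := by
      apply hα6
      intro x hx
      by_contra h10
      refine nm_odd hn2 (((hEI e' he').supp x).1 h10) ?_
      rw [hx]
      obtain ⟨k, hk⟩ := hm
      exact Dvd.dvd.mul_left ⟨(k : ℤ), by rw [hk]; push_cast; ring⟩ _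
    show α m * zq q ^ ((t : ℕ) * m) = 0
    rw [h9, zero_mul]

end

end Pool.Agent.N2
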