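import Mathlib

/-!
# N2, block GS (helper6): the estimate G+ at `p = 2`, abstract form (after helper83)

`X` a series in `q²`, so `v (θ X) ≤ v 2 v (X - e_i)`; `(θ X)² c² = 4 (X - e₁) (X - e₂) (X - e₃) G²`, where the `e_i` are the zeros of
`4 x³ + (a₁ x + a₃)²`, `v a₁ ≤ 1`, `v a₃ = 1`. Then `v (G/c)² ≤ 1/max v e_i`, so `v (G/c)³ ≤ v 2`.
-/

set_option autoImplicit false

namespace Pool.Agent.N2

namespace GSV

variable {E Γ : Type} [Field E] [LinearOrderedCommGroupWithZero Γ] (v : Valuation E Γ)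

/-- one factor -/
theorem stepC {X e1 e2 e3 dX G c : E} (h20 : v (2 : E) ≠ 0)
    (hX2 : v dX ≤ v 2 * v (X - e2)) (hX3 : v dX ≤ v 2 * v (X - e3))
    (ode : c ^ 2 * dX ^ 2 = 4 * ((X - e1) * (X - e2) * (X - e3)) * G ^ 2)
    (n2 : v (X - e2) ≠ 0) (n3 : v (X - e3) ≠ 0) : v G ^ 2 * v (X - e1) ≤ v c ^ 2 := by
  have h1 := congrArg v ode
  rw [map_mul, map_mul, map_mul, map_mul, map_mul, map_pow, map_pow, map_pow,
    show (4 : E) = 2 ^ 2 by norm_num, map_pow] at h1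
  have h2 : v dX ^ 2 ≤ v (2 : E) ^ 2 * (v (X - e2) * v (X - e3)) := by
    calc v dX ^ 2 = v dX * v dX := pow_two _
      _ ≤ (v 2 * v (X - e2)) * (v 2 * v (X - e3)) := mul_le_mul' hX2 hX3
      _ = _ := by rw [pow_two]; ac_rfl
  have hpos : (0 : Γ) < v (2 : E) ^ 2 * (v (X - e2) * v (X - e3)) :=
    zero_lt_iff.2 (mul_ne_zero (pow_ne_zero _ h20) (mul_ne_zero n2 n3))
  have h3 : (v G ^ 2 * v (X - e1)) * (v (2 : E) ^ 2 * (v (X - e2) * v (X - e3))) ≤
      v c ^ 2 * (v (2 : E) ^ 2 * (v (X - e2) * v (X - e3))) := by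
    calc (v G ^ 2 * v (X - e1)) * (v (2 : E) ^ 2 * (v (X - e2) * v (X - e3)))
        = v (2 : E) ^ 2 * (v (X - e1) * v (X - e2) * v (X - e3)) * v G ^ 2 := by ac_rfl
      _ = v c ^ 2 * v dX ^ 2 := h1.symm
      _ ≤ _ := mul_le_mul_right h2 _
  exact le_of_mul_le_mul_right h3 hpos

end GSV

open GSV in
/-- G+ at `p = 2` -/
theorem gv6 {E Γ : Type} [Field E] [LinearOrderedCommGroupWithZero Γ] (v : Valuation E Γ)
    (h2 : v (2 : E) < 1) (h20 : v (2 : E) ≠ 0) {a1 a3 e1 e2 e3 X dX G c : E} (ha1 : v a1 ≤ 1)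
    (ha3 : v a3 = 1) (s2 : 2 * (e1 * e2 + e1 * e3 + e2 * e3) = a1 * a3)
    (s3 : 4 * (e1 * e2 * e3) = -a3 ^ 2)
    (hX1 : v dX ≤ v 2 * v (X - e1)) (hX2 : v dX ≤ v 2 * v (X - e2))
    (hX3 : v dX ≤ v 2 * v (X - e3))
    (ode : c ^ 2 * dX ^ 2 = 4 * ((X - e1) * (X - e2) * (X - e3)) * G ^ 2)
    (n1 : X ≠ e1) (n2 : X ≠ e2) (n3 : X ≠ e3) : v G ^ 6 ≤ v c ^ 6 * v (2 : E) ^ 2 := by
  have m1 : v (X - e1) ≠ 0 := (Valuation.ne_zero_iff v).2 (sub_ne_zero.2 n1)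
  have m2 : v (X - e2) ≠ 0 := (Valuation.ne_zero_iff v).2 (sub_ne_zero.2 n2)
  have m3 : v (X - e3) ≠ 0 := (Valuation.ne_zero_iff v).2 (sub_ne_zero.2 n3)
  have v3 : v (3 : E) = 1 := by
    have e : (3 : E) = 1 + 2 := by norm_num
    rw [e, Valuation.map_add_eq_of_lt_left _ (by rw [map_one]; exact h2), map_one]
  obtain ⟨M, hM⟩ : ∃ M, M = max (max (v e1) (v e2)) (v e3) := ⟨_, rfl⟩
  have l1 : v e1 ≤ M := by rw [hM]; exact (le_max_left _ _).trans (le_max_left _ _)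
  have l2 : v e2 ≤ M := by rw [hM]; exact (le_max_right _ _).trans (le_max_left _ _)
  have l3 : v e3 ≤ M := by rw [hM]; exact le_max_right _ _
  have hs3 : v (2 : E) ^ 2 * (v e1 * v e2 * v e3) = 1 := by
    have h := congrArg v s3
    rw [Valuation.map_neg, map_pow, ha3, one_pow, map_mul, map_mul, map_mul,
      show (4 : E) = 2 ^ 2 by norm_num, map_pow] at h
    exact h
  have hM3 : 1 ≤ v (2 : E) ^ 2 * M ^ 3 := by
    rw [← hs3]
    refine mul_le_mul_right ?_ _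
    calc v e1 * v e2 * v e3 ≤ M * M * M := mul_le_mul' (mul_le_mul' l1 l2) l3
      _ = M ^ 3 := by rw [pow_succ, pow_two]
  have hM0 : M ≠ 0 := by
    intro h
    rw [h, zero_pow three_ne_zero, mul_zero] at hM3
    exact absurd hM3 (not_le.2 zero_lt_one)
  have hMp : 0 < M := zero_lt_iff.2 hM0
  -- one of the differences is large
  have key : M ≤ v (X - e1) ∨ M ≤ v (X - e2) ∨ M ≤ v (X - e3) := by
    by_contra hcon
    push Not at hcon
    obtain ⟨k1, k2, k3⟩ := hcon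
    have hX : ∀ e : E, v (X - e) < M → v e = M → v X = M := by
      intro e h4 h5
      have e6 : X = (X - e) + e := by ring
      rw [e6, Valuation.map_add_eq_of_lt_right v (by rw [h5]; exact h4), h5]
    have hvX : v X = M := by
      rcases max_choice (max (v e1) (v e2)) (v e3) with h | h
      · rcases max_choice (v e1) (v e2) with h' | h'
        · exact hX e1 k1 (by rw [hM, h, h'])
        · exact hX e2 k2 (by rw [hM, h, h'])
      · exact hX e3 k3 (by rw [hM, h])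
    have he : ∀ e : E, v (X - e) < M → v e = M := by
      intro e h4
      have e6 : e = X - (X - e) := by ring
      rw [e6, Valuation.map_sub_eq_of_lt_left v (by rw [hvX]; exact h4), hvX]
    have q3 : v (2 : E) ^ 2 * M ^ 3 = 1 := by
      rw [he e1 k1, he e2 k2, he e3 k3] at hs3
      rw [← hs3, show M ^ 3 = M * M * M by rw [pow_succ, pow_two]]
    have q2 : v (e1 * e2 + e1 * e3 + e2 * e3) = M ^ 2 := by
      obtain ⟨d1, hd1⟩ : ∃ d, d = X - e1 := ⟨_, rfl⟩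
      obtain ⟨d2, hd2⟩ : ∃ d, d = X - e2 := ⟨_, rfl⟩
      obtain ⟨d3, hd3⟩ : ∃ d, d = X - e3 := ⟨_, rfl⟩
      rw [← hd1] at k1
      rw [← hd2] at k2
      rw [← hd3] at k3
      have e7 : e1 * e2 + e1 * e3 + e2 * e3 = 3 * X ^ 2 +
          (d1 * (d2 - X) + d2 * (d3 - X) + d3 * (d1 - X) - X * (d1 + d2 + d3)) := by
        rw [hd1, hd2, hd3]
        ring
      have b1 : ∀ d d' : E, v d < M → v d' < M → v (d * (d' - X)) < M ^ 2 := by
        intro d d' h5 h6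
        rw [map_mul, pow_two]
        have h7 : v (d' - X) ≤ M := (v.map_sub _ _).trans (max_le h6.le hvX.le)
        calc v d * v (d' - X) ≤ v d * M := mul_le_mul_right h7 _
          _ < M * M := mul_lt_mul_of_pos_right h5 hMp
      have b2 : v (X * (d1 + d2 + d3)) < M ^ 2 := by
        rw [map_mul, hvX, pow_two]
        refine mul_lt_mul_of_pos_left ?_ hMp
        exact v.map_add_lt (v.map_add_lt k1 k2) k3
      have b3 : v (d1 * (d2 - X) + d2 * (d3 - X) + d3 * (d1 - X) - X * (d1 + d2 + d3)) < M ^ 2 :=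
        v.map_sub_lt (v.map_add_lt (v.map_add_lt (b1 _ _ k1 k2) (b1 _ _ k2 k3)) (b1 _ _ k3 k1)) b2
      have b4 : v (3 * X ^ 2) = M ^ 2 := by rw [map_mul, v3, one_mul, map_pow, hvX]
      rw [e7, Valuation.map_add_eq_of_lt_left v (by rw [b4]; exact b3), b4]
    have q4 : v (2 : E) * M ^ 2 ≤ 1 := by
      have h := congrArg v s2
      rw [map_mul, map_mul, q2, ha3, mul_one] at h
      rw [h]
      exact ha1
    -- `t² M³ = 1`, `t M² ≤ 1`, so `1 = t⁴ M⁶ = t (t M²)³ ≤ t < 1`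
    have q5 : v (2 : E) * (v (2 : E) * M ^ 2) ^ 3 = 1 := by
      calc v (2 : E) * (v (2 : E) * M ^ 2) ^ 3 = (v (2 : E) ^ 2 * M ^ 3) ^ 2 := by
            rw [mul_pow, mul_pow, ← pow_mul, ← pow_mul, ← pow_mul, ← mul_assoc, ← pow_succ']
        _ = 1 := by rw [q3, one_pow]
    have q6 : v (2 : E) * (v (2 : E) * M ^ 2) ^ 3 ≤ v (2 : E) :=
      mul_le_of_le_one_right' (pow_le_one' q4 3)
    rw [q5] at q6
    exact absurd h2 (not_lt.2 q6)
  have fin : ∀ e : E, M ≤ v (X - e) → v G ^ 2 * v (X - e) ≤ v c ^ 2 →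
      v G ^ 6 ≤ v c ^ 6 * v (2 : E) ^ 2 := by
    intro e h4 h5
    have h6 : v G ^ 2 * M ≤ v c ^ 2 := (mul_le_mul_right h4 _).trans h5
    have h7 : v G ^ 6 * M ^ 3 ≤ v c ^ 6 := by
      have := pow_le_pow_left' h6 3
      rwa [mul_pow, ← pow_mul, ← pow_mul] at this
    calc v G ^ 6 = v G ^ 6 * 1 := (mul_one _).symm
      _ ≤ v G ^ 6 * (v (2 : E) ^ 2 * M ^ 3) := mul_le_mul_right hM3 _
      _ = (v G ^ 6 * M ^ 3) * v (2 : E) ^ 2 := by ac_rfl
      _ ≤ v c ^ 6 * v (2 : E) ^ 2 := mul_le_mul_left h7 _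
  rcases key with h | h | h
  · exact fin e1 h (stepC v h20 hX2 hX3 ode m2 m3)
  · refine fin e2 h (stepC v (e1 := e2) (e2 := e1) (e3 := e3) h20 hX1 hX3 ?_ m1 m3)
    rw [ode]
    ring
  · refine fin e3 h (stepC v (e1 := e3) (e2 := e1) (e3 := e2) h20 hX1 hX2 ?_ m1 m2)
    rw [ode]
    ring

end Pool.Agent.N2
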