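import Pool.Agent.MUX.N_GD
import Pool.Agent.N2.GS_Val

/-!
# N2, block GS (helper6): G+ at `p = 2` for power series over a discrete valuation ring

`ev2`: the Gauss valuation on the fraction field of the power series over a discrete valuation ring `O`, with `v (θ X) ≤ v 2 v X` if
`X (-q) = X (q)`. `gs_main`: the divisibility `4 c⁶ ∣ (coeff n G)⁶`.
-/

set_option autoImplicit false

namespace Pool.Agent.N2

noncomputable section

namespace GSR

open Pool.Agent.MUXN.GD PowerSeries

variable {O : Type} [CommRing O]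

/-- `q ↦ -q` -/
def al : PowerSeries O →+* PowerSeries O := PowerSeries.rescale (-1 : O)

theorem al_coeff (f : PowerSeries O) (n : ℕ) : coeff n (al f) = (-1) ^ n * coeff n f := by
  unfold al
  rw [coeff_rescale]

theorem al_al (f : PowerSeries O) : al (al f) = f := by
  ext n
  rw [al_coeff, al_coeff, ← mul_assoc, ← mul_pow, neg_one_mul, neg_neg, one_pow, one_mul]

theorem al_C (c : O) : al (C c : PowerSeries O) = C c := by
  ext n
  rw [al_coeff, coeff_C]
  split_ifs with h
  · rw [h, pow_zero, one_mul]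
  · rw [mul_zero]

variable [IsDomain O]

theorem al_odd (h2 : (2 : O) ≠ 0) {f : PowerSeries O} (hf : al f = f) {n : ℕ} (hn : ¬ Even n) :
    coeff n f = 0 := by
  have h := congrArg (coeff n) hf
  rw [al_coeff, Odd.neg_one_pow (Nat.not_even_iff_odd.1 hn), neg_one_mul] at h
  have h3 : (2 : O) * coeff n f = 0 := by linear_combination -h
  exact (mul_eq_zero.1 h3).resolve_left h2

theorem al_th (h2 : (2 : O) ≠ 0) {f : PowerSeries O} (hf : al f = f) : C (2 : O) ∣ th O f := by
  rw [C_dvd_iff]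
  intro n
  rw [th_coeff]
  by_cases hn : Even n
  · obtain ⟨m, hm⟩ := hn
    refine Dvd.dvd.mul_right ⟨(m : O), ?_⟩ _
    rw [hm]
    push_cast
    ring
  · rw [al_odd h2 hf hn, mul_zero]
    exact dvd_zero _

variable [IsDiscreteValuationRing O]

theorem vR_mono (ϖ : O) (h : Prime ϖ) {f g : PowerSeries O} (hd : g ∣ f) :
    vR ϖ h f ≤ vR ϖ h g := by
  obtain ⟨k, rfl⟩ := hd
  rw [map_mul]
  exact mul_le_of_le_one_right' (vR_le_one ϖ h k)

theorem vR_coeff (ϖ : O) (h : Prime ϖ) (f : PowerSeries O) (n : ℕ) :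
    vR ϖ h (C (coeff n f)) ≤ vR ϖ h f := by
  by_cases hf : f = 0
  · simp [hf]
  rw [vR_apply ϖ h hf, vR_le, ← map_pow]
  apply (C : O →+* PowerSeries O).map_dvd
  have h1 : C ϖ ^ multiplicity (C ϖ) f ∣ f := pow_multiplicity_dvd _ _
  rw [← map_pow, C_dvd_iff] at h1
  exact h1 n

theorem vR_nonunit (ϖ : O) (h : Prime ϖ) (u : O) (hu : ¬ IsUnit u) : vR ϖ h (C u) < 1 := by
  have h1 : ϖ ∣ u := by
    by_cases hu0 : u = 0
    · rw [hu0]; exact dvd_zero _
    obtain ⟨n, w, rfl⟩ := IsDiscreteValuationRing.eq_unit_mul_pow_irreducible hu0 h.irreducible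
    cases n with
    | zero => exact absurd (by simp) hu
    | succ n => exact (Dvd.intro_left _ (pow_succ _ _).symm).mul_left _
  have h2 : vR ϖ h (C u) ≤ WithZero.exp (-((1 : ℕ) : ℤ)) := by
    rw [vR_le, pow_one]
    exact (C : O →+* PowerSeries O).map_dvd h1
  refine lt_of_le_of_lt h2 ?_
  rw [← WithZero.exp_zero, WithZero.exp_lt_exp]
  norm_num

/-- even series -/
theorem vR_th (ϖ : O) (h : Prime ϖ) (h2 : (2 : O) ≠ 0) {f : PowerSeries O} (hf : al f = f) :
    vR ϖ h (th O f) ≤ vR ϖ h (C 2) * vR ϖ h f := by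
  by_cases hf0 : f = 0
  · rw [hf0, map_zero, map_zero]
    exact zero_le
  obtain ⟨g, hg⟩ : C ϖ ^ multiplicity (C ϖ) f ∣ f := pow_multiplicity_dvd _ _
  have hC0 : (C ϖ ^ multiplicity (C ϖ) f : PowerSeries O) ≠ 0 :=
    pow_ne_zero _ (C_prime h).ne_zero
  have halC : al (C ϖ ^ multiplicity (C ϖ) f : PowerSeries O) = C ϖ ^ multiplicity (C ϖ) f := by
    rw [map_pow, al_C]
  have hgal : al g = g := by
    have h1 := hf
    rw [hg, map_mul, halC] at h1
    exact mul_left_cancel₀ hC0 h1
  obtain ⟨k, hk⟩ := al_th h2 hgal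
  have h3 : th O f = C 2 * (C ϖ ^ multiplicity (C ϖ) f * k) := by
    have h4 : th O (C ϖ ^ multiplicity (C ϖ) f * g) =
        C ϖ ^ multiplicity (C ϖ) f * th O g := by
      ext n
      rw [th_coeff, ← map_pow, coeff_C_mul, coeff_C_mul, th_coeff]
      ring
    rw [hg, h4, ← hg, hk]
    ring
  rw [h3, map_mul, map_mul]
  refine mul_le_mul_right ?_ _
  calc vR ϖ h (C ϖ ^ multiplicity (C ϖ) f) * vR ϖ h k
      ≤ vR ϖ h (C ϖ ^ multiplicity (C ϖ) f) * 1 := mul_le_mul_right (vR_le_one ϖ h _) _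
    _ = vR ϖ h (C ϖ ^ multiplicity (C ϖ) f) := mul_one _
    _ = vR ϖ h f := by
        rw [map_pow, vR_C ϖ h, vR_apply ϖ h hf0, ← WithZero.exp_nsmul]
        congr 1
        simp

end GSR

open GSR Pool.Agent.MUXN.GD PowerSeries in
/-- the Gauss valuation -/
theorem ev2 (O : Type) [CommRing O] [IsDomain O] [IsDiscreteValuationRing O] (h2 : (2 : O) ≠ 0) :
    ∃ v : Valuation (FractionRing (PowerSeries O)) (WithZero (Multiplicative ℤ)),
      (∀ f : PowerSeries O, v (algebraMap _ _ f) ≤ 1) ∧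
      (∀ u : O, IsUnit u → v (algebraMap _ _ (C u)) = 1) ∧
      (∀ u : O, ¬ IsUnit u → v (algebraMap _ _ (C u)) < 1) ∧
      (∀ (f : PowerSeries O) (n : ℕ), v (algebraMap _ _ (C (coeff n f))) ≤ v (algebraMap _ _ f)) ∧
      (∀ (d c : O), c ≠ 0 → v (algebraMap _ _ (C d)) ≤ v (algebraMap _ _ (C c)) → c ∣ d) ∧
      ∀ A B : PowerSeries O, B ≠ 0 → al A * B = A * al B →
        v (dd O (algebraMap _ _ A / algebraMap _ _ B)) ≤
          v (2 : FractionRing (PowerSeries O)) * v (algebraMap _ _ A / algebraMap _ _ B) := by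
  obtain ⟨ϖ, hϖ⟩ := IsDiscreteValuationRing.exists_irreducible O
  have h : Prime ϖ := hϖ.prime
  have hS : nonZeroDivisors (PowerSeries O) ≤ (vR ϖ h).supp.primeCompl := by
    intro s hs hs'
    exact vR_ne ϖ h (nonZeroDivisors.ne_zero hs) hs'
  set v := (vR ϖ h).extendToLocalization hS (FractionRing (PowerSeries O)) with hv
  have hva : ∀ f : PowerSeries O, v (algebraMap _ _ f) = vR ϖ h f := fun f =>
    Valuation.extendToLocalization_apply_map_apply _ _ _ f
  refine ⟨v, ?_, ?_, ?_, ?_, ?_, ?_⟩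
  · intro f
    rw [hva]
    exact vR_le_one ϖ h f
  · intro u hu
    rw [hva]
    exact vR_unit ϖ h u hu
  · intro u hu
    rw [hva]
    exact vR_nonunit ϖ h u hu
  · intro f n
    rw [hva, hva]
    exact vR_coeff ϖ h f n
  · intro d c hc hfc
    rw [hva, hva] at hfc
    have h1 := vR_dvd ϖ h (C d) c hc hfc
    rw [C_dvd_iff] at h1
    have h3 := h1 0
    rwa [coeff_zero_eq_constantCoeff_apply, constantCoeff_C] at h3
  · intro A B hB hAB
    obtain ⟨M, hM⟩ : ∃ M, M = A * al B := ⟨_, rfl⟩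
    obtain ⟨N, hN⟩ : ∃ N, N = B * al B := ⟨_, rfl⟩
    have hMal : al M = M := by
      rw [hM, map_mul, al_al, hAB]
    have hNal : al N = N := by
      rw [hN, map_mul, al_al, mul_comm]
    have hBal : al B ≠ 0 := by
      intro h0
      apply hB
      rw [← al_al B, h0, map_zero]
    have hN0 : N ≠ 0 := by rw [hN]; exact mul_ne_zero hB hBal
    have hinj := IsFractionRing.injective (PowerSeries O) (FractionRing (PowerSeries O))
    have hne : ∀ f : PowerSeries O, f ≠ 0 →
        algebraMap (PowerSeries O) (FractionRing (PowerSeries O)) f ≠ 0 := fun f hf h0 =>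
      hf (hinj (by rw [h0, map_zero]))
    have e1 : algebraMap (PowerSeries O) (FractionRing (PowerSeries O)) A /
        algebraMap _ _ B = algebraMap _ _ M / algebraMap _ _ N := by
      rw [div_eq_div_iff (hne B hB) (hne N hN0), ← map_mul, ← map_mul, hM, hN]
      congr 1
      ring
    rw [e1]
    obtain ⟨x, hx⟩ : ∃ x, x = algebraMap (PowerSeries O) (FractionRing (PowerSeries O)) M /
      algebraMap (PowerSeries O) (FractionRing (PowerSeries O)) N := ⟨_, rfl⟩
    rw [← hx]
    have hxb : algebraMap (PowerSeries O) (FractionRing (PowerSeries O)) M =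
      x * algebraMap (PowerSeries O) (FractionRing (PowerSeries O)) N := by
      rw [hx, div_mul_cancel₀ _ (hne N hN0)]
    have hC2 : algebraMap (PowerSeries O) (FractionRing (PowerSeries O)) (C 2) = 2 := by
      rw [map_ofNat, map_ofNat]
    have hth : ∀ f : PowerSeries O, al f = f → v (dd O (algebraMap _ _ f)) ≤
        v (2 : FractionRing (PowerSeries O)) * v (algebraMap _ _ f) := by
      intro f hf
      rw [dd_alg, hva, hva, ← hC2, hva]
      exact vR_th ϖ h h2 hf
    have k1 := hth M hMal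
    have k2 := hth N hNal
    have hvb : v (algebraMap (PowerSeries O) (FractionRing (PowerSeries O)) N) ≠ 0 :=
      (Valuation.ne_zero_iff v).2 (hne N hN0)
    rw [hxb, Derivation.leibniz, smul_eq_mul, smul_eq_mul] at k1
    have h3 : v (algebraMap (PowerSeries O) (FractionRing (PowerSeries O)) N * dd O x) ≤
        v (2 : FractionRing (PowerSeries O)) *
          v (x * algebraMap (PowerSeries O) (FractionRing (PowerSeries O)) N) := by
      have h4 : algebraMap (PowerSeries O) (FractionRing (PowerSeries O)) N * dd O x =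
          (x * dd O (algebraMap (PowerSeries O) (FractionRing (PowerSeries O)) N) +
            algebraMap (PowerSeries O) (FractionRing (PowerSeries O)) N * dd O x) -
          x * dd O (algebraMap (PowerSeries O) (FractionRing (PowerSeries O)) N) := by ring
      rw [h4]
      refine (Valuation.map_sub _ _ _).trans (max_le k1 ?_)
      rw [map_mul, map_mul]
      calc v x * v (dd O (algebraMap (PowerSeries O) (FractionRing (PowerSeries O)) N))
          ≤ v x * (v (2 : FractionRing (PowerSeries O)) *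
            v (algebraMap (PowerSeries O) (FractionRing (PowerSeries O)) N)) :=
            mul_le_mul_right k2 _
        _ = _ := by ac_rfl
    rw [map_mul, map_mul, mul_comm, ← mul_assoc] at h3
    exact le_of_mul_le_mul_right h3 (zero_lt_iff.2 hvb)

open GSR Pool.Agent.MUXN.GD PowerSeries in
/-- G+ at `p = 2` for power series -/
theorem gs_main (O : Type) [CommRing O] [IsDomain O] [IsDiscreteValuationRing O]
    (h2 : (2 : O) ≠ 0) (h2u : ¬ IsUnit (2 : O)) {a1 a3 d e1 e2 e3 c : O} (hd : d ≠ 0)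
    (ha3 : IsUnit a3) (s1 : 4 * (e1 + e2 + e3) = -a1 ^ 2 * d)
    (s2 : 2 * (e1 * e2 + e1 * e3 + e2 * e3) = a1 * a3 * d ^ 2)
    (s3 : 4 * (e1 * e2 * e3) = -a3 ^ 2 * d ^ 3) (hc : c ≠ 0) (A B G : PowerSeries O)
    (hB : B ≠ 0) (hAB : al A * B = A * al B) (hW : B * th O A - A * th O B ≠ 0)
    (ode : C c ^ 2 * (B * th O A - A * th O B) ^ 2 =
      B * (4 * A ^ 3 + C a1 ^ 2 * A ^ 2 * B + 2 * C a1 * C a3 * A * B ^ 2 + C a3 ^ 2 * B ^ 3) *
        G ^ 2) (n : ℕ) : c ^ 6 * 2 ^ 2 ∣ coeff n G ^ 6 := by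
  obtain ⟨v, v1, v2, v3, v4, v5, v6⟩ := ev2 O h2
  have hinj := IsFractionRing.injective (PowerSeries O) (FractionRing (PowerSeries O))
  have hne : ∀ f : PowerSeries O, f ≠ 0 →
      algebraMap (PowerSeries O) (FractionRing (PowerSeries O)) f ≠ 0 := fun f hf h0 =>
    hf (hinj (by rw [h0, map_zero]))
  have hCne : ∀ u : O, u ≠ 0 → (C u : PowerSeries O) ≠ 0 := by
    intro u hu h0
    apply hu
    have := congrArg constantCoeff h0
    simpa using this
  obtain ⟨κ, hκ⟩ : ∃ κ : O →+* FractionRing (PowerSeries O),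
      κ = (algebraMap (PowerSeries O) (FractionRing (PowerSeries O))).comp C := ⟨_, rfl⟩
  have hκa : ∀ u : O, κ u = algebraMap _ _ (C u) := fun u => by rw [hκ]; rfl
  have hκ0 : ∀ u : O, u ≠ 0 → κ u ≠ 0 := fun u hu => by
    rw [hκa]
    exact hne _ (hCne u hu)
  have hκD : ∀ u : O, dd O (κ u) = 0 := by
    intro u
    rw [hκa, dd_alg]
    have : th O (C u : PowerSeries O) = 0 := by
      ext m
      rw [th_coeff, coeff_C]
      split_ifs with hm
      · rw [hm]
        simp
      · simp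
    rw [this, map_zero]
  have hκ2 : κ 2 = 2 := map_ofNat κ 2
  obtain ⟨a, ha⟩ : ∃ a, a = algebraMap (PowerSeries O) (FractionRing (PowerSeries O)) A := ⟨_, rfl⟩
  obtain ⟨b, hb⟩ : ∃ b, b = algebraMap (PowerSeries O) (FractionRing (PowerSeries O)) B := ⟨_, rfl⟩
  obtain ⟨g, hg⟩ : ∃ g, g = algebraMap (PowerSeries O) (FractionRing (PowerSeries O)) G := ⟨_, rfl⟩
  have hb0 : b ≠ 0 := by rw [hb]; exact hne B hB
  have hd0 : κ d ≠ 0 := hκ0 d hd
  -- `θ (A / B)`
  have hdX : dd O (a / b) * b ^ 2 = b * dd O a - a * dd O b := by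
    have h1 : a = (a / b) * b := (div_mul_cancel₀ a hb0).symm
    have h3 : dd O a = (a / b) * dd O b + b * dd O (a / b) := by
      conv_lhs => rw [h1, Derivation.leibniz, smul_eq_mul, smul_eq_mul]
    rw [h3]
    field_simp
    ring
  have hdab : b * dd O a - a * dd O b =
      algebraMap (PowerSeries O) (FractionRing (PowerSeries O)) (B * th O A - A * th O B) := by
    rw [map_sub, map_mul, map_mul, ← dd_alg, ← dd_alg, ← ha, ← hb]
  -- the differences
  have hdiff : ∀ e : O, v (dd O (a / b)) ≤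
      v (2 : FractionRing (PowerSeries O)) * v (a / b - κ e / κ d) ∧ a / b ≠ κ e / κ d := by
    intro e
    have hrel : al (C d * A - C e * B) * B = (C d * A - C e * B) * al B := by
      rw [map_sub, map_mul, map_mul, al_C, al_C, sub_mul, sub_mul, mul_assoc, hAB]
      ring
    have h1 := v6 (C d * A - C e * B) B hB hrel
    have h3 : algebraMap (PowerSeries O) (FractionRing (PowerSeries O)) (C d * A - C e * B) /
        algebraMap _ _ B = κ d * (a / b - κ e / κ d) := by
      rw [map_sub, map_mul, map_mul, ← hκa, ← hκa, ← ha, ← hb]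
      field_simp
    have h4 : dd O (κ d * (a / b - κ e / κ d)) = κ d * dd O (a / b) := by
      have h5 : κ d * (a / b - κ e / κ d) = κ d * (a / b) - κ e := by
        field_simp
      rw [h5, map_sub, Derivation.leibniz, hκD, hκD, smul_zero, add_zero, sub_zero, smul_eq_mul]
    rw [h3, h4, map_mul, map_mul, ← mul_assoc, mul_comm (v 2) (v (κ d)), mul_assoc] at h1
    refine ⟨?_, ?_⟩
    · have h6 : (0 : WithZero (Multiplicative ℤ)) < v (κ d) :=
        zero_lt_iff.2 ((Valuation.ne_zero_iff v).2 hd0)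
      exact le_of_mul_le_mul_left h1 h6
    · intro h0
      apply hne _ hW
      rw [← hdab, ← hdX]
      have h7 : κ d * (a / b) = κ e := by
        rw [h0]
        field_simp
      have h8 := congrArg (dd O) h7
      rw [Derivation.leibniz, hκD, hκD, smul_zero, add_zero, smul_eq_mul] at h8
      rw [(mul_eq_zero.1 h8).resolve_left hd0, zero_mul]
  obtain ⟨k1, m1⟩ := hdiff e1
  obtain ⟨k2, m2⟩ := hdiff e2
  obtain ⟨k3, m3⟩ := hdiff e3
  have h20 : v (2 : FractionRing (PowerSeries O)) ≠ 0 := by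
    rw [← hκ2]
    exact (Valuation.ne_zero_iff v).2 (hκ0 2 h2)
  have h2l : v (2 : FractionRing (PowerSeries O)) < 1 := by
    rw [← hκ2, hκa]
    exact v3 2 h2u
  have hfin := gv6 v h2l h20 (a1 := κ a1) (a3 := κ a3) (e1 := κ e1 / κ d) (e2 := κ e2 / κ d)
    (e3 := κ e3 / κ d) (X := a / b) (dX := dd O (a / b)) (G := g) (c := κ c)
    (by rw [hκa]; exact v1 _) (by rw [hκa]; exact v2 _ ha3)
    (by
      have h := congrArg κ s2
      simp only [map_mul, map_add, map_pow, map_ofNat] at h
      field_simp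
      linear_combination h)
    (by
      have h := congrArg κ s3
      simp only [map_mul, map_neg, map_pow, map_ofNat] at h
      field_simp
      linear_combination h) k1 k2 k3
    (by
      have h := congrArg (algebraMap (PowerSeries O) (FractionRing (PowerSeries O))) ode
      rw [map_mul, map_pow, map_pow, ← hdab, ← hdX] at h
      simp only [map_mul, map_add, map_pow, map_ofNat, ← hκa, ← ha, ← hb, ← hg] at h
      have t1 := congrArg κ s1
      have t2 := congrArg κ s2
      have t3 := congrArg κ s3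
      simp only [map_mul, map_add, map_neg, map_pow, map_ofNat] at t1 t2 t3
      have hb4 : b ^ 4 ≠ 0 := pow_ne_zero _ hb0
      apply mul_right_cancel₀ hb4
      have hl : κ c ^ 2 * dd O (a / b) ^ 2 * b ^ 4 = κ c ^ 2 * (dd O (a / b) * b ^ 2) ^ 2 := by ring
      rw [hl, h]
      field_simp
      linear_combination (g ^ 2 * κ d ^ 2 * a ^ 2 * b) * t1 -
        (2 * g ^ 2 * κ d * a * b ^ 2) * t2 + (g ^ 2 * b ^ 3) * t3) m1 m2 m3
  -- the coefficient
  have hco : v (κ (coeff n G)) ≤ v g := by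
    rw [hκa, hg]
    exact v4 G n
  have h9 : v (κ (coeff n G ^ 6)) ≤ v (κ (c ^ 6 * 2 ^ 2)) := by
    rw [map_pow, map_pow, map_mul, map_pow, map_pow, hκ2, map_mul, map_pow, map_pow]
    exact (pow_le_pow_left' hco 6).trans hfin
  rw [hκa, hκa] at h9
  exact v5 _ _ (mul_ne_zero (pow_ne_zero _ hc) (pow_ne_zero _ h2)) h9

end

end Pool.Agent.N2
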