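import Pool.Agent.MUX.N_BIN

/-!
# N2, block G2: integrality of a series whose integral is a modular point, for a general Weierstrass equation with good
reduction (helper59; from helper76's `N_BIN.lean` and helper6's `NS/G_Bin.lean`). Every residue characteristic.
-/

set_option autoImplicit false

namespace Pool.Agent.N2G

open _root_.MU3 Pool.Agent.MU3A Pool.Agent.MU3B Pool.Agent.MU3Q Pool.Agent.MUX
  Pool.Agent.MUXN Pool.Agent.MuSym OnePoint UpperHalfPlane
open scoped MatrixGroups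

noncomputable section

namespace Bin

open Pool.Agent.MUXN.NBin

theorem pull {O : Type} [CommRing O] (W : WeierstrassCurve O) {ι : O →+* ℂ}
    (hι : Function.Injective ι) (c : O) (P Q G : PowerSeries O)
    (h : PowerSeries.C (ι c) ^ 2 * (PowerSeries.map ι Q * thetaD (PowerSeries.map ι P) -
        PowerSeries.map ι P * thetaD (PowerSeries.map ι Q)) ^ 2 =
      PowerSeries.map ι Q * (4 * PowerSeries.map ι P ^ 3 +
        PowerSeries.C (ι W.b₂) * PowerSeries.map ι P ^ 2 * PowerSeries.map ι Q +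
        2 * PowerSeries.C (ι W.b₄) * PowerSeries.map ι P * PowerSeries.map ι Q ^ 2 +
        PowerSeries.C (ι W.b₆) * PowerSeries.map ι Q ^ 3) * PowerSeries.map ι G ^ 2) :
    PowerSeries.C c ^ 2 * (Q * tth P - P * tth Q) ^ 2 =
      Q * (4 * P ^ 3 + PowerSeries.C W.b₂ * P ^ 2 * Q + 2 * PowerSeries.C W.b₄ * P * Q ^ 2 +
        PowerSeries.C W.b₆ * Q ^ 3) * G ^ 2 := by
  apply mapι_inj hι
  simp only [map_mul, map_pow, map_sub, map_add, map_tth, map_ofNat, PowerSeries.map_C]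
  exact h

end Bin

open Bin Pool.Agent.MUXN.NBin in
/-- integrality of a series whose integral is a modular point of a curve with good reduction -/
theorem bin_wei (hWQ : St_WQ) (hGP : Sg_GP) (hDV : Sg_DV) (K : Subfield ℂ) [NumberField K]
    (V : ValuationSubring ℂ) (p : ℕ) (hp : p.Prime) (hpV : (p : ℂ) ∈ V.nonunits)
    (N : ℕ) (hN : 0 < N)
    (hζ : Complex.exp (2 * Real.pi * Complex.I / N) ∈ K) (L : PeriodPair) (e : ℂ)
    (W : WeierstrassCurve ℂ)
    (heq : ∀ z ∉ L.lattice, L.derivWeierstrassP z ^ 2 =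
      4 * (L.weierstrassP z - e) ^ 3 + W.b₂ * (L.weierstrassP z - e) ^ 2 +
        2 * W.b₄ * (L.weierstrassP z - e) + W.b₆)
    (hK : W.a₁ ∈ K ∧ W.a₂ ∈ K ∧ W.a₃ ∈ K ∧ W.a₄ ∈ K ∧ W.a₆ ∈ K)
    (hV : W.a₁ ∈ V ∧ W.a₂ ∈ V ∧ W.a₃ ∈ V ∧ W.a₄ ∈ V ∧ W.a₆ ∈ V) (hΔ : V.valuation W.Δ = 1)
    (Z : ℍ → ℂ) (z : PowerSeries ℂ) (hQS : QS Z z)
    (hzK : ∀ n, PowerSeries.coeff n z ∈ K) (hz0 : PowerSeries.coeff 0 z = 0)
    (hden : ∃ c ∈ K, c ≠ 0 ∧ c ∈ V ∧ ∀ n : ℕ, c * (n * PowerSeries.coeff n z) ∈ V)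
    (hcusp : ∀ γ : SL(2, ℤ), ∃ (C : ℂ) (w : ℕ → ℂ), ∀ τ : ℍ, HasSum (fun n : ℕ => w n *
      Complex.exp (2 * Real.pi * Complex.I * (τ : ℂ) / N) ^ (n + 1)) (Z (γ • τ) - C))
    (hper : ∀ γ ∈ CongruenceSubgroup.Gamma1 N, ∀ τ : ℍ, Z (γ • τ) - Z τ ∈ L.lattice) :
    PowerSeries.coeff 1 z ∈ V := by
  by_cases h1 : PowerSeries.coeff 1 z = 0
  · rw [h1]
    exact V.zero_mem
  obtain ⟨k1, k2, k3, k4, k6⟩ := hK
  obtain ⟨v1, v2, v3, v4, v6⟩ := hV
  have hDVR := hDV K V p hp hpV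
  -- the curve over the ring
  set Wo : WeierstrassCurve ↥(V.comap K.subtype) :=
    ⟨el W.a₁ k1 v1, el W.a₂ k2 v2, el W.a₃ k3 v3, el W.a₄ k4 v4, el W.a₆ k6 v6⟩ with hWo
  have hmap : Wo.map (io K V) = W := rfl
  have m2 : io K V Wo.b₂ = W.b₂ := by rw [← WeierstrassCurve.map_b₂, hmap]
  have m4 : io K V Wo.b₄ = W.b₄ := by rw [← WeierstrassCurve.map_b₄, hmap]
  have m6 : io K V Wo.b₆ = W.b₆ := by rw [← WeierstrassCurve.map_b₆, hmap]
  have mΔ : io K V Wo.Δ = W.Δ := by rw [← WeierstrassCurve.map_Δ, hmap]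
  have hioK : ∀ x, io K V x ∈ K := fun x => x.1.2
  have b2K : W.b₂ ∈ K := by rw [← m2]; exact hioK _
  have b4K : W.b₄ ∈ K := by rw [← m4]; exact hioK _
  have b6K : W.b₆ ∈ K := by rw [← m6]; exact hioK _
  have h4K : (4 : ℂ) ∈ K := by exact_mod_cast natCast_mem K 4
  have h2K : (2 : ℂ) ∈ K := by exact_mod_cast natCast_mem K 2
  obtain ⟨c, hcK, hc0, hcV, hcz⟩ := hden
  obtain ⟨S, -, -, -, S2, ode, A, hA, B, hB, hA0, hAS⟩ := hWQ K V N L (-e) (W.b₂ / 4)
    (W.b₄ / 2) (W.b₆ / 4) Z z hN hζ (K.div_mem b2K h4K) (K.div_mem b4K h2K)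
    (K.div_mem b6K h4K) (by
      intro u hu
      rw [heq u hu]
      ring) hzK hz0 h1 hQS hcusp hper
  have hS0 : S ≠ 0 := by
    rintro rfl
    rw [map_zero] at S2
    exact h1 (pow_eq_zero_iff two_ne_zero |>.1 S2.symm)
  have hB0 : B ≠ 0 := by
    rw [← hAS]
    exact mul_ne_zero hA0 hS0
  have hthS : thetaD S ≠ 0 := by
    intro h
    have h2 := congrArg (PowerSeries.coeff 2) h
    rw [map_zero, thetaD, PowerSeries.coeff_mk, S2] at h2
    have h3 : PowerSeries.coeff 1 z ^ 2 ≠ 0 := pow_ne_zero 2 h1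
    rcases mul_eq_zero.1 h2 with h5 | h5
    · norm_num at h5
    · exact h3 h5
  -- the wronskian
  have hW1 : A * thetaD B - B * thetaD A = A ^ 2 * thetaD S := by
    rw [← hAS, thetaD_mul]
    ring
  have hG : PowerSeries.C c * thetaD z ∈ PP K V := by
    intro n
    rw [PowerSeries.coeff_C_mul, thetaD, PowerSeries.coeff_mk]
    exact ⟨K.mul_mem hcK (K.mul_mem (natCast_mem K n) (hzK n)), hcz n⟩
  have q2 : (PowerSeries.C W.b₂ : PowerSeries ℂ) = 4 * PowerSeries.C (W.b₂ / 4) := by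
    rw [← map_ofNat (PowerSeries.C (R := ℂ)) 4, ← map_mul]
    congr 1
    rw [mul_div_cancel₀]
    norm_num
  have q4 : (2 * PowerSeries.C W.b₄ : PowerSeries ℂ) = 4 * PowerSeries.C (W.b₄ / 2) := by
    rw [← map_ofNat (PowerSeries.C (R := ℂ)) 4, ← map_mul, ← map_ofNat (PowerSeries.C (R := ℂ)) 2,
      ← map_mul]
    congr 1
    ring
  have q6 : (PowerSeries.C W.b₆ : PowerSeries ℂ) = 4 * PowerSeries.C (W.b₆ / 4) := by
    rw [← map_ofNat (PowerSeries.C (R := ℂ)) 4, ← map_mul]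
    congr 1
    rw [mul_div_cancel₀]
    norm_num
  have hode : PowerSeries.C c ^ 2 * (B * thetaD A - A * thetaD B) ^ 2 =
      B * (4 * A ^ 3 + PowerSeries.C W.b₂ * A ^ 2 * B + 2 * PowerSeries.C W.b₄ * A * B ^ 2 +
        PowerSeries.C W.b₆ * B ^ 3) * (PowerSeries.C c * thetaD z) ^ 2 := by
    have e1 : (B * thetaD A - A * thetaD B) ^ 2 = A ^ 4 * thetaD S ^ 2 := by
      calc (B * thetaD A - A * thetaD B) ^ 2 = (A * thetaD B - B * thetaD A) ^ 2 := by ring
        _ = _ := by rw [hW1]; ring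
    rw [e1, ode, ← hAS, PowerSeries.smul_eq_C_mul, PowerSeries.smul_eq_C_mul,
      PowerSeries.smul_eq_C_mul, q2, q4, q6]
    ring
  -- the discriminant
  have hu : IsUnit Wo.Δ := by
    have hΔK : W.Δ ∈ K := by rw [← mΔ]; exact hioK _
    have hΔV : W.Δ ∈ V := (V.valuation_le_one_iff _).1 hΔ.le
    have h7 : Wo.Δ = el W.Δ hΔK hΔV := by
      apply io_inj K V
      rw [mΔ, io_el]
    rw [h7]
    exact el_unit hΔK hΔV hΔ
  have h20 : (2 : ↥(V.comap K.subtype)) ≠ 0 := by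
    intro h
    have := congrArg (io K V) h
    rw [map_ofNat, map_zero] at this
    norm_num at this
  have hdvd := hGP ↥(V.comap K.subtype) h20 Wo hu tth
    (fun f n => by rw [tth, PowerSeries.coeff_mk]) (lft A hA)
    (lft B hB) (lft _ hG) (el c hcK hcV) (by
      intro h
      have := congrArg (io K V) h
      rw [io_el, map_zero] at this
      exact hc0 this) (by
      intro h
      have := congrArg (PowerSeries.map (io K V)) h
      rw [map_lft, map_zero] at this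
      exact hB0 this) (by
      intro h
      have := congrArg (PowerSeries.map (io K V)) h
      rw [map_sub, map_mul, map_mul, map_tth, map_tth, map_lft, map_lft, map_zero] at this
      have h8 : A ^ 2 * thetaD S = 0 := by
        rw [← hW1]
        linear_combination -this
      exact mul_ne_zero (pow_ne_zero 2 hA0) hthS h8) (by
      apply Bin.pull _ (io_inj K V)
      rw [map_lft, map_lft, map_lft, m2, m4, m6]
      exact hode)
  obtain ⟨G', hG'⟩ := hdvd
  have h9 := congrArg (PowerSeries.coeff 1) hG'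
  rw [PowerSeries.coeff_C_mul] at h9
  have h10 := congrArg (io K V) h9
  rw [map_mul, io_el, lft, PowerSeries.coeff_mk, io_el, PowerSeries.coeff_C_mul, thetaD,
    PowerSeries.coeff_mk, Nat.cast_one, one_mul] at h10
  rw [mul_left_cancel₀ hc0 h10]
  exact io_mem _

end

end Pool.Agent.N2G
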