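import Pool.Agent.NS.StGN

/-!
# N2, block G2: Theorem G for a finite family of symbols and a lattice with good reduction at `V` in a general Weierstrass form
(helper59; as `NS/StGN.lean`, no condition on the residue characteristic)
-/

set_option autoImplicit false

namespace Pool.Agent.N2G

open _root_.MU3 Pool.Agent.MU3A Pool.Agent.MU3B Pool.Agent.MU3Q Pool.Agent.MUX Pool.Agent.NS
  Pool.Agent.NSG Pool.Agent.MUXN Pool.Agent.MuSym OnePoint UpperHalfPlane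
open scoped MatrixGroups

noncomputable section

/-- the lattice is `om O` and has the Weierstrass equation `W`, with good reduction at `V`; `x = ℘ - e` -/
structure WeiN (A B : ℤ) (V : ValuationSubring ℂ) (L' : PeriodPair) (om e : ℂ)
    (W : WeierstrassCurve ℂ) : Prop where
  om0 : om ≠ 0
  mem : ∀ z : ℂ, z ∈ L'.lattice ↔ ∃ x : OO A B, z = om * emb x
  eq : ∀ z ∉ L'.lattice, L'.derivWeierstrassP z ^ 2 =
    4 * (L'.weierstrassP z - e) ^ 3 + W.b₂ * (L'.weierstrassP z - e) ^ 2 +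
      2 * W.b₄ * (L'.weierstrassP z - e) + W.b₆
  alg : IsAlgebraic ℚ W.a₁ ∧ IsAlgebraic ℚ W.a₂ ∧ IsAlgebraic ℚ W.a₃ ∧ IsAlgebraic ℚ W.a₄ ∧
    IsAlgebraic ℚ W.a₆
  int : W.a₁ ∈ V ∧ W.a₂ ∈ V ∧ W.a₃ ∈ V ∧ W.a₄ ∈ V ∧ W.a₆ ∈ V
  disc : V.valuation W.Δ = 1

/-- (GJ) every vector of the descended basis comes from a form whose first coefficient is in `V`. -/
def Sw_GJ : Prop :=
  ∀ (A B : ℤ) (_ : CQ A B) (J : Type) [Fintype J] (Ψ : J → OnePoint ℚ → OnePoint ℚ → ℂ)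
    (Θ : J → ℂ → ℂ) (α₁ : J → ℂ) (om : ℂ) (N' : ℕ) (_ : GDatN A B J Ψ Θ α₁ om N')
    (V : ValuationSubring ℂ) (p : ℕ) (_ : p.Prime) (_ : (p : ℂ) ∈ V.nonunits)
    (_ : LocN A B V) (L' : PeriodPair) (e : ℂ) (W : WeierstrassCurve ℂ)
    (_ : WeiN A B V L' om e W) (r : ℕ) (h : Fin r → SL(2, ℤ))
    (_ : ∀ i, h i ∈ CongruenceSubgroup.Gamma1 N')
    (_ : ∀ (ρ : SL(2, ℤ) → ℂ) (_ : ∀ g ∈ CongruenceSubgroup.Gamma1 N',
        ∀ g' ∈ CongruenceSubgroup.Gamma1 N', ρ (g * g') = ρ g + ρ g') (M : AddSubgroup ℂ)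
      (_ : ∀ i, ρ (h i) ∈ M), ∀ g ∈ CongruenceSubgroup.Gamma1 N', ρ g ∈ M)
    (w : Fin r → ℂ) (_ : ∀ i, w i ∈ kk A B ∧ w i ∈ V) (y : J → ℂ)
    (_ : ∀ l', ∑ c : J, y c * (Ψ c ∞
      (mob (h l' 0 0) (h l' 0 1) (h l' 1 0) (h l' 1 1) ∞) / om) = w l'),
    ∃ y' : J → ℂ, (∀ l', ∑ c : J, y' c * (Ψ c ∞
      (mob (h l' 0 0) (h l' 0 1) (h l' 1 0) (h l' 1 1) ∞) / om) = w l') ∧
      ∑ c : J, y' c * α₁ c ∈ V

/-- (GTH) THEOREM G. -/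
def Sw_GTH : Prop :=
  ∀ (A B : ℤ) (_ : CQ A B) (J : Type) [Fintype J] (Ψ : J → OnePoint ℚ → OnePoint ℚ → ℂ)
    (Θ : J → ℂ → ℂ) (α₁ : J → ℂ) (om : ℂ) (N' : ℕ) (_ : GDatN A B J Ψ Θ α₁ om N')
    (V : ValuationSubring ℂ) (p : ℕ) (_ : p.Prime) (_ : (p : ℂ) ∈ V.nonunits)
    (_ : LocN A B V) (L' : PeriodPair) (e : ℂ) (W : WeierstrassCurve ℂ)
    (_ : WeiN A B V L' om e W) (kk : J → ℂ) (_ : ∑ j, kk j * α₁ j ∉ V.nonunits),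
    ∃ a b c d : ℤ, a * d - b * c = 1 ∧ (N' : ℤ) ∣ c ∧ (N' : ℤ) ∣ d - 1 ∧
      (∑ j, kk j * Ψ j ∞ (mob a b c d ∞)) / om ∉ V.nonunits

end

end Pool.Agent.N2G
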