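import Pool.Agent.N2.DefsT
import Pool.Agent.MUX.StGF

/-!
# MUX-2N, block G2N: units for `2` inert, `D ≠ -3` (after `NS/G_Unn.lean` of helper6; helper59)
-/

set_option autoImplicit false

namespace Pool.Agent.N2G

open _root_.MU3 Pool.Agent.MUX Pool.Agent.NS Pool.Agent.N2

theorem unit_T (h : MUXF.Sx_IDL) (h' : MUXF.Sx_NIM) (A B : ℤ) (hc : CaseT A B) :
    (∀ x : OO A B, nm x = 1 → x = 1 ∨ x = -1) ∧
    ∀ (b : Ideal (OO A B)) (_ : b ≠ ⊥) (x : OO A B), x ∈ b → nm x = MUX.nI b → b = MUX.sp x := by
  have hD : 5 ≤ -(B ^ 2 + 4 * A) := by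
    have h3 := hc.two
    have hex := hc.exc
    have hn := hc.neg
    rcases hc.hB with hB | hB
    · subst hB
      simp only [ne_eq, OfNat.ofNat_ne_zero, not_false_eq_true, zero_pow, zero_add] at h3 hn ⊢
      omega
    · subst hB
      simp only [one_pow, true_and] at h3 hn hex ⊢
      omega
  refine ⟨fun x hx => ?_, fun b hb x hx hn => ?_⟩
  · have h4 : (2 * x.re + B * x.im) ^ 2 + -(B ^ 2 + 4 * A) * x.im ^ 2 = 4 := by
      unfold nm at hx
      linear_combination 4 * hx
    have him : x.im = 0 := by
      by_contra him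
      have h1 : 1 ≤ x.im ^ 2 := by
        have : 0 < x.im ^ 2 := by positivity
        omega
      nlinarith [sq_nonneg (2 * x.re + B * x.im)]
    have hre : x.re ^ 2 = 1 := by
      rw [him] at h4
      linarith
    rcases (sq_eq_sq_iff_eq_or_eq_neg.1 (hre.trans (one_pow 2).symm)) with h1 | h1
    · left
      ext
      · exact h1
      · exact him
    · right
      ext
      · exact h1
      · exact him
  · have hcq : MUXF.CQ A B := MUXY.cqF hc.toCQ
    have hn0 : MUX.nI b ≠ 0 := (h A B hcq b hb).1
    obtain ⟨-, h2, -, -⟩ := h' A B hcq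
    have hx0 : x ≠ 0 := by
      rintro rfl
      apply hn0
      have : nm (0 : OO A B) = 0 := by
        unfold nm
        simp
      rw [this] at hn
      exact_mod_cast hn.symm
    have hle : sp x ≤ b := (Ideal.span_singleton_le_iff_mem b).2 hx
    have hcard : Nat.card (OO A B ⧸ sp x) = Nat.card (OO A B ⧸ b) := by
      have h3 := (h2 x).resolve_right hx0
      have h4 : (nm x).natAbs = MUX.nI b := by
        rw [hn]
        simp
      exact h3.trans h4
    have : Finite (OO A B ⧸ sp x) := by
      apply Nat.finite_of_card_ne_zero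
      rw [hcard]
      exact hn0
    have hbij := Function.Surjective.bijective_of_nat_card_le (Ideal.Quotient.factor_surjective hle)
      hcard.le
    apply le_antisymm _ hle
    intro y hy
    rw [← Ideal.Quotient.eq_zero_iff_mem]
    apply hbij.injective
    rw [map_zero, Ideal.Quotient.factor_mk]
    exact Ideal.Quotient.eq_zero_iff_mem.2 hy

end Pool.Agent.N2G
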