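import Pool.Agent.N2.DefsT
import Pool.Agent.N2.G_Lcn
import Pool.Agent.NS.G_Leg

/-!
# N2, block G2: the lattice `u L` with the equation `y² + a1 x y + a3 y = x³`, from `GoodT`; algebraicity of `u`, `e`, `a1`, `a3`
(helper59)
-/

set_option autoImplicit false

namespace Pool.Agent.N2G

open _root_.MU3 Pool.Agent.MU3A Pool.Agent.MU3B Pool.Agent.MUX Pool.Agent.MUXN Pool.Agent.NS
  Pool.Agent.NSG Pool.Agent.N2

noncomputable section

variable {A B : ℤ}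

theorem WT_Δ (a1 a3 : ℂ) : (WT a1 a3 : WeierstrassCurve ℂ).Δ = a3 ^ 3 * (a1 ^ 3 - 27 * a3) := by
  simp only [WT, WeierstrassCurve.Δ, WeierstrassCurve.b₂, WeierstrassCurve.b₄,
    WeierstrassCurve.b₆, WeierstrassCurve.b₈]
  ring

theorem WT_b₂ (a1 a3 : ℂ) : (WT a1 a3 : WeierstrassCurve ℂ).b₂ = a1 ^ 2 := by
  simp only [WT, WeierstrassCurve.b₂]
  ring

theorem WT_b₄ (a1 a3 : ℂ) : (WT a1 a3 : WeierstrassCurve ℂ).b₄ = a1 * a3 := by
  simp only [WT, WeierstrassCurve.b₄]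
  ring

theorem WT_b₆ (a1 a3 : ℂ) : (WT a1 a3 : WeierstrassCurve ℂ).b₆ = a3 ^ 2 := by
  simp only [WT, WeierstrassCurve.b₆]
  ring

/-- the cubic of the lattice -/
theorem cubT {V : ValuationSubring ℂ} {L : PeriodPair} {u e a1 a3 : ℂ} (h : GoodT V L u e a1 a3)
    (X : ℂ) : 4 * X ^ 3 - L.g₂ * X - L.g₃ =
      4 * (X - e) ^ 3 + u ^ 2 * (a1 * (X - e) + a3 * u ^ 2) ^ 2 := by
  obtain ⟨y, hy⟩ := IsAlgClosed.exists_pow_nat_eq (4 * X ^ 3 - L.g₂ * X - L.g₃) (n := 2) (by norm_num)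
  obtain ⟨z, hz, hX, hY⟩ := (b_DSC L).2 X y hy
  have h1 := h.eq z hz
  rw [hX, hY] at h1
  have hu := h.u0
  have h2 : y ^ 2 = 4 * (X - e) ^ 3 + u ^ 2 * (a1 * (X - e) + a3 * u ^ 2) ^ 2 := by
    field_simp at h1
    linear_combination h1
  rw [← h2, hy]

/-- the coordinates of points of order `m` of normalised lattices are algebraic -/
theorem xn_alg (hc : CQ A B) (hT : TorX A B) {b : Ideal (OO A B)} {L : PeriodPair} {om : ℂ}
    (hL : IsNL b L om) {m : ℕ} (hm : m ≠ 0) {z : ℂ} (hz : (m : ℂ) * z ∈ L.lattice)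
    (hz0 : z ∉ L.lattice) : IsAlgebraic ℚ (L.weierstrassP z) := by
  have hm0 : (idl m : Ideal (OO A B)) ≠ ⊥ := by
    rw [Ne, Ideal.span_singleton_eq_bot]
    intro h0
    have h1 := congrArg QuadraticAlgebra.re h0
    rw [QuadraticAlgebra.re_natCast, QuadraticAlgebra.re_zero] at h1
    exact hm (by exact_mod_cast h1)
  have hf := hT.fin _ hm0
  have htor : Tor (idl m : Ideal (OO A B)) L z := by
    intro x hx
    obtain ⟨y, rfl⟩ := Ideal.mem_span_singleton.1 hx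
    obtain ⟨t, ht, ht'⟩ := (hL.mem _).1 hz
    have e1 : emb (((m : ℕ) : OO A B) * y) = emb y * m := by
      rw [← N_GJ.eHom_apply hc, map_mul, map_natCast, N_GJ.eHom_apply]
      ring
    rw [e1, mul_assoc, ht', (hL.mem _)]
    refine ⟨y * t, b.mul_mem_left y ht, ?_⟩
    rw [← N_GJ.eHom_apply hc (y * t), map_mul, N_GJ.eHom_apply, N_GJ.eHom_apply]
    ring
  have hmem : xn L z ∈ (RF (idl m : Ideal (OO A B)) : IntermediateField (kk A B) ℂ) :=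
    IntermediateField.subset_adjoin _ _ ⟨b, L, om, hL, Or.inr ⟨z, htor, hz0, rfl⟩⟩
  have h1 : IsAlgebraic (kk A B)
      (⟨xn L z, hmem⟩ : (RF (idl m : Ideal (OO A B)) : IntermediateField (kk A B) ℂ)) :=
    Algebra.IsAlgebraic.isAlgebraic _
  have h2 : IsAlgebraic ℚ (xn L z) := alg_of hc (h1.algebraMap (A := ℂ))
  have e : L.weierstrassP z = xn L z + ((1 / 12 : ℚ) : ℂ) := by
    unfold xn
    push_cast
    ring
  rw [e]
  exact h2.add (isAlgebraic_algebraMap (A := ℂ) (1 / 12 : ℚ))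

/-- `u`, `e`, `a1`, `a3` are algebraic -/
theorem wei_alg (hc : CQ A B) (hT : TorX A B) {b : Ideal (OO A B)} {L : PeriodPair} {om : ℂ}
    (hL : IsNL b L om) {V : ValuationSubring ℂ} {u e a1 a3 : ℂ} (h : GoodT V L u e a1 a3) :
    IsAlgebraic ℚ u ∧ IsAlgebraic ℚ e ∧ IsAlgebraic ℚ a1 ∧ IsAlgebraic ℚ a3 := by
  have hq : ∀ q : ℚ, IsAlgebraic ℚ (q : ℂ) := fun q => isAlgebraic_algebraMap (A := ℂ) q
  obtain ⟨w1, w2, h1, h2, h3, h4, -, -, he, hu2⟩ := h.tor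
  have k1 := xn_alg hc hT hL (m := 3) (by norm_num) (by exact_mod_cast h1) h3
  have k2 := xn_alg hc hT hL (m := 3) (by norm_num) (by exact_mod_cast h2) h4
  have ke : IsAlgebraic ℚ e := by rw [he]; exact k1
  have ku2 : IsAlgebraic ℚ (u ^ 2) := by rw [hu2]; exact k2.sub k1
  have ku : IsAlgebraic ℚ u := IsAlgebraic.of_pow (by norm_num) ku2
  have hk := kap_alg hc hT hL
  have hg2 : IsAlgebraic ℚ L.g₂ := by
    have e1 : L.g₂ = ((144 : ℚ) : ℂ) * kap L + ((1 / 12 : ℚ) : ℂ) := by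
      unfold kap
      push_cast
      ring
    rw [e1]
    exact ((hq _).mul hk).add (hq _)
  have hg3 : IsAlgebraic ℚ L.g₃ := by
    have e1 : L.g₃ = ((-(1 / 18) : ℚ) : ℂ) * L.g₂ := by
      rw [hL.nrm]
      push_cast
      ring
    rw [e1]
    exact (hq _).mul hg2
  have hcub : ∀ X : ℂ, IsAlgebraic ℚ X → IsAlgebraic ℚ (4 * X ^ 3 - L.g₂ * X - L.g₃) := by
    intro X hX
    have h4' : IsAlgebraic ℚ (4 : ℂ) := by exact_mod_cast hq 4
    exact ((h4'.mul (hX.pow 3)).sub (hg2.mul hX)).sub hg3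
  have hu0 := h.u0
  have ki : IsAlgebraic ℚ ((u ^ 6)⁻¹) := (ku.pow 6).inv
  have e3 : a3 ^ 2 = (4 * e ^ 3 - L.g₂ * e - L.g₃) * (u ^ 6)⁻¹ := by
    rw [cubT h e]
    field_simp
    ring
  have k3 : IsAlgebraic ℚ (a3 ^ 2) := by rw [e3]; exact (hcub e ke).mul ki
  have e1 : a1 ^ 2 = ((1 / 2 : ℚ) : ℂ) *
      ((4 * (e + u ^ 2) ^ 3 - L.g₂ * (e + u ^ 2) - L.g₃) * (u ^ 6)⁻¹ +
        (4 * (e - u ^ 2) ^ 3 - L.g₂ * (e - u ^ 2) - L.g₃) * (u ^ 6)⁻¹) - a3 ^ 2 := by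
    rw [cubT h (e + u ^ 2), cubT h (e - u ^ 2)]
    push_cast
    field_simp
    ring
  have k4 : IsAlgebraic ℚ (a1 ^ 2) := by
    rw [e1]
    exact ((hq _).mul (((hcub _ (ke.add ku2)).mul ki).add ((hcub _ (ke.sub ku2)).mul ki))).sub k3
  exact ⟨ku, ke, IsAlgebraic.of_pow (by norm_num) k4, IsAlgebraic.of_pow (by norm_num) k3⟩

/-- `WeiN` for the lattice `u L` -/
theorem weiT (hS : MUXU.Su_SCX) (hc : CQ A B) (hT : TorX A B) {n : ℕ} {ι : Type}
    (R : Reps A B n ι) {V : ValuationSubring ℂ} (hv2 : V.valuation (2 : ℂ) < 1) {u e a1 a3 : ℂ}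
    (h : GoodT V (R.L R.i0) u e a1 a3) :
    ∃ (L' : PeriodPair), WeiN A B V L' (u * R.om R.i0) (e / u ^ 2) (WT a1 a3) := by
  obtain ⟨L', hL'⟩ := hS (R.L R.i0) u h.u0
  obtain ⟨s1, s2, -, -⟩ := ta_SCP (R.L R.i0) L' u h.u0 hL'
  have ho : R.om R.i0 ≠ 0 := (R.nl R.i0).om_ne
  have hv27 : V.valuation (27 : ℂ) = 1 := by
    have := vNp Nat.prime_two V (by exact_mod_cast hv2) 27 (by norm_num)
    exact_mod_cast this
  have hl1 : V.valuation a1 < 1 := lt_of_le_of_lt h.v1 hv2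
  obtain ⟨-, -, g1, g3⟩ := wei_alg hc hT (R.nl R.i0) h
  have h0 : IsAlgebraic ℚ (0 : ℂ) := isAlgebraic_zero
  refine ⟨L', mul_ne_zero h.u0 ho, ?_, ?_, ⟨g1, h0, g3, h0, h0⟩, ⟨?_, V.zero_mem, ?_,
    V.zero_mem, V.zero_mem⟩, ?_⟩
  · intro z
    have e1 : z = u * (u⁻¹ * z) := by rw [mul_inv_cancel_left₀ h.u0]
    rw [e1, ← hL' (u⁻¹ * z), (R.nl R.i0).mem]
    constructor
    · rintro ⟨x, -, hx⟩
      exact ⟨x, by rw [hx]; ring⟩
    · rintro ⟨x, hx⟩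
      refine ⟨x, by rw [R.b0]; trivial, ?_⟩
      have hu := h.u0
      apply mul_left_cancel₀ hu
      rw [hx]
      ring
  · intro z hz
    have e1 : z = u * (u⁻¹ * z) := by rw [mul_inv_cancel_left₀ h.u0]
    have hz' : u⁻¹ * z ∉ (R.L R.i0).lattice := by
      intro h4
      apply hz
      rw [e1]
      exact (hL' _).1 h4
    have h5 := h.eq _ hz'
    rw [WT_b₂, WT_b₄, WT_b₆, e1, s1, s2]
    have hu := h.u0
    rw [h5]
    field_simp
    ring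
  · exact (V.valuation_le_one_iff _).1 hl1.le
  · exact (V.valuation_le_one_iff _).1 h.v3.le
  · rw [WT_Δ, map_mul, map_pow, h.v3, one_pow, one_mul]
    have e2 : V.valuation (27 * a3) = 1 := by rw [map_mul, hv27, h.v3, one_mul]
    rw [Valuation.map_sub_swap, Valuation.map_sub_eq_of_lt_left _ (by
      rw [e2, map_pow]
      exact pow_lt_one₀ zero_le hl1 (by norm_num)), e2]

end

end Pool.Agent.N2G
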