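import Pool.Agent.N2.StHU

/-!
# MUX-2R, block HU: KYU, from locally constant values to vanishing closed cycles (helper90, after `H_KYU.lean` of helper83)
-/

set_option autoImplicit false

namespace Pool.Agent.N2H

open _root_.MU3 Pool.Agent.MuSym Pool.Agent.MUXH Pool.Agent.N2 OnePoint

noncomputable section

namespace KYU

open Pool.Agent

/-- the translation by `1/32` on the finite cusps -/
theorem tau (x : ℚ) : mob 32 1 0 32 (x : OnePoint ℚ) = ((x + 1 / 32 : ℚ) : OnePoint ℚ) := by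
  rw [NSY.mob_coe _ _ _ _ _ (by norm_num)]
  congr 1
  push_cast
  ring

theorem tau_inf : mob 32 1 0 32 (∞ : OnePoint ℚ) = ∞ := NSY.mob_infty0 _ _ _

/-- conjugation of a matrix by the translation by `1/32` -/
theorem conj (a b c d a' b' d' : ℤ) (ha : 32 * a' = 32 * a + c)
    (hb : 1024 * b' = 1024 * b + 32 * (d - a) - c) (hd : 32 * d' = 32 * d - c) (x : OnePoint ℚ) :
    mob 32 1 0 32 (mob a b c d x) = mob a' b' c d' (mob 32 1 0 32 x) := by
  have ha' : (a' : ℚ) = a + c / 32 := by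
    have : (32 : ℚ) * a' = 32 * a + c := by exact_mod_cast ha
    linarith
  have hb' : (b' : ℚ) = b + (d - a) / 32 - c / 1024 := by
    have : (1024 : ℚ) * b' = 1024 * b + 32 * (d - a) - c := by exact_mod_cast hb
    linarith
  have hd' : (d' : ℚ) = d - c / 32 := by
    have : (32 : ℚ) * d' = 32 * d - c := by exact_mod_cast hd
    linarith
  induction x using OnePoint.rec with
  | infty =>
    by_cases hc : c = 0
    · subst hc
      rw [NSY.mob_infty0, tau_inf, NSY.mob_infty0]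
    · have hc' : (c : ℚ) ≠ 0 := by exact_mod_cast hc
      rw [NSY.mob_infty _ _ _ _ hc, tau, tau_inf, NSY.mob_infty _ _ _ _ hc, ha']
      congr 1
      field_simp
  | coe r =>
    rw [tau]
    have e : (c : ℚ) * (r + 1 / 32) + d' = c * r + d := by
      rw [hd']
      ring
    by_cases h : (c : ℚ) * r + d = 0
    · have h1 : mob a b c d (r : OnePoint ℚ) = ∞ := by
        unfold mob
        simp [h]
      have h2 : mob a' b' c d' ((r + 1 / 32 : ℚ) : OnePoint ℚ) = ∞ := by
        have e' : (c : ℚ) * (r + 32⁻¹) + d' = 0 := by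
          rw [← h, ← e]
          ring
        unfold mob
        simp [e']
      rw [h1, h2, tau_inf]
    · rw [NSY.mob_coe _ _ _ _ _ h, tau, NSY.mob_coe _ _ _ _ _ (by rw [e]; exact h), e]
      congr 1
      have h' : (c : ℚ) * r + d ≠ 0 := h
      rw [eq_div_iff h', add_mul, div_mul_cancel₀ _ h', ha', hb']
      ring

/-- odd integers are units of `V` -/
theorem unit (V : ValuationSubring ℂ) (hv : V.valuation (2 : ℂ) < 1) (q : ℕ)
    (hq : q.Coprime 2) : V.valuation (q : ℂ) = 1 := by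
  have h1 : V.valuation (q : ℂ) ≤ 1 := by
    rw [ValuationSubring.valuation_le_one_iff]
    exact natCast_mem V q
  refine le_antisymm h1 (not_lt.1 fun h => ?_)
  obtain ⟨u, w, huw⟩ := Nat.isCoprime_iff_coprime.2 hq
  have e : ((u : ℂ) * q + w * 2) = 1 := by exact_mod_cast huw
  have h2 : V.valuation ((u : ℂ) * q + w * 2) < 1 := by
    apply Valuation.map_add_lt
    · rw [map_mul]
      have hu : V.valuation (u : ℂ) ≤ 1 := by
        rw [ValuationSubring.valuation_le_one_iff]
        exact intCast_mem V u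
      calc V.valuation (u : ℂ) * V.valuation (q : ℂ) ≤ 1 * V.valuation (q : ℂ) := by gcongr
        _ < 1 := by rw [one_mul]; exact h
    · rw [map_mul]
      have hw : V.valuation (w : ℂ) ≤ 1 := by
        rw [ValuationSubring.valuation_le_one_iff]
        exact intCast_mem V w
      calc V.valuation (w : ℂ) * V.valuation (2 : ℂ) ≤ 1 * V.valuation (2 : ℂ) := by gcongr
        _ < 1 := by rw [one_mul]; exact hv
  rw [e, map_one] at h2
  exact lt_irrefl _ h2

/-- a submodule is closed under division by units -/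
theorem div (V : ValuationSubring ℂ) (m : Submodule V ℂ) (u z : ℂ)
    (hu : V.valuation u = 1) (h : u * z ∈ m) : z ∈ m := by
  have hu0 : u ≠ 0 := by
    rintro rfl
    rw [map_zero] at hu
    exact zero_ne_one hu
  have hi : u⁻¹ ∈ V := by
    rw [← ValuationSubring.valuation_le_one_iff, map_inv₀, hu, inv_one]
  have h2 := m.smul_mem ⟨u⁻¹, hi⟩ h
  have e : (⟨u⁻¹, hi⟩ : V) • (u * z) = z := by
    show u⁻¹ * (u * z) = z
    field_simp
  rwa [e] at h2

end KYU

open KYU Pool.Agent in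
theorem tu_KYU (h1 : St_PAIT) : Su_KYU := by
  intro V hv m N₀ s₀ nu Q hN₀ hcop hnu1 hnuper hnuv hsym r n₀ hloc
  have hN1 : 1 < N₀ := by omega
  set R : ℕ := 10 + (s₀ + 1) + r + 3 with hR
  have hpow : ∀ {i j : ℕ}, i ≤ j → (2 : ℤ) ^ i ∣ 2 ^ j := fun h => pow_dvd_pow 2 h
  -- divisors of the level
  have hlev : ∀ c : ℤ, (2 : ℤ) ^ R * N₀ ∣ c → ((2 ^ (s₀ + 1) * N₀ : ℕ) : ℤ) ∣ c := by
    intro c hc
    refine dvd_trans ?_ hc
    push_cast
    exact mul_dvd_mul_right (hpow (by omega)) _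
  have h8 : ∀ {i : ℕ}, 3 ≤ i → (8 : ℤ) ∣ 2 ^ i := fun h => by
    have : (8 : ℤ) = 2 ^ 3 := by norm_num
    rw [this]
    exact hpow h
  have hlev2 : ∀ c : ℤ, (2 : ℤ) ^ R * N₀ ∣ c → ((2 * N₀ : ℕ) : ℤ) ∣ c := by
    intro c hc
    refine dvd_trans ?_ hc
    push_cast
    exact mul_dvd_mul_right (dvd_pow_self 2 (by omega)) _
  have hlev3 : ∀ c : ℤ, (2 : ℤ) ^ R * N₀ ∣ c → ((8 * N₀ : ℕ) : ℤ) ∣ c := by
    intro c hc
    refine dvd_trans ?_ hc
    push_cast
    exact mul_dvd_mul_right (h8 (by omega)) _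
  -- `c = 32 c₁`
  have hc1 : ∀ c : ℤ, (2 : ℤ) ^ R * N₀ ∣ c → ∃ c₁ : ℤ, c = 32 * c₁ ∧
      ((8 * N₀ : ℕ) : ℤ) ∣ c₁ ∧ (2 : ℤ) ^ (r + 1) ∣ c₁ ∧ (32 : ℤ) ∣ c₁ := by
    rintro c ⟨k, rfl⟩
    refine ⟨2 ^ (R - 5) * N₀ * k, ?_, ?_, ?_, ?_⟩
    · have e : (2 : ℤ) ^ R = 32 * 2 ^ (R - 5) := by
        conv_lhs => rw [show R = 5 + (R - 5) by omega, pow_add]
        norm_num
      rw [e]
      ring
    · push_cast
      apply Dvd.dvd.mul_right
      exact mul_dvd_mul_right (h8 (by omega)) _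
    · apply Dvd.dvd.mul_right
      apply Dvd.dvd.mul_right
      exact hpow (by omega)
    · apply Dvd.dvd.mul_right
      apply Dvd.dvd.mul_right
      have : (32 : ℤ) = 2 ^ 5 := by norm_num
      rw [this]
      exact hpow (by omega)
  have key := NSY.key0_two (M := ℂ ⧸ m) (N := N₀) (r := R) (n0 := n₀ + r + 8)
    (Φ := fun x y => Submodule.Quotient.mk (PTq 32 Q x y)) hN1
    (Nat.coprime_two_left.mp hcop) (by omega) ?_ ?_ ?_ ?_ ?_
  · refine ⟨R, fun a b c d hdet hc hd x => ?_⟩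
    have h := key a b c d hdet hc hd x
    exact (Submodule.Quotient.mk_eq_zero m).1 h
  · -- no torsion
    intro q hq x hx
    obtain ⟨z, rfl⟩ := Submodule.Quotient.mk_surjective m x
    rw [← Submodule.Quotient.mk_smul, Submodule.Quotient.mk_eq_zero, nsmul_eq_mul] at hx
    rw [Submodule.Quotient.mk_eq_zero]
    exact KYU.div V m q z (KYU.unit V hv q (Nat.coprime_two_right.mpr hq)) hx
  · -- additivity
    intro x y z
    show Submodule.Quotient.mk (PTq 32 Q x y) + Submodule.Quotient.mk (PTq 32 Q y z) =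
      (Submodule.Quotient.mk (PTq 32 Q x z) : ℂ ⧸ m)
    rw [← Submodule.Quotient.mk_add]
    congr 1
    unfold PTq
    rw [← hsym.add x y z, ← hsym.add (mob 32 1 0 32 x) (mob 32 1 0 32 y) (mob 32 1 0 32 z)]
    ring
  · -- invariance
    intro a b c d hdet hc' hd' x y
    have ha' : (2 : ℤ) ^ R * N₀ ∣ a - 1 := by
      have e : a - 1 = b * c - a * (d - 1) := by linear_combination hdet
      rw [e]
      exact dvd_sub (hc'.mul_left b) (hd'.mul_left a)
    obtain ⟨c₁, hcc, hcN, -, c₂, hc2⟩ := hc1 c hc'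
    obtain ⟨d₁, hdd, -, -, -⟩ := hc1 _ hd'
    obtain ⟨a₁, haa, -, -, -⟩ := hc1 _ ha'
    have hnud : nu d = 1 := by
      rw [hnuper d 1 (hlev3 _ hd'), hnu1]
    have hnud' : nu (d - c₁) = 1 := by
      rw [hnuper (d - c₁) 1 ?_, hnu1]
      have e : d - c₁ - 1 = d - 1 - c₁ := by ring
      rw [e]
      exact dvd_sub (hlev3 _ hd') hcN
    have hconj := KYU.conj a b c d (a + c₁) (b + (d₁ - a₁) - c₂) (d - c₁)
      (by rw [hcc]; ring) (by
        have e : d - a = 32 * (d₁ - a₁) := by linear_combination hdd - haa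
        rw [e, hcc, hc2]
        ring) (by rw [hcc]; ring)
    have hdet' : (a + c₁) * (d - c₁) - (b + (d₁ - a₁) - c₂) * c = 1 := by
      have e1 : (32 : ℤ) * (d₁ - a₁) = d - a := by linear_combination haa - hdd
      have e2 : c = 32 * c₁ := hcc
      have e3 : (32 : ℤ) * c₂ = c₁ := hc2.symm
      have : (a + c₁) * (d - c₁) - (b + (d₁ - a₁) - c₂) * c =
          (a * d - b * c) + c₁ * (d - a - 32 * (d₁ - a₁)) - c₁ * (c₁ - 32 * c₂) := by
        rw [e2]
        ring
      rw [this, hdet, e1, e3]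
      ring
    show (Submodule.Quotient.mk (PTq 32 Q (mob a b c d x) (mob a b c d y)) : ℂ ⧸ m) =
      Submodule.Quotient.mk (PTq 32 Q x y)
    congr 1
    unfold PTq
    rw [hconj x, hconj y, hsym.equiv a b c d hdet (hlev _ hc') x y,
      hsym.equiv _ _ c _ hdet' (hlev _ hc'), hnud, hnud', one_mul, one_mul]
  · -- (A)
    intro a b c d n hn hc hd hac hbd hN' hdet2
    obtain ⟨c₁, hcc, hcN, hcr, hc32⟩ := hc1 c hN'
    have h2c : (2 : ℤ) ∣ c := (Dvd.intro _ rfl : (2 : ℤ) ∣ 2 * N₀).trans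
      (by simpa using hlev2 c hN')
    have ha2 : IsCoprime a (2 : ℤ) := hac.of_isCoprime_of_dvd_right h2c
    -- `d`
    have hdd : (2 : ℤ) ^ (r + 6) ∣ d := by
      have h2 : (2 : ℤ) ^ (r + 6) ∣ a * d := by
        have e : a * d = 2 ^ n + b * c := by linear_combination hdet2
        rw [e]
        apply dvd_add (hpow (by omega))
        apply Dvd.dvd.mul_left
        exact dvd_trans (dvd_trans (hpow (by omega : r + 6 ≤ R)) (Dvd.intro _ rfl)) hN'
      exact (ha2.symm.pow_left).dvd_of_dvd_mul_left h2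
    obtain ⟨d₂, hd2⟩ := hdd
    set d₁ : ℤ := 2 ^ (r + 1) * d₂ with hd1
    have hdd1 : d = 32 * d₁ := by
      rw [hd2, hd1, pow_add, pow_add]
      ring
    have h2d : (2 : ℤ) ∣ d := ⟨16 * d₁, by rw [hdd1]; ring⟩
    have hb2 : ¬ (2 : ℤ) ∣ b := by
      intro h
      have h4 : IsCoprime (2 : ℤ) 2 := (hbd.of_isCoprime_of_dvd_left h).of_isCoprime_of_dvd_right h2d
      rw [isCoprime_self, Int.isUnit_iff] at h4
      omega
    -- PAIT for `Q`
    obtain ⟨e, he, hQe⟩ := h1 _ nu Q hsym n a b c d hc hd hac (hlev _ hN') hdet2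
    have hac' : IsCoprime (a + c₁) c := by
      have h5 : IsCoprime (a + c₁) c₁ := by
        have : IsCoprime a c₁ := hac.of_isCoprime_of_dvd_right ⟨32, by rw [hcc]; ring⟩
        have h6 := IsCoprime.add_mul_left_left this 1
        rwa [mul_one] at h6
      have h6 : IsCoprime (a + c₁) (32 : ℤ) := h5.of_isCoprime_of_dvd_right hc32
      rw [hcc]
      exact h6.mul_right h5
    obtain ⟨e', he', hQe'⟩ := h1 _ nu Q hsym n (a + c₁) (b + d₁) c d hc hd hac' (hlev _ hN') (by
      rw [← hdet2]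
      have : (a + c₁) * d - (b + d₁) * c = a * d - b * c + (c₁ * d - d₁ * c) := by ring
      rw [this, hcc, hdd1]
      ring)
    have hnua : nu (a + c₁) = nu a := by
      apply hnuper
      have : a + c₁ - a = c₁ := by ring
      rw [this]
      exact hcN
    rw [hnua] at hQe'
    -- the two cusps
    have hcQ : (c : ℚ) ≠ 0 := by exact_mod_cast hc
    have hdQ : (d : ℚ) ≠ 0 := by exact_mod_cast hd
    have hcq : (c : ℚ) = 32 * c₁ := by exact_mod_cast hcc
    have hdq : (d : ℚ) = 32 * d₁ := by exact_mod_cast hdd1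
    have eu : ((a + c₁ : ℤ) : ℚ) / c = (a : ℚ) / c + 1 / 32 := by
      push_cast
      have h7 : (c₁ : ℚ) = c / 32 := by rw [hcq]; ring
      rw [h7]
      field_simp
    have ew : ((b + d₁ : ℤ) : ℚ) / d = (b : ℚ) / d + 1 / 32 := by
      push_cast
      have h7 : (d₁ : ℚ) = d / 32 := by rw [hdq]; ring
      rw [h7]
      field_simp
    rw [eu, ew] at hQe'
    -- comparison of `e` and `e'`
    have hrn : (2 : ℤ) ^ (r + 1) ∣ 2 ^ n := hpow (by omega)
    have hee : (2 : ℤ) ^ r ∣ e - e' := by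
      have h8 : (2 : ℤ) ^ (r + 1) ∣ a * (e - e') := by
        have e1 : a * (e - e') = (a * e - b) - ((a + c₁) * e' - (b + d₁)) + c₁ * e' - d₁ := by ring
        rw [e1]
        apply dvd_sub
        · apply dvd_add
          · exact dvd_sub (hrn.trans he) (hrn.trans he')
          · exact hcr.mul_right _
        · exact Dvd.intro _ rfl
      have h9 : (2 : ℤ) ^ (r + 1) ∣ e - e' := (ha2.symm.pow_left).dvd_of_dvd_mul_left h8
      exact (hpow (by omega)).trans h9
    have he2 : ¬ (2 : ℤ) ∣ e := by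
      intro h
      apply hb2
      have e1 : b = a * e - (a * e - b) := by ring
      rw [e1]
      apply dvd_sub (h.mul_left a)
      exact (dvd_trans (dvd_pow_self 2 (by omega : n ≠ 0)) he)
    have hl := hloc n (by omega) e e' he2 hee
    rw [← hQe, ← hQe', ← mul_sub] at hl
    have hva : V.valuation (nu a) = 1 := by
      apply hnuv
      exact hac.of_isCoprime_of_dvd_right (hlev2 _ hN')
    have hfin := KYU.div V m _ _ hva hl
    show (Submodule.Quotient.mk (PTq 32 Q _ _) : ℂ ⧸ m) = 0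
    rw [Submodule.Quotient.mk_eq_zero]
    unfold PTq
    rw [tau, tau]
    exact hfin
  · -- (A0)
    intro b n hn hb
    have hb2 : ¬ (2 : ℤ) ∣ b := by
      rw [← even_iff_two_dvd, Int.not_even_iff_odd]
      exact hb
    show (Submodule.Quotient.mk (PTq 32 Q _ _) : ℂ ⧸ m) = 0
    rw [Submodule.Quotient.mk_eq_zero]
    unfold PTq
    rw [tau_inf, tau]
    have hl := hloc n (by omega) b (b + 2 ^ (n - 5)) hb2 (by
      have e : b - (b + 2 ^ (n - 5)) = -(2 ^ (n - 5)) := by ring
      rw [e, dvd_neg]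
      exact hpow (by omega))
    have e : (((b + 2 ^ (n - 5) : ℤ) : ℚ) / 2 ^ n) = (b : ℚ) / 2 ^ n + 1 / 32 := by
      have e2 : (2 : ℚ) ^ n = 32 * 2 ^ (n - 5) := by
        conv_lhs => rw [show n = 5 + (n - 5) by omega, pow_add]
        norm_num
      push_cast
      rw [e2]
      field_simp
    rw [e] at hl
    exact hl

end

end Pool.Agent.N2H
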