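import Pool.Agent.N2.H_ChT
import Pool.Agent.MUX.HY_PRX
import Pool.Agent.MUX.HY_QSX
import Pool.Agent.MUX.XTF7

/-!
# N2, block H (helper41): projector and depletion, for `2` inert (models `NS/H_Prn.lean`, `NS/H_Dep.lean`)
-/

set_option autoImplicit false

namespace Pool.Agent.N2H

open _root_.MU3 Pool.Agent.MU3A Pool.Agent.MU3B Pool.Agent.MU3F Pool.Agent.MUX Pool.Agent.MUXH
  Pool.Agent.MUXHY Pool.Agent.MuSym Pool.Agent.NS Pool.Agent.N2 OnePoint
open scoped ComplexConjugate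

noncomputable section

variable {A B : ℤ}

lemma sgn_PK {n : ℕ} {ι : Type} [Fintype ι] (R : Reps A B n ι) (e : OO A B → ℂ) (kk : ι → ℂ)
    (Z s : ℂ) (x y : OnePoint ℚ) :
    sgnPart s (fun x y => PhiK R e kk x y / Z) x y =
      (∑ c, kk c * sgnPart s (PhiI (R.b c) e) x y) / Z := by
  unfold sgnPart PhiK
  rw [← mul_div_assoc, ← add_div, Finset.mul_sum, ← Finset.sum_add_distrib]
  congr 1
  refine Finset.sum_congr rfl fun c _ => ?_
  ring

/-- the projector -/
theorem prT (h3 : MUXF.Sx_PHX) (h4 : MUXF.Sx_PRJ) {V : ValuationSubring ℂ} {f : ℕ}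
    (hS : SetT A B V f) {n : ℕ} {ι : Type} [Fintype ι] (R : Reps A B n ι) {e : OO A B → ℂ}
    (he : IsEI (idl (A := A) (B := B) (2 * f)) e) (kk : ι → ℂ) (Z s : ℂ) :
    ∃ (q : ℕ) (c : ℕ → ℂ), ¬ 2 ∣ q ∧ q ≠ 0 ∧ (∀ t, V.valuation (c t) ≤ 1) ∧ ∀ x y : OnePoint ℚ,
      ∑ t ∈ Finset.range q, c t * sgnPart s (fun x y => PhiK R e kk x y / Z) (mob q t 0 q x)
        (mob q t 0 q y) = PhiK R e kk x y / Z := by
  obtain ⟨-, -, hv1, hr, hD, hD3, hgD, hg, -, -⟩ := valT hS
  obtain ⟨φ, hφ, hper, hφ2⟩ := h3 A B (toCQ hS.case.toCQ)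
  have hqD : (((absD A B).toNat : ℕ) : ℤ) = absD A B := Int.toNat_of_nonneg hD.le
  have hq : (absD A B).toNat ≠ 0 := by omega
  have hv : V.valuation (((absD A B).toNat : ℕ) : ℂ) = 1 := by
    have h5 : (((absD A B).toNat : ℕ) : ℂ) = ((absD A B : ℤ) : ℂ) := by
      rw [← Int.cast_natCast (R := ℂ) (absD A B).toNat, hqD]
    rw [h5]
    exact hv1 _ hD3
  refine ⟨(absD A B).toNat, fun t => (1 / ((absD A B).toNat : ℂ)) *
    ∑ n ∈ Finset.range (absD A B).toNat, φ n * ex (-(t * n) / (absD A B).toNat), by omega, hq,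
    fun t => Prx.val_le V hr _ hq hv φ hφ t, fun x y => ?_⟩
  have key : ∀ c, ∑ t ∈ Finset.range (absD A B).toNat, ((1 / ((absD A B).toNat : ℂ)) *
      ∑ n ∈ Finset.range (absD A B).toNat, φ n * ex (-(t * n) / (absD A B).toNat)) *
      sgnPart s (PhiI (R.b c) e) (mob (absD A B).toNat t 0 (absD A B).toNat x)
        (mob (absD A B).toNat t 0 (absD A B).toNat y) = PhiI (R.b c) e x y := by
    intro c
    exact h4 A B (toCQ hS.case.toCQ) (R.b c) _ e (R.nl c).b_ne hg (toEI he) _ φ hq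
      (fun n => by rw [hqD]; exact hper n)
      (hφ2 (R.b c) _ e (R.nl c).b_ne (toEI he) hgD) s x y
  simp only [sgn_PK]
  simp only [← mul_div_assoc]
  rw [← Finset.sum_div]
  congr 1
  simp only [Finset.mul_sum (s := (Finset.univ : Finset ι))]
  rw [Finset.sum_comm]
  unfold PhiK
  refine Finset.sum_congr rfl fun c _ => ?_
  rw [← key c, Finset.mul_sum]
  refine Finset.sum_congr rfl fun t _ => ?_
  ring

/-- for `2` inert, `e x = 0` if `2` divides the exponent -/
theorem e_zero (hQB : MUXF.Sx_QB) {V : ValuationSubring ℂ} {f : ℕ} (hS : SetT A B V f)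
    {e : OO A B → ℂ} (he : IsEI (idl (A := A) (B := B) (2 * f)) e) {b : Ideal (OO A B)}
    (hb : b ≠ ⊥) {x : OO A B} (hx : x ∈ b) (h3 : (2 : ℤ) ∣ MUXF.qb b x) : e x = 0 := by
  obtain ⟨h1, -⟩ := (hQB A B (toCQ hS.case.toCQ) b hb).1 x hx
  have h2 : (2 : ℤ) ∣ nm x := by rw [h1]; exact Dvd.dvd.mul_left h3 _
  have h4 : (2 : ℤ) ∣ x.re ∧ (2 : ℤ) ∣ x.im := by
    have h5 := hS.case.two
    unfold nm at h2
    rcases hS.case.hB with hB | hB
    · subst hB
      omega
    · subst hB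
      obtain ⟨k, hk⟩ := h5
      obtain ⟨l, hl⟩ := h2
      have hA : A - 1 = 2 * k := by linarith
      have h6 : (2 : ℤ) ∣ x.re ^ 2 + x.re * x.im + x.im ^ 2 := by
        refine ⟨l + (k + 1) * x.im ^ 2, ?_⟩
        linear_combination hl + x.im ^ 2 * hA
      have e1 : x.re % 2 = 0 ∨ x.re % 2 = 1 := by omega
      have e2 : x.im % 2 = 0 ∨ x.im % 2 = 1 := by omega
      rw [Int.dvd_iff_emod_eq_zero, Int.add_emod, Int.add_emod (x.re ^ 2), pow_two,
        pow_two, Int.mul_emod, Int.mul_emod x.re x.im, Int.mul_emod x.im x.im] at h6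
      rcases e1 with e1 | e1 <;> rcases e2 with e2 | e2 <;>
        rw [e1, e2] at h6 <;> omega
  by_contra hne
  have h5 := (he.supp _).1 hne
  obtain ⟨⟨s, hs⟩, ⟨t, ht⟩⟩ := h4
  have h6 : x = ((2 : ℕ) : OO A B) * ⟨s, t⟩ := by
    ext
    · rw [QuadraticAlgebra.re_mul, QuadraticAlgebra.re_natCast, QuadraticAlgebra.im_natCast, hs]
      push_cast
      ring
    · rw [QuadraticAlgebra.im_mul, QuadraticAlgebra.re_natCast, QuadraticAlgebra.im_natCast, ht]
      push_cast
      ring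
  obtain ⟨i, hi, j, hj, hij⟩ := (Ideal.isCoprime_iff_exists).1 h5
  rw [Ideal.mem_span_singleton] at hi hj
  obtain ⟨i', hi'⟩ := hi
  obtain ⟨j', hj'⟩ := hj
  have h7 : ((2 : ℕ) : OO A B) * (⟨s, t⟩ * i' + ((f : ℕ) : OO A B) * j') = 1 := by
    rw [← hij, hi', hj']
    conv_rhs => rw [h6]
    push_cast
    ring
  have h8 := congrArg QuadraticAlgebra.re h7
  rw [QuadraticAlgebra.re_mul, QuadraticAlgebra.re_natCast, QuadraticAlgebra.im_natCast,
    QuadraticAlgebra.re_one] at h8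
  omega

/-- the sum over the translates by halves of theta is zero -/
theorem theta_dep {V : ValuationSubring ℂ} {f : ℕ} (hS : SetT A B V f)
    {e : OO A B → ℂ} (he : IsEI (idl (A := A) (B := B) (2 * f)) e) {b : Ideal (OO A B)}
    (hb : b ≠ ⊥) (z : ℂ) (hz : 0 < z.im) :
    ∑ j ∈ Finset.range 2, thetaI b e (z + (j : ℂ) / 2) = 0 := by
  obtain ⟨-, -, -, -, -, -, -, hg, -, -⟩ := valT hS
  have hcq := toCQ hS.case.toCQ
  obtain ⟨-, C, hC0, hC⟩ := MUXF.xf_BDD A B hcq _ e hg (toEI he)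
  have him : ∀ j : ℕ, 0 < (z + (j : ℂ) / 2).im := by
    intro j
    have : ((j : ℂ) / 2).im = 0 := by
      have : ((j : ℂ) / 2) = (((j : ℝ) / 2 : ℝ) : ℂ) := by push_cast; ring
      rw [this]
      exact Complex.ofReal_im _
    rw [Complex.add_im, this, add_zero]
    exact hz
  have hsum : ∀ j : ℕ, Summable (fun x : b => e x * (starRingEnd ℂ) (emb (x : OO A B)) *
      Complex.exp (2 * Real.pi * Complex.I * ((nm (x : OO A B) : ℂ) / nI b) *
        (z + (j : ℂ) / 2))) :=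
    fun j : ℕ => MUXF.xf_TSM A B hcq b hb e C hC (z + (j : ℂ) / 2) (him j)
  have e1 : ∑ j ∈ Finset.range 2, thetaI b e (z + (j : ℂ) / 2) =
      (1 / 2) * ∑ j ∈ Finset.range 2, ∑' x : b, e x * (starRingEnd ℂ) (emb (x : OO A B)) *
        Complex.exp (2 * Real.pi * Complex.I * ((nm (x : OO A B) : ℂ) / nI b) *
          (z + (j : ℂ) / 2)) := by
    rw [Finset.mul_sum]
    rfl
  rw [e1, ← Summable.tsum_finsetSum (fun j _ => hsum j)]
  have e2 : ∀ x : b, ∑ j ∈ Finset.range 2, e x * (starRingEnd ℂ) (emb (x : OO A B)) *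
      Complex.exp (2 * Real.pi * Complex.I * ((nm (x : OO A B) : ℂ) / nI b) *
        (z + (j : ℂ) / 2)) = 0 := by
    intro x
    obtain ⟨h1, h2⟩ := (MUXF.xf_QB A B hcq b hb).1 x x.2
    have hnI : ((nI b : ℕ) : ℂ) ≠ 0 := by
      have := (MUXF.xf_IDL A B hcq b hb).1
      exact_mod_cast this
    by_cases h3 : (2 : ℤ) ∣ MUXF.qb b (x : OO A B)
    · rw [e_zero MUXF.xf_QB hS he hb x.2 h3]
      simp
    · have h4 : ((nm (x : OO A B) : ℤ) : ℂ) / ((nI b : ℕ) : ℂ) = ((MUXF.qb b (x : OO A B) : ℤ) : ℂ) := by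
        have h5 : nm (x : OO A B) = (nI b : ℤ) * MUXF.qb b (x : OO A B) := h1
        rw [h5]
        push_cast
        field_simp
      set N : ℤ := MUXF.qb b (x : OO A B) with hN
      have e3 : ∀ j : ℕ, Complex.exp (2 * Real.pi * Complex.I * ((nm (x : OO A B) : ℂ) / nI b) *
          (z + (j : ℂ) / 2)) = Complex.exp (2 * Real.pi * Complex.I * N * z) *
            Complex.exp (2 * Real.pi * Complex.I * N / 2) ^ j := by
        intro j
        rw [← Complex.exp_nat_mul, ← Complex.exp_add, h4]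
        congr 1
        ring
      simp only [e3]
      set q : ℂ := Complex.exp (2 * Real.pi * Complex.I * N / 2) with hq
      have hq3 : q ^ 2 = 1 := by
        rw [hq, ← Complex.exp_nat_mul, Complex.exp_eq_one_iff]
        exact ⟨N, by push_cast; ring⟩
      have hq1 : q ≠ 1 := by
        intro h
        rw [hq, Complex.exp_eq_one_iff] at h
        obtain ⟨k, hk⟩ := h
        apply h3
        refine ⟨k, ?_⟩
        have hpi : (2 * Real.pi * Complex.I : ℂ) ≠ 0 := Complex.two_pi_I_ne_zero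
        have h6 : (2 * Real.pi * Complex.I : ℂ) * N = (2 * Real.pi * Complex.I) * (2 * k) := by
          linear_combination 2 * hk
        have h7 := mul_left_cancel₀ hpi h6
        exact_mod_cast h7
      have h5 : ∑ j ∈ Finset.range 2, q ^ j = 0 := by
        have h6 := mul_geom_sum q 2
        rw [hq3, sub_self] at h6
        exact (mul_eq_zero.1 h6).resolve_left (sub_ne_zero.2 hq1)
      have h6 : ∀ j ∈ Finset.range 2, e x * (starRingEnd ℂ) (emb (x : OO A B)) *
          (Complex.exp (2 * Real.pi * Complex.I * N * z) * q ^ j) =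
          e x * (starRingEnd ℂ) (emb (x : OO A B)) *
          Complex.exp (2 * Real.pi * Complex.I * N * z) * q ^ j := fun j _ => by ring
      rw [Finset.sum_congr rfl h6, ← Finset.mul_sum, h5, mul_zero]
  rw [tsum_congr e2, tsum_zero, mul_zero]

/-- depletion -/
theorem phi_dep {V : ValuationSubring ℂ} {f : ℕ} (hS : SetT A B V f)
    {e : OO A B → ℂ} (he : IsEI (idl (A := A) (B := B) (2 * f)) e) {b : Ideal (OO A B)}
    (hb : b ≠ ⊥) (x : ℚ) :
    ∑ j ∈ Finset.range 2, PhiI b e ∞ (((x + j) / 2 : ℚ) : OnePoint ℚ) = 0 := by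
  obtain ⟨-, -, -, -, -, -, -, hg, -, -⟩ := valT hS
  have hcq := toCQ hS.case.toCQ
  have hI := fun r : ℚ => MUXF.xf_ITG A B hcq b _ e hb hg (toEI he) r
  have e1 : ∀ j ∈ Finset.range 2, PhiI b e ∞ (((x + j) / 2 : ℚ) : OnePoint ℚ) =
      2 * Real.pi * ∫ t in Set.Ioi (0 : ℝ), thetaI b e (((x / 2 : ℚ) : ℂ) + t * Complex.I +
        (j : ℂ) / 2) := by
    intro j _
    rw [Qsx.PhiI_inf]
    unfold IvI
    rw [neg_mul, neg_neg]
    congr 1
    refine MeasureTheory.integral_congr_ae (Filter.Eventually.of_forall fun t => ?_)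
    show thetaI b e _ = thetaI b e _
    congr 1
    push_cast
    ring
  rw [Finset.sum_congr rfl e1, ← Finset.mul_sum, ← MeasureTheory.integral_finsetSum]
  · have e2 : ∫ t in Set.Ioi (0 : ℝ), ∑ j ∈ Finset.range 2,
        thetaI b e (((x / 2 : ℚ) : ℂ) + t * Complex.I + (j : ℂ) / 2) = 0 := by
      rw [MeasureTheory.setIntegral_congr_fun (g := fun _ => (0 : ℂ)) measurableSet_Ioi]
      · simp
      · intro t ht
        refine theta_dep hS he hb _ ?_
        have h1 : (((x / 2 : ℚ) : ℂ)).im = 0 := by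
          rw [← Complex.ofReal_ratCast]
          exact Complex.ofReal_im _
        rw [Complex.add_im, h1, zero_add, Complex.mul_im]
        simpa using ht
    rw [e2, mul_zero]
  · intro j _
    have h1 := hI ((x + j) / 2)
    refine h1.congr_fun ?_ measurableSet_Ioi
    intro t _
    show thetaI b e _ = thetaI b e _
    congr 1
    push_cast
    ring

end

end Pool.Agent.N2H
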