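import Pool.Agent.N2.StR
import Pool.Agent.MUX.XLib

/-!
# MUX-2N, block R, module ALB: the multiplier `α = 1 + 3 β`, `2` inert

`β = w`. `v (emb x) = 1` for `x` not divisible by `2`; so `3`, `w` and the odd norm `N = 1 + 3 B - 9 A` are units at `V`.
-/

set_option autoImplicit false

open WeierstrassCurve Polynomial

namespace Pool.Agent.N2R

open _root_.MU3 Pool.Agent.MU3A Pool.Agent.MU3B Pool.Agent.RI Pool.Agent.MUX Pool.Agent.MUXU

noncomputable section

namespace ALBaux

lemma wC_int {A B : ℤ} (hc : CQ A B) : IsIntegral ℤ (wC A B) := by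
  refine ⟨Polynomial.X ^ 2 - Polynomial.C B * Polynomial.X - Polynomial.C A, ?_, ?_⟩
  · monicity!
  · have := wC_sq hc
    simp only [Polynomial.eval₂_sub, Polynomial.eval₂_mul, Polynomial.eval₂_pow,
      Polynomial.eval₂_X, Polynomial.eval₂_C]
    simp only [algebraMap_int_eq, eq_intCast]
    linear_combination this

lemma emb_mem_V {A B : ℤ} (hc : CQ A B) (V : ValuationSubring ℂ) (x : OO A B) : emb x ∈ V := by
  have h1 : wC A B ∈ V := by
    have h2 : IsIntegral V (wC A B) := (wC_int hc).tower_top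
    obtain ⟨y, hy⟩ := IsIntegrallyClosed.isIntegral_iff.1 h2
    rw [← hy]
    exact y.2
  have h3 : ∀ n : ℤ, (n : ℂ) ∈ V := fun n => intCast_mem V.toSubring n
  exact V.add_mem _ _ (h3 _) (V.mul_mem _ _ (h3 _) h1)

/-- the elements of `idl 2` are multiples of `2` -/
lemma mem2 {A B : ℤ} {x : OO A B} (hx : x ∈ idl (A := A) (B := B) 2) :
    (2 : ℤ) ∣ x.re ∧ (2 : ℤ) ∣ x.im := by
  obtain ⟨y, hy⟩ := Ideal.mem_span_singleton.1 hx
  have e2 : ((2 : ℕ) : OO A B) = ⟨2, 0⟩ := by
    ext
    · exact QuadraticAlgebra.re_natCast 2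
    · exact QuadraticAlgebra.im_natCast 2
  rw [e2] at hy
  refine ⟨⟨y.re, ?_⟩, ⟨y.im, ?_⟩⟩
  · rw [hy]
    simp
  · rw [hy]
    simp

/-- `v (emb x) = 1` for `x` not divisible by `2` -/
lemma v_one {A B : ℤ} {V : ValuationSubring ℂ} (hc : CQ A B)
    (hV : OverI V (idl (A := A) (B := B) 2)) {x : OO A B}
    (hx : ¬ ((2 : ℤ) ∣ x.re ∧ (2 : ℤ) ∣ x.im)) : V.valuation (emb x) = 1 := by
  refine le_antisymm ((V.valuation_le_one_iff _).2 (emb_mem_V hc V x)) (not_lt.1 fun h => hx ?_)
  exact mem2 ((hV x).1 (V.mem_nonunits_iff.2 h))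

end ALBaux

open ALBaux

/-- (ALB) the multiplier, `2` inert -/
theorem tr_ALB : Sr_ALB := by
  intro A B V hc h8 hV
  have hw : wC A B * wC A B = A + B * wC A B := wC_sq hc
  have v2 : V.valuation (2 : ℂ) < 1 := by
    have h1 : emb ((2 : ℕ) : OO A B) ∈ V.nonunits := (hV _).2 (Ideal.mem_span_singleton_self _)
    rw [emb_natCast hc] at h1
    exact_mod_cast V.mem_nonunits_iff.1 h1
  have v3 : V.valuation (3 : ℂ) = 1 := by
    have h1 : V.valuation (emb (⟨3, 0⟩ : OO A B)) = 1 := v_one hc hV (by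
      intro h
      have := h.1
      simp only at this
      omega)
    have h2 : emb (⟨3, 0⟩ : OO A B) = 3 := by simp [emb]
    rwa [h2] at h1
  have vw : V.valuation (emb (⟨0, 1⟩ : OO A B)) = 1 := v_one hc hV (by
    intro h
    have := h.2
    simp only at this
    omega)
  -- `B = 1`, `A` odd and negative
  have hneg := hc.neg
  have hB : B = 1 := by
    rcases hc.hB with h | h
    · exfalso
      subst h
      omega
    · exact h
  have hA : A % 2 = 1 ∧ A < 0 := by
    subst hB
    omega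
  have hpos : 1 < 1 + 3 * B - 9 * A := by
    subst hB
    omega
  have hN : (((1 + 3 * B - 9 * A).toNat : ℕ) : ℤ) = 1 + 3 * B - 9 * A :=
    Int.toNat_of_nonneg (by omega)
  have hNC : (((1 + 3 * B - 9 * A).toNat : ℕ) : ℂ) = 1 + 3 * B - 9 * A := by
    have := congrArg (fun n : ℤ => (n : ℂ)) hN
    push_cast at this
    exact this
  have eal : alB (⟨0, 1⟩ : OO A B) = 1 + 3 * wC A B := by
    rw [alB, MUX.emb_w]
  have eal' : emb (⟨1 + 3 * B, -3⟩ : OO A B) = 1 + 3 * B - 3 * wC A B := by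
    simp [emb]
    ring
  refine ⟨⟨0, 1⟩, (1 + 3 * B - 9 * A).toNat, ?_, vw⟩
  exact
    { cq := hc
      v2 := v2
      v3 := v3
      vb := by
        rw [vw]
        exact v2
      nrm := ⟨⟨1 + 3 * B, -3⟩, by
        rw [hNC, eal, eal']
        linear_combination 9 * hw⟩
      odd := by
        rw [Nat.odd_iff]
        omega
      one := by omega
      vN := by
        have h1 : V.valuation (emb (⟨1 + 3 * B - 9 * A, 0⟩ : OO A B)) = 1 := v_one hc hV (by
          intro h
          have := h.1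
          simp only at this
          omega)
        have h2 : emb (⟨1 + 3 * B - 9 * A, 0⟩ : OO A B) = 1 + 3 * B - 9 * A := by simp [emb]
        rw [hNC, ← h2]
        exact h1 }

end

end Pool.Agent.N2R
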