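import Pool.Agent.N2.StR
import Pool.Agent.MUX.XLib
import Pool.Agent.NS.RN_MFD

/-!
# MUX-2N, block R, module MFD: a finite extension which contains all the coordinates
-/

set_option autoImplicit false

open WeierstrassCurve Polynomial

namespace Pool.Agent.N2R

open _root_.MU3 Pool.Agent.MU3A Pool.Agent.MU3B Pool.Agent.RI Pool.Agent.MUX Pool.Agent.MUXU
open Pool.Agent.MUXV (InK tX)
open Pool.Agent.MUX2 (GRG)
open Pool.Agent.NS (xu)
open Pool.Agent.N2 (WT yt et GoodT CaseT)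
open Pool.Agent.NSR.MFD (RF_mono num_mem rp exists_rp deriv_rp)

noncomputable section

/-- MFD. -/
theorem tr_MFD (h : Sr_DEF) : Sr_MFD := by
  intro A B hQ hfin b L om hL u e a hD F hF
  classical
  obtain ⟨h12, -, -, -, -, ⟨w, hw⟩, -⟩ := h L u e a 1 hD
  have hI : idl (A := A) (B := B) (3 * F) ≠ ⊥ := by
    intro h
    rw [Ideal.span_singleton_eq_bot] at h
    exact natCast_ne_zero' hQ (mul_ne_zero three_ne_zero hF) h
  set K : IntermediateField (kk A B) ℂ := RF (idl (A := A) (B := B) (3 * F)) with hK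
  have hfK : FiniteDimensional (kk A B) K := hfin _ hI
  have hCM : HasCM A B L := IsLI.hasCM hQ hL.toIsLI
  have hk : kap L ∈ K := IntermediateField.subset_adjoin _ _ ⟨b, L, om, hL, Or.inl rfl⟩
  have hx : ∀ z ∉ L.lattice, ((3 * F : ℕ) : ℂ) * z ∈ L.lattice → xn L z ∈ K := by
    intro z hz hFz
    refine IntermediateField.subset_adjoin _ _ ⟨b, L, om, hL, Or.inr ⟨z, ?_, hz, rfl⟩⟩
    refine (tor_span hQ hCM _).2 ?_
    rw [emb_natCast hQ]
    exact hFz
  have hP : ∀ z ∉ L.lattice, ((3 * F : ℕ) : ℂ) * z ∈ L.lattice → L.weierstrassP z ∈ K := by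
    intro z hz hFz
    have h1 : L.weierstrassP z = xn L z + ((1 : ℕ) : ℂ) / ((12 : ℕ) : ℂ) := by
      unfold xn
      push_cast
      ring
    rw [h1]
    exact add_mem (hx z hz hFz) (div_mem (num_mem K 1) (num_mem K 12))
  have h3F : ∀ z : ℂ, (F : ℂ) * z ∈ L.lattice → ((3 * F : ℕ) : ℂ) * z ∈ L.lattice := by
    intro z hFz
    have h1 : ((3 * F : ℕ) : ℂ) * z = F * z + F * z + F * z := by push_cast; ring
    rw [h1]
    exact add_mem (add_mem hFz hFz) hFz
  have hF3 : ((3 * F : ℕ) : ℂ) * w ∈ L.lattice := by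
    have h1 : ((3 * F : ℕ) : ℂ) * w = F • (3 * w) := by
      rw [nsmul_eq_mul]
      push_cast
      ring
    rw [h1]
    exact nsmul_mem hw.three F
  have hg2 : L.g₂ ∈ K := by
    have h1 : L.g₂ = (((1728 : ℕ) : ℂ) * kap L + ((1 : ℕ) : ℂ)) / ((12 : ℕ) : ℂ) := by
      unfold kap
      push_cast
      ring
    rw [h1]
    exact div_mem (add_mem (mul_mem (num_mem K _) hk) (num_mem K 1)) (num_mem K 12)
  have hg3 : L.g₃ ∈ K := by
    have h1 : L.g₃ = -(L.g₂ / ((18 : ℕ) : ℂ)) := by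
      rw [hL.nrm]
      push_cast
      ring
    rw [h1]
    exact neg_mem (div_mem hg2 (num_mem K 18))
  have heK : e ∈ K := by
    rw [← hw.P]
    exact hP w hw.ne hF3
  have hint : ∀ y ∈ K, IsIntegral (kk A B) y := by
    intro y hy
    exact (Algebra.IsIntegral.isIntegral (R := kk A B) (⟨y, hy⟩ : K)).map K.val
  have hsq' : ∀ z ∉ L.lattice, ((3 * F : ℕ) : ℂ) * z ∈ L.lattice →
      L.derivWeierstrassP z ^ 2 ∈ K := by
    intro z hz hFz
    rw [L.derivWeierstrassP_sq z hz]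
    exact sub_mem (sub_mem (mul_mem (num_mem K 4) (pow_mem (hP z hz hFz) 3))
      (mul_mem hg2 (hP z hz hFz))) hg3
  have hsq : ∀ z ∉ L.lattice, ((3 * F : ℕ) : ℂ) * z ∈ L.lattice →
      IsIntegral (kk A B) (L.derivWeierstrassP z) := fun z hz hFz =>
    IsIntegral.of_pow (n := 2) (by norm_num) (hint _ (hsq' z hz hFz))
  have hu6 : u ^ 6 ∈ K := by
    have h1 := hsq' w hw.ne hF3
    rw [hw.D, mul_one, ← pow_mul] at h1
    exact h1
  have hau : (a * u) ^ 2 ∈ K := by
    have h1 : (a * u) ^ 2 = ((12 : ℕ) : ℂ) * e := by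
      push_cast
      linear_combination -h12
    rw [h1]
    exact mul_mem (num_mem K 12) heK
  let T : Set ℂ := {u, a * u} ∪ ((fun p : ℕ × ℕ => L.derivWeierstrassP (rp L F p.1 p.2)) ''
    {p : ℕ × ℕ | p.1 < F ∧ p.2 < F ∧ rp L F p.1 p.2 ∉ L.lattice})
  have hTfin : T.Finite := by
    refine (Set.toFinite {u, a * u}).union (Set.Finite.image _ ?_)
    refine Set.Finite.subset ((Finset.range F ×ˢ Finset.range F).finite_toSet) ?_
    rintro ⟨i, j⟩ ⟨h1, h2, -⟩
    simp only [Finset.coe_product, Set.mem_prod, Finset.mem_coe, Finset.mem_range]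
    exact ⟨h1, h2⟩
  have hFC : (F : ℂ) ≠ 0 := by exact_mod_cast hF
  have hrpF : ∀ i j : ℕ, (F : ℂ) * rp L F i j ∈ L.lattice := by
    intro i j
    refine PeriodPair.mem_lattice.2 ⟨i, j, ?_⟩
    unfold rp
    rw [mul_div_cancel₀ _ hFC]
    push_cast
    rfl
  have hTint : ∀ t ∈ T, IsIntegral (kk A B) t := by
    rintro t ((ht | ht) | ⟨⟨i, j⟩, ⟨-, -, h3⟩, rfl⟩)
    · rw [ht]
      exact IsIntegral.of_pow (n := 6) (by norm_num) (hint _ hu6)
    · rw [Set.mem_singleton_iff.1 ht]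
      exact IsIntegral.of_pow (n := 2) (by norm_num) (hint _ hau)
    · exact hsq _ h3 (h3F _ (hrpF i j))
  have : Finite T := hTfin.to_subtype
  have hTfd : FiniteDimensional (kk A B) (IntermediateField.adjoin (kk A B) T) :=
    IntermediateField.finiteDimensional_adjoin hTint
  have hKM : K ≤ K ⊔ IntermediateField.adjoin (kk A B) T := le_sup_left
  have hTM : ∀ t ∈ T, t ∈ K ⊔ IntermediateField.adjoin (kk A B) T := fun t ht =>
    (le_sup_right : IntermediateField.adjoin (kk A B) T ≤ _)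
      (IntermediateField.subset_adjoin _ _ ht)
  have huM : u ∈ K ⊔ IntermediateField.adjoin (kk A B) T := hTM _ (Or.inl (Or.inl rfl))
  have haM : a ∈ K ⊔ IntermediateField.adjoin (kk A B) T := by
    have h1 : a = a * u / u := by
      rw [mul_div_cancel_right₀ _ hD.u0]
    rw [h1]
    exact div_mem (hTM _ (Or.inl (Or.inr rfl))) huM
  refine ⟨K ⊔ IntermediateField.adjoin (kk A B) T, inferInstance, haM, ?_⟩
  intro z hz hFz
  have hX : xu L u e z ∈ K ⊔ IntermediateField.adjoin (kk A B) T := by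
    unfold xu
    exact div_mem (hKM (sub_mem (hP z hz (h3F z hFz)) heK)) (pow_mem huM 2)
  refine ⟨hX, ?_⟩
  obtain ⟨i, j, hi, hj, hij⟩ := exists_rp L F hF z hFz
  have hnot : rp L F i j ∉ L.lattice := by
    intro h
    have h2 := add_mem hij h
    rw [sub_add_cancel] at h2
    exact hz h2
  have h3 : L.derivWeierstrassP z ∈ K ⊔ IntermediateField.adjoin (kk A B) T := by
    rw [deriv_rp L hij]
    exact hTM _ (Or.inr ⟨(i, j), ⟨hi, hj, hnot⟩, rfl⟩)
  unfold yt
  have hnum : ∀ n : ℕ, (n : ℂ) ∈ K ⊔ IntermediateField.adjoin (kk A B) T := fun n => num_mem _ n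
  have h2 := hnum 2
  have h1 := hnum 1
  push_cast at h1 h2
  exact div_mem (sub_mem (sub_mem (div_mem h3 (pow_mem huM 3)) (mul_mem haM hX)) h1) h2

end

end Pool.Agent.N2R
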