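import Pool.Agent.N2.StE2
import Pool.Agent.N2.DefsR2

/-!
# MUX-2R, block ER2: squares and logarithmic derivatives, `2` ramified in `k` (helper59; form (B) of helper66)

`2 = P²` in `k`, `D ≠ -4` (`CaseR2`, `Pool/Agent/N2/DefsR2.lean`; so `B = 0`, `A = D/4` squarefree, `A ≡ 2` or `3` modulo 4: `CaseR2.b0`, `CaseR2.mod`), `w0 = √A = ⟨0, 1⟩`, `d = dR A` is 2 if `A ≡ 3` modulo 4 and 3 if `A ≡ 2`. `V` a valuation ring of `ℂ` above `P`, `v = V.valuation` (multiplicative: `v x ≤ v 2` means `x ∈ 2 V`). In the text `ord` is the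
additive valuation with `ord 2 = 1` (`v x ^ 2 = v 2` means `ord x = 1/2`). TWO LEVELS: `m = 2^(n+2) f` for the sets `XX` and the points `pt R m i x` of `ℂ/L_i`, and `m' = 2^(n+1) f` (`m = 2 m'`) for the fields: `D ≤ RF (m')`. `G_(i,x) = ∏_(l < 4) Θ(pt R m i (x + m' bb l))`, `F_(i,x) = Σ_(l < 4) dlX(..)`
(`bb l` runs over `O/2`) depend only on `x` modulo `m'` (DS2: they are `K_i Θ(pt R m' i x)` and `2 dlX(pt R m' i x)`). `L, M` are lattices with a model `GoodQ V L u e a1 a3`: `x = xu L u e = (℘ - e)/u²`, `y = yt L u e a1 a3`, `et L u = ℘'/u³ = 2 y + a1 x + a3`, `y² + a1 x y + a3 y = x³`,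
`et² = 4 x³ + (a1 x + a3)²`, `(v a1)² ≤ v 2`, `v a3 = 1`. `InK V L x z` (`Pool/Agent/MUX/VX.lean`): `z` is zero or in the kernel of reduction; `tX x y z = -x z/y z`. All lemmas of `Pool/Agent/MUX/VG.lean` hold (GRT).

IDEA: exactly as for `2` inert (`StE2.lean`; the finished files `Pool/Agent/N2/E_X.lean` are the models) with `m'` instead of `m`. Everything is a function of ONE number `ξ = x(Q)`, `Q = om/m'` (`L_0 = om emb O`). The `G_(i,x)` are rational functions over `V` of `ξ` (THT, GPO), an integral element `w` of the ray class field `RF (m' a)` is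
a polynomial over `V` in `ξ` (SIG), and the automorphism `c = 1 + N b`, `N = NN n f a = 2^(n-1) f a`, sends `Q` to `Q + Y`, `Y = emb b (a om/4)` any point with `4 Y ∈ L`. Points of exact order `P^(j+1)`: `ord t = 1/2^(j+1)` (TPU). The sum of `ord t(Y)` over the 15 points `Y` of `E[4] - 0` is 2.
The automorphisms `c_k = 1 + k N w0`, `k < 4`, are trivial on `D`; `Y = k w0 (a om/4)`: for `d = 2` points of exact order `P⁴, P², P⁴`, for `d = 3` of exact order `P³, P, P³`: the sum of `ord t(Y)` is `λ = 3/8`, `3/4`, i.e. `λ = 3 (d - 1)/8` (DST). (SQR) squares: `ord ≥ 1 + min(2, 1 + λ)`, (ORB) orbits: `ord ≥ 1 + λ`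
(the first `1` from the factor 2 in `F_(i,x)`), (MAIN) the weights `om x ≡ 1` instead of `emb x ≡ 1` modulo `P`: `ord ≥ 1/2 + 1 + λ`.

Every statement is a `def Sv_X : Prop`; the module N2V_X proves `theorem tv_X (h : ...) : Sv_X` in `Pool/Agent/N2/V_X.lean`, namespace `Pool.Agent.N2V`, with the statements named under `Uses` as hypotheses (drop those which are not needed; others may be added if they do not
depend on this one). Usable: `Pool.Agent.MU3B.b_X : St_X`, `Pool.Agent.MU3A.ta_SCP`, `Pool.Agent.MUXU.u_X : Su_X`, `Pool.Agent.MUXE.te_RNG`, `te_TRA`, `te_TRB`, `te_FAC te_TRA`, `te_GTH te_TRA`, `te_PT te_TRA`, `te_GAL` (`Pool/Agent/MUX/E_GAL.lean`), `Pool.Agent.NSE.te_BAS`, and the finished theorems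
`Pool.Agent.N2E.td_X : Sd_X` of the inert case which do not mention `GoodT`, `CtxT`: LAG, PRD, AUT, GTA. If the text says PORT, copy the finished proof `Pool/Agent/N2/E_X.lean` of the inert case and change `GoodT` to `GoodQ` (`(v a1)² ≤ v 2`, so `v a1 < 1`), `CtxT`, `SetE` to `CtxU`, `SetV`.
-/

set_option autoImplicit false

open Polynomial

namespace Pool.Agent.N2V

open _root_.MU3 Pool.Agent.MU3A Pool.Agent.MU3B Pool.Agent.MUX Pool.Agent.MUXU Pool.Agent.MUXE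
open Pool.Agent.RI Pool.Agent.NS Pool.Agent.N2
open Pool.Agent.NSE (IntP)
open Pool.Agent.MUX2 (GRG)
open Pool.Agent.MUXV (InK tX)
open Pool.Agent.N2E (dlg AutC cc)

noncomputable section

/-! ## Definitions -/

/-- an isogeny of odd degree between lattices with good models -/
structure IsoU (V : ValuationSubring ℂ) (L M : PeriodPair) (u e a1 a3 u' e' a1' a3' μ : ℂ) :
    Prop where
  gL : GoodQ V L u e a1 a3
  gM : GoodQ V M u' e' a1' a3'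
  v2 : V.valuation (2 : ℂ) < 1
  mu0 : μ ≠ 0
  isg : Isg L M μ
  odd : ∃ N : ℕ, ¬ 2 ∣ N ∧ ∀ z, μ * z ∈ M.lattice → (N : ℂ) * z ∈ L.lattice

/-- everything on `O`, `k`, `P`, `V` and the reduction which is used -/
structure CtxU (A B : ℤ) (P : Ideal (OO A B)) (V : ValuationSubring ℂ) : Prop where
  ring : RingE A B
  cq : CQ A B
  B0 : B = 0
  mod : A % 4 = 2 ∨ A % 4 = 3
  v2 : V.valuation (2 : ℂ) < 1
  int : ∀ x : OO A B, V.valuation (emb x) ≤ 1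
  unit : ∀ x : OO A B, x ∉ P → V.valuation (emb x) = 1
  nat : ∀ n : ℕ, ¬ 2 ∣ n → V.valuation (n : ℂ) = 1
  max : P.IsMaximal
  one : ∀ x : OO A B, x ∉ P → x - 1 ∈ P
  nrm : ∀ x : OO A B, x ∉ P → ¬ (2 : ℤ) ∣ nm x
  pi : ∃ ϖ : OO A B, V.valuation (emb ϖ) ^ 2 = V.valuation (2 : ℂ)
  w0 : V.valuation (emb (⟨0, 1⟩ : OO A B)) ^ 2 = V.valuation (2 : ℂ) ^ (dR A - 2)
  /-- the powers of `P`, with the valuation -/
  pw : ∀ (k : ℕ) (x : OO A B), x ∈ P ^ k ↔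
    V.valuation (emb x) ^ 2 ≤ V.valuation (2 : ℂ) ^ k
  /-- divisibility by `2^k`, with the valuation -/
  dv : ∀ (k : ℕ) (x : OO A B), x ∈ idl (A := A) (B := B) (2 ^ k) ↔
    V.valuation (emb x) ≤ V.valuation (2 : ℂ) ^ k
  good : ∀ L, NL A B L → ∃ u e a1 a3 : ℂ, GoodQ V L u e a1 a3
  val : ∀ f : ℕ, f ≠ 0 → ¬ 2 ∣ f → ∀ y ∈ RF (idl (A := A) (B := B) f), y ≠ 0 →
    ∃ k : ℤ, V.valuation y ^ 2 = V.valuation (2 : ℂ) ^ k
  exq : ∀ (L : PeriodPair), NL A B L → ∃ (N : PeriodPair) (nu : ℂ), NL A B N ∧ IsQ P L N nu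

/-- the hypotheses on the levels: `m = 2^(n+2) f` (points, sets `XX`), `m' = 2^(n+1) f` (fields) -/
structure SetV (A B : ℤ) (P : Ideal (OO A B)) (V : ValuationSubring ℂ) (n f a m m' : ℕ) :
    Prop where
  ctx : CtxU A B P V
  tor : TorX A B
  n5 : 5 ≤ n
  f3 : 3 ≤ f
  fd : 3 ∣ f
  fo : ¬ 2 ∣ f
  a3 : 3 ≤ a
  ao : ¬ 2 ∣ a
  af : a.Coprime f
  hm : m = 2 ^ (n + 2) * f
  hm' : m' = 2 ^ (n + 1) * f

/-- `N = 2^(n-1) f a`, a quarter of `m' a` -/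
def NN (n f a : ℕ) : ℕ := 2 ^ (n - 1) * f * a

/-- `√A` -/
def w0 {A B : ℤ} : OO A B := ⟨0, 1⟩

/-- representatives of `O/2` for `l < 4` -/
def bb {A B : ℤ} (l : ℕ) : OO A B := ⟨(l % 2 : ℕ), (l / 2 : ℕ)⟩

/-- the product over one fibre -/
def GFib {A B : ℤ} {n : ℕ} {ι : Type} (R : Reps A B n ι) (H : ι → Finset ℂ) (m m' : ℕ) (i : ι)
    (x : OO A B) : ℂ :=
  ∏ l ∈ Finset.range 4, ThetaH (R.L i) (H i) (pt R m i (x + (m' : OO A B) * bb l))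

/-- the sum over one fibre -/
def FFib {A B : ℤ} {n : ℕ} {ι : Type} (R : Reps A B n ι) (a m m' : ℕ) (i : ι)
    (x : OO A B) : ℂ :=
  ∑ l ∈ Finset.range 4, dlX (R.L i) a (pt R m i (x + (m' : OO A B) * bb l))

/-! ## The good model -/

/-- (COE) PORT of `Sd_COE` (`E_COE.lean`). -/
def Sv_COE : Prop :=
  ∀ (V : ValuationSubring ℂ) (L : PeriodPair) (u e a1 a3 : ℂ), GoodQ V L u e a1 a3 →
    V.valuation (2 : ℂ) < 1 →
    12 * e = a1 ^ 2 * u ^ 2 ∧ 12 * e ^ 2 - L.g₂ = 2 * a1 * a3 * u ^ 4 ∧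
    4 * e ^ 3 - L.g₂ * e - L.g₃ = a3 ^ 2 * u ^ 6 ∧ V.valuation (3 : ℂ) = 1 ∧
    V.valuation a1 < 1 ∧
    (∀ z, 2 * yt L u e a1 a3 z + a1 * xu L u e z + a3 = et L u z) ∧
    (∀ z ∉ L.lattice, et L u z ^ 2 = 4 * xu L u e z ^ 3 + (a1 * xu L u e z + a3) ^ 2) ∧
    (∀ z ∉ L.lattice, yt L u e a1 a3 z ^ 2 + a1 * xu L u e z * yt L u e a1 a3 z +
      a3 * yt L u e a1 a3 z = xu L u e z ^ 3) ∧
    (∀ z ∉ L.lattice, HasDerivAt (xu L u e) (u * et L u z) z) ∧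
    ∀ z, (∀ w ∈ L.lattice, xu L u e (z + w) = xu L u e z ∧ et L u (z + w) = et L u z ∧
        yt L u e a1 a3 (z + w) = yt L u e a1 a3 z) ∧
      xu L u e (-z) = xu L u e z ∧ et L u (-z) = -et L u z

/-- (GRT) PORT of `Sd_GRT` (`E_GRT.lean`), and points of odd order (`Sd_TPT`, first part). Uses Sv_COE. -/
def Sv_GRT : Prop :=
  ∀ (V : ValuationSubring ℂ) (L : PeriodPair) (u e a1 a3 : ℂ), GoodQ V L u e a1 a3 →
    V.valuation (2 : ℂ) < 1 →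
    (∃ ξ : ℂ →+ (WT a1 a3).Point, GRG V (WT a1 a3) L (xu L u e) (yt L u e a1 a3) ξ) ∧
    ∀ (N : ℕ), ¬ 2 ∣ N → V.valuation (N : ℂ) = 1 ∧ ∀ z : ℂ, (N : ℂ) * z ∈ L.lattice →
      InK V L (xu L u e) z → z ∈ L.lattice

/-- (UNT) PORT of `Sd_UNT` (`E_UNT.lean`). Uses Sv_COE, Sv_GRT, Su_BAC, Su_PFI. -/
def Sv_UNT : Prop :=
  ∀ (V : ValuationSubring ℂ) (L M : PeriodPair) (u e a1 a3 u' e' a1' a3' μ : ℂ),
    IsoU V L M u e a1 a3 u' e' a1' a3' μ → V.valuation (μ * u' / u) = 1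

/-- (RAT) PORT of `Sd_RAT` (`E_RAT.lean`). Uses Sv_COE, Sv_GRT, Sv_UNT, Su_BAC, Su_PFI. -/
def Sv_RAT : Prop :=
  ∀ (V : ValuationSubring ℂ) (L M : PeriodPair) (u e a1 a3 u' e' a1' a3' μ : ℂ),
    IsoU V L M u e a1 a3 u' e' a1' a3' μ →
    ∃ P Q : ℂ[X], IntP V P ∧ IntP V Q ∧
      (∀ z, μ * z ∉ M.lattice →
        xu M u' e' (μ * z) * Q.eval (xu L u e z) = P.eval (xu L u e z) ∧
        (μ * u' / u) * et M u' (μ * z) * Q.eval (xu L u e z) ^ 2 =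
          et L u z * (derivative P * Q - P * derivative Q).eval (xu L u e z)) ∧
      (∀ z, InK V L (xu L u e) z → InK V M (xu M u' e') (μ * z)) ∧
      ∀ z, ¬ InK V M (xu M u' e') (μ * z) → ¬ InK V L (xu L u e) z ∧
        V.valuation (Q.eval (xu L u e z)) = 1

/-- (THT) PORT of `Sd_THT` (`E_THT.lean`). Uses Sv_COE, Sv_GRT, Sv_RAT. -/
def Sv_THT : Prop :=
  ∀ (V : ValuationSubring ℂ) (L M : PeriodPair) (u e a1 a3 u' e' a1' a3' μ : ℂ),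
    IsoU V L M u e a1 a3 u' e' a1' a3' μ → ∀ (a : ℕ) (H : Finset ℂ), a ≠ 0 →
    IsHalf M (a : ℂ) H →
    ∃ P Q : ℂ[X], IntP V P ∧ IntP V Q ∧
      ∀ z, ¬ InK V M (xu M u' e') (μ * z) → (a : ℂ) * (μ * z) ∉ M.lattice →
      (∀ q ∈ H, ¬ InK V M (xu M u' e') q ∧ ¬ InK V M (xu M u' e') (μ * z + q) ∧
        ¬ InK V M (xu M u' e') (μ * z - q)) →
      ¬ InK V L (xu L u e) z ∧
      V.valuation (P.eval (xu L u e z)) = 1 ∧ V.valuation (Q.eval (xu L u e z)) = 1 ∧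
      ThetaH M H (μ * z) * Q.eval (xu L u e z) = (u' ^ 2) ^ H.card * P.eval (xu L u e z) ∧
      μ * dlX M a (μ * z) / u = dlg P Q (xu L u e z) * et L u z

/-- (NE1) PORT of `Sd_NE1` (`E_NE1.lean`). Uses Sv_GRT. PROOF. Let `g = 2^j`. `g z` is killed by `f`; if `z + q ∈ InK` then `g a (z + q) = a g z ∈ InK` (`gInK` lemmas: multiples), killed by `f`, so it is in `L`, and the hypothesis (exactly: `c z ∈ L` implies `f ∣ c`) gives `f ∣ g a`, `f ∣ 1`. The same for `z`, `2 z` (`f ∣ 2 g a`). -/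
def Sv_NE1 : Prop :=
  ∀ (V : ValuationSubring ℂ) (L : PeriodPair) (u e a1 a3 : ℂ), GoodQ V L u e a1 a3 →
    V.valuation (2 : ℂ) < 1 → ∀ (j f a : ℕ), 3 ≤ f → ¬ 2 ∣ f → ¬ 2 ∣ a → a.Coprime f →
      ∀ z : ℂ, ((2 ^ j * f : ℕ) : ℂ) * z ∈ L.lattice →
        (∀ c : ℕ, (c : ℂ) * z ∈ L.lattice → f ∣ c) →
        ¬ InK V L (xu L u e) z ∧ ¬ InK V L (xu L u e) (2 * z) ∧ (a : ℂ) * z ∉ L.lattice ∧
        ∀ q : ℂ, (a : ℂ) * q ∈ L.lattice → q ∉ L.lattice → ¬ InK V L (xu L u e) q ∧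
          ¬ InK V L (xu L u e) (z + q) ∧ ¬ InK V L (xu L u e) (z - q)

/-! ## Points of order a power of 2 -/

/-- (PVI) the valuation of the multiplier of an isogeny whose kernel is in the kernel of reduction.

Uses Sv_COE, Sv_GRT, Su_PFI. PROOF. (As `Sf_PIS`, `Pool/Agent/NS/F_PIS.lean`.) `l ≠ l'` primes `> 3` (`5`, `7`), `w = ω₁/l`, `z = ω₁/l'`. Let `s` be a point of odd order, `s ∉ L`, and `q = 0` or `q ∈ R`: `s ∉ InK V L` (GRT), so `s + q ∉ InK V L` (`gInK_add`, `q ∈ InK`), and `ν s ∉ N` (otherwise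
`s ≡ q` modulo `L` for some `q ∈ R` (`IsRpM.surj`), `s ∈ InK`), so `ν s ∉ InK V N` (GRT). Apply this to `w`, `z`, `z ± w`. (PFI) in the coordinates (`℘ = u² x + e`): `(ν u'/u)² (x'(ν z) - x'(ν w)) ∏_(q ∈ R) (x z - x q) = (x z - x w) ∏_(q ∈ R) (x z - x(w + q))`; `x'(ν z) - x'(ν w)`, `x z - x w`,
`x z - x(w + q)` are units (`gv_X_sub`), and `v(x z - x q) = v(x q)` as `v(x z) ≤ 1 < v(x q)` (`q ∈ InK`, `q ∉ L`). -/
def Sv_PVI : Prop :=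
  ∀ (V : ValuationSubring ℂ) (L N : PeriodPair) (u e a1 a3 u' e' a1' a3' nu : ℂ),
    GoodQ V L u e a1 a3 → GoodQ V N u' e' a1' a3' → V.valuation (2 : ℂ) < 1 → nu ≠ 0 →
    Isg L N nu → ∀ R : Finset ℂ, IsRpM L N nu R → (∀ q ∈ R, InK V L (xu L u e) q) →
    V.valuation (nu * u' / u) ^ 2 * ∏ q ∈ R, V.valuation (xu L u e q) = 1

/-- (TWO) the points of order a power of two are in the kernel of reduction; the points of order two and four.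

Uses Sv_COE, Sv_GRT, Sv_PVI, `Pool.Agent.N2R.Sr_DU2` (proved: `tr_DU2`, `Pool/Agent/N2/R_DU2.lean`; or `b_DUP`), Su_BAC. PROOF. (1) `2 z ∈ L`, `z ∉ L`: `℘'(z) = 0` (`b_ZER`), `et = 0`, so `4 x³ + (a1 x + a3)² = 0`, `T = v x`. `T ≤ 1`: `v(a1 x + a3) = 1` (`v a1 < 1`), `v(4 x³) < 1`, false: `T > 1`, `z ∈ InK`. `v(2) T > 1`:
`v((a1 x + a3)²) ≤ max (v(a1)² T²) 1 ≤ max (v(2) T²) 1`, but `v(4 x³) = v(2) T² (v(2) T) > v(2) T²` and `v(4 x³) = (v(2) T)² T > 1`, false. (2) Induction on `j`; `2 z ∉ L`: `2 z ∈ InK` by induction, `v(x(2z)) > 1`; if `v(x z) ≤ 1` then in `x(2z) (4 x³ + (a1 x + a3)²) = x⁴ - a1 a3 x² - 2 a3² x` the factor is a unit and the right side is in `V`, false.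
(3) (PVI) for `N = L`, `ν = 2` and `ν = 4` (`u' = u`): `v(2)² ∏ v(x q) = 1`, `v(4)² ∏ v(x q) = 1`. -/
def Sv_TWO : Prop :=
  ∀ (V : ValuationSubring ℂ) (L : PeriodPair) (u e a1 a3 : ℂ), GoodQ V L u e a1 a3 →
    V.valuation (2 : ℂ) < 1 →
    (∀ z, 2 * z ∈ L.lattice → z ∉ L.lattice → 1 < V.valuation (xu L u e z) ∧
      V.valuation (2 : ℂ) * V.valuation (xu L u e z) ≤ 1) ∧
    (∀ (j : ℕ) (z : ℂ), 2 ^ j * z ∈ L.lattice → InK V L (xu L u e) z) ∧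
    (∀ R : Finset ℂ, IsRpM L L 2 R →
      V.valuation (2 : ℂ) ^ 2 * ∏ q ∈ R, V.valuation (xu L u e q) = 1) ∧
    ∀ R : Finset ℂ, IsRpM L L 4 R →
      V.valuation (2 : ℂ) ^ 4 * ∏ q ∈ R, V.valuation (xu L u e q) = 1

/-- (PST) one step `L → N = ν P⁻¹ L`.

Uses Sv_TWO, Sv_PVI, Su_BAC. PROOF. `q ∈ Tor P L`, `q ∉ L`: `2 ∈ P` (`pw`, `k = 1`), so `2 q ∈ L`, `q ∈ InK`, `v(2) v(x q) ≤ 1` (TWO). Let `R` be representatives of the nonzero classes of `{z : ν z ∈ N} = {z : Tor P L z}` (BAC). `E[P]` has two elements: `q, q' ∉ L` in `E[P]` are congruent modulo `L`: by `te_TRB` (2) (`P` maximal) `q' ≡ emb x q`, `x ∉ P`,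
and `x - 1 ∈ P` (`one`). And `E[P] ≠ 0` (`te_TRB`, or: otherwise (PVI) with `R = ∅` gives `v(ν u'/u) = 1` in what follows). So `R = {q}` or `R = ∅`, and in both cases (PVI) and (TWO) give `v 2 ≤ v(ν u'/u)²` (*). Let `N'`, `ν'` be a second step (`exq` for `N`; `good`): `v 2 ≤ v(ν' u''/u')²`. The composition
`ν ν' : L → N'` has the kernel `{z : emb p (emb p' z) ∈ L for all p, p' ∈ P} = {z : 2 z ∈ L}`: `←`: `p p' ∈ P ^ 2`, `p p' = 2 y` (`pw`, `dv`: `v(p p') ≤ v 2`, so `p p' ∈ (2)`); `→`: `2 ∈ P ^ 2 = P * P` (`pw`) is a sum of products `p p'` (`Submodule.mul_induction_on`). So there is `R` with `IsRpM L L 2 R` (BAC) and `IsRpM L N' (ν ν') R`: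
(PVI), (TWO (3)): `v(ν ν' u''/u)² = v(2)²`, and `(ν u'/u)(ν' u''/u') = ν ν' u''/u`. So both factors in (*) are equal to `v 2`, in particular `R = {q}`, `v(2) v(x q) = 1` (PVI). -/
def Sv_PST : Prop :=
  ∀ (A B : ℤ) (P : Ideal (OO A B)) (V : ValuationSubring ℂ), CtxU A B P V →
    ∀ (L N : PeriodPair) (nu u e a1 a3 u' e' a1' a3' : ℂ), NL A B L → NL A B N → IsQ P L N nu →
      GoodQ V L u e a1 a3 → GoodQ V N u' e' a1' a3' →
      V.valuation (nu * u' / u) ^ 2 = V.valuation (2 : ℂ) ∧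
      ∃ q, Tor P L q ∧ q ∉ L.lattice ∧ IsRpM L N nu {q} ∧
        V.valuation (2 : ℂ) * V.valuation (xu L u e q) = 1

/-- (TPU) the points of exact order `P^(j+1)`.

Uses Sv_COE, Sv_GRT, Sv_TWO, Sv_PST, Su_PFI. PROOF. Claim: `1 < v(x z)`, `v(x z)^(2^j) v(2) = 1`; then `v(t z)² v(x z) = 1` (`gv_tX_lt`) gives `v(t z)^(2^(j+1)) = v 2`. Induction on `j`, for all lattices; `j = 0`: (PST) (`Tor (P^0) L z` iff `z ∈ L`; `z ≡ q` by `IsRpM.surj`, `ν z ∈ N`).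
Step (as `Sf_TPR`, `StER.lean`): `Tor (P^(j+2)) L z`, not `Tor (P^(j+1)) L z`. `N`, `ν` (`exq`), `u', ..` (`good`), `z' = ν z`: `Tor (P^(j+1)) N z'`, not `Tor (P^j) N z'` (`emb x (ν z) ∈ N` iff `emb p (emb x z) ∈ L` for all `p ∈ P`; `P ^ (j+1) = P * P ^ j`), so `Y = v(x' z') > 1`, `Y^(2^j) v(2) = 1`. `q` from (PST), `T = v(x q)`, `v(2) T = 1`, `T > 1`,
so `Y ≤ T` (`Y^(2^j) = T`). `w = ω₁/5`: `w, w + q ∉ InK V L`, `ν w ∉ InK V N` (see PVI). (PFI): `(ν u'/u)² (x'(z') - x'(ν w)) (x z - x q) = (x z - x w)(x z - x(w + q))`, `v(ν u'/u)² = v 2`, `v(x'(z') - x'(ν w)) = Y`. If `v(x z) ≤ 1`: left side `v(2) Y T = Y > 1`, right side `≤ 1`: false. So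
`X = v(x z) > 1`, right side `X²`. `X > T`: `v(2) Y X = X²`, `X = v(2) Y ≤ v(2) T = 1`: false. `X = T`: `X² ≤ v(2) Y T = Y ≤ T = X`, false. So `X < T`: `v(2) Y T = X²`, `X² = Y`. -/
def Sv_TPU : Prop :=
  ∀ (A B : ℤ) (P : Ideal (OO A B)) (V : ValuationSubring ℂ), CtxU A B P V →
    ∀ (j : ℕ) (L : PeriodPair) (u e a1 a3 : ℂ), NL A B L → GoodQ V L u e a1 a3 →
      ∀ z, Tor (P ^ (j + 1)) L z → ¬ Tor (P ^ j) L z → InK V L (xu L u e) z ∧ z ∉ L.lattice ∧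
        V.valuation (tX (xu L u e) (yt L u e a1 a3) z) ^ (2 ^ (j + 1)) = V.valuation (2 : ℂ)

/-- (DST) the distances. Model: `E_DST.lean`.

Uses Sv_COE, Sv_GRT, Sv_TWO, Sv_TPU, Su_BAC. PROOF. For `Y ∈ InK`, `Y ∉ L`: `gnear` and `gv_DX` (`2 Q ∉ InK`): `Q + Y ∉ InK` and `v(x(Q + Y) - x Q) = v(t Y)`. If `x(Q + Y) = x(Q + Y')`, `Y, Y' ∈ InK`, then `Y ≡ Y'` (`b_NEQ`; `2 Q ≡ -Y - Y'` is impossible). (1) `R` with `IsRpM L L 4 R` (BAC), in `InK` (TWO (2)), `S` = the `x(Q + q)`, `q ∈ R`;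
`v(t q)² v(x q) = 1` (`gv_tX_lt`), so (TWO (3)) `(∏ v(t q))² = v(2)⁴`. (2) `S = {x(Q + Y), x(Q + 2 Y), x(Q + 3 Y)}`. `d = 2` or `3`. `Y` and `3 Y` have exact order `P^(6-d)` (`3` is prime to `P`), `2 Y` has exact order `P^(4-d)`: `emb x (2 Y) ∈ L` iff `2 x ∈ ..`: `Tor (P^(4-d)) L (2 Y)` because `2 P^(4-d) ⊆ P^(6-d)` (`pw`);
not `Tor (P^(3-d)) L (2 Y)`: every `x ∈ P^(5-d)` is `2 y` with `y ∈ P^(3-d)` (`dv`, `pw`), so it would give `Tor (P^(5-d)) L Y` (`d = 2`: `x ∈ P³`, `y ∈ P`; `d = 3`: `x ∈ P²`, `y ∈ P^0`). (TPU), `d = 2`: `α = v(t Y) = v(t(3 Y))`, `α^16 = v 2`, `β = v(t(2 Y))`, `β⁴ = v 2`: `(α β α)^8 = v(2)³`. `d = 3`: `α^8 = v 2`, `β² = v 2`: `(α β α)^8 = v(2)^6`. -/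
def Sv_DST : Prop :=
  ∀ (A B : ℤ) (P : Ideal (OO A B)) (V : ValuationSubring ℂ), CtxU A B P V →
    ∀ (L : PeriodPair) (u e a1 a3 : ℂ), NL A B L → GoodQ V L u e a1 a3 →
    ∀ Q : ℂ, ¬ InK V L (xu L u e) Q → ¬ InK V L (xu L u e) (2 * Q) →
    (∃ S : Finset ℂ, xu L u e Q ∉ S ∧
      (∀ x ∈ S, V.valuation x ≤ 1 ∧ ∃ Y, 4 * Y ∈ L.lattice ∧ x = xu L u e (Q + Y)) ∧
      ∏ x ∈ S, V.valuation (xu L u e Q - x) ≤ V.valuation (2 : ℂ) ^ 2) ∧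
    ∀ Y, Tor (P ^ (6 - dR A)) L Y → ¬ Tor (P ^ (5 - dR A)) L Y →
      ∃ S : Finset ℂ, xu L u e Q ∉ S ∧
        (∀ x ∈ S, V.valuation x ≤ 1 ∧ ∃ k : ℕ, k < 4 ∧ x = xu L u e (Q + k * Y)) ∧
        (∏ x ∈ S, V.valuation (xu L u e Q - x)) ^ 8 ≤ V.valuation (2 : ℂ) ^ (3 * (dR A - 1))

/-- (DS2) the distribution relation for multiplication by 2.

Uses Su_PFI. PROOF. `R` represents `ω₁/2`, `ω₂/2`, `(ω₁ + ω₂)/2`, so it has 3 elements (see the proof of `td_DST`). `℘ h ≠ ℘ q`: `b_NEQ`, `2 (h ± q) ∉ L`. `h ∈ H`: `2 h ∉ L` (`IsHalf.ne`), (PFI) for `M = L`, `μ = 2`, at the points `z := h`, `w := z`: `4 (℘(2h) - ℘(2z)) ∏_(q ∈ R) (℘ h - ℘ q) = (℘ h - ℘ z) ∏_(q ∈ R) (℘ h - ℘(z + q))`; `R` has 3 elements, so `(℘ z - ℘ h) ∏_(q ∈ R) (℘(z + q) - ℘ h) = -4 (℘(2z) - ℘(2h)) ∏_(q ∈ R) (℘ h - ℘ q)`.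
Product over `h ∈ H`: `∏_(h) (℘(2z) - ℘(2h)) = Θ(2z)`: `{2 h}` is a half system too (`a` odd) and `Θ` does not depend on the half system (`b_TIN`). The logarithmic derivatives (`b_TDL`: `Θ` has the derivative `Θ dlX`, where `a z ∉ L`; see the proofs of `Sf_DIS`, `Pool/Agent/NS/F_DIS.lean`): all of `z`, `z + q`, `2 z` are not killed by `a` (`2 a z ∉ L`), both sides are analytic near `z`. -/
def Sv_DS2 : Prop :=
  ∀ (L : PeriodPair) (R : Finset ℂ), IsRpM L L 2 R → ∀ (a : ℕ) (H : Finset ℂ), ¬ 2 ∣ a →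
    IsHalf L (a : ℂ) H → R.card = 3 ∧
    (∏ h ∈ H, ∏ q ∈ R, (L.weierstrassP h - L.weierstrassP q)) ≠ 0 ∧
    ∀ z : ℂ, (a : ℂ) * (2 * z) ∉ L.lattice →
      ThetaH L H z * ∏ q ∈ R, ThetaH L H (z + q) =
        (-4) ^ H.card * (∏ h ∈ H, ∏ q ∈ R, (L.weierstrassP h - L.weierstrassP q)) *
          ThetaH L H (2 * z) ∧
      dlX L a z + ∑ q ∈ R, dlX L a (z + q) = 2 * dlX L a (2 * z)

/-! ## The fields -/

/-- (CTX) from the standing hypotheses to `CtxU`. Models: `E_CTX.lean`, `Pool/Agent/N2/R_ALC.lean` (the arithmetic of `2 = P²`), `Pool/Agent/NS/F_CTX.lean` (3 ramified).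

PROOF. `B = 0` (`CaseR2.b0`), `A ≡ 2, 3` modulo 4 (`CaseR2.mod`), `emb w0 ² = A`. `2 ∈ P`, `v 2 < 1`. `int`, `unit`, `nat`: as in the inert case (`OverI`). `ϖ = w0` (`A` even), `ϖ = 1 + w0` (`A` odd): `v(emb ϖ)² = v 2` (see `R_ALC.lean`: `A = 2 (odd)`;
`(1 + w0)² = 2 ((1 + A)/2 + w0)` with `(1 + A)/2` even, `w0` a unit). `w0`: `v(w0)² = v A`, `= 1` for `A` odd, `= v 2` for `A ≡ 2` modulo 4. KEY: for `x = ⟨r, s⟩`: `x = (r - s) + s (1 + w0)` (`A` odd), `r + s w0` (`A` even): `x = i + s ϖ`, `i` an integer. `v(emb x) = 1` if `i` is odd, `v(emb x)² = v 2` if `i` is even and `s` odd, `v(emb x) ≤ v 2` if both are even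
(`v(i) ≤ v 2`, `v(s ϖ)² = v 2 > v(2)²`: strictly different). So `x ∈ P` iff `i` is even; `x ∉ P` gives `x - 1 ∈ P`; `x ∈ (2)` iff `v(emb x) ≤ v 2` iff `v(emb x)² ≤ v(2)²`; `dv` by induction (`x = 2 y`). `pw`: `x ∈ P ^ k → v(emb x)² ≤ v(2)^k`: `Submodule.pow_induction_on_left'` or induction with `Submodule.mul_induction_on`. Conversely by induction on `k`
(two steps): `k = 0` clear; `k = 1`: `v(emb x) < 1`, `x ∈ P`; `k + 2`: `v(emb x)² ≤ v(2)²`, `x = 2 y`, `y ∈ P ^ k`, and `2 ∈ P ^ 2` because `ϖ² = 2 (unit)`: `A` even: `A = ϖ²`, `4 ∈ P ^ 2`, `gcd(A, 4) = 2`; `A` odd: `ϖ² - (1 + A) = 2 w0`, `4 ∣ 1 + A`, so `2 w0 ∈ P²`, `2 A = w0 (2 w0) ∈ P²`, `gcd(2A, 4) = 2`. `max`: `O/P` has two elements. `nrm`: `nm x = r² - A s²`.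
`exq`: `TorX.surj` for `m = ⊤`, `a = P`. `good`, `val` are hypotheses. -/
def Sv_CTX : Prop :=
  ∀ (A B : ℤ) (P : Ideal (OO A B)) (V : ValuationSubring ℂ), CaseR2 A B → IsPN 2 P →
    OverI V P → TorX A B → (∀ L, NL A B L → ∃ u e a1 a3 : ℂ, GoodQ V L u e a1 a3) →
    (∀ f : ℕ, Odd f → ∀ y ∈ RF (idl (A := A) (B := B) f), y ≠ 0 →
      ∃ k : ℤ, V.valuation y ^ 2 = V.valuation (2 : ℂ) ^ k) → CtxU A B P V

/-- (DEG) the degree of `RF (2^(j+1) f)` over `RF (f)`. Model `E_DEG.lean`.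

PROOF. As there: at most `4^(j+1)/2 = 2·4^j` classes modulo `2^(j+1)` of elements `⟨r, s⟩` not in `P` (`i` odd in the notation of (CTX): `r - s` odd for `A` odd, `r` odd for `A` even). -/
def Sv_DEG : Prop :=
  ∀ (A B : ℤ) (P : Ideal (OO A B)) (V : ValuationSubring ℂ), CtxU A B P V → GalE A B →
    ∀ (j f : ℕ), f ≠ 0 → ¬ 2 ∣ f →
    Module.finrank (kk A B) (RF (idl (A := A) (B := B) (2 ^ (j + 1) * f))) ≤
      (2 * 4 ^ j) * Module.finrank (kk A B) (RF (idl (A := A) (B := B) f))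

/-- (CON) the elements `c = 1 + N b`, `N = NN n f a = 2^(n-1) f a`. Model `E_CON.lean`.

PROOF. `m' a = 4 N`, `m = 2 m'`. (1) `n - 1 ≥ 2`: `c ≡ 1` modulo `4 f`, `a`; so `c` is prime to `m a` and not 0. (2) `nm (1 + t w0) = 1 - t² A` (`B = 0`) for integers `t`, `≥ 1`, `t = N k`, `2^(n+2) ∣ N²` (`2 (n - 1) ≥ n + 2`). `nm (1 + m' b) = (1 + m' b₁)² - m'² b₂² A`, `b = ⟨b₁, b₂⟩`: `2 m' = m` and `m'²` are divisible by `2^(n+2)`; it is `> 0`. `nI (sp x) = |nm x|` (see `E_CON.lean`).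
(3) `c_k c_l - c_(k+l) = N² k l A`, `m a ∣ N²`. (4) `c_4 - 1 = 4 N w0 = m' a w0`. (5) `c_2 x - x = 2 N w0 x`; if it is in `(m')` then `2 ∣ a w0 x`: `v(a w0 x)² = v(w0)² ≥ v 2 > v(2)²` (`CtxU.w0`, `unit`; `x` is prime to `m` so `∉ P`), contradiction to `dv`. (6) `N/m' = a/4`. `R = emb w0 (a om/4)`: `emb x R ∈ L = om emb O` iff `4 ∣ a w0 x` iff (`dv`) `v(x)² v(w0)² ≤ v(2)⁴` iff
`v(x)² ≤ v(2)^(6-d)` iff `x ∈ P^(6-d)` (`pw`); and `P^(5-d)` is not contained in `P^(6-d)` (powers of `ϖ`). (7) `L = om emb O`: `Y = om emb b'/4`, take `b = a b'`, `a² ≡ 1` modulo 4. -/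
def Sv_CON : Prop :=
  ∀ (A B : ℤ) (P : Ideal (OO A B)) (V : ValuationSubring ℂ) (n f a m m' : ℕ),
    SetV A B P V n f a m m' →
    (∀ b : OO A B, IsCoprime (sp (cc (NN n f a) b)) (idl (m * a)) ∧
      IsCoprime (cc (NN n f a) b) ((m : ℕ) : OO A B) ∧
      cc (NN n f a) b ≠ 0 ∧ cc (NN n f a) b - 1 ∈ idl (f * a) ∧
      cc (NN n f a) b - 1 ∈ idl (4 * f) ∧ cc (NN n f a) b - 1 ∈ idl a) ∧
    ((∀ k : ℕ, ∃ j : ℕ, nI (sp (cc (NN n f a) ((k : OO A B) * w0))) = 1 + 2 ^ (n + 2) * j) ∧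
      ∀ b : OO A B, ∃ j : ℕ, nI (sp (cc m' b)) = 1 + 2 ^ (n + 2) * j) ∧
    (∀ k l : ℕ, cc (NN n f a) ((k : OO A B) * w0) * cc (NN n f a) ((l : OO A B) * w0) -
      cc (NN n f a) (((k + l : ℕ) : OO A B) * w0) ∈ idl (m * a)) ∧
    (cc (NN n f a) (((4 : ℕ) : OO A B) * w0) - 1 = ((m' * a : ℕ) : OO A B) * w0) ∧
    (∀ x : OO A B, IsCoprime x ((m : ℕ) : OO A B) →
      cc (NN n f a) (((2 : ℕ) : OO A B) * w0) * x - x ∉ idl m') ∧
    ∀ (L : PeriodPair) (om : ℂ), IsNL (⊤ : Ideal (OO A B)) L om →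
      (∀ b : OO A B, emb (cc (NN n f a) b) * (om / m') = om / m' + emb b * (a * om / 4)) ∧
      (∀ k : ℕ, emb ((k : OO A B) * w0) * (a * om / 4) =
        k * (emb (w0 : OO A B) * (a * om / 4))) ∧
      Tor (P ^ (6 - dR A)) L (emb (w0 : OO A B) * (a * om / 4)) ∧
      ¬ Tor (P ^ (5 - dR A)) L (emb (w0 : OO A B) * (a * om / 4)) ∧
      ∀ Y, 4 * Y ∈ L.lattice → ∃ b : OO A B, Y - emb b * (a * om / 4) ∈ L.lattice

/-- (SIG) integral elements of the ray class field are polynomials in `x(Q)`, `Q = om/m'`. PORT of `Sd_SIG` (`E_SIG.lean`).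

Uses Sv_COE, Sv_GRT, Sv_TPU, Sv_DEG, `te_BAS`. PROOF. As there with `m' = 2^(n+1) f` for `m`: `P₁` is a point with `Tor (P^(2n+2)) L P₁`, not `Tor (P^(2n+1)) L P₁` (`P₁ = β om/2^(n+1)`, `β` odd, so `emb x P₁ ∈ L` iff `x ∈ (2^(n+1))` iff (`dv`, `pw`) `x ∈ P^(2n+2)`), so `v(t P₁)^(2^(2n+2)) = v 2` (TPU), `v(π)^(2·4^n) = v(emb ϖ)` (squares; `CtxU.pi`).
(BAS) with `N = 2·4^n`, `p = emb ϖ` (DEG with `j = n`; `CtxU.val`: `v y ² = v(2)^k = (v(emb ϖ)^k)²`). -/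
def Sv_SIG : Prop :=
  ∀ (A B : ℤ) (P : Ideal (OO A B)) (V : ValuationSubring ℂ) (n f a m m' : ℕ),
    SetV A B P V n f a m m' →
    ∀ (L : PeriodPair) (om u e a1 a3 : ℂ), IsNL (⊤ : Ideal (OO A B)) L om →
    GoodQ V L u e a1 a3 →
    ∀ w ∈ RF (idl (A := A) (B := B) (m' * a)), V.valuation w ≤ 1 →
    ∃ h : ℂ[X], IntP V h ∧ w = h.eval (xu L u e (om / m')) ∧
      ∀ (c : OO A B) (s : ℂ ≃+* ℂ), AutC (idl (m * a)) c s → c - 1 ∈ idl (f * a) →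
        s w = h.eval (xu L u e (emb c * (om / m')))

/-! ## The points -/

/-- (MUL) the isogenies `μ_i x : L_(i0) → L_i` have odd degree. PORT of `Sd_MUL` (`E_MUL.lean`). -/
def Sv_MUL : Prop :=
  ∀ (A B : ℤ) (P : Ideal (OO A B)) (V : ValuationSubring ℂ), CtxU A B P V →
    ∀ (n : ℕ) (ι : Type) (R : Reps A B n ι),
    n ≠ 0 → 2 ∣ n → ∀ (i : ι) (x : OO A B), x ∉ P →
      muX R i * emb x ≠ 0 ∧ Isg (R.L R.i0) (R.L i) (muX R i * emb x) ∧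
      ∃ N : ℕ, ¬ 2 ∣ N ∧ ∀ z, muX R i * emb x * z ∈ (R.L i).lattice →
        (N : ℂ) * z ∈ (R.L R.i0).lattice

/-- (FIB) the fibres: `G_(i,x)` and `F_(i,x)` in terms of the point `pt R m' i x`.

Uses Sv_GRT, Sv_TWO, Sv_DS2, Su_BAC, `te_PT`. PROOF. `pt R m i (x + m' b) = pt R m i x + N(b_i) om_i emb b/2` (`m = 2 m'`), `2 pt R m i x = pt R m' i x`. The four points `z_l = N(b_i) om_i emb (bb l)/2` represent `{z : 2 z ∈ L_i}/L_i`: `2 z_l ∈ L_i` (`N(b_i) ∈ b_i`); `z = om_i emb y/2`, `y ∈ b_i`: `N(b_i)` is odd: `y ≡ N(b_i) y'` modulo `2 b_i`, `y' = y N(b_i)`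
(`N(b_i)² ≡ 1` modulo 2), and `y' ≡ bb l` modulo 2 for exactly one `l < 4`, `N(b_i) (y' - bb l) ∈ 2 b_i`. Different `l`: if `N(b_i) (bb l - bb l') ∈ 2 b_i` then `2 ∣ bb l - bb l'` (`N(b_i)` odd, `b_i` contained in `O`). So with `R' = {z_1, z_2, z_3}` `IsRpM L_i L_i 2 R'`, and (DS2) for `z = pt R m i x` (`a pt R m' i x ∉ L_i`). `κ = (-4)^|H| ∏∏(℘ h - ℘ q)`:
`℘ h - ℘ q = u'² (x h - x q)`, `v(x h - x q) = v(x q)` (`h ∉ InK` of odd order, `q ∈ InK`), `∏_(q ∈ R') v(x q) v(2)² = 1` (TWO (3)): `v κ = (v(2)² v(u'²)³ v(2)⁻²)^|H| = v(u'²)^(3|H|)`. The points `pt R m i (x + m' b)` only matter modulo `L_i`: `m b' ∈ (m)`. -/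
def Sv_FIB : Prop :=
  ∀ (A B : ℤ) (P : Ideal (OO A B)) (V : ValuationSubring ℂ) (n f a m m' : ℕ),
    SetV A B P V n f a m m' →
    ∀ (ι : Type) (R : Reps A B (2 * f) ι) (H : ι → Finset ℂ) (i : ι),
    IsHalf (R.L i) (a : ℂ) (H i) →
    ∃ κ : ℂ, κ ≠ 0 ∧
      (∀ u' e' a1' a3' : ℂ, GoodQ V (R.L i) u' e' a1' a3' →
        V.valuation κ = V.valuation (u' ^ 2) ^ (3 * (H i).card)) ∧
      ∀ x : OO A B, IsCoprime x ((m : ℕ) : OO A B) →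
        GFib R H m m' i x = κ * ThetaH (R.L i) (H i) (pt R m' i x) ∧
        FFib R a m m' i x = 2 * dlX (R.L i) a (pt R m' i x) ∧
        (∀ y : OO A B, y - x ∈ idl (A := A) (B := B) m' →
          GFib R H m m' i y = GFib R H m m' i x ∧ FFib R a m m' i y = FFib R a m m' i x)

/-- (GPO) the fibres as rational functions over `V` of `x(Q)`, `Q = om_0/m'`. Model: `E_GPO.lean`.

Uses Sv_COE, Sv_GRT, Sv_THT, Sv_NE1, Sv_MUL, Sv_FIB. PROOF. `E_GPO.lean` with `m'` for `m` gives `P, Q` with `Θ(pt R m' i (c x)) Q(ξ) = (u'²)^|H| P(ξ)` and `μ dlX(pt R m' i (c x))/u = dlg P Q (ξ) et`, `μ = muX R i * emb x`. Multiply by the constants of (FIB): `κ := κ_FIB (u'²)^|H|`, `v κ = v(u'²)^(4|H|)`, `v(u'²)² = v(2)^k` (`CtxU.val`: `u'² ∈ RF (3)`), so `v κ = (v(2)^(k |H|))²`. -/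
def Sv_GPO : Prop :=
  ∀ (A B : ℤ) (P : Ideal (OO A B)) (V : ValuationSubring ℂ) (n f a m m' : ℕ),
    SetV A B P V n f a m m' →
    ∀ (ι : Type) (R : Reps A B (2 * f) ι) (u e a1 a3 : ℂ), GoodQ V (R.L R.i0) u e a1 a3 →
    ∀ (H : ι → Finset ℂ) (i : ι), IsHalf (R.L i) (a : ℂ) (H i) →
    ∀ x : OO A B, x ∉ P →
    ∃ (κ : ℂ) (k : ℤ) (Pq Qr : ℂ[X]), IntP V Pq ∧ IntP V Qr ∧
      V.valuation κ = (V.valuation (2 : ℂ) ^ k) ^ 2 ∧
      ∀ c : OO A B, IsCoprime (c * x) ((m : ℕ) : OO A B) →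
        V.valuation (xu (R.L R.i0) u e (emb c * (R.om R.i0 / m'))) ≤ 1 ∧
        V.valuation (et (R.L R.i0) u (emb c * (R.om R.i0 / m'))) ≤ 1 ∧
        V.valuation (Pq.eval (xu (R.L R.i0) u e (emb c * (R.om R.i0 / m')))) = 1 ∧
        V.valuation (Qr.eval (xu (R.L R.i0) u e (emb c * (R.om R.i0 / m')))) = 1 ∧
        GFib R H m m' i (c * x) * Qr.eval (xu (R.L R.i0) u e (emb c * (R.om R.i0 / m'))) =
          κ * Pq.eval (xu (R.L R.i0) u e (emb c * (R.om R.i0 / m'))) ∧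
        muX R i * emb x * FFib R a m m' i (c * x) / u =
          2 * dlg Pq Qr (xu (R.L R.i0) u e (emb c * (R.om R.i0 / m'))) *
            et (R.L R.i0) u (emb c * (R.om R.i0 / m'))

/-! ## The two estimates -/

/-- (SQR) squares, for products over arbitrary finite families of fibres `(i, x)`. Model: `E_SQR.lean`.

Uses Sd_LAG, Sd_PRD, Sv_COE, Sv_DST, Sd_AUT, Sd_GTA, Sv_CON, Sv_SIG, Sv_NE1, Sv_FIB, Sv_GPO. PROOF. `E_SQR.lean` with `m'` for `m`, `NN n f a` for `2^n f a`, `GFib`, `FFib`. The automorphisms `s_b` with `AutC (idl (m a)) c_b s_b`: `s_b(Θ(pt R m i z)) = Θ(emb c_b pt R m i z) = Θ(pt R m i (c_b z))` (GTA), `c_b (x + m' bb l) = c_b x + m' (c_b bb l)` and `c_b bb l ≡ bb l` modulo 2, so modulo `m`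
`c_b (x + m' bb l) ≡ c_b x + m' bb l`: `s_b(G_(i,x)) = G_(i, c_b x)`. So `P(ξ_b) = κ h(ξ_b)² Q(ξ_b)` for all `b ∈ O`; `S` from (DST (1)): `∏ ≤ v(2)²`, `S'` from (DST (2)) with `Y = emb w0 (a om_0/4)`: `(∏_(S'))^8 ≤ v(2)^(3(d-1))`, `h` is constant on `S'` as `s y = y` by hypothesis. (LAG (4)): `v(P' Q - P Q')^8 ≤ max (v(2)^8 v(2)^(3(d-1))) (v(2)^16) = v(2)^(3 d + 5)`
(`3 d + 5 ≤ 16`), and the sum is `2 dlg P Q (ξ_0) et(Q)`: `v^8 ≤ v(2)^(3 d + 13)`. -/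
def Sv_SQR : Prop :=
  ∀ (A B : ℤ) (P : Ideal (OO A B)) (V : ValuationSubring ℂ) (n f a m m' : ℕ),
    SetV A B P V n f a m m' →
    ∀ (ι : Type) (R : Reps A B (2 * f) ι) (u e a1 a3 : ℂ), GoodQ V (R.L R.i0) u e a1 a3 →
    ∀ (H : ι → Finset ℂ), (∀ i, IsHalf (R.L i) (a : ℂ) (H i)) →
    ∀ (J : Type) [Fintype J] (X : J → Finset (ι × OO A B)) (g : J → ℤ),
      (∀ j, ∀ q ∈ X j, IsCoprime q.2 ((m : ℕ) : OO A B)) →
      (∃ y ∈ RF (idl (A := A) (B := B) m'),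
        (∀ (k : ℕ) (s : ℂ ≃+* ℂ),
          AutC (idl (m * a)) (cc (NN n f a) ((k : OO A B) * w0)) s → s y = y) ∧
        y ^ 2 = ∏ j, (∏ q ∈ X j, GFib R H m m' q.1 q.2) ^ g j) →
      V.valuation ((∑ j, (g j : ℂ) * ∑ q ∈ X j, emb q.2 * muX R q.1 *
        FFib R a m m' q.1 q.2) / u) ^ 8 ≤ V.valuation (2 : ℂ) ^ (3 * dR A + 13)

/-- (ORB) the sum over one orbit of `1 + N w0`. Model: `E_ORB.lean`.

Uses Sd_LAG, Sd_PRD, Sv_COE, Sv_DST, Sv_CON, Sv_NE1, Sv_FIB, Sv_GPO. PROOF. `E_ORB.lean` with `m'`, `GFib`, `FFib`: (1) (GPO) with `c = 1`: the factor 2. (2) `x_k = c_k x`, `c_j x_k ≡ c_(j+k) x` modulo `m'`, `c_4 ≡ 1` modulo `m'` (CON), `G` depends only on the class modulo `m'` (FIB): `∏_k G_(i, c_j x_k)` does not depend on `j < 4`. (DST (2)), (LAG (3)): `v(dlg P Q ξ_0)^8 ≤ v(2)^(3(d-1))`, times 2.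
`emb x_k - emb x = emb x N k emb w0`, `v ≤ v(4)`. -/
def Sv_ORB : Prop :=
  ∀ (A B : ℤ) (P : Ideal (OO A B)) (V : ValuationSubring ℂ) (n f a m m' : ℕ),
    SetV A B P V n f a m m' →
    ∀ (ι : Type) (R : Reps A B (2 * f) ι) (u e a1 a3 : ℂ), GoodQ V (R.L R.i0) u e a1 a3 →
    ∀ (H : ι → Finset ℂ) (i : ι), IsHalf (R.L i) (a : ℂ) (H i) →
    ∀ x : OO A B, IsCoprime x ((m : ℕ) : OO A B) →
      V.valuation (muX R i * FFib R a m m' i x / u) ≤ V.valuation (2 : ℂ) ∧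
      ∀ y : ℕ → OO A B,
        (∀ k < 4, y k - cc (NN n f a) ((k : OO A B) * w0) * x ∈ idl m') →
        V.valuation ((∑ k ∈ Finset.range 4, muX R i * FFib R a m m' i (y k)) / u) ^ 8 ≤
          V.valuation (2 : ℂ) ^ (3 * dR A + 5)

/-! ## The sets `XX` -/

/-- (GLC) the automorphisms `1 + k N w0` and `1 + m' b` are trivial on `D`, and `D ≤ RF (m')`. Model: `E_GLC.lean`.

Uses Sv_CON, `te_GAL`. PROOF. As `E_GLC.lean` (`m' b ∈ (4 f)`). Last part: `y ∈ D`, so `y ∈ RF (m)`; it is fixed by all `σ ∈ Gal(RF (m)/k)` which are trivial on `RF (m')`: extend `σ` to `s ∈ Aut(ℂ)` (`TorX.ext` for `RF m` as a field over `ℚ`), `FixK`; `s` is trivial on `RF (4 f) ≤ RF (m')`; `TorX.act` (`m`): `ActI s (idl m) a' L L' mu`, and for `idl m'`: `TorX.triv`: `a' = sp c`, `c - 1 ∈ (m')`,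
so `c = 1 + m' b`, `s z = z^(nI a') = z` for `z^(2^(n+2)) = 1` (`TorX.zeta`, CON (2)). `InCyc`: `s y = y`. Galois theory: `RF m/k` is Galois, `y` is in the fixed field of `Gal(RF m/RF m')`, which is `RF m'` (see `E_SIG`-type arguments in `Pool/Agent/NS/F_RP1.lean` or `IsGalois.fixedField_fixingSubgroup`). -/
def Sv_GLC : Prop :=
  ∀ (A B : ℤ) (P : Ideal (OO A B)) (V : ValuationSubring ℂ) (n f a m m' : ℕ),
    SetV A B P V n f a m m' →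
    ∀ D : IntermediateField ℚ ℂ, InCyc A B f (2 ^ (n + 2)) D →
    (∀ (k : ℕ) (s : ℂ ≃+* ℂ),
      AutC (idl (m * a)) (cc (NN n f a) ((k : OO A B) * w0)) s → ∀ y ∈ D, s y = y) ∧
    (∀ (b : OO A B) (s : ℂ ≃+* ℂ), AutC (idl (m * a)) (cc m' b) s → ∀ y ∈ D, s y = y) ∧
    ((∀ y ∈ D, y ∈ RF (idl (A := A) (B := B) m)) →
      (∃ L, NL A B L) → ∀ y ∈ D, y ∈ RF (idl (A := A) (B := B) m'))

/-- (XXS) stability of `XX` under `-1` and under `c`. PORT of `Sd_XXS` (`E_XXS.lean`). -/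
def Sv_XXS : Prop :=
  ∀ (A B : ℤ) (P : Ideal (OO A B)) (V : ValuationSubring ℂ) (n f a m m' : ℕ),
    SetV A B P V n f a m m' →
    ∀ (ι : Type) (R : Reps A B (2 * f) ι) (D : IntermediateField ℚ ℂ) (h : kk A B ≤ D),
    letI := algC h
    ∀ (τ : D ≃ₐ[kk A B] D), ∀ q ∈ XX R m h τ, (q.1, -q.2) ∈ XX R m h τ ∧
      ∀ (c : OO A B) (s : ℂ ≃+* ℂ), IsCoprime c ((m : ℕ) : OO A B) → AutC (idl (m * a)) c s →
        (∀ y ∈ D, s y = y) →
          (q.1, Ideal.Quotient.mk (idl (A := A) (B := B) m) c * q.2) ∈ XX R m h τ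

/-- (HEQ) sums and products of even functions over half systems. PORT of `Sd_HEQ` (`E_HEQ.lean`). Uses Sv_XXS. -/
def Sv_HEQ : Prop :=
  ∀ (A B : ℤ) (P : Ideal (OO A B)) (V : ValuationSubring ℂ) (n f a m m' : ℕ),
    SetV A B P V n f a m m' →
    ∀ (ι : Type) (R : Reps A B (2 * f) ι) (D : IntermediateField ℚ ℂ) (h : kk A B ≤ D),
    letI := algC h
    ∀ (τ : D ≃ₐ[kk A B] D) (S : Finset (ι × (OO A B ⧸ idl (A := A) (B := B) m))),
      HalfS R m h τ S → ∀ F : ι × (OO A B ⧸ idl (A := A) (B := B) m) → ℂ,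
      (∀ q ∈ XX R m h τ, F (q.1, -q.2) = F q) →
      (∀ S', HalfS R m h τ S' → ∏ q ∈ S, F q = ∏ q ∈ S', F q) ∧
      ∑ᶠ q ∈ XX R m h τ, F q = 2 * ∑ q ∈ S, F q

/-- (HAL) half systems which are stable under `1 + N w0` and under the translations by `m' b`. Model: `E_HAL.lean`.

Uses Sv_CON, Sv_XXS. PROOF. `S = {q ∈ XX : j(r(q.2)) < j(-r(q.2))}` as in `E_HAL.lean`, `r` the class modulo `f` (`f` divides `c - 1` and `m'`); `(q.1, q.2 + m' b) ∈ XX` by hypothesis. -/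
def Sv_HAL : Prop :=
  ∀ (A B : ℤ) (P : Ideal (OO A B)) (V : ValuationSubring ℂ) (n f a m m' : ℕ),
    SetV A B P V n f a m m' →
    ∀ (ι : Type) [Finite ι] (R : Reps A B (2 * f) ι) (D : IntermediateField ℚ ℂ)
      (h : kk A B ≤ D),
    letI := algC h
    ∀ (τ : D ≃ₐ[kk A B] D),
      (∀ q ∈ XX R m h τ, (q.1, Ideal.Quotient.mk (idl (A := A) (B := B) m) (cc (NN n f a) w0) *
        q.2) ∈ XX R m h τ) →
      (∀ q ∈ XX R m h τ, ∀ b : OO A B, (q.1, q.2 +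
        Ideal.Quotient.mk (idl (A := A) (B := B) m) ((m' : OO A B) * b)) ∈ XX R m h τ) →
      ∃ S : Finset (ι × (OO A B ⧸ idl (A := A) (B := B) m)), HalfS R m h τ S ∧
        (∀ q ∈ S, (q.1, Ideal.Quotient.mk (idl (A := A) (B := B) m) (cc (NN n f a) w0) * q.2) ∈ S) ∧
        ∀ q ∈ S, ∀ b : OO A B, (q.1, q.2 +
          Ideal.Quotient.mk (idl (A := A) (B := B) m) ((m' : OO A B) * b)) ∈ S

/-- (COS) a stable set is a union of orbits of 16 elements.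

Uses Sv_CON. PROOF. `c_k = cc N (k w0)`. Strong induction on the number of elements of `S`: if `S` is not empty take `q ∈ S`, `x = out q.2` (prime to `m` by hypothesis). The 16 elements `q_(k,l) = (q.1, mk (c_k x + m' bb l))`, `k, l < 4`, are in `S`: `(q.1, mk c_1 ^ k * q.2) ∈ S` by induction, `c_1^k ≡ c_k` modulo `m` (CON (3), induction), and the translations. They are different:
`c_k x + m' bb l ≡ c_k' x + m' bb l'` modulo `m`; modulo `m'`: `c_k x ≡ c_k' x`; if `k ≠ k'`, say `k < k'`: multiply by `c_(4-k)`: `c_4 x ≡ c_(4 + k' - k) x`, `x ≡ c_(k'-k) x` modulo `m'` (CON (3), (4)), and doubling (multiply by `c_(k'-k)`) `x ≡ c_(2(k'-k)) x` gives for odd `k' - k` again `x ≡ c_2 x` (use `c_4 ≡ 1`), and for `k' - k = 2` directly: contradiction to CON (5).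
So `k = k'` and `m' (bb l - bb l') ∈ (m)`, `2 ∣ bb l - bb l'`, `l = l'`. Let `S' = S` without these 16 elements; it is stable: the map `q ↦ (q.1, mk c_1 * q.2)` is injective on `S` and maps the 16 elements onto themselves (`c_1 c_k ≡ c_(k+1)`, `c_1 m' bb l ≡ m' bb l` modulo `m`, `c_4 x ≡ x + m' (a w0 x)` is in the set with `k = 0`), and the translations are permutations with inverse `-b`
(`b + bb l ≡ bb l'` modulo 2). `T` = the one for `S'`, together with `(q.1, x)`. -/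
def Sv_COS : Prop :=
  ∀ (A B : ℤ) (P : Ideal (OO A B)) (V : ValuationSubring ℂ) (n f a m m' : ℕ),
    SetV A B P V n f a m m' →
    ∀ (ι : Type) (S : Finset (ι × (OO A B ⧸ idl (A := A) (B := B) m))),
      (∀ q ∈ S, IsCoprime (Quotient.out q.2 : OO A B) ((m : ℕ) : OO A B)) →
      (∀ q ∈ S, (q.1, Ideal.Quotient.mk (idl (A := A) (B := B) m) (cc (NN n f a) w0) * q.2) ∈ S) →
      (∀ q ∈ S, ∀ b : OO A B, (q.1, q.2 +
        Ideal.Quotient.mk (idl (A := A) (B := B) m) ((m' : OO A B) * b)) ∈ S) →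
      ∃ T : Finset (ι × OO A B), (∀ t ∈ T, IsCoprime t.2 ((m : ℕ) : OO A B)) ∧
        (∀ F : ι × (OO A B ⧸ idl (A := A) (B := B) m) → ℂ, ∑ q ∈ S, F q =
          ∑ t ∈ T, ∑ k ∈ Finset.range 4, ∑ l ∈ Finset.range 4,
            F (t.1, Ideal.Quotient.mk _ (cc (NN n f a) ((k : OO A B) * w0) * t.2 +
              (m' : OO A B) * bb l))) ∧
        ∀ F : ι × (OO A B ⧸ idl (A := A) (B := B) m) → ℂ, ∏ q ∈ S, F q =
          ∏ t ∈ T, ∏ k ∈ Finset.range 4, ∏ l ∈ Finset.range 4,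
            F (t.1, Ideal.Quotient.mk _ (cc (NN n f a) ((k : OO A B) * w0) * t.2 +
              (m' : OO A B) * bb l))

/-- (MAIN) both estimates for families of sets of pairs which are stable under `c = 1 + N w0` and the translations by `m' b`. Model: `E_MAIN.lean`.

Uses Sv_CON, Sv_SQR, Sv_ORB, Sv_COS, Sv_FIB. PROOF. `c_k = cc N (k w0)`, `T_j` from (COS). `F q = om(out q.2) muX dlX(..)/u`; for `q = (i, mk y)`: `out ≡ y` modulo `m`, so `om(out) = om y` (`OddQ.per`, `2 f ∣ m`) and `dlX(pt R m i out) = dlX(pt R m i y)` (periodic: `b_TDL`/`ee`, `te_PT`; the same for `Θ`); for `y = c_k t.2 + m' bb l`: `om y = om t.2` (`2 f ∣ m'`, `c_k - 1 ∈ (4 f)`).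
So the sum over the orbit of `t` is `om(t.2) Σ_k muX FFib(c_k t.2)/u`. `v(om x)  ≤ 1`. (i) (ORB (2)). (ii) (SQR) for `X j = {(t.1, c_k t.2) : t ∈ T_j, k < 4}` (injective by the argument in (COS); or write the product over `T_j × range 4` and use (SQR) with `J' = J × Fin 4`, `X (j, k) = {(t.1, c_k t.2) : t ∈ T_j}`, where `t ↦ (t.1, c_k t.2)` is injective: `c_k ≠ 0`, `O` a domain):
`v(Σ g_j Σ_q emb(q.2) E q)^8 ≤ v(2)^(3d+13)`, `E q = muX FFib/u`, `v(E q) ≤ v 2` (ORB (1)). The difference to the claim is `Σ_j g_j Σ_(t ∈ T_j) D_t`, `D_t = (om(x) - emb(x)) Σ_k E(c_k x) - Σ_k (emb(c_k x) - emb x) E(c_k x)`, `x = t.2`: `v(om x - emb x)² ≤ v 2` (`OddQ.cong`; `x - 1 ∈ P`, `pw`), so the first term has `v^8 ≤ v(2)^4 v(2)^(3d+5)`;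
the second `v ≤ v(4) v(2)`, `v^8 ≤ v(2)^24`. -/
def Sv_MAIN : Prop :=
  ∀ (A B : ℤ) (P : Ideal (OO A B)) (V : ValuationSubring ℂ) (n f a m m' : ℕ),
    SetV A B P V n f a m m' →
    ∀ (ι : Type) (R : Reps A B (2 * f) ι) (u e a1 a3 : ℂ), GoodQ V (R.L R.i0) u e a1 a3 →
    ∀ (H : ι → Finset ℂ), (∀ i, IsHalf (R.L i) (a : ℂ) (H i)) →
    ∀ om : OO A B → ℂ, OddQ f V om →
    ∀ (J : Type) [Fintype J] (S : J → Finset (ι × (OO A B ⧸ idl (A := A) (B := B) m))),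
      (∀ j, ∀ q ∈ S j, IsCoprime (Quotient.out q.2 : OO A B) ((m : ℕ) : OO A B)) →
      (∀ j, ∀ q ∈ S j,
        (q.1, Ideal.Quotient.mk (idl (A := A) (B := B) m) (cc (NN n f a) w0) * q.2) ∈ S j) →
      (∀ j, ∀ q ∈ S j, ∀ b : OO A B, (q.1, q.2 +
        Ideal.Quotient.mk (idl (A := A) (B := B) m) ((m' : OO A B) * b)) ∈ S j) →
      (∀ j, V.valuation ((∑ q ∈ S j, om (Quotient.out q.2) * muX R q.1 *
        dlX (R.L q.1) a (pt R m q.1 (Quotient.out q.2))) / u) ^ 8 ≤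
          V.valuation (2 : ℂ) ^ (3 * dR A + 5)) ∧
      ∀ g : J → ℤ,
        (∃ y ∈ RF (idl (A := A) (B := B) m'),
          (∀ (k : ℕ) (s : ℂ ≃+* ℂ),
            AutC (idl (m * a)) (cc (NN n f a) ((k : OO A B) * w0)) s → s y = y) ∧
          y ^ 2 = ∏ j, (∏ q ∈ S j,
            ThetaH (R.L q.1) (H q.1) (pt R m q.1 (Quotient.out q.2))) ^ g j) →
        V.valuation ((∑ j, (g j : ℂ) * ∑ q ∈ S j, om (Quotient.out q.2) * muX R q.1 *
          dlX (R.L q.1) a (pt R m q.1 (Quotient.out q.2))) / u) ^ 8 ≤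
            V.valuation (2 : ℂ) ^ (3 * dR A + 9)

/-- (FIN) the final form. Model: `E_FIN.lean`.

The second hypothesis is the second part of `Sr_VL2` (proved: `Pool.Agent.N2R.tr_VL2`).

Uses Sv_CTX, Sd_AUT, Sv_CON, Sv_GLC, Sv_XXS, Sv_HEQ, Sv_HAL, Sv_MAIN. PROOF. `m = lvX 2 f n = f * 4 * 2^n = 2^(n+2) f`, `m' = 2^(n+1) f`, `a = aX 2 f = 1 + 8 f`, `f ≥ 3`, `3 ∣ f`, `SetV` (CTX). (GLC): the automorphisms `c_1` and `1 + m' b` are trivial on `D`, `D ≤ RF (m')`. Stability of `XX` under `c_1`: (AUT), (XXS). Under translations: `q ∈ XX`, `b`: `x = out q.2` is prime to 2,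
so there is `b'` with `b' x ≡ b` modulo 2 (`IsCoprime`), `c = cc m' b'`: `mk c * q.2 = q.2 + mk (m' b)` (`m = 2 m'`), `c` is prime to `m a`.. (`c ≡ 1` modulo `m'`; prime to `a`: replace `b'` by `b' a a'`, `a a' ≡ 1` modulo 2; then `c ≡ 1` modulo `m' a`). (HAL): stable half systems `S τ`. `C τ = ∏_(q ∈ S τ) Θ` (HEQ). `TT2 = 1/2 · 2 Σ_(q ∈ S τ) om muX dlX` (HEQ). First claim: (MAIN (i)):
`v^8 ≤ v(2)^(3d+5) ≤ v(2)^(4d+2)` (`3 d + 5 ≥ 4 d + 2` as `d ≤ 3`), take square roots (`pow_le_pow_left₀` for squares: `(v^4)² ≤ (v(2)^(2d+1))²`). Second claim: as in `E_FIN.lean`, (MAIN (ii)): `v^8 ≤ v(2)^(3d+9) ≤ v(2)^(4d+6)`. -/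
def Sv_FIN : Prop :=
  SQ_RFIN →
  (∀ (A B : ℤ) (V : ValuationSubring ℂ) (P : Ideal (OO A B)), CQ A B → (2 : ℤ) ∣ B ^ 2 + 4 * A →
    OverI V P → ((2 : ℕ) : OO A B) ∈ P → TorX A B →
    ∀ f : ℕ, Odd f → ∀ y ∈ RF (idl (A := A) (B := B) f), y ≠ 0 →
      ∃ k : ℤ, V.valuation y ^ 2 = V.valuation (2 : ℂ) ^ k) → SQ_EFIN

end

end Pool.Agent.N2V
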