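import Pool.Agent.N2.StHT

/-!
# MUX-2R, block HU (helper66): abstract evaluation, `p = 2` RAMIFIED in `k`

The twin of block HT (`N2/StHT.lean`, proofs `N2/H_*.lean`) for `2` ramified. Nothing here depends on the field `k`. `v = V.valuation` (multiplicative), `t = v 2`.
`P` is the symbol `Σ_(N b_i ∈ H) kk_i Φ_i(x, y) + Σ_(N b_i ∈ -H) kk_i Φ_i(-x, -y)` over `u Om`, `H = {1, h}` modulo `8` the group of the norms of the units of `O_P` (`h = 5, 3, 7`); it has only exponents in `H` (`rel`). All values are in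
`pi * KI`, `v pi = 1`, and `v` has values in `(1/2) ℤ` (additive) on `KI`. `Pp` is the holomorphic part (`prj`: it is a combination of translates of `P` by `t/q`, `q` odd). No part `sgnPart` here.
`d = dH h` is the exponent of the different (`2` for `h = 5`, else `3`). Result: additive valuation `< d/2 + 3/4` for infinitely many levels.
Modules: SHU, H1U, KYU, DVU (open) and HU (helper66); BDT, LOCT, PAIT are those of `StHT.lean`. Module `X` proves `theorem tu_X .. : Su_X` in `Pool/Agent/N2/HU_X.lean`, namespace `Pool.Agent.N2H`.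
-/

set_option autoImplicit false

namespace Pool.Agent.N2H

open _root_.MU3 Pool.Agent.MuSym Pool.Agent.MUXH Pool.Agent.N2 OnePoint

noncomputable section

/-- the exponent of the different -/
def dH (h : ℕ) : ℕ := if h = 5 then 2 else 3

/-- the standing hypotheses -/
structure HypU (V : ValuationSubring ℂ) (N₀ s₀ : ℕ) (nu : ℤ → ℂ)
    (P Pp : OnePoint ℚ → OnePoint ℚ → ℂ) (pi : ℂ) (KI : Subfield ℂ) (om : ℂ) (h : ℕ) : Prop where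
  vp : V.valuation (2 : ℂ) < 1
  N0 : 2 ≤ N₀
  cop : Nat.Coprime 2 N₀
  nu1 : nu 1 = 1
  num : ∀ d d', nu (d * d') = nu d * nu d'
  nuper : ∀ d d', ((8 * N₀ : ℕ) : ℤ) ∣ d - d' → nu d = nu d'
  nuv : ∀ d, V.valuation (nu d) ≤ 1
  sym : IsSym (2 ^ (s₀ + 1) * N₀) nu P
  om8 : IsPrimitiveRoot om 8
  hh : h = 3 ∨ h = 5 ∨ h = 7
  rel : ∀ x : ℚ, P ∞ ((x + 1 / 4 : ℚ) : OnePoint ℚ) -
    (om + om ^ h) * P ∞ ((x + 1 / 8 : ℚ) : OnePoint ℚ) + om ^ (1 + h) * P ∞ (x : OnePoint ℚ) = 0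
  alg : ∀ x y, IsAlgebraic ℚ (P x y)
  fin : ∃ T : Finset ℂ, ∀ x y, P x y ∈ AddSubgroup.closure (T : Set ℂ)
  typ : ∀ x y, ∃ w ∈ KI, P x y = pi * w
  unr : ∀ w ∈ KI, V.valuation w < 1 → V.valuation w ^ 2 ≤ V.valuation (2 : ℂ)
  hlf : ∃ w ∈ KI, V.valuation w ^ 2 = V.valuation (2 : ℂ)
  vpi : V.valuation pi = 1
  /-- Theorem G for the translates by `1/8`, `1/32` of the holomorphic part -/
  G : ∀ N' : ℕ, N' ≠ 0 → 2 ^ (s₀ + 1) * N₀ ∣ N' → ∃ α β γ δ : ℤ, α * δ - β * γ = 1 ∧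
    (N' : ℤ) ∣ γ ∧ (N' : ℤ) ∣ δ - 1 ∧
    1 < V.valuation (PTq 32 (PTq 8 Pp) ∞ (mob α β γ δ ∞))
  /-- the projector; the integer `q` is odd in the application -/
  prj : ∃ (q : ℕ) (c : ℕ → ℂ), q ≠ 0 ∧ (∀ t, V.valuation (c t) ≤ 1) ∧ ∀ x y : OnePoint ℚ,
    ∑ t ∈ Finset.range q, c t * P (mob q t 0 q x) (mob q t 0 q y) = Pp x y

/-- (SHU) `Q_(1/8)` is a symbol with the same character.

MODEL: `N2/H_SHT.lean` (translation by `1/4`). PROOF. `τ = mob 8 1 0 8` (`x ↦ x + 1/8`). `h = (a b; c d)`, `2^(s+7) N₀ ∣ c`: `a d ≡ 1` modulo `8`, `a, d` odd, so `a ≡ d` modulo `8`; `τ (h x) = h' (τ x)` with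
`h' = (a + c/8, b + (d - a)/8 - c/64; c, d - c/8)`, integral, determinant 1, `2^(s+1) N₀ ∣ c`, and `nu (d - c/8) = nu d` because `8 N₀ ∣ c/8`. -/
def Su_SHU : Prop :=
  ∀ (N₀ s : ℕ) (nu : ℤ → ℂ) (Q : OnePoint ℚ → OnePoint ℚ → ℂ),
    (∀ d d', ((8 * N₀ : ℕ) : ℤ) ∣ d - d' → nu d = nu d') → IsSym (2 ^ (s + 1) * N₀) nu Q →
    IsSym (2 ^ (s + 7) * N₀) nu (PTq 8 Q)

/-- (H1U) Theorem G for `P` from Theorem G for the holomorphic part.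

MODEL: `N2/H_H1T.lean`. PROOF. `q`, `c` from `prj`, `h` from `G` for `N' q²`. With `T_t = mob q t 0 q` (it commutes on the cusps with the translations by `1/8`, `1/32`):
`PTq 32 (PTq 8 Pp) ∞ (h ∞) = Σ_t c_t PTq 32 (PTq 8 P) ∞ (h_t ∞)`, `T_t (h ∞) = h_t ∞`, `h_t = (α + t γ/q, β + t (δ - α)/q - t² γ/q²; γ, δ - t γ/q)`, integral and in `Γ₁(N')`. If all terms had valuation `≤ 1` then so would the sum. -/
def Su_H1U : Prop :=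
  ∀ (V : ValuationSubring ℂ) (N₀ s₀ : ℕ) (nu : ℤ → ℂ) (P Pp : OnePoint ℚ → OnePoint ℚ → ℂ)
    (pi : ℂ) (KI : Subfield ℂ) (om : ℂ) (h : ℕ), HypU V N₀ s₀ nu P Pp pi KI om h →
    ∀ N' : ℕ, N' ≠ 0 → 2 ^ (s₀ + 1) * N₀ ∣ N' →
    ∃ α β γ δ : ℤ, α * δ - β * γ = 1 ∧ (N' : ℤ) ∣ γ ∧ (N' : ℤ) ∣ δ - 1 ∧
      1 < V.valuation (PTq 32 (PTq 8 P) ∞ (mob α β γ δ ∞))

/-- (KYU) from locally constant values to vanishing closed cycles of `Q_(1/32)`.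

MODEL: `N2/H_KYT.lean` (translation by `1/16`, `nu` periodic modulo `2 N₀`). The same proof: `R = 10 + (s₀ + 1) + r + 3`, `M = ℂ ⧸ m`, `Φ x y` = the class of `PTq 32 Q x y`; `h ∈ Γ₁(2^R N₀)`: `τ h τ⁻¹ = (a + c/32, b + (d - a)/32 - c/1024; c, d - c/32)`
is integral and in `Γ₀(2^(s₀+1) N₀)` with lower right entry `≡ 1` modulo `8 N₀`. (A) for `n ≥ n₀ + r + 8` with PAIT for `Q`: `nu (a + c/32) = nu a` because `8 N₀ ∣ c/32`; `2^(r+5) ∣ d`. -/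
def Su_KYU : Prop :=
  ∀ (V : ValuationSubring ℂ) (_ : V.valuation (2 : ℂ) < 1) (m : Submodule V ℂ) (N₀ s₀ : ℕ)
    (nu : ℤ → ℂ) (Q : OnePoint ℚ → OnePoint ℚ → ℂ) (_ : 2 ≤ N₀) (_ : Nat.Coprime 2 N₀)
    (_ : nu 1 = 1) (_ : ∀ d d', ((8 * N₀ : ℕ) : ℤ) ∣ d - d' → nu d = nu d')
    (_ : ∀ d, IsCoprime d ((2 * N₀ : ℕ) : ℤ) → V.valuation (nu d) = 1)
    (_ : IsSym (2 ^ (s₀ + 1) * N₀) nu Q) (r n₀ : ℕ)
    (_ : ∀ n, n₀ ≤ n → ∀ b b' : ℤ, ¬ (2 : ℤ) ∣ b → (2 : ℤ) ^ r ∣ b - b' →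
      Q ∞ (((b : ℚ) / 2 ^ n : ℚ) : OnePoint ℚ) - Q ∞ (((b' : ℚ) / 2 ^ n : ℚ) : OnePoint ℚ) ∈ m),
    ∃ R : ℕ, ∀ a b c d : ℤ, a * d - b * c = 1 → (2 : ℤ) ^ R * N₀ ∣ c →
      (2 : ℤ) ^ R * N₀ ∣ d - 1 → ∀ x, PTq 32 Q x (mob a b c d x) ∈ m

/-- (DVU) the character sums of a function with exponents in `{1, h}` modulo `8`; `ζ^(2^n) = om⁻¹`, `M = 2^(n+3)`.

PROOF. `t = v 2`. (0) `v(om - 1)⁴ = t` (`8`-th cyclotomic polynomial; `IsPrimitiveRoot` lemmas as in `MUX/HN_DVN.lean`), `om^4 = -1`, `v(om² - 1)² = t`; `om - om^h = om (1 - om^(h-1))`, `om^(h-1) = om^4 = -1` (`h = 5`), `om²` (`h = 3`), `om^6 = -om²` (`h = 7`), so `v(om - om^h)² = t^(4 - d)`.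
`v(1 + om^(1-h))² ≤ t` (it is `0`, or `1 ± om²`), `v(om + om^h) < 1`, `v(om^(1+h) - 1) < 1` (all `8`-th roots of unity are `≡ 1`). (1) On the span of the translates, shift by `2^n` satisfies `X² - (om + om^h) X + om^(1+h) = 0`: `A b = (y (b + 2^n) - om^h y b)/(om - om^h)`, `B b = (om y b - y (b + 2^n))/(om - om^h)` satisfy
`A (b + 2^n) = om A b`, `B (b + 2^n) = om^h B b`, `y = A + B`, so `y (b + k 2^n) = om^k A b + om^(h k) B b`. `Σ_(b < 2^(n+3)) ζ^b y b = Σ_(b < 2^n) ζ^b Σ_(k < 8) om^(-k) y (b + k 2^n) = 8 Σ_(b < 2^n) ζ^b A b` (`Σ_k om^((h-1) k) = 0`). And `Σ_(b < 2^n) ζ^b y (b + 2^n) = om Σ_(2^n ≤ b < 2^(n+1)) ζ^b y b`. So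
`(om - om^h) Σ = 8 (om Σ_[2^n, 2^(n+1)) ζ^b y b - om^h Σ_[0, 2^n) ζ^b y b) = - 8 om^h (Σ_(b < 2^(n+1)) ζ^b y b - (1 + om^(1-h)) Σ_[2^n, 2^(n+1)) ζ^b y b)`.
(2) `y b* ≠ 0` of maximal valuation, `W b = y b/y b* ∈ K ∩ V`. Modulo the maximal ideal `W (b + 2^(n+1)) ≡ W b` (the relation and (0)), so we may take `0 ≤ b* < 2^(n+1)`. `P(T) = Σ_(b < 2^(n+1)) W b T^b`, `P(1 + X) = Σ_(i < 2^(n+1)) c_i X^i`, `c_i ∈ K ∩ V`; some `c_i` is a unit; `i₀` the smallest `i` with `v c_i = 1`; for `i < i₀`: `v(c_i)² ≤ t`.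
`x = v(ζ - 1)`, `x^(2^(n+2)) = t`. `v(P(ζ)) = x^(i₀)`: for `i < i₀`: `v(c_i)² x^(2i) ≤ t x^(2i) = x^(2^(n+2) + 2i) < x^(2 i₀)` because `i₀ < 2^(n+1)`. The other term: `v(1 + om^(1-h))² ≤ t < x^(2 i₀)`. So `v(om - om^h) v(Σ) = t³ v(y b*) x^(i₀)`, `i₀ < 2^(n+1)`: squares: `t^(4-d) v(Σ)² > t⁶ v(y b*)² t`. This is (1).
(3) If some difference `y (b₁ + 2^n) - y b₁` has maximal valuation then `i₀ < 2^n`: otherwise modulo the maximal ideal `P = (T - 1)^(2^n) P₁ = (T^(2^n) + 1) P₁`, `deg P₁ < 2^n`, `W (b + 2^n) ≡ W b` for `0 ≤ b < 2^n`, then for all `b` (`W (b + 2^(n+1)) ≡ W b`): contradiction. So `x^(4 i₀) > x^(4 2^n) = t`, fourth powers: `t^(8 - 2d) v(Σ)⁴ > t^12 v(y b*)⁴ t`. -/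
def Su_DVU : Prop :=
  ∀ (V : ValuationSubring ℂ) (_ : V.valuation (2 : ℂ) < 1) (K : Subfield ℂ)
    (_ : ∀ w ∈ K, V.valuation w < 1 → V.valuation w ^ 2 ≤ V.valuation (2 : ℂ)) (om : ℂ)
    (_ : IsPrimitiveRoot om 8) (h : ℕ) (_ : h = 3 ∨ h = 5 ∨ h = 7) (n : ℕ) (y : ℤ → ℂ)
    (_ : ∀ b c : ℤ, (2 : ℤ) ^ (n + 3) ∣ b - c → y b = y c)
    (_ : ∀ b : ℤ, y (b + 2 ^ (n + 1)) - (om + om ^ h) * y (b + 2 ^ n) + om ^ (1 + h) * y b = 0)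
    (_ : ∀ b b' : ℤ, y b' ≠ 0 → y b / y b' ∈ K) (b₀ : ℤ) (_ : y b₀ ≠ 0)
    (ζ : ℂ) (_ : IsPrimitiveRoot ζ (2 ^ (n + 3))) (_ : ζ ^ 2 ^ n * om = 1),
    V.valuation (2 : ℂ) ^ (dH h + 3) * V.valuation (y b₀) ^ 2 <
      V.valuation (∑ b ∈ Finset.range (2 ^ (n + 3)), ζ ^ b * y b) ^ 2 ∧
    ∀ b₁ : ℤ, (∀ b, V.valuation (y b) ≤ V.valuation (y (b₁ + 2 ^ n) - y b₁)) →
      V.valuation (2 : ℂ) ^ (2 * dH h + 5) * V.valuation (y b₀) ^ 4 <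
        V.valuation (∑ b ∈ Finset.range (2 ^ (n + 3)), ζ ^ b * y b) ^ 4

/-- (HU) the conclusion of the block: infinitely many levels with large character sums (additive valuation `< d/2 + 3/4`).

USES St_BDT, Su_SHU, Su_H1U, St_LOCT, Su_KYU, Su_DVU. PROOF (helper66, glue). `t = v 2`, `z n b = P ∞ (b/2^n)`. Suppose that for some `n₀` and all `n ≥ n₀` there is `ζ` with `v(Σ)⁴ ≤ t^(2d+3)`. `Y b = comb α g 1 (z n) b`: period `2^n`, the relation (`α² ≡ g ≡ 1` modulo `8`), values in `pi KI`. If `v(Y b)² t > 1` then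
`v(Y b)² t² ≥ 1` (`hlf`, `unr`), DVU (1): `v(Σ)² > t^(d+1)`, contradiction. So `v(Y b)² t ≤ 1`. If `v(Y (b + 2^(n-3)) - Y b) > 1` then its square times `t` is `≥ 1`, so it is maximal and DVU (2): `v(Σ)⁴ > t^(2d+3)`, contradiction. So the combinations for `Q' = PTq 8 P` are in `V`; LOCT with `m = V`, KYU, H1U: contradiction. -/
def Su_HU : Prop :=
  ∀ (V : ValuationSubring ℂ) (N₀ s₀ : ℕ) (nu : ℤ → ℂ) (P Pp : OnePoint ℚ → OnePoint ℚ → ℂ)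
    (pi : ℂ) (KI : Subfield ℂ) (om : ℂ) (h : ℕ), HypU V N₀ s₀ nu P Pp pi KI om h →
    ∀ (α g : ℤ), (8 : ℤ) ∣ α - 1 → α ≠ 1 → (8 : ℤ) ∣ g - 1 → g ≠ 1 → ∀ n₀ : ℕ,
      ∃ n, n₀ ≤ n ∧ ∀ ζ : ℂ, IsPrimitiveRoot ζ (2 ^ n) → ζ ^ 2 ^ (n - 3) * om = 1 →
        V.valuation (2 : ℂ) ^ (2 * dH h + 3) < V.valuation (∑ b ∈ Finset.range (2 ^ n), ζ ^ b *
          comb α g 1 (fun b => P ∞ (((b : ℚ) / 2 ^ n : ℚ) : OnePoint ℚ)) b) ^ 4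

end

end Pool.Agent.N2H
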