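import Pool.Agent.N2.DefsT
import Pool.Agent.NS.StRN
import Pool.Agent.MUX.StR2

/-!
# MUX-2N, block R: reduction of CM curves at the places above 2, 2 not split in `k` (helper77)

`V` a valuation ring of `ℂ`, `v = V.valuation`, `v 2 < 1`, `v 3 = 1`. Deuring form: `X z = xu L u e z = (℘ z - e)/u²`,
`Y z = yt L u e a c z = (℘' z/u³ - a X - c)/2`: the coordinates of the lattice `u L` on `WT a c : Y² + a X Y + c Y = X³` (`xu`: `NS/DefsN.lean`; `yt`, `WT`, `et`, `GoodT`: `N2/DefsT.lean`; `yt` unfolds to this formula); `e = ℘(w)`, `w` of order three,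
`X(w) = Y(w) = 0`. This is the version for `2` of helper58's block RN (`Pool/Agent/NS/StRN.lean`, files `Pool/Agent/NS/RN_X.lean`): most modules are adaptations of
these files. `GRG` (good reduction, general Weierstrass form) is defined in `MUX/StR2.lean`; its lemmas (`gInE_iff`, `gInK_add`, `gInK_congr`, `gInt_Y`, `gv_tX_lt`,
`gv_tX_add`, `gv_tX_nat`, `gmem_of_nat_mul`, `gv_X_sub`, `gv_DX`, `gnear`, `gnear_lt`) are in `Pool/Agent/MUX/VG.lean` (namespace `Pool.Agent.MUX2`; proved). `InK`, `tX`: `MUX/StVX.lean`.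
The theorems `Pool.Agent.MU3B.b_X : St_X` (`MU3/BAll.lean`), block U (`MUX/UAll.lean`, `u_X : Su_X`) may be used directly.

Every `def Sr_X : Prop` is the statement of a module which proves `theorem tr_X (h : Sr_Y) .. : Sr_X` in `Pool/Agent/N2/R_X.lean`, namespace
`Pool.Agent.N2R`. Facts on `emb`, ideals, `Tor` for `CQ A B` without hypotheses: `Pool/Agent/MUX/XLib.lean` (helper51). Everything except VL2 holds
for `2` inert and for `2` ramified (structure `CtxB`).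
-/

set_option autoImplicit false

open WeierstrassCurve Polynomial

namespace Pool.Agent.N2R

open _root_.MU3 Pool.Agent.MU3A Pool.Agent.MU3B Pool.Agent.RI Pool.Agent.MUX Pool.Agent.MUXU
open Pool.Agent.MUXV (InK tX)
open Pool.Agent.MUX2 (GRG)
open Pool.Agent.NS (xu)
open Pool.Agent.N2 (WT yt et GoodT CaseT)

noncomputable section

/-- the lattice `u L` is in Deuring form -/
structure Deu (L : PeriodPair) (u e a c : ℂ) : Prop where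
  u0 : u ≠ 0
  eq : ∀ z ∉ L.lattice, (L.derivWeierstrassP z / u ^ 3) ^ 2 =
    4 * xu L u e z ^ 3 + (a * xu L u e z + c) ^ 2

lemma _root_.Pool.Agent.N2.GoodT.deu {V : ValuationSubring ℂ} {L : PeriodPair} {u e a c : ℂ}
    (h : GoodT V L u e a c) : Deu L u e a c := ⟨h.u0, h.eq⟩

/-- the point of order three `(0, 0)` -/
structure IsW (L : PeriodPair) (u e c w : ℂ) : Prop where
  ne : w ∉ L.lattice
  three : 3 * w ∈ L.lattice
  P : L.weierstrassP w = e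
  D : L.derivWeierstrassP w = u ^ 3 * c

/-- the multiplier `α = 1 + 3 β` -/
def alB {A B : ℤ} (β : OO A B) : ℂ := 1 + 3 * emb β

/-- `V` lies above 2, and 2 does not split: there is `β` with `v 2 < v β`, and `α = 1 + 3 β` of odd norm `N` -/
structure CtxB (A B : ℤ) (V : ValuationSubring ℂ) (β : OO A B) (N : ℕ) : Prop where
  cq : CQ A B
  v2 : V.valuation (2 : ℂ) < 1
  v3 : V.valuation (3 : ℂ) = 1
  vb : V.valuation (2 : ℂ) < V.valuation (emb β)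
  nrm : ∃ α' : OO A B, (N : ℂ) = emb α' * alB β
  odd : Odd N
  one : 1 < N
  vN : V.valuation (N : ℂ) = 1

/-! ## The Deuring form -/

/-- (DEF) facts on the Deuring form.

MODEL: `NS/RN_LGF.lean`. PROOF. `℘'(z)² = 4 (℘ - e)³ + u² a² (℘ - e)² + 2 a c u⁴ (℘ - e) + u⁶ c²` (`Deu.eq` times `u⁶`) and `= 4℘³ - g₂℘ - g₃` (`derivWeierstrassP_sq`) for all `z ∉ L`; `℘` takes every value (`b_SUR`): the two polynomials agree at `0, 1, -1, 2`, so they have the same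
coefficients: `12 e = u² a²`, `g₂ = 12 e² - 2 a c u⁴`, `g₃ = 4 e³ - g₂ e - c² u⁶`. Insert `e = a²u²/12`. Discriminant: `g₂³ - 27 g₃² = u¹² c³ (a³ - 27 c)` (`ring`), not zero (`b_DSC`). `w`: `b_DSC` (second part) with `x = e`, `y = u³ c`. `2 w ∉ L` as `℘' w ≠ 0` (`b_ZER`); `b_DUP`: `℘(2w) = -2e + (℘''/℘')²/4`,
`℘'' = 6e² - g₂/2 = a c u⁴`, so `℘(2w) = -2e + a²u²/4 = e = ℘(w)`, and `b_NEQ`: `3 w ∈ L` (`w = 2w - w ∉ L`). Last: `3 z ∈ L` and `2 z ∉ L` (else `z ∈ L`), `℘(2z) = ℘(z)`, so (DUP) `(6℘² - g₂/2)² = 12 ℘ ℘'²`; with `℘ = u²X + e`: `(6X² + a²X + ac)² = (12X + a²)(4X³ + (aX + c)²)`, and the difference of the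
sides is `4X(3X³ + a²X² + 3acX + 3c²)`. -/
def Sr_DEF : Prop :=
  ∀ (L : PeriodPair) (u e a c : ℂ), Deu L u e a c →
    12 * e = u ^ 2 * a ^ 2 ∧ c ≠ 0 ∧ a ^ 3 ≠ 27 * c ∧
    L.g₂ = u ^ 4 * (a ^ 4 - 24 * a * c) / 12 ∧
    L.g₃ = -(u ^ 6 * (a ^ 6 - 36 * a ^ 3 * c + 216 * c ^ 2)) / 216 ∧
    (∃ w, IsW L u e c w) ∧
    ∀ z, z ∉ L.lattice → 3 * z ∈ L.lattice → xu L u e z = 0 ∨
      3 * xu L u e z ^ 3 + a ^ 2 * xu L u e z ^ 2 + 3 * a * c * xu L u e z + 3 * c ^ 2 = 0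

/-- (HPD) a Deuring form with integral coefficients, one of them a unit; `v 3 = 1`.

Uses DEF. MODEL: `NS/RN_HPD.lean`. PROOF. `p₁ = ω₁/3`, `p₂ = ω₂/3`, `p₃ = (ω₁ + ω₂)/3`, `p₄ = (ω₁ - ω₂)/3`: not in `L`, `3 p_i ∈ L`, `p_i ± p_j ∉ L` (`i ≠ j`): the `℘(p_i)` are four different numbers (`b_NEQ`). Let `(w₁, w₂)` be a pair of two of the `p_i` with `v(℘(w₂) - ℘(w₁))` maximal and
`w₃, w₄` the two others: `v(℘(w_i) - ℘(w₁)) ≤ v(℘(w₂) - ℘(w₁))`. `u` a square root of `℘(w₂) - ℘(w₁) ≠ 0`, `e = ℘(w₁)`, `c = ℘'(w₁)/u³`, `a = (6e² - g₂/2)/(℘'(w₁) u)` (`℘'(w₁) ≠ 0`: `b_ZER`, `2 w₁ ∉ L`). `℘(2w₁) = ℘(w₁)` (`3 w₁ ∈ L`, periodicity, even) and `b_DUP` give `12 e ℘'(w₁)² = (6e² - g₂/2)²`,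
so `12 e = a²u²`, `6e² - g₂/2 = a c u⁴`, and `4x³ - g₂x - g₃ = 4(x-e)³ + 12e(x-e)² + (12e² - g₂)(x-e) + ℘'(w₁)²` is `u⁶ (4X³ + (aX + c)²)`: `Deu`. The numbers `1 = X(w₂)`, `x₃ = X(w₃)`, `x₄ = X(w₄)` are different, not `0`, so (DEF) they are the three roots of `3X³ + a²X² + 3acX + 3c²`:
`a² = -3(1 + x₃ + x₄)`, `c² = -x₃x₄`, both in `V`. `X = 1`: `3 + a² + 3ac + 3c² = 0`, so not both `v a < 1`, `v c < 1`. -/
def Sr_HPD : Prop :=
  ∀ (V : ValuationSubring ℂ) (L : PeriodPair), V.valuation (3 : ℂ) = 1 →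
    ∃ w₁ w₂ u a c : ℂ, IsW L u (L.weierstrassP w₁) c w₁ ∧
    (w₂ ∉ L.lattice ∧ 3 * w₂ ∈ L.lattice) ∧ L.weierstrassP w₂ ≠ L.weierstrassP w₁ ∧
    u ^ 2 = L.weierstrassP w₂ - L.weierstrassP w₁ ∧
    Deu L u (L.weierstrassP w₁) a c ∧ V.valuation a ≤ 1 ∧ V.valuation c ≤ 1 ∧
    (V.valuation a = 1 ∨ V.valuation c = 1)

/-- (NRC) the normalisation `c = 1`.

PROOF. `l³ = c` (`IsAlgClosed`), `l ≠ 0` (`c ≠ 0`, DEF). `u₁ = u l`, `a₁ = a/l`: `X₁ = X/l²`, `(℘'/u₁³)² = (4X³ + (aX + c)²)/c² = 4 X₁³ + (a₁X₁ + 1)²` (`c² = l⁶`). `Y₁ = Y/l³`. `v l = 1` if `v c = 1`. -/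
def Sr_NRC : Prop :=
  ∀ (V : ValuationSubring ℂ) (L : PeriodPair) (u e a c : ℂ), Deu L u e a c → V.valuation c = 1 →
    ∃ l : ℂ, l ≠ 0 ∧ l ^ 3 = c ∧ V.valuation l = 1 ∧ Deu L (u * l) e (a / l) 1 ∧
      ∀ z, xu L (u * l) e z = xu L u e z / l ^ 2 ∧
        yt L (u * l) e (a / l) 1 z = yt L u e a c z / l ^ 3

/-- (XIT) the group isomorphism.

Uses DEF. MODEL: `MUX/R2_GR2.lean` (`GR2.hom`, the same with `a₁ = 1`, `a₃ = 0`; `b_ADD`, `b_DUP` with `℘ = u²X + e`, `℘' = u³ (2Y + aX + c)`), or `NS/RN_XIL.lean` and a change of variables. Nonsingular: `Δ ≠ 0` (`WeierstrassCurve.Affine.equation_iff_nonsingular_of_Δ_ne_zero` or by hand),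
`(WT a c).Δ = c³ (a³ - 27 c)`. Kernel: `ξ z ≠ 0` for `z ∉ L`. Surjective: for `(x, y)` on `WT a c` put `p = u²x + e`, `d = u³(2y + ax + c)`; `d² = 4p³ - g₂p - g₃` (DEF), and `b_DSC` (second part) gives `z ∉ L` with `℘ z = p`, `℘' z = d`. -/
def Sr_XIT : Prop :=
  ∀ (L : PeriodPair) (u e a c : ℂ), Deu L u e a c →
    ∃ ξ : ℂ →+ (WT a c).Point, (∀ z, ξ z = 0 ↔ z ∈ L.lattice) ∧ Function.Surjective ξ ∧
      ∀ z ∉ L.lattice, ∃ h, ξ z = Affine.Point.some (xu L u e z) (yt L u e a c z) h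

/-- (TOR) points of order `n` with `v n = 1` have integral coordinates (no hypothesis on the discriminant!).

Uses XIT. MODEL: `NS/RN_TOR.lean`. PROOF. `WT a c` has coefficients in `V` (`IntG`, `MUX/StVG.lean`). The lemmas `gInE_iff`, `gInK_add`, `gInK_nat`, `gv_tX_lt`, `gzc_nsmul`, `gv_zc_nat`, `gmem_of_nat_mul` of `MUX/VG.lean` do not use `GRG.disc`: repeat their proofs with `int`, `some`, `zero` only
(or use the theorems `tg_VAL`, `tg_NEG`, `tg_ADD` of `MUX/G_VAL.lean`, `G_ADD.lean`, which need only `IntG`). So if `z` is in the kernel of reduction and `n z ∈ L`, then `z ∈ L`. Otherwise `v(X z) ≤ 1`, and `tg_VAL`: `v(Y z) ≤ 1`. -/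
def Sr_TOR : Prop :=
  ∀ (V : ValuationSubring ℂ) (L : PeriodPair) (u e a c : ℂ), V.valuation a ≤ 1 →
    V.valuation c ≤ 1 → Deu L u e a c → ∀ (n : ℕ), V.valuation (n : ℂ) = 1 →
    ∀ z ∉ L.lattice, n * z ∈ L.lattice →
      V.valuation (xu L u e z) ≤ 1 ∧ V.valuation (yt L u e a c z) ≤ 1

/-- (TRA) translation by the point `w = (0, 0)` of order three.

Uses XIT (or `b_ADD` directly). PROOF. `Y(w) = 0`, `X(w) = 0`. `X z ≠ 0` (`b_NEQ`: `z ± w ∉ L`). Addition on `WT a c`: `X(z + w) = l² + a l - X z`, `l = Y z/X z`, so `X(z + w) X² = Y² + aXY - X³ = -c Y`. `Y(-z) = -Y - aX - c`, `X(-z) = X z`: `X(z - w) X² = X(-z + w) X² = c (Y + aX + c)`. So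
`X(z+w) X(z-w) X⁴ = -c² Y (Y + aX + c) = -c² X³`. -/
def Sr_TRA : Prop :=
  ∀ (L : PeriodPair) (u e a c w : ℂ), Deu L u e a c → IsW L u e c w →
    ∀ z, z ∉ L.lattice → z + w ∉ L.lattice → z - w ∉ L.lattice →
      xu L u e z ≠ 0 ∧ xu L u e (z + w) * xu L u e z ^ 2 = -(c * yt L u e a c z) ∧
      xu L u e z * xu L u e (z + w) * xu L u e (z - w) = -c ^ 2

/-! ## Complex multiplication -/

/-- (CMQ) the quadratic identity: complex multiplication by `α = 1 + 3β` at the point `w` of order three.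

Uses DEF. MODEL: `NS/RN_CMI.lean`. PROOF. `α L ⊆ L` (`emb x * (om emb y) = om emb (x y)`). `α w - w = emb β (3 w) ∈ L`, so `℘(α w) = ℘(w) = e` and `α w ∉ L`. `b_CMX` with `a = α`, `z = w`: `α² e = e + Σ (℘(w + q) - ℘(q))`. `℘(w+q) - ℘(q) = u² (X(w+q) - X(q))`, `12 e = u²a²` (DEF). -/
def Sr_CMQ : Prop :=
  ∀ (A B : ℤ) (b : Ideal (OO A B)) (L : PeriodPair) (om : ℂ), CQ A B → IsLI b L om →
    ∀ u e a c w : ℂ, Deu L u e a c → IsW L u e c w →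
    ∀ (β : OO A B) (R : Finset ℂ), IsReps L (alB β) R →
      a ^ 2 * (alB β ^ 2 - 1) = 12 * ∑ q ∈ R, (xu L u e (w + q) - xu L u e q)

/-- (CML) the linear identity.

Uses DEF, `u_ISO`, `u_DER`, `u_PFI`-type factorisation. PROOF. `α = alB β ≠ 0` (`1 = -3β` impossible), `Isg L L α`, `IsRpM L L α R`. `u_ISO` with `M = L`, `μ = α`: `A₀` monic of degree `|R| + 1`, `B₀ = C(α²) ∏ (X - ℘ q)`, `OdeP`, `IsoP`. All evaluations at `X = e`. `β₀ = B₀(e) ≠ 0` (`IsoP.ker`, `α w ≡ w ∉ L`), `A₀(e) = e β₀`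
(`IsoP.P`, `℘(αw) = e`). `S := ∏ (X - ℘(w + q))`. (i) `A₀ - C e * B₀ = (X - C e) * S`: both sides are monic of degree `|R| + 1`; `u_PFI` (for `w`, all `z`) says they agree at all `℘ z`, `α z ∉ L`, and `℘` takes every value (infinitely many `z` with `α z ∉ L`; `b_SUR`). (ii) Put `D = A₀'B₀ - A₀B₀'`. `D(e) = S(e) β₀` (derivative of (i)), and (`u_DER`, `z = w`)
`α ℘'(αw) β₀² = D(e) ℘'(w)`, `℘'(αw) = ℘'(w) ≠ 0`: `D(e) = α β₀²`, so `S(e) = α β₀`. (iii) `D'(e) = A₀''(e)β₀ - eβ₀B₀''(e) = β₀ (A₀ - eB₀)''(e) = 2 β₀ S'(e)`. (iv) `P(X) = 4X³ - g₂X - g₃`: `P(e) = u⁶c²`, `P'(e) = 12e² - g₂ = 2acu⁴` (DEF). OdeP: `D² P = α² G`, `G = 4A₀³B₀ - g₂A₀B₀³ - g₃B₀⁴`. Derivative at `e`: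
`2DD'P + D²P' = α² (4 β₀³ B₀'(e) P(e) + β₀³ P'(e) (A₀'(e) - e B₀'(e)))` and `A₀'(e) - eB₀'(e) = S(e)`. Insert and divide by `α β₀³ ..`: `4 P(e) (S'(e)/S(e) - B₀'(e)/β₀) = (α - 1) P'(e)`. (v) `S'(e)/S(e) = Σ 1/(e - ℘(w+q)) = -Σ 1/(u² X(w+q))`, `B₀'(e)/β₀ = -Σ 1/(u² X(q))` (`Polynomial.eval_derivative_div_..` or logarithmic derivative of a product, `Finset.sum`):
`4 c² u⁴ (Σ 1/X(q) - Σ 1/X(w+q)) = (α - 1) 2 a c u⁴`. (The `X(q)`, `X(w + q)` are not `0`: `q ± w ∉ L` as `α w ∉ L`; `q`, `q + 2w ∉ L` since `2αw ≡ 2w ∉ L`.) -/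
def Sr_CML : Prop :=
  ∀ (A B : ℤ) (b : Ideal (OO A B)) (L : PeriodPair) (om : ℂ), CQ A B → IsLI b L om →
    ∀ u e a c w : ℂ, Deu L u e a c → IsW L u e c w →
    ∀ (β : OO A B) (R : Finset ℂ), IsReps L (alB β) R →
      a * (alB β - 1) = 2 * c * ∑ q ∈ R, (1 / xu L u e q - 1 / xu L u e (w + q))

/-- (ALB) the multiplier, 2 inert: `D = B² + 4A ≡ 5` modulo 8, i.e. `B = 1`, `A` odd (`CQ`: `B = 0` or `1`).

MODEL: `NS/RN_ALP.lean`. PROOF. `β = ⟨0, 1⟩`. `v 2 < 1`: `2 ∈ idl 2`, `OverI`. `v 3 = 1`: `3 ∉ idl 2`, `v 3 ≤ 1`. `v(emb x) = 1` for `x ∉ idl 2`: so `v(emb β) = 1`. `α = 1 + 3w`, `α' = 1 + 3(B - w)`: `α'α = 1 + 3B - 9A = 4 - 9A`, odd, `≥ 13` (`A ≤ -1`); `v N = 1` (`N = 2k + 1`). `D = -3` (`A = -1`) is allowed. -/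
def Sr_ALB : Prop :=
  ∀ (A B : ℤ) (V : ValuationSubring ℂ), CQ A B → (8 : ℤ) ∣ B ^ 2 + 4 * A - 5 →
    OverI V (idl (A := A) (B := B) 2) →
    ∃ (β : OO A B) (N : ℕ), CtxB A B V β N ∧ V.valuation (emb β) = 1

/-- (ALC) the multiplier, 2 ramified: `B = 0`, `P` the prime over 2.

MODEL: `NS/RN_ALR.lean`. PROOF. `B = 0` (`B = 1` gives an odd discriminant), `w² = A`, `A` squarefree, `A ≤ -1`, `A ≢ 0, 1` modulo 4. `A` even: `β = ⟨0, 1⟩`, `nm β = -A = 2 (odd)`, `v(emb β)² = v(A) = v 2`, `α'α = (1 - 3w)(1 + 3w) = 1 - 9A` odd, `≥ 10`. `A` odd, `A ≡ 3` modulo 4: `β = 1 + w`, `nm β = 1 - A = 2 (odd)`, `β² = 1 + A + 2w = 2 ((1+A)/2 + w)`, and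
`(1+A)/2` is even, `w` is a unit (`w² = A` odd), so `v(β²) = v 2`. `α = 4 + 3w`, `α' = 4 - 3w`, `N = 16 - 9A` odd. `v 2 < v β` as `(v β)² = v 2 < 1`. -/
def Sr_ALC : Prop :=
  ∀ (A B : ℤ) (V : ValuationSubring ℂ) (P : Ideal (OO A B)), CQ A B → (2 : ℤ) ∣ B ^ 2 + 4 * A →
    OverI V P → ((2 : ℕ) : OO A B) ∈ P →
    ∃ (β : OO A B) (N : ℕ), CtxB A B V β N ∧ V.valuation (emb β) ^ 2 = V.valuation (2 : ℂ)

/-- (RED) SUPERSINGULAR REDUCTION.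

Uses CMQ, TOR, DEF, `u_BAC` (representatives). MODEL: `NS/RN_RED.lean`. PROOF. `w` from DEF. For `q ∈ R`: `N q = emb α' (α q) ∈ L`, `v N = 1`, so `v(X q) ≤ 1` (TOR); `w + q ∉ L` (else `α w ∈ L`, but `α w - w ∈ L`), `(3 N : ℕ)(w + q) ∈ L`, `v(3N) = 1`: `v(X(w + q)) ≤ 1`. (CMQ): `v(a)² v(α² - 1) ≤ v 12 = v(2)²`. `α² - 1 = 3 emb β (2 + 3 emb β)`, `v 2 < v β`:
`v(α² - 1) = v(β)²`. So `v a v β ≤ v 2` (squares in a linearly ordered group with zero: `pow_le_pow_left₀`/`lt_of_pow_lt_pow_left₀`), `v a < 1` (else `v β ≤ v 2`), so `v c = 1`. -/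
def Sr_RED : Prop :=
  ∀ (A B : ℤ) (V : ValuationSubring ℂ) (β : OO A B) (N : ℕ), CtxB A B V β N →
    ∀ (b : Ideal (OO A B)) (L : PeriodPair) (om : ℂ), IsLI b L om → ∀ u e a c : ℂ, Deu L u e a c →
    V.valuation a ≤ 1 → V.valuation c ≤ 1 → (V.valuation a = 1 ∨ V.valuation c = 1) →
    V.valuation a * V.valuation (emb β) ≤ V.valuation (2 : ℂ) ∧
      V.valuation a < 1 ∧ V.valuation c = 1

/-- (GRT) good reduction in the sense of `MUX/VG.lean`.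

Uses XIT. PROOF. `IntG` is clear. `(WT a c).Δ = c³ (a³ - 27c)` (`ring` after unfolding `b₂, b₄, b₆, b₈`), `v(27) = v(3)³ = 1`, `v(a³) < 1`. -/
def Sr_GRT : Prop :=
  ∀ (V : ValuationSubring ℂ) (L : PeriodPair) (u e a c : ℂ), V.valuation (3 : ℂ) = 1 →
    V.valuation a < 1 → V.valuation c = 1 → Deu L u e a c →
    ∃ ξ : ℂ →+ (WT a c).Point, GRG V (WT a c) L (xu L u e) (yt L u e a c) ξ ∧
      Function.Surjective ξ

/-! ## Uniqueness of the curve with complex multiplication -/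

/-- (CHT) addition formulas in Deuring form.

Uses XIT. MODEL: `NS/RN_CHT.lean`. PROOF. `b_NEQ`, `b_ADD`, `b_DUP` (`℘ = u² X + e`, `℘' = u³ (2 Y + a X + c)`), or from `XIT` and the formulas for the addition of points of `WT a c` (`Affine.Point.add_some`, `slope`). `2 z ∉ L`: `℘' z ≠ 0` (`b_ZER`). -/
def Sr_CHT : Prop :=
  ∀ (L : PeriodPair) (u e a c : ℂ), Deu L u e a c →
    (∀ z w, z ∉ L.lattice → w ∉ L.lattice → z + w ∉ L.lattice → z - w ∉ L.lattice →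
      xu L u e z - xu L u e w ≠ 0 ∧
      xu L u e (z + w) = ((yt L u e a c z - yt L u e a c w) / (xu L u e z - xu L u e w)) ^ 2 +
        a * ((yt L u e a c z - yt L u e a c w) / (xu L u e z - xu L u e w)) -
        xu L u e z - xu L u e w ∧
      yt L u e a c (z + w) = -(yt L u e a c z +
        (yt L u e a c z - yt L u e a c w) / (xu L u e z - xu L u e w) *
          (xu L u e (z + w) - xu L u e z)) - a * xu L u e (z + w) - c) ∧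
    ∀ z, 2 * z ∉ L.lattice → 2 * yt L u e a c z + a * xu L u e z + c ≠ 0 ∧
      xu L u e (2 * z) = ((3 * xu L u e z ^ 2 - a * yt L u e a c z) /
          (2 * yt L u e a c z + a * xu L u e z + c)) ^ 2 +
        a * ((3 * xu L u e z ^ 2 - a * yt L u e a c z) /
          (2 * yt L u e a c z + a * xu L u e z + c)) - 2 * xu L u e z ∧
      yt L u e a c (2 * z) = -(yt L u e a c z + (3 * xu L u e z ^ 2 - a * yt L u e a c z) /
          (2 * yt L u e a c z + a * xu L u e z + c) * (xu L u e (2 * z) - xu L u e z)) -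
        a * xu L u e (2 * z) - c

/-- (CLO) torsion points of close curves are close. `c = 1`, `δ = a' - a`.

Uses GRT, CHT. MODEL: `NS/RN_CLO.lean` (with `VG.lean` instead of `VX.lean`; `2 Y` is replaced by `DX = 2 Y + a X + 1`, `DX(q) = ℘'(q)/u³`). PROOF. `X, Y` on `L`, `X', Y'` on `L'`, both have good reduction (GRT; `v a' < 1` too). For `0 < k < n`: `k q, k q'` are not in the kernel of reduction (`gmem_of_nat_mul`: `n (k q) ∈ L`), `2 q` also not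
(`n ≥ 3` is odd), so `v(DX q) = v(DX' q') = 1` (`gv_DX`). (1) `f = X'(q')`, `g = Y'(q')`: `g² + a f g + g - f³ = -δ f g`. Choose `y` with `y² + a f y + y = f³`; the other root is `y₂ = -(a f + 1) - y`, `(g - y)(g - y₂) = -δ f g`, and the sum of the two factors is `2g + a f + 1 = DX'(q') - δ f`, a unit, so one factor is a unit: replace `y` by `y₂` if necessary, then
`v(g - y) ≤ v δ`. `(f, y)` is a point of `WT a 1` (nonsingular), so by surjectivity of `ξ` there is `z ∉ L` with `X z = f`, `Y z = y`. (2) `v(X z - X q) < 1`, so (`gv_X_sub`) `z - q` or `z + q` is in the kernel of reduction; if `z + q` is, then `v(Y z - Y(-q)) < 1` (`gnear_lt` for `z = -q + (z + q)`), `Y(-q) = -Y q - a X q - 1`: with `v(Y z - Y q) < 1`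
this gives `v(DX q) < 1`, a contradiction. So `s := z - q` is in the kernel. (3) Claim, for `1 ≤ k ≤ n - 1`: `v(X(k z) - X'(k q')) ≤ v δ` and `v(Y(k z) - Y'(k q')) ≤ v δ`. `k z = k q + k s` is not in the kernel. `k = 1`: (1). `k = 2`: duplication (CHT), the denominators `DX z`, `DX' q'` are units, all numbers are in `V`, and differences of
`a`, `X`, `Y` are in `δV`. `k → k + 1`, `2 ≤ k ≤ n - 2`: addition (CHT) of `k z` and `z`; `X(k z) - X z` is a unit (`gv_X_sub`), the same for `k q'`, `q'`. (4) `k = n - 1`: `(n-1) q' = n q' - q'`, so `X'((n-1)q') = X'(q') = X z`. `(n - 1) z = -z + n z`, `n z = n q + n s`, `n q ∈ L`, so `X((n-1) z) = X(-z + n s)`. If `s ∈ L` then `X z = X q`, `Y z = Y q`,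
done. Otherwise `n s ∉ L` and `v(tX(n s)) = v(tX s) =: r` (`gv_tX_nat`), `0 < r < 1`. (`gnear`) `v(X(-z + n s) - X(-z) - DX(-z) tX(n s)) ≤ r²`, `v(DX(-z)) = 1`, so `v(X((n-1)z) - X z) = r`. By (3) `r ≤ v δ`. (`gnear`) for `z = q + s`: `v(X z - X q) ≤ r ≤ v δ`, `v(Y z - Y q) ≤ r ≤ v δ`, and `X z = X'(q')`, `v(Y z - Y'(q')) ≤ v δ`. -/
def Sr_CLO : Prop :=
  ∀ (V : ValuationSubring ℂ) (L L' : PeriodPair) (u e a u' e' a' : ℂ),
    V.valuation (3 : ℂ) = 1 → Deu L u e a 1 → Deu L' u' e' a' 1 → V.valuation a < 1 →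
    V.valuation (a' - a) < 1 → ∀ (n : ℕ), Odd n → 1 < n → V.valuation (n : ℂ) = 1 →
    ∀ q q' : ℂ, (∀ k : ℕ, 0 < k → k < n → k * q ∉ L.lattice ∧ k * q' ∉ L'.lattice) →
      n * q ∈ L.lattice → n * q' ∈ L'.lattice →
      V.valuation (xu L' u' e' q' - xu L u e q) < 1 →
      V.valuation (yt L' u' e' a' 1 q' - yt L u e a 1 q) < 1 →
      V.valuation (xu L' u' e' q' - xu L u e q) ≤ V.valuation (a' - a) ∧
      V.valuation (yt L' u' e' a' 1 q' - yt L u e a 1 q) ≤ V.valuation (a' - a)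

/-- (UNQ) an automorphism in the inertia group fixes `a` (`c = 1`). (Deformations of a supersingular curve with complex multiplication.)

Uses DEF, RED, TOR, TRA, CML, CLO, `u_BAC`, `u_CJE`, `u_PHI`, `u_TSN` (block U). MODEL: `NS/RN_UNQ.lean`. PROOF. `L'` with `IsCj σ L L'` (`u_CJE`), `Φ` with `IsPhi σ L L' Φ` (`u_PHI`); `u' = σ u`, `e' = σ e`, `a' = σ a`: `Deu L' u' e' a' 1`, `xu L' u' e' (Φ z) = σ (xu L u e z)`, `yt L' u' e' a' 1 (Φ z) = σ (yt L u e a 1 z)`. `δ = a' - a`, suppose `δ ≠ 0`.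
`w` (DEF), `R` representatives of `α = alB β`. `σ α = α` (`FixK`). (RED) with `c = 1`: `v a < 1`. Let `q ∈ R`, `n` its exact order in `ℂ/L` (`UNQ.order` of the MODEL): `n ∣ N`, odd, `v n = 1`, `1 < n`; `q' = Φ q` has the exact order `n`. (CLO) (hypothesis for `q`): `v(σ(X q) - X q) ≤ v δ`, `v(σ(Y q) - Y q) ≤ v δ`. `w ± q ∉ L`; (TRA) `X(q) X(q+w) X(q-w) = -1`, all in `V` (TOR; `3N`
kills `q ± w`), so `X q` is a unit; `Y(q)(Y(q) + aX(q) + 1) = X(q)³` with both factors in `V`, so `Y q` is a unit; (TRA) `1/X(w + q) = -X(q)²/Y(q)`. So `v(σ t - t) ≤ v δ` for `t = 1/X q` and for `t = X(q)²/Y(q)` (units which are congruent). Apply `σ` to (CML): `a (α - 1) = 2 Σ (1/X q + X(q)²/Y(q))`, and subtract: `δ (α - 1) = 2 Σ (σ t_q - t_q)`,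
`v δ v(3β) ≤ v 2 v δ`: contradiction to `CtxB.vb`. -/
def Sr_UNQ : Prop :=
  ∀ (A B : ℤ) (V : ValuationSubring ℂ) (β : OO A B) (N : ℕ), CtxB A B V β N →
    ∀ (b : Ideal (OO A B)) (L : PeriodPair) (om : ℂ), IsLI b L om → ∀ u e a : ℂ, Deu L u e a 1 →
    V.valuation a ≤ 1 → ∀ σ : ℂ ≃+* ℂ, FixK A B σ → V.valuation (σ a - a) < 1 →
    (∀ z ∉ L.lattice, N * z ∈ L.lattice → V.valuation (σ (xu L u e z) - xu L u e z) < 1 ∧
      V.valuation (σ (yt L u e a 1 z) - yt L u e a 1 z) < 1) →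
    σ a = a

/-- (EQL) then `σ` fixes all invariants of a normalised lattice.

Uses DEF. MODEL: `NS/RN_EQL.lean`. PROOF. `c = 1`: `g₂ = u⁴ P/12`, `g₃ = -u⁶ Q/216`, `P = a⁴ - 24a`, `Q = a⁶ - 36a³ + 216`. `g₂ = -18 g₃`, not both zero (`b_DSC`), so both are not zero, `P, Q ≠ 0`, `u⁴P = u⁶Q`, `u² = P/Q`. So `σ(u²) = u²`; `e = u²a²/12`, `g₂`, `g₃`, `kap = (12 g₂ - 1)/1728` are rational functions of `a`, `u²`. -/
def Sr_EQL : Prop :=
  ∀ (L : PeriodPair) (u e a : ℂ), Deu L u e a 1 → L.g₂ = -18 * L.g₃ →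
    ∀ σ : ℂ ≃+* ℂ, σ a = a →
      σ (u ^ 2) = u ^ 2 ∧ σ e = e ∧ σ L.g₂ = L.g₂ ∧ σ L.g₃ = L.g₃ ∧ σ (kap L) = kap L

/-- (FXL) and it fixes the `x`-coordinates of the points of order prime to 2.

Uses UNQ, EQL, RED, GRT, TOR, block U. MODEL: `NS/RN_FXL.lean` (with `gv_X_sub`, `gmem_of_nat_mul`). -/
def Sr_FXL : Prop :=
  ∀ (A B : ℤ) (V : ValuationSubring ℂ) (β : OO A B) (N : ℕ), CtxB A B V β N →
    ∀ (b : Ideal (OO A B)) (L : PeriodPair) (om : ℂ), IsNL b L om → ∀ u e a : ℂ, Deu L u e a 1 →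
    V.valuation a ≤ 1 → ∀ F : ℕ, N ∣ F → V.valuation (F : ℂ) = 1 → ∀ σ : ℂ ≃+* ℂ, FixK A B σ →
    V.valuation (σ a - a) < 1 →
    (∀ z ∉ L.lattice, F * z ∈ L.lattice → V.valuation (σ (xu L u e z) - xu L u e z) < 1 ∧
      V.valuation (σ (yt L u e a 1 z) - yt L u e a 1 z) < 1) →
    σ (kap L) = kap L ∧ ∀ z ∉ L.lattice, F * z ∈ L.lattice → σ (xn L z) = xn L z

/-! ## Fields -/

/-- (LIF) lifting of elements of the inertia group.

MODEL: `NS/RN_LIF.lean` word for word, with 2 instead of 3. -/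
def Sr_LIF : Prop :=
  ∀ (A B : ℤ) (V : ValuationSubring ℂ), CQ A B → V.valuation (2 : ℂ) < 1 →
    ∀ (F₁ M : IntermediateField (kk A B) ℂ), FiniteDimensional (kk A B) F₁ →
    IsGalois (kk A B) F₁ → FiniteDimensional (kk A B) M → ∀ σ : ℂ ≃+* ℂ, FixK A B σ →
    (∀ y ∈ F₁, V.valuation y ≤ 1 → V.valuation (σ y - y) < 1) →
    ∃ σ' : ℂ ≃+* ℂ, FixK A B σ' ∧ (∀ y ∈ F₁, σ' y = σ y) ∧
      ∀ y ∈ M, V.valuation y ≤ 1 → V.valuation (σ' y - y) < 1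

/-- (MFD) a finite extension which contains all the coordinates.

Uses DEF. MODEL: `NS/RN_MFD.lean`. PROOF. `w` (DEF): `e = ℘(w) = xn L w + 1/12 ∈ RF (idl 3)` (`Tor (idl 3) L w`), `(u³)² = ℘'(w)² = 4e³ - g₂e - g₃ ∈ RF (idl 3)` (`g₂ = (1 + 1728κ)/12`, `g₃ = -g₂/18`, `κ = kap L ∈ RF`), so `u` is algebraic over `k`; `a²u² = 12e`: `a` too. `RF (idl F)` is finite dimensional and contains `xn L z`, `F z ∈ L`; `℘'(z)` is
algebraic (square root). `M = RF(idl (3F)) ⊔ k(u, a, ℘'(z) : z ∈ a finite set of representatives)`, `xu = (xn + 1/12 - e)/u²`, `yt = (℘'/u³ - a xu - 1)/2`. -/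
def Sr_MFD : Prop :=
  ∀ (A B : ℤ), CQ A B → (∀ m : Ideal (OO A B), m ≠ ⊥ → FiniteDimensional (kk A B) (RF m)) →
    ∀ (b : Ideal (OO A B)) (L : PeriodPair) (om : ℂ), IsNL b L om → ∀ u e a : ℂ, Deu L u e a 1 →
    ∀ F : ℕ, F ≠ 0 →
    ∃ M : IntermediateField (kk A B) ℂ, FiniteDimensional (kk A B) M ∧ a ∈ M ∧
      ∀ z ∉ L.lattice, F * z ∈ L.lattice → xu L u e z ∈ M ∧ yt L u e a 1 z ∈ M

/-- (UNR) inertia groups are trivial; every `V` with `CtxB`.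

Uses HPD, RED, NRC, TOR, LIF, MFD, FXL. MODEL: `NS/RN_UNR.lean` (with `v f = 1` for `f` odd: `f = 2k + 1`). (HPD), (RED): `v c = 1`, (NRC): `Deu L u' e a' 1` with `v a' ≤ 1`. -/
def Sr_UNR : Prop :=
  ∀ (A B : ℤ) (V : ValuationSubring ℂ) (β : OO A B) (N : ℕ), CtxB A B V β N → TorX A B →
    ∀ f : ℕ, Odd f → ∀ σ : ℂ ≃+* ℂ, FixK A B σ →
      (∀ y ∈ RF (idl (A := A) (B := B) f), V.valuation y ≤ 1 → V.valuation (σ y - y) < 1) →
      ∀ y ∈ RF (idl (A := A) (B := B) f), σ y = y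

/-- (VL2) the values of `RF (f)` at `V`, `f` odd; 2 inert, and 2 ramified.

Uses ALB, ALC, UNR, `Sr_RAM` of block RN (`Pool.Agent.NSR.tr_RAM`). MODEL: `NS/RN_VAL3.lean`. PROOF. First part: `P = idl 2` is prime (`OverI`), `2 ∈ P`, `2 ∉ P²` (`4 ∤ 2`). Second part: `P` prime (`OverI`), `ϖ = β` of the proof of ALC (`v(β)² = v 2`): `ϖ ∈ P` as `v ϖ < 1`, `ϖ ∉ P²`: `v x ≤ v ϖ` for all `x ∈ P` (`x² ..`: `P = (2, ϖ)`; or `v(x)² ≤ v 2` since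
`nm x` is even and `v(star x) = v(x)` for `x` in `P`); simplest: for `x = ⟨i, j⟩`, `A` even: `x ∈ P` iff `i` even, `v(emb x) ≤ max(v 2, v w)`; `A` odd: `x = i + j w = (i - j) + j(1 + w)`, `x ∈ P` iff `i - j` even. So `v y ≤ (v ϖ)² < v ϖ` for `y ∈ P²`. Then `tr_RAM`. -/
def Sr_VL2 : Prop :=
  (∀ (A B : ℤ) (V : ValuationSubring ℂ), CQ A B → (8 : ℤ) ∣ B ^ 2 + 4 * A - 5 →
    OverI V (idl (A := A) (B := B) 2) → TorX A B →
    ∀ f : ℕ, Odd f → ∀ y ∈ RF (idl (A := A) (B := B) f), y ≠ 0 →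
      ∃ k : ℤ, V.valuation y = V.valuation (2 : ℂ) ^ k) ∧
  ∀ (A B : ℤ) (V : ValuationSubring ℂ) (P : Ideal (OO A B)), CQ A B → (2 : ℤ) ∣ B ^ 2 + 4 * A →
    OverI V P → ((2 : ℕ) : OO A B) ∈ P → TorX A B →
    ∀ f : ℕ, Odd f → ∀ y ∈ RF (idl (A := A) (B := B) f), y ≠ 0 →
      ∃ k : ℤ, V.valuation y ^ 2 = V.valuation (2 : ℂ) ^ k

/-! ## Points of order a power of 2 -/

/-- (DU2) duplication. `X(2z) (4X³ + (aX + c)²) = X⁴ - acX² - 2c²X`.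

Uses CHT. PROOF. `2 z ∉ L`: CHT, `D = 2Y + aX + c`, `D² = 4X³ + (aX + c)²` (`Deu.eq`), `Y² + aXY + cY = X³`: multiply `X(2z) = l² + al - 2X` by `D²`: `(3X² - aY)² + a(3X² - aY)D - 2XD² = X⁴ - acX² - 2c²X` modulo the equation of `Y` (`linear_combination`). `2 z ∈ L`: `℘' z = 0` (`b_ZER`) and `Deu.eq`. -/
def Sr_DU2 : Prop :=
  ∀ (L : PeriodPair) (u e a c : ℂ), Deu L u e a c → ∀ z ∉ L.lattice,
    (2 * z ∈ L.lattice → 4 * xu L u e z ^ 3 + (a * xu L u e z + c) ^ 2 = 0) ∧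
    (2 * z ∉ L.lattice → xu L u e (2 * z) * (4 * xu L u e z ^ 3 + (a * xu L u e z + c) ^ 2) =
      xu L u e z ^ 4 - a * c * xu L u e z ^ 2 - 2 * c ^ 2 * xu L u e z)

/-- (TP2) valuations of the points of order a power of 2 (height two), 2 inert.

Uses DU2. PROOF. `θ = v 2 < 1`, `v a ≤ θ`, `v c = 1`, `x = X z`, `t = v x`. `j = 0`: if `t ≤ 1` then `v(4x³ + (ax+c)²) = v(c²) = 1`: contradiction. So `t > 1`; if `θt ≥ 1`: `v((ax+c)²) ≤ θ²t² < θ²t³ = v(4x³)`, contradiction; so `θt < 1`, `v(ax + c) = 1`, `θ²t³ = 1`. Induction: `z` of exact order `2^(j+1)`, `j ≥ 1`, so `2 z ∉ L` has exact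
order `2^j`, `b = v(X(2z)) > 1`, `b^(3·4^(j-1)) θ² = 1`, so `b³θ² ≤ 1`. `D = 4x³ + (ax+c)²`. If `t ≤ 1`: `v D = 1`, so `b ≤ 1`: contradiction. So `t > 1` and the right side of DU2 has valuation `t⁴`. If `θ²t³ ≥ 1`: `v D ≤ θ²t³` (`θ²t² ≤ θ²t³`), `t⁴ ≤ bθ²t³`, `t ≤ bθ²`, `t³ ≤ b³θ⁶ ≤ θ⁴ < 1`: contradiction. So `θ²t³ < 1`, `θt < 1`, `v D = 1`, `b = t⁴`. -/
def Sr_TP2 : Prop :=
  ∀ (V : ValuationSubring ℂ) (L : PeriodPair) (u e a c : ℂ), V.valuation (2 : ℂ) < 1 →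
    V.valuation a ≤ V.valuation (2 : ℂ) → V.valuation c = 1 → Deu L u e a c →
    ∀ (j : ℕ) (z : ℂ), 2 ^ (j + 1) * z ∈ L.lattice → 2 ^ j * z ∉ L.lattice →
      1 < V.valuation (xu L u e z) ∧
        V.valuation (xu L u e z) ^ (3 * 4 ^ j) * V.valuation (2 : ℂ) ^ 2 = 1

/-! ## Isogenies -/

/-- (SCL) the scaled lattice.

Uses GRT. MODEL: `NS/RN_SCL.lean` or the end of `NS/RN_ISO.lean`. PROOF. `L₁ = u L` (`u_SCX`), `ta_SCP` (`MU3/A_X.lean`): `℘_(L₁)(u z) = ℘(z)/u²`, `℘'_(L₁)(u z) = ℘'(z)/u³`. `GRG` for `L₁`, `X₁ = ℘ - e/u²`, `Y₁ z = Y(z/u)`, `ξ₁(z) = ξ(z/u)`: `X₁(z) = X(z/u)`. -/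
def Sr_SCL : Prop :=
  ∀ (V : ValuationSubring ℂ) (L : PeriodPair) (u e a c : ℂ), V.valuation (3 : ℂ) = 1 →
    V.valuation a < 1 → V.valuation c = 1 → Deu L u e a c →
    ∃ L₁ : PeriodPair, (∀ z, z ∈ L.lattice ↔ u * z ∈ L₁.lattice) ∧
      (∀ z, L₁.weierstrassP (u * z) = L.weierstrassP z / u ^ 2) ∧
      (∀ z, L₁.derivWeierstrassP (u * z) = L.derivWeierstrassP z / u ^ 3) ∧
      ∃ (W : WeierstrassCurve.Affine ℂ) (Y₁ : ℂ → ℂ) (ξ : ℂ →+ W.Point),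
        GRG V W L₁ (fun z => L₁.weierstrassP z - e / u ^ 2) Y₁ ξ

/-- (ISO) integral formulas for an isogeny of odd degree between lattices in good Deuring form. `ν = mu u'/u` is the multiplier `u L → u' M`.

Uses SCL, TOR, `u_ISO`, `u_DER`, `u_PFI` (block U), `S2_IT2` (`Pool.Agent.MUX2.r2_IT2`, `MUX/R2All.lean`). MODEL: `NS/RN_ISO.lean`. PROOF. `v ν ≤ 1`: `r2_IT2` for the lattices `u L`, `u' M` (SCL) and the multiplier `ν`. The dual isogeny `n/ν : u'M → u L` (`n (z/mu) ∈ L` for `z ∈ M`) also: `v(n/ν) ≤ 1`, `v n = 1`: `v ν = 1`.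
`u_ISO` gives `A₀` monic of degree `#R + 1`, `IsoP` with `B₀ = C(mu²) ∏ (X - ℘ q)`. Substitute `℘ = u² X + e`: `A = u^(-2(#R+1)) (A₀(u² X + e) - e' B₀(u² X + e))`, `B = C(ν²) ∏_(q ∈ R) (X - X_q)`; `X_M(mu z) B(X z) = A(X z)`, `A` monic of degree `#R + 1`. `X_q ∈ V` (`n q ∈ L`, TOR), so `B ∈ V[X]`. Let `l > n + 2` be a prime (odd, `v l = 1`),
`w = ω₁/l`: `l w ∈ L`, `w ∉ L`, `mu w ∉ M` (else `n w ∈ L`, and `n, l` are coprime). (PFI) for all `z`: `A(x) - X_M(mu w) B(x) = (x - X w) ∏_(q ∈ R) (x - X(w + q))` for infinitely many `x = X z`, so as polynomials; `w + q ∉ L` is killed by `l n`, `X(w + q) ∈ V`; `mu w` is killed by `l`, `X_M(mu w) ∈ V` (TOR). So `A ∈ V[X]`. Derivative: `u_DER`. -/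
def Sr_ISO : Prop :=
  ∀ (V : ValuationSubring ℂ) (L M : PeriodPair) (u e a c u' e' a' c' mu : ℂ) (n : ℕ),
    V.valuation (2 : ℂ) < 1 → V.valuation (3 : ℂ) = 1 → Deu L u e a c → Deu M u' e' a' c' →
    V.valuation a < 1 → V.valuation c = 1 → V.valuation a' < 1 → V.valuation c' = 1 →
    mu ≠ 0 → Isg L M mu → Odd n →
    (∀ z, mu * z ∈ M.lattice → n * z ∈ L.lattice) → ∀ R : Finset ℂ, IsRpM L M mu R →
    V.valuation (mu * u' / u) = 1 ∧ (∀ q ∈ R, V.valuation (xu L u e q) ≤ 1) ∧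
    ∃ A : ℂ[X], A.Monic ∧ A.natDegree = R.card + 1 ∧ (∀ i, V.valuation (A.coeff i) ≤ 1) ∧
      ∀ z, mu * z ∉ M.lattice →
        xu M u' e' (mu * z) *
            (C ((mu * u' / u) ^ 2) * ∏ q ∈ R, (X - C (xu L u e q))).eval (xu L u e z) =
          A.eval (xu L u e z) ∧
        mu * u' / u * (M.derivWeierstrassP (mu * z) / u' ^ 3) *
            (C ((mu * u' / u) ^ 2) * ∏ q ∈ R, (X - C (xu L u e q))).eval (xu L u e z) ^ 2 =
          (derivative A * (C ((mu * u' / u) ^ 2) * ∏ q ∈ R, (X - C (xu L u e q))) -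
            A * derivative (C ((mu * u' / u) ^ 2) * ∏ q ∈ R, (X - C (xu L u e q)))).eval
              (xu L u e z) * (L.derivWeierstrassP z / u ^ 3)

/-- (FLD) the field of definition of the data of (HPD).

Uses DEF. PROOF. `℘(w₁), ℘(w₂) ∈ RF (idl 3)` (`xn L w + 1/12`, `Tor (idl 3) L w`; `Pool.Agent.NSR.xn_mem_two` of `NS/RN_RFIN.lean` is the model), `g₂ = (1 + 1728 kap)/12`, `kap L ∈ RF`. `u² = ℘(w₂) - ℘(w₁)`, `a² = 12 e/u²`, `a c = (12e² - g₂)/(2 u⁴)` (from DEF), `c² = (4e³ - g₂e - g₃)/(u²)³` (`Deu.eq` at `w₁`, or DEF), `g₃ = -g₂/18`. -/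
def Sr_FLD : Prop :=
  ∀ (A B : ℤ) (b : Ideal (OO A B)) (L : PeriodPair) (om : ℂ), CQ A B → IsNL b L om →
    ∀ u e a c w₁ w₂ : ℂ, Deu L u e a c → IsW L u e c w₁ → w₂ ∉ L.lattice → 3 * w₂ ∈ L.lattice →
    u ^ 2 = L.weierstrassP w₂ - L.weierstrassP w₁ →
    u ^ 2 ∈ RF (idl (A := A) (B := B) 3) ∧ e ∈ RF (idl (A := A) (B := B) 3) ∧
      a ^ 2 ∈ RF (idl (A := A) (B := B) 3) ∧ a * c ∈ RF (idl (A := A) (B := B) 3) ∧
      c ^ 2 ∈ RF (idl (A := A) (B := B) 3)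

/-- (RFN) the final statement `Pool.Agent.N2.S2_RFIN` of the block.

Uses ALB, HPD, RED, FLD, UNR. MODEL: `NS/RN_RFIN.lean`. PROOF. `CaseT`: `8 ∣ B² + 4A - 5`. (ALB): `CtxB` with `v β = 1`. (HPD): `w₁, w₂, u, a, c`; (RED): `v a ≤ v 2`, `v c = 1`; `w₂ ± w₁ ∉ L` since `℘(w₂) ≠ ℘(w₁)` (periodicity). (FLD), (UNR) (`f` odd). The module proves
`theorem tr_RFN (h1 : Sr_ALB) (h2 : Sr_HPD) (h3 : Sr_RED) (h4 : Sr_FLD) (h5 : Sr_UNR) : Pool.Agent.N2.S2_RFIN`. -/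
def Sr_RFN : Prop := Pool.Agent.N2.S2_RFIN

end

end Pool.Agent.N2R
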