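import Pool.Agent.N2.DefsT
import Pool.Agent.NS.T_ACI
import Pool.Agent.NS.T_SGM
import Pool.Agent.NS.T_SGU
import Pool.Agent.NS.T_VAL
import Pool.Agent.NS.T_ALT
import Pool.Agent.NS.T_ALV
import Pool.Agent.MUX.YAll

/-!
# MUX-2N, block T2N (helper4): the action of an automorphism in the inertia group, `2` inert

Adaptation of the block TN (`Pool/Agent/NS/StTN.lean`). `σ` in the inertia group acts on the points of level `m = 2^(j+1) m'` of `L_i` as `d_i c`, `c ≡ 1` modulo `m'`,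
`d_i = ±1` (`aci2`); `σ (u a3) = d_0 u a3` (`sgu2`; the sign of `σ u` is not determined); `σ mu_i = d_0 d_i mu_i` (`sgm2`); `e(c) σ(P/(u a3 om_0)) = P/(u a3 om_0)` (`vak2`).
-/

set_option autoImplicit false

namespace Pool.Agent.N2T

open _root_.MU3 Pool.Agent.MU3A Pool.Agent.MU3B Pool.Agent.RI Pool.Agent.MUX Pool.Agent.MUXU
open OnePoint Pool.Agent.NS Pool.Agent.N2 Pool.Agent.NST
open Pool.Agent.MUXY (ActN Dn y_MUU y_BRI y_MUI y_MUC y_RA1)

noncomputable section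

lemma two_ne_top {A B : ℤ} : (1 : OO A B) ∉ idl (A := A) (B := B) 2 := by
  intro h
  obtain ⟨x, hx⟩ := Ideal.mem_span_singleton'.1 h
  have h1 := congrArg QuadraticAlgebra.re hx
  have h2 : (x * ((2 : ℕ) : OO A B)).re = 2 * x.re := by
    have e1 : ((2 : ℕ) : OO A B).re = ((2 : ℕ) : ℤ) := QuadraticAlgebra.re_natCast _
    have e2 : ((2 : ℕ) : OO A B).im = 0 := QuadraticAlgebra.im_natCast _
    rw [QuadraticAlgebra.re_mul, e1, e2]
    push_cast
    ring
  rw [h2] at h1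
  have h4 : (1 : OO A B).re = 1 := rfl
  rw [h4] at h1
  omega

open ACI in
/-- the number `c` and the signs `d_i` -/
theorem aci2 (hR : S2_RFIN) {A B : ℤ} {V : ValuationSubring ℂ} (hCI : CaseT A B)
    (hV : OverI V (idl (A := A) (B := B) 2)) (T : TorX A B) {n : ℕ} {ι : Type}
    (R : Reps A B n ι) (j m' : ℕ) (hm' : m' ≠ 0) (h3m' : ¬ 2 ∣ m') (σ : ℂ ≃+* ℂ)
    (hσ : FixK A B σ)
    (hin : ∀ y ∈ RF (idl (A := A) (B := B) m'), y ∈ V → σ y - y ∈ V.nonunits) :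
    (∀ y ∈ RF (idl (A := A) (B := B) m'), σ y = y) ∧
    ∃ (c : OO A B) (d : ι → ℤ), c - 1 ∈ idl (A := A) (B := B) m' ∧
      c ∉ idl (A := A) (B := B) 2 ∧ ActT R (2 ^ (j + 1) * m') σ c d := by
  have hC : CQ A B := hCI.toCQ
  have hfix := (hR A B V hCI hV T).2 m' hm' h3m' σ hσ hin
  refine ⟨hfix, ?_⟩
  set m : ℕ := 2 ^ (j + 1) * m' with hmdef
  have hm : m ≠ 0 := mul_ne_zero (pow_ne_zero _ (by norm_num)) hm'
  have hI : idl (A := A) (B := B) m ≠ ⊥ := by
    rw [Ne, Ideal.span_singleton_eq_bot]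
    exact natCast_ne_zero' hC hm
  have hI' : idl (A := A) (B := B) m' ≠ ⊥ := by
    rw [Ne, Ideal.span_singleton_eq_bot]
    exact natCast_ne_zero' hC hm'
  have hle : idl (A := A) (B := B) m ≤ idl (A := A) (B := B) m' := idl_le (Dvd.intro_left _ rfl)
  have hle2 : idl (A := A) (B := B) m ≤ idl (A := A) (B := B) 2 :=
    idl_le (Dvd.dvd.mul_right (dvd_pow_self 2 (Nat.succ_ne_zero j)) m')
  obtain ⟨a, hcop, ha⟩ := T.act (idl m) hI σ hσ
  obtain ⟨b₀, L₀, om₀, mu₀, hL₀, hA₀⟩ := ha _ _ _ (R.nl R.i0)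
  have hA' : ActI σ (idl m') a (R.L R.i0) L₀ mu₀ := by
    refine ⟨hA₀.kap, ?_, hA₀.isq, fun z hz => hA₀.act z fun x hx => hz x (hle hx)⟩
    have h3 := hcop
    rw [Ideal.isCoprime_iff_sup_eq] at h3 ⊢
    rw [eq_top_iff, ← h3]
    exact sup_le_sup_left hle a
  obtain ⟨c, hc1, hca⟩ := (T.triv (idl m') a σ _ _ _ _ mu₀ hI' hσ (R.nl R.i0) hA' hL₀.nrm).1 hfix
  subst hca
  have hc3 : c ∉ idl (A := A) (B := B) 2 := by
    intro hc
    have h3 := hcop
    rw [Ideal.isCoprime_iff_sup_eq] at h3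
    have h4 : (sp c) ⊔ idl (A := A) (B := B) m ≤ idl (A := A) (B := B) 2 :=
      sup_le ((Ideal.span_singleton_le_iff_mem _).2 hc) hle2
    rw [h3] at h4
    exact two_ne_top (h4 trivial)
  have hc0 : c ≠ 0 := by
    rintro rfl
    exact hc3 (Ideal.zero_mem _)
  have key : ∀ i, ∃ d : ℤ, (d = 1 ∨ d = -1) ∧
      ActN σ m (sp c) (R.L i) (R.L i) ((d : ℂ) * emb c) := by
    intro i
    obtain ⟨b', L', om', mu, hL', hA⟩ := ha _ _ _ (R.nl i)
    have hk : kap L' = kap (R.L i) := by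
      rw [hA.kap]
      exact hfix _ (IntermediateField.subset_adjoin _ _ ⟨R.b i, R.L i, R.om i, R.nl i, Or.inl rfl⟩)
    have hg2 : L'.g₂ = (R.L i).g₂ := by
      unfold kap at hk
      linear_combination (1728 / 12) * hk
    have hg3 : L'.g₃ = (R.L i).g₃ := by
      have e1 := hL'.nrm
      have e2 := (R.nl i).nrm
      rw [hg2, e2] at e1
      linear_combination (1 / 18) * e1
    have hlat : L'.lattice = (R.L i).lattice := u_DET L' (R.L i) hg2 hg3
    have hN : ActN σ m (sp c) (R.L i) (R.L i) mu :=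
      y_BRI A B hC σ m (sp c) (R.b i) b' (R.L i) L' (R.L i) (R.om i) om' mu (R.nl i) hL' hA
        (fun z => by rw [hlat])
    have hq1 : IsQ (sp c) (R.L i) (R.L i) mu := ⟨hN.ne, hN.isq⟩
    have hCM : HasCM A B (R.L i) := (R.nl i).toIsLI.hasCM hC
    have hq2 : IsQ (sp c) (R.L i) (R.L i) (emb c) := by
      refine ⟨emb_ne_zero hC hc0, fun z => ⟨fun hz x hx => ?_, fun hz => ?_⟩⟩
      · obtain ⟨y, rfl⟩ := Ideal.mem_span_singleton'.1 hx
        rw [emb_mul hC, mul_assoc]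
        exact hCM y _ hz
      · exact hz c (Ideal.mem_span_singleton_self c)
    rcases y_MUU A B (sp c) (R.L i) (R.L i) (emb c) mu (R.nl i).nrm hq2 hq1 with h | h
    · refine ⟨1, Or.inl rfl, ?_⟩
      have e : (((1 : ℤ) : ℂ)) * emb c = mu := by rw [h]; push_cast; ring
      rw [e]
      exact hN
    · refine ⟨-1, Or.inr rfl, ?_⟩
      have e : (((-1 : ℤ) : ℂ)) * emb c = mu := by rw [h]; push_cast; ring
      rw [e]
      exact hN
  choose d hd hact using key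
  refine ⟨c, d, hc1, hc3, hσ, hd, hact, fun z hz => ?_⟩
  exact (T.zeta m (idl m) (sp c) σ _ _ _ _ mu₀ hI hσ hm le_rfl (R.nl R.i0) hA₀ z hz).2


open SGM in
/-- `Φ z ≡ d z` if `c ≡ 1` modulo `m'` and `m' z ∈ L` -/
theorem phi_d2 {A B : ℤ} (hC : CQ A B) {σ : ℂ ≃+* ℂ} {b : Ideal (OO A B)} {L : PeriodPair} {om : ℂ}
    (hL : IsLI b L om) {Φ : ℂ → ℂ} (hΦ : IsPhi σ L L Φ)
    {m m' : ℕ} (hmm : m' ∣ m) {a : Ideal (OO A B)} {c : OO A B} (hc : c - 1 ∈ idl (A := A) (B := B) m') {d : ℤ}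
    (h : ActN σ m a L L (d * emb c)) {z : ℂ}
    (hz : (m' : ℂ) * z ∈ L.lattice) (hzL : z ∉ L.lattice) : Φ z - d * z ∈ L.lattice := by
  have h1 : (m : ℂ) * z ∈ L.lattice := by
    obtain ⟨k, rfl⟩ := hmm
    have h2 := nsmul_mem hz k
    rw [nsmul_eq_mul, ← mul_assoc, ← Nat.cast_mul, mul_comm k m'] at h2
    exact h2
  have h3 := phi_cong hΦ h h1 hzL
  obtain ⟨y, hy⟩ := Ideal.mem_span_singleton'.1 hc
  have h4 : emb c = emb y * m' + 1 := by
    have h5 : c = y * ((m' : ℕ) : OO A B) + 1 := by rw [hy]; ring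
    rw [h5, Pool.Agent.MUX.emb_add hC, Pool.Agent.MUX.emb_mul hC,
      Pool.Agent.MUX.emb_natCast hC, Pool.Agent.MUX.emb_one hC]
  have h5 : emb y * (m' * z) ∈ L.lattice := by
    obtain ⟨t, ht, he⟩ := (hL.mem _).1 hz
    rw [he]
    refine (hL.mem _).2 ⟨y * t, b.mul_mem_left y ht, ?_⟩
    rw [Pool.Agent.MUX.emb_mul hC]; ring
  have h6 := add_mem h3 (zmul_mem d h5)
  have h7 : Φ z - d * emb c * z + d * (emb y * (m' * z)) = Φ z - d * z := by
    rw [h4]; ring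
  rwa [h7] at h6

open SGM in
/-- the signs `d_i` -/
theorem sgm2 {A B : ℤ} {f p : ℕ} (hC : CQ A B) (hf : 3 ≤ f) {ι : Type} (R : Reps A B (p * f) ι)
    {m m' : ℕ} (hmm : m' ∣ m) (hm' : m' ≠ 0) (hfm : f ∣ m') (σ : ℂ ≃+* ℂ) (c : OO A B)
    (d : ι → ℤ) (hc : c - 1 ∈ idl (A := A) (B := B) m') (hact : ActT R m σ c d) (i : ι) :
    σ (muX R i) = d R.i0 * d i * muX R i := by
  have hN0 : nI (R.b i) ≠ 0 := by
    intro h
    have h1 := R.cop i
    rw [h, Nat.coprime_zero_left] at h1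
    have h2 : f ∣ 1 := h1 ▸ dvd_mul_left f p
    have := Nat.le_of_dvd one_pos h2
    omega
  have hμ : muX R i ≠ 0 := by
    unfold muX
    exact div_ne_zero (mul_ne_zero (R.nl i).om_ne (by exact_mod_cast hN0)) (R.nl R.i0).om_ne
  have hQ := y_MUI A B hC _ ι R i
  have hQ' := y_MUC A B hC σ hact.fix (cjI (R.b i)) (R.b R.i0) (R.L R.i0) (R.L i) (R.L R.i0) (R.L i)
    (R.om R.i0) (muX R i) (R.nl R.i0).toIsLI (hact.act R.i0).cj (hact.act i).cj hQ
  have hs := y_MUU A B _ _ _ _ _ (R.nl i).nrm hQ hQ'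
  have hisg : Isg (R.L R.i0) (R.L i) (muX R i) := by
    intro w hw
    refine (hQ.2 w).2 fun x _ => ?_
    obtain ⟨t, ht, rfl⟩ := ((R.nl R.i0).mem w).1 hw
    refine ((R.nl R.i0).mem _).2 ⟨x * t, (R.b R.i0).mul_mem_left x ht, ?_⟩
    rw [Pool.Agent.MUX.emb_mul hC]; ring
  obtain ⟨Φ, hΦ⟩ := u_PHI σ _ _ (hact.act R.i0).cj
  obtain ⟨Ψ, hΨ⟩ := u_PHI σ _ _ (hact.act i).cj
  obtain ⟨-, hfun⟩ := u_FUN σ _ _ _ _ (muX R i) Φ Ψ hμ hisg (hact.act R.i0).cj (hact.act i).cj hΦ hΨ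
  have hm0 : (m' : ℂ) ≠ 0 := by exact_mod_cast hm'
  -- the point
  obtain ⟨z, hz⟩ : ∃ z : ℂ, z = R.om R.i0 / m' := ⟨_, rfl⟩
  have hmz : (m' : ℂ) * z = R.om R.i0 := by rw [hz]; field_simp
  have hom0 : R.om R.i0 ∈ (R.L R.i0).lattice := by
    refine ((R.nl R.i0).mem _).2 ⟨1, by rw [R.b0]; trivial, ?_⟩
    rw [Pool.Agent.MUX.emb_one hC, mul_one]
  have hμz : (m' : ℂ) * (muX R i * z) = R.om i * nI (R.b i) := by
    rw [mul_left_comm, hmz]
    unfold muX
    have := (R.nl R.i0).om_ne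
    field_simp
  have h2 : 2 * (muX R i * z) ∉ (R.L i).lattice := by
    intro h
    obtain ⟨x, -, hx⟩ := ((R.nl i).mem _).1 h
    have h3 : emb (((2 * nI (R.b i) : ℕ) : OO A B)) = emb (((m' : ℕ) : OO A B) * x) := by
      rw [Pool.Agent.MUX.emb_mul hC, Pool.Agent.MUX.emb_natCast hC, Pool.Agent.MUX.emb_natCast hC]
      apply mul_left_cancel₀ (R.nl i).om_ne
      push_cast
      linear_combination -2 * hμz + (m' : ℂ) * hx
    have h4 := Pool.Agent.MUX.emb_inj hC h3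
    have h5 : ((2 * nI (R.b i) : ℕ) : ℤ) = (m' : ℤ) * x.re := by
      have h6 := congrArg QuadraticAlgebra.re h4
      rw [QuadraticAlgebra.re_natCast, QuadraticAlgebra.re_mul, QuadraticAlgebra.re_natCast,
        QuadraticAlgebra.im_natCast] at h6
      rw [h6]; ring
    have h6 : m' ∣ 2 * nI (R.b i) := by
      have : (m' : ℤ) ∣ ((2 * nI (R.b i) : ℕ) : ℤ) := ⟨_, h5⟩
      exact_mod_cast this
    have h7 : f ∣ 2 * nI (R.b i) := hfm.trans h6
    have h8 : Nat.Coprime f (nI (R.b i)) := ((R.cop i).coprime_mul_left_right).symm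
    have h9 := h8.dvd_of_dvd_mul_right h7
    exact absurd (Nat.le_of_dvd (by norm_num) h9) (by omega)
  have h1 : muX R i * z ∉ (R.L i).lattice := fun h => h2 (by
    have := add_mem h h
    rwa [← two_mul] at this)
  have hz0 : z ∉ (R.L R.i0).lattice := fun h => h1 (hisg z h)
  have e1 := phi_d2 hC (R.nl R.i0).toIsLI hΦ hmm hc (hact.act R.i0) (hmz ▸ hom0) hz0
  have e2 : Ψ (muX R i * z) - d i * (muX R i * z) ∈ (R.L i).lattice := by
    refine phi_d2 hC (R.nl i).toIsLI hΨ hmm hc (hact.act i) ?_ h1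
    rw [mul_left_comm, hmz]
    exact hisg _ hom0
  have e3 := hfun z
  have e4 := hisg _ e1
  -- the sign
  obtain ⟨s, hs1, hs2⟩ : ∃ s : ℤ, (s = 1 ∨ s = -1) ∧ σ (muX R i) = s * muX R i := by
    rcases hs with h | h
    · exact ⟨1, Or.inl rfl, by rw [h]; push_cast; ring⟩
    · exact ⟨-1, Or.inr rfl, by rw [h]; push_cast; ring⟩
  rw [hs2] at e3 ⊢
  have e5 : ((d i - s * d R.i0 : ℤ) : ℂ) * (muX R i * z) ∈ (R.L i).lattice := by
    have h6 := add_mem (sub_mem e3 e2) (zmul_mem s e4)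
    have h7 : Ψ (muX R i * z) - s * muX R i * Φ z - (Ψ (muX R i * z) - d i * (muX R i * z)) +
        s * (muX R i * (Φ z - d R.i0 * z)) =
        ((d i - s * d R.i0 : ℤ) : ℂ) * (muX R i * z) := by
      push_cast; ring
    rwa [h7] at h6
  have e6 : d i = s * d R.i0 := by
    by_contra hne
    have h8 : d i - s * d R.i0 = 2 ∨ d i - s * d R.i0 = -2 := by
      rcases hact.sgn i with h9 | h9 <;> rcases hact.sgn R.i0 with h10 | h10 <;>
        rcases hs1 with h11 | h11 <;> rw [h9, h10, h11] at hne ⊢ <;> simp at hne ⊢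
    apply h2
    rcases h8 with h8 | h8
    · rw [h8] at e5
      exact_mod_cast e5
    · rw [h8] at e5
      have := neg_mem e5
      push_cast at this
      rwa [← neg_mul, neg_neg] at this
  rw [e6]
  rcases hact.sgn R.i0 with h10 | h10 <;> rw [h10] <;> push_cast <;> ring


/-- conjugation of the values; `u` is any number with `σ u = d_0 u` -/
theorem vak2 {A B : ℤ} {f p : ℕ} (hQ : CQ A B) (hf : 3 ≤ f) {ι : Type} [Fintype ι]
    (R : Reps A B (p * f) ι) (hp : 3 ∣ p * f) (e : OO A B → ℂ)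
    (he : IsEI (idl (A := A) (B := B) (p * f)) e) {m m' : ℕ} (hmm : m' ∣ m) (hm : m' ≠ 0)
    (hm0 : m ≠ 0) (hfm : f ∣ m') (hpm : p * f ∣ m) (σ : ℂ ≃+* ℂ) (c : OO A B) (d : ι → ℤ)
    (hc : c - 1 ∈ idl (A := A) (B := B) m') (hT : ActT R m σ c d) (hσ : ∀ x, σ (e x) = e x)
    (kk : ι → ℂ) (hkk : ∀ i, σ (kk i) = kk i) (u : ℂ) (hu : u ≠ 0) (hσu : σ u = d R.i0 * u)
    (x y : OnePoint ℚ) (hx : Dn m x) (hy : Dn m y) :
    e c * σ (PhiK R e kk x y / (u * R.om R.i0)) = PhiK R e kk x y / (u * R.om R.i0) := by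
  have hsq : ∀ i, ((d i : ℤ) : ℂ) * ((d i : ℤ) : ℂ) = 1 := by
    intro i
    rcases hT.sgn i with hd | hd <;> rw [hd] <;> norm_num
  have hd0 : ∀ i, ((d i : ℤ) : ℂ) ≠ 0 := fun i h0 => by
    have := hsq i
    rw [h0, zero_mul] at this
    exact zero_ne_one this
  have hom0 : R.om R.i0 ≠ 0 := (R.nl R.i0).om_ne
  have hval : ∀ i, e c * σ (PhiI (R.b i) e x y / R.om i) =
      d i * (PhiI (R.b i) e x y / R.om i) := by
    have h2 := nt_VAL y_RA1
    intro i
    have hgen : ∀ (g : ℕ) (R' : Reps A B g ι) (_ : IsEI (idl (A := A) (B := B) g) e)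
        (_ : ActT R' m σ c d) (_ : 3 ∣ g) (_ : g ≠ 0) (_ : g ∣ m),
        e c * σ (PhiI (R'.b i) e x y / R'.om i) = d i * (PhiI (R'.b i) e x y / R'.om i) := by
      intro g R' he' hT' h3 hg hgm
      obtain ⟨k, rfl⟩ := h3
      exact h2 A B k hQ (by omega) ι R' e he' m hm0 hgm σ c d hT' hσ i x y hx hy
    refine hgen _ R he hT hp ?_ hpm
    intro h0
    rw [h0] at hpm
    exact hm0 (zero_dvd_iff.1 hpm)
  have key : ∀ i, e c * σ (kk i * PhiI (R.b i) e x y / (u * R.om R.i0)) =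
      kk i * PhiI (R.b i) e x y / (u * R.om R.i0) := by
    intro i
    have homi : R.om i ≠ 0 := (R.nl i).om_ne
    have hn : ((nI (R.b i) : ℕ) : ℂ) ≠ 0 :=
      Nat.cast_ne_zero.2 (Pool.Agent.MUX.nI_ne_zero hQ (R.nl i).b_ne)
    have e1 : kk i * PhiI (R.b i) e x y / (u * R.om R.i0) =
        kk i * (PhiI (R.b i) e x y / R.om i) * muX R i / (nI (R.b i) * u) := by
      rw [muX]
      field_simp
    have e2 := sgm2 hQ hf R hmm hm hfm σ c d hc hT i
    have e3 := hval i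
    rw [e1, map_div₀, map_mul, map_mul, map_mul, hkk, e2, map_natCast, hσu]
    have e4 : e c * (kk i * σ (PhiI (R.b i) e x y / R.om i) *
        (d R.i0 * d i * muX R i) / (nI (R.b i) * (d R.i0 * u))) =
        kk i * (e c * σ (PhiI (R.b i) e x y / R.om i)) *
        (d i * muX R i) / (nI (R.b i) * u) := by
      field_simp [hd0 R.i0]
    rw [e4, e3]
    have e5 : kk i * (d i * (PhiI (R.b i) e x y / R.om i)) * (d i * muX R i) =
        (d i * d i : ℂ) * (kk i * (PhiI (R.b i) e x y / R.om i) * muX R i) := by ring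
    rw [e5, hsq i, one_mul]
  rw [PhiK, Finset.sum_div, map_sum, Finset.mul_sum]
  exact Finset.sum_congr rfl fun i _ => key i

/-- `u a3` -/
theorem sgu2 {A B : ℤ} {V : ValuationSubring ℂ} (hC : CQ A B) {n : ℕ} {ι : Type}
    (R : Reps A B n ι) {u e a1 a3 : ℂ} (hG : GoodT V (R.L R.i0) u e a1 a3) {m m' : ℕ}
    (hmm : m' ∣ m) (h3 : 3 ∣ m') (σ : ℂ ≃+* ℂ) (c : OO A B) (d : ι → ℤ)
    (hc : c - 1 ∈ idl (A := A) (B := B) m') (hT : ActT R m σ c d) :
    σ (u * a3) = d R.i0 * (u * a3) := by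
  set L := R.L R.i0 with hL
  obtain ⟨w1, w2, h31, h32, hw1, hw2, -, -, he, hu2⟩ := hG.tor
  have hu0 := hG.u0
  -- the action on the points of order three
  have hact : ∀ w : ℂ, 3 * w ∈ L.lattice → w ∉ L.lattice →
      σ (L.weierstrassP w) = L.weierstrassP w ∧
      σ (L.derivWeierstrassP w) = d R.i0 * L.derivWeierstrassP w := by
    intro w h3w hw
    have hmul : ∀ k : ℕ, 3 ∣ k → (k : ℂ) * w ∈ L.lattice := by
      rintro _ ⟨k, rfl⟩
      have h1 := nsmul_mem h3w k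
      rw [nsmul_eq_mul] at h1
      have e1 : ((3 * k : ℕ) : ℂ) * w = (k : ℂ) * (3 * w) := by push_cast; ring
      rw [e1]
      exact h1
    obtain ⟨-, hP, hP'⟩ := (hT.act R.i0).act w (hmul m (h3.trans hmm)) hw
    have hcw : emb c * w - w ∈ L.lattice := by
      obtain ⟨y, hy⟩ := Ideal.mem_span_singleton'.1 hc
      have h1 : emb c - 1 = emb y * m' := by
        have h2 := congrArg emb hy
        rw [Pool.Agent.MUX.emb_mul hC, Pool.Agent.MUX.emb_natCast hC, Pool.Agent.MUX.emb_sub hC,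
          Pool.Agent.MUX.emb_one hC] at h2
        exact h2.symm
      have h2 : emb c * w - w = emb y * (m' * w) := by
        linear_combination w * h1
      rw [h2]
      exact (R.nl R.i0).toIsLI.hasCM hC y _ (hmul m' h3)
    have hPc : L.weierstrassP (emb c * w) = L.weierstrassP w := by
      have h4 := L.weierstrassP_add_coe w ⟨emb c * w - w, hcw⟩
      have h5 : w + ((⟨emb c * w - w, hcw⟩ : L.lattice) : ℂ) = emb c * w := by
        show w + (emb c * w - w) = emb c * w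
        ring
      rw [h5] at h4
      exact h4
    have hDc := SGU.der_congr L hcw
    rcases hT.sgn R.i0 with hd | hd
    · rw [hd] at hP hP' ⊢
      push_cast at hP hP' ⊢
      rw [one_mul] at hP hP' ⊢
      exact ⟨by rw [← hP, hPc], by rw [← hP', hDc]⟩
    · rw [hd] at hP hP' ⊢
      push_cast at hP hP' ⊢
      have h1 : -1 * emb c * w = -(emb c * w) := by ring
      rw [h1] at hP hP'
      rw [L.weierstrassP_neg] at hP
      rw [L.derivWeierstrassP_neg] at hP'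
      exact ⟨by rw [← hP, hPc], by rw [← hP', hDc]; ring⟩
  obtain ⟨hP1, hD1⟩ := hact w1 h31 hw1
  obtain ⟨hP2, -⟩ := hact w2 h32 hw2
  have hsu2 : σ (u ^ 2) = u ^ 2 := by
    rw [hu2, map_sub, hP1, hP2]
  -- `u a3 = ± ℘'(w1)/u²`
  have heq := hG.eq w1 hw1
  rw [← he, sub_self, zero_div, mul_zero, zero_add, zero_pow (by norm_num), mul_zero,
    zero_add] at heq
  have hua : u * a3 = L.derivWeierstrassP w1 / u ^ 2 ∨
      u * a3 = -(L.derivWeierstrassP w1 / u ^ 2) := by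
    apply sq_eq_sq_iff_eq_or_eq_neg.1
    rw [mul_pow, ← heq]
    field_simp
  have h5 : σ (L.derivWeierstrassP w1 / u ^ 2) =
      d R.i0 * (L.derivWeierstrassP w1 / u ^ 2) := by
    rw [map_div₀, hD1, hsu2, mul_div_assoc]
  rcases hua with hua | hua
  · rw [hua, h5]
  · rw [hua, map_neg, h5, mul_neg]

end

end Pool.Agent.N2T
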