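import Pool.Agent.N2.DefsR2
import Pool.Agent.N2.T2_TYF

/-!
# MUX-2R, block T (helper4): the prime ideal `P` above `2`, `2` ramified

A generator `ϖ` of `P` at `V`: `w` (`A` even), `1 + w` (`A` odd). `ϖ ∈ P`, `ϖ ∉ P²`, `v(ϖ)² = v 2`.
-/

set_option autoImplicit false

namespace Pool.Agent.N2T

open _root_.MU3 Pool.Agent.MU3A Pool.Agent.MU3B Pool.Agent.RI Pool.Agent.MUX Pool.Agent.MUXU
open OnePoint Pool.Agent.NS Pool.Agent.N2 Pool.Agent.NST

noncomputable section

section
variable {A B : ℤ} {P : Ideal (OO A B)} {V : ValuationSubring ℂ}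

lemma r_v2 (hQ : CQ A B) (hP : IsPN 2 P) (hV : OverI V P) : V.valuation (2 : ℂ) < 1 := by
  have h3 := (hV _).2 hP.mem
  rw [ValuationSubring.mem_nonunits_iff, MUX.emb_natCast hQ] at h3
  exact_mod_cast h3

/-- integers -/
lemma r_int (h2 : V.valuation (2 : ℂ) < 1) (n : ℤ) : V.valuation (n : ℂ) ≤ 1 ∧
    (2 ∣ n → V.valuation (n : ℂ) ≤ V.valuation (2 : ℂ)) ∧
    (¬ 2 ∣ n → V.valuation (n : ℂ) = 1) := by
  have h1 : ∀ n : ℤ, V.valuation (n : ℂ) ≤ 1 := fun n =>
    (V.valuation_le_one_iff _).2 (intCast_mem V n)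
  refine ⟨h1 n, ?_, ?_⟩
  · rintro ⟨k, rfl⟩
    push_cast
    rw [map_mul]
    exact mul_le_of_le_one_right' (h1 k)
  · intro hn
    refine le_antisymm (h1 n) (not_lt.1 fun h3 => ?_)
    obtain ⟨k, hk⟩ : ∃ k, n = 2 * k + 1 := ⟨n / 2, by omega⟩
    have h4 : V.valuation (1 : ℂ) < 1 := by
      have e1 : (1 : ℂ) = (n : ℂ) - 2 * (k : ℂ) := by rw [hk]; push_cast; ring
      rw [e1]
      refine lt_of_le_of_lt (V.valuation.map_sub _ _) (max_lt h3 ?_)
      rw [map_mul]
      exact mul_lt_one_of_lt_of_le h2 (h1 k)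
    rw [map_one] at h4
    exact lt_irrefl _ h4

/-- the elements of `P` -/
lemma r_mem (hC : CaseR2 A B) (hV : OverI V P) (h2 : V.valuation (2 : ℂ) < 1)
    (hw : V.valuation (wC A B) ≤ 1) {x : OO A B} (hx : x ∈ P) :
    V.valuation (emb x) ^ 2 ≤ V.valuation (2 : ℂ) := by
  have hQ : CQ A B := hC.toCQ
  have hB := hC.b0
  have hxv : V.valuation (emb x) < 1 := by
    have := (hV x).2 hx
    rwa [ValuationSubring.mem_nonunits_iff] at this
  have hint : ∀ y : OO A B, V.valuation (emb y) ≤ 1 := by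
    intro y
    unfold emb
    refine (V.valuation.map_add _ _).trans (max_le (r_int h2 _).1 ?_)
    rw [map_mul]
    exact mul_le_one' (r_int h2 _).1 hw
  have hs := MUX.mul_star x
  have hs2 : emb x * emb (star x) = ((nm x : ℤ) : ℂ) := by
    rw [← MUX.emb_mul hQ, hs, MUX.emb_intCast hQ]
  have hn : V.valuation ((nm x : ℤ) : ℂ) ≤ V.valuation (2 : ℂ) := by
    apply (r_int h2 _).2.1
    by_contra h
    have h3 := (r_int (V := V) h2 _).2.2 h
    rw [← hs2, map_mul] at h3
    exact absurd h3 (mul_lt_one_of_lt_of_le hxv (hint _)).ne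
  have hd : V.valuation (emb x - emb (star x)) ≤ V.valuation (2 : ℂ) := by
    have h3 : emb x - emb (star x) = 2 * ((x.im : ℂ) * wC A B) := by
      have hB' : (B : ℂ) = 0 := by rw [hB]; norm_num
      unfold emb
      rw [QuadraticAlgebra.re_star, QuadraticAlgebra.im_star]
      push_cast
      linear_combination (-(x.im : ℂ)) * hB'
    rw [h3, map_mul, map_mul]
    exact mul_le_of_le_one_right' (mul_le_one' (r_int h2 _).1 hw)
  rcases eq_or_ne (V.valuation (emb x)) (V.valuation (emb (star x))) with h3 | h3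
  · rw [pow_two]
    nth_rewrite 2 [h3]
    rw [← map_mul, hs2]
    exact hn
  · have h4 : V.valuation (emb x) ≤ V.valuation (2 : ℂ) := by
      rcases lt_or_gt_of_ne h3 with h5 | h5
      · rw [Valuation.map_sub_eq_of_lt_right _ h5] at hd
        exact h5.le.trans hd
      · rw [Valuation.map_sub_eq_of_lt_left _ h5] at hd
        exact hd
    rw [pow_two]
    exact (mul_le_of_le_one_right' hxv.le).trans h4

/-- the uniformiser -/
lemma r_unif (hC : CaseR2 A B) (hP : IsPN 2 P) (hV : OverI V P) :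
    ∃ ϖ : OO A B, ϖ ∈ P ∧ ϖ ∉ P ^ 2 ∧ V.valuation (emb ϖ) ^ 2 = V.valuation (2 : ℂ) := by
  have hQ : CQ A B := hC.toCQ
  have hB := hC.b0
  have h2 := r_v2 hQ hP hV
  have hv2 : V.valuation (2 : ℂ) ≠ 0 := (Valuation.ne_zero_iff _).2 two_ne_zero
  have hwC : wC A B * wC A B = A := by
    rw [MUX.wC_sq hQ, hB]
    push_cast
    ring
  have hw2 : V.valuation (wC A B) ^ 2 = V.valuation (A : ℂ) := by
    rw [← map_pow, pow_two, hwC]
  have hw : V.valuation (wC A B) ≤ 1 := by
    by_contra h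
    push Not at h
    have h3 := (r_int (V := V) h2 A).1
    rw [← hw2] at h3
    exact absurd h3 (not_le.2 (one_lt_pow₀ h two_ne_zero))
  obtain ⟨ϖ, hϖ⟩ : ∃ ϖ : OO A B, V.valuation (emb ϖ) ^ 2 = V.valuation (2 : ℂ) := by
    rcases hC.mod with hA | hA
    · refine ⟨⟨0, 1⟩, ?_⟩
      rw [MUX.emb_w, hw2]
      obtain ⟨k, hk⟩ : ∃ k, A = 2 * (2 * k + 1) := ⟨A / 4, by omega⟩
      have h3 : ¬ (2 : ℤ) ∣ 2 * k + 1 := by omega
      have h4 := (r_int (V := V) h2 _).2.2 h3
      rw [hk]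
      push_cast at h4 ⊢
      rw [map_mul, h4, mul_one]
    · refine ⟨⟨1, 1⟩, ?_⟩
      have hA1 : ¬ (2 : ℤ) ∣ A := by omega
      have hw1 : V.valuation (wC A B) = 1 := by
        have h3 := (r_int (V := V) h2 _).2.2 hA1
        rw [← hw2] at h3
        exact (pow_eq_one_iff.1 h3).resolve_right (by norm_num)
      obtain ⟨k, hk⟩ : ∃ k, A = 2 * (2 * k) - 1 := ⟨(A + 1) / 4, by omega⟩
      have h3 : emb (⟨1, 1⟩ : OO A B) ^ 2 = 2 * (wC A B + ((2 * k : ℤ) : ℂ)) := by
        have h4 : (A : ℂ) = 2 * (2 * k) - 1 := by rw [hk]; push_cast; ring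
        unfold emb
        push_cast
        linear_combination hwC + h4
      rw [← map_pow, h3, map_mul]
      have h5 : V.valuation (wC A B + ((2 * k : ℤ) : ℂ)) = 1 := by
        have h6 : V.valuation ((2 * k : ℤ) : ℂ) < V.valuation (wC A B) := by
          rw [hw1]
          exact lt_of_le_of_lt ((r_int h2 _).2.1 (Dvd.intro _ rfl)) h2
        rw [Valuation.map_add_eq_of_lt_left _ h6, hw1]
      rw [h5, mul_one]
  refine ⟨ϖ, ?_, ?_, hϖ⟩
  · rw [← hV, ValuationSubring.mem_nonunits_iff]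
    by_contra h
    push Not at h
    have h3 := one_le_pow₀ h (n := 2)
    rw [hϖ] at h3
    exact absurd h2 (not_lt.2 h3)
  · intro h
    have key : ∀ x ∈ P ^ 2, V.valuation (emb x) ≤ V.valuation (2 : ℂ) := by
      intro x hx
      rw [pow_two] at hx
      refine Submodule.mul_induction_on hx ?_ ?_
      · intro a ha b hb
        rw [MUX.emb_mul hQ, map_mul]
        have h3 := r_mem hC hV h2 hw ha
        have h4 := r_mem hC hV h2 hw hb
        have h5 : (V.valuation (emb a) * V.valuation (emb b)) ^ 2 ≤ V.valuation (2 : ℂ) ^ 2 := by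
          rw [mul_pow, pow_two (V.valuation (2 : ℂ))]
          exact mul_le_mul' h3 h4
        exact (pow_le_pow_iff_left₀ zero_le zero_le two_ne_zero).1 h5
      · intro a b ha hb
        rw [MUX.emb_add hQ]
        exact (V.valuation.map_add _ _).trans (max_le ha hb)
    have h3 := pow_le_pow_left₀ zero_le (key ϖ h) 2
    rw [hϖ, pow_two] at h3
    have h4 : V.valuation (2 : ℂ) * V.valuation (2 : ℂ) < V.valuation (2 : ℂ) := by
      calc V.valuation (2 : ℂ) * V.valuation (2 : ℂ) < 1 * V.valuation (2 : ℂ) :=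
            mul_lt_mul_of_pos_right h2 (zero_lt_iff.2 hv2)
        _ = V.valuation (2 : ℂ) := one_mul _
    exact absurd h3 (not_le.2 h4)

end

end

end Pool.Agent.N2T
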