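import Pool.Agent.N2.U_Sym
import Pool.Agent.N2.DefsR2
import Pool.Agent.N2.StHU
import Pool.Agent.MUX.YAll
import Pool.Agent.MUX.XLib
import Pool.Agent.MUX.N_FK
import Pool.Agent.MUX.HY_SYM
import Pool.Agent.MUX.HY_BRG
import Pool.Agent.N2.H_HfinT

/-!
# N2, 2 ramified, block H (helper41): the hypotheses of the abstract part
-/

set_option autoImplicit false

namespace Pool.Agent.N2U

open _root_.MU3 Pool.Agent.MU3A Pool.Agent.MU3B Pool.Agent.MU3F Pool.Agent.MUX Pool.Agent.MUXH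
  Pool.Agent.MUXHY Pool.Agent.MuSym Pool.Agent.NS Pool.Agent.N2 Pool.Agent.N2H OnePoint
open scoped ComplexConjugate

noncomputable section

/-- elementary facts -/
theorem valQ {A B : ℤ} {P : Ideal (OO A B)} {V : ValuationSubring ℂ} {f : ℕ}
    (H : SetQ A B P V f) :
    V.valuation (2 : ℂ) < 1 ∧ (∀ n : ℤ, V.valuation (n : ℂ) ≤ 1) ∧
    (∀ n : ℤ, ¬ (2 : ℤ) ∣ n → V.valuation (n : ℂ) = 1) ∧
    (∀ (r : ℕ) (z : ℂ), r ≠ 0 → z ^ r = 1 → V.valuation z = 1) ∧
    idl (A := A) (B := B) (2 * f) ≠ ⊥ ∧ idl (A := A) (B := B) (2 * f) ≠ ⊤ ∧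
    ((2 * f : ℕ) : OO A B) ∈ idl (A := A) (B := B) (2 * f) := by
  have h3 : V.valuation (2 : ℂ) < 1 := by
    have h1 : emb ((2 : ℕ) : OO A B) ∈ V.nonunits := (H.hV _).2 H.hP.mem
    have h2 : emb ((2 : ℕ) : OO A B) = 2 := by
      unfold emb
      rw [QuadraticAlgebra.re_natCast, QuadraticAlgebra.im_natCast]
      norm_num
    rw [h2, ValuationSubring.mem_nonunits_iff] at h1
    exact h1
  have hle : ∀ z : ℤ, V.valuation (z : ℂ) ≤ 1 := fun z =>
    (V.valuation_le_one_iff _).2 (intCast_mem V z)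
  have h3f : ((2 * f : ℕ) : OO A B) ∈ idl (A := A) (B := B) (2 * f) :=
    Ideal.mem_span_singleton_self _
  have hf0 := H.f0
  refine ⟨h3, hle, ?_, ?_, ?_, ?_, h3f⟩
  · intro n hn
    have hc : IsCoprime n 2 := by
      rw [isCoprime_comm]
      exact (Int.prime_two.coprime_iff_not_dvd).2 hn
    obtain ⟨a, b, hab⟩ := hc
    by_contra hne
    have hlt : V.valuation (n : ℂ) < 1 := lt_of_le_of_ne (hle n) hne
    have h1 : V.valuation ((a : ℂ) * n + b * 2) < 1 := by
      refine lt_of_le_of_lt (V.valuation.map_add _ _) (max_lt ?_ ?_)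
      · rw [map_mul]
        exact mul_lt_one_of_nonneg_of_lt_one_right (hle a) zero_le hlt
      · rw [map_mul]
        exact mul_lt_one_of_nonneg_of_lt_one_right (hle b) zero_le h3
    have h2 : (a : ℂ) * n + b * 2 = 1 := by exact_mod_cast hab
    rw [h2, map_one] at h1
    exact lt_irrefl _ h1
  · intro r z hr hz
    have h1 : V.valuation z ^ r = 1 := by rw [← map_pow, hz, map_one]
    exact (pow_eq_one_iff_of_nonneg zero_le hr).1 h1
  · intro h
    rw [h, Ideal.mem_bot] at h3f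
    have h1 := congrArg QuadraticAlgebra.re h3f
    simp only [QuadraticAlgebra.re_natCast, QuadraticAlgebra.re_zero] at h1
    have h2 : (2 * f : ℕ) = 0 := by exact_mod_cast h1
    omega
  · intro h
    rw [Ideal.eq_top_iff_one, Ideal.mem_span_singleton] at h
    obtain ⟨y, hy⟩ := h
    have h1 := congrArg QuadraticAlgebra.re hy
    rw [QuadraticAlgebra.re_one, QuadraticAlgebra.re_mul, QuadraticAlgebra.re_natCast,
      QuadraticAlgebra.im_natCast, mul_zero, zero_mul, add_zero] at h1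
    have h9 : ((2 * f : ℕ) : ℤ) ∣ 1 := ⟨y.re, h1⟩
    have h10 := Int.le_of_dvd one_pos h9
    have : 0 < f := Nat.pos_of_ne_zero hf0
    omega

/-- the level `f` and the odd part of `A` -/
theorem lev {A : ℤ} {P : Ideal (OO A 0)} {V : ValuationSubring ℂ} {f : ℕ}
    (H : SetQ A 0 P V f) : A < 0 ∧ qR A ∣ f ∧ 3 ∣ f ∧ absD A 0 ∣ 8 * (qR A : ℤ) ∧
      (absD A 0 = 4 * qR A ∨ absD A 0 = 8 * qR A) := by
  have hA0 : A < 0 := by
    have := H.case.neg
    omega
  obtain ⟨hqo, hc⟩ := qR_spec hA0 H.case.mod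
  have hfD := H.fD
  have h2 : (absD A 0 = 4 * qR A ∨ absD A 0 = 8 * qR A) := by
    rcases hc with ⟨-, -, h⟩ | ⟨-, -, h⟩ | ⟨-, -, h⟩
    · left
      unfold absD
      linarith
    · right
      unfold absD
      linarith
    · right
      unfold absD
      linarith
  have h3 : 3 * (qR A : ℤ) ∣ 2 * (f : ℤ) := by
    obtain ⟨t, ht⟩ := hfD
    rcases h2 with h2 | h2
    · refine ⟨t, ?_⟩
      rw [h2] at ht
      linarith
    · refine ⟨2 * t, ?_⟩
      rw [h2] at ht
      linarith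
  have hq2 : IsCoprime (qR A : ℤ) 2 := by
    rw [isCoprime_comm]
    refine (Int.prime_two.coprime_iff_not_dvd).2 ?_
    rintro ⟨t, ht⟩
    obtain ⟨s, hs⟩ := hqo
    omega
  refine ⟨hA0, ?_, ?_, ?_, h2⟩
  · have h4 : (qR A : ℤ) ∣ 2 * (f : ℤ) := (Dvd.intro_left _ rfl).trans h3
    exact_mod_cast hq2.dvd_of_dvd_mul_left h4
  · have h4 : (3 : ℤ) ∣ 2 * (f : ℤ) := (Dvd.intro _ rfl).trans h3
    omega
  · rcases h2 with h2 | h2
    · exact ⟨2, by rw [h2]; ring⟩
    · exact ⟨1, by rw [h2]; ring⟩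

/-- coprimality from `e x ≠ 0` -/
theorem copQ {A : ℤ} {P : Ideal (OO A 0)} {V : ValuationSubring ℂ} {f : ℕ}
    (H : SetQ A 0 P V f) {e : OO A 0 → ℂ} (he : IsEI (idl (A := A) (B := 0) (2 * f)) e)
    {x : OO A 0} (hx0 : e x ≠ 0) : IsCoprime x ((absD A 0 : ℤ) : OO A 0) := by
  obtain ⟨hA0, hqf, -, hD8, -⟩ := lev H
  have h5 := (he.supp _).1 hx0
  have hcop2 : IsCoprime x ((2 : ℕ) : OO A 0) := by
    rw [← Ideal.isCoprime_span_singleton_iff]
    rw [Ideal.isCoprime_iff_sup_eq] at h5 ⊢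
    refine top_le_iff.1 (h5 ▸ sup_le_sup_left ?_ _)
    rw [Ideal.span_singleton_le_span_singleton]
    exact ⟨((f : ℕ) : OO A 0), by push_cast; ring⟩
  have hcopq : IsCoprime x ((qR A : ℕ) : OO A 0) := by
    rw [← Ideal.isCoprime_span_singleton_iff]
    rw [Ideal.isCoprime_iff_sup_eq] at h5 ⊢
    refine top_le_iff.1 (h5 ▸ sup_le_sup_left ?_ _)
    rw [Ideal.span_singleton_le_span_singleton]
    obtain ⟨t, ht⟩ := hqf
    exact ⟨((2 * t : ℕ) : OO A 0), by rw [ht]; push_cast; ring⟩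
  have h6 : IsCoprime x (((8 * qR A : ℕ) : OO A 0)) := by
    have h7 : ((8 * qR A : ℕ) : OO A 0) = ((2 : ℕ) : OO A 0) ^ 3 * ((qR A : ℕ) : OO A 0) := by
      push_cast
      ring
    rw [h7]
    exact (hcop2.pow_right).mul_right hcopq
  obtain ⟨t, ht⟩ := hD8
  have h8 : ((8 * qR A : ℕ) : OO A 0) = ((absD A 0 : ℤ) : OO A 0) * ((t : ℤ) : OO A 0) := by
    have h9 : ((8 * qR A : ℕ) : OO A 0) = ((8 * (qR A : ℤ) : ℤ) : OO A 0) := by
      push_cast
      rfl
    rw [h9, ht]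
    push_cast
    rfl
  rw [h8] at h6
  exact h6.of_mul_right_left

theorem chrU {A : ℤ} {P : Ideal (OO A 0)} {V : ValuationSubring ℂ} {f : ℕ}
    (H : SetQ A 0 P V f) {e : OO A 0 → ℂ} (he : IsEI (idl (A := A) (B := 0) (2 * f)) e)
    {r : ℕ} (hr0 : r ≠ 0) (hr : ∀ x, e x ≠ 0 → e x ^ r = 1) :
    nuX e 1 = 1 ∧ (∀ d d', nuX e (d * d') = nuX e d * nuX e d') ∧
    (∀ d d' : ℤ, ((8 * (qR A * f ^ 2) : ℕ) : ℤ) ∣ d - d' → nuX e d = nuX e d') ∧
    (∀ d, V.valuation (nuX e d) ≤ 1) := by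
  obtain ⟨-, vZ, -, vru, hg0, -, hpf⟩ := valQ H
  obtain ⟨hA0, hqf, -, hD8, -⟩ := lev H
  have hcq : CQ A 0 := H.case.toCQ
  have ev : ∀ x, V.valuation (e x) ≤ 1 := by
    intro x
    by_cases hx : e x = 0
    · rw [hx, map_zero]
      exact zero_le_one
    · exact (vru r (e x) hr0 (hr x hx)).le
  have hcopD : ∀ d : ℤ, e (d : OO A 0) ≠ 0 → IsCoprime d (absD A 0) := fun d hd =>
    Chr.coprime_int (copQ H he hd)
  refine ⟨?_, ?_, ?_, ?_⟩
  · unfold nuX
    have : ((1 : ℤ) : OO A 0) = 1 := by push_cast; rfl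
    rw [Chr.chiX_one, this, he.one]
    norm_num
  · intro d d'
    unfold nuX
    have : ((d * d' : ℤ) : OO A 0) = (d : OO A 0) * (d' : OO A 0) := by push_cast; rfl
    rw [Chr.chiX_mul, this, he.mul]
    push_cast
    ring
  · intro d d' hd
    have hd2 : (8 : ℤ) * (qR A : ℤ) * (f : ℤ) ^ 2 ∣ d - d' := by
      have h5 : ((8 * (qR A * f ^ 2) : ℕ) : ℤ) = (8 : ℤ) * (qR A : ℤ) * (f : ℤ) ^ 2 := by
        push_cast
        ring
      rwa [h5] at hd
    have hD : absD A 0 ∣ d - d' := (hD8.trans (Dvd.intro _ rfl)).trans hd2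
    obtain ⟨t, ht⟩ := hd2
    unfold nuX
    by_cases hcop : IsCoprime d (absD A 0)
    · have h5 : chiX A 0 d' = chiX A 0 d := ((MUXF.xf_CHI A 0 (toCQ hcq) d hcop).2.2 d' hD)
      have h6 : e (d : OO A 0) = e (d' : OO A 0) := by
        apply he.per
        have h7 : (d : OO A 0) - (d' : OO A 0) =
            (((4 * (qR A : ℤ) * f * t : ℤ)) : OO A 0) * ((2 * f : ℕ) : OO A 0) := by
          have h8 : (d : OO A 0) - (d' : OO A 0) = ((d - d' : ℤ) : OO A 0) := by push_cast; rfl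
          rw [h8, ht]
          push_cast
          ring
        rw [h7]
        exact Ideal.mul_mem_left _ _ hpf
      rw [h5, h6]
    · have h5 : e (d : OO A 0) = 0 := by
        by_contra hne
        exact hcop (hcopD d hne)
      have h6 : e (d' : OO A 0) = 0 := by
        by_contra hne
        apply hcop
        obtain ⟨s, hs⟩ := hD
        have h7 : d = d' + absD A 0 * s := by linarith
        rw [h7]
        exact (IsCoprime.add_mul_left_left_iff).2 (hcopD d' hne)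
      rw [h5, h6, mul_zero, mul_zero]
  · intro d
    unfold nuX
    rw [map_mul]
    exact mul_le_one' (vZ _) (ev _)

theorem uQ_alg {A B : ℤ} (hc : CQ A B) (hT : TorX A B) {b : Ideal (OO A B)} {L : PeriodPair}
    {om : ℂ} (hL : IsNL b L om) {V : ValuationSubring ℂ} {u e a1 a3 : ℂ}
    (h : GoodQ V L u e a1 a3) : IsAlgebraic ℚ u := by
  obtain ⟨w1, w2, h1, h2, h3, h4, -, -, -, h5⟩ := h.tor
  have k1 : IsAlgebraic ℚ (L.weierstrassP w1) := xn_alg hc hT hL (n := 3) (by norm_num)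
    (by push_cast; exact h1) h3
  have k2 : IsAlgebraic ℚ (L.weierstrassP w2) := xn_alg hc hT hL (n := 3) (by norm_num)
    (by push_cast; exact h2) h4
  have k3 : IsAlgebraic ℚ (u ^ 2) := by
    rw [h5]
    exact k2.sub k1
  exact k3.of_pow (by norm_num)

/-- algebraicity of the combinations -/
theorem algU {A : ℤ} {P : Ideal (OO A 0)} {V : ValuationSubring ℂ} {f : ℕ}
    (H : SetQ A 0 P V f) (hT : TorX A 0) {ι : Type} [Fintype ι] (R : Reps A 0 (2 * f) ι)
    {u el a1 a3 : ℂ} (hg : GoodQ V (R.L R.i0) u el a1 a3) {e : OO A 0 → ℂ}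
    (he : IsEI (idl (A := A) (B := 0) (2 * f)) e) {r : ℕ} (hr0 : r ≠ 0)
    (hr : ∀ x, e x ≠ 0 → e x ^ r = 1) (kk : ι → ℂ) (hk : ∀ i, kk i = 0 ∨ kk i ^ r = 1)
    (x y : OnePoint ℚ) : IsAlgebraic ℚ (PhiK R e kk x y / (u * R.om R.i0)) := by
  obtain ⟨-, -, -, -, gb, gt, hpf⟩ := valQ H
  have hcq : CQ A 0 := H.case.toCQ
  have hua : IsAlgebraic ℚ u := uQ_alg hcq hT (R.nl R.i0) hg
  have hcop : ∀ i, IsCoprime (MUX.sp ((MUX.nI (R.b i) : ℕ) : OO A 0))
      (idl (A := A) (B := 0) (2 * f)) :=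
    MUXY.y_COP A 0 (2 * f) ι R _ 1 (by rw [pow_one]; exact hpf)
  have hka : ∀ c, IsAlgebraic ℚ (kk c) := by
    intro c
    rcases hk c with h | h
    · rw [h]
      exact isAlgebraic_zero
    · exact IsAlgebraic.of_pow (Nat.pos_of_ne_zero hr0) (by rw [h]; exact isAlgebraic_one)
  have h1 := fun c =>
    (MUXY.y_ALP A 0 hcq hT (2 * f) ι inferInstance R _ e gb gt he hcop r hr0 hr c x y).2
  have e1 : PhiK R e kk x y / (u * R.om R.i0) =
      (∑ c, kk c * (PhiI (R.b c) e x y / R.om R.i0)) * u⁻¹ := by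
    unfold PhiK
    have ho : R.om R.i0 ≠ 0 := (R.nl R.i0).om_ne
    have hu := hg.u0
    rw [mul_comm u, ← div_div, Finset.sum_div, div_eq_mul_inv]
    congr 1
    refine Finset.sum_congr rfl fun c _ => ?_
    ring
  rw [e1]
  exact (sum_alg _ _ fun c _ => (hka c).mul (h1 c)).mul hua.inv

/-- the values are in a finitely generated group -/
theorem finU {A : ℤ} {P : Ideal (OO A 0)} {V : ValuationSubring ℂ} {f : ℕ}
    (H : SetQ A 0 P V f) {ι : Type} [Fintype ι] (R : Reps A 0 (2 * f) ι)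
    {e : OO A 0 → ℂ} (he : IsEI (idl (A := A) (B := 0) (2 * f)) e) (kk : ι → ℂ) (Z : ℂ) :
    ∃ T : Finset ℂ, ∀ x y, PhiK R e kk x y / Z ∈ AddSubgroup.closure (T : Set ℂ) := by
  classical
  obtain ⟨-, -, -, -, gb, -, -⟩ := valQ H
  have h1 := fun c => MUXT.fg_EI A 0 (toCQ H.case.toCQ) (R.b c) _ e (R.nl c).b_ne gb (toEI he)
  choose S hS' using h1
  refine ⟨Finset.univ.biUnion fun c => (S c).image fun t => kk c / Z * t, fun x y => ?_⟩
  have e1 : PhiK R e kk x y / Z = ∑ c, kk c / Z * PhiI (R.b c) e x y := by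
    unfold PhiK
    rw [Finset.sum_div]
    refine Finset.sum_congr rfl fun c _ => ?_
    ring
  rw [e1]
  refine sum_mem fun c _ => ?_
  have h2 := hS' c x y
  have h3 : AddMonoidHom.mulLeft (kk c / Z) (PhiI (R.b c) e x y) ∈
      (AddSubgroup.closure (S c : Set ℂ)).map (AddMonoidHom.mulLeft (kk c / Z)) :=
    AddSubgroup.mem_map_of_mem _ h2
  rw [AddMonoidHom.map_closure] at h3
  refine AddSubgroup.closure_mono ?_ h3
  rintro _ ⟨t, ht, rfl⟩
  simp only [Finset.coe_biUnion, Set.mem_iUnion]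
  exact ⟨c, by simp, Finset.mem_coe.2 (Finset.mem_image.2 ⟨t, ht, rfl⟩)⟩

open Classical in
/-- the part of the weights in `J+` (`s = 1`) or `J-` (`s = -1`) -/
def kS {A : ℤ} {n : ℕ} {ι : Type} (R : Reps A 0 n ι) (s : ℤ) (kk : ι → ℂ) (i : ι) : ℂ :=
  if InH A (s * nI (R.b i)) then kk i else 0

theorem kS_zero {A : ℤ} {n : ℕ} {ι : Type} (R : Reps A 0 n ι) (s : ℤ) (kk : ι → ℂ) (i : ι)
    (h : kS R s kk i ≠ 0) : InH A (s * nI (R.b i)) := by
  unfold kS at h
  by_contra h1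
  rw [if_neg h1] at h
  exact h rfl

theorem kS_pow {A : ℤ} {n : ℕ} {ι : Type} (R : Reps A 0 n ι) (s : ℤ) {kk : ι → ℂ} {r : ℕ}
    (hk : ∀ i, kk i ^ r = 1) (i : ι) : kS R s kk i = 0 ∨ kS R s kk i ^ r = 1 := by
  unfold kS
  split_ifs
  · exact Or.inr (hk i)
  · exact Or.inl rfl

theorem nI_i0 {A : ℤ} {n : ℕ} {ι : Type} (R : Reps A 0 n ι) : nI (R.b R.i0) = 1 := by
  rw [R.b0]
  unfold nI
  have : Subsingleton (OO A 0 ⧸ (⊤ : Ideal (OO A 0))) := Ideal.Quotient.subsingleton_iff.2 rfl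
  exact Nat.card_of_subsingleton 0

/-- the hypotheses of the abstract part -/
theorem hypU (hG : SQ_GPT) (hT' : SQ_TYF) {A : ℤ} {P : Ideal (OO A 0)}
    {V : ValuationSubring ℂ} {f : ℕ}
    (hS : SetQ A 0 P V f) (hT : TorX A 0) {ι : Type} [Fintype ι] (R : Reps A 0 (2 * f) ι)
    {u el a1 a3 : ℂ} (hg : GoodQ V (R.L R.i0) u el a1 a3)
    {e : OO A 0 → ℂ} (he : OddF f e) {r : ℕ} (hr2 : ¬ 2 ∣ r)
    (her : ∀ x, e x ≠ 0 → e x ^ (2 * r) = 1) {kk : ι → ℂ} (hkk : ∀ i, kk i ^ (2 * r) = 1) :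
    ∃ (pi : ℂ) (KI : Subfield ℂ), HypU V (qR A * f ^ 2) 4 (nuX e)
      (fun x y => PhiU R e (kS R 1 kk) (kS R (-1) kk) x y / (u * R.om R.i0))
      (fun x y => PhiK R e (kS R 1 kk) x y / (u * R.om R.i0)) pi KI (ex (1 / 8)) (hR A) := by
  obtain ⟨pi, KI, typ, unr, hlf, vpi⟩ := hT' A 0 P V f hS hT ι R u el a1 a3 hg e he r hr2 her
  obtain ⟨v2, vZ, v1, vr, gb, gt, h2f⟩ := valQ hS
  obtain ⟨hA0, hqf, h3f, hD8, hDc⟩ := lev hS
  have hcq : CQ A 0 := hS.case.toCQ
  have hA := hS.case.mod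
  have heI := he.toIsEI
  have hr0 : r ≠ 0 := by
    rintro rfl
    exact hr2 (dvd_zero 2)
  have hr20 : 2 * r ≠ 0 := by omega
  have hf0 := hS.f0
  obtain ⟨nu1, num, nuper, nuv⟩ := chrU hS heI hr20 her
  obtain ⟨hqo, hqc⟩ := qR_spec hA0 hA
  have hq0 : qR A ≠ 0 := by
    rintro h
    rw [h] at hqo
    exact absurd hqo (by decide)
  have hf3 : 3 ≤ f := Nat.le_of_dvd (Nat.pos_of_ne_zero hf0) h3f
  have hN2 : 2 ≤ qR A * f ^ 2 := by
    have h1 : 1 ≤ qR A := Nat.one_le_iff_ne_zero.2 hq0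
    nlinarith
  have hDz : absD A 0 * ((2 * f : ℕ) : ℤ) ^ 2 ∣ ((2 ^ (4 + 1) * (qR A * f ^ 2) : ℕ) : ℤ) := by
    rcases hDc with h | h
    · exact ⟨2, by rw [h]; push_cast; ring⟩
    · exact ⟨1, by rw [h]; push_cast; ring⟩
  have hDne : 2 ^ (4 + 1) * (qR A * f ^ 2) ≠ 0 := by positivity
  have hq2 : ¬ (2 : ℤ) ∣ ((qR A : ℕ) : ℤ) := by
    rintro ⟨t, ht⟩
    obtain ⟨s, hs⟩ := hqo
    omega
  have hk0 : V.valuation (kS R 1 kk R.i0) = 1 := by
    have h1 : kS R 1 kk R.i0 = kk R.i0 := by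
      unfold kS
      rw [if_pos]
      rw [nI_i0]
      exact Or.inl rfl
    rw [h1]
    exact vr _ _ hr20 (hkk _)
  have hGG := hG A 0 P V f hS hT ι R u el a1 a3 hg e heI (2 * r) hr20 her (kS R 1 kk) hk0
  have hsymK : ∀ k' : ι → ℂ, IsSym (2 ^ (4 + 1) * (qR A * f ^ 2)) (nuX e)
      (fun x y => PhiK R e k' x y / (u * R.om R.i0)) := by
    intro k'
    have h1 : ∀ c, IsSym (2 ^ (4 + 1) * (qR A * f ^ 2)) (nuX e) (PhiI (R.b c) e) := fun c =>
      MUXT.sym_EI (toCQ hcq) (R.b c) (R.nl c).b_ne _ e (toEI heI) (2 * f) (by omega) h2f _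
        hDne hDz
    exact Sym.isSym_lin h1 k' (u * R.om R.i0)
  have hsplit : ∀ x y, PhiU R e (kS R 1 kk) (kS R (-1) kk) x y / (u * R.om R.i0) =
      PhiK R e (kS R 1 kk) x y / (u * R.om R.i0) +
      PhiK R e (kS R (-1) kk) (mob (-1) 0 0 1 x) (mob (-1) 0 0 1 y) / (u * R.om R.i0) := by
    intro x y
    unfold PhiU
    rw [add_div]
  have hPn : ∀ i, kS R 1 kk i ≠ 0 → InH A (nI (R.b i)) := by
    intro i hi
    have := kS_zero R 1 kk i hi
    rwa [one_mul] at this
  have hMn : ∀ i, kS R (-1) kk i ≠ 0 → InH A (-(nI (R.b i) : ℤ)) := by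
    intro i hi
    have := kS_zero R (-1) kk i hi
    rwa [neg_one_mul] at this
  refine ⟨pi, KI, ?_⟩
  exact
    { vp := v2
      N0 := hN2
      cop := by
        rw [Nat.Prime.coprime_iff_not_dvd Nat.prime_two]
        intro h
        rcases (Nat.Prime.dvd_mul Nat.prime_two).1 h with h | h
        · exact hq2 (by exact_mod_cast h)
        · exact hS.fp (Nat.prime_two.dvd_of_dvd_pow h)
      nu1 := nu1
      num := num
      nuper := nuper
      nuv := nuv
      sym := by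
        have h1 := isSym_add (hsymK (kS R 1 kk)) (isSym_neg (hsymK (kS R (-1) kk)))
        have h2 : (fun x y => PhiU R e (kS R 1 kk) (kS R (-1) kk) x y / (u * R.om R.i0)) =
            (fun x y => PhiK R e (kS R 1 kk) x y / (u * R.om R.i0) +
            PhiK R e (kS R (-1) kk) (mob (-1) 0 0 1 x) (mob (-1) 0 0 1 y) /
              (u * R.om R.i0)) := by
          funext x y
          exact hsplit x y
        rw [h2]
        exact h1
      om8 := om8_prim
      hh := by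
        rcases hR_cases hA with ⟨-, h⟩ | ⟨-, h⟩ | ⟨-, h⟩ <;> rw [h] <;> norm_num
      rel := by
        intro x
        have h1 := relU hcq gb heI R (kS R 1 kk) (kS R (-1) kk)
          (by
            intro i hi y hy hy0
            have h8 := inH_nI hcq hA hqf heI (R.nl i).b_ne 1
              (by rw [one_mul]; exact hPn i hi) hy hy0
            rcases h8 with h8 | h8
            · rwa [one_mul] at h8
            · exact absurd (Or.inl rfl) h8)
          (by
            intro i hi y hy hy0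
            have h8 := inH_nI hcq hA hqf heI (R.nl i).b_ne (-1)
              (by rw [neg_one_mul]; exact hMn i hi) hy hy0
            rcases h8 with h8 | h8
            · rwa [neg_one_mul] at h8
            · exact absurd (Or.inr rfl) h8) x
        beta_reduce
        linear_combination (1 / (u * R.om R.i0)) * h1
      alg := by
        intro x y
        beta_reduce
        rw [hsplit]
        exact (algU hS hT R hg heI hr20 her _ (kS_pow R 1 hkk) x y).add
          (algU hS hT R hg heI hr20 her _ (kS_pow R (-1) hkk) _ _)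
      fin := by
        classical
        obtain ⟨T1, hT1⟩ := finU hS R heI (kS R 1 kk) (u * R.om R.i0)
        obtain ⟨T2, hT2⟩ := finU hS R heI (kS R (-1) kk) (u * R.om R.i0)
        refine ⟨T1 ∪ T2, fun x y => ?_⟩
        beta_reduce
        rw [hsplit]
        refine add_mem ?_ ?_
        · exact AddSubgroup.closure_mono (by
            rw [Finset.coe_union]
            exact Set.subset_union_left) (hT1 x y)
        · exact AddSubgroup.closure_mono (by
            rw [Finset.coe_union]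
            exact Set.subset_union_right) (hT2 _ _)
      typ := by
        intro x y
        obtain ⟨w1, hw1, e1⟩ := typ (kS R 1 kk) (kS_pow R 1 hkk) x y
        obtain ⟨w2, hw2, e2⟩ := typ (kS R (-1) kk) (kS_pow R (-1) hkk) (mob (-1) 0 0 1 x)
          (mob (-1) 0 0 1 y)
        refine ⟨w1 + w2, add_mem hw1 hw2, ?_⟩
        beta_reduce
        rw [hsplit, e1, e2]
        ring
      unr := unr
      hlf := hlf
      vpi := vpi
      G := by
        intro N' hN' hd
        refine hGG N' hN' ?_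
        refine hDz.trans ?_
        exact_mod_cast hd
      prj := prjU V hcq hA vr (by
          have := v1 _ hq2
          exact_mod_cast this) hqf gb heI R (kS R 1 kk) (kS R (-1) kk) hPn hMn
        (u * R.om R.i0) }

end

end Pool.Agent.N2U
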