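import Pool.Agent.MUX.DefsX2
import Mathlib.NumberTheory.LegendreSymbol.JacobiSymbol

/-!
# N2, 2 ramified, block H (helper41): norms modulo 8 and the Jacobi symbol modulo the odd part of `A`
-/

set_option autoImplicit false

namespace Pool.Agent.N2U

open _root_.MU3 Pool.Agent.MU3A Pool.Agent.MU3B Pool.Agent.MUX

/-- the norms of the units of `O_P` modulo `8` are `{1, h}` -/
def hR (A : ℤ) : ℕ := if A % 4 = 3 then 5 else if A % 8 = 6 then 3 else 7

/-- the class of `k` modulo `8` is in `{1, h}` -/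
def InH (A k : ℤ) : Prop := k % 8 = 1 ∨ k % 8 = hR A

/-- the odd part of `|A|` -/
def qR (A : ℤ) : ℕ := if A % 4 = 3 then A.natAbs else A.natAbs / 2

/-- the three cases -/
theorem hR_cases {A : ℤ} (hA : A % 4 = 2 ∨ A % 4 = 3) :
    (A % 4 = 3 ∧ hR A = 5) ∨ (A % 8 = 6 ∧ hR A = 3) ∨ (A % 8 = 2 ∧ hR A = 7) := by
  unfold hR
  rcases hA with h | h
  · have h1 : A % 8 = 2 ∨ A % 8 = 6 := by omega
    rcases h1 with h1 | h1
    · right; right
      rw [if_neg (by omega), if_neg (by omega)]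
      exact ⟨h1, rfl⟩
    · right; left
      rw [if_neg (by omega), if_pos h1]
      exact ⟨h1, rfl⟩
  · left
    rw [if_pos h]
    exact ⟨h, rfl⟩

/-- squares modulo 8 -/
theorem sq8 (k : ℤ) : (k % 2 = 1 ∧ k ^ 2 % 8 = 1) ∨ (k % 4 = 0 ∧ k ^ 2 % 8 = 0) ∨
    (k % 4 = 2 ∧ k ^ 2 % 8 = 4) := by
  have h8 : k % 8 = 0 ∨ k % 8 = 1 ∨ k % 8 = 2 ∨ k % 8 = 3 ∨ k % 8 = 4 ∨ k % 8 = 5 ∨
    k % 8 = 6 ∨ k % 8 = 7 := by omega
  have h2 : k ^ 2 % 8 = ((k % 8) * (k % 8)) % 8 := by rw [sq, Int.mul_emod]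
  rcases h8 with h | h | h | h | h | h | h | h <;> rw [h2, h] <;> omega

/-- odd norms are in `{1, h}` modulo 8 -/
theorem nm_inH {A : ℤ} (hA : A % 4 = 2 ∨ A % 4 = 3) (x : OO A 0) (hx : nm x % 2 = 1) :
    InH A (nm x) := by
  have h1 : nm x = x.re ^ 2 - A * x.im ^ 2 := by
    unfold nm
    ring
  have h2 : nm x % 8 = (x.re ^ 2 % 8 - (A % 8) * (x.im ^ 2 % 8)) % 8 := by
    rw [h1, Int.sub_emod, Int.mul_emod]
    generalize A % 8 * (x.im ^ 2 % 8) = t
    generalize x.re ^ 2 = r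
    omega
  have h3 := sq8 x.re
  have h4 := sq8 x.im
  have hA8 : A % 8 = 2 ∨ A % 8 = 3 ∨ A % 8 = 6 ∨ A % 8 = 7 := by omega
  unfold InH hR
  rcases hA8 with h5 | h5 | h5 | h5 <;> rw [h5] at h2
  · rw [if_neg (by omega), if_neg (by omega)]
    rcases h3 with ⟨-, h3⟩ | ⟨-, h3⟩ | ⟨-, h3⟩ <;> rcases h4 with ⟨-, h4⟩ | ⟨-, h4⟩ | ⟨-, h4⟩ <;>
      rw [h3, h4] at h2 <;> omega
  · rw [if_pos (by omega)]
    rcases h3 with ⟨-, h3⟩ | ⟨-, h3⟩ | ⟨-, h3⟩ <;> rcases h4 with ⟨-, h4⟩ | ⟨-, h4⟩ | ⟨-, h4⟩ <;>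
      rw [h3, h4] at h2 <;> omega
  · rw [if_neg (by omega), if_pos h5]
    rcases h3 with ⟨-, h3⟩ | ⟨-, h3⟩ | ⟨-, h3⟩ <;> rcases h4 with ⟨-, h4⟩ | ⟨-, h4⟩ | ⟨-, h4⟩ <;>
      rw [h3, h4] at h2 <;> omega
  · rw [if_pos (by omega)]
    rcases h3 with ⟨-, h3⟩ | ⟨-, h3⟩ | ⟨-, h3⟩ <;> rcases h4 with ⟨-, h4⟩ | ⟨-, h4⟩ | ⟨-, h4⟩ <;>
      rw [h3, h4] at h2 <;> omega

/-- `{1, h}` is a group -/
theorem inH_mul {A : ℤ} (hA : A % 4 = 2 ∨ A % 4 = 3) {a b : ℤ} (ha : InH A a) :
    InH A (a * b) ↔ InH A b := by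
  have h1 : (a * b) % 8 = ((a % 8) * (b % 8)) % 8 := Int.mul_emod a b 8
  have h2 : b % 8 = 0 ∨ b % 8 = 1 ∨ b % 8 = 2 ∨ b % 8 = 3 ∨ b % 8 = 4 ∨ b % 8 = 5 ∨
    b % 8 = 6 ∨ b % 8 = 7 := by omega
  unfold InH at ha ⊢
  rcases hR_cases hA with ⟨-, h⟩ | ⟨-, h⟩ | ⟨-, h⟩ <;> rw [h] at ha ⊢ <;> push_cast at ha ⊢ <;>
    rcases ha with ha | ha <;> rw [ha] at h1 <;>
    rcases h2 with h2 | h2 | h2 | h2 | h2 | h2 | h2 | h2 <;> rw [h2] at h1 ⊢ <;> rw [h1] <;>
    norm_num

theorem inH_congr {A a b : ℤ} (h : (8 : ℤ) ∣ a - b) : InH A a ↔ InH A b := by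
  have h1 : a % 8 = b % 8 := by omega
  unfold InH
  rw [h1]

theorem inH_odd {A a : ℤ} (hA : A % 4 = 2 ∨ A % 4 = 3) (h : InH A a) : a % 2 = 1 := by
  unfold InH at h
  rcases hR_cases hA with ⟨-, h1⟩ | ⟨-, h1⟩ | ⟨-, h1⟩ <;> rw [h1] at h <;> push_cast at h <;> omega

theorem inH_one (A : ℤ) : InH A 1 := Or.inl rfl

/-- the odd part -/
theorem qR_spec {A : ℤ} (hA0 : A < 0) (hA : A % 4 = 2 ∨ A % 4 = 3) :
    Odd (qR A) ∧ ((A % 4 = 3 ∧ qR A % 4 = 1 ∧ A = -(qR A : ℤ)) ∨
      (A % 8 = 6 ∧ qR A % 4 = 1 ∧ A = -2 * (qR A : ℤ)) ∨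
      (A % 8 = 2 ∧ qR A % 4 = 3 ∧ A = -2 * (qR A : ℤ))) := by
  rw [Nat.odd_iff]
  unfold qR
  rcases hA with h | h
  · rw [if_neg (by omega)]
    omega
  · rw [if_pos h]
    omega

/-- the Jacobi symbol modulo the odd part of `A` -/
theorem jac {A : ℤ} (hA0 : A < 0) (hA : A % 4 = 2 ∨ A % 4 = 3) (n : ℕ)
    (hn : n % 2 = 1) (hJ : jacobiSym A n = 1) :
    (InH A n → jacobiSym n (qR A) = 1) ∧ (InH A (-n) → jacobiSym (-n) (qR A) = -1) := by
  obtain ⟨hq, hc⟩ := qR_spec hA0 hA
  have hq2 : qR A % 2 = 1 := Nat.odd_iff.1 hq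
  have hno : Odd n := Nat.odd_iff.2 hn
  have h4 := ZMod.χ₄_nat_eq_if_mod_four n
  have h8 := ZMod.χ₈_nat_eq_if_mod_eight n
  have h4q := ZMod.χ₄_nat_eq_if_mod_four (qR A)
  have hrec := jacobiSym.quadratic_reciprocity_if hq2 hn
  have hneg : jacobiSym (-n) (qR A) = ZMod.χ₄ (qR A) * jacobiSym n (qR A) :=
    jacobiSym.neg _ hq
  have h8n : n % 8 = 1 ∨ n % 8 = 3 ∨ n % 8 = 5 ∨ n % 8 = 7 := by omega
  set J := jacobiSym (n : ℤ) (qR A) with hJd
  unfold InH
  rcases hc with ⟨a1, a2, a3⟩ | ⟨a1, a2, a3⟩ | ⟨a1, a2, a3⟩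
  · have hh : hR A = 5 := by
      unfold hR
      rw [if_pos a1]
    have e1 : jacobiSym A n = ZMod.χ₄ n * jacobiSym (qR A : ℤ) n := by
      conv_lhs => rw [a3]
      exact jacobiSym.neg _ hno
    rw [hJ] at e1
    rw [← hrec] at e1
    rw [hneg, hh]
    rw [h4] at e1
    rw [h4q]
    rcases h8n with h | h | h | h
    · rw [if_neg (by omega), if_pos (by omega), if_neg (by omega)] at e1
      rw [if_neg (by omega), if_pos (by omega)]
      constructor
      · intro _; linarith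
      · intro h1; exfalso; omega
    · rw [if_neg (by omega), if_neg (by omega), if_neg (by omega)] at e1
      rw [if_neg (by omega), if_pos (by omega)]
      constructor
      · intro h1; exfalso; omega
      · intro _; linarith
    · rw [if_neg (by omega), if_pos (by omega), if_neg (by omega)] at e1
      rw [if_neg (by omega), if_pos (by omega)]
      constructor
      · intro _; linarith
      · intro h1; exfalso; omega
    · rw [if_neg (by omega), if_neg (by omega), if_neg (by omega)] at e1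
      rw [if_neg (by omega), if_pos (by omega)]
      constructor
      · intro h1; exfalso; omega
      · intro _; linarith
  · have hh : hR A = 3 := by
      unfold hR
      rw [if_neg (by omega), if_pos a1]
    have e1 : jacobiSym A n = ZMod.χ₄ n * (ZMod.χ₈ n * jacobiSym (qR A : ℤ) n) := by
      conv_lhs => rw [a3, show (-2 * (qR A : ℤ)) = -(2 * (qR A : ℤ)) by ring]
      rw [jacobiSym.neg _ hno, jacobiSym.mul_left, jacobiSym.at_two hno]
    rw [hJ] at e1
    rw [← hrec] at e1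
    rw [hneg, hh]
    rw [h4, h8] at e1
    rw [h4q]
    rcases h8n with h | h | h | h
    · rw [if_neg (by omega), if_pos (by omega), if_neg (by omega), if_pos (by omega),
        if_neg (by omega)] at e1
      rw [if_neg (by omega), if_pos (by omega)]
      constructor
      · intro _; linarith
      · intro h1; exfalso; omega
    · rw [if_neg (by omega), if_neg (by omega), if_neg (by omega), if_neg (by omega),
        if_neg (by omega)] at e1
      rw [if_neg (by omega), if_pos (by omega)]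
      constructor
      · intro _; linarith
      · intro h1; exfalso; omega
    · rw [if_neg (by omega), if_pos (by omega), if_neg (by omega), if_neg (by omega),
        if_neg (by omega)] at e1
      rw [if_neg (by omega), if_pos (by omega)]
      constructor
      · intro h1; exfalso; omega
      · intro _; linarith
    · rw [if_neg (by omega), if_neg (by omega), if_neg (by omega), if_pos (by omega),
        if_neg (by omega)] at e1
      rw [if_neg (by omega), if_pos (by omega)]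
      constructor
      · intro h1; exfalso; omega
      · intro _; linarith
  · have hh : hR A = 7 := by
      unfold hR
      rw [if_neg (by omega), if_neg (by omega)]
    have e1 : jacobiSym A n = ZMod.χ₄ n * (ZMod.χ₈ n * jacobiSym (qR A : ℤ) n) := by
      conv_lhs => rw [a3, show (-2 * (qR A : ℤ)) = -(2 * (qR A : ℤ)) by ring]
      rw [jacobiSym.neg _ hno, jacobiSym.mul_left, jacobiSym.at_two hno]
    rw [hJ] at e1
    rw [← hrec] at e1
    rw [hneg, hh]
    rw [h4, h8] at e1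
    rw [h4q]
    rcases h8n with h | h | h | h
    · rw [if_neg (by omega), if_pos (by omega), if_neg (by omega), if_pos (by omega),
        if_neg (by omega)] at e1
      rw [if_neg (by omega), if_neg (by omega)]
      constructor
      · intro _; linarith
      · intro _; linarith
    · rw [if_neg (by omega), if_neg (by omega), if_neg (by omega), if_neg (by omega),
        if_pos (by omega)] at e1
      rw [if_neg (by omega), if_neg (by omega)]
      constructor
      · intro h1; exfalso; omega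
      · intro h1; exfalso; omega
    · rw [if_neg (by omega), if_pos (by omega), if_neg (by omega), if_neg (by omega),
        if_neg (by omega)] at e1
      rw [if_neg (by omega), if_neg (by omega)]
      constructor
      · intro h1; exfalso; omega
      · intro h1; exfalso; omega
    · rw [if_neg (by omega), if_neg (by omega), if_neg (by omega), if_pos (by omega),
        if_pos (by omega)] at e1
      rw [if_neg (by omega), if_neg (by omega)]
      constructor
      · intro _; linarith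
      · intro _; linarith

end Pool.Agent.N2U
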