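import Pool.Agent.N2.H_DepT

/-!
# N2, 2 ramified, block H (helper41): linear relations between translates of the symbols
-/

set_option autoImplicit false

namespace Pool.Agent.N2U

open _root_.MU3 Pool.Agent.MU3A Pool.Agent.MU3B Pool.Agent.MU3F Pool.Agent.MUX Pool.Agent.MUXH
  Pool.Agent.MUXHY Pool.Agent.MuSym Pool.Agent.N2 OnePoint
open scoped ComplexConjugate

noncomputable section

variable {A B : ℤ}

/-- linear relations between the translates of theta -/
theorem theta_rel (hcq : CQ A B) {g : Ideal (OO A B)} (hg : g ≠ ⊥) {e : OO A B → ℂ}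
    (he : IsEI g e) {b : Ideal (OO A B)} (hb : b ≠ ⊥) (J : Finset ℕ) (c : ℕ → ℂ) (r : ℕ → ℚ)
    (h : ∀ x ∈ b, e x ≠ 0 → ∑ j ∈ J, c j * ex (r j * (MUXF.qb b x : ℤ)) = 0) (z : ℂ)
    (hz : 0 < z.im) : ∑ j ∈ J, c j * thetaI b e (z + (r j : ℂ)) = 0 := by
  have hcq' := toCQ hcq
  obtain ⟨-, C, hC0, hC⟩ := MUXF.xf_BDD A B hcq' _ e hg (toEI he)
  have him : ∀ j : ℕ, 0 < (z + (r j : ℂ)).im := by
    intro j
    have : ((r j : ℚ) : ℂ).im = 0 := by
      rw [← Complex.ofReal_ratCast]
      exact Complex.ofReal_im _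
    rw [Complex.add_im, this, add_zero]
    exact hz
  have hsum : ∀ j : ℕ, Summable (fun x : b => c j * (e x * (starRingEnd ℂ) (emb (x : OO A B)) *
      Complex.exp (2 * Real.pi * Complex.I * ((nm (x : OO A B) : ℂ) / nI b) *
        (z + (r j : ℂ))))) :=
    fun j : ℕ => (MUXF.xf_TSM A B hcq' b hb e C hC (z + (r j : ℂ)) (him j)).mul_left (c j)
  have e1 : ∑ j ∈ J, c j * thetaI b e (z + (r j : ℂ)) =
      (1 / 2) * ∑ j ∈ J, ∑' x : b, c j * (e x * (starRingEnd ℂ) (emb (x : OO A B)) *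
        Complex.exp (2 * Real.pi * Complex.I * ((nm (x : OO A B) : ℂ) / nI b) *
          (z + (r j : ℂ)))) := by
    rw [Finset.mul_sum]
    refine Finset.sum_congr rfl fun j _ => ?_
    rw [tsum_mul_left]
    unfold thetaI
    ring
  rw [e1, ← Summable.tsum_finsetSum (fun j _ => hsum j)]
  have e2 : ∀ x : b, ∑ j ∈ J, c j * (e x * (starRingEnd ℂ) (emb (x : OO A B)) *
      Complex.exp (2 * Real.pi * Complex.I * ((nm (x : OO A B) : ℂ) / nI b) *
        (z + (r j : ℂ)))) = 0 := by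
    intro x
    by_cases h0 : e x = 0
    · rw [h0]
      simp
    · obtain ⟨h1, h2⟩ := (MUXF.xf_QB A B hcq' b hb).1 x x.2
      have hnI : ((nI b : ℕ) : ℂ) ≠ 0 := by
        have := (MUXF.xf_IDL A B hcq' b hb).1
        exact_mod_cast this
      have h4 : ((nm (x : OO A B) : ℤ) : ℂ) / ((nI b : ℕ) : ℂ) =
          ((MUXF.qb b (x : OO A B) : ℤ) : ℂ) := by
        have h5 : nm (x : OO A B) = (nI b : ℤ) * MUXF.qb b (x : OO A B) := h1
        rw [h5]
        push_cast
        field_simp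
      have e3 : ∀ j ∈ J, c j * (e x * (starRingEnd ℂ) (emb (x : OO A B)) *
          Complex.exp (2 * Real.pi * Complex.I * ((nm (x : OO A B) : ℂ) / nI b) *
          (z + (r j : ℂ)))) = e x * (starRingEnd ℂ) (emb (x : OO A B)) *
          Complex.exp (2 * Real.pi * Complex.I * ((MUXF.qb b (x : OO A B) : ℤ) : ℂ) * z) *
            (c j * ex (r j * (MUXF.qb b (x : OO A B) : ℤ))) := by
        intro j _
        rw [h4]
        have e4 : Complex.exp (2 * Real.pi * Complex.I * ((MUXF.qb b (x : OO A B) : ℤ) : ℂ) *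
            (z + (r j : ℂ))) =
            Complex.exp (2 * Real.pi * Complex.I * ((MUXF.qb b (x : OO A B) : ℤ) : ℂ) * z) *
            ex (r j * (MUXF.qb b (x : OO A B) : ℤ)) := by
          unfold ex
          rw [← Complex.exp_add]
          congr 1
          push_cast
          ring
        rw [e4]
        ring
      rw [Finset.sum_congr rfl e3, ← Finset.mul_sum, h x x.2 h0, mul_zero]
  rw [tsum_congr e2, tsum_zero, mul_zero]

/-- linear relations between the translates of a symbol -/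
theorem phi_rel (hcq : CQ A B) {g : Ideal (OO A B)} (hg : g ≠ ⊥) {e : OO A B → ℂ}
    (he : IsEI g e) {b : Ideal (OO A B)} (hb : b ≠ ⊥) (J : Finset ℕ) (c : ℕ → ℂ) (r : ℕ → ℚ)
    (h : ∀ x ∈ b, e x ≠ 0 → ∑ j ∈ J, c j * ex (r j * (MUXF.qb b x : ℤ)) = 0) (x : ℚ) :
    ∑ j ∈ J, c j * PhiI b e ∞ ((x + r j : ℚ) : OnePoint ℚ) = 0 := by
  have hcq' := toCQ hcq
  have hI := fun r : ℚ => MUXF.xf_ITG A B hcq' b _ e hb hg (toEI he) r
  have e1 : ∀ j ∈ J, c j * PhiI b e ∞ ((x + r j : ℚ) : OnePoint ℚ) =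
      2 * Real.pi * ∫ t in Set.Ioi (0 : ℝ), c j * thetaI b e (((x : ℚ) : ℂ) + t * Complex.I +
        (r j : ℂ)) := by
    intro j _
    rw [Qsx.PhiI_inf, MeasureTheory.integral_const_mul]
    unfold IvI
    have e2 : ∫ t in Set.Ioi (0 : ℝ), thetaI b e (((x + r j : ℚ) : ℂ) + t * Complex.I) =
        ∫ t in Set.Ioi (0 : ℝ), thetaI b e (((x : ℚ) : ℂ) + t * Complex.I + (r j : ℂ)) := by
      refine MeasureTheory.integral_congr_ae (Filter.Eventually.of_forall fun t => ?_)
      show thetaI b e _ = thetaI b e _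
      congr 1
      push_cast
      ring
    rw [e2]
    ring
  rw [Finset.sum_congr rfl e1, ← Finset.mul_sum, ← MeasureTheory.integral_finsetSum]
  · have e2 : ∫ t in Set.Ioi (0 : ℝ), ∑ j ∈ J,
        c j * thetaI b e (((x : ℚ) : ℂ) + t * Complex.I + (r j : ℂ)) = 0 := by
      rw [MeasureTheory.setIntegral_congr_fun (g := fun _ => (0 : ℂ)) measurableSet_Ioi]
      · simp
      · intro t ht
        refine theta_rel hcq hg he hb J c r h _ ?_
        have h1 : (((x : ℚ) : ℂ)).im = 0 := by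
          rw [← Complex.ofReal_ratCast]
          exact Complex.ofReal_im _
        rw [Complex.add_im, h1, zero_add, Complex.mul_im]
        simpa using ht
    rw [e2, mul_zero]
  · intro j _
    have h1 : MeasureTheory.IntegrableOn (fun t : ℝ => c j *
        thetaI b e (((x + r j : ℚ) : ℂ) + t * Complex.I)) (Set.Ioi 0) :=
      (hI (x + r j)).const_mul (c j)
    refine h1.congr_fun ?_ measurableSet_Ioi
    intro t _
    show c j * thetaI b e _ = c j * thetaI b e _
    congr 2
    push_cast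
    ring

end

end Pool.Agent.N2U
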