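import Pool.Agent.N2.U_Num
import Pool.Agent.N2.U_Rel
import Pool.Agent.MUX.XFAll

/-!
# N2, 2 ramified, block H (helper41): the exponents, and the projector of odd modulus
-/

set_option autoImplicit false

namespace Pool.Agent.N2U

open _root_.MU3 Pool.Agent.MU3A Pool.Agent.MU3B Pool.Agent.MU3F Pool.Agent.MUX Pool.Agent.MUXH
  Pool.Agent.MUXHY Pool.Agent.MuSym Pool.Agent.N2 OnePoint
open scoped ComplexConjugate

noncomputable section

/-- the exponents which occur in theta -/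
theorem exp_facts {A : ℤ} (hcq : CQ A 0) (hA : A % 4 = 2 ∨ A % 4 = 3) {f : ℕ}
    (hqf : qR A ∣ f) {e : OO A 0 → ℂ} (he : IsEI (idl (A := A) (B := 0) (2 * f)) e)
    {b : Ideal (OO A 0)} (hb : b ≠ ⊥) {x : OO A 0} (hx : x ∈ b) (hx0 : e x ≠ 0) :
    InH A (nm x) ∧ 0 < MUXF.qb b x ∧ MUXF.qb b x % 2 = 1 ∧
      nm x = (nI b : ℤ) * MUXF.qb b x ∧ jacobiSym A (MUXF.qb b x).toNat = 1 := by
  have hA0 : A < 0 := by
    have := hcq.neg
    omega
  obtain ⟨h1, h2⟩ := (MUXF.xf_QB A 0 (toCQ hcq) b hb).1 x hx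
  have h5 := (he.supp _).1 hx0
  -- the norm is odd
  have hcop2 : IsCoprime x ((2 : ℕ) : OO A 0) := by
    rw [← Ideal.isCoprime_span_singleton_iff]
    rw [Ideal.isCoprime_iff_sup_eq] at h5 ⊢
    refine top_le_iff.1 (h5 ▸ sup_le_sup_left ?_ _)
    rw [Ideal.span_singleton_le_span_singleton]
    exact ⟨((f : ℕ) : OO A 0), by push_cast; ring⟩
  have hcopq : IsCoprime x ((qR A : ℕ) : OO A 0) := by
    rw [← Ideal.isCoprime_span_singleton_iff]
    rw [Ideal.isCoprime_iff_sup_eq] at h5 ⊢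
    refine top_le_iff.1 (h5 ▸ sup_le_sup_left ?_ _)
    rw [Ideal.span_singleton_le_span_singleton]
    obtain ⟨t, ht⟩ := hqf
    exact ⟨((2 * t : ℕ) : OO A 0), by rw [ht]; push_cast; ring⟩
  have hcopD : IsCoprime x ((absD A 0 : ℤ) : OO A 0) := by
    have h6 : IsCoprime x (((8 * qR A : ℕ) : OO A 0)) := by
      have h7 : ((8 * qR A : ℕ) : OO A 0) = ((2 : ℕ) : OO A 0) ^ 3 * ((qR A : ℕ) : OO A 0) := by
        push_cast
        ring
      rw [h7]
      exact (hcop2.pow_right).mul_right hcopq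
    have h7 : (absD A 0 : ℤ) ∣ ((8 * qR A : ℕ) : ℤ) := by
      obtain ⟨-, h8⟩ := qR_spec hA0 hA
      rcases h8 with ⟨-, -, h8⟩ | ⟨-, -, h8⟩ | ⟨-, -, h8⟩
      · exact ⟨2, by unfold absD; push_cast; linarith⟩
      · exact ⟨1, by unfold absD; push_cast; linarith⟩
      · exact ⟨1, by unfold absD; push_cast; linarith⟩
    obtain ⟨t, ht⟩ := h7
    have h8 : ((8 * qR A : ℕ) : OO A 0) = ((absD A 0 : ℤ) : OO A 0) * ((t : ℤ) : OO A 0) := by
      have h9 : ((8 * qR A : ℕ) : OO A 0) = (((8 * qR A : ℕ) : ℤ) : OO A 0) := by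
        push_cast
        rfl
      rw [h9, ht]
      push_cast
      rfl
    rw [h8] at h6
    exact h6.of_mul_right_left
  have hodd : nm x % 2 = 1 := by
    obtain ⟨s, t, hst⟩ := hcop2
    have e1 := congrArg QuadraticAlgebra.re hst
    have e2 := congrArg QuadraticAlgebra.im hst
    rw [QuadraticAlgebra.re_add, QuadraticAlgebra.re_mul, QuadraticAlgebra.re_mul,
      QuadraticAlgebra.re_natCast, QuadraticAlgebra.im_natCast, QuadraticAlgebra.re_one] at e1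
    rw [QuadraticAlgebra.im_add, QuadraticAlgebra.im_mul, QuadraticAlgebra.im_mul,
      QuadraticAlgebra.re_natCast, QuadraticAlgebra.im_natCast, QuadraticAlgebra.im_one] at e2
    by_contra hne
    have h0 : nm x % 2 = 0 := by omega
    have hnm : nm x = x.re ^ 2 - A * x.im ^ 2 := by unfold nm; ring
    -- `nm s nm x = 1` modulo 2
    have h9 : (s.re ^ 2 - A * s.im ^ 2) * (x.re ^ 2 - A * x.im ^ 2) =
        (s.re * x.re + A * s.im * x.im) ^ 2 - A * (s.re * x.im + s.im * x.re) ^ 2 := by ring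
    have e3 : s.re * x.re + A * s.im * x.im = 1 - 2 * t.re := by
      push_cast at e1
      linarith
    have e4 : s.re * x.im + s.im * x.re = -(2 * t.im) := by
      push_cast at e2
      linarith
    rw [e3, e4, ← hnm] at h9
    obtain ⟨m, hm⟩ : ∃ m, nm x = 2 * m := ⟨nm x / 2, by omega⟩
    rw [hm] at h9
    have h10 : 2 * ((s.re ^ 2 - A * s.im ^ 2) * m - (2 * t.re ^ 2 - 2 * t.re -
        2 * A * t.im ^ 2)) = 1 := by linear_combination h9
    omega
  have hqb1 : MUXF.qb b x % 2 = 1 := by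
    by_contra hne
    have h0 : MUXF.qb b x % 2 = 0 := by omega
    obtain ⟨m, hm⟩ : ∃ m, MUXF.qb b x = 2 * m := ⟨MUXF.qb b x / 2, by omega⟩
    have h9 : nm x = 2 * ((MUXF.nI b : ℤ) * m) := by rw [h1, hm]; ring
    omega
  obtain ⟨h6, h7⟩ := MUXF.xf_REC A 0 (toCQ hcq) b hb x hx hcopD
  have hpos : 0 < MUXF.qb b x := by omega
  refine ⟨nm_inH hA x hodd, hpos, hqb1, h1, ?_⟩
  have h8 : MUXF.chiQ A 0 (MUXF.qb b x) =
      jacobiSym A (MUXF.qb b x).natAbs * (MUXF.qb b x).sign := by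
    unfold MUXF.chiQ
    rw [if_neg (by norm_num)]
  rw [h7, Int.sign_eq_one_of_pos hpos, mul_one] at h8
  have h9 : (MUXF.qb b x).natAbs = (MUXF.qb b x).toNat := by omega
  rw [← h9]
  exact h8.symm

open MUXF.PRJ in
/-- the projector on the part of the symbol with exponents in the support of `φ` -/
theorem prj_pos {A B : ℤ} (hcq : CQ A B) {b g : Ideal (OO A B)} (hb : b ≠ ⊥) (hg : g ≠ ⊥)
    {e : OO A B → ℂ} (he : IsEI g e) {q : ℕ} (hq : q ≠ 0) {φ : ℤ → ℂ}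
    (hφ : ∀ n, φ (n + q) = φ n)
    (hv : ∀ x ∈ b, e x ≠ 0 → φ (MUXF.qb b x) = 1) (x y : OnePoint ℚ) :
    ∑ a ∈ Finset.range q, cf q φ a * PhiI b e (mob q a 0 q x) (mob q a 0 q y) =
      PhiI b e x y := by
  obtain ⟨-, C, -, hC⟩ := MUXF.xf_BDD A B (toCQ hcq) g e hg (toEI he)
  have a1 : ∀ r : ℚ, ∑ a ∈ Finset.range q, cf q φ a * MUXF.IvI b e (r + (1 : ℤ) * (a / q)) =
      1 * MUXF.IvI b e r :=
    twistI MUXF.xf_QB MUXF.xf_ALG MUXF.xf_TSM MUXF.xf_ITG (toCQ hcq) hb hg (toEI he) hC hq hφ 1 1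
      (by
        intro x hx hx0
        rw [one_mul]
        exact hv x hx hx0)
  have b1 : ∀ x : OnePoint ℚ, ∑ a ∈ Finset.range q, cf q φ a * MUXF.IcI b e (mob q a 0 q x) =
      MUXF.IcI b e x := by
    intro x
    induction x using OnePoint.rec with
    | infty =>
      have e1 : ∀ a : ℤ, MUXF.IcI b e (mob q a 0 q ∞) = 0 := by
        intro a
        rw [mob2 _ _ _ _ rfl]
        rfl
      have e2 : MUXF.IcI b e ∞ = 0 := rfl
      simp only [e1, e2, mul_zero, Finset.sum_const_zero]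
    | coe r =>
      have e1 := a1 r
      have e2 : MUXF.IcI b e ((r : ℚ) : OnePoint ℚ) = MUXF.IvI b e r := rfl
      rw [e2, ← one_mul (MUXF.IvI b e r), ← e1]
      refine Finset.sum_congr rfl fun a _ => ?_
      rw [mob1 hq]
      have e3 : MUXF.IcI b e ((r + ((a : ℤ) : ℚ) / (q : ℚ) : ℚ) : OnePoint ℚ) =
        MUXF.IvI b e (r + ((a : ℤ) : ℚ) / (q : ℚ)) := rfl
      rw [e3]
      congr 2
      push_cast
      ring
  show ∑ a ∈ Finset.range q, cf q φ a * MUXF.PhiI b e (mob q a 0 q x) (mob q a 0 q y) =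
      MUXF.PhiI b e x y
  have e1 : ∀ a ∈ Finset.range q, cf q φ a * MUXF.PhiI b e (mob q a 0 q x) (mob q a 0 q y) =
      cf q φ a * MUXF.IcI b e (mob q a 0 q x) - cf q φ a * MUXF.IcI b e (mob q a 0 q y) := by
    intro a _
    unfold MUXF.PhiI
    ring
  rw [Finset.sum_congr rfl e1, Finset.sum_sub_distrib, b1, b1]
  rfl

open MUXF.PRJ in
/-- the projector on the part of the symbol with exponents not in the support of `φ` -/
theorem prj_neg {A B : ℤ} (hcq : CQ A B) {b g : Ideal (OO A B)} (hb : b ≠ ⊥) (hg : g ≠ ⊥)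
    {e : OO A B → ℂ} (he : IsEI g e) {q : ℕ} (hq : q ≠ 0) {φ : ℤ → ℂ}
    (hφ : ∀ n, φ (n + q) = φ n)
    (hv : ∀ x ∈ b, e x ≠ 0 → φ (-MUXF.qb b x) = 0) (x y : OnePoint ℚ) :
    ∑ a ∈ Finset.range q, cf q φ a * PhiI b e (mob (-1) 0 0 1 (mob q a 0 q x))
      (mob (-1) 0 0 1 (mob q a 0 q y)) = 0 := by
  obtain ⟨-, C, -, hC⟩ := MUXF.xf_BDD A B (toCQ hcq) g e hg (toEI he)
  have a2 : ∀ r : ℚ, ∑ a ∈ Finset.range q, cf q φ a * MUXF.IvI b e (r + (-1 : ℤ) * (a / q)) =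
      0 * MUXF.IvI b e r :=
    twistI MUXF.xf_QB MUXF.xf_ALG MUXF.xf_TSM MUXF.xf_ITG (toCQ hcq) hb hg (toEI he) hC hq hφ
      (-1) 0 (by
        intro x hx hx0
        rw [neg_one_mul]
        exact hv x hx hx0)
  have b2 : ∀ x : OnePoint ℚ, ∑ a ∈ Finset.range q,
      cf q φ a * MUXF.IcI b e (mob (-1) 0 0 1 (mob q a 0 q x)) = 0 := by
    intro x
    induction x using OnePoint.rec with
    | infty =>
      have e1 : ∀ a : ℤ, MUXF.IcI b e (mob (-1) 0 0 1 (mob q a 0 q ∞)) = 0 := by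
        intro a
        rw [mob2 _ _ _ _ rfl, mob2 _ _ _ _ rfl]
        rfl
      simp only [e1, mul_zero, Finset.sum_const_zero]
    | coe r =>
      have e1 := a2 (-r)
      rw [zero_mul] at e1
      rw [← e1]
      refine Finset.sum_congr rfl fun a _ => ?_
      rw [mob1 hq, mob3]
      have e3 : MUXF.IcI b e ((-(r + ((a : ℤ) : ℚ) / (q : ℚ)) : ℚ) : OnePoint ℚ) =
        MUXF.IvI b e (-(r + ((a : ℤ) : ℚ) / (q : ℚ))) := rfl
      rw [e3]
      congr 2
      push_cast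
      ring
  show ∑ a ∈ Finset.range q, cf q φ a * MUXF.PhiI b e (mob (-1) 0 0 1 (mob q a 0 q x))
      (mob (-1) 0 0 1 (mob q a 0 q y)) = 0
  have e1 : ∀ a ∈ Finset.range q, cf q φ a * MUXF.PhiI b e (mob (-1) 0 0 1 (mob q a 0 q x))
      (mob (-1) 0 0 1 (mob q a 0 q y)) =
      cf q φ a * MUXF.IcI b e (mob (-1) 0 0 1 (mob q a 0 q x)) -
        cf q φ a * MUXF.IcI b e (mob (-1) 0 0 1 (mob q a 0 q y)) := by
    intro a _
    unfold MUXF.PhiI
    ring
  rw [Finset.sum_congr rfl e1, Finset.sum_sub_distrib, b2, b2, sub_zero]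

end

end Pool.Agent.N2U
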