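import Pool.Agent.N2.U_Prj
import Pool.Agent.MUX.HX_HK

/-!
# N2, 2 ramified, block H (helper41): the symbol with exponents in `{1, h}` modulo 8
-/

set_option autoImplicit false

namespace Pool.Agent.N2U

open _root_.MU3 Pool.Agent.MU3A Pool.Agent.MU3B Pool.Agent.MU3F Pool.Agent.MUX Pool.Agent.MUXH
  Pool.Agent.MUXHY Pool.Agent.MuSym Pool.Agent.N2 OnePoint
open scoped ComplexConjugate

noncomputable section

/-- the two parts of the symbol: `Σ kP_i Φ_i(x, y) + Σ kM_i Φ_i(-x, -y)` -/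
def PhiU {A B : ℤ} {n : ℕ} {ι : Type} [Fintype ι] (R : Reps A B n ι) (e : OO A B → ℂ)
    (kP kM : ι → ℂ) (x y : OnePoint ℚ) : ℂ :=
  PhiK R e kP x y + PhiK R e kM (mob (-1) 0 0 1 x) (mob (-1) 0 0 1 y)

theorem isSym_neg {N : ℕ} {nu : ℤ → ℂ} {P : OnePoint ℚ → OnePoint ℚ → ℂ}
    (hP : IsSym N nu P) : IsSym N nu (fun x y => P (mob (-1) 0 0 1 x) (mob (-1) 0 0 1 y)) := by
  refine ⟨fun x y z => hP.add _ _ _, ?_⟩
  intro a b c d hdet hc x y
  beta_reduce
  rw [Hk.mob_conj, Hk.mob_conj, hP.equiv a (-b) (-c) d (by linarith) ((dvd_neg).2 hc)]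

theorem isSym_add {N : ℕ} {nu : ℤ → ℂ} {P Q : OnePoint ℚ → OnePoint ℚ → ℂ}
    (hP : IsSym N nu P) (hQ : IsSym N nu Q) : IsSym N nu (fun x y => P x y + Q x y) := by
  refine ⟨fun x y z => ?_, ?_⟩
  · beta_reduce
    rw [← hP.add x y z, ← hQ.add x y z]
    ring
  · intro a b c d hdet hc x y
    beta_reduce
    rw [hP.equiv a b c d hdet hc, hQ.equiv a b c d hdet hc]
    ring

theorem ex_add' (r t : ℚ) : ex (r + t) = ex r * ex t := by
  unfold ex
  rw [← Complex.exp_add]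
  congr 1
  push_cast
  ring

theorem ex_int' (k : ℤ) : ex (k : ℚ) = 1 := by
  unfold ex
  rw [Complex.exp_eq_one_iff]
  exact ⟨k, by push_cast; ring⟩

theorem ex_pow' (r : ℚ) (b : ℕ) : ex r ^ b = ex (b * r) := by
  induction b with
  | zero =>
    rw [pow_zero]
    have := ex_int' 0
    simpa using this.symm
  | succ b ih =>
    rw [pow_succ, ih, ← ex_add']
    congr 1
    push_cast
    ring

/-- `ex (n / 8)` depends on `n` modulo 8 -/
theorem ex8 (n m : ℤ) (h : n % 8 = m % 8) : ex ((n : ℚ) / 8) = ex ((m : ℚ) / 8) := by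
  obtain ⟨k, hk⟩ : ∃ k, n = m + 8 * k := ⟨(n - m) / 8, by omega⟩
  rw [hk]
  have h1 : (((m + 8 * k : ℤ) : ℚ) / 8) = (m : ℚ) / 8 + ((k : ℤ) : ℚ) := by
    push_cast
    ring
  rw [h1, ex_add', ex_int', mul_one]

theorem om8_prim : IsPrimitiveRoot (ex (1 / 8)) 8 := by
  have h := Complex.isPrimitiveRoot_exp 8 (by norm_num)
  have e1 : ex (1 / 8) = Complex.exp (2 * Real.pi * Complex.I / (8 : ℕ)) := by
    unfold ex
    congr 1
    push_cast
    ring
  rw [e1]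
  exact h

/-- the quadratic relation for one exponent -/
theorem quad {A n : ℤ} (h : InH A n) : ex ((1 / 4) * n) -
    (ex (1 / 8) + ex (1 / 8) ^ hR A) * ex ((1 / 8) * n) + ex (1 / 8) ^ (1 + hR A) = 0 := by
  have e1 : ex ((1 / 4) * (n : ℚ)) = ex ((n : ℚ) / 8) ^ 2 := by
    rw [ex_pow']
    congr 1
    push_cast
    ring
  have e2 : ex ((1 / 8) * (n : ℚ)) = ex ((n : ℚ) / 8) := by
    congr 1
    ring
  have e3 : ex ((n : ℚ) / 8) = ex (1 / 8) ∨ ex ((n : ℚ) / 8) = ex (1 / 8) ^ hR A := by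
    rcases h with h | h
    · left
      rw [ex8 n 1 (by omega)]
      norm_num
    · right
      rw [ex_pow', ex8 n (hR A) (by
        have h5 : hR A < 8 := by
          unfold hR
          split_ifs <;> norm_num
        omega)]
      congr 1
      push_cast
      ring
  rw [e1, e2, pow_add, pow_one]
  rcases e3 with e3 | e3 <;> rw [e3] <;> ring

/-- the relation for a symbol with exponents in `H` (`s = 1`) or in `-H` (`s = -1`) -/
theorem rel_one {A : ℤ} (hcq : CQ A 0) {g : Ideal (OO A 0)} (hg : g ≠ ⊥) {e : OO A 0 → ℂ}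
    (he : IsEI g e) {b : Ideal (OO A 0)} (hb : b ≠ ⊥) (s : ℤ)
    (h : ∀ x ∈ b, e x ≠ 0 → InH A (s * MUXF.qb b x)) (x : ℚ) :
    PhiI b e ∞ ((x + s * (1 / 4) : ℚ) : OnePoint ℚ) -
      (ex (1 / 8) + ex (1 / 8) ^ hR A) * PhiI b e ∞ ((x + s * (1 / 8) : ℚ) : OnePoint ℚ) +
      ex (1 / 8) ^ (1 + hR A) * PhiI b e ∞ (x : OnePoint ℚ) = 0 := by
  have h1 := phi_rel hcq hg he hb (Finset.range 3)
    (fun j => if j = 0 then 1 else if j = 1 then -(ex (1 / 8) + ex (1 / 8) ^ hR A) else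
      ex (1 / 8) ^ (1 + hR A))
    (fun j => if j = 0 then s * (1 / 4) else if j = 1 then s * (1 / 8) else 0) (by
      intro y hy hy0
      have h2 := quad (h y hy hy0)
      rw [Finset.sum_range_succ, Finset.sum_range_succ, Finset.sum_range_succ,
        Finset.sum_range_zero]
      norm_num
      have h3 : ex 0 = 1 := by
        have := ex_int' 0
        simpa using this
      rw [h3]
      have e1 : ((s : ℚ) * (1 / 4) * ((MUXF.qb b y : ℤ) : ℚ)) =
          (1 / 4) * (((s * MUXF.qb b y : ℤ)) : ℚ) := by push_cast; ring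
      have e2 : ((s : ℚ) * (1 / 8) * ((MUXF.qb b y : ℤ) : ℚ)) =
          (1 / 8) * (((s * MUXF.qb b y : ℤ)) : ℚ) := by push_cast; ring
      rw [e1, e2]
      linear_combination h2) x
  rw [Finset.sum_range_succ, Finset.sum_range_succ, Finset.sum_range_succ,
    Finset.sum_range_zero] at h1
  norm_num at h1
  norm_num
  linear_combination h1

theorem mob_inf' : mob (-1) 0 0 1 ∞ = ∞ := by
  show (if (0 : ℤ) = 0 then (∞ : OnePoint ℚ) else ((((-1 : ℤ) : ℚ) / (0 : ℤ) : ℚ) : OnePoint ℚ)) = ∞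
  rw [if_pos rfl]

/-- the relation for the whole symbol -/
theorem relU {A : ℤ} (hcq : CQ A 0) {g : Ideal (OO A 0)} (hg : g ≠ ⊥) {e : OO A 0 → ℂ}
    (he : IsEI g e) {n : ℕ} {ι : Type} [Fintype ι] (R : Reps A 0 n ι) (kP kM : ι → ℂ)
    (hP : ∀ i, kP i ≠ 0 → ∀ x ∈ R.b i, e x ≠ 0 → InH A (MUXF.qb (R.b i) x))
    (hM : ∀ i, kM i ≠ 0 → ∀ x ∈ R.b i, e x ≠ 0 → InH A (-MUXF.qb (R.b i) x)) (x : ℚ) :
    PhiU R e kP kM ∞ ((x + 1 / 4 : ℚ) : OnePoint ℚ) -
      (ex (1 / 8) + ex (1 / 8) ^ hR A) * PhiU R e kP kM ∞ ((x + 1 / 8 : ℚ) : OnePoint ℚ) +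
      ex (1 / 8) ^ (1 + hR A) * PhiU R e kP kM ∞ (x : OnePoint ℚ) = 0 := by
  have h1 : PhiK R e kP ∞ ((x + 1 / 4 : ℚ) : OnePoint ℚ) -
      (ex (1 / 8) + ex (1 / 8) ^ hR A) * PhiK R e kP ∞ ((x + 1 / 8 : ℚ) : OnePoint ℚ) +
      ex (1 / 8) ^ (1 + hR A) * PhiK R e kP ∞ (x : OnePoint ℚ) = 0 := by
    unfold PhiK
    rw [Finset.mul_sum, Finset.mul_sum, ← Finset.sum_sub_distrib, ← Finset.sum_add_distrib]
    refine Finset.sum_eq_zero fun i _ => ?_
    by_cases h0 : kP i = 0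
    · rw [h0]
      ring
    · have h2 := rel_one hcq hg he (R.nl i).b_ne 1 (by
        intro y hy hy0
        rw [one_mul]
        exact hP i h0 y hy hy0) x
      have e1 : (x + ((1 : ℤ) : ℚ) * (1 / 4) : ℚ) = x + 1 / 4 := by norm_num
      have e2 : (x + ((1 : ℤ) : ℚ) * (1 / 8) : ℚ) = x + 1 / 8 := by norm_num
      rw [e1, e2] at h2
      linear_combination kP i * h2
  have h2 : PhiK R e kM ∞ ((-(x + 1 / 4) : ℚ) : OnePoint ℚ) -
      (ex (1 / 8) + ex (1 / 8) ^ hR A) * PhiK R e kM ∞ ((-(x + 1 / 8) : ℚ) : OnePoint ℚ) +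
      ex (1 / 8) ^ (1 + hR A) * PhiK R e kM ∞ ((-x : ℚ) : OnePoint ℚ) = 0 := by
    unfold PhiK
    rw [Finset.mul_sum, Finset.mul_sum, ← Finset.sum_sub_distrib, ← Finset.sum_add_distrib]
    refine Finset.sum_eq_zero fun i _ => ?_
    by_cases h0 : kM i = 0
    · rw [h0]
      ring
    · have h2 := rel_one hcq hg he (R.nl i).b_ne (-1) (by
        intro y hy hy0
        rw [neg_one_mul]
        exact hM i h0 y hy hy0) (-x)
      have e1 : (-x + ((-1 : ℤ) : ℚ) * (1 / 4) : ℚ) = -(x + 1 / 4) := by push_cast; ring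
      have e2 : (-x + ((-1 : ℤ) : ℚ) * (1 / 8) : ℚ) = -(x + 1 / 8) := by push_cast; ring
      rw [e1, e2] at h2
      linear_combination kM i * h2
  unfold PhiU
  rw [mob_inf', Pool.Agent.MU3H.Qs.mob_neg, Pool.Agent.MU3H.Qs.mob_neg,
    Pool.Agent.MU3H.Qs.mob_neg]
  linear_combination h1 + h2

/-- classes of norms which occur -/
theorem inH_nI {A : ℤ} (hcq : CQ A 0) (hA : A % 4 = 2 ∨ A % 4 = 3) {f : ℕ} (hqf : qR A ∣ f)
    {e : OO A 0 → ℂ} (he : IsEI (idl (A := A) (B := 0) (2 * f)) e) {b : Ideal (OO A 0)}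
    (hb : b ≠ ⊥) (s : ℤ) (hs : InH A (s * nI b)) {x : OO A 0} (hx : x ∈ b) (hx0 : e x ≠ 0) :
    InH A (s * MUXF.qb b x) ∨ ¬ (s = 1 ∨ s = -1) := by
  by_cases h1 : s = 1 ∨ s = -1
  · left
    obtain ⟨h2, -, -, h3, -⟩ := exp_facts hcq hA hqf he hb hx hx0
    have h4 : s * s = 1 := by rcases h1 with rfl | rfl <;> norm_num
    have h5 : InH A ((s * nI b) * (s * MUXF.qb b x)) := by
      have h6 : (s * nI b) * (s * MUXF.qb b x) = nm x := by
        rw [h3]
        linear_combination ((nI b : ℤ) * MUXF.qb b x) * h4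
      rw [h6]
      exact h2
    exact (inH_mul hA hs).1 h5
  · exact Or.inr h1

/-- the projector -/
theorem prjU (V : ValuationSubring ℂ) {A : ℤ} (hcq : CQ A 0) (hA : A % 4 = 2 ∨ A % 4 = 3)
    (hr : ∀ (r : ℕ) (z : ℂ), r ≠ 0 → z ^ r = 1 → V.valuation z = 1)
    (hv : V.valuation ((qR A : ℕ) : ℂ) = 1) {f : ℕ} (hqf : qR A ∣ f)
    (hg : idl (A := A) (B := 0) (2 * f) ≠ ⊥)
    {e : OO A 0 → ℂ} (he : IsEI (idl (A := A) (B := 0) (2 * f)) e) {n : ℕ} {ι : Type}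
    [Fintype ι] (R : Reps A 0 n ι) (kP kM : ι → ℂ)
    (hP : ∀ i, kP i ≠ 0 → InH A (nI (R.b i)))
    (hM : ∀ i, kM i ≠ 0 → InH A (-(nI (R.b i) : ℤ))) (Z : ℂ) :
    ∃ (q : ℕ) (c : ℕ → ℂ), q ≠ 0 ∧ (∀ t, V.valuation (c t) ≤ 1) ∧ ∀ x y : OnePoint ℚ,
      ∑ t ∈ Finset.range q, c t * (PhiU R e kP kM (mob q t 0 q x) (mob q t 0 q y) / Z) =
        PhiK R e kP x y / Z := by
  have hA0 : A < 0 := by
    have := hcq.neg
    omega
  obtain ⟨hqo, -⟩ := qR_spec hA0 hA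
  have hq0 : qR A ≠ 0 := by
    rintro h
    rw [h] at hqo
    exact absurd hqo (by decide)
  obtain ⟨φ, hφd⟩ : ∃ φ : ℤ → ℂ, φ = fun n => if jacobiSym n (qR A) = 1 then 1 else 0 :=
    ⟨_, rfl⟩
  have hφ01 : ∀ n, φ n = 0 ∨ φ n = 1 := by
    intro n
    rw [hφd]
    beta_reduce
    split_ifs
    · exact Or.inr rfl
    · exact Or.inl rfl
  have hφp : ∀ n, φ (n + (qR A : ℤ)) = φ n := by
    intro n
    have h1 : jacobiSym (n + (qR A : ℤ)) (qR A) = jacobiSym n (qR A) := by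
      apply jacobiSym.mod_left'
      rw [Int.add_emod_right]
    rw [hφd]
    beta_reduce
    rw [h1]
  refine ⟨qR A, MUXF.PRJ.cf (qR A) φ, hq0, fun t => Prx.val_le V hr _ hq0 hv φ hφ01 t,
    fun x y => ?_⟩
  have key1 : ∀ i, ∑ t ∈ Finset.range (qR A), MUXF.PRJ.cf (qR A) φ t *
      (kP i * PhiI (R.b i) e (mob (qR A) t 0 (qR A) x) (mob (qR A) t 0 (qR A) y)) =
      kP i * PhiI (R.b i) e x y := by
    intro i
    by_cases h0 : kP i = 0
    · rw [h0]
      simp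
    · rw [← prj_pos hcq (R.nl i).b_ne hg he hq0 hφp (by
        intro y hy hy0
        obtain ⟨h2, h3, h4, h5, h6⟩ := exp_facts hcq hA hqf he (R.nl i).b_ne hy hy0
        have h7 : InH A (MUXF.qb (R.b i) y) := by
          have h8 := inH_nI hcq hA hqf he (R.nl i).b_ne 1 (by rw [one_mul]; exact hP i h0) hy hy0
          rcases h8 with h8 | h8
          · rwa [one_mul] at h8
          · exact absurd (Or.inl rfl) h8
        have h9 := (jac hA0 hA (MUXF.qb (R.b i) y).toNat (by omega) h6).1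
        rw [Int.toNat_of_nonneg h3.le] at h9
        rw [hφd]
        beta_reduce
        rw [if_pos (h9 h7)]) x y, Finset.mul_sum]
      refine Finset.sum_congr rfl fun t _ => ?_
      ring
  have key2 : ∀ i, ∑ t ∈ Finset.range (qR A), MUXF.PRJ.cf (qR A) φ t *
      (kM i * PhiI (R.b i) e (mob (-1) 0 0 1 (mob (qR A) t 0 (qR A) x))
        (mob (-1) 0 0 1 (mob (qR A) t 0 (qR A) y))) = 0 := by
    intro i
    by_cases h0 : kM i = 0
    · rw [h0]
      simp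
    · have h1 := prj_neg hcq (R.nl i).b_ne hg he hq0 hφp (by
        intro y hy hy0
        obtain ⟨h2, h3, h4, h5, h6⟩ := exp_facts hcq hA hqf he (R.nl i).b_ne hy hy0
        have h7 : InH A (-MUXF.qb (R.b i) y) := by
          have h8 := inH_nI hcq hA hqf he (R.nl i).b_ne (-1)
            (by rw [neg_one_mul]; exact hM i h0) hy hy0
          rcases h8 with h8 | h8
          · rwa [neg_one_mul] at h8
          · exact absurd (Or.inr rfl) h8
        have h9 := (jac hA0 hA (MUXF.qb (R.b i) y).toNat (by omega) h6).2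
        rw [Int.toNat_of_nonneg h3.le] at h9
        rw [hφd]
        beta_reduce
        rw [if_neg (by rw [h9 h7]; norm_num)]) x y
      have h2 : ∑ t ∈ Finset.range (qR A), MUXF.PRJ.cf (qR A) φ t *
          (kM i * PhiI (R.b i) e (mob (-1) 0 0 1 (mob (qR A) t 0 (qR A) x))
          (mob (-1) 0 0 1 (mob (qR A) t 0 (qR A) y))) = kM i *
          ∑ t ∈ Finset.range (qR A), MUXF.PRJ.cf (qR A) φ t *
          PhiI (R.b i) e (mob (-1) 0 0 1 (mob (qR A) t 0 (qR A) x))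
          (mob (-1) 0 0 1 (mob (qR A) t 0 (qR A) y)) := by
        rw [Finset.mul_sum]
        refine Finset.sum_congr rfl fun t _ => ?_
        ring
      rw [h2, h1, mul_zero]
  have e1 : ∀ t ∈ Finset.range (qR A), MUXF.PRJ.cf (qR A) φ t *
      (PhiU R e kP kM (mob (qR A) t 0 (qR A) x) (mob (qR A) t 0 (qR A) y) / Z) =
      (∑ i, MUXF.PRJ.cf (qR A) φ t *
      (kP i * PhiI (R.b i) e (mob (qR A) t 0 (qR A) x) (mob (qR A) t 0 (qR A) y)) +
      ∑ i, MUXF.PRJ.cf (qR A) φ t *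
      (kM i * PhiI (R.b i) e (mob (-1) 0 0 1 (mob (qR A) t 0 (qR A) x))
        (mob (-1) 0 0 1 (mob (qR A) t 0 (qR A) y)))) / Z := by
    intro t _
    unfold PhiU PhiK
    rw [← Finset.mul_sum, ← Finset.mul_sum]
    ring
  rw [Finset.sum_congr rfl e1, ← Finset.sum_div, Finset.sum_add_distrib, Finset.sum_comm,
    Finset.sum_congr rfl (fun i _ => key1 i)]
  have e2 : ∑ t ∈ Finset.range (qR A), ∑ i, MUXF.PRJ.cf (qR A) φ t *
      (kM i * PhiI (R.b i) e (mob (-1) 0 0 1 (mob (qR A) t 0 (qR A) x))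
        (mob (-1) 0 0 1 (mob (qR A) t 0 (qR A) y))) = 0 := by
    rw [Finset.sum_comm]
    exact Finset.sum_eq_zero fun i _ => key2 i
  rw [e2, add_zero]
  rfl

end

end Pool.Agent.N2U
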