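import Pool.Agent.N2.StER2

/-!
# MUX-2R, block ER2, module COE (helper73; port of `E_COE.lean`, helper83): the coefficients of the good model
-/

set_option autoImplicit false

open Polynomial

namespace Pool.Agent.N2V

open _root_.MU3 Pool.Agent.MU3A Pool.Agent.MU3B Pool.Agent.MUX Pool.Agent.MUXU Pool.Agent.MUXE
open Pool.Agent.RI Pool.Agent.NS Pool.Agent.N2
open Pool.Agent.NSE (IntP)
open Pool.Agent.MUX2 (GRG)
open Pool.Agent.MUXV (InK tX)

noncomputable section

namespace COE

lemma hasDeriv (L : PeriodPair) {z : ℂ} (hz : z ∉ L.lattice) :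
    HasDerivAt L.weierstrassP (L.derivWeierstrassP z) z := by
  have h1 : DifferentiableAt ℂ L.weierstrassP z :=
    L.differentiableOn_weierstrassP.differentiableAt
      (L.isClosed_lattice.isOpen_compl.mem_nhds hz)
  have h2 := h1.hasDerivAt
  rwa [L.deriv_weierstrassP] at h2

end COE

open COE in
theorem tv_COE : Sv_COE := by
  intro V L u e a1 a3 hG h2
  have hu := hG.u0
  -- the polynomial identity
  have key : ∀ T : ℂ, 4 * T ^ 3 - L.g₂ * T - L.g₃ =
      4 * (T - e) ^ 3 + u ^ 2 * (a1 * (T - e) + a3 * u ^ 2) ^ 2 := by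
    intro T
    obtain ⟨z, hz, hT⟩ := b_SUR L T
    have h1 := L.derivWeierstrassP_sq z hz
    have h3 := hG.eq z hz
    rw [← hT, ← h1]
    have h4 : L.derivWeierstrassP z ^ 2 =
        (L.derivWeierstrassP z / u ^ 3) ^ 2 * u ^ 6 := by
      field_simp
    rw [h4, h3]
    field_simp
  have k0 := key 0
  have k1 := key 1
  have k2 := key (-1)
  have b1 : 12 * e = a1 ^ 2 * u ^ 2 := by
    linear_combination (1 / 2 : ℂ) * k1 + (1 / 2 : ℂ) * k2 - k0
  have b2 : 12 * e ^ 2 - L.g₂ = 2 * a1 * a3 * u ^ 4 := by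
    linear_combination (1 / 2 : ℂ) * k1 - (1 / 2 : ℂ) * k2 + 2 * e * b1
  have b3 : 4 * e ^ 3 - L.g₂ * e - L.g₃ = a3 ^ 2 * u ^ 6 := by
    linear_combination k0 + e * b2 - e ^ 2 * b1
  have hv1 : V.valuation (1 : ℂ) = 1 := map_one _
  have v3 : V.valuation (3 : ℂ) = 1 := by
    have h5 : V.valuation ((1 : ℂ) + 2) = V.valuation (1 : ℂ) :=
      Valuation.map_add_eq_of_lt_left _ (by rw [hv1]; exact h2)
    rw [hv1] at h5
    rw [← h5]
    congr 1
    norm_num
  have hy : ∀ z, 2 * yt L u e a1 a3 z + a1 * xu L u e z + a3 = et L u z := by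
    intro z
    unfold yt
    ring
  have he : ∀ z ∉ L.lattice,
      et L u z ^ 2 = 4 * xu L u e z ^ 3 + (a1 * xu L u e z + a3) ^ 2 := by
    intro z hz
    exact hG.eq z hz
  have va1 : V.valuation a1 < 1 := by
    by_contra hc
    have hc1 : 1 ≤ V.valuation a1 := not_lt.mp hc
    have hc2 : (1 : V.ValueGroup) ≤ V.valuation a1 ^ 2 := one_le_pow₀ hc1
    exact absurd (lt_of_le_of_lt (hc2.trans hG.v1) h2) (lt_irrefl _)
  refine ⟨b1, b2, b3, v3, va1, hy, he, ?_, ?_, ?_⟩
  · intro z hz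
    have h5 := he z hz
    rw [← hy z] at h5
    linear_combination (1 / 4 : ℂ) * h5
  · intro z hz
    have h5 := ((hasDeriv L hz).sub_const e).div_const (u ^ 2)
    have h6 : L.derivWeierstrassP z / u ^ 2 = u * et L u z := by
      unfold et
      field_simp
    rw [h6] at h5
    exact h5
  · intro z
    have hx : ∀ w ∈ L.lattice, xu L u e (z + w) = xu L u e z := by
      intro w hw
      unfold xu
      rw [L.weierstrassP_add_coe z ⟨w, hw⟩]
    have ht : ∀ w ∈ L.lattice, et L u (z + w) = et L u z := by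
      intro w hw
      unfold et
      rw [L.derivWeierstrassP_add_coe z ⟨w, hw⟩]
    refine ⟨fun w hw => ⟨hx w hw, ht w hw, ?_⟩, ?_, ?_⟩
    · unfold yt
      rw [hx w hw, ht w hw]
    · unfold xu
      rw [L.weierstrassP_neg]
    · unfold et
      rw [L.derivWeierstrassP_neg]
      ring

end

end Pool.Agent.N2V
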