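import Pool.Agent.N2.DefsR2
import Pool.Agent.NS.ZVex2
import Pool.Agent.MUX.ZFinal

/-!
# MUX-2R: the final theorem for `p = 2` ramified in `k`, `D ≠ -4` (helper36)
-/

set_option autoImplicit false

open NumberField IsDedekindDomain

namespace Pool.Agent.N2Z

open _root_.MU3 Pool.Agent.MU3 Pool.Agent.MU3A Pool.Agent.MU3B Pool.Agent.RI Pool.Agent.RID
  Pool.Agent.MUX Pool.Agent.MUXK Pool.Agent.MUXJ Pool.Agent.MUXZ Pool.Agent.MU3Z Pool.Agent.NSZ
  Pool.Agent.N2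

/-- THE MAIN THEOREM, `2` ramified -/
theorem z_main2R (hKAP : SQ_KAP) (hRF : SQ_RFIN) (hG : SQ_INPG) (hJ : SQ_JFIN) (A B : ℤ)
    (hC : CaseR2 A B) (F M K : IntermediateField ℚ ℂ) [FiniteDimensional ℚ M] (hF : kk A B ≤ F)
    (h : F ≤ M) (a : ℕ) (hT : TorU A B F)
    (hGal : IsGalois F (IntermediateField.extendScalars h))
    (ha : Module.finrank F (IntermediateField.extendScalars h) = 2 ^ a) (hK : K ≤ M) :
    ∃ C : ℕ, ∀ (n : ℕ) (Q : IntermediateField ℚ ℂ), IsLayer 2 n Q →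
      padicValNat 2 (classNo (K ⊔ Q)) ≤ C * (n + 1) ^ C := by
  have hCQ : MUX.CQ A B := hC.toCQ
  have hB := hC.b0
  obtain ⟨P, hP, hmax⟩ := exists_isPN 2 Nat.prime_two A B A (by
    rw [hB]
    have h1 : A % 2 = 0 ∨ A % 2 = 1 := by omega
    push_cast
    rcases h1 with h1 | h1
    · obtain ⟨c, hc⟩ : (2 : ℤ) ∣ A := Int.dvd_of_emod_eq_zero h1
      exact ⟨c - c * A, by rw [hc]; ring⟩
    · obtain ⟨c, hc⟩ : (2 : ℤ) ∣ A - 1 := by omega
      exact ⟨-(c * A), by linear_combination (-A) * hc⟩)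
  obtain ⟨V, hV⟩ := vex hCQ P hmax
  have hTor := MUXC.c_TOR A B hCQ
  have hd3 : absD A B ≠ 3 := by
    intro h
    unfold absD at h
    rw [hB] at h
    omega
  have hd4 : absD A B ≠ 4 := by
    intro h
    apply hC.exc
    unfold absD at h
    rw [hB] at h
    omega
  have hNL : NLex A B := by
    obtain ⟨L, om, hL⟩ := MUXY.z_NLE A B hCQ hd3 hd4 ⊤ (by
      have := (MUXE.xe_RNG A B hCQ).ded
      exact bot_ne_top.symm)
    exact ⟨⊤, L, om, hL⟩
  have hU : UnrH A B V := by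
    have h1 := (hRF A B P V hC hP hV hTor).2 1 one_ne_zero (by norm_num)
    have h2 : idl (A := A) (B := B) 1 = ⊤ := by
      unfold idl
      rw [Nat.cast_one, Ideal.span_singleton_one]
    rw [h2] at h1
    exact h1
  obtain ⟨d, hd0, hd2, hdD, hκ⟩ := hKAP A B hC
  exact hJ A B P V d hC hP hV hd0 hd2 hU hTor hNL (hG A B P V d hC hP hV hTor hd0 hd2 hdD hκ)
    F M K hF h a hT hGal ha hK

/-- every finite extension of `ℚ` inside the maximal abelian extension of `ℚ(√-d)`, `d ≡ 1, 2`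
modulo 4, `d ≠ 1` -/
theorem final2R (hKAP : SQ_KAP) (hRF : SQ_RFIN) (hG : SQ_INPG) (hJ : SQ_JFIN) (d : ℕ)
    (hd : Squarefree d) (h4 : d % 4 ≠ 3) (h1 : d ≠ 1) (K : IntermediateField ℚ ℂ)
    [FiniteDimensional ℚ K] (hK : K ≤ weberField d) :
    ∃ C : ℕ, ∀ (n : ℕ) (Q : IntermediateField ℚ ℂ), IsLayer 2 n Q →
      padicValNat 2 (classNo (K ⊔ Q)) ≤ C * (n + 1) ^ C := by
  have h3 : d ≠ 3 := by omega
  have hC : CaseR2 (pA d) (pB d) := by
    have h5 := absD_p d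
    have hB : pB d = 0 := by
      unfold pB
      rw [if_neg (by omega)]
    refine { cq_p hd with two := ?_, exc := ?_ }
    · rw [hB]
      exact ⟨2 * pA d, by ring⟩
    · intro h6
      unfold absD at h5
      rw [if_neg (by omega), hB, h6] at h5
      omega
  refine to_weber hd h1 h3 (MUXC.c_TOR _ _ (cq_p hd)) ?_ K hK
  intro F M K _ hF h a hT hGal ha hK
  exact z_main2R hKAP hRF hG hJ _ _ hC F M K hF h a hT hGal ha hK

end Pool.Agent.N2Z
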