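import Pool.Agent.N2.I_INPG
import Pool.Agent.NS.ZVex
import Pool.Agent.MUX.JGAll
import Pool.Agent.MUX.ZFinal

/-!
# MUX-2N: the final theorem for `p = 2` inert in `k`, `D ≠ -3` (helper36)
-/

set_option autoImplicit false

open NumberField IsDedekindDomain

namespace Pool.Agent.N2Z

open _root_.MU3 Pool.Agent.MU3 Pool.Agent.MU3A Pool.Agent.MU3B Pool.Agent.RI Pool.Agent.RID
  Pool.Agent.MUX Pool.Agent.MUXK Pool.Agent.MUXJ Pool.Agent.MUXZ Pool.Agent.MU3Z Pool.Agent.NSZ
  Pool.Agent.N2 Pool.Agent.N2I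

theorem caseT_B {A B : ℤ} (hC : CaseT A B) : B = 1 := by
  rcases hC.hB with h | h
  · have h2 := hC.two
    rw [h] at h2
    omega
  · exact h

/-- `2` is a prime element of `O` -/
theorem two_max {A B : ℤ} (hC : CaseT A B) : (idl (A := A) (B := B) 2).IsMaximal := by
  have hB := caseT_B hC
  have h2 := hC.two
  subst hB
  apply idl_max 2 Nat.prime_two
  intro a b h
  have hA : A % 2 = 1 := by omega
  push_cast at h ⊢
  rcases Int.emod_two_eq_zero_or_one a with ha | ha <;>
    rcases Int.emod_two_eq_zero_or_one b with hb | hb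
  · omega
  all_goals
    exfalso
    obtain ⟨c, hc⟩ := h
    have h3 : (a ^ 2 + 1 * a * b - A * b ^ 2) % 2 = 0 := by
      rw [hc]
      omega
    rw [Int.sub_emod, Int.add_emod, Int.mul_emod A, pow_two, pow_two, Int.mul_emod a a,
      Int.mul_emod (1 * a) b, Int.mul_emod 1 a, Int.mul_emod b b, ha, hb, hA] at h3
    norm_num at h3

/-- THE MAIN THEOREM, `2` inert -/
theorem z_main2 (hRF : S2_RFIN) (hG : St_INPG) (A B : ℤ) (hC : CaseT A B)
    (F M K : IntermediateField ℚ ℂ) [FiniteDimensional ℚ M] (hF : kk A B ≤ F) (h : F ≤ M)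
    (a : ℕ) (hT : TorU A B F) (hGal : IsGalois F (IntermediateField.extendScalars h))
    (ha : Module.finrank F (IntermediateField.extendScalars h) = 2 ^ a) (hK : K ≤ M) :
    ∃ C : ℕ, ∀ (n : ℕ) (Q : IntermediateField ℚ ℂ), IsLayer 2 n Q →
      padicValNat 2 (classNo (K ⊔ Q)) ≤ C * (n + 1) ^ C := by
  have : Fact (Nat.Prime 2) := ⟨Nat.prime_two⟩
  have hCQ : MUX.CQ A B := hC.toCQ
  have hmax := two_max hC
  obtain ⟨V, hV⟩ := vex hCQ _ hmax
  have hTor := MUXC.c_TOR A B hCQ
  have hB := caseT_B hC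
  have hpos : 0 < absD A B := by
    have := hCQ.neg
    unfold absD
    omega
  have hodd : absD A B % 2 = 1 := by
    unfold absD
    rw [hB]
    omega
  have hd3 : absD A B ≠ 3 := by
    intro h
    apply hC.exc
    refine ⟨hB, ?_⟩
    unfold absD at h
    rw [hB] at h
    omega
  have hd4 : absD A B ≠ 4 := by omega
  have hNL : NLex A B := by
    obtain ⟨L, om, hL⟩ := MUXY.z_NLE A B hCQ hd3 hd4 ⊤ (by
      have := (MUXE.xe_RNG A B hCQ).ded
      exact bot_ne_top.symm)
    exact ⟨⊤, L, om, hL⟩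
  have hU : UnrH A B V := by
    have h1 := (hRF A B V hC hV hTor).2 1 one_ne_zero (by norm_num)
    have h2 : idl (A := A) (B := B) 1 = ⊤ := by
      unfold idl
      rw [Nat.cast_one, Ideal.span_singleton_one]
    rw [h2] at h1
    exact h1
  refine j_FING 2 1 (3 * (absD A B).toNat) A B (idl 2) V (aboX 2 (Or.inl rfl) hCQ hmax V hV)
    (by omega) (by omega) (by norm_num) hU hTor hNL (hG A B V hC hV hTor) F M K hF h a hT hGal
    ha hK

/-- every finite extension of `ℚ` inside the maximal abelian extension of `ℚ(√-d)`, `d ≡ 3` modulo 8,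
`d ≠ 3` -/
theorem final2 (hRF : S2_RFIN) (hG : St_INPG) (d : ℕ) (hd : Squarefree d) (h8 : d % 8 = 3)
    (h3 : d ≠ 3) (K : IntermediateField ℚ ℂ) [FiniteDimensional ℚ K] (hK : K ≤ weberField d) :
    ∃ C : ℕ, ∀ (n : ℕ) (Q : IntermediateField ℚ ℂ), IsLayer 2 n Q →
      padicValNat 2 (classNo (K ⊔ Q)) ≤ C * (n + 1) ^ C := by
  have h1 : d ≠ 1 := by omega
  have hC : CaseT (pA d) (pB d) := by
    have h4 := absD_p d
    have hB : pB d = 1 := by
      unfold pB
      rw [if_pos (by omega)]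
    refine { cq_p hd with two := ?_, exc := ?_ }
    · unfold absD at h4
      rw [if_pos (by omega)] at h4
      omega
    · rintro ⟨-, h5⟩
      unfold absD at h4
      rw [if_pos (by omega), hB, h5] at h4
      omega
  refine to_weber hd h1 h3 (MUXC.c_TOR _ _ (cq_p hd)) ?_ K hK
  intro F M K _ hF h a hT hGal ha hK
  exact z_main2 hRF hG _ _ hC F M K hF h a hT hGal ha hK

end Pool.Agent.N2Z
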