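import Pool.Agent.N2.ZFinR
import Pool.Agent.N2.IAllR
import Pool.Agent.N2.VAll
import Pool.Agent.N2.KapR
import Pool.Agent.N2.HAllU
import Pool.Agent.N2.KY
import Pool.Agent.MUX.JUAll

/-!
# MUX-2R, all blocks put together: `p = 2` ramified in `k`, `D ≠ -4`, no hypotheses (helper41)
-/

set_option autoImplicit false

open NumberField IsDedekindDomain

namespace Pool.Agent.N2Z

open _root_.MU3 Pool.Agent.MU3 Pool.Agent.MU3A Pool.Agent.MU3B Pool.Agent.RI Pool.Agent.RID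
  Pool.Agent.MUX Pool.Agent.MUXK Pool.Agent.MUXJ Pool.Agent.MUXZ Pool.Agent.MU3Z Pool.Agent.NSZ
  Pool.Agent.N2

/-- the inputs of block J, `2` ramified -/
theorem i_INPGR : SQ_INPG :=
  Pool.Agent.N2IR.r_INPG Pool.Agent.N2R.r_RFINQ
    (Pool.Agent.N2V.v_EFIN Pool.Agent.N2R.r_RFINQ) h_HFINU0

/-- blocks K and J, `2` ramified -/
theorem j_JFINR : SQ_JFIN := Pool.Agent.MUXJ.j_JFIN Pool.Agent.N2K.j_MAINKY

/-- the main theorem for ray class fields, `2` ramified -/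
theorem z_main2ru (A B : ℤ) (hC : CaseR2 A B)
    (F M K : IntermediateField ℚ ℂ) [FiniteDimensional ℚ M] (hF : kk A B ≤ F) (h : F ≤ M)
    (a : ℕ) (hT : TorU A B F) (hGal : IsGalois F (IntermediateField.extendScalars h))
    (ha : Module.finrank F (IntermediateField.extendScalars h) = 2 ^ a) (hK : K ≤ M) :
    ∃ C : ℕ, ∀ (n : ℕ) (Q : IntermediateField ℚ ℂ), IsLayer 2 n Q →
      padicValNat 2 (classNo (K ⊔ Q)) ≤ C * (n + 1) ^ C :=
  z_main2R sq_KAP Pool.Agent.N2R.r_RFINQ i_INPGR j_JFINR A B hC F M K hF h a hT hGal ha hK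

/-- every finite extension of `ℚ` inside the maximal abelian extension of `ℚ(√-d)`, `d ≡ 1, 2`
modulo 4, `d ≠ 1` -/
theorem final2ru (d : ℕ) (hd : Squarefree d) (h4 : d % 4 ≠ 3) (h1 : d ≠ 1)
    (K : IntermediateField ℚ ℂ) [FiniteDimensional ℚ K] (hK : K ≤ weberField d) :
    ∃ C : ℕ, ∀ (n : ℕ) (Q : IntermediateField ℚ ℂ), IsLayer 2 n Q →
      padicValNat 2 (classNo (K ⊔ Q)) ≤ C * (n + 1) ^ C :=
  final2R sq_KAP Pool.Agent.N2R.r_RFINQ i_INPGR j_JFINR d hd h4 h1 K hK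

end Pool.Agent.N2Z
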